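import Mathlib

/-!
# A general one-dimensional weighted Poincaré inequality
-/

namespace Q81.Har

open MeasureTheory Set Filter Topology
open scoped ENNReal

/-- Cauchy-Schwarz on an interval. -/
lemma sq_sub_le {f f' φ φ' : ℝ → ℝ} {y x : ℝ} (hyx : y < x)
    (hf : ∀ t ∈ Icc y x, HasDerivAt f (f' t) t) (hφ : ∀ t ∈ Icc y x, HasDerivAt φ (φ' t) t)
    (hf' : ContinuousOn f' (Icc y x)) (hφ' : ContinuousOn φ' (Icc y x))
    (hpos : ∀ t ∈ Icc y x, 0 < φ' t) :
    0 < φ x - φ y ∧ (f x - f y) ^ 2 ≤ (φ x - φ y) * ∫ t in y..x, f' t ^ 2 / φ' t := by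
  have hu : uIcc y x = Icc y x := uIcc_of_le hyx.le
  have i1 : IntervalIntegrable f' volume y x := (hu ▸ hf').intervalIntegrable
  have i2 : IntervalIntegrable φ' volume y x := (hu ▸ hφ').intervalIntegrable
  have c3 : ContinuousOn (fun t => f' t ^ 2 / φ' t) (Icc y x) :=
    (hf'.pow 2).div hφ' fun t ht => (hpos t ht).ne'
  have i3 : IntervalIntegrable (fun t => f' t ^ 2 / φ' t) volume y x :=
    (hu ▸ c3 : ContinuousOn _ (uIcc y x)).intervalIntegrable
  have e1 : ∫ t in y..x, f' t = f x - f y :=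
    intervalIntegral.integral_eq_sub_of_hasDerivAt (hu ▸ hf) i1
  have e2 : ∫ t in y..x, φ' t = φ x - φ y :=
    intervalIntegral.integral_eq_sub_of_hasDerivAt (hu ▸ hφ) i2
  have hC : 0 < φ x - φ y := by
    rw [← e2]
    exact intervalIntegral.intervalIntegral_pos_of_pos_on i2
      (fun t ht => hpos t ⟨ht.1.le, ht.2.le⟩) hyx
  refine ⟨hC, ?_⟩
  set A := ∫ t in y..x, f' t ^ 2 / φ' t with hA
  have h1 : ∀ c : ℝ, 0 ≤ A - 2 * c * (f x - f y) + c ^ 2 * (φ x - φ y) := by
    intro c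
    have h2 : ∫ t in y..x, (f' t - c * φ' t) ^ 2 / φ' t =
        A - 2 * c * (f x - f y) + c ^ 2 * (φ x - φ y) := by
      rw [← e1, ← e2, hA, ← intervalIntegral.integral_const_mul,
        ← intervalIntegral.integral_const_mul, ← intervalIntegral.integral_sub i3 (i1.const_mul _),
        ← intervalIntegral.integral_add (i3.sub (i1.const_mul _)) (i2.const_mul _)]
      refine intervalIntegral.integral_congr fun t ht => ?_
      rw [hu] at ht
      have := (hpos t ht).ne'
      field_simp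
      ring
    rw [← h2]
    apply intervalIntegral.integral_nonneg hyx.le
    intro t ht
    have := hpos t ht
    positivity
  have h3 := h1 ((f x - f y) / (φ x - φ y))
  have h4 : A - 2 * ((f x - f y) / (φ x - φ y)) * (f x - f y) +
      ((f x - f y) / (φ x - φ y)) ^ 2 * (φ x - φ y) = A - (f x - f y) ^ 2 / (φ x - φ y) := by
    have := hC.ne'
    field_simp
    ring
  rw [h4, sub_nonneg, div_le_iff₀ hC] at h3
  linarith

/-- The tail functional. -/
noncomputable def tail (μ : Measure ℝ) (φ : ℝ → ℝ) (t : ℝ) : ℝ :=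
  μ.real (Iio t) * (∫ x in Ioi t, φ x ∂μ) - μ.real (Ioi t) * ∫ y in Iio t, φ y ∂μ

variable {I : Set ℝ} {μ : Measure ℝ} [IsFiniteMeasure μ]

lemma tail_eq {φ : ℝ → ℝ} (hφi : Integrable φ μ) (hμ : ∀ᵐ x ∂μ, x ∈ I)
    (hmono : MonotoneOn φ I) (t : ℝ) :
    ∫⁻ x in Ioi t, ∫⁻ y in Iio t, ENNReal.ofReal (φ x - φ y) ∂μ ∂μ =
      ENNReal.ofReal (tail μ φ t) := by
  have h1 : ∀ᵐ x ∂(μ.restrict (Ioi t)), ∫⁻ y in Iio t, ENNReal.ofReal (φ x - φ y) ∂μ =
      ENNReal.ofReal (φ x * μ.real (Iio t) - ∫ y in Iio t, φ y ∂μ) ∧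
      0 ≤ φ x * μ.real (Iio t) - ∫ y in Iio t, φ y ∂μ := by
    rw [ae_restrict_iff' measurableSet_Ioi]
    filter_upwards [hμ] with x hx hxt
    have hi : IntegrableOn (fun y => φ x - φ y) (Iio t) μ :=
      ((integrable_const _).sub hφi).integrableOn
    have hnn : 0 ≤ᵐ[μ.restrict (Iio t)] fun y => φ x - φ y := by
      rw [Filter.EventuallyLE, ae_restrict_iff' measurableSet_Iio]
      filter_upwards [hμ] with y hy hyt
      have hyt' : y < t := hyt
      have hxt' : t < x := hxt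
      have := hmono hy hx (hyt'.trans hxt').le
      simpa using this
    have e : ∫ y in Iio t, (φ x - φ y) ∂μ = φ x * μ.real (Iio t) - ∫ y in Iio t, φ y ∂μ := by
      rw [integral_sub (integrable_const _).integrableOn hφi.integrableOn, setIntegral_const,
        smul_eq_mul, mul_comm]
    rw [← ofReal_integral_eq_lintegral_ofReal hi hnn, e]
    refine ⟨rfl, ?_⟩
    rw [← e]
    exact integral_nonneg_of_ae hnn
  rw [lintegral_congr_ae (h1.mono fun x hx => hx.1)]
  have hi : IntegrableOn (fun x => φ x * μ.real (Iio t) - ∫ y in Iio t, φ y ∂μ) (Ioi t) μ :=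
    ((hφi.mul_const _).sub (integrable_const _)).integrableOn
  rw [← ofReal_integral_eq_lintegral_ofReal hi (h1.mono fun x hx => hx.2)]
  congr 1
  rw [integral_sub (hφi.mul_const _).integrableOn (integrable_const _).integrableOn,
    integral_mul_const, setIntegral_const, smul_eq_mul]
  unfold tail
  ring

lemma tail_le [NullSingletonClass μ] {φ q : ℝ → ℝ} {lam : ℝ} (hlam : 0 < lam) (hφi : Integrable φ μ)
    (hqi : Integrable q μ) (hμ : ∀ᵐ x ∂μ, x ∈ I) (hq0 : ∫ x, q x ∂μ = 0)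
    (hD : MonotoneOn (fun t => q t - lam * φ t) I) {t : ℝ} (ht : t ∈ I) :
    tail μ φ t ≤ μ.real univ / lam * ∫ x in Ioi t, q x ∂μ := by
  have hsplit : ∀ g : ℝ → ℝ, Integrable g μ →
      (∫ x in Iio t, g x ∂μ) + ∫ x in Ioi t, g x ∂μ = ∫ x, g x ∂μ := by
    intro g hg
    have e := setIntegral_union (μ := μ) (f := g) (Iic_disjoint_Ioi (le_refl t)) measurableSet_Ioi
      hg.integrableOn hg.integrableOn
    rw [Iic_union_Ioi, setIntegral_univ] at e
    rw [e, setIntegral_congr_set (Iio_ae_eq_Iic (μ := μ) (a := t))]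
  have hZ : μ.real (Iio t) + μ.real (Ioi t) = μ.real univ := by
    have := hsplit (fun _ => 1) (integrable_const _)
    simpa using this
  have hq := hsplit q hqi
  rw [hq0] at hq
  -- the monotone part
  have hDi : Integrable (fun t => q t - lam * φ t) μ := hqi.sub (hφi.const_mul _)
  have h1 : (q t - lam * φ t) * μ.real (Ioi t) ≤ ∫ x in Ioi t, (q x - lam * φ x) ∂μ := by
    have : ∫ x in Ioi t, (q t - lam * φ t) ∂μ ≤ ∫ x in Ioi t, (q x - lam * φ x) ∂μ := by
      apply integral_mono_ae (integrable_const _).integrableOn hDi.integrableOn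
      rw [Filter.EventuallyLE, ae_restrict_iff' measurableSet_Ioi]
      filter_upwards [hμ] with x hx hxt
      exact hD ht hx (le_of_lt hxt)
    rwa [setIntegral_const, smul_eq_mul, mul_comm] at this
  have h2 : ∫ x in Iio t, (q x - lam * φ x) ∂μ ≤ (q t - lam * φ t) * μ.real (Iio t) := by
    have : ∫ x in Iio t, (q x - lam * φ x) ∂μ ≤ ∫ x in Iio t, (q t - lam * φ t) ∂μ := by
      apply integral_mono_ae hDi.integrableOn (integrable_const _).integrableOn
      rw [Filter.EventuallyLE, ae_restrict_iff' measurableSet_Iio]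
      filter_upwards [hμ] with x hx hxt
      exact hD hx ht (le_of_lt hxt)
    rwa [setIntegral_const, smul_eq_mul, mul_comm (μ.real (Iio t))] at this
  have e1 : ∫ x in Ioi t, (q x - lam * φ x) ∂μ =
      (∫ x in Ioi t, q x ∂μ) - lam * ∫ x in Ioi t, φ x ∂μ := by
    rw [integral_sub hqi.integrableOn (hφi.const_mul _).integrableOn, integral_const_mul]
  have e2 : ∫ x in Iio t, (q x - lam * φ x) ∂μ =
      (∫ x in Iio t, q x ∂μ) - lam * ∫ x in Iio t, φ x ∂μ := by
    rw [integral_sub hqi.integrableOn (hφi.const_mul _).integrableOn, integral_const_mul]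
  rw [e1] at h1
  rw [e2] at h2
  have hA : 0 ≤ μ.real (Iio t) := measureReal_nonneg
  have hB : 0 ≤ μ.real (Ioi t) := measureReal_nonneg
  have h3 := mul_le_mul_of_nonneg_left h1 hA
  have h4 := mul_le_mul_of_nonneg_left h2 hB
  have h5 : lam * tail μ φ t ≤ μ.real univ * ∫ x in Ioi t, q x ∂μ := by
    have h6 : ∫ x in Iio t, q x ∂μ = -∫ x in Ioi t, q x ∂μ := by linarith
    rw [h6] at h4
    rw [← hZ]
    unfold tail
    nlinarith
  rw [div_mul_eq_mul_div, le_div_iff₀ hlam]
  linarith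

/-- The double integral is controlled by the tails. -/
lemma double_le {f f' φ φ' : ℝ → ℝ} (hIm : MeasurableSet I) (hIc : I.OrdConnected)
    (hμ : ∀ᵐ x ∂μ, x ∈ I)
    (hf : ∀ t ∈ I, HasDerivAt f (f' t) t) (hφ : ∀ t ∈ I, HasDerivAt φ (φ' t) t)
    (hf' : ContinuousOn f' I) (hφ' : ContinuousOn φ' I)
    (hpos : ∀ t ∈ I, 0 < φ' t) (hmφ : Measurable φ) (hmf' : Measurable f')
    (hmφ' : Measurable φ') :
    ∫⁻ x, ∫⁻ y, ENNReal.ofReal ((f x - f y) ^ 2) ∂μ ∂μ ≤
      2 * ∫⁻ t in I, ENNReal.ofReal (f' t ^ 2 / φ' t) *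
        ∫⁻ x in Ioi t, ∫⁻ y in Iio t, ENNReal.ofReal (φ x - φ y) ∂μ ∂μ := by
  set k : ℝ → ℝ≥0∞ := fun t => ENNReal.ofReal (f' t ^ 2 / φ' t) with hk
  have hkm : Measurable k := ((hmf'.pow_const 2).div hmφ').ennreal_ofReal
  -- the kernel
  set K : ℝ → ℝ → ℝ → ℝ≥0∞ := fun x y t =>
    (Ioi t).indicator (fun x => (Iio t).indicator (fun y => ENNReal.ofReal (φ x - φ y) * k t) y) x
    with hK
  have hKm : Measurable fun p : ℝ × ℝ × ℝ => K p.1 p.2.1 p.2.2 := by
    have e : (fun p : ℝ × ℝ × ℝ => K p.1 p.2.1 p.2.2) =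
        {p : ℝ × ℝ × ℝ | p.2.2 < p.1 ∧ p.2.1 < p.2.2}.indicator
          fun p => ENNReal.ofReal (φ p.1 - φ p.2.1) * k p.2.2 := by
      ext ⟨x, y, t⟩
      simp only [hK, indicator, mem_Ioi, mem_Iio, mem_ofPred_eq]
      by_cases h1 : t < x <;> by_cases h2 : y < t <;> simp [h1, h2]
    rw [e]
    refine Measurable.indicator ?_ ?_
    · exact (((hmφ.comp measurable_fst).sub (hmφ.comp
        (measurable_fst.comp measurable_snd))).ennreal_ofReal).mul
        (hkm.comp (measurable_snd.comp measurable_snd))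
    · exact (measurableSet_lt (measurable_snd.comp measurable_snd) measurable_fst).inter
        (measurableSet_lt (measurable_fst.comp measurable_snd) (measurable_snd.comp measurable_snd))
  have hI2 : ∀ x y, Icc y x ⊆ I ∨ ¬ (x ∈ I ∧ y ∈ I) := by
    intro x y
    by_cases h : x ∈ I ∧ y ∈ I
    · exact Or.inl (hIc.out h.2 h.1)
    · exact Or.inr h
  have hpt : ∀ x ∈ I, ∀ y ∈ I, y < x →
      ENNReal.ofReal ((f x - f y) ^ 2) ≤ ∫⁻ t in I, K x y t := by
    intro x hx y hy hyx
    have hsub : Icc y x ⊆ I := hIc.out hy hx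
    obtain ⟨h1, h2⟩ := sq_sub_le hyx (fun t ht => hf t (hsub ht)) (fun t ht => hφ t (hsub ht))
      (hf'.mono hsub) (hφ'.mono hsub) (fun t ht => hpos t (hsub ht))
    refine (ENNReal.ofReal_le_ofReal h2).trans ?_
    rw [ENNReal.ofReal_mul h1.le]
    have e1 : ∀ t, K x y t = (Ioo y x).indicator (fun t => ENNReal.ofReal (φ x - φ y) * k t) t := by
      intro t
      simp only [hK, indicator, mem_Ioi, mem_Iio, mem_Ioo]
      by_cases h1 : t < x <;> by_cases h2 : y < t <;> simp [h1, h2]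
    simp only [e1]
    rw [lintegral_indicator measurableSet_Ioo, Measure.restrict_restrict measurableSet_Ioo,
      inter_eq_left.2 (Ioo_subset_Icc_self.trans hsub), lintegral_const_mul _ hkm]
    gcongr
    have c3 : ContinuousOn (fun t => f' t ^ 2 / φ' t) (Icc y x) :=
      ((hf'.mono hsub).pow 2).div (hφ'.mono hsub) fun t ht => (hpos t (hsub ht)).ne'
    have i3 : IntegrableOn (fun t => f' t ^ 2 / φ' t) (Ioo y x) :=
      (c3.integrableOn_Icc).mono_set Ioo_subset_Icc_self
    rw [intervalIntegral.integral_of_le hyx.le, integral_Ioc_eq_integral_Ioo,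
      ofReal_integral_eq_lintegral_ofReal i3]
    rw [Filter.EventuallyLE, ae_restrict_iff' measurableSet_Ioo]
    refine ae_of_all _ fun t ht => ?_
    have := hpos t (hsub ⟨ht.1.le, ht.2.le⟩)
    show 0 ≤ f' t ^ 2 / φ' t
    positivity
  -- sum
  set L : ℝ → ℝ → ℝ≥0∞ := fun x y => ∫⁻ t in I, K x y t with hL
  have hLm : Measurable fun p : ℝ × ℝ => L p.1 p.2 := by
    have : Measurable fun p : (ℝ × ℝ) × ℝ => K p.1.1 p.1.2 p.2 :=
      hKm.comp (((measurable_fst.comp measurable_fst)).prodMk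
        ((measurable_snd.comp measurable_fst).prodMk measurable_snd))
    exact this.lintegral_prod_right'
  have h1 : ∫⁻ x, ∫⁻ y, ENNReal.ofReal ((f x - f y) ^ 2) ∂μ ∂μ ≤
      ∫⁻ x, ∫⁻ y, (L x y + L y x) ∂μ ∂μ := by
    apply lintegral_mono_ae
    filter_upwards [hμ] with x hx
    apply lintegral_mono_ae
    filter_upwards [hμ] with y hy
    rcases lt_trichotomy y x with h | h | h
    · exact (hpt x hx y hy h).trans le_self_add
    · rw [h, sub_self]; simp
    · have := hpt y hy x hx h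
      rw [show (f y - f x) ^ 2 = (f x - f y) ^ 2 by ring] at this
      exact this.trans le_add_self
  have h2 : ∫⁻ x, ∫⁻ y, (L x y + L y x) ∂μ ∂μ = 2 * ∫⁻ x, ∫⁻ y, L x y ∂μ ∂μ := by
    have e1 : ∀ x, ∫⁻ y, (L x y + L y x) ∂μ = (∫⁻ y, L x y ∂μ) + ∫⁻ y, L y x ∂μ := fun x =>
      lintegral_add_left (hLm.comp (measurable_const.prodMk measurable_id)) _
    simp only [e1]
    rw [lintegral_add_left (hLm.lintegral_prod_right')]
    rw [lintegral_lintegral_swap (f := fun x y => L y x)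
      (hLm.comp (measurable_snd.prodMk measurable_fst)).aemeasurable, two_mul]
  refine h1.trans (h2.le.trans ?_)
  refine mul_le_mul_right ?_ 2
  -- swap
  have h3 : ∀ x, ∫⁻ y, L x y ∂μ = ∫⁻ t in I, ∫⁻ y, K x y t ∂μ := by
    intro x
    exact lintegral_lintegral_swap
      (hKm.comp (measurable_const.prodMk measurable_id)).aemeasurable
  rw [lintegral_congr h3]
  have hM : Measurable fun p : ℝ × ℝ => ∫⁻ y, K p.1 y p.2 ∂μ := by
    have : Measurable fun p : (ℝ × ℝ) × ℝ => K p.1.1 p.2 p.1.2 :=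
      hKm.comp (((measurable_fst.comp measurable_fst)).prodMk
        (measurable_snd.prodMk (measurable_snd.comp measurable_fst)))
    exact this.lintegral_prod_right'
  rw [lintegral_lintegral_swap hM.aemeasurable]
  refine lintegral_mono fun t => ?_
  have h4 : ∀ x, ∫⁻ y, K x y t ∂μ =
      (Ioi t).indicator (fun x => k t * ∫⁻ y in Iio t, ENNReal.ofReal (φ x - φ y) ∂μ) x := by
    intro x
    by_cases hx : x ∈ Ioi t
    · simp only [hK, indicator_of_mem hx]
      have hm : Measurable fun y => ENNReal.ofReal (φ x - φ y) :=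
        (measurable_const.sub hmφ).ennreal_ofReal
      rw [lintegral_indicator measurableSet_Iio, lintegral_mul_const _ hm, mul_comm]
    · simp only [hK, indicator_of_notMem hx]
      simp
  beta_reduce
  rw [lintegral_congr h4, lintegral_indicator measurableSet_Ioi, lintegral_const_mul]
  have : Measurable fun p : ℝ × ℝ => ENNReal.ofReal (φ p.1 - φ p.2) :=
    ((hmφ.comp measurable_fst).sub (hmφ.comp measurable_snd)).ennreal_ofReal
  exact this.lintegral_prod_right'

/-- General weighted Poincaré inequality in one dimension. -/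
theorem weighted_poincare [NullSingletonClass μ] {f f' φ φ' q : ℝ → ℝ} {lam : ℝ} (hlam : 0 < lam)
    (hIm : MeasurableSet I) (hIc : I.OrdConnected)
    (hμ : ∀ᵐ x ∂μ, x ∈ I)
    (hf : ∀ t ∈ I, HasDerivAt f (f' t) t) (hφ : ∀ t ∈ I, HasDerivAt φ (φ' t) t)
    (hf' : ContinuousOn f' I) (hφ' : ContinuousOn φ' I)
    (hpos : ∀ t ∈ I, 0 < φ' t) (hmφ : Measurable φ) (hmf' : Measurable f')
    (hmφ' : Measurable φ') (hφi : Integrable φ μ) (hqi : Integrable q μ)
    (hq0 : ∫ x, q x ∂μ = 0) (hD : MonotoneOn (fun t => q t - lam * φ t) I)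
    (hfi : Integrable f μ) (hf2 : Integrable (fun x => f x ^ 2) μ) {W : ℝ → ℝ}
    (hG : ∀ t ∈ I, ∫ x in Ioi t, q x ∂μ = W t * φ' t)
    (hR : IntegrableOn (fun t => f' t ^ 2 * W t) I) (hW : ∀ t ∈ I, 0 ≤ W t) :
    μ.real univ * ∫ x, f x ^ 2 ∂μ - (∫ x, f x ∂μ) ^ 2 ≤
      μ.real univ / lam * ∫ t in I, f' t ^ 2 * W t := by
  have hmono : MonotoneOn φ I := by
    intro y hy x hx hyx
    rcases hyx.eq_or_lt with h | h
    · rw [h]
    · have hsub : Icc y x ⊆ I := hIc.out hy hx
      have := (sq_sub_le (f := f) h (fun t ht => hf t (hsub ht)) (fun t ht => hφ t (hsub ht))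
        (hf'.mono hsub) (hφ'.mono hsub) (fun t ht => hpos t (hsub ht))).1
      linarith
  have hZ : 0 ≤ μ.real univ := measureReal_nonneg
  have h1 := double_le hIm hIc hμ hf hφ hf' hφ' hpos hmφ hmf' hmφ'
  -- left-hand side
  have hinn : ∀ x, ∫⁻ y, ENNReal.ofReal ((f x - f y) ^ 2) ∂μ =
      ENNReal.ofReal (f x ^ 2 * μ.real univ - 2 * f x * (∫ y, f y ∂μ) + ∫ y, f y ^ 2 ∂μ) ∧
      0 ≤ f x ^ 2 * μ.real univ - 2 * f x * (∫ y, f y ∂μ) + ∫ y, f y ^ 2 ∂μ := by
    intro x
    have e : ∀ y, (f x - f y) ^ 2 = f x ^ 2 - 2 * f x * f y + f y ^ 2 := fun y => by ring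
    have hi : Integrable (fun y => (f x - f y) ^ 2) μ := by
      simp only [e]
      exact ((integrable_const _).sub (hfi.const_mul _)).add hf2
    have hi' : Integrable (fun y => f x ^ 2 - 2 * f x * f y) μ :=
      (integrable_const _).sub (hfi.const_mul _)
    have e2 : ∫ y, (f x - f y) ^ 2 ∂μ =
        f x ^ 2 * μ.real univ - 2 * f x * (∫ y, f y ∂μ) + ∫ y, f y ^ 2 ∂μ := by
      simp only [e]
      rw [integral_add hi' hf2,
        integral_sub (integrable_const _) (hfi.const_mul _), integral_const, integral_const_mul,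
        smul_eq_mul, mul_comm (μ.real univ)]
    rw [← e2]
    exact ⟨(ofReal_integral_eq_lintegral_ofReal hi (ae_of_all _ fun y => sq_nonneg _)).symm,
      integral_nonneg fun y => sq_nonneg _⟩
  have hL : ∫⁻ x, ∫⁻ y, ENNReal.ofReal ((f x - f y) ^ 2) ∂μ ∂μ =
      ENNReal.ofReal (2 * (μ.real univ * ∫ x, f x ^ 2 ∂μ - (∫ x, f x ∂μ) ^ 2)) := by
    rw [lintegral_congr fun x => (hinn x).1]
    have hi : Integrable (fun x => f x ^ 2 * μ.real univ - 2 * f x * (∫ y, f y ∂μ) +
        ∫ y, f y ^ 2 ∂μ) μ :=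
      ((hf2.mul_const _).sub ((hfi.const_mul 2).mul_const _)).add (integrable_const _)
    rw [← ofReal_integral_eq_lintegral_ofReal hi (ae_of_all _ fun x => (hinn x).2)]
    congr 1
    have hi' : Integrable (fun x => f x ^ 2 * μ.real univ - 2 * f x * (∫ y, f y ∂μ)) μ :=
      (hf2.mul_const _).sub ((hfi.const_mul 2).mul_const _)
    rw [integral_add hi' (integrable_const _),
      integral_sub (hf2.mul_const _) ((hfi.const_mul 2).mul_const _), integral_mul_const,
      integral_mul_const, integral_const_mul, integral_const, smul_eq_mul]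
    ring
  -- right-hand side
  have hR' : ∫⁻ t in I, ENNReal.ofReal (f' t ^ 2 / φ' t) *
        ∫⁻ x in Ioi t, ∫⁻ y in Iio t, ENNReal.ofReal (φ x - φ y) ∂μ ∂μ ≤
      ENNReal.ofReal (μ.real univ / lam * ∫ t in I, f' t ^ 2 * W t) := by
    rw [ENNReal.ofReal_mul (by positivity), ofReal_integral_eq_lintegral_ofReal hR, ←
      lintegral_const_mul']
    · refine setLIntegral_mono' hIm fun t ht => ?_
      rw [tail_eq hφi hμ hmono t]
      have h2 := tail_le hlam hφi hqi hμ hq0 hD ht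
      have hp := hpos t ht
      rw [← ENNReal.ofReal_mul (by positivity), ← ENNReal.ofReal_mul (by positivity)]
      apply ENNReal.ofReal_le_ofReal
      rw [hG t ht] at h2
      have h3 : f' t ^ 2 / φ' t * tail μ φ t ≤
          f' t ^ 2 / φ' t * (μ.real univ / lam * (W t * φ' t)) :=
        mul_le_mul_of_nonneg_left h2 (by positivity)
      refine h3.trans (le_of_eq ?_)
      field_simp
    · exact ENNReal.ofReal_ne_top
    · rw [Filter.EventuallyLE, ae_restrict_iff' hIm]
      exact ae_of_all _ fun t ht => mul_nonneg (sq_nonneg _) (hW t ht)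
  rw [hL] at h1
  have h2 := h1.trans (mul_le_mul_right hR' 2)
  have hRn : 0 ≤ μ.real univ / lam * ∫ t in I, f' t ^ 2 * W t := by
    apply mul_nonneg (by positivity)
    apply setIntegral_nonneg hIm
    exact fun t ht => mul_nonneg (sq_nonneg _) (hW t ht)
  rw [show (2 : ℝ≥0∞) = ENNReal.ofReal 2 by norm_num, ← ENNReal.ofReal_mul zero_le_two,
    ENNReal.ofReal_le_ofReal_iff (by positivity)] at h2
  linarith

end Q81.Har
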