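import Mathlib
import Pool.Agent.Q81.Har2

/-!
# The Gaussian Poincaré inequality
-/

namespace Q81.Har

open MeasureTheory Set Filter Topology
open scoped ENNReal

/-- The measure with density `m` on `I`. -/
noncomputable def dm (I : Set ℝ) (m : ℝ → ℝ) : Measure ℝ :=
  (volume.restrict I).withDensity fun t => ENNReal.ofReal (m t)

section dm

variable {I : Set ℝ} {m : ℝ → ℝ}

lemma integral_dm (hI : MeasurableSet I) (hm : Measurable m) (h0 : ∀ t ∈ I, 0 ≤ m t) (g : ℝ → ℝ) :
    ∫ t, g t ∂(dm I m) = ∫ t in I, g t * m t := by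
  unfold dm
  rw [integral_withDensity_eq_integral_toReal_smul hm.ennreal_ofReal
    (ae_of_all _ fun t => ENNReal.ofReal_lt_top)]
  refine setIntegral_congr_fun hI fun t ht => ?_
  simp only [smul_eq_mul]
  rw [ENNReal.toReal_ofReal (h0 t ht), mul_comm]

lemma integrable_dm (hI : MeasurableSet I) (hm : Measurable m) (h0 : ∀ t ∈ I, 0 ≤ m t)
    {g : ℝ → ℝ} (hg : IntegrableOn (fun t => g t * m t) I) : Integrable g (dm I m) := by
  unfold dm
  rw [integrable_withDensity_iff_integrable_smul₀' hm.ennreal_ofReal.aemeasurable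
    (ae_of_all _ fun t => ENNReal.ofReal_lt_top)]
  refine (integrableOn_congr_fun (fun t ht => ?_) hI).1 hg
  simp only [smul_eq_mul]
  rw [ENNReal.toReal_ofReal (h0 t ht), mul_comm]

lemma setIntegral_dm (hI : MeasurableSet I) (hm : Measurable m) (h0 : ∀ t ∈ I, 0 ≤ m t)
    {S : Set ℝ} (hS : MeasurableSet S) (g : ℝ → ℝ) :
    ∫ t in S, g t ∂(dm I m) = ∫ t in S ∩ I, g t * m t := by
  have h1 : (dm I m).restrict S = dm (S ∩ I) m := by
    unfold dm
    rw [restrict_withDensity hS, Measure.restrict_restrict hS]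
  rw [h1, integral_dm (hS.inter hI) hm fun t ht => h0 t ht.2]

lemma finite_dm (hm : IntegrableOn m I) : IsFiniteMeasure (dm I m) := by
  unfold dm
  apply isFiniteMeasure_withDensity_ofReal
  exact hm.2

lemma ae_dm (hI : MeasurableSet I) : ∀ᵐ x ∂(dm I m), x ∈ I := by
  unfold dm
  exact (withDensity_absolutelyContinuous _ _).ae_le (ae_restrict_mem hI)

lemma real_univ_dm (hI : MeasurableSet I) (hm : Measurable m) (h0 : ∀ t ∈ I, 0 ≤ m t) :
    (dm I m).real univ = ∫ t in I, m t := by
  have := integral_dm hI hm h0 (fun _ => 1)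
  simpa using this

instance nullSingleton_dm : NullSingletonClass (dm I m) := by
  constructor
  intro x
  apply (withDensity_absolutelyContinuous (volume.restrict I) _)
  exact measure_singleton x

end dm

/-- The Gaussian weight. -/
noncomputable def ga (s t : ℝ) : ℝ := Real.exp (-s * t ^ 2)

lemma ga_pos (s t : ℝ) : 0 < ga s t := Real.exp_pos _

lemma continuous_ga (s : ℝ) : Continuous (ga s) := by unfold ga; fun_prop

lemma integrable_ga {s : ℝ} (hs : 0 < s) : Integrable (ga s) := integrable_exp_neg_mul_sq hs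

lemma ga_le_one {s : ℝ} (hs : 0 < s) (t : ℝ) : ga s t ≤ 1 := by
  unfold ga
  rw [Real.exp_le_one_iff]
  nlinarith [sq_nonneg t]

/-- `∫ e^{-s t²}`. -/
noncomputable def Zg (s : ℝ) : ℝ := ∫ t, ga s t

lemma Zg_pos {s : ℝ} (hs : 0 < s) : 0 < Zg s := by
  unfold Zg ga
  rw [integral_gaussian]
  exact Real.sqrt_pos.2 (div_pos Real.pi_pos hs)

lemma hasDerivAt_ga (s t : ℝ) : HasDerivAt (ga s) (-(2 * s * t * ga s t)) t := by
  have h1 : HasDerivAt (fun t => -s * t ^ 2) (-s * (2 * t)) t := by
    simpa using (hasDerivAt_pow 2 t).const_mul (-s)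
  have h2 := h1.exp
  refine h2.congr_deriv ?_
  unfold ga
  ring

lemma tendsto_ga_atTop {s : ℝ} (hs : 0 < s) : Tendsto (ga s) atTop (𝓝 0) := by
  unfold ga
  apply Real.tendsto_exp_atBot.comp
  have h : Tendsto (fun t : ℝ => s * t ^ 2) atTop atTop :=
    (tendsto_pow_atTop two_ne_zero).const_mul_atTop hs
  have h2 := tendsto_neg_atTop_atBot.comp h
  refine h2.congr fun t => ?_
  simp only [Function.comp]
  ring

lemma integrable_qga {s : ℝ} (hs : 0 < s) : Integrable fun t => 2 * s * t * ga s t := by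
  have h := (integrable_mul_exp_neg_mul_sq hs).const_mul (2 * s)
  refine h.congr (ae_of_all _ fun t => ?_)
  simp only [ga]
  ring

lemma integral_Ioi_ga {s : ℝ} (hs : 0 < s) (t : ℝ) : ∫ x in Ioi t, 2 * s * x * ga s x = ga s t := by
  have h := integral_Ioi_of_hasDerivAt_of_tendsto' (a := t) (f := fun x => -ga s x)
    (f' := fun x => 2 * s * x * ga s x) (m := -0)
    (fun x _ => by
      have := (hasDerivAt_ga s x).neg
      rw [neg_neg] at this
      exact this) (integrable_qga hs).integrableOn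
    (tendsto_ga_atTop hs).neg
  rw [h]
  ring

lemma integral_qga (s : ℝ) : ∫ x, 2 * s * x * ga s x = 0 := by
  have h1 : ∫ x, 2 * s * x * ga s x = ∫ x, 2 * s * (-x) * ga s (-x) :=
    (integral_neg_eq_self (fun x => 2 * s * x * ga s x) volume).symm
  have h2 : ∀ x : ℝ, 2 * s * (-x) * ga s (-x) = -(2 * s * x * ga s x) := by
    intro x; unfold ga; rw [neg_sq]; ring
  simp only [h2] at h1
  rw [integral_neg] at h1
  linarith

/-- The Gaussian Poincaré inequality on the line. -/
theorem gauss_one {s : ℝ} (hs : 0 < s) {f f' : ℝ → ℝ} (hf : ∀ t, HasDerivAt f (f' t) t)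
    (hf' : Continuous f') {K : ℝ} (h0 : ∀ t, |f t| ≤ K) (h1 : ∀ t, |f' t| ≤ K) :
    Zg s * (∫ t, f t ^ 2 * ga s t) - (∫ t, f t * ga s t) ^ 2 ≤
      Zg s / (2 * s) * ∫ t, f' t ^ 2 * ga s t := by
  have hfc : Continuous f := continuous_iff_continuousAt.2 fun t => (hf t).continuousAt
  have hm : Measurable (ga s) := (continuous_ga s).measurable
  have hp : ∀ t ∈ (univ : Set ℝ), 0 ≤ ga s t := fun t _ => (ga_pos s t).le
  have : IsFiniteMeasure (dm univ (ga s)) := finite_dm (integrable_ga hs).integrableOn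
  have hK : 0 ≤ K := (abs_nonneg _).trans (h0 0)
  have hbd : ∀ g : ℝ → ℝ, Continuous g → (∃ C, ∀ t, |g t| ≤ C) → Integrable fun t => g t * ga s t := by
    rintro g hg ⟨C, hC⟩
    exact (integrable_ga hs).bdd_mul hg.aestronglyMeasurable (c := C) (ae_of_all _ hC)
  have hf2b : ∀ t, |f t ^ 2| ≤ K ^ 2 := fun t => by
    rw [abs_pow]; exact pow_le_pow_left₀ (abs_nonneg _) (h0 t) 2
  have hf'2b : ∀ t, |f' t ^ 2| ≤ K ^ 2 := fun t => by
    rw [abs_pow]; exact pow_le_pow_left₀ (abs_nonneg _) (h1 t) 2
  have h := weighted_poincare (I := univ) (μ := dm univ (ga s)) (f := f) (f' := f')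
    (φ := fun t => t) (φ' := fun _ => 1) (q := fun t => 2 * s * t) (lam := 2 * s) (W := ga s)
    (by positivity) MeasurableSet.univ ordConnected_univ (ae_of_all _ fun _ => mem_univ _)
    (fun t _ => hf t) (fun t _ => hasDerivAt_id t) hf'.continuousOn continuousOn_const
    (fun _ _ => one_pos) measurable_id hf'.measurable measurable_const
    (integrable_dm MeasurableSet.univ hm hp (by
      rw [integrableOn_univ]
      have := integrable_mul_exp_neg_mul_sq hs
      exact this))
    (integrable_dm MeasurableSet.univ hm hp (by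
      rw [integrableOn_univ]
      exact integrable_qga hs))
    (by
      rw [integral_dm MeasurableSet.univ hm hp, setIntegral_univ]
      exact integral_qga s)
    (by
      intro x _ y _ _
      simp)
    (integrable_dm MeasurableSet.univ hm hp (by
      rw [integrableOn_univ]; exact hbd f hfc ⟨K, h0⟩))
    (integrable_dm MeasurableSet.univ hm hp (by
      rw [integrableOn_univ]; exact hbd (fun t => f t ^ 2) (hfc.pow 2) ⟨_, hf2b⟩))
    (by
      intro t _
      rw [setIntegral_dm MeasurableSet.univ hm hp measurableSet_Ioi, inter_univ, mul_one]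
      exact integral_Ioi_ga hs t)
    (by rw [integrableOn_univ]; exact hbd (fun t => f' t ^ 2) (hf'.pow 2) ⟨_, hf'2b⟩)
    hp
  rw [real_univ_dm MeasurableSet.univ hm hp, integral_dm MeasurableSet.univ hm hp,
    integral_dm MeasurableSet.univ hm hp, setIntegral_univ, setIntegral_univ, setIntegral_univ,
    setIntegral_univ] at h
  exact h

end Q81.Har
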