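import Mathlib
import Pool.Agent.Q81.Har3

/-!
# The Gaussian Poincaré inequality in `n` dimensions
-/

namespace Q81.Har

open MeasureTheory Set Filter Topology

variable {n : ℕ}

/-- The Gaussian weight on `ℝⁿ`. -/
noncomputable def gn (s : ℝ) {n : ℕ} (x : Fin n → ℝ) : ℝ := ∏ i, ga s (x i)

lemma gn_pos (s : ℝ) (x : Fin n → ℝ) : 0 < gn s x := Finset.prod_pos fun _ _ => ga_pos s _

lemma continuous_gn (s : ℝ) : Continuous (gn s (n := n)) := by
  unfold gn
  exact continuous_finsetProd _ fun i _ => (continuous_ga s).comp (continuous_apply i)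

lemma integrable_gn {s : ℝ} (hs : 0 < s) : Integrable (gn s (n := n)) :=
  Integrable.fintype_prod (f := fun _ : Fin n => ga s) fun _ => integrable_ga hs

lemma integral_gn (s : ℝ) : ∫ x, gn s (n := n) x = Zg s ^ n := by
  have := integral_fintype_prod_volume_eq_pow (ι := Fin n) (ga s)
  simpa [gn, Zg] using this

lemma gn_cons (s t : ℝ) (y : Fin n → ℝ) :
    gn s (Fin.cons t y : Fin (n + 1) → ℝ) = ga s t * gn s y := by
  unfold gn
  rw [Fin.prod_univ_succ]
  simp

/-- partial derivative -/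
noncomputable def pd (f : (Fin n → ℝ) → ℝ) (i : Fin n) (x : Fin n → ℝ) : ℝ :=
  fderiv ℝ f x (Pi.single i 1)

/-- the class of bounded `C¹` functions with bounded derivative -/
def Bd (K : ℝ) (f : (Fin n → ℝ) → ℝ) : Prop :=
  ContDiff ℝ 1 f ∧ (∀ x, |f x| ≤ K) ∧ ∀ x, ‖fderiv ℝ f x‖ ≤ K

lemma Bd.pd_le {K : ℝ} {f : (Fin n → ℝ) → ℝ} (h : Bd K f) (i : Fin n) (x : Fin n → ℝ) :
    |pd f i x| ≤ K := by
  have h1 := (fderiv ℝ f x).le_opNorm (Pi.single i 1)
  have h2 : ‖(Pi.single i 1 : Fin n → ℝ)‖ ≤ 1 := by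
    rw [pi_norm_le_iff_of_nonneg zero_le_one]
    intro j
    by_cases hj : j = i
    · subst hj; simp
    · simp [hj]
  have h3 := h.2.2 x
  have h0 : 0 ≤ ‖fderiv ℝ f x‖ := norm_nonneg _
  calc |pd f i x| ≤ ‖fderiv ℝ f x‖ * ‖(Pi.single i 1 : Fin n → ℝ)‖ := h1
    _ ≤ ‖fderiv ℝ f x‖ * 1 := by gcongr
    _ ≤ K := by linarith

lemma Bd.continuous_pd {K : ℝ} {f : (Fin n → ℝ) → ℝ} (h : Bd K f) (i : Fin n) :
    Continuous (pd f i) :=
  (h.1.continuous_fderiv one_ne_zero).clm_apply continuous_const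

/-- The linear embedding `y ↦ (0, y)`. -/
noncomputable def emb (n : ℕ) : (Fin n → ℝ) →L[ℝ] (Fin (n + 1) → ℝ) :=
  ContinuousLinearMap.pi (Fin.cases 0 fun i => ContinuousLinearMap.proj i)

lemma cons_eq (t : ℝ) (y : Fin n → ℝ) :
    (Fin.cons t y : Fin (n + 1) → ℝ) = t • Pi.single 0 1 + emb n y := by
  funext j
  refine Fin.cases ?_ (fun i => ?_) j
  · simp [emb]
  · simp [emb]

lemma emb_single (i : Fin n) : emb n (Pi.single i 1) = Pi.single i.succ 1 := by
  funext j
  refine Fin.cases ?_ (fun k => ?_) j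
  · simp [emb]
  · by_cases h : k = i
    · subst h; simp [emb]
    · simp [emb, h]

lemma continuous_cons : Continuous fun p : ℝ × (Fin n → ℝ) => (Fin.cons p.1 p.2 : Fin (n + 1) → ℝ) := by
  simp only [cons_eq]
  fun_prop

lemma norm_emb (n : ℕ) : ‖emb n‖ ≤ 1 := by
  refine ContinuousLinearMap.opNorm_le_bound _ zero_le_one fun y => ?_
  rw [one_mul, pi_norm_le_iff_of_nonneg (norm_nonneg _)]
  intro j
  refine Fin.cases ?_ (fun i => ?_) j
  · simp [emb]
  · simp only [emb, ContinuousLinearMap.coe_pi', Fin.cases_succ, ContinuousLinearMap.proj_apply]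
    exact norm_le_pi_norm y i

lemma hasFDerivAt_sec {f : (Fin (n + 1) → ℝ) → ℝ} (hf : ContDiff ℝ 1 f) (t : ℝ) (y : Fin n → ℝ) :
    HasFDerivAt (fun y => f (Fin.cons t y)) ((fderiv ℝ f (Fin.cons t y)).comp (emb n)) y := by
  have h1 : HasFDerivAt (fun y : Fin n → ℝ => (Fin.cons t y : Fin (n + 1) → ℝ)) (emb n) y := by
    simp only [cons_eq]
    exact (emb n).hasFDerivAt.const_add _
  exact ((hf.differentiable one_ne_zero) _).hasFDerivAt.comp y h1

lemma hasDerivAt_sec {f : (Fin (n + 1) → ℝ) → ℝ} (hf : ContDiff ℝ 1 f) (t : ℝ) (y : Fin n → ℝ) :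
    HasDerivAt (fun t => f (Fin.cons t y)) (pd f 0 (Fin.cons t y)) t := by
  have h1 : HasDerivAt (fun t : ℝ => (Fin.cons t y : Fin (n + 1) → ℝ)) (Pi.single 0 1) t := by
    simp only [cons_eq]
    have := ((hasDerivAt_id t).smul_const (Pi.single 0 1 : Fin (n + 1) → ℝ)).add_const (emb n y)
    simpa using this
  exact ((hf.differentiable one_ne_zero) _).hasFDerivAt.comp_hasDerivAt t h1

lemma Bd.sec {K : ℝ} {f : (Fin (n + 1) → ℝ) → ℝ} (h : Bd K f) (t : ℝ) :
    Bd K (fun y => f (Fin.cons t y)) := by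
  refine ⟨?_, fun y => h.2.1 _, fun y => ?_⟩
  · have : ContDiff ℝ 1 fun y : Fin n → ℝ => (Fin.cons t y : Fin (n + 1) → ℝ) := by
      simp only [cons_eq]
      exact contDiff_const.add (emb n).contDiff
    exact h.1.comp this
  · rw [(hasFDerivAt_sec h.1 t y).fderiv]
    calc ‖(fderiv ℝ f (Fin.cons t y)).comp (emb n)‖ ≤ ‖fderiv ℝ f (Fin.cons t y)‖ * ‖emb n‖ :=
          ContinuousLinearMap.opNorm_comp_le _ _
      _ ≤ ‖fderiv ℝ f (Fin.cons t y)‖ * 1 := by gcongr; exact norm_emb n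
      _ ≤ K := by rw [mul_one]; exact h.2.2 _

lemma pd_sec {f : (Fin (n + 1) → ℝ) → ℝ} (hf : ContDiff ℝ 1 f) (t : ℝ) (y : Fin n → ℝ)
    (i : Fin n) : pd (fun y => f (Fin.cons t y)) i y = pd f i.succ (Fin.cons t y) := by
  unfold pd
  rw [(hasFDerivAt_sec hf t y).fderiv, ContinuousLinearMap.comp_apply, emb_single]

lemma bdd_int {s : ℝ} (hs : 0 < s) {g : (Fin n → ℝ) → ℝ} (hg : Continuous g) {C : ℝ}
    (hC : ∀ x, |g x| ≤ C) : Integrable fun x => g x * gn s x :=
  (integrable_gn hs).bdd_mul hg.aestronglyMeasurable (c := C) (ae_of_all _ hC)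

/-- Fubini. -/
lemma fubini {s : ℝ} (hs : 0 < s) {g : (Fin (n + 1) → ℝ) → ℝ} (hg : Continuous g) {C : ℝ}
    (hC : ∀ x, |g x| ≤ C) :
    ∫ x, g x * gn s x = ∫ t, (∫ y : Fin n → ℝ, g (Fin.cons t y) * gn s y) * ga s t := by
  have hi := bdd_int hs hg hC
  have hmp := (volume_preserving_piFinSuccAbove (fun _ : Fin (n + 1) => ℝ) 0).symm
  have e : ∀ p : ℝ × (Fin n → ℝ),
      (MeasurableEquiv.piFinSuccAbove (fun _ : Fin (n + 1) => ℝ) 0).symm p = Fin.cons p.1 p.2 := by
    intro p
    simp [MeasurableEquiv.piFinSuccAbove]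
    rfl
  have h1 := hmp.integral_comp' (fun x => g x * gn s x)
  have h2 : Integrable (fun p : ℝ × (Fin n → ℝ) =>
      g (Fin.cons p.1 p.2) * gn s (Fin.cons p.1 p.2 : Fin (n + 1) → ℝ)) (volume.prod volume) := by
    have := (hmp.integrable_comp_emb
      (MeasurableEquiv.measurableEmbedding _) (g := fun x => g x * gn s x)).2 hi
    simp only [Function.comp_def, e] at this
    exact this
  rw [← h1]
  simp only [e]
  rw [show (volume : Measure (ℝ × (Fin n → ℝ))) = volume.prod volume from rfl, integral_prod _ h2]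
  refine integral_congr_ae (ae_of_all _ fun t => ?_)
  simp only [gn_cons]
  rw [← integral_mul_const]
  refine integral_congr_ae (ae_of_all _ fun y => ?_)
  simp only
  ring

/-- Cauchy-Schwarz. -/
lemma cs {s : ℝ} (hs : 0 < s) {g : (Fin n → ℝ) → ℝ} (hg : Continuous g) {C : ℝ}
    (hC : ∀ x, |g x| ≤ C) :
    (∫ x, g x * gn s x) ^ 2 ≤ Zg s ^ n * ∫ x, g x ^ 2 * gn s x := by
  have hZ : 0 < Zg s ^ n := pow_pos (Zg_pos hs) n
  have h2b : ∀ x, |g x ^ 2| ≤ C ^ 2 := fun x => by
    rw [abs_pow]; exact pow_le_pow_left₀ (abs_nonneg _) (hC x) 2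
  have i1 := bdd_int hs hg hC
  have i2 : Integrable fun x => g x ^ 2 * gn s x := bdd_int hs (hg.pow 2) h2b
  have i3 := integrable_gn (n := n) hs
  set A := ∫ x, g x * gn s x with hA
  set B := ∫ x, g x ^ 2 * gn s x with hB
  have h1 : 0 ≤ ∫ x, (g x - A / Zg s ^ n) ^ 2 * gn s x :=
    integral_nonneg fun x => mul_nonneg (sq_nonneg _) (gn_pos s x).le
  have h2 : ∫ x, (g x - A / Zg s ^ n) ^ 2 * gn s x = B - 2 * (A / Zg s ^ n) * A +
      (A / Zg s ^ n) ^ 2 * Zg s ^ n := by
    have e1 : ∀ x, (g x - A / Zg s ^ n) ^ 2 * gn s x = g x ^ 2 * gn s x -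
        2 * (A / Zg s ^ n) * (g x * gn s x) + (A / Zg s ^ n) ^ 2 * gn s x := fun x => by ring
    have i4 : Integrable fun x => g x ^ 2 * gn s x - 2 * (A / Zg s ^ n) * (g x * gn s x) :=
      i2.sub (i1.const_mul _)
    simp only [e1]
    rw [integral_add i4 (i3.const_mul _), integral_sub i2 (i1.const_mul _), integral_const_mul,
      integral_const_mul, integral_gn]
  rw [h2] at h1
  have h3 : B - 2 * (A / Zg s ^ n) * A + (A / Zg s ^ n) ^ 2 * Zg s ^ n = B - A ^ 2 / Zg s ^ n := by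
    field_simp
    ring
  rw [h3, sub_nonneg, div_le_iff₀ hZ] at h1
  linarith

/-- The Gaussian Poincaré inequality. -/
theorem gauss_n {s K : ℝ} (hs : 0 < s) : ∀ (n : ℕ) (f : (Fin n → ℝ) → ℝ), Bd K f →
    Zg s ^ n * (∫ x, f x ^ 2 * gn s x) - (∫ x, f x * gn s x) ^ 2 ≤
      Zg s ^ n / (2 * s) * ∫ x, (∑ i, pd f i x ^ 2) * gn s x := by
  intro n
  induction n with
  | zero =>
    intro f _
    have h1 : ∀ g : (Fin 0 → ℝ) → ℝ, ∫ x, g x = g default := by
      intro g
      rw [Measure.volume_pi_eq_dirac (x := default)]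
      exact integral_dirac _ _
    rw [h1, h1, h1]
    simp [gn]
  | succ n ih =>
    intro f hf
    have hZ : 0 < Zg s := Zg_pos hs
    have hfc : Continuous f := hf.1.continuous
    have hK : 0 ≤ K := (abs_nonneg _).trans (hf.2.1 0)
    have hf2 : ∀ x, |f x ^ 2| ≤ K ^ 2 := fun x => by
      rw [abs_pow]; exact pow_le_pow_left₀ (abs_nonneg _) (hf.2.1 x) 2
    have hp2 : ∀ i x, |pd f i x ^ 2| ≤ K ^ 2 := fun i x => by
      rw [abs_pow]; exact pow_le_pow_left₀ (abs_nonneg _) (hf.pd_le i x) 2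
    have hsc : ∀ t : ℝ, Continuous fun y : Fin n → ℝ => (Fin.cons t y : Fin (n + 1) → ℝ) :=
      fun t => continuous_cons.comp (Continuous.prodMk_right t)
    have hst : ∀ y : Fin n → ℝ, Continuous fun t : ℝ => (Fin.cons t y : Fin (n + 1) → ℝ) :=
      fun y => continuous_cons.comp (Continuous.prodMk_left y)
    -- the marginal
    set m : ℝ → ℝ := fun t => ∫ y : Fin n → ℝ, f (Fin.cons t y) * gn s y with hm
    set m' : ℝ → ℝ := fun t => ∫ y : Fin n → ℝ, pd f 0 (Fin.cons t y) * gn s y with hm'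
    have hder : ∀ t, HasDerivAt m (m' t) t := by
      intro t
      refine (hasDerivAt_integral_of_dominated_loc_of_deriv_le (𝕜 := ℝ) (E := ℝ)
        (μ := (volume : Measure (Fin n → ℝ)))
        (F := fun (t : ℝ) (y : Fin n → ℝ) => f (Fin.cons t y) * gn s y)
        (F' := fun (t : ℝ) (y : Fin n → ℝ) => pd f 0 (Fin.cons t y) * gn s y) (s := univ)
        (bound := fun y => K * gn s y) (x₀ := t) univ_mem ?_ ?_ ?_ ?_ ?_ ?_).2
      · refine Filter.Eventually.of_forall fun t => ?_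
        exact ((hfc.comp (hsc t)).mul (continuous_gn s)).aestronglyMeasurable
      · exact bdd_int hs (hfc.comp (hsc t)) fun y => hf.2.1 _
      · exact (((hf.continuous_pd 0).comp (hsc t)).mul (continuous_gn s)).aestronglyMeasurable
      · refine ae_of_all _ fun y t _ => ?_
        rw [norm_mul, Real.norm_eq_abs, Real.norm_eq_abs, abs_of_pos (gn_pos s y)]
        exact mul_le_mul_of_nonneg_right (hf.pd_le 0 _) (gn_pos s y).le
      · exact (integrable_gn hs).const_mul K
      · refine ae_of_all _ fun y t _ => ?_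
        exact (hasDerivAt_sec hf.1 t y).mul_const _
    have hbound : ∀ g : (Fin (n + 1) → ℝ) → ℝ, Continuous g → ∀ C, (∀ x, |g x| ≤ C) → ∀ t : ℝ,
        |∫ y : Fin n → ℝ, g (Fin.cons t y) * gn s y| ≤ C * Zg s ^ n := by
      intro g hg C hC t
      rw [← integral_gn (n := n) s, ← integral_const_mul]
      refine (norm_integral_le_integral_norm (G := ℝ) _).trans ?_
      refine integral_mono (bdd_int hs (hg.comp (hsc t)) fun y => hC _).norm
        ((integrable_gn hs).const_mul C) fun y => ?_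
      simp only [norm_mul, Real.norm_eq_abs, abs_of_pos (gn_pos s y)]
      exact mul_le_mul_of_nonneg_right (hC _) (gn_pos s y).le
    have hcont : ∀ g : (Fin (n + 1) → ℝ) → ℝ, Continuous g → ∀ C, (∀ x, |g x| ≤ C) →
        Continuous fun t : ℝ => ∫ y : Fin n → ℝ, g (Fin.cons t y) * gn s y := by
      intro g hg C hC
      refine continuous_of_dominated (bound := fun y => C * gn s y) ?_ ?_ ?_ ?_
      · intro t
        exact ((hg.comp (hsc t)).mul (continuous_gn s)).aestronglyMeasurable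
      · intro t
        refine ae_of_all _ fun y => ?_
        rw [norm_mul, Real.norm_eq_abs, Real.norm_eq_abs, abs_of_pos (gn_pos s y)]
        exact mul_le_mul_of_nonneg_right (hC _) (gn_pos s y).le
      · exact (integrable_gn hs).const_mul C
      · refine ae_of_all _ fun y => ?_
        exact (hg.comp (hst y)).mul continuous_const
    have hone := gauss_one (f := m) (f' := m') (K := K * Zg s ^ n) hs hder
      (hcont _ (hf.continuous_pd 0) K (hf.pd_le 0)) (hbound f hfc K hf.2.1)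
      (hbound _ (hf.continuous_pd 0) K (hf.pd_le 0))
    -- integrability in one dimension
    have hint1 : ∀ h : ℝ → ℝ, Continuous h → (∃ C, ∀ t, |h t| ≤ C) →
        Integrable fun t => h t * ga s t := by
      rintro h hc ⟨C, hC⟩
      exact (integrable_ga hs).bdd_mul hc.aestronglyMeasurable (c := C) (ae_of_all _ hC)
    have hf2c : Continuous fun x => f x ^ 2 := hfc.pow 2
    have hpc : ∀ i, Continuous fun x => pd f i x ^ 2 := fun i => (hf.continuous_pd i).pow 2
    -- marginal terms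
    set A : ℝ → ℝ := fun t => ∫ y : Fin n → ℝ, f (Fin.cons t y) ^ 2 * gn s y with hA
    set P : Fin (n + 1) → ℝ → ℝ := fun i t => ∫ y : Fin n → ℝ, pd f i (Fin.cons t y) ^ 2 * gn s y
      with hP
    have hAi : Integrable fun t => A t * ga s t :=
      hint1 A (hcont _ hf2c _ hf2) ⟨_, hbound _ hf2c _ hf2⟩
    have hPi : ∀ i, Integrable fun t => P i t * ga s t := fun i =>
      hint1 (P i) (hcont _ (hpc i) _ (hp2 i)) ⟨_, hbound _ (hpc i) _ (hp2 i)⟩
    have hmc : Continuous m := hcont _ hfc K hf.2.1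
    have hm'c : Continuous m' := hcont _ (hf.continuous_pd 0) K (hf.pd_le 0)
    have hm2i : Integrable fun t => m t ^ 2 * ga s t := by
      refine hint1 (fun t => m t ^ 2) (hmc.pow 2) ⟨(K * Zg s ^ n) ^ 2, fun t => ?_⟩
      rw [abs_pow]
      exact pow_le_pow_left₀ (abs_nonneg _) (hbound f hfc K hf.2.1 t) 2
    have hm'2i : Integrable fun t => m' t ^ 2 * ga s t := by
      refine hint1 (fun t => m' t ^ 2) (hm'c.pow 2) ⟨(K * Zg s ^ n) ^ 2, fun t => ?_⟩
      rw [abs_pow]
      exact pow_le_pow_left₀ (abs_nonneg _) (hbound _ (hf.continuous_pd 0) K (hf.pd_le 0) t) 2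
    -- induction hypothesis on sections
    have hsec : ∀ t, Zg s ^ n * A t - m t ^ 2 ≤ Zg s ^ n / (2 * s) * ∑ i : Fin n, P i.succ t := by
      intro t
      have h := ih _ (hf.sec t)
      have e : ∫ y : Fin n → ℝ, (∑ i, pd (fun y => f (Fin.cons t y)) i y ^ 2) * gn s y =
          ∑ i : Fin n, P i.succ t := by
        rw [hP]
        simp only
        rw [← integral_finsetSum]
        · refine integral_congr_ae (ae_of_all _ fun y => ?_)
          simp only [pd_sec hf.1]
          rw [Finset.sum_mul]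
        · intro i _
          exact bdd_int hs ((hpc i.succ).comp (hsc t)) fun y => hp2 _ _
      rw [e] at h
      exact h
    have hcs : ∀ t, m' t ^ 2 ≤ Zg s ^ n * P 0 t := fun t =>
      cs hs ((hf.continuous_pd 0).comp (hsc t)) fun y => hf.pd_le 0 _
    -- integrate in `t`
    have hga : ∀ t, 0 ≤ ga s t := fun t => (ga_pos s t).le
    have I1 : Zg s ^ n * (∫ t, A t * ga s t) - (∫ t, m t ^ 2 * ga s t) ≤
        Zg s ^ n / (2 * s) * ∑ i : Fin n, ∫ t, P i.succ t * ga s t := by
      rw [← integral_finsetSum _ fun i _ => hPi _, ← integral_const_mul, ← integral_const_mul,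
        ← integral_sub (hAi.const_mul _) hm2i]
      refine integral_mono ((hAi.const_mul _).sub hm2i)
        ((integrable_finsetSum _ fun i _ => hPi _).const_mul _) fun t => ?_
      have := mul_le_mul_of_nonneg_right (hsec t) (hga t)
      simp only
      rw [← Finset.sum_mul]
      linarith
    have I2 : ∫ t, m' t ^ 2 * ga s t ≤ Zg s ^ n * ∫ t, P 0 t * ga s t := by
      rw [← integral_const_mul]
      refine integral_mono hm'2i ((hPi 0).const_mul _) fun t => ?_
      have := mul_le_mul_of_nonneg_right (hcs t) (hga t)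
      simp only
      linarith
    -- Fubini
    have F1 : ∫ x, f x * gn s x = ∫ t, m t * ga s t := fubini hs hfc hf.2.1
    have F2 : ∫ x, f x ^ 2 * gn s x = ∫ t, A t * ga s t := fubini hs hf2c hf2
    have F3 : ∀ i, ∫ x, pd f i x ^ 2 * gn s x = ∫ t, P i t * ga s t := fun i =>
      fubini hs (hpc i) (hp2 i)
    have F4 : ∫ x, (∑ i, pd f i x ^ 2) * gn s x = ∑ i, ∫ t, P i t * ga s t := by
      simp only [← F3]
      rw [← integral_finsetSum]
      · simp only [Finset.sum_mul]
      · exact fun i _ => bdd_int hs (hpc i) (hp2 i)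
    rw [F1, F2, F4, Fin.sum_univ_succ]
    have hc : 0 ≤ Zg s / (2 * s) := by positivity
    have h5 := mul_le_mul_of_nonneg_left I2 hc
    have h6 := mul_le_mul_of_nonneg_left I1 hZ.le
    have e1 : Zg s / (2 * s) * (Zg s ^ n * ∫ t, P 0 t * ga s t) =
        Zg s ^ (n + 1) / (2 * s) * ∫ t, P 0 t * ga s t := by
      rw [pow_succ]; ring
    have e2 : Zg s * (Zg s ^ n / (2 * s) * ∑ i : Fin n, ∫ t, P i.succ t * ga s t) =
        Zg s ^ (n + 1) / (2 * s) * ∑ i : Fin n, ∫ t, P i.succ t * ga s t := by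
      rw [pow_succ]; ring
    rw [e1] at h5
    rw [e2] at h6
    rw [pow_succ, mul_add]
    rw [pow_succ] at h5 h6
    linarith

end Q81.Har
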