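import Mathlib

/-!
# Rank reduction: a family of vectors can be replaced by one vector
-/

namespace Q81.BW

open Module InnerProductSpace

variable {V : Type*} [NormedAddCommGroup V] [InnerProductSpace ℂ V]

lemma nsq_lin (X : V →ₗ[ℂ] V) (v1 v2 : V) (α β : ℂ) :
    ‖X (α • v1 + β • v2)‖ ^ 2 = ‖α‖ ^ 2 * ‖X v1‖ ^ 2 + ‖β‖ ^ 2 * ‖X v2‖ ^ 2 +
      2 * ((starRingEnd ℂ α * β) * (inner ℂ (X v1) (X v2))).re := by
  rw [map_add, map_smul, map_smul, norm_add_sq (𝕜 := ℂ), norm_smul, norm_smul, inner_smul_left,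
    inner_smul_right]
  simp only [RCLike.re_eq_complex_re]
  rw [mul_pow, mul_pow, mul_assoc (starRingEnd ℂ α)]
  ring

lemma inner_lin (X : V →ₗ[ℂ] V) (v1 v2 : V) (α β : ℂ) :
    (inner ℂ (α • v1 + β • v2) (X (α • v1 + β • v2))) = (starRingEnd ℂ α * α) * (inner ℂ (v1) (X v1)) +
      (starRingEnd ℂ β * β) * (inner ℂ (v2) (X v2)) + (starRingEnd ℂ α * β) * (inner ℂ (v1) (X v2)) +
      starRingEnd ℂ (starRingEnd ℂ α * β) * (inner ℂ (v2) (X v1)) := by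
  rw [map_add, map_smul, map_smul, inner_add_left, inner_add_right, inner_add_right,
    inner_smul_left, inner_smul_right, inner_smul_left, inner_smul_right, inner_smul_left,
    inner_smul_right, inner_smul_left, inner_smul_right, map_mul, Complex.conj_conj]
  ring

/-- The Hermitian 2x2 matrix lemma. -/
lemma boundary {h1 h2 : ℝ} {ζ : ℂ} (hdet : h1 * h2 < ‖ζ‖ ^ 2) : ∃ t : ℝ, 0 < t ∧ ∃ α β : ℂ,
    ‖α‖ ^ 2 = 1 + t * h1 ∧ ‖β‖ ^ 2 = 1 + t * h2 ∧ starRingEnd ℂ α * β = t * ζ := by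
  set s := Real.sqrt ((h1 - h2) ^ 2 + 4 * ‖ζ‖ ^ 2) with hs
  have hs2 : s ^ 2 = (h1 - h2) ^ 2 + 4 * ‖ζ‖ ^ 2 := Real.sq_sqrt (by positivity)
  have hs0 : 0 ≤ s := Real.sqrt_nonneg _
  set l := (h1 + h2 - s) / 2 with hl
  have hlneg : l < 0 := by
    have : h1 + h2 < s := by
      by_contra hcon
      push Not at hcon
      nlinarith
    rw [hl]; linarith
  have h1l : 0 ≤ h1 - l := by
    have : h2 - h1 ≤ s := by
      apply Real.le_sqrt_of_sq_le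
      nlinarith [sq_nonneg ‖ζ‖]
    rw [hl]; linarith
  have h2l : 0 ≤ h2 - l := by
    have : h1 - h2 ≤ s := by
      apply Real.le_sqrt_of_sq_le
      nlinarith [sq_nonneg ‖ζ‖]
    rw [hl]; linarith
  have hprod : (h1 - l) * (h2 - l) = ‖ζ‖ ^ 2 := by
    rw [hl]; nlinarith
  set t := 1 / (-l) with ht
  have ht0 : 0 < t := by rw [ht]; exact one_div_pos.2 (by linarith)
  have htl : t * l = -1 := by
    have hl0 : l ≠ 0 := hlneg.ne
    rw [ht]; field_simp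
  have ha : 0 ≤ 1 + t * h1 := by
    have : 1 + t * h1 = t * (h1 - l) := by rw [mul_sub, htl]; ring
    rw [this]; positivity
  have hd : 0 ≤ 1 + t * h2 := by
    have : 1 + t * h2 = t * (h2 - l) := by rw [mul_sub, htl]; ring
    rw [this]; positivity
  have hpr : (1 + t * h1) * (1 + t * h2) = t ^ 2 * ‖ζ‖ ^ 2 := by
    have e1 : 1 + t * h1 = t * (h1 - l) := by rw [mul_sub, htl]; ring
    have e2 : 1 + t * h2 = t * (h2 - l) := by rw [mul_sub, htl]; ring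
    rw [e1, e2, ← hprod]; ring
  refine ⟨t, ht0, ?_⟩
  rcases ha.eq_or_lt with h0 | h0
  · refine ⟨0, ((Real.sqrt (1 + t * h2) : ℝ) : ℂ), by simp [← h0], ?_, ?_⟩
    · rw [Complex.norm_real, Real.norm_eq_abs, sq_abs, Real.sq_sqrt hd]
    · rw [← h0, zero_mul] at hpr
      have : ‖ζ‖ ^ 2 = 0 := by
        have := ht0.ne'
        rcases mul_eq_zero.1 hpr.symm with h | h
        · exact absurd h (pow_ne_zero 2 this)
        · exact h
      have hz : ζ = 0 := norm_eq_zero.1 (pow_eq_zero_iff two_ne_zero |>.1 this)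
      simp [hz]
  · have hr : 0 < Real.sqrt (1 + t * h1) := Real.sqrt_pos.2 h0
    refine ⟨((Real.sqrt (1 + t * h1) : ℝ) : ℂ), (t : ℂ) * ζ / ((Real.sqrt (1 + t * h1) : ℝ) : ℂ),
      ?_, ?_, ?_⟩
    · rw [Complex.norm_real, Real.norm_eq_abs, sq_abs, Real.sq_sqrt h0.le]
    · rw [norm_div, norm_mul, Complex.norm_real, Complex.norm_real, Real.norm_eq_abs,
        Real.norm_eq_abs, div_pow, mul_pow, sq_abs, sq_abs, Real.sq_sqrt h0.le, ← hpr]
      field_simp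
    · rw [Complex.conj_ofReal]
      have : ((Real.sqrt (1 + t * h1) : ℝ) : ℂ) ≠ 0 := by exact_mod_cast hr.ne'
      field_simp

/-- Two vectors can be replaced by one. -/
lemma two (X Z : V →ₗ[ℂ] V) (v1 v2 : V) : ∃ w : V, ‖w‖ ^ 2 = ‖v1‖ ^ 2 + ‖v2‖ ^ 2 ∧
    (inner ℂ (w) (X w)) = (inner ℂ (v1) (X v1)) + (inner ℂ (v2) (X v2)) ∧
    (‖X v1‖ ^ 2 + ‖Z v1‖ ^ 2) + (‖X v2‖ ^ 2 + ‖Z v2‖ ^ 2) ≤ ‖X w‖ ^ 2 + ‖Z w‖ ^ 2 := by
  by_cases h1 : v1 = 0
  · exact ⟨v2, by simp [h1], by simp [h1], by simp [h1]⟩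
  by_cases h2 : v2 = 0
  · exact ⟨v1, by simp [h2], by simp [h2], by simp [h2]⟩
  by_cases h3 : ‖(inner ℂ (v1) (v2))‖ = ‖v1‖ * ‖v2‖
  · obtain ⟨r, -, rfl⟩ := (norm_inner_eq_norm_iff h1 h2).1 h3
    set s := Real.sqrt (1 + ‖r‖ ^ 2) with hs
    have hs2 : s ^ 2 = 1 + ‖r‖ ^ 2 := Real.sq_sqrt (by positivity)
    refine ⟨(s : ℂ) • v1, ?_, ?_, ?_⟩
    · rw [norm_smul, norm_smul, Complex.norm_real, mul_pow, mul_pow, Real.norm_eq_abs, sq_abs, hs2]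
      ring
    · rw [map_smul, map_smul, inner_smul_left, inner_smul_right, inner_smul_left, inner_smul_right,
        Complex.conj_ofReal, ← mul_assoc, ← mul_assoc, ← Complex.normSq_eq_conj_mul_self,
        Complex.normSq_eq_norm_sq, ← Complex.ofReal_mul, ← sq, hs2]
      push_cast
      ring
    · simp only [map_smul, norm_smul, mul_pow, Complex.norm_real, Real.norm_eq_abs, sq_abs, hs2]
      apply le_of_eq
      ring
  have hlt : ‖(inner ℂ (v1) (v2))‖ < ‖v1‖ * ‖v2‖ := lt_of_le_of_ne (norm_inner_le_norm v1 v2) h3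
  -- the linear map
  let f : (ℝ × ℝ × ℂ) →ₗ[ℝ] ℝ × ℂ :=
    { toFun := fun p => (p.1 * ‖v1‖ ^ 2 + p.2.1 * ‖v2‖ ^ 2 + 2 * (p.2.2 * (inner ℂ (v1) (v2))).re,
        (p.1 : ℂ) * (inner ℂ (v1) (X v1)) + (p.2.1 : ℂ) * (inner ℂ (v2) (X v2)) + p.2.2 * (inner ℂ (v1) (X v2)) +
          starRingEnd ℂ p.2.2 * (inner ℂ (v2) (X v1)))
      map_add' := by
        rintro ⟨a, b, c⟩ ⟨a', b', c'⟩
        refine Prod.ext ?_ ?_
        · simp [add_mul]; ring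
        · simp; ring
      map_smul' := by
        rintro r ⟨a, b, c⟩
        refine Prod.ext ?_ ?_
        · simp; ring
        · simp; ring }
  have hker : LinearMap.ker f ≠ ⊥ := by
    apply LinearMap.ker_ne_bot_of_finrank_lt
    simp
  obtain ⟨p, hp, hp0⟩ := (Submodule.ne_bot_iff _).1 hker
  have main : ∀ p : ℝ × ℝ × ℂ, f p = 0 → p ≠ 0 →
      0 ≤ p.1 * (‖X v1‖ ^ 2 + ‖Z v1‖ ^ 2) + p.2.1 * (‖X v2‖ ^ 2 + ‖Z v2‖ ^ 2) +
        2 * (p.2.2 * (inner ℂ (X v1) (X v2))).re + 2 * (p.2.2 * (inner ℂ (Z v1) (Z v2))).re →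
      ∃ w : V, ‖w‖ ^ 2 = ‖v1‖ ^ 2 + ‖v2‖ ^ 2 ∧ (inner ℂ (w) (X w)) = (inner ℂ (v1) (X v1)) + (inner ℂ (v2) (X v2)) ∧
      (‖X v1‖ ^ 2 + ‖Z v1‖ ^ 2) + (‖X v2‖ ^ 2 + ‖Z v2‖ ^ 2) ≤ ‖X w‖ ^ 2 + ‖Z w‖ ^ 2 := by
    rintro ⟨h1', h2', ζ⟩ hf hne hpos
    have e1 : h1' * ‖v1‖ ^ 2 + h2' * ‖v2‖ ^ 2 + 2 * (ζ * (inner ℂ (v1) (v2))).re = 0 := congrArg Prod.fst hf
    have e2 : (h1' : ℂ) * (inner ℂ (v1) (X v1)) + (h2' : ℂ) * (inner ℂ (v2) (X v2)) + ζ * (inner ℂ (v1) (X v2)) +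
          starRingEnd ℂ ζ * (inner ℂ (v2) (X v1)) = 0 := congrArg Prod.snd hf
    simp only at hpos
    have hn1 : 0 < ‖v1‖ := norm_pos_iff.2 h1
    have hn2 : 0 < ‖v2‖ := norm_pos_iff.2 h2
    have hdet : h1' * h2' < ‖ζ‖ ^ 2 := by
      by_contra hcon
      push Not at hcon
      have hre : |(ζ * (inner ℂ (v1) (v2))).re| ≤ ‖ζ‖ * ‖(inner ℂ (v1) (v2))‖ := by
        rw [← norm_mul]; exact Complex.abs_re_le_norm _
      have hsq : (h1' * ‖v1‖ ^ 2 + h2' * ‖v2‖ ^ 2) ^ 2 ≤ 4 * (‖ζ‖ ^ 2 * ‖(inner ℂ (v1) (v2))‖ ^ 2) := by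
        have : h1' * ‖v1‖ ^ 2 + h2' * ‖v2‖ ^ 2 = -(2 * (ζ * (inner ℂ (v1) (v2))).re) := by linarith
        rw [this]
        have h5 : ((ζ * (inner ℂ (v1) (v2))).re) ^ 2 ≤ (‖ζ‖ * ‖(inner ℂ (v1) (v2))‖) ^ 2 := by
          rw [← sq_abs]; exact pow_le_pow_left₀ (abs_nonneg _) hre 2
        nlinarith
      have h6 : ‖(inner ℂ (v1) (v2))‖ ^ 2 < ‖v1‖ ^ 2 * ‖v2‖ ^ 2 := by
        rw [← mul_pow]; exact pow_lt_pow_left₀ hlt (norm_nonneg _) two_ne_zero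
      have h7 : 4 * (‖ζ‖ ^ 2 * ‖(inner ℂ (v1) (v2))‖ ^ 2) ≤ 4 * (h1' * h2' * ‖(inner ℂ (v1) (v2))‖ ^ 2) := by
        gcongr
      have h8 : 4 * (h1' * h2') * (‖v1‖ ^ 2 * ‖v2‖ ^ 2) ≤
          (h1' * ‖v1‖ ^ 2 + h2' * ‖v2‖ ^ 2) ^ 2 := by
        nlinarith [sq_nonneg (h1' * ‖v1‖ ^ 2 - h2' * ‖v2‖ ^ 2)]
      have h9 : 0 ≤ h1' * h2' := le_trans (sq_nonneg _) hcon
      rcases h9.eq_or_lt with h0 | h0
      · have hz : ‖ζ‖ ^ 2 = 0 := le_antisymm (by rw [h0]; exact hcon) (sq_nonneg _)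
        have hz' : ζ = 0 := norm_eq_zero.1 (pow_eq_zero_iff two_ne_zero |>.1 hz)
        rw [hz'] at e1
        simp only [zero_mul, Complex.zero_re, mul_zero, add_zero] at e1
        apply hne
        rcases mul_eq_zero.1 h0.symm with h | h
        · have : h2' = 0 := by
            rw [h, zero_mul, zero_add] at e1
            rcases mul_eq_zero.1 e1 with h' | h'
            · exact h'
            · exact absurd h' (by positivity)
          rw [h, this, hz']; rfl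
        · have : h1' = 0 := by
            rw [h, zero_mul, add_zero] at e1
            rcases mul_eq_zero.1 e1 with h' | h'
            · exact h'
            · exact absurd h' (by positivity)
          rw [h, this, hz']; rfl
      · have : 4 * (h1' * h2' * ‖(inner ℂ (v1) (v2))‖ ^ 2) < 4 * (h1' * h2') * (‖v1‖ ^ 2 * ‖v2‖ ^ 2) := by
          have := mul_lt_mul_of_pos_left h6 h0
          linarith
        linarith
    obtain ⟨t, ht, α, β, hα, hβ, hz⟩ := boundary hdet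
    refine ⟨α • v1 + β • v2, ?_, ?_, ?_⟩
    · have := nsq_lin LinearMap.id v1 v2 α β
      simp only [LinearMap.id_coe, id_eq] at this
      rw [this, hα, hβ, hz]
      have h5 : ((t : ℂ) * ζ * (inner ℂ (v1) (v2))).re = t * (ζ * (inner ℂ (v1) (v2))).re := by
        rw [mul_assoc, Complex.re_ofReal_mul]
      rw [h5]
      linear_combination t * e1
    · rw [inner_lin, hz, map_mul, Complex.conj_ofReal, ← Complex.normSq_eq_conj_mul_self,
        ← Complex.normSq_eq_conj_mul_self, Complex.normSq_eq_norm_sq, Complex.normSq_eq_norm_sq,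
        hα, hβ]
      push_cast
      linear_combination (t : ℂ) * e2
    · rw [nsq_lin, nsq_lin, hα, hβ, hz]
      have h5 : ((t : ℂ) * ζ * (inner ℂ (X v1) (X v2))).re = t * (ζ * (inner ℂ (X v1) (X v2))).re := by
        rw [mul_assoc, Complex.re_ofReal_mul]
      have h6 : ((t : ℂ) * ζ * (inner ℂ (Z v1) (Z v2))).re = t * (ζ * (inner ℂ (Z v1) (Z v2))).re := by
        rw [mul_assoc, Complex.re_ofReal_mul]
      rw [h5, h6]
      have := mul_nonneg ht.le hpos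
      linarith
  have hfp : f p = 0 := hp
  rcases le_total 0 (p.1 * (‖X v1‖ ^ 2 + ‖Z v1‖ ^ 2) + p.2.1 * (‖X v2‖ ^ 2 + ‖Z v2‖ ^ 2) +
        2 * (p.2.2 * (inner ℂ (X v1) (X v2))).re + 2 * (p.2.2 * (inner ℂ (Z v1) (Z v2))).re) with h | h
  · exact main p hfp hp0 h
  · refine main (-p) (by rw [map_neg, hfp, neg_zero]) (neg_ne_zero.2 hp0) ?_
    simp only [Prod.fst_neg, Prod.snd_neg, neg_mul, Complex.neg_re]
    linarith

/-- A family of vectors can be replaced by one. -/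
lemma family (X Z : V →ₗ[ℂ] V) {ι : Type*} (s : Finset ι) (v : ι → V) : ∃ w : V,
    ‖w‖ ^ 2 = ∑ k ∈ s, ‖v k‖ ^ 2 ∧ (inner ℂ (w) (X w)) = ∑ k ∈ s, (inner ℂ (v k) (X (v k))) ∧
    ∑ k ∈ s, (‖X (v k)‖ ^ 2 + ‖Z (v k)‖ ^ 2) ≤ ‖X w‖ ^ 2 + ‖Z w‖ ^ 2 := by
  classical
  induction s using Finset.induction_on with
  | empty => exact ⟨0, by simp, by simp, by simp⟩
  | insert a s ha ih =>
    obtain ⟨w, h1, h2, h3⟩ := ih
    obtain ⟨w', g1, g2, g3⟩ := two X Z (v a) w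
    refine ⟨w', ?_, ?_, ?_⟩
    · rw [Finset.sum_insert ha, g1, h1]
    · rw [Finset.sum_insert ha, g2, h2]
    · rw [Finset.sum_insert ha]
      linarith

end Q81.BW
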