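import Pool.Agent.Q81.BW1

/-!
# The Böttcher–Wenzel inequality with the Ky Fan (2,2)-norm
-/

namespace Q81.BW

open Module InnerProductSpace Matrix

/-- squared Frobenius norm -/
noncomputable def fsq {m n : Type*} [Fintype m] [Fintype n] (M : Matrix m n ℂ) : ℝ := ∑ i, ∑ j, ‖M i j‖ ^ 2

section
variable {m n p : Type*} [Fintype m] [Fintype n] [Fintype p]

lemma fsq_nonneg (M : Matrix m n ℂ) : 0 ≤ fsq M :=
  Finset.sum_nonneg fun _ _ => Finset.sum_nonneg fun _ _ => sq_nonneg _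

lemma trace_eq (M N : Matrix m n ℂ) :
    (Mᴴ * N).trace = ∑ i, ∑ j, starRingEnd ℂ (M i j) * N i j := by
  simp only [Matrix.trace, Matrix.diag, Matrix.mul_apply, Matrix.conjTranspose_apply]
  rw [Finset.sum_comm]
  rfl

lemma fsq_eq (M : Matrix m n ℂ) : ((fsq M : ℝ) : ℂ) = (Mᴴ * M).trace := by
  rw [trace_eq, fsq]
  push_cast
  refine Finset.sum_congr rfl fun i _ => Finset.sum_congr rfl fun j _ => ?_
  rw [← Complex.normSq_eq_conj_mul_self, Complex.normSq_eq_norm_sq]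
  push_cast; rfl

lemma fsq_re (M : Matrix m n ℂ) : fsq M = (Mᴴ * M).trace.re := by
  rw [← fsq_eq, Complex.ofReal_re]

lemma fsq_conjTranspose (M : Matrix m n ℂ) : fsq Mᴴ = fsq M := by
  unfold fsq
  rw [Finset.sum_comm]
  simp

lemma trace_cs (M N : Matrix m n ℂ) : ‖(Mᴴ * N).trace‖ ^ 2 ≤ fsq M * fsq N := by
  rw [trace_eq]
  have h1 : ‖∑ i, ∑ j, starRingEnd ℂ (M i j) * N i j‖ ≤
      ∑ p : m × n, ‖M p.1 p.2‖ * ‖N p.1 p.2‖ := by
    rw [Fintype.sum_prod_type]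
    refine (norm_sum_le _ _).trans (Finset.sum_le_sum fun i _ => ?_)
    refine (norm_sum_le _ _).trans (Finset.sum_le_sum fun j _ => ?_)
    rw [norm_mul, RCLike.norm_conj]
  have h2 := Finset.sum_mul_sq_le_sq_mul_sq Finset.univ (fun p : m × n => ‖M p.1 p.2‖)
    (fun p => ‖N p.1 p.2‖)
  have h3 : fsq M = ∑ p : m × n, ‖M p.1 p.2‖ ^ 2 := by rw [Fintype.sum_prod_type]; rfl
  have h4 : fsq N = ∑ p : m × n, ‖N p.1 p.2‖ ^ 2 := by rw [Fintype.sum_prod_type]; rfl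
  rw [h3, h4]
  exact (pow_le_pow_left₀ (norm_nonneg _) h1 2).trans h2

/-- columns -/
noncomputable def col (M : Matrix m n ℂ) (k : n) : EuclideanSpace ℂ m :=
  WithLp.toLp 2 fun i => M i k

lemma nsq_col (M : Matrix m n ℂ) (k : n) : ‖col M k‖ ^ 2 = ∑ i, ‖M i k‖ ^ 2 := by
  rw [EuclideanSpace.norm_sq_eq]; rfl

lemma sum_nsq_col (M : Matrix m n ℂ) : ∑ k, ‖col M k‖ ^ 2 = fsq M := by
  simp only [nsq_col, fsq]
  rw [Finset.sum_comm]

variable [DecidableEq n] [DecidableEq m]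

lemma lin_col (X : Matrix m n ℂ) (Y : Matrix n p ℂ) (k : p) :
    Matrix.toEuclideanLin X (col Y k) = col (X * Y) k := by
  ext i
  simp [col, Matrix.toEuclideanLin, Matrix.mulVec, dotProduct, Matrix.mul_apply]

omit [DecidableEq n] [DecidableEq m] [Fintype n] in
lemma inner_col (Y Z : Matrix m n ℂ) (k : n) :
    inner ℂ (col Y k) (col Z k) = ∑ i, starRingEnd ℂ (Y i k) * Z i k := by
  simp [col, PiLp.inner_apply, mul_comm]

omit [DecidableEq n] [DecidableEq m] in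
lemma sum_inner_col (Y Z : Matrix m n ℂ) :
    ∑ k, inner ℂ (col Y k) (col Z k) = (Yᴴ * Z).trace := by
  simp only [inner_col, trace_eq]
  rw [Finset.sum_comm]

end

section square
variable {N : Type*} [Fintype N] [DecidableEq N]

lemma fsq_add_comm (X Y : Matrix N N ℂ) :
    fsq (X * Y - Y * X) + fsq (Xᴴ * Y + Y * Xᴴ) =
      fsq (X * Y) + fsq (Xᴴ * Y) + (fsq (X * Yᴴ) + fsq (Xᴴ * Yᴴ)) := by
  have e1 : fsq (X * Yᴴ) = fsq (Y * Xᴴ) := by
    rw [← fsq_conjTranspose, conjTranspose_mul, conjTranspose_conjTranspose]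
  have e2 : fsq (Xᴴ * Yᴴ) = fsq (Y * X) := by
    rw [← conjTranspose_mul, fsq_conjTranspose]
  rw [e1, e2]
  have h1 : fsq (X * Y - Y * X) = fsq (X * Y) + fsq (Y * X) -
      (((X * Y)ᴴ * (Y * X)).trace.re + ((Y * X)ᴴ * (X * Y)).trace.re) := by
    simp only [fsq_re, conjTranspose_sub, Matrix.sub_mul, Matrix.mul_sub, trace_sub,
      Complex.sub_re]
    ring
  have h2 : fsq (Xᴴ * Y + Y * Xᴴ) = fsq (Xᴴ * Y) + fsq (Y * Xᴴ) +
      (((Xᴴ * Y)ᴴ * (Y * Xᴴ)).trace.re + ((Y * Xᴴ)ᴴ * (Xᴴ * Y)).trace.re) := by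
    simp only [fsq_re, conjTranspose_add, Matrix.add_mul, Matrix.mul_add, trace_add,
      Complex.add_re]
    ring
  have h3 : ((X * Y)ᴴ * (Y * X)).trace = ((Y * Xᴴ)ᴴ * (Xᴴ * Y)).trace := by
    simp only [conjTranspose_mul, conjTranspose_conjTranspose]
    rw [Matrix.mul_assoc, Matrix.trace_mul_comm]
    rw [← Matrix.mul_assoc, ← Matrix.mul_assoc, Matrix.mul_assoc (Xᴴ * Y)]
    rw [Matrix.trace_mul_comm]
    simp only [Matrix.mul_assoc]
  have h4 : ((Y * X)ᴴ * (X * Y)).trace = ((Xᴴ * Y)ᴴ * (Y * Xᴴ)).trace := by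
    simp only [conjTranspose_mul, conjTranspose_conjTranspose]
    rw [Matrix.mul_assoc, Matrix.trace_mul_comm]
    simp only [Matrix.mul_assoc]
  rw [h1, h2, h3, h4]
  ring

/-- pointwise bound -/
lemma point (X : Matrix N N ℂ) {K : ℝ}
    (h1 : ∀ e : EuclideanSpace ℂ N, ‖e‖ = 1 → ‖toEuclideanLin X e‖ ^ 2 ≤ K)
    (h2 : ∀ e f : EuclideanSpace ℂ N, ‖e‖ = 1 → ‖f‖ = 1 → inner ℂ e f = 0 →
      ‖toEuclideanLin X e‖ ^ 2 + ‖toEuclideanLin X f‖ ^ 2 ≤ K) (w : EuclideanSpace ℂ N) :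
    ‖w‖ ^ 2 * (‖toEuclideanLin X w‖ ^ 2 + ‖toEuclideanLin Xᴴ w‖ ^ 2) -
      ‖inner ℂ w (toEuclideanLin X w)‖ ^ 2 ≤ K * ‖w‖ ^ 4 := by
  have hadj : ∀ x y : EuclideanSpace ℂ N,
      inner ℂ (toEuclideanLin Xᴴ x) y = inner ℂ x (toEuclideanLin X y) := by
    intro x y
    rw [toEuclideanLin_conjTranspose_eq_adjoint, LinearMap.adjoint_inner_left]
  -- unit vectors first
  have hunit : ∀ v : EuclideanSpace ℂ N, ‖v‖ = 1 →
      ‖toEuclideanLin X v‖ ^ 2 + ‖toEuclideanLin Xᴴ v‖ ^ 2 -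
      ‖inner ℂ v (toEuclideanLin X v)‖ ^ 2 ≤ K := by
    intro v hv
    set c : ℂ := inner ℂ v (toEuclideanLin Xᴴ v) with hc
    set r : EuclideanSpace ℂ N := toEuclideanLin Xᴴ v - c • v with hr
    have hvr : inner ℂ v r = 0 := by
      rw [hr, inner_sub_right, inner_smul_right, inner_self_eq_norm_sq_to_K, hv, ← hc]
      simp
    have hrv : inner ℂ r v = 0 := by rw [← inner_conj_symm, hvr, map_zero]
    have hcn : ‖inner ℂ v (toEuclideanLin X v)‖ = ‖c‖ := by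
      rw [← hadj, hc, ← inner_conj_symm, RCLike.norm_conj]
    have hXv : toEuclideanLin Xᴴ v = r + c • v := by rw [hr]; abel
    have hns : ‖toEuclideanLin Xᴴ v‖ ^ 2 = ‖r‖ ^ 2 + ‖c‖ ^ 2 := by
      rw [hXv, norm_add_sq (𝕜 := ℂ), inner_smul_right, hrv, norm_smul, hv]
      simp
    rw [hcn, hns]
    by_cases h0 : r = 0
    · rw [h0, norm_zero]
      have := h1 v hv
      linarith
    · have hrn : 0 < ‖r‖ := norm_pos_iff.2 h0
      set f : EuclideanSpace ℂ N := ((‖r‖⁻¹ : ℝ) : ℂ) • r with hf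
      have hfn : ‖f‖ = 1 := by
        rw [hf, norm_smul, Complex.norm_real, norm_inv, norm_norm, inv_mul_cancel₀ hrn.ne']
      have hvf : inner ℂ v f = 0 := by rw [hf, inner_smul_right, hvr, mul_zero]
      have h3 := h2 v f hv hfn hvf
      have h4 : inner ℂ v (toEuclideanLin X f) = (‖r‖ : ℂ) := by
        rw [← hadj, hXv, inner_add_left, inner_smul_left, hvf, mul_zero, add_zero, hf,
          inner_smul_right, inner_self_eq_norm_sq_to_K]
        have : (‖r‖ : ℂ) ≠ 0 := by exact_mod_cast hrn.ne'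
        push_cast
        field_simp
        rfl
      have h5 : ‖r‖ ≤ ‖toEuclideanLin X f‖ := by
        have := norm_inner_le_norm (𝕜 := ℂ) v (toEuclideanLin X f)
        rw [h4, hv, one_mul, Complex.norm_real, norm_norm] at this
        exact this
      have h6 : ‖r‖ ^ 2 ≤ ‖toEuclideanLin X f‖ ^ 2 := pow_le_pow_left₀ hrn.le h5 2
      linarith
  by_cases hw : w = 0
  · simp [hw]
  have hwn : 0 < ‖w‖ := norm_pos_iff.2 hw
  set v : EuclideanSpace ℂ N := ((‖w‖⁻¹ : ℝ) : ℂ) • w with hv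
  have hvn : ‖v‖ = 1 := by
    rw [hv, norm_smul, Complex.norm_real, norm_inv, norm_norm, inv_mul_cancel₀ hwn.ne']
  have h3 := hunit v hvn
  rw [hv] at h3
  simp only [map_smul, norm_smul, inner_smul_left, inner_smul_right, norm_mul, Complex.norm_real,
    Complex.conj_ofReal, norm_inv, norm_norm] at h3
  have h4 : ‖w‖ ^ 4 * ((‖w‖⁻¹ * ‖toEuclideanLin X w‖) ^ 2 +
      (‖w‖⁻¹ * ‖toEuclideanLin Xᴴ w‖) ^ 2 -
      (‖w‖⁻¹ * (‖w‖⁻¹ * ‖inner ℂ w (toEuclideanLin X w)‖)) ^ 2) =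
      ‖w‖ ^ 2 * (‖toEuclideanLin X w‖ ^ 2 + ‖toEuclideanLin Xᴴ w‖ ^ 2) -
      ‖inner ℂ w (toEuclideanLin X w)‖ ^ 2 := by
    have := hwn.ne'
    field_simp
  rw [← h4, mul_comm K]
  exact mul_le_mul_of_nonneg_left h3 (by positivity)

/-- The Böttcher–Wenzel inequality with the Ky Fan norm. -/
theorem bw (X Y : Matrix N N ℂ) {K : ℝ}
    (h1 : ∀ e : EuclideanSpace ℂ N, ‖e‖ = 1 → ‖toEuclideanLin X e‖ ^ 2 ≤ K)
    (h2 : ∀ e f : EuclideanSpace ℂ N, ‖e‖ = 1 → ‖f‖ = 1 → inner ℂ e f = 0 →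
      ‖toEuclideanLin X e‖ ^ 2 + ‖toEuclideanLin X f‖ ^ 2 ≤ K) :
    fsq (X * Y - Y * X) ≤ 2 * K * fsq Y := by
  let v : N ⊕ N → EuclideanSpace ℂ N := Sum.elim (fun k => col Y k) (fun k => col Yᴴ k)
  obtain ⟨w, g1, g2, g3⟩ := family (toEuclideanLin X) (toEuclideanLin Xᴴ) Finset.univ v
  have s1 : ∑ k, ‖v k‖ ^ 2 = 2 * fsq Y := by
    rw [Fintype.sum_sum_type]
    simp only [v, Sum.elim_inl, Sum.elim_inr]
    rw [sum_nsq_col, sum_nsq_col, fsq_conjTranspose]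
    ring
  have s2 : ∑ k, inner ℂ (v k) (toEuclideanLin X (v k)) =
      (Yᴴ * (X * Y)).trace + (Yᴴᴴ * (X * Yᴴ)).trace := by
    rw [Fintype.sum_sum_type]
    simp only [v, Sum.elim_inl, Sum.elim_inr, lin_col]
    rw [sum_inner_col, sum_inner_col]
  have s3 : ∑ k, (‖toEuclideanLin X (v k)‖ ^ 2 + ‖toEuclideanLin Xᴴ (v k)‖ ^ 2) =
      fsq (X * Y) + fsq (Xᴴ * Y) + (fsq (X * Yᴴ) + fsq (Xᴴ * Yᴴ)) := by
    rw [Fintype.sum_sum_type]
    simp only [v, Sum.elim_inl, Sum.elim_inr, lin_col, Finset.sum_add_distrib]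
    simp only [sum_nsq_col]
  rw [s1] at g1
  rw [s2] at g2
  rw [s3, ← fsq_add_comm] at g3
  have hp := point X h1 h2 w
  have hF := fsq_nonneg Y
  -- the Cauchy-Schwarz step
  have hcs := trace_cs Y (Xᴴ * Y + Y * Xᴴ)
  have hc : ‖inner ℂ w (toEuclideanLin X w)‖ = ‖(Yᴴ * (Xᴴ * Y + Y * Xᴴ)).trace‖ := by
    rw [g2, ← RCLike.norm_conj]
    congr 1
    have e1 : starRingEnd ℂ (Yᴴ * (X * Y)).trace = (Yᴴ * (Xᴴ * Y)).trace := by
      rw [starRingEnd_apply, ← trace_conjTranspose]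
      simp only [conjTranspose_mul, conjTranspose_conjTranspose, Matrix.mul_assoc]
    have e2 : starRingEnd ℂ (Yᴴᴴ * (X * Yᴴ)).trace = (Yᴴ * (Y * Xᴴ)).trace := by
      rw [starRingEnd_apply, ← trace_conjTranspose]
      simp only [conjTranspose_mul, conjTranspose_conjTranspose]
      rw [Matrix.mul_assoc, Matrix.trace_mul_comm, Matrix.mul_assoc, Matrix.trace_mul_comm]
      simp only [Matrix.mul_assoc]
    rw [map_add, e1, e2, Matrix.mul_add, trace_add]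
  rw [hc] at hp
  have hw4 : ‖w‖ ^ 4 = (2 * fsq Y) ^ 2 := by rw [← g1]; ring
  rw [hw4, g1] at hp
  rcases hF.eq_or_lt with h0 | h0
  · have hY : Y = 0 := by
      have h : ∀ i j, Y i j = 0 := by
        intro i j
        have h3 : ∑ i, ∑ j, ‖Y i j‖ ^ 2 = 0 := h0.symm
        rw [Finset.sum_eq_zero_iff_of_nonneg
          (fun _ _ => Finset.sum_nonneg fun _ _ => sq_nonneg _)] at h3
        have h4 := h3 i (Finset.mem_univ _)
        rw [Finset.sum_eq_zero_iff_of_nonneg (fun _ _ => sq_nonneg _)] at h4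
        exact norm_eq_zero.1 (pow_eq_zero_iff two_ne_zero |>.1 (h4 j (Finset.mem_univ _)))
      ext i j; exact h i j
    rw [hY]
    simp [fsq]
  · set C := ‖(Yᴴ * (Xᴴ * Y + Y * Xᴴ)).trace‖ ^ 2
    set S := fsq (Xᴴ * Y + Y * Xᴴ)
    set D := fsq (X * Y - Y * X)
    set F := fsq Y
    have h3 : 2 * F * (D + S) ≤ 2 * F * (‖toEuclideanLin X w‖ ^ 2 + ‖toEuclideanLin Xᴴ w‖ ^ 2) :=
      mul_le_mul_of_nonneg_left g3 (by positivity)
    have hC : 0 ≤ C := sq_nonneg _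
    have h4 : D * F ≤ 2 * K * F * F := by nlinarith
    exact le_of_mul_le_mul_right h4 h0

end square

end Q81.BW
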