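import Pool.Agent.Q81.BW2

/-!
# Singular values, and the bound for ABC - CBA
-/

namespace Q81.BW

open Module InnerProductSpace Matrix

section sv
variable {E F : Type*} [NormedAddCommGroup E] [InnerProductSpace ℂ E] [FiniteDimensional ℂ E]
  [NormedAddCommGroup F] [InnerProductSpace ℂ F] [FiniteDimensional ℂ F] (T : E →ₗ[ℂ] F)

/-- the orthonormal basis of right singular vectors -/
noncomputable def bs : OrthonormalBasis (Fin (finrank ℂ E)) ℂ E :=
  T.isSymmetric_adjoint_comp_self.eigenvectorBasis rfl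

lemma nsq_expand (x : E) :
    ‖T x‖ ^ 2 = ∑ i : Fin (finrank ℂ E), T.singularValues i ^ 2 * ‖inner ℂ (bs T i) x‖ ^ 2 := by
  have h1 : ((‖T x‖ ^ 2 : ℝ) : ℂ) = inner ℂ x ((LinearMap.adjoint T ∘ₗ T) x) := by
    rw [LinearMap.comp_apply, LinearMap.adjoint_inner_right, inner_self_eq_norm_sq_to_K]
    push_cast; rfl
  rw [← (bs T).sum_inner_mul_inner] at h1
  have h2 : ∀ i, inner ℂ (bs T i) ((LinearMap.adjoint T ∘ₗ T) x) =
      ((T.singularValues i ^ 2 : ℝ) : ℂ) * inner ℂ (bs T i) x := by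
    intro i
    rw [← T.isSymmetric_adjoint_comp_self (bs T i) x, bs,
      T.isSymmetric_adjoint_comp_self.apply_eigenvectorBasis rfl i, inner_smul_left,
      T.sq_singularValues_fin rfl]
    simp
  simp only [h2] at h1
  have h3 : ((‖T x‖ ^ 2 : ℝ) : ℂ) =
      ((∑ i : Fin (finrank ℂ E), T.singularValues i ^ 2 * ‖inner ℂ (bs T i) x‖ ^ 2 : ℝ) : ℂ) := by
    rw [h1]
    push_cast
    refine Finset.sum_congr rfl fun i _ => ?_
    rw [← inner_conj_symm x (bs T i)]
    have : starRingEnd ℂ (inner ℂ (bs T i) x) * inner ℂ (bs T i) x =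
        ((‖inner ℂ (bs T i) x‖ : ℝ) : ℂ) ^ 2 := by
      rw [← Complex.normSq_eq_conj_mul_self, Complex.normSq_eq_norm_sq]
      push_cast; rfl
    calc _ = ((T.singularValues i : ℝ) : ℂ) ^ 2 *
          (starRingEnd ℂ (inner ℂ (bs T i) x) * inner ℂ (bs T i) x) := by
          push_cast; ring
      _ = _ := by rw [this]
  exact_mod_cast h3

lemma op_bound (x : E) : ‖T x‖ ^ 2 ≤ T.singularValues 0 ^ 2 * ‖x‖ ^ 2 := by
  rw [nsq_expand, ← (bs T).sum_sq_norm_inner_right x, Finset.mul_sum]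
  refine Finset.sum_le_sum fun i _ => ?_
  have h1 := T.singularValues_antitone (Nat.zero_le (i : ℕ))
  have h2 := T.singularValues_nonneg (i : ℕ)
  gcongr

/-- Ky Fan's principle -/
lemma kyfan (g : Fin (finrank ℂ E) → ℝ) (h0 : ∀ i, 0 ≤ g i) (h1 : ∀ i, g i ≤ 1)
    (h2 : ∑ i, g i ≤ 2) :
    ∑ i : Fin (finrank ℂ E), T.singularValues i ^ 2 * g i ≤
      T.singularValues 0 ^ 2 + T.singularValues 1 ^ 2 := by
  have ha : (T.singularValues 1) ^ 2 ≤ (T.singularValues 0) ^ 2 :=
    pow_le_pow_left₀ (T.singularValues_nonneg 1) (T.singularValues_antitone (Nat.zero_le 1)) 2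
  have hle : ∑ i : Fin (finrank ℂ E), T.singularValues i ^ 2 * g i ≤ ∑ i : Fin (finrank ℂ E),
      (T.singularValues 1 ^ 2 * g i +
        (T.singularValues 0 ^ 2 - T.singularValues 1 ^ 2) * (if (i : ℕ) = 0 then g i else 0)) := by
    refine Finset.sum_le_sum fun i _ => ?_
    by_cases hi : (i : ℕ) = 0
    · rw [if_pos hi, hi]
      linarith
    · rw [if_neg hi, mul_zero, add_zero]
      have h3 : T.singularValues i ≤ T.singularValues 1 :=
        T.singularValues_antitone (by omega)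
      have h4 := T.singularValues_nonneg (i : ℕ)
      exact mul_le_mul_of_nonneg_right (pow_le_pow_left₀ h4 h3 2) (h0 i)
  refine hle.trans ?_
  rw [Finset.sum_add_distrib, ← Finset.mul_sum, ← Finset.mul_sum]
  have h5 : ∑ i : Fin (finrank ℂ E), (if (i : ℕ) = 0 then g i else 0) ≤ 1 := by
    by_cases hn : 0 < finrank ℂ E
    · rw [Finset.sum_eq_single (⟨0, hn⟩ : Fin (finrank ℂ E))]
      · simpa using h1 _
      · intro b _ hb
        rw [if_neg]
        intro h
        exact hb (Fin.ext h)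
      · intro h; exact absurd (Finset.mem_univ _) h
    · haveI : IsEmpty (Fin (finrank ℂ E)) := ⟨fun i => hn (Fin.pos i)⟩
      rw [Finset.univ_eq_empty, Finset.sum_empty]
      exact zero_le_one
  have h6 : T.singularValues 1 ^ 2 * ∑ i, g i ≤ T.singularValues 1 ^ 2 * 2 :=
    mul_le_mul_of_nonneg_left h2 (sq_nonneg _)
  have h7 : (T.singularValues 0 ^ 2 - T.singularValues 1 ^ 2) *
      ∑ i : Fin (finrank ℂ E), (if (i : ℕ) = 0 then g i else 0) ≤
      (T.singularValues 0 ^ 2 - T.singularValues 1 ^ 2) * 1 :=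
    mul_le_mul_of_nonneg_left h5 (by linarith)
  linarith

end sv

section unitary
variable {N : Type*} [Fintype N] [DecidableEq N]

/-- A Hermitian contraction is the mean of a unitary matrix and its adjoint. -/
lemma exists_unitary {H : Matrix N N ℂ} (hH : H.IsHermitian)
    (hc : ∀ x : EuclideanSpace ℂ N, ‖toEuclideanLin H x‖ ≤ ‖x‖) :
    ∃ W : Matrix N N ℂ, Wᴴ * W = 1 ∧ W * Wᴴ = 1 ∧ H = (1 / 2 : ℂ) • (W + Wᴴ) := by
  have hev : ∀ i, |hH.eigenvalues i| ≤ 1 := by
    intro i
    have h1 := hc (hH.eigenvectorBasis i)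
    have h2 : toEuclideanLin H (hH.eigenvectorBasis i) =
        ((hH.eigenvalues i : ℝ) : ℂ) • hH.eigenvectorBasis i := by
      have := hH.mulVec_eigenvectorBasis i
      ext j
      have h3 := congrFun this j
      simpa [toEuclideanLin] using h3
    rw [h2, norm_smul, Complex.norm_real, Real.norm_eq_abs,
      hH.eigenvectorBasis.orthonormal.1 i, mul_one] at h1
    exact h1
  set U : Matrix N N ℂ := (hH.eigenvectorUnitary : Matrix N N ℂ) with hU
  have hUU : Uᴴ * U = 1 := by
    have := hH.eigenvectorUnitary.2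
    exact (Matrix.mem_unitaryGroup_iff').1 this
  have hUU' : U * Uᴴ = 1 := by
    have := hH.eigenvectorUnitary.2
    exact (Matrix.mem_unitaryGroup_iff).1 this
  have hspec : H = U * diagonal (fun i => ((hH.eigenvalues i : ℝ) : ℂ)) * Uᴴ := by
    have := hH.spectral_theorem
    rw [Unitary.conjStarAlgAut_apply] at this
    exact this
  set μ : N → ℂ := fun i => (hH.eigenvalues i : ℂ) +
    (Real.sqrt (1 - hH.eigenvalues i ^ 2) : ℂ) * Complex.I with hμ
  have hμ1 : ∀ i, star (μ i) * μ i = 1 := by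
    intro i
    have h1 : hH.eigenvalues i ^ 2 ≤ 1 := by
      rw [← sq_abs]
      exact pow_le_one₀ (abs_nonneg _) (hev i)
    have h2 : Real.sqrt (1 - hH.eigenvalues i ^ 2) ^ 2 = 1 - hH.eigenvalues i ^ 2 :=
      Real.sq_sqrt (by linarith)
    have h3 : starRingEnd ℂ (μ i) * μ i = ((Complex.normSq (μ i) : ℝ) : ℂ) :=
      (Complex.normSq_eq_conj_mul_self).symm
    rw [← starRingEnd_apply, h3]
    have : Complex.normSq (μ i) = 1 := by
      simp only [hμ, Complex.normSq_apply]
      simp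
      nlinarith
    rw [this]; simp
  have hμ2 : ∀ i, μ i + star (μ i) = 2 * (hH.eigenvalues i : ℂ) := by
    intro i
    simp only [hμ]
    rw [← starRingEnd_apply]
    simp
    ring
  refine ⟨U * diagonal μ * Uᴴ, ?_, ?_, ?_⟩
  · rw [conjTranspose_mul, conjTranspose_mul, conjTranspose_conjTranspose,
      diagonal_conjTranspose]
    calc U * (diagonal (star μ) * Uᴴ) * (U * diagonal μ * Uᴴ)
        = U * (diagonal (star μ) * (Uᴴ * U) * diagonal μ) * Uᴴ := by
          simp only [Matrix.mul_assoc]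
      _ = U * (diagonal (star μ) * diagonal μ) * Uᴴ := by rw [hUU, Matrix.mul_one]
      _ = 1 := by
          rw [diagonal_mul_diagonal]
          have : (fun i => star μ i * μ i) = fun _ => (1 : ℂ) := funext hμ1
          rw [this, diagonal_one, Matrix.mul_one, hUU']
  · rw [conjTranspose_mul, conjTranspose_mul, conjTranspose_conjTranspose,
      diagonal_conjTranspose]
    calc U * diagonal μ * Uᴴ * (U * (diagonal (star μ) * Uᴴ))
        = U * (diagonal μ * (Uᴴ * U) * diagonal (star μ)) * Uᴴ := by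
          simp only [Matrix.mul_assoc]
      _ = U * (diagonal μ * diagonal (star μ)) * Uᴴ := by rw [hUU, Matrix.mul_one]
      _ = 1 := by
          rw [diagonal_mul_diagonal]
          have : (fun i => μ i * star μ i) = fun _ => (1 : ℂ) := by
            funext i
            rw [mul_comm]
            exact hμ1 i
          rw [this, diagonal_one, Matrix.mul_one, hUU']
  · rw [conjTranspose_mul, conjTranspose_mul, conjTranspose_conjTranspose,
      diagonal_conjTranspose]
    have h1 : U * diagonal μ * Uᴴ + U * (diagonal (star μ) * Uᴴ) =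
        U * (diagonal μ + diagonal (star μ)) * Uᴴ := by
      rw [Matrix.mul_add, Matrix.add_mul, Matrix.mul_assoc U (diagonal (star μ))]
    have h2 : diagonal μ + diagonal (star μ) =
        (2 : ℂ) • diagonal (fun i => ((hH.eigenvalues i : ℝ) : ℂ)) := by
      rw [diagonal_add, ← diagonal_smul]
      congr 1
      funext i
      exact hμ2 i
    rw [h1, h2, Matrix.mul_smul, Matrix.smul_mul, smul_smul, ← hspec]
    norm_num

lemma fsq_unitary_mul {W : Matrix N N ℂ} (hW : Wᴴ * W = 1) {n : Type*} [Fintype n]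
    (M : Matrix N n ℂ) : fsq (W * M) = fsq M := by
  rw [fsq_re, fsq_re, conjTranspose_mul]
  have : Mᴴ * Wᴴ * (W * M) = Mᴴ * (Wᴴ * W) * M := by simp only [Matrix.mul_assoc]
  rw [this, hW, Matrix.mul_one]

lemma norm_unitary {W : Matrix N N ℂ} (hW : Wᴴ * W = 1) (x : EuclideanSpace ℂ N) :
    ‖toEuclideanLin W x‖ = ‖x‖ := by
  have h1 : inner ℂ (toEuclideanLin W x) (toEuclideanLin W x) = inner ℂ x x := by
    rw [← LinearMap.adjoint_inner_right, ← toEuclideanLin_conjTranspose_eq_adjoint]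
    congr 1
    ext i
    simp [toEuclideanLin, hW]
  rw [inner_self_eq_norm_sq_to_K, inner_self_eq_norm_sq_to_K] at h1
  have h2 : ‖toEuclideanLin W x‖ ^ 2 = ‖x‖ ^ 2 := by exact_mod_cast h1
  exact (pow_left_inj₀ (norm_nonneg _) (norm_nonneg _) two_ne_zero).1 h2

lemma fsq_half (M1 M2 : Matrix N N ℂ) :
    fsq ((1 / 2 : ℂ) • (M1 + M2)) ≤ (fsq M1 + fsq M2) / 2 := by
  unfold fsq
  rw [← Finset.sum_add_distrib, Finset.sum_div]
  refine Finset.sum_le_sum fun i _ => ?_
  rw [← Finset.sum_add_distrib, Finset.sum_div]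
  refine Finset.sum_le_sum fun j _ => ?_
  rw [Matrix.smul_apply, Matrix.add_apply, norm_smul, mul_pow]
  have h1 := norm_add_le (M1 i j) (M2 i j)
  have h2 : ‖M1 i j + M2 i j‖ ^ 2 ≤ (‖M1 i j‖ + ‖M2 i j‖) ^ 2 :=
    pow_le_pow_left₀ (norm_nonneg _) h1 2
  have h3 : ‖(1 / 2 : ℂ)‖ = 1 / 2 := by simp
  rw [h3]
  nlinarith [sq_nonneg (‖M1 i j‖ - ‖M2 i j‖)]

end unitary

end Q81.BW
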