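import Pool.Agent.Q81.BW3

/-!
# The inequality for ABC - CBA
-/

namespace Q81.BW

open Module InnerProductSpace Matrix

lemma bessel2 {V : Type*} [NormedAddCommGroup V] [InnerProductSpace ℂ V] {e f : V} (he : ‖e‖ = 1)
    (hf : ‖f‖ = 1) (hef : inner ℂ e f = 0) (x : V) :
    ‖inner ℂ x e‖ ^ 2 + ‖inner ℂ x f‖ ^ 2 ≤ ‖x‖ ^ 2 := by
  have hfe : inner ℂ f e = 0 := by rw [← inner_conj_symm, hef, map_zero]
  have ho : Orthonormal ℂ ![e, f] := by
    rw [orthonormal_iff_ite]
    intro i j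
    fin_cases i <;> fin_cases j <;>
      simp [hef, hfe, inner_self_eq_norm_sq_to_K, he, hf]
  have h := ho.sum_inner_products_le (x := x) (s := Finset.univ)
  rw [Fin.sum_univ_two] at h
  simp only [Matrix.cons_val_zero, Matrix.cons_val_one] at h
  rw [← inner_conj_symm, RCLike.norm_conj, ← inner_conj_symm x f, RCLike.norm_conj]
  exact h

variable {m n : Type*} [Fintype m] [Fintype n] [DecidableEq m] [DecidableEq n]

/-- padding by zeros -/
def pad (A : Matrix m n ℂ) : Matrix (n ⊕ m) (n ⊕ m) ℂ := fromBlocks 0 0 A 0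

/-- first component -/
noncomputable def left (e : EuclideanSpace ℂ (n ⊕ m)) : EuclideanSpace ℂ n :=
  WithLp.toLp 2 fun i => e (Sum.inl i)

/-- second component -/
noncomputable def right (e : EuclideanSpace ℂ (n ⊕ m)) : EuclideanSpace ℂ m :=
  WithLp.toLp 2 fun i => e (Sum.inr i)

/-- embedding -/
noncomputable def emb (b : EuclideanSpace ℂ n) : EuclideanSpace ℂ (n ⊕ m) :=
  WithLp.toLp 2 (Sum.elim (fun i => b i) fun _ => 0)

omit [DecidableEq m] [DecidableEq n] in
lemma nsq_split (e : EuclideanSpace ℂ (n ⊕ m)) : ‖e‖ ^ 2 = ‖left e‖ ^ 2 + ‖right e‖ ^ 2 := by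
  rw [EuclideanSpace.norm_sq_eq, EuclideanSpace.norm_sq_eq, EuclideanSpace.norm_sq_eq,
    Fintype.sum_sum_type]
  rfl

omit [DecidableEq m] [DecidableEq n] in
lemma nsq_emb (b : EuclideanSpace ℂ n) : ‖(emb b : EuclideanSpace ℂ (n ⊕ m))‖ ^ 2 = ‖b‖ ^ 2 := by
  rw [EuclideanSpace.norm_sq_eq, EuclideanSpace.norm_sq_eq, Fintype.sum_sum_type]
  simp [emb]

omit [DecidableEq m] [DecidableEq n] in
lemma inner_left (b : EuclideanSpace ℂ n) (e : EuclideanSpace ℂ (n ⊕ m)) :
    inner ℂ b (left e) = inner ℂ (emb b : EuclideanSpace ℂ (n ⊕ m)) e := by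
  simp [PiLp.inner_apply, left, emb, Fintype.sum_sum_type]

lemma nsq_pad (A : Matrix m n ℂ) (e : EuclideanSpace ℂ (n ⊕ m)) :
    ‖toEuclideanLin (pad A) e‖ ^ 2 = ‖toEuclideanLin A (left e)‖ ^ 2 := by
  rw [nsq_split]
  have h1 : left (toEuclideanLin (pad A) e) = 0 := by
    ext i
    simp [left, pad, toEuclideanLin, mulVec, dotProduct, Fintype.sum_sum_type]
  have h2 : right (toEuclideanLin (pad A) e) = toEuclideanLin A (left e) := by
    ext i
    simp [left, right, pad, toEuclideanLin, mulVec, dotProduct, Fintype.sum_sum_type]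
  rw [h1, h2]
  simp

/-- the square of the Ky Fan (2,2)-norm -/
noncomputable def kf (A : Matrix m n ℂ) : ℝ :=
  (toEuclideanLin A).singularValues 0 ^ 2 + (toEuclideanLin A).singularValues 1 ^ 2

lemma left_le (e : EuclideanSpace ℂ (n ⊕ m)) (he : ‖e‖ = 1) : ‖left e‖ ^ 2 ≤ 1 := by
  have := nsq_split e
  rw [he] at this
  nlinarith [sq_nonneg ‖right e‖]

lemma pad_one (A : Matrix m n ℂ) (e : EuclideanSpace ℂ (n ⊕ m)) (he : ‖e‖ = 1) :
    ‖toEuclideanLin (pad A) e‖ ^ 2 ≤ kf A := by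
  rw [nsq_pad]
  have h1 := op_bound (toEuclideanLin A) (left e)
  have h2 := left_le e he
  unfold kf
  nlinarith [sq_nonneg ((toEuclideanLin A).singularValues 0),
    sq_nonneg ((toEuclideanLin A).singularValues 1)]

lemma pad_two (A : Matrix m n ℂ) (e f : EuclideanSpace ℂ (n ⊕ m)) (he : ‖e‖ = 1) (hf : ‖f‖ = 1)
    (hef : inner ℂ e f = 0) :
    ‖toEuclideanLin (pad A) e‖ ^ 2 + ‖toEuclideanLin (pad A) f‖ ^ 2 ≤ kf A := by
  rw [nsq_pad, nsq_pad, nsq_expand, nsq_expand, ← Finset.sum_add_distrib]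
  simp only [← mul_add]
  refine kyfan (toEuclideanLin A) _ (fun i => by positivity) (fun i => ?_) ?_
  · rw [inner_left, inner_left]
    refine (bessel2 he hf hef _).trans ?_
    rw [nsq_emb, (bs (toEuclideanLin A)).orthonormal.1 i]
    norm_num
  · rw [Finset.sum_add_distrib, (bs (toEuclideanLin A)).sum_sq_norm_inner_right,
      (bs (toEuclideanLin A)).sum_sq_norm_inner_right]
    have h1 := left_le e he
    have h2 := left_le f hf
    linarith

omit [DecidableEq m] [DecidableEq n] in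
lemma fsq_pad (A : Matrix m n ℂ) : fsq (pad A) = fsq A := by
  simp [fsq, pad, Fintype.sum_sum_type]

omit [DecidableEq m] [DecidableEq n] in
lemma pad_mul (A C : Matrix m n ℂ) (B : Matrix n m ℂ) :
    pad A * fromBlocks 0 B Bᴴ 0 * pad C = pad (A * B * C) := by
  simp [pad, fromBlocks_multiply]

omit [DecidableEq m] [DecidableEq n] in
lemma pad_sub (A C : Matrix m n ℂ) : pad A - pad C = pad (A - C) := by
  ext i j
  rcases i with i | i <;> rcases j with j | j <;> simp [pad]

/-- for unitary `W` -/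
lemma unitary_bound (A C : Matrix m n ℂ) {W : Matrix (n ⊕ m) (n ⊕ m) ℂ} (hW : Wᴴ * W = 1) :
    fsq (pad A * W * pad C - pad C * W * pad A) ≤ 2 * kf A * fsq C := by
  rw [← fsq_unitary_mul hW]
  have e : W * (pad A * W * pad C - pad C * W * pad A) =
      (W * pad A) * (W * pad C) - (W * pad C) * (W * pad A) := by
    rw [Matrix.mul_sub]
    simp only [Matrix.mul_assoc]
  rw [e]
  have hX : ∀ v : EuclideanSpace ℂ (n ⊕ m), ‖toEuclideanLin (W * pad A) v‖ =
      ‖toEuclideanLin (pad A) v‖ := by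
    intro v
    rw [← norm_unitary hW (toEuclideanLin (pad A) v)]
    congr 1
    ext i
    simp [toEuclideanLin]
  have h := bw (W * pad A) (W * pad C) (K := kf A)
    (fun v hv => by rw [hX]; exact pad_one A v hv)
    (fun v w hv hw hvw => by rw [hX, hX]; exact pad_two A v w hv hw hvw)
  rwa [fsq_unitary_mul hW, fsq_pad] at h

/-- contraction -/
lemma contraction (A C : Matrix m n ℂ) (B : Matrix n m ℂ)
    (hB : ∀ x : EuclideanSpace ℂ m, ‖toEuclideanLin B x‖ ≤ ‖x‖) :
    fsq (A * B * C - C * B * A) ≤ 2 * kf A * fsq C := by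
  -- the adjoint is a contraction
  have hB' : ∀ x : EuclideanSpace ℂ n, ‖toEuclideanLin Bᴴ x‖ ≤ ‖x‖ := by
    intro x
    have h1 : ‖toEuclideanLin Bᴴ x‖ ^ 2 ≤ ‖x‖ * ‖toEuclideanLin Bᴴ x‖ := by
      have h2 : ((‖toEuclideanLin Bᴴ x‖ ^ 2 : ℝ) : ℂ) =
          inner ℂ x (toEuclideanLin B (toEuclideanLin Bᴴ x)) := by
        rw [← LinearMap.adjoint_inner_left, ← toEuclideanLin_conjTranspose_eq_adjoint,
          inner_self_eq_norm_sq_to_K]
        push_cast; rfl
      have h3 : ‖((‖toEuclideanLin Bᴴ x‖ ^ 2 : ℝ) : ℂ)‖ = ‖toEuclideanLin Bᴴ x‖ ^ 2 := by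
        rw [Complex.norm_real, Real.norm_eq_abs, abs_of_nonneg (sq_nonneg _)]
      rw [← h3, h2]
      exact (norm_inner_le_norm _ _).trans (mul_le_mul_of_nonneg_left (hB _) (norm_nonneg _))
    by_contra hcon
    push Not at hcon
    have h4 : 0 < ‖toEuclideanLin Bᴴ x‖ := lt_of_le_of_lt (norm_nonneg _) hcon
    nlinarith
  have hH : (fromBlocks 0 B Bᴴ 0 : Matrix (n ⊕ m) (n ⊕ m) ℂ).IsHermitian := by
    rw [Matrix.IsHermitian, fromBlocks_conjTranspose]
    simp
  have hc : ∀ x : EuclideanSpace ℂ (n ⊕ m), ‖toEuclideanLin (fromBlocks 0 B Bᴴ 0) x‖ ≤ ‖x‖ := by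
    intro x
    have h1 : left (toEuclideanLin (fromBlocks 0 B Bᴴ 0) x) = toEuclideanLin B (right x) := by
      ext i
      simp [left, right, toEuclideanLin, mulVec, dotProduct, Fintype.sum_sum_type]
    have h2 : right (toEuclideanLin (fromBlocks 0 B Bᴴ 0) x) = toEuclideanLin Bᴴ (left x) := by
      ext i
      simp [left, right, toEuclideanLin, mulVec, dotProduct, Fintype.sum_sum_type]
    have h3 : ‖toEuclideanLin (fromBlocks 0 B Bᴴ 0) x‖ ^ 2 ≤ ‖x‖ ^ 2 := by
      rw [nsq_split, nsq_split x, h1, h2]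
      have h4 := pow_le_pow_left₀ (norm_nonneg _) (hB (right x)) 2
      have h5 := pow_le_pow_left₀ (norm_nonneg _) (hB' (left x)) 2
      linarith
    exact (pow_le_pow_iff_left₀ (norm_nonneg _) (norm_nonneg _) two_ne_zero).1 h3
  obtain ⟨W, hW1, hW2, hW⟩ := exists_unitary hH hc
  have h1 := unitary_bound A C hW1
  have h2 := unitary_bound A C (W := Wᴴ) (by rw [conjTranspose_conjTranspose]; exact hW2)
  have h3 : pad (A * B * C - C * B * A) = (1 / 2 : ℂ) •
      ((pad A * W * pad C - pad C * W * pad A) + (pad A * Wᴴ * pad C - pad C * Wᴴ * pad A)) := by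
    rw [← pad_sub, ← pad_mul, ← pad_mul, hW]
    simp only [Matrix.mul_smul, Matrix.smul_mul, Matrix.mul_add, Matrix.add_mul, ← smul_sub]
    congr 1
    abel
  rw [← fsq_pad, h3]
  refine (fsq_half _ _).trans ?_
  linarith

lemma fsq_smul (c : ℂ) (M : Matrix m n ℂ) : fsq (c • M) = ‖c‖ ^ 2 * fsq M := by
  simp [fsq, Finset.mul_sum, mul_pow]

/-- **Main theorem.** -/
theorem main (A C : Matrix m n ℂ) (B : Matrix n m ℂ) :
    fsq (A * B * C - C * B * A) ≤
      2 * (toEuclideanLin B).singularValues 0 ^ 2 * kf A * fsq C := by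
  set β := (toEuclideanLin B).singularValues 0 with hβ
  have hβ0 : 0 ≤ β := (toEuclideanLin B).singularValues_nonneg 0
  have hop : ∀ x : EuclideanSpace ℂ m, ‖toEuclideanLin B x‖ ≤ β * ‖x‖ := by
    intro x
    have := op_bound (toEuclideanLin B) x
    rw [← mul_pow] at this
    exact (pow_le_pow_iff_left₀ (norm_nonneg _) (by positivity) two_ne_zero).1 this
  rcases hβ0.eq_or_lt with h0 | h0
  · have hB : B = 0 := by
      have h1 : toEuclideanLin B = 0 := by
        ext1 x
        have := hop x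
        rw [← h0, zero_mul] at this
        simpa using this
      exact (LinearEquiv.map_eq_zero_iff _).1 h1
    rw [hB, ← h0]
    simp [fsq]
  · have h1 := contraction A C ((β⁻¹ : ℂ) • B) (fun x => by
      rw [map_smul, LinearMap.smul_apply, norm_smul, norm_inv, Complex.norm_real,
        Real.norm_eq_abs, abs_of_pos h0]
      rw [inv_mul_le_iff₀ h0]
      exact hop x)
    have hβc : (β : ℂ) ≠ 0 := by exact_mod_cast h0.ne'
    have h2 : A * B * C - C * B * A =
        (β : ℂ) • (A * ((β⁻¹ : ℂ) • B) * C - C * ((β⁻¹ : ℂ) • B) * A) := by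
      simp only [Matrix.mul_smul, Matrix.smul_mul, ← smul_sub, smul_smul, mul_inv_cancel₀ hβc,
        one_smul]
    rw [h2, fsq_smul, Complex.norm_real, Real.norm_eq_abs, sq_abs]
    have := mul_le_mul_of_nonneg_left h1 (sq_nonneg β)
    linarith

end Q81.BW
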