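import Mathlib

/-!
# Riccati barriers for a hypergeometric-type integral
-/

namespace Q81.Bern

open MeasureTheory Set Filter Topology intervalIntegral

/-- `sin² (φ/2)` -/
noncomputable def sg (φ : ℝ) : ℝ := Real.sin (φ / 2) ^ 2

lemma sg_nonneg (φ : ℝ) : 0 ≤ sg φ := sq_nonneg _

lemma sg_le_one (φ : ℝ) : sg φ ≤ 1 := Real.sin_sq_le_one _

lemma continuous_sg : Continuous sg := by unfold sg; fun_prop

lemma sg_eq (φ : ℝ) : sg φ = (1 - Real.cos φ) / 2 := by
  unfold sg
  have h := Real.cos_two_mul (φ / 2)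
  rw [show 2 * (φ / 2) = φ by ring] at h
  have h2 := Real.sin_sq_add_cos_sq (φ / 2)
  linarith

lemma hasDerivAt_sg (φ : ℝ) : HasDerivAt sg (Real.sin φ / 2) φ := by
  have h : HasDerivAt (fun φ => (1 - Real.cos φ) / 2) (Real.sin φ / 2) φ := by
    have := ((Real.hasDerivAt_cos φ).const_sub 1).div_const 2
    simpa using this
  exact h.congr_of_eventuallyEq (Eventually.of_forall sg_eq)

lemma continuous_comp_sg {k : ℝ → ℝ} (hk : ContinuousOn k (Ici 0)) {X : ℝ} (hX : 0 ≤ X) :
    Continuous fun φ => k (X * sg φ) :=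
  hk.comp_continuous (continuous_const.mul continuous_sg) fun φ => mul_nonneg hX (sg_nonneg φ)

/-- the parametric integrals -/
noncomputable def In (g k : ℝ → ℝ) (X : ℝ) : ℝ := ∫ φ in (0 : ℝ)..Real.pi, g φ * k (X * sg φ)

lemma continuousOn_In {g k : ℝ → ℝ} (hg : Continuous g) (hk : ContinuousOn k (Ici 0)) :
    ContinuousOn (In g k) (Ici 0) := by
  have h1 : Continuous fun X : ℝ => ∫ φ in (0 : ℝ)..Real.pi, g φ * k (max X 0 * sg φ) := by
    refine intervalIntegral.continuous_parametric_intervalIntegral_of_continuous' ?_ _ _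
    refine (hg.comp continuous_snd).mul ?_
    refine hk.comp_continuous ?_ ?_
    · exact ((continuous_fst.max continuous_const)).mul (continuous_sg.comp continuous_snd)
    · rintro ⟨X, φ⟩
      exact mul_nonneg (le_max_right _ _) (sg_nonneg φ)
  refine h1.continuousOn.congr fun X hX => ?_
  simp only [In]
  rw [max_eq_left hX]

lemma hasDerivAt_In {g k k' : ℝ → ℝ} (hg : Continuous g)
    (hk : ∀ t, 0 ≤ t → HasDerivAt k (k' t) t) (hk' : ContinuousOn k' (Ici 0)) {X : ℝ}
    (hX : 0 < X) : HasDerivAt (In g k) (In (fun φ => g φ * sg φ) k' X) X := by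
  have hkc : ContinuousOn k (Ici 0) := fun t ht => (hk t ht).continuousAt.continuousWithinAt
  obtain ⟨M, hM⟩ := (isCompact_Icc (a := (0 : ℝ)) (b := 2 * X)).exists_bound_of_continuousOn
    (hk'.mono fun t ht => ht.1)
  have hM0 : 0 ≤ M := (norm_nonneg _).trans (hM 0 ⟨le_rfl, by linarith⟩)
  have h := intervalIntegral.hasDerivAt_integral_of_dominated_loc_of_deriv_le
    (μ := volume) (a := 0) (b := Real.pi) (F := fun X φ => g φ * k (X * sg φ))
    (F' := fun X φ => g φ * sg φ * k' (X * sg φ)) (x₀ := X) (s := Ioo 0 (2 * X))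
    (bound := fun φ => |g φ| * M) (Ioo_mem_nhds hX (by linarith)) ?_ ?_ ?_ ?_ ?_ ?_
  · exact h.2
  · filter_upwards [Ioo_mem_nhds hX (by linarith : X < 2 * X)] with Y hY
    exact (hg.mul (continuous_comp_sg hkc hY.1.le)).aestronglyMeasurable
  · exact (hg.mul (continuous_comp_sg hkc hX.le)).intervalIntegrable _ _
  · exact ((hg.mul continuous_sg).mul (continuous_comp_sg hk' hX.le)).aestronglyMeasurable
  · refine Eventually.of_forall fun φ _ Y hY => ?_
    rw [Real.norm_eq_abs, abs_mul, abs_mul]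
    have h1 : |k' (Y * sg φ)| ≤ M := hM _ ⟨mul_nonneg hY.1.le (sg_nonneg φ), by
      nlinarith [sg_nonneg φ, sg_le_one φ, hY.1, hY.2]⟩
    have h2 : |sg φ| ≤ 1 := by rw [abs_of_nonneg (sg_nonneg φ)]; exact sg_le_one φ
    have h3 := abs_nonneg (g φ)
    calc |g φ| * |sg φ| * |k' (Y * sg φ)| ≤ |g φ| * 1 * M := by gcongr
      _ = |g φ| * M := by ring
  · exact (hg.abs.mul continuous_const).intervalIntegrable _ _
  · refine Eventually.of_forall fun φ _ Y hY => ?_
    have h1 : HasDerivAt (fun Y => Y * sg φ) (sg φ) Y := by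
      simpa using (hasDerivAt_id Y).mul_const (sg φ)
    have h2 := (hk (Y * sg φ) (mul_nonneg hY.1.le (sg_nonneg φ))).comp Y h1
    have h3 := h2.const_mul (g φ)
    refine h3.congr_deriv ?_
    ring

/-- The barrier lemma. -/
lemma barrier {D D' : ℝ → ℝ} {b M : ℝ} (hc : ContinuousOn D (Icc 0 b)) (h0 : 0 ≤ D 0)
    (hd : ∀ x ∈ Ioo 0 b, HasDerivAt D (D' x) x) (hM : ∀ x ∈ Ioo 0 b, D x < 0 → M * D x ≤ D' x) :
    ∀ x ∈ Icc 0 b, 0 ≤ D x := by
  intro x1 hx1
  by_contra hneg
  push Not at hneg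
  set E : ℝ → ℝ := fun x => Real.exp (-M * x) * D x with hE
  have hEc : ContinuousOn E (Icc 0 b) := (by fun_prop : ContinuousOn _ _).mul hc
  set Z : Set ℝ := {x | x ∈ Icc 0 x1 ∧ 0 ≤ D x} with hZ
  have hZ' : Z = Icc 0 x1 ∩ D ⁻¹' Ici 0 := rfl
  have hZc : IsCompact Z := by
    rw [hZ']
    have := (hc.mono (Icc_subset_Icc_right hx1.2)).preimage_isClosed_of_isClosed isClosed_Icc
      isClosed_Ici (t := Ici (0 : ℝ))
    exact isCompact_Icc.of_isClosed_subset this inter_subset_left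
  have hZne : Z.Nonempty := ⟨0, ⟨le_rfl, hx1.1⟩, h0⟩
  set x0 := sSup Z with hx0
  have hx0Z : x0 ∈ Z := hZc.sSup_mem hZne
  have hlt : x0 < x1 := lt_of_le_of_ne hx0Z.1.2 fun h => by
    have := hx0Z.2; rw [h] at this; linarith
  have hneg' : ∀ x, x0 < x → x ≤ x1 → D x < 0 := by
    intro x hx hx2
    by_contra hcon
    push Not at hcon
    have := le_csSup hZc.bddAbove (show x ∈ Z from ⟨⟨hx0Z.1.1.trans hx.le, hx2⟩, hcon⟩)
    linarith
  have hmono : MonotoneOn E (Icc x0 x1) := by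
    refine monotoneOn_of_deriv_nonneg (convex_Icc _ _)
      (hEc.mono (Icc_subset_Icc hx0Z.1.1 hx1.2)) ?_ ?_
    · rw [interior_Icc]
      intro x hx
      have hx' : x ∈ Ioo 0 b := ⟨lt_of_le_of_lt hx0Z.1.1 hx.1, lt_of_lt_of_le hx.2 hx1.2⟩
      have h1 : HasDerivAt (fun x => Real.exp (-M * x)) (Real.exp (-M * x) * (-M)) x := by
        have := ((hasDerivAt_id x).const_mul (-M)).exp
        simpa using this
      exact (h1.mul (hd x hx')).differentiableAt.differentiableWithinAt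
    · rw [interior_Icc]
      intro x hx
      have hx' : x ∈ Ioo 0 b := ⟨lt_of_le_of_lt hx0Z.1.1 hx.1, lt_of_lt_of_le hx.2 hx1.2⟩
      have h1 : HasDerivAt (fun x => Real.exp (-M * x)) (Real.exp (-M * x) * (-M)) x := by
        have := ((hasDerivAt_id x).const_mul (-M)).exp
        simpa using this
      show 0 ≤ deriv ((fun x => Real.exp (-M * x)) * D) x
      rw [(h1.mul (hd x hx')).deriv]
      have h2 := hM x hx' (hneg' x hx.1 hx.2.le)
      have h3 := Real.exp_pos (-M * x)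
      nlinarith
  have h4 := hmono ⟨le_rfl, hlt.le⟩ ⟨hlt.le, le_rfl⟩ hlt.le
  have h5 : 0 ≤ E x0 := mul_nonneg (Real.exp_pos _).le hx0Z.2
  have h6 : E x1 < 0 := mul_neg_of_pos_of_neg (Real.exp_pos _) hneg
  linarith

/-- The hypergeometric equation. -/
lemma ode {k0 k1 k2 : ℝ → ℝ} {n c : ℝ} (h1 : ∀ t, 0 ≤ t → HasDerivAt k1 (k2 t) t)
    (h2 : ContinuousOn k2 (Ici 0)) (h0c : ContinuousOn k0 (Ici 0))
    (e0 : ∀ t, 0 ≤ t → (1 + 4 * c * t) * k1 t = -(4 * n) * k0 t)
    (e1 : ∀ t, 0 ≤ t → (1 + 4 * c * t) * k2 t = -(4 * (n + c)) * k1 t) {X : ℝ} (hX : 0 ≤ X) :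
    X * (1 + 4 * c * X) * In (fun φ => sg φ * sg φ) k2 X + (1 + (4 * n + 6 * c) * X) * In sg k1 X +
      2 * n * In (fun _ => 1) k0 X = 0 := by
  have h1c : ContinuousOn k1 (Ici 0) := fun t ht => (h1 t ht).continuousAt.continuousWithinAt
  have hder : ∀ φ ∈ uIcc 0 Real.pi, HasDerivAt (fun φ => Real.sin φ * k1 (X * sg φ))
      (Real.cos φ * k1 (X * sg φ) + Real.sin φ * (k2 (X * sg φ) * (X * (Real.sin φ / 2)))) φ := by
    intro φ _
    have h3 := (h1 (X * sg φ) (mul_nonneg hX (sg_nonneg φ))).comp φ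
      ((hasDerivAt_sg φ).const_mul X)
    exact (Real.hasDerivAt_sin φ).mul h3
  have hk0 := continuous_comp_sg h0c hX
  have hk1 := continuous_comp_sg h1c hX
  have hk2 := continuous_comp_sg h2 hX
  have hcs := continuous_sg
  have hcont : Continuous fun φ => Real.cos φ * k1 (X * sg φ) +
      Real.sin φ * (k2 (X * sg φ) * (X * (Real.sin φ / 2))) :=
    (Real.continuous_cos.mul hk1).add (Real.continuous_sin.mul (hk2.mul
      (continuous_const.mul (Real.continuous_sin.div_const 2))))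
  have hint := intervalIntegral.integral_eq_sub_of_hasDerivAt hder
    (hcont.intervalIntegrable _ _)
  simp only [Real.sin_pi, Real.sin_zero, zero_mul, sub_zero] at hint
  have hpt : ∀ φ, X * (1 + 4 * c * X) * (sg φ * sg φ * k2 (X * sg φ)) +
      (1 + (4 * n + 6 * c) * X) * (sg φ * k1 (X * sg φ)) + 2 * n * (1 * k0 (X * sg φ)) =
      -(1 / 2) * (Real.cos φ * k1 (X * sg φ) +
        Real.sin φ * (k2 (X * sg φ) * (X * (Real.sin φ / 2)))) := by
    intro φ
    have hc : Real.cos φ = 1 - 2 * sg φ := by rw [sg_eq]; ring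
    have hs : Real.sin φ ^ 2 = 4 * sg φ * (1 - sg φ) := by
      rw [Real.sin_sq, hc]; ring
    have a0 := e0 (X * sg φ) (mul_nonneg hX (sg_nonneg φ))
    have a1 := e1 (X * sg φ) (mul_nonneg hX (sg_nonneg φ))
    have hs' : Real.sin φ * (k2 (X * sg φ) * (X * (Real.sin φ / 2))) =
        4 * sg φ * (1 - sg φ) * (k2 (X * sg φ) * X / 2) := by
      rw [← hs]; ring
    rw [hs', hc]
    linear_combination X * sg φ * a1 + (1 / 2) * a0
  have h3 : X * (1 + 4 * c * X) * In (fun φ => sg φ * sg φ) k2 X +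
      (1 + (4 * n + 6 * c) * X) * In sg k1 X + 2 * n * In (fun _ => 1) k0 X =
      ∫ φ in (0 : ℝ)..Real.pi, -(1 / 2) * (Real.cos φ * k1 (X * sg φ) +
        Real.sin φ * (k2 (X * sg φ) * (X * (Real.sin φ / 2)))) := by
    simp only [In]
    rw [← intervalIntegral.integral_const_mul, ← intervalIntegral.integral_const_mul,
      ← intervalIntegral.integral_const_mul, ← intervalIntegral.integral_add,
      ← intervalIntegral.integral_add]
    · exact intervalIntegral.integral_congr fun φ _ => hpt φ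
    · exact (((continuous_const.mul ((hcs.mul hcs).mul hk2)).add
        (continuous_const.mul (hcs.mul hk1))).intervalIntegrable _ _)
    · exact ((continuous_const.mul (continuous_const.mul hk0)).intervalIntegrable _ _)
    · exact ((continuous_const.mul ((hcs.mul hcs).mul hk2)).intervalIntegrable _ _)
    · exact ((continuous_const.mul (hcs.mul hk1)).intervalIntegrable _ _)
  rw [h3, intervalIntegral.integral_const_mul, hint, mul_zero]

end Q81.Bern
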