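import Pool.Agent.Q81.Bern1

/-!
# The two barriers
-/

namespace Q81.Bern

open MeasureTheory Set Filter Topology intervalIntegral

/-- the kernels `(1 + 4ct)^{-n/c}` and its derivatives -/
structure Ker (n c : ℝ) (k0 k1 k2 : ℝ → ℝ) : Prop where
  hn : 0 < n
  hnc : 0 ≤ n + c
  d0 : ∀ t, 0 ≤ t → HasDerivAt k0 (k1 t) t
  d1 : ∀ t, 0 ≤ t → HasDerivAt k1 (k2 t) t
  c2 : ContinuousOn k2 (Ici 0)
  e0 : ∀ t, 0 ≤ t → (1 + 4 * c * t) * k1 t = -(4 * n) * k0 t
  e1 : ∀ t, 0 ≤ t → (1 + 4 * c * t) * k2 t = -(4 * (n + c)) * k1 t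
  pos : ∀ t, 0 ≤ t → 0 < 1 + 4 * c * t → 0 < k0 t
  neg : ∀ t, 0 ≤ t → 0 ≤ 1 + 4 * c * t → k1 t ≤ 0

variable {n c : ℝ} {k0 k1 k2 : ℝ → ℝ}

namespace Ker

lemma c0 (K : Ker n c k0 k1 k2) : ContinuousOn k0 (Ici 0) :=
  fun t ht => (K.d0 t ht).continuousAt.continuousWithinAt

lemma c1 (K : Ker n c k0 k1 k2) : ContinuousOn k1 (Ici 0) :=
  fun t ht => (K.d1 t ht).continuousAt.continuousWithinAt

lemma lin {b X : ℝ} (hX : 0 ≤ X) (hXb : X ≤ b) (hb : 0 < 1 + 4 * c * b) : 0 < 1 + 4 * c * X := by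
  rcases le_total 0 c with h | h
  · positivity
  · nlinarith

lemma s_pos (K : Ker n c k0 k1 k2) {X : ℝ} (hX : 0 ≤ X) (hu : 0 ≤ 1 + 4 * c * X) :
    0 < In (fun _ => 1) k0 X := by
  refine intervalIntegral.intervalIntegral_pos_of_pos_on ?_ (fun φ hφ => ?_) Real.pi_pos
  · exact ((continuous_const.mul (continuous_comp_sg K.c0 hX))).intervalIntegrable _ _
  · rw [one_mul]
    refine K.pos _ (mul_nonneg hX (sg_nonneg φ)) ?_
    have h1 : sg φ < 1 := by
      rw [sg_eq]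
      have : -1 < Real.cos φ := by
        rw [← Real.cos_pi]
        exact Real.cos_lt_cos_of_nonneg_of_le_pi hφ.1.le le_rfl hφ.2
      linarith
    have h0 := sg_nonneg φ
    rcases le_total 0 c with h | h
    · have : 0 ≤ 4 * c * (X * sg φ) := by positivity
      linarith
    · rcases hX.eq_or_lt with hX' | hX'
      · rw [← hX']; simp
      · rcases h.eq_or_lt with hc | hc
        · rw [hc]; simp
        · have h3 : 4 * c * X * 1 < 4 * c * X * sg φ :=
            mul_lt_mul_of_neg_left h1 (by nlinarith)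
          nlinarith

lemma s1_nonpos (K : Ker n c k0 k1 k2) {X : ℝ} (hX : 0 ≤ X) (hu : 0 ≤ 1 + 4 * c * X) :
    In sg k1 X ≤ 0 := by
  have h : 0 ≤ ∫ φ in (0 : ℝ)..Real.pi, -(sg φ * k1 (X * sg φ)) := by
    refine intervalIntegral.integral_nonneg Real.pi_pos.le fun φ _ => ?_
    have h0 := sg_nonneg φ
    have h1 := sg_le_one φ
    have h2 : k1 (X * sg φ) ≤ 0 := by
      refine K.neg _ (mul_nonneg hX h0) ?_
      rcases le_total 0 c with h | h
      · have : 0 ≤ 4 * c * (X * sg φ) := by positivity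
        linarith
      · have h3 : 4 * c * X * 1 ≤ 4 * c * X * sg φ :=
          mul_le_mul_of_nonpos_left h1 (by nlinarith)
        nlinarith
    nlinarith
  rw [intervalIntegral.integral_neg] at h
  unfold In
  linarith

/-- `y = s'/s` -/
noncomputable def y (k0 k1 : ℝ → ℝ) (X : ℝ) : ℝ := In sg k1 X / In (fun _ => 1) k0 X

lemma hasDerivAt_s (K : Ker n c k0 k1 k2) {X : ℝ} (hX : 0 < X) :
    HasDerivAt (In (fun _ => 1) k0) (In sg k1 X) X := by
  have := hasDerivAt_In (g := fun _ => (1 : ℝ)) continuous_const K.d0 K.c1 hX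
  simpa using this

lemma hasDerivAt_s1 (K : Ker n c k0 k1 k2) {X : ℝ} (hX : 0 < X) :
    HasDerivAt (In sg k1) (In (fun φ => sg φ * sg φ) k2 X) X :=
  hasDerivAt_In (g := sg) continuous_sg K.d1 K.c2 hX

lemma hasDerivAt_y (K : Ker n c k0 k1 k2) {X : ℝ} (hX : 0 < X) (hu : 0 ≤ 1 + 4 * c * X) :
    HasDerivAt (y k0 k1) (In (fun φ => sg φ * sg φ) k2 X / In (fun _ => 1) k0 X -
      y k0 k1 X ^ 2) X := by
  have hs := (K.s_pos hX.le hu).ne'
  refine ((K.hasDerivAt_s1 hX).div (K.hasDerivAt_s hX) hs).congr_deriv ?_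
  unfold y
  field_simp

lemma ode' (K : Ker n c k0 k1 k2) {X : ℝ} (hX : 0 < X) (hu : 0 ≤ 1 + 4 * c * X) :
    X * (1 + 4 * c * X) * (In (fun φ => sg φ * sg φ) k2 X / In (fun _ => 1) k0 X) =
      -((1 + (4 * n + 6 * c) * X) * y k0 k1 X + 2 * n) := by
  have hs := (K.s_pos hX.le hu).ne'
  have h := ode K.d1 K.c2 K.c0 K.e0 K.e1 hX.le
  unfold y
  generalize In (fun φ => sg φ * sg φ) k2 X = A at h ⊢
  generalize In (fun _ => 1) k0 X = B at h hs ⊢
  generalize In sg k1 X = C at h ⊢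
  field_simp
  linarith

lemma y_zero (K : Ker n c k0 k1 k2) : y k0 k1 0 = -(2 * n) := by
  have hk : k1 0 = -(4 * n) * k0 0 := by
    have := K.e0 0 le_rfl
    simpa using this
  have hk0 : 0 < k0 0 := K.pos 0 le_rfl (by simp)
  have h1 : In sg k1 0 = Real.pi / 2 * k1 0 := by
    unfold In
    simp only [zero_mul]
    rw [intervalIntegral.integral_mul_const]
    congr 1
    simp only [sg_eq]
    rw [intervalIntegral.integral_div, intervalIntegral.integral_sub, integral_cos]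
    · simp
    · exact continuous_const.intervalIntegrable _ _
    · exact Real.continuous_cos.intervalIntegrable _ _
  have h2 : In (fun _ => 1) k0 0 = Real.pi * k0 0 := by
    unfold In
    simp
  unfold y
  rw [h1, h2, hk]
  have := Real.pi_pos
  field_simp
  ring

lemma continuousOn_y (K : Ker n c k0 k1 k2) {b : ℝ} (hb : 0 < 1 + 4 * c * b) :
    ContinuousOn (y k0 k1) (Icc 0 b) := by
  refine ContinuousOn.div ?_ ?_ fun X hX => ?_
  · exact (continuousOn_In continuous_sg K.c1).mono fun X hX => hX.1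
  · exact (continuousOn_In continuous_const K.c0).mono fun X hX => hX.1
  · exact (K.s_pos hX.1 (lin hX.1 hX.2 hb).le).ne'

/-- Lower barrier. -/
lemma lower (K : Ker n c k0 k1 k2) {b : ℝ} (hb0 : 0 ≤ b) (hb : 0 < 1 + 4 * c * b) :
    -(2 * n) / (1 + 2 * c * b) ≤ y k0 k1 b := by
  have hn := K.hn
  have hnc := K.hnc
  have hw : ∀ X ∈ Icc 0 b, 0 < 1 + 2 * c * X := fun X hX => by
    have := lin hX.1 hX.2 hb
    linarith
  have hyc := K.continuousOn_y hb
  have hvc : ContinuousOn (fun X => -(2 * n) / (1 + 2 * c * X)) (Icc 0 b) := by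
    refine ContinuousOn.div (by fun_prop) (by fun_prop) fun X hX => (hw X hX).ne'
  obtain ⟨M, hM⟩ := (isCompact_Icc (a := (0 : ℝ)) (b := b)).exists_bound_of_continuousOn
    (hyc.add hvc)
  have key := barrier (D := fun X => y k0 k1 X - -(2 * n) / (1 + 2 * c * X))
    (D' := fun X => In (fun φ => sg φ * sg φ) k2 X / In (fun _ => 1) k0 X - y k0 k1 X ^ 2 -
      4 * n * c / (1 + 2 * c * X) ^ 2) (b := b) (M := M) (hyc.sub hvc) ?_ ?_ ?_ b ⟨hb0, le_rfl⟩
  · linarith
  · simp [K.y_zero]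
  · intro X hX
    have hu := lin hX.1.le hX.2.le hb
    have hw' := hw X ⟨hX.1.le, hX.2.le⟩
    have h1 : HasDerivAt (fun X => 1 + 2 * c * X) (2 * c) X := by
      simpa using ((hasDerivAt_id X).const_mul (2 * c)).const_add 1
    have h2 : HasDerivAt (fun X => -(2 * n) / (1 + 2 * c * X)) (4 * n * c / (1 + 2 * c * X) ^ 2)
        X := by
      refine ((hasDerivAt_const X (-(2 * n))).div h1 hw'.ne').congr_deriv ?_
      ring
    exact (K.hasDerivAt_y hX.1 hu.le).sub h2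
  · intro X hX hneg
    have hu := lin hX.1.le hX.2.le hb
    have hw' := hw X ⟨hX.1.le, hX.2.le⟩
    have hX0 := hX.1
    have hode := K.ode' hX0 hu.le
    have hMX := hM X ⟨hX.1.le, hX.2.le⟩
    rw [Real.norm_eq_abs, abs_le] at hMX
    simp only [Pi.add_apply] at hMX
    set Y := y k0 k1 X with hY
    set T := In (fun φ => sg φ * sg φ) k2 X / In (fun _ => 1) k0 X with hT
    set v := -(2 * n) / (1 + 2 * c * X) with hv
    have hvw : v * (1 + 2 * c * X) = -(2 * n) := div_mul_cancel₀ _ hw'.ne'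
    have hv2 : 4 * n * c / (1 + 2 * c * X) ^ 2 = c * v ^ 2 / n := by
      rw [hv]; field_simp; ring
    -- multiply everything by `X u`
    have hXu : 0 < X * (1 + 4 * c * X) := mul_pos hX0 hu
    have hkap : 0 ≤ 1 + (4 * n + 6 * c) * X := by
      rcases le_total 0 c with h | h
      · positivity
      · nlinarith
    have e1 : X * (1 + 4 * c * X) * (T - Y ^ 2 - 4 * n * c / (1 + 2 * c * X) ^ 2) =
        -(Y - v) * (X * (1 + 4 * c * X) * (Y + v) + (1 + (4 * n + 6 * c) * X)) +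
          4 * n * (n + c) * X / (1 + 2 * c * X) ^ 2 := by
      obtain ⟨i, hi⟩ : ∃ i, i = (1 + 2 * c * X)⁻¹ := ⟨_, rfl⟩
      have hiw : i * (1 + 2 * c * X) = 1 := by rw [hi]; exact inv_mul_cancel₀ hw'.ne'
      have hvi : v = -(2 * n) * i := by rw [hv, hi]; rfl
      rw [div_eq_mul_inv, div_eq_mul_inv, ← inv_pow, ← hi, hvi]
      linear_combination hode + (2 * n - 8 * n * (n + c) * X * i) * hiw
    have h4 : 0 ≤ 4 * n * (n + c) * X / (1 + 2 * c * X) ^ 2 := by positivity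
    have h5 : M * (Y - v) * (X * (1 + 4 * c * X)) ≤
        -(Y - v) * (X * (1 + 4 * c * X) * (Y + v) + (1 + (4 * n + 6 * c) * X)) := by
      have h6 : 0 ≤ -(Y - v) := by linarith
      have h7 : -(X * (1 + 4 * c * X)) * M ≤ X * (1 + 4 * c * X) * (Y + v) := by nlinarith [hMX.1]
      nlinarith
    have h6 : M * (Y - v) * (X * (1 + 4 * c * X)) ≤
      (T - Y ^ 2 - 4 * n * c / (1 + 2 * c * X) ^ 2) * (X * (1 + 4 * c * X)) := by
      rw [mul_comm (T - Y ^ 2 - 4 * n * c / (1 + 2 * c * X) ^ 2), e1]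
      linarith
    exact le_of_mul_le_mul_right h6 hXu

end Ker

end Q81.Bern
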