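import Pool.Agent.Q81.Bern2

/-!
# Upper barrier and conclusion
-/

namespace Q81.Bern

open MeasureTheory Set Filter Topology intervalIntegral

variable {n c : ℝ} {k0 k1 k2 : ℝ → ℝ}

/-- the discriminant -/
def QQ (n c X : ℝ) : ℝ := (1 + 4 * c * X) ^ 2 + 16 * n ^ 2 * X ^ 2

/-- the root `y₂` -/
noncomputable def y2 (n c X : ℝ) : ℝ := -(4 * n) / (Real.sqrt (QQ n c X) + (1 + 4 * (n + c) * X))

lemma Q_pos {X : ℝ} (hu : 0 < 1 + 4 * c * X) : 0 < QQ n c X := by
  unfold QQ; positivity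

lemma bracket (hn : 0 < n) (hnc : 0 ≤ n + c) {X : ℝ} (hX : 0 ≤ X) (hu : 0 < 1 + 4 * c * X) {r : ℝ}
    (hr : 0 < r) (hr2 : r ^ 2 = QQ n c X) :
    0 ≤ (1 + 4 * c * X) * ((8 * c * (1 + 4 * c * X) + 32 * n ^ 2 * X) / (2 * r) + 4 * (n + c)) -
      2 * c * (r + (1 + 4 * (n + c) * X)) := by
  have hru : 1 + 4 * c * X ≤ r := by
    apply le_of_sq_le_sq _ hr.le
    rw [hr2, QQ]; nlinarith [sq_nonneg (n * X)]
  have h1 : 0 ≤ 2 * c * (1 + 4 * c * X) ^ 2 + 16 * n ^ 2 * X * (1 + 2 * c * X) +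
      r * (4 * n + 2 * c + 8 * c * (n + c) * X) := by
    have hw : 0 < 1 + 2 * c * X := by linarith
    have h2 : 0 ≤ 16 * n ^ 2 * X * (1 + 2 * c * X) := by positivity
    rcases le_total 0 c with h | h
    · positivity
    · have h3 : 2 * n ≤ 4 * n + 2 * c + 8 * c * (n + c) * X := by nlinarith
      have h4 : (1 + 4 * c * X) ^ 2 ≤ r := by
        have h7 : 1 + 4 * c * X ≤ 1 := by nlinarith
        have : (1 + 4 * c * X) ^ 2 ≤ 1 + 4 * c * X := by nlinarith
        linarith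
      have h5 : r * (2 * n) ≤ r * (4 * n + 2 * c + 8 * c * (n + c) * X) :=
        mul_le_mul_of_nonneg_left h3 hr.le
      nlinarith
  have h6 : (1 + 4 * c * X) * ((8 * c * (1 + 4 * c * X) + 32 * n ^ 2 * X) / (2 * r) +
      4 * (n + c)) - 2 * c * (r + (1 + 4 * (n + c) * X)) =
      (2 * c * (1 + 4 * c * X) ^ 2 + 16 * n ^ 2 * X * (1 + 2 * c * X) +
      r * (4 * n + 2 * c + 8 * c * (n + c) * X)) / r := by
    have hr' : r ≠ 0 := hr.ne'
    field_simp
    unfold QQ at hr2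
    linear_combination (-4 * c) * hr2
  rw [h6]
  positivity

lemma hasDerivAt_y2 (hn : 0 < n) (hnc : 0 ≤ n + c) {X : ℝ} (hX : 0 ≤ X) (hu : 0 < 1 + 4 * c * X) :
    HasDerivAt (y2 n c) (4 * n * ((8 * c * (1 + 4 * c * X) + 32 * n ^ 2 * X) /
      (2 * Real.sqrt (QQ n c X)) + 4 * (n + c)) /
        (Real.sqrt (QQ n c X) + (1 + 4 * (n + c) * X)) ^ 2) X := by
  have hQ := Q_pos (n := n) hu
  have hr := Real.sqrt_pos.2 hQ
  have h1 : HasDerivAt (QQ n c) (8 * c * (1 + 4 * c * X) + 32 * n ^ 2 * X) X := by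
    have a1 : HasDerivAt (fun X => 1 + 4 * c * X) (4 * c) X := by
      simpa using ((hasDerivAt_id X).const_mul (4 * c)).const_add 1
    have a2 := (a1.pow 2).add (((hasDerivAt_id X).pow 2).const_mul (16 * n ^ 2))
    refine a2.congr_deriv ?_
    simp
    ring
  have h2 := h1.sqrt hQ.ne'
  have h3 : HasDerivAt (fun X => 1 + 4 * (n + c) * X) (4 * (n + c)) X := by
    simpa using ((hasDerivAt_id X).const_mul (4 * (n + c))).const_add 1
  have hpos : 0 < Real.sqrt (QQ n c X) + (1 + 4 * (n + c) * X) := by positivity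
  refine ((hasDerivAt_const X (-(4 * n))).div (h2.add h3) hpos.ne').congr_deriv ?_
  simp only [Pi.add_apply]
  ring

namespace Ker

lemma upper (K : Ker n c k0 k1 k2) {b : ℝ} (hb0 : 0 ≤ b) (hb : 0 < 1 + 4 * c * b) :
    y k0 k1 b ≤ y2 n c b := by
  have hn := K.hn
  have hnc := K.hnc
  have hyc := K.continuousOn_y hb
  have hy2c : ContinuousOn (y2 n c) (Icc 0 b) := fun X hX =>
    (hasDerivAt_y2 hn hnc hX.1 (lin hX.1 hX.2 hb)).continuousAt.continuousWithinAt
  have key := barrier (D := fun X => y2 n c X - y k0 k1 X)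
    (D' := fun X => 4 * n * ((8 * c * (1 + 4 * c * X) + 32 * n ^ 2 * X) /
      (2 * Real.sqrt (QQ n c X)) + 4 * (n + c)) /
        (Real.sqrt (QQ n c X) + (1 + 4 * (n + c) * X)) ^ 2 -
        (In (fun φ => sg φ * sg φ) k2 X / In (fun _ => 1) k0 X - y k0 k1 X ^ 2))
    (b := b) (M := 2 * |c| / (1 + 4 * c * b)) (hy2c.sub hyc) ?_ ?_ ?_ b ⟨hb0, le_rfl⟩
  · linarith
  · rw [K.y_zero, y2, QQ]
    norm_num
    linarith
  · intro X hX
    have hu := lin hX.1.le hX.2.le hb
    exact (hasDerivAt_y2 hn hnc hX.1.le hu).sub (K.hasDerivAt_y hX.1 hu.le)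
  · intro X hX hneg
    have hu := lin hX.1.le hX.2.le hb
    have hX0 := hX.1
    have hode := K.ode' hX0 hu.le
    have hQ := Q_pos (n := n) hu
    have hr := Real.sqrt_pos.2 hQ
    have hr2 := Real.sq_sqrt hQ.le
    have hbr := bracket hn hnc hX0.le hu hr hr2
    simp only [y2] at hneg ⊢
    set r := Real.sqrt (QQ n c X) with hrdef
    set Y := y k0 k1 X with hY
    set T := In (fun φ => sg φ * sg φ) k2 X / In (fun _ => 1) k0 X with hT
    set P := 1 + 4 * (n + c) * X with hP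
    have hPpos : 0 < P := by positivity
    obtain ⟨i, hi⟩ : ∃ i, i = (r + P)⁻¹ := ⟨_, rfl⟩
    have hiP : i * (r + P) = 1 := by rw [hi]; exact inv_mul_cancel₀ (by positivity)
    have hipos : 0 < i := by rw [hi]; positivity
    have ht : -(4 * n) / (r + P) = -(4 * n) * i := by rw [hi]; rfl
    rw [ht] at hneg ⊢
    obtain ⟨z, hz⟩ : ∃ z, z = (8 * c * (1 + 4 * c * X) + 32 * n ^ 2 * X) / (2 * r) + 4 * (n + c) :=
      ⟨_, rfl⟩
    rw [← hz] at hbr ⊢
    have hd : 4 * n * z / (r + P) ^ 2 = 4 * n * z * i ^ 2 := by rw [hi, inv_pow]; rfl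
    rw [hd]
    -- `2 X u t = r - P`
    have hroot : 2 * X * (1 + 4 * c * X) * (-(4 * n) * i) = r - P := by
      have h1 : (r - P) * (r + P) = -(8 * n * X * (1 + 4 * c * X)) := by
        have : (r - P) * (r + P) = r ^ 2 - P ^ 2 := by ring
        rw [this, hr2, QQ, hP]; ring
      have h2 : (r - P) * (r + P) * i = -(8 * n * X * (1 + 4 * c * X)) * i := by rw [h1]
      have h3 : (r - P) * (r + P) * i = r - P := by
        rw [mul_assoc, mul_comm (r + P) i, hiP, mul_one]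
      rw [← h3, h2]; ring
    -- the main claim
    have hclaim : 0 ≤ (1 + 4 * c * X) * (4 * n * z * i ^ 2 - (T - Y ^ 2)) +
        2 * c * (-(4 * n) * i - Y) := by
      have h1 : X * ((1 + 4 * c * X) * (4 * n * z * i ^ 2 - (T - Y ^ 2)) +
        2 * c * (-(4 * n) * i - Y)) =
        X * (4 * n * i ^ 2 * ((1 + 4 * c * X) * z - 2 * c * (r + P))) +
        (Y - -(4 * n) * i) * (X * (1 + 4 * c * X) * (Y + -(4 * n) * i) + P) := by
        linear_combination (-1) * hode + (8 * n * c * X * i - 2 * n) * hiP +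
          (-2 * n * i) * hroot
      have h2 : 0 ≤ X * (1 + 4 * c * X) * (Y + -(4 * n) * i) + P := by
        have : X * (1 + 4 * c * X) * (-(4 * n) * i) ≤ X * (1 + 4 * c * X) * Y :=
          mul_le_mul_of_nonneg_left (by linarith) (by positivity)
        nlinarith
      have h3 : 0 ≤ X * (4 * n * i ^ 2 * ((1 + 4 * c * X) * z - 2 * c * (r + P))) := by positivity
      have h4 : 0 ≤ (Y - -(4 * n) * i) * (X * (1 + 4 * c * X) * (Y + -(4 * n) * i) + P) :=
        mul_nonneg (by linarith) h2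
      have h5 : 0 ≤ X * ((1 + 4 * c * X) * (4 * n * z * i ^ 2 - (T - Y ^ 2)) +
        2 * c * (-(4 * n) * i - Y)) := by rw [h1]; linarith
      exact nonneg_of_mul_nonneg_right h5 hX0
    rcases le_total 0 c with h | h
    · have h1 : 2 * |c| / (1 + 4 * c * b) * (-(4 * n) * i - Y) ≤ 0 :=
        mul_nonpos_of_nonneg_of_nonpos (by positivity) hneg.le
      have h2 : 0 ≤ 4 * n * z * i ^ 2 - (T - Y ^ 2) := by
        have h3 : 2 * c * (-(4 * n) * i - Y) ≤ 0 :=
          mul_nonpos_of_nonneg_of_nonpos (by positivity) hneg.le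
        have h4 : 0 ≤ (1 + 4 * c * X) * (4 * n * z * i ^ 2 - (T - Y ^ 2)) := by linarith
        exact nonneg_of_mul_nonneg_right h4 hu
      linarith
    · have h1 : 1 + 4 * c * b ≤ 1 + 4 * c * X := by nlinarith [hX.2]
      have h2 : 2 * |c| / (1 + 4 * c * b) * (-(4 * n) * i - Y) ≤
          2 * |c| / (1 + 4 * c * X) * (-(4 * n) * i - Y) := by
        refine mul_le_mul_of_nonpos_right ?_ hneg.le
        gcongr
      refine h2.trans ?_
      rw [div_mul_eq_mul_div, div_le_iff₀ hu, abs_of_nonpos h]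
      linarith

/-- The key inequality. -/
lemma key (K : Ker n c k0 k1 k2) {X : ℝ} (hX : 0 < X) (hu : 0 < 1 + 4 * c * X) :
    X * (1 + 4 * c * X) * y k0 k1 X ^ 2 + (1 + 4 * (n + c) * X) * y k0 k1 X + 2 * n ≤ 0 := by
  have hn := K.hn
  have hnc := K.hnc
  have h1 := K.lower hX.le hu
  have h2 := K.upper hX.le hu
  have hQ := Q_pos (n := n) hu
  have hr := Real.sqrt_pos.2 hQ
  have hr2 := Real.sq_sqrt hQ.le
  have hw : 0 < 1 + 2 * c * X := by linarith
  simp only [y2] at h2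
  set r := Real.sqrt (QQ n c X) with hrdef
  set Y := y k0 k1 X with hY
  set P := 1 + 4 * (n + c) * X with hP
  have hPpos : 0 < P := by positivity
  obtain ⟨i, hi⟩ : ∃ i, i = (r + P)⁻¹ := ⟨_, rfl⟩
  have hiP : i * (r + P) = 1 := by rw [hi]; exact inv_mul_cancel₀ (by positivity)
  have ht : -(4 * n) / (r + P) = -(4 * n) * i := by rw [hi]; rfl
  rw [ht] at h2
  obtain ⟨j, hj⟩ : ∃ j, j = (1 + 2 * c * X)⁻¹ := ⟨_, rfl⟩
  have hjw : j * (1 + 2 * c * X) = 1 := by rw [hj]; exact inv_mul_cancel₀ hw.ne'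
  have hjpos : 0 < j := by rw [hj]; positivity
  have hv : -(2 * n) / (1 + 2 * c * X) = -(2 * n) * j := by rw [hj]; rfl
  rw [hv] at h1
  have hroot : 2 * X * (1 + 4 * c * X) * (-(4 * n) * i) = r - P := by
    have h1 : (r - P) * (r + P) = -(8 * n * X * (1 + 4 * c * X)) := by
      have : (r - P) * (r + P) = r ^ 2 - P ^ 2 := by ring
      rw [this, hr2, QQ, hP]; ring
    have h2 : (r - P) * (r + P) * i = -(8 * n * X * (1 + 4 * c * X)) * i := by rw [h1]
    have h3 : (r - P) * (r + P) * i = r - P := by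
      rw [mul_assoc, mul_comm (r + P) i, hiP, mul_one]
    rw [← h3, h2]; ring
  -- `H` as a product
  have hH : ∀ Z : ℝ, X * (1 + 4 * c * X) * Z ^ 2 + P * Z + 2 * n =
      (Z - -(4 * n) * i) * (X * (1 + 4 * c * X) * (Z + -(4 * n) * i) + P) := by
    intro Z
    linear_combination (-2 * n) * hiP + (-2 * n * i) * hroot
  have hHv : X * (1 + 4 * c * X) * (-(2 * n) * j) ^ 2 + P * (-(2 * n) * j) + 2 * n ≤ 0 := by
    have : X * (1 + 4 * c * X) * (-(2 * n) * j) ^ 2 + P * (-(2 * n) * j) + 2 * n =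
        -(4 * n * X * j ^ 2 * (n + c + 2 * c ^ 2 * X)) := by
      rw [hP]
      linear_combination (-2 * n * (j * (1 + 2 * c * X) + 1) +
        2 * n * (1 + 4 * (n + c) * X) * j) * hjw
    rw [this]
    have : 0 ≤ 4 * n * X * j ^ 2 * (n + c + 2 * c ^ 2 * X) := by positivity
    linarith
  rw [hH Y]
  rcases eq_or_lt_of_le h2 with h | h
  · rw [h]; simp
  · refine mul_nonpos_of_nonpos_of_nonneg (by linarith) ?_
    rw [hH] at hHv
    have h3 : 0 ≤ X * (1 + 4 * c * X) * (-(2 * n) * j + -(4 * n) * i) + P := by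
      by_contra hcon
      push Not at hcon
      have := mul_pos_of_neg_of_neg (show -(2 * n) * j - -(4 * n) * i < 0 by linarith) hcon
      linarith
    have h4 : X * (1 + 4 * c * X) * (-(2 * n) * j) ≤ X * (1 + 4 * c * X) * Y :=
      mul_le_mul_of_nonneg_left h1 (by positivity)
    linarith

end Ker

end Q81.Bern
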