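import Pool.Agent.Q81.Bern3

/-!
# Convexity of log S
-/

namespace Q81.Bern

open MeasureTheory Set Filter Topology intervalIntegral

variable {n c : ℝ} {k0 k1 k2 : ℝ → ℝ}

/-- the interval -/
def II (c : ℝ) : Set ℝ := if 0 ≤ c then Ici 0 else Icc 0 (-1 / c)

lemma convex_II (c : ℝ) : Convex ℝ (II c) := by
  unfold II; split_ifs
  · exact convex_Ici 0
  · exact convex_Icc _ _

lemma II_nonneg {c x : ℝ} (hx : x ∈ II c) : 0 ≤ x ∧ 0 ≤ 1 + c * x := by
  unfold II at hx
  split_ifs at hx with h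
  · have : 0 ≤ x := hx
    exact ⟨this, by positivity⟩
  · push Not at h
    refine ⟨hx.1, ?_⟩
    have h2 := hx.2
    rw [le_div_iff_of_neg h] at h2
    linarith

lemma II_int {c x : ℝ} (hx : x ∈ interior (II c)) : 0 < x ∧ 0 < 1 + c * x := by
  unfold II at hx
  split_ifs at hx with h
  · rw [interior_Ici] at hx
    have : 0 < x := hx
    exact ⟨this, by positivity⟩
  · push Not at h
    rw [interior_Icc] at hx
    refine ⟨hx.1, ?_⟩
    have h2 := hx.2
    rw [lt_div_iff_of_neg h] at h2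
    linarith

namespace Ker

lemma u_eq (c x : ℝ) : 1 + 4 * c * (x * (1 + c * x)) = (1 + 2 * c * x) ^ 2 := by ring

theorem log_convex (K : Ker n c k0 k1 k2) :
    ConvexOn ℝ (II c) fun x => Real.log (1 / Real.pi * In (fun _ => 1) k0 (x * (1 + c * x))) := by
  have hX0 : ∀ x ∈ II c, 0 ≤ x * (1 + c * x) := fun x hx =>
    mul_nonneg (II_nonneg hx).1 (II_nonneg hx).2
  have hu : ∀ x, 0 ≤ 1 + 4 * c * (x * (1 + c * x)) := fun x => by rw [u_eq]; positivity
  have hpi := Real.pi_pos
  -- derivative of `X`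
  have hX : ∀ x, HasDerivAt (fun x => x * (1 + c * x)) (1 + 2 * c * x) x := by
    intro x
    have h1 : HasDerivAt (fun x => 1 + c * x) c x := by
      simpa using ((hasDerivAt_id x).const_mul c).const_add 1
    refine ((hasDerivAt_id x).mul h1).congr_deriv ?_
    simp
    ring
  have hd1 : ∀ x ∈ interior (II c), HasDerivAt
      (fun x => Real.log (1 / Real.pi * In (fun _ => 1) k0 (x * (1 + c * x))))
      (y k0 k1 (x * (1 + c * x)) * (1 + 2 * c * x)) x := by
    intro x hx
    have hx' := II_int hx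
    have hX' : 0 < x * (1 + c * x) := mul_pos hx'.1 hx'.2
    have hs := K.s_pos hX'.le (hu x)
    have h1 := ((K.hasDerivAt_s hX').comp x (hX x)).const_mul (1 / Real.pi)
    have h2 := h1.log (by positivity)
    refine h2.congr_deriv ?_
    unfold y
    simp only [Function.comp_apply]
    field_simp
  refine convexOn_of_hasDerivWithinAt2_nonneg (convex_II c)
    (f' := fun x => y k0 k1 (x * (1 + c * x)) * (1 + 2 * c * x))
    (f'' := fun x => (In (fun φ => sg φ * sg φ) k2 (x * (1 + c * x)) /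
      In (fun _ => 1) k0 (x * (1 + c * x)) - y k0 k1 (x * (1 + c * x)) ^ 2) * (1 + 2 * c * x) *
      (1 + 2 * c * x) + y k0 k1 (x * (1 + c * x)) * (2 * c)) ?_ ?_ ?_ ?_
  · refine ContinuousOn.log ?_ ?_
    · refine continuousOn_const.mul ?_
      exact (continuousOn_In continuous_const K.c0).comp (by fun_prop) hX0
    · intro x hx
      have := K.s_pos (hX0 x hx) (hu x)
      positivity
  · exact fun x hx => (hd1 x hx).hasDerivWithinAt
  · intro x hx
    have hx' := II_int hx
    have hX' : 0 < x * (1 + c * x) := mul_pos hx'.1 hx'.2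
    have h1 := (K.hasDerivAt_y hX' (hu x)).comp x (hX x)
    have h2 : HasDerivAt (fun x => 1 + 2 * c * x) (2 * c) x := by
      simpa using ((hasDerivAt_id x).const_mul (2 * c)).const_add 1
    exact (h1.mul h2).hasDerivWithinAt
  · intro x hx
    have hx' := II_int hx
    have hX' : 0 < x * (1 + c * x) := mul_pos hx'.1 hx'.2
    show 0 ≤ (In (fun φ => sg φ * sg φ) k2 (x * (1 + c * x)) /
      In (fun _ => 1) k0 (x * (1 + c * x)) - y k0 k1 (x * (1 + c * x)) ^ 2) * (1 + 2 * c * x) *
      (1 + 2 * c * x) + y k0 k1 (x * (1 + c * x)) * (2 * c)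
    rcases (hu x).eq_or_lt with h0 | h0
    · -- the midpoint
      have h1 : 1 + 2 * c * x = 0 := by
        rw [u_eq] at h0
        exact pow_eq_zero_iff (two_ne_zero) |>.1 h0.symm
      rw [h1]
      have h2 : y k0 k1 (x * (1 + c * x)) ≤ 0 :=
        div_nonpos_of_nonpos_of_nonneg (K.s1_nonpos hX'.le (hu x)) (K.s_pos hX'.le (hu x)).le
      have h3 : c ≤ 0 := by
        by_contra hcon
        push Not at hcon
        have : 0 < c * x := mul_pos hcon hx'.1
        linarith
      nlinarith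
    · have hode := K.ode' hX' (hu x)
      have hkey := K.key hX' h0
      set X := x * (1 + c * x) with hXdef
      set Y := y k0 k1 X
      set T := In (fun φ => sg φ * sg φ) k2 X / In (fun _ => 1) k0 X
      have hu2 : 1 + 4 * c * X = (1 + 2 * c * x) ^ 2 := u_eq c x
      have h1 : X * ((T - Y ^ 2) * (1 + 2 * c * x) * (1 + 2 * c * x) + Y * (2 * c)) =
          -(X * (1 + 4 * c * X) * Y ^ 2 + (1 + 4 * (n + c) * X) * Y + 2 * n) := by
        have h2 : X * ((T - Y ^ 2) * (1 + 2 * c * x) * (1 + 2 * c * x) + Y * (2 * c)) =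
          X * (1 + 2 * c * x) ^ 2 * T - X * (1 + 2 * c * x) ^ 2 * Y ^ 2 + 2 * c * X * Y := by ring
        rw [h2, ← hu2, hode]
        ring
      have h2 : 0 ≤ X * ((T - Y ^ 2) * (1 + 2 * c * x) * (1 + 2 * c * x) + Y * (2 * c)) := by
        rw [h1]; linarith
      exact nonneg_of_mul_nonneg_right h2 hX'

end Ker

lemma ker_zero (hn : 0 < n) : Ker n 0 (fun t => Real.exp (-(4 * n) * t))
    (fun t => -(4 * n) * Real.exp (-(4 * n) * t))
    (fun t => (4 * n) ^ 2 * Real.exp (-(4 * n) * t)) := by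
  have hd : ∀ t : ℝ, HasDerivAt (fun t => Real.exp (-(4 * n) * t))
      (-(4 * n) * Real.exp (-(4 * n) * t)) t := by
    intro t
    have := ((hasDerivAt_id t).const_mul (-(4 * n))).exp
    refine this.congr_deriv ?_
    simp
    ring
  refine ⟨hn, by linarith, fun t _ => hd t, fun t _ => ?_, ?_, ?_, ?_, ?_, ?_⟩
  · refine ((hd t).const_mul (-(4 * n))).congr_deriv ?_
    ring
  · fun_prop
  · intro t _; ring
  · intro t _; ring
  · intro t _ _; positivity
  · intro t _ _
    have := Real.exp_pos (-(4 * n) * t)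
    nlinarith

lemma ker_pos (hn : 0 < n) (hc : 0 < c) : Ker n c (fun t => (1 + 4 * c * t) ^ (-n / c))
    (fun t => -(4 * n) * (1 + 4 * c * t) ^ (-n / c - 1))
    (fun t => 16 * n * (n + c) * (1 + 4 * c * t) ^ (-n / c - 1 - 1)) := by
  have hb : ∀ t : ℝ, 0 ≤ t → 0 < 1 + 4 * c * t := fun t ht => by positivity
  have hd : ∀ t : ℝ, 0 ≤ t → ∀ p : ℝ, HasDerivAt (fun t => (1 + 4 * c * t) ^ p)
      (4 * c * p * (1 + 4 * c * t) ^ (p - 1)) t := by
    intro t ht p
    have h1 : HasDerivAt (fun t => 1 + 4 * c * t) (4 * c) t := by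
      simpa using ((hasDerivAt_id t).const_mul (4 * c)).const_add 1
    exact h1.rpow_const (Or.inl (hb t ht).ne')
  have hc0 : c ≠ 0 := hc.ne'
  refine ⟨hn, by linarith, fun t ht => ?_, fun t ht => ?_, ?_, ?_, ?_, ?_, ?_⟩
  · refine (hd t ht _).congr_deriv ?_
    field_simp
  · refine ((hd t ht _).const_mul (-(4 * n))).congr_deriv ?_
    field_simp
    ring
  · intro t ht
    exact ((hd t ht _).const_mul (16 * n * (n + c))).continuousAt.continuousWithinAt
  · intro t ht
    rw [Real.rpow_sub_one (hb t ht).ne']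
    have := (hb t ht).ne'
    field_simp
  · intro t ht
    rw [Real.rpow_sub_one (hb t ht).ne' (-n / c - 1)]
    have := (hb t ht).ne'
    field_simp
    ring
  · intro t ht _
    exact Real.rpow_pos_of_pos (hb t ht) _
  · intro t ht _
    have := Real.rpow_pos_of_pos (hb t ht) (-n / c - 1)
    nlinarith

lemma ker_neg (hc : c < 0) (N : ℕ) (hN : 0 < N) (hNn : -n / c = N) :
    Ker n c (fun t => (1 + 4 * c * t) ^ N)
      (fun t => N * (4 * c) * (1 + 4 * c * t) ^ (N - 1))
      (fun t => N * (4 * c) * ((N - 1 : ℕ) * (4 * c) * (1 + 4 * c * t) ^ (N - 1 - 1))) := by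
  have hd : ∀ t : ℝ, ∀ p : ℕ, HasDerivAt (fun t => (1 + 4 * c * t) ^ p)
      (p * (4 * c) * (1 + 4 * c * t) ^ (p - 1)) t := by
    intro t p
    have h1 : HasDerivAt (fun t => 1 + 4 * c * t) (4 * c) t := by
      simpa using ((hasDerivAt_id t).const_mul (4 * c)).const_add 1
    refine (h1.pow p).congr_deriv ?_
    ring
  have hn : n = -c * N := by
    have hc0 : c ≠ 0 := hc.ne
    rw [← hNn]; field_simp
  have hN1 : (1 : ℝ) ≤ N := by exact_mod_cast hN
  obtain ⟨m, rfl⟩ : ∃ m, N = m + 1 := ⟨N - 1, by omega⟩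
  refine ⟨?_, ?_, fun t _ => hd t _, fun t _ => (hd t _).const_mul _, ?_, ?_, ?_, ?_, ?_⟩
  · rw [hn]; nlinarith
  · rw [hn]; nlinarith
  · fun_prop
  · intro t _
    rw [hn]
    simp only [Nat.add_sub_cancel]
    ring
  · intro t _
    rw [hn]
    simp only [Nat.add_sub_cancel]
    rcases m with _ | k
    · simp
    · simp only [Nat.add_sub_cancel]
      push_cast
      ring
  · intro t _ h
    positivity
  · intro t _ h
    have : 0 ≤ (1 + 4 * c * t) ^ (m + 1 - 1) := by positivity
    have h2 : ((m + 1 : ℕ) : ℝ) * (4 * c) ≤ 0 := by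
      have : (0 : ℝ) ≤ ((m + 1 : ℕ) : ℝ) := Nat.cast_nonneg _
      nlinarith
    exact mul_nonpos_of_nonpos_of_nonneg h2 this

/-- The functions `S_{n,c}`. -/
noncomputable def S (n c x : ℝ) : ℝ :=
  1 / Real.pi * ∫ φ in (0 : ℝ)..Real.pi,
    if c = 0 then Real.exp (-4 * n * x * Real.sin (φ / 2) ^ 2)
    else (1 + 4 * c * (x * (1 + c * x)) * Real.sin (φ / 2) ^ 2) ^ (-n / c)

theorem main (hn : 0 < n) (hc : c < 0 → ∃ N : ℕ, 0 < N ∧ -n / c = N) :
    ConvexOn ℝ (II c) fun x => Real.log (S n c x) := by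
  rcases lt_trichotomy c 0 with h | h | h
  · obtain ⟨N, hN, hNn⟩ := hc h
    refine (ker_neg h N hN hNn).log_convex.congr fun x _ => ?_
    simp only [S, In, sg, if_neg h.ne]
    congr 2
    refine intervalIntegral.integral_congr fun φ _ => ?_
    rw [one_mul, hNn, Real.rpow_natCast, mul_assoc (4 * c)]
  · subst h
    refine (ker_zero hn).log_convex.congr fun x _ => ?_
    simp only [S, In, sg, if_true]
    congr 2
    refine intervalIntegral.integral_congr fun φ _ => ?_
    rw [one_mul]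
    congr 1
    ring
  · refine (ker_pos hn h).log_convex.congr fun x _ => ?_
    simp only [S, In, sg, if_neg h.ne']
    congr 2
    refine intervalIntegral.integral_congr fun φ _ => ?_
    rw [one_mul, mul_assoc (4 * c)]

end Q81.Bern
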