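import Pool.Agent.Q81.CiIrr

/-! Towers of simple extensions (MP_96c727_ag). -/

namespace Pool.Agent.Q81.Ci

open IntermediateField Polynomial Module

section
variable {K : Type*} [Field K] {Ω : Type*} [Field Ω] [Algebra K Ω]

/-- `M(τ)` as an intermediate field of `Ω/K`. -/
noncomputable def stp (M : IntermediateField K Ω) (τ : Ω) : IntermediateField K Ω :=
  (IntermediateField.adjoin M {τ}).restrictScalars K

theorem mem_stp {M : IntermediateField K Ω} {τ z : Ω} :
    z ∈ stp M τ ↔ z ∈ IntermediateField.adjoin M {τ} := Iff.rfl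

theorem le_stp (M : IntermediateField K Ω) (τ : Ω) : M ≤ stp M τ := by
  intro z hz
  exact (IntermediateField.adjoin M {τ}).algebraMap_mem ⟨z, hz⟩

theorem self_mem_stp (M : IntermediateField K Ω) (τ : Ω) : τ ∈ stp M τ := by
  rw [mem_stp]
  exact IntermediateField.mem_adjoin_simple_self M τ

theorem stp_mem_of {M : IntermediateField K Ω} {τ : Ω} {W : Subfield Ω} (h1 : ∀ z ∈ M, z ∈ W)
    (h2 : τ ∈ W) {z : Ω} (hz : z ∈ stp M τ) : z ∈ W := by
  rw [mem_stp] at hz
  induction hz using IntermediateField.adjoin_induction with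
  | mem x hx =>
    rw [Set.mem_singleton_iff.1 hx]
    exact h2
  | algebraMap x => exact h1 _ x.2
  | add x y hx hy h1 h2 => exact add_mem h1 h2
  | inv x hx h1 => exact inv_mem h1
  | mul x y hx hy h1 h2 => exact mul_mem h1 h2

theorem finrank_stp {M : IntermediateField K Ω} {τ : Ω} {D : ℕ} (h : IsIntegral M τ)
    (hD : (minpoly M τ).natDegree = D) : finrank K (stp M τ) = finrank K M * D := by
  have h1 : finrank M (IntermediateField.adjoin M {τ}) = D := by
    rw [IntermediateField.adjoin.finrank h, hD]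
  have h2 : finrank K M * finrank M (IntermediateField.adjoin M {τ}) =
      finrank K (IntermediateField.adjoin M {τ}) := Module.finrank_mul_finrank K M _
  rw [h1] at h2
  rw [h2]
  rfl

/-- Linear independence of the seven coordinates. -/
theorem seven {s t τ : Ω} {D : ℕ} (hD : 2 ≤ D)
    (h1 : ∀ h : K[X], h.natDegree < 2 → aeval s h = 0 → h = 0)
    (h2 : ∀ h : (IntermediateField.adjoin K {s})[X], h.natDegree < 2 → aeval t h = 0 → h = 0)
    (h3 : ∀ h : (stp (IntermediateField.adjoin K {s}) t)[X], h.natDegree < D →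
      aeval τ h = 0 → h = 0)
    {X1 Y1 X2 Y2 l m : K} (hX1 : X1 ≠ 0) (hY1 : Y1 ≠ 0) (hX2 : X2 ≠ 0) (hY2 : Y2 ≠ 0)
    (hl : l ≠ 0) (hm : m ≠ 0) {a : Fin 7 → K}
    (ha : algebraMap K Ω (a 0) * algebraMap K Ω X1 + algebraMap K Ω (a 1) * (algebraMap K Ω Y1 * s) +
      algebraMap K Ω (a 2) * (algebraMap K Ω X2 * τ) +
      algebraMap K Ω (a 3) * (algebraMap K Ω Y2 * t * τ) +
      algebraMap K Ω (a 4) * (algebraMap K Ω l * t) + algebraMap K Ω (a 5) * (algebraMap K Ω m * s * τ) +
      algebraMap K Ω (a 6) * (algebraMap K Ω m * s * t * τ) = 0) : a = 0 := by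
  set M1 := IntermediateField.adjoin K {s} with hM1
  have hs : s ∈ M1 := IntermediateField.mem_adjoin_simple_self _ _
  have hsM2 : s ∈ stp M1 t := le_stp _ _ hs
  have htM2 : t ∈ stp M1 t := self_mem_stp _ _
  -- two-term lemmas
  have k1 : ∀ u v : K, algebraMap K Ω u + algebraMap K Ω v * s = 0 → u = 0 ∧ v = 0 := by
    intro u v huv
    have h4 := h1 (C v * X + C u) (lt_of_le_of_lt (natDegree_linear_le) (by norm_num)) (by
      simp only [map_add, map_mul, aeval_C, aeval_X]
      linear_combination huv)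
    constructor
    · simpa using congrArg (fun p => coeff p 0) h4
    · simpa using congrArg (fun p => coeff p 1) h4
  have k2 : ∀ u ∈ M1, ∀ v ∈ M1, u + v * t = 0 → u = 0 ∧ v = 0 := by
    intro u hu v hv huv
    have h4 := h2 (C ⟨v, hv⟩ * X + C ⟨u, hu⟩) (lt_of_le_of_lt (natDegree_linear_le) (by norm_num)) (by
      simp only [map_add, map_mul, aeval_C, aeval_X]
      change v * t + u = 0
      linear_combination huv)
    constructor
    · have := congrArg (fun p => coeff p 0) h4
      simp only [coeff_add, mul_coeff_zero, coeff_C_zero, coeff_X_zero, mul_zero, zero_add,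
        coeff_zero] at this
      exact congrArg Subtype.val this
    · have := congrArg (fun p => coeff p 1) h4
      simp only [coeff_add, coeff_C_mul, coeff_X_one, mul_one, coeff_C_succ, add_zero,
        coeff_zero] at this
      exact congrArg Subtype.val this
  have k3 : ∀ u ∈ stp M1 t, ∀ v ∈ stp M1 t, u + v * τ = 0 → u = 0 ∧ v = 0 := by
    intro u hu v hv huv
    have h4 := h3 (C ⟨v, hv⟩ * X + C ⟨u, hu⟩) (lt_of_le_of_lt (natDegree_linear_le) (by omega)) (by
      simp only [map_add, map_mul, aeval_C, aeval_X]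
      change v * τ + u = 0
      linear_combination huv)
    constructor
    · have := congrArg (fun p => coeff p 0) h4
      simp only [coeff_add, mul_coeff_zero, coeff_C_zero, coeff_X_zero, mul_zero, zero_add,
        coeff_zero] at this
      exact congrArg Subtype.val this
    · have := congrArg (fun p => coeff p 1) h4
      simp only [coeff_add, coeff_C_mul, coeff_X_one, mul_one, coeff_C_succ, add_zero,
        coeff_zero] at this
      exact congrArg Subtype.val this
  have hK1 : ∀ z : K, algebraMap K Ω z ∈ M1 := fun z => M1.algebraMap_mem z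
  have hK2 : ∀ z : K, algebraMap K Ω z ∈ stp M1 t := fun z => (stp M1 t).algebraMap_mem z
  obtain ⟨e1, e2⟩ := k3 (algebraMap K Ω (a 0) * algebraMap K Ω X1 +
      algebraMap K Ω (a 1) * (algebraMap K Ω Y1 * s) + algebraMap K Ω (a 4) * (algebraMap K Ω l * t))
    (add_mem (add_mem (mul_mem (hK2 _) (hK2 _)) (mul_mem (hK2 _) (mul_mem (hK2 _) hsM2)))
      (mul_mem (hK2 _) (mul_mem (hK2 _) htM2)))
    (algebraMap K Ω (a 2) * algebraMap K Ω X2 + algebraMap K Ω (a 3) * (algebraMap K Ω Y2 * t) +
      algebraMap K Ω (a 5) * (algebraMap K Ω m * s) +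
      algebraMap K Ω (a 6) * (algebraMap K Ω m * s * t))
    (add_mem (add_mem (add_mem (mul_mem (hK2 _) (hK2 _)) (mul_mem (hK2 _) (mul_mem (hK2 _) htM2)))
      (mul_mem (hK2 _) (mul_mem (hK2 _) hsM2)))
      (mul_mem (hK2 _) (mul_mem (mul_mem (hK2 _) hsM2) htM2)))
    (by linear_combination ha)
  obtain ⟨e3, e4⟩ := k2 (algebraMap K Ω (a 0) * algebraMap K Ω X1 +
      algebraMap K Ω (a 1) * (algebraMap K Ω Y1 * s))
    (add_mem (mul_mem (hK1 _) (hK1 _)) (mul_mem (hK1 _) (mul_mem (hK1 _) hs)))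
    (algebraMap K Ω (a 4) * algebraMap K Ω l) (mul_mem (hK1 _) (hK1 _)) (by linear_combination e1)
  obtain ⟨e5, e6⟩ := k2 (algebraMap K Ω (a 2) * algebraMap K Ω X2 +
      algebraMap K Ω (a 5) * (algebraMap K Ω m * s))
    (add_mem (mul_mem (hK1 _) (hK1 _)) (mul_mem (hK1 _) (mul_mem (hK1 _) hs)))
    (algebraMap K Ω (a 3) * algebraMap K Ω Y2 + algebraMap K Ω (a 6) * (algebraMap K Ω m * s))
    (add_mem (mul_mem (hK1 _) (hK1 _)) (mul_mem (hK1 _) (mul_mem (hK1 _) hs)))
    (by linear_combination e2)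
  obtain ⟨f0, f1⟩ := k1 (a 0 * X1) (a 1 * Y1) (by rw [map_mul, map_mul]; linear_combination e3)
  obtain ⟨f2, f5⟩ := k1 (a 2 * X2) (a 5 * m) (by rw [map_mul, map_mul]; linear_combination e5)
  obtain ⟨f3, f6⟩ := k1 (a 3 * Y2) (a 6 * m) (by rw [map_mul, map_mul]; linear_combination e6)
  have f4 : a 4 * l = 0 := by
    apply (algebraMap K Ω).injective
    rw [map_mul, map_zero]
    exact e4
  have g0 := (mul_eq_zero.1 f0).resolve_right hX1
  have g1 := (mul_eq_zero.1 f1).resolve_right hY1
  have g2 := (mul_eq_zero.1 f2).resolve_right hX2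
  have g3 := (mul_eq_zero.1 f3).resolve_right hY2
  have g4 := (mul_eq_zero.1 f4).resolve_right hl
  have g5 := (mul_eq_zero.1 f5).resolve_right hm
  have g6 := (mul_eq_zero.1 f6).resolve_right hm
  funext i
  fin_cases i
  · exact g0
  · exact g1
  · exact g2
  · exact g3
  · exact g4
  · exact g5
  · exact g6

end

end Pool.Agent.Q81.Ci
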