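import Pool.Agent.Q81.CiGS
import Pool.Agent.Q81.CiTow

/-! Algebra of the isotropic line (MP_96c727_ag). -/

namespace Pool.Agent.Q81.Ci

open IntermediateField Polynomial Module

section
variable {K : Type*} [Field K] {Ω : Type*} [Field Ω] [Algebra K Ω] {N : ℕ}

theorem iso_eval (G : Fin (N + 1) → Fin (N + 1) → K) (e : Fin 7 → Fin (N + 1) → K) (δ : Fin 7 → K)
    (horth : ∀ i j, bil G (e i) (e j) = if i = j then δ i else 0) (κ : Fin 7 → Ω) :
    ∑ a, ∑ b, algebraMap K Ω (G a b) * (∑ j, κ j * algebraMap K Ω (e j a)) *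
      (∑ j, κ j * algebraMap K Ω (e j b)) = ∑ j, κ j ^ 2 * algebraMap K Ω (δ j) := by
  have h1 : ∑ j, κ j ^ 2 * algebraMap K Ω (δ j) =
      ∑ i, ∑ j, κ i * κ j * algebraMap K Ω (bil G (e i) (e j)) := by
    refine Finset.sum_congr rfl fun i _ => ?_
    rw [Finset.sum_eq_single i]
    · rw [horth, if_pos rfl]
      ring
    · intro j _ hj
      rw [horth, if_neg (Ne.symm hj), map_zero, mul_zero]
    · intro h
      exact absurd (Finset.mem_univ i) h
  rw [h1]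
  have h2 : ∀ i j, κ i * κ j * algebraMap K Ω (bil G (e i) (e j)) =
      ∑ a, ∑ b, algebraMap K Ω (G a b) * (κ i * algebraMap K Ω (e i a)) *
        (κ j * algebraMap K Ω (e j b)) := by
    intro i j
    rw [bil_apply, map_sum, Finset.mul_sum]
    refine Finset.sum_congr rfl fun a _ => ?_
    rw [map_sum, Finset.mul_sum]
    refine Finset.sum_congr rfl fun b _ => ?_
    rw [map_mul, map_mul]
    ring
  simp_rw [h2]
  have h3 : ∀ a b, algebraMap K Ω (G a b) * (∑ j, κ j * algebraMap K Ω (e j a)) *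
      (∑ j, κ j * algebraMap K Ω (e j b)) = ∑ i, ∑ j, algebraMap K Ω (G a b) *
        (κ i * algebraMap K Ω (e i a)) * (κ j * algebraMap K Ω (e j b)) := by
    intro a b
    rw [Finset.mul_sum Finset.univ (fun j => κ j * algebraMap K Ω (e j a)) (algebraMap K Ω (G a b)),
      Finset.sum_mul]
    refine Finset.sum_congr rfl fun i _ => ?_
    rw [Finset.mul_sum]
  simp_rw [h3]
  calc ∑ a, ∑ b, ∑ i, ∑ j, algebraMap K Ω (G a b) *
        (κ i * algebraMap K Ω (e i a)) * (κ j * algebraMap K Ω (e j b))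
      = ∑ a, ∑ i, ∑ b, ∑ j, algebraMap K Ω (G a b) *
        (κ i * algebraMap K Ω (e i a)) * (κ j * algebraMap K Ω (e j b)) :=
        Finset.sum_congr rfl fun a _ => Finset.sum_comm
    _ = ∑ i, ∑ a, ∑ b, ∑ j, algebraMap K Ω (G a b) *
        (κ i * algebraMap K Ω (e i a)) * (κ j * algebraMap K Ω (e j b)) := Finset.sum_comm
    _ = ∑ i, ∑ a, ∑ j, ∑ b, algebraMap K Ω (G a b) *
        (κ i * algebraMap K Ω (e i a)) * (κ j * algebraMap K Ω (e j b)) :=
        Finset.sum_congr rfl fun i _ => Finset.sum_congr rfl fun a _ => Finset.sum_comm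
    _ = ∑ i, ∑ j, ∑ a, ∑ b, algebraMap K Ω (G a b) *
        (κ i * algebraMap K Ω (e i a)) * (κ j * algebraMap K Ω (e j b)) :=
        Finset.sum_congr rfl fun i _ => Finset.sum_comm

/-- Triangularity: the coordinates `κ j` are `K`-combinations of the `x i`. -/
theorem tri (ι : Fin 7 → Fin (N + 1)) (hι : StrictMono ι) (e : Fin 7 → Fin (N + 1) → K)
    (h1 : ∀ j, e j (ι j) = 1) (h2 : ∀ j i, ι j < i → e j i = 0) (κ : Fin 7 → Ω)
    (W : Submodule K Ω) (hW : ∀ i, ∑ j, κ j * algebraMap K Ω (e j i) ∈ W) (j : Fin 7) :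
    κ j ∈ W := by
  induction j using WellFoundedGT.induction with
  | ind j ih =>
  have h3 := hW (ι j)
  rw [← Finset.add_sum_erase _ _ (Finset.mem_univ j), h1, map_one, mul_one] at h3
  have h4 : ∑ k ∈ Finset.univ.erase j, κ k * algebraMap K Ω (e k (ι j)) ∈ W := by
    refine sum_mem fun k hk => ?_
    rcases lt_or_gt_of_ne (Finset.ne_of_mem_erase hk) with h | h
    · rw [h2 k _ (hι h), map_zero, mul_zero]
      exact zero_mem _
    · rw [mul_comm, ← Algebra.smul_def]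
      exact W.smul_mem _ (ih k h)
  have h5 := W.sub_mem h3 h4
  rwa [add_sub_cancel_right] at h5

theorem pick [CharZero K] (c : K) : ∃ l : K, ∃ n : ℕ, l = n ∧ l ≠ 0 ∧ l ^ 2 * c ≠ 1 ∧
    l ^ 2 * c ≠ -1 := by
  by_cases h : c = 1 ∨ c = -1
  · refine ⟨2, 2, by norm_num, two_ne_zero, ?_, ?_⟩
    · rcases h with h | h <;> rw [h] <;> norm_num
    · rcases h with h | h <;> rw [h] <;> norm_num
  · push Not at h
    refine ⟨1, 1, by norm_num, one_ne_zero, ?_, ?_⟩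
    · simpa using h.1
    · simpa using h.2

theorem coeffs [CharZero K] (F : Subfield K) (δ : Fin 7 → K) (hδ : ∀ i, δ i ≠ 0)
    (hF : ∀ i, δ i ∈ F) : ∃ X1 Y1 X2 Y2 l m : K, (X1 ∈ F ∧ Y1 ∈ F ∧ X2 ∈ F ∧ Y2 ∈ F ∧ l ∈ F ∧ m ∈ F) ∧
      (X1 ≠ 0 ∧ Y1 ≠ 0 ∧ X2 ≠ 0 ∧ Y2 ≠ 0 ∧ l ≠ 0 ∧ m ≠ 0) ∧
      δ 0 * (X1 ^ 2 - Y1 ^ 2) + l ^ 2 * (-δ 2 / δ 3) * δ 4 = 0 ∧
      δ 2 * (X2 ^ 2 - Y2 ^ 2) + m ^ 2 * ((-δ 0 / δ 1) * δ 5 + (-δ 0 / δ 1) * (-δ 2 / δ 3) * δ 6) = 0 := by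
  have half : ∀ c ∈ F, ∀ l ∈ F, l ^ 2 * c ≠ 1 → l ^ 2 * c ≠ -1 → ∃ X ∈ F, ∃ Y ∈ F, X ≠ 0 ∧ Y ≠ 0 ∧
      X ^ 2 - Y ^ 2 = -(l ^ 2 * c) := by
    intro c hc l hl h1 h2
    have h2F : (2 : K) ∈ F := ofNat_mem F 2
    refine ⟨(-(l ^ 2 * c) + 1) / 2, ?_, (-(l ^ 2 * c) - 1) / 2, ?_, ?_, ?_, by ring⟩
    · exact div_mem (add_mem (neg_mem (mul_mem (pow_mem hl 2) hc)) (one_mem _)) h2F
    · exact div_mem (sub_mem (neg_mem (mul_mem (pow_mem hl 2) hc)) (one_mem _)) h2F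
    · intro h
      apply h1
      have := (div_eq_zero_iff.1 h).resolve_right two_ne_zero
      linear_combination -this
    · intro h
      apply h2
      have := (div_eq_zero_iff.1 h).resolve_right two_ne_zero
      linear_combination -this
  have hD1 : -δ 0 / δ 1 ∈ F := div_mem (neg_mem (hF 0)) (hF 1)
  have hD2 : -δ 2 / δ 3 ∈ F := div_mem (neg_mem (hF 2)) (hF 3)
  obtain ⟨l, n, hln, hl0, hl1, hl2⟩ := pick ((-δ 2 / δ 3) * δ 4 / δ 0)
  obtain ⟨m, n', hmn, hm0, hm1, hm2⟩ :=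
    pick (((-δ 0 / δ 1) * δ 5 + (-δ 0 / δ 1) * (-δ 2 / δ 3) * δ 6) / δ 2)
  have hlF : l ∈ F := by rw [hln]; exact natCast_mem F n
  have hmF : m ∈ F := by rw [hmn]; exact natCast_mem F n'
  obtain ⟨X1, hX1, Y1, hY1, hX10, hY10, e1⟩ := half _
    (div_mem (mul_mem hD2 (hF 4)) (hF 0)) l hlF hl1 hl2
  obtain ⟨X2, hX2, Y2, hY2, hX20, hY20, e2⟩ := half _
    (div_mem (add_mem (mul_mem hD1 (hF 5)) (mul_mem (mul_mem hD1 hD2) (hF 6))) (hF 2)) m hmF hm1 hm2
  refine ⟨X1, Y1, X2, Y2, l, m, ⟨hX1, hY1, hX2, hY2, hlF, hmF⟩,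
    ⟨hX10, hY10, hX20, hY20, hl0, hm0⟩, ?_, ?_⟩
  · rw [e1]
    have := hδ 0
    field_simp
    ring
  · rw [e2]
    have := hδ 2
    field_simp
    ring

/-- The polynomial `c(v + w X)`. -/
noncomputable def gp {E : Type*} [CommRing E] (D : ℕ) (c : (Fin (N + 1) →₀ ℕ) → E)
    (v w : Fin (N + 1) → E) : E[X] :=
  ∑ m ∈ (Finset.univ : Finset (Fin (N + 1))).finsuppAntidiag D,
    C (c m) * ∏ i, (C (v i) + C (w i) * X) ^ (m i)

theorem gp_natDegree {E : Type*} [CommRing E] (D : ℕ) (c : (Fin (N + 1) →₀ ℕ) → E)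
    (v w : Fin (N + 1) → E) : (gp D c v w).natDegree ≤ D := by
  unfold gp
  refine natDegree_sum_le_of_forall_le _ _ fun m hm => ?_
  refine (natDegree_C_mul_le _ _).trans ((natDegree_prod_le _ _).trans ?_)
  have h1 : ∑ i, m i = D := (Finset.mem_finsuppAntidiag.1 hm).1
  rw [← h1]
  refine Finset.sum_le_sum fun i _ => ?_
  refine natDegree_pow_le.trans ?_
  have : (C (v i) + C (w i) * X).natDegree ≤ 1 := by
    rw [add_comm]
    exact natDegree_linear_le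
  calc m i * (C (v i) + C (w i) * X).natDegree ≤ m i * 1 := Nat.mul_le_mul_left _ this
    _ = m i := mul_one _

theorem gp_map {E E' : Type*} [CommRing E] [CommRing E'] (φ : E →+* E') (D : ℕ)
    (c : (Fin (N + 1) →₀ ℕ) → E) (v w : Fin (N + 1) → E) :
    (gp D c v w).map φ = gp D (fun m => φ (c m)) (fun i => φ (v i)) fun i => φ (w i) := by
  unfold gp
  rw [Polynomial.map_sum]
  refine Finset.sum_congr rfl fun m _ => ?_
  rw [Polynomial.map_mul, Polynomial.map_C, Polynomial.map_prod]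
  congr 1
  refine Finset.prod_congr rfl fun i _ => ?_
  rw [Polynomial.map_pow, Polynomial.map_add, Polynomial.map_mul, Polynomial.map_C,
    Polynomial.map_C, Polynomial.map_X]

theorem gp_eval {E : Type*} [CommRing E] (D : ℕ) (c : (Fin (N + 1) →₀ ℕ) → E)
    (v w : Fin (N + 1) → E) (τ : E) : (gp D c v w).eval τ =
      ∑ m ∈ (Finset.univ : Finset (Fin (N + 1))).finsuppAntidiag D,
        c m * ∏ i, (v i + w i * τ) ^ (m i) := by
  unfold gp
  rw [eval_finsetSum]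
  refine Finset.sum_congr rfl fun m _ => ?_
  rw [eval_mul, eval_C, eval_prod]
  congr 1
  refine Finset.prod_congr rfl fun i _ => ?_
  rw [eval_pow, eval_add, eval_mul, eval_C, eval_C, eval_X]

theorem gp_coeff_zero {E : Type*} [CommRing E] (D : ℕ) (c : (Fin (N + 1) →₀ ℕ) → E)
    (v w : Fin (N + 1) → E) : (gp D c v w).coeff 0 =
      ∑ m ∈ (Finset.univ : Finset (Fin (N + 1))).finsuppAntidiag D,
        c m * ∏ i, v i ^ (m i) := by
  rw [coeff_zero_eq_eval_zero, gp_eval]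
  refine Finset.sum_congr rfl fun m _ => ?_
  simp

/-- Split off the monomial `x_i ^ D`. -/
theorem split_sum {E : Type*} [CommRing E] (D : ℕ) (c : (Fin (N + 1) →₀ ℕ) → E)
    (y : Fin (N + 1) → E) (i : Fin (N + 1)) :
    ∑ m ∈ (Finset.univ : Finset (Fin (N + 1))).finsuppAntidiag D, c m * ∏ k, y k ^ (m k) =
      (∑ m ∈ (Finset.univ : Finset (Fin (N + 1))).finsuppAntidiag D,
        (if m = Finsupp.single i D then 0 else c m) * ∏ k, y k ^ (m k)) +
        c (Finsupp.single i D) * y i ^ D := by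
  classical
  have hmem : Finsupp.single i D ∈ (Finset.univ : Finset (Fin (N + 1))).finsuppAntidiag D := by
    rw [Finset.mem_finsuppAntidiag]
    refine ⟨?_, Finset.subset_univ _⟩
    rw [← Finsupp.degree_eq_sum, Finsupp.degree_single]
  have h1 : ∏ k, y k ^ (Finsupp.single i D k) = y i ^ D := by
    rw [Finset.prod_eq_single i]
    · rw [Finsupp.single_eq_same]
    · intro k _ hk
      rw [Finsupp.single_eq_of_ne hk, pow_zero]
    · intro h
      exact absurd (Finset.mem_univ i) h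
  rw [← Finset.add_sum_erase _ _ hmem, ← Finset.add_sum_erase _ _ hmem, if_pos rfl, zero_mul,
    zero_add, h1, add_comm]
  congr 1
  refine Finset.sum_congr rfl fun m hm => ?_
  rw [if_neg (Finset.ne_of_mem_erase hm)]

end

end Pool.Agent.Q81.Ci
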