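import Pool.Agent.Q81.CiSix

/-! The bound `dim V ≤ 6`, conclusion. -/

namespace Pool.Agent.Q81.Ci

open MvPolynomial Module

set_option linter.unusedSectionVars false

variable {K : Type*} [Field K] {F : Type*} [Field F] [Algebra K F]
variable {V : Submodule K F} {y : Fin 3 → F}

theorem T_one : T 1 = 3 := rfl
theorem T_two : T 2 = 6 := rfl

/-- `ev (H n)`. -/
noncomputable def evH (y : Fin 3 → F) (n : ℕ) : Submodule K F :=
  (H K n).map (aeval y : R3 K →ₐ[K] F).toLinearMap

theorem mem_evH {n : ℕ} {v : F} : v ∈ evH (K := K) y n ↔ ∃ r ∈ H K n, aeval y r = v := Iff.rfl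

theorem finrank_evH (n : ℕ) : finrank K (evH (K := K) y n) ≤ T n := by
  rw [← finrank_H (K := K)]
  exact Submodule.finrank_map_le _ _

instance fd_evH (n : ℕ) : FiniteDimensional K (evH (K := K) y n) :=
  Module.Finite.map _ _

theorem evH_mul {m n : ℕ} {a b : F} (ha : a ∈ evH (K := K) y m) (hb : b ∈ evH (K := K) y n) :
    a * b ∈ evH (K := K) y (m + n) := by
  obtain ⟨r, hr, rfl⟩ := ha
  obtain ⟨s, hs, rfl⟩ := hb
  exact ⟨r * s, IsHomogeneous.mul hr hs, map_mul (aeval y : R3 K →ₐ[K] F) r s⟩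

/-- case (i): all of `V` lies in `K(y)`. -/
theorem six_lin (hd : Dat V y) (hall : ∀ v ∈ V, v ∈ (phiQ hd).range) : finrank K V ≤ 6 := by
  classical
  by_cases hV : ∀ v ∈ V, v ∈ evH (K := K) y 1
  · have h1 : V ≤ evH (K := K) y 1 := hV
    have h2 := (Submodule.finrank_mono h1).trans (finrank_evH 1)
    rw [T_one] at h2
    omega
  push Not at hV
  obtain ⟨v₀, hv₀, hv₀'⟩ := hV
  obtain ⟨a₀, ha₀, α₀, β₀, hα₀, hβ₀, hα₀0, hcop₀, hrel₀⟩ := lin_rel hd hv₀ (hall v₀ hv₀)
  have ha₀1 : a₀ = 1 := by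
    by_contra hne
    have h0 : a₀ = 0 := by omega
    subst h0
    obtain ⟨k, hk0, rfl⟩ := unit_of_totalDegree hα₀0 (hα₀.totalDegree hα₀0)
    apply hv₀'
    refine ⟨k⁻¹ • β₀, Submodule.smul_mem _ _ hβ₀, ?_⟩
    rw [aeval_C] at hrel₀
    change aeval y (k⁻¹ • β₀) = v₀
    rw [map_smul, ← hrel₀, Algebra.smul_def, map_inv₀]
    have hk1 : algebraMap K F k ≠ 0 := by rwa [Ne, map_eq_zero]
    field_simp
  subst ha₀1
  have hp₀ : Prime α₀ := lin_prime hα₀ hα₀0
  have key : ∀ v ∈ V, aeval y α₀ * v ∈ evH (K := K) y 2 := by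
    intro v hv
    obtain ⟨a, ha, α, β, hα, hβ, hα0, hcop, hrel⟩ := lin_rel hd hv (hall v hv)
    rcases Nat.lt_or_ge a 1 with h0 | h0
    · have h0 : a = 0 := by omega
      subst h0
      obtain ⟨k, hk0, rfl⟩ := unit_of_totalDegree hα0 (hα.totalDegree hα0)
      refine ⟨α₀ * (k⁻¹ • β), IsHomogeneous.mul hα₀ (Submodule.smul_mem _ _ hβ), ?_⟩
      rw [aeval_C] at hrel
      change aeval y (α₀ * (k⁻¹ • β)) = _
      rw [map_mul, map_smul, ← hrel, Algebra.smul_def, map_inv₀]
      have hk1 : algebraMap K F k ≠ 0 := by rwa [Ne, map_eq_zero]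
      field_simp
    · have h1 : a = 1 := by omega
      subst h1
      by_cases hdv : α₀ ∣ α
      · obtain ⟨c, hc0, rfl⟩ := lin_dvd hα₀ hα hα0 hdv
        refine ⟨c⁻¹ • β, Submodule.smul_mem _ _ hβ, ?_⟩
        change aeval y (c⁻¹ • β) = _
        rw [map_smul, ← hrel, Algebra.smul_def, map_inv₀, map_mul, aeval_C]
        have hk1 : algebraMap K F c ≠ 0 := by rwa [Ne, map_eq_zero]
        field_simp
      · exfalso
        have hp : Prime α := lin_prime hα hα0
        have hdv' : ¬ α ∣ α₀ := by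
          intro h
          obtain ⟨c, hc0, h2⟩ := lin_dvd hα hα₀ hα₀0 h
          apply hdv
          refine ⟨C c⁻¹, ?_⟩
          rw [h2]
          have : (C c * α) * C c⁻¹ = (C (c * c⁻¹) : R3 K) * α := by
            rw [C_mul]; ring
          rw [this, mul_inv_cancel₀ hc0, C_1, one_mul]
        obtain ⟨a2, ha2, α2, β2, hα2, hβ2, hα20, -, hrel2⟩ := lin_rel hd (add_mem hv hv₀)
          (hall _ (add_mem hv hv₀))
        have hpoly : α2 * (β * α₀ + β₀ * α) = β2 * α * α₀ := by
          apply hd.inj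
          simp only [map_mul, map_add]
          rw [← hrel, ← hrel₀, ← hrel2]
          ring
        have hd1 : α₀ ∣ α2 := by
          have h1 : α₀ ∣ α2 * (β₀ * α) := by
            have : α2 * (β₀ * α) = α₀ * (β2 * α - α2 * β) := by
              linear_combination hpoly
            rw [this]
            exact dvd_mul_right _ _
          rcases hp₀.dvd_or_dvd h1 with h | h
          · exact h
          · rcases hp₀.dvd_or_dvd h with h | h
            · exact absurd (hcop₀ dvd_rfl h) hp₀.not_isUnit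
            · exact absurd h hdv
        have hd2 : α ∣ α2 := by
          have h1 : α ∣ α2 * (β * α₀) := by
            have : α2 * (β * α₀) = α * (β2 * α₀ - α2 * β₀) := by
              linear_combination hpoly
            rw [this]
            exact dvd_mul_right _ _
          rcases hp.dvd_or_dvd h1 with h | h
          · exact h
          · rcases hp.dvd_or_dvd h with h | h
            · exact absurd (hcop dvd_rfl h) hp.not_isUnit
            · exact absurd h hdv'
        have ha21 : a2 = 1 := by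
          obtain ⟨s, rfl⟩ := hd1
          have hs0 : s ≠ 0 := fun h => hα20 (by rw [h, mul_zero])
          have h1 := hα2.totalDegree hα20
          rw [totalDegree_mul_of_isDomain hα₀0 hs0, hα₀.totalDegree hα₀0] at h1
          omega
        subst ha21
        obtain ⟨c, hc0, rfl⟩ := lin_dvd hα₀ hα2 hα20 hd1
        rcases hp.dvd_or_dvd hd2 with h | h
        · exact hp.not_isUnit (isUnit_of_dvd_unit h ((IsUnit.mk0 c hc0).map C))
        · exact hdv' h
  set Θ : V →ₗ[K] F := (LinearMap.mulLeft K (aeval y α₀)) ∘ₗ V.subtype with hΘ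
  have hinj : Function.Injective Θ := by
    intro a b hab
    exact Subtype.ext (mul_left_cancel₀ (ev_ne hd hα₀0) hab)
  have h1 := LinearMap.finrank_range_of_inj hinj
  have h2 : LinearMap.range Θ ≤ evH (K := K) y 2 := by
    rintro _ ⟨v, rfl⟩
    exact key v v.2
  rw [← h1]
  exact (Submodule.finrank_mono h2).trans (finrank_evH 2)

/-- case (ii). -/
theorem six_quad [CharZero K] (hd : Dat V y) {v₁ : F} (hv₁ : v₁ ∈ V) (hv₁' : v₁ ∉ (phiQ hd).range) :
    finrank K V ≤ 6 := by
  classical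
  have hy0 := y0_ne hd
  have h2F : (2 : F) ≠ 0 := by
    have : CharZero F := charZero_of_injective_algebraMap (algebraMap K F).injective
    exact two_ne_zero
  have hevQ : ∀ r : R3 K, aeval y r ∈ (phiQ hd).range := fun r => ⟨algebraMap _ _ r, phiQ_algebraMap hd r⟩
  have h2Q : (2 : F) ∈ (phiQ hd).range := ⟨2, map_ofNat _ 2⟩
  have hinvQ : ∀ {a : F}, a ∈ (phiQ hd).range → a⁻¹ ∈ (phiQ hd).range := by
    rintro _ ⟨q, rfl⟩
    exact ⟨q⁻¹, map_inv₀ _ _⟩
  have hev1V : ∀ {a : F}, a ∈ evH (K := K) y 1 → a ∈ V := by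
    rintro _ ⟨r, hr, rfl⟩
    have := ev_mem hd.mem hr
    rwa [pow_one] at this
  have hhalf : ∀ {n : ℕ} {a : F}, a ∈ evH (K := K) y n → a / 2 ∈ evH (K := K) y n := by
    intro n a ha
    have := Submodule.smul_mem _ ((2 : K)⁻¹) ha
    rwa [Algebra.smul_def, map_inv₀, map_ofNat, inv_mul_eq_div] at this
  have hevHQ : ∀ {n : ℕ} {a : F}, a ∈ evH (K := K) y n → a ∈ (phiQ hd).range := by
    rintro n _ ⟨r, -, rfl⟩
    exact hevQ r
  -- the trace zero part of an element
  have htr : ∀ v ∈ V, v ∉ (phiQ hd).range → ∃ b ∈ evH (K := K) y 1, v + b ∈ V ∧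
      v + b ∉ (phiQ hd).range ∧ (v + b) ^ 2 ∈ evH (K := K) y 2 := by
    intro v hv hvQ
    obtain ⟨β, γ, hβ, hγ, hrel⟩ := quad_rel hd hv hvQ
    have hb : aeval y β / 2 ∈ evH (K := K) y 1 := hhalf ⟨β, hβ, rfl⟩
    refine ⟨aeval y β / 2, hb, add_mem hv (hev1V hb), ?_, ?_⟩
    · intro h
      apply hvQ
      have := sub_mem h (hevHQ hb)
      rwa [add_sub_cancel_right] at this
    · have h1 : (v + aeval y β / 2) ^ 2 = (aeval y β / 2) * (aeval y β / 2) - aeval y γ := by
        field_simp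
        linear_combination 4 * hrel
      rw [h1]
      exact sub_mem (evH_mul hb hb) ⟨γ, hγ, rfl⟩
  obtain ⟨b₀, hb₀, hw₀V, hw₀Q, hw₀2⟩ := htr v₁ hv₁ hv₁'
  set w₀ := v₁ + b₀ with hw₀
  have hw₀0 : w₀ ≠ 0 := fun h => hw₀Q (h ▸ zero_mem _)
  obtain ⟨γ₀, hγ₀, hγ₀e⟩ := hw₀2
  have hγ₀e : aeval y γ₀ = w₀ ^ 2 := hγ₀e
  -- elements of V in K(y)
  have hlin : ∀ v ∈ V, v ∈ (phiQ hd).range → v ∈ evH (K := K) y 1 := by
    intro v hv hvQ
    have h1 : w₀ + v ∉ (phiQ hd).range := fun h => hw₀Q (by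
      have := sub_mem h hvQ
      rwa [add_sub_cancel_right] at this)
    obtain ⟨β, γ, hβ, hγ, hrel⟩ := quad_rel hd (add_mem hw₀V hv) h1
    have h2 : (2 * v + aeval y β) * w₀ =
        -(aeval y γ₀ + v ^ 2 + aeval y β * v + aeval y γ) := by
      rw [hγ₀e]
      linear_combination hrel
    have h3 : 2 * v + aeval y β = 0 := by
      by_contra hne
      apply hw₀Q
      have h4 : w₀ = -(aeval y γ₀ + v ^ 2 + aeval y β * v + aeval y γ) * (2 * v + aeval y β)⁻¹ := by
        rw [eq_mul_inv_iff_mul_eq₀ hne, mul_comm, h2]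
      rw [h4]
      refine mul_mem (neg_mem ?_) (hinvQ (add_mem (mul_mem h2Q hvQ) (hevQ _)))
      exact add_mem (add_mem (add_mem (hevQ _) (pow_mem hvQ 2)) (mul_mem (hevQ _) hvQ)) (hevQ _)
    have h5 : v = -(aeval y β / 2) := by
      field_simp
      linear_combination h3
    rw [h5]
    exact neg_mem (hhalf ⟨β, hβ, rfl⟩)
  -- products with w₀
  have hprod : ∀ w ∈ V, w ∉ (phiQ hd).range → w ^ 2 ∈ evH (K := K) y 2 →
      w * w₀ ∈ evH (K := K) y 2 := by
    intro w hw hwQ hw2
    obtain ⟨g, hg0, hg⟩ := three_dep hd (s := 1) ![y 0, w₀, w] (by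
      intro k
      rw [pow_one]
      fin_cases k
      · exact hd.mem 0
      · exact hw₀V
      · exact hw)
    rw [Fin.sum_univ_three] at hg
    simp only [Matrix.cons_val_zero, Matrix.cons_val_one, Matrix.cons_val_two, Matrix.tail_cons,
      Matrix.head_cons] at hg
    have hg2 : g 2 ≠ 0 := by
      intro h2
      rw [h2, map_zero, zero_mul, add_zero] at hg
      by_cases h1 : g 1 = 0
      · rw [h1, map_zero, zero_mul, add_zero] at hg
        have h6 := (mul_eq_zero.1 hg).resolve_right hy0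
        have h7 : g 0 = 0 := hd.inj (h6.trans (map_zero _).symm)
        apply hg0
        ext1 k
        fin_cases k
        · exact h7
        · exact h1
        · exact h2
      · apply hw₀Q
        refine ev_div_mem hd h1 (s := -(g 0 * X 0)) ?_
        rw [map_neg, map_mul, aeval_X]
        linear_combination hg
    have he2 := ev_ne hd hg2
    obtain ⟨q₀, q₁, hq₀, hq₁, hwq⟩ : ∃ q₀ q₁, q₀ ∈ (phiQ hd).range ∧ q₁ ∈ (phiQ hd).range ∧
        w = q₀ + q₁ * w₀ := by
      refine ⟨-(aeval y (g 0) * y 0) * (aeval y (g 2))⁻¹, -(aeval y (g 1)) * (aeval y (g 2))⁻¹,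
        ?_, ?_, ?_⟩
      · have : y 0 ∈ (phiQ hd).range := by
          have := hevQ (X 0)
          rwa [aeval_X] at this
        exact mul_mem (neg_mem (mul_mem (hevQ _) this)) (hinvQ (hevQ _))
      · exact mul_mem (neg_mem (hevQ _)) (hinvQ (hevQ _))
      · field_simp
        linear_combination hg
    have hq₀0 : q₀ = 0 := by
      by_contra hne
      have hq₁0 : q₁ ≠ 0 := by
        intro h
        apply hwQ
        rw [hwq, h, zero_mul, add_zero]
        exact hq₀
      apply hw₀Q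
      have h4 : w₀ = (w ^ 2 - q₀ ^ 2 - q₁ ^ 2 * aeval y γ₀) * (2 * q₀ * q₁)⁻¹ := by
        rw [eq_mul_inv_iff_mul_eq₀ (mul_ne_zero (mul_ne_zero h2F hne) hq₁0), hγ₀e, hwq]
        ring
      rw [h4]
      exact mul_mem (sub_mem (sub_mem (hevHQ hw2) (pow_mem hq₀ 2))
        (mul_mem (pow_mem hq₁ 2) (hevQ _))) (hinvQ (mul_mem (mul_mem h2Q hq₀) hq₁))
    rw [hq₀0, zero_add] at hwq
    by_cases hq1 : q₁ = -1
    · rw [hwq, hq1]
      have : (-1 : F) * w₀ * w₀ = -(aeval y γ₀) := by
        rw [hγ₀e]; ring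
      rw [this]
      exact neg_mem ⟨γ₀, hγ₀, rfl⟩
    · have hq1' : q₁ + 1 ≠ 0 := fun h => hq1 (by linear_combination h)
      have hsum : w + w₀ = (q₁ + 1) * w₀ := by rw [hwq]; ring
      have hsumQ : w + w₀ ∉ (phiQ hd).range := by
        intro h
        apply hw₀Q
        have h4 : w₀ = (w + w₀) * (q₁ + 1)⁻¹ := by
          rw [eq_mul_inv_iff_mul_eq₀ hq1', hsum]; ring
        rw [h4]
        exact mul_mem h (hinvQ (add_mem hq₁ (one_mem _)))
      obtain ⟨β, γ, hβ, hγ, hrel⟩ := quad_rel hd (add_mem hw hw₀V) hsumQ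
      have hβ0 : aeval y β = 0 := by
        by_contra hne
        apply hsumQ
        have h4 : w + w₀ = -((q₁ + 1) ^ 2 * aeval y γ₀ + aeval y γ) * (aeval y β)⁻¹ := by
          rw [eq_mul_inv_iff_mul_eq₀ hne, hγ₀e]
          have h5 : (w + w₀) ^ 2 = (q₁ + 1) ^ 2 * w₀ ^ 2 := by rw [hsum]; ring
          linear_combination hrel - h5
        rw [h4]
        exact mul_mem (neg_mem (add_mem (mul_mem (pow_mem (add_mem hq₁ (one_mem _)) 2) (hevQ _))
          (hevQ _))) (hinvQ (hevQ _))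
      have h6 : (w + w₀) ^ 2 = -(aeval y γ) := by
        rw [hβ0] at hrel
        linear_combination hrel
      have h7 : w * w₀ = (-(aeval y γ) - w ^ 2 - w₀ ^ 2) / 2 := by
        rw [← h6]
        field_simp
        ring
      rw [h7]
      refine hhalf (sub_mem (sub_mem (neg_mem ⟨γ, hγ, rfl⟩) hw2) ?_)
      exact ⟨γ₀, hγ₀, hγ₀e⟩
  -- a prime factor of γ₀
  have hγ₀0 : γ₀ ≠ 0 := by
    intro h
    rw [h, map_zero] at hγ₀e
    exact pow_ne_zero 2 hw₀0 hγ₀e.symm
  have hγ₀u : ¬ IsUnit γ₀ := by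
    intro hu
    obtain ⟨c, -, hc⟩ := MvPolynomial.isUnit_iff_eq_C_of_isReduced.1 hu
    have := hγ₀.totalDegree hγ₀0
    rw [hc] at this
    simp at this
  obtain ⟨π, hπ, hπγ⟩ := WfDvdMonoid.exists_irreducible_factor hγ₀u hγ₀0
  have hπp : Prime π := hπ.prime
  have hdegπ : 1 ≤ π.totalDegree := totalDegree_pos hπp.ne_zero hπp.not_isUnit
  set Θ : R3 K →ₗ[K] F := (LinearMap.mulRight K w₀⁻¹) ∘ₗ (aeval y : R3 K →ₐ[K] F).toLinearMap with hΘ
  have hVle : V ≤ evH (K := K) y 1 ⊔ (D π 2).map Θ := by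
    intro v hv
    by_cases hvQ : v ∈ (phiQ hd).range
    · exact Submodule.mem_sup_left (hlin v hv hvQ)
    · obtain ⟨b, hb, hwV, hwQ, hw2⟩ := htr v hv hvQ
      obtain ⟨g, hg, hge⟩ := hprod _ hwV hwQ hw2
      have hge : aeval y g = (v + b) * w₀ := hge
      obtain ⟨g2, hg2, hge2⟩ := hw2
      have hge2 : aeval y g2 = (v + b) ^ 2 := hge2
      have h1 : g ^ 2 = g2 * γ₀ := by
        apply hd.inj
        rw [map_pow, map_mul, hge, hge2, hγ₀e]
        ring
      have h2 : π ∣ g := by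
        have : π ∣ g ^ 2 := by
          rw [h1]
          exact hπγ.mul_left _
        exact hπp.dvd_of_dvd_pow this
      have h3 : v = -b + (v + b) := by ring
      rw [h3]
      refine add_mem (Submodule.mem_sup_left (neg_mem hb)) (Submodule.mem_sup_right ⟨g, ⟨hg, h2⟩, ?_⟩)
      change aeval y g * w₀⁻¹ = v + b
      rw [hge, mul_assoc, mul_inv_cancel₀ hw₀0, mul_one]
  have hfdD : FiniteDimensional K (D π 2) := Submodule.finiteDimensional_of_le (D_le π 2)
  have h1 := Submodule.finrank_mono hVle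
  have h2 := Submodule.finrank_add_le_finrank_add_finrank (evH (K := K) y 1) ((D π 2).map Θ)
  have h3 : finrank K ((D π 2).map Θ) ≤ finrank K (D π 2) := Submodule.finrank_map_le _ _
  have h4 := finrank_D hπp.ne_zero 2
  have h5 : finrank K (D π 2) ≤ 3 := by
    refine h4.trans ?_
    split_ifs
    · have := T_mono (show 2 - π.totalDegree ≤ 1 by omega)
      rwa [T_one] at this
    · omega
  have h6 := finrank_evH (K := K) (y := y) 1
  rw [T_one] at h6
  omega

theorem six [CharZero K] (hd : Dat V y) : finrank K V ≤ 6 := by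
  by_cases h : ∀ v ∈ V, v ∈ (phiQ hd).range
  · exact six_lin hd h
  · push Not at h
    obtain ⟨v, hv, hvQ⟩ := h
    exact six_quad hd hv hvQ

end Pool.Agent.Q81.Ci
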