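import Mathlib

/-! Universal complete intersections over `ℂ`: definitions used in the statement (MP_96c727_ag). -/

namespace Pool.Agent.Q81.CiD

open MvPolynomial

/-- The polynomial ring `S = K[x_0, …, x_N]`. -/
def Pol (K : Type) [Field K] (N : ℕ) : Type := MvPolynomial (Fin (N + 1)) K

noncomputable instance instPolRing (K : Type) [Field K] (N : ℕ) : CommRing (Pol K N) :=
  (inferInstance : CommRing (MvPolynomial (Fin (N + 1)) K))

noncomputable instance instPolAlg (K : Type) [Field K] (N : ℕ) : Algebra K (Pol K N) :=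
  (inferInstance : Algebra K (MvPolynomial (Fin (N + 1)) K))

/-- The space `S_t` of forms of degree `t`. -/
noncomputable def forms (K : Type) [Field K] (N t : ℕ) : Submodule K (Pol K N) :=
  homogeneousSubmodule (Fin (N + 1)) K t

/-- The homogeneous component of degree `t` of `F`. -/
noncomputable def comp {K : Type} [Field K] {N : ℕ} (t : ℕ) (F : Pol K N) : Pol K N :=
  homogeneousComponent (R := K) (σ := Fin (N + 1)) t F

/-- The quotient ring `S/I`. -/
def CR {K : Type} [Field K] {N : ℕ} (I : Ideal (Pol K N)) : Type := Pol K N ⧸ I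

noncomputable instance instCRRing {K : Type} [Field K] {N : ℕ} (I : Ideal (Pol K N)) :
    CommRing (CR I) := (inferInstance : CommRing (Pol K N ⧸ I))

noncomputable instance instCRAlg {K : Type} [Field K] {N : ℕ} (I : Ideal (Pol K N)) :
    Algebra K (CR I) := (inferInstance : Algebra K (Pol K N ⧸ I))

/-- The degree `t` part `(S/I)_t` of `S/I`: the image of `S_t`. -/
noncomputable def CRpart {K : Type} [Field K] {N : ℕ} (I : Ideal (Pol K N)) (t : ℕ) :
    Submodule K (CR I) :=
  (forms K N t).map (Ideal.Quotient.mkₐ K I).toLinearMap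

/-- The Hilbert function `t ↦ dim_K (S/I)_t`. -/
noncomputable def hilbF {K : Type} [Field K] {N : ℕ} (I : Ideal (Pol K N)) (t : ℕ) : ℕ :=
  Module.finrank K (CRpart I t)

/-- An integral closed subvariety `Z` of `P^N_K` of dimension `e` and degree `k`: a homogeneous
prime ideal `I` of `S = K[x_0, …, x_N]` such that `S/I` has transcendence degree `e + 1` over `K`
(so `dim Z = e`) and `dim (S/I)_t ~ k t^e / e!` (so `deg Z = k`). -/
structure IntSub (K : Type) [Field K] (N e k : ℕ) where
  /-- the homogeneous prime ideal of `Z` -/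
  I : Ideal (Pol K N)
  prime : I.IsPrime
  homog : ∀ F ∈ I, ∀ t, comp t F ∈ I
  dim : Algebra.trdeg K (CR I) = (e : Cardinal) + 1
  deg : Filter.Tendsto (fun t : ℕ => (hilbF I t : ℝ) * (e.factorial : ℝ) / (t : ℝ) ^ e)
    Filter.atTop (nhds (k : ℝ))

/-- A closed point of `P^N_K`, given by its residue field `L` (a finite extension of `K`) and
homogeneous coordinates in `L` whose ratios generate `L`. -/
structure ClosedPt (K : Type) [Field K] (N : ℕ) where
  /-- the residue field -/
  L : Type
  [fieldL : Field L]
  [algL : Algebra K L]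
  [finL : FiniteDimensional K L]
  /-- homogeneous coordinates -/
  x : Fin (N + 1) → L
  ne_zero : x ≠ 0
  gen : IntermediateField.adjoin K {z : L | ∃ i j, x j ≠ 0 ∧ z = x i / x j} = ⊤

attribute [instance] ClosedPt.fieldL ClosedPt.algL ClosedPt.finL

/-- The degree `[κ(P) : K]` of a closed point. -/
noncomputable def ClosedPt.degree {K : Type} [Field K] {N : ℕ} (P : ClosedPt K N) : ℕ :=
  Module.finrank K P.L

/-- A form (polynomial) vanishes at the closed point. -/
def ClosedPt.Vanish {K : Type} [Field K] {N : ℕ} (P : ClosedPt K N) (F : Pol K N) : Prop :=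
  aeval (R := K) P.x F = 0

/-- The closed point `P` lies on `Z`. -/
def IntSub.Contains {K : Type} [Field K] {N e k : ℕ} (Z : IntSub K N e k) (P : ClosedPt K N) :
    Prop := ∀ F ∈ Z.I, P.Vanish F

/-- Two closed points are the same point of `P^N_K`: the same forms vanish at them. -/
def ClosedPt.Same {K : Type} [Field K] {N : ℕ} (P Q : ClosedPt K N) : Prop :=
  ∀ (t : ℕ) (F : Pol K N), F ∈ forms K N t → (P.Vanish F ↔ Q.Vanish F)

/-- `m` is an exponent vector of degree `d i` different from the one of `x_0 ^ (d i)`. -/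
def IsIdx {N e : ℕ} (d : Fin e → ℕ) (i : Fin e) (m : Fin (N + 1) →₀ ℕ) : Prop :=
  m.degree = d i ∧ m ≠ Finsupp.single 0 (d i)

/-- Indices `(i, m)` of the free coefficients of the `e` universal forms of degrees `d i` in the
variables `x_0, …, x_N`. -/
def Coef (N : ℕ) {e : ℕ} (d : Fin e → ℕ) : Type :=
  {q : Fin e × (Fin (N + 1) →₀ ℕ) // IsIdx d q.1 q.2}

/-- The function field `K = ℂ(B)` of `B = ∏ P(H^0(P^N, O(d i)))`: rational functions in the
coefficients, the coefficient of `x_0 ^ (d i)` in the `i`-th form being normalised to `1`. -/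
def KB (N : ℕ) {e : ℕ} (d : Fin e → ℕ) : Type := FractionRing (MvPolynomial (Coef N d) ℂ)

noncomputable instance instKB (N : ℕ) {e : ℕ} (d : Fin e → ℕ) : Field (KB N d) :=
  (inferInstance : Field (FractionRing (MvPolynomial (Coef N d) ℂ)))

/-- The indeterminate of `K` with index `j`. -/
noncomputable def indet {N : ℕ} {e : ℕ} {d : Fin e → ℕ} (j : Coef N d) : KB N d :=
  algebraMap (MvPolynomial (Coef N d) ℂ) (FractionRing (MvPolynomial (Coef N d) ℂ)) (X j)

open Classical in
/-- The coefficient of the monomial with exponent vector `m` in the `i`-th universal form: `1` for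
`x_0 ^ (d i)`, an independent indeterminate for the other monomials of degree `d i`. -/
noncomputable def coef (N : ℕ) {e : ℕ} (d : Fin e → ℕ) (i : Fin e) (m : Fin (N + 1) →₀ ℕ) :
    KB N d :=
  if h : IsIdx d i m then indet ⟨(i, m), h⟩ else if m = Finsupp.single 0 (d i) then 1 else 0

/-- The monomial `a x^m`. -/
noncomputable def term {K : Type} [Field K] {N : ℕ} (m : Fin (N + 1) →₀ ℕ) (a : K) : Pol K N :=
  monomial m a

/-- The `i`-th universal form, of degree `d i`, over `K = ℂ(B)`. -/
noncomputable def uform (N : ℕ) {e : ℕ} (d : Fin e → ℕ) (i : Fin e) : Pol (KB N d) N :=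
  ∑ m ∈ (Finset.univ : Finset (Fin (N + 1))).finsuppAntidiag (d i), term m (coef N d i m)

/-- `P` lies on the universal complete intersection `X` of type `d`. -/
def ClosedPt.OnX {N e : ℕ} {d : Fin e → ℕ} (P : ClosedPt (KB N d) N) : Prop :=
  ∀ i, P.Vanish (uform N d i)

/-- `P` arises from a complete intersection with a degree `k` variety of dimension `e`: some
integral closed subvariety `Z` of dimension `e` and degree `k` satisfies `Z ∩ X = {P}` as sets
(of closed points). -/
def ClosedPt.Arises {N e : ℕ} {d : Fin e → ℕ} (P : ClosedPt (KB N d) N) (k : ℕ) : Prop :=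
  ∃ Z : IntSub (KB N d) N e k, ∀ Q : ClosedPt (KB N d) N, (Z.Contains Q ∧ Q.OnX) ↔ Q.Same P

end Pool.Agent.Q81.CiD
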