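import Mathlib

/-! Universal complete intersections over `ℂ`: definitions (MP_96c727_ag). -/

namespace Pool.Agent.Q81.Ci

open MvPolynomial

/-- Indices of the free coefficients of the `e` universal forms of degrees `d i` in the variables
`x_0, …, x_N`: pairs `(i, m)` with `m` an exponent vector of degree `d i` different from the one of
`x_0 ^ (d i)`. -/
def Coef (N : ℕ) {e : ℕ} (d : Fin e → ℕ) : Type :=
  {q : Fin e × (Fin (N + 1) →₀ ℕ) // q.2.degree = d q.1 ∧ q.2 ≠ Finsupp.single 0 (d q.1)}

/-- The function field `K = ℂ(B)` of `B = ∏ P(H^0(P^N, O(d i)))`: rational functions in the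
coefficients, the coefficient of `x_0 ^ (d i)` in the `i`-th form being normalised to `1`. -/
abbrev KB (N : ℕ) {e : ℕ} (d : Fin e → ℕ) : Type := FractionRing (MvPolynomial (Coef N d) ℂ)

open Classical in
/-- The coefficient of the monomial with exponent vector `m` in the `i`-th universal form: `1` for
`x_0 ^ (d i)`, an independent indeterminate for the other monomials of degree `d i`. -/
noncomputable def coef (N : ℕ) {e : ℕ} (d : Fin e → ℕ) (i : Fin e) (m : Fin (N + 1) →₀ ℕ) :
    KB N d :=
  if h : m.degree = d i ∧ m ≠ Finsupp.single 0 (d i) then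
    algebraMap (MvPolynomial (Coef N d) ℂ) (KB N d) (X ⟨(i, m), h⟩)
  else if m = Finsupp.single 0 (d i) then 1 else 0

/-- The `i`-th universal form, of degree `d i`, over `K = ℂ(B)`. -/
noncomputable def uform (N : ℕ) {e : ℕ} (d : Fin e → ℕ) (i : Fin e) :
    MvPolynomial (Fin (N + 1)) (KB N d) :=
  ∑ m ∈ (Finset.univ : Finset (Fin (N + 1))).finsuppAntidiag (d i), monomial m (coef N d i m)

/-- A closed point of `P^N_K`, given by its residue field `L` (a finite extension of `K`) and
homogeneous coordinates in `L` whose ratios generate `L`. -/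
structure ClosedPt (K : Type) [Field K] (N : ℕ) where
  /-- the residue field -/
  L : Type
  [fieldL : Field L]
  [algL : Algebra K L]
  [finL : FiniteDimensional K L]
  /-- homogeneous coordinates -/
  x : Fin (N + 1) → L
  ne_zero : x ≠ 0
  gen : IntermediateField.adjoin K {z : L | ∃ i j, x j ≠ 0 ∧ z = x i / x j} = ⊤

attribute [instance] ClosedPt.fieldL ClosedPt.algL ClosedPt.finL

/-- The degree `[κ(P) : K]` of a closed point. -/
noncomputable def ClosedPt.degree {K : Type} [Field K] {N : ℕ} (P : ClosedPt K N) : ℕ :=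
  Module.finrank K P.L

/-- A form (polynomial) vanishes at the closed point. -/
def ClosedPt.Vanish {K : Type} [Field K] {N : ℕ} (P : ClosedPt K N)
    (F : MvPolynomial (Fin (N + 1)) K) : Prop := aeval P.x F = 0

/-- `P` lies on the universal complete intersection `X` of type `d`. -/
def ClosedPt.OnX {N e : ℕ} {d : Fin e → ℕ} (P : ClosedPt (KB N d) N) : Prop :=
  ∀ i, P.Vanish (uform N d i)

/-- The Hilbert function `t ↦ dim_K (S/I)_t` of a (homogeneous) ideal `I` of `S = K[x_0, …, x_N]`:
the dimension of the image in `S/I` of the space of forms of degree `t`. -/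
noncomputable def hilbF {K : Type} [Field K] {N : ℕ} (I : Ideal (MvPolynomial (Fin (N + 1)) K))
    (t : ℕ) : ℕ :=
  Module.finrank K ((homogeneousSubmodule (Fin (N + 1)) K t).map
    (Ideal.Quotient.mkₐ K I).toLinearMap)

/-- An integral closed subvariety `Z` of `P^N_K` of dimension `e` and degree `k`: a homogeneous
prime ideal `I` of `S = K[x_0, …, x_N]` such that `S/I` has transcendence degree `e + 1` over `K`
(so `dim Z = e`) and `dim (S/I)_t ~ k t^e / e!` (so `deg Z = k`). -/
structure IntSub (K : Type) [Field K] (N e k : ℕ) where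
  /-- the homogeneous prime ideal of `Z` -/
  I : Ideal (MvPolynomial (Fin (N + 1)) K)
  prime : I.IsPrime
  homog : ∀ F ∈ I, ∀ t, homogeneousComponent t F ∈ I
  dim : Algebra.trdeg K (MvPolynomial (Fin (N + 1)) K ⧸ I) = (e : Cardinal) + 1
  deg : Filter.Tendsto (fun t : ℕ => (hilbF I t : ℝ) * (e.factorial : ℝ) / (t : ℝ) ^ e)
    Filter.atTop (nhds (k : ℝ))

/-- The closed point `P` lies on `Z`. -/
def IntSub.Contains {K : Type} [Field K] {N e k : ℕ} (Z : IntSub K N e k) (P : ClosedPt K N) :
    Prop := ∀ F ∈ Z.I, P.Vanish F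

/-- Two closed points are the same point of `P^N_K`: the same forms vanish at them. -/
def ClosedPt.Same {K : Type} [Field K] {N : ℕ} (P Q : ClosedPt K N) : Prop :=
  ∀ (F : MvPolynomial (Fin (N + 1)) K) (t : ℕ), F.IsHomogeneous t → (P.Vanish F ↔ Q.Vanish F)

/-- `P` arises from a complete intersection with a degree `k` variety of dimension `e`: some
integral closed subvariety `Z` of dimension `e` and degree `k` satisfies `Z ∩ X = {P}` as sets
(of closed points). -/
def ClosedPt.Arises {N e : ℕ} {d : Fin e → ℕ} (P : ClosedPt (KB N d) N) (k : ℕ) : Prop :=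
  ∃ Z : IntSub (KB N d) N e k, ∀ Q : ClosedPt (KB N d) N, (Z.Contains Q ∧ Q.OnX) ↔ Q.Same P

end Pool.Agent.Q81.Ci
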