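import Pool.Agent.Q81.CiFrame

/-! Intersection of the isotropic line with the second hypersurface (MP_96c727_ag). -/

namespace Pool.Agent.Q81.Ci

open IntermediateField Polynomial Module

theorem gp_split {N : ℕ} {E : Type*} [CommRing E] (D : ℕ) (c : (Fin (N + 1) →₀ ℕ) → E)
    (v w : Fin (N + 1) → E) (i : Fin (N + 1)) (hi : v i = 0) :
    gp D c v w = gp D (fun m => if m = Finsupp.single i D then 0 else c m) v w +
      C (c (Finsupp.single i D)) * (C (w i) * X) ^ D := by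
  have h1 := split_sum D (fun m => C (c m)) (fun i => C (v i) + C (w i) * X) i
  simp only [hi, map_zero, zero_add] at h1
  unfold gp
  rw [h1]
  congr 1
  refine Finset.sum_congr rfl fun m _ => ?_
  congr 1
  by_cases h : m = Finsupp.single i D
  · simp only [if_pos h, map_zero]
  · simp only [if_neg h]

section
variable {N D : ℕ}

/-- The index of the coefficient of `x_a ^ D` in the second form. -/
noncomputable def fi (hD : D ≠ 0) (a : Fin (N + 1)) (ha : a ≠ 0) : Coef N (dd D) :=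
  ⟨(1, Finsupp.single a D), by
    refine ⟨?_, ?_⟩
    · rw [Finsupp.degree_single]
      rfl
    · intro h
      change Finsupp.single a D = Finsupp.single 0 D at h
      exact ha (Finsupp.single_left_injective hD h)⟩

theorem cf_fi (hD : D ≠ 0) (a : Fin (N + 1)) (ha : a ≠ 0) :
    cf N D 1 (Finsupp.single a D) = cc _ (fi hD a ha) :=
  cf_valid (fi hD a ha).2

theorem cf_mem_compl (hD : D ≠ 0) (a : Fin (N + 1)) (ha : a ≠ 0) (m : Fin (N + 1) →₀ ℕ) :
    (if m = Finsupp.single a D then 0 else cf N D 1 m) ∈ Lam {fi hD a ha}ᶜ := by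
  split_ifs with h
  · exact zero_mem _
  · refine cf_mem fun hv hv2 => h ?_
    have := Set.mem_singleton_iff.1 hv2
    have h2 := congrArg (fun q : Coef N (dd D) => q.1.2) this
    exact h2

theorem Sq_sub (hD : D ≠ 0) (a : Fin (N + 1)) (ha : a ≠ 0) :
    Sq (N := N) (D := D) ⊆ {fi hD a ha}ᶜ := by
  intro q hq hq2
  rw [Set.mem_singleton_iff.1 hq2] at hq
  have h : (1 : Fin 2) = 0 := hq
  exact absurd h (by decide)

theorem fval_ne {v : Fin (N + 1) → OO (Coef N (dd D))} (hv : ∀ i, v i ∈ Lam (Sq (N := N) (D := D)))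
    (hD : D ≠ 0) (a : Fin (N + 1)) (ha : a ≠ 0) (hva : v a ≠ 0) :
    ∑ m ∈ (Finset.univ : Finset (Fin (N + 1))).finsuppAntidiag D,
      cf N D 1 m * ∏ k, v k ^ (m k) ≠ 0 := by
  intro h
  rw [split_sum D (cf N D 1) v a, cf_fi hD a ha] at h
  apply cc_not_mem (S := {fi hD a ha}ᶜ) (j := fi hD a ha) (by simp)
  have h1 : cc _ (fi hD a ha) =
      -(∑ m ∈ (Finset.univ : Finset (Fin (N + 1))).finsuppAntidiag D,
        (if m = Finsupp.single a D then 0 else cf N D 1 m) * ∏ k, v k ^ (m k)) / v a ^ D := by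
    rw [eq_div_iff (pow_ne_zero _ hva)]
    linear_combination h
  rw [h1]
  have hv' : ∀ i, v i ∈ Lam {fi hD a ha}ᶜ := fun i => Lam_mono (Sq_sub hD a ha) (hv i)
  refine div_mem (neg_mem (sum_mem fun m _ => mul_mem (cf_mem_compl hD a ha m)
    (prod_mem fun k _ => pow_mem (hv' k) _))) (pow_mem (hv' a) _)

theorem fpart {v w : Fin (N + 1) → OO (Coef N (dd D))}
    (hv : ∀ i, v i ∈ Lam (Sq (N := N) (D := D))) (hw : ∀ i, w i ∈ Lam (Sq (N := N) (D := D)))
    (hD : D ≠ 0) (a4 a6 : Fin (N + 1)) (h4 : a4 ≠ 0) (h6 : a6 ≠ 0) (hv4 : v a4 ≠ 0)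
    (hv6 : v a6 = 0) (hw6 : w a6 ≠ 0) :
    gp D (cf N D 1) v w ≠ 0 ∧ ∃ τ, (gp D (cf N D 1) v w).eval τ = 0 ∧
      ∀ z : ℕ → OO (Coef N (dd D)), (∀ l, z l ∈
        IntermediateField.adjoin (Lam ({fi hD a6 h6}ᶜ : Set (Coef N (dd D)))) {cc _ (fi hD a6 h6)}) →
      ∑ l ∈ Finset.range D, z l * τ ^ l = 0 → ∀ l < D, z l = 0 := by
  set T := fi (N := N) (D := D) hD a6 h6 with hT
  set Λ := Lam ({T}ᶜ : Set (Coef N (dd D))) with hΛ
  have hv' : ∀ i, v i ∈ Λ := fun i => Lam_mono (Sq_sub hD a6 h6) (hv i)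
  have hw' : ∀ i, w i ∈ Λ := fun i => Lam_mono (Sq_sub hD a6 h6) (hw i)
  set c0 : (Fin (N + 1) →₀ ℕ) → OO (Coef N (dd D)) :=
    fun m => if m = Finsupp.single a6 D then 0 else cf N D 1 m with hc0
  set g0 : Λ[X] := gp D (fun m => (⟨c0 m, cf_mem_compl hD a6 h6 m⟩ : Λ))
    (fun i => ⟨v i, hv' i⟩) (fun i => ⟨w i, hw' i⟩) with hg0
  have hg0map : g0.map (algebraMap Λ (OO (Coef N (dd D)))) = gp D c0 v w := by
    rw [hg0, gp_map]
    rfl
  have hsplit : gp D (cf N D 1) v w = gp D c0 v w + C (cc _ T) * (C (w a6) * X) ^ D := by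
    rw [gp_split D (cf N D 1) v w a6 hv6, cf_fi hD a6 h6]
  have hTnot : cc _ T ∉ Λ := cc_not_mem (by simp)
  have hcoefD : (gp D (cf N D 1) v w).coeff D ≠ 0 := by
    intro h
    apply hTnot
    rw [hsplit, coeff_add, coeff_C_mul, mul_pow, ← C_pow, coeff_C_mul, coeff_X_pow, if_pos rfl,
      mul_one, ← hg0map, coeff_map] at h
    have h1 : cc _ T = -(algebraMap Λ (OO (Coef N (dd D))) (g0.coeff D)) / (w a6 ^ D) := by
      rw [eq_div_iff (pow_ne_zero _ hw6)]
      linear_combination h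
    rw [h1]
    exact div_mem (neg_mem (g0.coeff D).2) (pow_mem (hw' _) _)
  have hg0c : g0.coeff 0 ≠ 0 := by
    intro h
    have h1 : (gp D c0 v w).coeff 0 = 0 := by
      rw [← hg0map, coeff_map, h, map_zero]
    rw [gp_coeff_zero] at h1
    have h2 := fval_ne hv hD a4 h4 hv4
    apply h2
    rw [split_sum D (cf N D 1) v a6, hv6, zero_pow hD, mul_zero, add_zero]
    exact h1
  have hdeg : (gp D (cf N D 1) v w).degree ≠ 0 := by
    intro h
    have h1 := le_natDegree_of_ne_zero hcoefD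
    rw [natDegree_eq_zero_iff_degree_le_zero.2 h.le] at h1
    omega
  obtain ⟨τ, hτ⟩ := IsAlgClosed.exists_root _ hdeg
  refine ⟨fun h => hcoefD (by rw [h, coeff_zero]), τ, hτ, ?_⟩
  intro z hz hrel
  have hc : (⟨w a6 ^ D, pow_mem (hw' _) _⟩ : Λ) ≠ 0 := fun h =>
    pow_ne_zero D hw6 (congrArg Subtype.val h)
  refine indep Λ (tr_Lam (by simp)) hg0c hc (Nat.pos_of_ne_zero hD) (T := cc _ T) (τ := τ) ?_ z hz hrel
  have h1 : aeval τ g0 = (gp D c0 v w).eval τ := by
    rw [← hg0map, aeval_def, eval₂_eq_eval_map]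
  have h2 := hτ
  rw [IsRoot.def, hsplit, eval_add, eval_mul, eval_C, eval_pow, eval_mul, eval_C, eval_X] at h2
  rw [h1, ← mul_pow]
  exact h2

end

end Pool.Agent.Q81.Ci
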