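import Pool.Agent.Q81.CiDefs

/-! The universal quadratic form as a Gram matrix (MP_96c727_ag). -/

namespace Pool.Agent.Q81.Ci

open MvPolynomial

section
variable {N : ℕ}

theorem deg_two {m : Fin (N + 1) →₀ ℕ} (hm : m.degree = 2) :
    ∃ a b, Finsupp.single a 1 + Finsupp.single b 1 = m := by
  have key : ∀ (k : ℕ) (m : Fin (N + 1) →₀ ℕ), m.degree = k + 1 →
      ∃ a, ∃ m' : Fin (N + 1) →₀ ℕ, Finsupp.single a 1 + m' = m ∧ m'.degree = k := by
    intro k m hm
    have h0 : m ≠ 0 := by
      rintro rfl
      simp at hm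
    obtain ⟨a, ha⟩ := Finsupp.support_nonempty_iff.2 h0
    have h1 : Finsupp.single a 1 ≤ m := by
      rw [Finsupp.single_le_iff]
      exact Nat.one_le_iff_ne_zero.2 (Finsupp.mem_support_iff.1 ha)
    refine ⟨a, m - Finsupp.single a 1, add_tsub_cancel_of_le h1, ?_⟩
    have h2 := congrArg Finsupp.degree (add_tsub_cancel_of_le h1)
    rw [map_add, Finsupp.degree_single, hm] at h2
    omega
  obtain ⟨a, m', h1, h2⟩ := key 1 m hm
  obtain ⟨b, m'', h3, h4⟩ := key 0 m' h2
  have h5 : m'' = 0 := (Finsupp.degree_eq_zero_iff _).1 h4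
  refine ⟨a, b, ?_⟩
  rw [← h1, ← h3, h5, add_zero]

theorem quad_sum {A : Type*} [Field A] [CharZero A] (c : (Fin (N + 1) →₀ ℕ) → A)
    (x : Fin (N + 1) → A) :
    ∑ m ∈ (Finset.univ : Finset (Fin (N + 1))).finsuppAntidiag 2, c m * ∏ i, x i ^ m i =
      ∑ a, ∑ b, (if a = b then c (Finsupp.single a 1 + Finsupp.single b 1)
        else c (Finsupp.single a 1 + Finsupp.single b 1) / 2) * x a * x b := by
  classical
  rw [← Finset.sum_product' Finset.univ Finset.univ (fun a b =>
    (if a = b then c (Finsupp.single a 1 + Finsupp.single b 1)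
        else c (Finsupp.single a 1 + Finsupp.single b 1) / 2) * x a * x b)]
  rw [← Finset.sum_fiberwise_of_maps_to (s := Finset.univ ×ˢ Finset.univ)
    (t := (Finset.univ : Finset (Fin (N + 1))).finsuppAntidiag 2)
    (g := fun p : Fin (N + 1) × Fin (N + 1) => Finsupp.single p.1 1 + Finsupp.single p.2 1)]
  · refine Finset.sum_congr rfl fun m hm => ?_
    have hm2 : m.degree = 2 := by
      rw [Finset.mem_finsuppAntidiag] at hm
      rw [Finsupp.degree_eq_sum]
      exact hm.1
    obtain ⟨a, b, rfl⟩ := deg_two hm2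
    have hprod : ∏ i, x i ^ (Finsupp.single a 1 + Finsupp.single b 1 : Fin (N + 1) →₀ ℕ) i =
        x a * x b := by
      simp only [Finsupp.add_apply, pow_add, Finset.prod_mul_distrib]
      congr 1 <;>
      · simp [Finsupp.single_apply]
    rw [hprod]
    have hfib : (Finset.univ ×ˢ Finset.univ : Finset (Fin (N + 1) × Fin (N + 1))).filter
        (fun p => Finsupp.single p.1 1 + Finsupp.single p.2 1 =
          (Finsupp.single a 1 + Finsupp.single b 1 : Fin (N + 1) →₀ ℕ)) = {(a, b), (b, a)} := by
      ext ⟨p, q⟩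
      simp only [Finset.mem_filter, Finset.mem_product, Finset.mem_univ, true_and,
        Finset.mem_insert, Finset.mem_singleton, Prod.mk.injEq]
      rw [Finsupp.single_add_single_eq_single_add_single one_ne_zero one_ne_zero]
      simp
    rw [hfib]
    by_cases hab : a = b
    · subst hab
      simp
      ring
    · rw [Finset.sum_pair (by simp only [ne_eq, Prod.mk.injEq, not_and]; exact fun h => absurd h hab)]
      rw [if_neg hab, if_neg (Ne.symm hab), add_comm (Finsupp.single b 1) (Finsupp.single a 1)]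
      ring
  · intro p _
    rw [Finset.mem_finsuppAntidiag]
    refine ⟨?_, Finset.subset_univ _⟩
    rw [← Finsupp.degree_eq_sum, map_add, Finsupp.degree_single, Finsupp.degree_single]

end

end Pool.Agent.Q81.Ci
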