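import Mathlib

/-! Transcendence tools (MP_96c727_ag). -/

namespace Pool.Agent.Q81.Ci

open IntermediateField

section
variable (σ : Type)

/-- The function field. -/
abbrev KK := FractionRing (MvPolynomial σ ℂ)

/-- Its algebraic closure. -/
abbrev OO := AlgebraicClosure (KK σ)

/-- The indeterminates in the algebraic closure. -/
noncomputable def cc (j : σ) : OO σ :=
  algebraMap (KK σ) (OO σ) (algebraMap (MvPolynomial σ ℂ) (KK σ) (MvPolynomial.X j))

theorem algInd : AlgebraicIndependent ℂ (cc σ) := by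
  have h1 := (MvPolynomial.algebraicIndependent_X σ ℂ).map'
    (f := (IsScalarTower.toAlgHom ℂ (KK σ) (OO σ)).comp
      (IsScalarTower.toAlgHom ℂ (MvPolynomial σ ℂ) (KK σ))) (by
      intro a b hab
      exact IsFractionRing.injective (MvPolynomial σ ℂ) (KK σ)
        ((algebraMap (KK σ) (OO σ)).injective hab))
  exact h1

variable {σ}

/-- The relative algebraic closure in `Ω` of the subfield generated over `ℂ` by the indeterminates
in `S`. -/
noncomputable def Lam (S : Set σ) : Subfield (OO σ) :=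
  (algebraicClosure (IntermediateField.adjoin ℂ (cc σ '' S)) (OO σ)).toSubfield

theorem mem_Lam {S : Set σ} {z : OO σ} :
    z ∈ Lam S ↔ IsAlgebraic (IntermediateField.adjoin ℂ (cc σ '' S)) z :=
  mem_algebraicClosure_iff

theorem cc_mem {S : Set σ} {j : σ} (hj : j ∈ S) : cc σ j ∈ Lam S := by
  rw [mem_Lam]
  exact isAlgebraic_algebraMap (⟨cc σ j, subset_adjoin ℂ _ ⟨j, hj, rfl⟩⟩ :
    IntermediateField.adjoin ℂ (cc σ '' S))

theorem const_mem (S : Set σ) (a : ℂ) : algebraMap ℂ (OO σ) a ∈ Lam S := by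
  rw [mem_Lam]
  exact isAlgebraic_algebraMap (algebraMap ℂ (IntermediateField.adjoin ℂ (cc σ '' S)) a)

theorem Lam_mono {S S' : Set σ} (h : S ⊆ S') : Lam S ≤ Lam S' := by
  intro z hz
  rw [mem_Lam] at hz ⊢
  have hle : IntermediateField.adjoin ℂ (cc σ '' S) ≤ IntermediateField.adjoin ℂ (cc σ '' S') :=
    IntermediateField.adjoin.mono _ _ _ (Set.image_mono h)
  letI : Algebra (IntermediateField.adjoin ℂ (cc σ '' S)) (IntermediateField.adjoin ℂ (cc σ '' S')) :=
    (IntermediateField.inclusion hle).toRingHom.toAlgebra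
  haveI : IsScalarTower (IntermediateField.adjoin ℂ (cc σ '' S))
    (IntermediateField.adjoin ℂ (cc σ '' S')) (OO σ) := IsScalarTower.of_algebraMap_eq fun _ => rfl
  exact hz.tower_top _

theorem tr_aux {S : Set σ} {j : σ} (hj : j ∉ S) :
    Transcendental (IntermediateField.adjoin ℂ (cc σ '' S)) (cc σ j) := by
  rw [IntermediateField.transcendental_adjoin_iff]
  exact (algInd σ).transcendental_adjoin hj

theorem cc_not_mem {S : Set σ} {j : σ} (hj : j ∉ S) : cc σ j ∉ Lam S := by
  rw [mem_Lam]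
  exact tr_aux hj

theorem mem_Lam_of_isAlgebraic {S : Set σ} {z : OO σ} (h : IsAlgebraic (Lam S) z) : z ∈ Lam S := by
  rw [mem_Lam]
  by_contra h1
  have h2 : Transcendental (algebraicClosure (IntermediateField.adjoin ℂ (cc σ '' S)) (OO σ)) z :=
    Transcendental.algebraicClosure h1
  exact h2 h

theorem tr_Lam {S : Set σ} {j : σ} (hj : j ∉ S) : Transcendental (Lam S) (cc σ j) := fun h =>
  cc_not_mem hj (mem_Lam_of_isAlgebraic h)

theorem sq_mem {S : Set σ} {z : OO σ} (h : z ^ 2 ∈ Lam S) : z ∈ Lam S := by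
  apply mem_Lam_of_isAlgebraic
  refine ⟨Polynomial.X ^ 2 - Polynomial.C ⟨z ^ 2, h⟩, Polynomial.X_pow_sub_C_ne_zero (by norm_num) _,
    ?_⟩
  simp only [map_sub, map_pow, Polynomial.aeval_X, Polynomial.aeval_C]
  exact sub_self _

/-- `K ⊆ Λ(T)`. -/
theorem K_mem (j : σ) (z : KK σ) :
    algebraMap (KK σ) (OO σ) z ∈ IntermediateField.adjoin (Lam ({j}ᶜ : Set σ)) {cc σ j} := by
  have h1 : ∀ p : MvPolynomial σ ℂ, algebraMap (KK σ) (OO σ) (algebraMap (MvPolynomial σ ℂ) (KK σ) p) ∈
      IntermediateField.adjoin (Lam ({j}ᶜ : Set σ)) {cc σ j} := by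
    intro p
    induction p using MvPolynomial.induction_on with
    | C a =>
      have h2 := const_mem ({j}ᶜ : Set σ) a
      have h3 := (IntermediateField.adjoin (Lam ({j}ᶜ : Set σ)) {cc σ j}).algebraMap_mem
        ⟨_, h2⟩
      have h4 : algebraMap (KK σ) (OO σ) (algebraMap (MvPolynomial σ ℂ) (KK σ) (MvPolynomial.C a)) =
          algebraMap ℂ (OO σ) a := by
        rw [IsScalarTower.algebraMap_apply ℂ (KK σ) (OO σ),
          IsScalarTower.algebraMap_apply ℂ (MvPolynomial σ ℂ) (KK σ)]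
        rfl
      rw [h4]
      exact h3
    | add p q hp hq =>
      rw [map_add, map_add]
      exact add_mem hp hq
    | mul_X p i hp =>
      rw [map_mul, map_mul]
      refine mul_mem hp ?_
      change cc σ i ∈ _
      by_cases hij : i = j
      · subst hij
        exact IntermediateField.mem_adjoin_simple_self _ _
      · exact (IntermediateField.adjoin (Lam ({j}ᶜ : Set σ)) {cc σ j}).algebraMap_mem
          ⟨_, cc_mem (S := ({j}ᶜ : Set σ)) hij⟩
  obtain ⟨a, b, _, rfl⟩ := IsFractionRing.div_surjective (A := MvPolynomial σ ℂ) z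
  rw [map_div₀]
  exact div_mem (h1 a) (h1 b)

end

section
variable {Ω : Type*} [Field Ω]

theorem adj_mem {F : Type*} [Field F] [Algebra F Ω] (W : Subfield Ω) (hF : ∀ z : F,
    algebraMap F Ω z ∈ W) {s : Ω} (hs : s ∈ W) {z : Ω} (hz : z ∈ IntermediateField.adjoin F {s}) :
    z ∈ W := by
  induction hz using IntermediateField.adjoin_induction with
  | mem x hx =>
    rw [Set.mem_singleton_iff.1 hx]
    exact hs
  | algebraMap x => exact hF x
  | add x y hx hy h1 h2 => exact add_mem h1 h2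
  | inv x hx h1 => exact inv_mem h1
  | mul x y hx hy h1 h2 => exact mul_mem h1 h2

/-- `T - r` is not `κ` times a square in `Λ(T)`. -/
theorem nonsq (Λ : Subfield Ω) {T : Ω} (hT : Transcendental Λ T) {r κ : Ω} (hr : r ∈ Λ)
    (hκ : κ ∈ Λ) {z : Ω} (hz : z ∈ IntermediateField.adjoin Λ {T}) : T - r ≠ κ * z ^ 2 := by
  intro h
  rw [IntermediateField.mem_adjoin_simple_iff] at hz
  obtain ⟨p, q, rfl⟩ := hz
  have hTi : Function.Injective (Polynomial.aeval (R := Λ) T) :=
    transcendental_iff_injective.1 hT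
  have hne : T - r ≠ 0 := by
    intro h1
    apply hT
    rw [sub_eq_zero.1 h1]
    exact isAlgebraic_algebraMap (⟨r, hr⟩ : Λ)
  have hq : Polynomial.aeval T q ≠ 0 := by
    intro h1
    rw [h1, div_zero] at h
    simp only [ne_eq, OfNat.ofNat_ne_zero, not_false_eq_true, zero_pow, mul_zero] at h
    exact hne h
  have hκ0 : κ ≠ 0 := by
    intro h1
    rw [h1, zero_mul] at h
    exact hne h
  have hp : Polynomial.aeval T p ≠ 0 := by
    intro h1
    rw [h1, zero_div] at h
    simp only [ne_eq, OfNat.ofNat_ne_zero, not_false_eq_true, zero_pow, mul_zero] at h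
    exact hne h
  have h2 : (T - r) * (Polynomial.aeval T q) ^ 2 = κ * (Polynomial.aeval T p) ^ 2 := by
    rw [h]
    field_simp
  have h3 : (Polynomial.X - Polynomial.C (⟨r, hr⟩ : Λ)) * q ^ 2 =
      Polynomial.C (⟨κ, hκ⟩ : Λ) * p ^ 2 := by
    apply hTi
    simp only [map_mul, map_sub, map_pow, Polynomial.aeval_X, Polynomial.aeval_C]
    exact h2
  have hq0 : q ≠ 0 := fun h => hq (by rw [h, map_zero])
  have hp0 : p ≠ 0 := fun h => hp (by rw [h, map_zero])
  have h4 := congrArg Polynomial.natDegree h3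
  have hκ1 : (⟨κ, hκ⟩ : Λ) ≠ 0 := fun h => hκ0 (congrArg Subtype.val h)
  rw [Polynomial.natDegree_mul (Polynomial.X_sub_C_ne_zero _) (pow_ne_zero _ hq0),
    Polynomial.natDegree_X_sub_C, Polynomial.natDegree_pow, Polynomial.natDegree_C_mul hκ1,
    Polynomial.natDegree_pow] at h4
  omega

end

end Pool.Agent.Q81.Ci
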