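import Pool.Agent.Q81.CiAlg
import Pool.Agent.Q81.CiTr
import Pool.Agent.Q81.CiQuad

/-! The orthogonal frame of the universal quadratic form (MP_96c727_ag). -/

namespace Pool.Agent.Q81.Ci

section
variable {N D : ℕ}

/-- The type `(2, D)`. -/
abbrev dd (D : ℕ) : Fin 2 → ℕ := ![2, D]

variable (N D) in
/-- A coefficient, in the algebraic closure. -/
noncomputable def cf (i : Fin 2) (m : Fin (N + 1) →₀ ℕ) : OO (Coef N (dd D)) :=
  algebraMap (KB N (dd D)) (OO (Coef N (dd D))) (coef N (dd D) i m)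

theorem cf_valid {i : Fin 2} {m : Fin (N + 1) →₀ ℕ}
    (h : m.degree = dd D i ∧ m ≠ Finsupp.single 0 (dd D i)) :
    cf N D i m = cc (Coef N (dd D)) ⟨(i, m), h⟩ := by
  unfold cf coef
  rw [dif_pos h]
  rfl

theorem cf_mem {i : Fin 2} {m : Fin (N + 1) →₀ ℕ} {S : Set (Coef N (dd D))}
    (hS : ∀ h : m.degree = dd D i ∧ m ≠ Finsupp.single 0 (dd D i),
      (⟨(i, m), h⟩ : Coef N (dd D)) ∈ S) : cf N D i m ∈ Lam S := by
  by_cases h : m.degree = dd D i ∧ m ≠ Finsupp.single 0 (dd D i)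
  · rw [cf_valid h]
    exact cc_mem (hS h)
  · unfold cf coef
    rw [dif_neg h]
    split_ifs
    · rw [map_one]
      exact one_mem _
    · rw [map_zero]
      exact zero_mem _

variable (N D) in
/-- The Gram matrix of the universal quadratic form. -/
noncomputable def gram (a b : Fin (N + 1)) : KB N (dd D) :=
  if a = b then coef N (dd D) 0 (Finsupp.single a 1 + Finsupp.single b 1)
  else coef N (dd D) 0 (Finsupp.single a 1 + Finsupp.single b 1) / 2

theorem gram_symm (a b : Fin (N + 1)) : gram N D a b = gram N D b a := by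
  unfold gram
  rw [add_comm (Finsupp.single a 1) (Finsupp.single b 1)]
  by_cases h : a = b
  · rw [if_pos h, if_pos h.symm]
  · rw [if_neg h, if_neg (Ne.symm h)]

/-- Indices of the coefficients of monomials in `x_0, …, x_j` of the quadratic form, except the
one of `x_j ^ 2`. -/
def Sj (j : Fin (N + 1)) : Set (Coef N (dd D)) :=
  {q | q.1.1 = 0 ∧ (∀ i, q.1.2 i ≠ 0 → i ≤ j) ∧ q.1.2 ≠ Finsupp.single j 2}

/-- Indices of the coefficients of the quadratic form. -/
def Sq : Set (Coef N (dd D)) := {q | q.1.1 = 0}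

/-- The corresponding subfields of `K`. -/
noncomputable def Fj (j : Fin (N + 1)) : Subfield (KB N (dd D)) :=
  (Lam (Sj (D := D) j)).comap (algebraMap (KB N (dd D)) (OO (Coef N (dd D))))

theorem Sj_mono {j j' : Fin (N + 1)} (h : j ≤ j') : Sj (D := D) j ⊆ Sj j' := by
  rcases h.eq_or_lt with rfl | h
  · exact subset_rfl
  · rintro q ⟨h1, h2, h3⟩
    refine ⟨h1, fun i hi => (h2 i hi).trans h.le, ?_⟩
    intro h4
    have := h2 j' (by rw [h4, Finsupp.single_eq_same]; norm_num)
    exact absurd this (not_le.2 h)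

theorem Fj_mono : Monotone (Fj (N := N) (D := D)) := fun _ _ h _ hz =>
  Lam_mono (Sj_mono h) hz

/-- The index of the coefficient of `x_a ^ 2` in the quadratic form. -/
noncomputable def qi (D : ℕ) (a : Fin (N + 1)) (ha : a ≠ 0) : Coef N (dd D) :=
  ⟨(0, Finsupp.single a 2), by
    refine ⟨?_, ?_⟩
    · rw [Finsupp.degree_single]
      rfl
    · intro h
      change Finsupp.single a 2 = Finsupp.single 0 2 at h
      exact ha (Finsupp.single_left_injective (two_ne_zero) h)⟩

theorem gram_diag (a : Fin (N + 1)) (ha : a ≠ 0) :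
    algebraMap (KB N (dd D)) (OO (Coef N (dd D))) (gram N D a a) = cc _ (qi D a ha) := by
  unfold gram
  rw [if_pos rfl, ← Finsupp.single_add]
  change cf N D 0 (Finsupp.single a 2) = _
  exact cf_valid (qi D a ha).2

theorem gram_zero : gram N D 0 0 = 1 := by
  unfold gram coef
  rw [if_pos rfl, ← Finsupp.single_add, dif_neg (fun h => h.2 rfl)]
  exact if_pos rfl

theorem qi_not_mem (j : Fin (N + 1)) (hj : j ≠ 0) : qi D j hj ∉ Sj (D := D) j := fun h =>
  h.2.2 rfl

theorem gram_mem (j a b : Fin (N + 1)) (ha : a ≤ j) (hb : b ≤ j) (h : ¬ (a = j ∧ b = j)) :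
    gram N D a b ∈ Fj (D := D) j := by
  have h1 : coef N (dd D) 0 (Finsupp.single a 1 + Finsupp.single b 1) ∈ Fj (D := D) j := by
    change cf N D 0 (Finsupp.single a 1 + Finsupp.single b 1) ∈ Lam (Sj (D := D) j)
    refine cf_mem fun hv => ⟨rfl, ?_, ?_⟩
    · intro i hi
      change (Finsupp.single a 1 + Finsupp.single b 1 : Fin (N + 1) →₀ ℕ) i ≠ 0 at hi
      rw [Finsupp.add_apply, Finsupp.single_apply, Finsupp.single_apply] at hi
      by_cases h1 : a = i
      · exact h1 ▸ ha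
      · by_cases h2 : b = i
        · exact h2 ▸ hb
        · rw [if_neg h1, if_neg h2] at hi
          exact absurd rfl hi
    · intro h2
      change (Finsupp.single a 1 + Finsupp.single b 1 : Fin (N + 1) →₀ ℕ) = Finsupp.single j 2 at h2
      have h3 : (Finsupp.single j 2 : Fin (N + 1) →₀ ℕ) = Finsupp.single j 1 + Finsupp.single j 1 := by
        rw [← Finsupp.single_add]
      rw [h3, Finsupp.single_add_single_eq_single_add_single one_ne_zero one_ne_zero] at h2
      apply h
      rcases h2 with h2 | h2 | h2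
      · exact h2
      · exact ⟨h2.2.1, h2.2.2⟩
      · exact absurd h2.1 (by norm_num)
  unfold gram
  split_ifs
  · exact h1
  · exact div_mem h1 (ofNat_mem _ 2)

theorem gram_not_mem (j : Fin (N + 1)) (hj : j ≠ 0) : gram N D j j ∉ Fj (D := D) j := by
  intro h
  have h1 : algebraMap (KB N (dd D)) (OO (Coef N (dd D))) (gram N D j j) ∈ Lam (Sj (D := D) j) := h
  rw [gram_diag j hj] at h1
  exact cc_not_mem (qi_not_mem j hj) h1

/-- The orthogonal frame. -/
theorem frame (hN : 7 ≤ N + 1) : ∃ (e : Fin 7 → Fin (N + 1) → KB N (dd D))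
    (δ : Fin 7 → KB N (dd D)),
    (∀ j, e j (Fin.castLE hN j) = 1) ∧ (∀ j i, Fin.castLE hN j < i → e j i = 0) ∧
    (∀ i j, bil (gram N D) (e i) (e j) = if i = j then δ i else 0) ∧ (∀ j, δ j ≠ 0) ∧
    (∀ j i, algebraMap (KB N (dd D)) (OO (Coef N (dd D))) (e j i) ∈ Lam (Sq (N := N) (D := D))) ∧
    (∀ j, algebraMap (KB N (dd D)) (OO (Coef N (dd D))) (δ j) ∈ Lam (Sq (N := N) (D := D))) ∧
    (∀ j, j ≠ 0 → ∃ T : Coef N (dd D), ∃ r : KB N (dd D),
      algebraMap (KB N (dd D)) (OO (Coef N (dd D))) r ∈ Lam {T}ᶜ ∧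
      algebraMap (KB N (dd D)) (OO (Coef N (dd D))) (δ j) =
        cc _ T - algebraMap (KB N (dd D)) (OO (Coef N (dd D))) r ∧
      ∀ k < j, algebraMap (KB N (dd D)) (OO (Coef N (dd D))) (δ k) ∈ Lam {T}ᶜ) := by
  have hspec := gs_spec (G := gram N D) gram_symm (Fj (D := D)) Fj_mono gram_mem gram_not_mem
    (by rw [gram_zero]; exact one_ne_zero)
  set ι : Fin 7 → Fin (N + 1) := Fin.castLE hN with hι
  have hιm : StrictMono ι := Fin.strictMono_castLE hN
  have hι0 : ∀ j, j ≠ 0 → ι j ≠ 0 := by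
    intro j hj h
    apply hj
    apply hιm.injective
    rw [h]
    rfl
  have hgrself : ∀ j j' : Fin (N + 1), j < j' → bil (gram N D) (gs (gram N D) j) (gs (gram N D) j) ∈
      Fj (D := D) j' := by
    intro j j' hjj'
    obtain ⟨_, _, _, _, _, r, hr, hr2⟩ := hspec j
    rw [hr2]
    exact sub_mem (gram_mem j' j j hjj'.le hjj'.le fun h => hjj'.ne h.1) (Fj_mono hjj'.le hr)
  have hFq : ∀ j : Fin (N + 1), ∀ z ∈ Fj (D := D) j,
      algebraMap (KB N (dd D)) (OO (Coef N (dd D))) z ∈ Lam (Sq (N := N) (D := D)) := by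
    intro j z hz
    exact Lam_mono (fun q hq => hq.1) (show algebraMap (KB N (dd D)) (OO (Coef N (dd D))) z ∈
      Lam (Sj (D := D) j) from hz)
  refine ⟨fun j => gs (gram N D) (ι j), fun j => bil (gram N D) (gs (gram N D) (ι j))
    (gs (gram N D) (ι j)), fun j => (hspec _).1, fun j i hi => (hspec _).2.1 i hi, ?_,
    fun j => (hspec _).2.2.2.2.1, fun j i => hFq _ _ ((hspec _).2.2.1 i), ?_, ?_⟩
  · intro i j
    rcases lt_trichotomy i j with h | h | h
    · rw [if_neg h.ne, bil_symm gram_symm]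
      exact (hspec (ι j)).2.2.2.1 _ (hιm h)
    · rw [if_pos h, h]
    · rw [if_neg h.ne']
      exact (hspec (ι i)).2.2.2.1 _ (hιm h)
  · intro j
    obtain ⟨_, _, _, _, _, r, hr, hr2⟩ := hspec (ι j)
    simp only
    rw [hr2, map_sub]
    refine sub_mem ?_ (hFq _ _ hr)
    unfold gram
    rw [if_pos rfl]
    exact cf_mem fun _ => rfl
  · intro j hj
    have hsub : Sj (D := D) (ι j) ⊆ {qi D (ι j) (hι0 j hj)}ᶜ := by
      intro q hq hq2
      rw [Set.mem_singleton_iff.1 hq2] at hq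
      exact qi_not_mem _ _ hq
    obtain ⟨_, _, _, _, _, r, hr, hr2⟩ := hspec (ι j)
    refine ⟨qi D (ι j) (hι0 j hj), r, Lam_mono hsub hr, ?_, ?_⟩
    · simp only
      rw [hr2, map_sub, gram_diag _ (hι0 j hj)]
    · intro k hk
      exact Lam_mono hsub (hgrself _ _ (hιm hk))

end

end Pool.Agent.Q81.Ci
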