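import Mathlib

/-! Gram–Schmidt with coefficient fields (MP_96c727_ag). -/

namespace Pool.Agent.Q81.Ci

section
variable {K : Type*} [Field K] {N : ℕ}

/-- The bilinear form with Gram matrix `G`. -/
noncomputable def bil (G : Fin (N + 1) → Fin (N + 1) → K) :
    LinearMap.BilinForm K (Fin (N + 1) → K) :=
  Matrix.toBilin' (Matrix.of G)

theorem bil_apply (G : Fin (N + 1) → Fin (N + 1) → K) (u w : Fin (N + 1) → K) :
    bil G u w = ∑ a, ∑ b, u a * G a b * w b := by
  rw [bil, Matrix.toBilin'_apply]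
  rfl

theorem bil_single (G : Fin (N + 1) → Fin (N + 1) → K) (j : Fin (N + 1)) (w : Fin (N + 1) → K) :
    bil G (Pi.single j 1) w = ∑ b, G j b * w b := by
  rw [bil_apply, Finset.sum_eq_single j]
  · refine Finset.sum_congr rfl fun b _ => ?_
    rw [Pi.single_eq_same, one_mul]
  · intro a _ ha
    refine Finset.sum_eq_zero fun b _ => ?_
    rw [Pi.single_eq_of_ne ha, zero_mul, zero_mul]
  · intro h
    exact absurd (Finset.mem_univ j) h

theorem bil_symm {G : Fin (N + 1) → Fin (N + 1) → K} (hG : ∀ a b, G a b = G b a)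
    (u w : Fin (N + 1) → K) : bil G u w = bil G w u := by
  rw [bil_apply, bil_apply, Finset.sum_comm]
  refine Finset.sum_congr rfl fun a _ => Finset.sum_congr rfl fun b _ => ?_
  rw [hG b a]
  ring

/-- Gram–Schmidt vectors. -/
noncomputable def gs (G : Fin (N + 1) → Fin (N + 1) → K) (j : Fin (N + 1)) : Fin (N + 1) → K :=
  Pi.single j 1 - ∑ l : Finset.Iio j,
    (bil G (Pi.single j 1) (gs G l) / bil G (gs G l) (gs G l)) • gs G l
termination_by j
decreasing_by exact Fin.lt_def.1 (Finset.mem_Iio.1 l.2)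

theorem gs_def (G : Fin (N + 1) → Fin (N + 1) → K) (j : Fin (N + 1)) :
    gs G j = Pi.single j 1 - ∑ l ∈ Finset.Iio j,
      (bil G (Pi.single j 1) (gs G l) / bil G (gs G l) (gs G l)) • gs G l := by
  rw [← Finset.sum_attach, Finset.attach_eq_univ, gs]

theorem gs_spec {G : Fin (N + 1) → Fin (N + 1) → K} (hsymm : ∀ a b, G a b = G b a)
    (F : Fin (N + 1) → Subfield K) (hF : Monotone F)
    (hG : ∀ j a b, a ≤ j → b ≤ j → ¬ (a = j ∧ b = j) → G a b ∈ F j)
    (hjj : ∀ j, j ≠ 0 → G j j ∉ F j) (h00 : G 0 0 ≠ 0) (j : Fin (N + 1)) :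
    gs G j j = 1 ∧ (∀ i, j < i → gs G j i = 0) ∧ (∀ i, gs G j i ∈ F j) ∧
      (∀ l < j, bil G (gs G j) (gs G l) = 0) ∧ bil G (gs G j) (gs G j) ≠ 0 ∧
      ∃ r ∈ F j, bil G (gs G j) (gs G j) = G j j - r := by
  induction j using WellFoundedLT.induction with
  | ind j ih =>
  -- coefficients
  have hc : ∀ l < j, bil G (Pi.single j 1) (gs G l) / bil G (gs G l) (gs G l) ∈ F j := by
    intro l hl
    obtain ⟨_, h2, h3, _, _, r, hr, h6⟩ := ih l hl
    refine div_mem ?_ ?_
    · rw [bil_single]
      refine sum_mem fun b _ => ?_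
      rcases lt_or_ge l b with hb | hb
      · rw [h2 b hb, mul_zero]
        exact zero_mem _
      · refine mul_mem (hG j j b le_rfl (hb.trans hl.le) ?_) (hF hl.le (h3 b))
        rintro ⟨_, h⟩
        exact absurd (h ▸ hb) (not_le.2 hl)
    · rw [h6]
      refine sub_mem (hG j l l hl.le hl.le ?_) (hF hl.le hr)
      rintro ⟨h, _⟩
      exact hl.ne h
  have hval : ∀ i, gs G j i = (Pi.single j (1 : K) : Fin (N + 1) → K) i - ∑ l ∈ Finset.Iio j,
      (bil G (Pi.single j 1) (gs G l) / bil G (gs G l) (gs G l)) * gs G l i := by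
    intro i
    conv_lhs => rw [gs_def]
    simp [Finset.sum_apply]
  have h1 : gs G j j = 1 := by
    rw [hval, Pi.single_eq_same, Finset.sum_eq_zero, sub_zero]
    intro l hl
    rw [(ih l (Finset.mem_Iio.1 hl)).2.1 j (Finset.mem_Iio.1 hl), mul_zero]
  have h2 : ∀ i, j < i → gs G j i = 0 := by
    intro i hi
    rw [hval, Pi.single_eq_of_ne hi.ne', Finset.sum_eq_zero, sub_zero]
    intro l hl
    rw [(ih l (Finset.mem_Iio.1 hl)).2.1 i ((Finset.mem_Iio.1 hl).trans hi), mul_zero]
  have h3 : ∀ i, gs G j i ∈ F j := by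
    intro i
    rw [hval]
    refine sub_mem ?_ (sum_mem fun l hl => ?_)
    · by_cases h : i = j
      · subst h
        rw [Pi.single_eq_same]
        exact one_mem _
      · rw [Pi.single_eq_of_ne h]
        exact zero_mem _
    · have hl' := Finset.mem_Iio.1 hl
      exact mul_mem (hc l hl') (hF hl'.le ((ih l hl').2.2.1 i))
  have horth : ∀ l < j, bil G (gs G j) (gs G l) = 0 := by
    intro l hl
    conv_lhs => rw [gs_def]
    rw [map_sub, LinearMap.sub_apply, map_sum, LinearMap.sum_apply,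
      Finset.sum_eq_single_of_mem l (Finset.mem_Iio.2 hl)]
    · rw [map_smul, LinearMap.smul_apply, smul_eq_mul, div_mul_cancel₀ _ (ih l hl).2.2.2.2.1,
        sub_self]
    · intro k hk hkl
      have hk' := Finset.mem_Iio.1 hk
      rw [map_smul, LinearMap.smul_apply]
      rcases lt_or_gt_of_ne hkl with h | h
      · rw [bil_symm hsymm (gs G k) (gs G l), (ih l hl).2.2.2.1 k h, smul_zero]
      · rw [(ih k hk').2.2.2.1 l h, smul_zero]
  have hself : bil G (gs G j) (gs G j) = G j j - -(∑ b ∈ Finset.univ.erase j, G j b * gs G j b) := by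
    have h4 : bil G (gs G j) (gs G j) = bil G (Pi.single j 1) (gs G j) := by
      have h5 := congrArg (fun v => bil G v (gs G j)) (gs_def G j)
      rw [h5, map_sub, LinearMap.sub_apply, map_sum, LinearMap.sum_apply,
        Finset.sum_eq_zero, sub_zero]
      intro l hl
      rw [map_smul, LinearMap.smul_apply, bil_symm hsymm (gs G l) (gs G j),
        horth l (Finset.mem_Iio.1 hl), smul_zero]
    rw [h4, bil_single, ← Finset.add_sum_erase _ _ (Finset.mem_univ j), h1, mul_one, sub_neg_eq_add]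
  have hr : -(∑ b ∈ Finset.univ.erase j, G j b * gs G j b) ∈ F j := by
    refine neg_mem (sum_mem fun b hb => ?_)
    rcases lt_or_ge j b with h | h
    · rw [h2 b h, mul_zero]
      exact zero_mem _
    · refine mul_mem (hG j j b le_rfl h ?_) (h3 b)
      rintro ⟨_, h'⟩
      exact (Finset.ne_of_mem_erase hb) h'
  refine ⟨h1, h2, h3, horth, ?_, _, hr, hself⟩
  rw [hself]
  intro h
  by_cases hj : j = 0
  · have h5 : ∑ b ∈ Finset.univ.erase j, G j b * gs G j b = 0 := by
      refine Finset.sum_eq_zero fun b hb => ?_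
      have : j < b := by
        rw [hj]
        exact Fin.pos_of_ne_zero (hj ▸ Finset.ne_of_mem_erase hb)
      rw [h2 b this, mul_zero]
    rw [h5, neg_zero, sub_zero, hj] at h
    exact h00 h
  · apply hjj j hj
    rw [sub_eq_zero.1 h]
    exact hr

end

end Pool.Agent.Q81.Ci
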