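import Pool.Agent.Q81.CiHom

/-! Growth of the powers of a subspace of a field, graded case. -/

namespace Pool.Agent.Q81.Ci

open MvPolynomial Module

set_option linter.unusedSectionVars false

variable {K : Type*} [Field K] {F : Type*} [Field F] [Algebra K F]

/-- polynomials in three variables. -/
abbrev R3 (K : Type*) [Field K] := MvPolynomial (Fin 3) K

/-- The hypotheses: `V` finite dimensional, `y_i ∈ V` algebraically independent, the powers of `V`
grow slower than `3t^2/2` and form a direct sum. -/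
structure Dat (V : Submodule K F) (y : Fin 3 → F) : Prop where
  fd : FiniteDimensional K V
  mem : ∀ i, y i ∈ V
  inj : Function.Injective (aeval y : R3 K →ₐ[K] F)
  grow : ∀ C : ℕ, ∃ t, 2 * finrank K ↥(V ^ t) + C * t < 3 * t ^ 2
  graded : ∀ (n : ℕ) (c : ℕ → F), (∀ t, c t ∈ V ^ t) → ∑ t ∈ Finset.range n, c t = 0 →
    ∀ t < n, c t = 0

variable {V : Submodule K F} {y : Fin 3 → F}

theorem ev_mem (hy : ∀ i, y i ∈ V) {n : ℕ} {r : R3 K} (hr : r ∈ H K n) : aeval y r ∈ V ^ n := by
  have h1 : (H K n).map (aeval y : R3 K →ₐ[K] F).toLinearMap ≤ V ^ n := by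
    have h2 : H K n = (H K 1) ^ n := by simp [H]
    rw [h2, Submodule.map_pow]
    refine pow_le_pow_left' ?_ n
    have h3 : H K 1 = Submodule.span K (Set.range X) := homogeneousSubmodule_one_eq_span_X
    rw [h3, Submodule.map_span, Submodule.span_le]
    rintro _ ⟨_, ⟨i, rfl⟩, rfl⟩
    have : (aeval y : R3 K →ₐ[K] F).toLinearMap (X i) = y i := aeval_X y i
    rw [this]
    exact hy i
  exact h1 ⟨r, hr, rfl⟩

theorem fd_pow (h : FiniteDimensional K V) (t : ℕ) : FiniteDimensional K ↥(V ^ t) :=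
  Module.Finite.iff_fg.2 ((Module.Finite.iff_fg.1 h).pow t)

/-- the evaluation `(c_j) ↦ Σ ev(c_j) v^j`. -/
noncomputable def Phi (y : Fin 3 → F) (v : F) (t : ℕ) (C : ℕ → Submodule K (R3 K)) :
    ((j : Fin (t + 1)) → C j) →ₗ[K] F :=
  ∑ j : Fin (t + 1), (LinearMap.mulRight K (v ^ (j : ℕ))) ∘ₗ (aeval y : R3 K →ₐ[K] F).toLinearMap ∘ₗ
    (C j).subtype ∘ₗ LinearMap.proj j

theorem Phi_apply (y : Fin 3 → F) (v : F) (t : ℕ) (C : ℕ → Submodule K (R3 K))
    (c : (j : Fin (t + 1)) → C j) :
    Phi y v t C c = ∑ j : Fin (t + 1), aeval y (c j : R3 K) * v ^ (j : ℕ) := by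
  unfold Phi
  rw [LinearMap.sum_apply]
  rfl

theorem growth (hd : Dat V y) {v : F} (hv : v ∈ V) {α : R3 K} (r : ℕ)
    (hr : ∀ P : Polynomial (R3 K), P ≠ 0 → P.eval₂ (aeval y : R3 K →ₐ[K] F).toRingHom v = 0 →
      r ≤ P.natDegree ∧ α ∣ P.leadingCoeff) (t : ℕ) (C : ℕ → Submodule K (R3 K))
    (hC1 : ∀ j ≤ t, C j ≤ H K (t - j)) (hC2 : ∀ j, r ≤ j → ∀ c ∈ C j, α ∣ c → c = 0) :
    ∑ j ∈ Finset.range (t + 1), finrank K (C j) ≤ finrank K ↥(V ^ t) := by
  have hfdC : ∀ j : Fin (t + 1), FiniteDimensional K (C j) := fun j =>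
    Submodule.finiteDimensional_of_le (hC1 j (Nat.lt_succ_iff.1 j.2))
  have hinj : Function.Injective (Phi y v t C) := by
    rw [← LinearMap.ker_eq_bot, LinearMap.ker_eq_bot']
    intro c hc
    rw [Phi_apply] at hc
    set P : Polynomial (R3 K) := ∑ j : Fin (t + 1), Polynomial.monomial (j : ℕ) (c j : R3 K) with hP
    have hcoef : ∀ j : Fin (t + 1), P.coeff j = (c j : R3 K) := by
      intro j
      rw [hP, Polynomial.finsetSum_coeff, Finset.sum_eq_single j]
      · rw [Polynomial.coeff_monomial, if_pos rfl]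
      · intro b _ hb
        rw [Polynomial.coeff_monomial, if_neg]
        intro h
        exact hb (Fin.ext h)
      · intro h
        exact absurd (Finset.mem_univ j) h
    have hbig : ∀ n, t < n → P.coeff n = 0 := by
      intro n hn
      rw [hP, Polynomial.finsetSum_coeff]
      refine Finset.sum_eq_zero fun j _ => ?_
      rw [Polynomial.coeff_monomial, if_neg]
      have := j.2
      omega
    have hev : P.eval₂ (aeval y : R3 K →ₐ[K] F).toRingHom v = 0 := by
      rw [hP, Polynomial.eval₂_finsetSum, ← hc]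
      refine Finset.sum_congr rfl fun j _ => ?_
      rw [Polynomial.eval₂_monomial]
      rfl
    have hP0 : P = 0 := by
      by_contra hne
      obtain ⟨h1, h2⟩ := hr P hne hev
      have h3 : P.natDegree ≤ t := by
        by_contra hcon
        push Not at hcon
        exact hne (Polynomial.leadingCoeff_eq_zero.1 (hbig _ hcon))
      have h4 := hcoef ⟨P.natDegree, Nat.lt_succ_iff.2 h3⟩
      simp only at h4
      have h5 := hC2 P.natDegree h1 _ (c ⟨P.natDegree, Nat.lt_succ_iff.2 h3⟩).2 (by
        rw [← h4]; exact h2)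
      rw [h5] at h4
      exact hne (Polynomial.leadingCoeff_eq_zero.1 h4)
    ext1 j
    apply Subtype.ext
    rw [← hcoef j, hP0]
    rfl
  have hrange : LinearMap.range (Phi y v t C) ≤ V ^ t := by
    rintro _ ⟨c, rfl⟩
    rw [Phi_apply]
    refine sum_mem fun j _ => ?_
    have hj : (j : ℕ) ≤ t := Nat.lt_succ_iff.1 j.2
    have h1 := ev_mem hd.mem (hC1 j hj (c j).2)
    have h2 : v ^ (j : ℕ) ∈ V ^ (j : ℕ) := Submodule.pow_mem_pow V hv j
    have h3 := Submodule.mul_mem_mul h1 h2
    rwa [← pow_add, Nat.sub_add_cancel hj] at h3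
  have hfd := fd_pow hd.fd t
  have h1 := LinearMap.finrank_range_of_inj hinj
  rw [Module.finrank_pi_fintype] at h1
  rw [Finset.sum_range (fun j => finrank K (C j)), ← h1]
  exact Submodule.finrank_mono hrange

theorem finrank_C_one {α : R3 K} (hα : α ≠ 0) (hp : 1 ≤ α.totalDegree) (n : ℕ) {c : ℕ}
    (hc : c + finrank K (D α n) = T n) : n + 1 ≤ c := by
  have h1 := finrank_D hα n
  have h2 := two_T n
  split_ifs at h1 with h
  · obtain ⟨m, rfl⟩ : ∃ m, n = m + 1 := ⟨n - 1, by omega⟩
    have h3 : T (m + 1 - α.totalDegree) ≤ T m := T_mono (by omega)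
    have h4 := two_T m
    nlinarith
  · nlinarith

theorem finrank_C_two {α : R3 K} (hα : α ≠ 0) (hp : 2 ≤ α.totalDegree) (n : ℕ) {c : ℕ}
    (hc : c + finrank K (D α n) = T n) : 2 * n + 1 ≤ c := by
  have h1 := finrank_D hα n
  have h2 := two_T n
  split_ifs at h1 with h
  · obtain ⟨m, rfl⟩ : ∃ m, n = m + 2 := ⟨n - 2, by omega⟩
    have h3 : T (m + 2 - α.totalDegree) ≤ T m := T_mono (by omega)
    have h4 := two_T m
    nlinarith
  · rcases Nat.lt_or_ge n 2 with h3 | h3
    · interval_cases n <;> simp_all <;> omega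
    · nlinarith

theorem no_growth_one (hd : Dat V y) {v : F} (hv : v ∈ V) {α : R3 K} (hα : α ≠ 0)
    (hp : 2 ≤ α.totalDegree)
    (hr : ∀ P : Polynomial (R3 K), P ≠ 0 → P.eval₂ (aeval y : R3 K →ₐ[K] F).toRingHom v = 0 →
      1 ≤ P.natDegree ∧ α ∣ P.leadingCoeff) : False := by
  obtain ⟨t, ht⟩ := hd.grow 0
  choose C hC1 hC2 hC3 using fun n => exists_C α n
  have h1 := growth hd hv 1 hr t (fun j => if j = 0 then H K t else C (t - j)) ?_ ?_
  · have h2 : ∀ j ∈ Finset.range t, 2 * (t - (j + 1)) + 1 ≤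
        finrank K ↥(if j + 1 = 0 then H K t else C (t - (j + 1))) := by
      intro j _
      rw [if_neg (Nat.succ_ne_zero j)]
      exact finrank_C_two hα hp _ (hC3 _)
    rw [Finset.sum_range_succ'] at h1
    have h3 := Finset.sum_le_sum h2
    have h4 : ∀ t : ℕ, ∑ j ∈ Finset.range t, (2 * (t - (j + 1)) + 1) = t ^ 2 := by
      intro t
      induction t with
      | zero => rfl
      | succ t ih =>
        rw [Finset.sum_range_succ']
        have : ∀ j ∈ Finset.range t, 2 * (t + 1 - (j + 1 + 1)) + 1 = 2 * (t - (j + 1)) + 1 := by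
          intro j _
          omega
        rw [Finset.sum_congr rfl this, ih]
        simp
        ring
    rw [h4] at h3
    have h5 : finrank K ↥(if (0 : ℕ) = 0 then H K t else C (t - 0)) = T t := by
      rw [if_pos rfl, finrank_H]
    rw [h5] at h1
    have h6 := two_T t
    nlinarith
  · intro j _
    split_ifs with h
    · subst h
      exact le_refl _
    · exact hC1 _
  · intro j hj c hc hdvd
    rw [if_neg (by omega)] at hc
    exact hC2 _ c hc hdvd

theorem no_growth_two (hd : Dat V y) {v : F} (hv : v ∈ V) {α : R3 K} (hα : α ≠ 0)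
    (hp : 1 ≤ α.totalDegree)
    (hr : ∀ P : Polynomial (R3 K), P ≠ 0 → P.eval₂ (aeval y : R3 K →ₐ[K] F).toRingHom v = 0 →
      2 ≤ P.natDegree ∧ α ∣ P.leadingCoeff) : False := by
  obtain ⟨t, ht⟩ := hd.grow 1
  have ht1 : 1 ≤ t := by
    by_contra hcon
    have : t = 0 := by omega
    subst this
    omega
  obtain ⟨u, rfl⟩ : ∃ u, t = u + 1 := ⟨t - 1, by omega⟩
  choose C hC1 hC2 hC3 using fun n => exists_C α n
  have h1 := growth hd hv 2 hr (u + 1) (fun j => if j = 0 then H K (u + 1) else
    if j = 1 then H K u else C (u + 1 - j)) ?_ ?_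
  · rw [Finset.sum_range_succ', Finset.sum_range_succ'] at h1
    have h2 : ∀ j ∈ Finset.range u, (u - (j + 1)) + 1 ≤
        finrank K ↥(if j + 1 + 1 = 0 then H K (u + 1) else
          if j + 1 + 1 = 1 then H K u else C (u + 1 - (j + 1 + 1))) := by
      intro j _
      rw [if_neg (Nat.succ_ne_zero _), if_neg (by omega)]
      have := finrank_C_one hα hp _ (hC3 (u + 1 - (j + 1 + 1)))
      omega
    have h3 := Finset.sum_le_sum h2
    have h4 : ∀ t : ℕ, 2 * ∑ j ∈ Finset.range t, ((t - (j + 1)) + 1) = t * (t + 1) := by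
      intro t
      induction t with
      | zero => rfl
      | succ t ih =>
        rw [Finset.sum_range_succ']
        have : ∀ j ∈ Finset.range t, (t + 1 - (j + 1 + 1)) + 1 = (t - (j + 1)) + 1 := by
          intro j _
          omega
        rw [Finset.sum_congr rfl this, mul_add, ih]
        simp
        ring
    have h4' := h4 u
    have h5 : finrank K ↥(if (0 : ℕ) = 0 then H K (u + 1) else
          if (0 : ℕ) = 1 then H K u else C (u + 1 - 0)) = T (u + 1) := by
      rw [if_pos rfl, finrank_H]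
    have h5' : finrank K ↥(if (0 : ℕ) + 1 = 0 then H K (u + 1) else
          if (0 : ℕ) + 1 = 1 then H K u else C (u + 1 - (0 + 1))) = T u := by
      rw [if_neg (by omega), if_pos rfl, finrank_H]
    rw [h5, h5'] at h1
    have h6 := two_T (u + 1)
    have h7 := two_T u
    nlinarith
  · intro j _
    split_ifs with h h'
    · subst h
      exact le_refl _
    · subst h'
      exact le_refl _
    · exact hC1 _
  · intro j hj c hc hdvd
    rw [if_neg (by omega), if_neg (by omega)] at hc
    exact hC2 _ c hc hdvd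

/-- Three elements of the same degree are dependent over `K[y]`. -/
theorem three_dep (hd : Dat V y) {s : ℕ} (e : Fin 3 → F) (he : ∀ i, e i ∈ V ^ s) :
    ∃ g : Fin 3 → R3 K, g ≠ 0 ∧ ∑ i, aeval y (g i) * e i = 0 := by
  by_contra hcon
  push Not at hcon
  obtain ⟨t, ht⟩ := hd.grow (6 * s)
  have hst : s ≤ t := by
    by_contra h
    push Not at h
    nlinarith
  set Ψ : (Fin 3 → H K (t - s)) →ₗ[K] F := ∑ i : Fin 3, (LinearMap.mulRight K (e i)) ∘ₗ
    (aeval y : R3 K →ₐ[K] F).toLinearMap ∘ₗ (H K (t - s)).subtype ∘ₗ LinearMap.proj i with hΨ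
  have hΨa : ∀ c, Ψ c = ∑ i, aeval y (c i : R3 K) * e i := by
    intro c
    rw [hΨ, LinearMap.sum_apply]
    rfl
  have hinj : Function.Injective Ψ := by
    rw [← LinearMap.ker_eq_bot, LinearMap.ker_eq_bot']
    intro c hc
    rw [hΨa] at hc
    by_contra hne
    refine hcon (fun i => (c i : R3 K)) ?_ hc
    intro h
    apply hne
    ext1 i
    exact Subtype.ext (congrFun h i)
  have hrange : LinearMap.range Ψ ≤ V ^ t := by
    rintro _ ⟨c, rfl⟩
    rw [hΨa]
    refine sum_mem fun i _ => ?_
    have h3 := Submodule.mul_mem_mul (ev_mem hd.mem (c i).2) (he i)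
    rwa [← pow_add, Nat.sub_add_cancel hst] at h3
  have hfd := fd_pow hd.fd t
  have h1 := LinearMap.finrank_range_of_inj hinj
  rw [Module.finrank_pi_fintype] at h1
  simp only [finrank_H, Finset.sum_const, Finset.card_univ, Fintype.card_fin, smul_eq_mul] at h1
  have h2 := Submodule.finrank_mono hrange
  rw [h1] at h2
  have h3 := two_T (t - s)
  obtain ⟨u, rfl⟩ := Nat.exists_eq_add_of_le hst
  rw [Nat.add_sub_cancel_left] at h2 h3
  nlinarith

/-- homogeneous components of a relation. -/
theorem comps (hd : Dat V y) (s : Fin 3 → ℕ) (ρ : Fin 3 → R3 K) (u : Fin 3 → F)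
    (hu : ∀ k, u k ∈ V ^ (s k)) (h : ∑ k, aeval y (ρ k) * u k = 0) (t : ℕ) :
    ∑ k, (if s k ≤ t then aeval y (homogeneousComponent (t - s k) (ρ k)) * u k else 0) = 0 := by
  set c : ℕ → F := fun t => ∑ k, (if s k ≤ t then aeval y (homogeneousComponent (t - s k) (ρ k)) * u k
    else 0) with hc
  set n := t + 1 + ∑ k, (s k + (ρ k).totalDegree + 1) with hn
  have hk : ∀ k, s k + (ρ k).totalDegree + 1 ≤ ∑ k, (s k + (ρ k).totalDegree + 1) := fun k =>
    Finset.single_le_sum (f := fun k => s k + (ρ k).totalDegree + 1) (fun _ _ => Nat.zero_le _)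
      (Finset.mem_univ k)
  have hmem : ∀ t, c t ∈ V ^ t := by
    intro t
    refine sum_mem fun k _ => ?_
    split_ifs with h1
    · have h3 := Submodule.mul_mem_mul (ev_mem hd.mem (homogeneousComponent_mem (t - s k) (ρ k)))
        (hu k)
      rwa [← pow_add, Nat.sub_add_cancel h1] at h3
    · exact zero_mem _
  have hsum : ∑ t ∈ Finset.range n, c t = 0 := by
    rw [← h, hc, Finset.sum_comm]
    refine Finset.sum_congr rfl fun k _ => ?_
    have h1 : ∀ N, (ρ k).totalDegree + 1 ≤ N → ∑ i ∈ Finset.range N,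
        homogeneousComponent i (ρ k) = ρ k := by
      intro N hN
      conv_rhs => rw [← sum_homogeneousComponent (φ := ρ k)]
      symm
      refine Finset.sum_subset (fun i hi => ?_) (fun i _ hi => ?_)
      · rw [Finset.mem_range] at *
        omega
      · rw [Finset.mem_range] at hi
        exact homogeneousComponent_eq_zero _ _ (by omega)
    obtain ⟨N, hN⟩ : ∃ N, n = s k + N := ⟨n - s k, by have := hk k; omega⟩
    have hN' : (ρ k).totalDegree + 1 ≤ N := by have := hk k; omega
    rw [hN, Finset.sum_range_add]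
    have h2 : ∑ x ∈ Finset.range (s k), (if s k ≤ x then
        aeval y (homogeneousComponent (x - s k) (ρ k)) * u k else 0) = 0 := by
      refine Finset.sum_eq_zero fun i hi => ?_
      rw [Finset.mem_range] at hi
      rw [if_neg (by omega)]
    rw [h2, zero_add]
    have h3 : ∀ i ∈ Finset.range N, (if s k ≤ s k + i then
        aeval y (homogeneousComponent (s k + i - s k) (ρ k)) * u k else 0) =
        aeval y (homogeneousComponent i (ρ k)) * u k := by
      intro i _
      rw [if_pos (by omega), Nat.add_sub_cancel_left]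
    rw [Finset.sum_congr rfl h3, ← Finset.sum_mul, ← map_sum, h1 N hN']
  exact hd.graded n c hmem hsum t (by omega)

end Pool.Agent.Q81.Ci
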