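import Mathlib

/-! Homogeneous polynomials in three variables: dimensions and divisibility. -/

namespace Pool.Agent.Q81.Ci

open MvPolynomial Module

set_option linter.unusedSectionVars false

variable {K : Type*} [Field K]

/-- triangular numbers, the dimension of the space of ternary forms of degree `n`. -/
def T (n : ℕ) : ℕ := (n + 2).choose 2

theorem two_T (n : ℕ) : 2 * T n = (n + 1) * (n + 2) := by
  have := Nat.add_one_mul_choose_eq (n + 1) 1
  rw [Nat.choose_one_right] at this
  unfold T
  linarith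

theorem T_mono {m n : ℕ} (h : m ≤ n) : T m ≤ T n := by
  have h1 := two_T m
  have h2 := two_T n
  nlinarith

/-- ternary forms of degree `n`. -/
abbrev H (K : Type*) [Field K] (n : ℕ) : Submodule K (MvPolynomial (Fin 3) K) :=
  homogeneousSubmodule (Fin 3) K n

instance fd_H (n : ℕ) : FiniteDimensional K (H K n) :=
  Module.Finite.iff_fg.2 (homogeneousSubmodule_fg (Fin 3) K n)

theorem finrank_H (n : ℕ) : finrank K (H K n) = T n := by
  classical
  have h1 : {d : Fin 3 →₀ ℕ | d.degree = n} =
      ((Finset.univ : Finset (Fin 3)).finsuppAntidiag n : Set (Fin 3 →₀ ℕ)) := by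
    ext d
    simp [Finset.mem_finsuppAntidiag, Finsupp.degree_eq_sum]
  have e : H K n ≃ₗ[K] (((Finset.univ : Finset (Fin 3)).finsuppAntidiag n : Set (Fin 3 →₀ ℕ)) →₀ K) := by
    refine (LinearEquiv.ofEq _ _ ?_).trans (AddMonoidAlgebra.supportedEquivFinsupp (R := K) (S := K)
      ((Finset.univ : Finset (Fin 3)).finsuppAntidiag n : Set (Fin 3 →₀ ℕ)))
    rw [show H K n = homogeneousSubmodule (Fin 3) K n from rfl,
      homogeneousSubmodule_eq_finsupp_supported, h1]
  rw [e.finrank_eq]
  rw [Module.finrank_finsupp_self]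
  have h2 : Fintype.card ↑((Finset.univ : Finset (Fin 3)).finsuppAntidiag n : Set (Fin 3 →₀ ℕ)) =
      ((Finset.univ : Finset (Fin 3)).finsuppAntidiag n).card := by
    rw [← Set.toFinset_card, Finset.toFinset_coe]
  rw [h2, Finset.card_finsuppAntidiag_nat_eq_choose]
  simp only [Finset.card_univ, Fintype.card_fin]
  unfold T
  rw [show 3 + n - 1 = n + 2 by omega]
  exact Nat.choose_symm_add (a := n) (b := 2)

theorem comp_mul {α r : MvPolynomial (Fin 3) K} {a : ℕ} (hα : α.IsHomogeneous a) (n : ℕ) :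
    homogeneousComponent n (α * r) = if a ≤ n then α * homogeneousComponent (n - a) r else 0 := by
  conv_lhs => rw [← sum_homogeneousComponent (φ := r), Finset.mul_sum, map_sum]
  have h1 : ∀ i, homogeneousComponent n (α * homogeneousComponent i r) =
      if n = a + i then α * homogeneousComponent i r else 0 := fun i =>
    homogeneousComponent_of_mem (hα.mul (homogeneousComponent_isHomogeneous i r))
  simp only [h1]
  split_ifs with h
  · by_cases hi : n - a < r.totalDegree + 1
    · rw [Finset.sum_eq_single (n - a)]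
      · rw [if_pos (by omega)]
      · intro b _ hb
        rw [if_neg (by omega)]
      · intro h'
        exact absurd (Finset.mem_range.2 hi) h'
    · rw [homogeneousComponent_eq_zero (n - a) r (by omega), mul_zero]
      refine Finset.sum_eq_zero fun i hi' => ?_
      rw [Finset.mem_range] at hi'
      rw [if_neg (by omega)]
  · refine Finset.sum_eq_zero fun i _ => ?_
    rw [if_neg (by omega)]

theorem top_mul {f h : MvPolynomial (Fin 3) K} {n : ℕ} (hf : f ≠ 0) (hh : h ≠ 0)
    (hn : (f * h).IsHomogeneous n) : f.totalDegree ≤ n ∧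
    f * h = homogeneousComponent f.totalDegree f * homogeneousComponent (n - f.totalDegree) h := by
  have h1 : f.totalDegree + h.totalDegree = n := by
    rw [← totalDegree_mul_of_isDomain hf hh, hn.totalDegree (mul_ne_zero hf hh)]
  refine ⟨by omega, ?_⟩
  conv_lhs => rw [← homogeneousComponent_eq_self hn, ← sum_homogeneousComponent (φ := f),
    Finset.sum_mul, map_sum]
  rw [Finset.sum_eq_single f.totalDegree]
  · rw [comp_mul (homogeneousComponent_isHomogeneous _ f), if_pos (by omega)]
  · intro i hi hne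
    rw [Finset.mem_range] at hi
    rw [comp_mul (homogeneousComponent_isHomogeneous _ f)]
    split_ifs
    · rw [homogeneousComponent_eq_zero (n - i) h (by omega), mul_zero]
    · rfl
  · intro h'
    exact absurd (Finset.mem_range.2 (Nat.lt_succ_self _)) h'

/-- forms of degree `n` divisible by `π`. -/
def D (π : MvPolynomial (Fin 3) K) (n : ℕ) : Submodule K (MvPolynomial (Fin 3) K) where
  carrier := {g | g ∈ H K n ∧ π ∣ g}
  zero_mem' := ⟨zero_mem _, dvd_zero _⟩
  add_mem' := fun ha hb => ⟨add_mem ha.1 hb.1, dvd_add ha.2 hb.2⟩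
  smul_mem' := fun c a ha => ⟨Submodule.smul_mem _ c ha.1, by
    rw [MvPolynomial.smul_eq_C_mul]
    exact Dvd.dvd.mul_left ha.2 _⟩

theorem D_le (π : MvPolynomial (Fin 3) K) (n : ℕ) : D π n ≤ H K n := fun _ h => h.1

theorem finrank_D {π : MvPolynomial (Fin 3) K} (hπ : π ≠ 0) (n : ℕ) :
    finrank K (D π n) ≤ if π.totalDegree ≤ n then T (n - π.totalDegree) else 0 := by
  split_ifs with h
  · have h1 : D π n ≤ (H K (n - π.totalDegree)).map
        (LinearMap.mulLeft K (homogeneousComponent π.totalDegree π)) := by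
      rintro g ⟨hg, s, rfl⟩
      by_cases hs : s = 0
      · subst hs
        simp
      · obtain ⟨-, h2⟩ := top_mul hπ hs hg
        exact ⟨homogeneousComponent (n - π.totalDegree) s, homogeneousComponent_mem _ _, h2.symm⟩
    rw [← finrank_H (K := K)]
    exact (Submodule.finrank_mono h1).trans (Submodule.finrank_map_le _ _)
  · have h1 : D π n = ⊥ := by
      rw [eq_bot_iff]
      rintro g ⟨hg, s, rfl⟩
      by_cases hs : s = 0
      · subst hs
        simp
      · exact absurd (top_mul hπ hs hg).1 h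
    rw [h1, finrank_bot]

/-- a complement of `D π n` in `H n`. -/
theorem exists_C (π : MvPolynomial (Fin 3) K) (n : ℕ) : ∃ C : Submodule K (MvPolynomial (Fin 3) K),
    C ≤ H K n ∧ (∀ c ∈ C, π ∣ c → c = 0) ∧ finrank K C + finrank K (D π n) = T n := by
  obtain ⟨E, hE⟩ := Submodule.exists_isCompl (D π n)
  have h1 : D π n ⊔ (E ⊓ H K n) = H K n := by
    rw [← sup_inf_assoc_of_le E (D_le π n), hE.sup_eq_top, top_inf_eq]
  have h2 : D π n ⊓ (E ⊓ H K n) = ⊥ := by
    rw [← inf_assoc, hE.inf_eq_bot, bot_inf_eq]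
  refine ⟨E ⊓ H K n, inf_le_right, ?_, ?_⟩
  · intro c hc hd
    have : c ∈ D π n ⊓ (E ⊓ H K n) := ⟨⟨hc.2, hd⟩, hc⟩
    rw [h2] at this
    exact this
  · have hfd : FiniteDimensional K (D π n) := Submodule.finiteDimensional_of_le (D_le π n)
    have hfd2 : FiniteDimensional K ↥(E ⊓ H K n) := Submodule.finiteDimensional_of_le inf_le_right
    have h3 := Submodule.finrank_sup_add_finrank_inf_eq (D π n) (E ⊓ H K n)
    rw [h1, h2, finrank_bot, finrank_H] at h3
    omega

theorem totalDegree_pos {d : MvPolynomial (Fin 3) K} (h0 : d ≠ 0) (hu : ¬ IsUnit d) :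
    0 < d.totalDegree := by
  by_contra hcon
  have h1 : d.totalDegree = 0 := by omega
  rw [totalDegree_eq_zero_iff_eq_C] at h1
  apply hu
  rw [h1]
  refine IsUnit.map C (IsUnit.mk0 _ ?_)
  intro h2
  rw [h2, C_0] at h1
  exact h0 h1

/-- a linear form is prime. -/
theorem lin_prime {α : MvPolynomial (Fin 3) K} (h : α.IsHomogeneous 1) (h0 : α ≠ 0) : Prime α := by
  rw [← irreducible_iff_prime]
  have hdeg := h.totalDegree h0
  refine ⟨?_, ?_⟩
  · intro hu
    have := totalDegree_eq_zero_iff_eq_C.2 (show α = C (coeff 0 α) from ?_)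
    · omega
    · obtain ⟨c, -, hc⟩ := MvPolynomial.isUnit_iff_eq_C_of_isReduced.1 hu
      rw [hc]
      simp
  · intro f g hfg
    by_contra hcon
    push Not at hcon
    have hf0 : f ≠ 0 := fun h1 => h0 (by rw [hfg, h1, zero_mul])
    have hg0 : g ≠ 0 := fun h1 => h0 (by rw [hfg, h1, mul_zero])
    have h1 := totalDegree_pos hf0 hcon.1
    have h2 := totalDegree_pos hg0 hcon.2
    rw [hfg, totalDegree_mul_of_isDomain hf0 hg0] at hdeg
    omega

theorem lin_dvd {α₀ α : MvPolynomial (Fin 3) K} (h₀ : α₀.IsHomogeneous 1) (h : α.IsHomogeneous 1)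
    (ha : α ≠ 0) (hd : α₀ ∣ α) : ∃ c : K, c ≠ 0 ∧ α = C c * α₀ := by
  obtain ⟨s, hs⟩ := hd
  have h1 : α₀ ≠ 0 := fun h1 => ha (by rw [hs, h1, zero_mul])
  have h2 : s ≠ 0 := fun h2 => ha (by rw [hs, h2, mul_zero])
  have h3 := h.totalDegree ha
  rw [hs, totalDegree_mul_of_isDomain h1 h2, h₀.totalDegree h1] at h3
  have h4 : s.totalDegree = 0 := by omega
  rw [totalDegree_eq_zero_iff_eq_C] at h4
  refine ⟨coeff 0 s, ?_, ?_⟩
  · intro h5
    rw [h5, C_0] at h4
    exact h2 h4
  · rw [← h4, hs, mul_comm]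

end Pool.Agent.Q81.Ci
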