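import Mathlib

/-! The irreducibility lemma (MP_96c727_ag). -/

namespace Pool.Agent.Q81.Ci

open IntermediateField Polynomial

section
variable {Ω : Type*} [Field Ω]

theorem tau_tr (Λ : Subfield Ω) {T : Ω} (hT : Transcendental Λ T) {g0 : Λ[X]}
    (hg0 : g0.coeff 0 ≠ 0) {c : Λ} (hc : c ≠ 0) {τ : Ω} {D : ℕ} (hD : 0 < D)
    (hτ : aeval τ g0 + T * ((c : Ω) * τ ^ D) = 0) : τ ≠ 0 ∧ Transcendental Λ τ := by
  have hτ0 : τ ≠ 0 := by
    rintro rfl
    rw [zero_pow hD.ne', mul_zero, mul_zero, add_zero, ← coeff_zero_eq_aeval_zero'] at hτ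
    exact hg0 ((map_eq_zero _).1 hτ)
  refine ⟨hτ0, fun halg => hT ?_⟩
  have h1 : τ ∈ algebraicClosure Λ Ω := mem_algebraicClosure_iff.2 halg
  have hc' : (c : Ω) ≠ 0 := fun h => hc (Subtype.ext h)
  have h2 : T = -(aeval τ g0) / ((c : Ω) * τ ^ D) := by
    have : (c : Ω) * τ ^ D ≠ 0 := mul_ne_zero hc' (pow_ne_zero _ hτ0)
    rw [eq_div_iff this]
    linear_combination hτ
  have h3 : T ∈ algebraicClosure Λ Ω := by
    rw [h2]
    have h4 : aeval τ g0 ∈ algebraicClosure Λ Ω := by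
      have : aeval τ g0 = ((aeval (⟨τ, h1⟩ : algebraicClosure Λ Ω) g0 : algebraicClosure Λ Ω) : Ω) := by
        rw [← IntermediateField.coe_val, ← aeval_algHom_apply]
        rfl
      rw [this]
      exact SetLike.coe_mem _
    exact div_mem (neg_mem h4) (mul_mem ((algebraicClosure Λ Ω).algebraMap_mem c) (pow_mem h1 _))
  exact mem_algebraicClosure_iff.1 h3

theorem indep_aux (Λ : Subfield Ω) {T : Ω} (hT : Transcendental Λ T) {g0 : Λ[X]}
    (hg0 : g0.coeff 0 ≠ 0) {c : Λ} (hc : c ≠ 0) {τ : Ω} {D : ℕ} (hD : 0 < D)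
    (hτ : aeval τ g0 + T * ((c : Ω) * τ ^ D) = 0) (E : ℕ) (p : ℕ → Λ[X])
    (hp : ∀ l < D, (p l).natDegree ≤ E)
    (hrel : ∑ l ∈ Finset.range D, aeval T (p l) * τ ^ l = 0) :
    ∀ l < D, (p l).coeff E = 0 := by
  obtain ⟨hτ0, htr⟩ := tau_tr Λ hT hg0 hc hD hτ
  set H : ℕ → Λ[X] := fun j => ∑ l ∈ Finset.range D, C ((p l).coeff j) * X ^ l with hH
  have hHc : ∀ j, ∀ l < D, (H j).coeff l = (p l).coeff j := by
    intro j l hl
    simp only [hH, finsetSum_coeff, coeff_C_mul, coeff_X_pow, mul_ite, mul_one, mul_zero]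
    rw [Finset.sum_ite_eq (Finset.range D) l, if_pos (Finset.mem_range.2 hl)]
  set P : Λ[X] := ∑ j ∈ Finset.range (E + 1), (-g0) ^ j * (C c * X ^ D) ^ (E - j) * H j with hP
  have h1 : aeval τ P = 0 := by
    have h2 : aeval τ P = ((c : Ω) * τ ^ D) ^ E *
        ∑ l ∈ Finset.range D, aeval T (p l) * τ ^ l := by
      rw [hP, map_sum]
      have h3 : ∀ l ∈ Finset.range D, aeval T (p l) * τ ^ l =
          ∑ j ∈ Finset.range (E + 1), ((p l).coeff j : Ω) * T ^ j * τ ^ l := by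
        intro l hl
        rw [aeval_eq_sum_range' (Nat.lt_succ_of_le (hp l (Finset.mem_range.1 hl))), Finset.sum_mul]
        rfl
      rw [Finset.sum_congr rfl h3, Finset.sum_comm, Finset.mul_sum]
      refine Finset.sum_congr rfl fun j hj => ?_
      have hj' : j ≤ E := Nat.lt_succ_iff.1 (Finset.mem_range.1 hj)
      rw [map_mul, map_mul, map_pow, map_pow, map_neg, map_mul, map_pow, aeval_X, aeval_C]
      have h4 : -(aeval τ g0) = T * ((c : Ω) * τ ^ D) := by linear_combination -hτ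
      rw [h4, mul_pow T]
      have h5 : ((c : Ω) * τ ^ D) ^ E = ((c : Ω) * τ ^ D) ^ j * ((c : Ω) * τ ^ D) ^ (E - j) := by
        rw [← pow_add, Nat.add_sub_cancel' hj']
      rw [h5]
      have h6 : aeval τ (H j) = ∑ l ∈ Finset.range D, ((p l).coeff j : Ω) * τ ^ l := by
        rw [hH]
        simp only [map_sum, map_mul, aeval_C, map_pow, aeval_X]
        rfl
      rw [h6]
      have h7 : ∑ l ∈ Finset.range D, ((p l).coeff j : Ω) * T ^ j * τ ^ l =
          T ^ j * ∑ l ∈ Finset.range D, ((p l).coeff j : Ω) * τ ^ l := by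
        rw [Finset.mul_sum]
        exact Finset.sum_congr rfl fun l _ => by ring
      rw [h7]
      have h8 : algebraMap Λ Ω c = (c : Ω) := rfl
      rw [h8]
      ring
    rw [h2, hrel, mul_zero]
  have h2 : P = 0 := (transcendental_iff.1 htr) P h1
  rw [hP, Finset.sum_range_succ, Nat.sub_self, pow_zero, mul_one] at h2
  have h3 : X ^ D ∣ ∑ j ∈ Finset.range E, (-g0) ^ j * (C c * X ^ D) ^ (E - j) * H j := by
    refine Finset.dvd_sum fun j hj => ?_
    have hj' : j < E := Finset.mem_range.1 hj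
    refine Dvd.dvd.mul_right (Dvd.dvd.mul_left ?_ _) _
    obtain ⟨k, hk⟩ : ∃ k, E - j = k + 1 := ⟨E - j - 1, by omega⟩
    rw [hk, pow_succ]
    exact Dvd.dvd.mul_left (Dvd.dvd.mul_left (dvd_refl _) _) _
  have h4 : X ^ D ∣ (-g0) ^ E * H E := by
    have h5 : (-g0) ^ E * H E =
      -(∑ j ∈ Finset.range E, (-g0) ^ j * (C c * X ^ D) ^ (E - j) * H j) := by
      linear_combination h2
    rw [h5]
    exact (dvd_neg).2 h3
  have h5 : X ^ D ∣ H E := by
    refine (prime_X (R := Λ)).pow_dvd_of_dvd_mul_left D ?_ h4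
    intro h6
    have h7 := (prime_X (R := Λ)).dvd_of_dvd_pow h6
    rw [X_dvd_iff, coeff_neg, neg_eq_zero] at h7
    exact hg0 h7
  intro l hl
  rw [← hHc E l hl]
  exact (X_pow_dvd_iff.1 h5) l hl

theorem indep_poly (Λ : Subfield Ω) {T : Ω} (hT : Transcendental Λ T) {g0 : Λ[X]}
    (hg0 : g0.coeff 0 ≠ 0) {c : Λ} (hc : c ≠ 0) {τ : Ω} {D : ℕ} (hD : 0 < D)
    (hτ : aeval τ g0 + T * ((c : Ω) * τ ^ D) = 0) (E : ℕ) (p : ℕ → Λ[X])
    (hp : ∀ l < D, (p l).natDegree ≤ E)
    (hrel : ∑ l ∈ Finset.range D, aeval T (p l) * τ ^ l = 0) :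
    ∀ l < D, p l = 0 := by
  induction E with
  | zero =>
    intro l hl
    have h1 := indep_aux Λ hT hg0 hc hD hτ 0 p hp hrel l hl
    have h2 := eq_C_of_natDegree_le_zero (hp l hl)
    rw [h2, h1, C_0]
  | succ E ih =>
    refine ih fun l hl => ?_
    have h1 := indep_aux Λ hT hg0 hc hD hτ (E + 1) p hp hrel l hl
    rw [natDegree_le_iff_coeff_eq_zero]
    intro k hk
    rcases Nat.eq_or_lt_of_le (Nat.succ_le_of_lt hk) with h | h
    · rw [← h]
      exact h1
    · exact coeff_eq_zero_of_natDegree_lt (lt_of_le_of_lt (hp l hl) h)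

/-- The powers `τ ^ l`, `l < D`, are independent over `Λ(T)`. -/
theorem indep (Λ : Subfield Ω) {T : Ω} (hT : Transcendental Λ T) {g0 : Λ[X]}
    (hg0 : g0.coeff 0 ≠ 0) {c : Λ} (hc : c ≠ 0) {τ : Ω} {D : ℕ} (hD : 0 < D)
    (hτ : aeval τ g0 + T * ((c : Ω) * τ ^ D) = 0) (z : ℕ → Ω)
    (hz : ∀ l, z l ∈ IntermediateField.adjoin Λ {T})
    (hrel : ∑ l ∈ Finset.range D, z l * τ ^ l = 0) :
    ∀ l < D, z l = 0 := by
  have h1 : ∀ l, ∃ r s : Λ[X], aeval T s ≠ 0 ∧ z l * aeval T s = aeval T r := by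
    intro l
    obtain ⟨r, s, h⟩ := (IntermediateField.mem_adjoin_simple_iff Λ (z l)).1 (hz l)
    by_cases hs : aeval T s = 0
    · refine ⟨0, 1, by simp, ?_⟩
      rw [h, hs]
      simp
    · exact ⟨r, s, hs, by rw [h]; field_simp⟩
  choose r s hs hrs using h1
  set p : ℕ → Λ[X] := fun l => r l * ∏ k ∈ (Finset.range D).erase l, s k with hp
  have h2 : ∑ l ∈ Finset.range D, aeval T (p l) * τ ^ l = 0 := by
    have h3 : ∀ l ∈ Finset.range D, aeval T (p l) * τ ^ l =
        (∏ k ∈ Finset.range D, aeval T (s k)) * (z l * τ ^ l) := by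
      intro l hl
      rw [hp]
      simp only [map_mul, map_prod]
      rw [← hrs l, ← Finset.mul_prod_erase (Finset.range D) (fun k => aeval T (s k)) hl]
      ring
    rw [Finset.sum_congr rfl h3, ← Finset.mul_sum, hrel, mul_zero]
  have h3 := indep_poly Λ hT hg0 hc hD hτ
    ((Finset.range D).sup fun l => (p l).natDegree) p
    (fun l hl => Finset.le_sup (f := fun l => (p l).natDegree) (Finset.mem_range.2 hl)) h2
  intro l hl
  have h4 := h3 l hl
  have h5 : r l = 0 := by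
    rcases mul_eq_zero.1 h4 with h | h
    · exact h
    · exfalso
      rw [Finset.prod_eq_zero_iff] at h
      obtain ⟨k, _, hk⟩ := h
      exact hs k (by rw [hk, map_zero])
  have h6 := hrs l
  rw [h5, map_zero] at h6
  exact (mul_eq_zero.1 h6).resolve_right (hs l)

theorem minpoly_deg {F : Type*} [Field F] [Algebra F Ω] {τ : Ω} {D : ℕ}
    (hlow : ∀ h : F[X], h.natDegree < D → aeval τ h = 0 → h = 0) {g : F[X]}
    (hg : g.natDegree ≤ D) (hg0 : g ≠ 0) (hgτ : aeval τ g = 0) :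
    IsIntegral F τ ∧ (minpoly F τ).natDegree = D := by
  have h1 : IsIntegral F τ := (isAlgebraic_iff_isIntegral).1 ⟨g, hg0, hgτ⟩
  refine ⟨h1, le_antisymm ?_ ?_⟩
  · exact (natDegree_le_of_dvd (minpoly.dvd F τ hgτ) hg0).trans hg
  · by_contra h2
    exact minpoly.ne_zero h1 (hlow _ (not_le.1 h2) (minpoly.aeval F τ))

/-- Adjoining a square root of a nonsquare. -/
theorem sqrt_deg {F : Type*} [Field F] [Algebra F Ω] {s : Ω} {d : F} (hs : s ^ 2 = algebraMap F Ω d)
    (hd : ∀ z : F, z ^ 2 ≠ d) : IsIntegral F s ∧ (minpoly F s).natDegree = 2 := by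
  refine minpoly_deg (D := 2) ?_ (g := X ^ 2 - C d) ?_ (X_pow_sub_C_ne_zero (by norm_num) _) ?_
  · intro h hdeg hroot
    have h1 : h = C (h.coeff 1) * X + C (h.coeff 0) := eq_X_add_C_of_natDegree_le_one (by omega)
    have h2 : algebraMap F Ω (h.coeff 1) * s + algebraMap F Ω (h.coeff 0) = 0 := by
      rw [h1] at hroot
      simpa using hroot
    have h3 : h.coeff 1 = 0 := by
      by_contra h4
      have h5 : algebraMap F Ω (h.coeff 1) ≠ 0 := fun h => h4 ((map_eq_zero _).1 h)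
      apply hd (-(h.coeff 0) / h.coeff 1)
      apply (algebraMap F Ω).injective
      rw [← hs, map_pow, map_div₀, map_neg]
      congr 1
      rw [div_eq_iff h5]
      linear_combination -h2
    rw [h3, map_zero, zero_mul, zero_add] at h2
    rw [h1, h3, (map_eq_zero _).1 h2]
    simp
  · rw [natDegree_X_pow_sub_C]
  · simp [hs]

end

end Pool.Agent.Q81.Ci
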