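import Pool.Agent.Q81.CiTower2

/-! The closed point (MP_96c727_ag). -/

namespace Pool.Agent.Q81.Ci

open IntermediateField Polynomial Module

section
variable {K : Type} [Field K] {Ω : Type} [Field Ω] [Algebra K Ω] {N : ℕ}

/-- Building a closed point from coordinates in a finite intermediate field. -/
noncomputable def mkPt (L : IntermediateField K Ω) (hfin : FiniteDimensional K L)
    (x : Fin (N + 1) → Ω) (hx : ∀ i, x i ∈ L) (i0 : Fin (N + 1)) (h0 : x i0 ≠ 0)
    (hgen : ∀ A : IntermediateField K Ω, (∀ i, x i / x i0 ∈ A) → L ≤ A) : ClosedPt K N where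
  L := L
  finL := hfin
  x := fun i => ⟨x i, hx i⟩
  ne_zero := fun h => h0 (congrArg Subtype.val (congrFun h i0))
  gen := by
    set A := IntermediateField.adjoin K {z : L | ∃ i j, (⟨x j, hx j⟩ : L) ≠ 0 ∧
      z = (⟨x i, hx i⟩ : L) / ⟨x j, hx j⟩} with hA
    have h1 : L ≤ A.map L.val := by
      apply hgen
      intro i
      refine ⟨(⟨x i, hx i⟩ : L) / ⟨x i0, hx i0⟩, ?_, rfl⟩
      apply IntermediateField.subset_adjoin
      exact ⟨i, i0, fun h => h0 (congrArg Subtype.val h), rfl⟩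
    rw [eq_top_iff]
    intro z _
    obtain ⟨y, hy, hyz⟩ := h1 z.2
    have : y = z := Subtype.ext hyz
    rw [← this]
    exact hy

theorem mkPt_vanish {L : IntermediateField K Ω} {hfin : FiniteDimensional K L}
    {x : Fin (N + 1) → Ω} {hx : ∀ i, x i ∈ L} {i0 : Fin (N + 1)} {h0 : x i0 ≠ 0}
    {hgen : ∀ A : IntermediateField K Ω, (∀ i, x i / x i0 ∈ A) → L ≤ A}
    (F : MvPolynomial (Fin (N + 1)) K) :
    (mkPt L hfin x hx i0 h0 hgen).Vanish F ↔ MvPolynomial.aeval x F = 0 := by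
  have h1 : ((MvPolynomial.aeval (fun i => (⟨x i, hx i⟩ : L)) F : L) : Ω) =
      MvPolynomial.aeval x F := by
    rw [← IntermediateField.coe_val, MvPolynomial.comp_aeval_apply]
    rfl
  unfold ClosedPt.Vanish
  change MvPolynomial.aeval (fun i => (⟨x i, hx i⟩ : L)) F = 0 ↔ _
  rw [← h1]
  exact (ZeroMemClass.coe_eq_zero).symm

theorem mkPt_span {L : IntermediateField K Ω} {hfin : FiniteDimensional K L}
    {x : Fin (N + 1) → Ω} {hx : ∀ i, x i ∈ L} {i0 : Fin (N + 1)} {h0 : x i0 ≠ 0}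
    {hgen : ∀ A : IntermediateField K Ω, (∀ i, x i / x i0 ∈ A) → L ≤ A} :
    finrank K (Submodule.span K (Set.range (mkPt L hfin x hx i0 h0 hgen).x)) =
      finrank K (Submodule.span K (Set.range x)) := by
  change finrank K (Submodule.span K (Set.range fun i => (⟨x i, hx i⟩ : L))) = _
  have h8 : Submodule.span K (Set.range x) =
      (Submodule.span K (Set.range fun i => (⟨x i, hx i⟩ : L))).map L.val.toLinearMap := by
    rw [Submodule.map_span, ← Set.range_comp]
    rfl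
  rw [h8]
  exact (Submodule.equivMapOfInjective L.val.toLinearMap L.val.injective _).finrank_eq

theorem aeval_uform {N e : ℕ} {d : Fin e → ℕ} {Ω : Type} [Field Ω] [Algebra (KB N d) Ω]
    (x : Fin (N + 1) → Ω) (i : Fin e) : MvPolynomial.aeval x (uform N d i) =
      ∑ m ∈ (Finset.univ : Finset (Fin (N + 1))).finsuppAntidiag (d i),
        algebraMap (KB N d) Ω (coef N d i m) * ∏ k, x k ^ (m k) := by
  unfold uform
  rw [map_sum]
  refine Finset.sum_congr rfl fun m _ => ?_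
  rw [MvPolynomial.aeval_monomial, Finsupp.prod_fintype]
  intro i
  exact pow_zero _

end

/-- The point of degree `4 D` in general position. -/
theorem exists_point (N D : ℕ) (hN : 7 ≤ N + 1) (hD : 2 ≤ D) :
    ∃ P : ClosedPt (KB N (dd D)) N, P.OnX ∧ P.degree = 2 * (2 * D) ∧
      7 ≤ finrank (KB N (dd D)) (Submodule.span (KB N (dd D)) (Set.range P.x)) := by
  have hD0 : D ≠ 0 := by omega
  obtain ⟨e, δ, he1, he2, horth, hδ0, heq, hδq, hT⟩ := frame (D := D) hN
  set ι : Fin 7 → Fin (N + 1) := Fin.castLE hN with hι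
  have hιm : StrictMono ι := Fin.strictMono_castLE hN
  have hι0 : ∀ j, j ≠ 0 → ι j ≠ 0 := by
    intro j hj h
    apply hj
    apply hιm.injective
    rw [h]
    rfl
  obtain ⟨X1, Y1, X2, Y2, l, m, ⟨hX1q, hY1q, hX2q, hY2q, hlq, hmq⟩, ⟨hX1, hY1, hX2, hY2, hl, hm⟩,
    hrel1, hrel2⟩ := coeffs ((Lam (Sq (N := N) (D := D))).comap
      (algebraMap (KB N (dd D)) (OO (Coef N (dd D))))) δ hδ0 hδq
  obtain ⟨s, hs⟩ := IsAlgClosed.exists_pow_nat_eq
    (algebraMap (KB N (dd D)) (OO (Coef N (dd D))) (-δ 0 / δ 1)) (n := 2) (by norm_num)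
  obtain ⟨t, ht⟩ := IsAlgClosed.exists_pow_nat_eq
    (algebraMap (KB N (dd D)) (OO (Coef N (dd D))) (-δ 2 / δ 3)) (n := 2) (by norm_num)
  set α := algebraMap (KB N (dd D)) (OO (Coef N (dd D))) with hα
  have hδ0' : ∀ i, α (δ i) ≠ 0 := fun i h => hδ0 i ((map_eq_zero _).1 h)
  have inj : ∀ z, z ≠ 0 → α z ≠ 0 := fun z hz h => hz ((map_eq_zero _).1 h)
  have hs0 : s ≠ 0 := by
    rintro rfl
    rw [zero_pow two_ne_zero] at hs
    exact inj _ (div_ne_zero (neg_ne_zero.2 (hδ0 0)) (hδ0 1)) hs.symm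
  have ht0 : t ≠ 0 := by
    rintro rfl
    rw [zero_pow two_ne_zero] at ht
    exact inj _ (div_ne_zero (neg_ne_zero.2 (hδ0 2)) (hδ0 3)) ht.symm
  have hsLam : ∀ S : Set (Coef N (dd D)), α (δ 0) ∈ Lam S → α (δ 1) ∈ Lam S → s ∈ Lam S := by
    intro S h0 h1
    apply sq_mem
    rw [hs, map_div₀, map_neg]
    exact div_mem (neg_mem h0) h1
  have htLam : ∀ S : Set (Coef N (dd D)), α (δ 2) ∈ Lam S → α (δ 3) ∈ Lam S → t ∈ Lam S := by
    intro S h0 h1
    apply sq_mem
    rw [ht, map_div₀, map_neg]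
    exact div_mem (neg_mem h0) h1
  have hsq := hsLam _ (hδq 0) (hδq 1)
  have htq := htLam _ (hδq 2) (hδq 3)
  -- vectors
  set κv : Fin 7 → OO (Coef N (dd D)) := ![α X1, α Y1 * s, 0, 0, α l * t, 0, 0] with hκv
  set κw : Fin 7 → OO (Coef N (dd D)) := ![0, 0, α X2, α Y2 * t, 0, α m * s, α m * s * t] with hκw
  have hκvmem : ∀ W : Subfield (OO (Coef N (dd D))), α X1 ∈ W → α Y1 ∈ W → α l ∈ W → s ∈ W →
      t ∈ W → ∀ j, κv j ∈ W := by
    intro W h1 h2 h3 h4 h5 j
    fin_cases j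
    · exact h1
    · exact mul_mem h2 h4
    · exact zero_mem _
    · exact zero_mem _
    · exact mul_mem h3 h5
    · exact zero_mem _
    · exact zero_mem _
  have hκwmem : ∀ W : Subfield (OO (Coef N (dd D))), α X2 ∈ W → α Y2 ∈ W → α m ∈ W → s ∈ W →
      t ∈ W → ∀ j, κw j ∈ W := by
    intro W h1 h2 h3 h4 h5 j
    fin_cases j
    · exact zero_mem _
    · exact zero_mem _
    · exact h1
    · exact mul_mem h2 h5
    · exact zero_mem _
    · exact mul_mem h3 h4
    · exact mul_mem (mul_mem h3 h4) h5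
  set v : Fin (N + 1) → OO (Coef N (dd D)) := fun i => ∑ j, κv j * α (e j i) with hv
  set w : Fin (N + 1) → OO (Coef N (dd D)) := fun i => ∑ j, κw j * α (e j i) with hw
  have hvq : ∀ i, v i ∈ Lam (Sq (N := N) (D := D)) :=
    comb_mem (hκvmem _ hX1q hY1q hlq hsq htq) heq
  have hwq : ∀ i, w i ∈ Lam (Sq (N := N) (D := D)) :=
    comb_mem (hκwmem _ hX2q hY2q hmq hsq htq) heq
  have hlt : ∀ i j : Fin 7, i < j → e i (ι j) = 0 := fun i j h => he2 i _ (hιm h)
  have hv4 : v (ι 4) = α l * t := by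
    simp only [hv, Fin.sum_univ_seven, hκv]
    simp [hlt 0 4 (by decide), hlt 1 4 (by decide), he1 4]
  have hv6 : v (ι 6) = 0 := by
    simp only [hv, Fin.sum_univ_seven, hκv]
    simp [hlt 0 6 (by decide), hlt 1 6 (by decide), hlt 4 6 (by decide)]
  have hw6 : w (ι 6) = α m * s * t := by
    simp only [hw, Fin.sum_univ_seven, hκw]
    simp [hlt 2 6 (by decide), hlt 3 6 (by decide), hlt 5 6 (by decide), he1 6]
  obtain ⟨hgne, τ, hτ, hind⟩ := fpart hvq hwq hD0 (ι 4) (ι 6) (hι0 4 (by decide))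
    (hι0 6 (by decide)) (by rw [hv4]; exact mul_ne_zero (inj _ hl) ht0) hv6
    (by rw [hw6]; exact mul_ne_zero (mul_ne_zero (inj _ hm) hs0) ht0)
  -- coordinates
  have hLsub : ∀ (S : Set (Coef N (dd D))) (T : OO (Coef N (dd D))) (z : OO (Coef N (dd D))),
      z ∈ Lam S → z ∈ IntermediateField.adjoin (Lam S) {T} := fun S T z hz =>
    (IntermediateField.adjoin (Lam S) {T}).algebraMap_mem ⟨z, hz⟩
  have hτ0 : τ ≠ 0 := by
    intro h
    have h1 := hind (fun l => if l = 1 then 1 else 0) (fun l => by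
      split_ifs
      · exact one_mem _
      · exact zero_mem _) (by
      refine Finset.sum_eq_zero fun l _ => ?_
      rw [h]
      by_cases hl : l = 1
      · rw [hl, pow_one, mul_zero]
      · rw [if_neg hl, zero_mul]) 1 (by omega)
    simp at h1
  set M1 := IntermediateField.adjoin (KB N (dd D)) {s} with hM1
  set M2 := stp M1 t with hM2
  set L := stp M2 τ with hL
  have hsM1 : s ∈ M1 := IntermediateField.mem_adjoin_simple_self _ _
  have hsM2 : s ∈ M2 := le_stp _ _ hsM1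
  have htM2 : t ∈ M2 := self_mem_stp _ _
  have hτL : τ ∈ L := self_mem_stp _ _
  have hM1T : ∀ T : Coef N (dd D), α (δ 0) ∈ Lam {T}ᶜ → α (δ 1) ∈ Lam {T}ᶜ → ∀ z ∈ M1,
      z ∈ IntermediateField.adjoin (Lam ({T}ᶜ : Set (Coef N (dd D)))) {cc _ T} := by
    intro T h0 h1 z hz
    exact adj_mem (IntermediateField.adjoin (Lam ({T}ᶜ : Set (Coef N (dd D)))) {cc _ T}).toSubfield
      (K_mem T) (hLsub _ _ _ (hsLam _ h0 h1)) hz
  have hqT : ∀ j, α (δ j) ∈ Lam ({fi hD0 (ι 6) (hι0 6 (by decide))}ᶜ : Set (Coef N (dd D))) :=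
    fun j => Lam_mono (Sq_sub hD0 _ _) (hδq j)
  have hM2T : ∀ z ∈ M2, z ∈ IntermediateField.adjoin
      (Lam ({fi hD0 (ι 6) (hι0 6 (by decide))}ᶜ : Set (Coef N (dd D))))
      {cc _ (fi hD0 (ι 6) (hι0 6 (by decide)))} := by
    intro z hz
    exact stp_mem_of (W := (IntermediateField.adjoin
      (Lam ({fi hD0 (ι 6) (hι0 6 (by decide))}ᶜ : Set (Coef N (dd D))))
      {cc _ (fi hD0 (ι 6) (hι0 6 (by decide)))}).toSubfield)
      (hM1T _ (hqT 0) (hqT 1)) (hLsub _ _ _ (htLam _ (hqT 2) (hqT 3))) hz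
  -- nonsquares
  have hD1 : ∀ z : KB N (dd D), z ^ 2 ≠ -δ 0 / δ 1 := by
    intro z h
    obtain ⟨T, r, hr, hd, hk⟩ := hT 1 (by decide)
    apply nonsq_div (hk 0 (by decide)) hr hd (hδ0' 1) (hδ0' 0) (K_mem T z)
    rw [← map_pow, h, map_div₀, map_neg]
  have ht' : t ^ 2 = algebraMap M1 (OO (Coef N (dd D))) (algebraMap (KB N (dd D)) M1 (-δ 2 / δ 3)) :=
    ht
  have hD2 : ∀ z : M1, z ^ 2 ≠ algebraMap (KB N (dd D)) M1 (-δ 2 / δ 3) := by
    intro z h
    obtain ⟨T, r, hr, hd, hk⟩ := hT 3 (by decide)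
    apply nonsq_div (hk 2 (by decide)) hr hd (hδ0' 3) (hδ0' 2)
      (hM1T T (hk 0 (by decide)) (hk 1 (by decide)) _ z.2)
    have h2 := congrArg (fun y : M1 => (y : OO (Coef N (dd D)))) h
    have h3 : (z : OO (Coef N (dd D))) ^ 2 = α (-δ 2 / δ 3) := h2
    rw [h3, map_div₀, map_neg]
  have hlow1 := fun g => hlow2_of hs hD1 g
  have hlow2 := fun g => hlow2_of ht' hD2 g
  have hlow3 := fun g => hlow_of (M := M2) (τ := τ) (D := D)
    (fun z hz hrel => hind z (fun l => hM2T _ (hz l)) hrel) g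
  obtain ⟨hi1, hdeg1⟩ := sqrt_deg hs hD1
  obtain ⟨hi2, hdeg2⟩ := sqrt_deg ht' hD2
  have hαM2 : ∀ z, α z ∈ M2 := fun z => M2.algebraMap_mem z
  have hvM2 : ∀ i, v i ∈ M2 := comb_mem (W := M2.toSubfield)
    (hκvmem M2.toSubfield (hαM2 _) (hαM2 _) (hαM2 _) hsM2 htM2) fun j i => hαM2 _
  have hwM2 : ∀ i, w i ∈ M2 := comb_mem (W := M2.toSubfield)
    (hκwmem M2.toSubfield (hαM2 _) (hαM2 _) (hαM2 _) hsM2 htM2) fun j i => hαM2 _
  set gM : M2[X] := gp D (fun m => algebraMap (KB N (dd D)) M2 (coef N (dd D) 1 m))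
        (fun i => (⟨v i, hvM2 i⟩ : M2)) (fun i => (⟨w i, hwM2 i⟩ : M2)) with hgM
  have hmap : gM.map (algebraMap M2 (OO (Coef N (dd D)))) = gp D (cf N D 1) v w := by
    rw [hgM, gp_map]
    rfl
  have hgM0 : gM ≠ 0 := by
    intro h
    apply hgne
    rw [← hmap, h, Polynomial.map_zero]
  have hgMτ : aeval τ gM = 0 := by
    rw [aeval_def, eval₂_eq_eval_map, hmap]
    exact hτ
  obtain ⟨hi3, hdeg3⟩ := minpoly_deg hlow3 (gp_natDegree D _ _ _ : gM.natDegree ≤ D) hgM0 hgMτ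
  have hfr : finrank (KB N (dd D)) L = 2 * (2 * D) := by
    rw [hL, finrank_stp hi3 hdeg3, hM2, finrank_stp hi2 hdeg2, hM1,
      IntermediateField.adjoin.finrank hi1, hdeg1]
    ring
  have hfin : FiniteDimensional (KB N (dd D)) L :=
    Module.finite_of_finrank_pos (by rw [hfr]; omega)
  set κ : Fin 7 → OO (Coef N (dd D)) := ![α X1, α Y1 * s, α X2 * τ, α Y2 * t * τ, α l * t,
    α m * s * τ, α m * s * t * τ] with hκ
  have hκeq : ∀ j, κ j = κv j + κw j * τ := by
    intro j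
    fin_cases j <;> simp [hκ, hκv, hκw]
  set x : Fin (N + 1) → OO (Coef N (dd D)) := fun i => ∑ j, κ j * α (e j i) with hx
  have hxeq : ∀ i, x i = v i + w i * τ := by
    intro i
    simp only [hx, hv, hw]
    rw [Finset.sum_mul, ← Finset.sum_add_distrib]
    refine Finset.sum_congr rfl fun j _ => ?_
    rw [hκeq]
    ring
  have hxL : ∀ i, x i ∈ L := by
    intro i
    rw [hxeq]
    exact add_mem (le_stp _ _ (hvM2 i)) (mul_mem (le_stp _ _ (hwM2 i)) hτL)
  have hx6 : x (ι 6) = κ 6 := by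
    rw [hxeq, hv6, hw6, zero_add]
    rfl
  have hκ6 : κ 6 ≠ 0 := by
    change α m * s * t * τ ≠ 0
    exact mul_ne_zero (mul_ne_zero (mul_ne_zero (inj _ hm) hs0) ht0) hτ0
  have hgen : ∀ A : IntermediateField (KB N (dd D)) (OO (Coef N (dd D))),
      (∀ i, x i / x (ι 6) ∈ A) → L ≤ A := by
    intro A hA
    rw [hx6] at hA
    obtain ⟨hsA, htA, hτA⟩ := gen_of hX1 hY1 hX2 hl hm hs0 ht0 hτ0 ι hιm e he1 he2 hκ A hA
    have h1 : ∀ z ∈ M1, z ∈ A := by
      intro z hz
      exact adj_mem A.toSubfield (fun z => A.algebraMap_mem z) hsA hz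
    have h2 : ∀ z ∈ M2, z ∈ A := fun z hz => stp_mem_of (W := A.toSubfield) h1 htA hz
    exact fun z hz => stp_mem_of (W := A.toSubfield) h2 hτA hz
  -- vanishing of the two forms
  have hq : ∑ m ∈ (Finset.univ : Finset (Fin (N + 1))).finsuppAntidiag 2,
      cf N D 0 m * ∏ k, x k ^ (m k) = 0 := by
    rw [quad_sum]
    have h1 : ∀ a b, (if a = b then cf N D 0 (Finsupp.single a 1 + Finsupp.single b 1)
        else cf N D 0 (Finsupp.single a 1 + Finsupp.single b 1) / 2) = α (gram N D a b) := by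
      intro a b
      unfold gram
      split_ifs
      · rfl
      · rw [map_div₀, map_ofNat]
        rfl
    simp_rw [h1]
    have h2 := iso_eval (Ω := OO (Coef N (dd D))) (gram N D) e δ horth κ
    refine Eq.trans h2 ?_
    have hs1 : s ^ 2 * α (δ 1) = -α (δ 0) := by
      rw [hs, map_div₀, map_neg, div_mul_cancel₀ _ (hδ0' 1)]
    have ht1 : t ^ 2 * α (δ 3) = -α (δ 2) := by
      rw [ht, map_div₀, map_neg, div_mul_cancel₀ _ (hδ0' 3)]
    have hr1 := congrArg α hrel1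
    have hr2 := congrArg α hrel2
    simp only [map_add, map_mul, map_sub, map_pow, map_zero] at hr1 hr2
    rw [← ht] at hr1
    rw [← hs, ← ht] at hr2
    rw [Fin.sum_univ_seven]
    have e0 : κ 0 = α X1 := rfl
    have e1 : κ 1 = α Y1 * s := rfl
    have e2 : κ 2 = α X2 * τ := rfl
    have e3 : κ 3 = α Y2 * t * τ := rfl
    have e4 : κ 4 = α l * t := rfl
    have e5 : κ 5 = α m * s * τ := rfl
    have e6 : κ 6 = α m * s * t * τ := rfl
    rw [e0, e1, e2, e3, e4, e5, e6]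
    linear_combination hr1 + τ ^ 2 * hr2 + (α Y1) ^ 2 * hs1 + (α Y2) ^ 2 * τ ^ 2 * ht1
  have hf : ∑ m ∈ (Finset.univ : Finset (Fin (N + 1))).finsuppAntidiag D,
      cf N D 1 m * ∏ k, x k ^ (m k) = 0 := by
    have h1 := hτ
    rw [gp_eval] at h1
    rw [← h1]
    refine Finset.sum_congr rfl fun m _ => ?_
    congr 1
    refine Finset.prod_congr rfl fun k _ => ?_
    rw [hxeq]
  refine ⟨mkPt L hfin x hxL (ι 6) (by rw [hx6]; exact hκ6) hgen, ?_, hfr, ?_⟩
  · intro i
    rw [mkPt_vanish, aeval_uform]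
    fin_cases i
    · exact hq
    · exact hf
  · have hlin : LinearIndependent (KB N (dd D)) κ := by
      rw [Fintype.linearIndependent_iff]
      intro a ha
      have h1 := seven (a := a) hD hlow1 hlow2 hlow3 hX1 hY1 hX2 hY2 hl hm (by
        rw [Fin.sum_univ_seven] at ha
        simp only [Algebra.smul_def] at ha
        exact ha)
      intro i
      rw [h1]
      rfl
    have hspan : Submodule.span (KB N (dd D)) (Set.range κ) ≤
        Submodule.span (KB N (dd D)) (Set.range x) := by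
      rw [Submodule.span_le]
      rintro _ ⟨j, rfl⟩
      exact tri ι hιm e he1 he2 κ (Submodule.span (KB N (dd D)) (Set.range x))
        (fun i => Submodule.subset_span (Set.mem_range_self i)) j
    have hfd : FiniteDimensional (KB N (dd D)) (Submodule.span (KB N (dd D)) (Set.range x)) :=
      FiniteDimensional.span_of_finite _ (Set.finite_range x)
    have h7 : 7 ≤ finrank (KB N (dd D)) (Submodule.span (KB N (dd D)) (Set.range x)) := by
      have h1 := Submodule.finrank_mono hspan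
      rw [finrank_span_eq_card hlin, Fintype.card_fin] at h1
      exact h1
    rw [mkPt_span]
    exact h7

end Pool.Agent.Q81.Ci
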