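import Pool.Agent.Q81.CiGrow

/-! The bound `dim V ≤ 6`. -/

namespace Pool.Agent.Q81.Ci

open MvPolynomial Module

set_option linter.unusedSectionVars false

variable {K : Type*} [Field K] {F : Type*} [Field F] [Algebra K F]
variable {V : Submodule K F} {y : Fin 3 → F}

/-- fraction field of the polynomial ring. -/
abbrev Q3 (K : Type*) [Field K] := FractionRing (R3 K)

/-- the embedding of the fraction field of `K[y]`. -/
noncomputable def phiQ (hd : Dat V y) : Q3 K →+* F :=
  IsFractionRing.lift (g := (aeval y : R3 K →ₐ[K] F).toRingHom) hd.inj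

theorem phiQ_algebraMap (hd : Dat V y) (r : R3 K) : phiQ hd (algebraMap _ _ r) = aeval y r :=
  IsFractionRing.lift_algebraMap (g := (aeval y : R3 K →ₐ[K] F).toRingHom) hd.inj r

theorem phiQ_inj (hd : Dat V y) : Function.Injective (phiQ hd) := (phiQ hd).injective

/-- the criterion for the growth lemma. -/
theorem crit (hd : Dat V y) {v : F} {G : Polynomial (R3 K)} (hG : G.IsPrimitive) {r : ℕ}
    (hr : G.natDegree = r) (hr1 : 1 ≤ r)
    (hGv : G.eval₂ (aeval y : R3 K →ₐ[K] F).toRingHom v = 0)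
    (hind : ∀ P : Polynomial (Q3 K), P.natDegree < r → P.eval₂ (phiQ hd) v = 0 → P = 0)
    (P : Polynomial (R3 K)) (hP0 : P ≠ 0)
    (hP : P.eval₂ (aeval y : R3 K →ₐ[K] F).toRingHom v = 0) :
    r ≤ P.natDegree ∧ G.leadingCoeff ∣ P.leadingCoeff := by
  have hcomp : (aeval y : R3 K →ₐ[K] F).toRingHom = (phiQ hd).comp (algebraMap (R3 K) (Q3 K)) := by
    exact RingHom.ext fun r => (phiQ_algebraMap hd r).symm
  have hmap : ∀ Z : Polynomial (R3 K), (Z.map (algebraMap (R3 K) (Q3 K))).eval₂ (phiQ hd) v =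
      Z.eval₂ (aeval y : R3 K →ₐ[K] F).toRingHom v := by
    intro Z
    rw [Polynomial.eval₂_map, hcomp]
  have hinj : Function.Injective (algebraMap (R3 K) (Q3 K)) := IsFractionRing.injective _ _
  have hdeg : (G.map (algebraMap (R3 K) (Q3 K))).natDegree = r := by
    rw [Polynomial.natDegree_map_eq_of_injective hinj, hr]
  have hG0 : G.map (algebraMap (R3 K) (Q3 K)) ≠ 0 := by
    intro h
    rw [h, Polynomial.natDegree_zero] at hdeg
    omega
  have hdvd : G.map (algebraMap (R3 K) (Q3 K)) ∣ P.map (algebraMap (R3 K) (Q3 K)) := by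
    rw [← EuclideanDomain.mod_eq_zero]
    apply hind
    · have h1 := Polynomial.natDegree_mod_lt (P.map (algebraMap (R3 K) (Q3 K))) (by omega :
        (G.map (algebraMap (R3 K) (Q3 K))).natDegree ≠ 0)
      rwa [hdeg] at h1
    · have h2 := EuclideanDomain.div_add_mod (P.map (algebraMap (R3 K) (Q3 K)))
        (G.map (algebraMap (R3 K) (Q3 K)))
      have h3 := congrArg (Polynomial.eval₂ (phiQ hd) v) h2
      rw [Polynomial.eval₂_add, Polynomial.eval₂_mul, hmap G, hmap P, hGv, hP, zero_mul,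
        zero_add] at h3
      exact h3
  obtain ⟨Z, rfl⟩ := hG.dvd_of_fraction_map_dvd_fraction_map hdvd
  have hG0' : G ≠ 0 := fun h => hP0 (by rw [h, zero_mul])
  have hZ0 : Z ≠ 0 := fun h => hP0 (by rw [h, mul_zero])
  refine ⟨?_, ?_⟩
  · rw [Polynomial.natDegree_mul hG0' hZ0, hr]
    omega
  · rw [Polynomial.leadingCoeff_mul]
    exact dvd_mul_right _ _

theorem unit_of_totalDegree {c : R3 K} (h0 : c ≠ 0) (h : c.totalDegree = 0) :
    ∃ k : K, k ≠ 0 ∧ c = C k := by
  rw [totalDegree_eq_zero_iff_eq_C] at h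
  refine ⟨coeff 0 c, fun h1 => ?_, h⟩
  rw [h1, C_0] at h
  exact h0 h

/-- some homogeneous component of a nonzero polynomial is nonzero. -/
theorem exists_comp {f : R3 K} (hf : f ≠ 0) :
    ∃ i ≤ f.totalDegree, homogeneousComponent i f ≠ 0 := by
  by_contra hcon
  push Not at hcon
  apply hf
  rw [← sum_homogeneousComponent (φ := f)]
  refine Finset.sum_eq_zero fun i hi => hcon i ?_
  rw [Finset.mem_range] at hi
  omega

/-- homogeneous components of `ev α v = ev β`. -/
theorem comp_lin (hd : Dat V y) {v : F} (hv : v ∈ V) {α β : R3 K}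
    (h : aeval y α * v = aeval y β) (i : ℕ) :
    aeval y (homogeneousComponent i α) * v = aeval y (homogeneousComponent (i + 1) β) := by
  have h1 := comps hd ![1, 0, 0] ![α, -β, 0] ![v, 1, 1] (by
    intro k
    fin_cases k
    · simpa using hv
    · simp [Submodule.one_le.1 le_rfl]
    · simp [Submodule.one_le.1 le_rfl]) (by
    rw [Fin.sum_univ_three]
    simp [h]) (i + 1)
  rw [Fin.sum_univ_three] at h1
  simp at h1
  linear_combination h1

theorem comp_quad (hd : Dat V y) {v : F} (hv : v ∈ V) {α β γ : R3 K}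
    (h : aeval y α * v ^ 2 + aeval y β * v + aeval y γ = 0) (i : ℕ) :
    aeval y (homogeneousComponent i α) * v ^ 2 +
    aeval y (homogeneousComponent (i + 1) β) * v +
    aeval y (homogeneousComponent (i + 2) γ) = 0 := by
  have h1 := comps hd ![2, 1, 0] ![α, β, γ] ![v ^ 2, v, 1] (by
    intro k
    fin_cases k
    · exact Submodule.pow_mem_pow V hv 2
    · simpa using hv
    · simp [Submodule.one_le.1 le_rfl]) (by
    rw [Fin.sum_univ_three]
    simpa using h) (i + 2)
  rw [Fin.sum_univ_three] at h1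
  simpa using h1

theorem y0_ne (hd : Dat V y) : y 0 ≠ 0 := by
  intro h
  have h1 : (aeval y : R3 K →ₐ[K] F) (X 0) = aeval y (0 : R3 K) := by
    rw [aeval_X, h, map_zero]
  exact X_ne_zero 0 (hd.inj h1)

theorem ev_ne (hd : Dat V y) {r : R3 K} (h : r ≠ 0) : aeval y r ≠ 0 := by
  intro h1
  apply h
  apply hd.inj
  rw [h1, map_zero]

theorem ev_div_mem (hd : Dat V y) {r s : R3 K} {v : F} (hr : r ≠ 0) (h : aeval y r * v = aeval y s) :
    v ∈ (phiQ hd).range := by
  refine ⟨algebraMap _ _ s / algebraMap _ _ r, ?_⟩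
  rw [map_div₀, phiQ_algebraMap, phiQ_algebraMap, div_eq_iff (ev_ne hd hr), ← h, mul_comm]

theorem range_iff (hd : Dat V y) {v : F} : v ∈ (phiQ hd).range ↔
    ∃ r s : R3 K, r ≠ 0 ∧ aeval y r * v = aeval y s := by
  constructor
  · rintro ⟨q, rfl⟩
    obtain ⟨s, r, hr, rfl⟩ := IsFractionRing.div_surjective (A := R3 K) q
    have hr0 : r ≠ 0 := nonZeroDivisors.ne_zero hr
    refine ⟨r, s, hr0, ?_⟩
    rw [map_div₀, phiQ_algebraMap, phiQ_algebraMap, mul_div_cancel₀ _ (ev_ne hd hr0)]
  · rintro ⟨r, s, hr, h⟩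
    exact ev_div_mem hd hr h

/-- the linear case. -/
theorem lin_rel (hd : Dat V y) {v : F} (hv : v ∈ V) (hQ : v ∈ (phiQ hd).range) :
    ∃ a ≤ 1, ∃ α β : R3 K, α ∈ H K a ∧ β ∈ H K (a + 1) ∧ α ≠ 0 ∧ IsRelPrime α β ∧
      aeval y α * v = aeval y β := by
  classical
  obtain ⟨r, s, hr, hrs⟩ := (range_iff hd).1 hQ
  have hex : ∃ a, ∃ α β : R3 K, α ∈ H K a ∧ β ∈ H K (a + 1) ∧ α ≠ 0 ∧
      aeval y α * v = aeval y β := by
    obtain ⟨i, -, hi⟩ := exists_comp hr
    exact ⟨i, _, _, homogeneousComponent_mem i r, homogeneousComponent_mem (i + 1) s, hi,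
      comp_lin hd hv hrs i⟩
  obtain ⟨α, β, hα, hβ, hα0, hrel⟩ := Nat.find_spec hex
  set a := Nat.find hex with ha
  have hdeg : α.totalDegree = a := hα.totalDegree hα0
  have hprime : IsRelPrime α β := by
    intro d hdα hdβ
    by_contra hu
    obtain ⟨α', rfl⟩ := hdα
    obtain ⟨β', rfl⟩ := hdβ
    have hd0 : d ≠ 0 := fun h => hα0 (by rw [h, zero_mul])
    have hα'0 : α' ≠ 0 := fun h => hα0 (by rw [h, mul_zero])
    have h1 := totalDegree_pos hd0 hu
    rw [totalDegree_mul_of_isDomain hd0 hα'0] at hdeg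
    have h2 : aeval y α' * v = aeval y β' := by
      rw [map_mul, map_mul, mul_assoc] at hrel
      exact mul_left_cancel₀ (ev_ne hd hd0) hrel
    obtain ⟨i, hi1, hi2⟩ := exists_comp hα'0
    exact Nat.find_min hex (m := i) (by omega) ⟨_, _, homogeneousComponent_mem i α',
      homogeneousComponent_mem (i + 1) β', hi2, comp_lin hd hv h2 i⟩
  refine ⟨a, ?_, α, β, hα, hβ, hα0, hprime, hrel⟩
  by_contra hcon
  push Not at hcon
  set G : Polynomial (R3 K) := Polynomial.C α * Polynomial.X + Polynomial.C (-β) with hG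
  have hGdeg : G.natDegree = 1 := Polynomial.natDegree_linear hα0
  have hGlc : G.leadingCoeff = α := Polynomial.leadingCoeff_linear hα0
  have hGp : G.IsPrimitive := by
    intro c hc
    rw [Polynomial.C_dvd_iff_dvd_coeff] at hc
    have h1 := hc 1
    have h0 := hc 0
    simp [hG] at h1 h0
    exact hprime h1 h0
  have hGv : G.eval₂ (aeval y : R3 K →ₐ[K] F).toRingHom v = 0 := by
    rw [hG, Polynomial.eval₂_add, Polynomial.eval₂_mul, Polynomial.eval₂_C, Polynomial.eval₂_X,
      Polynomial.eval₂_C]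
    change aeval y α * v + aeval y (-β) = 0
    rw [hrel, map_neg]
    ring
  refine no_growth_one hd hv hα0 (by omega) (fun P hP0 hP => ?_)
  have h1 := crit hd hGp hGdeg le_rfl hGv (fun P hP hPv => ?_) P hP0 hP
  · rwa [hGlc] at h1
  · have h2 : P = Polynomial.C (P.coeff 0) := Polynomial.eq_C_of_natDegree_eq_zero (by omega)
    rw [h2, Polynomial.eval₂_C] at hPv
    have h3 := (phiQ_inj hd) (hPv.trans (map_zero _).symm)
    rw [h2, h3, Polynomial.C_0]

theorem quad_rel (hd : Dat V y) {v : F} (hv : v ∈ V) (hQ : v ∉ (phiQ hd).range) :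
    ∃ β γ : R3 K, β ∈ H K 1 ∧ γ ∈ H K 2 ∧ v ^ 2 + aeval y β * v + aeval y γ = 0 := by
  classical
  have hy0 := y0_ne hd
  obtain ⟨g, hg0, hg⟩ := three_dep hd (s := 2) ![y 0 ^ 2, y 0 * v, v ^ 2] (by
    intro k
    fin_cases k
    · exact Submodule.pow_mem_pow V (hd.mem 0) 2
    · change y 0 * v ∈ V ^ 2
      rw [pow_two]
      exact Submodule.mul_mem_mul (hd.mem 0) hv
    · exact Submodule.pow_mem_pow V hv 2)
  rw [Fin.sum_univ_three] at hg
  simp only [Matrix.cons_val_zero, Matrix.cons_val_one, Matrix.cons_val_two, Matrix.tail_cons,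
    Matrix.head_cons, Matrix.cons_val] at hg
  have hg2 : g 2 ≠ 0 := by
    intro h2
    rw [h2, map_zero, zero_mul, add_zero] at hg
    have h3 : aeval y (g 1) * v = aeval y (-(g 0 * X 0)) := by
      rw [map_neg, map_mul, aeval_X]
      have h4 : y 0 * (aeval y (g 1) * v + aeval y (g 0) * y 0) = 0 := by
        linear_combination hg
      have h5 := (mul_eq_zero.1 h4).resolve_left hy0
      linear_combination h5
    by_cases h1 : g 1 = 0
    · rw [h1, map_zero, zero_mul, add_zero] at hg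
      have h6 := (mul_eq_zero.1 hg).resolve_right (pow_ne_zero 2 hy0)
      have h7 : g 0 = 0 := hd.inj (h6.trans (map_zero _).symm)
      apply hg0
      ext1 k
      fin_cases k
      · exact h7
      · exact h1
      · exact h2
    · exact hQ (ev_div_mem hd h1 h3)
  have hrel0 : aeval y (g 2) * v ^ 2 + aeval y (g 1 * X 0) * v + aeval y (g 0 * X 0 ^ 2) = 0 := by
    simp only [map_mul, map_pow, aeval_X]
    linear_combination hg
  have hex : ∃ a, ∃ α β γ : R3 K, α ∈ H K a ∧ β ∈ H K (a + 1) ∧ γ ∈ H K (a + 2) ∧ α ≠ 0 ∧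
      aeval y α * v ^ 2 + aeval y β * v + aeval y γ = 0 := by
    obtain ⟨i, -, hi⟩ := exists_comp hg2
    exact ⟨i, _, _, _, homogeneousComponent_mem i _, homogeneousComponent_mem (i + 1) _,
      homogeneousComponent_mem (i + 2) _, hi, comp_quad hd hv hrel0 i⟩
  obtain ⟨α, β, γ, hα, hβ, hγ, hα0, hrel⟩ := Nat.find_spec hex
  set a := Nat.find hex with ha
  have hdeg : α.totalDegree = a := hα.totalDegree hα0
  have hprime : ∀ d, d ∣ α → d ∣ β → d ∣ γ → IsUnit d := by
    intro d hdα hdβ hdγ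
    by_contra hu
    obtain ⟨α', rfl⟩ := hdα
    obtain ⟨β', rfl⟩ := hdβ
    obtain ⟨γ', rfl⟩ := hdγ
    have hd0 : d ≠ 0 := fun h => hα0 (by rw [h, zero_mul])
    have hα'0 : α' ≠ 0 := fun h => hα0 (by rw [h, mul_zero])
    have h1 := totalDegree_pos hd0 hu
    rw [totalDegree_mul_of_isDomain hd0 hα'0] at hdeg
    have h2 : aeval y α' * v ^ 2 + aeval y β' * v + aeval y γ' = 0 := by
      simp only [map_mul] at hrel
      have h3 : aeval y d * (aeval y α' * v ^ 2 + aeval y β' * v + aeval y γ') = 0 := by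
        linear_combination hrel
      exact (mul_eq_zero.1 h3).resolve_left (ev_ne hd hd0)
    obtain ⟨i, hi1, hi2⟩ := exists_comp hα'0
    exact Nat.find_min hex (m := i) (by omega) ⟨_, _, _, homogeneousComponent_mem i α',
      homogeneousComponent_mem (i + 1) β', homogeneousComponent_mem (i + 2) γ', hi2,
      comp_quad hd hv h2 i⟩
  have ha0 : a = 0 := by
    by_contra hcon
    set G : Polynomial (R3 K) := Polynomial.C α * Polynomial.X ^ 2 + Polynomial.C β * Polynomial.X +
      Polynomial.C γ with hG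
    have hGdeg : G.natDegree = 2 := Polynomial.natDegree_quadratic hα0
    have hGlc : G.leadingCoeff = α := Polynomial.leadingCoeff_quadratic hα0
    have hGp : G.IsPrimitive := by
      intro c hc
      rw [Polynomial.C_dvd_iff_dvd_coeff] at hc
      have h2 := hc 2
      have h1 := hc 1
      have h0 := hc 0
      simp [hG, Polynomial.coeff_X, Polynomial.coeff_C] at h2 h1 h0
      exact hprime c h2 h1 h0
    have hGv : G.eval₂ (aeval y : R3 K →ₐ[K] F).toRingHom v = 0 := by
      rw [hG]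
      simp only [Polynomial.eval₂_add, Polynomial.eval₂_mul, Polynomial.eval₂_C, Polynomial.eval₂_X,
        Polynomial.eval₂_pow]
      exact hrel
    refine no_growth_two hd hv hα0 (by omega) (fun P hP0 hP => ?_)
    have h1 := crit hd hGp hGdeg (by norm_num) hGv (fun P hP hPv => ?_) P hP0 hP
    · rwa [hGlc] at h1
    · obtain ⟨c1, c0, rfl⟩ := Polynomial.exists_eq_X_add_C_of_natDegree_le_one (by omega : P.natDegree ≤ 1)
      simp only [Polynomial.eval₂_add, Polynomial.eval₂_mul, Polynomial.eval₂_C,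
        Polynomial.eval₂_X] at hPv
      have hc1 : c1 = 0 := by
        by_contra hc1
        apply hQ
        refine ⟨-c0 / c1, ?_⟩
        have h3 : phiQ hd c1 ≠ 0 := fun h => hc1 (phiQ_inj hd (h.trans (map_zero _).symm))
        rw [map_div₀, map_neg, div_eq_iff h3]
        linear_combination -hPv
      rw [hc1, map_zero, zero_mul, zero_add] at hPv
      have hc0 : c0 = 0 := phiQ_inj hd (hPv.trans (map_zero _).symm)
      rw [hc1, hc0]
      simp
  rw [ha0] at hα hβ hγ
  obtain ⟨k, hk0, hk⟩ := unit_of_totalDegree hα0 (by omega)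
  refine ⟨C k⁻¹ * β, C k⁻¹ * γ, ?_, ?_, ?_⟩
  · rw [← smul_eq_C_mul]
    exact Submodule.smul_mem _ _ hβ
  · rw [← smul_eq_C_mul]
    exact Submodule.smul_mem _ _ hγ
  · rw [hk, aeval_C] at hrel
    rw [map_mul, map_mul, aeval_C, map_inv₀]
    have hk1 : algebraMap K F k ≠ 0 := by
      rwa [Ne, map_eq_zero]
    field_simp
    linear_combination hrel

end Pool.Agent.Q81.Ci
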