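import Pool.Agent.Q81.CiF

/-! Square roots, tower and independence (MP_96c727_ag). -/

namespace Pool.Agent.Q81.Ci

open IntermediateField Polynomial Module

section
variable {σ : Type}

/-- `-δ0 / δ1` is not a square in a subfield of `Λ(T)`. -/
theorem nonsq_div {T : σ} {a b r : OO σ} (ha : a ∈ Lam ({T}ᶜ : Set σ)) (hr : r ∈ Lam ({T}ᶜ : Set σ))
    (hb : b = cc σ T - r) (hb0 : b ≠ 0) (ha0 : a ≠ 0) {z : OO σ}
    (hz : z ∈ IntermediateField.adjoin (Lam ({T}ᶜ : Set σ)) {cc σ T}) : z ^ 2 ≠ -a / b := by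
  intro h
  have hz0 : z ≠ 0 := by
    rintro rfl
    rw [zero_pow two_ne_zero] at h
    rcases div_eq_zero_iff.1 h.symm with h | h
    · exact ha0 (neg_eq_zero.1 h)
    · exact hb0 h
  apply nonsq (Lam ({T}ᶜ : Set σ)) (tr_Lam (by simp)) hr (neg_mem ha) (inv_mem hz) (T := cc σ T)
  rw [← hb]
  have h2 : z ^ 2 * b = -a := by
    rw [h, div_mul_cancel₀ _ hb0]
  rw [inv_pow, ← h2]
  field_simp

end

section
variable {K : Type*} [Field K] {Ω : Type*} [Field Ω] [Algebra K Ω] {N : ℕ}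

theorem comb_mem {W : Subfield Ω} {κ : Fin 7 → Ω} (hκ : ∀ j, κ j ∈ W) {e : Fin 7 → Fin (N + 1) → K}
    (he : ∀ j i, algebraMap K Ω (e j i) ∈ W) (i : Fin (N + 1)) :
    ∑ j, κ j * algebraMap K Ω (e j i) ∈ W :=
  sum_mem fun j _ => mul_mem (hκ j) (he j i)

/-- The lower bound for polynomial relations of `τ` over an intermediate field. -/
theorem hlow_of {M : IntermediateField K Ω} {τ : Ω} {D : ℕ}
    (h : ∀ z : ℕ → Ω, (∀ l, z l ∈ M) → ∑ l ∈ Finset.range D, z l * τ ^ l = 0 → ∀ l < D, z l = 0)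
    (g : M[X]) (hg : g.natDegree < D) (h0 : aeval τ g = 0) : g = 0 := by
  rw [aeval_eq_sum_range' hg] at h0
  have h1 := h (fun l => (g.coeff l : Ω)) (fun l => (g.coeff l).2) h0
  ext l
  by_cases hl : l < D
  · rw [h1 l hl]
    rfl
  · rw [coeff_eq_zero_of_natDegree_lt (lt_of_lt_of_le hg (not_lt.1 hl))]
    rfl

theorem hlow2_of {F : Type*} [Field F] [Algebra F Ω] {s : Ω} {d : F}
    (hs : s ^ 2 = algebraMap F Ω d) (hd : ∀ z : F, z ^ 2 ≠ d) (g : F[X]) (hg : g.natDegree < 2)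
    (h0 : aeval s g = 0) : g = 0 := by
  by_contra hne
  obtain ⟨h1, h2⟩ := sqrt_deg hs hd
  have h3 := natDegree_le_of_dvd (minpoly.dvd F s h0) hne
  omega

/-- Generation of the residue field by ratios of coordinates. -/
theorem gen_of {s t τ : Ω} {X1 Y1 X2 Y2 l m : K} (hX1 : X1 ≠ 0) (hY1 : Y1 ≠ 0) (hX2 : X2 ≠ 0)
    (hl : l ≠ 0) (hm : m ≠ 0) (hs : s ≠ 0) (ht : t ≠ 0) (hτ : τ ≠ 0)
    (ι : Fin 7 → Fin (N + 1)) (hι : StrictMono ι) (e : Fin 7 → Fin (N + 1) → K)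
    (h1 : ∀ j, e j (ι j) = 1) (h2 : ∀ j i, ι j < i → e j i = 0) {κ : Fin 7 → Ω}
    (hκ : κ = ![algebraMap K Ω X1, algebraMap K Ω Y1 * s, algebraMap K Ω X2 * τ,
      algebraMap K Ω Y2 * t * τ, algebraMap K Ω l * t, algebraMap K Ω m * s * τ,
      algebraMap K Ω m * s * t * τ]) (A : IntermediateField K Ω)
    (hA : ∀ i, (∑ j, κ j * algebraMap K Ω (e j i)) / κ 6 ∈ A) : s ∈ A ∧ t ∈ A ∧ τ ∈ A := by
  have inj : ∀ z : K, z ≠ 0 → algebraMap K Ω z ≠ 0 := fun z hz h => hz ((map_eq_zero _).1 h)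
  have h3 : ∀ j, κ j * (κ 6)⁻¹ ∈ A := by
    intro j
    have := tri ι hι e h1 h2 κ
      (Submodule.comap (LinearMap.mulRight K (κ 6)⁻¹) (Subalgebra.toSubmodule A.toSubalgebra))
      (fun i => by
        have := hA i
        rw [div_eq_mul_inv] at this
        exact this) j
    exact this
  have e0 : κ 0 = algebraMap K Ω X1 := by rw [hκ]; rfl
  have e1 : κ 1 = algebraMap K Ω Y1 * s := by rw [hκ]; rfl
  have e2 : κ 2 = algebraMap K Ω X2 * τ := by rw [hκ]; rfl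
  have e4 : κ 4 = algebraMap K Ω l * t := by rw [hκ]; rfl
  have e6 : κ 6 = algebraMap K Ω m * s * t * τ := by rw [hκ]; rfl
  have h60 : κ 6 ≠ 0 := by
    rw [e6]
    exact mul_ne_zero (mul_ne_zero (mul_ne_zero (inj m hm) hs) ht) hτ
  have hi : (κ 6)⁻¹ ∈ A := by
    have h4 : (κ 6)⁻¹ = κ 0 * (κ 6)⁻¹ * (algebraMap K Ω X1)⁻¹ := by
      rw [e0]
      have := inj _ hX1
      field_simp
    rw [h4]
    exact mul_mem (h3 0) (inv_mem (A.algebraMap_mem _))
  have h6 : κ 6 ∈ A := by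
    have := inv_mem hi
    rwa [inv_inv] at this
  have hκA : ∀ j, κ j ∈ A := by
    intro j
    have h4 : κ j = κ j * (κ 6)⁻¹ * κ 6 := by
      field_simp
    rw [h4]
    exact mul_mem (h3 j) h6
  refine ⟨?_, ?_, ?_⟩
  · have h4 : s = κ 1 * (algebraMap K Ω Y1)⁻¹ := by
      rw [e1]
      have := inj _ hY1
      field_simp
    rw [h4]
    exact mul_mem (hκA 1) (inv_mem (A.algebraMap_mem _))
  · have h4 : t = κ 4 * (algebraMap K Ω l)⁻¹ := by
      rw [e4]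
      have := inj _ hl
      field_simp
    rw [h4]
    exact mul_mem (hκA 4) (inv_mem (A.algebraMap_mem _))
  · have h4 : τ = κ 2 * (algebraMap K Ω X2)⁻¹ := by
      rw [e2]
      have := inj _ hX2
      field_simp
    rw [h4]
    exact mul_mem (hκA 2) (inv_mem (A.algebraMap_mem _))

end

end Pool.Agent.Q81.Ci
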