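import Pool.Agent.Q81.CiBound

/-! A point on an integral surface of degree two has at most six independent coordinates. -/

namespace Pool.Agent.Q81.Ci

open MvPolynomial Module

set_option linter.unusedSectionVars false

variable {K : Type*} [Field K] {m : ℕ}

/-- Hilbert function of `S/I`. -/
noncomputable def hilb (I : Ideal (MvPolynomial (Fin m) K)) (t : ℕ) : ℕ :=
  finrank K ((homogeneousSubmodule (Fin m) K t).map (Ideal.Quotient.mkₐ K I).toLinearMap)

theorem grow_of_tendsto {h : ℕ → ℕ}
    (hh : Filter.Tendsto (fun t => (h t : ℝ) * 2 / (t : ℝ) ^ 2) Filter.atTop (nhds 2)) (C : ℕ) :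
    ∃ t, 2 * h t + C * t < 3 * t ^ 2 := by
  have h1 : ∀ᶠ t : ℕ in Filter.atTop, (h t : ℝ) * 2 / (t : ℝ) ^ 2 < 5 / 2 :=
    hh.eventually (gt_mem_nhds (by norm_num))
  obtain ⟨t, ht1, ht2⟩ := (h1.and (Filter.eventually_gt_atTop (2 * C + 1))).exists
  refine ⟨t, ?_⟩
  have ht0 : (0 : ℝ) < (t : ℝ) := by
    have : 0 < t := by omega
    exact_mod_cast this
  rw [div_lt_iff₀ (by positivity)] at ht1
  have h2 : (2 * C + 1 : ℝ) < t := by exact_mod_cast ht2
  have h3 : (2 * (h t : ℝ) + C * t) < 3 * (t : ℝ) ^ 2 := by
    have : (C : ℝ) * t ≤ (1 / 2) * (t : ℝ) ^ 2 := by nlinarith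
    nlinarith
  exact_mod_cast h3

/-- Main bound. -/
theorem six_of_surface [CharZero K] {I : Ideal (MvPolynomial (Fin m) K)} (hI : I.IsPrime)
    (hhom : ∀ F ∈ I, ∀ t, homogeneousComponent t F ∈ I)
    (htr : Algebra.trdeg K (MvPolynomial (Fin m) K ⧸ I) = 3)
    (hgr : Filter.Tendsto (fun t => (hilb I t : ℝ) * 2 / (t : ℝ) ^ 2) Filter.atTop (nhds 2))
    {L : Type*} [Field L] [Algebra K L] (x : Fin m → L) (hx : ∀ F ∈ I, aeval x F = 0) :
    finrank K (Submodule.span K (Set.range x)) ≤ 6 := by
  classical
  set A := MvPolynomial (Fin m) K ⧸ I with hA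
  have hdom : IsDomain A := Ideal.Quotient.isDomain I
  set F := FractionRing A with hF
  set π : MvPolynomial (Fin m) K →ₐ[K] A := Ideal.Quotient.mkₐ K I with hπ
  set ι : A →ₐ[K] F := IsScalarTower.toAlgHom K A F with hι
  have hιinj : Function.Injective ι := IsFractionRing.injective A F
  set V : Submodule K F := (homogeneousSubmodule (Fin m) K 1).map (ι.comp π).toLinearMap with hV
  have hVt : ∀ t, V ^ t = (homogeneousSubmodule (Fin m) K t).map (ι.comp π).toLinearMap := by
    intro t
    rw [hV, ← Submodule.map_pow, homogeneousSubmodule_one_pow]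
  have hmap : ∀ t, (homogeneousSubmodule (Fin m) K t).map (ι.comp π).toLinearMap =
      ((homogeneousSubmodule (Fin m) K t).map π.toLinearMap).map ι.toLinearMap := by
    intro t
    rw [← Submodule.map_comp]
    rfl
  have hfr : ∀ t, finrank K ↥(V ^ t) = hilb I t := by
    intro t
    rw [hVt, hmap]
    exact (Submodule.equivMapOfInjective ι.toLinearMap hιinj _).symm.finrank_eq
  have hfdV : FiniteDimensional K V := by
    have : FiniteDimensional K (homogeneousSubmodule (Fin m) K 1) :=
      Module.Finite.iff_fg.2 (homogeneousSubmodule_fg (Fin m) K 1)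
    exact Module.Finite.map _ _
  -- the transcendence basis
  obtain ⟨u, -, hu, hub⟩ := exists_isTranscendenceBasis_between (R := K) (A := A) ∅
    (Set.range fun i : Fin m => π (X i)) (Set.empty_subset _)
    (by
      have hinj : Function.Injective (algebraMap K A) := (algebraMap K A).injective
      exact algebraicIndependent_empty_type_iff.2 hinj)
    (ht := by
      have htop : Algebra.adjoin K (Set.range fun i : Fin m => π (X i)) = ⊤ := by
        have h1 : (Set.range fun i : Fin m => π (X i)) = π '' (Set.range X) := by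
          rw [← Set.range_comp]
          rfl
        rw [h1, ← AlgHom.map_adjoin, MvPolynomial.adjoin_range_X]
        rw [Algebra.map_top, AlgHom.range_eq_top]
        exact Ideal.Quotient.mk_surjective
      rw [htop]
      refine ⟨fun a => isAlgebraic_algebraMap (⟨a, Algebra.mem_top⟩ : (⊤ : Subalgebra K A))⟩)
  have hcard : Cardinal.mk u = 3 := by
    rw [hub.cardinalMk_eq_trdeg, htr]
  have hfin : Finite u := by
    rw [← Cardinal.lt_aleph0_iff_finite, hcard]
    exact_mod_cast Cardinal.natCast_lt_aleph0 (n := 3)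
  have hncard : Nat.card u = 3 := by
    rw [Nat.card, hcard]
    simp
  have e : Fin 3 ≃ u := (Finite.equivFinOfCardEq hncard).symm
  set y : Fin 3 → F := fun i => ι (e i : A) with hy
  have hyind : AlgebraicIndependent K y := by
    have h1 := hub.1.comp e e.injective
    exact h1.map' (f := ι) hιinj
  have hyV : ∀ i, y i ∈ V := by
    intro i
    obtain ⟨j, hj⟩ := hu (e i).2
    refine ⟨X j, isHomogeneous_X K j, ?_⟩
    change ι (π (X j)) = ι (e i : A)
    rw [← hj]
  have hdat : Dat V y := by
    refine ⟨hfdV, hyV, hyind, ?_, ?_⟩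
    · intro C
      obtain ⟨t, ht⟩ := grow_of_tendsto hgr C
      exact ⟨t, by rw [hfr]; exact ht⟩
    · intro n c hc hsum
      have h1 : ∀ t, ∃ G ∈ homogeneousSubmodule (Fin m) K t, ι (π G) = c t := by
        intro t
        have := hc t
        rw [hVt] at this
        exact this
      choose G hG1 hG2 using h1
      have h2 : ι (π (∑ t ∈ Finset.range n, G t)) = 0 := by
        rw [map_sum, map_sum, ← hsum]
        exact Finset.sum_congr rfl fun t _ => hG2 t
      have h3 : ∑ t ∈ Finset.range n, G t ∈ I := by
        have := hιinj (h2.trans (map_zero ι).symm)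
        exact Ideal.Quotient.eq_zero_iff_mem.1 this
      intro t ht
      have h4 := hhom _ h3 t
      have h5 : homogeneousComponent t (∑ t ∈ Finset.range n, G t) = G t := by
        rw [map_sum, Finset.sum_eq_single t]
        · exact homogeneousComponent_eq_self (hG1 t)
        · intro b _ hb
          rw [homogeneousComponent_of_mem (hG1 b), if_neg (Ne.symm hb)]
        · intro h
          exact absurd (Finset.mem_range.2 ht) h
      rw [h5] at h4
      rw [← hG2 t]
      have h6 : π (G t) = 0 := Ideal.Quotient.eq_zero_iff_mem.2 h4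
      rw [h6, map_zero]
  have h6 := six hdat
  -- transport to `L`
  set ψ : A →ₐ[K] L := Ideal.Quotient.liftₐ I (aeval x) hx with hψ
  have hψπ : ∀ G, ψ (π G) = aeval x G := fun G => rfl
  have h7 : Submodule.span K (Set.range x) ≤
      ((homogeneousSubmodule (Fin m) K 1).map π.toLinearMap).map ψ.toLinearMap := by
    rw [Submodule.span_le]
    rintro _ ⟨j, rfl⟩
    refine ⟨π (X j), ⟨X j, isHomogeneous_X K j, rfl⟩, ?_⟩
    change ψ (π (X j)) = x j
    rw [hψπ, aeval_X]
  have hfdA : FiniteDimensional K ((homogeneousSubmodule (Fin m) K 1).map π.toLinearMap) := by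
    have : FiniteDimensional K (homogeneousSubmodule (Fin m) K 1) :=
      Module.Finite.iff_fg.2 (homogeneousSubmodule_fg (Fin m) K 1)
    exact Module.Finite.map _ _
  have h8 := (Submodule.finrank_mono h7).trans (Submodule.finrank_map_le _ _)
  have h9 : finrank K ((homogeneousSubmodule (Fin m) K 1).map π.toLinearMap) = finrank K V := by
    rw [hV, hmap]
    exact (Submodule.equivMapOfInjective ι.toLinearMap hιinj _).finrank_eq
  omega

end Pool.Agent.Q81.Ci
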