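import Pool.Agent.Q81.CiDef2
import Pool.Agent.Q81.CiPt
import Pool.Agent.Q81.CiZ

/-! Transfer to the definitions of the statement (MP_96c727_ag). -/

namespace Pool.Agent.Q81.CiD

open Module

/-- Transfer of a closed point. -/
noncomputable def ofCi {N e : ℕ} {d : Fin e → ℕ} (P : Ci.ClosedPt (Ci.KB N d) N) :
    ClosedPt (KB N d) N where
  L := P.L
  fieldL := P.fieldL
  algL := P.algL
  finL := P.finL
  x := P.x
  ne_zero := P.ne_zero
  gen := P.gen

theorem coef_eq {N e : ℕ} {d : Fin e → ℕ} (i : Fin e) (m : Fin (N + 1) →₀ ℕ) :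
    coef N d i m = Ci.coef N d i m := by
  by_cases h : IsIdx d i m
  · have h' : m.degree = d i ∧ m ≠ Finsupp.single 0 (d i) := h
    have e1 : coef N d i m = indet ⟨(i, m), h⟩ := dif_pos h
    have e2 : Ci.coef N d i m = algebraMap (MvPolynomial (Ci.Coef N d) ℂ) (Ci.KB N d)
      (MvPolynomial.X ⟨(i, m), h'⟩) := dif_pos h'
    rw [e1, e2]
    rfl
  · have h' : ¬ (m.degree = d i ∧ m ≠ Finsupp.single 0 (d i)) := h
    have e1 : coef N d i m = if m = Finsupp.single 0 (d i) then 1 else 0 := dif_neg h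
    have e2 : Ci.coef N d i m = if m = Finsupp.single 0 (d i) then 1 else 0 := dif_neg h'
    rw [e1, e2]
    by_cases h2 : m = Finsupp.single 0 (d i)
    · rw [if_pos h2, if_pos h2]
      rfl
    · rw [if_neg h2, if_neg h2]
      rfl

theorem uform_eq {N e : ℕ} {d : Fin e → ℕ} (i : Fin e) : uform N d i = Ci.uform N d i := by
  unfold uform Ci.uform
  exact Finset.sum_congr rfl fun m _ => congrArg (MvPolynomial.monomial m) (coef_eq i m)

theorem onX_of {N e : ℕ} {d : Fin e → ℕ} {P : Ci.ClosedPt (Ci.KB N d) N} (h : P.OnX) :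
    (ofCi P).OnX := by
  intro i
  rw [uform_eq]
  exact h i

instance {N e : ℕ} {d : Fin e → ℕ} : CharZero (KB N d) :=
  inferInstanceAs (CharZero (Ci.KB N d))

theorem exists_pt (N D : ℕ) (hN : 7 ≤ N + 1) (hD : 2 ≤ D) :
    ∃ P : ClosedPt (KB N ![2, D]) N, P.OnX ∧ P.degree = 2 * (2 * D) ∧
      7 ≤ finrank (KB N ![2, D]) (Submodule.span (KB N ![2, D]) (Set.range P.x)) := by
  obtain ⟨P, h1, h2, h3⟩ := Ci.exists_point N D hN hD
  exact ⟨ofCi P, onX_of h1, h2, h3⟩

theorem six_of_intSub {K : Type} [Field K] [CharZero K] {N : ℕ} (Z : IntSub K N 2 2)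
    (P : ClosedPt K N) (h : Z.Contains P) :
    finrank K (Submodule.span K (Set.range P.x)) ≤ 6 := by
  have hdim : Algebra.trdeg K (CR Z.I) = 3 := by
    rw [Z.dim]
    norm_num
  have hdeg : Filter.Tendsto (fun t : ℕ => (hilbF Z.I t : ℝ) * 2 / (t : ℝ) ^ 2) Filter.atTop
      (nhds 2) := by
    have h := Z.deg
    simp only [Nat.factorial_two, Nat.cast_ofNat] at h
    exact h
  exact Ci.six_of_surface (m := N + 1) (I := Z.I) Z.prime Z.homog hdim hdeg P.x h

end Pool.Agent.Q81.CiD
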