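import Mathlib

/-!
# A Tonelli computation
-/

namespace Q81.Circ

open MeasureTheory Set
open scoped ENNReal

lemma lintegral_linear {a x : ℝ} (h : a ≤ x) :
    ∫⁻ t in Ioo a x, ENNReal.ofReal (t - a) = ENNReal.ofReal ((x - a) ^ 2 / 2) := by
  have h1 : IntegrableOn (fun t => t - a) (Ioo a x) :=
    (Continuous.integrableOn_Icc (by fun_prop)).mono_set Ioo_subset_Icc_self
  rw [← ofReal_integral_eq_lintegral_ofReal h1]
  · congr 1
    rw [← integral_Ioc_eq_integral_Ioo, ← intervalIntegral.integral_of_le h]
    simp only [intervalIntegral.integral_comp_sub_right (fun t => t)]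
    simp
  · rw [Filter.EventuallyLE, ae_restrict_iff' measurableSet_Ioo]
    exact ae_of_all _ fun t ht => sub_nonneg.2 ht.1.le

/-- Let `g` be positive and measurable, with superlevel sets `{g > l} = (a, x l)` inside `(a, w)`.
Then `∫_a^w ∫_θ^w g = ∫_0^∞ (x l - a)^2 / 2 dl`. -/
theorem tonelli {a w : ℝ} {g x : ℝ → ℝ} (hg : Measurable g)
    (hx : ∀ l > 0, a ≤ x l ∧ x l ≤ w)
    (hiff : ∀ t ∈ Ioo a w, ∀ l > 0, l < g t ↔ t < x l) :
    ∫⁻ θ in Ioo a w, ∫⁻ t in Ioo θ w, ENNReal.ofReal (g t) =
      ∫⁻ l in Ioi 0, ENNReal.ofReal ((x l - a) ^ 2 / 2) := by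
  -- first swap
  have h1 : ∫⁻ θ in Ioo a w, ∫⁻ t in Ioo θ w, ENNReal.ofReal (g t) =
      ∫⁻ t in Ioo a w, ENNReal.ofReal (t - a) * ENNReal.ofReal (g t) := by
    have e1 : ∀ θ ∈ Ioo a w, ∫⁻ t in Ioo θ w, ENNReal.ofReal (g t) =
        ∫⁻ t in Ioo a w, (Ioi θ).indicator (fun t => ENNReal.ofReal (g t)) t := by
      intro θ hθ
      rw [lintegral_indicator measurableSet_Ioi, Measure.restrict_restrict measurableSet_Ioi]
      congr 2
      ext t
      simp only [mem_Ioo, mem_inter_iff, mem_Ioi]
      constructor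
      · rintro ⟨h1, h2⟩; exact ⟨h1, hθ.1.trans h1, h2⟩
      · rintro ⟨h1, -, h2⟩; exact ⟨h1, h2⟩
    rw [setLIntegral_congr_fun measurableSet_Ioo e1]
    rw [lintegral_lintegral_swap]
    · refine setLIntegral_congr_fun measurableSet_Ioo fun t ht => ?_
      have e2 : ∀ θ : ℝ, (Ioi θ).indicator (fun t => ENNReal.ofReal (g t)) t =
          (Iio t).indicator (fun _ => ENNReal.ofReal (g t)) θ := by
        intro θ
        by_cases h : θ < t
        · rw [indicator_of_mem (show t ∈ Ioi θ from h), indicator_of_mem (show θ ∈ Iio t from h)]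
        · rw [indicator_of_notMem (show t ∉ Ioi θ from h), indicator_of_notMem (show θ ∉ Iio t from h)]
      simp only [e2]
      rw [lintegral_indicator measurableSet_Iio, Measure.restrict_restrict measurableSet_Iio,
        lintegral_const, Measure.restrict_apply MeasurableSet.univ, univ_inter]
      have e3 : Iio t ∩ Ioo a w = Ioo a t := by
        ext θ
        simp only [mem_inter_iff, mem_Iio, mem_Ioo]
        constructor
        · rintro ⟨h1, h2, -⟩; exact ⟨h2, h1⟩
        · rintro ⟨h1, h2⟩; exact ⟨h2, h1, h2.trans ht.2⟩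
      rw [e3, Real.volume_Ioo, mul_comm]
    · apply Measurable.aemeasurable
      have : (Function.uncurry fun θ => (Ioi θ).indicator fun t => ENNReal.ofReal (g t)) =
          {p : ℝ × ℝ | p.1 < p.2}.indicator fun p => ENNReal.ofReal (g p.2) := by
        ext ⟨θ, t⟩
        simp only [Function.uncurry, indicator, mem_Ioi, mem_ofPred_eq]
      rw [this]
      refine Measurable.indicator ?_ (measurableSet_lt measurable_fst measurable_snd)
      exact (hg.comp measurable_snd).ennreal_ofReal
  rw [h1]
  -- second swap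
  have h2 : ∫⁻ t in Ioo a w, ENNReal.ofReal (t - a) * ENNReal.ofReal (g t) =
      ∫⁻ t in Ioo a w, ∫⁻ l in Ioi 0, (Iio (g t)).indicator (fun _ => ENNReal.ofReal (t - a)) l := by
    refine setLIntegral_congr_fun measurableSet_Ioo fun t _ => ?_
    rw [lintegral_indicator measurableSet_Iio, Measure.restrict_restrict measurableSet_Iio,
      lintegral_const, Measure.restrict_apply MeasurableSet.univ, univ_inter]
    have e3 : Iio (g t) ∩ Ioi 0 = Ioo 0 (g t) := by
      ext l; simp [and_comm]
    rw [e3, Real.volume_Ioo, sub_zero]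
  rw [h2, lintegral_lintegral_swap]
  · refine setLIntegral_congr_fun measurableSet_Ioi fun l hl => ?_
    have e4 : ∀ t ∈ Ioo a w, (Iio (g t)).indicator (fun _ => ENNReal.ofReal (t - a)) l =
        (Iio (x l)).indicator (fun t => ENNReal.ofReal (t - a)) t := by
      intro t ht
      by_cases h : l < g t
      · rw [indicator_of_mem (show l ∈ Iio (g t) from h),
          indicator_of_mem (show t ∈ Iio (x l) from (hiff t ht l hl).1 h)]
      · rw [indicator_of_notMem (show l ∉ Iio (g t) from h),
          indicator_of_notMem (show t ∉ Iio (x l) from fun h' => h ((hiff t ht l hl).2 h'))]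
    rw [setLIntegral_congr_fun measurableSet_Ioo e4, lintegral_indicator measurableSet_Iio,
      Measure.restrict_restrict measurableSet_Iio]
    have e5 : Iio (x l) ∩ Ioo a w = Ioo a (x l) := by
      ext t
      simp only [mem_inter_iff, mem_Iio, mem_Ioo]
      constructor
      · rintro ⟨h1, h2, -⟩; exact ⟨h2, h1⟩
      · rintro ⟨h1, h2⟩; exact ⟨h2, h1, h2.trans_le (hx l hl).2⟩
    rw [e5]
    exact lintegral_linear (hx l hl).1
  · apply Measurable.aemeasurable
    have : (Function.uncurry fun t => (Iio (g t)).indicator fun _ => ENNReal.ofReal (t - a)) =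
        {p : ℝ × ℝ | p.2 < g p.1}.indicator fun p => ENNReal.ofReal (p.1 - a) := by
      ext ⟨t, l⟩
      simp only [Function.uncurry, indicator, mem_Iio, mem_ofPred_eq]
    rw [this]
    refine Measurable.indicator ?_ (measurableSet_lt measurable_snd (hg.comp measurable_fst))
    exact (measurable_fst.sub_const a).ennreal_ofReal

end Q81.Circ
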