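import Mathlib
import Pool.Agent.Q81.Circ1

/-!
# Weighted points on the circle: the conjugate function `b` and its level sets
-/

namespace Q81.Circ

open MeasureTheory Set Filter Topology Real

/-- `cot (φ / 2)`. -/
noncomputable def ct (φ : ℝ) : ℝ := Real.cos (φ / 2) / Real.sin (φ / 2)

lemma ct_neg (φ : ℝ) : ct (-φ) = -ct φ := by
  unfold ct
  rw [neg_div, Real.cos_neg, Real.sin_neg, div_neg]

lemma ct_add_two_pi (φ : ℝ) : ct (φ + 2 * π) = ct φ := by
  unfold ct
  rw [show (φ + 2 * π) / 2 = φ / 2 + π by ring, Real.cos_add_pi, Real.sin_add_pi, neg_div_neg_eq]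

lemma ct_sub_two_pi (φ : ℝ) : ct (φ - 2 * π) = ct φ := by
  rw [← ct_add_two_pi (φ - 2 * π), sub_add_cancel]

lemma ct_lt {φ ψ : ℝ} (h1 : φ < ψ) (h2 : ψ < φ + 2 * π)
    (h3 : 0 < Real.sin (φ / 2) * Real.sin (ψ / 2)) : ct ψ < ct φ := by
  have hφ : Real.sin (φ / 2) ≠ 0 := left_ne_zero_of_mul h3.ne'
  have hψ : Real.sin (ψ / 2) ≠ 0 := right_ne_zero_of_mul h3.ne'
  have h4 : 0 < Real.sin ((ψ - φ) / 2) :=
    Real.sin_pos_of_pos_of_lt_pi (by linarith) (by linarith)
  have h5 : ct φ - ct ψ = Real.sin ((ψ - φ) / 2) / (Real.sin (φ / 2) * Real.sin (ψ / 2)) := by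
    unfold ct
    rw [div_sub_div _ _ hφ hψ, show (ψ - φ) / 2 = ψ / 2 - φ / 2 by ring, Real.sin_sub]
    ring
  have h6 : 0 < ct φ - ct ψ := by rw [h5]; positivity
  linarith

lemma continuousAt_ct {φ : ℝ} (h : Real.sin (φ / 2) ≠ 0) : ContinuousAt ct φ := by
  unfold ct
  exact ContinuousAt.div (by fun_prop) (by fun_prop) h

lemma tendsto_ct_right : Tendsto ct (𝓝[>] 0) atTop := by
  have h1 : Tendsto (fun φ : ℝ => Real.cos (φ / 2)) (𝓝[>] 0) (𝓝 1) := by
    have : Continuous fun φ : ℝ => Real.cos (φ / 2) := by fun_prop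
    have h := this.tendsto 0
    simp only [zero_div, Real.cos_zero] at h
    exact h.mono_left nhdsWithin_le_nhds
  have h2 : Tendsto (fun φ : ℝ => Real.sin (φ / 2)) (𝓝[>] 0) (𝓝[>] 0) := by
    refine tendsto_nhdsWithin_iff.2 ⟨?_, ?_⟩
    · have : Continuous fun φ : ℝ => Real.sin (φ / 2) := by fun_prop
      have h := this.tendsto 0
      simp only [zero_div, Real.sin_zero] at h
      exact h.mono_left nhdsWithin_le_nhds
    · have : Ioo (0 : ℝ) π ∈ 𝓝[>] (0 : ℝ) := Ioo_mem_nhdsGT Real.pi_pos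
      filter_upwards [this] with φ hφ
      exact Real.sin_pos_of_pos_of_lt_pi (by linarith [hφ.1]) (by linarith [hφ.1, hφ.2])
  have h3 := h1.pos_mul_atTop one_pos (tendsto_inv_nhdsGT_zero.comp h2)
  refine h3.congr fun φ => ?_
  simp [ct, div_eq_mul_inv]

lemma tendsto_ct_left : Tendsto ct (𝓝[<] 0) atBot := by
  have h1 : Tendsto (fun φ : ℝ => -ct (-φ)) (𝓝[<] 0) atBot := by
    refine tendsto_neg_atTop_atBot.comp (tendsto_ct_right.comp ?_)
    have : Tendsto (fun x : ℝ => -x) (𝓝[<] 0) (𝓝[>] (-0)) := tendsto_neg_nhdsLT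
    rwa [neg_zero] at this
  refine h1.congr fun φ => ?_
  rw [ct_neg, neg_neg]

/-- A configuration of `s ≥ 1` distinct weighted points `e^{i a_k}` on the circle, listed in
increasing order of their angles, `a_s = a_0 + 2π`. -/
structure Conf where
  s : ℕ
  hs : 1 ≤ s
  a : ℕ → ℝ
  ha : ∀ k < s, a k < a (k + 1)
  hper : a s = a 0 + 2 * π
  P : ℕ → ℝ
  hP : ∀ k < s, 0 < P k
  hsum : ∑ k ∈ Finset.range s, P k = 1

namespace Conf

variable (c : Conf)

/-- The conjugate function. -/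
noncomputable def b (θ : ℝ) : ℝ := ∑ i ∈ Finset.range c.s, c.P i * ct (θ - c.a i)

lemma a_le {i j : ℕ} (hij : i ≤ j) (hj : j ≤ c.s) : c.a i ≤ c.a j := by
  induction j, hij using Nat.le_induction with
  | base => exact le_rfl
  | succ j hij ih => exact (ih (by omega)).trans (c.ha j (by omega)).le

lemma sin_pos {k i : ℕ} (hk : k < c.s) (hi : i ≤ k) {θ : ℝ} (hθ : θ ∈ Ioo (c.a k) (c.a (k + 1))) :
    0 < Real.sin ((θ - c.a i) / 2) := by
  have h1 := c.a_le hi hk.le
  have h2 := c.a_le (show k + 1 ≤ c.s from hk) le_rfl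
  have h3 := c.a_le (Nat.zero_le i) (by omega)
  have h4 := c.hper
  apply Real.sin_pos_of_pos_of_lt_pi
  · linarith [hθ.1]
  · linarith [hθ.2]

lemma sin_neg {k i : ℕ} (hk : k < c.s) (hi : k < i) (his : i < c.s) {θ : ℝ}
    (hθ : θ ∈ Ioo (c.a k) (c.a (k + 1))) : Real.sin ((θ - c.a i) / 2) < 0 := by
  have h1 := c.a_le (show k + 1 ≤ i from hi) his.le
  have h2 := c.a_le (Nat.zero_le k) hk.le
  have h3 : c.a i < c.a c.s := (c.ha i his).trans_le (c.a_le (show i + 1 ≤ c.s from his) le_rfl)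
  have h4 := c.hper
  apply Real.sin_neg_of_neg_of_neg_pi_lt
  · linarith [hθ.2]
  · linarith [hθ.1]

lemma sin_ne {k i : ℕ} (hk : k < c.s) (his : i < c.s) {θ : ℝ}
    (hθ : θ ∈ Ioo (c.a k) (c.a (k + 1))) : Real.sin ((θ - c.a i) / 2) ≠ 0 := by
  rcases le_or_gt i k with h | h
  · exact (c.sin_pos hk h hθ).ne'
  · exact (c.sin_neg hk h his hθ).ne

lemma arc_lt {k : ℕ} (hk : k < c.s) : c.a (k + 1) ≤ c.a k + 2 * π := by
  have h1 := c.a_le (show k + 1 ≤ c.s from hk) le_rfl
  have h2 := c.a_le (Nat.zero_le k) hk.le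
  have h4 := c.hper
  linarith

lemma b_anti {k : ℕ} (hk : k < c.s) {θ θ' : ℝ} (hθ : θ ∈ Ioo (c.a k) (c.a (k + 1)))
    (hθ' : θ' ∈ Ioo (c.a k) (c.a (k + 1))) (h : θ < θ') : c.b θ' < c.b θ := by
  unfold b
  refine Finset.sum_lt_sum_of_nonempty (Finset.nonempty_range_iff.2 (by have := c.hs; omega)) ?_
  intro i hi
  have his := Finset.mem_range.1 hi
  refine mul_lt_mul_of_pos_left (ct_lt (by linarith) ?_ ?_) (c.hP i his)
  · have := c.arc_lt hk
    linarith [hθ.1, hθ'.2]
  · rcases le_or_gt i k with h1 | h1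
    · exact mul_pos (c.sin_pos hk h1 hθ) (c.sin_pos hk h1 hθ')
    · exact mul_pos_of_neg_of_neg (c.sin_neg hk h1 his hθ) (c.sin_neg hk h1 his hθ')

lemma continuousAt_b {k : ℕ} (hk : k < c.s) {θ : ℝ} (hθ : θ ∈ Ioo (c.a k) (c.a (k + 1))) :
    ContinuousAt c.b θ := by
  unfold b
  refine tendsto_finsetSum _ fun i hi => ?_
  have h1 := continuousAt_ct (c.sin_ne hk (Finset.mem_range.1 hi) hθ)
  have h2 : ContinuousAt (fun θ => c.P i * ct (θ - c.a i)) θ :=
    continuousAt_const.mul (ContinuousAt.comp (f := fun θ => θ - c.a i) h1 (by fun_prop))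
  exact h2

/-- At the left end of an arc `b` tends to `+∞`. -/
lemma tendsto_left {k : ℕ} (hk : k < c.s) : Tendsto c.b (𝓝[>] (c.a k)) atTop := by
  have hmem : k ∈ Finset.range c.s := Finset.mem_range.2 hk
  have h1 : Tendsto (fun θ => c.P k * ct (θ - c.a k)) (𝓝[>] (c.a k)) atTop := by
    refine Tendsto.const_mul_atTop (c.hP k hk) (tendsto_ct_right.comp ?_)
    refine tendsto_nhdsWithin_iff.2 ⟨?_, ?_⟩
    · have : Continuous fun θ : ℝ => θ - c.a k := by fun_prop
      have h := this.tendsto (c.a k)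
      rw [sub_self] at h
      exact h.mono_left nhdsWithin_le_nhds
    · filter_upwards [self_mem_nhdsWithin] with θ hθ
      exact mem_Ioi.2 (sub_pos.2 (mem_Ioi.1 hθ))
  have h2 : Tendsto (fun θ => ∑ i ∈ (Finset.range c.s).erase k, c.P i * ct (θ - c.a i))
      (𝓝[>] (c.a k)) (𝓝 (∑ i ∈ (Finset.range c.s).erase k, c.P i * ct (c.a k - c.a i))) := by
    refine tendsto_finsetSum _ fun i hi => ?_
    have hik : i ≠ k := Finset.ne_of_mem_erase hi
    have his : i < c.s := Finset.mem_range.1 (Finset.mem_of_mem_erase hi)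
    have hne : Real.sin ((c.a k - c.a i) / 2) ≠ 0 := by
      have h0k := c.a_le (Nat.zero_le k) hk.le
      have h0i := c.a_le (Nat.zero_le i) his.le
      have hks : c.a k < c.a c.s := (c.ha k hk).trans_le (c.a_le (show k + 1 ≤ c.s from hk) le_rfl)
      have hiss : c.a i < c.a c.s := (c.ha i his).trans_le (c.a_le (show i + 1 ≤ c.s from his) le_rfl)
      have h4 := c.hper
      rcases lt_or_gt_of_ne hik with h | h
      · have h5 : c.a i < c.a k := (c.ha i his).trans_le (c.a_le (show i + 1 ≤ k from h) hk.le)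
        exact (Real.sin_pos_of_pos_of_lt_pi (by linarith) (by linarith)).ne'
      · have h5 : c.a k < c.a i := (c.ha k hk).trans_le (c.a_le (show k + 1 ≤ i from h) his.le)
        exact (Real.sin_neg_of_neg_of_neg_pi_lt (by linarith) (by linarith)).ne
    have h3 : ContinuousAt (fun θ => c.P i * ct (θ - c.a i)) (c.a k) :=
      continuousAt_const.mul (ContinuousAt.comp (f := fun θ => θ - c.a i)
        (continuousAt_ct hne) (by fun_prop))
    exact h3.tendsto.mono_left nhdsWithin_le_nhds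
  have h3 := h1.atTop_add h2
  refine h3.congr fun θ => ?_
  unfold b
  rw [Finset.add_sum_erase (Finset.range c.s) (fun i => c.P i * ct (θ - c.a i)) hmem]

/-- The reflected configuration. -/
noncomputable def refl : Conf where
  s := c.s
  hs := c.hs
  a := fun k => -c.a (c.s - k)
  ha := fun k hk => by
    have h1 := c.ha (c.s - (k + 1)) (by omega)
    have h2 : c.s - (k + 1) + 1 = c.s - k := by omega
    rw [h2] at h1
    linarith
  hper := by
    have := c.hper
    simp only [Nat.sub_self, Nat.sub_zero]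
    linarith
  P := fun k => if k = 0 then c.P 0 else c.P (c.s - k)
  hP := fun k hk => by
    split_ifs with h
    · exact c.hP 0 (by omega)
    · exact c.hP _ (by omega)
  hsum := by
    have hs := c.hs
    obtain ⟨m, hm⟩ : ∃ m, c.s = m + 1 := ⟨c.s - 1, by omega⟩
    have hsum := c.hsum
    rw [hm, Finset.sum_range_succ'] at hsum ⊢
    have h1 : ∑ k ∈ Finset.range m, (if k + 1 = 0 then c.P 0 else c.P (m + 1 - (k + 1))) =
        ∑ k ∈ Finset.range m, c.P (k + 1) := by
      rw [← Finset.sum_range_reflect]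
      refine Finset.sum_congr rfl fun k hk => ?_
      rw [if_neg (by omega)]
      congr 1
      have := Finset.mem_range.1 hk
      omega
    rw [h1, if_pos rfl]
    exact hsum

lemma refl_b (θ : ℝ) : c.refl.b θ = -c.b (-θ) := by
  have hs := c.hs
  obtain ⟨m, hm⟩ : ∃ m, c.s = m + 1 := ⟨c.s - 1, by omega⟩
  have hper := c.hper
  unfold b
  show ∑ i ∈ Finset.range c.s, (if i = 0 then c.P 0 else c.P (c.s - i)) * ct (θ - -c.a (c.s - i)) = _
  rw [hm, Finset.sum_range_succ', Finset.sum_range_succ', neg_add]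
  congr 1
  · rw [← Finset.sum_neg_distrib, ← Finset.sum_range_reflect]
    refine Finset.sum_congr rfl fun k hk => ?_
    have hk' := Finset.mem_range.1 hk
    rw [if_neg (by omega), show m + 1 - (m - 1 - k + 1) = k + 1 by omega, ← mul_neg, ← ct_neg]
    congr 2
    ring
  · rw [if_pos rfl, Nat.sub_zero, ← mul_neg, ← ct_neg]
    rw [hm] at hper
    rw [hper, show θ - -(c.a 0 + 2 * π) = (-(-θ - c.a 0)) + 2 * π by ring, ct_add_two_pi]

/-- At the right end of an arc `b` tends to `-∞`. -/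
lemma tendsto_right {k : ℕ} (hk : k < c.s) : Tendsto c.b (𝓝[<] (c.a (k + 1))) atBot := by
  have h1 := c.refl.tendsto_left (k := c.s - (k + 1)) (show c.s - (k + 1) < c.s by
    have := c.hs; omega)
  have h2 : c.refl.a (c.s - (k + 1)) = -c.a (k + 1) := by
    show -c.a (c.s - (c.s - (k + 1))) = _
    rw [show c.s - (c.s - (k + 1)) = k + 1 by omega]
  rw [h2] at h1
  have h3 : Tendsto (fun θ : ℝ => -c.refl.b (-θ)) (𝓝[<] (c.a (k + 1))) atBot := by
    refine tendsto_neg_atTop_atBot.comp (h1.comp ?_)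
    exact tendsto_neg_nhdsLT
  refine h3.congr fun θ => ?_
  rw [refl_b, neg_neg, neg_neg]

lemma exists_sol {k : ℕ} (hk : k < c.s) (l : ℝ) :
    ∃ x ∈ Ioo (c.a k) (c.a (k + 1)), c.b x = l := by
  have hlt := c.ha k hk
  set mid := (c.a k + c.a (k + 1)) / 2 with hmid
  have h1 := (c.tendsto_left hk).eventually (eventually_gt_atTop l)
  have h2 := (c.tendsto_right hk).eventually (eventually_lt_atBot l)
  have h1' : Ioo (c.a k) mid ∈ 𝓝[>] (c.a k) := Ioo_mem_nhdsGT (by linarith)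
  have h2' : Ioo mid (c.a (k + 1)) ∈ 𝓝[<] (c.a (k + 1)) := Ioo_mem_nhdsLT (by linarith)
  obtain ⟨y, hy1, hy2⟩ := (h1.and h1').exists
  obtain ⟨z, hz1, hz2⟩ := (h2.and h2').exists
  have hyz : y ≤ z := by linarith [hy2.2, hz2.1]
  have hcont : ContinuousOn c.b (Icc y z) := fun t ht =>
    (c.continuousAt_b hk ⟨hy2.1.trans_le ht.1, ht.2.trans_lt hz2.2⟩).continuousWithinAt
  obtain ⟨x, hx, hxl⟩ := intermediate_value_Icc' hyz hcont ⟨hz1.le, hy1.le⟩
  exact ⟨x, ⟨hy2.1.trans_le hx.1, hx.2.trans_lt hz2.2⟩, hxl⟩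

/-- The solution of `b = l` in the `k`-th arc. -/
noncomputable def x (k : ℕ) (l : ℝ) : ℝ :=
  if hk : k < c.s then (c.exists_sol hk l).choose else 0

lemma x_mem {k : ℕ} (hk : k < c.s) (l : ℝ) : c.x k l ∈ Ioo (c.a k) (c.a (k + 1)) := by
  rw [x, dif_pos hk]
  exact (c.exists_sol hk l).choose_spec.1

lemma b_x {k : ℕ} (hk : k < c.s) (l : ℝ) : c.b (c.x k l) = l := by
  rw [x, dif_pos hk]
  exact (c.exists_sol hk l).choose_spec.2

lemma lt_b_iff {k : ℕ} (hk : k < c.s) (l : ℝ) {t : ℝ} (ht : t ∈ Ioo (c.a k) (c.a (k + 1))) :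
    l < c.b t ↔ t < c.x k l := by
  have hx := c.x_mem hk l
  have hbx := c.b_x hk l
  constructor
  · intro h
    by_contra hcon
    push Not at hcon
    rcases hcon.eq_or_lt with h1 | h1
    · rw [h1] at hbx; linarith
    · have := c.b_anti hk hx ht h1
      linarith
  · intro h
    have := c.b_anti hk ht hx h
    linarith

lemma x_anti {k : ℕ} (hk : k < c.s) {l m : ℝ} (h : l < m) : c.x k m < c.x k l := by
  rw [← c.lt_b_iff hk l (c.x_mem hk m), c.b_x hk]
  exact h

end Conf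

end Q81.Circ
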