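import Mathlib
import Pool.Agent.Q81.Circ2

/-!
# Löwner's lemma: the total length of the level sets
-/

namespace Q81.Circ

open MeasureTheory Set Filter Topology Real

/-- `cot ((θ - a)/2) (z - ζ) = i (z + ζ)` for `z = e^{iθ}`, `ζ = e^{ia}`. -/
lemma ct_eq {θ a : ℝ} (h : Real.sin ((θ - a) / 2) ≠ 0) :
    ((ct (θ - a) : ℝ) : ℂ) * (Complex.exp (θ * Complex.I) - Complex.exp (a * Complex.I)) =
      Complex.I * (Complex.exp (θ * Complex.I) + Complex.exp (a * Complex.I)) := by
  set u : ℝ := (θ + a) / 2 with hu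
  set v : ℝ := (θ - a) / 2 with hv
  have e1 : Complex.exp (θ * Complex.I) = Complex.exp (u * Complex.I) * Complex.exp (v * Complex.I) := by
    rw [← Complex.exp_add]; congr 1; rw [hu, hv]; push_cast; ring
  have e2 : Complex.exp (a * Complex.I) =
      Complex.exp (u * Complex.I) * Complex.exp (((-v : ℝ) : ℂ) * Complex.I) := by
    rw [← Complex.exp_add]; congr 1; rw [hu, hv]; push_cast; ring
  have e3 : Complex.exp (v * Complex.I) = Real.cos v + Real.sin v * Complex.I := by
    rw [Complex.exp_mul_I]; push_cast; ring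
  have e4 : Complex.exp (((-v : ℝ) : ℂ) * Complex.I) = Real.cos v - Real.sin v * Complex.I := by
    rw [Complex.exp_mul_I]; push_cast
    rw [Complex.cos_neg, Complex.sin_neg]; ring
  have e5 : ((ct (θ - a) : ℝ) : ℂ) = (Real.cos v : ℂ) / (Real.sin v : ℂ) :=
    Complex.ofReal_div _ _
  have hs : (Real.sin v : ℂ) ≠ 0 := by exact_mod_cast h
  rw [e1, e2, e3, e4, e5]
  field_simp
  ring

namespace Conf

variable (c : Conf)

open Polynomial in
/-- `e^{iS} (l - i) = l + i` for `S = ∑ (x_k(l) - a_k)`. -/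
lemma exp_sum (l : ℝ) :
    Complex.exp (((∑ k ∈ Finset.range c.s, (c.x k l - c.a k) : ℝ) : ℂ) * Complex.I) *
      ((l : ℂ) - Complex.I) = (l : ℂ) + Complex.I := by
  classical
  set s := c.s with hs
  set ζ : ℕ → ℂ := fun i => Complex.exp ((c.a i : ℝ) * Complex.I) with hζ
  set z : ℕ → ℂ := fun i => Complex.exp ((c.x i l : ℝ) * Complex.I) with hz
  set q : ℕ → ℂ[X] := fun j => (X + C (ζ j)) * ∏ i ∈ (Finset.range s).erase j, (X - C (ζ i)) with hq
  set D0 : ℂ[X] := ∏ i ∈ Finset.range s, (X - C (ζ i)) with hD0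
  set D1 : ℂ[X] := ∏ i ∈ Finset.range s, (X - C (z i)) with hD1
  set R : ℂ[X] := (∑ j ∈ Finset.range s, C (Complex.I * (c.P j : ℂ)) * q j) - C (l : ℂ) * D0 -
    C (Complex.I - l) * D1 with hR
  -- monic facts
  have hmonD0 : D0.Monic ∧ D0.natDegree = s := by
    refine ⟨monic_prod_of_monic _ _ fun i _ => monic_X_sub_C _, ?_⟩
    rw [hD0, natDegree_prod_of_monic _ _ fun i _ => monic_X_sub_C _]
    simp
  have hmonD1 : D1.Monic ∧ D1.natDegree = s := by
    refine ⟨monic_prod_of_monic _ _ fun i _ => monic_X_sub_C _, ?_⟩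
    rw [hD1, natDegree_prod_of_monic _ _ fun i _ => monic_X_sub_C _]
    simp
  have hmonq : ∀ j ∈ Finset.range s, (q j).Monic ∧ (q j).natDegree = s := by
    intro j hj
    have h1 : (∏ i ∈ (Finset.range s).erase j, (X - C (ζ i))).Monic :=
      monic_prod_of_monic _ _ fun i _ => monic_X_sub_C _
    refine ⟨(monic_X_add_C _).mul h1, ?_⟩
    rw [hq]
    simp only
    rw [(monic_X_add_C _).natDegree_mul h1, natDegree_X_add_C,
      natDegree_prod_of_monic _ _ fun i _ => monic_X_sub_C _]
    simp only [natDegree_X_sub_C, Finset.sum_const, smul_eq_mul, mul_one]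
    rw [Finset.card_erase_of_mem hj, Finset.card_range]
    have := c.hs
    omega
  have coeffMonic : ∀ p : ℂ[X], p.Monic ∧ p.natDegree = s → p.coeff s = 1 := by
    rintro p ⟨h1, h2⟩
    rw [← h2]; exact h1
  have hdeg : R.degree < s := by
    rw [degree_lt_iff_coeff_zero]
    intro m hm
    rcases hm.eq_or_lt with h | h
    · subst h
      rw [hR, coeff_sub, coeff_sub, coeff_C_mul, coeff_C_mul, finsetSum_coeff,
        coeffMonic D0 hmonD0, coeffMonic D1 hmonD1]
      have h3 : ∑ j ∈ Finset.range s, (C (Complex.I * (c.P j : ℂ)) * q j).coeff s =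
          ∑ j ∈ Finset.range s, Complex.I * (c.P j : ℂ) := by
        refine Finset.sum_congr rfl fun j hj => ?_
        rw [coeff_C_mul, coeffMonic _ (hmonq j hj), mul_one]
      have h4 : (∑ j ∈ Finset.range s, (c.P j : ℂ)) = 1 := by
        have := c.hsum
        rw [← Complex.ofReal_one, ← this]; push_cast; rfl
      rw [h3, ← Finset.mul_sum, h4]
      ring
    · have hz0 : ∀ p : ℂ[X], p.natDegree = s → p.coeff m = 0 := fun p hp =>
        coeff_eq_zero_of_natDegree_lt (by rw [hp]; exact h)
      rw [hR, coeff_sub, coeff_sub, coeff_C_mul, coeff_C_mul, finsetSum_coeff,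
        hz0 D0 hmonD0.2, hz0 D1 hmonD1.2]
      rw [Finset.sum_eq_zero]
      · ring
      · intro j hj
        rw [coeff_C_mul, hz0 _ (hmonq j hj).2, mul_zero]
  -- the points `z k` are distinct roots
  have hroot : ∀ k < s, R.eval (z k) = 0 := by
    intro k hk
    have hxk := c.x_mem hk l
    have hbk := c.b_x hk l
    have hne : ∀ i < s, Real.sin ((c.x k l - c.a i) / 2) ≠ 0 := fun i hi => c.sin_ne hk hi hxk
    have hD1k : D1.eval (z k) = 0 := by
      rw [hD1, eval_prod]
      exact Finset.prod_eq_zero (Finset.mem_range.2 hk) (by simp)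
    have h5 : ∀ j ∈ Finset.range s, Complex.I * (c.P j : ℂ) * (q j).eval (z k) =
        (c.P j : ℂ) * ((ct (c.x k l - c.a j) : ℝ) : ℂ) * D0.eval (z k) := by
      intro j hj
      have h6 := ct_eq (hne j (Finset.mem_range.1 hj))
      have h7 : D0.eval (z k) = (z k - ζ j) * ∏ i ∈ (Finset.range s).erase j, (z k - ζ i) := by
        rw [hD0, eval_prod, ← Finset.mul_prod_erase _ _ hj]
        simp
      have h8 : (q j).eval (z k) = (z k + ζ j) * ∏ i ∈ (Finset.range s).erase j, (z k - ζ i) := by
        rw [hq]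
        simp [eval_prod]
      rw [h7, h8]
      have h9 : ((ct (c.x k l - c.a j) : ℝ) : ℂ) * (z k - ζ j) = Complex.I * (z k + ζ j) := h6
      linear_combination (-(c.P j : ℂ) * ∏ i ∈ (Finset.range s).erase j, (z k - ζ i)) * h9
    rw [hR, eval_sub, eval_sub, eval_mul, eval_mul, eval_C, eval_C, hD1k, eval_finsetSum]
    have h10 : ∑ j ∈ Finset.range s, (C (Complex.I * (c.P j : ℂ)) * q j).eval (z k) =
        (l : ℂ) * D0.eval (z k) := by
      have h11 : ∑ j ∈ Finset.range s, (C (Complex.I * (c.P j : ℂ)) * q j).eval (z k) =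
          ∑ j ∈ Finset.range s, (c.P j : ℂ) * ((ct (c.x k l - c.a j) : ℝ) : ℂ) * D0.eval (z k) := by
        refine Finset.sum_congr rfl fun j hj => ?_
        rw [eval_mul, eval_C]
        exact h5 j hj
      have hl : (l : ℂ) = ∑ j ∈ Finset.range s,
          (c.P j : ℂ) * ((ct (c.x k l - c.a j) : ℝ) : ℂ) := by
        have h12 : c.b (c.x k l) = ∑ j ∈ Finset.range s, c.P j * ct (c.x k l - c.a j) := rfl
        rw [hbk] at h12
        have h13 := congrArg (fun r : ℝ => (r : ℂ)) h12
        simp only [Complex.ofReal_sum, Complex.ofReal_mul] at h13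
        exact h13
      rw [h11, ← Finset.sum_mul, ← hl]
    rw [h10]
    ring
  have hinj : Set.InjOn z (Finset.range s : Set ℕ) := by
    have aux : ∀ i j, i < j → j < s → z i ≠ z j := by
      intro i j hij hj h
      have hi := c.x_mem (show i < c.s by omega) l
      have hj' := c.x_mem hj l
      have h1 := c.a_le (show i + 1 ≤ j from hij) (le_of_lt hj)
      have h2 := c.a_le (Nat.zero_le i) (by omega)
      have h3 := c.a_le (show j + 1 ≤ c.s from hj) le_rfl
      have h4 := c.hper
      rw [hz] at h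
      simp only at h
      rw [Complex.exp_eq_exp_iff_exists_int] at h
      obtain ⟨n, hn⟩ := h
      have h5 : c.x i l = c.x j l + n * (2 * π) := by
        have h6 : ((c.x i l : ℝ) : ℂ) * Complex.I =
            (((c.x j l + n * (2 * π) : ℝ)) : ℂ) * Complex.I := by
          rw [hn]; push_cast; ring
        have h7 := mul_right_cancel₀ Complex.I_ne_zero h6
        exact_mod_cast h7
      have hpi := Real.pi_pos
      have h8 : (n : ℝ) < 0 := by
        by_contra hcon
        push Not at hcon
        nlinarith [hi.2, hj'.1]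
      have h9 : (n : ℝ) ≤ -1 := by
        have : n < 0 := by exact_mod_cast h8
        have : n ≤ -1 := by omega
        exact_mod_cast this
      nlinarith [hi.1, hj'.2]
    intro i hi j hj h
    have hi' := Finset.mem_range.1 (Finset.mem_coe.1 hi)
    have hj' := Finset.mem_range.1 (Finset.mem_coe.1 hj)
    rcases lt_trichotomy i j with h1 | h1 | h1
    · exact absurd h (aux i j h1 hj')
    · exact h1
    · exact absurd h.symm (aux j i h1 hi')
  have hR0 : R = 0 := by
    apply Polynomial.eq_zero_of_degree_lt_of_eval_finset_eq_zero ((Finset.range s).image z)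
    · rw [Finset.card_image_of_injOn hinj, Finset.card_range]
      exact hdeg
    · intro w hw
      obtain ⟨k, hk, rfl⟩ := Finset.mem_image.1 hw
      exact hroot k (Finset.mem_range.1 hk)
  -- evaluate at `0`
  have h0 := congrArg (eval 0) hR0
  rw [hR, eval_sub, eval_sub, eval_mul, eval_mul, eval_C, eval_C, eval_finsetSum, eval_zero] at h0
  have hD00 : D0.eval 0 = (-1) ^ s * ∏ i ∈ Finset.range s, ζ i := by
    rw [hD0, eval_prod]
    have : ∀ i ∈ Finset.range s, (X - C (ζ i)).eval 0 = (-1) * ζ i := fun i _ => by simp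
    rw [Finset.prod_congr rfl this, Finset.prod_mul_distrib]
    simp
  have hD10 : D1.eval 0 = (-1) ^ s * ∏ i ∈ Finset.range s, z i := by
    rw [hD1, eval_prod]
    have : ∀ i ∈ Finset.range s, (X - C (z i)).eval 0 = (-1) * z i := fun i _ => by simp
    rw [Finset.prod_congr rfl this, Finset.prod_mul_distrib]
    simp
  have hq0 : ∀ j ∈ Finset.range s, (q j).eval 0 = -D0.eval 0 := by
    intro j hj
    have h7 : D0.eval 0 = (0 - ζ j) * ∏ i ∈ (Finset.range s).erase j, (0 - ζ i) := by
      rw [hD0, eval_prod, ← Finset.mul_prod_erase _ _ hj]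
      simp
    have h8 : (q j).eval 0 = (0 + ζ j) * ∏ i ∈ (Finset.range s).erase j, (0 - ζ i) := by
      rw [hq]
      simp [eval_prod]
    rw [h7, h8]; ring
  have hsum0 : ∑ j ∈ Finset.range s, (C (Complex.I * (c.P j : ℂ)) * q j).eval 0 =
      -Complex.I * D0.eval 0 := by
    have h11 : ∑ j ∈ Finset.range s, (C (Complex.I * (c.P j : ℂ)) * q j).eval 0 =
        ∑ j ∈ Finset.range s, (c.P j : ℂ) * (-Complex.I * D0.eval 0) := by
      refine Finset.sum_congr rfl fun j hj => ?_
      rw [eval_mul, eval_C, hq0 j hj]; ring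
    have h4 : (∑ j ∈ Finset.range s, (c.P j : ℂ)) = 1 := by
      have := c.hsum
      rw [← Complex.ofReal_one, ← this]; push_cast; rfl
    rw [h11, ← Finset.sum_mul, h4, one_mul]
  rw [hsum0, hD00, hD10] at h0
  have hpow : ((-1 : ℂ)) ^ s ≠ 0 := pow_ne_zero _ (by norm_num)
  have h12 : ((l : ℂ) + Complex.I) * ∏ i ∈ Finset.range s, ζ i =
      ((l : ℂ) - Complex.I) * ∏ i ∈ Finset.range s, z i := by
    apply mul_left_cancel₀ hpow
    linear_combination -h0
  have hζprod : ∏ i ∈ Finset.range s, ζ i =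
      Complex.exp (((∑ k ∈ Finset.range s, c.a k : ℝ) : ℂ) * Complex.I) := by
    rw [hζ, ← Complex.exp_sum]
    push_cast
    rw [Finset.sum_mul]
  have hzprod : ∏ i ∈ Finset.range s, z i =
      Complex.exp (((∑ k ∈ Finset.range s, c.x k l : ℝ) : ℂ) * Complex.I) := by
    rw [hz, ← Complex.exp_sum]
    push_cast
    rw [Finset.sum_mul]
  have h13 : ∏ i ∈ Finset.range s, z i =
      Complex.exp (((∑ k ∈ Finset.range s, (c.x k l - c.a k) : ℝ) : ℂ) * Complex.I) *
        ∏ i ∈ Finset.range s, ζ i := by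
    rw [hζprod, hzprod, ← Complex.exp_add]
    congr 1
    rw [Finset.sum_sub_distrib]
    push_cast
    ring
  have hne : ∏ i ∈ Finset.range s, ζ i ≠ 0 := by
    rw [hζprod]; exact Complex.exp_ne_zero _
  rw [h13] at h12
  apply mul_right_cancel₀ hne
  linear_combination -h12

/-- Total length of `{b > l}`. -/
noncomputable def S (l : ℝ) : ℝ := ∑ k ∈ Finset.range c.s, (c.x k l - c.a k)

lemma S_mem (l : ℝ) : c.S l ∈ Ioo 0 (2 * π) := by
  have hne : (Finset.range c.s).Nonempty := Finset.nonempty_range_iff.2 (by have := c.hs; omega)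
  constructor
  · unfold S
    apply Finset.sum_pos _ hne
    intro k hk
    have := (c.x_mem (Finset.mem_range.1 hk) l).1
    linarith
  · have h1 : c.S l < ∑ k ∈ Finset.range c.s, (c.a (k + 1) - c.a k) := by
      unfold S
      refine Finset.sum_lt_sum_of_nonempty hne fun k hk => ?_
      have := (c.x_mem (Finset.mem_range.1 hk) l).2
      linarith
    rw [Finset.sum_range_sub, c.hper] at h1
    linarith

/-- The total length of `{b > l}` does not depend on the configuration. -/
lemma S_eq (c c' : Conf) (l : ℝ) : c.S l = c'.S l := by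
  have h1 := c.exp_sum l
  have h2 := c'.exp_sum l
  have hne : (l : ℂ) - Complex.I ≠ 0 := by
    intro h
    have := congrArg Complex.im h
    simp at this
  have h3 : Complex.exp ((c.S l : ℂ) * Complex.I) = Complex.exp ((c'.S l : ℂ) * Complex.I) := by
    apply mul_right_cancel₀ hne
    unfold S
    rw [h1, h2]
  rw [Complex.exp_eq_exp_iff_exists_int] at h3
  obtain ⟨n, hn⟩ := h3
  have h5 : c.S l = c'.S l + n * (2 * π) := by
    have h6 : ((c.S l : ℝ) : ℂ) * Complex.I =
        (((c'.S l + n * (2 * π) : ℝ)) : ℂ) * Complex.I := by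
      rw [hn]; push_cast; ring
    have h7 := mul_right_cancel₀ Complex.I_ne_zero h6
    exact_mod_cast h7
  have hm := c.S_mem l
  have hm' := c'.S_mem l
  have hpi := Real.pi_pos
  have h8 : (n : ℝ) < 1 := by
    by_contra hcon
    push Not at hcon
    nlinarith [hm.2, hm'.1]
  have h9 : (-1 : ℝ) < n := by
    by_contra hcon
    push Not at hcon
    nlinarith [hm.1, hm'.2]
  have h10 : n = 0 := by
    have ha : n < 1 := by exact_mod_cast h8
    have hb : -1 < n := by exact_mod_cast h9
    omega
  rw [h5, h10]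
  simp

end Conf

end Q81.Circ
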