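import Mathlib
import Pool.Agent.Q81.Circ3

/-!
# The potential of a weighted configuration
-/

namespace Q81.Circ

open MeasureTheory Set Filter Topology Real

/-- `log |2 sin (φ / 2)|`. -/
noncomputable def u (φ : ℝ) : ℝ := Real.log (2 * Real.sin (φ / 2))

lemma u_neg (φ : ℝ) : u (-φ) = u φ := by
  unfold u
  rw [neg_div, Real.sin_neg, mul_neg, Real.log_neg_eq_log]

lemma u_add_two_pi (φ : ℝ) : u (φ + 2 * π) = u φ := by
  unfold u
  rw [show (φ + 2 * π) / 2 = φ / 2 + π by ring, Real.sin_add_pi, mul_neg, Real.log_neg_eq_log]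

lemma u_periodic : Function.Periodic u (2 * π) := u_add_two_pi

lemma hasDerivAt_u {φ : ℝ} (h : Real.sin (φ / 2) ≠ 0) : HasDerivAt u (ct φ / 2) φ := by
  have h1 : HasDerivAt (fun φ : ℝ => 2 * Real.sin (φ / 2)) (2 * (Real.cos (φ / 2) * (1 / 2))) φ := by
    have h2 : HasDerivAt (fun φ : ℝ => φ / 2) (1 / 2) φ := by
      simpa using (hasDerivAt_id φ).div_const 2
    exact (h2.sin).const_mul 2
  have h3 := h1.log (mul_ne_zero two_ne_zero h)
  have e : ct φ / 2 = (2 * (Real.cos (φ / 2) * (1 / 2))) / (2 * Real.sin (φ / 2)) := by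
    unfold ct
    field_simp
  rw [e]
  exact h3

lemma measurable_u : Measurable u := by
  unfold u
  exact Real.measurable_log.comp ((Real.measurable_sin.comp (measurable_id.div_const 2)).const_mul 2)

lemma measurable_ct : Measurable ct := by
  unfold ct
  exact (Real.measurable_cos.comp (measurable_id.div_const 2)).div
    (Real.measurable_sin.comp (measurable_id.div_const 2))

lemma intervalIntegrable_log_two_sin (p q : ℝ) :
    IntervalIntegrable (fun x => Real.log (2 * Real.sin x)) volume p q := by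
  have h1 : IntervalIntegrable (fun x => Real.log 2 + Real.log (Real.sin x)) volume p q :=
    intervalIntegrable_const.add (intervalIntegrable_log_sin)
  refine h1.congr_ae ?_
  have h2 : ∀ᵐ x : ℝ, Real.sin x ≠ 0 := by
    have h3 : {x : ℝ | Real.sin x = 0}.Countable := by
      have : {x : ℝ | Real.sin x = 0} ⊆ Set.range fun n : ℤ => (n : ℝ) * π := by
        intro x hx
        obtain ⟨n, hn⟩ := Real.sin_eq_zero_iff.1 hx
        exact ⟨n, hn⟩
      exact (Set.countable_range _).mono this
    exact (h3.ae_notMem volume)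
  refine ae_restrict_of_ae ?_
  filter_upwards [h2] with x hx
  rw [Real.log_mul two_ne_zero hx]

lemma intervalIntegrable_u (p q : ℝ) : IntervalIntegrable u volume p q := by
  have h := (intervalIntegrable_log_two_sin (p / 2) (q / 2)).comp_mul_left (c := 1 / 2)
  simp only [one_div, div_inv_eq_mul, div_mul_cancel₀ _ (two_ne_zero' ℝ)] at h
  refine h.congr ?_
  intro x _
  unfold u
  simp only
  congr 3
  ring

lemma integral_log_two_sin : ∫ x in (0 : ℝ)..π, Real.log (2 * Real.sin x) = 0 := by
  have h1 : ∫ x in (0 : ℝ)..π, Real.log (2 * Real.sin x) =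
      ∫ x in (0 : ℝ)..π, (Real.log 2 + Real.log (Real.sin x)) := by
    rw [intervalIntegral.integral_of_le Real.pi_pos.le, intervalIntegral.integral_of_le
      Real.pi_pos.le, integral_Ioc_eq_integral_Ioo, integral_Ioc_eq_integral_Ioo]
    refine setIntegral_congr_fun measurableSet_Ioo fun x hx => ?_
    exact Real.log_mul two_ne_zero (Real.sin_pos_of_mem_Ioo hx).ne'
  have h2 : IntervalIntegrable (fun x => Real.log (Real.sin x)) volume 0 π :=
    intervalIntegrable_log_sin
  rw [h1, intervalIntegral.integral_add intervalIntegrable_const h2,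
    integral_log_sin_zero_pi, intervalIntegral.integral_const]
  simp only [sub_zero, smul_eq_mul]
  ring

lemma integral_u : ∫ x in (0 : ℝ)..(2 * π), u x = 0 := by
  have h := intervalIntegral.integral_comp_div (fun x => Real.log (2 * Real.sin x))
    (two_ne_zero' ℝ) (a := 0) (b := 2 * π)
  have e : (2 * π) / 2 = π := by ring
  rw [zero_div, e, integral_log_two_sin, smul_zero] at h
  exact h

lemma integral_u_shift (a p : ℝ) : ∫ x in p..(p + 2 * π), u (x - a) = 0 := by
  rw [intervalIntegral.integral_comp_sub_right (fun x => u x) a]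
  rw [show p + 2 * π - a = (p - a) + 2 * π by ring,
    u_periodic.intervalIntegral_add_eq (p - a) 0, zero_add, integral_u]

namespace Conf

variable (c : Conf)

/-- The potential `∑ P_i log |e^{iθ} - e^{ia_i}|`. -/
noncomputable def U (θ : ℝ) : ℝ := ∑ i ∈ Finset.range c.s, c.P i * u (θ - c.a i)

lemma measurable_U : Measurable c.U := by
  unfold U
  exact Finset.measurable_fun_sum _ fun i _ =>
    (measurable_u.comp (measurable_id.sub_const _)).const_mul _

lemma measurable_b : Measurable c.b := by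
  unfold b
  exact Finset.measurable_fun_sum _ fun i _ =>
    (measurable_ct.comp (measurable_id.sub_const _)).const_mul _

lemma intervalIntegrable_U (p q : ℝ) : IntervalIntegrable c.U volume p q := by
  have h1 : ∀ i ∈ Finset.range c.s,
      IntervalIntegrable (fun θ => c.P i * u (θ - c.a i)) volume p q := by
    intro i _
    have h2 := (intervalIntegrable_u (p - c.a i) (q - c.a i)).comp_sub_right (c.a i)
    rw [sub_add_cancel, sub_add_cancel] at h2
    exact h2.const_mul _
  have h3 := IntervalIntegrable.sum (Finset.range c.s) h1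
  have e : (∑ i ∈ Finset.range c.s, fun θ => c.P i * u (θ - c.a i)) = c.U := by
    ext θ; simp [U]
  rw [e] at h3
  exact h3

lemma integral_U : ∫ θ in (c.a 0)..(c.a 0 + 2 * π), c.U θ = 0 := by
  unfold U
  rw [intervalIntegral.integral_finsetSum]
  · refine Finset.sum_eq_zero fun i _ => ?_
    rw [intervalIntegral.integral_const_mul, integral_u_shift, mul_zero]
  · intro i _
    have h2 := (intervalIntegrable_u (c.a 0 - c.a i) (c.a 0 + 2 * π - c.a i)).comp_sub_right (c.a i)
    rw [sub_add_cancel, sub_add_cancel] at h2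
    exact h2.const_mul _

lemma hasDerivAt_U {k : ℕ} (hk : k < c.s) {θ : ℝ} (hθ : θ ∈ Ioo (c.a k) (c.a (k + 1))) :
    HasDerivAt c.U (c.b θ / 2) θ := by
  have h1 : ∀ i ∈ Finset.range c.s,
      HasDerivAt (fun θ => c.P i * u (θ - c.a i)) (c.P i * (ct (θ - c.a i) / 2)) θ := by
    intro i hi
    have h2 := hasDerivAt_u (c.sin_ne hk (Finset.mem_range.1 hi) hθ)
    have h3 : HasDerivAt (fun θ => u (θ - c.a i)) (ct (θ - c.a i) / 2) θ := by
      have h4 := HasDerivAt.comp_sub_const θ (c.a i) h2
      exact h4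
    exact h3.const_mul _
  have h5 := HasDerivAt.fun_sum h1
  have e : c.b θ / 2 = ∑ i ∈ Finset.range c.s, c.P i * (ct (θ - c.a i) / 2) := by
    unfold b
    rw [Finset.sum_div]
    exact Finset.sum_congr rfl fun i _ => by ring
  rw [e]
  exact h5

lemma refl_U (θ : ℝ) : c.refl.U θ = c.U (-θ) := by
  have hs := c.hs
  obtain ⟨m, hm⟩ : ∃ m, c.s = m + 1 := ⟨c.s - 1, by omega⟩
  have hper := c.hper
  unfold U
  show ∑ i ∈ Finset.range c.s, (if i = 0 then c.P 0 else c.P (c.s - i)) * u (θ - -c.a (c.s - i)) = _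
  rw [hm, Finset.sum_range_succ', Finset.sum_range_succ']
  congr 1
  · rw [← Finset.sum_range_reflect]
    refine Finset.sum_congr rfl fun k hk => ?_
    have hk' := Finset.mem_range.1 hk
    rw [if_neg (by omega), show m + 1 - (m - 1 - k + 1) = k + 1 by omega, ← u_neg]
    congr 2
    ring
  · rw [if_pos rfl, Nat.sub_zero]
    rw [hm] at hper
    rw [hper, show θ - -(c.a 0 + 2 * π) = (-(-θ - c.a 0)) + 2 * π by ring, u_add_two_pi, u_neg]

/-- FTC: `∫_θ^w b⁺ = 2 (U w - U θ)` for `θ < w = x_k(0)`. -/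
lemma lintegral_b {k : ℕ} (hk : k < c.s) {θ : ℝ} (hθ : θ ∈ Ioo (c.a k) (c.x k 0)) :
    ∫⁻ t in Ioo θ (c.x k 0), ENNReal.ofReal (c.b t) =
      ENNReal.ofReal (2 * (c.U (c.x k 0) - c.U θ)) := by
  have hw := c.x_mem hk 0
  have hmem : ∀ t ∈ Icc θ (c.x k 0), t ∈ Ioo (c.a k) (c.a (k + 1)) := fun t ht =>
    ⟨hθ.1.trans_le ht.1, ht.2.trans_lt hw.2⟩
  have hcont : ContinuousOn c.b (Icc θ (c.x k 0)) := fun t ht =>
    (c.continuousAt_b hk (hmem t ht)).continuousWithinAt
  have hint : IntegrableOn c.b (Ioo θ (c.x k 0)) :=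
    (hcont.integrableOn_Icc).mono_set Ioo_subset_Icc_self
  rw [← ofReal_integral_eq_lintegral_ofReal hint]
  · congr 1
    rw [← integral_Ioc_eq_integral_Ioo, ← intervalIntegral.integral_of_le hθ.2.le]
    have h1 : ∀ t ∈ uIcc θ (c.x k 0), HasDerivAt (fun t => 2 * c.U t) (c.b t) t := by
      intro t ht
      rw [uIcc_of_le hθ.2.le] at ht
      have h2 := (c.hasDerivAt_U hk (hmem t ht)).const_mul 2
      have e : 2 * (c.b t / 2) = c.b t := by ring
      rw [e] at h2
      exact h2
    rw [intervalIntegral.integral_eq_sub_of_hasDerivAt h1]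
    · ring
    · refine ContinuousOn.intervalIntegrable ?_
      rwa [uIcc_of_le hθ.2.le]
  · rw [Filter.EventuallyLE, ae_restrict_iff' measurableSet_Ioo]
    refine ae_of_all _ fun t ht => ?_
    have h3 := (c.lt_b_iff hk 0 (hmem t ⟨ht.1.le, ht.2.le⟩)).2 ht.2
    exact h3.le

/-- Double integral over one arc. -/
lemma arc_integral {k : ℕ} (hk : k < c.s) :
    ∫⁻ θ in Ioo (c.a k) (c.x k 0), ENNReal.ofReal (2 * (c.U (c.x k 0) - c.U θ)) =
      ∫⁻ l in Ioi 0, ENNReal.ofReal ((c.x k l - c.a k) ^ 2 / 2) := by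
  rw [← tonelli (w := c.x k 0) (g := c.b) c.measurable_b]
  · exact setLIntegral_congr_fun measurableSet_Ioo fun θ hθ => (c.lintegral_b hk hθ).symm
  · intro l hl
    exact ⟨(c.x_mem hk l).1.le, (c.x_anti hk hl).le⟩
  · intro t ht l _
    exact c.lt_b_iff hk l ⟨ht.1, ht.2.trans (c.x_mem hk 0).2⟩

end Conf

end Q81.Circ
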