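import Mathlib
import Pool.Agent.Q81.Circ4

/-!
# The main inequality `max U ≥ (log 2) / s`
-/

namespace Q81.Circ

open MeasureTheory Set Filter Topology Real
open scoped ENNReal

lemma integral_u_half : ∫ x in (0 : ℝ)..π, u x = 0 := by
  have h := intervalIntegral.integral_comp_div (fun x => Real.log (2 * Real.sin x))
    (two_ne_zero' ℝ) (a := 0) (b := π)
  rw [zero_div] at h
  have h1 : ∫ x in (0 : ℝ)..(π / 2), Real.log (2 * Real.sin x) =
      ∫ x in (0 : ℝ)..(π / 2), (Real.log 2 + Real.log (Real.sin x)) := by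
    have hpos : (0 : ℝ) ≤ π / 2 := by positivity
    rw [intervalIntegral.integral_of_le hpos, intervalIntegral.integral_of_le hpos,
      integral_Ioc_eq_integral_Ioo, integral_Ioc_eq_integral_Ioo]
    refine setIntegral_congr_fun measurableSet_Ioo fun x hx => ?_
    exact Real.log_mul two_ne_zero (Real.sin_pos_of_pos_of_lt_pi hx.1
      (by linarith [hx.2, Real.pi_pos])).ne'
  have h2 : IntervalIntegrable (fun x => Real.log (Real.sin x)) volume 0 (π / 2) :=
    intervalIntegrable_log_sin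
  rw [h1, intervalIntegral.integral_add intervalIntegrable_const h2,
    integral_log_sin_zero_pi_div_two, intervalIntegral.integral_const] at h
  have e : (2 : ℝ) • ((π / 2 - 0) • Real.log 2 + -Real.log 2 * π / 2) = 0 := by
    simp only [smul_eq_mul]; ring
  rw [e] at h
  exact h

/-- The configuration with a single point. -/
noncomputable def model : Conf where
  s := 1
  hs := le_rfl
  a := fun k => 2 * π * k
  ha := fun k _ => by push_cast; nlinarith [Real.pi_pos]
  hper := by push_cast; ring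
  P := fun _ => 1
  hP := fun _ _ => one_pos
  hsum := by simp

namespace Conf

/-- `∫_0^∞ S(l)² / 2 dl`. -/
noncomputable def J (c : Conf) : ℝ≥0∞ := ∫⁻ l in Ioi 0, ENNReal.ofReal ((c.S l) ^ 2 / 2)

lemma J_eq (c c' : Conf) : c.J = c'.J := by
  unfold J
  simp only [S_eq c c']

lemma J_model : model.J = ENNReal.ofReal (2 * π * Real.log 2) := by
  have h0 : (0 : ℕ) < model.s := one_pos
  have hpi := Real.pi_pos
  have e1 : model.J = ∫⁻ l in Ioi 0, ENNReal.ofReal ((model.x 0 l - model.a 0) ^ 2 / 2) := by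
    unfold J S
    show ∫⁻ l in Ioi 0, ENNReal.ofReal ((∑ k ∈ Finset.range 1, (model.x k l - model.a k)) ^ 2 / 2) = _
    simp only [Finset.sum_range_one]
  have ha0 : model.a 0 = 0 := by simp [model]
  have ha1 : model.a 1 = 2 * π := by simp [model]
  have hU : ∀ θ, model.U θ = u θ := by
    intro θ
    unfold U
    show ∑ i ∈ Finset.range 1, (1 : ℝ) * u (θ - 2 * π * i) = _
    simp
  have hb : ∀ θ, model.b θ = ct θ := by
    intro θ
    unfold b
    show ∑ i ∈ Finset.range 1, (1 : ℝ) * ct (θ - 2 * π * i) = _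
    simp
  have hx0 : model.x 0 0 = π := by
    have hm : π ∈ Ioo (model.a 0) (model.a (0 + 1)) := by
      rw [ha0, zero_add, ha1]; constructor <;> linarith
    have hbπ : model.b π = 0 := by
      rw [hb]; unfold ct; rw [Real.cos_pi_div_two, zero_div]
    have h1 := model.lt_b_iff h0 0 hm
    rw [hbπ] at h1
    have h2 : ¬ (π < model.x 0 0) := fun h => lt_irrefl _ (h1.2 h)
    have h3 := model.x_mem h0 0
    have h4 := model.b_x h0 0
    by_contra hne
    have h5 : model.x 0 0 < π := lt_of_le_of_ne (not_lt.1 h2) hne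
    have h6 := model.b_anti h0 h3 hm h5
    rw [h4, hbπ] at h6
    exact lt_irrefl _ h6
  rw [e1, ← model.arc_integral h0, hx0, ha0]
  simp only [hU]
  have hint : IntegrableOn (fun θ => 2 * (u π - u θ)) (Ioo 0 π) := by
    have h1 := ((intervalIntegrable_const (c := u π)).sub (intervalIntegrable_u 0 π)).const_mul 2
    rw [intervalIntegrable_iff_integrableOn_Ioo_of_le hpi.le] at h1
    exact h1
  rw [← ofReal_integral_eq_lintegral_ofReal hint]
  · congr 1
    rw [← integral_Ioc_eq_integral_Ioo, ← intervalIntegral.integral_of_le hpi.le,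
      intervalIntegral.integral_const_mul, intervalIntegral.integral_sub intervalIntegrable_const
      (intervalIntegrable_u 0 π), integral_u_half, intervalIntegral.integral_const]
    have : u π = Real.log 2 := by
      unfold u; rw [Real.sin_pi_div_two, mul_one]
    rw [this]
    simp only [sub_zero, smul_eq_mul]
    ring
  · rw [Filter.EventuallyLE, ae_restrict_iff' measurableSet_Ioo]
    refine ae_of_all _ fun θ hθ => ?_
    have h1 : 0 < Real.sin (θ / 2) :=
      Real.sin_pos_of_pos_of_lt_pi (by linarith [hθ.1]) (by linarith [hθ.2, hθ.1])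
    have h2 : u θ ≤ u π := by
      unfold u
      rw [Real.sin_pi_div_two]
      apply Real.log_le_log (by positivity)
      have := Real.sin_le_one (θ / 2)
      linarith
    show 0 ≤ 2 * (u π - u θ)
    linarith

variable (c : Conf)

lemma x_antitone {k : ℕ} (hk : k < c.s) : Antitone (c.x k) := by
  intro l m h
  rcases h.eq_or_lt with h | h
  · rw [h]
  · exact (c.x_anti hk h).le

lemma left_estimate {M : ℝ} (hM : ∀ k < c.s, c.U (c.x k 0) ≤ M) :
    c.J ≤ c.s * ∫⁻ θ in (Ioo (c.a 0) (c.a c.s) ∩ {θ | 0 < c.b θ}),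
      ENNReal.ofReal (2 * (M - c.U θ)) := by
  have hmeas : ∀ k ∈ Finset.range c.s,
      Measurable fun l => ENNReal.ofReal ((c.x k l - c.a k) ^ 2 / 2) := by
    intro k hk
    have h1 := (c.x_antitone (Finset.mem_range.1 hk)).measurable
    exact (((h1.sub_const _).pow_const 2).div_const 2).ennreal_ofReal
  -- Cauchy-Schwarz
  have h1 : c.J ≤ c.s * ∑ k ∈ Finset.range c.s,
      ∫⁻ l in Ioi 0, ENNReal.ofReal ((c.x k l - c.a k) ^ 2 / 2) := by
    rw [← lintegral_finsetSum _ hmeas, ← lintegral_const_mul _ (Finset.measurable_fun_sum _ hmeas)]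
    unfold J
    refine lintegral_mono fun l => ?_
    rw [← ENNReal.ofReal_sum_of_nonneg (fun k _ => by positivity), ← ENNReal.ofReal_natCast,
      ← ENNReal.ofReal_mul (by positivity)]
    apply ENNReal.ofReal_le_ofReal
    have h2 := sq_sum_le_card_mul_sum_sq (s := Finset.range c.s)
      (f := fun k => c.x k l - c.a k)
    rw [Finset.card_range] at h2
    have h3 : c.S l = ∑ k ∈ Finset.range c.s, (c.x k l - c.a k) := rfl
    rw [← h3] at h2
    rw [← Finset.sum_div]
    linarith
  refine h1.trans ?_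
  gcongr
  -- disjoint arcs
  have h4 : ∀ k ∈ Finset.range c.s, ∫⁻ l in Ioi 0, ENNReal.ofReal ((c.x k l - c.a k) ^ 2 / 2) ≤
      ∫⁻ θ in Ioo (c.a k) (c.x k 0), ENNReal.ofReal (2 * (M - c.U θ)) := by
    intro k hk
    have hk' := Finset.mem_range.1 hk
    rw [← c.arc_integral hk']
    refine lintegral_mono fun θ => ENNReal.ofReal_le_ofReal ?_
    have := hM k hk'
    linarith
  refine (Finset.sum_le_sum h4).trans ?_
  have hdisj : Set.PairwiseDisjoint (↑(Finset.range c.s)) fun k => Ioo (c.a k) (c.x k 0) := by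
    have aux : ∀ i j, i < j → j < c.s → Disjoint (Ioo (c.a i) (c.x i 0)) (Ioo (c.a j) (c.x j 0)) := by
      intro i j hij hj
      rw [Set.disjoint_left]
      rintro θ ⟨-, h1⟩ ⟨h2, -⟩
      have h3 := (c.x_mem (show i < c.s by omega) 0).2
      have h4 := c.a_le (show i + 1 ≤ j from hij) hj.le
      linarith
    intro i hi j hj hij
    have hi' := Finset.mem_range.1 (Finset.mem_coe.1 hi)
    have hj' := Finset.mem_range.1 (Finset.mem_coe.1 hj)
    rcases lt_or_gt_of_ne hij with h | h
    · exact aux i j h hj'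
    · exact (aux j i h hi').symm
  rw [← lintegral_biUnion_finset hdisj (fun k _ => measurableSet_Ioo)]
  apply lintegral_mono_set
  intro θ hθ
  obtain ⟨k, hk, hθk⟩ := Set.mem_iUnion₂.1 hθ
  have hk' := Finset.mem_range.1 hk
  have hx := c.x_mem hk' 0
  have hmem : θ ∈ Ioo (c.a k) (c.a (k + 1)) := ⟨hθk.1, hθk.2.trans hx.2⟩
  refine ⟨⟨?_, ?_⟩, (c.lt_b_iff hk' 0 hmem).2 hθk.2⟩
  · exact lt_of_le_of_lt (c.a_le (Nat.zero_le k) hk'.le) hθk.1
  · exact lt_of_lt_of_le hmem.2 (c.a_le (show k + 1 ≤ c.s from hk') le_rfl)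

lemma ae_sin_ne : ∀ᵐ θ : ℝ, ∀ i < c.s, Real.sin ((θ - c.a i) / 2) ≠ 0 := by
  rw [ae_iff]
  have h : {θ : ℝ | ¬ ∀ i < c.s, Real.sin ((θ - c.a i) / 2) ≠ 0} ⊆
      ⋃ i : ℕ, Set.range fun n : ℤ => 2 * (n * π) + c.a i := by
    intro θ hθ
    simp only [mem_ofPred_eq] at hθ
    push Not at hθ
    obtain ⟨i, -, h2⟩ := hθ
    obtain ⟨n, hn⟩ := Real.sin_eq_zero_iff.1 h2
    refine Set.mem_iUnion.2 ⟨i, n, ?_⟩
    show 2 * (n * π) + c.a i = θ
    rw [hn]; ring
  refine measure_mono_null h (Set.Countable.measure_zero ?_ _)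
  exact Set.countable_iUnion fun i => Set.countable_range _

/-- **Main inequality.** If the potential is at most `M` off its singularities, then
`M ≥ (log 2) / s`. -/
theorem main {M : ℝ} (hM : ∀ θ, (∀ i < c.s, Real.sin ((θ - c.a i) / 2) ≠ 0) → c.U θ ≤ M) :
    Real.log 2 ≤ c.s * M := by
  have hpi := Real.pi_pos
  have h1 := c.left_estimate (M := M) fun k hk =>
    hM _ fun i hi => c.sin_ne hk hi (c.x_mem hk 0)
  have h2 := c.refl.left_estimate (M := M) fun k hk => by
    rw [refl_U]
    apply hM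
    intro i hi
    have hk' : k < c.s := hk
    have hx : c.refl.x k 0 ∈ Ioo (-c.a (c.s - k)) (-c.a (c.s - (k + 1))) := c.refl.x_mem hk 0
    refine c.sin_ne (k := c.s - (k + 1)) (by omega) hi ⟨by linarith [hx.2], ?_⟩
    rw [show c.s - (k + 1) + 1 = c.s - k by omega]
    linarith [hx.1]
  rw [J_eq c model, J_model] at h1
  rw [J_eq c.refl model, J_model] at h2
  have hs : c.refl.s = c.s := rfl
  rw [hs] at h2
  -- change of variables
  have h3 : ∫⁻ θ in (Ioo (c.refl.a 0) (c.refl.a c.s) ∩ {θ | 0 < c.refl.b θ}),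
      ENNReal.ofReal (2 * (M - c.refl.U θ)) =
      ∫⁻ θ in (Ioo (c.a 0) (c.a c.s) ∩ {θ | c.b θ < 0}), ENNReal.ofReal (2 * (M - c.U θ)) := by
    have hmeasB : MeasurableSet (Ioo (c.a 0) (c.a c.s) ∩ {θ | c.b θ < 0}) :=
      measurableSet_Ioo.inter (measurableSet_lt c.measurable_b measurable_const)
    have hmp : MeasurePreserving (fun θ : ℝ => -θ) volume volume :=
      Measure.measurePreserving_neg volume
    have hme : MeasurableEmbedding (fun θ : ℝ => -θ) := (Homeomorph.neg ℝ).measurableEmbedding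
    have h4 := hmp.setLIntegral_comp_preimage_emb hme
      (fun θ => ENNReal.ofReal (2 * (M - c.U θ))) (Ioo (c.a 0) (c.a c.s) ∩ {θ | c.b θ < 0})
    rw [← h4]
    have hset : Ioo (c.refl.a 0) (c.refl.a c.s) ∩ {θ | 0 < c.refl.b θ} =
        (fun θ : ℝ => -θ) ⁻¹' (Ioo (c.a 0) (c.a c.s) ∩ {θ | c.b θ < 0}) := by
      ext θ
      have e0 : c.refl.a 0 = -c.a c.s := by
        show -c.a (c.s - 0) = _
        rw [Nat.sub_zero]
      have e1 : c.refl.a c.s = -c.a 0 := by
        show -c.a (c.s - c.s) = _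
        rw [Nat.sub_self]
      simp only [mem_inter_iff, mem_Ioo, mem_preimage, mem_ofPred_eq, e0, e1, refl_b]
      constructor
      · rintro ⟨⟨h5, h6⟩, h7⟩
        exact ⟨⟨by linarith, by linarith⟩, by linarith⟩
      · rintro ⟨⟨h5, h6⟩, h7⟩
        exact ⟨⟨by linarith, by linarith⟩, by linarith⟩
    rw [hset]
    simp only [refl_U]
  rw [h3] at h2
  -- add up
  set f : ℝ → ℝ≥0∞ := fun θ => ENNReal.ofReal (2 * (M - c.U θ)) with hf
  have hadd : (∫⁻ θ in (Ioo (c.a 0) (c.a c.s) ∩ {θ | 0 < c.b θ}), f θ) +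
      (∫⁻ θ in (Ioo (c.a 0) (c.a c.s) ∩ {θ | c.b θ < 0}), f θ) ≤
      ∫⁻ θ in Ioo (c.a 0) (c.a c.s), f θ := by
    rw [← lintegral_union (measurableSet_Ioo.inter (measurableSet_lt c.measurable_b
      measurable_const))]
    · apply lintegral_mono_set
      rintro θ (h | h)
      · exact h.1
      · exact h.1
    · rw [Set.disjoint_left]
      rintro θ ⟨-, h5⟩ ⟨-, h6⟩
      simp only [mem_ofPred_eq] at h5 h6
      linarith
  have hlt := c.hper
  have hle : c.a 0 ≤ c.a c.s := by linarith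
  have hE : ∫⁻ θ in Ioo (c.a 0) (c.a c.s), f θ = ENNReal.ofReal (4 * π * M) := by
    have hint : IntegrableOn (fun θ => 2 * (M - c.U θ)) (Ioo (c.a 0) (c.a c.s)) := by
      have h5 := ((intervalIntegrable_const (c := M)).sub
        (c.intervalIntegrable_U (c.a 0) (c.a c.s))).const_mul 2
      rw [intervalIntegrable_iff_integrableOn_Ioo_of_le hle] at h5
      exact h5
    rw [hf]
    rw [← ofReal_integral_eq_lintegral_ofReal hint]
    · congr 1
      rw [← integral_Ioc_eq_integral_Ioo, ← intervalIntegral.integral_of_le hle, hlt,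
        intervalIntegral.integral_const_mul, intervalIntegral.integral_sub intervalIntegrable_const
        (c.intervalIntegrable_U _ _), integral_U, intervalIntegral.integral_const]
      simp only [add_sub_cancel_left, smul_eq_mul, sub_zero]
      ring
    · refine ae_restrict_of_ae ?_
      filter_upwards [c.ae_sin_ne] with θ hθ
      have := hM θ hθ
      show 0 ≤ 2 * (M - c.U θ)
      linarith
  have hfin : ENNReal.ofReal (2 * π * Real.log 2) + ENNReal.ofReal (2 * π * Real.log 2) ≤
      c.s * ENNReal.ofReal (4 * π * M) := by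
    calc ENNReal.ofReal (2 * π * Real.log 2) + ENNReal.ofReal (2 * π * Real.log 2)
        ≤ c.s * (∫⁻ θ in (Ioo (c.a 0) (c.a c.s) ∩ {θ | 0 < c.b θ}), f θ) +
          c.s * (∫⁻ θ in (Ioo (c.a 0) (c.a c.s) ∩ {θ | c.b θ < 0}), f θ) := add_le_add h1 h2
      _ = c.s * ((∫⁻ θ in (Ioo (c.a 0) (c.a c.s) ∩ {θ | 0 < c.b θ}), f θ) +
          (∫⁻ θ in (Ioo (c.a 0) (c.a c.s) ∩ {θ | c.b θ < 0}), f θ)) := by rw [mul_add]
      _ ≤ c.s * ∫⁻ θ in Ioo (c.a 0) (c.a c.s), f θ := by gcongr
      _ = _ := by rw [hE]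
  have hlog : 0 < Real.log 2 := Real.log_pos one_lt_two
  rw [← ENNReal.ofReal_add (by positivity) (by positivity), ← ENNReal.ofReal_natCast,
    ← ENNReal.ofReal_mul (by positivity)] at hfin
  have h6 : (0 : ℝ) < 2 * π * Real.log 2 + 2 * π * Real.log 2 := by positivity
  have h7 : 2 * π * Real.log 2 + 2 * π * Real.log 2 ≤ c.s * (4 * π * M) := by
    by_contra hcon
    push Not at hcon
    have h8 := (ENNReal.ofReal_lt_ofReal_iff h6).2 hcon
    exact absurd hfin (not_le.2 h8)
  have h9 : 0 < 4 * π := by positivity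
  have h10 : 4 * π * Real.log 2 ≤ 4 * π * (c.s * M) := by linarith
  exact le_of_mul_le_mul_left h10 h9

end Conf

end Q81.Circ
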