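import Mathlib
import Pool.Agent.Q81.Circ5

/-!
# Weighted products of distances on the unit circle: reduction to configurations
-/

namespace Q81.Circ

open MeasureTheory Set Filter Topology Real

lemma norm_exp_sub {θ : ℝ} {w : ℂ} (hw : ‖w‖ = 1) :
    ‖Complex.exp (θ * Complex.I) - w‖ = |2 * Real.sin ((θ - w.arg) / 2)| := by
  have h1 : w = Complex.exp (w.arg * Complex.I) := by
    have := Complex.norm_mul_exp_arg_mul_I w
    rw [hw] at this
    simpa using this.symm
  have h2 : Complex.exp (θ * Complex.I) - Complex.exp (w.arg * Complex.I) =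
      Complex.exp (((θ + w.arg) / 2 : ℝ) * Complex.I) *
        ((2 * Real.sin ((θ - w.arg) / 2) : ℝ) * Complex.I) := by
    have e1 : Complex.exp (θ * Complex.I) = Complex.exp (((θ + w.arg) / 2 : ℝ) * Complex.I) *
        Complex.exp (((θ - w.arg) / 2 : ℝ) * Complex.I) := by
      rw [← Complex.exp_add]; congr 1; push_cast; ring
    have e2 : Complex.exp (w.arg * Complex.I) = Complex.exp (((θ + w.arg) / 2 : ℝ) * Complex.I) *
        Complex.exp (-((θ - w.arg) / 2 : ℝ) * Complex.I) := by
      rw [← Complex.exp_add]; congr 1; push_cast; ring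
    have e3 : Complex.exp (((θ - w.arg) / 2 : ℝ) * Complex.I) -
        Complex.exp (-((θ - w.arg) / 2 : ℝ) * Complex.I) =
        ((2 * Real.sin ((θ - w.arg) / 2) : ℝ) * Complex.I) := by
      push_cast
      rw [Complex.sin]
      field_simp
      ring_nf
      rw [Complex.I_sq]
      ring
    rw [e1, e2, ← mul_sub, e3]
  conv_lhs => rw [h1]
  rw [h2, norm_mul, Complex.norm_exp_ofReal_mul_I, one_mul, norm_mul, Complex.norm_I, mul_one,
    Complex.norm_real, Real.norm_eq_abs]

theorem exists_two_le (r : ℕ) (hr : 1 ≤ r) (z : Fin r → ℂ) (hz : ∀ j, ‖z j‖ = 1)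
    (p : Fin r → ℝ) (hp : ∀ j, 0 ≤ p j) (hsum : ∑ j, p j = r) :
    ∃ w : ℂ, ‖w‖ = 1 ∧ 2 ≤ ∏ j, ‖w - z j‖ ^ p j := by
  classical
  set F : ℂ → ℝ := fun w => ∏ j, ‖w - z j‖ ^ p j with hF
  have hFc : Continuous F := by
    refine continuous_finsetProd _ fun j _ => ?_
    exact (continuous_norm.comp (continuous_id.sub continuous_const)).rpow_const
      fun _ => Or.inr (hp j)
  obtain ⟨w, hw, hmax⟩ := (isCompact_sphere (0 : ℂ) 1).exists_isMaxOn
    ⟨1, by simp⟩ hFc.continuousOn
  have hw1 : ‖w‖ = 1 := by simpa using hw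
  refine ⟨w, hw1, ?_⟩
  have hr0 : (0 : ℝ) < r := by exact_mod_cast hr
  -- the set of arguments
  set B : Finset (Fin r) := Finset.univ.filter fun j => 0 < p j with hB
  set A : Finset ℝ := B.image fun j => (z j).arg with hA
  have hcard : A.card ≤ r := by
    calc A.card ≤ B.card := Finset.card_image_le
      _ ≤ (Finset.univ : Finset (Fin r)).card := Finset.card_filter_le _ _
      _ = r := by simp
  have hBne : B.Nonempty := by
    by_contra hne
    rw [Finset.not_nonempty_iff_eq_empty] at hne
    have h0 : ∑ j, p j = 0 := by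
      refine Finset.sum_eq_zero fun j _ => ?_
      by_contra hj
      have : j ∈ B := by
        rw [hB, Finset.mem_filter]
        exact ⟨Finset.mem_univ _, lt_of_le_of_ne (hp j) (Ne.symm hj)⟩
      rw [hne] at this
      simp at this
    rw [h0] at hsum
    linarith
  have hAne : A.Nonempty := hBne.image _
  have hApos : 0 < A.card := hAne.card_pos
  have hArange : ∀ x ∈ A, -π < x ∧ x ≤ π := by
    intro x hx
    obtain ⟨j, -, rfl⟩ := Finset.mem_image.1 hx
    exact ⟨Complex.neg_pi_lt_arg _, Complex.arg_le_pi _⟩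
  set e := A.orderEmbOfFin rfl with he
  set a : ℕ → ℝ := fun k => if h : k < A.card then e ⟨k, h⟩ else e ⟨0, hApos⟩ + 2 * π with ha
  have ha_lt : ∀ k (h : k < A.card), a k = e ⟨k, h⟩ := fun k h => by rw [ha]; simp [h]
  have ha_s : a A.card = e ⟨0, hApos⟩ + 2 * π := by rw [ha]; simp
  set q : ℝ → ℝ := fun x => (∑ j ∈ Finset.univ.filter (fun j => (z j).arg = x), p j) / r with hq
  have hsumA : ∀ f : ℝ → ℝ, ∑ k ∈ Finset.range A.card, f (a k) = ∑ x ∈ A, f x := by
    intro f
    rw [Finset.sum_range]
    have h1 : ∑ i : Fin A.card, f (a i) = ∑ i : Fin A.card, f (e i) := by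
      refine Finset.sum_congr rfl fun i _ => ?_
      rw [ha_lt i i.2]
    rw [h1]
    conv_rhs => rw [← Finset.map_orderEmbOfFin_univ A rfl]
    rw [Finset.sum_map]
    rfl
  have hgen : ∀ g : ℝ → ℝ, ∑ x ∈ A, q x * g x = (∑ j, p j * g (z j).arg) / r := by
    intro g
    have h1 : ∀ x ∈ A, q x * g x =
        (∑ j, if (z j).arg = x then p j * g (z j).arg else 0) / r := by
      intro x _
      rw [hq]
      simp only
      rw [div_mul_eq_mul_div, Finset.sum_mul, Finset.sum_filter]
      congr 1
      refine Finset.sum_congr rfl fun j _ => ?_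
      split_ifs with h
      · rw [h]
      · rfl
    rw [Finset.sum_congr rfl h1, ← Finset.sum_div, Finset.sum_comm]
    congr 1
    refine Finset.sum_congr rfl fun j _ => ?_
    rw [Finset.sum_ite_eq]
    split_ifs with h
    · rfl
    · have hj : p j = 0 := by
        by_contra hj
        apply h
        rw [hA]
        refine Finset.mem_image_of_mem _ ?_
        rw [hB, Finset.mem_filter]
        exact ⟨Finset.mem_univ _, lt_of_le_of_ne (hp j) (Ne.symm hj)⟩
      rw [hj, zero_mul]
  let c : Conf :=
    { s := A.card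
      hs := hApos
      a := a
      ha := by
        intro k hk
        rw [ha_lt k hk]
        rcases lt_or_ge (k + 1) A.card with h | h
        · rw [ha_lt (k + 1) h]
          apply e.strictMono
          exact Fin.mk_lt_mk.2 (Nat.lt_succ_self k)
        · have h2 : k + 1 = A.card := by omega
          rw [h2, ha_s]
          have h3 := hArange _ (A.orderEmbOfFin_mem rfl ⟨k, hk⟩)
          have h4 := hArange _ (A.orderEmbOfFin_mem rfl ⟨0, hApos⟩)
          rw [← he] at h3 h4
          linarith [h3.2, h4.1]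
      hper := by rw [ha_s, ha_lt 0 hApos]
      P := fun k => q (a k)
      hP := by
        intro k hk
        rw [ha_lt k hk]
        have h1 : e ⟨k, hk⟩ ∈ A := A.orderEmbOfFin_mem rfl ⟨k, hk⟩
        obtain ⟨j, hj, hj2⟩ := Finset.mem_image.1 h1
        have hj3 : 0 < p j := (Finset.mem_filter.1 hj).2
        rw [hq]
        apply div_pos _ hr0
        refine lt_of_lt_of_le hj3 ?_
        apply Finset.single_le_sum (f := p) (fun i _ => hp i)
        rw [Finset.mem_filter]
        exact ⟨Finset.mem_univ _, hj2⟩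
      hsum := by
        rw [hsumA q]
        have h1 := hgen (fun _ => 1)
        simp only [mul_one] at h1
        rw [h1, hsum]
        exact div_self hr0.ne' }
  have hcs : c.s = A.card := rfl
  have hU : ∀ θ, c.U θ = (∑ j, p j * u (θ - (z j).arg)) / r := by
    intro θ
    have h1 : c.U θ = ∑ k ∈ Finset.range A.card, q (a k) * u (θ - a k) := rfl
    rw [h1, hsumA (fun x => q x * u (θ - x)), hgen (fun x => u (θ - x))]
  -- comparison of `F` and `U`
  have hFU : ∀ θ, (∀ i < c.s, Real.sin ((θ - c.a i) / 2) ≠ 0) →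
      0 < F (Complex.exp (θ * Complex.I)) ∧
        Real.log (F (Complex.exp (θ * Complex.I))) = r * c.U θ := by
    intro θ hθ
    have hne : ∀ j, 0 < p j → 0 < |2 * Real.sin ((θ - (z j).arg) / 2)| := by
      intro j hj
      have h1 : (z j).arg ∈ A := by
        rw [hA]
        refine Finset.mem_image_of_mem _ ?_
        rw [hB, Finset.mem_filter]
        exact ⟨Finset.mem_univ _, hj⟩
      have h2 : (z j).arg ∈ Set.range (A.orderEmbOfFin rfl) := by
        rw [Finset.range_orderEmbOfFin]; exact h1
      obtain ⟨i, hi⟩ := h2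
      have h3 := hθ i i.2
      have h4 : c.a i = (z j).arg := by
        show a i = _
        rw [ha_lt i i.2, ← hi]
      rw [h4] at h3
      rw [abs_pos]
      exact mul_ne_zero two_ne_zero h3
    have hfac : ∀ j, 0 < ‖Complex.exp (θ * Complex.I) - z j‖ ^ p j ∧
        Real.log (‖Complex.exp (θ * Complex.I) - z j‖ ^ p j) = p j * u (θ - (z j).arg) := by
      intro j
      rw [norm_exp_sub (hz j)]
      rcases (hp j).eq_or_lt with h | h
      · rw [← h, Real.rpow_zero, Real.log_one, zero_mul]
        exact ⟨one_pos, rfl⟩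
      · have h1 := hne j h
        refine ⟨Real.rpow_pos_of_pos h1 _, ?_⟩
        rw [Real.log_rpow h1, Real.log_abs]
        rfl
    refine ⟨Finset.prod_pos fun j _ => (hfac j).1, ?_⟩
    rw [hF]
    simp only
    rw [Real.log_prod (fun j _ => (hfac j).1.ne'), Finset.sum_congr rfl fun j _ => (hfac j).2, hU]
    field_simp
  have hnorm : ∀ θ : ℝ, F (Complex.exp (θ * Complex.I)) ≤ F w := by
    intro θ
    refine hmax ?_
    show Complex.exp (θ * Complex.I) ∈ Metric.sphere (0 : ℂ) 1
    rw [mem_sphere_zero_iff_norm, Complex.norm_exp_ofReal_mul_I]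
  have hFw : 0 < F w := by
    have h0 : (0 : ℕ) < c.s := hApos
    have h1 := hFU (c.x 0 0) fun i hi => c.sin_ne h0 hi (c.x_mem h0 0)
    exact h1.1.trans_le (hnorm _)
  have hM : ∀ θ, (∀ i < c.s, Real.sin ((θ - c.a i) / 2) ≠ 0) → c.U θ ≤ Real.log (F w) / r := by
    intro θ hθ
    obtain ⟨h1, h2⟩ := hFU θ hθ
    rw [le_div_iff₀ hr0, mul_comm, ← h2]
    exact Real.log_le_log h1 (hnorm θ)
  have hmain := c.main hM
  have hlog2 : 0 < Real.log 2 := Real.log_pos one_lt_two
  have hs0 : (0 : ℝ) < c.s := by exact_mod_cast hApos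
  have hsr : (c.s : ℝ) ≤ r := by exact_mod_cast hcard
  have hMpos : 0 < Real.log (F w) / r := by
    by_contra hneg
    push Not at hneg
    have := mul_nonpos_of_nonneg_of_nonpos hs0.le hneg
    linarith
  have h5 : Real.log 2 ≤ Real.log (F w) := by
    calc Real.log 2 ≤ c.s * (Real.log (F w) / r) := hmain
      _ ≤ r * (Real.log (F w) / r) := by gcongr
      _ = Real.log (F w) := by field_simp
  exact (Real.log_le_log_iff two_pos hFw).1 h5

end Q81.Circ
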