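import Mathlib

/-!
# Exponential decay of `exp (t M)` for a stable complex matrix `M`
-/

namespace Q81.ExpStable

open Matrix Filter Topology NormedSpace
open scoped Matrix ComplexOrder Matrix.Norms.L2Operator NNReal ENNReal

variable {n : ℕ}

/-- `exp M v = e^λ v` when `M v = λ v`. -/
lemma exp_mulVec_of_eigen {M : Matrix (Fin n) (Fin n) ℂ} {v : Fin n → ℂ} {l : ℂ}
    (h : M *ᵥ v = l • v) : (exp M) *ᵥ v = Complex.exp l • v := by
  have h1 : HasSum (fun k : ℕ => ((k.factorial : ℂ)⁻¹ • M ^ k) *ᵥ v) ((exp M) *ᵥ v) := by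
    have h2 := NormedSpace.exp_series_hasSum_exp' (𝕂 := ℂ) M
    have h3 : Continuous fun N : Matrix (Fin n) (Fin n) ℂ => N *ᵥ v := by fun_prop
    exact h2.map (AddMonoidHom.mk' (fun N : Matrix (Fin n) (Fin n) ℂ => N *ᵥ v)
      (fun a b => Matrix.add_mulVec a b v)) h3
  have h4 : ∀ k : ℕ, (M ^ k) *ᵥ v = l ^ k • v := by
    intro k
    induction k with
    | zero => simp
    | succ k ih => rw [pow_succ, ← Matrix.mulVec_mulVec, h, Matrix.mulVec_smul, ih, smul_smul,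
        pow_succ, mul_comm]
  have h5 : HasSum (fun k : ℕ => ((k.factorial : ℂ)⁻¹ • M ^ k) *ᵥ v) (Complex.exp l • v) := by
    have h6 : HasSum (fun k : ℕ => (k.factorial : ℂ)⁻¹ • l ^ k) (Complex.exp l) := by
      rw [Complex.exp_eq_exp_ℂ]
      exact NormedSpace.exp_series_hasSum_exp' (𝕂 := ℂ) l
    have h7 := h6.smul_const v
    convert h7 using 2 with k
    rw [Matrix.smul_mulVec, h4 k, smul_assoc]
  exact h1.unique h5

/-- Every eigenvalue of `exp M` is the exponential of an eigenvalue of `M`. -/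
lemma exists_of_mem_spectrum_exp {M : Matrix (Fin n) (Fin n) ℂ} {μ : ℂ}
    (hμ : μ ∈ spectrum ℂ (exp M)) : ∃ l ∈ spectrum ℂ M, μ = Complex.exp l := by
  have hE : Module.End.HasEigenvalue (Matrix.toLin' (exp M)) μ := by
    rw [Module.End.hasEigenvalue_iff_mem_spectrum, Matrix.spectrum_toLin']
    exact hμ
  set W := Module.End.eigenspace (Matrix.toLin' (exp M)) μ with hW
  have hWne : W ≠ ⊥ := hE
  have hinv : ∀ v ∈ W, Matrix.toLin' M v ∈ W := by
    intro v hv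
    rw [hW, Module.End.mem_eigenspace_iff] at hv ⊢
    rw [Matrix.toLin'_apply, Matrix.toLin'_apply] at *
    have hc : exp M * M = M * exp M := ((Commute.refl M).exp_left).eq
    rw [Matrix.mulVec_mulVec, hc, ← Matrix.mulVec_mulVec, hv, Matrix.mulVec_smul]
  have hnt : Nontrivial W := (Submodule.nontrivial_iff_ne_bot).2 hWne
  obtain ⟨l, hl⟩ := Module.End.exists_eigenvalue ((Matrix.toLin' M).restrict hinv)
  obtain ⟨w, hw⟩ := hl.exists_hasEigenvector
  have hMw : M *ᵥ (w : Fin n → ℂ) = l • (w : Fin n → ℂ) := by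
    have := congrArg Subtype.val hw.apply_eq_smul
    simpa using this
  have hw0 : (w : Fin n → ℂ) ≠ 0 := fun h => hw.2 (Subtype.ext h)
  refine ⟨l, ?_, ?_⟩
  · rw [← Matrix.spectrum_toLin', ← Module.End.hasEigenvalue_iff_mem_spectrum]
    refine Module.End.hasEigenvalue_of_hasEigenvector (x := (w : Fin n → ℂ)) ⟨?_, hw0⟩
    rw [Module.End.mem_eigenspace_iff, Matrix.toLin'_apply, hMw]
  · have h1 := exp_mulVec_of_eigen hMw
    have h2 : (exp M) *ᵥ (w : Fin n → ℂ) = μ • (w : Fin n → ℂ) := by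
      have hw2 : (w : Fin n → ℂ) ∈ Module.End.eigenspace (Matrix.toLin' (exp M)) μ := w.2
      rwa [Module.End.mem_eigenspace_iff, Matrix.toLin'_apply] at hw2
    rw [h1] at h2
    have h3 : (Complex.exp l - μ) • (w : Fin n → ℂ) = 0 := by rw [sub_smul, h2, sub_self]
    rcases smul_eq_zero.1 h3 with h4 | h4
    · exact (sub_eq_zero.1 h4).symm
    · exact absurd h4 hw0

/-- Exponential decay. -/
theorem exp_decay [Nonempty (Fin n)] (M : Matrix (Fin n) (Fin n) ℂ)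
    (h : ∀ z ∈ spectrum ℂ M, z.re < 0) :
    ∃ C ω : ℝ, 0 < ω ∧ ∀ t : ℝ, 0 ≤ t → ‖exp (t • M)‖ ≤ C * Real.exp (-(ω * t)) := by
  have hrad : spectralRadius ℂ (exp M) < (1 : ℝ≥0) := by
    refine spectrum.spectralRadius_lt_of_forall_lt (exp M) fun z hz => ?_
    obtain ⟨l, hl, rfl⟩ := exists_of_mem_spectrum_exp hz
    rw [← NNReal.coe_lt_coe, coe_nnnorm, Complex.norm_exp, NNReal.coe_one]
    exact Real.exp_lt_one_iff.2 (h l hl)
  obtain ⟨r, hr1, hr2⟩ := ENNReal.lt_iff_exists_nnreal_btwn.1 hrad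
  have hr2' : (r : ℝ) < 1 := by exact_mod_cast hr2
  have hr0 : (0 : ℝ) < r := by
    have : (0 : ℝ≥0∞) < r := lt_of_le_of_lt bot_le hr1
    exact_mod_cast this
  have hG := spectrum.pow_nnnorm_pow_one_div_tendsto_nhds_spectralRadius (exp M)
  have hev := hG.eventually (gt_mem_nhds hr1)
  obtain ⟨N, hN⟩ := eventually_atTop.1 hev
  have hpow : ∀ k ≥ max N 1, ‖(exp M) ^ k‖ ≤ (r : ℝ) ^ k := by
    intro k hk
    have hk1 : 1 ≤ k := (le_max_right _ _).trans hk
    have h1 := hN k ((le_max_left _ _).trans hk)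
    have hk0 : (0 : ℝ) < k := by exact_mod_cast hk1
    have h2 : (‖(exp M) ^ k‖₊ : ℝ≥0∞) < (r : ℝ≥0∞) ^ (k : ℝ) := by
      have h3 := ENNReal.rpow_lt_rpow h1 hk0
      rwa [← ENNReal.rpow_mul, one_div, inv_mul_cancel₀ hk0.ne', ENNReal.rpow_one] at h3
    rw [ENNReal.rpow_natCast] at h2
    have h3 : ‖(exp M) ^ k‖₊ < r ^ k := by exact_mod_cast h2
    exact_mod_cast h3.le
  set N' := max N 1
  set C₁ : ℝ := 1 + ∑ k ∈ Finset.range N', ‖(exp M) ^ k‖ / (r : ℝ) ^ k with hC₁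
  have hsumnn : ∀ k ∈ Finset.range N', 0 ≤ ‖(exp M) ^ k‖ / (r : ℝ) ^ k := fun k _ => by positivity
  have hall : ∀ k : ℕ, ‖(exp M) ^ k‖ ≤ C₁ * (r : ℝ) ^ k := by
    intro k
    have hrk : (0 : ℝ) < (r : ℝ) ^ k := by positivity
    rcases lt_or_ge k N' with hk | hk
    · have h1 := Finset.single_le_sum hsumnn (Finset.mem_range.2 hk)
      have h2 : ‖(exp M) ^ k‖ / (r : ℝ) ^ k ≤ C₁ := by rw [hC₁]; linarith
      rwa [div_le_iff₀ hrk] at h2
    · refine (hpow k hk).trans ?_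
      have : 1 ≤ C₁ := by
        rw [hC₁]; linarith [Finset.sum_nonneg hsumnn]
      nlinarith
  have hcont : Continuous fun t : ℝ => exp (t • M) :=
    (differentiable_exp_smul_const ℝ M).continuous
  obtain ⟨K, hK⟩ := (isCompact_Icc (a := (0 : ℝ)) (b := 1)).exists_bound_of_continuousOn
    hcont.continuousOn
  have hK0 : 0 ≤ K := (norm_nonneg _).trans (hK 0 (by simp))
  refine ⟨K * C₁ * (r : ℝ)⁻¹, -Real.log r, by
    have := Real.log_neg hr0 hr2'; linarith, fun t ht => ?_⟩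
  set k := ⌊t⌋₊ with hk
  have hk1 : (k : ℝ) ≤ t := Nat.floor_le ht
  have hk2 : t < k + 1 := Nat.lt_floor_add_one t
  have hsplit : exp (t • M) = exp ((t - k) • M) * (exp M) ^ k := by
    rw [← Matrix.exp_nsmul, ← Matrix.exp_add_of_commute]
    · congr 1
      rw [← Nat.cast_smul_eq_nsmul ℝ, ← add_smul]
      congr 1; ring
    · rw [← Nat.cast_smul_eq_nsmul ℝ]
      exact ((Commute.refl M).smul_left _).smul_right _
  have hC₁0 : 0 ≤ C₁ := by
    rw [hC₁]; linarith [Finset.sum_nonneg hsumnn]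
  have h3 : (r : ℝ) ^ k ≤ (r : ℝ)⁻¹ * Real.exp (-(-Real.log r * t)) := by
    have e1 : (r : ℝ)⁻¹ * Real.exp (-(-Real.log r * t)) = (r : ℝ) ^ (t - 1) := by
      rw [Real.rpow_sub hr0, Real.rpow_one, Real.rpow_def_of_pos hr0]
      rw [neg_mul, neg_neg, div_eq_inv_mul]
    rw [e1, ← Real.rpow_natCast]
    exact Real.rpow_le_rpow_of_exponent_ge hr0 hr2'.le (by linarith)
  calc ‖exp (t • M)‖ ≤ ‖exp ((t - k) • M)‖ * ‖(exp M) ^ k‖ := by
        rw [hsplit]; exact norm_mul_le _ _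
    _ ≤ K * (C₁ * (r : ℝ) ^ k) := by
        refine mul_le_mul (hK _ ⟨by linarith, by linarith⟩) (hall k) (norm_nonneg _) hK0
    _ ≤ K * (C₁ * ((r : ℝ)⁻¹ * Real.exp (-(-Real.log r * t)))) := by gcongr
    _ = _ := by ring

end Q81.ExpStable
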