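import Mathlib

/-!
# Traces of inverses of matrices whose spectrum lies in a half-plane
-/

namespace Q81.TraceInv

open Matrix
open scoped Matrix ComplexOrder Matrix.Norms.L2Operator

variable {n : ℕ}

/-- Euclidean norm of a vector. -/
noncomputable def nrm {n : ℕ} (v : Fin n → ℂ) : ℝ := ‖(WithLp.toLp 2 v : EuclideanSpace ℂ (Fin n))‖

lemma nrm_nonneg (v : Fin n → ℂ) : 0 ≤ nrm v := norm_nonneg _

lemma nrm_sq (v : Fin n → ℂ) : nrm v ^ 2 = ∑ i, ‖v i‖ ^ 2 := by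
  rw [nrm, EuclideanSpace.norm_sq_eq]

lemma nrm_add (v w : Fin n → ℂ) : nrm (v + w) ≤ nrm v + nrm w := by
  unfold nrm
  rw [WithLp.toLp_add]
  exact norm_add_le _ _

lemma nrm_sub (v w : Fin n → ℂ) : nrm (v - w) ≤ nrm v + nrm w := by
  unfold nrm
  rw [WithLp.toLp_sub]
  exact norm_sub_le _ _

lemma nrm_smul (c : ℂ) (v : Fin n → ℂ) : nrm (c • v) = ‖c‖ * nrm v := by
  unfold nrm
  rw [WithLp.toLp_smul]
  exact norm_smul _ _

lemma nrm_pos {v : Fin n → ℂ} (h : v ≠ 0) : 0 < nrm v := by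
  unfold nrm
  rw [norm_pos_iff]
  intro h'
  apply h
  have := congrArg WithLp.ofLp h'
  simpa using this

lemma star_dot_self (v : Fin n → ℂ) : star v ⬝ᵥ v = ((nrm v ^ 2 : ℝ) : ℂ) := by
  rw [nrm_sq, dotProduct]
  push_cast
  refine Finset.sum_congr rfl fun i _ => ?_
  rw [Pi.star_apply, RCLike.star_def, Complex.conj_mul']

lemma norm_dot_le (v w : Fin n → ℂ) : ‖star v ⬝ᵥ w‖ ≤ nrm v * nrm w := by
  have h := norm_inner_le_norm (𝕜 := ℂ) (WithLp.toLp 2 v : EuclideanSpace ℂ (Fin n))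
    (WithLp.toLp 2 w)
  have h2 : inner ℂ (WithLp.toLp 2 v : EuclideanSpace ℂ (Fin n)) (WithLp.toLp 2 w)
      = star v ⬝ᵥ w := by
    rw [EuclideanSpace.inner_toLp_toLp, dotProduct_comm]
  rw [← h2]
  exact h

lemma nrm_mulVec_le (M : Matrix (Fin n) (Fin n) ℂ) (v : Fin n → ℂ) :
    nrm (M *ᵥ v) ≤ ‖M‖ * nrm v :=
  Matrix.l2_opNorm_mulVec M (WithLp.toLp 2 v)

/-- If every eigenvalue of `M` has real part at least `g > 0`, then `M` is invertible and
`Re tr M⁻¹ ≤ n / g`. -/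
theorem re_trace_inv_le (M : Matrix (Fin n) (Fin n) ℂ) {g : ℝ} (hg : 0 < g)
    (h : ∀ z ∈ spectrum ℂ M, g ≤ z.re) :
    IsUnit M ∧ (M⁻¹.trace).re ≤ n / g := by
  have hu : IsUnit M := by
    by_contra hc
    have h0 : (0 : ℂ) ∈ spectrum ℂ M := spectrum.zero_mem_iff ℂ |>.2 hc
    have := h 0 h0
    simp at this
    linarith
  refine ⟨hu, ?_⟩
  have hd : IsUnit M.det := (Matrix.isUnit_iff_isUnit_det M).1 hu
  rw [Matrix.trace_eq_sum_roots_charpoly]
  have hroot : ∀ μ ∈ (M⁻¹).charpoly.roots, μ.re ≤ 1 / g := by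
    intro μ hμ
    have hμ' : μ ∈ spectrum ℂ M⁻¹ := by
      rw [Matrix.mem_spectrum_iff_isRoot_charpoly]
      exact (Polynomial.mem_roots'.1 hμ).2
    have hμ0 : μ ≠ 0 := by
      rintro rfl
      have := (spectrum.zero_mem_iff ℂ).1 hμ'
      apply this
      rw [Matrix.isUnit_nonsing_inv_iff]
      exact hu
    have hinv : μ⁻¹ ∈ spectrum ℂ M := by
      rw [spectrum.mem_iff] at hμ' ⊢
      intro hu2
      apply hμ'
      have e : (algebraMap ℂ (Matrix (Fin n) (Fin n) ℂ)) μ - M⁻¹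
          = -(μ • M⁻¹) * ((algebraMap ℂ (Matrix (Fin n) (Fin n) ℂ)) μ⁻¹ - M) := by
        rw [Algebra.algebraMap_eq_smul_one, Algebra.algebraMap_eq_smul_one]
        rw [mul_sub, neg_mul, neg_mul, Matrix.smul_mul, Matrix.smul_mul, Matrix.mul_smul,
          Matrix.nonsing_inv_mul M hd, smul_smul, mul_inv_cancel₀ hμ0]
        simp only [mul_one, one_smul, sub_neg_eq_add]
        abel
      rw [e]
      refine IsUnit.mul ?_ hu2
      rw [IsUnit.neg_iff]
      have h1 : IsUnit M⁻¹ := by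
        rw [Matrix.isUnit_nonsing_inv_iff]; exact hu
      exact (IsUnit.smul (Units.mk0 μ hμ0) h1 : _)
    have h1 := h _ hinv
    rw [Complex.inv_re] at h1
    have h2 : 0 < Complex.normSq μ := Complex.normSq_pos.2 hμ0
    rw [le_div_iff₀ h2] at h1
    have h3 : μ.re ^ 2 ≤ Complex.normSq μ := by
      rw [Complex.normSq_apply]; nlinarith [mul_self_nonneg μ.im]
    rw [le_div_iff₀ hg]
    by_contra hcon
    push Not at hcon
    have h4 : 0 < μ.re := by
      by_contra h5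
      push Not at h5
      nlinarith
    nlinarith
  have hsum : (Multiset.map Complex.re (M⁻¹).charpoly.roots).sum ≤
      (Multiset.card (Multiset.map Complex.re (M⁻¹).charpoly.roots)) • (1 / g) := by
    apply Multiset.sum_le_card_nsmul
    intro x hx
    obtain ⟨μ, hμ, rfl⟩ := Multiset.mem_map.1 hx
    exact hroot μ hμ
  have hre : ((M⁻¹).charpoly.roots.sum).re = (Multiset.map Complex.re (M⁻¹).charpoly.roots).sum := by
    have := map_multiset_sum Complex.reAddGroupHom (M⁻¹).charpoly.roots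
    simpa using this
  have hcard : Multiset.card (M⁻¹).charpoly.roots ≤ n := by
    refine (Polynomial.card_roots' _).trans ?_
    rw [Matrix.charpoly_natDegree_eq_dim]
    simp
  rw [hre]
  refine hsum.trans ?_
  rw [Multiset.card_map, nsmul_eq_mul, mul_one_div]
  gcongr

/-- `‖W v‖² ≤ tr(W* W) ‖v‖²`. -/
theorem nrm_sq_le_trace (W : Matrix (Fin n) (Fin n) ℂ) (v : Fin n → ℂ) :
    nrm (W *ᵥ v) ^ 2 ≤ ((Wᴴ * W).trace).re * nrm v ^ 2 := by
  have htr : ((Wᴴ * W).trace).re = ∑ i, ∑ j, ‖W i j‖ ^ 2 := by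
    rw [Matrix.trace, Complex.re_sum, Finset.sum_comm]
    refine Finset.sum_congr rfl fun i _ => ?_
    rw [Matrix.diag_apply, Matrix.mul_apply, Complex.re_sum]
    refine Finset.sum_congr rfl fun j _ => ?_
    rw [Matrix.conjTranspose_apply, RCLike.star_def, Complex.conj_mul', ← Complex.ofReal_pow,
      Complex.ofReal_re]
  rw [htr, nrm_sq, nrm_sq, Finset.sum_mul]
  refine Finset.sum_le_sum fun i _ => ?_
  have h1 : ‖(W *ᵥ v) i‖ ≤ ∑ j, ‖W i j‖ * ‖v j‖ := by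
    rw [Matrix.mulVec, dotProduct]
    refine (norm_sum_le _ _).trans (le_of_eq ?_)
    simp
  calc ‖(W *ᵥ v) i‖ ^ 2 ≤ (∑ j, ‖W i j‖ * ‖v j‖) ^ 2 := by
        gcongr
    _ ≤ _ := Finset.sum_mul_sq_le_sq_mul_sq _ _ _

end Q81.TraceInv
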