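import Mathlib
import Pool.Agent.Q81.TraceInv

/-!
# Decay rate of the linear quadratic regulator for skew-Hermitian dynamics
-/

namespace Q81.Lqr

open Matrix Q81.TraceInv
open scoped Matrix ComplexOrder Matrix.Norms.L2Operator

variable {n m : ℕ}

/-- Some vector `y ≠ 0` is killed by `Bᴴ` when `B` is `n × m` with `m < n`. -/
lemma exists_ker (hmn : m < n) (B : Matrix (Fin n) (Fin m) ℂ) :
    ∃ y : Fin n → ℂ, y ≠ 0 ∧ Bᴴ *ᵥ y = 0 := by
  have h : LinearMap.ker (Matrix.mulVecLin Bᴴ) ≠ ⊥ := by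
    apply LinearMap.ker_ne_bot_of_finrank_lt
    simpa using hmn
  obtain ⟨y, hy, hy0⟩ := (Submodule.ne_bot_iff _).1 h
  exact ⟨y, hy0, by simpa using hy⟩

/-- Key estimate: if `Y² + A Y - Y A` kills `y` (tested against `y`), `A` is skew-Hermitian and
`Y` Hermitian, then `‖Y y‖ ≤ 2 ‖A y‖`. -/
lemma nrm_Y_le {A Y : Matrix (Fin n) (Fin n) ℂ} (hA : Aᴴ = -A) (hY : Yᴴ = Y) {y : Fin n → ℂ}
    (h : star y ⬝ᵥ ((Y * Y + A * Y - Y * A) *ᵥ y) = 0) : nrm (Y *ᵥ y) ≤ 2 * nrm (A *ᵥ y) := by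
  have e1 : star y ⬝ᵥ ((Y * Y) *ᵥ y) = ((nrm (Y *ᵥ y) ^ 2 : ℝ) : ℂ) := by
    rw [← star_dot_self, Matrix.star_mulVec, hY, ← Matrix.mulVec_mulVec, Matrix.dotProduct_mulVec]
  have e2 : star y ⬝ᵥ ((A * Y) *ᵥ y) = - (star (A *ᵥ y) ⬝ᵥ (Y *ᵥ y)) := by
    rw [Matrix.star_mulVec, hA, ← Matrix.mulVec_mulVec, Matrix.dotProduct_mulVec,
      Matrix.vecMul_neg, neg_dotProduct, neg_neg]
  have e3 : star y ⬝ᵥ ((Y * A) *ᵥ y) = star (Y *ᵥ y) ⬝ᵥ (A *ᵥ y) := by
    rw [Matrix.star_mulVec, hY, ← Matrix.mulVec_mulVec, Matrix.dotProduct_mulVec]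
  rw [Matrix.sub_mulVec, Matrix.add_mulVec, dotProduct_sub, dotProduct_add, e1, e2, e3] at h
  have h1 : ((nrm (Y *ᵥ y) ^ 2 : ℝ) : ℂ)
      = star (A *ᵥ y) ⬝ᵥ (Y *ᵥ y) + star (Y *ᵥ y) ⬝ᵥ (A *ᵥ y) := by
    linear_combination h
  have h2 : nrm (Y *ᵥ y) ^ 2 ≤ nrm (A *ᵥ y) * nrm (Y *ᵥ y) + nrm (Y *ᵥ y) * nrm (A *ᵥ y) := by
    have h3 : ‖((nrm (Y *ᵥ y) ^ 2 : ℝ) : ℂ)‖ = nrm (Y *ᵥ y) ^ 2 := by
      rw [Complex.norm_real, Real.norm_eq_abs, abs_of_nonneg (by positivity)]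
    rw [← h3, h1]
    exact (norm_add_le _ _).trans (add_le_add (norm_dot_le _ _) (norm_dot_le _ _))
  rcases (nrm_nonneg (Y *ᵥ y)).eq_or_lt with h0 | h0
  · rw [← h0]; exact mul_nonneg (by norm_num) (nrm_nonneg _)
  · nlinarith

/-- The main estimate, for a centred skew-Hermitian matrix. -/
lemma main_centred {A Y : Matrix (Fin n) (Fin n) ℂ} (hA : Aᴴ = -A) (hY : Y.PosDef)
    {y : Fin n → ℂ} (hy : y ≠ 0) (h : star y ⬝ᵥ ((Y * Y + A * Y - Y * A) *ᵥ y) = 0)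
    {a : ℝ} (ha : nrm (A *ᵥ y) ≤ a * nrm y) {g : ℝ}
    (hspec : ∀ z ∈ spectrum ℂ (A - Y), z.re ≤ -g) : g ≤ (12 * n - 3) * a := by
  have hyp := nrm_pos hy
  have hYy := nrm_Y_le hA hY.1 h
  have hYpos : 0 < nrm (Y *ᵥ y) := by
    apply nrm_pos
    intro h0
    have := hY.dotProduct_mulVec_pos hy
    rw [h0] at this
    simp at this
  have ha0 : 0 < a := by
    by_contra hcon
    push Not at hcon
    have : a * nrm y ≤ 0 := mul_nonpos_of_nonpos_of_nonneg hcon hyp.le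
    linarith
  by_contra hcon
  push Not at hcon
  have hn : (1 : ℝ) ≤ n := by
    have : 0 < n := by
      rcases Nat.eq_zero_or_pos n with h0 | h0
      · subst h0
        exact absurd (Subsingleton.elim y 0) hy
      · exact h0
    exact_mod_cast this
  have hgpos : 0 < g := lt_of_le_of_lt (by nlinarith) hcon
  set s : ℝ := 3 * a with hs
  have hs0 : 0 < s := by positivity
  set M : Matrix (Fin n) (Fin n) ℂ := (s : ℂ) • 1 - (A - Y) with hM
  have hspecM : ∀ z ∈ spectrum ℂ M, s + g ≤ z.re := by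
    intro z hz
    have h1 : (s : ℂ) - z ∈ spectrum ℂ (A - Y) := by
      rw [spectrum.mem_iff] at hz ⊢
      intro hu
      apply hz
      rw [hM]
      have : (algebraMap ℂ (Matrix (Fin n) (Fin n) ℂ)) z - ((s : ℂ) • 1 - (A - Y))
          = -((algebraMap ℂ (Matrix (Fin n) (Fin n) ℂ)) ((s : ℂ) - z) - (A - Y)) := by
        rw [Algebra.algebraMap_eq_smul_one, Algebra.algebraMap_eq_smul_one, sub_smul]
        abel
      rw [this]
      exact hu.neg
    have h2 := hspec _ h1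
    simp at h2
    linarith
  obtain ⟨hu, htr⟩ := re_trace_inv_le M (show 0 < s + g by positivity) hspecM
  have hd : IsUnit M.det := (Matrix.isUnit_iff_isUnit_det M).1 hu
  set W := M⁻¹ with hW
  have hWM : W * M = 1 := Matrix.nonsing_inv_mul M hd
  have hMW : M * W = 1 := Matrix.mul_nonsing_inv M hd
  -- `W + Wᴴ = Wᴴ (M + Mᴴ) W`
  have hsum : W + Wᴴ = Wᴴ * (M + Mᴴ) * W := by
    have h1 : Wᴴ * Mᴴ = 1 := by rw [← Matrix.conjTranspose_mul, hMW, Matrix.conjTranspose_one]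
    rw [Matrix.mul_add, Matrix.add_mul, h1, Matrix.one_mul, Matrix.mul_assoc, hMW, Matrix.mul_one,
      add_comm]
  have hMM : M + Mᴴ = (2 : ℂ) • Y + ((2 * s : ℝ) : ℂ) • 1 := by
    rw [hM]
    simp only [Matrix.conjTranspose_sub, Matrix.conjTranspose_smul, Matrix.conjTranspose_one, hA,
      hY.1.eq, RCLike.star_def, Complex.conj_ofReal]
    push_cast
    module
  have htrace : (W.trace).re ≥ s * ((Wᴴ * W).trace).re := by
    have h1 : (W + Wᴴ).trace = (Wᴴ * (M + Mᴴ) * W).trace := by rw [← hsum]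
    rw [hMM, Matrix.mul_add, Matrix.add_mul, Matrix.trace_add, Matrix.trace_add,
      Matrix.trace_conjTranspose, Matrix.mul_smul, Matrix.smul_mul, Matrix.mul_smul,
      Matrix.smul_mul, Matrix.mul_one, Matrix.trace_smul, Matrix.trace_smul] at h1
    have h2 := congrArg Complex.re h1
    have h3 : 0 ≤ ((Wᴴ * Y * W).trace).re := by
      have hp : (Wᴴ * Y * W).PosSemidef := hY.posSemidef.conjTranspose_mul_mul_same W
      have := hp.trace_nonneg
      exact (Complex.le_def.1 this).1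
    simp at h2
    linarith
  have hle := nrm_sq_le_trace W (M *ᵥ y)
  rw [Matrix.mulVec_mulVec, hWM, Matrix.one_mulVec] at hle
  have hMy : nrm (M *ᵥ y) ≤ 6 * a * nrm y := by
    have e : M *ᵥ y = (s : ℂ) • y + Y *ᵥ y - A *ᵥ y := by
      rw [hM, Matrix.sub_mulVec, Matrix.sub_mulVec, Matrix.smul_mulVec, Matrix.one_mulVec]
      abel
    rw [e]
    have h1 := nrm_sub ((s : ℂ) • y + Y *ᵥ y) (A *ᵥ y)
    have h2 := nrm_add ((s : ℂ) • y) (Y *ᵥ y)
    rw [nrm_smul, Complex.norm_real, Real.norm_eq_abs, abs_of_pos hs0] at h2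
    have : s * nrm y = 3 * a * nrm y := by rw [hs]
    linarith
  have hT0 : 0 ≤ ((Wᴴ * W).trace).re := by
    by_contra hneg
    push Not at hneg
    have : ((Wᴴ * W).trace).re * nrm (M *ᵥ y) ^ 2 ≤ 0 :=
      mul_nonpos_of_nonpos_of_nonneg hneg.le (by positivity)
    have h4 : 0 < nrm y ^ 2 := by positivity
    linarith
  have hle2 : nrm y ^ 2 ≤ ((Wᴴ * W).trace).re * (6 * a * nrm y) ^ 2 := by
    refine hle.trans ?_
    gcongr
    exact nrm_nonneg _
  have hle3 : 1 ≤ ((Wᴴ * W).trace).re * (36 * a ^ 2) := by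
    have h4 : 0 < nrm y ^ 2 := by positivity
    by_contra hc
    push Not at hc
    have : ((Wᴴ * W).trace).re * (36 * a ^ 2) * nrm y ^ 2 < 1 * nrm y ^ 2 :=
      mul_lt_mul_of_pos_right hc h4
    nlinarith
  have hfin : 3 * a * ((Wᴴ * W).trace).re ≤ n / (s + g) := htrace.le.trans htr
  rw [le_div_iff₀ (by positivity)] at hfin
  have : s + g > 12 * n * a := by rw [hs]; linarith
  nlinarith [mul_pos ha0 ha0]

end Q81.Lqr
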