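import Mathlib
import Pool.Agent.Q81.Lqr
import Pool.Agent.Q81.ExpStable

/-!
# The cost matrix of a stable matrix and its size
-/

namespace Q81.Cost

open Matrix Filter Topology NormedSpace MeasureTheory Q81.TraceInv Q81.ExpStable
open scoped Matrix ComplexOrder Matrix.Norms.L2Operator

variable {n m : ℕ}

/-- `∫_0^∞ exp (t M)ᴴ exp (t M) dt`. -/
noncomputable def cost (M : Matrix (Fin n) (Fin n) ℂ) : Matrix (Fin n) (Fin n) ℂ :=
  ∫ t in Set.Ioi (0 : ℝ), (exp (t • M))ᴴ * exp (t • M)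

open scoped MatrixOrder in
/-- A positive semidefinite matrix is `Rᴴ R`. -/
lemma exists_factor {X : Matrix (Fin n) (Fin n) ℂ} (hX : X.PosSemidef) :
    ∃ R : Matrix (Fin n) (Fin n) ℂ, X = Rᴴ * R := by
  obtain ⟨R, hR⟩ := CStarAlgebra.nonneg_iff_eq_star_mul_self.mp hX.nonneg
  exact ⟨R, by rw [hR, Matrix.star_eq_conjTranspose]⟩

lemma continuous_integrand (M : Matrix (Fin n) (Fin n) ℂ) :
    Continuous fun t : ℝ => (exp (t • M))ᴴ * exp (t • M) := by
  have hcont : Continuous fun t : ℝ => exp (t • M) :=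
    (differentiable_exp_smul_const ℝ M).continuous
  exact (hcont.matrix_conjTranspose).mul hcont

lemma norm_integrand_le {M : Matrix (Fin n) (Fin n) ℂ} {C ω : ℝ} 
    (h : ∀ t : ℝ, 0 ≤ t → ‖exp (t • M)‖ ≤ C * Real.exp (-(ω * t))) (t : ℝ) (ht : 0 ≤ t) :
    ‖(exp (t • M))ᴴ * exp (t • M)‖ ≤ C ^ 2 * Real.exp (-(2 * ω) * t) := by
  have h1 := norm_mul_le ((exp (t • M))ᴴ) (exp (t • M))
  have h2 : ‖(exp (t • M))ᴴ‖ = ‖exp (t • M)‖ := Matrix.l2_opNorm_conjTranspose _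
  rw [h2] at h1
  refine h1.trans ?_
  have h3 := h t ht
  calc ‖exp (t • M)‖ * ‖exp (t • M)‖ ≤ (C * Real.exp (-(ω * t))) * (C * Real.exp (-(ω * t))) :=
        mul_self_le_mul_self (norm_nonneg _) h3
    _ = C ^ 2 * (Real.exp (-(ω * t)) * Real.exp (-(ω * t))) := by ring
    _ = _ := by rw [← Real.exp_add]; ring_nf

lemma integrableOn_integrand [Nonempty (Fin n)] {M : Matrix (Fin n) (Fin n) ℂ}
    (h : ∀ z ∈ spectrum ℂ M, z.re < 0) :
    IntegrableOn (fun t : ℝ => (exp (t • M))ᴴ * exp (t • M)) (Set.Ioi 0) := by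
  obtain ⟨C, ω, hω, hC⟩ := exp_decay M h
  have hint : IntegrableOn (fun t : ℝ => C ^ 2 * Real.exp (-(2 * ω) * t)) (Set.Ioi 0) :=
    (exp_neg_integrableOn_Ioi 0 (by positivity : 0 < 2 * ω)).const_mul _
  refine Integrable.mono' hint (continuous_integrand M).aestronglyMeasurable ?_
  rw [ae_restrict_iff' measurableSet_Ioi]
  exact ae_of_all _ fun t ht => norm_integrand_le hC t (le_of_lt ht)

/-- The Lyapunov equation. -/
lemma lyapunov [Nonempty (Fin n)] {M : Matrix (Fin n) (Fin n) ℂ}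
    (h : ∀ z ∈ spectrum ℂ M, z.re < 0) : Mᴴ * cost M + cost M * M = -1 := by
  obtain ⟨C, ω, hω, hC⟩ := exp_decay M h
  have hI := integrableOn_integrand h
  have hderiv : ∀ t : ℝ, HasDerivAt (fun t : ℝ => (exp (t • M))ᴴ * exp (t • M))
      (Mᴴ * ((exp (t • M))ᴴ * exp (t • M)) + ((exp (t • M))ᴴ * exp (t • M)) * M) t := by
    intro t
    have h1 : HasDerivAt (fun t : ℝ => exp (t • M)) (exp (t • M) * M) t :=
      hasDerivAt_exp_smul_const M t
    have h2 : HasDerivAt (fun t : ℝ => (exp (t • M))ᴴ) ((exp (t • M) * M)ᴴ) t := by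
      have h3 := h1.star
      simpa [Matrix.star_eq_conjTranspose] using h3
    have h4 := h2.mul h1
    rw [Matrix.conjTranspose_mul] at h4
    have e : Mᴴ * ((exp (t • M))ᴴ * exp (t • M)) + ((exp (t • M))ᴴ * exp (t • M)) * M
        = Mᴴ * (exp (t • M))ᴴ * exp (t • M) + (exp (t • M))ᴴ * (exp (t • M) * M) := by
      rw [Matrix.mul_assoc, Matrix.mul_assoc]
    rw [e]
    exact h4
  have hL : Integrable (fun t : ℝ => Mᴴ * ((exp (t • M))ᴴ * exp (t • M)) +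
      ((exp (t • M))ᴴ * exp (t • M)) * M) (volume.restrict (Set.Ioi 0)) :=
    (hI.const_mul Mᴴ).add (hI.mul_const M)
  have hlim : Tendsto (fun t : ℝ => (exp (t • M))ᴴ * exp (t • M)) atTop (𝓝 0) := by
    rw [tendsto_zero_iff_norm_tendsto_zero]
    have hz : Tendsto (fun t : ℝ => C ^ 2 * Real.exp (-(2 * ω) * t)) atTop (𝓝 0) := by
      have h1 : Tendsto (fun t : ℝ => (2 * ω) * t) atTop atTop :=
        tendsto_id.const_mul_atTop (by positivity)
      have h2 := (Real.tendsto_exp_neg_atTop_nhds_zero.comp h1).const_mul (C ^ 2)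
      simpa [Function.comp_def, neg_mul] using h2
    refine squeeze_zero' (Eventually.of_forall fun t => norm_nonneg _) ?_ hz
    filter_upwards [eventually_ge_atTop 0] with t ht
    exact norm_integrand_le hC t ht
  have hFTC := integral_Ioi_of_hasDerivAt_of_tendsto
    (continuous_integrand M).continuousWithinAt (fun t _ => hderiv t) hL hlim
  rw [integral_add (hI.const_mul Mᴴ) (hI.mul_const M)] at hFTC
  have e1 : ∫ t in Set.Ioi (0 : ℝ), Mᴴ * ((exp (t • M))ᴴ * exp (t • M)) = Mᴴ * cost M :=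
    (ContinuousLinearMap.mul ℝ (Matrix (Fin n) (Fin n) ℂ) Mᴴ).integral_comp_comm hI
  have e2 : ∫ t in Set.Ioi (0 : ℝ), ((exp (t • M))ᴴ * exp (t • M)) * M = cost M * M :=
    ((ContinuousLinearMap.mul ℝ (Matrix (Fin n) (Fin n) ℂ)).flip M).integral_comp_comm hI
  rw [e1, e2] at hFTC
  simpa using hFTC

lemma star_dot_cost [Nonempty (Fin n)] {M : Matrix (Fin n) (Fin n) ℂ}
    (h : ∀ z ∈ spectrum ℂ M, z.re < 0) (v : Fin n → ℂ) :
    star v ⬝ᵥ (cost M *ᵥ v) = ((∫ t in Set.Ioi (0 : ℝ), nrm (exp (t • M) *ᵥ v) ^ 2 : ℝ) : ℂ) := by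
  have hI := integrableOn_integrand h
  let L : Matrix (Fin n) (Fin n) ℂ →L[ℝ] ℂ :=
    LinearMap.toContinuousLinearMap
      { toFun := fun N => star v ⬝ᵥ (N *ᵥ v)
        map_add' := fun a b => by rw [Matrix.add_mulVec, dotProduct_add]
        map_smul' := fun c a => by
          rw [Matrix.smul_mulVec, dotProduct_smul, RingHom.id_apply] }
  have h1 := L.integral_comp_comm hI
  have h2 : ∀ t : ℝ, L ((exp (t • M))ᴴ * exp (t • M)) = ((nrm (exp (t • M) *ᵥ v) ^ 2 : ℝ) : ℂ) := by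
    intro t
    show star v ⬝ᵥ (((exp (t • M))ᴴ * exp (t • M)) *ᵥ v) = _
    rw [← star_dot_self, Matrix.star_mulVec, ← Matrix.mulVec_mulVec, Matrix.dotProduct_mulVec]
  rw [show star v ⬝ᵥ (cost M *ᵥ v) = L (cost M) from rfl, cost, ← h1, ← integral_complex_ofReal]
  exact integral_congr_ae (ae_of_all _ h2)

lemma cost_posSemidef [Nonempty (Fin n)] {M : Matrix (Fin n) (Fin n) ℂ}
    (h : ∀ z ∈ spectrum ℂ M, z.re < 0) : (cost M).PosSemidef := by
  have hH : (cost M).IsHermitian := by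
    have hI := integrableOn_integrand h
    let L : Matrix (Fin n) (Fin n) ℂ →L[ℝ] Matrix (Fin n) (Fin n) ℂ :=
      LinearMap.toContinuousLinearMap
        { toFun := fun N => Nᴴ
          map_add' := fun a b => Matrix.conjTranspose_add a b
          map_smul' := fun c a => by
            rw [Matrix.conjTranspose_smul, star_trivial, RingHom.id_apply] }
    have h1 := L.integral_comp_comm hI
    show L (cost M) = cost M
    rw [cost, ← h1]
    refine integral_congr_ae (ae_of_all _ fun t => ?_)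
    show ((exp (t • M))ᴴ * exp (t • M))ᴴ = _
    rw [Matrix.conjTranspose_mul, Matrix.conjTranspose_conjTranspose]
  refine Matrix.PosSemidef.of_dotProduct_mulVec_nonneg hH fun v => ?_
  rw [star_dot_cost h v]
  exact_mod_cast integral_nonneg fun t => by positivity

lemma cost_posDef [Nonempty (Fin n)] {M : Matrix (Fin n) (Fin n) ℂ}
    (h : ∀ z ∈ spectrum ℂ M, z.re < 0) : (cost M).PosDef := by
  have hps := cost_posSemidef h
  rw [hps.posDef_iff_isUnit]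
  rw [← Matrix.mulVec_injective_iff_isUnit]
  have hker : LinearMap.ker (cost M).mulVecLin = ⊥ → Function.Injective (cost M).mulVec :=
    fun hk => LinearMap.ker_eq_bot.1 hk
  apply hker
  rw [LinearMap.ker_eq_bot']
  intro v hv
  have hv' : cost M *ᵥ v = 0 := hv
  by_contra hv0
  have hl := congrArg (fun N => star v ⬝ᵥ (N *ᵥ v)) (lyapunov h)
  simp only [Matrix.add_mulVec, Matrix.neg_mulVec, Matrix.one_mulVec, dotProduct_add,
    dotProduct_neg, ← Matrix.mulVec_mulVec, hv', Matrix.mulVec_zero, dotProduct_zero,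
    star_dot_self] at hl
  have h2 : star v ⬝ᵥ (cost M *ᵥ (M *ᵥ v)) = 0 := by
    have h3 : star v ⬝ᵥ (cost M *ᵥ (M *ᵥ v)) = star (cost M *ᵥ v) ⬝ᵥ (M *ᵥ v) := by
      rw [Matrix.star_mulVec, hps.1.eq, Matrix.dotProduct_mulVec]
    rw [h3, hv']
    simp
  rw [h2] at hl
  have h4 := nrm_pos hv0
  have h5 : (nrm v ^ 2 : ℝ) = 0 := by
    have : ((nrm v ^ 2 : ℝ) : ℂ) = 0 := by
      linear_combination hl
    exact_mod_cast this
  have : 0 < nrm v ^ 2 := by positivity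
  linarith

/-- For a positive semidefinite `X`: `‖X w‖² ≤ ‖X‖ ⟨w, X w⟩`. -/
lemma nrm_sq_mulVec_le {X : Matrix (Fin n) (Fin n) ℂ} (hX : X.PosSemidef) (w : Fin n → ℂ) :
    nrm (X *ᵥ w) ^ 2 ≤ ‖X‖ * (star w ⬝ᵥ (X *ᵥ w)).re := by
  obtain ⟨R, rfl⟩ := exists_factor hX
  have h1 : star w ⬝ᵥ ((Rᴴ * R) *ᵥ w) = ((nrm (R *ᵥ w) ^ 2 : ℝ) : ℂ) := by
    rw [← star_dot_self, Matrix.star_mulVec, ← Matrix.mulVec_mulVec, Matrix.dotProduct_mulVec]
  rw [h1, Complex.ofReal_re, ← Matrix.mulVec_mulVec]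
  have h2 := nrm_mulVec_le Rᴴ (R *ᵥ w)
  have h3 : ‖Rᴴ‖ = ‖R‖ := Matrix.l2_opNorm_conjTranspose R
  have h4 : ‖Rᴴ * R‖ = ‖R‖ * ‖R‖ := Matrix.l2_opNorm_conjTranspose_mul_self R
  rw [h3] at h2
  rw [h4]
  have h5 := mul_self_le_mul_self (nrm_nonneg _) h2
  nlinarith

/-- **Main estimate.** If `M` is stable, `Re λ ≤ -g < 0` on its spectrum, and `Mᴴ y = Aᴴ y` for
some `y ≠ 0`, then `g ≤ 2 n ‖A‖² ‖X₀‖`. -/
theorem gap_le [Nonempty (Fin n)] {M A : Matrix (Fin n) (Fin n) ℂ} {g : ℝ} (hg : 0 < g)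
    (h : ∀ z ∈ spectrum ℂ M, z.re ≤ -g) {y : Fin n → ℂ} (hy : y ≠ 0)
    (hMA : Mᴴ *ᵥ y = Aᴴ *ᵥ y) : g ≤ 2 * n * ‖A‖ ^ 2 * ‖cost M‖ := by
  have hst : ∀ z ∈ spectrum ℂ M, z.re < 0 := fun z hz => lt_of_le_of_lt (h z hz) (by linarith)
  have hX := cost_posDef hst
  have hlyap := lyapunov hst
  set X := cost M with hXdef
  set Y := X⁻¹ with hYdef
  have hXd : IsUnit X.det := (Matrix.isUnit_iff_isUnit_det X).1 hX.isUnit
  have hXY : X * Y = 1 := Matrix.mul_nonsing_inv X hXd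
  have hYX : Y * X = 1 := Matrix.nonsing_inv_mul X hXd
  have hY : Y.PosDef := hX.inv
  -- the trace of the inverse of `-M`
  have hspec : ∀ z ∈ spectrum ℂ (-M), g ≤ z.re := by
    intro z hz
    rw [← spectrum.neg_eq] at hz
    have := h _ (Set.mem_neg.1 hz)
    simp at this
    linarith
  obtain ⟨hu, htr⟩ := re_trace_inv_le (-M) hg hspec
  have hu' : IsUnit M := by simpa using hu.neg
  have hd : IsUnit M.det := (Matrix.isUnit_iff_isUnit_det M).1 hu'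
  set Z := M⁻¹ with hZdef
  have hMZ : M * Z = 1 := Matrix.mul_nonsing_inv M hd
  have hZM : Z * M = 1 := Matrix.nonsing_inv_mul M hd
  have hnegZ : (-M)⁻¹ = -Z := by
    apply Matrix.inv_eq_left_inv
    rw [neg_mul_neg, hZM]
  rw [hnegZ, Matrix.trace_neg, Complex.neg_re] at htr
  have hMZ' : Zᴴ * Mᴴ = 1 := by rw [← Matrix.conjTranspose_mul, hMZ, Matrix.conjTranspose_one]
  -- `X Z + Zᴴ X = - Zᴴ Z`
  have h1 : X * Z + Zᴴ * X = -(Zᴴ * Z) := by
    have h2 : Zᴴ * (Mᴴ * X + X * M) * Z = Zᴴ * (-1) * Z := by rw [hlyap]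
    have h3 : Zᴴ * (Mᴴ * X + X * M) * Z = (Zᴴ * Mᴴ) * X * Z + Zᴴ * X * (M * Z) := by
      noncomm_ring
    rw [h3, hMZ, hMZ'] at h2
    simpa using h2
  -- trace identity
  have h4 : 2 * (Z.trace).re = -((Z * Y * Zᴴ).trace).re := by
    have h5 : (Y * (X * Z + Zᴴ * X)).trace = (Y * -(Zᴴ * Z)).trace := by rw [h1]
    rw [Matrix.mul_add, Matrix.trace_add, ← Matrix.mul_assoc, hYX, Matrix.one_mul,
      Matrix.trace_mul_comm Y (Zᴴ * X), Matrix.mul_assoc, hXY, Matrix.mul_one,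
      Matrix.trace_conjTranspose, Matrix.mul_neg, Matrix.trace_neg] at h5
    have h6 : (Y * (Zᴴ * Z)).trace = (Z * Y * Zᴴ).trace := by
      rw [← Matrix.mul_assoc, Matrix.trace_mul_comm, Matrix.mul_assoc]
    rw [h6] at h5
    have h7 := congrArg Complex.re h5
    simp at h7
    linarith
  -- lower bound for the trace
  obtain ⟨S, hS⟩ := exists_factor hY.posSemidef
  have h8 := nrm_sq_le_trace (S * Zᴴ) (Mᴴ *ᵥ y)
  have h9 : (S * Zᴴ)ᴴ * (S * Zᴴ) = Z * Y * Zᴴ := by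
    rw [Matrix.conjTranspose_mul, Matrix.conjTranspose_conjTranspose, hS]
    noncomm_ring
  have h10 : (S * Zᴴ) *ᵥ (Mᴴ *ᵥ y) = S *ᵥ y := by
    rw [Matrix.mulVec_mulVec, Matrix.mul_assoc, hMZ', Matrix.mul_one]
  rw [h9, h10] at h8
  have h11 : (star y ⬝ᵥ (Y *ᵥ y)).re = nrm (S *ᵥ y) ^ 2 := by
    have : star y ⬝ᵥ (Y *ᵥ y) = ((nrm (S *ᵥ y) ^ 2 : ℝ) : ℂ) := by
      rw [← star_dot_self, Matrix.star_mulVec, hS, ← Matrix.mulVec_mulVec,
        Matrix.dotProduct_mulVec]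
    rw [this, Complex.ofReal_re]
  have h12 : nrm y ^ 2 ≤ ‖X‖ * nrm (S *ᵥ y) ^ 2 := by
    have h13 := nrm_sq_mulVec_le hX.posSemidef (Y *ᵥ y)
    rw [Matrix.mulVec_mulVec, hXY, Matrix.one_mulVec] at h13
    have h14 : star (Y *ᵥ y) ⬝ᵥ y = star y ⬝ᵥ (Y *ᵥ y) := by
      rw [Matrix.star_mulVec, hY.1.eq, Matrix.dotProduct_mulVec]
    rwa [h14, h11] at h13
  have h15 : nrm (Mᴴ *ᵥ y) ≤ ‖A‖ * nrm y := by
    rw [hMA]
    have := nrm_mulVec_le Aᴴ y
    rwa [Matrix.l2_opNorm_conjTranspose] at this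
  have h16 : ((Z * Y * Zᴴ).trace).re ≤ 2 * (n / g) := by linarith
  have hyp := nrm_pos hy
  have hT0 : 0 ≤ ((Z * Y * Zᴴ).trace).re := by
    rw [← h9]
    have := (Matrix.posSemidef_conjTranspose_mul_self (S * Zᴴ)).trace_nonneg
    exact (Complex.le_def.1 this).1
  have h17 : nrm (Mᴴ *ᵥ y) ^ 2 ≤ (‖A‖ * nrm y) ^ 2 := by
    have := nrm_nonneg (Mᴴ *ᵥ y)
    gcongr
  have h18 : nrm y ^ 2 ≤ ‖X‖ * (2 * (n / g) * (‖A‖ * nrm y) ^ 2) := by
    refine h12.trans ?_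
    refine mul_le_mul_of_nonneg_left ?_ (norm_nonneg _)
    refine h8.trans ?_
    exact mul_le_mul h16 h17 (by positivity) (by positivity)
  have h19 : g * nrm y ^ 2 ≤ (2 * n * ‖A‖ ^ 2 * ‖X‖) * nrm y ^ 2 := by
    have : ‖X‖ * (2 * (n / g) * (‖A‖ * nrm y) ^ 2) = (2 * n * ‖A‖ ^ 2 * ‖X‖) * nrm y ^ 2 / g := by
      field_simp
    rw [this, le_div_iff₀ hg] at h18
    linarith
  exact le_of_mul_le_mul_right h19 (by positivity)

end Q81.Cost
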