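import Mathlib

/-!
# A sufficient condition for frequent hypercyclicity by periodic vectors
-/

namespace Q81.Crit

open Filter Topology Set

/-- The cycle lemma. -/
lemma cycle (p : ℕ → Prop) [DecidablePred p] {P Q : ℕ} (hP : 0 < P) (hQ : 0 < Q)
    (hper : ∀ n, p (n + Q) ↔ p n) {η : ℝ} (hη0 : 0 ≤ η) (hη : η * P < 1)
    (hcount : (Nat.count p Q : ℝ) ≤ η * Q) :
    ∃ a, P ∣ a ∧ ∀ N : ℕ, (Nat.count (fun k => p (a + k)) N : ℝ) ≤ 2 * η * N := by
  -- periodicity with period `Q' = P Q`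
  have hshift : ∀ n, Nat.count p (n + Q) = Nat.count p n + Nat.count p Q := by
    intro n
    rw [add_comm n Q, Nat.count_add, add_comm]
    congr 1
    have : (fun k => p (Q + k)) = p := by
      funext k
      rw [add_comm]
      exact propext (hper k)
    simp only [this]
  have hshift' : ∀ s n, Nat.count p (n + s * Q) = Nat.count p n + s * Nat.count p Q := by
    intro s
    induction s with
    | zero => intro n; simp
    | succ s ih =>
      intro n
      rw [show n + (s + 1) * Q = (n + s * Q) + Q by ring, hshift, ih]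
      ring
  set b : ℕ → ℝ := fun s => (Nat.count p (P * s) : ℝ) - η * (P * s) with hb
  have hbQ : ∀ s q, b (s + q * Q) ≤ b s := by
    intro s q
    simp only [hb]
    have h1 : P * (s + q * Q) = P * s + (P * q) * Q := by ring
    rw [h1, hshift']
    push_cast
    have h2 : (P * q : ℝ) * (Nat.count p Q : ℝ) ≤ (P * q : ℝ) * (η * Q) :=
      mul_le_mul_of_nonneg_left hcount (by positivity)
    nlinarith
  obtain ⟨s0, hs0, hmax⟩ := (Finset.range Q).exists_max_image b ⟨0, Finset.mem_range.2 hQ⟩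
  have hall : ∀ s, b s ≤ b s0 := by
    intro s
    have h1 : s = s % Q + (s / Q) * Q := by
      rw [mul_comm]; exact (Nat.mod_add_div s Q).symm
    calc b s = b (s % Q + (s / Q) * Q) := by rw [← h1]
      _ ≤ b (s % Q) := hbQ _ _
      _ ≤ b s0 := hmax _ (Finset.mem_range.2 (Nat.mod_lt _ hQ))
  refine ⟨P * s0, dvd_mul_right _ _, fun N => ?_⟩
  rcases Nat.eq_zero_or_pos N with h0 | hN
  · subst h0; simp
  -- `t = ⌈N/P⌉`
  set t := (N - 1) / P + 1 with ht
  have hNt : N ≤ P * t := by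
    have := Nat.div_add_mod (N - 1) P
    have h2 := Nat.mod_lt (N - 1) hP
    rw [ht, mul_add, mul_one]
    omega
  have hcnt : (Nat.count (fun k => p (P * s0 + k)) (P * t) : ℝ) ≤ η * (P * t) := by
    have h1 := Nat.count_add p (P * s0) (P * t)
    have h2 := hall (s0 + t)
    simp only [hb] at h2
    rw [mul_add, h1] at h2
    push_cast at h2
    nlinarith
  have hmono : Nat.count (fun k => p (P * s0 + k)) N ≤ Nat.count (fun k => p (P * s0 + k)) (P * t) :=
    Nat.count_monotone _ hNt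
  have hmono' : (Nat.count (fun k => p (P * s0 + k)) N : ℝ) ≤ η * (P * t) :=
    le_trans (by exact_mod_cast hmono) hcnt
  rcases Nat.eq_or_lt_of_le (show 1 ≤ t from Nat.le_add_left 1 _) with h1 | h1
  · rw [← h1] at hmono'
    have h2 : (Nat.count (fun k => p (P * s0 + k)) N : ℝ) < 1 := by
      push_cast at hmono'
      linarith
    have h3 : Nat.count (fun k => p (P * s0 + k)) N = 0 := by
      have : Nat.count (fun k => p (P * s0 + k)) N < 1 := by exact_mod_cast h2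
      omega
    rw [h3]
    push_cast
    positivity
  · refine hmono'.trans ?_
    have h2 : P * t ≤ 2 * N := by
      have h3 : P * (t - 1) ≤ N - 1 := by
        rw [ht, Nat.add_sub_cancel]
        exact Nat.mul_div_le _ _
      have h4 : P * t ≤ 2 * (P * (t - 1)) := by
        obtain ⟨u, hu⟩ : ∃ u, t = u + 2 := ⟨t - 2, by omega⟩
        rw [hu]
        have : u + 2 - 1 = u + 1 := by omega
        rw [this]
        nlinarith
      omega
    have h3 : (P * t : ℝ) ≤ 2 * N := by exact_mod_cast h2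
    nlinarith

variable {X : Type*} [NormedAddCommGroup X] [NormedSpace ℂ X]

lemma pow_mul_fix {T : X →L[ℂ] X} {Q : ℕ} {ξ : X} (h : (T ^ Q) ξ = ξ) (s : ℕ) :
    (T ^ (Q * s)) ξ = ξ := by
  induction s with
  | zero => simp
  | succ s ih =>
    rw [mul_add, mul_one, pow_add, mul_apply_eq_comp, h, ih]

lemma pow_dvd_fix {T : X →L[ℂ] X} {Q m : ℕ} {ξ : X} (h : (T ^ Q) ξ = ξ) (hd : Q ∣ m) :
    (T ^ m) ξ = ξ := by
  obtain ⟨s, rfl⟩ := hd
  exact pow_mul_fix h s

/-- the property (H) -/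
def HProp (T : X →L[ℂ] X) (D : Submodule ℂ X) (w : X) : Prop :=
  ∀ ε > 0, ∀ η > 0, ∃ ξ ∈ D, ∃ Q > 0, (T ^ Q) ξ = ξ ∧ ‖ξ - w‖ < ε ∧
    ∀ [DecidablePred fun n => ε ≤ ‖(T ^ n) ξ‖],
    (Nat.count (fun n => ε ≤ ‖(T ^ n) ξ‖) Q : ℝ) ≤ η * Q

/-- One step of the construction. -/
lemma step (T : X →L[ℂ] X) (D : Submodule ℂ X) (hinv : ∀ w ∈ D, T w ∈ D)
    (H : ∀ w ∈ D, HProp T D w) {x v : X} (hx : x ∈ D) (hv : v ∈ D) {P : ℕ} (hP : 0 < P)
    (hxP : (T ^ P) x = x) {ε κ : ℝ} (hε : 0 < ε) (hκ : 0 < κ) :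
    ∃ ζ ∈ D, ∃ Q > 0, P ∣ Q ∧ (T ^ Q) ζ = ζ ∧ (∃ m, ‖(T ^ m) (x + ζ) - v‖ < ε) ∧
      ∀ [DecidablePred fun n => ε ≤ ‖(T ^ n) ζ‖] (N : ℕ),
        (Nat.count (fun n => ε ≤ ‖(T ^ n) ζ‖) N : ℝ) ≤ κ * N := by
  classical
  have hpowD : ∀ n, ∀ w ∈ D, (T ^ n) w ∈ D := by
    intro n
    induction n with
    | zero => intro w hw; simpa using hw
    | succ n ih =>
      intro w hw
      rw [pow_succ, mul_apply_eq_comp]
      exact ih _ (hinv w hw)
  set η : ℝ := min (κ / 2) (1 / (2 * P)) with hη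
  have hP' : (0 : ℝ) < P := by exact_mod_cast hP
  have hη0 : 0 < η := lt_min (by linarith) (by positivity)
  obtain ⟨ξ, hξD, Q, hQ, hξQ, hξw, hcount⟩ := H (v - x) (D.sub_mem hv hx) ε hε η hη0
  have hcount' := hcount
  obtain ⟨a, hPa, ha⟩ := cycle (fun n => ε ≤ ‖(T ^ n) ξ‖) hP hQ (fun n => by
    simp only [pow_add, mul_apply_eq_comp, hξQ]) hη0.le (by
      have : η ≤ 1 / (2 * P) := min_le_right _ _
      calc η * P ≤ 1 / (2 * P) * P := by gcongr
        _ = 1 / 2 := by field_simp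
        _ < 1 := by norm_num) hcount'
  refine ⟨(T ^ a) ξ, hpowD a ξ hξD, Q * P, Nat.mul_pos hQ hP, dvd_mul_left _ _, ?_, ?_, ?_⟩
  · rw [← mul_apply_eq_comp, ← pow_add, add_comm, pow_add,
      mul_apply_eq_comp, pow_mul_fix hξQ]
  · refine ⟨(Q - 1) * a, ?_⟩
    rw [map_add]
    have h1 : (T ^ ((Q - 1) * a)) x = x := pow_dvd_fix hxP (dvd_mul_of_dvd_right hPa _)
    have h2 : (T ^ ((Q - 1) * a)) ((T ^ a) ξ) = ξ := by
      rw [← mul_apply_eq_comp, ← pow_add]
      have : (Q - 1) * a + a = Q * a := by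
        obtain ⟨q, rfl⟩ : ∃ q, Q = q + 1 := ⟨Q - 1, by omega⟩
        simp; ring
      rw [this, pow_mul_fix hξQ]
    rw [h1, h2, show x + ξ - v = ξ - (v - x) by abel]
    exact hξw
  · intro _ N
    have h1 : (Nat.count (fun n => ε ≤ ‖(T ^ n) ((T ^ a) ξ)‖) N) =
        Nat.count (fun k => ε ≤ ‖(T ^ (a + k)) ξ‖) N := by
      simp only [Nat.count_eq_card_filter_range]
      congr 1
      ext n
      simp only [Finset.mem_filter, ← mul_apply_eq_comp, ← pow_add, add_comm n a]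
    rw [h1]
    refine (ha N).trans ?_
    have : η ≤ κ / 2 := min_le_left _ _
    have hN : (0 : ℝ) ≤ N := Nat.cast_nonneg N
    nlinarith

end Q81.Crit
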