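import Pool.Agent.Q81.Crit1

/-!
# Frequent hypercyclicity from periodic vectors
-/

namespace Q81.Crit

open Filter Topology Set

variable {X : Type*} [NormedAddCommGroup X] [NormedSpace ℂ X]

/-- state: a periodic vector of `D` with a period -/
structure St (T : X →L[ℂ] X) (D : Submodule ℂ X) where
  x : X
  P : ℕ
  hx : x ∈ D
  hP : 0 < P
  hper : (T ^ P) x = x

open Classical in
/-- bad times -/
def few (T : X →L[ℂ] X) (ζ : X) (ε κ : ℝ) : Prop :=
  ∀ N : ℕ, (Nat.count (fun n => ε ≤ ‖(T ^ n) ζ‖) N : ℝ) ≤ κ * N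

lemma step' (T : X →L[ℂ] X) (D : Submodule ℂ X) (hinv : ∀ w ∈ D, T w ∈ D)
    (H : ∀ w ∈ D, HProp T D w) (s : St T D) {v : X} (hv : v ∈ D) {ε κ : ℝ} (hε : 0 < ε)
    (hκ : 0 < κ) : ∃ s' : St T D, s.P ∣ s'.P ∧ (T ^ s'.P) (s'.x - s.x) = s'.x - s.x ∧
      (∃ m, ‖(T ^ m) s'.x - v‖ < ε) ∧ few T (s'.x - s.x) ε κ := by
  obtain ⟨ζ, hζD, Q, hQ, hPQ, hζQ, ⟨m, hm⟩, hc⟩ := step T D hinv H s.hx hv s.hP s.hper hε hκ
  refine ⟨⟨s.x + ζ, Q, D.add_mem s.hx hζD, hQ, ?_⟩, hPQ, ?_, ⟨m, hm⟩, ?_⟩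
  · rw [map_add, hζQ, pow_dvd_fix s.hper hPQ]
  · show (T ^ Q) (s.x + ζ - s.x) = s.x + ζ - s.x
    rw [add_sub_cancel_left, hζQ]
  · intro N
    simp only [add_sub_cancel_left]
    exact hc N

/-- Frequent hypercyclicity. -/
theorem fhc [CompleteSpace X] [TopologicalSpace.SeparableSpace X] (T : X →L[ℂ] X)
    (D : Submodule ℂ X) (hD : Dense (D : Set X)) (hinv : ∀ w ∈ D, T w ∈ D)
    (H : ∀ w ∈ D, HProp T D w) :
    ∃ x : X, ∀ U : Set X, IsOpen U → U.Nonempty →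
        ∃ δ : ℝ, 0 < δ ∧ ∃ N₀ : ℕ, ∀ N : ℕ, N₀ ≤ N →
          δ * (N : ℝ) ≤ (Nat.card {n : ℕ // n < N ∧ (T ^ n) x ∈ U} : ℝ) := by
  classical
  -- a dense sequence in `D`
  have : Nonempty D := ⟨0⟩
  have : SecondCountableTopology X := UniformSpace.secondCountable_of_separable X
  obtain ⟨u, hu⟩ := TopologicalSpace.exists_dense_seq D
  have hudense : ∀ U : Set X, IsOpen U → U.Nonempty → ∃ i, (u i : X) ∈ U := by
    intro U hU hUne
    obtain ⟨w, hwU, hwD⟩ := hD.inter_open_nonempty U hU hUne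
    obtain ⟨y, hy1, hy2⟩ := hu.inter_open_nonempty ((fun y : D => (y : X)) ⁻¹' U)
      (hU.preimage continuous_subtype_val) ⟨⟨w, hwD⟩, hwU⟩
    obtain ⟨i, rfl⟩ := hy2
    exact ⟨i, hy1⟩
  set v : ℕ → X := fun k => (u (Nat.unpair k).1 : X) with hv
  have hvD : ∀ k, v k ∈ D := fun k => (u (Nat.unpair k).1).2
  -- the recursion
  have hstep : ∀ (k : ℕ) (s : St T D), ∃ s' : St T D, s.P ∣ s'.P ∧
      (T ^ s'.P) (s'.x - s.x) = s'.x - s.x ∧ (∃ m, ‖(T ^ m) s'.x - v k‖ < (1 / 2 : ℝ) ^ k) ∧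
      few T (s'.x - s.x) ((1 / 2 : ℝ) ^ k) ((1 / 2) ^ (k + 3) / s.P) := by
    intro k s
    have := s.hP
    exact step' T D hinv H s (hvD k) (by positivity) (by positivity)
  choose nx hn1 hn2 hn3 hn4 using hstep
  let s : ℕ → St T D := fun k => Nat.rec ⟨0, 1, D.zero_mem, one_pos, by simp⟩ (fun k s => nx k s) k
  have hs0 : (s 0).x = 0 := rfl
  have hss : ∀ k, s (k + 1) = nx k (s k) := fun k => rfl
  set ζ : ℕ → X := fun k => (s (k + 1)).x - (s k).x with hζ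
  have hPdvd : ∀ k, (s k).P ∣ (s (k + 1)).P := fun k => hn1 k (s k)
  have hPdvd' : ∀ j k, k ≤ j → (s k).P ∣ (s j).P := by
    intro j k hkj
    induction j, hkj using Nat.le_induction with
    | base => exact dvd_rfl
    | succ j _ ih => exact ih.trans (hPdvd j)
  have hfew : ∀ k, few T (ζ k) ((1 / 2 : ℝ) ^ k) ((1 / 2) ^ (k + 3) / (s k).P) :=
    fun k => hn4 k (s k)
  have hhit : ∀ k, ∃ m, ‖(T ^ m) (s (k + 1)).x - v k‖ < (1 / 2 : ℝ) ^ k := fun k => hn3 k (s k)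
  -- smallness at time `0`
  have hP1 : ∀ k, (1 : ℝ) ≤ (s k).P := fun k => by exact_mod_cast (s k).hP
  have hgood : ∀ j n : ℕ, ((n : ℝ) + 1) * (1 / 2) ^ (j + 3) < 1 → ‖(T ^ n) (ζ j)‖ < (1 / 2 : ℝ) ^ j := by
    intro j n hn
    by_contra hcon
    push Not at hcon
    have h1 := hfew j (n + 1)
    have h2 : 1 ≤ Nat.count (fun n => (1 / 2 : ℝ) ^ j ≤ ‖(T ^ n) (ζ j)‖) (n + 1) := by
      rw [Nat.count_succ, if_pos hcon]
      omega
    have h3 : (1 : ℝ) ≤ Nat.count (fun n => (1 / 2 : ℝ) ^ j ≤ ‖(T ^ n) (ζ j)‖) (n + 1) := by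
      exact_mod_cast h2
    have h4 : (1 / 2 : ℝ) ^ (j + 3) / (s j).P ≤ (1 / 2 : ℝ) ^ (j + 3) :=
      div_le_self (by positivity) (hP1 j)
    rw [Nat.cast_succ] at h1
    have h5 : (1 / 2 : ℝ) ^ (j + 3) / (s j).P * ((n : ℝ) + 1) ≤ (1 / 2 : ℝ) ^ (j + 3) * ((n : ℝ) + 1) :=
      mul_le_mul_of_nonneg_right h4 (by positivity)
    linarith
  have hζ0 : ∀ j, ‖ζ j‖ ≤ (1 / 2 : ℝ) ^ j := by
    intro j
    have := hgood j 0 (by
      have : (1 / 2 : ℝ) ^ (j + 3) ≤ (1 / 2) ^ 3 :=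
        pow_le_pow_of_le_one (by norm_num) (by norm_num) (by omega)
      norm_num at this ⊢
      linarith)
    simpa using this.le
  have hgeo : Summable fun j : ℕ => (1 / 2 : ℝ) ^ j := summable_geometric_two
  have hζs : Summable ζ := Summable.of_norm_bounded hgeo hζ0
  refine ⟨∑' j, ζ j, fun U hU hUne => ?_⟩
  -- choose `k`
  obtain ⟨i, hi⟩ := hudense U hU hUne
  obtain ⟨ρ, hρ, hball⟩ := Metric.isOpen_iff.1 hU _ hi
  obtain ⟨k0, hk0⟩ := exists_pow_lt_of_lt_one (show 0 < ρ / 2 by linarith)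
    (show (1 / 2 : ℝ) < 1 by norm_num)
  set k := Nat.pair i k0 with hk
  have hkk0 : k0 ≤ k := Nat.right_le_pair _ _
  have hvk : v k = u i := by simp only [hv, hk, Nat.unpair_pair]
  have hkρ : 2 * (1 / 2 : ℝ) ^ k < ρ := by
    have : (1 / 2 : ℝ) ^ k ≤ (1 / 2) ^ k0 := pow_le_pow_of_le_one (by norm_num) (by norm_num) hkk0
    linarith
  obtain ⟨m, hm⟩ := hhit k
  set P := (s (k + 1)).P with hPdef
  have hPpos : 0 < P := (s (k + 1)).hP
  have hPpos' : (0 : ℝ) < P := by exact_mod_cast hPpos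
  -- partial sums
  have hpart : ∀ j, ∑ l ∈ Finset.range j, ζ l = (s j).x := by
    intro j
    induction j with
    | zero => simp [hs0]
    | succ j ih => rw [Finset.sum_range_succ, ih]; simp [hζ]
  -- good times
  have hin : ∀ n, (∃ t, n = m + P * t) → (∀ j, k < j → ‖(T ^ n) (ζ j)‖ < (1 / 2 : ℝ) ^ j) →
      (T ^ n) (∑' j, ζ j) ∈ U := by
    rintro n ⟨t, rfl⟩ hj
    apply hball
    rw [Metric.mem_ball, dist_eq_norm, ← hvk]
    have h1 : (∑' j, ζ j) = (s (k + 1)).x + ∑' j, ζ (j + (k + 1)) := by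
      rw [← hpart (k + 1)]
      exact (hζs.sum_add_tsum_nat_add (k + 1)).symm
    have hs2 : Summable fun j => ζ (j + (k + 1)) := (summable_nat_add_iff (f := ζ) (k + 1)).2 hζs
    have h2 : (T ^ (m + P * t)) (s (k + 1)).x = (T ^ m) (s (k + 1)).x := by
      rw [pow_add, mul_apply_eq_comp, pow_mul_fix (s (k + 1)).hper]
    rw [h1, map_add, h2, ContinuousLinearMap.map_tsum _ hs2]
    have h3 : ‖∑' j, (T ^ (m + P * t)) (ζ (j + (k + 1)))‖ ≤ (1 / 2 : ℝ) ^ k := by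
      have hsum : HasSum (fun j : ℕ => (1 / 2 : ℝ) ^ (k + 1) * (1 / 2) ^ j)
          ((1 / 2 : ℝ) ^ (k + 1) * 2) := hasSum_geometric_two.mul_left _
      have h4 : (1 / 2 : ℝ) ^ (k + 1) * 2 = (1 / 2) ^ k := by rw [pow_succ]; ring
      rw [h4] at hsum
      refine tsum_of_norm_bounded hsum fun j => ?_
      have := hj (j + (k + 1)) (by omega)
      rw [← pow_add, add_comm (k + 1) j]
      exact this.le
    calc ‖(T ^ m) (s (k + 1)).x + ∑' j, (T ^ (m + P * t)) (ζ (j + (k + 1))) - v k‖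
        = ‖((T ^ m) (s (k + 1)).x - v k) + ∑' j, (T ^ (m + P * t)) (ζ (j + (k + 1)))‖ := by
          congr 1; abel
      _ ≤ ‖(T ^ m) (s (k + 1)).x - v k‖ + ‖∑' j, (T ^ (m + P * t)) (ζ (j + (k + 1)))‖ :=
          norm_add_le _ _
      _ < ρ := by linarith
  -- counting
  refine ⟨1 / (2 * P), by positivity, 4 * (m + P), fun N hN => ?_⟩
  have hfin : Set.Finite {n : ℕ | n < N ∧ (T ^ n) (∑' j, ζ j) ∈ U} :=
    (Set.finite_lt_nat N).subset fun n hn => hn.1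
  set bad : ℕ → Finset ℕ := fun j =>
    (Finset.range N).filter fun n => (1 / 2 : ℝ) ^ j ≤ ‖(T ^ n) (ζ j)‖ with hbad
  set BAD : Finset ℕ := (Finset.Ico (k + 1) (N + k + 1)).biUnion bad with hBAD
  set A : Finset ℕ := (Finset.range ((N - m) / P)).image fun t => m + P * t with hA
  have hAcard : A.card = (N - m) / P := by
    rw [hA, Finset.card_image_of_injective _ (fun a b h => by
      have : P * a = P * b := by simpa using h
      exact Nat.eq_of_mul_eq_mul_left hPpos this), Finset.card_range]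
  have hsub : ((A \ BAD : Finset ℕ) : Set ℕ) ⊆ {n : ℕ | n < N ∧ (T ^ n) (∑' j, ζ j) ∈ U} := by
    intro n hn
    rw [Finset.coe_sdiff] at hn
    obtain ⟨hnA, hnB⟩ := hn
    obtain ⟨t, ht, rfl⟩ := Finset.mem_image.1 hnA
    have ht' := Finset.mem_range.1 ht
    have hlt : m + P * t < N := by
      have h1 : P * (t + 1) ≤ P * ((N - m) / P) := Nat.mul_le_mul_left _ ht'
      have h2 : P * ((N - m) / P) ≤ N - m := Nat.mul_div_le _ _
      rw [mul_add, mul_one] at h1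
      omega
    refine ⟨hlt, hin _ ⟨t, rfl⟩ fun j hj => ?_⟩
    by_cases hjN : j < N + k + 1
    · by_contra hcon
      push Not at hcon
      apply hnB
      rw [Finset.mem_coe, hBAD, Finset.mem_biUnion]
      exact ⟨j, Finset.mem_Ico.2 ⟨hj, hjN⟩, Finset.mem_filter.2 ⟨Finset.mem_range.2 hlt, hcon⟩⟩
    · push Not at hjN
      apply hgood
      have h1 : ((m + P * t : ℕ) : ℝ) + 1 ≤ N := by exact_mod_cast hlt
      have h2 : (1 / 2 : ℝ) ^ (j + 3) ≤ (1 / 2) ^ N :=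
        pow_le_pow_of_le_one (by norm_num) (by norm_num) (by omega)
      have h3 : (N : ℝ) < 2 ^ N := by exact_mod_cast Nat.lt_two_pow_self
      have h4 : (2 : ℝ) ^ N * (1 / 2) ^ N = 1 := by rw [← mul_pow]; norm_num
      have h5 : (0 : ℝ) < (1 / 2) ^ N := by positivity
      have h6 : (0 : ℝ) ≤ ((m + P * t : ℕ) : ℝ) + 1 := by positivity
      calc (((m + P * t : ℕ) : ℝ) + 1) * (1 / 2) ^ (j + 3) ≤ N * (1 / 2) ^ N := by gcongr
        _ < 2 ^ N * (1 / 2) ^ N := mul_lt_mul_of_pos_right h3 h5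
        _ = 1 := h4
  have hcard : (A \ BAD).card ≤ Nat.card {n : ℕ // n < N ∧ (T ^ n) (∑' j, ζ j) ∈ U} := by
    have h1 := Set.ncard_le_ncard hsub hfin
    rw [Set.ncard_coe_finset] at h1
    exact h1
  have hBADcard : (BAD.card : ℝ) ≤ (1 / 2) ^ (k + 3) / P * N := by
    have h1 : (BAD.card : ℝ) ≤ ∑ j ∈ Finset.Ico (k + 1) (N + k + 1), ((bad j).card : ℝ) := by
      exact_mod_cast Finset.card_biUnion_le
    have h2 : ∀ j ∈ Finset.Ico (k + 1) (N + k + 1), ((bad j).card : ℝ) ≤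
        (1 / 2) ^ (j + 3) * (N / P) := by
      intro j hj
      have h3 := hfew j N
      rw [Nat.count_eq_card_filter_range] at h3
      refine le_trans (by exact_mod_cast h3) ?_
      have h4 : (P : ℝ) ≤ (s j).P := by
        exact_mod_cast Nat.le_of_dvd (s j).hP (hPdvd' j (k + 1) (Finset.mem_Ico.1 hj).1)
      have h5 : (1 / 2 : ℝ) ^ (j + 3) / (s j).P ≤ (1 / 2 : ℝ) ^ (j + 3) / P :=
        div_le_div_of_nonneg_left (by positivity) hPpos' h4
      calc (1 / 2 : ℝ) ^ (j + 3) / (s j).P * N ≤ (1 / 2 : ℝ) ^ (j + 3) / P * N := by gcongr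
        _ = _ := by ring
    have h3 : ∀ J, ∑ j ∈ Finset.Ico (k + 1) (J + k + 1), (1 / 2 : ℝ) ^ (j + 3) =
        (1 / 2) ^ (k + 3) - (1 / 2) ^ (J + k + 3) := by
      intro J
      induction J with
      | zero => simp
      | succ J ih =>
        rw [show J + 1 + k + 1 = (J + k + 1) + 1 by ring, Finset.sum_Ico_succ_top (by omega), ih]
        rw [show J + 1 + k + 3 = (J + k + 3) + 1 by ring,
          show J + k + 1 + 3 = (J + k + 3) + 1 by ring, pow_succ]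
        ring
    refine h1.trans ((Finset.sum_le_sum h2).trans ?_)
    rw [← Finset.sum_mul, h3]
    have h4 : (0 : ℝ) < (1 / 2) ^ (N + k + 3) := by positivity
    have h5 : (0 : ℝ) ≤ N / P := by positivity
    calc ((1 / 2 : ℝ) ^ (k + 3) - (1 / 2) ^ (N + k + 3)) * (N / P) ≤
        (1 / 2 : ℝ) ^ (k + 3) * (N / P) := by
          apply mul_le_mul_of_nonneg_right _ h5
          linarith
      _ = _ := by ring
  have hle : A.card ≤ (A \ BAD).card + BAD.card := by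
    have := Finset.card_le_card_sdiff_add_card (s := A) (t := BAD)
    omega
  have hdiv : ((N : ℝ) - m) / P - 1 ≤ ((N - m) / P : ℕ) := by
    have h1 : m ≤ N := by omega
    have h2 := Nat.lt_floor_add_one (((N - m : ℕ) : ℝ) / P)
    rw [Nat.floor_div_natCast, Nat.floor_natCast] at h2
    push_cast [h1] at h2
    linarith
  have h1 : (A.card : ℝ) ≤ (A \ BAD).card + BAD.card := by exact_mod_cast hle
  rw [hAcard] at h1
  have h2 : ((A \ BAD).card : ℝ) ≤ Nat.card {n : ℕ // n < N ∧ (T ^ n) (∑' j, ζ j) ∈ U} := by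
    exact_mod_cast hcard
  have h3 : (1 / 2 : ℝ) ^ (k + 3) ≤ 1 / 8 := by
    have : (1 / 2 : ℝ) ^ (k + 3) ≤ (1 / 2) ^ 3 :=
      pow_le_pow_of_le_one (by norm_num) (by norm_num) (by omega)
    norm_num at this ⊢
    linarith
  have h4 : (1 / 2 : ℝ) ^ (k + 3) / P * N ≤ 1 / 8 / P * N := by gcongr
  have h5 : (4 * (m + P) : ℝ) ≤ N := by exact_mod_cast hN
  have h6 : 1 / (2 * P) * (N : ℝ) ≤ ((N : ℝ) - m) / P - 1 - 1 / 8 / P * N := by
    rw [← sub_nonneg]
    have : ((N : ℝ) - m) / P - 1 - 1 / 8 / P * N - 1 / (2 * P) * N =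
        (3 / 8 * N - m - P) / P := by
      field_simp
      ring
    rw [this]
    apply div_nonneg _ hPpos'.le
    have : (0 : ℝ) ≤ m := Nat.cast_nonneg m
    linarith
  linarith

end Q81.Crit
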