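import Pool.Agent.Q81.Crit2

/-!
# Operators with many eigenvectors for roots of unity of order `2^k`
-/

namespace Q81.Crit

open Filter Topology Set

variable {X : Type*} [NormedAddCommGroup X] [NormedSpace ℂ X]

lemma count_periodic (p : ℕ → Prop) [DecidablePred p] {Q : ℕ} (hper : ∀ n, p (n + Q) ↔ p n)
    (s : ℕ) : Nat.count p (s * Q) = s * Nat.count p Q := by
  have hshift : ∀ n, Nat.count p (n + Q) = Nat.count p n + Nat.count p Q := by
    intro n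
    rw [add_comm n Q, Nat.count_add, add_comm]
    congr 1
    have : (fun k => p (Q + k)) = p := by
      funext k
      rw [add_comm]
      exact propext (hper k)
    simp only [this]
  induction s with
  | zero => simp
  | succ s ih => rw [add_mul, one_mul, hshift, ih]; ring

lemma per_pred {T : X →L[ℂ] X} {Q : ℕ} {ξ : X} (h : (T ^ Q) ξ = ξ) (ε : ℝ) (n : ℕ) :
    (ε ≤ ‖(T ^ (n + Q)) ξ‖) ↔ (ε ≤ ‖(T ^ n) ξ‖) := by
  rw [pow_add, mul_apply_eq_comp, h]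

lemma HProp_zero (T : X →L[ℂ] X) (D : Submodule ℂ X) : HProp T D 0 := by
  intro ε hε η hη
  refine ⟨0, D.zero_mem, 1, one_pos, by simp, by simpa using hε, ?_⟩
  intro _
  have : Nat.count (fun n => ε ≤ ‖(T ^ n) (0 : X)‖) 1 = 0 := by
    rw [Nat.count_succ, Nat.count_zero, if_neg (by simpa using hε)]
  rw [this]
  simp [hη.le]

lemma HProp_add {T : X →L[ℂ] X} {D : Submodule ℂ X} {w1 w2 : X} (h1 : HProp T D w1)
    (h2 : HProp T D w2) : HProp T D (w1 + w2) := by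
  classical
  intro ε hε η hη
  obtain ⟨ξ1, d1, Q1, q1, p1, n1, c1⟩ := h1 (ε / 2) (by linarith) (η / 2) (by linarith)
  obtain ⟨ξ2, d2, Q2, q2, p2, n2, c2⟩ := h2 (ε / 2) (by linarith) (η / 2) (by linarith)
  have c1' := c1
  have c2' := c2
  refine ⟨ξ1 + ξ2, D.add_mem d1 d2, Q1 * Q2, Nat.mul_pos q1 q2, ?_, ?_, ?_⟩
  · rw [map_add, pow_mul_fix p1, mul_comm, pow_mul_fix p2]
  · calc ‖ξ1 + ξ2 - (w1 + w2)‖ = ‖(ξ1 - w1) + (ξ2 - w2)‖ := by congr 1; abel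
      _ ≤ ‖ξ1 - w1‖ + ‖ξ2 - w2‖ := norm_add_le _ _
      _ < ε := by linarith
  · intro _
    have hle : Nat.count (fun n => ε ≤ ‖(T ^ n) (ξ1 + ξ2)‖) (Q1 * Q2) ≤
        Nat.count (fun n => ε / 2 ≤ ‖(T ^ n) ξ1‖) (Q1 * Q2) +
        Nat.count (fun n => ε / 2 ≤ ‖(T ^ n) ξ2‖) (Q1 * Q2) := by
      simp only [Nat.count_eq_card_filter_range]
      refine le_trans (Finset.card_le_card ?_) (Finset.card_union_le _ _)
      intro n hn
      rw [Finset.mem_filter] at hn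
      rw [Finset.mem_union, Finset.mem_filter, Finset.mem_filter]
      by_contra hcon
      push Not at hcon
      have a1 := hcon.1 hn.1
      have a2 := hcon.2 hn.1
      have a3 : ‖(T ^ n) (ξ1 + ξ2)‖ ≤ ‖(T ^ n) ξ1‖ + ‖(T ^ n) ξ2‖ := by
        rw [map_add]; exact norm_add_le _ _
      linarith [hn.2]
    have e1 : Nat.count (fun n => ε / 2 ≤ ‖(T ^ n) ξ1‖) (Q1 * Q2) =
        Q2 * Nat.count (fun n => ε / 2 ≤ ‖(T ^ n) ξ1‖) Q1 := by
      rw [mul_comm Q1 Q2]; exact count_periodic _ (per_pred p1 _) _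
    have e2 : Nat.count (fun n => ε / 2 ≤ ‖(T ^ n) ξ2‖) (Q1 * Q2) =
        Q1 * Nat.count (fun n => ε / 2 ≤ ‖(T ^ n) ξ2‖) Q2 := count_periodic _ (per_pred p2 _) _
    rw [e1, e2] at hle
    have hle' : (Nat.count (fun n => ε ≤ ‖(T ^ n) (ξ1 + ξ2)‖) (Q1 * Q2) : ℝ) ≤
        Q2 * (Nat.count (fun n => ε / 2 ≤ ‖(T ^ n) ξ1‖) Q1 : ℝ) +
        Q1 * (Nat.count (fun n => ε / 2 ≤ ‖(T ^ n) ξ2‖) Q2 : ℝ) := by exact_mod_cast hle
    refine hle'.trans ?_
    have b1 : (Q2 : ℝ) * (Nat.count (fun n => ε / 2 ≤ ‖(T ^ n) ξ1‖) Q1 : ℝ) ≤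
        Q2 * (η / 2 * Q1) := mul_le_mul_of_nonneg_left c1' (Nat.cast_nonneg _)
    have b2 : (Q1 : ℝ) * (Nat.count (fun n => ε / 2 ≤ ‖(T ^ n) ξ2‖) Q2 : ℝ) ≤
        Q1 * (η / 2 * Q2) := mul_le_mul_of_nonneg_left c2' (Nat.cast_nonneg _)
    rw [Nat.cast_mul]
    linarith

lemma HProp_smul {T : X →L[ℂ] X} {D : Submodule ℂ X} {w : X} (c : ℂ) (h : HProp T D w) :
    HProp T D (c • w) := by
  classical
  by_cases hc : c = 0
  · rw [hc, zero_smul]; exact HProp_zero T D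
  have hc' : 0 < ‖c‖ := norm_pos_iff.2 hc
  intro ε hε η hη
  obtain ⟨ξ, d, Q, q, p, n1, c1⟩ := h (ε / ‖c‖) (by positivity) η hη
  have c1' := c1
  refine ⟨c • ξ, D.smul_mem c d, Q, q, by rw [map_smul, p], ?_, ?_⟩
  · rw [← smul_sub, norm_smul, mul_comm]
    exact (lt_div_iff₀ hc').1 n1
  · intro _
    have : Nat.count (fun n => ε ≤ ‖(T ^ n) (c • ξ)‖) Q =
        Nat.count (fun n => ε / ‖c‖ ≤ ‖(T ^ n) ξ‖) Q := by
      simp only [Nat.count_eq_card_filter_range]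
      congr 1
      ext n
      simp only [Finset.mem_filter, map_smul, norm_smul, div_le_iff₀ hc', mul_comm]
    rw [this]
    exact c1'

/-- mixing for a pair -/
def MProp (T : X →L[ℂ] X) (w1 w2 : X) : Prop :=
  ∀ ε > 0, ∃ N₀ : ℕ, ∀ n ≥ N₀, ∃ y : X, ‖y - w1‖ < ε ∧ ‖(T ^ n) y - w2‖ < ε

lemma MProp_add {T : X →L[ℂ] X} {w1 w2 v1 v2 : X} (h1 : MProp T w1 w2) (h2 : MProp T v1 v2) :
    MProp T (w1 + v1) (w2 + v2) := by
  intro ε hε
  obtain ⟨N1, h1⟩ := h1 (ε / 2) (by linarith)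
  obtain ⟨N2, h2⟩ := h2 (ε / 2) (by linarith)
  refine ⟨max N1 N2, fun n hn => ?_⟩
  obtain ⟨y1, a1, b1⟩ := h1 n (le_trans (le_max_left _ _) hn)
  obtain ⟨y2, a2, b2⟩ := h2 n (le_trans (le_max_right _ _) hn)
  refine ⟨y1 + y2, ?_, ?_⟩
  · calc ‖y1 + y2 - (w1 + v1)‖ = ‖(y1 - w1) + (y2 - v1)‖ := by congr 1; abel
      _ ≤ ‖y1 - w1‖ + ‖y2 - v1‖ := norm_add_le _ _
      _ < ε := by linarith
  · calc ‖(T ^ n) (y1 + y2) - (w2 + v2)‖ = ‖((T ^ n) y1 - w2) + ((T ^ n) y2 - v2)‖ := by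
          rw [map_add]; congr 1; abel
      _ ≤ ‖(T ^ n) y1 - w2‖ + ‖(T ^ n) y2 - v2‖ := norm_add_le _ _
      _ < ε := by linarith

lemma MProp_zero (T : X →L[ℂ] X) : MProp T 0 0 :=
  fun ε hε => ⟨0, fun n _ => ⟨0, by simpa using hε, by simpa using hε⟩⟩

lemma MProp_smul {T : X →L[ℂ] X} {w1 w2 : X} (c : ℂ) (h : MProp T w1 w2) :
    MProp T (c • w1) (c • w2) := by
  by_cases hc : c = 0
  · rw [hc, zero_smul, zero_smul]; exact MProp_zero T
  have hc' : 0 < ‖c‖ := norm_pos_iff.2 hc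
  intro ε hε
  obtain ⟨N, h⟩ := h (ε / ‖c‖) (by positivity)
  refine ⟨N, fun n hn => ?_⟩
  obtain ⟨y, a, b⟩ := h n hn
  refine ⟨c • y, ?_, ?_⟩
  · rw [← smul_sub, norm_smul, mul_comm]; exact (lt_div_iff₀ hc').1 a
  · rw [map_smul, ← smul_sub, norm_smul, mul_comm]; exact (lt_div_iff₀ hc').1 b

/-- the primitive root of unity of order `2^R` -/
noncomputable def zt (R : ℕ) : ℂ := Complex.exp (2 * Real.pi * Complex.I / ((2 ^ R : ℕ) : ℂ))

lemma zt_prim (R : ℕ) : IsPrimitiveRoot (zt R) (2 ^ R) :=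
  Complex.isPrimitiveRoot_exp _ (by positivity)

lemma zt_norm (R : ℕ) : ‖zt R‖ = 1 :=
  (zt_prim R).norm'_eq_one (by positivity)

/-- Parseval -/
lemma parseval {R N per : ℕ} (hN : N ≤ 2 ^ R) (hper : 2 ^ R ∣ per) :
    ∑ n ∈ Finset.range per, ‖∑ m ∈ Finset.range N, (zt R ^ m) ^ n‖ ^ 2 = (per : ℝ) * N := by
  have hz := zt_prim R
  have hconj : starRingEnd ℂ (zt R) * zt R = 1 := by
    rw [← Complex.normSq_eq_conj_mul_self, Complex.normSq_eq_norm_sq, zt_norm]; simp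
  have h1 : ∀ n, ((‖∑ m ∈ Finset.range N, (zt R ^ m) ^ n‖ ^ 2 : ℝ) : ℂ) =
      ∑ m' ∈ Finset.range N, ∑ m ∈ Finset.range N,
        ((starRingEnd ℂ (zt R)) ^ m' * zt R ^ m) ^ n := by
    intro n
    rw [← Complex.normSq_eq_norm_sq, Complex.normSq_eq_conj_mul_self, map_sum,
      Finset.sum_mul_sum]
    refine Finset.sum_congr rfl fun m' _ => Finset.sum_congr rfl fun m _ => ?_
    rw [mul_pow, map_pow, map_pow]
  have h2 : ∀ m' ∈ Finset.range N, ∀ m ∈ Finset.range N,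
      ∑ n ∈ Finset.range per, ((starRingEnd ℂ (zt R)) ^ m' * zt R ^ m) ^ n =
        if m = m' then (per : ℂ) else 0 := by
    intro m' hm' m hm
    split_ifs with h
    · subst h
      have : (starRingEnd ℂ (zt R)) ^ m * zt R ^ m = 1 := by rw [← mul_pow, hconj, one_pow]
      simp [this]
    · have hne : (starRingEnd ℂ (zt R)) ^ m' * zt R ^ m ≠ 1 := by
        intro h3
        have h4 : zt R ^ m = zt R ^ m' := by
          have h5 : (zt R) ^ m' * ((starRingEnd ℂ (zt R)) ^ m' * zt R ^ m) = zt R ^ m := by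
            rw [← mul_assoc, ← mul_pow, mul_comm (zt R), hconj, one_pow, one_mul]
          rw [h3, mul_one] at h5
          exact h5.symm
        exact h (hz.pow_inj (lt_of_lt_of_le (Finset.mem_range.1 hm) hN)
          (lt_of_lt_of_le (Finset.mem_range.1 hm') hN) h4)
      rw [geom_sum_eq hne]
      have : ((starRingEnd ℂ (zt R)) ^ m' * zt R ^ m) ^ per = 1 := by
        obtain ⟨q, rfl⟩ := hper
        have h6 : zt R ^ (2 ^ R) = 1 := hz.pow_eq_one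
        have h7 : zt R ^ (2 ^ R * q) = 1 := by rw [pow_mul, h6, one_pow]
        have h8 : (starRingEnd ℂ (zt R)) ^ (2 ^ R * q) = 1 := by
          rw [← map_pow, h7, map_one]
        rw [mul_pow, pow_right_comm, h8, pow_right_comm, h7, one_pow, one_pow, mul_one]
      rw [this, sub_self, zero_div]
  have h3 : ((∑ n ∈ Finset.range per, ‖∑ m ∈ Finset.range N, (zt R ^ m) ^ n‖ ^ 2 : ℝ) : ℂ) =
      ((per : ℝ) * N : ℝ) := by
    rw [Complex.ofReal_sum]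
    simp only [h1]
    rw [Finset.sum_comm]
    have : ∀ m' ∈ Finset.range N, ∑ n ∈ Finset.range per, ∑ m ∈ Finset.range N,
        ((starRingEnd ℂ (zt R)) ^ m' * zt R ^ m) ^ n = (per : ℂ) := by
      intro m' hm'
      rw [Finset.sum_comm, Finset.sum_congr rfl (h2 m' hm')]
      rw [Finset.sum_ite_eq' (Finset.range N) m' (fun _ => (per : ℂ)), if_pos hm']
    rw [Finset.sum_congr rfl this]
    simp [mul_comm]
  exact_mod_cast h3

/-- the geometric sum bound -/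
lemma geom_small {R N n : ℕ} (h1 : 2 ^ R ≤ 4 * n) (h2 : 2 * n ≤ 2 ^ R) :
    ‖∑ m ∈ Finset.range N, (zt R ^ m) ^ n‖ ≤ 2 := by
  have hR : (0 : ℝ) < 2 ^ R := by positivity
  have hzn : zt R ^ n = Complex.exp (((2 * Real.pi * n / 2 ^ R : ℝ) : ℂ) * Complex.I) := by
    rw [zt, ← Complex.exp_nat_mul]
    congr 1
    push_cast
    ring
  have hre : (zt R ^ n).re ≤ 0 := by
    rw [hzn, Complex.exp_ofReal_mul_I_re]
    have e1 : (2 ^ R : ℝ) ≤ 4 * n := by exact_mod_cast h1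
    have e2 : (2 * n : ℝ) ≤ 2 ^ R := by exact_mod_cast h2
    have hpi := Real.pi_pos
    apply Real.cos_nonpos_of_pi_div_two_le_of_le
    · rw [le_div_iff₀ hR]; nlinarith
    · rw [div_le_iff₀ hR]; nlinarith
  have hne1 : 1 ≤ ‖zt R ^ n - 1‖ := by
    have := Complex.abs_re_le_norm (zt R ^ n - 1)
    rw [Complex.sub_re, Complex.one_re, abs_of_nonpos (by linarith)] at this
    linarith
  have hne : zt R ^ n ≠ 1 := by
    intro h; rw [h, sub_self, norm_zero] at hne1; linarith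
  have e : ∑ m ∈ Finset.range N, (zt R ^ m) ^ n = ((zt R ^ n) ^ N - 1) / (zt R ^ n - 1) := by
    rw [← geom_sum_eq hne]
    exact Finset.sum_congr rfl fun m _ => by rw [← pow_mul, ← pow_mul, mul_comm]
  rw [e, norm_div]
  have h3 : ‖(zt R ^ n) ^ N - 1‖ ≤ 2 := by
    refine (norm_sub_le _ _).trans ?_
    rw [norm_pow, norm_pow, zt_norm]
    simp
    norm_num
  calc ‖(zt R ^ n) ^ N - 1‖ / ‖zt R ^ n - 1‖ ≤ 2 / 1 := by gcongr
    _ = 2 := by norm_num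

end Q81.Crit
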