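import Pool.Agent.Q81.Crit3

/-!
# Consequences of the existence of many eigenvectors
-/

namespace Q81.Crit

open Filter Topology Set

variable {X : Type*} [NormedAddCommGroup X] [NormedSpace ℂ X]

/-- many eigenvectors -/
structure Atoms (T : X →L[ℂ] X) (δ : ℕ → X) (z : ℕ → ℂ) : Prop where
  eig : ∀ i, T (δ i) = z i • δ i
  root : ∀ i, ∃ K : ℕ, z i ^ (2 ^ K) = 1
  near : ∀ i, ∀ ε > 0, ∃ Q₀ : ℕ, ∀ Q ≥ Q₀, ∀ L : ℕ, ∀ m < 2 ^ L, ∃ l,
    z l = z i * zt (Q + L) ^ m ∧ ‖δ l - δ i‖ ≤ ε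
  dense : Dense (Submodule.span ℂ (range δ) : Set X)

variable {T : X →L[ℂ] X} {δ : ℕ → X} {z : ℕ → ℂ}

namespace Atoms

lemma eig_pow (A : Atoms T δ z) (i n : ℕ) : (T ^ n) (δ i) = z i ^ n • δ i := by
  induction n with
  | zero => simp
  | succ n ih =>
    rw [pow_succ', mul_apply_eq_comp, ih, map_smul, A.eig, smul_smul, ← pow_succ]

lemma norm_z (A : Atoms T δ z) (i : ℕ) : ‖z i‖ = 1 := by
  obtain ⟨K, hK⟩ := A.root i
  exact Complex.norm_eq_one_of_pow_eq_one hK (by positivity)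

/-- averages -/
lemma average (i : ℕ) {ε : ℝ} (l : ℕ → ℕ) {N : ℕ} (hN : 0 < N) (c : ℕ → ℂ)
    (hc : ∀ m < N, ‖c m‖ ≤ 1) (hl : ∀ m < N, ‖δ (l m) - δ i‖ ≤ ε) :
    ‖(N : ℂ)⁻¹ • (∑ m ∈ Finset.range N, c m • δ (l m)) -
      ((N : ℂ)⁻¹ * ∑ m ∈ Finset.range N, c m) • δ i‖ ≤ ε := by
  have hN' : (0 : ℝ) < N := by exact_mod_cast hN
  rw [mul_smul, ← smul_sub, Finset.sum_smul, ← Finset.sum_sub_distrib, norm_smul, norm_inv,
    Complex.norm_natCast, inv_mul_le_iff₀ hN']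
  refine (norm_sum_le _ _).trans ?_
  have : ∀ m ∈ Finset.range N, ‖c m • δ (l m) - c m • δ i‖ ≤ ε := by
    intro m hm
    have hm' := Finset.mem_range.1 hm
    rw [← smul_sub, norm_smul]
    calc ‖c m‖ * ‖δ (l m) - δ i‖ ≤ 1 * ‖δ (l m) - δ i‖ := by
          gcongr
          exact hc m hm'
      _ ≤ ε := by rw [one_mul]; exact hl m hm'
  refine (Finset.sum_le_sum this).trans ?_
  rw [Finset.sum_const, Finset.card_range, nsmul_eq_mul]

lemma invariant (A : Atoms T δ z) : ∀ w ∈ Submodule.span ℂ (range δ),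
    T w ∈ Submodule.span ℂ (range δ) := by
  intro w hw
  induction hw using Submodule.span_induction with
  | mem x hx =>
    obtain ⟨i, rfl⟩ := hx
    rw [A.eig]
    exact Submodule.smul_mem _ _ (Submodule.subset_span ⟨i, rfl⟩)
  | zero => simp
  | add x y _ _ h1 h2 => rw [map_add]; exact Submodule.add_mem _ h1 h2
  | smul a x _ h => rw [map_smul]; exact Submodule.smul_mem _ _ h

lemma hprop_atom (A : Atoms T δ z) (i : ℕ) :
    HProp T (Submodule.span ℂ (range δ)) (δ i) := by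
  classical
  intro ε hε η hη
  set C : ℝ := ‖δ i‖ + 1 with hC
  have hC0 : 0 < C := by have := norm_nonneg (δ i); linarith
  obtain ⟨L, hL⟩ := pow_unbounded_of_one_lt ((2 * C / ε) ^ 2 / η) (show (1 : ℝ) < 2 by norm_num)
  obtain ⟨Q₀, hQ₀⟩ := A.near i (ε / 2) (by linarith)
  have hQ := hQ₀ Q₀ le_rfl L
  have hchoose : ∀ m : ℕ, ∃ l, m < 2 ^ L → z l = z i * zt (Q₀ + L) ^ m ∧ ‖δ l - δ i‖ ≤ ε / 2 := by
    intro m
    by_cases hm : m < 2 ^ L
    · obtain ⟨l, hl⟩ := hQ m hm; exact ⟨l, fun _ => hl⟩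
    · exact ⟨0, fun h => absurd h hm⟩
  choose l hl using hchoose
  obtain ⟨K, hK⟩ := A.root i
  set N : ℕ := 2 ^ L with hNdef
  have hN : 0 < N := by positivity
  have hN' : (0 : ℝ) < N := by exact_mod_cast hN
  set R := Q₀ + L with hR
  set per : ℕ := 2 ^ (max K R) with hper
  have hd1 : 2 ^ R ∣ per := pow_dvd_pow 2 (le_max_right _ _)
  have hd2 : 2 ^ K ∣ per := pow_dvd_pow 2 (le_max_left _ _)
  have hzper : ∀ m < N, z (l m) ^ per = 1 := by
    intro m hm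
    rw [(hl m hm).1]
    obtain ⟨a, ha⟩ := hd1
    obtain ⟨b, hb⟩ := hd2
    have h1 : z i ^ per = 1 := by rw [hb, pow_mul, hK, one_pow]
    have h2 : zt R ^ per = 1 := by rw [ha, pow_mul, (zt_prim R).pow_eq_one, one_pow]
    rw [mul_pow, h1, one_mul, pow_right_comm, h2, one_pow]
  refine ⟨(N : ℂ)⁻¹ • ∑ m ∈ Finset.range N, δ (l m), ?_, per, by positivity, ?_, ?_, ?_⟩
  · exact Submodule.smul_mem _ _ (Submodule.sum_mem _ fun m _ => Submodule.subset_span ⟨l m, rfl⟩)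
  · rw [map_smul, map_sum]
    congr 1
    refine Finset.sum_congr rfl fun m hm => ?_
    rw [A.eig_pow, hzper m (Finset.mem_range.1 hm), one_smul]
  · have h1 := average (δ := δ) i l hN (fun _ => 1) (fun m _ => by simp)
      (fun m hm => (hl m hm).2)
    have h2 : ((N : ℂ)⁻¹ * ∑ m ∈ Finset.range N, (1 : ℂ)) = 1 := by
      rw [Finset.sum_const, Finset.card_range, nsmul_eq_mul, mul_one,
        inv_mul_cancel₀ (by exact_mod_cast hN.ne')]
    rw [h2, one_smul] at h1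
    simp only [one_smul] at h1
    linarith
  · intro _
    -- the vector at time `n`
    have hTn : ∀ n, (T ^ n) ((N : ℂ)⁻¹ • ∑ m ∈ Finset.range N, δ (l m)) =
        (N : ℂ)⁻¹ • ∑ m ∈ Finset.range N, (z (l m) ^ n) • δ (l m) := by
      intro n
      rw [map_smul, map_sum]
      congr 1
      exact Finset.sum_congr rfl fun m _ => A.eig_pow _ _
    have hbound : ∀ n, ‖(T ^ n) ((N : ℂ)⁻¹ • ∑ m ∈ Finset.range N, δ (l m))‖ ≤
        C * (‖∑ m ∈ Finset.range N, (zt R ^ m) ^ n‖ / N) + ε / 2 := by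
      intro n
      rw [hTn]
      have h1 := average (δ := δ) i l hN (fun m => z (l m) ^ n)
        (fun m _ => by rw [norm_pow, A.norm_z, one_pow]) (fun m hm => (hl m hm).2)
      have h2 : ∑ m ∈ Finset.range N, z (l m) ^ n =
          z i ^ n * ∑ m ∈ Finset.range N, (zt R ^ m) ^ n := by
        rw [Finset.mul_sum]
        refine Finset.sum_congr rfl fun m hm => ?_
        rw [(hl m (Finset.mem_range.1 hm)).1, mul_pow]
      have h3 : ‖((N : ℂ)⁻¹ * ∑ m ∈ Finset.range N, z (l m) ^ n) • δ i‖ ≤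
          C * (‖∑ m ∈ Finset.range N, (zt R ^ m) ^ n‖ / N) := by
        rw [h2, norm_smul, norm_mul, norm_mul, norm_pow, A.norm_z, one_pow, one_mul, norm_inv,
          Complex.norm_natCast, mul_comm, div_eq_inv_mul]
        have : 0 ≤ (N : ℝ)⁻¹ * ‖∑ m ∈ Finset.range N, (zt R ^ m) ^ n‖ := by positivity
        nlinarith
      have h4 := norm_sub_norm_le ((N : ℂ)⁻¹ • ∑ m ∈ Finset.range N, (z (l m) ^ n) • δ (l m))
        (((N : ℂ)⁻¹ * ∑ m ∈ Finset.range N, z (l m) ^ n) • δ i)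
      linarith
    rw [Nat.count_eq_card_filter_range]
    set F := (Finset.range per).filter
      (fun n => ε ≤ ‖(T ^ n) ((N : ℂ)⁻¹ • ∑ m ∈ Finset.range N, δ (l m))‖) with hF
    have hlow : ∀ n ∈ F, (ε * N / (2 * C)) ^ 2 ≤ ‖∑ m ∈ Finset.range N, (zt R ^ m) ^ n‖ ^ 2 := by
      intro n hn
      have h1 := (Finset.mem_filter.1 hn).2
      have h2 := hbound n
      have h3 : ε / 2 ≤ C * (‖∑ m ∈ Finset.range N, (zt R ^ m) ^ n‖ / N) := by linarith
      refine pow_le_pow_left₀ (by positivity) ?_ 2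
      rw [div_le_iff₀ (by positivity)]
      rw [mul_div_assoc', le_div_iff₀ hN'] at h3
      linarith
    have hsum : (F.card : ℝ) * (ε * N / (2 * C)) ^ 2 ≤ per * N := by
      rw [← parseval (R := R) (N := N) (per := per) (by
        rw [hNdef, hR]; exact Nat.pow_le_pow_right (by norm_num) (by omega)) hd1]
      calc (F.card : ℝ) * (ε * N / (2 * C)) ^ 2 = ∑ n ∈ F, (ε * N / (2 * C)) ^ 2 := by
            rw [Finset.sum_const, nsmul_eq_mul]
        _ ≤ ∑ n ∈ F, ‖∑ m ∈ Finset.range N, (zt R ^ m) ^ n‖ ^ 2 := Finset.sum_le_sum hlow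
        _ ≤ ∑ n ∈ Finset.range per, ‖∑ m ∈ Finset.range N, (zt R ^ m) ^ n‖ ^ 2 :=
            Finset.sum_le_sum_of_subset_of_nonneg (Finset.filter_subset _ _)
              fun _ _ _ => sq_nonneg _
    have hNL : (2 * C / ε) ^ 2 / η < N := by
      rw [hNdef]; push_cast; exact hL
    rw [div_lt_iff₀ hη] at hNL
    have hsq : (ε * N / (2 * C)) ^ 2 = (N : ℝ) ^ 2 / (2 * C / ε) ^ 2 := by
      have hε' : ε ≠ 0 := hε.ne'
      field_simp
    rw [hsq, mul_div_assoc', div_le_iff₀ (by positivity)] at hsum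
    have h1 : (F.card : ℝ) * (N : ℝ) ^ 2 ≤ per * N * (N * η) := by
      refine hsum.trans ?_
      exact mul_le_mul_of_nonneg_left hNL.le (by positivity)
    have h2 : (F.card : ℝ) * (N : ℝ) ^ 2 ≤ (η * per) * (N : ℝ) ^ 2 := by nlinarith
    exact le_of_mul_le_mul_right h2 (by positivity)

lemma hprop (A : Atoms T δ z) : ∀ w ∈ Submodule.span ℂ (range δ),
    HProp T (Submodule.span ℂ (range δ)) w := by
  intro w hw
  induction hw using Submodule.span_induction with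
  | mem x hx => obtain ⟨i, rfl⟩ := hx; exact A.hprop_atom i
  | zero => exact HProp_zero _ _
  | add x y _ _ h1 h2 => exact HProp_add h1 h2
  | smul a x _ h => exact HProp_smul a h

/-- common data for mixing -/
lemma mix_data (A : Atoms T δ z) (i : ℕ) {ε : ℝ} (hε : 0 < ε) :
    ∃ N₀ : ℕ, ∀ n ≥ N₀, ∃ (N R : ℕ) (l : ℕ → ℕ), 0 < N ∧ (∀ m < N, z (l m) = z i * zt R ^ m) ∧
      (∀ m < N, ‖δ (l m) - δ i‖ ≤ ε / 4) ∧
      ‖∑ m ∈ Finset.range N, (zt R ^ m) ^ n‖ / N * ‖δ i‖ ≤ ε / 4 := by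
  obtain ⟨Q₀, hQ₀⟩ := A.near i (ε / 4) (by linarith)
  obtain ⟨L, hL⟩ := pow_unbounded_of_one_lt (8 * ‖δ i‖ / ε) (show (1 : ℝ) < 2 by norm_num)
  refine ⟨2 ^ (Q₀ + L), fun n hn => ?_⟩
  have hn0 : n ≠ 0 := by
    have : 0 < 2 ^ (Q₀ + L) := by positivity
    omega
  set R := Nat.log 2 n + 2 with hR
  have hlog1 : 2 ^ Nat.log 2 n ≤ n := Nat.pow_log_le_self 2 hn0
  have hlog2 : n < 2 ^ (Nat.log 2 n + 1) := Nat.lt_pow_succ_log_self (by norm_num) n
  have hlogge : Q₀ + L ≤ Nat.log 2 n := Nat.le_log_of_pow_le (by norm_num) hn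
  have hchoose : ∀ m : ℕ, ∃ l, m < 2 ^ L → z l = z i * zt R ^ m ∧ ‖δ l - δ i‖ ≤ ε / 4 := by
    intro m
    by_cases hm : m < 2 ^ L
    · obtain ⟨l, hl⟩ := hQ₀ (R - L) (by omega) L m hm
      rw [show R - L + L = R by omega] at hl
      exact ⟨l, fun _ => hl⟩
    · exact ⟨0, fun h => absurd h hm⟩
  choose l hl using hchoose
  refine ⟨2 ^ L, R, l, by positivity, fun m hm => (hl m hm).1, fun m hm => (hl m hm).2, ?_⟩
  have h1 : ‖∑ m ∈ Finset.range (2 ^ L), (zt R ^ m) ^ n‖ ≤ 2 := by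
    apply geom_small
    · rw [hR, pow_add]; omega
    · rw [hR, show Nat.log 2 n + 2 = (Nat.log 2 n + 1) + 1 by ring, pow_succ 2 (Nat.log 2 n + 1)]
      omega
  have h2 : (0 : ℝ) < ((2 ^ L : ℕ) : ℝ) := by positivity
  rw [div_mul_eq_mul_div, div_le_iff₀ h2]
  push_cast
  rw [div_lt_iff₀ hε] at hL
  have h3 := norm_nonneg (δ i)
  nlinarith

lemma mprop_left (A : Atoms T δ z) (i : ℕ) : MProp T (δ i) 0 := by
  intro ε hε
  obtain ⟨N₀, h⟩ := A.mix_data i hε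
  refine ⟨N₀, fun n hn => ?_⟩
  obtain ⟨N, R, l, hN, hz, hl, hs⟩ := h n hn
  refine ⟨(N : ℂ)⁻¹ • ∑ m ∈ Finset.range N, δ (l m), ?_, ?_⟩
  · have h1 := average (δ := δ) i l hN (fun _ => 1) (fun m _ => by simp) hl
    have h2 : ((N : ℂ)⁻¹ * ∑ m ∈ Finset.range N, (1 : ℂ)) = 1 := by
      rw [Finset.sum_const, Finset.card_range, nsmul_eq_mul, mul_one,
        inv_mul_cancel₀ (by exact_mod_cast hN.ne')]
    rw [h2, one_smul] at h1
    simp only [one_smul] at h1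
    linarith
  · rw [sub_zero, map_smul, map_sum]
    have e1 : ∑ m ∈ Finset.range N, (T ^ n) (δ (l m)) =
        ∑ m ∈ Finset.range N, (z (l m) ^ n) • δ (l m) :=
      Finset.sum_congr rfl fun m _ => A.eig_pow _ _
    rw [e1]
    have h1 := average (δ := δ) i l hN (fun m => z (l m) ^ n)
      (fun m _ => by rw [norm_pow, A.norm_z, one_pow]) hl
    have h2 : ∑ m ∈ Finset.range N, z (l m) ^ n =
        z i ^ n * ∑ m ∈ Finset.range N, (zt R ^ m) ^ n := by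
      rw [Finset.mul_sum]
      refine Finset.sum_congr rfl fun m hm => ?_
      rw [hz m (Finset.mem_range.1 hm), mul_pow]
    have h3 : ‖((N : ℂ)⁻¹ * ∑ m ∈ Finset.range N, z (l m) ^ n) • δ i‖ =
        ‖∑ m ∈ Finset.range N, (zt R ^ m) ^ n‖ / N * ‖δ i‖ := by
      rw [h2, norm_smul, norm_mul, norm_mul, norm_pow, A.norm_z, one_pow, one_mul, norm_inv,
        Complex.norm_natCast, div_eq_inv_mul]
    have h4 := norm_sub_norm_le ((N : ℂ)⁻¹ • ∑ m ∈ Finset.range N, (z (l m) ^ n) • δ (l m))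
      (((N : ℂ)⁻¹ * ∑ m ∈ Finset.range N, z (l m) ^ n) • δ i)
    linarith

lemma mprop_right (A : Atoms T δ z) (i : ℕ) : MProp T 0 (δ i) := by
  intro ε hε
  obtain ⟨N₀, h⟩ := A.mix_data i hε
  refine ⟨N₀, fun n hn => ?_⟩
  obtain ⟨N, R, l, hN, hz, hl, hs⟩ := h n hn
  have hconj : ∀ j, starRingEnd ℂ (z j) * z j = 1 := by
    intro j
    rw [← Complex.normSq_eq_conj_mul_self, Complex.normSq_eq_norm_sq, A.norm_z]; simp
  refine ⟨(N : ℂ)⁻¹ • ∑ m ∈ Finset.range N, (starRingEnd ℂ (z (l m)) ^ n) • δ (l m), ?_, ?_⟩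
  · rw [sub_zero]
    have h1 := average (δ := δ) i l hN (fun m => starRingEnd ℂ (z (l m)) ^ n)
      (fun m _ => by rw [norm_pow, RCLike.norm_conj, A.norm_z, one_pow]) hl
    have h2 : ∑ m ∈ Finset.range N, starRingEnd ℂ (z (l m)) ^ n =
        starRingEnd ℂ (z i ^ n * ∑ m ∈ Finset.range N, (zt R ^ m) ^ n) := by
      rw [Finset.mul_sum, map_sum]
      refine Finset.sum_congr rfl fun m hm => ?_
      rw [hz m (Finset.mem_range.1 hm), ← map_pow, mul_pow]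
    have h3 : ‖((N : ℂ)⁻¹ * ∑ m ∈ Finset.range N, starRingEnd ℂ (z (l m)) ^ n) • δ i‖ =
        ‖∑ m ∈ Finset.range N, (zt R ^ m) ^ n‖ / N * ‖δ i‖ := by
      rw [h2, norm_smul, norm_mul, RCLike.norm_conj, norm_mul, norm_pow, A.norm_z, one_pow,
        one_mul, norm_inv, Complex.norm_natCast, div_eq_inv_mul]
    have h4 := norm_sub_norm_le
      ((N : ℂ)⁻¹ • ∑ m ∈ Finset.range N, (starRingEnd ℂ (z (l m)) ^ n) • δ (l m))
      (((N : ℂ)⁻¹ * ∑ m ∈ Finset.range N, starRingEnd ℂ (z (l m)) ^ n) • δ i)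
    linarith
  · rw [map_smul, map_sum]
    have e1 : ∑ m ∈ Finset.range N, (T ^ n) ((starRingEnd ℂ (z (l m)) ^ n) • δ (l m)) =
        ∑ m ∈ Finset.range N, (1 : ℂ) • δ (l m) := by
      refine Finset.sum_congr rfl fun m _ => ?_
      rw [map_smul, A.eig_pow, smul_smul, ← mul_pow, hconj, one_pow]
    rw [e1]
    have h1 := average (δ := δ) i l hN (fun _ => 1) (fun m _ => by simp) hl
    have h2 : ((N : ℂ)⁻¹ * ∑ m ∈ Finset.range N, (1 : ℂ)) = 1 := by
      rw [Finset.sum_const, Finset.card_range, nsmul_eq_mul, mul_one,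
        inv_mul_cancel₀ (by exact_mod_cast hN.ne')]
    rw [h2, one_smul] at h1
    linarith

lemma mprop (A : Atoms T δ z) {w1 w2 : X} (h1 : w1 ∈ Submodule.span ℂ (range δ))
    (h2 : w2 ∈ Submodule.span ℂ (range δ)) : MProp T w1 w2 := by
  have hl : MProp T w1 0 := by
    induction h1 using Submodule.span_induction with
    | mem x hx => obtain ⟨i, rfl⟩ := hx; exact A.mprop_left i
    | zero => exact MProp_zero _
    | add x y _ _ h1 h2 => simpa using MProp_add h1 h2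
    | smul a x _ h => simpa using MProp_smul a h
  have hr : MProp T 0 w2 := by
    induction h2 using Submodule.span_induction with
    | mem x hx => obtain ⟨i, rfl⟩ := hx; exact A.mprop_right i
    | zero => exact MProp_zero _
    | add x y _ _ h1 h2 => simpa using MProp_add h1 h2
    | smul a x _ h => simpa using MProp_smul a h
  simpa using MProp_add hl hr

theorem mixing (A : Atoms T δ z) : ∀ U V : Set X, IsOpen U → IsOpen V → U.Nonempty →
    V.Nonempty → ∃ N : ℕ, ∀ n : ℕ, N ≤ n → ((⇑(T ^ n)) ⁻¹' V ∩ U).Nonempty := by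
  intro U V hU hV hUn hVn
  obtain ⟨w1, hw1, hd1⟩ := A.dense.inter_open_nonempty U hU hUn
  obtain ⟨w2, hw2, hd2⟩ := A.dense.inter_open_nonempty V hV hVn
  obtain ⟨ε1, hε1, hb1⟩ := Metric.isOpen_iff.1 hU _ hw1
  obtain ⟨ε2, hε2, hb2⟩ := Metric.isOpen_iff.1 hV _ hw2
  obtain ⟨N, hN⟩ := A.mprop hd1 hd2 (min ε1 ε2) (lt_min hε1 hε2)
  refine ⟨N, fun n hn => ?_⟩
  obtain ⟨y, h1, h2⟩ := hN n hn
  refine ⟨y, hb2 ?_, hb1 ?_⟩
  · rw [Metric.mem_ball, dist_eq_norm]; exact lt_of_lt_of_le h2 (min_le_right _ _)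
  · rw [Metric.mem_ball, dist_eq_norm]; exact lt_of_lt_of_le h1 (min_le_left _ _)

theorem dense_periodic (A : Atoms T δ z) : Dense {x : X | ∃ n : ℕ, 0 < n ∧ (T ^ n) x = x} := by
  refine A.dense.mono fun w hw => ?_
  have hw' : w ∈ Submodule.span ℂ (range δ) := hw
  induction hw' using Submodule.span_induction with
  | mem x hx =>
    obtain ⟨i, rfl⟩ := hx
    obtain ⟨K, hK⟩ := A.root i
    exact ⟨2 ^ K, by positivity, by rw [A.eig_pow, hK, one_smul]⟩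
  | zero => exact ⟨1, one_pos, by simp⟩
  | add x y hx hy h1 h2 =>
    obtain ⟨a, ha, ha'⟩ := h1 hx
    obtain ⟨b, hb, hb'⟩ := h2 hy
    refine ⟨a * b, Nat.mul_pos ha hb, ?_⟩
    rw [map_add, pow_mul_fix ha', mul_comm, pow_mul_fix hb']
  | smul c x hx h =>
    obtain ⟨a, ha, ha'⟩ := h hx
    exact ⟨a, ha, by rw [map_smul, ha']⟩

theorem fhc [CompleteSpace X] [TopologicalSpace.SeparableSpace X] (A : Atoms T δ z) :
    ∃ x : X, ∀ U : Set X, IsOpen U → U.Nonempty →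
        ∃ δ : ℝ, 0 < δ ∧ ∃ N₀ : ℕ, ∀ N : ℕ, N₀ ≤ N →
          δ * (N : ℝ) ≤ (Nat.card {n : ℕ // n < N ∧ (T ^ n) x ∈ U} : ℝ) :=
  Crit.fhc T _ A.dense A.invariant A.hprop

theorem hypercyclic [CompleteSpace X] [TopologicalSpace.SeparableSpace X] (A : Atoms T δ z) :
    ∃ x : X, Dense (Set.range (fun n : ℕ => (T ^ n) x)) := by
  obtain ⟨x, hx⟩ := A.fhc
  refine ⟨x, dense_iff_inter_open.2 fun U hU hUn => ?_⟩
  obtain ⟨c, hc, N₀, h⟩ := hx U hU hUn
  have h1 := h (N₀ + 1) (by omega)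
  have h2 : 0 < Nat.card {n : ℕ // n < N₀ + 1 ∧ (T ^ n) x ∈ U} := by
    by_contra hcon
    have h3 : Nat.card {n : ℕ // n < N₀ + 1 ∧ (T ^ n) x ∈ U} = 0 := by omega
    rw [h3] at h1
    have : 0 < c * ((N₀ + 1 : ℕ) : ℝ) := by positivity
    push_cast at h1 this
    linarith
  obtain ⟨⟨n, _, hn⟩⟩ := (Nat.card_pos_iff.1 h2).1
  exact ⟨_, hn, n, rfl⟩

end Atoms

end Q81.Crit
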