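import Pool.Agent.Q81.Crit4

/-!
# The model: multiplication by `z` on an `ℓ¹` tree space
-/

namespace Q81.Crit

open Filter Topology Set

/-- the space `ℓ¹` -/
abbrev L1 : Type := lp (fun _ : ℕ => ℂ) 1

/-- unit vectors -/
noncomputable def ee (j : ℕ) : L1 := lp.single 1 j 1

lemma L1.summable (x : L1) : Summable fun j => ‖x j‖ := by
  have := (lp.memℓp x).summable (by norm_num : 0 < (1 : ENNReal).toReal)
  simpa using this

lemma L1.norm_eq (x : L1) : ‖x‖ = ∑' j, ‖x j‖ := by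
  rw [lp.norm_eq_tsum_rpow (by norm_num : 0 < (1 : ENNReal).toReal)]
  simp

lemma norm_ee (j : ℕ) : ‖ee j‖ = 1 := by
  unfold ee
  rw [lp.norm_single (by norm_num)]
  simp

lemma hasSum_ee (x : L1) : HasSum (fun j => x j • ee j) x := by
  have h := lp.hasSum_single (E := fun _ : ℕ => ℂ) (p := 1) (by norm_num) x
  refine h.congr_fun ?_ |> fun h => h
  intro j
  unfold ee
  rw [← lp.single_smul]
  simp

section mk
variable {E : Type*} [NormedAddCommGroup E] [NormedSpace ℂ E] [CompleteSpace E]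

lemma summable_mk {w : ℕ → E} {C : ℝ} (hw : ∀ j, ‖w j‖ ≤ C) (x : L1) :
    Summable fun j => x j • w j := by
  refine Summable.of_norm_bounded (x.summable.mul_left C) fun j => ?_
  rw [norm_smul, mul_comm]
  exact mul_le_mul_of_nonneg_right (hw j) (norm_nonneg _)

/-- the operator with given images of the unit vectors -/
noncomputable def mk1 (w : ℕ → E) (C : ℝ) (hw : ∀ j, ‖w j‖ ≤ C) : L1 →L[ℂ] E :=
  LinearMap.mkContinuous
    { toFun := fun x => ∑' j, x j • w j
      map_add' := fun x y => by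
        rw [← (summable_mk hw x).tsum_add (summable_mk hw y)]
        exact tsum_congr fun j => by rw [← add_smul]; rfl
      map_smul' := fun c x => by
        rw [RingHom.id_apply, ← (summable_mk hw x).tsum_const_smul]
        exact tsum_congr fun j => by rw [smul_smul]; rfl } C (fun x => by
      show ‖∑' j, x j • w j‖ ≤ C * ‖x‖
      rw [L1.norm_eq, ← tsum_mul_left]
      refine tsum_of_norm_bounded (x.summable.mul_left C).hasSum fun j => ?_
      rw [norm_smul, mul_comm]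
      exact mul_le_mul_of_nonneg_right (hw j) (norm_nonneg _))

lemma mk1_ee (w : ℕ → E) (C : ℝ) (hw : ∀ j, ‖w j‖ ≤ C) (j : ℕ) : mk1 w C hw (ee j) = w j := by
  show ∑' i, (ee j) i • w i = w j
  rw [tsum_eq_single j]
  · simp [ee]
  · intro i hi
    have : (ee j) i = 0 := by
      unfold ee
      exact lp.single_apply_ne 1 j 1 hi
    rw [this, zero_smul]

lemma clm_bound (ψ : L1 →L[ℂ] E) (x : L1) : HasSum (fun j => x j • ψ (ee j)) (ψ x) := by
  have := ψ.hasSum (hasSum_ee x)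
  simpa using this

/-- a bound for finitely many operators -/
lemma sum_bound {ι : Type*} (s : Finset ι) (ψ : ι → L1 →L[ℂ] E) (x : L1) {B : ℕ → ℝ} {C : ℝ}
    (hB : ∀ j, ∑ i ∈ s, ‖ψ i (ee j)‖ ≤ B j) (hC : ∀ j, B j ≤ C) :
    ∑ i ∈ s, ‖ψ i x‖ ≤ ∑' j, ‖x j‖ * B j := by
  have hB0 : ∀ j, 0 ≤ B j := fun j => (Finset.sum_nonneg fun _ _ => norm_nonneg _).trans (hB j)
  have hs : Summable fun j => ‖x j‖ * B j := by
    refine Summable.of_nonneg_of_le (fun j => mul_nonneg (norm_nonneg _) (hB0 j)) (fun j => ?_)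
      (x.summable.mul_right C)
    exact mul_le_mul_of_nonneg_left (hC j) (norm_nonneg _)
  have hsi : ∀ i ∈ s, Summable fun j => ‖x j‖ * ‖ψ i (ee j)‖ := by
    intro i hi
    refine Summable.of_nonneg_of_le (fun j => by positivity) (fun j => ?_) hs
    refine mul_le_mul_of_nonneg_left ?_ (norm_nonneg _)
    exact (Finset.single_le_sum (f := fun i => ‖ψ i (ee j)‖) (fun _ _ => norm_nonneg _) hi).trans
      (hB j)
  calc ∑ i ∈ s, ‖ψ i x‖ ≤ ∑ i ∈ s, ∑' j, ‖x j‖ * ‖ψ i (ee j)‖ := by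
        refine Finset.sum_le_sum fun i hi => ?_
        rw [← (clm_bound (ψ i) x).tsum_eq]
        refine tsum_of_norm_bounded (hsi i hi).hasSum fun j => ?_
        rw [norm_smul]
    _ = ∑' j, ∑ i ∈ s, ‖x j‖ * ‖ψ i (ee j)‖ := (Summable.tsum_finsetSum hsi).symm
    _ ≤ ∑' j, ‖x j‖ * B j := by
        refine Summable.tsum_le_tsum (fun j => ?_) (summable_sum hsi) hs
        rw [← Finset.mul_sum]
        exact mul_le_mul_of_nonneg_left (hB j) (norm_nonneg _)

end mk

/-! ### The tree -/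

/-- the top bit -/
def lg (j : ℕ) : ℕ := Nat.log 2 j

/-- the parent -/
def pr (j : ℕ) : ℕ := j - 2 ^ lg j

lemma pow_lg_le {j : ℕ} (hj : j ≠ 0) : 2 ^ lg j ≤ j := Nat.pow_log_le_self 2 hj

lemma lt_pow_lg (j : ℕ) : j < 2 ^ (lg j + 1) := Nat.lt_pow_succ_log_self (by norm_num) j

lemma pr_lt {j : ℕ} (hj : j ≠ 0) : pr j < j := by
  unfold pr
  have : 0 < 2 ^ lg j := by positivity
  omega

lemma pr_lt_pow {j : ℕ} (hj : j ≠ 0) : pr j < 2 ^ lg j := by
  unfold pr
  have h1 := lt_pow_lg j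
  have h2 := pow_lg_le hj
  rw [pow_succ] at h1
  omega

lemma pr_add {j : ℕ} (hj : j ≠ 0) : pr j + 2 ^ lg j = j := by
  unfold pr
  have h2 := pow_lg_le hj
  omega

lemma lg_add {b l : ℕ} (hl : l < 2 ^ b) : lg (l + 2 ^ b) = b := by
  unfold lg
  rw [Nat.log_eq_iff (Or.inr ⟨by norm_num, by positivity⟩)]
  rw [pow_succ]
  constructor <;> omega

lemma pr_add_pow {b l : ℕ} (hl : l < 2 ^ b) : pr (l + 2 ^ b) = l := by
  unfold pr; rw [lg_add hl]; omega

lemma lg_lt {j k : ℕ} (hj : j ≠ 0) : lg j < k ↔ j < 2 ^ k := by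
  unfold lg
  exact Nat.log_lt_iff_lt_pow (by norm_num) hj

/-- the eigenvalues -/
noncomputable def zz (j : ℕ) : ℂ :=
  if h : j = 0 then 1 else zz (pr j) * zt (lg j + 1)
termination_by j
decreasing_by exact pr_lt h

lemma zz_zero : zz 0 = 1 := by rw [zz]; simp

lemma zz_eq {j : ℕ} (hj : j ≠ 0) : zz j = zz (pr j) * zt (lg j + 1) := by
  rw [zz, dif_neg hj]

/-- the eigenvectors -/
noncomputable def dd (j : ℕ) : L1 :=
  if h : j = 0 then ee 0 else dd (pr j) + ((9 / 10 : ℂ) ^ (lg j + 1)) • ee j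
termination_by j
decreasing_by exact pr_lt h

lemma dd_zero : dd 0 = ee 0 := by rw [dd]; simp

lemma dd_eq {j : ℕ} (hj : j ≠ 0) : dd j = dd (pr j) + ((9 / 10 : ℂ) ^ (lg j + 1)) • ee j := by
  rw [dd, dif_neg hj]

lemma zt_sq (R : ℕ) : zt (R + 1) ^ 2 = zt R := by
  unfold zt
  rw [← Complex.exp_nat_mul]
  congr 1
  push_cast
  field_simp
  ring

lemma zt_one_sub (R : ℕ) : ‖zt R - 1‖ ≤ 2 * Real.pi / 2 ^ R := by
  have h : zt R = Complex.exp (Complex.I * ((2 * Real.pi / 2 ^ R : ℝ) : ℂ)) := by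
    unfold zt
    congr 1
    push_cast
    ring
  rw [h]
  refine (Real.norm_exp_I_mul_ofReal_sub_one_le).trans ?_
  rw [Real.norm_eq_abs, abs_of_nonneg (by positivity)]

lemma zz_root : ∀ k j, j < 2 ^ k → zz j ^ (2 ^ k) = 1 := by
  intro k j
  induction j using Nat.strong_induction_on with
  | _ j ih =>
    intro hj
    by_cases h0 : j = 0
    · subst h0; rw [zz_zero, one_pow]
    · rw [zz_eq h0, mul_pow, ih (pr j) (pr_lt h0) ((pr_lt h0).trans hj), one_mul]
      have h1 : lg j + 1 ≤ k := (lg_lt h0).2 hj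
      obtain ⟨c, hc⟩ := pow_dvd_pow 2 h1
      rw [hc, pow_mul, (zt_prim _).pow_eq_one, one_pow]

lemma zz_norm (j : ℕ) : ‖zz j‖ = 1 := by
  refine Complex.norm_eq_one_of_pow_eq_one (zz_root (j + 1) j ?_) (by positivity)
  exact Nat.lt_two_pow_self.trans_le (Nat.pow_le_pow_right (by norm_num) (by omega))

lemma zz_sub {j : ℕ} (hj : j ≠ 0) : ‖zz j - zz (pr j)‖ ≤ 2 * Real.pi / 2 ^ (lg j + 1) := by
  rw [zz_eq hj]
  have : zz (pr j) * zt (lg j + 1) - zz (pr j) = zz (pr j) * (zt (lg j + 1) - 1) := by ring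
  rw [this, norm_mul, zz_norm, one_mul]
  exact zt_one_sub _

/-- nearby points -/
lemma near_aux {Q i : ℕ} (hi : i < 2 ^ Q) : ∀ L m : ℕ, m < 2 ^ L → ∃ l, l < 2 ^ (Q + L) ∧
    zz l = zz i * zt (Q + L) ^ m ∧
      ‖dd l - dd i‖ ≤ 10 * ((9 / 10 : ℝ) ^ (Q + 1) - (9 / 10) ^ (Q + L + 1)) := by
  intro L
  induction L with
  | zero =>
    intro m hm
    have : m = 0 := by simpa using hm
    subst this
    exact ⟨i, by simpa using hi, by simp, by simp⟩
  | succ L ih =>
    intro m hm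
    have hm' : m / 2 < 2 ^ L := by rw [pow_succ] at hm; omega
    obtain ⟨l, hl1, hl2, hl3⟩ := ih (m / 2) hm'
    have hz : zt (Q + L) ^ (m / 2) = zt (Q + L + 1) ^ (2 * (m / 2)) := by
      rw [pow_mul, zt_sq]
    have hmono : (9 / 10 : ℝ) ^ (Q + (L + 1) + 1) ≤ (9 / 10) ^ (Q + L + 1) :=
      pow_le_pow_of_le_one (by norm_num) (by norm_num) (by omega)
    rcases Nat.mod_two_eq_zero_or_one m with h | h
    · refine ⟨l, hl1.trans (Nat.pow_lt_pow_right (by norm_num) (by omega)), ?_, ?_⟩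
      · rw [hl2, hz, ← add_assoc]
        congr 2
        omega
      · refine hl3.trans ?_
        linarith
    · have hlt : l + 2 ^ (Q + L) < 2 ^ (Q + (L + 1)) := by
        rw [← add_assoc, pow_succ]; omega
      have hne : l + 2 ^ (Q + L) ≠ 0 := by
        have : 0 < 2 ^ (Q + L) := by positivity
        omega
      refine ⟨l + 2 ^ (Q + L), hlt, ?_, ?_⟩
      · rw [zz_eq hne, lg_add hl1, pr_add_pow hl1, hl2, hz, mul_assoc, ← pow_succ, ← add_assoc]
        congr 2
        omega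
      · rw [dd_eq hne, lg_add hl1, pr_add_pow hl1]
        have e : dd l + (9 / 10 : ℂ) ^ (Q + L + 1) • ee (l + 2 ^ (Q + L)) - dd i =
            (dd l - dd i) + (9 / 10 : ℂ) ^ (Q + L + 1) • ee (l + 2 ^ (Q + L)) := by abel
        rw [e]
        refine (norm_add_le _ _).trans ?_
        rw [norm_smul, norm_ee, mul_one, norm_pow]
        have h9 : ‖(9 / 10 : ℂ)‖ = 9 / 10 := by norm_num
        rw [h9, ← add_assoc, pow_succ (9 / 10 : ℝ) (Q + L + 1)]
        linarith

lemma norm_dd (j : ℕ) : ‖dd j‖ ≤ 10 := by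
  obtain ⟨l, hl1, hl2, hl3⟩ : ∃ l, j = l ∧ True ∧ True := ⟨j, rfl, trivial, trivial⟩
  clear hl1 hl2 hl3
  have : ∀ j, ‖dd j‖ ≤ 10 - 9 * (9 / 10 : ℝ) ^ (if j = 0 then 0 else lg j + 1) := by
    intro j
    induction j using Nat.strong_induction_on with
    | _ j ih =>
      by_cases h0 : j = 0
      · subst h0; rw [dd_zero, norm_ee]; norm_num
      · rw [if_neg h0, dd_eq h0]
        refine (norm_add_le _ _).trans ?_
        have h1 := ih (pr j) (pr_lt h0)
        rw [norm_smul, norm_ee, mul_one, norm_pow]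
        have h9 : ‖(9 / 10 : ℂ)‖ = 9 / 10 := by norm_num
        rw [h9]
        have h2 : (9 / 10 : ℝ) ^ (lg j) ≤ (9 / 10 : ℝ) ^ (if pr j = 0 then 0 else lg (pr j) + 1) := by
          refine pow_le_pow_of_le_one (by norm_num) (by norm_num) ?_
          split_ifs with h
          · omega
          · exact (lg_lt h).2 (pr_lt_pow h0)
        rw [pow_succ]
        linarith
  have h1 := this j
  have h2 : (0 : ℝ) < (9 / 10 : ℝ) ^ (if j = 0 then 0 else lg j + 1) := by positivity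
  linarith

/-- the images of the unit vectors -/
noncomputable def ww (j : ℕ) : L1 :=
  if j = 0 then ee 0 else zz j • ee j + ((10 / 9 : ℂ) ^ (lg j + 1) * (zz j - zz (pr j))) • dd (pr j)

lemma norm_ww (j : ℕ) : ‖ww j‖ ≤ 64 := by
  unfold ww
  split_ifs with h
  · rw [norm_ee]; norm_num
  · refine (norm_add_le _ _).trans ?_
    rw [norm_smul, zz_norm, norm_ee, norm_smul, norm_mul, norm_pow]
    have h9 : ‖(10 / 9 : ℂ)‖ = 10 / 9 := by norm_num
    rw [h9]
    have h1 := zz_sub h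
    have h2 := norm_dd (pr j)
    have h3 : (10 / 9 : ℝ) ^ (lg j + 1) * ‖zz j - zz (pr j)‖ ≤ 2 * Real.pi := by
      calc (10 / 9 : ℝ) ^ (lg j + 1) * ‖zz j - zz (pr j)‖ ≤
          (10 / 9 : ℝ) ^ (lg j + 1) * (2 * Real.pi / 2 ^ (lg j + 1)) := by gcongr
        _ = (5 / 9 : ℝ) ^ (lg j + 1) * (2 * Real.pi) := by
          rw [show (5 / 9 : ℝ) = (10 / 9) / 2 by norm_num, div_pow (10 / 9 : ℝ) 2]; ring
        _ ≤ 1 * (2 * Real.pi) := by
          have := Real.pi_pos
          gcongr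
          exact pow_le_one₀ (by norm_num) (by norm_num)
        _ = 2 * Real.pi := one_mul _
    have h4 : (10 / 9 : ℝ) ^ (lg j + 1) * ‖zz j - zz (pr j)‖ * ‖dd (pr j)‖ ≤ 2 * Real.pi * 10 := by
      gcongr
    have h5 := Real.pi_lt_d2
    linarith

/-- The operator. -/
noncomputable def TT : L1 →L[ℂ] L1 := mk1 ww 64 norm_ww

lemma TT_dd (j : ℕ) : TT (dd j) = zz j • dd j := by
  induction j using Nat.strong_induction_on with
  | _ j ih =>
    by_cases h0 : j = 0
    · subst h0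
      rw [dd_zero, zz_zero, one_smul, TT, mk1_ee, ww, if_pos rfl]
    · rw [dd_eq h0, map_add, map_smul, ih (pr j) (pr_lt h0), TT, mk1_ee, ww, if_neg h0, smul_add,
        smul_smul, smul_smul, ← mul_assoc, ← mul_pow]
      have : (9 / 10 * (10 / 9) : ℂ) = 1 := by norm_num
      rw [this, one_pow, one_mul, smul_add, smul_smul, mul_comm (zz j) ((9 / 10 : ℂ) ^ _), sub_smul]
      abel

lemma ee_eq {j : ℕ} (hj : j ≠ 0) : ee j = ((10 / 9 : ℂ) ^ (lg j + 1)) • (dd j - dd (pr j)) := by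
  rw [dd_eq hj, add_sub_cancel_left, smul_smul, ← mul_pow]
  have : (10 / 9 * (9 / 10) : ℂ) = 1 := by norm_num
  rw [this, one_pow, one_smul]

lemma dense_dd : Dense (Submodule.span ℂ (range dd) : Set L1) := by
  have hee : ∀ j, ee j ∈ Submodule.span ℂ (range dd) := by
    intro j
    by_cases h0 : j = 0
    · subst h0; rw [← dd_zero]; exact Submodule.subset_span ⟨0, rfl⟩
    · rw [ee_eq h0]
      exact Submodule.smul_mem _ _ (Submodule.sub_mem _ (Submodule.subset_span ⟨j, rfl⟩)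
        (Submodule.subset_span ⟨pr j, rfl⟩))
  intro x
  have h : Tendsto (fun s : Finset ℕ => ∑ j ∈ s, x j • ee j) atTop (𝓝 x) := hasSum_ee x
  refine mem_closure_of_tendsto h (Eventually.of_forall fun s => ?_)
  exact Submodule.sum_mem _ fun j _ => Submodule.smul_mem _ _ (hee j)

lemma atoms : Atoms TT dd zz where
  eig := TT_dd
  root := fun i => ⟨i, zz_root i i Nat.lt_two_pow_self⟩
  near := by
    intro i ε hε
    obtain ⟨Q₁, hQ₁⟩ := exists_pow_lt_of_lt_one (show 0 < ε / 10 by linarith)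
      (show (9 / 10 : ℝ) < 1 by norm_num)
    refine ⟨max i Q₁, fun Q hQ L m hm => ?_⟩
    have hi : i < 2 ^ Q := Nat.lt_two_pow_self.trans_le
      (Nat.pow_le_pow_right (by norm_num) (le_trans (le_max_left _ _) hQ))
    obtain ⟨l, -, hl2, hl3⟩ := near_aux hi L m hm
    refine ⟨l, hl2, hl3.trans ?_⟩
    have h1 : (9 / 10 : ℝ) ^ (Q + 1) ≤ (9 / 10) ^ Q₁ :=
      pow_le_pow_of_le_one (by norm_num) (by norm_num) (by
        have := le_trans (le_max_right i Q₁) hQ
        omega)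
    have h2 : (0 : ℝ) < (9 / 10) ^ (Q + L + 1) := by positivity
    linarith
  dense := dense_dd

end Q81.Crit
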