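import Pool.Agent.Q81.Crit5

/-!
# The lower bound for the orbits
-/

namespace Q81.Crit

open Filter Topology Set

/-- the mass functionals on the unit vectors -/
noncomputable def cc (k i j : ℕ) : ℂ :=
  if j = 0 then (if i = 0 then 1 else 0)
  else if lg j < k then (10 / 9 : ℂ) ^ (lg j + 1) *
    ((if j = i then 1 else 0) - (if pr j = i then 1 else 0))
  else 0

lemma norm_cc (k i j : ℕ) : ‖cc k i j‖ ≤ 2 * (10 / 9 : ℝ) ^ k := by
  have h1 : (1 : ℝ) ≤ (10 / 9 : ℝ) ^ k := one_le_pow₀ (by norm_num)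
  unfold cc
  have h10 : (0 : ℝ) ≤ 2 * (10 / 9 : ℝ) ^ k := by linarith
  split_ifs with h2 h3 h4 h5 h6 h7
  · rw [norm_one]; linarith
  · rw [norm_zero]; exact h10
  · exfalso
    have := pr_lt h2
    omega
  · rw [sub_zero, mul_one, norm_pow]
    have h9 : ‖(10 / 9 : ℂ)‖ = 10 / 9 := by norm_num
    rw [h9]
    have : (10 / 9 : ℝ) ^ (lg j + 1) ≤ (10 / 9) ^ k := pow_le_pow_right₀ (by norm_num) h4
    linarith
  · rw [zero_sub, norm_mul, norm_neg, norm_one, mul_one, norm_pow]
    have h9 : ‖(10 / 9 : ℂ)‖ = 10 / 9 := by norm_num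
    rw [h9]
    have : (10 / 9 : ℝ) ^ (lg j + 1) ≤ (10 / 9) ^ k := pow_le_pow_right₀ (by norm_num) h4
    linarith
  · rw [sub_zero, mul_zero, norm_zero]; exact h10
  · rw [norm_zero]; exact h10

/-- the mass functionals -/
noncomputable def ph (k i : ℕ) : L1 →L[ℂ] ℂ := mk1 (cc k i) (2 * (10 / 9 : ℝ) ^ k) (norm_cc k i)

lemma ph_ee (k i j : ℕ) : ph k i (ee j) = cc k i j := mk1_ee _ _ _ _

lemma ph_dd {k i : ℕ} (_hi : i < 2 ^ k) (j : ℕ) : ph k i (dd j) = if j % 2 ^ k = i then 1 else 0 := by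
  induction j using Nat.strong_induction_on with
  | _ j ih =>
    by_cases h0 : j = 0
    · subst h0
      rw [dd_zero, ph_ee, cc, if_pos rfl, Nat.zero_mod]
      by_cases h : i = 0
      · simp [h]
      · rw [if_neg h, if_neg (Ne.symm h)]
    · rw [dd_eq h0, map_add, map_smul, ih (pr j) (pr_lt h0), ph_ee, cc, if_neg h0]
      by_cases hlt : lg j < k
      · have hj := (lg_lt h0).1 hlt
        have hp := (pr_lt h0).trans hj
        rw [if_pos hlt, Nat.mod_eq_of_lt hj, Nat.mod_eq_of_lt hp, smul_eq_mul, ← mul_assoc,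
          ← mul_pow]
        have : (9 / 10 * (10 / 9) : ℂ) = 1 := by norm_num
        rw [this, one_pow, one_mul]
        ring
      · rw [if_neg hlt, smul_zero, add_zero]
        have hle : k ≤ lg j := by omega
        obtain ⟨q, hq⟩ := pow_dvd_pow 2 hle
        have : pr j % 2 ^ k = j % 2 ^ k := by
          conv_rhs => rw [← pr_add h0, hq, Nat.add_mul_mod_self_left]
        rw [this]

lemma TT_pow_ee (n : ℕ) {j : ℕ} (hj : j ≠ 0) : (TT ^ n) (ee j) =
    ((10 / 9 : ℂ) ^ (lg j + 1)) • (zz j ^ n • dd j - zz (pr j) ^ n • dd (pr j)) := by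
  rw [ee_eq hj, map_smul, map_sub, atoms.eig_pow, atoms.eig_pow]

lemma ph_TT (n : ℕ) {k i : ℕ} (hi : i < 2 ^ k) (j : ℕ) :
    ph k i ((TT ^ n) (ee j)) - zz i ^ n * cc k i j =
      if j < 2 ^ k then 0 else if j % 2 ^ k = i then
        (10 / 9 : ℂ) ^ (lg j + 1) * (zz j ^ n - zz (pr j) ^ n) else 0 := by
  by_cases h0 : j = 0
  · subst h0
    rw [if_pos (by positivity), ← dd_zero, atoms.eig_pow, zz_zero, one_pow, one_smul, ph_dd hi, cc,
      if_pos rfl, Nat.zero_mod]
    by_cases h : i = 0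
    · subst h; simp [zz_zero]
    · rw [if_neg h, if_neg (Ne.symm h)]; simp
  · rw [TT_pow_ee n h0, map_smul, map_sub, map_smul, map_smul, ph_dd hi, ph_dd hi, cc, if_neg h0]
    by_cases hlt : lg j < k
    · have hj := (lg_lt h0).1 hlt
      have hp := (pr_lt h0).trans hj
      rw [if_pos hlt, if_pos hj, Nat.mod_eq_of_lt hj, Nat.mod_eq_of_lt hp]
      simp only [smul_eq_mul]
      by_cases h1 : j = i
      · subst h1
        rw [if_pos rfl, if_neg (pr_lt h0).ne]; ring
      · rw [if_neg h1]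
        by_cases h2 : pr j = i
        · rw [if_pos h2, h2]; ring
        · rw [if_neg h2]; ring
    · have hj : ¬ j < 2 ^ k := fun h => hlt ((lg_lt h0).2 h)
      rw [if_neg hlt, if_neg hj]
      have hle : k ≤ lg j := by omega
      obtain ⟨q, hq⟩ := pow_dvd_pow 2 hle
      have : pr j % 2 ^ k = j % 2 ^ k := by
        conv_rhs => rw [← pr_add h0, hq, Nat.add_mul_mod_self_left]
      rw [this]
      simp only [smul_eq_mul]
      by_cases h1 : j % 2 ^ k = i
      · rw [if_pos h1, if_pos h1]; ring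
      · rw [if_neg h1, if_neg h1]; ring

/-- variation at level `k` -/
noncomputable def VV (k : ℕ) (x : L1) : ℝ := ∑ i ∈ Finset.range (2 ^ k), ‖ph k i x‖

lemma VV_nonneg (k : ℕ) (x : L1) : 0 ≤ VV k x := Finset.sum_nonneg fun _ _ => norm_nonneg _

lemma sum_cc (k j : ℕ) : ∑ i ∈ Finset.range (2 ^ k), ‖cc k i j‖ ≤ 2 * (10 / 9 : ℝ) ^ k := by
  have h1 : (1 : ℝ) ≤ (10 / 9 : ℝ) ^ k := one_le_pow₀ (by norm_num)
  by_cases h0 : j = 0
  · subst h0
    have : ∑ i ∈ Finset.range (2 ^ k), ‖cc k i 0‖ ≤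
        ∑ i ∈ Finset.range (2 ^ k), (if i = 0 then (1 : ℝ) else 0) := by
      refine Finset.sum_le_sum fun i _ => ?_
      rw [cc, if_pos rfl]
      split_ifs <;> simp
    refine this.trans ?_
    rw [Finset.sum_ite_eq']
    split_ifs <;> linarith
  · by_cases hlt : lg j < k
    · have hb : (10 / 9 : ℝ) ^ (lg j + 1) ≤ (10 / 9) ^ k := pow_le_pow_right₀ (by norm_num) hlt
      have h9 : ‖(10 / 9 : ℂ)‖ = 10 / 9 := by norm_num
      have : ∑ i ∈ Finset.range (2 ^ k), ‖cc k i j‖ ≤
          ∑ i ∈ Finset.range (2 ^ k), ((10 / 9 : ℝ) ^ (lg j + 1) *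
            ((if j = i then 1 else 0) + (if pr j = i then 1 else 0))) := by
        refine Finset.sum_le_sum fun i _ => ?_
        rw [cc, if_neg h0, if_pos hlt, norm_mul, norm_pow, h9]
        refine mul_le_mul_of_nonneg_left ?_ (by positivity)
        refine (norm_sub_le _ _).trans ?_
        refine add_le_add ?_ ?_
        · split_ifs <;> simp
        · split_ifs <;> simp
      refine this.trans ?_
      rw [← Finset.mul_sum, Finset.sum_add_distrib, Finset.sum_ite_eq, Finset.sum_ite_eq]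
      have h2 : (if j ∈ Finset.range (2 ^ k) then (1 : ℝ) else 0) +
          (if pr j ∈ Finset.range (2 ^ k) then (1 : ℝ) else 0) ≤ 2 := by
        split_ifs <;> norm_num
      calc (10 / 9 : ℝ) ^ (lg j + 1) * _ ≤ (10 / 9 : ℝ) ^ k * 2 := by
            refine mul_le_mul hb h2 ?_ (by positivity)
            split_ifs <;> norm_num
        _ = _ := by ring
    · have : ∑ i ∈ Finset.range (2 ^ k), ‖cc k i j‖ = 0 := by
        refine Finset.sum_eq_zero fun i _ => ?_
        rw [cc, if_neg h0, if_neg hlt, norm_zero]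
      rw [this]; positivity

lemma VV_le (k : ℕ) (x : L1) : VV k x ≤ 2 * (10 / 9 : ℝ) ^ k * ‖x‖ := by
  have h := sum_bound (Finset.range (2 ^ k)) (fun i => ph k i) x
    (B := fun _ => 2 * (10 / 9 : ℝ) ^ k) (C := 2 * (10 / 9 : ℝ) ^ k)
    (fun j => by simp only [ph_ee]; exact sum_cc k j) (fun _ => le_rfl)
  rw [tsum_mul_right, ← L1.norm_eq, mul_comm] at h
  exact h

/-- the weighted tail -/
noncomputable def WW (k : ℕ) (x : L1) : ℝ :=
  ∑' j, ‖x j‖ * (if j < 2 ^ k then 0 else (5 / 9 : ℝ) ^ (lg j + 1))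

lemma WW_summable (k : ℕ) (x : L1) :
    Summable fun j => ‖x j‖ * (if j < 2 ^ k then 0 else (5 / 9 : ℝ) ^ (lg j + 1)) := by
  refine Summable.of_nonneg_of_le (fun j => ?_) (fun j => ?_) x.summable
  · refine mul_nonneg (norm_nonneg _) ?_
    split_ifs <;> positivity
  · refine mul_le_of_le_one_right (norm_nonneg _) ?_
    split_ifs
    · exact zero_le_one
    · exact pow_le_one₀ (by norm_num) (by norm_num)

lemma WW_nonneg (k : ℕ) (x : L1) : 0 ≤ WW k x := by
  refine tsum_nonneg fun j => mul_nonneg (norm_nonneg _) ?_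
  split_ifs <;> positivity

lemma WW_le (k : ℕ) (x : L1) : WW k x ≤ (5 / 9 : ℝ) ^ (k + 1) * ‖x‖ := by
  rw [L1.norm_eq, ← tsum_mul_left]
  refine Summable.tsum_le_tsum (fun j => ?_) (WW_summable k x) (x.summable.mul_left _)
  rw [mul_comm]
  refine mul_le_mul_of_nonneg_right ?_ (norm_nonneg _)
  split_ifs with h
  · positivity
  · push Not at h
    refine pow_le_pow_of_le_one (by norm_num) (by norm_num) ?_
    have h0 : j ≠ 0 := by
      have : 0 < 2 ^ k := by positivity
      omega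
    have : ¬ lg j < k := fun h' => absurd ((lg_lt h0).1 h') (not_lt.2 h)
    omega

/-- The variation of `T^n x` at level `k`. -/
lemma VV_TT (n k : ℕ) (x : L1) :
    VV k x - 2 * Real.pi * n * WW k x ≤ VV k ((TT ^ n) x) := by
  have hpi := Real.pi_pos
  -- differences
  have hz1 : ∀ i, ‖zz i ^ n‖ = 1 := fun i => by rw [norm_pow, zz_norm, one_pow]
  have hdiff : ∑ i ∈ Finset.range (2 ^ k), ‖ph k i ((TT ^ n) x) - zz i ^ n * ph k i x‖ ≤
      2 * Real.pi * n * WW k x := by
    have h := sum_bound (Finset.range (2 ^ k))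
      (fun i => (ph k i).comp (TT ^ n) - (zz i ^ n) • ph k i) x
      (B := fun j => 2 * Real.pi * n * (if j < 2 ^ k then 0 else (5 / 9 : ℝ) ^ (lg j + 1)))
      (C := 2 * Real.pi * n) (fun j => ?_) (fun j => ?_)
    · have e : ∑' j, ‖x j‖ * (2 * Real.pi * n * (if j < 2 ^ k then 0 else (5 / 9 : ℝ) ^ (lg j + 1)))
          = 2 * Real.pi * n * WW k x := by
        rw [WW, ← tsum_mul_left]
        exact tsum_congr fun j => by ring
      rw [e] at h
      exact h
    · have e : ∀ i ∈ Finset.range (2 ^ k),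
          ‖((ph k i).comp (TT ^ n) - (zz i ^ n) • ph k i) (ee j)‖ =
          ‖if j < 2 ^ k then (0 : ℂ) else if j % 2 ^ k = i then
            (10 / 9 : ℂ) ^ (lg j + 1) * (zz j ^ n - zz (pr j) ^ n) else 0‖ := by
        intro i hi
        rw [← ph_TT n (Finset.mem_range.1 hi) j, ← ph_ee]
        rfl
      rw [Finset.sum_congr rfl e]
      by_cases hj : j < 2 ^ k
      · simp [hj]
      · simp only [if_neg hj]
        have h0 : j ≠ 0 := by
          have : 0 < 2 ^ k := by positivity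
          omega
        have h9 : ‖(10 / 9 : ℂ)‖ = 10 / 9 := by norm_num
        have e2 : ∀ i ∈ Finset.range (2 ^ k), ‖if j % 2 ^ k = i then
            (10 / 9 : ℂ) ^ (lg j + 1) * (zz j ^ n - zz (pr j) ^ n) else 0‖ =
            if j % 2 ^ k = i then (10 / 9 : ℝ) ^ (lg j + 1) * ‖zz j ^ n - zz (pr j) ^ n‖ else 0 := by
          intro i _
          split_ifs
          · rw [norm_mul, norm_pow, h9]
          · simp
        rw [Finset.sum_congr rfl e2, Finset.sum_ite_eq,
          if_pos (Finset.mem_range.2 (Nat.mod_lt _ (by positivity)))]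
        have h3 : ‖zz j ^ n - zz (pr j) ^ n‖ ≤ n * ‖zz j - zz (pr j)‖ := by
          have hc : ∀ m : ℕ, ‖zz j ^ m - zz (pr j) ^ m‖ ≤ m * ‖zz j - zz (pr j)‖ := by
            intro m
            induction m with
            | zero => simp
            | succ m ih =>
              have e3 : zz j ^ (m + 1) - zz (pr j) ^ (m + 1) =
                  zz j ^ m * (zz j - zz (pr j)) + (zz j ^ m - zz (pr j) ^ m) * zz (pr j) := by ring
              rw [e3]
              refine (norm_add_le _ _).trans ?_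
              rw [norm_mul, norm_mul, norm_pow, zz_norm, zz_norm, one_pow, one_mul, mul_one]
              push_cast
              linarith
          exact hc n
        have h4 := zz_sub h0
        calc (10 / 9 : ℝ) ^ (lg j + 1) * ‖zz j ^ n - zz (pr j) ^ n‖ ≤
            (10 / 9 : ℝ) ^ (lg j + 1) * (n * (2 * Real.pi / 2 ^ (lg j + 1))) := by
              gcongr
              exact h3.trans (by gcongr)
          _ = 2 * Real.pi * n * (5 / 9 : ℝ) ^ (lg j + 1) := by
            rw [show (5 / 9 : ℝ) = (10 / 9) / 2 by norm_num, div_pow (10 / 9 : ℝ) 2]; ring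
    · have h5 : (if j < 2 ^ k then 0 else (5 / 9 : ℝ) ^ (lg j + 1)) ≤ 1 := by
        split_ifs
        · exact zero_le_one
        · exact pow_le_one₀ (by norm_num) (by norm_num)
      exact mul_le_of_le_one_right (by positivity) h5
  have h1 : VV k x ≤ VV k ((TT ^ n) x) +
      ∑ i ∈ Finset.range (2 ^ k), ‖ph k i ((TT ^ n) x) - zz i ^ n * ph k i x‖ := by
    unfold VV
    rw [← Finset.sum_add_distrib]
    refine Finset.sum_le_sum fun i _ => ?_
    have h2 : ‖ph k i x‖ = ‖zz i ^ n * ph k i x‖ := by rw [norm_mul, hz1, one_mul]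
    rw [h2]
    have h3 := norm_sub_norm_le (zz i ^ n * ph k i x) (ph k i ((TT ^ n) x))
    rw [norm_sub_rev] at h3
    linarith
  linarith

lemma norm_TT_pow (n k : ℕ) (x : L1) :
    (9 / 10 : ℝ) ^ k / 2 * (VV k x - 2 * Real.pi * n * WW k x) ≤ ‖(TT ^ n) x‖ := by
  have h1 := VV_TT n k x
  have h2 := VV_le k ((TT ^ n) x)
  have h3 : (9 / 10 : ℝ) ^ k * (10 / 9 : ℝ) ^ k = 1 := by
    rw [← mul_pow]; norm_num
  have h4 : (0 : ℝ) < (9 / 10 : ℝ) ^ k := by positivity
  calc (9 / 10 : ℝ) ^ k / 2 * (VV k x - 2 * Real.pi * n * WW k x) ≤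
      (9 / 10 : ℝ) ^ k / 2 * (2 * (10 / 9 : ℝ) ^ k * ‖(TT ^ n) x‖) := by
        gcongr
        exact h1.trans h2
    _ = ((9 / 10 : ℝ) ^ k * (10 / 9 : ℝ) ^ k) * ‖(TT ^ n) x‖ := by ring
    _ = ‖(TT ^ n) x‖ := by rw [h3, one_mul]

lemma ph_split {k i : ℕ} (hi : i < 2 ^ k) (x : L1) :
    ph k i x = ph (k + 1) i x + ph (k + 1) (i + 2 ^ k) x := by
  have h : ph k i = ph (k + 1) i + ph (k + 1) (i + 2 ^ k) := by
    have hpow : 0 < 2 ^ k := by positivity
    have hj : ∀ j, ph k i (ee j) = (ph (k + 1) i + ph (k + 1) (i + 2 ^ k)) (ee j) := by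
      intro j
      show ph k i (ee j) = ph (k + 1) i (ee j) + ph (k + 1) (i + 2 ^ k) (ee j)
      rw [ph_ee, ph_ee, ph_ee]
      by_cases h0 : j = 0
      · simp only [cc, if_pos h0]
        rw [if_neg (show ¬ i + 2 ^ k = 0 by omega), add_zero]
      · simp only [cc, if_neg h0]
        by_cases h1 : lg j < k
        · have h2 : j < 2 ^ k := (lg_lt h0).1 h1
          have h3 := pr_lt h0
          rw [if_pos h1, if_pos (show lg j < k + 1 by omega), if_pos (show lg j < k + 1 by omega),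
            if_neg (show ¬ j = i + 2 ^ k by omega), if_neg (show ¬ pr j = i + 2 ^ k by omega)]
          ring
        · rw [if_neg h1]
          by_cases h2 : lg j < k + 1
          · have hlg : lg j = k := by omega
            have h3 : pr j + 2 ^ k = j := by have := pr_add h0; rwa [hlg] at this
            have h4 : pr j < 2 ^ k := by have := pr_lt_pow h0; rwa [hlg] at this
            rw [if_pos h2, if_pos h2, if_neg (show ¬ j = i by omega),
              if_neg (show ¬ pr j = i + 2 ^ k by omega)]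
            by_cases h5 : pr j = i
            · rw [if_pos h5, if_pos (show j = i + 2 ^ k by omega)]; ring
            · rw [if_neg h5, if_neg (show ¬ j = i + 2 ^ k by omega)]; ring
          · rw [if_neg h2, if_neg h2, add_zero]
    ext x
    have a1 := clm_bound (ph k i) x
    have a2 := clm_bound (ph (k + 1) i + ph (k + 1) (i + 2 ^ k)) x
    simp only [hj] at a1
    exact a1.unique a2
  rw [h]; rfl

lemma VV_mono_succ (k : ℕ) (x : L1) : VV k x ≤ VV (k + 1) x := by
  unfold VV
  rw [pow_succ, mul_two, Finset.sum_range_add, ← Finset.sum_add_distrib]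
  refine Finset.sum_le_sum fun i hi => ?_
  rw [ph_split (Finset.mem_range.1 hi), add_comm (2 ^ k) i]
  exact norm_add_le _ _

lemma VV_mono (x : L1) : Monotone fun k => VV k x := monotone_nat_of_le_succ fun k => VV_mono_succ k x

lemma ph_level {j : ℕ} (hj : j ≠ 0) (x : L1) :
    ph (lg j + 1) j x = (10 / 9 : ℂ) ^ (lg j + 1) * x j := by
  have h1 := clm_bound (ph (lg j + 1) j) x
  have h2 : HasSum (fun a => x a • ph (lg j + 1) j (ee a)) (x j • ph (lg j + 1) j (ee j)) := by
    refine hasSum_single j fun a ha => ?_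
    rw [ph_ee, cc]
    by_cases h0 : a = 0
    · rw [if_pos h0, if_neg hj, smul_zero]
    · rw [if_neg h0]
      by_cases h3 : lg a < lg j + 1
      · rw [if_pos h3, if_neg ha]
        have h4 : pr a ≠ j := by
          intro h5
          have := pr_lt_pow h0
          have h6 := pow_lg_le hj
          have h7 : 2 ^ lg a ≤ 2 ^ lg j := Nat.pow_le_pow_right (by norm_num) (by omega)
          omega
        rw [if_neg h4, sub_zero, mul_zero, smul_zero]
      · rw [if_neg h3, smul_zero]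
  rw [h1.unique h2, ph_ee, cc, if_neg hj, if_pos (Nat.lt_succ_self _), if_pos rfl,
    if_neg (pr_lt hj).ne, sub_zero, mul_one, smul_eq_mul, mul_comm]

lemma WW_step (k : ℕ) (x : L1) :
    WW k x ≤ WW (k + 1) x + (1 / 2 : ℝ) ^ (k + 1) * VV (k + 1) x := by
  have hlevel : ∀ j ∈ Finset.Ico (2 ^ k) (2 ^ (k + 1)), lg j = k := by
    intro j hj
    rw [Finset.mem_Ico] at hj
    have h0 : j ≠ 0 := by
      have : 0 < 2 ^ k := by positivity
      omega
    have h1 : lg j < k + 1 := (lg_lt h0).2 hj.2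
    have h2 : ¬ lg j < k := fun h => absurd ((lg_lt h0).1 h) (not_lt.2 hj.1)
    omega
  -- the difference is a finite sum
  have hdec : WW k x = WW (k + 1) x +
      ∑ j ∈ Finset.Ico (2 ^ k) (2 ^ (k + 1)), ‖x j‖ * (5 / 9 : ℝ) ^ (k + 1) := by
    have hfin : HasSum (fun j => if j ∈ Finset.Ico (2 ^ k) (2 ^ (k + 1)) then
        ‖x j‖ * (5 / 9 : ℝ) ^ (k + 1) else 0)
        (∑ j ∈ Finset.Ico (2 ^ k) (2 ^ (k + 1)), ‖x j‖ * (5 / 9 : ℝ) ^ (k + 1)) := by
      have h : HasSum (fun j => if j ∈ Finset.Ico (2 ^ k) (2 ^ (k + 1)) then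
          ‖x j‖ * (5 / 9 : ℝ) ^ (k + 1) else 0)
          (∑ j ∈ Finset.Ico (2 ^ k) (2 ^ (k + 1)),
            if j ∈ Finset.Ico (2 ^ k) (2 ^ (k + 1)) then ‖x j‖ * (5 / 9 : ℝ) ^ (k + 1) else 0) :=
        hasSum_sum_of_ne_finset_zero (fun j hj => if_neg hj)
      rwa [Finset.sum_congr rfl (fun j hj => if_pos hj)] at h
    have hsum := (WW_summable (k + 1) x).hasSum.add hfin
    have hfun : (fun j => ‖x j‖ * (if j < 2 ^ k then 0 else (5 / 9 : ℝ) ^ (lg j + 1))) =
        fun j => ‖x j‖ * (if j < 2 ^ (k + 1) then 0 else (5 / 9 : ℝ) ^ (lg j + 1)) +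
          (if j ∈ Finset.Ico (2 ^ k) (2 ^ (k + 1)) then ‖x j‖ * (5 / 9 : ℝ) ^ (k + 1) else 0) := by
      funext j
      have hpow : 2 ^ (k + 1) = 2 ^ k * 2 := pow_succ _ _
      by_cases h1 : j < 2 ^ k
      · have h2 : j < 2 ^ (k + 1) := by omega
        have h3 : ¬ j ∈ Finset.Ico (2 ^ k) (2 ^ (k + 1)) := by
          rw [Finset.mem_Ico]; omega
        rw [if_pos h1, if_pos h2, if_neg h3, mul_zero, add_zero]
      · by_cases h2 : j < 2 ^ (k + 1)
        · have h3 : j ∈ Finset.Ico (2 ^ k) (2 ^ (k + 1)) := by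
            rw [Finset.mem_Ico]; omega
          rw [if_neg h1, if_pos h2, if_pos h3, hlevel j h3, mul_zero, zero_add]
        · have h3 : ¬ j ∈ Finset.Ico (2 ^ k) (2 ^ (k + 1)) := by
            rw [Finset.mem_Ico]; omega
          rw [if_neg h1, if_neg h2, if_neg h3, add_zero]
    unfold WW
    rw [hfun]
    exact hsum.tsum_eq
  rw [hdec]
  have h1 : ∑ j ∈ Finset.Ico (2 ^ k) (2 ^ (k + 1)), ‖x j‖ * (5 / 9 : ℝ) ^ (k + 1) ≤
      (1 / 2 : ℝ) ^ (k + 1) * VV (k + 1) x := by
    unfold VV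
    rw [Finset.mul_sum]
    calc ∑ j ∈ Finset.Ico (2 ^ k) (2 ^ (k + 1)), ‖x j‖ * (5 / 9 : ℝ) ^ (k + 1)
        = ∑ j ∈ Finset.Ico (2 ^ k) (2 ^ (k + 1)), (1 / 2 : ℝ) ^ (k + 1) * ‖ph (k + 1) j x‖ := by
          refine Finset.sum_congr rfl fun j hj => ?_
          have hl := hlevel j hj
          have h0 : j ≠ 0 := by
            rw [Finset.mem_Ico] at hj
            have : 0 < 2 ^ k := by positivity
            omega
          have h2 := ph_level h0 x
          rw [hl] at h2
          have h9 : ‖(10 / 9 : ℂ)‖ = 10 / 9 := by norm_num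
          rw [h2, norm_mul, norm_pow, h9, ← mul_assoc, ← mul_pow, mul_comm]
          norm_num
      _ ≤ _ := by
          refine Finset.sum_le_sum_of_subset_of_nonneg ?_ fun _ _ _ => by positivity
          intro j hj
          rw [Finset.mem_Ico] at hj
          exact Finset.mem_range.2 hj.2
  linarith

end Q81.Crit
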