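import Pool.Agent.Q81.Crit6

/-!
# Khinchin's inequality in `ℓ¹` and divergence of the orbit series
-/

namespace Q81.Crit

open Filter Topology Set

/-! ### Good levels -/

lemma good_level {x : L1} (k₀ : ℕ) : ∃ k ≥ k₀, WW k x ≤ 2 * (1 / 2 : ℝ) ^ k * VV k x := by
  by_contra hcon
  push Not at hcon
  have h1 : ∀ m : ℕ, WW k₀ x ≤ (3 / 2 : ℝ) ^ m * WW (k₀ + m) x := by
    intro m
    induction m with
    | zero => simp
    | succ m ih =>
      refine ih.trans ?_
      have h2 := WW_step (k₀ + m) x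
      have h3 := hcon (k₀ + m + 1) (by omega)
      have h4 : WW (k₀ + m) x ≤ 3 / 2 * WW (k₀ + m + 1) x := by linarith
      calc (3 / 2 : ℝ) ^ m * WW (k₀ + m) x ≤ (3 / 2 : ℝ) ^ m * (3 / 2 * WW (k₀ + m + 1) x) := by
            gcongr
        _ = (3 / 2 : ℝ) ^ (m + 1) * WW (k₀ + (m + 1)) x := by rw [pow_succ, add_assoc]; ring
  have h2 : ∀ m : ℕ, WW k₀ x ≤ (5 / 6 : ℝ) ^ m * ‖x‖ := by
    intro m
    refine (h1 m).trans ?_
    have h3 := WW_le (k₀ + m) x
    have h4 : (5 / 9 : ℝ) ^ (k₀ + m + 1) ≤ (5 / 9) ^ m :=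
      pow_le_pow_of_le_one (by norm_num) (by norm_num) (by omega)
    calc (3 / 2 : ℝ) ^ m * WW (k₀ + m) x ≤ (3 / 2 : ℝ) ^ m * ((5 / 9) ^ m * ‖x‖) := by
          gcongr
          exact h3.trans (by gcongr)
      _ = (5 / 6 : ℝ) ^ m * ‖x‖ := by
          rw [← mul_assoc, ← mul_pow]; norm_num
  have h3 : WW k₀ x ≤ 0 := by
    have ht : Tendsto (fun m : ℕ => (5 / 6 : ℝ) ^ m * ‖x‖) atTop (𝓝 (0 * ‖x‖)) :=
      (tendsto_pow_atTop_nhds_zero_of_lt_one (by norm_num) (by norm_num)).mul_const _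
    rw [zero_mul] at ht
    exact ge_of_tendsto' ht h2
  have h4 := hcon k₀ le_rfl
  have h5 : 0 ≤ 2 * (1 / 2 : ℝ) ^ k₀ * VV k₀ x := by
    have := VV_nonneg k₀ x
    positivity
  linarith

lemma exists_VV_pos {x : L1} (hx : x ≠ 0) : ∃ k₁ : ℕ, ∃ v > 0, ∀ k ≥ k₁, v ≤ VV k x := by
  obtain ⟨j, hj⟩ : ∃ j, x j ≠ 0 := by
    by_contra h
    push Not at h
    exact hx (lp.ext (funext h))
  have key : ∃ k₁ i, i < 2 ^ k₁ ∧ 0 < ‖ph k₁ i x‖ := by
    by_cases h0 : j = 0
    · refine ⟨0, 0, by norm_num, ?_⟩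
      have h1 := clm_bound (ph 0 0) x
      have h2 : HasSum (fun a => x a • ph 0 0 (ee a)) (x 0 • ph 0 0 (ee 0)) := by
        refine hasSum_single 0 fun a ha => ?_
        rw [ph_ee, cc, if_neg ha, if_neg (Nat.not_lt_zero _), smul_zero]
      rw [h1.unique h2, ph_ee, cc, if_pos rfl, if_pos rfl, smul_eq_mul, mul_one, norm_pos_iff]
      rw [h0] at hj
      exact hj
    · refine ⟨lg j + 1, j, lt_pow_lg j, ?_⟩
      rw [ph_level h0, norm_mul, norm_pow]
      have h9 : ‖(10 / 9 : ℂ)‖ = 10 / 9 := by norm_num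
      rw [h9]
      have : 0 < ‖x j‖ := norm_pos_iff.2 hj
      positivity
  obtain ⟨k₁, i, hi, hpos⟩ := key
  refine ⟨k₁, _, hpos, fun k hk => ?_⟩
  refine le_trans ?_ (VV_mono x hk)
  exact Finset.single_le_sum (f := fun i => ‖ph k₁ i x‖) (fun _ _ => norm_nonneg _)
    (Finset.mem_range.2 hi)

/-- The lower bound for the orbit at good levels. -/
lemma orbit_lower {x : L1} (hx : x ≠ 0) : ∃ v > 0, ∀ k₀ : ℕ, ∃ k ≥ k₀, ∀ n < 2 ^ (k - 5),
    (9 / 10 : ℝ) ^ k * v ≤ ‖(TT ^ n) x‖ := by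
  obtain ⟨k₁, v, hv, hV⟩ := exists_VV_pos hx
  refine ⟨v / 4, by positivity, fun k₀ => ?_⟩
  obtain ⟨k, hk, hW⟩ := good_level (x := x) (max (max k₀ k₁) 5)
  have hk0 : k₀ ≤ k := (le_max_left _ _).trans ((le_max_left _ _).trans hk)
  have hk1 : k₁ ≤ k := (le_max_right _ _).trans ((le_max_left _ _).trans hk)
  have hk5 : 5 ≤ k := (le_max_right _ _).trans hk
  refine ⟨k, hk0, fun n hn => ?_⟩
  have h1 := norm_TT_pow n k x
  have h2 := hV k hk1
  have h3 : (n : ℝ) * 32 ≤ 2 ^ k := by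
    have : n * 32 ≤ 2 ^ k := by
      have e : 2 ^ k = 2 ^ (k - 5) * 2 ^ 5 := by rw [← pow_add]; congr 1; omega
      rw [e]; omega
    exact_mod_cast this
  have hpi := Real.pi_lt_d2
  have hpi0 := Real.pi_pos
  have h2k : (1 / 2 : ℝ) ^ k * 2 ^ k = 1 := by rw [← mul_pow]; norm_num
  have hVk := VV_nonneg k x
  have h4 : 2 * Real.pi * n * WW k x ≤ VV k x / 2 := by
    calc 2 * Real.pi * n * WW k x ≤ 2 * Real.pi * n * (2 * (1 / 2 : ℝ) ^ k * VV k x) := by
          gcongr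
      _ = (Real.pi / 8) * ((n : ℝ) * 32 * (1 / 2 : ℝ) ^ k) * VV k x := by ring
      _ ≤ (Real.pi / 8) * (2 ^ k * (1 / 2 : ℝ) ^ k) * VV k x := by gcongr
      _ = (Real.pi / 8) * VV k x := by rw [mul_comm ((2 : ℝ) ^ k), h2k]; ring
      _ ≤ (1 / 2) * VV k x := mul_le_mul_of_nonneg_right (by linarith) hVk
      _ = VV k x / 2 := by ring
  have h9 : (0 : ℝ) < (9 / 10 : ℝ) ^ k := by positivity
  calc (9 / 10 : ℝ) ^ k * (v / 4) = (9 / 10 : ℝ) ^ k / 2 * (v / 2) := by ring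
    _ ≤ (9 / 10 : ℝ) ^ k / 2 * (VV k x - 2 * Real.pi * n * WW k x) := by
        gcongr
        linarith
    _ ≤ _ := h1

/-! ### Khinchin -/

/-- signs -/
def sg (b : Bool) : ℝ := if b then 1 else -1

lemma sg_sq (b : Bool) : sg b ^ 2 = 1 := by cases b <;> simp [sg]

lemma riesz (N : ℕ) (t : Fin N → ℝ) (m : Fin N) :
    ∑ e : Fin N → Bool, (sg (e m) : ℂ) * ∏ n, (1 + Complex.I * t n * sg (e n)) =
      2 ^ N * (Complex.I * t m) := by
  classical
  have h1 : ∀ e : Fin N → Bool, (sg (e m) : ℂ) * ∏ n, (1 + Complex.I * t n * sg (e n)) =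
      ∏ n, ((if n = m then (sg (e n) : ℂ) else 1) * (1 + Complex.I * t n * sg (e n))) := by
    intro e
    rw [Finset.prod_mul_distrib, Finset.prod_ite_eq']
    simp
  rw [Finset.sum_congr rfl fun e _ => h1 e]
  have h2 := Finset.prod_univ_sum (fun _ : Fin N => (Finset.univ : Finset Bool))
    (fun n b => (if n = m then (sg b : ℂ) else 1) * (1 + Complex.I * t n * sg b))
  rw [Fintype.piFinset_univ] at h2
  rw [← h2]
  have h3 : ∀ n : Fin N, ∑ b : Bool, (if n = m then (sg b : ℂ) else 1) *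
      (1 + Complex.I * t n * sg b) = 2 * (if n = m then Complex.I * t n else 1) := by
    intro n
    rw [Fintype.sum_bool]
    by_cases h : n = m
    · simp only [if_pos h, sg]
      push_cast
      simp
      ring
    · simp only [if_neg h, sg]
      push_cast
      simp
      ring
  rw [Finset.prod_congr rfl fun n _ => h3 n, Finset.prod_mul_distrib, Finset.prod_ite_eq']
  simp

lemma khinchin_real {N : ℕ} (hN : 0 < N) (a : Fin N → ℝ) :
    2 ^ N * ∑ n, |a n| ≤ 2 * Real.sqrt N * ∑ e : Fin N → Bool, |∑ n, sg (e n) * a n| := by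
  have hN' : (0 : ℝ) < N := by exact_mod_cast hN
  have hs : 0 < Real.sqrt N := Real.sqrt_pos.2 hN'
  have hss : Real.sqrt N * Real.sqrt N = N := Real.mul_self_sqrt hN'.le
  set t : Fin N → ℝ := fun n => SignType.sign (a n) / Real.sqrt N with ht
  -- the product is bounded
  have hprod : ∀ e : Fin N → Bool, ‖∏ n, (1 + Complex.I * t n * sg (e n))‖ ≤ 2 := by
    intro e
    rw [norm_prod]
    have h1 : (∏ n, ‖1 + Complex.I * t n * sg (e n)‖) ^ 2 ≤ 2 ^ 2 := by
      rw [← Finset.prod_pow]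
      have h2 : ∀ n ∈ Finset.univ, ‖1 + Complex.I * t n * sg (e n)‖ ^ 2 ≤ Real.exp (1 / N) := by
        intro n _
        have e1 : (1 + Complex.I * t n * sg (e n) : ℂ) = ((1 : ℝ) : ℂ) + ((t n * sg (e n) : ℝ) : ℂ) * Complex.I := by
          push_cast; ring
        rw [e1, ← Complex.normSq_eq_norm_sq, Complex.normSq_add_mul_I]
        have e2 : (t n * sg (e n)) ^ 2 ≤ 1 / N := by
          rw [mul_pow, sg_sq, mul_one, ht]
          simp only
          rw [div_pow, Real.sq_sqrt hN'.le]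
          gcongr
          rcases SignType.trichotomy (SignType.sign (a n)) with h | h | h <;> rw [h] <;> norm_num
        have := Real.add_one_le_exp (1 / (N : ℝ))
        linarith
      refine (Finset.prod_le_prod (fun _ _ => by positivity) h2).trans ?_
      rw [Finset.prod_const, Finset.card_univ, Fintype.card_fin, ← Real.exp_nat_mul]
      have : (N : ℝ) * (1 / N) = 1 := by field_simp
      rw [this]
      have := Real.exp_one_lt_d9
      linarith
    exact (pow_le_pow_iff_left₀ (Finset.prod_nonneg fun _ _ => norm_nonneg _) (by norm_num)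
      (by norm_num)).1 h1
  -- the duality
  have hid : ∑ e : Fin N → Bool, (∑ n, (sg (e n) : ℂ) * a n) *
      ∏ n, (1 + Complex.I * t n * sg (e n)) = 2 ^ N * (Complex.I * ∑ n, (a n : ℂ) * t n) := by
    calc ∑ e : Fin N → Bool, (∑ n, (sg (e n) : ℂ) * a n) * ∏ n, (1 + Complex.I * t n * sg (e n))
        = ∑ e : Fin N → Bool, ∑ m, (a m : ℂ) * ((sg (e m) : ℂ) *
            ∏ n, (1 + Complex.I * t n * sg (e n))) := by
          refine Finset.sum_congr rfl fun e _ => ?_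
          rw [Finset.sum_mul]
          exact Finset.sum_congr rfl fun m _ => by ring
      _ = ∑ m, (a m : ℂ) * ∑ e : Fin N → Bool, ((sg (e m) : ℂ) *
            ∏ n, (1 + Complex.I * t n * sg (e n))) := by
          rw [Finset.sum_comm]
          exact Finset.sum_congr rfl fun m _ => by rw [Finset.mul_sum]
      _ = ∑ m, (a m : ℂ) * (2 ^ N * (Complex.I * t m)) := by
          exact Finset.sum_congr rfl fun m _ => by rw [riesz]
      _ = 2 ^ N * (Complex.I * ∑ n, (a n : ℂ) * t n) := by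
          rw [Finset.mul_sum, Finset.mul_sum]
          exact Finset.sum_congr rfl fun m _ => by ring
  have hat : ∑ n, (a n : ℂ) * t n = ((∑ n, |a n|) / Real.sqrt N : ℝ) := by
    push_cast
    rw [Finset.sum_div]
    refine Finset.sum_congr rfl fun n _ => ?_
    rw [ht]
    simp only
    have h3 : a n * (SignType.sign (a n) : ℝ) = |a n| := self_mul_sign (a n)
    rw [← h3]
    push_cast
    ring
  rw [hat] at hid
  have h4 := congrArg norm hid
  have h5 : ‖(2 : ℂ) ^ N * (Complex.I * (((∑ n, |a n|) / Real.sqrt N : ℝ) : ℂ))‖ =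
      2 ^ N * ((∑ n, |a n|) / Real.sqrt N) := by
    rw [norm_mul, norm_mul, norm_pow, Complex.norm_I, one_mul, Complex.norm_real, Real.norm_eq_abs,
      abs_of_nonneg (div_nonneg (Finset.sum_nonneg fun _ _ => abs_nonneg _) hs.le)]
    norm_num
  rw [h5] at h4
  have h6 : 2 ^ N * ((∑ n, |a n|) / Real.sqrt N) ≤
      ∑ e : Fin N → Bool, |∑ n, sg (e n) * a n| * 2 := by
    rw [← h4]
    refine (norm_sum_le _ _).trans (Finset.sum_le_sum fun e _ => ?_)
    rw [norm_mul]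
    have e1 : (∑ n, (sg (e n) : ℂ) * a n) = ((∑ n, sg (e n) * a n : ℝ) : ℂ) := by push_cast; rfl
    rw [e1, Complex.norm_real, Real.norm_eq_abs]
    exact mul_le_mul_of_nonneg_left (hprod e) (abs_nonneg _)
  rw [← Finset.sum_mul] at h6
  calc 2 ^ N * ∑ n, |a n| = Real.sqrt N * (2 ^ N * ((∑ n, |a n|) / Real.sqrt N)) := by
        field_simp
    _ ≤ Real.sqrt N * ((∑ e : Fin N → Bool, |∑ n, sg (e n) * a n|) * 2) := by gcongr
    _ = _ := by ring

lemma khinchin_complex {N : ℕ} (hN : 0 < N) (a : Fin N → ℂ) :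
    2 ^ N * ∑ n, ‖a n‖ ≤ 4 * Real.sqrt N * ∑ e : Fin N → Bool, ‖∑ n, (sg (e n) : ℂ) * a n‖ := by
  have h1 := khinchin_real hN (fun n => (a n).re)
  have h2 := khinchin_real hN (fun n => (a n).im)
  have h3 : ∑ n, ‖a n‖ ≤ ∑ n, |(a n).re| + ∑ n, |(a n).im| := by
    rw [← Finset.sum_add_distrib]
    exact Finset.sum_le_sum fun n _ => Complex.norm_le_abs_re_add_abs_im _
  have h4 : ∑ e : Fin N → Bool, |∑ n, sg (e n) * (a n).re| ≤
      ∑ e : Fin N → Bool, ‖∑ n, (sg (e n) : ℂ) * a n‖ := by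
    refine Finset.sum_le_sum fun e _ => ?_
    have : (∑ n, (sg (e n) : ℂ) * a n).re = ∑ n, sg (e n) * (a n).re := by
      rw [Complex.re_sum]
      exact Finset.sum_congr rfl fun n _ => by rw [Complex.re_ofReal_mul]
    rw [← this]
    exact Complex.abs_re_le_norm _
  have h5 : ∑ e : Fin N → Bool, |∑ n, sg (e n) * (a n).im| ≤
      ∑ e : Fin N → Bool, ‖∑ n, (sg (e n) : ℂ) * a n‖ := by
    refine Finset.sum_le_sum fun e _ => ?_
    have : (∑ n, (sg (e n) : ℂ) * a n).im = ∑ n, sg (e n) * (a n).im := by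
      rw [Complex.im_sum]
      exact Finset.sum_congr rfl fun n _ => by rw [Complex.im_ofReal_mul]
    rw [← this]
    exact Complex.abs_im_le_norm _
  have hs : 0 ≤ Real.sqrt N := Real.sqrt_nonneg _
  calc 2 ^ N * ∑ n, ‖a n‖ ≤ 2 ^ N * (∑ n, |(a n).re| + ∑ n, |(a n).im|) := by gcongr
    _ = 2 ^ N * ∑ n, |(a n).re| + 2 ^ N * ∑ n, |(a n).im| := by ring
    _ ≤ 2 * Real.sqrt N * ∑ e : Fin N → Bool, |∑ n, sg (e n) * (a n).re| +
        2 * Real.sqrt N * ∑ e : Fin N → Bool, |∑ n, sg (e n) * (a n).im| := add_le_add h1 h2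
    _ ≤ 2 * Real.sqrt N * ∑ e : Fin N → Bool, ‖∑ n, (sg (e n) : ℂ) * a n‖ +
        2 * Real.sqrt N * ∑ e : Fin N → Bool, ‖∑ n, (sg (e n) : ℂ) * a n‖ := by gcongr
    _ = _ := by ring

lemma L1.sum_apply {ι : Type*} (s : Finset ι) (y : ι → L1) (j : ℕ) :
    (∑ i ∈ s, y i) j = ∑ i ∈ s, y i j := by
  classical
  induction s using Finset.induction_on with
  | empty => simp
  | insert a s ha ih => rw [Finset.sum_insert ha, Finset.sum_insert ha, ← ih]; rfl

lemma sum_norm_eq {ι : Type*} (s : Finset ι) (z : ι → L1) :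
    ∑ i ∈ s, ‖z i‖ = ∑' j, ∑ i ∈ s, ‖z i j‖ := by
  rw [Summable.tsum_finsetSum fun i _ => (z i).summable]
  exact Finset.sum_congr rfl fun i _ => L1.norm_eq _

lemma summable_sum_norm {ι : Type*} (s : Finset ι) (z : ι → L1) :
    Summable fun j => ∑ i ∈ s, ‖z i j‖ := summable_sum fun i _ => (z i).summable

lemma khinchin_L1 {N : ℕ} (hN : 0 < N) (y : Fin N → L1) (z : (Fin N → Bool) → L1)
    (hz : ∀ e, z e = ∑ n, (sg (e n) : ℂ) • y n) :
    2 ^ N * ∑ n, ‖y n‖ ≤ 4 * Real.sqrt N * ∑ e : Fin N → Bool, ‖z e‖ := by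
  rw [sum_norm_eq, sum_norm_eq, ← tsum_mul_left, ← tsum_mul_left]
  refine Summable.tsum_le_tsum (fun j => ?_)
    ((summable_sum_norm Finset.univ y).mul_left _) ((summable_sum_norm Finset.univ z).mul_left _)
  have h3 := khinchin_complex hN (fun n => y n j)
  refine h3.trans (le_of_eq ?_)
  have h4 : ∀ e : Fin N → Bool, ∑ n, (sg (e n) : ℂ) * y n j = z e j := by
    intro e
    rw [hz e, L1.sum_apply]
    rfl
  simp only [h4]

lemma summable_bounded {y : ℕ → L1} (hy : Summable y) :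
    ∃ M : ℝ, 0 < M ∧ ∀ s : Finset ℕ, ‖∑ n ∈ s, y n‖ ≤ M := by
  classical
  obtain ⟨s₀, hs₀⟩ := summable_iff_vanishing_norm.1 hy 1 one_pos
  refine ⟨1 + ∑ n ∈ s₀, ‖y n‖, by positivity, fun s => ?_⟩
  have e : ∑ n ∈ s, y n = ∑ n ∈ s \ s₀, y n + ∑ n ∈ s ∩ s₀, y n := by
    rw [← Finset.sum_union (by
      rw [Finset.disjoint_left]
      intro a ha hb
      exact (Finset.mem_sdiff.1 ha).2 (Finset.mem_inter.1 hb).2)]
    rw [Finset.sdiff_union_inter]
  rw [e]
  refine (norm_add_le _ _).trans (add_le_add ?_ ?_)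
  · exact (hs₀ _ Finset.sdiff_disjoint).le
  · refine (norm_sum_le _ _).trans ?_
    exact Finset.sum_le_sum_of_subset_of_nonneg Finset.inter_subset_right
      fun _ _ _ => norm_nonneg _

lemma summable_sqrt {y : ℕ → L1} (hy : Summable y) :
    ∃ M : ℝ, 0 < M ∧ ∀ N : ℕ, 0 < N → ∑ n ∈ Finset.range N, ‖y n‖ ≤ M * Real.sqrt N := by
  classical
  obtain ⟨M, hM, hb⟩ := summable_bounded hy
  refine ⟨8 * M, by positivity, fun N hN => ?_⟩
  have h1 := khinchin_L1 hN (fun n : Fin N => y n) (fun e => ∑ n : Fin N, (sg (e n) : ℂ) • y (n : ℕ))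
    (fun _ => rfl)
  have h2 : ∀ e : Fin N → Bool, ‖∑ n, (sg (e n) : ℂ) • y (n : ℕ)‖ ≤ 2 * M := by
    intro e
    have e1 : ∑ n : Fin N, (sg (e n) : ℂ) • y (n : ℕ) =
        ∑ n ∈ Finset.univ.filter (fun n : Fin N => e n = true), y (n : ℕ) -
          ∑ n ∈ Finset.univ.filter (fun n : Fin N => ¬ e n = true), y (n : ℕ) := by
      rw [← Finset.sum_filter_add_sum_filter_not Finset.univ (fun n : Fin N => e n = true),
        sub_eq_add_neg, ← Finset.sum_neg_distrib]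
      congr 1
      · refine Finset.sum_congr rfl fun n hn => ?_
        rw [(Finset.mem_filter.1 hn).2]
        simp [sg]
      · refine Finset.sum_congr rfl fun n hn => ?_
        have : e n = false := by simpa using (Finset.mem_filter.1 hn).2
        rw [this]
        simp [sg]
    have e2 : ∀ p : Fin N → Prop, ∀ _ : DecidablePred p,
        ‖∑ n ∈ Finset.univ.filter p, y (n : ℕ)‖ ≤ M := by
      intro p hp
      have := hb ((Finset.univ.filter p).map Fin.valEmbedding)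
      rwa [Finset.sum_map] at this
    rw [e1]
    refine (norm_sub_le _ _).trans ?_
    have h3 := e2 (fun n => e n = true) inferInstance
    have h4 := e2 (fun n => ¬ e n = true) inferInstance
    linarith
  have h3 : ∑ e : Fin N → Bool, ‖∑ n, (sg (e n) : ℂ) • y (n : ℕ)‖ ≤ 2 ^ N * (2 * M) := by
    refine (Finset.sum_le_sum fun e _ => h2 e).trans ?_
    rw [Finset.sum_const, Finset.card_univ, nsmul_eq_mul]
    simp
  have h4 : (0 : ℝ) < 2 ^ N := by positivity
  have h5 : 2 ^ N * ∑ n : Fin N, ‖y (n : ℕ)‖ ≤ 2 ^ N * (8 * M * Real.sqrt N) := by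
    calc 2 ^ N * ∑ n : Fin N, ‖y (n : ℕ)‖ ≤ 4 * Real.sqrt N * (2 ^ N * (2 * M)) :=
          h1.trans (by gcongr)
      _ = _ := by ring
  have h6 := le_of_mul_le_mul_left h5 h4
  rwa [Fin.sum_univ_eq_sum_range (fun n => ‖y n‖)] at h6

/-- No non-zero vector has a summable orbit. -/
theorem not_summable {x : L1} (hx : x ≠ 0) : ¬ Summable fun n : ℕ => (TT ^ n) x := by
  intro hs
  obtain ⟨M, hM, hb⟩ := summable_sqrt hs
  obtain ⟨v, hv, hlow⟩ := orbit_lower hx
  obtain ⟨k₀, hk₀⟩ := pow_unbounded_of_one_lt (32 * (M / v) ^ 2) (show (1 : ℝ) < 162 / 100 by norm_num)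
  obtain ⟨k, hk, hlow⟩ := hlow (max k₀ 5)
  have hkk : k₀ ≤ k := (le_max_left _ _).trans hk
  have hk5 : 5 ≤ k := (le_max_right _ _).trans hk
  set N := 2 ^ (k - 5) with hN
  have hN0 : 0 < N := by positivity
  have hNR : (0 : ℝ) < N := by exact_mod_cast hN0
  have h1 := hb N hN0
  have h2 : (N : ℝ) * ((9 / 10 : ℝ) ^ k * v) ≤ ∑ n ∈ Finset.range N, ‖(TT ^ n) x‖ := by
    have := Finset.sum_le_sum (fun n (hn : n ∈ Finset.range N) => hlow n (Finset.mem_range.1 hn))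
    rwa [Finset.sum_const, Finset.card_range, nsmul_eq_mul] at this
  have hs1 : Real.sqrt N * Real.sqrt N = N := Real.mul_self_sqrt hNR.le
  have hs0 : 0 < Real.sqrt N := Real.sqrt_pos.2 hNR
  have h3 : Real.sqrt N * (9 / 10 : ℝ) ^ k * v ≤ M := by
    have h4 : Real.sqrt N * (Real.sqrt N * (9 / 10 : ℝ) ^ k * v) ≤ Real.sqrt N * M := by
      calc Real.sqrt N * (Real.sqrt N * (9 / 10 : ℝ) ^ k * v) =
          (Real.sqrt N * Real.sqrt N) * ((9 / 10 : ℝ) ^ k * v) := by ring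
        _ = N * ((9 / 10 : ℝ) ^ k * v) := by rw [hs1]
        _ ≤ M * Real.sqrt N := h2.trans h1
        _ = _ := by ring
    exact le_of_mul_le_mul_left h4 hs0
  have h4 : Real.sqrt N * (9 / 10 : ℝ) ^ k ≤ M / v := by rwa [le_div_iff₀ hv]
  have h5 : (Real.sqrt N * (9 / 10 : ℝ) ^ k) ^ 2 ≤ (M / v) ^ 2 :=
    pow_le_pow_left₀ (by positivity) h4 2
  have h6 : (Real.sqrt N * (9 / 10 : ℝ) ^ k) ^ 2 = (162 / 100 : ℝ) ^ k / 32 := by
    rw [mul_pow, Real.sq_sqrt hNR.le, ← pow_mul, mul_comm k 2, pow_mul, hN]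
    push_cast
    have e : (2 : ℝ) ^ k = 2 ^ (k - 5) * 32 := by
      have : (32 : ℝ) = 2 ^ 5 := by norm_num
      rw [this, ← pow_add]; congr 1; omega
    have e2 : (162 / 100 : ℝ) ^ k = 2 ^ k * ((9 / 10) ^ 2) ^ k := by
      rw [← mul_pow]; norm_num
    rw [e2, e]; ring
  rw [h6] at h5
  have h7 : (162 / 100 : ℝ) ^ k₀ ≤ (162 / 100) ^ k := pow_le_pow_right₀ (by norm_num) hkk
  linarith

end Q81.Crit
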