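import Mathlib

/-!
# Achievement sets: gaps and components
-/

namespace Q81.Cval

open MeasureTheory Set Filter Topology

/-- subsums -/
noncomputable def ss (x : ℕ → ℝ) (S : Set ℕ) : ℝ := ∑' n, S.indicator x n

/-- The achievement set of the terms with indices in `I`. -/
def ach (x : ℕ → ℝ) (I : Set ℕ) : Set ℝ := {y | ∃ S ⊆ I, y = ss x S}

variable {x : ℕ → ℝ}

lemma summable_ind (hs : Summable x) (S : Set ℕ) : Summable (S.indicator x) := hs.indicator S

lemma ss_union (hs : Summable x) {S T : Set ℕ} (h : Disjoint S T) :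
    ss x (S ∪ T) = ss x S + ss x T := by
  unfold ss
  rw [← (summable_ind hs S).tsum_add (summable_ind hs T), indicator_union_of_disjoint h]

lemma ss_mono (h0 : ∀ n, 0 ≤ x n) (hs : Summable x) {S T : Set ℕ} (h : S ⊆ T) :
    ss x S ≤ ss x T := by
  refine Summable.tsum_le_tsum (fun n => ?_) (summable_ind hs S) (summable_ind hs T)
  exact indicator_le_indicator_of_subset h h0 n

lemma ss_nonneg (h0 : ∀ n, 0 ≤ x n) (S : Set ℕ) : 0 ≤ ss x S :=
  tsum_nonneg fun n => indicator_nonneg (fun n _ => h0 n) n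

lemma ss_singleton (n : ℕ) : ss x {n} = x n := by
  unfold ss
  rw [tsum_eq_single n]
  · simp
  · intro m hm
    simp [hm]

lemma ss_empty : ss x ∅ = 0 := by simp [ss]

/-- the map from sequences of bits to subsets -/
def toSet (c : ℕ → Bool) : Set ℕ := {n | c n = true}

lemma continuous_ss (h0 : ∀ n, 0 ≤ x n) (hs : Summable x) :
    Continuous fun c : ℕ → Bool => ss x (toSet c) := by
  unfold ss
  refine continuous_tsum (u := x) (fun n => ?_) hs (fun n c => ?_)
  · have h1 : (fun c : ℕ → Bool => (toSet c).indicator x n) =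
        (fun b : Bool => if b then x n else 0) ∘ fun c => c n := by
      funext c
      by_cases h : c n = true
      · have h' : n ∈ toSet c := h
        simp [Function.comp, indicator_of_mem h', h]
      · have h' : n ∉ toSet c := h
        simp [Function.comp, indicator_of_notMem h', h]
    rw [h1]
    exact continuous_of_discreteTopology.comp (continuous_apply n)
  · rw [Real.norm_eq_abs, abs_of_nonneg (indicator_nonneg (fun n _ => h0 n) n)]
    exact indicator_le_self' (fun _ _ => h0 n) n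

lemma exists_bits (S : Set ℕ) : ∃ c : ℕ → Bool, toSet c = S := by
  classical
  refine ⟨fun n => decide (n ∈ S), ?_⟩
  ext n
  simp [toSet]

lemma isCompact_ach (h0 : ∀ n, 0 ≤ x n) (hs : Summable x) (I : Set ℕ) : IsCompact (ach x I) := by
  have h1 : ach x I = (fun c : ℕ → Bool => ss x (toSet c)) '' {c | ∀ n, n ∉ I → c n = false} := by
    ext y
    constructor
    · rintro ⟨S, hS, rfl⟩
      obtain ⟨c, rfl⟩ := exists_bits S
      refine ⟨c, fun n hn => ?_, rfl⟩
      by_contra h
      exact hn (hS (by simpa [toSet] using h))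
    · rintro ⟨c, hc, rfl⟩
      refine ⟨toSet c, fun n hn => ?_, rfl⟩
      by_contra h
      have := hc n h
      rw [toSet, mem_ofPred_eq, this] at hn
      exact absurd hn (by simp)
  rw [h1]
  refine IsCompact.image ?_ (continuous_ss h0 hs)
  apply IsClosed.isCompact
  have : {c : ℕ → Bool | ∀ n, n ∉ I → c n = false} = ⋂ n, ⋂ (_ : n ∉ I), {c | c n = false} := by
    ext c; simp
  rw [this]
  exact isClosed_iInter fun n => isClosed_iInter fun _ =>
    isClosed_eq (continuous_apply n) continuous_const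

/-- tails -/
noncomputable def tl (x : ℕ → ℝ) (n : ℕ) : ℝ := ss x (Ioi n)

/-- The gap lemma: a right endpoint of a gap is a limit of gaps from the right. -/
lemma gap (hpos : ∀ n, 0 < x n) (hanti : Antitone x) (hs : Summable x)
    (hinf : ∀ N, ∃ n, N ≤ n ∧ tl x n < x n) {q c : ℝ} (hq : q ∈ ach x univ) (hc : c < q)
    (hcq : ∀ y, c < y → y < q → y ∉ ach x univ) {δ : ℝ} (hδ : 0 < δ) :
    ∃ y, q < y ∧ y < q + δ ∧ y ∉ ach x univ := by
  have h0 : ∀ n, 0 ≤ x n := fun n => (hpos n).le
  have hx0 : Tendsto x atTop (𝓝 0) := hs.tendsto_atTop_zero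
  -- representations of `q` are finite
  have hfin : ∀ S : Set ℕ, ss x S = q → S.Finite := by
    intro S hS
    by_contra hinf
    have h1 : ∀ᶠ n in atTop, x n < q - c := hx0.eventually_lt_const (by linarith)
    obtain ⟨N, hN⟩ := eventually_atTop.1 h1
    obtain ⟨n, hnS, hn⟩ := Set.Infinite.exists_gt hinf N
    have h2 : ss x (S \ {n}) = q - x n := by
      have h3 := ss_union (x := x) hs (S := S \ {n}) (T := {n}) disjoint_sdiff_left
      rw [sdiff_union_of_subset (singleton_subset_iff.2 hnS), ss_singleton, hS] at h3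
      linarith
    have h4 := hN n hn.le
    exact hcq (q - x n) (by linarith) (by linarith [hpos n]) ⟨S \ {n}, subset_univ _, h2.symm⟩
  by_contra hcon
  push Not at hcon
  -- a sequence of points in tail gaps
  choose nn hn1 hn2 using hinf
  have hnt : Tendsto nn atTop atTop := tendsto_atTop_mono hn1 tendsto_id
  set t : ℕ → ℝ := fun k => (tl x (nn k) + x (nn k)) / 2 with ht
  have ht1 : ∀ k, tl x (nn k) < t k := fun k => by simp only [ht]; linarith [hn2 k]
  have ht2 : ∀ k, t k < x (nn k) := fun k => by simp only [ht]; linarith [hn2 k]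
  have ht0 : ∀ k, 0 < t k := fun k => lt_of_le_of_lt (ss_nonneg h0 _) (ht1 k)
  have htl : Tendsto t atTop (𝓝 0) := by
    refine squeeze_zero (fun k => (ht0 k).le) (fun k => (ht2 k).le) (hx0.comp hnt)
  have hev : ∀ᶠ k in atTop, t k < δ := htl.eventually_lt_const hδ
  obtain ⟨k0, hk0⟩ := eventually_atTop.1 hev
  have hmem : ∀ k, ∃ c : ℕ → Bool, ss x (toSet c) = q + t (k + k0) := by
    intro k
    have h1 : q + t (k + k0) ∈ ach x univ :=
      hcon _ (by linarith [ht0 (k + k0)]) (by linarith [hk0 (k + k0) (by omega)])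
    obtain ⟨S, -, hS⟩ := h1
    obtain ⟨c, hc⟩ := exists_bits S
    exact ⟨c, by rw [hc, hS]⟩
  choose cc hcc using hmem
  obtain ⟨cl, φ, hφ, hlim⟩ := CompactSpace.tendsto_subseq cc
  have hq' : ss x (toSet cl) = q := by
    have h1 := ((continuous_ss h0 hs).tendsto cl).comp hlim
    have h2 : Tendsto (fun k => q + t (φ k + k0)) atTop (𝓝 (q + 0)) :=
      tendsto_const_nhds.add (htl.comp (tendsto_atTop_mono (fun k => Nat.le_add_right (φ k) k0) hφ.tendsto_atTop))
    rw [add_zero] at h2
    refine tendsto_nhds_unique h1 (h2.congr fun k => ?_)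
    simp only [Function.comp]
    rw [hcc]
  obtain ⟨M, hM⟩ := (hfin _ hq').bddAbove
  -- eventually the first coordinates agree
  have hagree : ∀ᶠ k in atTop, ∀ n ∈ Finset.range (M + 1), cc (φ k) n = cl n := by
    rw [Filter.eventually_all_finset]
    intro n _
    have h1 := (continuous_apply n).tendsto cl |>.comp hlim
    have h2 : ∀ᶠ b in 𝓝 (cl n), b = cl n := by
      rw [nhds_discrete]; simp
    exact h1.eventually h2
  have hlarge : ∀ᶠ k in atTop, M + 1 ≤ nn (φ k + k0) :=
    (hnt.comp (tendsto_atTop_mono (fun k => Nat.le_add_right (φ k) k0) hφ.tendsto_atTop)).eventually_ge_atTop (M + 1)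
  obtain ⟨k, hk1, hk2⟩ := (hagree.and hlarge).exists
  set T := toSet (cc (φ k)) \ toSet cl with hT
  have hsub : toSet cl ⊆ toSet (cc (φ k)) := by
    intro n hn
    have h1 : n ≤ M := hM hn
    have h2 := hk1 n (Finset.mem_range.2 (by omega))
    show cc (φ k) n = true
    rw [h2]; exact hn
  have hTsum : ss x T = t (φ k + k0) := by
    have h1 := ss_union (x := x) hs (S := T) (T := toSet cl) disjoint_sdiff_left
    rw [sdiff_union_of_subset hsub, hcc, hq'] at h1
    linarith
  have hTM : ∀ n ∈ T, M < n := by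
    intro n hn
    by_contra hle
    have h2 := hk1 n (Finset.mem_range.2 (by omega))
    apply hn.2
    show cl n = true
    rw [← h2]; exact hn.1
  set N := nn (φ k + k0) with hN
  by_cases hex : ∃ n ∈ T, n ≤ N
  · obtain ⟨n, hnT, hnN⟩ := hex
    have h1 : x N ≤ ss x T := by
      calc x N ≤ x n := hanti hnN
        _ = ss x {n} := (ss_singleton n).symm
        _ ≤ ss x T := ss_mono h0 hs (singleton_subset_iff.2 hnT)
    rw [hTsum] at h1
    linarith [ht2 (φ k + k0)]
  · push Not at hex
    have h1 : ss x T ≤ tl x N := ss_mono h0 hs fun n hn => hex n hn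
    rw [hTsum] at h1
    linarith [ht1 (φ k + k0)]

/-- one-point components -/
def pts (E : Set ℝ) : Set ℝ := {y | y ∈ E ∧ connectedComponentIn E y = {y}}

lemma single_comp {E : Set ℝ} {q : ℝ} (hq : q ∈ E)
    (hl : ∀ δ > 0, ∃ y, q - δ < y ∧ y < q ∧ y ∉ E) (hr : ∀ δ > 0, ∃ y, q < y ∧ y < q + δ ∧ y ∉ E) :
    q ∈ pts E := by
  refine ⟨hq, ?_⟩
  apply Subset.antisymm
  · intro z hz
    by_contra hne
    have hne' : z ≠ q := hne
    have hpre : (connectedComponentIn E q).OrdConnected :=
      isPreconnected_connectedComponentIn.ordConnected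
    have hqc : q ∈ connectedComponentIn E q := mem_connectedComponentIn hq
    have hsub := connectedComponentIn_subset E q
    rcases lt_or_gt_of_ne hne' with h | h
    · obtain ⟨y, h1, h2, h3⟩ := hl (q - z) (by linarith)
      exact h3 (hsub (hpre.out hz hqc ⟨by linarith, h2.le⟩))
    · obtain ⟨y, h1, h2, h3⟩ := hr (z - q) (by linarith)
      exact h3 (hsub (hpre.out hqc hz ⟨h1.le, by linarith⟩))
  · rw [singleton_subset_iff]
    exact mem_connectedComponentIn hq

/-- the left endpoint of a component -/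
lemma left_acc {E : Set ℝ} (hE : IsClosed E)
    (hgap : ∀ q ∈ E, ∀ c < q, (∀ y, c < y → y < q → y ∉ E) → ∀ δ > 0,
      ∃ y, q < y ∧ y < q + δ ∧ y ∉ E) {z a b : ℝ} (hab : a < b) (hz : z ∈ E)
    (hcomp : connectedComponentIn E z = Icc a b) : AccPt a (𝓟 (pts E)) := by
  have hsub : Icc a b ⊆ E := hcomp ▸ connectedComponentIn_subset E z
  have haE : a ∈ E := hsub ⟨le_rfl, hab.le⟩
  rw [accPt_iff_frequently, Metric.nhds_basis_ball.frequently_iff]
  intro ε hε
  -- a point outside `E` to the left of `a`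
  obtain ⟨c, hc1, hc2, hc3⟩ : ∃ c, a - ε < c ∧ c < a ∧ c ∉ E := by
    by_contra hcon
    push Not at hcon
    have h1 : Icc (a - ε / 2) b ⊆ E := by
      intro y hy
      rcases lt_or_ge y a with h | h
      · exact hcon y (by linarith [hy.1]) h
      · exact hsub ⟨h, hy.2⟩
    have hzab : z ∈ Icc a b := hcomp ▸ mem_connectedComponentIn hz
    have h2 : Icc (a - ε / 2) b ⊆ connectedComponentIn E z :=
      isPreconnected_Icc.subset_connectedComponentIn ⟨by linarith [hzab.1], hzab.2⟩ h1
    rw [hcomp] at h2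
    have := (h2 ⟨le_rfl, by linarith⟩ : a - ε / 2 ∈ Icc a b).1
    linarith
  -- the right endpoint of the gap
  set F := E ∩ Icc c a with hF
  have hFc : IsCompact F := isCompact_Icc.inter_left hE
  have hFne : F.Nonempty := ⟨a, haE, hc2.le, le_rfl⟩
  set q := sInf F with hq
  have hqF : q ∈ F := hFc.sInf_mem hFne
  have hcq : c < q := lt_of_le_of_ne hqF.2.1 fun h => hc3 (h ▸ hqF.1)
  have hno : ∀ y, c < y → y < q → y ∉ E := by
    intro y h1 h2 h3
    have h4 : y ∈ F := ⟨h3, h1.le, h2.le.trans hqF.2.2⟩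
    have := csInf_le hFc.bddBelow h4
    linarith
  have hright := hgap q hqF.1 c hcq hno
  have hqa : q < a := by
    refine lt_of_le_of_ne hqF.2.2 fun h => ?_
    obtain ⟨y, h1, h2, h3⟩ := hright (b - a) (by linarith)
    rw [h] at h1 h2
    exact h3 (hsub ⟨h1.le, by linarith⟩)
  refine ⟨q, ?_, hqa.ne, ?_⟩
  · rw [Metric.mem_ball, Real.dist_eq, abs_of_neg (by linarith)]
    linarith
  · refine single_comp hqF.1 (fun δ hδ => ?_) hright
    refine ⟨max ((c + q) / 2) (q - δ / 2), ?_, ?_, ?_⟩
    · exact lt_of_lt_of_le (by linarith) (le_max_right _ _)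
    · exact max_lt (by linarith) (by linarith)
    · exact hno _ (lt_of_lt_of_le (by linarith) (le_max_left _ _)) (max_lt (by linarith) (by linarith))

lemma comp_neg (E : Set ℝ) {z : ℝ} (hz : z ∈ E) :
    connectedComponentIn (-E) (-z) = -connectedComponentIn E z := by
  have h := (Homeomorph.neg ℝ).image_connectedComponentIn (s := E) hz
  have e : ∀ S : Set ℝ, (Homeomorph.neg ℝ) '' S = -S := by
    intro S
    ext y
    simp only [mem_image, Set.mem_neg]
    constructor
    · rintro ⟨w, hw, rfl⟩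
      simpa using hw
    · intro hy
      exact ⟨-y, hy, by simp⟩
  rw [e, e] at h
  exact h.symm

lemma pts_neg (E : Set ℝ) : pts (-E) = -pts E := by
  ext y
  simp only [pts, mem_ofPred_eq, Set.mem_neg]
  constructor
  · rintro ⟨h1, h2⟩
    refine ⟨h1, ?_⟩
    have h3 := comp_neg E h1
    rw [neg_neg, h2] at h3
    ext w
    have := congrArg (fun S : Set ℝ => -w ∈ S) h3
    simp only [mem_singleton_iff, Set.mem_neg, neg_neg, eq_iff_iff] at this
    rw [← this, mem_singleton_iff]
    constructor <;> intro h <;> linarith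
  · rintro ⟨h1, h2⟩
    refine ⟨h1, ?_⟩
    have h3 := comp_neg E h1
    rw [neg_neg, h2] at h3
    rw [h3]
    ext w
    simp only [Set.mem_neg, mem_singleton_iff]
    constructor <;> intro h <;> linarith

lemma right_acc {E : Set ℝ} (hE : IsClosed E)
    (hgap : ∀ q ∈ E, ∀ c > q, (∀ y, q < y → y < c → y ∉ E) → ∀ δ > 0,
      ∃ y, q - δ < y ∧ y < q ∧ y ∉ E) {z a b : ℝ} (hab : a < b) (hz : z ∈ E)
    (hcomp : connectedComponentIn E z = Icc a b) : AccPt b (𝓟 (pts E)) := by
  have h := left_acc (E := -E) hE.neg (fun q hq c hc hy δ hδ => by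
    obtain ⟨y, h1, h2, h3⟩ := hgap (-q) hq (-c) (by linarith) (fun y h1 h2 h3 => by
      refine hy (-y) (by linarith) (by linarith) ?_
      simpa using h3) δ hδ
    exact ⟨-y, by linarith, by linarith, by simpa using h3⟩) (z := -z) (a := -b) (b := -a)
    (by linarith) (by simpa using hz) (by rw [comp_neg E hz, hcomp]; simp)
  rw [accPt_iff_frequently, Metric.nhds_basis_ball.frequently_iff] at h ⊢
  intro ε hε
  obtain ⟨y, h1, h2, h3⟩ := h ε hε
  refine ⟨-y, ?_, fun h => h2 (by linarith), ?_⟩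
  · rw [Metric.mem_ball, Real.dist_eq] at h1 ⊢
    rw [show -y - b = -(y - -b) by ring, abs_neg]
    exact h1
  · rw [pts_neg] at h3
    exact h3

/-- A Cantorval. -/
def IsCantorval (E : Set ℝ) : Prop :=
  E.Nonempty ∧ IsCompact E ∧ closure (interior E) = E ∧
    ∀ z ∈ E, ∀ a b : ℝ, a < b → connectedComponentIn E z = Icc a b →
      AccPt a (𝓟 {y | y ∈ E ∧ connectedComponentIn E y = {y}}) ∧
      AccPt b (𝓟 {y | y ∈ E ∧ connectedComponentIn E y = {y}})

/-- A criterion. -/
theorem isCantorval (hpos : ∀ n, 0 < x n) (hanti : Antitone x) (hs : Summable x)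
    (hinf : ∀ N, ∃ n, N ≤ n ∧ tl x n < x n) (hint : closure (interior (ach x univ)) = ach x univ) :
    IsCantorval (ach x univ) := by
  have h0 : ∀ n, 0 ≤ x n := fun n => (hpos n).le
  have hcomp := isCompact_ach h0 hs univ
  have hg1 : ∀ q ∈ ach x univ, ∀ c < q, (∀ y, c < y → y < q → y ∉ ach x univ) → ∀ δ > 0,
      ∃ y, q < y ∧ y < q + δ ∧ y ∉ ach x univ := fun q hq c hc hy δ hδ =>
    gap hpos hanti hs hinf hq hc hy hδ
  -- reflection
  set s := ss x univ with hsdef
  have hrefl : ∀ y, y ∈ ach x univ → s - y ∈ ach x univ := by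
    rintro y ⟨S, -, rfl⟩
    refine ⟨Sᶜ, subset_univ _, ?_⟩
    have h1 := ss_union (x := x) hs (S := S) (T := Sᶜ) disjoint_compl_right
    rw [union_compl_self] at h1
    rw [hsdef, h1]; ring
  have hg2 : ∀ q ∈ ach x univ, ∀ c > q, (∀ y, q < y → y < c → y ∉ ach x univ) → ∀ δ > 0,
      ∃ y, q - δ < y ∧ y < q ∧ y ∉ ach x univ := by
    intro q hq c hc hy δ hδ
    obtain ⟨y, h1, h2, h3⟩ := hg1 (s - q) (hrefl q hq) (s - c) (by linarith)
      (fun y h1 h2 h3 => hy (s - y) (by linarith) (by linarith) (hrefl y h3)) δ hδ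
    refine ⟨s - y, by linarith, by linarith, fun h => h3 ?_⟩
    have := hrefl _ h
    rwa [sub_sub_cancel] at this
  refine ⟨⟨0, ∅, subset_univ _, ss_empty.symm⟩, hcomp, hint, fun z hz a b hab hc => ⟨?_, ?_⟩⟩
  · exact left_acc hcomp.isClosed hg1 hab hz hc
  · exact right_acc hcomp.isClosed hg2 hab hz hc

end Q81.Cval
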