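import Pool.Agent.Q81.Cval1

/-!
# The multigeometric sequence (3, 2, 2, 2; 1/8)
-/

namespace Q81.Cval

open MeasureTheory Set Filter Topology

/-- the digits of a block -/
def vv : Fin 4 → ℕ := ![3, 2, 2, 2]

/-- The sequence `3/8, 2/8, 2/8, 2/8, 3/64, 2/64, 2/64, 2/64, ...` -/
noncomputable def xx (n : ℕ) : ℝ := (if n % 4 = 0 then 3 else 2) * (1 / 8) ^ (n / 4 + 1)

lemma xx_pos (n : ℕ) : 0 < xx n := by
  unfold xx; split_ifs <;> positivity

lemma xx_shift (j n : ℕ) : xx (n + 4 * j) = (1 / 8) ^ j * xx n := by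
  unfold xx
  rw [Nat.add_mul_mod_self_left, Nat.add_mul_div_left _ _ (by norm_num)]
  rw [show n / 4 + j + 1 = j + (n / 4 + 1) by ring, pow_add]
  ring

lemma xx_block (j : ℕ) (i : Fin 4) : xx (4 * j + i) = vv i * (1 / 8) ^ (j + 1) := by
  rw [add_comm, xx_shift]
  fin_cases i <;> simp [xx, vv, pow_succ] <;> ring

lemma exists_ji (n : ℕ) : ∃ j, ∃ i : Fin 4, n = 4 * j + i :=
  ⟨n / 4, ⟨n % 4, Nat.mod_lt _ (by norm_num)⟩, by simp; omega⟩

lemma xx_anti : Antitone xx := by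
  refine antitone_nat_of_succ_le fun n => ?_
  obtain ⟨j, i, rfl⟩ := exists_ji n
  have h8 : (0 : ℝ) < (1 / 8) ^ (j + 1) := by positivity
  by_cases hi : i = 3
  · subst hi
    have h1 := xx_block (j + 1) 0
    have h2 := xx_block j 3
    have e : 4 * j + ((3 : Fin 4) : ℕ) + 1 = 4 * (j + 1) + ((0 : Fin 4) : ℕ) := by simp; ring
    rw [e, h1, h2]
    have h3 : (vv 0 : ℝ) = 3 := by simp [vv]
    have h4 : (vv 3 : ℝ) = 2 := by simp [vv]
    rw [h3, h4, pow_succ _ (j + 1)]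
    nlinarith
  · have hlt : (i : ℕ) < 3 := by
      have := i.2
      rcases Nat.lt_or_ge i 3 with h | h
      · exact h
      · exact absurd (Fin.ext (by simp; omega)) hi
    have e : 4 * j + (i : ℕ) + 1 = 4 * j + ((⟨i + 1, by omega⟩ : Fin 4) : ℕ) := by simp; ring
    rw [e, xx_block, xx_block]
    refine mul_le_mul_of_nonneg_right ?_ h8.le
    have : vv ⟨i + 1, by omega⟩ ≤ vv i := by
      fin_cases i <;> simp_all [vv]
    exact_mod_cast this

lemma xx_summable : Summable xx := by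
  refine Summable.of_nonneg_of_le (fun n => (xx_pos n).le) (f := fun n => 3 * (3 / 5 : ℝ) ^ n)
    (fun n => ?_) ((summable_geometric_of_lt_one (by norm_num) (by norm_num)).mul_left 3)
  obtain ⟨j, i, rfl⟩ := exists_ji n
  rw [xx_block]
  have h1 : (1 / 8 : ℝ) ^ j ≤ (3 / 5 : ℝ) ^ (4 * j) := by
    rw [pow_mul]
    exact pow_le_pow_left₀ (by norm_num) (by norm_num) j
  have h2 : (3 / 5 : ℝ) ^ 3 ≤ (3 / 5 : ℝ) ^ (i : ℕ) :=
    pow_le_pow_of_le_one (by norm_num) (by norm_num) (by omega)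
  have h3 : (vv i : ℝ) ≤ 3 := by
    have : vv i ≤ 3 := by fin_cases i <;> simp [vv]
    exact_mod_cast this
  have h4 : (0 : ℝ) < (1 / 8) ^ j := by positivity
  have h5 : (0 : ℝ) < (3 / 5) ^ (4 * j) := by positivity
  rw [pow_succ, pow_add]
  calc (vv i : ℝ) * ((1 / 8) ^ j * (1 / 8)) ≤ 3 * ((1 / 8) ^ j * (1 / 8)) := by
        gcongr
    _ ≤ 3 * ((3 / 5) ^ (4 * j) * (3 / 5 : ℝ) ^ 3) := by
        gcongr
        norm_num
    _ ≤ _ := by gcongr

/-- sums over shifted sets -/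
lemma ss_shift (j : ℕ) (S : Set ℕ) :
    ss xx ((fun n => n + 4 * j) '' S) = (1 / 8) ^ j * ss xx S := by
  unfold ss
  rw [← tsum_subtype, ← tsum_subtype, tsum_image _ (fun a _ b _ h => by simpa using h),
    ← tsum_mul_left]
  exact tsum_congr fun n => xx_shift j n

lemma image_univ_shift (j : ℕ) : (fun n => n + 4 * j) '' (univ : Set ℕ) = Ici (4 * j) := by
  ext n
  simp only [mem_image, mem_univ, true_and, mem_Ici]
  exact ⟨by rintro ⟨m, rfl⟩; omega, fun h => ⟨n - 4 * j, by omega⟩⟩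

lemma ss_univ : ss xx univ = 9 / 7 := by
  have h := xx_summable.sum_add_tsum_nat_add 4
  have h1 : ss xx univ = ∑' n, xx n := by simp [ss]
  have h2 : ∀ n, xx (n + 4) = 1 / 8 * xx n := fun n => by
    have := xx_shift 1 n
    simpa using this
  simp_rw [h2] at h
  rw [tsum_mul_left, ← h1] at h
  have h3 : ∑ i ∈ Finset.range 4, xx i = 9 / 8 := by
    simp [Finset.sum_range_succ, xx]
    norm_num
  rw [h3] at h
  linarith

lemma ss_Ici (j : ℕ) : ss xx (Ici (4 * j)) = (1 / 8) ^ j * (9 / 7) := by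
  rw [← image_univ_shift, ss_shift, ss_univ]

lemma tail_lt (N : ℕ) : ∃ n, N ≤ n ∧ tl xx n < xx n := by
  refine ⟨4 * N + 3, by omega, ?_⟩
  have h1 : Ioi (4 * N + 3) = Ici (4 * (N + 1)) := by
    ext n; simp only [mem_Ioi, mem_Ici]; omega
  have h2 := xx_block N 3
  have h3 : ((3 : Fin 4) : ℕ) = 3 := rfl
  rw [h3] at h2
  have h4 : (vv 3 : ℝ) = 2 := by simp [vv]
  rw [tl, h1, ss_Ici, h2, h4]
  have : (0 : ℝ) < (1 / 8) ^ (N + 1) := by positivity
  nlinarith

lemma often : {n | xx n < tl xx (n + 1)}.Infinite := by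
  refine infinite_of_not_bddAbove ?_
  rintro ⟨M, hM⟩
  have h1 : 4 * (M + 1) ∈ {n | xx n < tl xx (n + 1)} := by
    show xx (4 * (M + 1)) < tl xx (4 * (M + 1) + 1)
    have h2 := xx_block (M + 1) 0
    have h3 : ((0 : Fin 4) : ℕ) = 0 := rfl
    rw [h3, add_zero] at h2
    have h4 : (vv 0 : ℝ) = 3 := by simp [vv]
    have h5 := ss_Ici (M + 1)
    have h6 : Ici (4 * (M + 1)) = Iio (4 * (M + 1) + 2) ∩ Ici (4 * (M + 1)) ∪
        Ioi (4 * (M + 1) + 1) := by
      ext n; simp only [mem_Ioi, mem_Ici, mem_Iio, mem_union, mem_inter_iff]; omega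
    have h7 : Iio (4 * (M + 1) + 2) ∩ Ici (4 * (M + 1)) = {4 * (M + 1)} ∪ {4 * (M + 1) + 1} := by
      ext n
      simp only [mem_Ici, mem_Iio, mem_union, mem_inter_iff, mem_singleton_iff]; omega
    rw [h6, ss_union xx_summable, h7, ss_union xx_summable, ss_singleton, ss_singleton] at h5
    · rw [tl]
      have h8 := xx_block (M + 1) 1
      have h9 : ((1 : Fin 4) : ℕ) = 1 := rfl
      rw [h9] at h8
      have h10 : (vv 1 : ℝ) = 2 := by simp [vv]
      rw [h8, h2, h4, h10, pow_succ] at h5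
      rw [h2, h4, pow_succ]
      have : (0 : ℝ) < (1 / 8) ^ (M + 1) := by positivity
      nlinarith
    · rw [disjoint_left]
      intro n h1 h2
      simp only [mem_singleton_iff] at h1 h2
      omega
    · rw [disjoint_left]
      intro n h1 h2
      simp only [mem_inter_iff, mem_Iio, mem_Ioi] at h1 h2
      omega
  have := hM h1
  omega

/-- Self-similarity. -/
lemma self_sim (N : ℕ) (S : Set ℕ) (hS : S ⊆ Iio (4 * N)) {y : ℝ} (hy : y ∈ ach xx univ) :
    ss xx S + (1 / 8) ^ N * y ∈ ach xx univ := by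
  obtain ⟨T, -, rfl⟩ := hy
  refine ⟨S ∪ (fun n => n + 4 * N) '' T, subset_univ _, ?_⟩
  rw [ss_union xx_summable, ss_shift]
  rw [disjoint_left]
  rintro n h1 ⟨m, _, rfl⟩
  have := hS h1
  simp only [mem_Iio] at this
  omega

lemma ss_coe {x : ℕ → ℝ} (F : Finset ℕ) : ss x (F : Set ℕ) = ∑ n ∈ F, x n := by
  unfold ss
  rw [← tsum_subtype]
  exact Finset.tsum_subtype F x

/-- block subsets -/
def BB (j : ℕ) (P : Finset (Fin 4)) : Finset ℕ := P.image fun i : Fin 4 => 4 * j + i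

lemma ss_BB (j : ℕ) (P : Finset (Fin 4)) :
    ss xx (BB j P : Set ℕ) = ((∑ i ∈ P, vv i : ℕ) : ℝ) * (1 / 8) ^ (j + 1) := by
  rw [ss_coe, BB, Finset.sum_image (fun a _ b _ h => by
    have : (a : ℕ) = b := by simpa using h
    exact Fin.ext this)]
  push_cast
  rw [Finset.sum_mul]
  exact Finset.sum_congr rfl fun i _ => xx_block j i

lemma BB_sub (j : ℕ) (P : Finset (Fin 4)) : (BB j P : Set ℕ) ⊆ Iio (4 * (j + 1)) ∩ Ici (4 * j) := by
  intro n hn
  simp only [BB, Finset.coe_image, mem_image] at hn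
  obtain ⟨i, _, rfl⟩ := hn
  have := i.2
  simp only [mem_inter_iff, mem_Iio, mem_Ici]
  omega

lemma digits_all : ∀ d ∈ ({0, 2, 3, 4, 5, 6, 7, 9} : Finset ℕ), ∃ P : Finset (Fin 4),
    ∑ i ∈ P, vv i = d := by
  decide

/-- All integers of `[2(8^N-1)/7, 8^N-1]` are sums of digits. -/
lemma integers (N : ℕ) : ∀ m : ℕ, 2 * (8 ^ N - 1) ≤ 7 * m → m ≤ 8 ^ N - 1 →
    ∃ S ⊆ Iio (4 * N), ss xx S = m * (1 / 8) ^ N := by
  induction N with
  | zero =>
    intro m _ h2
    have : m = 0 := by simpa using h2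
    subst this
    exact ⟨∅, empty_subset _, by simp [ss_empty]⟩
  | succ N ih =>
    intro m h1 h2
    have h8 : 1 ≤ 8 ^ N := Nat.one_le_pow _ _ (by norm_num)
    have h8' : 8 ^ (N + 1) = 8 * 8 ^ N := by ring
    have hmod : 8 ^ N % 7 = 1 := by
      rw [Nat.pow_mod]; simp
    obtain ⟨k, hk⟩ : ∃ k, 8 ^ N = 7 * k + 1 := ⟨8 ^ N / 7, by omega⟩
    have hm2 : 16 * k + 2 ≤ m := by omega
    obtain ⟨q, d, hd, hm, hq1, hq2⟩ : ∃ q d : ℕ, d ∈ ({0, 2, 3, 4, 5, 6, 7, 9} : Finset ℕ) ∧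
        m = 8 * q + d ∧ 2 * (8 ^ N - 1) ≤ 7 * q ∧ q ≤ 8 ^ N - 1 := by
      by_cases h : m % 8 = 1
      · refine ⟨(m - 9) / 8, 9, by decide, by omega, by omega, by omega⟩
      · refine ⟨m / 8, m % 8, ?_, by omega, by omega, by omega⟩
        have : m % 8 < 8 := Nat.mod_lt _ (by norm_num)
        interval_cases m % 8 <;> simp_all
    obtain ⟨P, hP⟩ := digits_all d hd
    obtain ⟨S, hS, hSs⟩ := ih q hq1 hq2
    refine ⟨S ∪ BB N P, ?_, ?_⟩
    · refine union_subset (hS.trans (Iio_subset_Iio (by omega))) ?_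
      exact (BB_sub N P).trans inter_subset_left
    · rw [ss_union xx_summable, hSs, ss_BB, hP, hm, pow_succ]
      · push_cast; ring
      · rw [disjoint_left]
        intro n h1 h2
        have h3 := hS h1
        have h4 := (BB_sub N P h2).2
        simp only [mem_Iio, mem_Ici] at h3 h4
        omega

lemma Icc_sub : Ico (2 / 7 : ℝ) 1 ⊆ ach xx univ := by
  intro y hy
  have hcl := (isCompact_ach (fun n => (xx_pos n).le) xx_summable univ).isClosed
  have h0 : Tendsto (fun N : ℕ => (⌊8 ^ N * y⌋₊ : ℝ) * (1 / 8) ^ N) atTop (𝓝 y) := by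
    have h1 : Tendsto (fun N : ℕ => y - (1 / 8 : ℝ) ^ N) atTop (𝓝 (y - 0)) :=
      tendsto_const_nhds.sub (tendsto_pow_atTop_nhds_zero_of_lt_one (by norm_num) (by norm_num))
    rw [sub_zero] at h1
    refine tendsto_of_tendsto_of_tendsto_of_le_of_le h1 tendsto_const_nhds (fun N => ?_)
      (fun N => ?_)
    · have h2 := Nat.lt_floor_add_one ((8 : ℝ) ^ N * y)
      have h3 : (0 : ℝ) < (1 / 8) ^ N := by positivity
      have h4 : (8 : ℝ) ^ N * (1 / 8) ^ N = 1 := by rw [← mul_pow]; norm_num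
      show y - (1 / 8 : ℝ) ^ N ≤ (⌊8 ^ N * y⌋₊ : ℝ) * (1 / 8) ^ N
      have h5 : y = (8 ^ N * y) * (1 / 8) ^ N := by
        rw [mul_right_comm, h4, one_mul]
      have h6 := mul_lt_mul_of_pos_right h2 h3
      rw [← h5, add_mul, one_mul] at h6
      linarith
    · have h2 := Nat.floor_le (a := (8 : ℝ) ^ N * y) (mul_nonneg (by positivity) (by linarith [hy.1]))
      have h3 : (0 : ℝ) < (1 / 8) ^ N := by positivity
      have h4 : (8 : ℝ) ^ N * (1 / 8) ^ N = 1 := by rw [← mul_pow]; norm_num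
      show (⌊8 ^ N * y⌋₊ : ℝ) * (1 / 8) ^ N ≤ y
      have h5 : y = (8 ^ N * y) * (1 / 8) ^ N := by
        rw [mul_right_comm, h4, one_mul]
      have h6 := mul_le_mul_of_nonneg_right h2 h3.le
      rwa [← h5] at h6
  refine hcl.mem_of_tendsto h0 (Eventually.of_forall fun N => ?_)
  have h8 : 1 ≤ 8 ^ N := Nat.one_le_pow _ _ (by norm_num)
  have hmod : 8 ^ N % 7 = 1 := by
    rw [Nat.pow_mod]; simp
  have hup : ⌊(8 : ℝ) ^ N * y⌋₊ ≤ 8 ^ N - 1 := by
    have h1 : ⌊(8 : ℝ) ^ N * y⌋₊ < 8 ^ N := by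
      rw [Nat.floor_lt (mul_nonneg (by positivity) (by linarith [hy.1]))]
      push_cast
      have : (0 : ℝ) < 8 ^ N := by positivity
      nlinarith [hy.2]
    omega
  have hlo : 2 * (8 ^ N - 1) ≤ 7 * ⌊(8 : ℝ) ^ N * y⌋₊ := by
    obtain ⟨k, hk⟩ : ∃ k, 8 ^ N = 7 * k + 1 := ⟨8 ^ N / 7, by omega⟩
    have h1 : 2 * k ≤ ⌊(8 : ℝ) ^ N * y⌋₊ := by
      rw [Nat.le_floor_iff (mul_nonneg (by positivity) (by linarith [hy.1]))]
      have h2 : (8 : ℝ) ^ N = 7 * k + 1 := by exact_mod_cast hk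
      rw [h2]
      push_cast
      have : (0 : ℝ) ≤ k := Nat.cast_nonneg k
      nlinarith [hy.1]
    rw [hk]
    simp only [Nat.add_sub_cancel]
    omega
  obtain ⟨S, _, hS⟩ := integers N _ hlo hup
  exact ⟨S, subset_univ _, hS.symm⟩

lemma closure_interior : closure (interior (ach xx univ)) = ach xx univ := by
  have h0 : ∀ n, 0 ≤ xx n := fun n => (xx_pos n).le
  have hcl := (isCompact_ach h0 xx_summable univ).isClosed
  refine Subset.antisymm ?_ ?_
  · exact (closure_mono interior_subset).trans hcl.closure_subset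
  · rintro z ⟨S, -, rfl⟩
    -- approximants
    set s : ℕ → ℝ := fun N => ss xx (S ∩ Iio (4 * N)) + (1 / 8) ^ N * (1 / 2) with hs
    have hmem : ∀ N, s N ∈ interior (ach xx univ) := by
      intro N
      have h8 : (0 : ℝ) < (1 / 8) ^ N := by positivity
      have hopen : IsOpen ((fun y => (y - ss xx (S ∩ Iio (4 * N))) * 8 ^ N) ⁻¹' Ioo (2 / 7 : ℝ) 1) :=
        isOpen_Ioo.preimage (by fun_prop)
      refine mem_interior.2 ⟨_, ?_, hopen, ?_⟩
      · intro y hy
        have h1 := self_sim N (S ∩ Iio (4 * N)) inter_subset_right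
          (Icc_sub ⟨hy.1.le, hy.2⟩)
        have h4 : (1 / 8 : ℝ) ^ N * 8 ^ N = 1 := by rw [← mul_pow]; norm_num
        have h5 : ss xx (S ∩ Iio (4 * N)) + (1 / 8) ^ N *
            ((y - ss xx (S ∩ Iio (4 * N))) * 8 ^ N) = y := by
          calc _ = ss xx (S ∩ Iio (4 * N)) + ((1 / 8) ^ N * 8 ^ N) *
            ((y - ss xx (S ∩ Iio (4 * N)))) := by ring
            _ = _ := by rw [h4]; ring
        rwa [h5] at h1
      · have h4 : (1 / 8 : ℝ) ^ N * 8 ^ N = 1 := by rw [← mul_pow]; norm_num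
        show (s N - ss xx (S ∩ Iio (4 * N))) * 8 ^ N ∈ Ioo (2 / 7 : ℝ) 1
        have h5 : (s N - ss xx (S ∩ Iio (4 * N))) * 8 ^ N = ((1 / 8 : ℝ) ^ N * 8 ^ N) * (1 / 2) := by
          simp only [hs]; ring
        rw [h5, h4]
        constructor <;> norm_num
    have hlim : Tendsto s atTop (𝓝 (ss xx S)) := by
      have h1 : Tendsto (fun N : ℕ => (1 / 8 : ℝ) ^ N * (9 / 7)) atTop (𝓝 (0 * (9 / 7))) :=
        (tendsto_pow_atTop_nhds_zero_of_lt_one (by norm_num) (by norm_num)).mul_const _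
      rw [zero_mul] at h1
      rw [tendsto_iff_dist_tendsto_zero]
      refine squeeze_zero (fun _ => dist_nonneg) (fun N => ?_) h1
      have h2 : ss xx S = ss xx (S ∩ Iio (4 * N)) + ss xx (S ∩ Ici (4 * N)) := by
        rw [← ss_union xx_summable]
        · congr 1
          ext n
          simp only [mem_union, mem_inter_iff, mem_Iio, mem_Ici]
          constructor
          · intro h
            rcases Nat.lt_or_ge n (4 * N) with h' | h'
            · exact Or.inl ⟨h, h'⟩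
            · exact Or.inr ⟨h, h'⟩
          · rintro (⟨h, _⟩ | ⟨h, _⟩) <;> exact h
        · rw [disjoint_left]
          rintro n ⟨_, h1⟩ ⟨_, h2⟩
          simp only [mem_Iio, mem_Ici] at h1 h2
          omega
      have h3 : ss xx (S ∩ Ici (4 * N)) ≤ (1 / 8) ^ N * (9 / 7) := by
        rw [← ss_Ici]
        exact ss_mono h0 xx_summable inter_subset_right
      have h4 := ss_nonneg h0 (S ∩ Ici (4 * N))
      have h8 : (0 : ℝ) < (1 / 8) ^ N := by positivity
      rw [Real.dist_eq, abs_le]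
      simp only [hs]
      constructor <;> nlinarith
    exact mem_closure_of_tendsto hlim (Eventually.of_forall hmem)

theorem cantorval : IsCantorval (ach xx univ) :=
  isCantorval xx_pos xx_anti xx_summable tail_lt closure_interior

end Q81.Cval
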