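import Pool.Agent.Q81.Cval2

/-!
# Removing infinitely many terms of (3, 2, 2, 2; 1/8) gives a null set
-/

namespace Q81.Cval

open MeasureTheory Set Filter Topology

lemma card_dig8 : ∀ P : Finset (Fin 4), (P.powerset.image fun Q => ∑ i ∈ Q, vv i).card ≤ 8 := by
  decide

lemma card_dig6 : ∀ P : Finset (Fin 4), P ≠ Finset.univ →
    (P.powerset.image fun Q => ∑ i ∈ Q, vv i).card ≤ 6 := by
  decide

/-- the tail sets -/
def KK (A : Set ℕ) (j : ℕ) : Set ℝ := ach xx (Aᶜ ∩ Ici (4 * j))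

open Classical in
/-- the available digits of a block -/
noncomputable def PP (A : Set ℕ) (j : ℕ) : Finset (Fin 4) :=
  Finset.univ.filter fun i : Fin 4 => 4 * j + (i : ℕ) ∉ A

lemma KK_sub (A : Set ℕ) (j : ℕ) : KK A j ⊆ ⋃ d ∈ (PP A j).powerset.image (fun Q => ∑ i ∈ Q, vv i),
    (fun y => y + -((d : ℝ) * (1 / 8) ^ (j + 1))) ⁻¹' KK A (j + 1) := by
  classical
  rintro y ⟨S, hS, rfl⟩
  set Q : Finset (Fin 4) := Finset.univ.filter fun i : Fin 4 => 4 * j + (i : ℕ) ∈ S with hQ
  have hQP : Q ⊆ PP A j := by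
    intro i hi
    simp only [hQ, Finset.mem_filter, Finset.mem_univ, true_and] at hi
    simp only [PP, Finset.mem_filter, Finset.mem_univ, true_and]
    exact (hS hi).1
  refine mem_iUnion₂.2 ⟨∑ i ∈ Q, vv i, Finset.mem_image_of_mem _ (Finset.mem_powerset.2 hQP), ?_⟩
  show ss xx S + -(((∑ i ∈ Q, vv i : ℕ) : ℝ) * (1 / 8) ^ (j + 1)) ∈ KK A (j + 1)
  rw [← ss_BB]
  refine ⟨S ∩ Ici (4 * (j + 1)), fun n hn => ⟨(hS hn.1).1, hn.2⟩, ?_⟩
  have hdec : S = (BB j Q : Set ℕ) ∪ (S ∩ Ici (4 * (j + 1))) := by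
    ext n
    simp only [BB, Finset.coe_image, mem_union, mem_image, mem_inter_iff, mem_Ici, hQ,
      Finset.coe_filter, Finset.mem_univ, true_and, mem_ofPred_eq]
    constructor
    · intro hn
      have h1 : 4 * j ≤ n := (hS hn).2
      rcases Nat.lt_or_ge n (4 * (j + 1)) with h | h
      · left
        refine ⟨⟨n - 4 * j, by omega⟩, ?_, by simp; omega⟩
        rwa [show 4 * j + (n - 4 * j) = n by omega]
      · exact Or.inr ⟨hn, h⟩
    · rintro (⟨i, hi, rfl⟩ | ⟨h, _⟩)
      · exact hi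
      · exact h
  have hdisj : Disjoint (BB j Q : Set ℕ) (S ∩ Ici (4 * (j + 1))) := by
    rw [disjoint_left]
    intro n h1 h2
    have h3 := (BB_sub j Q h1).1
    have h4 := h2.2
    simp only [mem_Iio, mem_Ici] at h3 h4
    omega
  have h5 := ss_union xx_summable hdisj
  rw [← hdec] at h5
  rw [h5]; ring

lemma KK_bdd (A : Set ℕ) (j : ℕ) : KK A j ⊆ Icc 0 ((1 / 8) ^ j * (9 / 7)) := by
  have h0 : ∀ n, 0 ≤ xx n := fun n => (xx_pos n).le
  rintro y ⟨S, hS, rfl⟩
  refine ⟨ss_nonneg h0 S, ?_⟩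
  rw [← ss_Ici]
  exact ss_mono h0 xx_summable (hS.trans inter_subset_right)

lemma vol_real_le (A : Set ℕ) (j : ℕ) : volume.real (KK A j) ≤ (1 / 8) ^ j * (9 / 7) := by
  have h1 : volume.real (KK A j) ≤ volume.real (Icc (0 : ℝ) ((1 / 8) ^ j * (9 / 7))) :=
    measureReal_mono (KK_bdd A j) isCompact_Icc.measure_lt_top.ne
  rwa [Real.volume_real_Icc_of_le (by positivity), sub_zero] at h1

lemma vol_fin (A : Set ℕ) (j : ℕ) : volume (KK A j) ≠ ⊤ :=
  ne_top_of_le_ne_top isCompact_Icc.measure_lt_top.ne (measure_mono (KK_bdd A j))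

lemma vol_step (A : Set ℕ) (j : ℕ) : volume.real (KK A j) ≤
    ((PP A j).powerset.image (fun Q => ∑ i ∈ Q, vv i)).card * volume.real (KK A (j + 1)) := by
  have h1 : volume (KK A j) ≤
      ((PP A j).powerset.image (fun Q => ∑ i ∈ Q, vv i)).card * volume (KK A (j + 1)) := by
    refine (measure_mono (KK_sub A j)).trans ?_
    refine (measure_biUnion_finset_le _ _).trans ?_
    simp only [measure_preimage_add_right, Finset.sum_const, nsmul_eq_mul]
    exact le_rfl
  have h2 := ENNReal.toReal_mono (ENNReal.mul_ne_top (ENNReal.natCast_ne_top _)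
    (vol_fin A (j + 1))) h1
  rwa [ENNReal.toReal_mul, ENNReal.toReal_natCast] at h2

open Classical in
lemma vol_iter (A : Set ℕ) (j : ℕ) : volume.real (KK A 0) ≤
    (3 / 4 : ℝ) ^ ((Finset.range j).filter fun i => PP A i ≠ Finset.univ).card * 8 ^ j *
      volume.real (KK A j) := by
  induction j with
  | zero => simp
  | succ j ih =>
    refine ih.trans ?_
    have h1 := vol_step A j
    have h2 : 0 ≤ volume.real (KK A (j + 1)) := measureReal_nonneg
    rw [Finset.range_add_one, Finset.filter_insert]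
    split_ifs with h
    · rw [Finset.card_insert_of_notMem (by simp), pow_succ, pow_succ]
      have h3 : (((PP A j).powerset.image (fun Q => ∑ i ∈ Q, vv i)).card : ℝ) ≤ 6 := by
        exact_mod_cast card_dig6 _ h
      calc _ ≤ (3 / 4 : ℝ) ^ ((Finset.range j).filter fun i => PP A i ≠ Finset.univ).card * 8 ^ j *
            (6 * volume.real (KK A (j + 1))) := by
            gcongr
            exact h1.trans (by gcongr)
        _ = _ := by ring
    · rw [pow_succ 8 j]
      have h3 : (((PP A j).powerset.image (fun Q => ∑ i ∈ Q, vv i)).card : ℝ) ≤ 8 := by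
        exact_mod_cast card_dig8 _
      calc _ ≤ (3 / 4 : ℝ) ^ ((Finset.range j).filter fun i => PP A i ≠ Finset.univ).card * 8 ^ j *
            (8 * volume.real (KK A (j + 1))) := by
            gcongr
            exact h1.trans (by gcongr)
        _ = _ := by ring

lemma vol_zero {A : Set ℕ} (hA : A.Infinite) : volume.real (ach xx Aᶜ) = 0 := by
  classical
  have hK : KK A 0 = ach xx Aᶜ := by
    unfold KK
    congr 1
    simp
  rw [← hK]
  refine le_antisymm ?_ measureReal_nonneg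
  have hhit : {i | PP A i ≠ Finset.univ}.Infinite := by
    refine infinite_of_not_bddAbove ?_
    rintro ⟨M, hM⟩
    obtain ⟨n, hnA, hn⟩ := hA.exists_gt (4 * (M + 1))
    have h1 : n / 4 ∈ {i | PP A i ≠ Finset.univ} := by
      show PP A (n / 4) ≠ Finset.univ
      intro h
      have h2 : (⟨n % 4, Nat.mod_lt _ (by norm_num)⟩ : Fin 4) ∈ PP A (n / 4) := by
        rw [h]; exact Finset.mem_univ _
      simp only [PP, Finset.mem_filter, Finset.mem_univ, true_and] at h2
      apply h2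
      rwa [show 4 * (n / 4) + n % 4 = n by omega]
    have := hM h1
    omega
  have hm : ∀ m : ℕ, volume.real (KK A 0) ≤ (3 / 4 : ℝ) ^ m * (9 / 7) := by
    intro m
    obtain ⟨t, ht, htc⟩ := hhit.exists_subset_card_eq m
    set j := t.sup id + 1 with hj
    have h1 : t ⊆ (Finset.range j).filter fun i => PP A i ≠ Finset.univ := by
      intro i hi
      rw [Finset.mem_filter, Finset.mem_range]
      exact ⟨Nat.lt_succ_of_le (Finset.le_sup (f := id) hi), ht hi⟩
    have h2 := Finset.card_le_card h1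
    rw [htc] at h2
    have h3 := vol_iter A j
    have h4 := vol_real_le A j
    have h5 : (8 : ℝ) ^ j * (1 / 8) ^ j = 1 := by rw [← mul_pow]; norm_num
    have h6 : (3 / 4 : ℝ) ^ ((Finset.range j).filter fun i => PP A i ≠ Finset.univ).card ≤
        (3 / 4 : ℝ) ^ m := pow_le_pow_of_le_one (by norm_num) (by norm_num) h2
    calc volume.real (KK A 0) ≤ _ := h3
      _ ≤ (3 / 4 : ℝ) ^ m * 8 ^ j * ((1 / 8) ^ j * (9 / 7)) := by gcongr
      _ = (3 / 4 : ℝ) ^ m * (8 ^ j * (1 / 8) ^ j) * (9 / 7) := by ring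
      _ = _ := by rw [h5]; ring
  have hlim : Tendsto (fun m : ℕ => (3 / 4 : ℝ) ^ m * (9 / 7)) atTop (𝓝 (0 * (9 / 7))) :=
    (tendsto_pow_atTop_nhds_zero_of_lt_one (by norm_num) (by norm_num)).mul_const _
  rw [zero_mul] at hlim
  exact ge_of_tendsto' hlim hm

theorem minimal {A : Set ℕ} (hA : A.Infinite) : IsEmpty (ach xx univ ≃ₜ ach xx Aᶜ) := by
  refine ⟨fun h => ?_⟩
  let g : Ico (2 / 7 : ℝ) 1 → ℝ := fun t => (h ⟨t, Icc_sub t.2⟩ : ℝ)
  have hg : Continuous g := by
    refine continuous_subtype_val.comp (h.continuous.comp ?_)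
    exact Continuous.subtype_mk continuous_subtype_val _
  have hinj : Function.Injective g := by
    intro a b hab
    have h1 : h ⟨a, Icc_sub a.2⟩ = h ⟨b, Icc_sub b.2⟩ := Subtype.ext hab
    have h2 := h.injective h1
    exact Subtype.ext (congrArg (fun z : ach xx univ => (z : ℝ)) h2)
  have : PreconnectedSpace (Ico (2 / 7 : ℝ) 1) := Subtype.preconnectedSpace isPreconnected_Ico
  have hpre : IsPreconnected (range g) := isPreconnected_range hg
  have hsub : range g ⊆ ach xx Aᶜ := by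
    rintro _ ⟨t, rfl⟩
    exact (h ⟨t, Icc_sub t.2⟩).2
  set p : Ico (2 / 7 : ℝ) 1 := ⟨3 / 7, by norm_num, by norm_num⟩
  set q : Ico (2 / 7 : ℝ) 1 := ⟨4 / 7, by norm_num, by norm_num⟩
  have hne : g p ≠ g q := fun h => by
    have := congrArg Subtype.val (hinj h)
    norm_num [p, q] at this
  have hfin : volume (ach xx Aᶜ) ≠ ⊤ := by
    have hc := isCompact_ach (fun n => (xx_pos n).le) xx_summable Aᶜ
    exact hc.measure_lt_top.ne
  have key : ∀ a b : ℝ, a ∈ range g → b ∈ range g → a < b → False := by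
    intro a b ha hb hab
    have h1 : Icc a b ⊆ ach xx Aᶜ := (hpre.ordConnected.out ha hb).trans hsub
    have h2 := measureReal_mono (μ := volume) h1 hfin
    rw [vol_zero hA, Real.volume_real_Icc_of_le hab.le] at h2
    linarith
  rcases lt_or_gt_of_ne hne with h1 | h1
  · exact key _ _ ⟨p, rfl⟩ ⟨q, rfl⟩ h1
  · exact key _ _ ⟨q, rfl⟩ ⟨p, rfl⟩ h1

end Q81.Cval
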