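import Mathlib

namespace Pool.Agent.Q81.DBal

open Finset

variable {n : ℕ}

/-- diagonally balanced symmetric positive matrix -/
def Bal (J : Matrix (Fin n) (Fin n) ℝ) : Prop :=
  J.IsSymm ∧ (∀ i j, 0 < J i j) ∧ ∀ i, J i i = ∑ j ∈ univ.erase i, J i j

lemma quad_nonneg {J : Matrix (Fin n) (Fin n) ℝ} (h : Bal J) (x : Fin n → ℝ) :
    0 ≤ ∑ i, ∑ j, J i j * x i * x j := by
  obtain ⟨hs, hp, hb⟩ := h
  have h1 : ∑ i, ∑ j, J i j * x i * x j =
      ∑ i, ∑ j ∈ univ.erase i, (J i j * x i ^ 2 + J i j * x i * x j) := by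
    apply sum_congr rfl
    intro i _
    rw [← add_sum_erase _ _ (mem_univ i), sum_add_distrib, ← sum_mul, ← hb i]
    ring
  have h2 : ∑ i, ∑ j ∈ univ.erase i, J i j * x i ^ 2 = ∑ i, ∑ j ∈ univ.erase i, J i j * x j ^ 2 := by
    have e : ∀ f : Fin n → Fin n → ℝ, ∑ i, ∑ j ∈ univ.erase i, f i j =
        ∑ i, ∑ j, if j = i then 0 else f i j := by
      intro f
      apply sum_congr rfl
      intro i _
      rw [← add_sum_erase univ (fun j => if j = i then 0 else f i j) (mem_univ i)]
      simp only [if_true, zero_add]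
      apply sum_congr rfl
      intro j hj
      rw [if_neg (ne_of_mem_erase hj)]
    rw [e, e, sum_comm]
    apply sum_congr rfl
    intro i _
    apply sum_congr rfl
    intro j _
    by_cases hij : i = j
    · simp [hij]
    · rw [if_neg hij, if_neg (Ne.symm hij), hs.apply]
  have h3 : 2 * ∑ i, ∑ j, J i j * x i * x j =
      ∑ i, ∑ j ∈ univ.erase i, J i j * (x i + x j) ^ 2 := by
    calc 2 * ∑ i, ∑ j, J i j * x i * x j
        = ∑ i, ∑ j ∈ univ.erase i, J i j * x i ^ 2 + ∑ i, ∑ j ∈ univ.erase i, J i j * x j ^ 2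
          + 2 * ∑ i, ∑ j ∈ univ.erase i, J i j * x i * x j := by
          rw [← h2, h1]
          simp only [sum_add_distrib]
          ring
      _ = _ := by
          rw [← sum_add_distrib, mul_sum, ← sum_add_distrib]
          apply sum_congr rfl
          intro i _
          rw [← sum_add_distrib, mul_sum, ← sum_add_distrib]
          apply sum_congr rfl
          intro j _
          ring
  have h4 : 0 ≤ ∑ i, ∑ j ∈ univ.erase i, J i j * (x i + x j) ^ 2 :=
    sum_nonneg fun i _ => sum_nonneg fun j _ => mul_nonneg (hp i j).le (sq_nonneg _)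
  linarith

lemma psd {J : Matrix (Fin n) (Fin n) ℝ} (h : Bal J) : J.PosSemidef := by
  apply Matrix.PosSemidef.of_dotProduct_mulVec_nonneg
  · ext i j
    simp [h.1.apply]
  · intro x
    have h1 : star x ⬝ᵥ J.mulVec x = ∑ i, ∑ j, J i j * x i * x j := by
      simp only [dotProduct, Matrix.mulVec, Pi.star_apply, star_trivial, mul_sum]
      apply sum_congr rfl
      intro i _
      apply sum_congr rfl
      intro j _
      ring
    rw [h1]
    exact quad_nonneg h x

/-- AM-GM in the needed form -/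
lemma amgm (e : Fin n → ℝ) (he : ∀ i, 0 ≤ e i) (i₀ : Fin n) (h2 : e i₀ = 2)
    (hs : ∑ i, e i = n) (hn : 3 ≤ n) :
    ∏ i, e i ≤ 2 * (1 - 1 / ((n : ℝ) - 1)) ^ (n - 1) := by
  have hn' : (3 : ℝ) ≤ n := by exact_mod_cast hn
  set c : ℝ := 1 - 1 / ((n : ℝ) - 1) with hc
  have hn1 : (0 : ℝ) < (n : ℝ) - 1 := by linarith
  have hc' : c = ((n : ℝ) - 2) / ((n : ℝ) - 1) := by
    rw [hc]; field_simp; ring
  have hc0 : 0 < c := by
    rw [hc']; apply div_pos <;> linarith
  have hterm : ∀ x : ℝ, x ≤ c * Real.exp (x / c - 1) := by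
    intro x
    have := Real.add_one_le_exp (x / c - 1)
    have h3 : x / c ≤ Real.exp (x / c - 1) := by linarith
    calc x = c * (x / c) := by field_simp
      _ ≤ _ := mul_le_mul_of_nonneg_left h3 hc0.le
  rw [← mul_prod_erase univ e (mem_univ i₀), h2]
  apply mul_le_mul_of_nonneg_left _ (by norm_num : (0 : ℝ) ≤ 2)
  have hcard : (univ.erase i₀ : Finset (Fin n)).card = n - 1 := by
    rw [card_erase_of_mem (mem_univ _), card_univ, Fintype.card_fin]
  have hsum : ∑ i ∈ univ.erase i₀, e i = (n : ℝ) - 2 := by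
    have := add_sum_erase univ e (mem_univ i₀)
    rw [hs, h2] at this
    linarith
  calc ∏ i ∈ univ.erase i₀, e i ≤ ∏ i ∈ univ.erase i₀, (c * Real.exp (e i / c - 1)) :=
        prod_le_prod (fun i _ => he i) (fun i _ => hterm _)
    _ = c ^ (n - 1) * Real.exp (∑ i ∈ univ.erase i₀, (e i / c - 1)) := by
        rw [prod_mul_distrib, prod_const, hcard, Real.exp_sum]
    _ = c ^ (n - 1) := by
        rw [sum_sub_distrib, ← sum_div, hsum, sum_const, hcard, nsmul_eq_mul, mul_one,
          Nat.cast_sub (by omega), Nat.cast_one, hc']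
        have h4 : ((n : ℝ) - 2) ≠ 0 := by linarith
        have h5 : ((n : ℝ) - 2) / (((n : ℝ) - 2) / ((n : ℝ) - 1)) - ((n : ℝ) - 1) = 0 := by
          field_simp
          ring
        rw [h5, Real.exp_zero, mul_one]

theorem main (hn : 3 ≤ n) {J : Matrix (Fin n) (Fin n) ℝ} (h : Bal J) :
    J.det / ∏ i, J i i ≤ 2 * (1 - 1 / ((n : ℝ) - 1)) ^ (n - 1) := by
  have hd : ∀ i, 0 < J i i := fun i => h.2.1 i i
  set s : Fin n → ℝ := fun i => (Real.sqrt (J i i))⁻¹ with hs
  have hsq : ∀ i, 0 < Real.sqrt (J i i) := fun i => Real.sqrt_pos.mpr (hd i)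
  set N : Matrix (Fin n) (Fin n) ℝ := Matrix.diagonal s * J * Matrix.diagonal s with hN
  have hNpsd : N.PosSemidef := by
    have h1 := (psd h).mul_mul_conjTranspose_same (Matrix.diagonal s)
    rw [Matrix.diagonal_conjTranspose] at h1
    simpa using h1
  have hNij : ∀ i j, N i j = J i j / (Real.sqrt (J i i) * Real.sqrt (J j j)) := by
    intro i j
    rw [hN, Matrix.mul_diagonal, Matrix.diagonal_mul, hs]
    field_simp
  have hH := hNpsd.isHermitian
  have htr : ∑ i, hH.eigenvalues i = n := by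
    have h1 := hH.trace_eq_sum_eigenvalues
    have h2 : N.trace = n := by
      rw [Matrix.trace]
      have h3 : ∀ i, N.diag i = 1 := by
        intro i
        rw [Matrix.diag_apply, hNij, Real.mul_self_sqrt (hd i).le, div_self (hd i).ne']
      rw [sum_congr rfl (fun i _ => h3 i)]
      simp
    rw [h2] at h1
    simpa using h1.symm
  have hdet : ∏ i, hH.eigenvalues i = J.det / ∏ i, J i i := by
    have h1 := hH.det_eq_prod_eigenvalues
    have h2 : N.det = J.det / ∏ i, J i i := by
      rw [hN, Matrix.det_mul, Matrix.det_mul, Matrix.det_diagonal, eq_div_iff (prod_pos fun i _ => hd i).ne']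
      have h3 : (∏ i, s i) * (∏ i, s i) * ∏ i, J i i = 1 := by
        rw [← prod_mul_distrib, ← prod_mul_distrib]
        apply prod_eq_one
        intro i _
        rw [hs]
        have := Real.mul_self_sqrt (hd i).le
        have h4 := (hsq i).ne'
        field_simp
        nlinarith
      calc (∏ i, s i) * J.det * (∏ i, s i) * ∏ i, J i i
          = J.det * ((∏ i, s i) * (∏ i, s i) * ∏ i, J i i) := by ring
        _ = J.det := by rw [h3, mul_one]
    rw [← h2, h1]
    simp
  have hrow : ∀ i, ∑ j, J i j = 2 * J i i := by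
    intro i
    rw [← add_sum_erase univ _ (mem_univ i), ← h.2.2 i]; ring
  have hev : ∃ i₀, hH.eigenvalues i₀ = 2 := by
    have h1 : (Matrix.scalar (Fin n) (2 : ℝ) - N).det = 0 := by
      rw [← Matrix.exists_mulVec_eq_zero_iff]
      refine ⟨fun i => Real.sqrt (J i i), ?_, ?_⟩
      · intro h0
        have := congrFun h0 ⟨0, by omega⟩
        exact (hsq _).ne' this
      · funext i
        rw [Matrix.sub_mulVec]
        have h5 : N.mulVec (fun i => Real.sqrt (J i i)) i = 2 * Real.sqrt (J i i) := by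
          rw [Matrix.mulVec, dotProduct]
          have h6 : ∀ j, N i j * Real.sqrt (J j j) = J i j / Real.sqrt (J i i) := by
            intro j
            rw [hNij]
            have := (hsq j).ne'
            field_simp
          simp only [h6]
          rw [← sum_div, hrow i]
          have := (hsq i).ne'
          have h7 := Real.mul_self_sqrt (hd i).le
          field_simp
          nlinarith
        rw [Pi.sub_apply, h5]
        simp [Matrix.scalar_apply, Matrix.mulVec_diagonal]
    have h2 : N.charpoly.eval 2 = 0 := by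
      rw [Matrix.eval_charpoly, h1]
    rw [hH.charpoly_eq, Polynomial.eval_prod] at h2
    obtain ⟨i, -, hi⟩ := prod_eq_zero_iff.mp h2
    refine ⟨i, ?_⟩
    simp at hi
    linarith
  obtain ⟨i₀, hi₀⟩ := hev
  rw [← hdet]
  exact amgm _ (fun i => hNpsd.eigenvalues_nonneg i) i₀ hi₀ htr hn

lemma detS (hn : 3 ≤ n) :
    (((n : ℝ) - 2) • (1 : Matrix (Fin n) (Fin n) ℝ) + Matrix.of fun _ _ => 1).det /
      ((n : ℝ) - 1) ^ n = 2 * (1 - 1 / ((n : ℝ) - 1)) ^ (n - 1) := by
  have hn' : (3 : ℝ) ≤ n := by exact_mod_cast hn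
  have h2 : ((n : ℝ) - 2) ≠ 0 := by linarith
  have h3 : ((n : ℝ) - 1) ≠ 0 := by linarith
  have h1 : (((n : ℝ) - 2) • (1 : Matrix (Fin n) (Fin n) ℝ) + Matrix.of fun _ _ => 1) =
      ((n : ℝ) - 2) • (1 + Matrix.replicateCol Unit (fun _ : Fin n => ((n : ℝ) - 2)⁻¹) *
        Matrix.replicateRow Unit (fun _ : Fin n => (1 : ℝ))) := by
    ext i j
    simp [Matrix.mul_apply, mul_add, h2]
  rw [h1, Matrix.det_smul, Matrix.det_one_add_replicateCol_mul_replicateRow, Fintype.card_fin]
  have h4 : ((fun _ : Fin n => (1 : ℝ)) ⬝ᵥ fun _ : Fin n => ((n : ℝ) - 2)⁻¹) = n * ((n : ℝ) - 2)⁻¹ := by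
    simp [dotProduct]
  rw [h4]
  obtain ⟨m, rfl⟩ : ∃ m, n = m + 1 := ⟨n - 1, by omega⟩
  rw [Nat.add_sub_cancel]
  have h5 : (1 - 1 / (((m + 1 : ℕ) : ℝ) - 1)) = (((m + 1 : ℕ) : ℝ) - 2) / (((m + 1 : ℕ) : ℝ) - 1) := by
    field_simp
    ring
  rw [h5, div_pow, pow_succ, pow_succ]
  field_simp
  ring

end Pool.Agent.Q81.DBal
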