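import Mathlib

set_option autoImplicit false

open Finset MeasureTheory Set Filter Topology

namespace Pool.Agent.Q81.ExpMax

variable {ι : Type*} [DecidableEq ι]

/-- alternating sum of the reciprocals of the subset sums, over the nonempty subsets -/
noncomputable def Sm (O : Finset ι) (a : ι → ℝ) : ℝ :=
  ∑ J ∈ O.powerset.erase ∅, (-1 : ℝ) ^ (J.card + 1) * (∑ j ∈ J, a j)⁻¹

noncomputable def Ph (O : Finset ι) (a : ι → ℝ) (x : ℝ) : ℝ :=
  ∑ J ∈ O.powerset, (-1 : ℝ) ^ J.card * (x + ∑ j ∈ J, a j)⁻¹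

noncomputable def Ps (O : Finset ι) (a : ι → ℝ) (x : ℝ) : ℝ :=
  ∑ J ∈ O.powerset, (-1 : ℝ) ^ J.card * ((x + ∑ j ∈ J, a j) ^ 2)⁻¹

lemma Ph_empty (a : ι → ℝ) (x : ℝ) : Ph ∅ a x = x⁻¹ := by simp [Ph]

lemma Ps_empty (a : ι → ℝ) (x : ℝ) : Ps ∅ a x = (x ^ 2)⁻¹ := by simp [Ps]

lemma Sm_empty (a : ι → ℝ) : Sm ∅ a = 0 := by simp [Sm]

lemma Ph_insert {O : Finset ι} {i : ι} (hi : i ∉ O) (a : ι → ℝ) (x : ℝ) :
    Ph (insert i O) a x = Ph O a x - Ph O a (x + a i) := by
  unfold Ph
  rw [Finset.sum_powerset_insert hi, sub_eq_add_neg, ← Finset.sum_neg_distrib]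
  congr 1
  apply Finset.sum_congr rfl
  intro J hJ
  have : i ∉ J := fun h => hi (Finset.mem_powerset.1 hJ h)
  rw [Finset.card_insert_of_notMem this, Finset.sum_insert this, pow_succ, add_assoc]
  ring

lemma Ps_insert {O : Finset ι} {i : ι} (hi : i ∉ O) (a : ι → ℝ) (x : ℝ) :
    Ps (insert i O) a x = Ps O a x - Ps O a (x + a i) := by
  unfold Ps
  rw [Finset.sum_powerset_insert hi, sub_eq_add_neg, ← Finset.sum_neg_distrib]
  congr 1
  apply Finset.sum_congr rfl
  intro J hJ
  have : i ∉ J := fun h => hi (Finset.mem_powerset.1 hJ h)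
  rw [Finset.card_insert_of_notMem this, Finset.sum_insert this, pow_succ, add_assoc]
  ring

lemma Sm_insert {O : Finset ι} {i : ι} (hi : i ∉ O) (a : ι → ℝ) :
    Sm (insert i O) a = Sm O a + Ph O a (a i) := by
  have key : ∀ O : Finset ι, Sm O a =
      ∑ J ∈ O.powerset, (if J = ∅ then 0 else (-1 : ℝ) ^ (J.card + 1) * (∑ j ∈ J, a j)⁻¹) := by
    intro O
    unfold Sm
    rw [← Finset.add_sum_erase _ _ (Finset.empty_mem_powerset O)]
    simp only [if_true, zero_add]
    apply Finset.sum_congr rfl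
    intro J hJ
    rw [if_neg (Finset.ne_of_mem_erase hJ)]
  rw [key, key, Finset.sum_powerset_insert hi]
  congr 1
  unfold Ph
  apply Finset.sum_congr rfl
  intro J hJ
  have : i ∉ J := fun h => hi (Finset.mem_powerset.1 hJ h)
  rw [if_neg (Finset.insert_ne_empty _ _), Finset.card_insert_of_notMem this,
    Finset.sum_insert this]
  ring

section maps
variable {κ : Type*} [DecidableEq κ]

lemma Ph_map (f : ι ↪ κ) (O : Finset ι) (a : κ → ℝ) (x : ℝ) :
    Ph (O.map f) a x = Ph O (a ∘ f) x := by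
  induction O using Finset.induction_on generalizing x with
  | empty => simp [Ph]
  | insert i O hi ih =>
    rw [Finset.map_insert, Ph_insert (by simpa using hi), Ph_insert hi, ih, ih]
    rfl

lemma Sm_map (f : ι ↪ κ) (O : Finset ι) (a : κ → ℝ) :
    Sm (O.map f) a = Sm O (a ∘ f) := by
  induction O using Finset.induction_on with
  | empty => simp [Sm]
  | insert i O hi ih =>
    rw [Finset.map_insert, Sm_insert (by simpa using hi), Sm_insert hi, ih, Ph_map]
    rfl

end maps

/-! ### constant values -/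

lemma Ph_const {O : Finset ι} {a : ι → ℝ} {c : ℝ} (hc : 0 < c) (ha : ∀ i ∈ O, a i = c) (x : ℝ)
    (hx : 0 < x) :
    Ph O a x = (O.card.factorial : ℝ) * c ^ O.card / ∏ j ∈ range (O.card + 1), (x + j * c) := by
  induction O using Finset.induction_on generalizing x with
  | empty => simp [Ph_empty]
  | insert i O hi ih =>
    have hai : a i = c := ha i (Finset.mem_insert_self _ _)
    have ha' : ∀ i ∈ O, a i = c := fun j hj => ha j (Finset.mem_insert_of_mem hj)
    rw [Ph_insert hi, ih ha' x hx, hai, ih ha' (x + c) (by linarith),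
      Finset.card_insert_of_notMem hi]
    set m := O.card with hm
    have hpos : ∀ j : ℕ, 0 < x + j * c := fun j => by positivity
    have hP : ∏ j ∈ range (m + 1), (x + c + j * c) = ∏ j ∈ range (m + 1), (x + ((j + 1 : ℕ) : ℝ) * c) := by
      apply Finset.prod_congr rfl
      intro j _
      push_cast; ring
    have h1 : ∏ j ∈ range (m + 1), (x + (j : ℝ) * c) =
        (∏ j ∈ range m, (x + ((j + 1 : ℕ) : ℝ) * c)) * x := by
      rw [Finset.prod_range_succ']; simp
    have h2 : ∏ j ∈ range (m + 1), (x + ((j + 1 : ℕ) : ℝ) * c) =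
        (∏ j ∈ range m, (x + ((j + 1 : ℕ) : ℝ) * c)) * (x + ((m + 1 : ℕ) : ℝ) * c) := by
      rw [Finset.prod_range_succ]
    have h3 : ∏ j ∈ range (m + 1 + 1), (x + (j : ℝ) * c) =
        (∏ j ∈ range m, (x + ((j + 1 : ℕ) : ℝ) * c)) * (x + ((m + 1 : ℕ) : ℝ) * c) * x := by
      rw [Finset.prod_range_succ', ← h2]; simp
    have hQ : 0 < ∏ j ∈ range m, (x + ((j + 1 : ℕ) : ℝ) * c) :=
      Finset.prod_pos fun j _ => hpos (j + 1)
    have hQ' := hQ.ne'
    have hm1 : 0 < x + ((m + 1 : ℕ) : ℝ) * c := hpos (m + 1)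
    have hm1' := hm1.ne'
    rw [hP, h1, h2, h3, Nat.factorial_succ]
    push_cast at hm1' ⊢
    set Q := ∏ j ∈ range m, (x + ((j : ℝ) + 1) * c) with hQdef
    have hQ0 : Q ≠ 0 := by
      have : Q = ∏ j ∈ range m, (x + ((j + 1 : ℕ) : ℝ) * c) := by
        rw [hQdef]; apply Finset.prod_congr rfl; intro j _; push_cast; ring
      rw [this]; exact hQ'
    field_simp
    ring

lemma Sm_const {O : Finset ι} {a : ι → ℝ} {c : ℝ} (hc : 0 < c) (ha : ∀ i ∈ O, a i = c) :
    Sm O a = (∑ j ∈ range O.card, ((j : ℝ) + 1)⁻¹) / c := by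
  induction O using Finset.induction_on with
  | empty => simp [Sm_empty]
  | insert i O hi ih =>
    have hai : a i = c := ha i (Finset.mem_insert_self _ _)
    have ha' : ∀ i ∈ O, a i = c := fun j hj => ha j (Finset.mem_insert_of_mem hj)
    rw [Sm_insert hi, ih ha', hai, Ph_const hc ha' c hc, Finset.card_insert_of_notMem hi,
      Finset.sum_range_succ, add_div]
    congr 1
    set m := O.card
    have : ∏ j ∈ range (m + 1), (c + (j : ℝ) * c) = ((m + 1).factorial : ℝ) * c ^ (m + 1) := by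
      generalize m + 1 = k
      induction k with
      | zero => simp
      | succ k ihk =>
        rw [Finset.prod_range_succ, ihk, Nat.factorial_succ]
        push_cast; ring
    rw [this, Nat.factorial_succ]
    have hf : ((m.factorial : ℕ) : ℝ) ≠ 0 := by positivity
    have hc' := hc.ne'
    have hm : ((m : ℝ) + 1) ≠ 0 := by positivity
    push_cast
    field_simp
    ring

end Pool.Agent.Q81.ExpMax
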