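import Mathlib
import Pool.Agent.Q81.ExpMax

set_option autoImplicit false
set_option linter.unusedSectionVars false

open Finset MeasureTheory Set Filter Topology

namespace Pool.Agent.Q81.ExpMax

variable {ι : Type*} [DecidableEq ι]

/-- product of `1 - exp (- a_j t)` -/
noncomputable def Pr (O : Finset ι) (a : ι → ℝ) (t : ℝ) : ℝ :=
  ∏ j ∈ O, (1 - Real.exp (-(a j * t)))

lemma Pr_cont (O : Finset ι) (a : ι → ℝ) : Continuous (Pr O a) := by
  unfold Pr
  fun_prop

lemma fac_mem {c t : ℝ} (hc : 0 < c) (ht : 0 < t) :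
    0 < 1 - Real.exp (-(c * t)) ∧ 1 - Real.exp (-(c * t)) ≤ 1 := by
  constructor
  · have : Real.exp (-(c * t)) < 1 := by
      rw [← Real.exp_zero]; exact Real.exp_lt_exp.2 (by nlinarith [mul_pos hc ht])
    linarith
  · have := Real.exp_pos (-(c * t))
    linarith

lemma Pr_pos {O : Finset ι} {a : ι → ℝ} (ha : ∀ i ∈ O, 0 < a i) {t : ℝ} (ht : 0 < t) :
    0 < Pr O a t := Finset.prod_pos fun i hi => (fac_mem (ha i hi) ht).1

lemma Pr_le {O : Finset ι} {a : ι → ℝ} (ha : ∀ i ∈ O, 0 < a i) {t : ℝ} (ht : 0 < t) :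
    Pr O a t ≤ 1 :=
  Finset.prod_le_one (fun i hi => (fac_mem (ha i hi) ht).1.le) fun i hi => (fac_mem (ha i hi) ht).2

lemma base_int {x : ℝ} (hx : 0 < x) :
    IntegrableOn (fun t : ℝ => t * Real.exp (-(x * t))) (Ioi 0) := by
  have h := integrableOn_rpow_mul_exp_neg_mul_rpow (s := 1) (p := 1) (b := x) (by norm_num)
    one_pos hx
  simpa using h

lemma base_val {x : ℝ} (hx : 0 < x) :
    ∫ t in Ioi (0 : ℝ), t * Real.exp (-(x * t)) = (x ^ 2)⁻¹ := by
  have h := Real.integral_rpow_mul_exp_neg_mul_Ioi (a := 2) (r := x) (by norm_num) hx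
  have h1 : (2 : ℝ) - 1 = 1 := by norm_num
  rw [h1] at h
  simp only [Real.rpow_one] at h
  rw [h, Real.Gamma_two, mul_one]
  rw [show (1 / x) ^ (2 : ℝ) = (1 / x) ^ (2 : ℕ) from by
    rw [← Real.rpow_natCast]; norm_num]
  rw [one_div, inv_pow]

lemma int_int {O : Finset ι} {a : ι → ℝ} (ha : ∀ i ∈ O, 0 < a i) {x : ℝ} (hx : 0 < x) :
    IntegrableOn (fun t : ℝ => t * Real.exp (-(x * t)) * Pr O a t) (Ioi 0) := by
  refine Integrable.mono' (base_int hx) ?_ ?_
  · apply Continuous.aestronglyMeasurable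
    exact (by fun_prop : Continuous fun t : ℝ => t * Real.exp (-(x * t))).mul (Pr_cont O a)
  · refine (ae_restrict_mem measurableSet_Ioi).mono fun t ht => ?_
    have ht' : 0 < t := ht
    have h1 := Pr_pos ha ht'
    have h2 := Pr_le ha ht'
    have h3 : 0 < t * Real.exp (-(x * t)) := by positivity
    rw [Real.norm_eq_abs, abs_of_pos (by positivity)]
    calc _ ≤ t * Real.exp (-(x * t)) * 1 := by gcongr
      _ = _ := mul_one _

lemma Pr_insert {O : Finset ι} {i : ι} (hi : i ∉ O) (a : ι → ℝ) (t : ℝ) :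
    Pr (insert i O) a t = (1 - Real.exp (-(a i * t))) * Pr O a t := by
  unfold Pr; rw [Finset.prod_insert hi]

lemma int_val {O : Finset ι} {a : ι → ℝ} (ha : ∀ i ∈ O, 0 < a i) {x : ℝ} (hx : 0 < x) :
    ∫ t in Ioi (0 : ℝ), t * Real.exp (-(x * t)) * Pr O a t = Ps O a x := by
  induction O using Finset.induction_on generalizing x with
  | empty => simpa [Pr, Ps_empty] using base_val hx
  | insert i O hi ih =>
    have hai : 0 < a i := ha i (Finset.mem_insert_self _ _)
    have ha' : ∀ i ∈ O, 0 < a i := fun j hj => ha j (Finset.mem_insert_of_mem hj)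
    rw [Ps_insert hi, ← ih ha' hx, ← ih ha' (x := x + a i) (by linarith),
      ← integral_sub (int_int ha' hx) (int_int ha' (by linarith))]
    congr 1
    ext t
    rw [Pr_insert hi]
    have : Real.exp (-((x + a i) * t)) = Real.exp (-(x * t)) * Real.exp (-(a i * t)) := by
      rw [← Real.exp_add]; congr 1; ring
    rw [this]; ring

/-- the weight function -/
noncomputable def Dd (x y t : ℝ) : ℝ :=
  x ^ 3 * Real.exp (-(x * t)) * (1 - Real.exp (-(y * t))) -
    y ^ 3 * Real.exp (-(y * t)) * (1 - Real.exp (-(x * t)))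

noncomputable def Ii (O : Finset ι) (a : ι → ℝ) (x y : ℝ) : ℝ :=
  x ^ 3 * (Ps O a x - Ps O a (x + y)) - y ^ 3 * (Ps O a y - Ps O a (x + y))

lemma Ii_eq {O : Finset ι} {a : ι → ℝ} (ha : ∀ i ∈ O, 0 < a i) {x y : ℝ} (hx : 0 < x)
    (hy : 0 < y) :
    IntegrableOn (fun t : ℝ => t * Pr O a t * Dd x y t) (Ioi 0) ∧
    ∫ t in Ioi (0 : ℝ), t * Pr O a t * Dd x y t = Ii O a x y := by
  have e : (fun t : ℝ => t * Pr O a t * Dd x y t) = fun t =>
      x ^ 3 * (t * Real.exp (-(x * t)) * Pr O a t - t * Real.exp (-((x + y) * t)) * Pr O a t) -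
      y ^ 3 * (t * Real.exp (-(y * t)) * Pr O a t - t * Real.exp (-((x + y) * t)) * Pr O a t) := by
    ext t
    have : Real.exp (-((x + y) * t)) = Real.exp (-(x * t)) * Real.exp (-(y * t)) := by
      rw [← Real.exp_add]; congr 1; ring
    rw [this]; unfold Dd; ring
  have i1 := int_int ha hx
  have i2 := int_int ha hy
  have i3 := int_int ha (x := x + y) (by linarith)
  have j1 : IntegrableOn (fun t : ℝ => x ^ 3 * (t * Real.exp (-(x * t)) * Pr O a t -
      t * Real.exp (-((x + y) * t)) * Pr O a t)) (Ioi 0) := (i1.sub i3).const_mul (x ^ 3)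
  have j2 : IntegrableOn (fun t : ℝ => y ^ 3 * (t * Real.exp (-(y * t)) * Pr O a t -
      t * Real.exp (-((x + y) * t)) * Pr O a t)) (Ioi 0) := (i2.sub i3).const_mul (y ^ 3)
  constructor
  · rw [e]; exact j1.sub j2
  · rw [e]
    unfold Ii
    rw [← int_val ha hx, ← int_val ha hy, ← int_val ha (x := x + y) (by linarith),
      ← integral_sub i1 i3, ← integral_sub i2 i3, ← integral_const_mul, ← integral_const_mul,
      ← integral_sub j1 j2]

/-- single crossing -/
lemma crossing {x y : ℝ} (hx : 0 < x) (hxy : x < y) :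
    ∃ t₀ : ℝ, 0 < t₀ ∧ (∀ t, 0 < t → t ≤ t₀ → Dd x y t ≤ 0) ∧ (∀ t, t₀ ≤ t → 0 ≤ Dd x y t) := by
  have hy : 0 < y := hx.trans hxy
  set G : ℝ → ℝ := fun t => x ^ 3 * (Real.exp (y * t) - 1) - y ^ 3 * (Real.exp (x * t) - 1) with hG
  have hD : ∀ t, Dd x y t = Real.exp (-(x * t)) * Real.exp (-(y * t)) * G t := by
    intro t
    have h1 : Real.exp (-(x * t)) * Real.exp (x * t) = 1 := by rw [← Real.exp_add]; simp
    have h2 : Real.exp (-(y * t)) * Real.exp (y * t) = 1 := by rw [← Real.exp_add]; simp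
    simp only [hG, Dd]
    linear_combination (-(x ^ 3) * Real.exp (-(x * t))) * h2 +
      (y ^ 3 * Real.exp (-(y * t))) * h1
  have hGd : ∀ t, HasDerivAt G (x * y * Real.exp (x * t) * (x ^ 2 * Real.exp ((y - x) * t) - y ^ 2)) t := by
    intro t
    have h1 : HasDerivAt (fun t => Real.exp (y * t)) (Real.exp (y * t) * (y * 1)) t :=
      ((hasDerivAt_id t).const_mul y).exp
    have h2 : HasDerivAt (fun t => Real.exp (x * t)) (Real.exp (x * t) * (x * 1)) t :=
      ((hasDerivAt_id t).const_mul x).exp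
    have h3 := ((h1.sub_const 1).const_mul (x ^ 3)).sub ((h2.sub_const 1).const_mul (y ^ 3))
    refine h3.congr_deriv ?_
    have : Real.exp (y * t) = Real.exp (x * t) * Real.exp ((y - x) * t) := by
      rw [← Real.exp_add]; congr 1; ring
    rw [this]; ring
  have hGc : Continuous G := by
    simp only [hG]; fun_prop
  set L : ℝ := Real.log (y / x) with hL
  have hyx : 1 < y / x := by rwa [one_lt_div hx]
  have hLpos : 0 < L := Real.log_pos hyx
  have hd : 0 < y - x := by linarith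
  set t₁ : ℝ := 2 * L / (y - x) with ht₁
  set T : ℝ := 3 * L / (y - x) with hT
  have ht₁pos : 0 < t₁ := by positivity
  have ht₁T : t₁ < T := by
    rw [ht₁, hT]; gcongr; norm_num
  have hexp : ∀ t, x ^ 2 * Real.exp ((y - x) * t) - y ^ 2 =
      x ^ 2 * (Real.exp ((y - x) * t) - Real.exp ((y - x) * t₁)) := by
    intro t
    have : (y - x) * t₁ = L + L := by rw [ht₁]; field_simp; ring
    rw [this, Real.exp_add, hL, Real.exp_log (by positivity)]
    field_simp
  have hanti : AntitoneOn G (Icc 0 t₁) := by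
    apply antitoneOn_of_deriv_nonpos (convex_Icc 0 t₁) hGc.continuousOn
    · intro t _; exact (hGd t).differentiableAt.differentiableWithinAt
    · intro t ht
      rw [interior_Icc] at ht
      rw [(hGd t).deriv, hexp]
      have : Real.exp ((y - x) * t) ≤ Real.exp ((y - x) * t₁) :=
        Real.exp_le_exp.2 (by nlinarith [ht.2])
      have h0 : 0 < x * y * Real.exp (x * t) := by positivity
      have : x ^ 2 * (Real.exp ((y - x) * t) - Real.exp ((y - x) * t₁)) ≤ 0 := by
        apply mul_nonpos_of_nonneg_of_nonpos (by positivity); linarith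
      nlinarith
  have hmono : MonotoneOn G (Ici t₁) := by
    apply monotoneOn_of_deriv_nonneg (convex_Ici t₁) hGc.continuousOn
    · intro t _; exact (hGd t).differentiableAt.differentiableWithinAt
    · intro t ht
      rw [interior_Ici] at ht
      have ht' : t₁ < t := ht
      rw [(hGd t).deriv, hexp]
      have h1 : Real.exp ((y - x) * t₁) ≤ Real.exp ((y - x) * t) :=
        Real.exp_le_exp.2 (by nlinarith)
      have h0 : 0 < x * y * Real.exp (x * t) := by positivity
      have : 0 ≤ x ^ 2 * (Real.exp ((y - x) * t) - Real.exp ((y - x) * t₁)) := by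
        apply mul_nonneg (by positivity); linarith
      positivity
  have hG0 : G 0 = 0 := by simp [hG]
  have hG1 : G t₁ ≤ 0 := by
    rw [← hG0]; exact hanti ⟨le_rfl, ht₁pos.le⟩ ⟨ht₁pos.le, le_rfl⟩ ht₁pos.le
  have hGT : 0 ≤ G T := by
    have e1 : Real.exp (y * T) = Real.exp (x * T) * (y / x) ^ 3 := by
      have : y * T = x * T + (L + L + L) := by rw [hT]; field_simp; ring
      rw [this, Real.exp_add, Real.exp_add, Real.exp_add, hL, Real.exp_log (by positivity)]
      ring
    have : G T = y ^ 3 - x ^ 3 := by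
      simp only [hG]; rw [e1]; field_simp; ring
    rw [this]
    have : x ^ 3 ≤ y ^ 3 := by gcongr
    linarith
  obtain ⟨t₀, ht₀, hGt₀⟩ := intermediate_value_Icc ht₁T.le hGc.continuousOn ⟨hG1, hGT⟩
  refine ⟨t₀, lt_of_lt_of_le ht₁pos ht₀.1, ?_, ?_⟩
  · intro t ht htt
    rw [hD]
    have hGt : G t ≤ 0 := by
      rcases le_total t t₁ with h | h
      · rw [← hG0]; exact hanti ⟨le_rfl, ht₁pos.le⟩ ⟨ht.le, h⟩ ht.le
      · rw [← hGt₀]; exact hmono h ht₀.1 htt
    have : 0 < Real.exp (-(x * t)) * Real.exp (-(y * t)) := by positivity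
    nlinarith
  · intro t htt
    rw [hD]
    have hGt : 0 ≤ G t := by
      rw [← hGt₀]; exact hmono ht₀.1 (ht₀.1.trans htt) htt
    positivity

/-- `(1 - exp (-c t)) / (1 - exp (-a t))` is monotone for `c ≤ a` -/
lemma ratio_mono {c a s t : ℝ} (hc : 0 < c) (hca : c ≤ a) (hs : 0 < s) (hst : s ≤ t) :
    (1 - Real.exp (-(c * s))) * (1 - Real.exp (-(a * t))) ≤
      (1 - Real.exp (-(c * t))) * (1 - Real.exp (-(a * s))) := by
  have ha : 0 < a := hc.trans_le hca
  have hden : ∀ t : ℝ, 0 < t → 0 < 1 - Real.exp (-(a * t)) := fun t ht => (fac_mem ha ht).1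
  have hmono : MonotoneOn (fun t => (1 - Real.exp (-(c * t))) / (1 - Real.exp (-(a * t)))) (Ioi 0) := by
    have hd : ∀ t ∈ Ioi (0:ℝ), HasDerivAt (fun t => (1 - Real.exp (-(c * t))) / (1 - Real.exp (-(a * t))))
        ((c * Real.exp (-(c * t)) * (1 - Real.exp (-(a * t))) -
          (1 - Real.exp (-(c * t))) * (a * Real.exp (-(a * t)))) / (1 - Real.exp (-(a * t))) ^ 2) t := by
      intro t ht
      have h1 : HasDerivAt (fun t => 1 - Real.exp (-(c * t))) (c * Real.exp (-(c * t))) t := by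
        have := ((((hasDerivAt_id t).const_mul c).neg).exp).const_sub 1
        refine this.congr_deriv ?_
        simp; ring
      have h2 : HasDerivAt (fun t => 1 - Real.exp (-(a * t))) (a * Real.exp (-(a * t))) t := by
        have := ((((hasDerivAt_id t).const_mul a).neg).exp).const_sub 1
        refine this.congr_deriv ?_
        simp; ring
      exact h1.div h2 (hden t ht).ne'
    apply monotoneOn_of_deriv_nonneg (convex_Ioi 0)
    · intro t ht; exact (hd t ht).continuousAt.continuousWithinAt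
    · intro t ht; rw [interior_Ioi] at ht
      exact (hd t ht).differentiableAt.differentiableWithinAt
    · intro t ht
      rw [interior_Ioi] at ht
      have ht' : 0 < t := ht
      rw [(hd t ht).deriv]
      apply div_nonneg _ (sq_nonneg _)
      -- c (e^{at} - 1) ≥ a (e^{ct} - 1)
      have key : a * (Real.exp (c * t) - 1) ≤ c * (Real.exp (a * t) - 1) := by
        have hconv := convexOn_exp
        have h := hconv.2 (Set.mem_univ (0:ℝ)) (Set.mem_univ (a * t))
          (show 0 ≤ 1 - c / a from by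
            have : c / a ≤ 1 := (div_le_one ha).2 hca
            linarith) (show 0 ≤ c / a by positivity) (by ring)
        simp only [smul_eq_mul, mul_zero, zero_add, Real.exp_zero, mul_one] at h
        have e : c / a * (a * t) = c * t := by field_simp
        rw [e] at h
        have h' := mul_le_mul_of_nonneg_left h ha.le
        have e2 : a * (1 - c / a + c / a * Real.exp (a * t)) = a - c + c * Real.exp (a * t) := by
          field_simp
        rw [e2] at h'
        linarith
      have h1 : Real.exp (-(c * t)) * Real.exp (c * t) = 1 := by rw [← Real.exp_add]; simp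
      have h2 : Real.exp (-(a * t)) * Real.exp (a * t) = 1 := by rw [← Real.exp_add]; simp
      have h3 : 0 < Real.exp (-(c * t)) * Real.exp (-(a * t)) := by positivity
      have e3 : c * Real.exp (-(c * t)) * (1 - Real.exp (-(a * t))) -
          (1 - Real.exp (-(c * t))) * (a * Real.exp (-(a * t))) =
          Real.exp (-(c * t)) * Real.exp (-(a * t)) *
            (c * (Real.exp (a * t) - 1) - a * (Real.exp (c * t) - 1)) := by
        linear_combination (-(c * Real.exp (-(c * t)))) * h2 + (a * Real.exp (-(a * t))) * h1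
      rw [e3]
      apply mul_nonneg h3.le; linarith
  have ht : 0 < t := hs.trans_le hst
  have h := hmono hs ht hst
  simp only at h
  rw [div_le_div_iff₀ (hden s hs) (hden t ht)] at h
  exact h

lemma fac_mono {c s t : ℝ} (hc : 0 < c) (hst : s ≤ t) :
    1 - Real.exp (-(c * s)) ≤ 1 - Real.exp (-(c * t)) := by
  have : Real.exp (-(c * t)) ≤ Real.exp (-(c * s)) := Real.exp_le_exp.2 (by nlinarith)
  linarith

/-- monotonicity of the quotient of the products -/
lemma Pr_ratio {O : Finset ι} {a : ι → ℝ} (ha : ∀ i ∈ O, 0 < a i) {x y : ℝ} 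
    {k l : ι} (hk : k ∈ O) (hl : l ∈ O) (hkl : k ≠ l) (hkx : a k ≤ x) (hly : a l ≤ y)
    {s t : ℝ} (hs : 0 < s) (hst : s ≤ t) :
    Pr O a s * ((1 - Real.exp (-(x * t))) * (1 - Real.exp (-(y * t)))) ≤
      Pr O a t * ((1 - Real.exp (-(x * s))) * (1 - Real.exp (-(y * s)))) := by
  have ht : 0 < t := hs.trans_le hst
  have hx : 0 < x := (ha k hk).trans_le hkx
  have hy : 0 < y := (ha l hl).trans_le hly
  have hsplit : ∀ t, Pr O a t = (1 - Real.exp (-(a k * t))) * ((1 - Real.exp (-(a l * t))) *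
      Pr ((O.erase k).erase l) a t) := by
    intro t
    unfold Pr
    rw [← Finset.mul_prod_erase O _ hk, ← Finset.mul_prod_erase (O.erase k) _
      (Finset.mem_erase.2 ⟨hkl.symm, hl⟩)]
  set R := (O.erase k).erase l with hR
  have haR : ∀ i ∈ R, 0 < a i := fun i hi =>
    ha i (Finset.mem_of_mem_erase (Finset.mem_of_mem_erase hi))
  have hRm : Pr R a s ≤ Pr R a t := by
    unfold Pr
    apply Finset.prod_le_prod
    · intro i hi; exact (fac_mem (haR i hi) hs).1.le
    · intro i hi; exact fac_mono (haR i hi) hst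
  have h1 := ratio_mono (ha k hk) hkx hs hst
  have h2 := ratio_mono (ha l hl) hly hs hst
  rw [hsplit, hsplit]
  have p1 := (fac_mem (ha k hk) hs).1
  have p2 := (fac_mem (ha l hl) hs).1
  have p3 := (fac_mem hx ht).1
  have p4 := (fac_mem hy ht).1
  have p5 := Pr_pos haR hs
  have q1 := (fac_mem (ha k hk) ht).1
  have q2 := (fac_mem (ha l hl) ht).1
  have q3 := (fac_mem hx hs).1
  have q4 := (fac_mem hy hs).1
  calc _ = ((1 - Real.exp (-(a k * s))) * (1 - Real.exp (-(x * t)))) *
        ((1 - Real.exp (-(a l * s))) * (1 - Real.exp (-(y * t)))) * Pr R a s := by ring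
    _ ≤ ((1 - Real.exp (-(a k * t))) * (1 - Real.exp (-(x * s)))) *
        ((1 - Real.exp (-(a l * t))) * (1 - Real.exp (-(y * s)))) * Pr R a t := by
        gcongr
    _ = _ := by ring

/-- the base integral is positive -/
lemma base_pos {x y : ℝ} (hx : 0 < x) (hxy : x < y) :
    0 < Ii (Finset.univ : Finset (Fin 2)) ![x, y] x y := by
  have h : ∀ z : ℝ, Ps (Finset.univ : Finset (Fin 2)) ![x, y] z =
      (z ^ 2)⁻¹ - ((z + x) ^ 2)⁻¹ - ((z + y) ^ 2)⁻¹ + ((z + x + y) ^ 2)⁻¹ := by
    intro z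
    have e : (Finset.univ : Finset (Fin 2)) = insert 0 (insert 1 ∅) := by decide
    rw [e, Ps_insert (by decide), Ps_insert (by decide), Ps_insert (by decide), Ps_empty, Ps_empty,
      Ps_empty, Ps_empty]
    simp
    ring
  unfold Ii
  rw [h, h, h]
  obtain ⟨d, rfl⟩ : ∃ d, y = x + d := ⟨y - x, by ring⟩
  have hd : 0 < d := by linarith
  have key : x ^ 3 * ((x ^ 2)⁻¹ - ((x + x) ^ 2)⁻¹ - ((x + (x + d)) ^ 2)⁻¹ + ((x + x + (x + d)) ^ 2)⁻¹ -
      (((x + (x + d)) ^ 2)⁻¹ - ((x + (x + d) + x) ^ 2)⁻¹ - ((x + (x + d) + (x + d)) ^ 2)⁻¹ +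
        ((x + (x + d) + x + (x + d)) ^ 2)⁻¹)) -
      (x + d) ^ 3 * (((x + d) ^ 2)⁻¹ - ((x + d + x) ^ 2)⁻¹ - ((x + d + (x + d)) ^ 2)⁻¹ +
        ((x + d + x + (x + d)) ^ 2)⁻¹ -
      (((x + (x + d)) ^ 2)⁻¹ - ((x + (x + d) + x) ^ 2)⁻¹ - ((x + (x + d) + (x + d)) ^ 2)⁻¹ +
        ((x + (x + d) + x + (x + d)) ^ 2)⁻¹)) =
      x * d * (15 * x ^ 5 + 45 * x ^ 4 * d + 99 * x ^ 3 * d ^ 2 + 123 * x ^ 2 * d ^ 3 + 66 * x * d ^ 4 +
        12 * d ^ 5) * (4 * (2 * x + d) ^ 2 * (3 * x + d) ^ 2 * (3 * x + 2 * d) ^ 2)⁻¹ := by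
    have h1 : x ≠ 0 := hx.ne'
    have h2 : x + d ≠ 0 := by positivity
    have h3 : 2 * x + d ≠ 0 := by positivity
    have h4 : 3 * x + d ≠ 0 := by positivity
    have h5 : 3 * x + 2 * d ≠ 0 := by positivity
    have e1 : x + (x + d) = 2 * x + d := by ring
    have e2 : x + x + (x + d) = 3 * x + d := by ring
    have e3 : x + (x + d) + x = 3 * x + d := by ring
    have e4 : x + (x + d) + (x + d) = 3 * x + 2 * d := by ring
    have e5 : x + (x + d) + x + (x + d) = 2 * (2 * x + d) := by ring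
    have e6 : x + d + x = 2 * x + d := by ring
    have e7 : x + d + (x + d) = 2 * (x + d) := by ring
    have e8 : x + d + x + (x + d) = 3 * x + 2 * d := by ring
    have e9 : x + x = 2 * x := by ring
    rw [e5, e3, e4, e2, e8, e7, e6, e1, e9]
    field_simp
    ring
  rw [key]
  positivity

/-- **the key inequality** -/
theorem Ii_pos {O : Finset ι} {a : ι → ℝ} (ha : ∀ i ∈ O, 0 < a i) {x y : ℝ} 
    {k l : ι} (hk : k ∈ O) (hl : l ∈ O) (hkl : k ≠ l) (hkx : a k ≤ x) (hly : a l ≤ y)
    (hxy : x < y) : 0 < Ii O a x y := by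
  have hx : 0 < x := (ha k hk).trans_le hkx
  have hy : 0 < y := hx.trans hxy
  obtain ⟨t₀, ht₀, hneg, hpos⟩ := crossing hx hxy
  set P0 : ℝ → ℝ := fun t => Pr (Finset.univ : Finset (Fin 2)) ![x, y] t with hP0
  have hP0e : ∀ t, P0 t = (1 - Real.exp (-(x * t))) * (1 - Real.exp (-(y * t))) := by
    intro t
    simp [hP0, Pr, Fin.prod_univ_two]
  have ha2 : ∀ i ∈ (Finset.univ : Finset (Fin 2)), 0 < (![x, y] : Fin 2 → ℝ) i := by
    intro i _; fin_cases i <;> simp [hx, hy]
  obtain ⟨i1, v1⟩ := Ii_eq ha hx hy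
  obtain ⟨i2, v2⟩ := Ii_eq ha2 hx hy
  have hJ := base_pos hx hxy
  have hp0 : 0 < P0 t₀ := Pr_pos ha2 ht₀
  have hp : 0 < Pr O a t₀ := Pr_pos ha ht₀
  have hle : Pr O a t₀ * Ii (Finset.univ : Finset (Fin 2)) ![x, y] x y ≤ P0 t₀ * Ii O a x y := by
    rw [← v1, ← v2, ← integral_const_mul, ← integral_const_mul]
    apply setIntegral_mono_on (i2.const_mul _) (i1.const_mul _) measurableSet_Ioi
    intro t ht
    have ht' : 0 < t := ht
    have hgoal : 0 ≤ (Pr O a t * P0 t₀ - Pr O a t₀ * P0 t) * Dd x y t := by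
      rcases le_total t t₀ with h | h
      · have h1 := Pr_ratio ha hk hl hkl hkx hly ht' h
        have h2 := hneg t ht' h
        rw [← hP0e, ← hP0e] at h1
        apply mul_nonneg_of_nonpos_of_nonpos _ h2
        linarith
      · have h1 := Pr_ratio ha hk hl hkl hkx hly ht₀ h
        have h2 := hpos t h
        rw [← hP0e, ← hP0e] at h1
        apply mul_nonneg _ h2
        linarith
    have : 0 ≤ t * ((Pr O a t * P0 t₀ - Pr O a t₀ * P0 t) * Dd x y t) := by positivity
    simp only [hP0] at this ⊢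
    nlinarith [this]
  have : 0 < P0 t₀ * Ii O a x y := lt_of_lt_of_le (by positivity) hle
  exact (pos_iff_pos_of_mul_pos this).1 hp0

end Pool.Agent.Q81.ExpMax
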