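import Mathlib
import Pool.Agent.Q81.ExpMaxI

set_option autoImplicit false
set_option linter.unusedSectionVars false

open Finset MeasureTheory Set Filter Topology

namespace Pool.Agent.Q81.ExpMax

variable {ι : Type*} [DecidableEq ι]

lemma sum_nonneg' {O : Finset ι} {a : ι → ℝ} (ha : ∀ i ∈ O, 0 < a i) {J : Finset ι} (hJ : J ⊆ O) :
    0 ≤ ∑ j ∈ J, a j := Finset.sum_nonneg fun i hi => (ha i (hJ hi)).le

lemma Ph_deriv {O : Finset ι} {a : ι → ℝ} (ha : ∀ i ∈ O, 0 < a i) {x : ℝ} (hx : 0 < x) :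
    HasDerivAt (Ph O a) (-(Ps O a x)) x := by
  unfold Ph Ps
  rw [← Finset.sum_neg_distrib]
  apply HasDerivAt.fun_sum
  intro J hJ
  have hs := sum_nonneg' ha (Finset.mem_powerset.1 hJ)
  have h1 : HasDerivAt (fun x : ℝ => x + ∑ j ∈ J, a j) 1 x := (hasDerivAt_id x).add_const _
  have h2 := (h1.inv (by positivity)).const_mul ((-1 : ℝ) ^ J.card)
  refine h2.congr_deriv ?_
  rw [div_eq_mul_inv]; ring

lemma Ph_congr {O : Finset ι} {a b : ι → ℝ} (h : ∀ i ∈ O, a i = b i) (x : ℝ) :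
    Ph O a x = Ph O b x := by
  unfold Ph
  apply Finset.sum_congr rfl
  intro J hJ
  rw [Finset.sum_congr rfl fun i hi => h i (Finset.mem_powerset.1 hJ hi)]

lemma Sm_congr {O : Finset ι} {a b : ι → ℝ} (h : ∀ i ∈ O, a i = b i) :
    Sm O a = Sm O b := by
  unfold Sm
  apply Finset.sum_congr rfl
  intro J hJ
  rw [Finset.sum_congr rfl fun i hi => h i (Finset.mem_powerset.1 (Finset.mem_of_mem_erase hJ) hi)]

/-- the function of two values -/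
noncomputable def Tw (O : Finset ι) (a : ι → ℝ) (x y : ℝ) : ℝ :=
  Sm O a + Ph O a y + Ph O a x - Ph O a (x + y)

lemma Sm_two {O : Finset ι} {a : ι → ℝ} {i j : ι} (hij : i ≠ j) (hi : i ∉ O) (hj : j ∉ O) :
    Sm (insert i (insert j O)) a = Tw O a (a i) (a j) := by
  rw [Sm_insert (by simp [hij, hi]), Sm_insert hj, Ph_insert hj]
  unfold Tw; ring

lemma hasDeriv_invsqrt {u : ℝ} (hu : 0 < u) (e : ℝ) :
    HasDerivAt (fun τ : ℝ => (√(u + e * τ))⁻¹) (-(e / 2) * ((√u)⁻¹) ^ 3) 0 := by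
  have h0 : HasDerivAt (fun τ : ℝ => u + e * τ) e 0 := by
    simpa using ((hasDerivAt_id (0 : ℝ)).const_mul e).const_add u
  have hu' : u + e * 0 ≠ 0 := by simpa using hu.ne'
  have h1 := h0.sqrt hu'
  have hs : √(u + e * 0) ≠ 0 := by
    rw [mul_zero, add_zero]; exact (Real.sqrt_pos.2 hu).ne'
  have h2 := h1.inv hs
  refine h2.congr_deriv ?_
  simp only [mul_zero, add_zero]
  have : √u ≠ 0 := (Real.sqrt_pos.2 hu).ne'
  field_simp

lemma descent {O : Finset ι} {a : ι → ℝ} (ha : ∀ i ∈ O, 0 < a i) {u v : ℝ} (hv : 0 < v)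
    (hvu : v < u) {k l : ι} (hk : k ∈ O) (hl : l ∈ O) (hkl : k ≠ l) (hkx : a k ≤ (√u)⁻¹)
    (hly : a l ≤ (√v)⁻¹) :
    ∃ τ : ℝ, 0 < τ ∧ v + τ ≤ u - τ ∧
      Tw O a (√(u - τ))⁻¹ (√(v + τ))⁻¹ < Tw O a (√u)⁻¹ (√v)⁻¹ := by
  have hu : 0 < u := hv.trans hvu
  set x := (√u)⁻¹ with hx
  set y := (√v)⁻¹ with hy
  have hxpos : 0 < x := inv_pos.2 (Real.sqrt_pos.2 hu)
  have hypos : 0 < y := inv_pos.2 (Real.sqrt_pos.2 hv)
  have hxy : x < y := by
    rw [hx, hy]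
    exact inv_strictAnti₀ (Real.sqrt_pos.2 hv) (Real.sqrt_lt_sqrt hv.le hvu)
  have hI := Ii_pos ha hk hl hkl hkx hly hxy
  have hX := hasDeriv_invsqrt hu (-1)
  have hY := hasDeriv_invsqrt hv 1
  have hX0 : (√(u + (-1) * (0:ℝ)))⁻¹ = x := by simp [hx]
  have hY0 : (√(v + 1 * (0:ℝ)))⁻¹ = y := by simp [hy]
  have d1 : HasDerivAt (fun τ : ℝ => Ph O a (√(v + 1 * τ))⁻¹) (-(Ps O a y) * (-(1 / 2) * y ^ 3)) 0 := by
    have := Ph_deriv ha hypos
    rw [← hY0] at this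
    have h := HasDerivAt.comp (0:ℝ) this hY
    rw [hY0] at h
    exact h
  have d2 : HasDerivAt (fun τ : ℝ => Ph O a (√(u + (-1) * τ))⁻¹) (-(Ps O a x) * (-(-1 / 2) * x ^ 3)) 0 := by
    have := Ph_deriv ha hxpos
    rw [← hX0] at this
    have h := HasDerivAt.comp (0:ℝ) this hX
    rw [hX0] at h
    exact h
  have d3 : HasDerivAt (fun τ : ℝ => Ph O a ((√(u + (-1) * τ))⁻¹ + (√(v + 1 * τ))⁻¹))
      (-(Ps O a (x + y)) * ((-(-1 / 2) * x ^ 3) + (-(1 / 2) * y ^ 3))) 0 := by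
    have := Ph_deriv ha (add_pos hxpos hypos)
    rw [← hX0, ← hY0] at this
    have h := HasDerivAt.comp (0:ℝ) this (hX.add hY)
    rw [hX0, hY0] at h
    exact h
  have D : HasDerivAt (fun τ : ℝ => Tw O a (√(u + (-1) * τ))⁻¹ (√(v + 1 * τ))⁻¹)
      (-(1 / 2) * Ii O a x y) 0 := by
    unfold Tw
    refine (((d1.const_add (Sm O a)).add d2).sub d3).congr_deriv ?_
    unfold Ii; ring
  have hslope := hasDerivAt_iff_tendsto_slope.1 D
  have hneg : -(1 / 2) * Ii O a x y < 0 := by linarith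
  have h1 := hslope.eventually (gt_mem_nhds hneg)
  have h2 : ∀ᶠ τ in 𝓝[>] (0:ℝ), slope (fun τ : ℝ => Tw O a (√(u + (-1) * τ))⁻¹ (√(v + 1 * τ))⁻¹) 0 τ < 0 :=
    h1.filter_mono (nhdsWithin_mono _ fun z hz => ne_of_gt hz)
  have h3 : ∀ᶠ τ in 𝓝[>] (0:ℝ), τ ∈ Ioo (0:ℝ) ((u - v) / 2) :=
    Ioo_mem_nhdsGT (by linarith)
  obtain ⟨τ, hτ, hτ2⟩ := (h2.and h3).exists
  refine ⟨τ, hτ2.1, by linarith [hτ2.2], ?_⟩
  rw [slope_def_field] at hτ
  have h4 : (0:ℝ) < τ - 0 := by linarith [hτ2.1]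
  have h5 := (div_neg_iff.1 hτ)
  rcases h5 with h5 | h5
  · exact absurd h5.2 (not_lt.2 h4.le)
  · have h6 := h5.1
    simp only [mul_zero, add_zero, one_mul, neg_mul, ← sub_eq_add_neg] at h6
    linarith

/-- the one-variable inequality for `n = 6` -/
lemma one_var {x c : ℝ} (hx : 0 < x) (hxc : x ≤ c) :
    (x ^ 2)⁻¹ + 5 * (c ^ 2)⁻¹ ≤ (137 / 60 / c +
      120 * c ^ 5 / (x * (x + c) * (x + 2 * c) * (x + 3 * c) * (x + 4 * c) * (x + 5 * c))) ^ 2 := by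
  obtain ⟨d, rfl⟩ : ∃ d, c = x + d := ⟨c - x, by ring⟩
  have hd : 0 ≤ d := by linarith
  rw [← sub_nonneg]
  have key : (137 / 60 / (x + d) +
      120 * (x + d) ^ 5 / (x * (x + (x + d)) * (x + 2 * (x + d)) * (x + 3 * (x + d)) * (x + 4 * (x + d)) *
        (x + 5 * (x + d)))) ^ 2 - ((x ^ 2)⁻¹ + 5 * ((x + d) ^ 2)⁻¹) =
      (1296 * x ^ 10 + 48168 / 5 * x ^ 9 * d + 3737121 / 25 * x ^ 8 * d ^ 2 +
        20790388 / 25 * x ^ 7 * d ^ 3 + 1027763729 / 450 * x ^ 6 * d ^ 4 +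
        1656864283 / 450 * x ^ 5 * d ^ 5 + 1497996393 / 400 * x ^ 4 * d ^ 6 +
        2203665173 / 900 * x ^ 3 * d ^ 7 + 902709601 / 900 * x ^ 2 * d ^ 8 +
        3527506 / 15 * x * d ^ 9 + 24152 * d ^ 10) /
      (((x + d) * ((x + (x + d)) * (x + 2 * (x + d)) * (x + 3 * (x + d)) * (x + 4 * (x + d)) *
        (x + 5 * (x + d)))) ^ 2) := by
    have h1 : x ≠ 0 := hx.ne'
    have h2 : x + d ≠ 0 := by positivity
    have h3 : x + (x + d) ≠ 0 := by positivity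
    have h4 : x + 2 * (x + d) ≠ 0 := by positivity
    have h5 : x + 3 * (x + d) ≠ 0 := by positivity
    have h6 : x + 4 * (x + d) ≠ 0 := by positivity
    have h7 : x + 5 * (x + d) ≠ 0 := by positivity
    field_simp
    ring
  rw [key]
  positivity

end Pool.Agent.Q81.ExpMax
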