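import Mathlib
import Pool.Agent.Q81.ExpMaxM

set_option autoImplicit false
set_option linter.unusedSectionVars false

open Finset MeasureTheory Set Filter Topology

namespace Pool.Agent.Q81.ExpMax

/-- the values as a function of the squares of the means -/
noncomputable def av (s : Fin 6 → ℝ) : Fin 6 → ℝ := fun i => (√(s i))⁻¹

lemma av_pos {s : Fin 6 → ℝ} (hs : ∀ i, 0 < s i) (i : Fin 6) : 0 < av s i :=
  inv_pos.2 (Real.sqrt_pos.2 (hs i))

lemma cont_on {K : Set (Fin 6 → ℝ)} (hK : ∀ s ∈ K, ∀ i, 0 < s i) :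
    ContinuousOn (fun s => Sm Finset.univ (av s)) K := by
  unfold Sm
  apply continuousOn_finsetSum
  intro J hJ
  apply ContinuousOn.mul continuousOn_const
  apply ContinuousOn.inv₀
  · apply continuousOn_finsetSum
    intro j _
    unfold av
    apply ContinuousOn.inv₀
    · exact (Real.continuous_sqrt.comp (continuous_apply j)).continuousOn
    · intro s hs
      exact (Real.sqrt_pos.2 (hK s hs j)).ne'
  · intro s hs
    have hJne : J.Nonempty := Finset.nonempty_iff_ne_empty.2 (Finset.ne_of_mem_erase hJ)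
    exact (Finset.sum_pos (fun j _ => av_pos (hK s hs) j) hJne).ne'

theorem six (s : Fin 6 → ℝ) (hs : ∀ i, 0 < s i) : √(∑ i, s i) ≤ Sm Finset.univ (av s) := by
  obtain ⟨k, -, hk⟩ := Finset.exists_max_image Finset.univ s ⟨0, Finset.mem_univ _⟩
  obtain ⟨m, -, hm⟩ := Finset.exists_min_image Finset.univ s ⟨0, Finset.mem_univ _⟩
  set M := s k with hM
  set δ := s m with hδ
  have hδpos : 0 < δ := hs m
  set R := ∑ i, s i with hR
  set K : Set (Fin 6 → ℝ) := Set.Icc (fun _ => δ) (fun _ => M) ∩ {z | z k = M ∧ ∑ i, z i = R} with hK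
  have hKmem : ∀ z, z ∈ K ↔ (∀ i, δ ≤ z i ∧ z i ≤ M) ∧ z k = M ∧ ∑ i, z i = R := by
    intro z
    simp only [hK, Set.mem_inter_iff, Set.mem_Icc, Set.mem_ofPred_eq, Pi.le_def]
    constructor
    · rintro ⟨⟨h1, h2⟩, h3⟩; exact ⟨fun i => ⟨h1 i, h2 i⟩, h3⟩
    · rintro ⟨h1, h3⟩; exact ⟨⟨fun i => (h1 i).1, fun i => (h1 i).2⟩, h3⟩
  have hKc : IsCompact K := by
    apply IsCompact.inter_right isCompact_Icc
    apply IsClosed.inter
    · exact isClosed_eq (continuous_apply k) continuous_const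
    · exact isClosed_eq (continuous_finsetSum _ fun i _ => continuous_apply i) continuous_const
  have hKpos : ∀ z ∈ K, ∀ i, 0 < z i := fun z hz i =>
    hδpos.trans_le (((hKmem z).1 hz).1 i).1
  have hsK : s ∈ K := (hKmem s).2 ⟨fun i => ⟨hm i (Finset.mem_univ _), hk i (Finset.mem_univ _)⟩, rfl, rfl⟩
  obtain ⟨z, hzK, hzmin⟩ := hKc.exists_isMinOn ⟨s, hsK⟩ (cont_on hKpos)
  obtain ⟨hzb, hzk, hzR⟩ := (hKmem z).1 hzK
  have hzpos := hKpos z hzK
  -- all values at indices different from `k` are equal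
  have heq : ∀ i j, i ≠ k → j ≠ k → z i = z j := by
    by_contra hcon
    push Not at hcon
    obtain ⟨i₀, j₀, hi₀, hj₀, hne₀⟩ := hcon
    have hne : (Finset.univ.erase k).Nonempty := ⟨i₀, Finset.mem_erase.2 ⟨hi₀, Finset.mem_univ _⟩⟩
    obtain ⟨i, hi, himax⟩ := Finset.exists_max_image (Finset.univ.erase k) z hne
    obtain ⟨j, hj, hjmin⟩ := Finset.exists_min_image (Finset.univ.erase k) z hne
    have hik : i ≠ k := Finset.ne_of_mem_erase hi
    have hjk : j ≠ k := Finset.ne_of_mem_erase hj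
    have h1 := himax i₀ (Finset.mem_erase.2 ⟨hi₀, Finset.mem_univ _⟩)
    have h2 := himax j₀ (Finset.mem_erase.2 ⟨hj₀, Finset.mem_univ _⟩)
    have h3 := hjmin i₀ (Finset.mem_erase.2 ⟨hi₀, Finset.mem_univ _⟩)
    have h4 := hjmin j₀ (Finset.mem_erase.2 ⟨hj₀, Finset.mem_univ _⟩)
    have hlt : z j < z i := by
      rcases lt_or_gt_of_ne hne₀ with h | h <;> linarith
    have hij : i ≠ j := by rintro rfl; exact lt_irrefl _ hlt
    set O : Finset (Fin 6) := (Finset.univ.erase i).erase j with hO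
    have hiO : i ∉ O := by simp [hO]
    have hjO : j ∉ O := by simp [hO]
    have hins : insert i (insert j O) = (Finset.univ : Finset (Fin 6)) := by
      ext l; simp only [hO, Finset.mem_insert, Finset.mem_erase, Finset.mem_univ, iff_true]
      tauto
    have hkO : k ∈ O := by simp [hO, hik.symm, hjk.symm]
    obtain ⟨l, hlO, hlk⟩ : ∃ l ∈ O, l ≠ k := by
      have hc : 1 < O.card := by
        have e1 : (insert i (insert j O)).card = 6 := by rw [hins]; simp
        rw [Finset.card_insert_of_notMem (by simp [hij, hiO]), Finset.card_insert_of_notMem hjO] at e1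
        omega
      exact Finset.exists_mem_ne hc k
    have haO : ∀ r ∈ O, 0 < av z r := fun r _ => av_pos hzpos r
    have hkx : av z k ≤ (√(z i))⁻¹ := by
      unfold av
      apply inv_anti₀ (Real.sqrt_pos.2 (hzpos i))
      apply Real.sqrt_le_sqrt
      rw [hzk]; exact (hzb i).2
    have hly : av z l ≤ (√(z j))⁻¹ := by
      unfold av
      apply inv_anti₀ (Real.sqrt_pos.2 (hzpos j))
      apply Real.sqrt_le_sqrt
      exact hjmin l (Finset.mem_erase.2 ⟨hlk, Finset.mem_univ _⟩)
    obtain ⟨τ, hτ, hτ2, hlt2⟩ := descent haO (hzpos j) hlt hkO hlO hlk.symm hkx hly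
    set w : Fin 6 → ℝ := Function.update (Function.update z i (z i - τ)) j (z j + τ) with hw
    have hwi : w i = z i - τ := by simp [hw, hij]
    have hwj : w j = z j + τ := by simp [hw]
    have hwr : ∀ r, r ≠ i → r ≠ j → w r = z r := by
      intro r h1 h2; simp [hw, h1, h2]
    have hwO : ∀ r ∈ O, av w r = av z r := by
      intro r hr
      have h1 : r ≠ i := fun h => hiO (h ▸ hr)
      have h2 : r ≠ j := fun h => hjO (h ▸ hr)
      unfold av; rw [hwr r h1 h2]
    have hwK : w ∈ K := by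
      rw [hKmem]
      refine ⟨?_, ?_, ?_⟩
      · intro r
        by_cases h1 : r = i
        · rw [h1, hwi]
          have := (hzb i).2
          have := (hzb j).1
          constructor <;> linarith
        · by_cases h2 : r = j
          · rw [h2, hwj]
            have := (hzb i).2
            have := (hzb j).1
            constructor <;> linarith
          · rw [hwr r h1 h2]; exact hzb r
      · rw [hwr k hik.symm hjk.symm, hzk]
      · rw [← hins, Finset.sum_insert (by simp [hij, hiO]), Finset.sum_insert hjO, hwi, hwj,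
          Finset.sum_congr rfl (g := z) (fun r hr => hwr r (fun h => hiO (h ▸ hr)) (fun h => hjO (h ▸ hr))),
          ← hzR, ← hins, Finset.sum_insert (by simp [hij, hiO]), Finset.sum_insert hjO]
        ring
    have hmin := hzmin hwK
    simp only [Set.mem_ofPred_eq] at hmin
    have e1 : Sm Finset.univ (av z) = Tw O (av z) (√(z i))⁻¹ (√(z j))⁻¹ := by
      rw [← hins, Sm_two hij hiO hjO]; rfl
    have e2 : Sm Finset.univ (av w) = Tw O (av z) (√(z i - τ))⁻¹ (√(z j + τ))⁻¹ := by
      rw [← hins, Sm_two hij hiO hjO]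
      unfold Tw
      rw [Sm_congr hwO, Ph_congr hwO, Ph_congr hwO, Ph_congr hwO]
      have a1 : av w i = (√(z i - τ))⁻¹ := by unfold av; rw [hwi]
      have a2 : av w j = (√(z j + τ))⁻¹ := by unfold av; rw [hwj]
      rw [a1, a2]
    rw [e1, e2] at hmin
    linarith
  have hle : Sm Finset.univ (av z) ≤ Sm Finset.univ (av s) := hzmin hsK
  refine le_trans ?_ hle
  -- evaluation at `z`
  set O : Finset (Fin 6) := Finset.univ.erase k with hO
  have hkO : k ∉ O := by simp [hO]
  have hins : insert k O = (Finset.univ : Finset (Fin 6)) := Finset.insert_erase (Finset.mem_univ k)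
  have hcard : O.card = 5 := by rw [hO, Finset.card_erase_of_mem (Finset.mem_univ _)]; simp
  obtain ⟨l, hl⟩ : O.Nonempty := Finset.card_pos.1 (by omega)
  have hlk : l ≠ k := fun h => hkO (h ▸ hl)
  set t := z l with ht
  have htpos : 0 < t := hzpos l
  set c := (√t)⁻¹ with hc
  set x := (√M)⁻¹ with hx
  have hMpos : 0 < M := hs k
  have hcpos : 0 < c := inv_pos.2 (Real.sqrt_pos.2 htpos)
  have hxpos : 0 < x := inv_pos.2 (Real.sqrt_pos.2 hMpos)
  have hxc : x ≤ c := by
    rw [hx, hc]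
    apply inv_anti₀ (Real.sqrt_pos.2 htpos)
    exact Real.sqrt_le_sqrt (hzb l).2
  have hOc : ∀ i ∈ O, av z i = c := by
    intro i hi
    have : z i = t := heq i l (fun h => hkO (h ▸ hi)) hlk
    unfold av; rw [this]
  have hval : Sm Finset.univ (av z) = 137 / 60 / c +
      120 * c ^ 5 / (x * (x + c) * (x + 2 * c) * (x + 3 * c) * (x + 4 * c) * (x + 5 * c)) := by
    rw [← hins, Sm_insert hkO, Sm_const hcpos hOc]
    have hak : av z k = x := by unfold av; rw [hzk]
    rw [hak, Ph_const hcpos hOc x hxpos, hcard]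
    congr 1
    · congr 1
      simp only [Finset.sum_range_succ, Finset.sum_range_zero]
      norm_num
    · simp only [Finset.prod_range_succ, Finset.prod_range_zero]
      norm_num [Nat.factorial]
  have hRe : R = (x ^ 2)⁻¹ + 5 * (c ^ 2)⁻¹ := by
    rw [← hzR, ← hins, Finset.sum_insert hkO, Finset.sum_congr rfl (g := fun _ => t)
      (fun i hi => heq i l (fun h => hkO (h ▸ hi)) hlk), Finset.sum_const, hcard, hzk]
    have h1 : (x ^ 2)⁻¹ = M := by rw [hx, inv_pow, inv_inv, Real.sq_sqrt hMpos.le]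
    have h2 : (c ^ 2)⁻¹ = t := by rw [hc, inv_pow, inv_inv, Real.sq_sqrt htpos.le]
    rw [h1, h2]; simp
  rw [hval, hRe]
  apply Real.sqrt_le_iff.2
  refine ⟨by positivity, one_var hxpos hxc⟩

/-- the inequality of the problem -/
def Valid (n : ℕ) : Prop := ∀ a : Fin n → ℝ, (∀ i, 0 < a i) →
  √(∑ i, (a i ^ 2)⁻¹) ≤ ∑ J ∈ (Finset.univ : Finset (Finset (Fin n))).erase ∅,
    (-1 : ℝ) ^ (J.card + 1) * (∑ j ∈ J, a j)⁻¹

lemma valid_iff (n : ℕ) : Valid n ↔ ∀ a : Fin n → ℝ, (∀ i, 0 < a i) →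
    √(∑ i, (a i ^ 2)⁻¹) ≤ Sm Finset.univ a := by
  unfold Valid Sm
  rw [Finset.powerset_univ]

lemma valid_six : Valid 6 := by
  rw [valid_iff]
  intro a ha
  have h := six (fun i => (a i ^ 2)⁻¹) (fun i => by have := ha i; positivity)
  have e : av (fun i => (a i ^ 2)⁻¹) = a := by
    ext i
    unfold av
    rw [Real.sqrt_inv, Real.sqrt_sq (ha i).le, inv_inv]
  rwa [e] at h

lemma Ph_tendsto {ι : Type*} [DecidableEq ι] (O : Finset ι) (a : ι → ℝ) :
    Tendsto (Ph O a) atTop (𝓝 0) := by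
  unfold Ph
  rw [show (0:ℝ) = ∑ J ∈ O.powerset, (-1 : ℝ) ^ J.card * 0 by simp]
  apply tendsto_finsetSum
  intro J _
  apply Tendsto.const_mul
  exact tendsto_inv_atTop_zero.comp (tendsto_atTop_add_const_right _ _ tendsto_id)

lemma valid_pred (n : ℕ) (h : Valid (n + 1)) : Valid n := by
  rw [valid_iff] at h ⊢
  intro a ha
  have key : ∀ b : ℝ, 0 < b → √(∑ i, (a i ^ 2)⁻¹) ≤ Sm Finset.univ a + Ph Finset.univ a b := by
    intro b hb
    have h1 := h (Fin.cons b a) (fun i => by
      refine Fin.cases ?_ (fun j => ?_) i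
      · simpa using hb
      · simpa using ha j)
    have e : (Finset.univ : Finset (Fin (n + 1))) = insert 0 (Finset.univ.map (Fin.succEmb n)) := by
      rw [Fin.univ_succ, Finset.cons_eq_insert]
      congr 1
    rw [e, Sm_insert (by simp [Fin.succ_ne_zero]), Sm_map, Ph_map] at h1
    have e2 : (Fin.cons b a : Fin (n + 1) → ℝ) ∘ (Fin.succEmb n) = a := by
      ext i; simp
    rw [e2] at h1
    simp only [Fin.cons_zero] at h1
    refine le_trans ?_ h1
    apply Real.sqrt_le_sqrt
    rw [← e, Fin.sum_univ_succ]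
    simp only [Fin.cons_zero, Fin.cons_succ]
    have : 0 ≤ (b ^ 2)⁻¹ := by positivity
    linarith
  have ht : Tendsto (fun b => Sm Finset.univ a + Ph Finset.univ a b) atTop (𝓝 (Sm Finset.univ a + 0)) :=
    (Ph_tendsto _ _).const_add _
  rw [add_zero] at ht
  exact ge_of_tendsto ht (eventually_gt_atTop 0 |>.mono fun b hb => key b hb)

lemma harm_lt (n : ℕ) (hn : 7 ≤ n) : ∑ j ∈ range n, ((j : ℝ) + 1)⁻¹ < √n := by
  induction n, hn using Nat.le_induction with
  | base =>
    apply Real.lt_sqrt_of_sq_lt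
    simp only [Finset.sum_range_succ, Finset.sum_range_zero]
    norm_num
  | succ n hn ih =>
    rw [Finset.sum_range_succ]
    have h7 : (7 : ℝ) ≤ n := by exact_mod_cast hn
    have hn0 : (0:ℝ) ≤ n := by linarith
    have e1 : √(n:ℝ) ^ 2 = n := Real.sq_sqrt hn0
    have e2 : √((n:ℝ) + 1) ^ 2 = (n:ℝ) + 1 := Real.sq_sqrt (by linarith)
    have p1 : 0 ≤ √(n:ℝ) := Real.sqrt_nonneg _
    have p2 : 0 ≤ √((n:ℝ) + 1) := Real.sqrt_nonneg _
    have hle : √(n:ℝ) ≤ √((n:ℝ) + 1) := Real.sqrt_le_sqrt (by linarith)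
    have hb : √(n:ℝ) + √((n:ℝ) + 1) ≤ (n:ℝ) + 1 := by
      have : 2 * √((n:ℝ) + 1) ≤ (n:ℝ) + 1 := by nlinarith [sq_nonneg (√((n:ℝ) + 1) - 2)]
      linarith
    push_cast
    have hstep : ((n:ℝ) + 1)⁻¹ ≤ √((n:ℝ) + 1) - √(n:ℝ) := by
      rw [inv_le_iff_one_le_mul₀ (by linarith)]
      nlinarith
    linarith

lemma not_valid (n : ℕ) (hn : 7 ≤ n) : ¬ Valid n := by
  rw [valid_iff]
  intro h
  have h1 := h (fun _ => 1) (fun _ => one_pos)
  rw [Sm_const (c := 1) one_pos (fun _ _ => rfl)] at h1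
  simp only [one_pow, inv_one, Finset.sum_const, Finset.card_univ, Fintype.card_fin, nsmul_eq_mul,
    mul_one, div_one] at h1
  exact absurd (harm_lt n hn) (not_lt.2 h1)

theorem main (n : ℕ) : Valid n ↔ n ≤ 6 := by
  constructor
  · intro h
    by_contra hn
    exact not_valid n (by omega) h
  · intro hn
    have h6 := valid_six
    have h5 := valid_pred 5 h6
    have h4 := valid_pred 4 h5
    have h3 := valid_pred 3 h4
    have h2 := valid_pred 2 h3
    have h1 := valid_pred 1 h2
    have h0 := valid_pred 0 h1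
    interval_cases n <;> assumption

end Pool.Agent.Q81.ExpMax
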