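import Pool.Agent.Q81.FadTau

/-! Extension and counting of `τ`-functionals. -/

namespace Pool.Agent.Q81.Fad

open Submodule Polynomial

set_option linter.unusedSectionVars false

variable {K : Type*} [Field K] {p : ℕ} [Fact p.Prime] [CharP K p]
variable {M : Type*} [AddCommGroup M] [Module K M]

/-- `X^(p^d) - Σ a_i X^(p^i) - c`. -/
noncomputable def stepPoly (p d : ℕ) (a : Fin d → K) (c : K) : Polynomial K :=
  X ^ (p ^ d) + (-(∑ i, C (a i) * X ^ (p ^ (i : ℕ))) - C c)

theorem stepPoly_eval (d : ℕ) (a : Fin d → K) (c z : K) :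
    (stepPoly p d a c).eval z = z ^ (p ^ d) - (c + ∑ i, a i * z ^ (p ^ (i : ℕ))) := by
  unfold stepPoly
  simp [eval_finsetSum]
  ring

theorem stepPoly_deg (d : ℕ) (a : Fin d → K) (c : K) :
    (-(∑ i, C (a i) * X ^ (p ^ (i : ℕ))) - C c : Polynomial K).degree < ((p ^ d : ℕ) : WithBot ℕ) := by
  have hp := (Fact.out : p.Prime)
  refine lt_of_le_of_lt (degree_sub_le _ _) (max_lt ?_ ?_)
  · rw [degree_neg]
    refine lt_of_le_of_lt (degree_sum_le _ _) ?_
    rw [Finset.sup_lt_iff (by exact WithBot.bot_lt_coe _)]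
    intro i _
    refine lt_of_le_of_lt (degree_C_mul_X_pow_le _ _) ?_
    exact_mod_cast Nat.pow_lt_pow_right hp.one_lt i.2
  · refine lt_of_le_of_lt degree_C_le ?_
    exact_mod_cast Nat.pow_pos hp.pos

theorem stepPoly_monic (d : ℕ) (a : Fin d → K) (c : K) : (stepPoly p d a c).Monic :=
  monic_X_pow_add (stepPoly_deg d a c)

theorem stepPoly_natDegree (d : ℕ) (a : Fin d → K) (c : K) :
    (stepPoly p d a c).natDegree = p ^ d := by
  unfold stepPoly
  rw [natDegree_add_eq_left_of_degree_lt, natDegree_X_pow]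
  rw [degree_X_pow]
  exact stepPoly_deg d a c

theorem stepPoly_separable (e : ℕ) (a : Fin (e + 1) → K) (c : K) (ha : a 0 ≠ 0) :
    (stepPoly p (e + 1) a c).Separable := by
  have h1 : derivative (stepPoly p (e + 1) a c) = C (-(a 0)) := by
    unfold stepPoly
    rw [Fin.sum_univ_succ]
    simp [derivative_X_pow, pow_succ]
  rw [separable_def, h1]
  refine ⟨0, C (-(a 0))⁻¹, ?_⟩
  rw [zero_mul, zero_add, ← C_mul, inv_mul_cancel₀ (neg_ne_zero.2 ha), C_1]

theorem finrank_step (τ : M →+ M) {N : Submodule K M} [FiniteDimensional K (M ⧸ N)] {y : M} {d : ℕ}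
    (hli : LinearIndependent K (fun i : Fin d => N.mkQ (τ^[(i : ℕ)] y))) :
    Module.finrank K (M ⧸ N) = d + Module.finrank K (M ⧸ (N ⊔ orb K τ y d)) := by
  have h1 : (N ⊔ orb K τ y d).map N.mkQ = span K (Set.range fun i : Fin d =>
      N.mkQ (τ^[(i : ℕ)] y)) := by
    rw [Submodule.map_sup]
    have : N.map N.mkQ = ⊥ := Submodule.mkQ_map_self N
    rw [this, bot_sup_eq, orb, Submodule.map_span, ← Set.range_comp]
    rfl
  have h2 : Module.finrank K ((N ⊔ orb K τ y d).map N.mkQ) = d := by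
    rw [h1, finrank_span_eq_card hli, Fintype.card_fin]
  have h3 := Submodule.finrank_quotient_add_finrank ((N ⊔ orb K τ y d).map N.mkQ)
  rw [h2, LinearEquiv.finrank_eq (Submodule.quotientQuotientEquivQuotient N (N ⊔ orb K τ y d)
    le_sup_left)] at h3
  omega

theorem fd_step {N N' : Submodule K M} [FiniteDimensional K (M ⧸ N)] (h : N ≤ N') :
    FiniteDimensional K (M ⧸ N') :=
  Module.Finite.of_surjective (Submodule.factor h) (Submodule.factor_surjective h)

variable [IsAlgClosed K]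

theorem exists_ext_aux {τ : M →+ M} (hτ : Semi K p τ) : ∀ (n : ℕ) (N : Submodule K M),
    (∀ m ∈ N, τ m ∈ N) → FiniteDimensional K (M ⧸ N) → Module.finrank K (M ⧸ N) = n →
    ∀ φ₀ : M →ₗ[K] K, N ≤ eqSub τ hτ φ₀ →
    ∃ φ : M →ₗ[K] K, (∀ m, φ (τ m) = φ m ^ p) ∧ ∀ m ∈ N, φ m = φ₀ m := by
  intro n
  induction n using Nat.strong_induction_on with
  | _ n ih =>
    intro N hN hfd hn φ₀ hφ₀
    by_cases hT : N = ⊤
    · exact ⟨φ₀, fun m => hφ₀ (hT ▸ mem_top), fun _ _ => rfl⟩
    obtain ⟨y, hy⟩ : ∃ y, y ∉ N := by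
      by_contra hcon
      push Not at hcon
      exact hT (eq_top_iff.2 fun m _ => hcon m)
    obtain ⟨d, hd0, hd, -, hli⟩ := exists_return τ hy
    obtain ⟨a, b, hb, hrel⟩ := exists_rel hd
    have hroot : ∃ z, (stepPoly p d a (φ₀ b)).IsRoot z := by
      apply IsAlgClosed.exists_root
      rw [degree_eq_natDegree (stepPoly_monic d a _).ne_zero, stepPoly_natDegree]
      have := Nat.pow_pos (n := d) (Fact.out : p.Prime).pos
      exact_mod_cast this.ne'
    obtain ⟨z, hz⟩ := hroot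
    rw [IsRoot, stepPoly_eval, sub_eq_zero] at hz
    obtain ⟨φ₁, h1, -, h3⟩ := step_fin hτ hd0 hli a b hb hrel φ₀ hφ₀ hN z hz
    have hfr := finrank_step τ hli
    have hfd' : FiniteDimensional K (M ⧸ (N ⊔ orb K τ y d)) := fd_step le_sup_left
    obtain ⟨φ, h4, h5⟩ := ih _ (by omega) (N ⊔ orb K τ y d) (stable_sup hτ hN hd) hfd' rfl φ₁ h3
    exact ⟨φ, h4, fun m hm => by rw [h5 m (mem_sup_left hm), h1 m hm]⟩

theorem exists_ext {τ : M →+ M} (hτ : Semi K p τ) {N : Submodule K M}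
    (hN : ∀ m ∈ N, τ m ∈ N) [FiniteDimensional K (M ⧸ N)] {φ₀ : M →ₗ[K] K}
    (hφ₀ : N ≤ eqSub τ hτ φ₀) :
    ∃ φ : M →ₗ[K] K, (∀ m, φ (τ m) = φ m ^ p) ∧ ∀ m ∈ N, φ m = φ₀ m :=
  exists_ext_aux hτ _ N hN inferInstance rfl φ₀ hφ₀

theorem exists_root_p (c : K) : ∃ z : K, z ^ p = c :=
  IsAlgClosed.exists_pow_nat_eq c (Fact.out : p.Prime).pos

/-- If `τ` is surjective modulo `N` then it is injective modulo `N`. -/
theorem inj_of_span {τ : M →+ M} (hτ : Semi K p τ) {N : Submodule K M}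
    (hN : ∀ m ∈ N, τ m ∈ N) [FiniteDimensional K (M ⧸ N)]
    (hs : ∀ m, m ∈ N ⊔ span K (Set.range τ)) (m : M) (hm : τ m ∈ N) : m ∈ N := by
  classical
  let B := Module.finBasis K (M ⧸ N)
  choose v hv using fun i => Submodule.mkQ_surjective N (B i)
  have hrep : ∀ m : M, ∃ n ∈ N, m = n + ∑ i, B.repr (N.mkQ m) i • v i := by
    intro m
    refine ⟨m - ∑ i, B.repr (N.mkQ m) i • v i, ?_, by abel⟩
    have : N.mkQ (m - ∑ i, B.repr (N.mkQ m) i • v i) = 0 := by
      rw [map_sub, map_sum]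
      have h1 : ∑ i, N.mkQ (B.repr (N.mkQ m) i • v i) = N.mkQ m := by
        conv_rhs => rw [← B.sum_repr (N.mkQ m)]
        refine Finset.sum_congr rfl fun i _ => ?_
        rw [map_smul, hv]
      rw [h1, sub_self]
    exact (Submodule.Quotient.mk_eq_zero N).1 this
  have hspan : ⊤ ≤ span K (Set.range fun i => N.mkQ (τ (v i))) := by
    intro q _
    obtain ⟨m, rfl⟩ := Submodule.mkQ_surjective N q
    obtain ⟨n, hn, w, hw, rfl⟩ := Submodule.mem_sup.1 (hs m)
    have h0 : N.mkQ n = 0 := (Submodule.Quotient.mk_eq_zero N).2 hn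
    rw [map_add, h0, zero_add]
    refine span_induction (p := fun w _ => N.mkQ w ∈ span K (Set.range fun i => N.mkQ (τ (v i))))
      ?_ ?_ ?_ ?_ hw
    · rintro _ ⟨u, rfl⟩
      obtain ⟨n', hn', hu⟩ := hrep u
      rw [hu, map_add, map_add, (Submodule.Quotient.mk_eq_zero N).2 (hN n' hn') |> fun h => (h : N.mkQ (τ n') = 0),
        zero_add, map_sum, map_sum]
      refine sum_mem fun i _ => ?_
      rw [hτ, map_smul]
      exact smul_mem _ _ (subset_span ⟨i, rfl⟩)
    · simp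
    · intro a b _ _ ha hb
      rw [map_add]
      exact add_mem ha hb
    · intro c a _ ha
      rw [map_smul]
      exact smul_mem _ _ ha
  have hli : LinearIndependent K (fun i => N.mkQ (τ (v i))) :=
    linearIndependent_of_top_le_span_of_card_eq_finrank hspan (by simp)
  obtain ⟨n, hn, hmn⟩ := hrep m
  have h2 : N.mkQ (τ m) = 0 := (Submodule.Quotient.mk_eq_zero N).2 hm
  rw [hmn, map_add, map_add, (show N.mkQ (τ n) = 0 from (Submodule.Quotient.mk_eq_zero N).2 (hN n hn)),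
    zero_add, map_sum, map_sum] at h2
  have h3 : ∑ i, (B.repr (N.mkQ m) i) ^ p • N.mkQ (τ (v i)) = 0 := by
    rw [← h2]
    refine Finset.sum_congr rfl fun i _ => ?_
    rw [hτ, map_smul]
  have h4 := Fintype.linearIndependent_iff.1 hli _ h3
  have h5 : B.repr (N.mkQ m) = 0 := by
    ext i
    exact pow_eq_zero_iff (Fact.out : p.Prime).ne_zero |>.1 (h4 i)
  have h6 : N.mkQ m = 0 := by
    simpa using h5
  exact (Submodule.Quotient.mk_eq_zero N).1 h6

theorem ne_zero_of_inj {τ : M →+ M} (hτ : Semi K p τ) {N : Submodule K M}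
    (hinj : ∀ m, τ m ∈ N → m ∈ N) {y : M} {e : ℕ} (hmin : τ^[e] y ∉ N ⊔ orb K τ y e)
    {a : Fin (e + 1) → K} {b : M} (hb : b ∈ N)
    (hrel : τ^[e + 1] y = b + ∑ i, a i • τ^[(i : ℕ)] y) : a 0 ≠ 0 := by
  intro h0
  apply hmin
  choose α hα using fun i : Fin e => exists_root_p (p := p) (a i.succ)
  have h1 : τ (τ^[e] y - ∑ i, α i • τ^[(i : ℕ)] y) = b := by
    rw [map_sub, map_sum, ← Function.iterate_succ_apply' (f := τ), Nat.succ_eq_add_one, hrel,
      Fin.sum_univ_succ, h0, zero_smul, zero_add]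
    have : ∀ i : Fin e, τ (α i • τ^[(i : ℕ)] y) = a i.succ • τ^[(i.succ : ℕ)] y := by
      intro i
      rw [hτ, hα, ← Function.iterate_succ_apply' (f := τ)]
      rfl
    simp only [this]
    abel
  have h2 : τ^[e] y - ∑ i, α i • τ^[(i : ℕ)] y ∈ N := hinj _ (h1 ▸ hb)
  have h3 : τ^[e] y = (τ^[e] y - ∑ i, α i • τ^[(i : ℕ)] y) + ∑ i, α i • τ^[(i : ℕ)] y := by abel
  rw [h3]
  refine add_mem (mem_sup_left h2) (mem_sup_right (sum_mem fun i _ => smul_mem _ _ (mem_orb i.2)))

/-- evaluation at `y`. -/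
def evTF (τ : M →+ M) (p : ℕ) [Fact p.Prime] [CharP K p] (N : Submodule K M) (y : M) :
    TF τ p N →+ K where
  toFun φ := φ.1 y
  map_zero' := rfl
  map_add' _ _ := rfl

theorem card_ev (τ : M →+ M) (N : Submodule K M) (y : M) :
    Nat.card (TF τ p N) = Nat.card (evTF τ p N y).range * Nat.card (evTF τ p N y).ker := by
  rw [AddSubgroup.card_eq_card_quotient_mul_card_addSubgroup (evTF τ p N y).ker,
    Nat.card_congr (QuotientAddGroup.quotientKerEquivRange (evTF τ p N y)).toEquiv]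

theorem card_ker_ev (τ : M →+ M) (N : Submodule K M) (y : M) (d : ℕ) (hd : 0 < d) :
    Nat.card (evTF τ p N y).ker = Nat.card (TF τ p (N ⊔ orb K τ y d)) := by
  refine Nat.card_congr ⟨fun φ => ⟨φ.1.1, ?_⟩, fun φ => ⟨⟨φ.1, ?_⟩, ?_⟩, ?_, ?_⟩
  · refine ⟨φ.1.2.1, ?_⟩
    have h0 : φ.1.1 y = 0 := φ.2
    have : N ⊔ orb K τ y d ≤ LinearMap.ker φ.1.1 := by
      refine sup_le (fun m hm => φ.1.2.2 m hm) (span_le.2 ?_)
      rintro _ ⟨i, rfl⟩
      change φ.1.1 _ = 0
      simp only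
      rw [iter_TF φ.1.2.1, h0, zero_pow (pow_pos (Fact.out : p.Prime).pos _).ne']
    exact fun m hm => this hm
  · exact ⟨φ.2.1, fun m hm => φ.2.2 m (mem_sup_left hm)⟩
  · change φ.1 y = 0
    exact φ.2.2 y (mem_sup_right (mem_orb (i := 0) hd))
  · intro φ
    rfl
  · intro φ
    rfl

theorem card_TF_aux {τ : M →+ M} (hτ : Semi K p τ) : ∀ (n : ℕ) (N : Submodule K M),
    (∀ m ∈ N, τ m ∈ N) → FiniteDimensional K (M ⧸ N) → Module.finrank K (M ⧸ N) = n →
    0 < Nat.card (TF τ p N) ∧ Nat.card (TF τ p N) ≤ p ^ n ∧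
      ((∀ m, m ∈ N ⊔ span K (Set.range τ)) → Nat.card (TF τ p N) = p ^ n) := by
  classical
  intro n
  induction n using Nat.strong_induction_on with
  | _ n ih =>
    intro N hN hfd hn
    by_cases hT : N = ⊤
    · have h1 : Nat.card (TF τ p N) = 1 := by
        rw [Nat.card_eq_one_iff_unique]
        refine ⟨⟨fun a b => ?_⟩, ⟨0⟩⟩
        apply Subtype.ext
        ext m
        rw [a.2.2 m (hT ▸ mem_top), b.2.2 m (hT ▸ mem_top)]
      have h2 : n = 0 := by
        rw [← hn, Module.finrank_eq_zero_iff_of_free]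
        rw [hT]
        infer_instance
      rw [h1, h2, pow_zero]
      exact ⟨one_pos, le_refl _, fun _ => rfl⟩
    obtain ⟨y, hy⟩ : ∃ y, y ∉ N := by
      by_contra hcon
      push Not at hcon
      exact hT (eq_top_iff.2 fun m _ => hcon m)
    obtain ⟨d, hd0, hd, hmin, hli⟩ := exists_return τ hy
    obtain ⟨a, b, hb, hrel⟩ := exists_rel hd
    have hfr := finrank_step τ hli
    have hfd' : FiniteDimensional K (M ⧸ (N ⊔ orb K τ y d)) := fd_step le_sup_left
    obtain ⟨i1, i2, i3⟩ := ih _ (by omega) (N ⊔ orb K τ y d) (stable_sup hτ hN hd) hfd' rfl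
    have hsub : ((evTF τ p N y).range : Set K) ⊆ {z | (stepPoly p d a 0).IsRoot z} := by
      rintro _ ⟨φ, rfl⟩
      change (stepPoly p d a 0).IsRoot (φ.1 y)
      rw [IsRoot, stepPoly_eval, sub_eq_zero, ← iter_TF φ.2.1 d y, hrel, map_add, φ.2.2 b hb,
        map_sum]
      congr 1
      refine Finset.sum_congr rfl fun i _ => ?_
      rw [map_smul, iter_TF φ.2.1, smul_eq_mul]
    have hne : stepPoly p d a 0 ≠ 0 := (stepPoly_monic d a _).ne_zero
    have hset : {z | (stepPoly p d a 0).IsRoot z} = ((stepPoly p d a 0).roots.toFinset : Set K) := by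
      ext z
      simp [hne]
    have hfin : ({z | (stepPoly p d a 0).IsRoot z}).Finite := by
      rw [hset]
      exact Finset.finite_toSet _
    have hcard : ({z | (stepPoly p d a 0).IsRoot z}).ncard ≤ p ^ d := by
      rw [hset, Set.ncard_coe_finset]
      refine le_trans (Multiset.toFinset_card_le _) (le_trans (card_roots' _) ?_)
      rw [stepPoly_natDegree]
    have hle : Nat.card (evTF τ p N y).range ≤ p ^ d := by
      refine le_trans ?_ hcard
      exact Set.ncard_le_ncard hsub hfin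
    have hpos : 0 < Nat.card (evTF τ p N y).range := by
      have : Finite (evTF τ p N y).range := (hfin.subset hsub).to_subtype
      exact Nat.card_pos
    have hn' : n = d + Module.finrank K (M ⧸ (N ⊔ orb K τ y d)) := by rw [← hn, hfr]
    rw [card_ev τ N y, card_ker_ev τ N y d hd0]
    refine ⟨Nat.mul_pos hpos i1, ?_, ?_⟩
    · rw [hn', pow_add]
      exact Nat.mul_le_mul hle i2
    · intro hs
      have hs' : ∀ m, m ∈ (N ⊔ orb K τ y d) ⊔ span K (Set.range τ) := fun m =>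
        (sup_le_sup_right (le_sup_left : N ≤ N ⊔ orb K τ y d) (span K (Set.range τ))) (hs m)
      rw [i3 hs', hn', pow_add]
      congr 1
      obtain ⟨e, rfl⟩ : ∃ e, d = e + 1 := ⟨d - 1, by omega⟩
      have ha0 : a 0 ≠ 0 := ne_zero_of_inj hτ (inj_of_span hτ hN hs) (hmin e (Nat.lt_succ_self e))
        hb hrel
      have heq : ((evTF τ p N y).range : Set K) = {z | (stepPoly p (e + 1) a 0).IsRoot z} := by
        refine Set.Subset.antisymm hsub ?_
        intro z hz
        simp only [Set.mem_ofPred_eq] at hz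
        rw [IsRoot, stepPoly_eval, sub_eq_zero] at hz
        have hz0 : z ^ (p ^ (e + 1)) = (0 : M →ₗ[K] K) b + ∑ i, a i * z ^ (p ^ (i : ℕ)) := by
          rw [hz]; rfl
        obtain ⟨φ₁, h1, h2, h3⟩ := step_fin hτ hd0 hli a b hb hrel 0 (fun m _ => by
          rw [mem_eqSub]; simp [(Fact.out : p.Prime).ne_zero]) hN z hz0
        obtain ⟨φ, h4, h5⟩ := exists_ext hτ (stable_sup hτ hN hd) h3
        refine ⟨⟨φ, h4, fun m hm => ?_⟩, ?_⟩
        · rw [h5 m (mem_sup_left hm), h1 m hm]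
          rfl
        · change φ y = z
          rw [h5 y (mem_sup_right (mem_orb (i := 0) hd0)), h2]
      have h7 : Nat.card (evTF τ p N y).range = ({z | (stepPoly p (e + 1) a 0).IsRoot z}).ncard := by
        rw [← heq]
        rfl
      rw [h7, hset, Set.ncard_coe_finset, Multiset.toFinset_card_of_nodup
        (nodup_roots (stepPoly_separable e a 0 ha0)),
        ← (IsAlgClosed.splits _).natDegree_eq_card_roots, stepPoly_natDegree]

end Pool.Agent.Q81.Fad
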