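import Pool.Agent.Q81.FadRank

/-! Dimensions of the cokernels of Frobenius-invariant polynomials in `x`. -/

namespace Pool.Agent.Q81.Fad

open Submodule Polynomial

set_option linter.unusedSectionVars false

variable {K : Type*} [Field K] {p : ℕ} [Fact p.Prime] [CharP K p]
variable {M : Type*} [AddCommGroup M] [Module K M] [IsAlgClosed K]

theorem coprime_split {x : M →ₗ[K] M} {f g : K[X]} (h : IsCoprime f g) :
    ∃ u v : K[X], ∀ m : M, m = aeval x u (aeval x f m) + aeval x v (aeval x g m) := by
  obtain ⟨u, v, huv⟩ := h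
  refine ⟨u, v, fun m => ?_⟩
  have := congrArg (fun q => aeval x q m) huv
  simp only [map_add, map_mul, map_one] at this
  exact this.symm

theorem aeval_comm_apply (x : M →ₗ[K] M) (f g : K[X]) (m : M) :
    aeval x f (aeval x g m) = aeval x g (aeval x f m) := by
  rw [← Module.End.mul_apply, ← Module.End.mul_apply, ← map_mul, ← map_mul, mul_comm]

/-- `f` is bijective on `M/F` for `f` coprime to `g`. -/
theorem bij_mod {τ : M →+ M} (hτ : Semi K p τ) {x : M →ₗ[K] M}
    (hx : ∀ m, x (τ m) = τ (x m)) {s : Finset M} (hs : gen K τ s = ⊤) {a : ℕ} {b : Fin a → M}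
    {d : ℕ} (hbd : LinearMap.range (phi x b) ≤ PX x τ s d)
    {g : K[X]} (hg : ∀ m ∈ PX x τ s (d + 1), aeval x g m ∈ LinearMap.range (phi x b))
    {f : K[X]} (hf : f.map (frobenius K p) = f) (hfg : IsCoprime f g) (m : M) :
    (aeval x f m ∈ LinearMap.range (phi x b) → m ∈ LinearMap.range (phi x b)) ∧
    ∃ m', ∃ c ∈ LinearMap.range (phi x b), m = aeval x f m' + c := by
  have key : ∀ j, ∀ m ∈ PX x τ s (d + 1 + j),
      (aeval x f m ∈ LinearMap.range (phi x b) → m ∈ LinearMap.range (phi x b)) ∧
      ∃ m', ∃ c ∈ LinearMap.range (phi x b), m = aeval x f m' + c := by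
    intro j
    induction j with
    | zero =>
      intro m hm
      obtain ⟨u, v, huv⟩ := coprime_split (x := x) hfg
      refine ⟨fun h => ?_, aeval x u m, aeval x v (aeval x g m), range_phi_stable _ (hg m hm), ?_⟩
      · rw [huv m]
        exact add_mem (range_phi_stable _ h) (range_phi_stable _ (hg m hm))
      · conv_lhs => rw [huv m, aeval_comm_apply]
    | succ j ih =>
      intro m hm
      obtain ⟨u, v, huv⟩ := coprime_split (x := x) (tw_coprime hf hfg (j + 1))
      have hk := tw_kill hτ hx (fun m hm => hbd (hg m hm)) (j + 1) m hm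
      have hk' : aeval x v (aeval x (tw p g (j + 1)) m) ∈ PX x τ s (d + 1 + j) := by
        have := PX_stable v hk
        rwa [show d + (j + 1) = d + 1 + j by ring] at this
      obtain ⟨h1, m', c, hc, h2⟩ := ih _ hk'
      refine ⟨fun h => ?_, aeval x u m + m', c, hc, ?_⟩
      · refine (ih m ?_).1 h
        rw [huv m]
        exact add_mem (PX_stable _ (PX_mono (by omega) (hbd h))) hk'
      · conv_lhs => rw [huv m, h2, aeval_comm_apply]
        rw [map_add, add_assoc]
  obtain ⟨i, hi⟩ := exists_genL (K := K) (τ := τ) (s := s) (m := m) (hs ▸ mem_top)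
  exact key i m (PX_mono (by omega) (genL_le_PX hi))

/-- the dimension of the cokernel. -/
theorem finrank_coker {x : M →ₗ[K] M} {a : ℕ} {b : Fin a → M} (hb : KI x b)
    {f : K[X]} (hmon : f.Monic)
    (h1 : ∀ m, aeval x f m ∈ LinearMap.range (phi x b) → m ∈ LinearMap.range (phi x b))
    (h2 : ∀ m, ∃ m', ∃ c ∈ LinearMap.range (phi x b), m = aeval x f m' + c) :
    FiniteDimensional K (M ⧸ LinearMap.range (aeval x f)) ∧
    Module.finrank K (M ⧸ LinearMap.range (aeval x f)) = a * f.natDegree := by
  set Ψ : (Fin a → degreeLT K f.natDegree) →ₗ[K] (M ⧸ LinearMap.range (aeval x f)) :=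
    (LinearMap.range (aeval x f)).mkQ ∘ₗ phiLT x b f.natDegree with hΨ
  have hinj : Function.Injective Ψ := by
    rw [← LinearMap.ker_eq_bot, LinearMap.ker_eq_bot']
    intro h hh
    have h3 : phiLT x b f.natDegree h ∈ LinearMap.range (aeval x f) :=
      (Submodule.Quotient.mk_eq_zero _).1 hh
    obtain ⟨m, hm⟩ := h3
    obtain ⟨h', rfl⟩ := h1 m (by rw [hm, phiLT_apply]; exact ⟨_, rfl⟩)
    rw [← phi_mul, phiLT_apply] at hm
    have h4 := hb hm
    ext1 i
    have h5 := congrFun h4 i
    apply Subtype.ext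
    change ((h i : K[X])) = 0
    refine eq_zero_of_dvd_of_degree_lt (p := f) ⟨h' i, h5.symm⟩ ?_
    rw [degree_eq_natDegree hmon.ne_zero]
    exact mem_degreeLT.1 (h i).2
  have hsurj : Function.Surjective Ψ := by
    intro q
    obtain ⟨m, rfl⟩ := Submodule.mkQ_surjective _ q
    obtain ⟨m', c, ⟨h, rfl⟩, rfl⟩ := h2 m
    refine ⟨fun i => ⟨h i %ₘ f, ?_⟩, ?_⟩
    · rw [mem_degreeLT, ← degree_eq_natDegree hmon.ne_zero]
      exact degree_modByMonic_lt _ hmon
    · rw [hΨ, LinearMap.comp_apply, phiLT_apply]
      rw [← sub_eq_zero, ← map_sub]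
      refine (Submodule.Quotient.mk_eq_zero _).2 ?_
      have h3 : h = (fun i => f * (h i /ₘ f)) + fun i => h i %ₘ f := by
        ext1 i
        rw [Pi.add_apply, add_comm, modByMonic_add_div]
      have h4 : phi x b (fun i => h i %ₘ f) - (aeval x f m' + phi x b h) =
          aeval x f (-(m' + phi x b (fun i => h i /ₘ f))) := by
        conv_lhs => rw [h3]
        rw [map_add (phi x b), phi_mul, map_neg, map_add (aeval x f)]
        simp only [Pi.add_apply]
        have : (fun i => (f * (h i /ₘ f) + h i %ₘ f) %ₘ f) = fun i => h i %ₘ f := by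
          ext1 i
          rw [add_comm, modByMonic_add_div]
        rw [this]
        abel
      rw [h4]
      exact ⟨_, rfl⟩
  have e := LinearEquiv.ofBijective Ψ ⟨hinj, hsurj⟩
  exact ⟨Module.Finite.equiv e, by rw [← e.finrank_eq, finrank_LT]⟩

/-- For `x - c` injective the cokernel has dimension at most the rank. -/
theorem finrank_lin {x : M →ₗ[K] M} {a : ℕ}
    (hmax : ∀ k (b : Fin k → M), KI x b → k ≤ a) {c : K}
    (hinj : Function.Injective (aeval x (X - C c : K[X])))
    [FiniteDimensional K (M ⧸ LinearMap.range (aeval x (X - C c : K[X])))] :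
    Module.finrank K (M ⧸ LinearMap.range (aeval x (X - C c : K[X]))) ≤ a := by
  by_contra hcon
  push Not at hcon
  set S := LinearMap.range (aeval x (X - C c : K[X])) with hS
  set B := Module.finBasis K (M ⧸ S) with hB
  choose v hv using fun i => Submodule.mkQ_surjective S (B i)
  have hli : LinearIndependent K (fun i : Fin (a + 1) => S.mkQ (v (Fin.castLE hcon i))) := by
    have h1 := B.linearIndependent.comp (Fin.castLE hcon) (Fin.castLE_injective hcon)
    convert h1 using 2
    exact hv _
  have hdvd : ∀ N : ℕ, ∀ g : Fin (a + 1) → K[X],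
      phi x (fun i => v (Fin.castLE hcon i)) g = 0 → ∀ i, (X - C c) ^ N ∣ g i := by
    intro N
    induction N with
    | zero => intro g _ i; simp
    | succ N ih =>
      intro g hg
      have h1 : ∀ i, (g i).eval c = 0 := by
        have h2 : ∑ i, (g i).eval c • S.mkQ (v (Fin.castLE hcon i)) = 0 := by
          have h3 : S.mkQ (phi x (fun i => v (Fin.castLE hcon i)) g) = 0 := by
            rw [hg, map_zero]
          rw [phi_apply, map_sum] at h3
          rw [← h3]
          refine Finset.sum_congr rfl fun i _ => ?_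
          obtain ⟨q, hq⟩ : (X - C c) ∣ g i - C ((g i).eval c) := by
            rw [dvd_iff_isRoot]
            simp
          have h4 : g i = (X - C c) * q + C ((g i).eval c) := by
            rw [← hq]; ring
          conv_rhs => rw [h4]
          rw [map_add, map_mul, LinearMap.add_apply, map_add, aeval_C,
            Module.algebraMap_end_apply, map_smul]
          have h5 : S.mkQ ((aeval x (X - C c : K[X]) * aeval x q) (v (Fin.castLE hcon i))) = 0 :=
            (Submodule.Quotient.mk_eq_zero _).2 ⟨_, rfl⟩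
          rw [h5, zero_add]
        exact Fintype.linearIndependent_iff.1 hli _ h2
      choose q hq using fun i => dvd_iff_isRoot.2 (h1 i)
      have h6 : g = fun i => (X - C c) * q i := funext hq
      rw [h6, phi_mul] at hg
      have h7 := hinj (hg.trans (map_zero _).symm)
      intro i
      rw [hq i, pow_succ']
      exact mul_dvd_mul_left _ (ih q h7 i)
  have hKI : KI x (fun i => v (Fin.castLE hcon i)) := by
    rw [ki_iff]
    intro g hg
    ext1 i
    by_contra hne
    have h8 := natDegree_le_of_dvd (hdvd ((g i).natDegree + 1) g hg i) hne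
    rw [natDegree_pow, natDegree_X_sub_C] at h8
    omega
  have := hmax _ _ hKI
  omega

theorem coker_mul (A B : M →ₗ[K] M) [FiniteDimensional K (M ⧸ LinearMap.range A)]
    [FiniteDimensional K (M ⧸ LinearMap.range B)] :
    Module.finrank K (M ⧸ LinearMap.range (A * B)) ≤
      Module.finrank K (M ⧸ LinearMap.range A) + Module.finrank K (M ⧸ LinearMap.range B) ∧
      FiniteDimensional K (M ⧸ LinearMap.range (A * B)) := by
  have hle : LinearMap.range (A * B) ≤ LinearMap.range A := by
    rintro _ ⟨m, rfl⟩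
    exact ⟨B m, rfl⟩
  -- the image of `range A` in the quotient
  set S := (LinearMap.range A).map (LinearMap.range (A * B)).mkQ with hS
  have h0 : LinearMap.range B ≤ (LinearMap.range (A * B)).comap A := by
    rintro _ ⟨m, rfl⟩
    exact ⟨m, rfl⟩
  set φ := (LinearMap.range B).mapQ (LinearMap.range (A * B)) A h0 with hφ
  have h1 : LinearMap.range φ = S := by
    ext q
    constructor
    · rintro ⟨q', rfl⟩
      obtain ⟨m, rfl⟩ := Submodule.mkQ_surjective _ q'
      exact ⟨A m, ⟨m, rfl⟩, rfl⟩
    · rintro ⟨_, ⟨m, rfl⟩, rfl⟩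
      exact ⟨(LinearMap.range B).mkQ m, rfl⟩
  have hfS : Module.Finite K S := by
    rw [← h1]
    infer_instance
  have h2 : Module.finrank K S ≤ Module.finrank K (M ⧸ LinearMap.range B) := by
    rw [← h1]
    exact LinearMap.finrank_range_le φ
  have hfq : Module.Finite K ((M ⧸ LinearMap.range (A * B)) ⧸ S) :=
    Module.Finite.equiv (Submodule.quotientQuotientEquivQuotient _ _ hle).symm
  have h3 : FiniteDimensional K (M ⧸ LinearMap.range (A * B)) :=
    Module.Finite.of_submodule_quotient S
  have h4 := Submodule.finrank_quotient_add_finrank S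
  rw [LinearEquiv.finrank_eq (Submodule.quotientQuotientEquivQuotient _ _ hle)] at h4
  exact ⟨by omega, h3⟩

/-- Good polynomials: `f(x)` is injective with a finite dimensional cokernel. -/
def Good (x : M →ₗ[K] M) (f : K[X]) : Prop :=
  Function.Injective (aeval x f) ∧ FiniteDimensional K (M ⧸ LinearMap.range (aeval x f))

theorem Good.left {x : M →ₗ[K] M} {f g : K[X]} (h : Good x (f * g)) : Good x f := by
  obtain ⟨h1, h2⟩ := h
  refine ⟨?_, ?_⟩
  · rw [mul_comm, map_mul] at h1
    exact Function.Injective.of_comp (f := aeval x g) h1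
  · rw [map_mul] at h2
    have hle : LinearMap.range (aeval x f * aeval x g) ≤ LinearMap.range (aeval x f) := by
      rintro _ ⟨m, rfl⟩
      exact ⟨aeval x g m, rfl⟩
    exact fd_step hle

theorem Good.right {x : M →ₗ[K] M} {f g : K[X]} (h : Good x (f * g)) : Good x g := by
  rw [mul_comm] at h
  exact h.left

theorem finrank_good {x : M →ₗ[K] M} {a : ℕ} (hmax : ∀ k (b : Fin k → M), KI x b → k ≤ a) :
    ∀ (n : ℕ) (f : K[X]), f.Monic → f.natDegree = n → Good x f →
    Module.finrank K (M ⧸ LinearMap.range (aeval x f)) ≤ a * n := by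
  intro n
  induction n with
  | zero =>
    intro f hf hn _
    have : f = 1 := by
      exact hf.natDegree_eq_zero.mp hn
    subst this
    rw [map_one]
    have h1 : LinearMap.range (1 : Module.End K M) = ⊤ := LinearMap.range_eq_top.2 fun m => ⟨m, rfl⟩
    rw [h1]
    have : Subsingleton (M ⧸ (⊤ : Submodule K M)) := inferInstance
    rw [Module.finrank_zero_of_subsingleton]
    simp
  | succ n ih =>
    intro f hf hn hgood
    obtain ⟨c, hc⟩ := IsAlgClosed.exists_root f (by
      rw [degree_eq_natDegree hf.ne_zero, hn]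
      exact_mod_cast Nat.succ_ne_zero n)
    obtain ⟨q, rfl⟩ := dvd_iff_isRoot.2 hc
    have hq : q.Monic := Monic.of_mul_monic_left (monic_X_sub_C c) hf
    have hqn : q.natDegree = n := by
      rw [(monic_X_sub_C c).natDegree_mul hq, natDegree_X_sub_C] at hn
      omega
    have h1 := hgood.left
    have h2 := hgood.right
    have := h1.2
    have := h2.2
    have h3 := finrank_lin hmax h1.1
    have h4 := ih q hq hqn h2
    have h5 := (coker_mul (aeval x (X - C c : K[X])) (aeval x q)).1
    rw [map_mul]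
    refine h5.trans ?_
    rw [Nat.mul_succ]
    omega

/-- a polynomial that kills `M/τM`. -/
theorem exists_tau_kill {τ : M →+ M} (hτ : Semi K p τ) {x : M →ₗ[K] M}
    (hx : ∀ m, x (τ m) = τ (x m)) {s : Finset M} (hs : gen K τ s = ⊤) :
    ∃ g : K[X], g ≠ 0 ∧ ∀ m, aeval x g m ∈ tauPow τ hτ 1 := by
  have hfd := fd_tauPow hτ s hs 1
  have hst : tauPow τ hτ 1 ≤ (tauPow τ hτ 1).comap x := by
    rintro _ ⟨m, rfl⟩
    exact ⟨x m, (hx m).symm⟩
  set x' : Module.End K (M ⧸ tauPow τ hτ 1) := (tauPow τ hτ 1).mapQ _ x hst with hx'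
  refine ⟨minpoly K x', minpoly.ne_zero (Algebra.IsIntegral.isIntegral x'), fun m => ?_⟩
  have h1 : ∀ (g : K[X]) (m : M), aeval x' g ((tauPow τ hτ 1).mkQ m) =
      (tauPow τ hτ 1).mkQ (aeval x g m) := by
    intro g m
    induction g using Polynomial.induction_on' with
    | add f g hf hg => rw [map_add, map_add, LinearMap.add_apply, LinearMap.add_apply, hf, hg, map_add]
    | monomial n c =>
      rw [aeval_monomial, aeval_monomial]
      have h2 : ∀ n : ℕ, ∀ m, (x' ^ n) ((tauPow τ hτ 1).mkQ m) = (tauPow τ hτ 1).mkQ ((x ^ n) m) := by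
        intro n
        induction n with
        | zero => intro m; simp
        | succ n ih =>
          intro m
          rw [pow_succ', pow_succ', Module.End.mul_apply, Module.End.mul_apply, ih]
          rfl
      simp only [Module.algebraMap_end_eq_smul_id, Module.End.mul_apply, LinearMap.smul_apply,
        LinearMap.id_apply]
      rw [h2, map_smul]
  have h2 := h1 (minpoly K x') m
  rw [minpoly.aeval, LinearMap.zero_apply] at h2
  exact (Submodule.Quotient.mk_eq_zero _).1 h2.symm

theorem stable_range {τ : M →+ M} (hτ : Semi K p τ) {x : M →ₗ[K] M}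
    (hx : ∀ m, x (τ m) = τ (x m)) {f : K[X]} (hf : f.map (frobenius K p) = f) :
    ∀ m ∈ LinearMap.range (aeval x f), τ m ∈ LinearMap.range (aeval x f) := by
  rintro _ ⟨m, rfl⟩
  refine ⟨τ m, ?_⟩
  rw [tau_aeval hτ hx, hf]

/-- Main theorem on the counting of kernels of Frobenius-invariant polynomials. -/
theorem main_count {τ : M →+ M} (hτ : Semi K p τ) {x : M →ₗ[K] M}
    (hx : ∀ m, x (τ m) = τ (x m)) {s : Finset M} (hs : gen K τ s = ⊤) :
    ∃ (a : ℕ) (g : K[X]), g ≠ 0 ∧
      (∀ f : K[X], f.Monic → f.map (frobenius K p) = f → IsCoprime f g →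
        Nat.card (TF τ p (LinearMap.range (aeval x f))) = p ^ (a * f.natDegree)) ∧
      (∀ f : K[X], f.Monic → f.map (frobenius K p) = f → Good x f →
        Nat.card (TF τ p (LinearMap.range (aeval x f))) ≤ p ^ (a * f.natDegree)) := by
  classical
  obtain ⟨a, ⟨b, hb⟩, hmax⟩ := exists_rank hτ hs hx
  obtain ⟨d, hd⟩ := exists_genL_fin (K := K) hs Finset.univ b
  have hbd : LinearMap.range (phi x b) ≤ PX x τ s d := by
    rintro _ ⟨h, rfl⟩
    rw [phi_apply]
    exact sum_mem fun i _ => PX_stable _ (genL_le_PX (hd i (Finset.mem_univ i)))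
  obtain ⟨g, hg0, hg⟩ := exists_mult_fin hb hmax (s ×ˢ Finset.range (d + 1))
    (fun q => τ^[q.2] q.1)
  have hg' : ∀ m ∈ PX x τ s (d + 1), aeval x g m ∈ LinearMap.range (phi x b) := by
    intro m hm
    refine span_induction (p := fun m _ => aeval x g m ∈ LinearMap.range (phi x b)) ?_ ?_ ?_ ?_ hm
    · rintro _ ⟨v, hv, i, hi, h, rfl⟩
      rw [aeval_comm_apply]
      exact range_phi_stable _ (hg (v, i) (by simp [hv, hi]))
    · simp
    · intro a b _ _ ha hb
      rw [map_add]
      exact add_mem ha hb
    · intro c a _ ha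
      rw [map_smul]
      exact smul_mem _ _ ha
  obtain ⟨g2, hg20, hg2⟩ := exists_tau_kill hτ hx hs
  refine ⟨a, g * g2, mul_ne_zero hg0 hg20, ?_, ?_⟩
  · intro f hmon hf hcop
    have hc1 := (IsCoprime.mul_right_iff.1 hcop).1
    have hc2 := (IsCoprime.mul_right_iff.1 hcop).2
    have hbm := fun m => bij_mod hτ hx hs hbd hg' hf hc1 m
    obtain ⟨hfd, hfr⟩ := finrank_coker hb hmon (fun m => (hbm m).1) (fun m => (hbm m).2)
    have h1 := (card_TF_aux hτ _ (LinearMap.range (aeval x f)) (stable_range hτ hx hf) hfd hfr).2.2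
    apply h1
    intro m
    obtain ⟨u, v, huv⟩ := coprime_split (x := x) hc2
    rw [huv m]
    refine add_mem (mem_sup_left ?_) (mem_sup_right ?_)
    · rw [aeval_comm_apply]
      exact ⟨_, rfl⟩
    · rw [aeval_comm_apply]
      obtain ⟨w, hw⟩ := hg2 (aeval x v m)
      rw [← hw]
      exact subset_span ⟨w, rfl⟩
  · intro f hmon hf hgood
    have hfd := hgood.2
    have h1 := (card_TF_aux hτ _ (LinearMap.range (aeval x f)) (stable_range hτ hx hf) hfd rfl).2.1
    exact h1.trans (Nat.pow_le_pow_right (Fact.out : p.Prime).pos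
      (finrank_good hmax _ f hmon rfl hgood))

end Pool.Agent.Q81.Fad
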