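import Pool.Agent.Q81.FadCount

/-! Finite kernel implies finite codimension, and finite codimension implies injectivity. -/

namespace Pool.Agent.Q81.Fad

open Submodule

set_option linter.unusedSectionVars false

variable {K : Type*} [Field K] {p : ℕ} [Fact p.Prime] [CharP K p]
variable {M : Type*} [AddCommGroup M] [Module K M]

/-- the `K`-span of `τ^i v`, `v ∈ s`. -/
def gen (K : Type*) [Field K] {M : Type*} [AddCommGroup M] [Module K M]
    (τ : M →+ M) (s : Finset M) : Submodule K M :=
  span K {m | ∃ v ∈ s, ∃ i : ℕ, m = τ^[i] v}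

theorem TF_anti {τ : M →+ M} {N N' : Submodule K M} (h : N ≤ N') : TF τ p N' ≤ TF τ p N :=
  fun _ hφ => ⟨hφ.1, fun m hm => hφ.2 m (h hm)⟩

variable [IsAlgClosed K]

theorem fd_of_finite {τ : M →+ M} (hτ : Semi K p τ) (s : Finset M) : ∀ (N : Submodule K M),
    (∀ m ∈ N, τ m ∈ N) → Finite (TF τ p N) → N ⊔ gen K τ s = ⊤ → FiniteDimensional K (M ⧸ N) := by
  classical
  induction s using Finset.induction_on with
  | empty =>
    intro N hN hf hs
    have : gen K τ ∅ = ⊥ := by
      unfold gen
      simp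
    rw [this, sup_bot_eq] at hs
    rw [hs]
    infer_instance
  | insert v s hv ih =>
    intro N hN hf hs
    set N' := N ⊔ span K (Set.range fun i : ℕ => τ^[i] v) with hN'
    have hst : ∀ m ∈ N', τ m ∈ N' := stable_sup_all hτ hN
    have hf' : Finite (TF τ p N') := by
      have := TF_anti (τ := τ) (p := p) (le_sup_left : N ≤ N')
      exact Finite.of_injective _ (AddSubgroup.inclusion_injective this)
    have hs' : N' ⊔ gen K τ s = ⊤ := by
      rw [eq_top_iff, ← hs]
      refine sup_le (le_sup_of_le_left le_sup_left) (span_le.2 ?_)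
      rintro _ ⟨w, hw, i, rfl⟩
      rcases Finset.mem_insert.1 hw with rfl | hw
      · exact mem_sup_left (mem_sup_right (subset_span ⟨i, rfl⟩))
      · exact mem_sup_right (subset_span ⟨w, hw, i, rfl⟩)
    have hfd := ih N' hst hf' hs'
    by_cases h : ∃ d, τ^[d] v ∈ N ⊔ orb K τ v d
    · obtain ⟨d, hd⟩ := h
      have h1 : N' ≤ N ⊔ orb K τ v d := by
        refine sup_le le_sup_left (span_le.2 ?_)
        rintro _ ⟨i, rfl⟩
        change τ^[i] v ∈ N ⊔ orb K τ v d
        rcases Nat.lt_or_ge i d with hi | hi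
        · exact mem_sup_right (mem_orb hi)
        · obtain ⟨j, rfl⟩ := Nat.exists_eq_add_of_le hi
          clear hi
          induction j with
          | zero => exact hd
          | succ j ihj =>
            rw [← Nat.add_assoc, Function.iterate_succ_apply']
            exact stable_sup hτ hN hd _ ihj
      have h2 : (N ⊔ orb K τ v d).map N.mkQ = span K (Set.range fun i : Fin d =>
          N.mkQ (τ^[(i : ℕ)] v)) := by
        rw [Submodule.map_sup]
        have : N.map N.mkQ = ⊥ := Submodule.mkQ_map_self N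
        rw [this, bot_sup_eq, orb, Submodule.map_span, ← Set.range_comp]
        rfl
      have h3 : Module.Finite K ((N ⊔ orb K τ v d).map N.mkQ) := by
        rw [h2]
        exact FiniteDimensional.span_of_finite K (Set.finite_range _)
      have h4 : FiniteDimensional K (M ⧸ (N ⊔ orb K τ v d)) := fd_step h1
      have h5 : Module.Finite K ((M ⧸ N) ⧸ ((N ⊔ orb K τ v d).map N.mkQ)) :=
        Module.Finite.equiv (Submodule.quotientQuotientEquivQuotient N (N ⊔ orb K τ v d)
          le_sup_left).symm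
      exact Module.Finite.of_submodule_quotient ((N ⊔ orb K τ v d).map N.mkQ)
    · exfalso
      push Not at h
      have hli := indep_nat N τ v h
      have hsurj : Function.Surjective (evTF τ p N v) := by
        intro z
        obtain ⟨φ₀, h1, h2, h3⟩ := step_inf hτ hli z
        have h4 : N' ≤ eqSub τ hτ φ₀ := by
          refine sup_le (fun m hm => ?_) (fun m hm => h3 m hm)
          rw [mem_eqSub, h1 m hm, h1 _ (hN m hm), zero_pow (Fact.out : p.Prime).ne_zero]
        obtain ⟨φ, h5, h6⟩ := exists_ext hτ hst h4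
        refine ⟨⟨φ, h5, fun m hm => ?_⟩, ?_⟩
        · rw [h6 m (mem_sup_left hm), h1 m hm]
        · change φ v = z
          rw [h6 v (mem_sup_right (subset_span ⟨0, rfl⟩)), h2]
      have : Finite K := Finite.of_surjective _ hsurj
      exact not_finite K

/-- `τ^j M`. -/
def tauPow (τ : M →+ M) (hτ : Semi K p τ) (j : ℕ) : Submodule K M where
  carrier := Set.range τ^[j]
  zero_mem' := ⟨0, by simp [iterate_map_zero]⟩
  add_mem' := by
    rintro _ _ ⟨a, rfl⟩ ⟨b, rfl⟩
    exact ⟨a + b, iterate_map_add τ j a b⟩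
  smul_mem' := by
    rintro c _ ⟨a, rfl⟩
    obtain ⟨c', hc'⟩ := IsAlgClosed.exists_pow_nat_eq c (pow_pos (Fact.out : p.Prime).pos j)
    exact ⟨c' • a, by rw [hτ.iter, hc']⟩

theorem mem_tauPow {τ : M →+ M} {hτ : Semi K p τ} {j : ℕ} {m : M} :
    m ∈ tauPow τ hτ j ↔ ∃ a, τ^[j] a = m := Iff.rfl

theorem fd_tauPow {τ : M →+ M} (hτ : Semi K p τ) (s : Finset M) (hs : gen K τ s = ⊤) (j : ℕ) :
    FiniteDimensional K (M ⧸ tauPow τ hτ j) := by
  classical
  rw [FiniteDimensional, Module.finite_def]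
  refine ⟨(s ×ˢ Finset.range j).image fun x => (tauPow τ hτ j).mkQ (τ^[x.2] x.1), ?_⟩
  rw [eq_top_iff]
  intro q _
  obtain ⟨m, rfl⟩ := Submodule.mkQ_surjective _ q
  have hm : m ∈ gen K τ s := hs ▸ mem_top
  refine span_induction (p := fun m _ => (tauPow τ hτ j).mkQ m ∈ span K
    (((s ×ˢ Finset.range j).image fun x => (tauPow τ hτ j).mkQ (τ^[x.2] x.1) :
      Finset (M ⧸ tauPow τ hτ j)) : Set (M ⧸ tauPow τ hτ j))) ?_ ?_ ?_ ?_ hm
  · rintro _ ⟨v, hv, i, rfl⟩
    rcases Nat.lt_or_ge i j with hi | hi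
    · refine subset_span ?_
      simp only [Finset.coe_image, Set.mem_image]
      exact ⟨(v, i), by simp [hv, hi], rfl⟩
    · obtain ⟨l, rfl⟩ := Nat.exists_eq_add_of_le hi
      have : (tauPow τ hτ j).mkQ (τ^[j + l] v) = 0 := by
        refine (Submodule.Quotient.mk_eq_zero _).2 ?_
        rw [Function.iterate_add_apply]
        exact ⟨_, rfl⟩
      rw [this]
      exact zero_mem _
  · simp
  · intro a b _ _ ha hb
    rw [map_add]
    exact add_mem ha hb
  · intro c a _ ha
    rw [map_smul]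
    exact smul_mem _ _ ha

theorem indep_tau {τ : M →+ M} (hτ : Semi K p τ) (hinj : Function.Injective τ) {z : M}
    (hz : z ∉ tauPow τ hτ 1) : ∀ (j : ℕ) (c : Fin j → K),
    (∑ i, c i • τ^[(i : ℕ)] z) ∈ tauPow τ hτ j → ∀ i, c i = 0 := by
  intro j
  induction j with
  | zero => intro c _ i; exact i.elim0
  | succ j ih =>
    intro c hc
    choose c' hc' using fun i : Fin j => exists_root_p (p := p) (c i.succ)
    have h1 : ∑ i : Fin j, c i.succ • τ^[(i.succ : ℕ)] z = τ (∑ i : Fin j, c' i • τ^[(i : ℕ)] z) := by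
      rw [map_sum]
      refine Finset.sum_congr rfl fun i _ => ?_
      rw [hτ, hc', ← Function.iterate_succ_apply' (f := τ)]
      rfl
    rw [Fin.sum_univ_succ, h1] at hc
    obtain ⟨a, ha⟩ := hc
    have h0 : c 0 = 0 := by
      by_contra hne
      apply hz
      have h2 : c 0 • z = τ (τ^[j] a - ∑ i : Fin j, c' i • τ^[(i : ℕ)] z) := by
        rw [map_sub, ← Function.iterate_succ_apply' (f := τ), Nat.succ_eq_add_one, ha]
        simp
      have h3 : c 0 • z ∈ tauPow τ hτ 1 := ⟨_, h2.symm⟩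
      have h4 := smul_mem (tauPow τ hτ 1) (c 0)⁻¹ h3
      rwa [smul_smul, inv_mul_cancel₀ hne, one_smul] at h4
    have h5 : ∑ i : Fin j, c' i • τ^[(i : ℕ)] z ∈ tauPow τ hτ j := by
      refine ⟨a, hinj ?_⟩
      rw [← Function.iterate_succ_apply' (f := τ), Nat.succ_eq_add_one, ha, h0]
      simp
    have h6 := ih c' h5
    intro i
    refine Fin.cases h0 (fun i => ?_) i
    rw [← hc' i, h6 i, zero_pow (Fact.out : p.Prime).ne_zero]

theorem iter_comm {τ : M →+ M} {T : M →ₗ[K] M} (hT : ∀ m, T (τ m) = τ (T m)) (i : ℕ) (m : M) :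
    T (τ^[i] m) = τ^[i] (T m) := by
  induction i with
  | zero => rfl
  | succ i ih => rw [Function.iterate_succ_apply', hT, ih, Function.iterate_succ_apply']

theorem inj_of_fd_aux {τ : M →+ M} (hτ : Semi K p τ) (hinj : Function.Injective τ)
    (s : Finset M) (hs : gen K τ s = ⊤) (T : M →ₗ[K] M) (hT : ∀ m, T (τ m) = τ (T m))
    [FiniteDimensional K (M ⧸ LinearMap.range T)] {z : M} (hz : z ∉ tauPow τ hτ 1) (hTz : T z = 0) :
    False := by
  set c := Module.finrank K (M ⧸ LinearMap.range T) with hc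
  set A := tauPow τ hτ (c + 1) with hA
  have hfd : FiniteDimensional K (M ⧸ A) := fd_tauPow hτ s hs (c + 1)
  have hAT : A ≤ A.comap T := by
    rintro _ ⟨a, rfl⟩
    exact ⟨T a, (iter_comm hT _ _).symm⟩
  set T' : (M ⧸ A) →ₗ[K] (M ⧸ A) := A.mapQ A T hAT with hT'
  have h1 := LinearMap.finrank_range_add_finrank_ker T'
  have h2 := Submodule.finrank_quotient_add_finrank (LinearMap.range T')
  have h3 : Module.finrank K ((M ⧸ A) ⧸ LinearMap.range T') ≤ c := by
    have hle : LinearMap.range T ≤ (LinearMap.range T').comap A.mkQ := by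
      rintro _ ⟨m, rfl⟩
      exact ⟨A.mkQ m, rfl⟩
    have hsurj : Function.Surjective ((LinearMap.range T).mapQ (LinearMap.range T') A.mkQ hle) := by
      intro q
      obtain ⟨q', rfl⟩ := Submodule.mkQ_surjective _ q
      obtain ⟨m, rfl⟩ := Submodule.mkQ_surjective _ q'
      exact ⟨(LinearMap.range T).mkQ m, rfl⟩
    exact LinearMap.finrank_le_finrank_of_surjective hsurj
  have hmem : ∀ i : Fin (c + 1), A.mkQ (τ^[(i : ℕ)] z) ∈ LinearMap.ker T' := by
    intro i
    rw [LinearMap.mem_ker]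
    change A.mkQ (T _) = 0
    rw [iter_comm hT, hTz, iterate_map_zero, map_zero]
  have hli : LinearIndependent K (fun i : Fin (c + 1) =>
      (⟨A.mkQ (τ^[(i : ℕ)] z), hmem i⟩ : LinearMap.ker T')) := by
    rw [Fintype.linearIndependent_iff]
    intro g hg
    have h4 := congrArg Subtype.val hg
    have h5 : A.mkQ (∑ i, g i • τ^[(i : ℕ)] z) = 0 := by
      rw [map_sum]
      simpa using h4
    exact indep_tau hτ hinj hz (c + 1) g ((Submodule.Quotient.mk_eq_zero _).1 h5)
  have h6 := hli.fintype_card_le_finrank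
  rw [Fintype.card_fin] at h6
  omega

theorem inj_of_fd {τ : M →+ M} (hτ : Semi K p τ) (hinj : Function.Injective τ)
    (s : Finset M) (hs : gen K τ s = ⊤) (hsep : ∀ z : M, z ≠ 0 → ∃ k, ∀ m, τ^[k] m ≠ z)
    (T : M →ₗ[K] M) (hT : ∀ m, T (τ m) = τ (T m))
    [FiniteDimensional K (M ⧸ LinearMap.range T)] : Function.Injective T := by
  classical
  rw [← LinearMap.ker_eq_bot, LinearMap.ker_eq_bot']
  intro z hTz
  by_contra hne
  have hex := hsep z hne
  have hpos : Nat.find hex ≠ 0 := by
    intro h0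
    have := Nat.find_spec hex
    rw [h0] at this
    exact this z rfl
  obtain ⟨k, hk⟩ : ∃ k, Nat.find hex = k + 1 := ⟨Nat.find hex - 1, by omega⟩
  have h1 := Nat.find_min hex (m := k) (by omega)
  push Not at h1
  obtain ⟨z', hz'⟩ := h1
  have h2 := Nat.find_spec hex
  rw [hk] at h2
  refine inj_of_fd_aux hτ hinj s hs T hT (z := z') ?_ ?_
  · rintro ⟨w, hw⟩
    apply h2 w
    rw [Function.iterate_add_apply, hw, hz']
  · have h3 : τ^[k] (T z') = 0 := by
      rw [← iter_comm hT, hz', hTz]
    have h4 : Function.Injective τ^[k] := hinj.iterate k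
    apply h4
    rw [h3, iterate_map_zero]

end Pool.Agent.Q81.Fad
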