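import Pool.Agent.Q81.FadDim

/-! Exactness and the abstract form of the counting theorem. -/

namespace Pool.Agent.Q81.Fad

open Submodule Polynomial

set_option linter.unusedSectionVars false

variable {K : Type*} [Field K] {p : ℕ} [Fact p.Prime] [CharP K p]
variable {M : Type*} [AddCommGroup M] [Module K M] [IsAlgClosed K]

theorem surj_dual {τ : M →+ M} (hτ : Semi K p τ) {x : M →ₗ[K] M}
    (hx : ∀ m, x (τ m) = τ (x m)) {f : K[X]} (hf : f.map (frobenius K p) = f) (hgood : Good x f)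
    (φ : M →ₗ[K] K) (hφ : ∀ m, φ (τ m) = φ m ^ p) :
    ∃ ψ : M →ₗ[K] K, (∀ m, ψ (τ m) = ψ m ^ p) ∧ ∀ m, ψ (aeval x f m) = φ m := by
  obtain ⟨g, hg⟩ := LinearMap.exists_leftInverse_of_injective (aeval x f)
    (LinearMap.ker_eq_bot.2 hgood.1)
  have hg' : ∀ m, g (aeval x f m) = m := fun m => congrArg (fun q => q m) hg
  have := hgood.2
  have h1 : LinearMap.range (aeval x f) ≤ eqSub τ hτ (φ ∘ₗ g) := by
    rintro _ ⟨m, rfl⟩
    rw [mem_eqSub, tau_aeval hτ hx, hf, LinearMap.comp_apply, LinearMap.comp_apply, hg', hg', hφ]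
  obtain ⟨ψ, h2, h3⟩ := exists_ext hτ (stable_range hτ hx hf) h1
  refine ⟨ψ, h2, fun m => ?_⟩
  rw [h3 _ ⟨m, rfl⟩, LinearMap.comp_apply, hg']

/-- precomposition with `g(x)`. -/
noncomputable def actTF {τ : M →+ M} (hτ : Semi K p τ) {x : M →ₗ[K] M}
    (hx : ∀ m, x (τ m) = τ (x m)) (f g : K[X]) (hg : g.map (frobenius K p) = g) :
    TF τ p (LinearMap.range (aeval x (f * g))) →+ TF τ p (LinearMap.range (aeval x f)) where
  toFun φ := ⟨φ.1 ∘ₗ aeval x g, fun m => by
    rw [LinearMap.comp_apply, LinearMap.comp_apply, ← φ.2.1, tau_aeval hτ hx, hg], by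
    rintro _ ⟨m, rfl⟩
    refine φ.2.2 _ ⟨m, ?_⟩
    rw [mul_comm, map_mul]
    rfl⟩
  map_zero' := rfl
  map_add' _ _ := rfl

theorem card_mul {τ : M →+ M} (hτ : Semi K p τ) {x : M →ₗ[K] M}
    (hx : ∀ m, x (τ m) = τ (x m)) (f g : K[X])
    (hg : g.map (frobenius K p) = g) (hgood : Good x g) :
    Nat.card (TF τ p (LinearMap.range (aeval x (f * g)))) =
      Nat.card (TF τ p (LinearMap.range (aeval x f))) *
      Nat.card (TF τ p (LinearMap.range (aeval x g))) := by
  have hsurj : Function.Surjective (actTF hτ hx f g hg) := by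
    intro φ
    obtain ⟨ψ, h1, h2⟩ := surj_dual hτ hx hg hgood φ.1 φ.2.1
    refine ⟨⟨ψ, h1, ?_⟩, ?_⟩
    · rintro _ ⟨m, rfl⟩
      rw [mul_comm, map_mul, Module.End.mul_apply, h2]
      exact φ.2.2 _ ⟨m, rfl⟩
    · apply Subtype.ext
      ext m
      exact h2 m
  rw [AddSubgroup.card_eq_card_quotient_mul_card_addSubgroup (actTF hτ hx f g hg).ker,
    Nat.card_congr (QuotientAddGroup.quotientKerEquivOfSurjective (actTF hτ hx f g hg)
      hsurj).toEquiv]
  congr 1
  refine Nat.card_congr ⟨fun φ => ⟨φ.1.1, φ.1.2.1, ?_⟩, fun φ => ⟨⟨φ.1, φ.2.1, ?_⟩, ?_⟩, ?_, ?_⟩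
  · rintro _ ⟨m, rfl⟩
    have h1 := congrArg (fun q => q.1 m) φ.2
    exact h1
  · rintro _ ⟨m, rfl⟩
    refine φ.2.2 _ ⟨aeval x f m, ?_⟩
    rw [mul_comm f g, map_mul]
    rfl
  · apply Subtype.ext
    ext m
    exact φ.2.2 _ ⟨m, rfl⟩
  · intro φ
    rfl
  · intro φ
    rfl

theorem card_one (τ : M →+ M) (x : M →ₗ[K] M) :
    Nat.card (TF τ p (LinearMap.range (aeval x (1 : K[X])))) = 1 := by
  rw [Nat.card_eq_one_iff_unique]
  refine ⟨⟨fun a b => ?_⟩, ⟨0⟩⟩
  apply Subtype.ext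
  ext m
  rw [a.2.2 m ⟨m, by simp⟩, b.2.2 m ⟨m, by simp⟩]

theorem card_pow' {τ : M →+ M} (hτ : Semi K p τ) {x : M →ₗ[K] M}
    (hx : ∀ m, x (τ m) = τ (x m)) (g : K[X])
    (hg : g.map (frobenius K p) = g) (hgood : Good x g) (n : ℕ) :
    Nat.card (TF τ p (LinearMap.range (aeval x (g ^ n)))) =
      Nat.card (TF τ p (LinearMap.range (aeval x g))) ^ n := by
  induction n with
  | zero => rw [pow_zero, pow_zero, card_one]
  | succ n ih => rw [pow_succ, card_mul hτ hx _ _ hg hgood, ih, pow_succ]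

theorem card_prod' {τ : M →+ M} (hτ : Semi K p τ) {x : M →ₗ[K] M}
    (hx : ∀ m, x (τ m) = τ (x m)) {ι : Type*} (t : Finset ι) (g : ι → K[X])
    (hg : ∀ i ∈ t, (g i).map (frobenius K p) = g i) (hgood : ∀ i ∈ t, Good x (g i)) :
    Nat.card (TF τ p (LinearMap.range (aeval x (∏ i ∈ t, g i)))) =
      ∏ i ∈ t, Nat.card (TF τ p (LinearMap.range (aeval x (g i)))) := by
  classical
  induction t using Finset.induction_on with
  | empty => rw [Finset.prod_empty, Finset.prod_empty, card_one]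
  | insert i t hi ih =>
    rw [Finset.prod_insert hi, Finset.prod_insert hi, mul_comm, card_mul hτ hx _ _
      (hg i (Finset.mem_insert_self i t)) (hgood i (Finset.mem_insert_self i t)),
      ih (fun j hj => hg j (Finset.mem_insert_of_mem hj))
        (fun j hj => hgood j (Finset.mem_insert_of_mem hj)), mul_comm]

theorem card_p_power_aux (G : Type*) [AddCommGroup G] [Finite G] (h : ∀ g : G, p • g = 0) :
    ∃ e, Nat.card G = p ^ e := by
  let inst : Module (ZMod p) G := AddCommGroup.zmodModule h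
  have hf : Module.Finite (ZMod p) G := Module.Finite.of_finite
  have h1 := @Module.natCard_eq_pow_finrank (ZMod p) G _ _ inst hf
  rw [Nat.card_zmod] at h1
  exact ⟨_, h1⟩

theorem card_p_power {τ : M →+ M} {N : Submodule K M} (h : 0 < Nat.card (TF τ p N)) :
    ∃ e, Nat.card (TF τ p N) = p ^ e := by
  have hf : Finite (TF τ p N) := Nat.finite_of_card_ne_zero h.ne'
  refine card_p_power_aux (TF τ p N) fun φ => ?_
  apply Subtype.ext
  ext m
  simp

theorem cyc_map (m : ℕ) : (cyclotomic m K).map (frobenius K p) = cyclotomic m K :=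
  map_cyclotomic m (frobenius K p)

theorem xn_map (n : ℕ) : (X ^ n - 1 : K[X]).map (frobenius K p) = X ^ n - 1 := by
  simp

/-- abstract counting theorem. -/
theorem main_abs {τ : M →+ M} (hτ : Semi K p τ) (hinj : Function.Injective τ) {x : M →ₗ[K] M}
    (hx : ∀ m, x (τ m) = τ (x m)) {s : Finset M} (hs : gen K τ s = ⊤)
    (hsep : ∀ z : M, z ≠ 0 → ∃ k, ∀ m, τ^[k] m ≠ z)
    (hconf : ∀ n : ℕ, 0 < n → Finite (TF τ p (LinearMap.range (aeval x (X ^ n - 1 : K[X]))))) :
    ∃ (a : ℕ) (t : ℕ → ℕ) (d : ℕ), 0 < d ∧ ¬ p ∣ d ∧ (∀ n, 0 < n → t n = t (n.gcd d)) ∧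
      ∀ n, 0 < n → Nat.card (TF τ p (LinearMap.range (aeval x (X ^ n - 1 : K[X])))) *
        p ^ (t n * p ^ (padicValNat p n)) = p ^ (a * n) := by
  classical
  have hp := (Fact.out : p.Prime)
  obtain ⟨a, g, hg0, hc1, hc2⟩ := main_count hτ hx hs
  -- goodness
  have hgoodX : ∀ n : ℕ, 0 < n → Good x (X ^ n - 1 : K[X]) := by
    intro n hn
    have h1 := hconf n hn
    have h2 := fd_of_finite hτ s (LinearMap.range (aeval x (X ^ n - 1 : K[X])))
      (stable_range hτ hx (xn_map n)) h1 (by rw [hs, sup_top_eq])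
    refine ⟨?_, h2⟩
    refine inj_of_fd hτ hinj s hs hsep _ (fun m => ?_)
    rw [tau_aeval hτ hx, xn_map]
  have hgood : ∀ m : ℕ, 0 < m → Good x (cyclotomic m K) := by
    intro m hm
    obtain ⟨q, hq⟩ := cyclotomic.dvd_X_pow_sub_one m K
    have h1 := hgoodX m hm
    rw [hq] at h1
    exact h1.left
  -- the exponents
  have hE : ∀ m : ℕ, ∃ e : ℕ, 0 < m → Nat.card (TF τ p (LinearMap.range
      (aeval x (cyclotomic m K)))) = p ^ e := by
    intro m
    by_cases hm : 0 < m
    · have hpos : 0 < Nat.card (TF τ p (LinearMap.range (aeval x (cyclotomic m K)))) :=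
        (card_TF_aux hτ _ _ (stable_range hτ hx (cyc_map m)) (hgood m hm).2 rfl).1
      obtain ⟨e, he⟩ := card_p_power hpos
      exact ⟨e, fun _ => he⟩
    · exact ⟨0, fun h => absurd h hm⟩
  choose E hE using hE
  have hEle : ∀ m, 0 < m → E m ≤ a * m.totient := by
    intro m hm
    have h1 := hc2 _ (cyclotomic.monic m K) (cyc_map m) (hgood m hm)
    rw [hE m hm, natDegree_cyclotomic] at h1
    exact (Nat.pow_le_pow_iff_right hp.one_lt).1 h1
  -- the exceptional set
  set Exc : Finset ℕ := (g.roots.toFinset.image fun μ => orderOf μ).filter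
    (fun m => 0 < m ∧ ¬ p ∣ m) with hExc
  have hEeq : ∀ m, 0 < m → ¬ p ∣ m → m ∉ Exc → E m = a * m.totient := by
    intro m hm hpm hmE
    have hcop : IsCoprime (cyclotomic m K) g := by
      rw [isCoprime_iff_aeval_ne_zero_of_isAlgClosed K K]
      intro μ
      by_contra hcon
      push Not at hcon
      obtain ⟨h1, h2⟩ := hcon
      apply hmE
      have hne : NeZero (m : K) := ⟨by
        rw [Ne, CharP.cast_eq_zero_iff K p m]
        exact hpm⟩
      have h3 : IsPrimitiveRoot μ m := isRoot_cyclotomic_iff.1 (by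
        rw [IsRoot]
        simpa using h1)
      rw [hExc, Finset.mem_filter, Finset.mem_image]
      refine ⟨⟨μ, ?_, h3.eq_orderOf.symm⟩, hm, hpm⟩
      rw [Multiset.mem_toFinset, mem_roots hg0]
      simpa using h2
    have h4 := hc1 _ (cyclotomic.monic m K) (cyc_map m) hcop
    rw [hE m hm, natDegree_cyclotomic] at h4
    exact Nat.pow_right_injective hp.two_le h4
  set w : ℕ → ℕ := fun m => a * m.totient - E m with hw
  set t : ℕ → ℕ := fun n => ∑ m ∈ Exc.filter (fun m => m ∣ n), w m with ht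
  refine ⟨a, t, ∏ m ∈ Exc, m, ?_, ?_, ?_, ?_⟩
  · refine Finset.prod_pos fun m hm => ?_
    exact (Finset.mem_filter.1 hm).2.1
  · rw [Prime.dvd_finsetProd_iff hp.prime]
    rintro ⟨m, hm, h⟩
    exact (Finset.mem_filter.1 hm).2.2 h
  · intro n hn
    simp only [ht]
    refine Finset.sum_congr ?_ fun _ _ => rfl
    ext m
    simp only [Finset.mem_filter]
    refine and_congr_right fun hm => ?_
    rw [Nat.dvd_gcd_iff]
    exact ⟨fun h => ⟨h, Finset.dvd_prod_of_mem (fun m => m) hm⟩, fun h => h.1⟩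
  · intro n hn
    obtain ⟨k, n', hpn', rfl⟩ := Nat.exists_eq_pow_mul_and_not_dvd hn.ne' p hp.ne_one
    have hn'0 : 0 < n' := Nat.pos_of_ne_zero fun h => hpn' (h ▸ dvd_zero p)
    have hval : padicValNat p (p ^ k * n') = k := by
      rw [padicValNat.mul (pow_ne_zero _ hp.ne_zero) hn'0.ne', padicValNat.prime_pow,
        padicValNat.eq_zero_of_not_dvd hpn', add_zero]
    rw [hval]
    have h1 : (X ^ (p ^ k * n') - 1 : K[X]) = (∏ m ∈ n'.divisors, cyclotomic m K) ^ (p ^ k) := by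
      rw [prod_cyclotomic_eq_X_pow_sub_one hn'0, sub_pow_expChar_pow, one_pow, ← pow_mul,
        mul_comm]
    have hg1 : ∀ m ∈ n'.divisors, (cyclotomic m K).map (frobenius K p) = cyclotomic m K :=
      fun m _ => cyc_map m
    have hg2 : ∀ m ∈ n'.divisors, Good x (cyclotomic m K) := fun m hm =>
      hgood m (Nat.pos_of_mem_divisors hm)
    have h2 : Nat.card (TF τ p (LinearMap.range (aeval x (X ^ (p ^ k * n') - 1 : K[X])))) =
        p ^ ((∑ m ∈ n'.divisors, E m) * p ^ k) := by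
      rw [h1, card_pow' hτ hx _ (by rw [prod_cyclotomic_eq_X_pow_sub_one hn'0]; exact xn_map n')
        (by rw [prod_cyclotomic_eq_X_pow_sub_one hn'0]; exact hgoodX n' hn'0),
        card_prod' hτ hx _ _ hg1 hg2]
      rw [pow_mul, ← Finset.prod_pow_eq_pow_sum]
      congr 1
      exact Finset.prod_congr rfl fun m hm => hE m (Nat.pos_of_mem_divisors hm)
    have h3 : t (p ^ k * n') = ∑ m ∈ n'.divisors, w m := by
      simp only [ht]
      refine Finset.sum_subset ?_ ?_
      · intro m hm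
        rw [Finset.mem_filter] at hm
        have hm2 := (Finset.mem_filter.1 hm.1).2
        rw [Nat.mem_divisors]
        refine ⟨Nat.Coprime.dvd_of_dvd_mul_left ?_ hm.2, hn'0.ne'⟩
        exact Nat.Coprime.pow_right k ((Nat.Prime.coprime_iff_not_dvd hp).2 hm2.2).symm
      · intro m hm hm'
        have hm0 := Nat.pos_of_mem_divisors hm
        have hmd := Nat.dvd_of_mem_divisors hm
        have h5 : ¬ p ∣ m := fun h => hpn' (h.trans hmd)
        have h6 : m ∉ Exc := fun h => hm' (Finset.mem_filter.2 ⟨h, hmd.mul_left _⟩)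
        simp only [hw]
        rw [hEeq m hm0 h5 h6, Nat.sub_self]
    have h4 : (∑ m ∈ n'.divisors, E m) + ∑ m ∈ n'.divisors, w m = a * n' := by
      rw [← Finset.sum_add_distrib]
      conv_rhs => rw [← Nat.sum_totient n', Finset.mul_sum]
      refine Finset.sum_congr rfl fun m hm => ?_
      have := hEle m (Nat.pos_of_mem_divisors hm)
      simp only [hw]
      omega
    rw [h2, ← pow_add, h3, ← add_mul, h4]
    congr 1
    ring

end Pool.Agent.Q81.Fad
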