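import Pool.Agent.Q81.FadMain

/-! Additive polynomial functions on `K^r`. -/

namespace Pool.Agent.Q81.Fad

open Submodule Polynomial

set_option linter.unusedSectionVars false

variable {K : Type*} [Field K] {p : ℕ} [Fact p.Prime] [CharP K p] [IsAlgClosed K]

/-- One-variable additive polynomials are `p`-polynomials. -/
theorem add_poly_one : ∀ (n : ℕ) (q : K[X]), q.natDegree ≤ n →
    (∀ x y, q.eval (x + y) = q.eval x + q.eval y) →
    ∃ (N : ℕ) (c : ℕ → K), ∀ z, q.eval z = ∑ j ∈ Finset.range N, c j * z ^ (p ^ j) := by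
  have hp := (Fact.out : p.Prime)
  intro n
  induction n using Nat.strong_induction_on with
  | _ n ih =>
    intro q hn hq
    have h0 : q.eval 0 = 0 := by
      have := hq 0 0
      rw [add_zero] at this
      simpa using this
    -- the derivative is constant
    have hder : ∀ y, (derivative q).eval y = (derivative q).eval 0 := by
      intro y
      have h1 : q.comp (X + C y) = q + C (q.eval y) := by
        refine Polynomial.funext fun x => ?_
        rw [eval_comp, eval_add, eval_X, eval_C, hq, eval_add, eval_C]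
      have h2 := congrArg derivative h1
      rw [derivative_comp, derivative_add, derivative_add, derivative_X, derivative_C, derivative_C,
        add_zero, add_zero, one_mul] at h2
      have h3 := congrArg (eval 0) h2
      rw [eval_comp, eval_add, eval_X, eval_C, zero_add] at h3
      exact h3
    set c₀ := (derivative q).eval 0 with hc₀
    set q₁ := q - C c₀ * X with hq₁
    have hd0 : derivative q₁ = 0 := by
      refine Polynomial.funext fun y => ?_
      rw [hq₁, derivative_sub, eval_sub, hder]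
      simp [hc₀]
    by_cases hdeg : q₁.natDegree = 0
    · have h4 : q₁ = C (q₁.eval 0) := by
        rw [eq_C_of_natDegree_eq_zero hdeg]
        simp
      have h5 : q₁.eval 0 = 0 := by
        rw [hq₁, eval_sub, h0]
        simp
      rw [h5, C_0] at h4
      refine ⟨1, fun _ => c₀, fun z => ?_⟩
      have h6 : q = C c₀ * X := by
        have := h4
        rw [hq₁, sub_eq_zero] at this
        exact this
      conv_lhs => rw [h6]
      simp
    · set g := contract p q₁ with hg
      have hexp : expand K p g = q₁ := expand_contract p hd0 hp.ne_zero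
      have hgev : ∀ z, g.eval (z ^ p) = q₁.eval z := by
        intro z
        rw [← hexp, expand_eval]
      have hgdeg : g.natDegree * p = q₁.natDegree := by
        rw [← hexp, natDegree_expand]
      have hq₁deg : q₁.natDegree ≤ max n 1 := by
        rw [hq₁]
        refine (natDegree_sub_le _ _).trans (max_le_max hn ?_)
        exact (natDegree_C_mul_le _ _).trans natDegree_X_le
      have hglt : g.natDegree < n := by
        have h2 := hp.two_le
        rcases Nat.lt_or_ge g.natDegree 1 with h | h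
        · exfalso
          apply hdeg
          rw [← hgdeg]
          have : g.natDegree = 0 := by omega
          rw [this, zero_mul]
        · have : 2 ≤ q₁.natDegree := by
            rw [← hgdeg]
            nlinarith
          have h7 : q₁.natDegree ≤ n := by
            rcases le_max_iff.1 hq₁deg with h | h
            · exact h
            · omega
          nlinarith
      have hgadd : ∀ x y, g.eval (x + y) = g.eval x + g.eval y := by
        intro x y
        obtain ⟨x', rfl⟩ := exists_root_p (p := p) x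
        obtain ⟨y', rfl⟩ := exists_root_p (p := p) y
        rw [← add_pow_char, hgev, hgev, hgev, hq₁, eval_sub, eval_sub, eval_sub, hq]
        simp
        ring
      obtain ⟨N, c, hc⟩ := ih _ hglt g le_rfl hgadd
      refine ⟨N + 1, fun j => Nat.casesOn j c₀ c, fun z => ?_⟩
      rw [Finset.sum_range_succ']
      simp only [pow_zero, pow_one]
      have h8 : q.eval z = q₁.eval z + c₀ * z := by
        rw [hq₁]
        simp
      rw [h8, ← hgev, hc]
      congr 1
      refine Finset.sum_congr rfl fun j _ => ?_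
      rw [← pow_mul, pow_succ']

/-- Additive polynomial functions on `K^r`. -/
def AP (K : Type*) [Field K] (r : ℕ) : Submodule K ((Fin r → K) → K) where
  carrier := {φ | (∀ v w, φ (v + w) = φ v + φ w) ∧
    ∃ P : MvPolynomial (Fin r) K, ∀ v, φ v = MvPolynomial.eval v P}
  zero_mem' := ⟨by simp, 0, by simp⟩
  add_mem' := by
    rintro a b ⟨ha, P, hP⟩ ⟨hb, Q, hQ⟩
    refine ⟨fun v w => ?_, P + Q, fun v => ?_⟩
    · rw [Pi.add_apply, Pi.add_apply, Pi.add_apply, ha, hb]
      ring
    · rw [Pi.add_apply, hP, hQ, map_add]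
  smul_mem' := by
    rintro c a ⟨ha, P, hP⟩
    refine ⟨fun v w => ?_, MvPolynomial.C c * P, fun v => ?_⟩
    · rw [Pi.smul_apply, Pi.smul_apply, Pi.smul_apply, ha, smul_add]
    · rw [Pi.smul_apply, hP, map_mul, MvPolynomial.eval_C, smul_eq_mul]

/-- the Frobenius operator. -/
def fro (K : Type*) [Field K] (p : ℕ) [Fact p.Prime] [CharP K p] (r : ℕ) : AP K r →+ AP K r where
  toFun φ := ⟨fun v => φ.1 v ^ p, by
    obtain ⟨h1, P, hP⟩ := φ.2
    refine ⟨fun v w => ?_, P ^ p, fun v => ?_⟩
    · change φ.1 (v + w) ^ p = φ.1 v ^ p + φ.1 w ^ p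
      rw [h1, add_pow_char]
    · change φ.1 v ^ p = _
      rw [hP, map_pow]⟩
  map_zero' := by
    apply Subtype.ext
    ext v
    exact zero_pow (Fact.out : p.Prime).ne_zero
  map_add' φ ψ := by
    apply Subtype.ext
    ext v
    exact add_pow_char _ _ _

theorem fro_apply {r : ℕ} (φ : AP K r) (v : Fin r → K) : (fro K p r φ).1 v = φ.1 v ^ p := rfl

theorem fro_iter {r : ℕ} (j : ℕ) (φ : AP K r) (v : Fin r → K) :
    ((fro K p r)^[j] φ).1 v = φ.1 v ^ (p ^ j) := by
  induction j with
  | zero => simp
  | succ j ih => rw [Function.iterate_succ_apply', fro_apply, ih, ← pow_mul, pow_succ]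

theorem fro_semi (r : ℕ) : Semi K p (fro K p r) := by
  intro c φ
  apply Subtype.ext
  ext v
  change (c * φ.1 v) ^ p = c ^ p * φ.1 v ^ p
  rw [mul_pow]

theorem fro_inj (r : ℕ) : Function.Injective (fro K p r) := by
  intro φ ψ h
  apply Subtype.ext
  ext v
  have h1 := congrArg (fun q => q.1 v) h
  exact frobenius_inj K p h1

theorem fro_sep (r : ℕ) (z : AP K r) (hz : z ≠ 0) : ∃ k, ∀ m, (fro K p r)^[k] m ≠ z := by
  have hp := (Fact.out : p.Prime)
  obtain ⟨v₀, hv₀⟩ : ∃ v, z.1 v ≠ 0 := by
    by_contra hcon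
    push Not at hcon
    apply hz
    apply Subtype.ext
    ext v
    exact hcon v
  have hline : ∀ (y : AP K r) (P : MvPolynomial (Fin r) K) (_ : ∀ v, y.1 v = MvPolynomial.eval v P)
      (t : K), (MvPolynomial.aeval (fun j => C (v₀ j) * X : Fin r → K[X]) P).eval t =
        y.1 (t • v₀) := by
    intro y P hP t
    rw [hP, ← Polynomial.coe_evalRingHom, MvPolynomial.aeval_def, MvPolynomial.hom_eval₂]
    rw [MvPolynomial.eval, MvPolynomial.coe_eval₂Hom]
    congr 1
    · ext a
      simp
    · ext j
      simp only [Function.comp_apply, coe_evalRingHom, eval_mul, eval_C, eval_X, Pi.smul_apply,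
        smul_eq_mul]
      ring
  obtain ⟨hz1, P, hP⟩ := z.2
  set q : K[X] := MvPolynomial.aeval (fun j => C (v₀ j) * X : Fin r → K[X]) P with hq
  refine ⟨q.natDegree + 1, fun m hm => ?_⟩
  obtain ⟨hm1, Q, hQ⟩ := m.2
  set q' : K[X] := MvPolynomial.aeval (fun j => C (v₀ j) * X : Fin r → K[X]) Q with hq'
  have h1 : q = q' ^ (p ^ (q.natDegree + 1)) := by
    refine Polynomial.funext fun t => ?_
    rw [hline z P hP, eval_pow, hline m Q hQ, ← hm, fro_iter]
  have h2 : q'.natDegree ≠ 0 := by
    intro h0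
    have h3 : q' = C (q'.eval 0) := by
      conv_lhs => rw [eq_C_of_natDegree_eq_zero h0]
      congr 1
      rw [coeff_zero_eq_eval_zero]
    have h4 : q'.eval 0 = 0 := by
      rw [hline m Q hQ, zero_smul]
      have := hm1 0 0
      rw [add_zero] at this
      simpa using this
    rw [h4, C_0] at h3
    apply hv₀
    have h5 := hline z P hP 1
    rw [one_smul, ← hq, h1, h3] at h5
    rw [← h5, zero_pow (pow_pos hp.pos _).ne', eval_zero]
  have h3 := congrArg natDegree h1
  rw [natDegree_pow] at h3
  have h4 : q.natDegree + 1 < p ^ (q.natDegree + 1) := Nat.lt_pow_self hp.one_lt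
  have h5 : p ^ (q.natDegree + 1) ≤ p ^ (q.natDegree + 1) * q'.natDegree :=
    Nat.le_mul_of_pos_right _ (Nat.pos_of_ne_zero h2)
  omega

/-- coordinate functions. -/
def coord (K : Type*) [Field K] (r : ℕ) (i : Fin r) : AP K r :=
  ⟨fun v => v i, fun _ _ => rfl, MvPolynomial.X i, fun v => by simp⟩

theorem fro_gen (r : ℕ) [DecidableEq (AP K r)] :
    gen K (fro K p r) (Finset.univ.image (coord K r)) = ⊤ := by
  classical
  rw [eq_top_iff]
  intro φ _
  obtain ⟨h1, P, hP⟩ := φ.2
  have h0 : φ.1 0 = 0 := by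
    have := h1 0 0
    rw [add_zero] at this
    simpa using this
  have hq : ∀ i : Fin r, ∃ (N : ℕ) (c : ℕ → K), ∀ z : K, φ.1 (Pi.single i z) =
      ∑ j ∈ Finset.range N, c j * z ^ (p ^ j) := by
    intro i
    set q : K[X] := MvPolynomial.aeval (Pi.single i X : Fin r → K[X]) P with hq
    have hqe : ∀ z, q.eval z = φ.1 (Pi.single i z) := by
      intro z
      rw [hP, hq, ← Polynomial.coe_evalRingHom, MvPolynomial.aeval_def, MvPolynomial.hom_eval₂]
      rw [MvPolynomial.eval, MvPolynomial.coe_eval₂Hom]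
      congr 1
      · ext a
        simp
      · ext j
        by_cases hj : j = i
        · subst hj
          simp
        · simp [Pi.single_eq_of_ne hj]
    obtain ⟨N, c, hc⟩ := add_poly_one (p := p) _ q le_rfl (fun x y => by
      rw [hqe, hqe, hqe, Pi.single_add, h1])
    exact ⟨N, c, fun z => by rw [← hqe, hc]⟩
  choose N c hc using hq
  have hsum : φ = ∑ i : Fin r, ∑ j ∈ Finset.range (N i), c i j • (fro K p r)^[j] (coord K r i) := by
    apply Subtype.ext
    ext v
    have h2 : ∀ s : Finset (Fin r), φ.1 (∑ i ∈ s, Pi.single i (v i)) =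
        ∑ i ∈ s, φ.1 (Pi.single i (v i)) := by
      intro s
      induction s using Finset.induction_on with
      | empty => simpa using h0
      | insert i s hi ih => rw [Finset.sum_insert hi, Finset.sum_insert hi, h1, ih]
    have h3 : φ.1 v = ∑ i, φ.1 (Pi.single i (v i)) := by
      rw [← h2]
      exact congrArg φ.1 (Finset.univ_sum_single v).symm
    rw [h3]
    simp only [Submodule.coe_sum, Finset.sum_apply]
    refine Finset.sum_congr rfl fun i _ => ?_
    rw [hc]
    refine Finset.sum_congr rfl fun j _ => ?_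
    change _ = c i j * ((fro K p r)^[j] (coord K r i)).1 v
    rw [fro_iter]
    rfl
  rw [hsum]
  refine sum_mem fun i _ => sum_mem fun j _ => smul_mem _ _ (subset_span ⟨coord K r i, ?_, j, rfl⟩)
  exact Finset.mem_image_of_mem _ (Finset.mem_univ i)

/-- composition with an additive polynomial map. -/
def pull {r : ℕ} (σ : (Fin r → K) → (Fin r → K)) (hadd : ∀ v w, σ (v + w) = σ v + σ w)
    (hpoly : ∀ i, ∃ P : MvPolynomial (Fin r) K, ∀ v, σ v i = MvPolynomial.eval v P) :
    AP K r →ₗ[K] AP K r where
  toFun φ := ⟨fun v => φ.1 (σ v), by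
    obtain ⟨h1, P, hP⟩ := φ.2
    choose Q hQ using hpoly
    refine ⟨fun v w => ?_, MvPolynomial.bind₁ Q P, fun v => ?_⟩
    · change φ.1 (σ (v + w)) = φ.1 (σ v) + φ.1 (σ w)
      rw [hadd, h1]
    · change φ.1 (σ v) = _
      rw [hP]
      have h2 : σ v = fun i => MvPolynomial.eval v (Q i) := funext fun i => hQ i v
      rw [h2]
      exact (MvPolynomial.eval₂Hom_bind₁ (RingHom.id K) v Q P).symm⟩
  map_add' _ _ := rfl
  map_smul' _ _ := rfl

theorem pull_apply {r : ℕ} (σ : (Fin r → K) → (Fin r → K)) (hadd) (hpoly) (φ : AP K r)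
    (v : Fin r → K) : (pull σ hadd hpoly φ).1 v = φ.1 (σ v) := rfl

theorem pull_pow {r : ℕ} (σ : (Fin r → K) → (Fin r → K)) (hadd) (hpoly) (n : ℕ) (φ : AP K r)
    (v : Fin r → K) : (((pull σ hadd hpoly) ^ n) φ).1 v = φ.1 (σ^[n] v) := by
  induction n generalizing φ v with
  | zero => simp
  | succ n ih =>
    rw [pow_succ', Module.End.mul_apply, pull_apply, ih, Function.iterate_succ_apply]

/-- evaluation at a point. -/
def evp {r : ℕ} (w : Fin r → K) : AP K r →ₗ[K] K where
  toFun φ := φ.1 w
  map_add' _ _ := rfl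
  map_smul' _ _ := rfl

theorem mem_TF_iff {r : ℕ} (σ : (Fin r → K) → (Fin r → K)) (hadd) (hpoly) (n : ℕ)
    (w : Fin r → K) : evp w ∈ TF (fro K p r) p (LinearMap.range
      (aeval (pull σ hadd hpoly) (X ^ n - 1 : K[X]))) ↔ σ^[n] w = w := by
  have h1 : ∀ φ, evp w (aeval (pull σ hadd hpoly) (X ^ n - 1 : K[X]) φ) =
      φ.1 (σ^[n] w) - φ.1 w := by
    intro φ
    rw [map_sub, map_pow, aeval_X, map_one, LinearMap.sub_apply, map_sub]
    change (((pull σ hadd hpoly) ^ n) φ).1 w - φ.1 w = _
    rw [pull_pow]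
  constructor
  · intro h
    ext i
    have h2 := h.2 _ ⟨coord K r i, rfl⟩
    rw [h1] at h2
    exact sub_eq_zero.1 h2
  · intro h
    refine ⟨fun φ => rfl, ?_⟩
    rintro _ ⟨φ, rfl⟩
    rw [h1, h, sub_self]

/-- fixed points are the functionals that vanish on the range of `x^n - 1`. -/
noncomputable def fixEquiv {r : ℕ} (σ : (Fin r → K) → (Fin r → K)) (hadd) (hpoly) (n : ℕ) :
    {w | σ^[n] w = w} ≃ TF (fro K p r) p (LinearMap.range
      (aeval (pull σ hadd hpoly) (X ^ n - 1 : K[X]))) := by
  classical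
  refine Equiv.ofBijective (fun w => ⟨evp w.1, (mem_TF_iff σ hadd hpoly n w.1).2 w.2⟩) ⟨?_, ?_⟩
  · intro w w' h
    apply Subtype.ext
    ext i
    have h1 := congrArg (fun q => q.1 (coord K r i)) h
    exact h1
  · intro ψ
    have h1 : evp (fun i => ψ.1 (coord K r i)) = ψ.1 := by
      have h2 : gen K (fro K p r) (Finset.univ.image (coord K r)) ≤
          LinearMap.eqLocus (evp (fun i => ψ.1 (coord K r i))) ψ.1 := by
        refine span_le.2 ?_
        rintro _ ⟨v, hv, j, rfl⟩
        obtain ⟨i, -, rfl⟩ := Finset.mem_image.1 hv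
        change ((fro K p r)^[j] (coord K r i)).1 _ = ψ.1 _
        rw [fro_iter, iter_TF ψ.2.1]
        rfl
      rw [fro_gen] at h2
      ext φ
      exact h2 mem_top
    refine ⟨⟨fun i => ψ.1 (coord K r i), ?_⟩, ?_⟩
    · rw [Set.mem_ofPred_eq, ← mem_TF_iff (p := p) σ hadd hpoly n, h1]
      exact ψ.2
    · exact Subtype.ext h1

/-- the counting theorem for vector groups. -/
theorem vec_count {r : ℕ} (σ : (Fin r → K) → (Fin r → K))
    (hadd : ∀ v w, σ (v + w) = σ v + σ w)
    (hpoly : ∀ i, ∃ P : MvPolynomial (Fin r) K, ∀ v, σ v i = MvPolynomial.eval v P)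
    (hconf : ∀ n : ℕ, 0 < n → ({w | σ^[n] w = w}).Finite) :
    ∃ (a : ℕ) (t : ℕ → ℕ) (d : ℕ), 0 < d ∧ ¬ p ∣ d ∧ (∀ n, 0 < n → t n = t (n.gcd d)) ∧
      ∀ n, 0 < n → ({w | σ^[n] w = w}).ncard * p ^ (t n * p ^ (padicValNat p n)) = p ^ (a * n) := by
  classical
  have hx : ∀ m, pull σ hadd hpoly (fro K p r m) = fro K p r (pull σ hadd hpoly m) := fun _ => rfl
  obtain ⟨a, t, d, h1, h2, h3, h4⟩ := main_abs (fro_semi (K := K) (p := p) r) (fro_inj r) hx
    (fro_gen r) (fro_sep r) (fun n hn => by
      have := (hconf n hn).to_subtype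
      exact Finite.of_equiv _ (fixEquiv (p := p) σ hadd hpoly n))
  refine ⟨a, t, d, h1, h2, h3, fun n hn => ?_⟩
  rw [← h4 n hn, ← Nat.card_congr (fixEquiv (p := p) σ hadd hpoly n)]
  rfl

end Pool.Agent.Q81.Fad
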