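import Pool.Agent.Q81.FadFin

/-! The rank of a `τ`-module over the polynomial ring of a commuting operator. -/

namespace Pool.Agent.Q81.Fad

open Submodule Polynomial

set_option linter.unusedSectionVars false

variable {K : Type*} [Field K] {p : ℕ} [Fact p.Prime] [CharP K p]
variable {M : Type*} [AddCommGroup M] [Module K M] [IsAlgClosed K]

/-- `(h_i) ↦ Σ h_i(x) b_i`. -/
noncomputable def phi (x : M →ₗ[K] M) {k : ℕ} (b : Fin k → M) : (Fin k → K[X]) →ₗ[K] M where
  toFun h := ∑ i, (aeval x (h i)) (b i)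
  map_add' h h' := by
    rw [← Finset.sum_add_distrib]
    refine Finset.sum_congr rfl fun i _ => ?_
    rw [Pi.add_apply, map_add]
    rfl
  map_smul' c h := by
    rw [RingHom.id_apply, Finset.smul_sum]
    refine Finset.sum_congr rfl fun i _ => ?_
    rw [Pi.smul_apply, map_smul]
    rfl

theorem phi_apply (x : M →ₗ[K] M) {k : ℕ} (b : Fin k → M) (h : Fin k → K[X]) :
    phi x b h = ∑ i, (aeval x (h i)) (b i) := rfl

theorem phi_mul (x : M →ₗ[K] M) {k : ℕ} (b : Fin k → M) (f : K[X]) (h : Fin k → K[X]) :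
    phi x b (fun i => f * h i) = aeval x f (phi x b h) := by
  rw [phi_apply, phi_apply, map_sum]
  refine Finset.sum_congr rfl fun i _ => ?_
  rw [map_mul]
  rfl

/-- independence over `K[X]`. -/
def KI (x : M →ₗ[K] M) {k : ℕ} (b : Fin k → M) : Prop := Function.Injective (phi x b)

theorem ki_iff (x : M →ₗ[K] M) {k : ℕ} (b : Fin k → M) :
    KI x b ↔ ∀ h, phi x b h = 0 → h = 0 := by
  unfold KI
  rw [← LinearMap.ker_eq_bot, LinearMap.ker_eq_bot']

/-- the restriction of `phi` to polynomials of degree `< n`. -/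
noncomputable def phiLT (x : M →ₗ[K] M) {k : ℕ} (b : Fin k → M) (n : ℕ) :
    (Fin k → degreeLT K n) →ₗ[K] M :=
  phi x b ∘ₗ { toFun := fun h i => (h i : K[X]), map_add' := fun _ _ => rfl,
               map_smul' := fun _ _ => rfl }

theorem phiLT_apply (x : M →ₗ[K] M) {k : ℕ} (b : Fin k → M) (n : ℕ) (h : Fin k → degreeLT K n) :
    phiLT x b n h = phi x b (fun i => (h i : K[X])) := rfl

theorem finrank_LT (k n : ℕ) : Module.finrank K (Fin k → degreeLT K n) = k * n := by
  have h1 : Module.finrank K (degreeLT K n) = n := by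
    rw [LinearEquiv.finrank_eq (degreeLTEquiv K n)]
    simp
  have : Module.Finite K (degreeLT K n) := Module.Finite.equiv (degreeLTEquiv K n).symm
  rw [Module.finrank_pi_fintype]
  simp [h1]

instance finite_LT (n : ℕ) : Module.Finite K (degreeLT K n) :=
  Module.Finite.equiv (degreeLTEquiv K n).symm

/-- `K`-span of `τ^j v`, `j < i`. -/
def genL (K : Type*) [Field K] {M : Type*} [AddCommGroup M] [Module K M]
    (τ : M →+ M) (s : Finset M) (i : ℕ) : Submodule K M :=
  span K {m | ∃ v ∈ s, ∃ j < i, m = τ^[j] v}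

theorem genL_mono {τ : M →+ M} {s : Finset M} {i j : ℕ} (h : i ≤ j) :
    genL K τ s i ≤ genL K τ s j := by
  refine span_mono ?_
  rintro _ ⟨v, hv, l, hl, rfl⟩
  exact ⟨v, hv, l, lt_of_lt_of_le hl h, rfl⟩

theorem genL_eq {τ : M →+ M} {s : Finset M} {i : ℕ} : genL K τ s i =
    span K (Set.range fun q : s × Fin i => τ^[(q.2 : ℕ)] (q.1 : M)) := by
  unfold genL
  congr 1
  ext m
  constructor
  · rintro ⟨v, hv, j, hj, rfl⟩
    exact ⟨(⟨v, hv⟩, ⟨j, hj⟩), rfl⟩
  · rintro ⟨q, rfl⟩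
    exact ⟨q.1, q.1.2, q.2, q.2.2, rfl⟩

theorem genL_finrank {τ : M →+ M} {s : Finset M} {i : ℕ} :
    Module.finrank K (genL K τ s i) ≤ s.card * i := by
  rw [genL_eq]
  refine le_trans (finrank_range_le_card _) ?_
  rw [Fintype.card_prod, Fintype.card_coe, Fintype.card_fin]

theorem genL_fin {τ : M →+ M} {s : Finset M} {i : ℕ} : Module.Finite K (genL K τ s i) := by
  rw [genL_eq]
  exact FiniteDimensional.span_of_finite K (Set.finite_range _)

theorem exists_genL {τ : M →+ M} {s : Finset M} {m : M} (hm : m ∈ gen K τ s) :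
    ∃ i, m ∈ genL K τ s i := by
  refine span_induction (p := fun m _ => ∃ i, m ∈ genL K τ s i) ?_ ?_ ?_ ?_ hm
  · rintro _ ⟨v, hv, i, rfl⟩
    exact ⟨i + 1, subset_span ⟨v, hv, i, Nat.lt_succ_self i, rfl⟩⟩
  · exact ⟨0, zero_mem _⟩
  · rintro a b _ _ ⟨i, hi⟩ ⟨j, hj⟩
    exact ⟨max i j, add_mem (genL_mono (le_max_left _ _) hi) (genL_mono (le_max_right _ _) hj)⟩
  · rintro c a _ ⟨i, hi⟩
    exact ⟨i, smul_mem _ _ hi⟩

theorem exists_genL_fin {τ : M →+ M} {s : Finset M} (hs : gen K τ s = ⊤) {ι : Type*}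
    (t : Finset ι) (f : ι → M) : ∃ i, ∀ j ∈ t, f j ∈ genL K τ s i := by
  classical
  choose g hg using fun j : ι => exists_genL (K := K) (τ := τ) (s := s) (m := f j) (hs ▸ mem_top)
  exact ⟨t.sup g, fun j hj => genL_mono (Finset.le_sup hj) (hg j)⟩

theorem tau_genL {τ : M →+ M} (hτ : Semi K p τ) {s : Finset M} {i : ℕ} (j : ℕ) {m : M}
    (hm : m ∈ genL K τ s i) : τ^[j] m ∈ genL K τ s (i + j) := by
  refine span_induction (p := fun m _ => τ^[j] m ∈ genL K τ s (i + j)) ?_ ?_ ?_ ?_ hm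
  · rintro _ ⟨v, hv, l, hl, rfl⟩
    rw [← Function.iterate_add_apply]
    exact subset_span ⟨v, hv, j + l, by omega, rfl⟩
  · rw [iterate_map_zero]
    exact zero_mem _
  · intro a b _ _ ha hb
    rw [iterate_map_add]
    exact add_mem ha hb
  · intro c a _ ha
    rw [hτ.iter]
    exact smul_mem _ _ ha

theorem x_genL {τ : M →+ M} (hτ : Semi K p τ) {s : Finset M} {x : M →ₗ[K] M}
    (hx : ∀ m, x (τ m) = τ (x m)) {e : ℕ} (he : ∀ v ∈ s, x v ∈ genL K τ s e) (i : ℕ) {m : M}
    (hm : m ∈ genL K τ s i) : x m ∈ genL K τ s (i + e) := by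
  refine span_induction (p := fun m _ => x m ∈ genL K τ s (i + e)) ?_ ?_ ?_ ?_ hm
  · rintro _ ⟨v, hv, l, hl, rfl⟩
    rw [iter_comm hx]
    exact genL_mono (by omega) (tau_genL hτ l (he v hv))
  · simp
  · intro a b _ _ ha hb
    rw [map_add]
    exact add_mem ha hb
  · intro c a _ ha
    rw [map_smul]
    exact smul_mem _ _ ha

theorem x_pow_genL {τ : M →+ M} (hτ : Semi K p τ) {s : Finset M} {x : M →ₗ[K] M}
    (hx : ∀ m, x (τ m) = τ (x m)) {e : ℕ} (he : ∀ v ∈ s, x v ∈ genL K τ s e) (i n : ℕ) {m : M}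
    (hm : m ∈ genL K τ s i) : (x ^ n) m ∈ genL K τ s (i + n * e) := by
  induction n with
  | zero => simpa using hm
  | succ n ih =>
    rw [pow_succ']
    exact genL_mono (by ring_nf; omega) (x_genL hτ hx he _ ih)

theorem aeval_mem (x : M →ₗ[K] M) {S : Submodule K M} {m : M} {n : ℕ} (h : ∀ l < n, (x ^ l) m ∈ S)
    {f : K[X]} (hf : f ∈ degreeLT K n) : aeval x f m ∈ S := by
  by_cases h0 : f = 0
  · subst h0
    simp
  rw [aeval_eq_sum_range' (n := n), LinearMap.sum_apply]
  · refine sum_mem fun l hl => ?_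
    rw [LinearMap.smul_apply]
    exact smul_mem _ _ (h l (Finset.mem_range.1 hl))
  · rw [mem_degreeLT] at hf
    exact (natDegree_lt_iff_degree_lt h0).2 hf

/-- The `K[X]`-rank is bounded. -/
theorem ki_bound {τ : M →+ M} (hτ : Semi K p τ) {s : Finset M} (hs : gen K τ s = ⊤)
    {x : M →ₗ[K] M} (hx : ∀ m, x (τ m) = τ (x m)) :
    ∃ R, ∀ k (b : Fin k → M), KI x b → k ≤ R := by
  obtain ⟨e, he⟩ := exists_genL_fin (K := K) hs s (fun v => x v)
  refine ⟨s.card * e, fun k b hb => ?_⟩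
  obtain ⟨d, hd⟩ := exists_genL_fin (K := K) hs Finset.univ b
  by_contra hcon
  push Not at hcon
  have key : ∀ n, 0 < n → k * n ≤ s.card * (d + n * e) := by
    intro n hn
    have h1 : LinearMap.range (phiLT x b n) ≤ genL K τ s (d + n * e) := by
      rintro _ ⟨h, rfl⟩
      rw [phiLT_apply, phi_apply]
      refine sum_mem fun i _ => ?_
      refine aeval_mem x (n := n) (fun l hl => ?_) (h i).2
      exact genL_mono (by nlinarith) (x_pow_genL hτ hx he d l (hd i (Finset.mem_univ i)))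
    have h2 : Function.Injective (phiLT x b n) := by
      rw [← LinearMap.ker_eq_bot, LinearMap.ker_eq_bot']
      intro h hh
      rw [phiLT_apply] at hh
      have := (ki_iff x b).1 hb _ hh
      ext1 i
      exact Subtype.ext (congrFun this i)
    have h3 := LinearMap.finrank_range_of_inj h2
    rw [finrank_LT] at h3
    have := genL_fin (K := K) (τ := τ) (s := s) (i := d + n * e)
    have h4 := Submodule.finrank_mono h1
    rw [h3] at h4
    exact h4.trans genL_finrank
  have h5 := key (s.card * d + 1) (Nat.succ_pos _)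
  have h6 : s.card * (d + (s.card * d + 1) * e) = s.card * d + (s.card * e) * (s.card * d + 1) := by
    ring
  have h7 : (s.card * e + 1) * (s.card * d + 1) ≤ k * (s.card * d + 1) :=
    Nat.mul_le_mul_right _ hcon
  have h8 : (s.card * e + 1) * (s.card * d + 1) =
      (s.card * e) * (s.card * d + 1) + (s.card * d + 1) := by ring
  omega

theorem exists_rank {τ : M →+ M} (hτ : Semi K p τ) {s : Finset M} (hs : gen K τ s = ⊤)
    {x : M →ₗ[K] M} (hx : ∀ m, x (τ m) = τ (x m)) :
    ∃ a, (∃ b : Fin a → M, KI x b) ∧ ∀ k (b : Fin k → M), KI x b → k ≤ a := by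
  obtain ⟨R, hR⟩ := ki_bound hτ hs hx
  have hne : ({k | ∃ b : Fin k → M, KI x b}).Nonempty := by
    refine ⟨0, fun i => i.elim0, ?_⟩
    intro g g' _
    ext1 i
    exact i.elim0
  have hbdd : BddAbove {k | ∃ b : Fin k → M, KI x b} := ⟨R, fun k ⟨b, hb⟩ => hR k b hb⟩
  exact ⟨sSup {k | ∃ b : Fin k → M, KI x b}, Nat.sSup_mem hne hbdd, fun k b hb =>
    le_csSup hbdd ⟨b, hb⟩⟩

theorem exists_mult {x : M →ₗ[K] M} {a : ℕ} {b : Fin a → M} (hb : KI x b)
    (hmax : ∀ k (b : Fin k → M), KI x b → k ≤ a) (m : M) :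
    ∃ g : K[X], g ≠ 0 ∧ aeval x g m ∈ LinearMap.range (phi x b) := by
  have h1 : ¬ KI x (Fin.cons m b : Fin (a + 1) → M) := fun h => by
    have := hmax _ _ h
    omega
  rw [ki_iff] at h1
  push Not at h1
  obtain ⟨h, hh, hne⟩ := h1
  rw [phi_apply, Fin.sum_univ_succ] at hh
  simp only [Fin.cons_zero, Fin.cons_succ] at hh
  refine ⟨h 0, ?_, ?_⟩
  · intro h0
    apply hne
    rw [h0, map_zero, LinearMap.zero_apply, zero_add] at hh
    have := (ki_iff x b).1 hb (fun i => h i.succ) hh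
    ext1 i
    refine Fin.cases h0 (fun i => congrFun this i) i
  · refine ⟨-(fun i => h i.succ), ?_⟩
    rw [map_neg, phi_apply]
    exact (eq_neg_of_add_eq_zero_left hh).symm

theorem range_phi_stable {x : M →ₗ[K] M} {a : ℕ} {b : Fin a → M} (f : K[X]) {m : M}
    (hm : m ∈ LinearMap.range (phi x b)) : aeval x f m ∈ LinearMap.range (phi x b) := by
  obtain ⟨h, rfl⟩ := hm
  exact ⟨_, phi_mul x b f h⟩

theorem exists_mult_fin {x : M →ₗ[K] M} {a : ℕ} {b : Fin a → M} (hb : KI x b)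
    (hmax : ∀ k (b : Fin k → M), KI x b → k ≤ a) {ι : Type*} (t : Finset ι) (f : ι → M) :
    ∃ g : K[X], g ≠ 0 ∧ ∀ i ∈ t, aeval x g (f i) ∈ LinearMap.range (phi x b) := by
  classical
  choose g hg hg' using fun i => exists_mult hb hmax (f i)
  refine ⟨∏ i ∈ t, g i, Finset.prod_ne_zero_iff.2 fun i _ => hg i, fun i hi => ?_⟩
  rw [← Finset.prod_erase_mul t g hi, map_mul]
  exact range_phi_stable _ (hg' i)

/-- the `K[X]`-span of `τ^i v`, `i < d`. -/
def PX (x : M →ₗ[K] M) (τ : M →+ M) (s : Finset M) (d : ℕ) : Submodule K M :=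
  span K {m | ∃ v ∈ s, ∃ i < d, ∃ h : K[X], m = aeval x h (τ^[i] v)}

theorem PX_mono {x : M →ₗ[K] M} {τ : M →+ M} {s : Finset M} {d e : ℕ} (h : d ≤ e) :
    PX x τ s d ≤ PX x τ s e := by
  refine span_mono ?_
  rintro _ ⟨v, hv, l, hl, g, rfl⟩
  exact ⟨v, hv, l, lt_of_lt_of_le hl h, g, rfl⟩

theorem PX_stable {x : M →ₗ[K] M} {τ : M →+ M} {s : Finset M} {d : ℕ} (f : K[X]) {m : M}
    (hm : m ∈ PX x τ s d) : aeval x f m ∈ PX x τ s d := by
  refine span_induction (p := fun m _ => aeval x f m ∈ PX x τ s d) ?_ ?_ ?_ ?_ hm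
  · rintro _ ⟨v, hv, l, hl, g, rfl⟩
    refine subset_span ⟨v, hv, l, hl, f * g, ?_⟩
    rw [map_mul]
    rfl
  · simp
  · intro a b _ _ ha hb
    rw [map_add]
    exact add_mem ha hb
  · intro c a _ ha
    rw [map_smul]
    exact smul_mem _ _ ha

theorem tau_aeval {τ : M →+ M} (hτ : Semi K p τ) {x : M →ₗ[K] M}
    (hx : ∀ m, x (τ m) = τ (x m)) (f : K[X]) (m : M) :
    τ (aeval x f m) = aeval x (f.map (frobenius K p)) (τ m) := by
  induction f using Polynomial.induction_on' with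
  | add f g hf hg =>
    rw [map_add, LinearMap.add_apply, map_add, hf, hg, Polynomial.map_add, map_add]
    rfl
  | monomial n c =>
    rw [Polynomial.map_monomial, aeval_monomial, aeval_monomial]
    have h1 : ∀ n : ℕ, ∀ m, (x ^ n) (τ m) = τ ((x ^ n) m) := by
      intro n
      induction n with
      | zero => intro m; simp
      | succ n ih =>
        intro m
        rw [pow_succ', Module.End.mul_apply, Module.End.mul_apply, ih, hx]
    simp only [Module.algebraMap_end_eq_smul_id, Module.End.mul_apply, LinearMap.smul_apply,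
      LinearMap.id_apply]
    rw [h1, hτ]
    rfl

theorem tau_PX {τ : M →+ M} (hτ : Semi K p τ) {x : M →ₗ[K] M}
    (hx : ∀ m, x (τ m) = τ (x m)) {s : Finset M} {d : ℕ} {m : M} (hm : m ∈ PX x τ s d) :
    τ m ∈ PX x τ s (d + 1) := by
  refine span_induction (p := fun m _ => τ m ∈ PX x τ s (d + 1)) ?_ ?_ ?_ ?_ hm
  · rintro _ ⟨v, hv, l, hl, g, rfl⟩
    rw [tau_aeval hτ hx, ← Function.iterate_succ_apply' (f := τ)]
    exact subset_span ⟨v, hv, l + 1, by omega, _, rfl⟩
  · simp
  · intro a b _ _ ha hb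
    rw [map_add]
    exact add_mem ha hb
  · intro c a _ ha
    rw [hτ]
    exact smul_mem _ _ ha

theorem genL_le_PX {x : M →ₗ[K] M} {τ : M →+ M} {s : Finset M} {d : ℕ} :
    genL K τ s d ≤ PX x τ s d := by
  refine span_mono ?_
  rintro _ ⟨v, hv, l, hl, rfl⟩
  exact ⟨v, hv, l, hl, 1, by simp⟩

/-- iterated Frobenius twist of a polynomial. -/
noncomputable def tw (p : ℕ) [Fact p.Prime] [CharP K p] (g : K[X]) : ℕ → K[X]
  | 0 => g
  | j + 1 => (tw p g j).map (frobenius K p)

theorem tw_coprime {f g : K[X]} (hf : f.map (frobenius K p) = f) (h : IsCoprime f g) (j : ℕ) :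
    IsCoprime f (tw p g j) := by
  induction j with
  | zero => exact h
  | succ j ih =>
    have := ih.map (mapRingHom (frobenius K p))
    rw [coe_mapRingHom, hf] at this
    exact this

theorem tw_kill {τ : M →+ M} (hτ : Semi K p τ) {x : M →ₗ[K] M}
    (hx : ∀ m, x (τ m) = τ (x m)) {s : Finset M} {d : ℕ} {g : K[X]}
    (h0 : ∀ m ∈ PX x τ s (d + 1), aeval x g m ∈ PX x τ s d) (j : ℕ) :
    ∀ m ∈ PX x τ s (d + 1 + j), aeval x (tw p g j) m ∈ PX x τ s (d + j) := by
  induction j with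
  | zero => exact h0
  | succ j ih =>
    intro m hm
    refine span_induction (p := fun m _ => aeval x (tw p g (j + 1)) m ∈ PX x τ s (d + (j + 1)))
      ?_ ?_ ?_ ?_ hm
    · rintro _ ⟨v, hv, i, hi, h, rfl⟩
      rcases Nat.lt_or_ge i (d + 1 + j) with hi' | hi'
      · refine PX_stable _ (PX_stable _ (genL_le_PX (subset_span ⟨v, hv, i, by omega, rfl⟩)))
      · have : i = (d + j) + 1 := by omega
        subst this
        have h1 : aeval x (tw p g (j + 1)) (aeval x h (τ^[(d + j) + 1] v)) =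
            aeval x h (τ (aeval x (tw p g j) (τ^[d + j] v))) := by
          rw [tau_aeval hτ hx, ← Module.End.mul_apply, ← Module.End.mul_apply, ← map_mul, ← map_mul,
            mul_comm, Function.iterate_succ_apply']
          rfl
        rw [h1]
        refine PX_stable _ ?_
        have h2 : τ^[d + j] v ∈ PX x τ s (d + 1 + j) :=
          genL_le_PX (subset_span ⟨v, hv, d + j, by omega, rfl⟩)
        exact tau_PX hτ hx (ih _ h2)
    · simp
    · intro a b _ _ ha hb
      rw [map_add]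
      exact add_mem ha hb
    · intro c a _ ha
      rw [map_smul]
      exact smul_mem _ _ ha

end Pool.Agent.Q81.Fad
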