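import Mathlib

/-! Modules with a `p`-semilinear operator `τ` over an algebraically closed field and their
`τ`-functionals (used for the endomorphisms of vector groups). -/

namespace Pool.Agent.Q81.Fad

open Submodule

set_option linter.unusedSectionVars false

variable {K : Type*} [Field K] {p : ℕ} [Fact p.Prime] [CharP K p]
variable {M : Type*} [AddCommGroup M] [Module K M]

/-- `τ (c m) = c^p τ m`. -/
def Semi (K : Type*) [Field K] (p : ℕ) {M : Type*} [AddCommGroup M] [Module K M]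
    (τ : M →+ M) : Prop := ∀ (c : K) (m : M), τ (c • m) = c ^ p • τ m

theorem Semi.iter {τ : M →+ M} (hτ : Semi K p τ) (i : ℕ) (c : K) (m : M) :
    τ^[i] (c • m) = c ^ (p ^ i) • τ^[i] m := by
  induction i generalizing c m with
  | zero => simp
  | succ i ih => rw [Function.iterate_succ_apply, hτ, ih, Function.iterate_succ_apply, ← pow_mul,
      pow_succ']

/-- the set of `m` with `φ (τ m) = (φ m)^p`. -/
def eqSub (τ : M →+ M) (hτ : Semi K p τ) (φ : M →ₗ[K] K) : Submodule K M where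
  carrier := {m | φ (τ m) = φ m ^ p}
  zero_mem' := by
    simp [(Fact.out : p.Prime).ne_zero]
  add_mem' := by
    intro a b ha hb
    simp only [Set.mem_ofPred_eq] at *
    rw [map_add, map_add, map_add, ha, hb, add_pow_char]
  smul_mem' := by
    intro c a ha
    simp only [Set.mem_ofPred_eq] at *
    rw [hτ, map_smul, map_smul, ha, smul_eq_mul, smul_eq_mul, mul_pow]

theorem mem_eqSub {τ : M →+ M} {hτ : Semi K p τ} {φ : M →ₗ[K] K} {m : M} :
    m ∈ eqSub τ hτ φ ↔ φ (τ m) = φ m ^ p := Iff.rfl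

/-- the `τ`-functionals that vanish on `N`. -/
def TF (τ : M →+ M) (p : ℕ) [Fact p.Prime] [CharP K p] (N : Submodule K M) :
    AddSubgroup (M →ₗ[K] K) where
  carrier := {φ | (∀ m, φ (τ m) = φ m ^ p) ∧ ∀ m ∈ N, φ m = 0}
  zero_mem' := by
    simp [(Fact.out : p.Prime).ne_zero]
  add_mem' := by
    rintro a b ⟨ha, ha'⟩ ⟨hb, hb'⟩
    refine ⟨fun m => ?_, fun m hm => ?_⟩
    · rw [LinearMap.add_apply, LinearMap.add_apply, ha, hb, add_pow_char]
    · rw [LinearMap.add_apply, ha' m hm, hb' m hm, add_zero]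
  neg_mem' := by
    rintro a ⟨ha, ha'⟩
    refine ⟨fun m => ?_, fun m hm => ?_⟩
    · rw [LinearMap.neg_apply, LinearMap.neg_apply, ha]
      have := (frobenius K p).map_neg (a m)
      simpa [frobenius_def] using this.symm
    · rw [LinearMap.neg_apply, ha' m hm, neg_zero]

theorem mem_TF {τ : M →+ M} {N : Submodule K M} {φ : M →ₗ[K] K} :
    φ ∈ TF τ p N ↔ (∀ m, φ (τ m) = φ m ^ p) ∧ ∀ m ∈ N, φ m = 0 := Iff.rfl

theorem iter_TF {τ : M →+ M} {φ : M →ₗ[K] K} (h : ∀ m, φ (τ m) = φ m ^ p) (i : ℕ) (m : M) :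
    φ (τ^[i] m) = φ m ^ (p ^ i) := by
  induction i with
  | zero => simp
  | succ i ih => rw [Function.iterate_succ_apply', h, ih, ← pow_mul, pow_succ]

/-- span of `y, τ y, …, τ^{d-1} y`. -/
def orb (K : Type*) [Field K] {M : Type*} [AddCommGroup M] [Module K M]
    (τ : M →+ M) (y : M) (d : ℕ) : Submodule K M :=
  span K (Set.range fun i : Fin d => τ^[(i : ℕ)] y)

theorem exists_fun (N : Submodule K M) {ι : Type*} (v : ι → M)
    (hv : LinearIndependent K (fun i => N.mkQ (v i))) (φ₀ : M →ₗ[K] K) (c : ι → K) :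
    ∃ φ : M →ₗ[K] K, (∀ m ∈ N, φ m = φ₀ m) ∧ ∀ i, φ (v i) = c i := by
  obtain ⟨ρ, hρ⟩ : ∃ ρ : (M ⧸ N) →ₗ[K] K, ∀ i, ρ (N.mkQ (v i)) = c i - φ₀ (v i) := by
    let B := Module.Basis.span hv
    obtain ⟨ρ, h⟩ := LinearMap.exists_extend (B.constr K (fun i => c i - φ₀ (v i)))
    refine ⟨ρ, fun i => ?_⟩
    have h1 := congrArg (fun g => g (B i)) h
    simp only [LinearMap.comp_apply, Submodule.subtype_apply] at h1
    rw [Module.Basis.constr_basis] at h1
    rw [← h1]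
    congr 1
    have h2 := congrArg Subtype.val (Module.Basis.span_apply hv i)
    exact h2.symm
  refine ⟨φ₀ + ρ ∘ₗ N.mkQ, fun m hm => ?_, fun i => ?_⟩
  · have : N.mkQ m = 0 := (Submodule.Quotient.mk_eq_zero N).2 hm
    simp [this]
  · rw [LinearMap.add_apply, LinearMap.comp_apply, hρ]
    ring

theorem orb_le {τ : M →+ M} {y : M} {d e : ℕ} (h : d ≤ e) : orb K τ y d ≤ orb K τ y e := by
  refine span_mono ?_
  rintro _ ⟨i, rfl⟩
  exact ⟨⟨i, lt_of_lt_of_le i.2 h⟩, rfl⟩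

theorem mem_orb {τ : M →+ M} {y : M} {i d : ℕ} (h : i < d) : τ^[i] y ∈ orb K τ y d :=
  subset_span ⟨⟨i, h⟩, rfl⟩

theorem orb_succ {τ : M →+ M} {y : M} {d : ℕ} :
    orb K τ y (d + 1) = orb K τ y d ⊔ span K {τ^[d] y} := by
  refine le_antisymm ?_ ?_
  · refine span_le.2 ?_
    rintro _ ⟨i, rfl⟩
    rcases Nat.lt_succ_iff_lt_or_eq.1 i.2 with h | h
    · exact mem_sup_left (mem_orb h)
    · simp only [h]
      exact mem_sup_right (mem_span_singleton_self _)
  · refine sup_le (orb_le (Nat.le_succ d)) ?_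
    rw [span_singleton_le_iff_mem]
    exact mem_orb (Nat.lt_succ_self d)

theorem indep_fin (N : Submodule K M) (τ : M →+ M) (y : M) (d : ℕ)
    (h : ∀ i < d, τ^[i] y ∉ N ⊔ orb K τ y i) :
    LinearIndependent K (fun i : Fin d => N.mkQ (τ^[(i : ℕ)] y)) := by
  induction d with
  | zero => exact linearIndependent_empty_type
  | succ d ih =>
    rw [linearIndependent_finSucc']
    refine ⟨ih (fun i hi => h i (Nat.lt_succ_of_lt hi)), ?_⟩
    intro hmem
    apply h d (Nat.lt_succ_self d)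
    have h1 : Set.range (Fin.init fun i : Fin (d + 1) => N.mkQ (τ^[(i : ℕ)] y)) =
        N.mkQ '' (Set.range fun i : Fin d => τ^[(i : ℕ)] y) := by
      ext z
      constructor
      · rintro ⟨i, rfl⟩
        exact ⟨_, ⟨i, rfl⟩, rfl⟩
      · rintro ⟨_, ⟨i, rfl⟩, rfl⟩
        exact ⟨i, rfl⟩
    rw [h1, ← Submodule.map_span, Submodule.mem_map] at hmem
    obtain ⟨w, hw, hw'⟩ := hmem
    have h2 : N.mkQ (τ^[d] y - w) = 0 := by
      rw [map_sub, hw']
      simp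
    have h3 : τ^[d] y - w ∈ N := (Submodule.Quotient.mk_eq_zero N).1 h2
    have : τ^[d] y = (τ^[d] y - w) + w := by abel
    rw [this]
    exact add_mem (mem_sup_left h3) (mem_sup_right hw)

theorem indep_nat (N : Submodule K M) (τ : M →+ M) (y : M)
    (h : ∀ i, τ^[i] y ∉ N ⊔ orb K τ y i) :
    LinearIndependent K (fun i : ℕ => N.mkQ (τ^[i] y)) := by
  rw [linearIndependent_iff_finset_linearIndependent]
  intro s
  obtain ⟨d, hd⟩ : ∃ d, ∀ i ∈ s, i < d := ⟨s.sup id + 1, fun i hi =>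
    Nat.lt_succ_of_le (Finset.le_sup (f := id) hi)⟩
  have h1 := indep_fin N τ y d (fun i _ => h i)
  have h2 := h1.comp (fun i : s => (⟨i, hd i i.2⟩ : Fin d)) (by
    intro i j hij
    exact Subtype.ext (congrArg Fin.val hij))
  exact h2

/-- stability of `N + orb`. -/
theorem stable_sup {τ : M →+ M} (hτ : Semi K p τ) {N : Submodule K M} (hN : ∀ m ∈ N, τ m ∈ N)
    {y : M} {d : ℕ} (hd : τ^[d] y ∈ N ⊔ orb K τ y d) :
    ∀ m ∈ N ⊔ orb K τ y d, τ m ∈ N ⊔ orb K τ y d := by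
  intro m hm
  obtain ⟨n, hn, w, hw, rfl⟩ := Submodule.mem_sup.1 hm
  rw [map_add]
  refine add_mem (mem_sup_left (hN n hn)) ?_
  refine span_induction (p := fun w _ => τ w ∈ N ⊔ orb K τ y d) ?_ ?_ ?_ ?_ hw
  · rintro _ ⟨i, rfl⟩
    change τ (τ^[(i : ℕ)] y) ∈ _
    rw [← Function.iterate_succ_apply' (f := τ)]
    rcases Nat.lt_or_ge ((i : ℕ) + 1) d with h | h
    · exact mem_sup_right (mem_orb h)
    · have : (i : ℕ) + 1 = d := le_antisymm i.2 h
      rw [Nat.succ_eq_add_one, this]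
      exact hd
  · simp
  · intro a b _ _ ha hb
    rw [map_add]
    exact add_mem ha hb
  · intro c a _ ha
    rw [hτ]
    exact smul_mem _ _ ha

theorem stable_sup_all {τ : M →+ M} (hτ : Semi K p τ) {N : Submodule K M}
    (hN : ∀ m ∈ N, τ m ∈ N) {y : M} :
    ∀ m ∈ N ⊔ span K (Set.range fun i : ℕ => τ^[i] y),
      τ m ∈ N ⊔ span K (Set.range fun i : ℕ => τ^[i] y) := by
  intro m hm
  obtain ⟨n, hn, w, hw, rfl⟩ := Submodule.mem_sup.1 hm
  rw [map_add]
  refine add_mem (mem_sup_left (hN n hn)) ?_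
  refine span_induction (p := fun w _ => τ w ∈ N ⊔ span K (Set.range fun i : ℕ => τ^[i] y))
    ?_ ?_ ?_ ?_ hw
  · rintro _ ⟨i, rfl⟩
    change τ (τ^[i] y) ∈ _
    rw [← Function.iterate_succ_apply' (f := τ)]
    exact mem_sup_right (subset_span ⟨i + 1, rfl⟩)
  · simp
  · intro a b _ _ ha hb
    rw [map_add]
    exact add_mem ha hb
  · intro c a _ ha
    rw [hτ]
    exact smul_mem _ _ ha

/-- extension to a finite cyclic step. -/
theorem step_fin {τ : M →+ M} (hτ : Semi K p τ) {N : Submodule K M}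
    {y : M} {d : ℕ} (hd0 : 0 < d)
    (hli : LinearIndependent K (fun i : Fin d => N.mkQ (τ^[(i : ℕ)] y)))
    (a : Fin d → K) (b : M) (hb : b ∈ N) (hrel : τ^[d] y = b + ∑ i, a i • τ^[(i : ℕ)] y)
    (φ₀ : M →ₗ[K] K) (hφ₀ : N ≤ eqSub τ hτ φ₀) (hN : ∀ m ∈ N, τ m ∈ N) (z : K)
    (hz : z ^ (p ^ d) = φ₀ b + ∑ i, a i * z ^ (p ^ (i : ℕ))) :
    ∃ φ : M →ₗ[K] K, (∀ m ∈ N, φ m = φ₀ m) ∧ φ y = z ∧ N ⊔ orb K τ y d ≤ eqSub τ hτ φ := by
  obtain ⟨φ, h1, h2⟩ := exists_fun N (fun i : Fin d => τ^[(i : ℕ)] y) hli φ₀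
    (fun i => z ^ (p ^ (i : ℕ)))
  refine ⟨φ, h1, by simpa using h2 ⟨0, hd0⟩, sup_le ?_ (span_le.2 ?_)⟩
  · intro m hm
    rw [mem_eqSub, h1 m hm, h1 _ (hN m hm)]
    exact hφ₀ hm
  · rintro _ ⟨i, rfl⟩
    change φ (τ (τ^[(i : ℕ)] y)) = φ (τ^[(i : ℕ)] y) ^ p
    have h2' : φ (τ^[(i : ℕ)] y) = z ^ (p ^ (i : ℕ)) := h2 i
    rw [h2', ← Function.iterate_succ_apply' (f := τ), ← pow_mul, ← pow_succ, Nat.succ_eq_add_one]
    rcases Nat.lt_or_ge ((i : ℕ) + 1) d with h | h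
    · exact h2 ⟨i + 1, h⟩
    · have : (i : ℕ) + 1 = d := le_antisymm i.2 h
      rw [this, hrel, map_add, map_sum, hz, h1 b hb]
      congr 1
      refine Finset.sum_congr rfl fun j _ => ?_
      have := h2 j
      rw [map_smul, this, smul_eq_mul]

/-- extension to an infinite cyclic step. -/
theorem step_inf {τ : M →+ M} (hτ : Semi K p τ) {N : Submodule K M} {y : M}
    (hli : LinearIndependent K (fun i : ℕ => N.mkQ (τ^[i] y))) (z : K) :
    ∃ φ : M →ₗ[K] K, (∀ m ∈ N, φ m = 0) ∧ φ y = z ∧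
      ∀ m ∈ span K (Set.range fun i : ℕ => τ^[i] y), φ (τ m) = φ m ^ p := by
  obtain ⟨φ, h1, h2⟩ := exists_fun N (fun i : ℕ => τ^[i] y) hli 0 (fun i => z ^ (p ^ i))
  refine ⟨φ, fun m hm => by simpa using h1 m hm, by simpa using h2 0, ?_⟩
  have : span K (Set.range fun i : ℕ => τ^[i] y) ≤ eqSub τ hτ φ := by
    refine span_le.2 ?_
    rintro _ ⟨i, rfl⟩
    change φ (τ (τ^[i] y)) = φ (τ^[i] y) ^ p
    have h2' : φ (τ^[i] y) = z ^ (p ^ i) := h2 i
    rw [h2', ← Function.iterate_succ_apply' (f := τ), ← pow_mul, ← pow_succ, Nat.succ_eq_add_one]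
    exact h2 (i + 1)
  exact fun m hm => this hm

/-- the first return `d` in a finite dimensional quotient. -/
theorem exists_return (τ : M →+ M) {N : Submodule K M} [FiniteDimensional K (M ⧸ N)] {y : M}
    (hy : y ∉ N) : ∃ d, 0 < d ∧ τ^[d] y ∈ N ⊔ orb K τ y d ∧
      (∀ i < d, τ^[i] y ∉ N ⊔ orb K τ y i) ∧
      LinearIndependent K (fun i : Fin d => N.mkQ (τ^[(i : ℕ)] y)) := by
  classical
  have hex : ∃ d, τ^[d] y ∈ N ⊔ orb K τ y d := by
    by_contra hcon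
    push Not at hcon
    have h1 := indep_nat N τ y hcon
    have := h1.finite
    exact (Set.infinite_univ (α := ℕ)) (Set.toFinite _)
  refine ⟨Nat.find hex, ?_, Nat.find_spec hex, fun i hi => Nat.find_min hex hi,
    indep_fin N τ y _ (fun i hi => Nat.find_min hex hi)⟩
  rw [Nat.find_pos]
  intro h
  apply hy
  have : orb K τ y 0 = ⊥ := by
    unfold orb
    rw [Set.range_eq_empty]
    simp
  simpa [this] using h

theorem exists_rel {τ : M →+ M} {N : Submodule K M} {y : M} {d : ℕ}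
    (hd : τ^[d] y ∈ N ⊔ orb K τ y d) :
    ∃ (a : Fin d → K) (b : M), b ∈ N ∧ τ^[d] y = b + ∑ i, a i • τ^[(i : ℕ)] y := by
  obtain ⟨b, hb, w, hw, h⟩ := Submodule.mem_sup.1 hd
  unfold orb at hw
  rw [Submodule.mem_span_range_iff_exists_fun] at hw
  obtain ⟨a, ha⟩ := hw
  exact ⟨a, b, hb, by rw [← h, ← ha]⟩

end Pool.Agent.Q81.Fad
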