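import Pool.Agent.H342R3.FS8

set_option autoImplicit false
set_option maxHeartbeats 1000000
set_option synthInstance.maxHeartbeats 400000

namespace Q81.Fhc

open H342R3.FS Filter
open scoped ENNReal Topology

/-- the times far from the next gap -/
def good : Set ℕ := {n | ∃ k, 2 * 4 ^ k ≤ n ∧ n < 3 * 4 ^ k}

/-- the gaps -/
def gap : Set ℕ := {n | ∃ k, 4 ^ k ≤ n ∧ n < 2 * 4 ^ k}

lemma LD_good : LD good := by
  classical
  rw [LD_iff]
  refine ⟨1 / 12, by norm_num, 3, fun N hN => ?_⟩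
  -- choose k with 3 * 4^k ≤ N < 3 * 4^(k+1)
  obtain ⟨k, hk1, hk2⟩ : ∃ k, 3 * 4 ^ k ≤ N ∧ N < 3 * 4 ^ (k + 1) := by
    have hex : ∃ k, N < 3 * 4 ^ (k + 1) := by
      refine ⟨N, ?_⟩
      have h1 : N < 4 ^ N := Nat.lt_pow_self (by norm_num)
      have h2 : 4 ^ (N + 1) = 4 * 4 ^ N := by ring
      omega
    refine ⟨Nat.find hex, ?_, Nat.find_spec hex⟩
    by_cases h0 : Nat.find hex = 0
    · rw [h0]; simpa using hN
    · obtain ⟨m, hm⟩ : ∃ m, Nat.find hex = m + 1 := ⟨Nat.find hex - 1, by omega⟩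
      have h1 := Nat.find_min hex (m := m) (by omega)
      rw [hm]
      exact not_lt.1 h1
  have hsub : Finset.Ico (2 * 4 ^ k) (3 * 4 ^ k) ⊆ (Finset.range N).filter (fun n => n ∈ good) := by
    intro n hn
    rw [Finset.mem_Ico] at hn
    rw [Finset.mem_filter, Finset.mem_range]
    exact ⟨by omega, k, hn.1, hn.2⟩
  have hc : (4 : ℕ) ^ k ≤ cA good N := by
    unfold cA
    have := Finset.card_le_card hsub
    rw [Nat.card_Ico] at this
    omega
  have hc' : ((4 : ℝ) ^ k) ≤ (cA good N : ℝ) := by exact_mod_cast hc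
  have hN' : (N : ℝ) ≤ 12 * (4 : ℝ) ^ k := by
    have : N ≤ 12 * 4 ^ k := by
      have h2 : 4 ^ (k + 1) = 4 * 4 ^ k := by ring
      omega
    exact_mod_cast this
  linarith

lemma good_gap {k n j : ℕ} (h1 : 2 * 4 ^ k ≤ n) (h2 : n < 3 * 4 ^ k) (h : n + j ∈ gap) :
    4 ^ k ≤ j := by
  obtain ⟨l, hl1, hl2⟩ := h
  by_cases hlk : l ≤ k
  · have : 4 ^ l ≤ 4 ^ k := Nat.pow_le_pow_right (by norm_num) hlk
    omega
  · have : 4 ^ (k + 1) ≤ 4 ^ l := Nat.pow_le_pow_right (by norm_num) (by omega)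
    have h2 : 4 ^ (k + 1) = 4 * 4 ^ k := by ring
    omega

lemma hP1 : 0 < (1 : ℝ≥0∞).toReal := by simp

lemma sum_le_norm (a : X ℝ 1) (s : Finset ℕ) : ∑ k ∈ s, ‖a k‖ ≤ ‖a‖ := by
  have h := lp.sum_rpow_le_norm_rpow (p := 1) (by simp) a s
  simpa using h

/-- twice the backward shift on `ℓ^1` -/
noncomputable def T : X ℝ 1 →L[ℝ] X ℝ 1 :=
  selOp hP1 (fun k => k + 1) (fun _ => 2) 2 (by norm_num) (by
    intro a K
    simp only [ENNReal.toReal_one, Real.rpow_one]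
    have h1 : ∑ k ∈ Finset.range K, ‖a (k + 1) * 2‖ = 2 * ∑ k ∈ (Finset.range K).image (fun k => k + 1), ‖a k‖ := by
      rw [Finset.sum_image (fun x _ y _ h => by simpa using h), Finset.mul_sum]
      apply Finset.sum_congr rfl
      intro k _
      rw [norm_mul]
      norm_num
      ring
    rw [h1]
    exact mul_le_mul_of_nonneg_left (sum_le_norm a _) (by norm_num))

lemma T_apply (x : X ℝ 1) (n : ℕ) : T x n = (fun _ => (2 : ℝ)) (n + 1) * x (n + 1) := by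
  unfold T
  rw [selOp_apply]
  ring

open Classical in
/-- erase the coordinates in the gaps -/
noncomputable def Mk : X ℝ 1 →L[ℝ] X ℝ 1 :=
  selOp hP1 (fun k => k) (fun k => if k ∈ gap then 0 else 1) 1 (by norm_num) (by
    intro a K
    simp only [ENNReal.toReal_one, Real.rpow_one, one_mul]
    refine le_trans (Finset.sum_le_sum ?_) (sum_le_norm a (Finset.range K))
    intro k _
    split_ifs
    · simp
    · simp)

open Classical in
lemma Mk_apply (x : X ℝ 1) (n : ℕ) : Mk x n = if n ∈ gap then 0 else x n := by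
  unfold Mk
  rw [selOp_apply]
  split_ifs <;> simp

lemma β_two (n : ℕ) : β (fun _ => (2 : ℝ)) n = 2 ^ n := by
  unfold β
  simp

lemma it_apply (n : ℕ) (x : X ℝ 1) (k : ℕ) : ((⇑T)^[n] x) k = 2 ^ n * x (k + n) := by
  have h := T_it (w := fun _ => (2 : ℝ)) (T := T) T_apply n x k
  rw [β_two, β_two, pow_add] at h
  have h2 : (2 : ℝ) ^ k ≠ 0 := by positivity
  have h3 : (((⇑T)^[n] x) k - 2 ^ n * x (k + n)) * 2 ^ k = 0 := by linear_combination h
  rcases mul_eq_zero.1 h3 with h4 | h4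
  · linarith
  · exact absurd h4 h2

lemma norm_eq (a : X ℝ 1) : ‖a‖ = ∑' k, ‖a k‖ := by
  have h := lp.norm_eq_tsum_rpow (p := 1) (by simp) a
  simpa using h

lemma norm_mono {a b : X ℝ 1} (h : ∀ k, ‖a k‖ ≤ ‖b k‖) : ‖a‖ ≤ ‖b‖ := by
  apply lp.norm_le_of_forall_sum_le hP1 (norm_nonneg _)
  intro s
  simp only [ENNReal.toReal_one, Real.rpow_one]
  exact (Finset.sum_le_sum fun k _ => h k).trans (sum_le_norm b s)

theorem exists_vec : ∃ x : X ℝ 1, (∀ k ∈ gap, x k = 0) ∧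
    ∀ V : Set (X ℝ 1), IsOpen V → V.Nonempty → LD {n | (⇑T)^[n] x ∈ V} := by
  obtain ⟨Dd, hDd0, hDd⟩ := targets (𝕜 := ℝ) (p := 1) (by simp)
  have hF : Summable (fun n => (‖β (fun _ => (2 : ℝ)) n‖⁻¹) ^ (1 : ℝ≥0∞).toReal) := by
    have : (fun n : ℕ => (‖β (fun _ => (2 : ℝ)) n‖⁻¹) ^ (1 : ℝ≥0∞).toReal) = fun n => (1 / 2 : ℝ) ^ n := by
      funext n
      rw [β_two]
      simp
    rw [this]
    exact summable_geometric_of_lt_one (by norm_num) (by norm_num)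
  obtain ⟨Zo, -, I, hI1, hI2, hI3⟩ := Zpart (w := fun _ => (2 : ℝ)) (T := T) (fun _ => by norm_num)
    (by simp) T_apply LD_good hF hDd0
  set a : X ℝ 1 := lp.single 1 0 1 with ha
  have ha0 : a 0 = 1 := by rw [ha, single_apply']; simp
  refine ⟨Mk (Zo a), fun k hk => by rw [Mk_apply, if_pos hk], ?_⟩
  intro V hV hVne
  obtain ⟨u, hu⟩ := hVne
  obtain ⟨ρ, hρ, hball⟩ := Metric.isOpen_iff.1 hV u hu
  obtain ⟨N, hN⟩ : ∃ N : ℕ, ‖a‖ * (1/2)^N ≤ ρ/2 := by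
    have h1 : Tendsto (fun N : ℕ => ‖a‖ * (1/2:ℝ)^N) atTop (nhds (‖a‖ * 0)) :=
      (tendsto_pow_atTop_nhds_zero_of_lt_one (by norm_num) (by norm_num)).const_mul _
    rw [mul_zero] at h1
    have h2 : 0 < ρ/2 := by positivity
    obtain ⟨N, hN⟩ := (h1.eventually (gt_mem_nhds h2)).exists
    exact ⟨N, hN.le⟩
  have hO : IsOpen {v : X ℝ 1 | ‖v - u‖ < ρ/2} := isOpen_lt (by fun_prop) continuous_const
  obtain ⟨t, htN, ht⟩ := hDd _ hO ⟨u, by
    show ‖u - u‖ < ρ/2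
    rw [sub_self, norm_zero]
    positivity⟩ N
  obtain ⟨ℓ, hℓ⟩ := hDd0 t
  set s0 := Nat.pair 0 t with hs0
  have hs0t : t ≤ s0 := Nat.right_le_pair 0 t
  apply LD_mono _ (LD_tail (hI1 s0) (3 * 4 ^ ℓ))
  rintro n ⟨hnI, hnn⟩
  obtain ⟨k, hk1, hk2⟩ := hI2 s0 hnI
  have hkl : ℓ ≤ 4 ^ k := by
    have h1 : ℓ ≤ k := by
      by_contra hcon
      have : 4 ^ k ≤ 4 ^ ℓ := Nat.pow_le_pow_right (by norm_num) (by omega)
      omega
    exact h1.trans (Nat.lt_pow_self (by norm_num)).le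
  apply hball
  rw [Metric.mem_ball, dist_eq_norm]
  have h3 := hI3 a s0 n (ρ/2) hnI (by positivity) (by
    simp only [ENNReal.toReal_one, Real.rpow_one]
    refine le_trans ?_ hN
    apply mul_le_mul_of_nonneg_left _ (norm_nonneg _)
    exact pow_le_pow_of_le_one (by norm_num) (by norm_num) (htN.trans hs0t))
  rw [hs0, Nat.unpair_pair] at h3
  simp only [ha0, one_smul] at h3
  have h4 : ‖Dd t - u‖ < ρ/2 := ht
  have h5 : ‖(⇑T)^[n] (Mk (Zo a)) - Dd t‖ ≤ ‖(⇑T)^[n] (Zo a) - Dd t‖ := by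
    apply norm_mono
    intro j
    rw [lp.coeFn_sub, lp.coeFn_sub, Pi.sub_apply, Pi.sub_apply, it_apply, it_apply, Mk_apply]
    by_cases hg : j + n ∈ gap
    · rw [if_pos hg]
      have hj : 4 ^ k ≤ j := good_gap hk1 hk2 (by rwa [add_comm] at hg)
      rw [hℓ j (hkl.trans hj)]
      simp
    · rw [if_neg hg]
  have h6 : (⇑T)^[n] (Mk (Zo a)) - u = ((⇑T)^[n] (Mk (Zo a)) - Dd t) + (Dd t - u) := by abel
  rw [h6]
  have h7 := norm_add_le ((⇑T)^[n] (Mk (Zo a)) - Dd t) (Dd t - u)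
  linarith

end Q81.Fhc
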