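import Mathlib

/-!
# Weighted Hardy inequalities: integration by parts and supersolutions
-/

namespace Q81.Har

open MeasureTheory Set Filter Topology
open scoped ContDiff RealInnerProductSpace

/-- Euclidean space. -/
abbrev E (n : ℕ) := EuclideanSpace ℝ (Fin n)

/-- The weight `(1 + |x|²)^γ`. -/
noncomputable def w {n : ℕ} (γ : ℝ) (x : E n) : ℝ := (1 + ‖x‖ ^ 2) ^ γ

variable {n : ℕ}

lemma one_add_pos (x : E n) : 0 < 1 + ‖x‖ ^ 2 := by positivity

lemma w_pos (γ : ℝ) (x : E n) : 0 < w γ x := Real.rpow_pos_of_pos (one_add_pos x) γ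

lemma w_add (γ δ : ℝ) (x : E n) : w (γ + δ) x = w γ x * w δ x :=
  Real.rpow_add (one_add_pos x) γ δ

lemma w_one (x : E n) : w 1 x = 1 + ‖x‖ ^ 2 := Real.rpow_one _

lemma w_zero (x : E n) : w 0 x = 1 := Real.rpow_zero _

lemma w_sub_one (γ : ℝ) (x : E n) : w γ x = w (γ - 1) x * (1 + ‖x‖ ^ 2) := by
  rw [← w_one, ← w_add, sub_add_cancel]

lemma contDiff_w (γ : ℝ) {k : ℕ∞ω} : ContDiff ℝ k (w (n := n) γ) := by
  unfold w
  refine ContDiff.rpow_const_of_ne ?_ fun x => (one_add_pos x).ne'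
  exact contDiff_const.add (contDiff_norm_sq ℝ)

lemma continuous_w (γ : ℝ) : Continuous (w (n := n) γ) := (contDiff_w γ (k := 0)).continuous

lemma hasFDerivAt_w (γ : ℝ) (x : E n) :
    HasFDerivAt (w (n := n) γ) ((2 * γ * w (γ - 1) x) • innerSL ℝ x) x := by
  have h1 : HasFDerivAt (fun y : E n => 1 + ‖y‖ ^ 2) (2 • innerSL ℝ x) x := by
    have := (hasStrictFDerivAt_norm_sq x).hasFDerivAt
    exact this.const_add 1
  have h2 : HasFDerivAt (w (n := n) γ) _ x := h1.rpow_const (p := γ) (Or.inl (one_add_pos x).ne')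
  refine h2.congr_fderiv ?_
  ext v
  simp only [w, smul_apply, smul_eq_mul, nsmul_eq_mul]
  push_cast
  ring

/-- Integration by parts against the Euler field. -/
lemma euler {F : E n → ℝ} (hF : ContDiff ℝ 1 F) (hc : HasCompactSupport F) :
    ∫ x, fderiv ℝ F x x = -(n : ℝ) * ∫ x, F x := by
  have hF' : Continuous (fderiv ℝ F) := hF.continuous_fderiv one_ne_zero
  have hc' : HasCompactSupport (fderiv ℝ F) := hc.fderiv ℝ
  have h1 : ∀ x : E n, fderiv ℝ F x x = ∑ i, EuclideanSpace.proj i x *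
      fderiv ℝ F x (EuclideanSpace.single i (1 : ℝ)) := by
    intro x
    have hx := (EuclideanSpace.basisFun (Fin n) ℝ).sum_repr x
    refine (congrArg (fderiv ℝ F x) hx.symm).trans ?_
    rw [map_sum]
    refine Finset.sum_congr rfl fun i _ => ?_
    rw [map_smul, smul_eq_mul]
    simp
  have h2 : ∀ i : Fin n, Integrable fun x : E n => EuclideanSpace.proj (𝕜 := ℝ) i x *
      fderiv ℝ F x (EuclideanSpace.single i (1 : ℝ)) := by
    intro i
    apply Continuous.integrable_of_hasCompactSupport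
    · exact (ContinuousLinearMap.continuous _).mul (hF'.clm_apply continuous_const)
    · apply HasCompactSupport.mul_left
      exact hc'.comp_left (g := fun L : E n →L[ℝ] ℝ => L (EuclideanSpace.single i (1 : ℝ))) (by simp)
  simp only [h1]
  rw [integral_finsetSum _ fun i _ => h2 i]
  have h3 : ∀ i : Fin n, ∫ x : E n, EuclideanSpace.proj (𝕜 := ℝ) i x *
      fderiv ℝ F x (EuclideanSpace.single i (1 : ℝ)) = - ∫ x, F x := by
    intro i
    have h4 : ∀ x : E n, fderiv ℝ (fun y : E n => EuclideanSpace.proj (𝕜 := ℝ) i y) x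
        (EuclideanSpace.single i (1 : ℝ)) = 1 := by
      intro x
      rw [ContinuousLinearMap.fderiv]
      simp
    rw [integral_mul_fderiv_eq_neg_fderiv_mul_of_integrable]
    · simp only [h4, one_mul]
    · simp only [h4, one_mul]
      exact hF.continuous.integrable_of_hasCompactSupport hc
    · exact h2 i
    · apply Continuous.integrable_of_hasCompactSupport
      · exact (ContinuousLinearMap.continuous _).mul hF.continuous
      · exact hc.mul_left
    · exact fun x _ => (ContinuousLinearMap.differentiable _) x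
    · exact fun x _ => (hF.differentiable one_ne_zero) x
  rw [Finset.sum_congr rfl fun i _ => h3 i]
  simp

/-- Weighted version. -/
lemma euler_w {f : E n → ℝ} (hf : ContDiff ℝ 1 f) (hc : HasCompactSupport f) (γ : ℝ) :
    ∫ x, w γ x * fderiv ℝ f x x =
      - ∫ x, f x * (n * w γ x + 2 * γ * ‖x‖ ^ 2 * w (γ - 1) x) := by
  have hf' : Continuous (fderiv ℝ f) := hf.continuous_fderiv one_ne_zero
  have hc' : HasCompactSupport (fderiv ℝ f) := hc.fderiv ℝ
  have h1 := euler ((contDiff_w γ).mul hf) (hc.mul_left (f := w γ))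
  have h2 : ∀ x : E n, fderiv ℝ (fun x => w γ x * f x) x x = w γ x * fderiv ℝ f x x +
      f x * (2 * γ * ‖x‖ ^ 2 * w (γ - 1) x) := by
    intro x
    have h3 : HasFDerivAt (fun x => w γ x * f x) _ x :=
      (hasFDerivAt_w γ x).mul ((hf.differentiable one_ne_zero) x).hasFDerivAt
    rw [h3.fderiv]
    simp only [add_apply, smul_apply, smul_eq_mul, innerSL_apply_apply, real_inner_self_eq_norm_sq]
    ring
  have h3 : Integrable fun x : E n => w γ x * fderiv ℝ f x x := by
    apply Continuous.integrable_of_hasCompactSupport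
    · exact (continuous_w γ).mul (hf'.clm_apply continuous_id)
    · apply HasCompactSupport.mul_left
      apply hc'.mono
      intro x hx
      contrapose! hx
      simp only [Function.mem_support, not_not] at hx ⊢
      rw [hx]; simp
  have h4 : Integrable fun x : E n => f x * (2 * γ * ‖x‖ ^ 2 * w (γ - 1) x) := by
    apply Continuous.integrable_of_hasCompactSupport
    · exact hf.continuous.mul (((continuous_const.mul (continuous_norm.pow 2))).mul
        (continuous_w _))
    · exact hc.mul_right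
  have h5 : Integrable fun x : E n => w γ x * f x := by
    apply Continuous.integrable_of_hasCompactSupport
    · exact (continuous_w γ).mul hf.continuous
    · exact hc.mul_left
  have h1' : (∫ x, (w γ x * fderiv ℝ f x x + f x * (2 * γ * ‖x‖ ^ 2 * w (γ - 1) x))) =
      -(n : ℝ) * ∫ x, w γ x * f x := by
    rw [← h1]
    exact integral_congr_ae (ae_of_all _ fun x => (h2 x).symm)
  rw [integral_add h3 h4] at h1'
  have h6 : ∫ x, f x * (n * w γ x + 2 * γ * ‖x‖ ^ 2 * w (γ - 1) x) =
      n * (∫ x, w γ x * f x) + ∫ x, f x * (2 * γ * ‖x‖ ^ 2 * w (γ - 1) x) := by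
    rw [← integral_const_mul, ← integral_add (h5.const_mul _) h4]
    refine integral_congr_ae (ae_of_all _ fun x => ?_)
    simp only [Pi.mul_apply]
    ring
  rw [h6]
  linarith

/-- The energy. -/
noncomputable def En (α : ℝ) (u : E n → ℝ) : ℝ := ∫ x, w α x * ‖fderiv ℝ u x‖ ^ 2

/-- The mass. -/
noncomputable def Nm (α : ℝ) (u : E n → ℝ) : ℝ := ∫ x, w (α - 1) x * u x ^ 2

lemma integrable_En (α : ℝ) {u : E n → ℝ} (hu : ContDiff ℝ 1 u) (hc : HasCompactSupport u) :
    Integrable fun x => w α x * ‖fderiv ℝ u x‖ ^ 2 := by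
  apply Continuous.integrable_of_hasCompactSupport
  · exact (continuous_w α).mul ((hu.continuous_fderiv one_ne_zero).norm.pow 2)
  · apply HasCompactSupport.mul_left
    exact (hc.fderiv ℝ).comp_left (g := fun L : E n →L[ℝ] ℝ => ‖L‖ ^ 2) (by simp)

lemma integrable_Nm (γ : ℝ) {u : E n → ℝ} (hu : Continuous u) (hc : HasCompactSupport u) :
    Integrable fun x => w γ x * u x ^ 2 := by
  apply Continuous.integrable_of_hasCompactSupport
  · exact (continuous_w γ).mul (hu.pow 2)
  · apply HasCompactSupport.mul_left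
    exact hc.comp_left (g := fun t : ℝ => t ^ 2) (by simp)

/-- The ground state inequality with `φ = (1 + |x|²)^(-b)`. -/
lemma ground {α b lam : ℝ} {u : E n → ℝ} (hu : ContDiff ℝ 1 u) (hc : HasCompactSupport u)
    (hlam : ∀ t : ℝ, 0 ≤ t → t < 1 → lam ≤ 2 * b * n + 4 * b * (α - 1 - b) * t) :
    lam * Nm α u ≤ En α u := by
  have hu2 : ContDiff ℝ 1 (fun x => u x ^ 2) := hu.pow 2
  have hc2 : HasCompactSupport (fun x => u x ^ 2) := hc.comp_left (g := fun t : ℝ => t ^ 2) (by simp)
  have h1 := euler_w hu2 hc2 (α - 1)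
  have hD : ∀ x : E n, fderiv ℝ (fun x => u x ^ 2) x x = 2 * u x * fderiv ℝ u x x := by
    intro x
    have h3 := ((hu.differentiable one_ne_zero) x).hasFDerivAt.pow 2
    rw [h3.fderiv]
    simp
  have hd : ∀ x : E n, |fderiv ℝ u x x| ≤ ‖fderiv ℝ u x‖ * ‖x‖ := fun x =>
    (fderiv ℝ u x).le_opNorm x
  -- pointwise
  have hpt : ∀ x : E n, -(2 * b) * (w (α - 1) x * fderiv ℝ (fun x => u x ^ 2) x x) -
      4 * b ^ 2 * (‖x‖ ^ 2 * w (α - 1 - 1) x * u x ^ 2) ≤ w α x * ‖fderiv ℝ u x‖ ^ 2 := by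
    intro x
    rw [hD, w_sub_one α x, w_sub_one (α - 1) x]
    have hw := w_pos (α - 1 - 1) x
    set W := w (α - 1 - 1) x
    set r := ‖x‖
    set g := ‖fderiv ℝ u x‖
    set d := fderiv ℝ u x x
    have hr : 0 ≤ r := norm_nonneg _
    have hg : 0 ≤ g := norm_nonneg _
    have h3 : d ^ 2 ≤ g ^ 2 * r ^ 2 := by
      rw [← mul_pow]
      exact sq_le_sq' (by linarith [neg_abs_le d, hd x]) ((le_abs_self d).trans (hd x))
    -- `(1+r²)² g² + 4 b u (1 + r²) d + 4 b² r² u² ≥ 0`
    have h4 : 0 ≤ (1 + r ^ 2) ^ 2 * g ^ 2 + 4 * b * u x * (1 + r ^ 2) * d +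
        4 * b ^ 2 * r ^ 2 * u x ^ 2 := by
      rcases hr.eq_or_lt with h0 | h0
      · have hd0 : d = 0 := by
          have : d ^ 2 ≤ 0 := by rw [← h0] at h3; linarith
          nlinarith [sq_nonneg d]
        rw [hd0, ← h0]
        ring_nf
        positivity
      · have h5 : 0 ≤ ((1 + r ^ 2) * d + 2 * b * r ^ 2 * u x) ^ 2 := sq_nonneg _
        have h6 : (1 + r ^ 2) ^ 2 * d ^ 2 ≤ (1 + r ^ 2) ^ 2 * (g ^ 2 * r ^ 2) :=
          mul_le_mul_of_nonneg_left h3 (by positivity)
        have h7 : 0 ≤ r ^ 2 * ((1 + r ^ 2) ^ 2 * g ^ 2 + 4 * b * u x * (1 + r ^ 2) * d +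
            4 * b ^ 2 * r ^ 2 * u x ^ 2) := by nlinarith
        exact nonneg_of_mul_nonneg_right h7 (by positivity)
    have h8 : 0 ≤ W * ((1 + r ^ 2) ^ 2 * g ^ 2 + 4 * b * u x * (1 + r ^ 2) * d +
        4 * b ^ 2 * r ^ 2 * u x ^ 2) := mul_nonneg hw.le h4
    nlinarith
  -- integrate
  have hI1 : Integrable fun x : E n => w (α - 1) x * fderiv ℝ (fun x => u x ^ 2) x x := by
    apply Continuous.integrable_of_hasCompactSupport
    · exact (continuous_w _).mul ((hu2.continuous_fderiv one_ne_zero).clm_apply continuous_id)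
    · apply HasCompactSupport.mul_left
      apply (hc2.fderiv ℝ).mono
      intro x hx
      contrapose! hx
      simp only [Function.mem_support, not_not] at hx ⊢
      rw [hx]; simp
  have hI2 : Integrable fun x : E n => ‖x‖ ^ 2 * w (α - 1 - 1) x * u x ^ 2 := by
    apply Continuous.integrable_of_hasCompactSupport
    · exact ((continuous_norm.pow 2).mul (continuous_w _)).mul (hu.continuous.pow 2)
    · exact hc2.mul_left
  have hI3 : Integrable fun x : E n => u x ^ 2 * (n * w (α - 1) x +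
      2 * (α - 1) * ‖x‖ ^ 2 * w (α - 1 - 1) x) := by
    apply Continuous.integrable_of_hasCompactSupport
    · exact (hu.continuous.pow 2).mul ((continuous_const.mul (continuous_w _)).add
        ((continuous_const.mul (continuous_norm.pow 2)).mul (continuous_w _)))
    · exact hc2.mul_right
  have h2 : ∫ x, (-(2 * b) * (w (α - 1) x * fderiv ℝ (fun x => u x ^ 2) x x) -
      4 * b ^ 2 * (‖x‖ ^ 2 * w (α - 1 - 1) x * u x ^ 2)) ≤ En α u :=
    integral_mono ((hI1.const_mul _).sub (hI2.const_mul _)) (integrable_En α hu hc) hpt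
  refine le_trans ?_ h2
  rw [integral_sub (hI1.const_mul _) (hI2.const_mul _), integral_const_mul, integral_const_mul, h1]
  unfold Nm
  rw [neg_mul_neg, ← integral_const_mul, ← integral_const_mul, ← integral_const_mul,
    ← integral_sub (hI3.const_mul _) (hI2.const_mul _)]
  refine integral_mono ((integrable_Nm _ hu.continuous hc).const_mul _)
    ((hI3.const_mul _).sub (hI2.const_mul _)) fun x => ?_
  simp only
  have hw := w_pos (α - 1 - 1) x
  rw [w_sub_one (α - 1) x]
  have h3 := hlam (‖x‖ ^ 2 / (1 + ‖x‖ ^ 2)) (by positivity) (by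
    rw [div_lt_one (one_add_pos x)]; linarith)
  have h4 : lam * (1 + ‖x‖ ^ 2) ≤ 2 * b * n * (1 + ‖x‖ ^ 2) + 4 * b * (α - 1 - b) * ‖x‖ ^ 2 := by
    have h5 := mul_le_mul_of_nonneg_right h3 (one_add_pos x).le
    have h6 : (2 * b * n + 4 * b * (α - 1 - b) * (‖x‖ ^ 2 / (1 + ‖x‖ ^ 2))) * (1 + ‖x‖ ^ 2) =
        2 * b * n * (1 + ‖x‖ ^ 2) + 4 * b * (α - 1 - b) * ‖x‖ ^ 2 := by
      have := (one_add_pos x).ne'
      field_simp
    rw [h6] at h5
    exact h5
  have h7 := mul_le_mul_of_nonneg_left h4 (mul_nonneg hw.le (sq_nonneg (u x)))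
  nlinarith

/-- Lower bound for `1 < α ≤ 1 + n / 2`. -/
lemma lower_small {α : ℝ} (h1 : 1 < α) (h2 : α ≤ 1 + n / 2) {u : E n → ℝ}
    (hu : ContDiff ℝ 1 u) (hc : HasCompactSupport u) :
    (n + 2 * α - 2) ^ 2 / 4 * Nm α u ≤ En α u := by
  have hn : (0 : ℝ) ≤ n := Nat.cast_nonneg n
  refine ground (b := (n + 2 * α - 2) / 4) hu hc fun t ht ht1 => ?_
  have hb : α - 1 - (n + 2 * α - 2) / 4 ≤ 0 := by linarith
  have hb2 : 0 ≤ (n + 2 * α - 2) / 4 := by linarith
  have h3 : (n + 2 * α - 2) / 4 * (α - 1 - (n + 2 * α - 2) / 4) ≤ 0 :=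
    mul_nonpos_of_nonneg_of_nonpos hb2 hb
  nlinarith

/-- Lower bound for `α ≥ 1 + n / 2`. -/
lemma lower_large {α : ℝ} {u : E n → ℝ}
    (hu : ContDiff ℝ 1 u) (hc : HasCompactSupport u) :
    2 * n * (α - 1) * Nm α u ≤ En α u := by
  refine ground (b := α - 1) hu hc fun t ht ht1 => ?_
  rw [sub_self]
  linarith

end Q81.Har
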