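import Mathlib
import Pool.Agent.Q81.Har1
import Pool.Agent.Q81.Har4

/-!
# Mixtures of Gaussians: functions with vanishing Gaussian means
-/

namespace Q81.Har

open MeasureTheory Set Filter Topology
open scoped RealInnerProductSpace

variable {n : ℕ}

lemma sum_sq (L : E n →L[ℝ] ℝ) : ∑ i, (L (EuclideanSpace.single i 1)) ^ 2 = ‖L‖ ^ 2 := by
  set a := (InnerProductSpace.toDual ℝ (E n)).symm L with ha
  have h1 : ‖L‖ = ‖a‖ := by rw [ha, LinearIsometryEquiv.norm_map]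
  have h2 : ∀ i, L (EuclideanSpace.single i 1) = a i := by
    intro i
    have : L (EuclideanSpace.single i 1) = ⟪a, EuclideanSpace.single i (1 : ℝ)⟫ := by
      rw [ha, InnerProductSpace.toDual_symm_apply]
    rw [this, EuclideanSpace.inner_single_right]
    simp
  rw [h1, EuclideanSpace.real_norm_sq_eq]
  simp only [h2]

/-- the isomorphism `ℝⁿ → E n` -/
noncomputable def iso (n : ℕ) : (Fin n → ℝ) ≃L[ℝ] E n := (EuclideanSpace.equiv (Fin n) ℝ).symm

lemma iso_apply (x : Fin n → ℝ) : iso n x = WithLp.toLp 2 x := rfl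

lemma integral_iso (F : E n → ℝ) : ∫ x, F x = ∫ y : Fin n → ℝ, F (iso n y) := by
  have h := (PiLp.volume_preserving_toLp (Fin n)).integral_comp
    (MeasurableEquiv.toLp 2 (Fin n → ℝ)).measurableEmbedding F
  exact h.symm

lemma gn_iso (s : ℝ) (y : Fin n → ℝ) : gn s y = Real.exp (-s * ‖iso n y‖ ^ 2) := by
  unfold gn ga
  rw [← Real.exp_sum, EuclideanSpace.real_norm_sq_eq, Finset.mul_sum]
  rfl

lemma fderiv_iso {v : E n → ℝ} (hv : ContDiff ℝ 1 v) (y : Fin n → ℝ) :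
    HasFDerivAt (fun y => v (iso n y)) ((fderiv ℝ v (iso n y)).comp (iso n : (Fin n → ℝ) →L[ℝ] E n))
      y :=
  ((hv.differentiable one_ne_zero) _).hasFDerivAt.comp y
    ((iso n : (Fin n → ℝ) →L[ℝ] E n).hasFDerivAt)

lemma sum_pd {v : E n → ℝ} (hv : ContDiff ℝ 1 v) (y : Fin n → ℝ) :
    ∑ i, pd (fun y => v (iso n y)) i y ^ 2 = ‖fderiv ℝ v (iso n y)‖ ^ 2 := by
  rw [← sum_sq]
  refine Finset.sum_congr rfl fun i _ => ?_
  unfold pd
  rw [(fderiv_iso hv y).fderiv, ContinuousLinearMap.comp_apply]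
  rfl

/-- Gaussian Poincaré on Euclidean space. -/
lemma gauss_E {s : ℝ} (hs : 0 < s) {v : E n → ℝ} (hv : ContDiff ℝ 1 v) (hc : HasCompactSupport v)
    (h0 : ∫ x, v x * Real.exp (-s * ‖x‖ ^ 2) = 0) :
    2 * s * (∫ x, v x ^ 2 * Real.exp (-s * ‖x‖ ^ 2)) ≤
      ∫ x, ‖fderiv ℝ v x‖ ^ 2 * Real.exp (-s * ‖x‖ ^ 2) := by
  obtain ⟨K1, hK1⟩ := hc.exists_bound_of_continuous hv.continuous
  obtain ⟨K2, hK2⟩ := (hc.fderiv ℝ).exists_bound_of_continuous (hv.continuous_fderiv one_ne_zero)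
  set c := ‖(iso n : (Fin n → ℝ) →L[ℝ] E n)‖ with hcdef
  have hc0 : 0 ≤ c := norm_nonneg _
  have hK20 : 0 ≤ K2 := (norm_nonneg _).trans (hK2 0)
  have hBd : Bd (max K1 (K2 * c)) (fun y => v (iso n y)) := by
    refine ⟨hv.comp (iso n).contDiff, fun y => (hK1 _).trans (le_max_left _ _), fun y => ?_⟩
    rw [(fderiv_iso hv y).fderiv]
    refine (ContinuousLinearMap.opNorm_comp_le _ _).trans ((?_ : _ ≤ K2 * c).trans (le_max_right _ _))
    exact mul_le_mul_of_nonneg_right (hK2 _) hc0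
  have h := gauss_n hs n _ hBd
  simp only [sum_pd hv, gn_iso] at h
  rw [← integral_iso (fun x => v x ^ 2 * Real.exp (-s * ‖x‖ ^ 2)),
    ← integral_iso (fun x => v x * Real.exp (-s * ‖x‖ ^ 2)),
    ← integral_iso (fun x => ‖fderiv ℝ v x‖ ^ 2 * Real.exp (-s * ‖x‖ ^ 2)), h0] at h
  have hZ : 0 < Zg s ^ n := pow_pos (Zg_pos hs) n
  have h1 : Zg s ^ n * (2 * s * (∫ x, v x ^ 2 * Real.exp (-s * ‖x‖ ^ 2))) ≤
      Zg s ^ n * ∫ x, ‖fderiv ℝ v x‖ ^ 2 * Real.exp (-s * ‖x‖ ^ 2) := by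
    have h2 := mul_le_mul_of_nonneg_left h (show 0 ≤ 2 * s by positivity)
    have h3 : 2 * s * (Zg s ^ n / (2 * s) * ∫ x, ‖fderiv ℝ v x‖ ^ 2 * Real.exp (-s * ‖x‖ ^ 2)) =
        Zg s ^ n * ∫ x, ‖fderiv ℝ v x‖ ^ 2 * Real.exp (-s * ‖x‖ ^ 2) := by
      field_simp
    rw [h3] at h2
    linarith
  exact le_of_mul_le_mul_left h1 hZ

/-- Powers as mixtures of Gaussians. -/
lemma mix {a : ℝ} (ha : 0 < a) {g : E n → ℝ} (hg : Continuous g) (hc : HasCompactSupport g) :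
    Real.Gamma a * (∫ x, w (-a) x * g x) =
      ∫ t in Ioi 0, t ^ (a - 1) * Real.exp (-t) * ∫ x, g x * Real.exp (-t * ‖x‖ ^ 2) ∧
    IntegrableOn (fun t => t ^ (a - 1) * Real.exp (-t) * ∫ x, g x * Real.exp (-t * ‖x‖ ^ 2))
      (Ioi 0) := by
  have hgi : Integrable g := hg.integrable_of_hasCompactSupport hc
  have h1 : Integrable (Function.uncurry fun (x : E n) (t : ℝ) =>
      t ^ (a - 1) * Real.exp (-t) * (g x * Real.exp (-t * ‖x‖ ^ 2)))
      (volume.prod (volume.restrict (Ioi 0))) := by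
    have h2 : Integrable (fun t : ℝ => Real.exp (-t) * t ^ (a - 1)) (volume.restrict (Ioi 0)) :=
      Real.GammaIntegral_convergent ha
    have h3 := hgi.mul_prod h2
    refine h3.mono ?_ ?_
    · apply Measurable.aestronglyMeasurable
      unfold Function.uncurry
      have := hg.measurable
      fun_prop
    · have : ∀ᵐ z : E n × ℝ ∂(volume.prod (volume.restrict (Ioi 0))), z.2 ∈ Ioi (0 : ℝ) := by
        have h4 : ∀ᵐ t : ℝ ∂(volume.restrict (Ioi 0)), t ∈ Ioi (0 : ℝ) :=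
          ae_restrict_mem measurableSet_Ioi
        exact Measure.quasiMeasurePreserving_snd.ae h4
      filter_upwards [this] with z hz
      have hz' : 0 < z.2 := hz
      simp only [Function.uncurry, norm_mul, Real.norm_eq_abs]
      have e1 : |Real.exp (-z.2 * ‖z.1‖ ^ 2)| ≤ 1 := by
        rw [abs_of_pos (Real.exp_pos _), Real.exp_le_one_iff]
        have := mul_nonneg hz'.le (sq_nonneg ‖z.1‖)
        linarith
      have e2 : |z.2 ^ (a - 1)| * |Real.exp (-z.2)| * (|g z.1| * |Real.exp (-z.2 * ‖z.1‖ ^ 2)|) ≤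
          |z.2 ^ (a - 1)| * |Real.exp (-z.2)| * (|g z.1| * 1) := by gcongr
      refine e2.trans (le_of_eq ?_)
      ring
  refine ⟨?_, ?_⟩
  · have h2 := integral_integral_swap h1
    simp only [integral_const_mul] at h2
    rw [← h2, ← integral_const_mul]
    refine integral_congr_ae (ae_of_all _ fun x => ?_)
    have hpos := one_add_pos x
    have h3 := Real.integral_rpow_mul_exp_neg_mul_Ioi ha hpos
    have h4 : ∫ t in Ioi (0 : ℝ), t ^ (a - 1) * Real.exp (-t) * (g x * Real.exp (-t * ‖x‖ ^ 2)) =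
        g x * ∫ t in Ioi (0 : ℝ), t ^ (a - 1) * Real.exp (-((1 + ‖x‖ ^ 2) * t)) := by
      rw [← integral_const_mul]
      refine integral_congr_ae (ae_of_all _ fun t => ?_)
      have : Real.exp (-((1 + ‖x‖ ^ 2) * t)) = Real.exp (-t) * Real.exp (-t * ‖x‖ ^ 2) := by
        rw [← Real.exp_add]; congr 1; ring
      simp only
      rw [this]; ring
    simp only
    rw [h4, h3]
    have h5 : w (-a) x = (1 / (1 + ‖x‖ ^ 2)) ^ a := by
      unfold w
      rw [one_div, Real.inv_rpow hpos.le, Real.rpow_neg hpos.le]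
    rw [h5]
    ring
  · have h2 := h1.integral_prod_right
    simp only [Function.uncurry, integral_const_mul] at h2
    exact h2

/-- Functions whose Gaussian means all vanish. -/
theorem gauss_mix {b : ℝ} (hb : 0 < b) {v : E n → ℝ} (hv : ContDiff ℝ 1 v)
    (hc : HasCompactSupport v)
    (h0 : ∀ s : ℝ, 0 < s → ∫ x, v x * Real.exp (-s * ‖x‖ ^ 2) = 0) :
    2 * b * (∫ x, w (-b - 1) x * v x ^ 2) ≤ ∫ x, w (-b) x * ‖fderiv ℝ v x‖ ^ 2 := by
  have hv2 : Continuous fun x => v x ^ 2 := hv.continuous.pow 2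
  have hc2 : HasCompactSupport fun x => v x ^ 2 := hc.comp_left (g := fun t : ℝ => t ^ 2) (by simp)
  have hd2 : Continuous fun x => ‖fderiv ℝ v x‖ ^ 2 :=
    (hv.continuous_fderiv one_ne_zero).norm.pow 2
  have hdc2 : HasCompactSupport fun x => ‖fderiv ℝ v x‖ ^ 2 :=
    (hc.fderiv ℝ).comp_left (g := fun L : E n →L[ℝ] ℝ => ‖L‖ ^ 2) (by simp)
  obtain ⟨e1, i1⟩ := mix (a := b + 1) (by linarith) hv2 hc2
  obtain ⟨e2, i2⟩ := mix hb hd2 hdc2
  have h1 : 2 * (∫ t in Ioi 0, t ^ (b + 1 - 1) * Real.exp (-t) *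
      ∫ x, v x ^ 2 * Real.exp (-t * ‖x‖ ^ 2)) ≤
      ∫ t in Ioi 0, t ^ (b - 1) * Real.exp (-t) *
        ∫ x, ‖fderiv ℝ v x‖ ^ 2 * Real.exp (-t * ‖x‖ ^ 2) := by
    rw [← integral_const_mul]
    refine setIntegral_mono_on (i1.const_mul 2) i2 measurableSet_Ioi fun t ht => ?_
    have ht' : 0 < t := ht
    have h2 := gauss_E ht' hv hc (h0 t ht')
    have h3 : t ^ (b + 1 - 1) = t ^ (b - 1) * t := by
      rw [show b + 1 - 1 = (b - 1) + 1 by ring, Real.rpow_add_one ht'.ne']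
    have h4 : 0 ≤ t ^ (b - 1) * Real.exp (-t) := by positivity
    have h5 := mul_le_mul_of_nonneg_left h2 h4
    rw [h3]
    linarith
  rw [← e1, ← e2, Real.Gamma_add_one hb.ne'] at h1
  have hG : 0 < Real.Gamma b := Real.Gamma_pos_of_pos hb
  have h2 : Real.Gamma b * (2 * b * (∫ x, w (-b - 1) x * v x ^ 2)) ≤
      Real.Gamma b * ∫ x, w (-b) x * ‖fderiv ℝ v x‖ ^ 2 := by
    have e3 : -(b + 1) = -b - 1 := by ring
    rw [e3] at h1
    linarith
  exact le_of_mul_le_mul_left h2 hG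

end Q81.Har
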