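import Mathlib
import Pool.Agent.Q81.Har5

/-!
# Spherical means
-/

namespace Q81.Har

open MeasureTheory Set Filter Topology Metric
open scoped RealInnerProductSpace Pointwise

variable {n : ℕ}

/-- The surface measure of the unit sphere. -/
noncomputable abbrev sig (n : ℕ) : Measure (sphere (0 : E n) 1) := (volume : Measure (E n)).toSphere

lemma norm_sph (θ : sphere (0 : E n) 1) : ‖(θ : E n)‖ = 1 := by
  have := θ.2
  rwa [mem_sphere_zero_iff_norm] at this

section polar

variable [Nontrivial (E n)]

/-- A function with vanishing spherical integrals has integral zero. -/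
lemma int_zero {F : E n → ℝ} (hF : Integrable F)
    (h : ∀ r : ℝ, 0 < r → ∫ θ, F (r • (θ : E n)) ∂(sig n) = 0) : ∫ x, F x = 0 := by
  have hmp := (volume : Measure (E n)).measurePreserving_homeomorphUnitSphereProd
  have hcomp : ∀ x : ({0}ᶜ : Set (E n)),
      F (((homeomorphUnitSphereProd (E n) x).2 : ℝ) • ((homeomorphUnitSphereProd (E n) x).1 : E n)) =
      F x := by
    intro x
    have hx : ‖(x : E n)‖ ≠ 0 := norm_ne_zero_iff.2 x.2
    rw [homeomorphUnitSphereProd_apply_snd_coe, homeomorphUnitSphereProd_apply_fst_coe, smul_smul,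
      mul_inv_cancel₀ hx, one_smul]
  have e1 : ∫ x, F x = ∫ x : ({0}ᶜ : Set (E n)), F x.1 ∂((volume : Measure (E n)).comap (↑)) := by
    rw [integral_subtype_comap (measurableSet_singleton _).compl fun x ↦ F x,
      restrict_compl_singleton]
  have hint0 : Integrable (fun x : ({0}ᶜ : Set (E n)) => F x.1)
      ((volume : Measure (E n)).comap (↑)) := by
    have h1 : IntegrableOn F ({0}ᶜ : Set (E n)) := hF.integrableOn
    exact (integrableOn_iff_comap_subtypeVal (measurableSet_singleton _).compl).1 h1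
  have e2 := hmp.integral_comp (Homeomorph.measurableEmbedding _)
    (fun p : sphere (0 : E n) 1 × Ioi (0 : ℝ) => F ((p.2 : ℝ) • (p.1 : E n)))
  simp only [hcomp] at e2
  have i2 := (hmp.integrable_comp_emb (Homeomorph.measurableEmbedding _)
    (g := fun p : sphere (0 : E n) 1 × Ioi (0 : ℝ) => F ((p.2 : ℝ) • (p.1 : E n))))
  simp only [Function.comp_def, hcomp] at i2
  rw [e1, e2, integral_prod_symm _ (i2.1 hint0)]
  have : ∀ r : Ioi (0 : ℝ), ∫ θ, F ((r : ℝ) • (θ : E n)) ∂(sig n) = 0 := fun r => h r r.2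
  simp only [this, integral_zero]

lemma sig_pos : 0 < (sig n).real univ := by
  rw [Measure.real, ENNReal.toReal_pos_iff]
  refine ⟨?_, measure_lt_top _ _⟩
  rw [Measure.measure_univ_pos]
  exact Measure.toSphere_ne_zero _

omit [Nontrivial (E n)] in
/-- The surface measure is symmetric. -/
lemma sig_neg (a : E n →L[ℝ] ℝ) : ∫ θ, a (θ : E n) ∂(sig n) = 0 := by
  have hmap : (sig n).map (fun θ => -θ) = sig n := by
    have hme : Measurable fun θ : sphere (0 : E n) 1 => -θ := continuous_neg.measurable
    ext s hs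
    rw [Measure.map_apply hme hs, Measure.toSphere_apply' _ (hme hs), Measure.toSphere_apply' _ hs]
    congr 1
    have : Ioo (0 : ℝ) 1 • ((↑) '' ((fun θ : sphere (0 : E n) 1 => -θ) ⁻¹' s) : Set (E n)) =
        -(Ioo (0 : ℝ) 1 • ((↑) '' s : Set (E n))) := by
      ext x
      simp only [Set.mem_neg, Set.mem_smul, Set.mem_image, Set.mem_preimage]
      constructor
      · rintro ⟨r, hr, y, ⟨θ, hθ, rfl⟩, rfl⟩
        exact ⟨r, hr, -θ, ⟨-θ, hθ, by simp⟩, by simp⟩
      · rintro ⟨r, hr, y, ⟨θ, hθ, rfl⟩, h⟩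
        refine ⟨r, hr, -θ, ⟨-θ, by simpa using hθ, by simp⟩, ?_⟩
        rw [smul_neg, h, neg_neg]
    rw [this, Measure.measure_neg]
  have h1 : ∫ θ, a (θ : E n) ∂(sig n) = ∫ θ, a ((-θ : sphere (0 : E n) 1) : E n) ∂(sig n) := by
    conv_lhs => rw [← hmap]
    have hme : Measurable fun θ : sphere (0 : E n) 1 => -θ := continuous_neg.measurable
    rw [integral_map hme.aemeasurable]
    exact (a.continuous.comp continuous_subtype_val).aestronglyMeasurable
  have h2 : ∀ θ : sphere (0 : E n) 1, a ((-θ : sphere (0 : E n) 1) : E n) = -a (θ : E n) := by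
    intro θ; simp
  simp only [h2] at h1
  rw [integral_neg] at h1
  linarith

end polar

/-- The spherical mean. -/
noncomputable def sm (u : E n → ℝ) (r : ℝ) : ℝ :=
  ((sig n).real univ)⁻¹ * ∫ θ, u (r • (θ : E n)) ∂(sig n)

/-- The derivative of the spherical mean. -/
noncomputable def sm' (u : E n → ℝ) (r : ℝ) : ℝ :=
  ((sig n).real univ)⁻¹ * ∫ θ, fderiv ℝ u (r • (θ : E n)) (θ : E n) ∂(sig n)

section mean

variable {u : E n → ℝ}

lemma cont_sph {g : E n → ℝ} (hg : Continuous g) (r : ℝ) :
    Continuous fun θ : sphere (0 : E n) 1 => g (r • (θ : E n)) := by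
  have h : Continuous fun θ : sphere (0 : E n) 1 => r • (θ : E n) :=
    continuous_subtype_val.const_smul r
  exact hg.comp h

lemma int_sph {g : E n → ℝ} (hg : Continuous g) (r : ℝ) :
    Integrable (fun θ : sphere (0 : E n) 1 => g (r • (θ : E n))) (sig n) := by
  have : CompactSpace (sphere (0 : E n) 1) := isCompact_iff_compactSpace.1 (isCompact_sphere _ _)
  have hc : HasCompactSupport fun θ : sphere (0 : E n) 1 => g (r • (θ : E n)) :=
    HasCompactSupport.of_compactSpace _
  exact (cont_sph hg r).integrable_of_hasCompactSupport hc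

lemma cont_sph' (hu : ContDiff ℝ 1 u) (r : ℝ) :
    Continuous fun θ : sphere (0 : E n) 1 => fderiv ℝ u (r • (θ : E n)) (θ : E n) := by
  have h : Continuous fun θ : sphere (0 : E n) 1 => r • (θ : E n) :=
    continuous_subtype_val.const_smul r
  exact ((hu.continuous_fderiv one_ne_zero).comp h).clm_apply continuous_subtype_val

lemma int_sph' (hu : ContDiff ℝ 1 u) (r : ℝ) :
    Integrable (fun θ : sphere (0 : E n) 1 => fderiv ℝ u (r • (θ : E n)) (θ : E n)) (sig n) := by
  have : CompactSpace (sphere (0 : E n) 1) := isCompact_iff_compactSpace.1 (isCompact_sphere _ _)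
  exact (cont_sph' hu r).integrable_of_hasCompactSupport (HasCompactSupport.of_compactSpace _)

lemma hasDerivAt_sm (hu : ContDiff ℝ 1 u) (hc : HasCompactSupport u) (r : ℝ) :
    HasDerivAt (sm u) (sm' u r) r := by
  obtain ⟨K, hK⟩ := (hc.fderiv ℝ).exists_bound_of_continuous (hu.continuous_fderiv one_ne_zero)
  unfold sm sm'
  refine HasDerivAt.const_mul _ ?_
  refine (hasDerivAt_integral_of_dominated_loc_of_deriv_le (𝕜 := ℝ) (E := ℝ)
    (F := fun (r : ℝ) (θ : sphere (0 : E n) 1) => u (r • (θ : E n)))
    (F' := fun (r : ℝ) (θ : sphere (0 : E n) 1) => fderiv ℝ u (r • (θ : E n)) (θ : E n))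
    (s := univ) (bound := fun _ => K) (x₀ := r) univ_mem ?_ ?_ ?_ ?_ ?_ ?_).2
  · exact Filter.Eventually.of_forall fun r => (cont_sph hu.continuous r).aestronglyMeasurable
  · exact int_sph hu.continuous r
  · exact (cont_sph' hu r).aestronglyMeasurable
  · refine ae_of_all _ fun θ r _ => ?_
    refine ((fderiv ℝ u (r • (θ : E n))).le_opNorm _).trans ?_
    rw [norm_sph, mul_one]
    exact hK _
  · exact integrable_const _
  · refine ae_of_all _ fun θ r _ => ?_
    have h1 : HasDerivAt (fun r : ℝ => r • (θ : E n)) (θ : E n) r := by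
      simpa using (hasDerivAt_id r).smul_const (θ : E n)
    exact ((hu.differentiable one_ne_zero) _).hasFDerivAt.comp_hasDerivAt r h1

lemma continuous_sm' (hu : ContDiff ℝ 1 u) (hc : HasCompactSupport u) : Continuous (sm' u) := by
  obtain ⟨K, hK⟩ := (hc.fderiv ℝ).exists_bound_of_continuous (hu.continuous_fderiv one_ne_zero)
  unfold sm'
  refine continuous_const.mul ?_
  refine continuous_of_dominated (bound := fun _ => K) ?_ ?_ ?_ ?_
  · exact fun r => (cont_sph' hu r).aestronglyMeasurable
  · refine fun r => ae_of_all _ fun θ => ?_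
    refine ((fderiv ℝ u (r • (θ : E n))).le_opNorm _).trans ?_
    rw [norm_sph, mul_one]
    exact hK _
  · exact integrable_const _
  · refine ae_of_all _ fun θ => ?_
    exact ((hu.continuous_fderiv one_ne_zero).comp
      (continuous_id.smul continuous_const)).clm_apply continuous_const

lemma sm'_zero : sm' u 0 = 0 := by
  unfold sm'
  simp only [zero_smul]
  rw [sig_neg, mul_zero]

lemma sm_eq_zero (hc : HasCompactSupport u) : ∃ R : ℝ, 0 < R ∧ (∀ r, R < |r| → sm u r = 0) := by
  obtain ⟨R, hR, hR2⟩ := hc.isCompact.isBounded.exists_pos_norm_le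
  refine ⟨R, hR, fun r hr => ?_⟩
  unfold sm
  have : ∀ θ : sphere (0 : E n) 1, u (r • (θ : E n)) = 0 := by
    intro θ
    by_contra h
    have h1 := hR2 _ (subset_tsupport _ h)
    rw [norm_smul, norm_sph, mul_one, Real.norm_eq_abs] at h1
    linarith
  simp only [this, integral_zero, mul_zero]

/-- The radial part as a function on the space. -/
noncomputable def rad (u : E n → ℝ) (x : E n) : ℝ := sm u ‖x‖

/-- The gradient of the radial part. -/
noncomputable def grad (u : E n → ℝ) (x : E n) : E n := (sm' u ‖x‖ / ‖x‖) • x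

lemma norm_grad (x : E n) : ‖grad u x‖ ^ 2 = sm' u ‖x‖ ^ 2 := by
  unfold grad
  rcases eq_or_ne x 0 with h | h
  · rw [h, norm_zero, sm'_zero]; simp
  · rw [norm_smul, mul_pow, Real.norm_eq_abs, sq_abs, div_pow]
    have := norm_ne_zero_iff.2 h
    field_simp

lemma continuous_grad (hu : ContDiff ℝ 1 u) (hc : HasCompactSupport u) :
    Continuous (grad u) := by
  rw [continuous_iff_continuousAt]
  intro x
  rcases eq_or_ne x 0 with h | h
  · subst h
    have h0 : grad u 0 = 0 := by simp [grad]
    unfold ContinuousAt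
    rw [h0, tendsto_zero_iff_norm_tendsto_zero]
    have h1 : ∀ x : E n, ‖grad u x‖ = |sm' u ‖x‖| := by
      intro x
      have := norm_grad (u := u) x
      rw [← abs_of_nonneg (norm_nonneg (grad u x))]
      exact (sq_eq_sq_iff_abs_eq_abs _ _).1 this
    simp only [h1]
    have h2 : Continuous fun x : E n => |sm' u ‖x‖| :=
      ((continuous_sm' hu hc).comp continuous_norm).abs
    have h3 := h2.tendsto 0
    rw [norm_zero, sm'_zero, abs_zero] at h3
    exact h3
  · unfold grad
    have h1 : ContinuousAt (fun x : E n => sm' u ‖x‖ / ‖x‖) x :=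
      (((continuous_sm' hu hc).comp continuous_norm).continuousAt).div continuous_norm.continuousAt
        (norm_ne_zero_iff.2 h)
    exact h1.smul continuousAt_id

lemma hasFDerivAt_rad (hu : ContDiff ℝ 1 u) (hc : HasCompactSupport u) (x : E n) :
    HasFDerivAt (rad u) (innerSL ℝ (grad u x)) x := by
  rcases eq_or_ne x 0 with h | h
  · subst h
    have h0 : grad u 0 = 0 := by simp [grad]
    rw [h0, map_zero]
    have h1 := hasDerivAt_sm hu hc 0
    rw [sm'_zero, hasDerivAt_iff_isLittleO_nhds_zero] at h1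
    rw [hasFDerivAt_iff_isLittleO_nhds_zero]
    have h2 : Tendsto (fun x : E n => ‖x‖) (𝓝 0) (𝓝 0) := tendsto_norm_zero
    have h3 := h1.comp_tendsto h2
    simp only [Function.comp_def, zero_add, smul_zero, sub_zero] at h3
    simp only [rad, zero_add, norm_zero, zero_apply, sub_zero]
    exact h3.of_norm_right
  · have h1 : HasFDerivAt (fun x : E n => ‖x‖) (‖x‖⁻¹ • innerSL ℝ x) x := by
      have := (hasStrictFDerivAt_norm_sq x).hasFDerivAt.sqrt (by positivity)
      simp only [Real.sqrt_sq (norm_nonneg _)] at this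
      refine this.congr_fderiv ?_
      ext v
      simp
      field_simp
    have h2 := (hasDerivAt_sm hu hc ‖x‖).comp_hasFDerivAt x h1
    refine h2.congr_fderiv ?_
    ext v
    simp [grad]
    field_simp

lemma contDiff_rad (hu : ContDiff ℝ 1 u) (hc : HasCompactSupport u) : ContDiff ℝ 1 (rad u) := by
  rw [contDiff_one_iff_fderiv]
  refine ⟨fun x => (hasFDerivAt_rad hu hc x).differentiableAt, ?_⟩
  have : fderiv ℝ (rad u) = fun x => innerSL ℝ (grad u x) :=
    funext fun x => (hasFDerivAt_rad hu hc x).fderiv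
  rw [this]
  exact (innerSL ℝ).continuous.comp (continuous_grad hu hc)

lemma hasCompactSupport_rad (hc : HasCompactSupport u) : HasCompactSupport (rad u) := by
  obtain ⟨R, -, hR⟩ := sm_eq_zero hc
  refine HasCompactSupport.intro (isCompact_closedBall (0 : E n) R) fun x hx => ?_
  apply hR
  rw [mem_closedBall_zero_iff, not_le] at hx
  rwa [abs_of_nonneg (norm_nonneg x)]

end mean

end Q81.Har
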