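import Mathlib
import Pool.Agent.Q81.Har6

/-!
# Reduction of the weighted Poincaré inequality to radial functions
-/

namespace Q81.Har

open MeasureTheory Set Filter Topology Metric
open scoped RealInnerProductSpace

variable {n : ℕ}

lemma norm_add_sq_dual (L : E n →L[ℝ] ℝ) (a : E n) :
    ‖L + innerSL ℝ a‖ ^ 2 = ‖L‖ ^ 2 + 2 * L a + ‖a‖ ^ 2 := by
  set b := (InnerProductSpace.toDual ℝ (E n)).symm L with hb
  have h1 : L = innerSL ℝ b := by
    ext v
    rw [innerSL_apply_apply, hb, InnerProductSpace.toDual_symm_apply]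
  rw [h1, ← map_add, innerSL_apply_norm, innerSL_apply_norm, innerSL_apply_apply, norm_add_sq_real]

variable [Nontrivial (E n)] {u : E n → ℝ}

/-- the nonradial part -/
noncomputable def nr (u : E n → ℝ) (x : E n) : ℝ := u x - rad u x

omit [Nontrivial (E n)] in
lemma contDiff_nr (hu : ContDiff ℝ 1 u) (hc : HasCompactSupport u) : ContDiff ℝ 1 (nr u) :=
  hu.sub (contDiff_rad hu hc)

omit [Nontrivial (E n)] in
lemma hasCompactSupport_nr (hc : HasCompactSupport u) : HasCompactSupport (nr u) :=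
  hc.sub (hasCompactSupport_rad hc)

omit [Nontrivial (E n)] in
lemma fderiv_nr (hu : ContDiff ℝ 1 u) (hc : HasCompactSupport u) (x : E n) :
    fderiv ℝ (nr u) x = fderiv ℝ u x - innerSL ℝ (grad u x) :=
  (((hu.differentiable one_ne_zero) x).hasFDerivAt.sub (hasFDerivAt_rad hu hc x)).fderiv

lemma sph_nr (hu : ContDiff ℝ 1 u) {r : ℝ} (hr : 0 < r) :
    ∫ θ, nr u (r • (θ : E n)) ∂(sig n) = 0 := by
  have h1 : ∀ θ : sphere (0 : E n) 1, nr u (r • (θ : E n)) = u (r • (θ : E n)) - sm u r := by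
    intro θ
    unfold nr rad
    rw [norm_smul, norm_sph, mul_one, Real.norm_eq_abs, abs_of_pos hr]
  simp only [h1]
  rw [integral_sub (int_sph hu.continuous r) (integrable_const _), integral_const, smul_eq_mul]
  have := (sig_pos (n := n)).ne'
  unfold sm
  rw [mul_inv_cancel_left₀ this, sub_self]

lemma sph_nr' (hu : ContDiff ℝ 1 u) (hc : HasCompactSupport u) {r : ℝ} (hr : 0 < r) :
    ∫ θ, fderiv ℝ (nr u) (r • (θ : E n)) (θ : E n) ∂(sig n) = 0 := by
  have h1 : ∀ θ : sphere (0 : E n) 1, fderiv ℝ (nr u) (r • (θ : E n)) (θ : E n) =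
      fderiv ℝ u (r • (θ : E n)) (θ : E n) - sm' u r := by
    intro θ
    rw [fderiv_nr hu hc, sub_apply, innerSL_apply_apply]
    unfold grad
    rw [norm_smul, norm_sph, mul_one, Real.norm_eq_abs, abs_of_pos hr, smul_smul,
      div_mul_cancel₀ _ hr.ne', inner_smul_left, real_inner_self_eq_norm_sq, norm_sph]
    simp
  simp only [h1]
  rw [integral_sub (int_sph' hu r) (integrable_const _), integral_const, smul_eq_mul]
  have := (sig_pos (n := n)).ne'
  unfold sm'
  rw [mul_inv_cancel_left₀ this, sub_self]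

lemma mass_split (hu : ContDiff ℝ 1 u) (hc : HasCompactSupport u) (γ : ℝ) :
    ∫ x, w γ x * u x ^ 2 = (∫ x, w γ x * nr u x ^ 2) + ∫ x : E n, w γ x * sm u ‖x‖ ^ 2 := by
  have c1 := contDiff_nr hu hc
  have c2 := hasCompactSupport_nr hc
  have c3 := contDiff_rad hu hc
  have c4 := hasCompactSupport_rad hc
  have i0 : Integrable fun x => w γ x * rad u x * nr u x := by
    apply Continuous.integrable_of_hasCompactSupport
    · exact ((continuous_w γ).mul c3.continuous).mul c1.continuous
    · exact c2.mul_left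
  have i1 : Integrable fun x => w γ x * nr u x ^ 2 := integrable_Nm γ c1.continuous c2
  have i2 : Integrable fun x : E n => w γ x * sm u ‖x‖ ^ 2 := integrable_Nm γ c3.continuous c4
  have h0 : ∫ x, w γ x * rad u x * nr u x = 0 := by
    refine int_zero i0 fun r hr => ?_
    have h1 : ∀ θ : sphere (0 : E n) 1, w γ (r • (θ : E n)) * rad u (r • (θ : E n)) *
        nr u (r • (θ : E n)) = ((1 + r ^ 2) ^ γ * sm u r) * nr u (r • (θ : E n)) := by
      intro θ
      unfold w rad
      rw [norm_smul, norm_sph, mul_one, Real.norm_eq_abs, abs_of_pos hr]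
    simp only [h1]
    rw [integral_const_mul, sph_nr hu hr, mul_zero]
  have e : ∀ x, w γ x * u x ^ 2 = w γ x * nr u x ^ 2 + 2 * (w γ x * rad u x * nr u x) +
      w γ x * sm u ‖x‖ ^ 2 := by
    intro x
    unfold nr rad
    ring
  simp only [e]
  have i3 : Integrable fun x => w γ x * nr u x ^ 2 + 2 * (w γ x * rad u x * nr u x) :=
    i1.add (i0.const_mul 2)
  rw [integral_add i3 i2, integral_add i1 (i0.const_mul 2), integral_const_mul, h0]
  ring

lemma energy_split (hu : ContDiff ℝ 1 u) (hc : HasCompactSupport u) (γ : ℝ) :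
    ∫ x, w γ x * ‖fderiv ℝ u x‖ ^ 2 =
      (∫ x, w γ x * ‖fderiv ℝ (nr u) x‖ ^ 2) + ∫ x : E n, w γ x * sm' u ‖x‖ ^ 2 := by
  have c1 := contDiff_nr hu hc
  have c2 := hasCompactSupport_nr hc
  have c3 := contDiff_rad hu hc
  have c4 := hasCompactSupport_rad hc
  have c5 := continuous_grad hu hc
  have i0 : Integrable fun x => w γ x * fderiv ℝ (nr u) x (grad u x) := by
    apply Continuous.integrable_of_hasCompactSupport
    · exact (continuous_w γ).mul ((c1.continuous_fderiv one_ne_zero).clm_apply c5)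
    · apply HasCompactSupport.mul_left
      apply (c2.fderiv ℝ).mono
      intro x hx
      contrapose! hx
      simp only [Function.mem_support, not_not] at hx ⊢
      rw [hx]; simp
  have i1 : Integrable fun x => w γ x * ‖fderiv ℝ (nr u) x‖ ^ 2 := integrable_En γ c1 c2
  have hfr : ∀ x : E n, ‖fderiv ℝ (rad u) x‖ ^ 2 = sm' u ‖x‖ ^ 2 := by
    intro x
    rw [(hasFDerivAt_rad hu hc x).fderiv, innerSL_apply_norm, norm_grad]
  have i2 : Integrable fun x : E n => w γ x * sm' u ‖x‖ ^ 2 := by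
    have := integrable_En γ c3 c4
    simpa only [hfr] using this
  have h0 : ∫ x, w γ x * fderiv ℝ (nr u) x (grad u x) = 0 := by
    refine int_zero i0 fun r hr => ?_
    have h1 : ∀ θ : sphere (0 : E n) 1, w γ (r • (θ : E n)) *
        fderiv ℝ (nr u) (r • (θ : E n)) (grad u (r • (θ : E n))) =
        ((1 + r ^ 2) ^ γ * sm' u r) * fderiv ℝ (nr u) (r • (θ : E n)) (θ : E n) := by
      intro θ
      unfold w grad
      rw [norm_smul, norm_sph, mul_one, Real.norm_eq_abs, abs_of_pos hr, smul_smul,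
        div_mul_cancel₀ _ hr.ne', map_smul, smul_eq_mul]
      ring
    simp only [h1]
    rw [integral_const_mul, sph_nr' hu hc hr, mul_zero]
  have e : ∀ x, w γ x * ‖fderiv ℝ u x‖ ^ 2 = w γ x * ‖fderiv ℝ (nr u) x‖ ^ 2 +
      2 * (w γ x * fderiv ℝ (nr u) x (grad u x)) + w γ x * sm' u ‖x‖ ^ 2 := by
    intro x
    have h1 : fderiv ℝ u x = fderiv ℝ (nr u) x + innerSL ℝ (grad u x) := by
      rw [fderiv_nr hu hc, sub_add_cancel]
    rw [h1, norm_add_sq_dual, norm_grad]
    ring
  simp only [e]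
  have i3 : Integrable fun x => w γ x * ‖fderiv ℝ (nr u) x‖ ^ 2 +
      2 * (w γ x * fderiv ℝ (nr u) x (grad u x)) := i1.add (i0.const_mul 2)
  rw [integral_add i3 i2, integral_add i1 (i0.const_mul 2), integral_const_mul, h0]
  ring

lemma mean_split (hu : ContDiff ℝ 1 u) (hc : HasCompactSupport u) (γ : ℝ) :
    ∫ x, w γ x * u x = ∫ x : E n, w γ x * sm u ‖x‖ := by
  have c1 := contDiff_nr hu hc
  have c2 := hasCompactSupport_nr hc
  have c3 := contDiff_rad hu hc
  have c4 := hasCompactSupport_rad hc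
  have i0 : Integrable fun x => w γ x * nr u x := by
    apply Continuous.integrable_of_hasCompactSupport
    · exact (continuous_w γ).mul c1.continuous
    · exact c2.mul_left
  have i1 : Integrable fun x : E n => w γ x * sm u ‖x‖ := by
    apply Continuous.integrable_of_hasCompactSupport
    · exact (continuous_w γ).mul c3.continuous
    · exact c4.mul_left
  have h0 : ∫ x, w γ x * nr u x = 0 := by
    refine int_zero i0 fun r hr => ?_
    have h1 : ∀ θ : sphere (0 : E n) 1, w γ (r • (θ : E n)) * nr u (r • (θ : E n)) =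
        (1 + r ^ 2) ^ γ * nr u (r • (θ : E n)) := by
      intro θ
      unfold w
      rw [norm_smul, norm_sph, mul_one, Real.norm_eq_abs, abs_of_pos hr]
    simp only [h1]
    rw [integral_const_mul, sph_nr hu hr, mul_zero]
  have e : ∀ x, w γ x * u x = w γ x * nr u x + w γ x * sm u ‖x‖ := by
    intro x
    unfold nr rad
    ring
  simp only [e]
  rw [integral_add i0 i1, h0, zero_add]

lemma nonradial {b : ℝ} (hb : 0 < b) (hu : ContDiff ℝ 1 u) (hc : HasCompactSupport u) :
    2 * b * (∫ x, w (-b - 1) x * nr u x ^ 2) ≤ ∫ x, w (-b) x * ‖fderiv ℝ (nr u) x‖ ^ 2 := by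
  have c1 := contDiff_nr hu hc
  have c2 := hasCompactSupport_nr hc
  refine gauss_mix hb c1 c2 fun s _ => ?_
  have i0 : Integrable fun x => nr u x * Real.exp (-s * ‖x‖ ^ 2) := by
    apply Continuous.integrable_of_hasCompactSupport
    · exact c1.continuous.mul (by fun_prop)
    · exact c2.mul_right
  refine int_zero i0 fun r hr => ?_
  have h1 : ∀ θ : sphere (0 : E n) 1, nr u (r • (θ : E n)) *
      Real.exp (-s * ‖r • (θ : E n)‖ ^ 2) = Real.exp (-s * r ^ 2) * nr u (r • (θ : E n)) := by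
    intro θ
    rw [norm_smul, norm_sph, mul_one, Real.norm_eq_abs, abs_of_pos hr, mul_comm]
  simp only [h1]
  rw [integral_const_mul, sph_nr hu hr, mul_zero]

/-- Reduction to radial functions. -/
theorem reduce {b lam : ℝ} (hb : 0 < b) (hl : lam ≤ 2 * b) (hu : ContDiff ℝ 1 u)
    (hc : HasCompactSupport u)
    (hrad : lam * (∫ x : E n, w (-b - 1) x * sm u ‖x‖ ^ 2) ≤ ∫ x : E n, w (-b) x * sm' u ‖x‖ ^ 2) :
    lam * Nm (-b) u ≤ En (-b) u := by
  unfold Nm En
  rw [mass_split hu hc, energy_split hu hc, mul_add]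
  have h1 := nonradial hb hu hc
  have h2 : 0 ≤ ∫ x, w (-b - 1) x * nr u x ^ 2 :=
    integral_nonneg fun x => mul_nonneg (w_pos _ x).le (sq_nonneg _)
  have h3 := mul_le_mul_of_nonneg_right hl h2
  linarith

end Q81.Har
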