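import Mathlib
import Pool.Agent.Q81.Har7

/-!
# The radial weighted Poincaré inequality
-/

namespace Q81.Har

open MeasureTheory Set Filter Topology Metric

variable {n : ℕ}

/-- `r ^ (n - 1) (1 + r²) ^ (- a)` -/
noncomputable def mr (n : ℕ) (a r : ℝ) : ℝ := r ^ (n - 1) * (1 + r ^ 2) ^ (-a)

lemma continuous_jap (a : ℝ) : Continuous fun r : ℝ => (1 + r ^ 2) ^ a := by
  refine Continuous.rpow_const (by fun_prop) fun r => Or.inl ?_
  positivity

lemma continuous_mr (n : ℕ) (a : ℝ) : Continuous (mr n a) :=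
  (continuous_pow _).mul (continuous_jap _)

lemma mr_nonneg {a r : ℝ} (hr : 0 ≤ r) : 0 ≤ mr n a r := by
  unfold mr; positivity

lemma integrableOn_mr [Nontrivial (E n)] {a : ℝ} (ha : (n : ℝ) < 2 * a) :
    IntegrableOn (mr n a) (Ioi 0) := by
  have h1 : Integrable (fun x : E n => (1 + ‖x‖ ^ 2) ^ (-(2 * a) / 2)) := by
    apply integrable_rpow_neg_one_add_norm_sq
    rw [finrank_euclideanSpace_fin]
    exact ha
  have h2 := (integrable_fun_norm_addHaar (volume : Measure (E n))
    (f := fun y : ℝ => (1 + y ^ 2) ^ (-(2 * a) / 2))).1 h1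
  rw [finrank_euclideanSpace_fin] at h2
  refine h2.congr_fun (fun r _ => ?_) measurableSet_Ioi
  unfold mr
  simp only [smul_eq_mul]
  congr 2
  ring

/-- the flux -/
noncomputable def Gr (n : ℕ) (k r : ℝ) : ℝ := r ^ n * (1 + r ^ 2) ^ (-k)

lemma continuous_Gr (n : ℕ) (k : ℝ) : Continuous (Gr n k) :=
  (continuous_pow _).mul (continuous_jap _)

lemma hasDerivAt_jap (a r : ℝ) :
    HasDerivAt (fun r : ℝ => (1 + r ^ 2) ^ a) (2 * a * r * (1 + r ^ 2) ^ (a - 1)) r := by
  have h1 : HasDerivAt (fun r : ℝ => 1 + r ^ 2) (2 * r) r := by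
    simpa using (hasDerivAt_pow 2 r).const_add 1
  have h2 := h1.rpow_const (p := a) (Or.inl (by positivity))
  refine h2.congr_deriv ?_
  ring

/-- `q m`, where `q = (2k - n) (1 + r²)^(b - k + 1) - 2 k (1 + r²) ^ (b - k)`. -/
lemma hasDerivAt_Gr (hn : 1 ≤ n) (k r : ℝ) :
    HasDerivAt (Gr n k) (-((2 * k - n) * mr n k r - 2 * k * mr n (k + 1) r)) r := by
  have h1 := (hasDerivAt_pow n r).mul (hasDerivAt_jap (-k) r)
  refine h1.congr_deriv ?_
  obtain ⟨m, rfl⟩ : ∃ m, n = m + 1 := ⟨n - 1, by omega⟩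
  unfold mr
  have e1 : (1 + r ^ 2) ^ (-k) = (1 + r ^ 2) ^ (-k - 1) * (1 + r ^ 2) := by
    rw [← Real.rpow_add_one (by positivity)]; congr 1; ring
  have e2 : -(k + 1) = -k - 1 := by ring
  rw [e2, e1]
  simp only [Nat.add_sub_cancel]
  push_cast
  ring

lemma tendsto_jap {a : ℝ} (ha : 0 < a) :
    Tendsto (fun r : ℝ => (1 + r ^ 2) ^ (-a)) atTop (𝓝 0) := by
  have h1 : Tendsto (fun r : ℝ => 1 + r ^ 2) atTop atTop :=
    tendsto_atTop_add_const_left _ _ (tendsto_pow_atTop two_ne_zero)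
  exact (tendsto_rpow_neg_atTop ha).comp h1

lemma tendsto_Gr {k : ℝ} (hk : (n : ℝ) < 2 * k) : Tendsto (Gr n k) atTop (𝓝 0) := by
  have h1 : Tendsto (fun r : ℝ => (1 + r ^ 2) ^ (-(k - n / 2))) atTop (𝓝 0) :=
    tendsto_jap (by linarith)
  refine squeeze_zero' ?_ ?_ h1
  · filter_upwards [eventually_ge_atTop 0] with r hr
    unfold Gr; positivity
  · filter_upwards [eventually_ge_atTop 0] with r hr
    unfold Gr
    have e1 : r ^ n ≤ (1 + r ^ 2) ^ ((n : ℝ) / 2) := by
      have h2 : r ^ n = (r ^ 2) ^ ((n : ℝ) / 2) := by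
        rw [← Real.rpow_natCast, ← Real.rpow_natCast, ← Real.rpow_mul hr]
        congr 1
        push_cast
        ring
      rw [h2]
      exact Real.rpow_le_rpow (by positivity) (by linarith) (by positivity)
    calc r ^ n * (1 + r ^ 2) ^ (-k) ≤ (1 + r ^ 2) ^ ((n : ℝ) / 2) * (1 + r ^ 2) ^ (-k) := by
          gcongr
      _ = (1 + r ^ 2) ^ (-(k - n / 2)) := by
          rw [← Real.rpow_add (by positivity)]
          congr 1
          ring

/-- The one-dimensional radial inequality. -/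
lemma radial_one [Nontrivial (E n)] {b k : ℝ} (hn : 1 ≤ n) (hb : 0 < b) (hbk : b ≤ k)
    (hkb : k < b + 1) (hnk : (n : ℝ) < 2 * k) {f f' : ℝ → ℝ} (hf : ∀ t, HasDerivAt f (f' t) t)
    (hf' : Continuous f') (hc : HasCompactSupport f) (h0 : ∫ r in Ioi 0, f r * mr n (b + 1) r = 0) :
    2 * (2 * k - n) * (b - k + 1) * (∫ r in Ioi 0, f r ^ 2 * mr n (b + 1) r) ≤
      ∫ r in Ioi 0, f' r ^ 2 * mr n b r := by
  have hIm : MeasurableSet (Ioi (0 : ℝ)) := measurableSet_Ioi
  have hfc : Continuous f := continuous_iff_continuousAt.2 fun t => (hf t).continuousAt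
  have hmm : Measurable (mr n (b + 1)) := (continuous_mr _ _).measurable
  have hm0 : ∀ t ∈ Ioi (0 : ℝ), 0 ≤ mr n (b + 1) t := fun t ht => mr_nonneg (le_of_lt ht)
  have hmi : IntegrableOn (mr n (b + 1)) (Ioi 0) := integrableOn_mr (by linarith)
  have hki : IntegrableOn (mr n k) (Ioi 0) := integrableOn_mr hnk
  have hki1 : IntegrableOn (mr n (k + 1)) (Ioi 0) := integrableOn_mr (by linarith)
  have hcc : HasCompactSupport f' := by
    have : f' = deriv f := funext fun t => (hf t).deriv.symm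
    rw [this]
    exact hc.deriv
  obtain ⟨K, hK⟩ := hc.exists_bound_of_continuous hfc
  have hlam : 0 < 2 * (2 * k - n) * (b - k + 1) := by
    have h1 : 0 < 2 * k - n := by linarith
    have h2 : 0 < b - k + 1 := by linarith
    positivity
  have hfin : IsFiniteMeasure (dm (Ioi 0) (mr n (b + 1))) := finite_dm hmi
  set q : ℝ → ℝ := fun r => (2 * k - n) * (1 + r ^ 2) ^ (b - k + 1) - 2 * k * (1 + r ^ 2) ^ (b - k)
    with hq
  set φ : ℝ → ℝ := fun r => (1 + r ^ 2) ^ (b - k + 1) / (2 * (b - k + 1)) with hφ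
  set φ' : ℝ → ℝ := fun r => r * (1 + r ^ 2) ^ (b - k) with hφ'
  have hbk1 : 0 < b - k + 1 := by linarith
  have hqm : ∀ r : ℝ, q r * mr n (b + 1) r = (2 * k - n) * mr n k r - 2 * k * mr n (k + 1) r := by
    intro r
    have hp : (0 : ℝ) < 1 + r ^ 2 := by positivity
    simp only [hq, mr]
    have e1 : (1 + r ^ 2) ^ (-k) = (1 + r ^ 2) ^ (b - k + 1) * (1 + r ^ 2) ^ (-(b + 1)) := by
      rw [← Real.rpow_add hp]; congr 1; ring
    have e2 : (1 + r ^ 2) ^ (-(k + 1)) = (1 + r ^ 2) ^ (b - k) * (1 + r ^ 2) ^ (-(b + 1)) := by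
      rw [← Real.rpow_add hp]; congr 1; ring
    rw [e1, e2]
    ring
  have hφm : ∀ r : ℝ, φ r * mr n (b + 1) r = mr n k r / (2 * (b - k + 1)) := by
    intro r
    have hp : (0 : ℝ) < 1 + r ^ 2 := by positivity
    simp only [hφ, mr]
    have e1 : (1 + r ^ 2) ^ (-k) = (1 + r ^ 2) ^ (b - k + 1) * (1 + r ^ 2) ^ (-(b + 1)) := by
      rw [← Real.rpow_add hp]; congr 1; ring
    rw [e1]
    ring
  have hqmi : IntegrableOn (fun r => q r * mr n (b + 1) r) (Ioi 0) := by
    simp only [hqm]
    exact (hki.const_mul _).sub (hki1.const_mul _)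
  have hflux : ∀ t : ℝ, 0 ≤ t → ∫ r in Ioi t, q r * mr n (b + 1) r = Gr n k t := by
    intro t ht
    have h := integral_Ioi_of_hasDerivAt_of_tendsto (a := t) (f := fun r => -Gr n k r)
      (f' := fun r => q r * mr n (b + 1) r) (m := -0)
      (continuous_Gr n k).neg.continuousWithinAt
      (fun r _ => by
        have := (hasDerivAt_Gr hn k r).neg
        rw [neg_neg, ← hqm] at this
        exact this)
      (hqmi.mono_set (Ioi_subset_Ioi ht)) (tendsto_Gr hnk).neg
    rw [h]
    ring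
  have h := weighted_poincare (I := Ioi 0) (μ := dm (Ioi 0) (mr n (b + 1))) (f := f) (f' := f')
    (φ := φ) (φ' := φ') (q := q) (W := mr n b) hlam hIm ordConnected_Ioi (ae_dm hIm)
    (fun t _ => hf t)
    (by
      intro t _
      have h1 := (hasDerivAt_jap (b - k + 1) t).div_const (2 * (b - k + 1))
      refine h1.congr_deriv ?_
      rw [show b - k + 1 - 1 = b - k by ring]
      simp only [hφ']
      field_simp)
    hf'.continuousOn (continuous_id.mul (continuous_jap _)).continuousOn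
    (by
      intro t ht
      have ht' : 0 < t := ht
      simp only [hφ']
      positivity)
    ((continuous_jap _).div_const _).measurable hf'.measurable
    (continuous_id.mul (continuous_jap _)).measurable
    (integrable_dm hIm hmm hm0 (by
      simp only [hφm]
      exact hki.div_const _))
    (integrable_dm hIm hmm hm0 hqmi)
    (by
      rw [integral_dm hIm hmm hm0, hflux 0 le_rfl]
      unfold Gr
      rw [zero_pow (by omega), zero_mul])
    (by
      have e : ∀ t : ℝ, q t - 2 * (2 * k - n) * (b - k + 1) * φ t =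
          -(2 * k * (1 + t ^ 2) ^ (b - k)) := by
        intro t
        simp only [hq, hφ]
        field_simp
        ring
      simp only [e]
      intro x hx y hy hxy
      have hx' : 0 < x := hx
      have hy' : 0 < y := hy
      have hsq : x ^ 2 ≤ y ^ 2 := pow_le_pow_left₀ hx'.le hxy 2
      have h1 : (1 + y ^ 2) ^ (b - k) ≤ (1 + x ^ 2) ^ (b - k) :=
        Real.rpow_le_rpow_of_nonpos (by positivity) (by linarith) (by linarith)
      have hk0 : 0 < 2 * k := by linarith
      have := mul_le_mul_of_nonneg_left h1 hk0.le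
      simp only
      linarith)
    (integrable_dm hIm hmm hm0 (hmi.bdd_mul (c := K) hfc.aestronglyMeasurable (ae_of_all _ hK)))
    (integrable_dm hIm hmm hm0 (hmi.bdd_mul (c := K ^ 2) (hfc.pow 2).aestronglyMeasurable
      (ae_of_all _ fun x => by
        rw [norm_pow]; exact pow_le_pow_left₀ (norm_nonneg _) (hK x) 2)))
    (by
      intro t ht
      have ht' : 0 < t := ht
      rw [setIntegral_dm hIm hmm hm0 measurableSet_Ioi, inter_eq_left.2 (Ioi_subset_Ioi ht'.le),
        hflux t ht'.le]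
      simp only [hφ', Gr, mr]
      have e1 : (1 + t ^ 2) ^ (-k) = (1 + t ^ 2) ^ (-b) * (1 + t ^ 2) ^ (b - k) := by
        rw [← Real.rpow_add (by positivity)]; congr 1; ring
      obtain ⟨m, rfl⟩ : ∃ m, n = m + 1 := ⟨n - 1, by omega⟩
      rw [e1, Nat.add_sub_cancel, pow_succ]
      ring)
    (by
      have hcont : Continuous fun t => f' t ^ 2 * mr n b t := (hf'.pow 2).mul (continuous_mr _ _)
      have : HasCompactSupport fun t => f' t ^ 2 * mr n b t :=
        (hcc.comp_left (g := fun t : ℝ => t ^ 2) (by simp)).mul_right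
      exact (hcont.integrable_of_hasCompactSupport this).integrableOn)
    (fun t ht => mr_nonneg (le_of_lt ht))
  rw [real_univ_dm hIm hmm hm0, integral_dm hIm hmm hm0, integral_dm hIm hmm hm0, h0] at h
  have hZ : 0 < ∫ t in Ioi 0, mr n (b + 1) t := by
    rw [setIntegral_pos_iff_support_of_nonneg_ae]
    · have : Ioi (0 : ℝ) ⊆ Function.support (mr n (b + 1)) ∩ Ioi 0 := by
        intro t ht
        have ht' : 0 < t := ht
        refine ⟨?_, ht⟩
        rw [Function.mem_support]
        unfold mr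
        positivity
      exact lt_of_lt_of_le (by simp) (measure_mono this)
    · rw [Filter.EventuallyLE, ae_restrict_iff' hIm]
      exact ae_of_all _ fun t ht => hm0 t ht
    · exact hmi
  set Z := ∫ t in Ioi 0, mr n (b + 1) t
  set lam := 2 * (2 * k - n) * (b - k + 1)
  have h1 : Z * (lam * ∫ r in Ioi 0, f r ^ 2 * mr n (b + 1) r) ≤
      Z * ∫ r in Ioi 0, f' r ^ 2 * mr n b r := by
    have h2 := mul_le_mul_of_nonneg_left h hlam.le
    have h3 : lam * (Z / lam * ∫ t in Ioi 0, f' t ^ 2 * mr n b t) =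
        Z * ∫ t in Ioi 0, f' t ^ 2 * mr n b t := by
      field_simp
    rw [h3] at h2
    linarith
  exact le_of_mul_le_mul_left h1 hZ

/-- The lower bound for functions with mean zero. -/
theorem lower_mean [Nontrivial (E n)] {b k : ℝ} (hn : 1 ≤ n) (hb : 0 < b) (hbk : b ≤ k)
    (hkb : k < b + 1) (hnk : (n : ℝ) < 2 * k) {u : E n → ℝ} (hu : ContDiff ℝ 1 u)
    (hc : HasCompactSupport u) (h0 : ∫ x, w (-b - 1) x * u x = 0) {lam : ℝ}
    (hl : lam ≤ 2 * b) (hl2 : lam ≤ 2 * (2 * k - n) * (b - k + 1)) :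
    lam * Nm (-b) u ≤ En (-b) u := by
  have hpolar : ∀ (a : ℝ) (g : ℝ → ℝ), ∫ x : E n, w (-a) x * g ‖x‖ =
      (n * (volume : Measure (E n)).real (ball 0 1)) * ∫ r in Ioi 0, g r * mr n a r := by
    intro a g
    have h := integral_fun_norm_addHaar (volume : Measure (E n))
      (fun y : ℝ => (1 + y ^ 2) ^ (-a) * g y)
    rw [finrank_euclideanSpace_fin] at h
    unfold w
    rw [h]
    simp only [smul_eq_mul, nsmul_eq_mul, mr]
    rw [mul_assoc]
    congr 2
    refine integral_congr_ae (ae_of_all _ fun r => ?_)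
    simp only
    ring
  have hcn : 0 < n * (volume : Measure (E n)).real (ball 0 1) := by
    have h1 : (0 : ℝ) < n := by exact_mod_cast hn
    have h2 : 0 < (volume : Measure (E n)).real (ball 0 1) := by
      rw [Measure.real, ENNReal.toReal_pos_iff]
      exact ⟨measure_ball_pos _ _ one_pos, measure_ball_lt_top⟩
    positivity
  refine reduce hb hl hu hc ?_
  rw [mean_split hu hc] at h0
  have e1 : -b - 1 = -(b + 1) := by ring
  rw [e1] at h0 ⊢
  rw [hpolar (b + 1) (sm u)] at h0
  rw [hpolar (b + 1) (fun r => sm u r ^ 2), hpolar b (fun r => sm' u r ^ 2)]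
  have h0' : ∫ r in Ioi 0, sm u r * mr n (b + 1) r = 0 := by
    rcases mul_eq_zero.1 h0 with h | h
    · exact absurd h hcn.ne'
    · exact h
  have hcs : HasCompactSupport (sm u) := by
    obtain ⟨R, -, hR⟩ := sm_eq_zero hc
    refine HasCompactSupport.intro (isCompact_closedBall (0 : ℝ) R) fun x hx => ?_
    apply hR
    rwa [mem_closedBall_zero_iff, not_le, Real.norm_eq_abs] at hx
  have h1 := radial_one hn hb hbk hkb hnk (hasDerivAt_sm hu hc) (continuous_sm' hu hc) hcs h0'
  have h2 : 0 ≤ ∫ r in Ioi 0, sm u r ^ 2 * mr n (b + 1) r :=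
    setIntegral_nonneg measurableSet_Ioi fun r hr => mul_nonneg (sq_nonneg _)
      (mr_nonneg (le_of_lt hr))
  have h3 := mul_le_mul_of_nonneg_right hl2 h2
  have h4 := mul_le_mul_of_nonneg_left (h3.trans h1) hcn.le
  linarith

end Q81.Har
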