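import Mathlib
import Pool.Agent.Q81.Har8

/-!
# Ground state representation and test functions
-/

namespace Q81.Har

open MeasureTheory Set Filter Topology Metric
open scoped ContDiff RealInnerProductSpace

variable {n : ℕ}

/-- `φ` solves `- div (w_α ∇φ) = w_{α-1} V φ` weakly; `g` is the gradient of `φ`. -/
structure Sol (α : ℝ) (φ V : E n → ℝ) (g : E n → E n) : Prop where
  cφ : ContDiff ℝ ∞ φ
  cg : Continuous g
  cV : Continuous V
  grad : ∀ x, HasFDerivAt φ (innerSL ℝ (g x)) x
  weak : ∀ ζ : E n → ℝ, ContDiff ℝ 1 ζ → HasCompactSupport ζ →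
    ∫ x, w α x * fderiv ℝ ζ x (g x) = ∫ x, w (α - 1) x * (V x * φ x * ζ x)

lemma hcs_clm {F : E n → E n →L[ℝ] ℝ} (hF : HasCompactSupport F) (g : E n → E n) :
    HasCompactSupport fun x => F x (g x) := by
  apply hF.mono
  intro x hx
  contrapose! hx
  simp only [Function.mem_support, not_not] at hx ⊢
  rw [hx]; simp

/-- Ground state representation. -/
lemma Sol.energy {α : ℝ} {φ V : E n → ℝ} {g : E n → E n} (h : Sol α φ V g) {v : E n → ℝ}
    (hv : ContDiff ℝ 1 v) (hc : HasCompactSupport v) :
    En α (fun x => φ x * v x) = (∫ x, w (α - 1) x * (V x * (φ x * v x) ^ 2)) +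
      ∫ x, w α x * (φ x ^ 2 * ‖fderiv ℝ v x‖ ^ 2) := by
  have hφ1 : ContDiff ℝ 1 φ := h.cφ.of_le (by exact_mod_cast le_top)
  set ζ : E n → ℝ := fun x => φ x * v x ^ 2 with hζ
  have hζ1 : ContDiff ℝ 1 ζ := hφ1.mul (hv.pow 2)
  have hζc : HasCompactSupport ζ := (hc.comp_left (g := fun t : ℝ => t ^ 2) (by simp)).mul_left
  have hw := h.weak ζ hζ1 hζc
  have hDζ : ∀ x, fderiv ℝ ζ x (g x) = v x ^ 2 * ‖g x‖ ^ 2 +
      2 * (φ x * v x) * fderiv ℝ v x (g x) := by
    intro x
    have h1 : HasFDerivAt ζ _ x :=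
      (h.grad x).mul (((hv.differentiable one_ne_zero) x).hasFDerivAt.pow 2)
    rw [h1.fderiv]
    simp only [add_apply, smul_apply, smul_eq_mul, innerSL_apply_apply, real_inner_self_eq_norm_sq,
      nsmul_eq_mul]
    push_cast
    ring
  have hD : ∀ x, ‖fderiv ℝ (fun x => φ x * v x) x‖ ^ 2 = fderiv ℝ ζ x (g x) +
      φ x ^ 2 * ‖fderiv ℝ v x‖ ^ 2 := by
    intro x
    have h1 : HasFDerivAt (fun x => φ x * v x) (φ x • fderiv ℝ v x + v x • innerSL ℝ (g x)) x :=
      (h.grad x).mul ((hv.differentiable one_ne_zero) x).hasFDerivAt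
    have h2 : v x • innerSL ℝ (g x) = innerSL ℝ (v x • g x) := by
      rw [map_smul]
    rw [h1.fderiv, h2, norm_add_sq_dual, hDζ, norm_smul, norm_smul, mul_pow, mul_pow,
      Real.norm_eq_abs, Real.norm_eq_abs, sq_abs, sq_abs]
    simp only [smul_apply, smul_eq_mul, map_smul]
    ring
  have i1 : Integrable fun x => w α x * fderiv ℝ ζ x (g x) := by
    apply Continuous.integrable_of_hasCompactSupport
    · exact (continuous_w α).mul ((hζ1.continuous_fderiv one_ne_zero).clm_apply h.cg)
    · exact (hcs_clm (hζc.fderiv ℝ) g).mul_left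
  have i2 : Integrable fun x => w α x * (φ x ^ 2 * ‖fderiv ℝ v x‖ ^ 2) := by
    apply Continuous.integrable_of_hasCompactSupport
    · exact (continuous_w α).mul ((hφ1.continuous.pow 2).mul
        ((hv.continuous_fderiv one_ne_zero).norm.pow 2))
    · apply HasCompactSupport.mul_left
      apply HasCompactSupport.mul_left
      exact (hc.fderiv ℝ).comp_left (g := fun L : E n →L[ℝ] ℝ => ‖L‖ ^ 2) (by simp)
  unfold En
  simp only [hD, mul_add]
  rw [integral_add i1 i2, hw]
  congr 1
  refine integral_congr_ae (ae_of_all _ fun x => ?_)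
  simp only [hζ]
  ring

/-- The power solution. -/
lemma sol_pow (α b : ℝ) : Sol (n := n) α (w (-b))
    (fun x => 2 * b * n + 4 * b * (α - 1 - b) * (‖x‖ ^ 2 / (1 + ‖x‖ ^ 2)))
    (fun x => (-2 * b * w (-b - 1) x) • x) where
  cφ := contDiff_w _
  cg := (continuous_const.mul (continuous_w _)).smul continuous_id
  cV := by
    refine continuous_const.add (continuous_const.mul ?_)
    exact (continuous_norm.pow 2).div (continuous_const.add (continuous_norm.pow 2))
      fun x => (one_add_pos x).ne'
  grad := by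
    intro x
    refine (hasFDerivAt_w (-b) x).congr_fderiv ?_
    rw [map_smul]
    congr 1
    ring
  weak := by
    intro ζ h1 hc
    have h := euler_w h1 hc (α - b - 1)
    have e1 : ∀ x : E n, w α x * fderiv ℝ ζ x ((-2 * b * w (-b - 1) x) • x) =
        -2 * b * (w (α - b - 1) x * fderiv ℝ ζ x x) := by
      intro x
      rw [map_smul, smul_eq_mul, show α - b - 1 = α + (-b - 1) by ring, w_add]
      ring
    simp only [e1]
    rw [integral_const_mul, h, ← integral_neg, ← integral_const_mul]
    refine integral_congr_ae (ae_of_all _ fun x => ?_)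
    have hp := (one_add_pos x).ne'
    have e2 : w (α - b - 1) x = w (α - b - 1 - 1) x * (1 + ‖x‖ ^ 2) := w_sub_one _ x
    have e3 : w (α - 1) x * w (-b) x = w (α - b - 1) x := by
      rw [← w_add]; congr 1; ring
    simp only
    have e4 : w (α - 1) x * ((2 * b * n + 4 * b * (α - 1 - b) * (‖x‖ ^ 2 / (1 + ‖x‖ ^ 2))) *
        w (-b) x * ζ x) = w (α - b - 1) x * ((2 * b * n +
          4 * b * (α - 1 - b) * (‖x‖ ^ 2 / (1 + ‖x‖ ^ 2))) * ζ x) := by
      rw [← e3]; ring
    rw [e4, e2]
    field_simp
    ring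

/-- The quadratic solution. -/
lemma sol_quad {α : ℝ} (hα : 2 * α + n ≠ 0) :
    Sol (n := n) α (fun x => ‖x‖ ^ 2 - n / (-2 * α - n)) (fun _ => -4 * α - 2 * n)
      (fun x => (2 : ℝ) • x) where
  cφ := (contDiff_norm_sq ℝ).sub contDiff_const
  cg := continuous_const_smul 2
  cV := continuous_const
  grad := by
    intro x
    have h1 := ((hasStrictFDerivAt_norm_sq x).hasFDerivAt).sub_const (n / (-2 * α - n))
    refine h1.congr_fderiv ?_
    rw [map_smul]
    ext v
    simp
  weak := by
    intro ζ h1 hc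
    have h := euler_w h1 hc α
    have e1 : ∀ x : E n, w α x * fderiv ℝ ζ x ((2 : ℝ) • x) = 2 * (w α x * fderiv ℝ ζ x x) := by
      intro x
      rw [map_smul, smul_eq_mul]
      ring
    simp only [e1]
    rw [integral_const_mul, h, ← integral_neg, ← integral_const_mul]
    refine integral_congr_ae (ae_of_all _ fun x => ?_)
    have e2 : w α x = w (α - 1) x * (1 + ‖x‖ ^ 2) := w_sub_one _ x
    simp only
    rw [e2]
    have h3 : -2 * α - n ≠ 0 := by
      intro h3
      apply hα
      linarith
    have h4 : (-4 * α - 2 * n) * (‖x‖ ^ 2 - n / (-2 * α - n)) =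
        (-4 * α - 2 * n) * ‖x‖ ^ 2 - 2 * n := by
      have : (-4 * α - 2 * n) * (n / (-2 * α - n)) = 2 * n := by
        rw [show -4 * α - 2 * (n : ℝ) = 2 * (-2 * α - n) by ring, mul_assoc, mul_div_assoc',
          mul_div_cancel_left₀ _ h3]
      rw [mul_sub, this]
    rw [h4]
    ring

/-- The linear solution. -/
lemma sol_lin (α : ℝ) (e : E n) :
    Sol (n := n) α (fun x => ⟪e, x⟫) (fun _ => -2 * α) (fun _ => e) where
  cφ := contDiff_const.inner ℝ contDiff_id
  cg := continuous_const
  cV := continuous_const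
  grad := by
    intro x
    have : (fun x => ⟪e, x⟫) = fun x => innerSL ℝ e x := by
      funext x; rw [innerSL_apply_apply]
    rw [this]
    exact (innerSL ℝ e).hasFDerivAt
  weak := by
    intro ζ h1 hc
    have hw1 : ContDiff ℝ 1 (w (n := n) α) := contDiff_w α
    have hw2 : ∀ x : E n, fderiv ℝ (w α) x e = 2 * α * w (α - 1) x * ⟪x, e⟫ := by
      intro x
      rw [(hasFDerivAt_w α x).fderiv, smul_apply, innerSL_apply_apply, smul_eq_mul]
    have hcont : Continuous fun x : E n => fderiv ℝ (w α) x e :=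
      (hw1.continuous_fderiv one_ne_zero).clm_apply continuous_const
    rw [integral_mul_fderiv_eq_neg_fderiv_mul_of_integrable]
    · rw [← integral_neg]
      refine integral_congr_ae (ae_of_all _ fun x => ?_)
      simp only
      rw [hw2, real_inner_comm]
      ring
    · exact (hcont.mul h1.continuous).integrable_of_hasCompactSupport hc.mul_left
    · exact ((continuous_w α).mul ((h1.continuous_fderiv one_ne_zero).clm_apply
        continuous_const)).integrable_of_hasCompactSupport (hcs_clm (hc.fderiv ℝ) _).mul_left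
    · exact ((continuous_w α).mul h1.continuous).integrable_of_hasCompactSupport hc.mul_left
    · exact fun x _ => (hw1.differentiable one_ne_zero) x
    · exact fun x _ => (h1.differentiable one_ne_zero) x

end Q81.Har
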