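import Mathlib
import Pool.Agent.Q81.Har9

/-!
# Truncations of eigenfunctions
-/

namespace Q81.Har

open MeasureTheory Set Filter Topology Metric
open scoped ContDiff RealInnerProductSpace

variable {n : ℕ}

/-- a bump function -/
noncomputable def chi (n : ℕ) : ContDiffBump (0 : E n) := ⟨1, 2, one_pos, one_lt_two⟩

/-- the cutoff at scale `ρ` -/
noncomputable def cut (n : ℕ) (ρ : ℝ) (x : E n) : ℝ := chi n (ρ⁻¹ • x)

lemma contDiff_cut (ρ : ℝ) {k : ℕ∞} : ContDiff ℝ k (cut n ρ) :=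
  (chi n).contDiff.comp (contDiff_const_smul _)

lemma cut_one {ρ : ℝ} (hρ : 0 < ρ) {x : E n} (hx : ‖x‖ ≤ ρ) : cut n ρ x = 1 := by
  unfold cut
  apply (chi n).one_of_mem_closedBall
  rw [mem_closedBall_zero_iff, norm_smul, norm_inv, Real.norm_eq_abs, abs_of_pos hρ]
  show ρ⁻¹ * ‖x‖ ≤ 1
  rw [inv_mul_le_iff₀ hρ]
  linarith

lemma cut_zero {ρ : ℝ} (hρ : 0 < ρ) {x : E n} (hx : 2 * ρ ≤ ‖x‖) : cut n ρ x = 0 := by
  unfold cut
  apply (chi n).zero_of_le_dist
  rw [dist_zero_right, norm_smul, norm_inv, Real.norm_eq_abs, abs_of_pos hρ]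
  show 2 ≤ ρ⁻¹ * ‖x‖
  rw [le_inv_mul_iff₀ hρ]
  linarith

lemma cut_even {ρ : ℝ} (x : E n) : cut n ρ (-x) = cut n ρ x := by
  unfold cut
  rw [smul_neg, (chi n).neg]

lemma hasCompactSupport_cut {ρ : ℝ} (hρ : 0 < ρ) : HasCompactSupport (cut n ρ) := by
  refine HasCompactSupport.intro (isCompact_closedBall (0 : E n) (2 * ρ)) fun x hx => ?_
  rw [mem_closedBall_zero_iff, not_le] at hx
  exact cut_zero hρ hx.le

lemma fderiv_cut_zero {ρ : ℝ} (hρ : 0 < ρ) {x : E n} (hx : ‖x‖ < ρ) : fderiv ℝ (cut n ρ) x = 0 := by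
  have h : cut n ρ =ᶠ[𝓝 x] fun _ => 1 := by
    have : ball (0 : E n) ρ ∈ 𝓝 x := isOpen_ball.mem_nhds (by rwa [mem_ball_zero_iff])
    filter_upwards [this] with y hy
    rw [mem_ball_zero_iff] at hy
    exact cut_one hρ hy.le
  rw [h.fderiv_eq, fderiv_fun_const]
  rfl

lemma fderiv_cut_zero' {ρ : ℝ} (hρ : 0 < ρ) {x : E n} (hx : 2 * ρ < ‖x‖) :
    fderiv ℝ (cut n ρ) x = 0 := by
  have h : cut n ρ =ᶠ[𝓝 x] fun _ => 0 := by
    have : (closedBall (0 : E n) (2 * ρ))ᶜ ∈ 𝓝 x :=
      isClosed_closedBall.isOpen_compl.mem_nhds (by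
        rw [mem_compl_iff, mem_closedBall_zero_iff, not_le]; exact hx)
    filter_upwards [this] with y hy
    rw [mem_compl_iff, mem_closedBall_zero_iff, not_le] at hy
    exact cut_zero hρ hy.le
  rw [h.fderiv_eq, fderiv_fun_const]
  rfl

/-- the derivative of the cutoff -/
lemma exists_cut_bound (n : ℕ) : ∃ C : ℝ, 0 ≤ C ∧ ∀ ρ : ℝ, 0 < ρ → ∀ x : E n,
    ‖fderiv ℝ (cut n ρ) x‖ ≤ C * ρ⁻¹ := by
  have h1 : ContDiff ℝ 1 (chi n) := (chi n).contDiff (n := 1)
  obtain ⟨C, hC⟩ := ((chi n).hasCompactSupport.fderiv ℝ).exists_bound_of_continuous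
    (h1.continuous_fderiv one_ne_zero)
  refine ⟨C, (norm_nonneg _).trans (hC 0), fun ρ hρ x => ?_⟩
  have h2 : HasFDerivAt (cut n ρ) ((fderiv ℝ (chi n) (ρ⁻¹ • x)).comp
      (ρ⁻¹ • ContinuousLinearMap.id ℝ (E n))) x :=
    ((h1.differentiable one_ne_zero) _).hasFDerivAt.comp x ((hasFDerivAt_id x).const_smul ρ⁻¹)
  rw [h2.fderiv]
  refine (ContinuousLinearMap.opNorm_comp_le _ _).trans ?_
  have h3 : ‖ρ⁻¹ • ContinuousLinearMap.id ℝ (E n)‖ ≤ ρ⁻¹ := by
    rw [norm_smul, norm_inv, Real.norm_eq_abs, abs_of_pos hρ]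
    have := ContinuousLinearMap.norm_id_le (𝕜 := ℝ) (E := E n)
    have h4 : 0 < ρ⁻¹ := inv_pos.2 hρ
    nlinarith
  exact mul_le_mul (hC _) h3 (norm_nonneg _) ((norm_nonneg _).trans (hC 0))

/-- tails of integrable functions -/
lemma tail_tendsto {F : E n → ℝ} (hF : Integrable F) :
    Tendsto (fun k : ℕ => ∫ x in {x : E n | (k + 1 : ℝ) ≤ ‖x‖}, F x) atTop (𝓝 0) := by
  have h := tendsto_setIntegral_of_antitone (μ := volume) (f := F)
    (s := fun k : ℕ => {x : E n | (k + 1 : ℝ) ≤ ‖x‖})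
    (fun k => (isClosed_le continuous_const continuous_norm).measurableSet)
    (fun i j hij x hx => by
      have h1 : (i : ℝ) ≤ j := by exact_mod_cast hij
      have h2 : (j + 1 : ℝ) ≤ ‖x‖ := hx
      show (i + 1 : ℝ) ≤ ‖x‖
      linarith) ⟨0, hF.integrableOn⟩
  have he : ⋂ k : ℕ, {x : E n | (k + 1 : ℝ) ≤ ‖x‖} = ∅ := by
    ext x
    simp only [mem_iInter, mem_ofPred_eq, mem_empty_iff_false, iff_false, not_forall, not_le]
    obtain ⟨k, hk⟩ := exists_nat_gt ‖x‖
    exact ⟨k, by linarith⟩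
  rw [he] at h
  simpa using h

section trunc

variable {α lam : ℝ} {φ : E n → ℝ} {g : E n → E n}

/-- the error term -/
noncomputable def del (α : ℝ) (φ : E n → ℝ) (k : ℕ) : ℝ :=
  ∫ x, w α x * (φ x ^ 2 * ‖fderiv ℝ (cut n (k + 1)) x‖ ^ 2)

lemma del_tendsto (hφc : Continuous φ) (hφ : Integrable fun x => w (α - 1) x * φ x ^ 2) :
    Tendsto (del α φ) atTop (𝓝 0) := by
  obtain ⟨C, hC0, hC⟩ := exists_cut_bound n
  have h1 := (tail_tendsto hφ).const_mul (5 * C ^ 2)
  rw [mul_zero] at h1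
  refine squeeze_zero (fun k => ?_) (fun k => ?_) h1
  · exact integral_nonneg fun x => mul_nonneg (w_pos _ _).le (by positivity)
  · unfold del
    have hS : MeasurableSet {x : E n | (k + 1 : ℝ) ≤ ‖x‖} :=
      (isClosed_le continuous_const continuous_norm).measurableSet
    rw [← integral_const_mul, ← integral_indicator hS]
    have hk : (0 : ℝ) < k + 1 := by positivity
    have hk1 : (1 : ℝ) ≤ k + 1 := by
      have : (0 : ℝ) ≤ k := Nat.cast_nonneg k
      linarith
    have hint : Integrable fun x => w α x * (φ x ^ 2 * ‖fderiv ℝ (cut n (k + 1)) x‖ ^ 2) := by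
      apply Continuous.integrable_of_hasCompactSupport
      · exact (continuous_w α).mul ((hφc.pow 2).mul
          (((contDiff_cut (n := n) ((k : ℝ) + 1) (k := 1)).continuous_fderiv one_ne_zero).norm.pow 2))
      · apply HasCompactSupport.mul_left
        apply HasCompactSupport.mul_left
        exact ((hasCompactSupport_cut hk).fderiv ℝ).comp_left
          (g := fun L : E n →L[ℝ] ℝ => ‖L‖ ^ 2) (by simp)
    refine integral_mono hint ((hφ.const_mul _).indicator hS) fun x => ?_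
    simp only
    by_cases hx : (k + 1 : ℝ) ≤ ‖x‖
    · rw [indicator_of_mem (show x ∈ {x : E n | (k + 1 : ℝ) ≤ ‖x‖} from hx)]
      rcases le_or_gt ‖x‖ (2 * (k + 1)) with h2 | h2
      · have h3 := hC (k + 1) hk x
        have h4 : ‖fderiv ℝ (cut n (k + 1)) x‖ ^ 2 ≤ (C * (k + 1 : ℝ)⁻¹) ^ 2 :=
          pow_le_pow_left₀ (norm_nonneg _) h3 2
        have h5 : (C * (k + 1 : ℝ)⁻¹) ^ 2 * (1 + ‖x‖ ^ 2) ≤ 5 * C ^ 2 := by
          have h6 : 1 + ‖x‖ ^ 2 ≤ 5 * (k + 1 : ℝ) ^ 2 := by nlinarith [norm_nonneg x]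
          calc (C * (k + 1 : ℝ)⁻¹) ^ 2 * (1 + ‖x‖ ^ 2)
              ≤ (C * (k + 1 : ℝ)⁻¹) ^ 2 * (5 * (k + 1 : ℝ) ^ 2) := by gcongr
            _ = 5 * C ^ 2 := by field_simp
        rw [w_sub_one α x]
        have hw := w_pos (α - 1) x
        have h7 : ‖fderiv ℝ (cut n (k + 1)) x‖ ^ 2 * (1 + ‖x‖ ^ 2) ≤ 5 * C ^ 2 :=
          (mul_le_mul_of_nonneg_right h4 (one_add_pos x).le).trans h5
        have h8 : 0 ≤ w (α - 1) x * φ x ^ 2 := by positivity
        have h9 := mul_le_mul_of_nonneg_left h7 h8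
        calc w (α - 1) x * (1 + ‖x‖ ^ 2) * (φ x ^ 2 * ‖fderiv ℝ (cut n (k + 1)) x‖ ^ 2)
            = w (α - 1) x * φ x ^ 2 * (‖fderiv ℝ (cut n (k + 1)) x‖ ^ 2 * (1 + ‖x‖ ^ 2)) := by ring
          _ ≤ w (α - 1) x * φ x ^ 2 * (5 * C ^ 2) := h9
          _ = 5 * C ^ 2 * (w (α - 1) x * φ x ^ 2) := by ring
      · rw [fderiv_cut_zero' hk h2, norm_zero]
        have hw := w_pos (α - 1) x
        have : 0 ≤ 5 * C ^ 2 * (w (α - 1) x * φ x ^ 2) := by positivity
        simpa using this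
    · rw [indicator_of_notMem (show x ∉ {x : E n | (k + 1 : ℝ) ≤ ‖x‖} from hx),
        fderiv_cut_zero hk (not_le.1 hx), norm_zero]
      simp

/-- the mass on the unit ball -/
lemma exists_mass (hφc : Continuous φ) {x₀ : E n} (h0 : φ x₀ ≠ 0) (h1 : ‖x₀‖ < 1) :
    ∃ c₀ : ℝ, 0 < c₀ ∧ ∀ u : E n → ℝ, Continuous u → HasCompactSupport u →
      (∀ x, ‖x‖ ≤ 1 → u x = φ x) → c₀ ≤ Nm α u := by
  refine ⟨∫ x in closedBall 0 1, w (α - 1) x * φ x ^ 2, ?_, fun u hu hc hux => ?_⟩
  · have hcont : Continuous fun x => w (α - 1) x * φ x ^ 2 := (continuous_w _).mul (hφc.pow 2)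
    have hint : IntegrableOn (fun x => w (α - 1) x * φ x ^ 2) (closedBall (0 : E n) 1) :=
      hcont.continuousOn.integrableOn_compact (isCompact_closedBall _ _)
    rw [setIntegral_pos_iff_support_of_nonneg_ae (ae_of_all _ fun x =>
      mul_nonneg (w_pos _ _).le (sq_nonneg _)) hint]
    have hopen : IsOpen (Function.support (fun x => w (α - 1) x * φ x ^ 2) ∩ ball (0 : E n) 1) :=
      (isOpen_compl_singleton.preimage hcont).inter isOpen_ball
    have hne : (Function.support (fun x => w (α - 1) x * φ x ^ 2) ∩ ball (0 : E n) 1).Nonempty := by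
      refine ⟨x₀, ?_, by rwa [mem_ball_zero_iff]⟩
      rw [Function.mem_support]
      have := w_pos (α - 1) x₀
      positivity
    exact (hopen.measure_pos volume hne).trans_le
      (measure_mono (inter_subset_inter_right _ ball_subset_closedBall))
  · unfold Nm
    have e : ∫ x in closedBall 0 1, w (α - 1) x * φ x ^ 2 =
        ∫ x in closedBall 0 1, w (α - 1) x * u x ^ 2 := by
      refine setIntegral_congr_fun measurableSet_closedBall fun x hx => ?_
      rw [mem_closedBall_zero_iff] at hx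
      rw [hux x hx]
    rw [e]
    exact setIntegral_le_integral (integrable_Nm _ hu hc)
      (ae_of_all _ fun x => mul_nonneg (w_pos _ _).le (sq_nonneg _))

/-- truncated eigenfunction -/
noncomputable def tr (φ : E n → ℝ) (k : ℕ) (x : E n) : ℝ := φ x * cut n (k + 1) x

lemma tr_energy (h : Sol α φ (fun _ => lam) g) (k : ℕ) :
    En α (tr φ k) = lam * Nm α (tr φ k) + del α φ k := by
  have hk : (0 : ℝ) < k + 1 := by positivity
  have h1 := h.energy (contDiff_cut (n := n) ((k : ℝ) + 1) (k := 1)) (hasCompactSupport_cut hk)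
  unfold tr
  rw [h1]
  unfold Nm del
  rw [← integral_const_mul]
  congr 1
  refine integral_congr_ae (ae_of_all _ fun x => ?_)
  simp only
  ring

lemma tr_smooth (hφ : ContDiff ℝ ∞ φ) (k : ℕ) : ContDiff ℝ ∞ (tr φ k) :=
  hφ.mul (contDiff_cut _)

lemma tr_compact (k : ℕ) : HasCompactSupport (tr φ k) := by
  have hk : (0 : ℝ) < k + 1 := by positivity
  exact (hasCompactSupport_cut hk).mul_left

lemma tr_eq (k : ℕ) {x : E n} (hx : ‖x‖ ≤ 1) : tr φ k x = φ x := by
  have hk : (0 : ℝ) < k + 1 := by positivity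
  have hk1 : (1 : ℝ) ≤ k + 1 := by
    have : (0 : ℝ) ≤ k := Nat.cast_nonneg k
    linarith
  unfold tr
  rw [cut_one hk (hx.trans hk1), mul_one]

/-- upper bound without constraint -/
theorem upper_free (h : Sol α φ (fun _ => lam) g) (hφi : Integrable fun x => w (α - 1) x * φ x ^ 2)
    {x₀ : E n} (h0 : φ x₀ ≠ 0) (h1 : ‖x₀‖ < 1) {ε : ℝ} (hε : 0 < ε) :
    ∃ k : ℕ, 0 < Nm α (tr φ k) ∧ En α (tr φ k) ≤ (lam + ε) * Nm α (tr φ k) := by
  obtain ⟨c₀, hc0, hmass⟩ := exists_mass (α := α) h.cφ.continuous h0 h1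
  have h2 := del_tendsto h.cφ.continuous hφi
  have h3 : ∀ᶠ k in atTop, del α φ k < ε * c₀ := h2.eventually_lt_const (by positivity)
  obtain ⟨k, hk⟩ := h3.exists
  have h4 := hmass (tr φ k) (tr_smooth h.cφ k).continuous (tr_compact k) fun x hx => tr_eq k hx
  refine ⟨k, hc0.trans_le h4, ?_⟩
  rw [tr_energy h k]
  have := mul_le_mul_of_nonneg_left h4 hε.le
  linarith

/-- a small bump -/
noncomputable def eta (n : ℕ) : ContDiffBump (0 : E n) := ⟨1 / 2, 1, by norm_num, by norm_num⟩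

lemma eta_zero {x : E n} (hx : 1 ≤ ‖x‖) : eta n x = 0 := by
  apply (eta n).zero_of_le_dist
  rw [dist_zero_right]
  exact hx

lemma fderiv_eta_zero {x : E n} (hx : 1 ≤ ‖x‖) : fderiv ℝ (eta n) x = 0 := by
  have hmin : IsLocalMin (eta n) x := by
    refine Filter.Eventually.of_forall fun y => ?_
    rw [eta_zero hx]
    exact (eta n).nonneg
  exact hmin.fderiv_eq_zero

lemma mean_tendsto (h : Sol α φ (fun _ => lam) g) (hlam : 0 < lam) (hw : Integrable (w (n := n) α))
    {A : ℝ} (hA : ∀ x, ‖g x‖ ≤ A * (1 + ‖x‖)) :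
    Tendsto (fun k => ∫ x, w (α - 1) x * tr φ k x) atTop (𝓝 0) := by
  obtain ⟨C, hC0, hC⟩ := exists_cut_bound n
  have hA0 : 0 ≤ A := by
    have := (norm_nonneg _).trans (hA 0)
    simpa using this
  have h1 := (tail_tendsto hw).const_mul (3 * A * C / lam)
  rw [mul_zero] at h1
  refine squeeze_zero_norm (fun k => ?_) h1
  have hk : (0 : ℝ) < k + 1 := by positivity
  have hk1 : (1 : ℝ) ≤ k + 1 := by
    have : (0 : ℝ) ≤ k := Nat.cast_nonneg k
    linarith
  have hS : MeasurableSet {x : E n | (k + 1 : ℝ) ≤ ‖x‖} :=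
    (isClosed_le continuous_const continuous_norm).measurableSet
  have h2 := h.weak (cut n (k + 1)) (contDiff_cut (n := n) ((k : ℝ) + 1) (k := 1))
    (hasCompactSupport_cut hk)
  have h3 : ∫ x, w (α - 1) x * tr φ k x =
      lam⁻¹ * ∫ x, w α x * fderiv ℝ (cut n (k + 1)) x (g x) := by
    rw [h2, ← integral_const_mul]
    refine integral_congr_ae (ae_of_all _ fun x => ?_)
    simp only [tr]
    field_simp
  rw [h3, norm_mul, norm_inv, Real.norm_eq_abs lam, abs_of_pos hlam]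
  have h4 : ‖∫ x, w α x * fderiv ℝ (cut n (k + 1)) x (g x)‖ ≤
      3 * A * C * ∫ x in {x : E n | (k + 1 : ℝ) ≤ ‖x‖}, w α x := by
    rw [← integral_const_mul, ← integral_indicator hS]
    refine norm_integral_le_of_norm_le ((hw.const_mul _).indicator hS) (ae_of_all _ fun x => ?_)
    by_cases hx : (k + 1 : ℝ) ≤ ‖x‖
    · rw [indicator_of_mem (show x ∈ {x : E n | (k + 1 : ℝ) ≤ ‖x‖} from hx), norm_mul,
        Real.norm_eq_abs, abs_of_pos (w_pos α x)]
      rcases le_or_gt ‖x‖ (2 * (k + 1)) with h5 | h5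
      · have h6 : ‖fderiv ℝ (cut n (k + 1)) x (g x)‖ ≤ 3 * A * C := by
          calc ‖fderiv ℝ (cut n (k + 1)) x (g x)‖ ≤ ‖fderiv ℝ (cut n (k + 1)) x‖ * ‖g x‖ :=
                ContinuousLinearMap.le_opNorm _ _
            _ ≤ C * (k + 1 : ℝ)⁻¹ * (A * (1 + ‖x‖)) :=
                mul_le_mul (hC _ hk x) (hA x) (norm_nonneg _) (by positivity)
            _ ≤ C * (k + 1 : ℝ)⁻¹ * (A * (3 * (k + 1))) := by gcongr; linarith
            _ = 3 * A * C := by field_simp
        have := mul_le_mul_of_nonneg_left h6 (w_pos α x).le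
        linarith
      · rw [fderiv_cut_zero' hk h5]
        have := w_pos α x
        simp only [zero_apply, norm_zero, mul_zero]
        positivity
    · rw [indicator_of_notMem (show x ∉ {x : E n | (k + 1 : ℝ) ≤ ‖x‖} from hx),
        fderiv_cut_zero hk (not_le.1 hx)]
      simp
  calc lam⁻¹ * ‖∫ x, w α x * fderiv ℝ (cut n (k + 1)) x (g x)‖
      ≤ lam⁻¹ * (3 * A * C * ∫ x in {x : E n | (k + 1 : ℝ) ≤ ‖x‖}, w α x) := by gcongr
    _ = 3 * A * C / lam * ∫ x in {x : E n | (k + 1 : ℝ) ≤ ‖x‖}, w α x := by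
        field_simp

/-- upper bound with constraint -/
theorem upper_mean (h : Sol α φ (fun _ => lam) g) (hlam : 0 < lam)
    (hφi : Integrable fun x => w (α - 1) x * φ x ^ 2)
    (hw : Integrable (w (n := n) α)) {A : ℝ} (hA : ∀ x, ‖g x‖ ≤ A * (1 + ‖x‖))
    {x₀ : E n} (h0 : φ x₀ ≠ 0) (h1 : ‖x₀‖ < 1) {ε : ℝ} (hε : 0 < ε) :
    ∃ u : E n → ℝ, ContDiff ℝ ∞ u ∧ HasCompactSupport u ∧ (∫ x, w (α - 1) x * u x = 0) ∧
      0 < Nm α u ∧ En α u ≤ (lam + ε) * Nm α u := by
  obtain ⟨c₀, hc0, hmass⟩ := exists_mass (α := α) h.cφ.continuous h0 h1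
  have hη : ContDiff ℝ 1 (eta n) := (eta n).contDiff (n := 1)
  have hηc : HasCompactSupport (eta n) := (eta n).hasCompactSupport
  have hηcont : Continuous (eta n) := hη.continuous
  set N := ∫ x, w (α - 1) x * eta n x with hN
  have hηi : Integrable fun x => w (α - 1) x * eta n x :=
    ((continuous_w _).mul hηcont).integrable_of_hasCompactSupport hηc.mul_left
  have hNpos : 0 < N := by
    rw [hN, integral_pos_iff_support_of_nonneg (fun x => mul_nonneg (w_pos _ _).le (eta n).nonneg)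
      hηi]
    have : ball (0 : E n) 1 ⊆ Function.support fun x => w (α - 1) x * eta n x := by
      intro x hx
      rw [Function.mem_support]
      have h2 : x ∈ Function.support (eta n) := by rw [(eta n).support_eq]; exact hx
      exact mul_ne_zero (w_pos _ _).ne' h2
    exact (measure_ball_pos volume (0 : E n) one_pos).trans_le (measure_mono this)
  set P := ∫ x, w (α - 1) x * (φ x * eta n x) with hP
  set m : ℕ → ℝ := fun k => (∫ x, w (α - 1) x * tr φ k x) / N with hm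
  have hm0 : Tendsto m atTop (𝓝 0) := by
    have := (mean_tendsto h hlam hw hA).div_const N
    simpa using this
  have hdel := del_tendsto h.cφ.continuous hφi
  set En0 := En α (eta n) with hEn0
  -- choose `k`
  have hlim1 : Tendsto (fun k => del α φ k + m k ^ 2 * En0) atTop (𝓝 (0 + 0 ^ 2 * En0)) :=
    hdel.add ((hm0.pow 2).mul_const _)
  have hlim2 : Tendsto (fun k => c₀ - 2 * |m k| * |P|) atTop (𝓝 (c₀ - 2 * |0| * |P|)) :=
    tendsto_const_nhds.sub ((hm0.abs.const_mul 2).mul_const _)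
  rw [abs_zero, mul_zero, zero_mul, sub_zero] at hlim2
  rw [zero_pow two_ne_zero, zero_mul, add_zero] at hlim1
  have e1 : ∀ᶠ k in atTop, del α φ k + m k ^ 2 * En0 < ε * (c₀ / 2) :=
    hlim1.eventually_lt_const (by positivity)
  have e2 : ∀ᶠ k in atTop, c₀ / 2 < c₀ - 2 * |m k| * |P| :=
    hlim2.eventually_const_lt (by linarith)
  obtain ⟨k, hk1, hk2⟩ := (e1.and e2).exists
  set t := tr φ k with ht
  have ht1 : ContDiff ℝ ∞ t := tr_smooth h.cφ k
  have ht1' : ContDiff ℝ 1 t := ht1.of_le (by exact_mod_cast le_top)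
  have htc : HasCompactSupport t := tr_compact k
  set mk := m k with hmk
  set u : E n → ℝ := fun x => t x - mk * eta n x with hu
  have hti : Integrable fun x => w (α - 1) x * t x :=
    ((continuous_w _).mul ht1.continuous).integrable_of_hasCompactSupport htc.mul_left
  have hφη : Integrable fun x => w (α - 1) x * (φ x * eta n x) :=
    ((continuous_w _).mul (h.cφ.continuous.mul hηcont)).integrable_of_hasCompactSupport
      (hηc.mul_left).mul_left
  -- the pointwise identities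
  have hnear : ∀ x : E n, ‖x‖ < 1 → fderiv ℝ t x = innerSL ℝ (g x) := by
    intro x hx
    have h2 : t =ᶠ[𝓝 x] φ := by
      have : ball (0 : E n) 1 ∈ 𝓝 x := isOpen_ball.mem_nhds (by rwa [mem_ball_zero_iff])
      filter_upwards [this] with y hy
      rw [mem_ball_zero_iff] at hy
      exact tr_eq k hy.le
    rw [h2.fderiv_eq, (h.grad x).fderiv]
  have hp1 : ∀ x, ‖fderiv ℝ u x‖ ^ 2 = ‖fderiv ℝ t x‖ ^ 2 - 2 * mk * fderiv ℝ (eta n) x (g x) +
      mk ^ 2 * ‖fderiv ℝ (eta n) x‖ ^ 2 := by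
    intro x
    have h2 : fderiv ℝ u x = fderiv ℝ t x - mk • fderiv ℝ (eta n) x :=
      (((ht1'.differentiable one_ne_zero) x).hasFDerivAt.sub
        (((hη.differentiable one_ne_zero) x).hasFDerivAt.const_mul mk)).fderiv
    rcases lt_or_ge ‖x‖ 1 with hx | hx
    · rw [h2, hnear x hx]
      have h3 : innerSL ℝ (g x) - mk • fderiv ℝ (eta n) x =
          (-mk) • fderiv ℝ (eta n) x + innerSL ℝ (g x) := by
        rw [neg_smul]; abel
      rw [h3, norm_add_sq_dual, norm_smul, mul_pow, Real.norm_eq_abs, sq_abs, innerSL_apply_norm,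
        smul_apply, smul_eq_mul]
      ring
    · rw [h2, fderiv_eta_zero hx]
      simp
  have hp2 : ∀ x, u x ^ 2 = t x ^ 2 - 2 * mk * (φ x * eta n x) + mk ^ 2 * eta n x ^ 2 := by
    intro x
    simp only [hu]
    rcases lt_or_ge ‖x‖ 1 with hx | hx
    · have : t x = φ x := tr_eq k hx.le
      rw [this]; ring
    · rw [eta_zero hx]; ring
  have iE : Integrable fun x => w α x * ‖fderiv ℝ t x‖ ^ 2 := integrable_En α ht1' htc
  have iEη : Integrable fun x => w α x * ‖fderiv ℝ (eta n) x‖ ^ 2 := integrable_En α hη hηc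
  have iX : Integrable fun x => w α x * fderiv ℝ (eta n) x (g x) :=
    ((continuous_w α).mul ((hη.continuous_fderiv one_ne_zero).clm_apply
      h.cg)).integrable_of_hasCompactSupport (hcs_clm (hηc.fderiv ℝ) _).mul_left
  have iN : Integrable fun x => w (α - 1) x * t x ^ 2 := integrable_Nm _ ht1.continuous htc
  have iNη : Integrable fun x => w (α - 1) x * eta n x ^ 2 := integrable_Nm _ hηcont hηc
  have hweak : ∫ x, w α x * fderiv ℝ (eta n) x (g x) = lam * P := by
    rw [h.weak (eta n) hη hηc, hP, ← integral_const_mul]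
    refine integral_congr_ae (ae_of_all _ fun x => ?_)
    simp only
    ring
  have hEn : En α u = En α t - 2 * mk * (lam * P) + mk ^ 2 * En0 := by
    rw [hEn0]
    unfold En
    have e3 : ∀ x, w α x * ‖fderiv ℝ u x‖ ^ 2 = w α x * ‖fderiv ℝ t x‖ ^ 2 -
        2 * mk * (w α x * fderiv ℝ (eta n) x (g x)) +
        mk ^ 2 * (w α x * ‖fderiv ℝ (eta n) x‖ ^ 2) := by
      intro x
      rw [hp1]; ring
    simp only [e3]
    have i3 : Integrable fun x => w α x * ‖fderiv ℝ t x‖ ^ 2 -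
        2 * mk * (w α x * fderiv ℝ (eta n) x (g x)) := iE.sub (iX.const_mul _)
    rw [integral_add i3 (iEη.const_mul _), integral_sub iE (iX.const_mul _), integral_const_mul,
      integral_const_mul, hweak]
  have hNm : Nm α u = Nm α t - 2 * mk * P + mk ^ 2 * Nm α (eta n) := by
    unfold Nm
    have e3 : ∀ x, w (α - 1) x * u x ^ 2 = w (α - 1) x * t x ^ 2 -
        2 * mk * (w (α - 1) x * (φ x * eta n x)) + mk ^ 2 * (w (α - 1) x * eta n x ^ 2) := by
      intro x
      rw [hp2]; ring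
    simp only [e3]
    have i3 : Integrable fun x => w (α - 1) x * t x ^ 2 -
        2 * mk * (w (α - 1) x * (φ x * eta n x)) := iN.sub (hφη.const_mul _)
    rw [integral_add i3 (iNη.const_mul _), integral_sub iN (hφη.const_mul _), integral_const_mul,
      integral_const_mul]
  have hNη : 0 ≤ Nm α (eta n) := integral_nonneg fun x => mul_nonneg (w_pos _ _).le (sq_nonneg _)
  have hNt : c₀ ≤ Nm α t := hmass t ht1.continuous htc fun x hx => tr_eq k hx
  have hlow : c₀ / 2 ≤ Nm α u := by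
    rw [hNm]
    have h3 : mk * P ≤ |mk| * |P| := by rw [← abs_mul]; exact le_abs_self _
    have h4 : 0 ≤ mk ^ 2 * Nm α (eta n) := by positivity
    linarith
  refine ⟨u, ht1.sub (contDiff_const.mul ((eta n).contDiff (n := ⊤))), htc.sub hηc.mul_left, ?_,
    by linarith, ?_⟩
  · have e3 : ∀ x, w (α - 1) x * u x = w (α - 1) x * t x - mk * (w (α - 1) x * eta n x) := by
      intro x
      simp only [hu]; ring
    simp only [e3]
    rw [integral_sub hti (hηi.const_mul _), integral_const_mul, ← hN, hmk, hm]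
    simp only
    field_simp
    ring
  · have h3 := tr_energy h k
    rw [← ht] at h3
    have h4 : En α u ≤ lam * Nm α u + (del α φ k + mk ^ 2 * En0) := by
      rw [hEn, hNm, h3]
      have : 0 ≤ lam * (mk ^ 2 * Nm α (eta n)) := by positivity
      linarith
    have h5 := mul_le_mul_of_nonneg_left hlow hε.le
    linarith

end trunc

end Q81.Har
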