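import Mathlib
import Pool.Agent.Q81.Har10

/-!
# Bumps near infinity
-/

namespace Q81.Har

open MeasureTheory Set Filter Topology Metric
open scoped ContDiff RealInnerProductSpace

variable {n : ℕ}

/-- the logarithmic radius -/
noncomputable def lr (x : E n) : ℝ := Real.log (1 + ‖x‖ ^ 2)

lemma contDiff_lr {k : ℕ∞ω} : ContDiff ℝ k (lr (n := n)) := by
  unfold lr
  exact (contDiff_const.add (contDiff_norm_sq ℝ)).log fun x => (one_add_pos x).ne'

lemma hasFDerivAt_lr (x : E n) : HasFDerivAt (lr (n := n)) ((2 / (1 + ‖x‖ ^ 2)) • innerSL ℝ x) x := by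
  have h1 : HasFDerivAt (fun y : E n => 1 + ‖y‖ ^ 2) (2 • innerSL ℝ x) x := by
    have := (hasStrictFDerivAt_norm_sq x).hasFDerivAt
    exact this.const_add 1
  have h2 : HasFDerivAt (lr (n := n)) _ x := h1.log (one_add_pos x).ne'
  refine h2.congr_fderiv ?_
  ext v
  simp only [smul_apply, smul_eq_mul, nsmul_eq_mul]
  push_cast
  have := (one_add_pos x).ne'
  field_simp

lemma w_lr (γ : ℝ) (x : E n) : w γ x = Real.exp (γ * lr x) := by
  unfold w lr
  rw [Real.rpow_def_of_pos (one_add_pos x), mul_comm]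

lemma lr_nonneg (x : E n) : 0 ≤ lr x := Real.log_nonneg (by nlinarith [sq_nonneg ‖x‖])

/-- composition with a compactly supported function -/
lemma hcs_comp {g : ℝ → ℝ} (hg : HasCompactSupport g) : HasCompactSupport fun x : E n => g (lr x) := by
  obtain ⟨R, hR, hR2⟩ := hg.isCompact.isBounded.exists_pos_norm_le
  refine HasCompactSupport.intro (isCompact_closedBall (0 : E n) (Real.exp R)) fun x hx => ?_
  rw [mem_closedBall_zero_iff, not_le] at hx
  by_contra h
  have h1 := hR2 _ (subset_tsupport _ h)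
  rw [Real.norm_eq_abs, abs_of_nonneg (lr_nonneg x)] at h1
  have h2 : Real.exp R < 1 + ‖x‖ ^ 2 := by
    have h3 : 1 ≤ Real.exp R := Real.one_le_exp hR.le
    nlinarith
  have h3 : R < lr x := by
    unfold lr
    rw [Real.lt_log_iff_exp_lt (one_add_pos x)]
    exact h2
  linarith

/-- the constant in polar coordinates -/
noncomputable def cn (n : ℕ) : ℝ := n * (volume : Measure (E n)).real (ball 0 1)

/-- integration of functions of the logarithmic radius -/
lemma J_eq [Nontrivial (E n)] (hn : 2 ≤ n) {F : ℝ → ℝ} (hF : Continuous F)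
    (hc : HasCompactSupport F) :
    ∫ x : E n, w (-(n / 2 : ℝ)) x * F (lr x) =
      cn n * ∫ y in Ioi 0, F y * (1 - Real.exp (-y)) ^ (((n : ℝ) - 2) / 2) * (1 / 2) := by
  have h := integral_fun_norm_addHaar (volume : Measure (E n))
    (fun y : ℝ => (1 + y ^ 2) ^ (-(n / 2 : ℝ)) * F (Real.log (1 + y ^ 2)))
  rw [finrank_euclideanSpace_fin] at h
  unfold w lr
  rw [h]
  simp only [smul_eq_mul, nsmul_eq_mul]
  rw [cn, mul_assoc]
  congr 2
  -- change of variables
  have hp0 : 0 ≤ ((n : ℝ) - 2) / 2 := by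
    have : (2 : ℝ) ≤ n := by exact_mod_cast hn
    linarith
  set f : ℝ → ℝ := fun r => Real.log (1 + r ^ 2) with hf
  set f' : ℝ → ℝ := fun r => 2 * r / (1 + r ^ 2) with hf'
  set g : ℝ → ℝ := fun y => F y * (1 - Real.exp (-y)) ^ (((n : ℝ) - 2) / 2) * (1 / 2) with hg
  have hgc : Continuous g := by
    refine (hF.mul ?_).mul continuous_const
    exact Continuous.rpow_const (by fun_prop) fun y => Or.inr hp0
  have hgs : HasCompactSupport g := (hc.mul_right).mul_right
  have hpos : ∀ r : ℝ, 0 < 1 + r ^ 2 := fun r => by positivity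
  have hfc : Continuous f := by
    refine Continuous.log (by fun_prop) fun r => (hpos r).ne'
  have hft : Tendsto f atTop atTop := by
    refine Real.tendsto_log_atTop.comp ?_
    exact tendsto_atTop_add_const_left _ _ (tendsto_pow_atTop two_ne_zero)
  have hfd : ∀ r, HasDerivAt f (f' r) r := by
    intro r
    have h1 : HasDerivAt (fun r : ℝ => 1 + r ^ 2) (2 * r) r := by
      simpa using (hasDerivAt_pow 2 r).const_add 1
    exact h1.log (hpos r).ne'
  have hgf : HasCompactSupport fun r => (g ∘ f) r * f' r := by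
    apply HasCompactSupport.mul_right
    obtain ⟨R, hR, hR2⟩ := hgs.isCompact.isBounded.exists_pos_norm_le
    refine HasCompactSupport.intro (isCompact_closedBall (0 : ℝ) (Real.exp R)) fun x hx => ?_
    rw [mem_closedBall_zero_iff, not_le] at hx
    by_contra h
    have h1 := hR2 _ (subset_tsupport _ h)
    have h2 : Real.exp R < 1 + x ^ 2 := by
      have h3 : 1 ≤ Real.exp R := Real.one_le_exp hR.le
      rw [← sq_abs, ← Real.norm_eq_abs]
      nlinarith
    have h3 : R < f x := by
      simp only [hf]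
      rw [Real.lt_log_iff_exp_lt (hpos x)]
      exact h2
    have h4 := (le_abs_self (f x)).trans h1
    linarith
  have hgfc : Continuous fun r => (g ∘ f) r * f' r := by
    refine (hgc.comp hfc).mul ?_
    exact Continuous.div (by fun_prop) (by fun_prop) fun r => (hpos r).ne'
  have h2 := integral_comp_mul_deriv_Ioi (f := f) (f' := f') (g := g) (a := 0) hfc.continuousOn hft
    (fun x _ => (hfd x).hasDerivWithinAt) hgc.continuousOn
    (hgc.integrable_of_hasCompactSupport hgs).integrableOn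
    (hgfc.integrable_of_hasCompactSupport hgf).integrableOn
  have h0 : f 0 = 0 := by simp [hf]
  rw [h0] at h2
  rw [← h2]
  refine setIntegral_congr_fun measurableSet_Ioi fun r hr => ?_
  have hr' : 0 < r := hr
  have hp := hpos r
  simp only [Function.comp, hg, hf, hf']
  have e1 : 1 - Real.exp (-Real.log (1 + r ^ 2)) = r ^ 2 / (1 + r ^ 2) := by
    rw [Real.exp_neg, Real.exp_log hp]
    field_simp
    ring
  have e2 : (r ^ 2 / (1 + r ^ 2)) ^ (((n : ℝ) - 2) / 2) =
      r ^ (n - 2) * (1 + r ^ 2) ^ (-(n / 2 : ℝ)) * (1 + r ^ 2) := by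
    rw [Real.div_rpow (by positivity) hp.le]
    have e3 : (r ^ 2) ^ (((n : ℝ) - 2) / 2) = r ^ (n - 2) := by
      rw [← Real.rpow_natCast, ← Real.rpow_natCast, ← Real.rpow_mul hr'.le]
      congr 1
      push_cast [hn]
      ring
    have e4 : (1 + r ^ 2) ^ (-(n / 2 : ℝ)) * (1 + r ^ 2) = ((1 + r ^ 2) ^ (((n : ℝ) - 2) / 2))⁻¹ := by
      rw [← Real.rpow_neg hp.le, ← Real.rpow_add_one hp.ne']
      congr 1
      ring
    rw [e3, mul_assoc, e4, div_eq_mul_inv]
  rw [e1, e2]
  obtain ⟨m, rfl⟩ : ∃ m, n = m + 2 := ⟨n - 2, by omega⟩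
  have e5 : m + 2 - 1 = m + 1 := by omega
  have e6 : m + 2 - 2 = m := by omega
  rw [e5, e6, pow_succ]
  field_simp

lemma cn_pos (hn : 1 ≤ n) : 0 < cn n := by
  have h1 : (0 : ℝ) < n := by exact_mod_cast hn
  have h2 : 0 < (volume : Measure (E n)).real (ball 0 1) := by
    rw [Measure.real, ENNReal.toReal_pos_iff]
    exact ⟨measure_ball_pos _ _ one_pos, measure_ball_lt_top⟩
  unfold cn
  positivity

lemma J_le [Nontrivial (E n)] (hn : 2 ≤ n) {F : ℝ → ℝ} (hF : Continuous F)
    (hc : HasCompactSupport F) (h0 : ∀ y, 0 ≤ F y) :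
    ∫ x : E n, w (-(n / 2 : ℝ)) x * F (lr x) ≤ cn n / 2 * ∫ y, F y := by
  have hcn : 0 < cn n := cn_pos (by omega)
  have hp0 : 0 ≤ ((n : ℝ) - 2) / 2 := by
    have : (2 : ℝ) ≤ n := by exact_mod_cast hn
    linarith
  rw [J_eq hn hF hc, div_mul_eq_mul_div, mul_div_assoc]
  refine mul_le_mul_of_nonneg_left ?_ hcn.le
  have hi : Integrable F := hF.integrable_of_hasCompactSupport hc
  have h1 : ∫ y in Ioi 0, F y * (1 - Real.exp (-y)) ^ (((n : ℝ) - 2) / 2) * (1 / 2) ≤
      ∫ y in Ioi 0, F y * (1 / 2) := by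
    refine setIntegral_mono_on ?_ (hi.mul_const _).integrableOn measurableSet_Ioi fun y hy => ?_
    · have hgc : Continuous fun y => F y * (1 - Real.exp (-y)) ^ (((n : ℝ) - 2) / 2) * (1 / 2) := by
        refine (hF.mul ?_).mul continuous_const
        exact Continuous.rpow_const (by fun_prop) fun y => Or.inr hp0
      exact (hgc.integrable_of_hasCompactSupport (hc.mul_right).mul_right).integrableOn
    · have hy' : 0 < y := hy
      have h2 : 0 ≤ 1 - Real.exp (-y) := by
        have : Real.exp (-y) ≤ 1 := by rw [Real.exp_le_one_iff]; linarith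
        linarith
      have h3 : (1 - Real.exp (-y)) ^ (((n : ℝ) - 2) / 2) ≤ 1 :=
        Real.rpow_le_one h2 (by linarith [Real.exp_pos (-y)]) hp0
      have := mul_le_mul_of_nonneg_left h3 (h0 y)
      linarith
  refine h1.trans ?_
  rw [integral_mul_const]
  have h2 : ∫ y in Ioi 0, F y ≤ ∫ y, F y := setIntegral_le_integral hi (ae_of_all _ h0)
  linarith

lemma J_ge [Nontrivial (E n)] (hn : 2 ≤ n) {F : ℝ → ℝ} (hF : Continuous F)
    (hc : HasCompactSupport F) (h0 : ∀ y, 0 ≤ F y) {Y : ℝ} (hY : 0 ≤ Y)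
    (hY1 : 1 / 2 ≤ (1 - Real.exp (-Y)) ^ (((n : ℝ) - 2) / 2)) (hFY : ∀ y ≤ Y, F y = 0) :
    cn n / 4 * (∫ y, F y) ≤ ∫ x : E n, w (-(n / 2 : ℝ)) x * F (lr x) := by
  have hcn : 0 < cn n := cn_pos (by omega)
  have hp0 : 0 ≤ ((n : ℝ) - 2) / 2 := by
    have : (2 : ℝ) ≤ n := by exact_mod_cast hn
    linarith
  rw [J_eq hn hF hc, div_mul_eq_mul_div, mul_div_assoc]
  refine mul_le_mul_of_nonneg_left ?_ hcn.le
  have hi : Integrable F := hF.integrable_of_hasCompactSupport hc
  have e1 : ∫ y, F y = ∫ y in Ioi 0, F y := by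
    rw [← integral_indicator measurableSet_Ioi]
    refine integral_congr_ae (ae_of_all _ fun y => ?_)
    by_cases hy : 0 < y
    · simp [indicator_of_mem (show y ∈ Ioi (0 : ℝ) from hy)]
    · rw [indicator_of_notMem (show y ∉ Ioi (0 : ℝ) from hy), hFY y (by linarith)]
  rw [e1, ← integral_div]
  refine setIntegral_mono_on (hi.div_const _).integrableOn ?_ measurableSet_Ioi fun y hy => ?_
  · have hgc : Continuous fun y => F y * (1 - Real.exp (-y)) ^ (((n : ℝ) - 2) / 2) * (1 / 2) := by
      refine (hF.mul ?_).mul continuous_const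
      exact Continuous.rpow_const (by fun_prop) fun y => Or.inr hp0
    exact (hgc.integrable_of_hasCompactSupport (hc.mul_right).mul_right).integrableOn
  · rcases le_or_gt y Y with h | h
    · rw [hFY y h]; simp
    · have h3 : (1 - Real.exp (-Y)) ^ (((n : ℝ) - 2) / 2) ≤
          (1 - Real.exp (-y)) ^ (((n : ℝ) - 2) / 2) := by
        refine Real.rpow_le_rpow ?_ ?_ hp0
        · have : Real.exp (-Y) ≤ 1 := by rw [Real.exp_le_one_iff]; linarith
          linarith
        · have : Real.exp (-y) ≤ Real.exp (-Y) := Real.exp_le_exp.2 (by linarith)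
          linarith
      have := mul_le_mul_of_nonneg_left (hY1.trans h3) (h0 y)
      linarith

/-- The test functions near infinity. -/
theorem bumps [Nontrivial (E n)] (hn : 2 ≤ n) (α b : ℝ) (hb : 4 * b = n + 2 * α - 2) {ε : ℝ}
    (hε : 0 < ε) : ∃ q₀ : ℝ, 0 < q₀ ∧ ∀ δ : ℝ, 0 < δ → ∃ u : E n → ℝ, ContDiff ℝ ∞ u ∧
      HasCompactSupport u ∧ (∀ x, ‖x‖ ≤ 1 → u x = 0) ∧ q₀ ≤ Nm α u ∧
      En α u ≤ (4 * b ^ 2 + ε) * Nm α u ∧ (b < 0 → |∫ x, w (α - 1) x * u x| ≤ δ) := by
  have hcn : 0 < cn n := cn_pos (by omega)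
  set ψ : ContDiffBump (0 : ℝ) := ⟨1, 2, one_pos, one_lt_two⟩ with hψ
  have hψ1 : ContDiff ℝ 1 ψ := ψ.contDiff (n := 1)
  have hψc := ψ.hasCompactSupport
  set A := ∫ y, deriv ψ y ^ 2 with hA
  set B := ∫ y, ψ y ^ 2 with hB
  set D := ∫ y, ψ y with hD
  have hA0 : 0 ≤ A := integral_nonneg fun y => sq_nonneg _
  have hD0 : 0 ≤ D := integral_nonneg fun y => ψ.nonneg
  have hB0 : 0 < B := by
    have hcont : Continuous fun y => ψ y ^ 2 := hψ1.continuous.pow 2
    have hi : Integrable fun y => ψ y ^ 2 :=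
      hcont.integrable_of_hasCompactSupport (hψc.comp_left (g := fun t : ℝ => t ^ 2) (by simp))
    rw [hB, integral_pos_iff_support_of_nonneg (fun y => sq_nonneg _) hi]
    have hopen : IsOpen (Function.support fun y => ψ y ^ 2) :=
      isOpen_compl_singleton.preimage hcont
    refine hopen.measure_pos volume ⟨0, ?_⟩
    rw [Function.mem_support]
    have : ψ 0 = 1 := ψ.one_of_mem_closedBall (by simp [hψ])
    rw [this]; norm_num
  -- choice of `L`
  set L : ℝ := 1 + A / (ε / 16 * B) with hL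
  have hL1 : 1 ≤ L := by
    have : 0 ≤ A / (ε / 16 * B) := by positivity
    linarith
  have hL0 : 0 < L := by linarith
  have hLA : A / L ≤ ε / 16 * (L * B) := by
    rw [div_le_iff₀ hL0]
    have h1 : A / (ε / 16 * B) ≤ L := by linarith
    rw [div_le_iff₀ (by positivity)] at h1
    have h2 : ε / 16 * B * L ≤ ε / 16 * B * L * L := by
      have : 0 ≤ ε / 16 * B * L := by positivity
      nlinarith
    nlinarith
  refine ⟨cn n / 4 * (L * B), by positivity, fun δ hδ => ?_⟩
  -- choice of `T`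
  set K := 4 * |b * (α - 1 - b)| with hK
  have hK0 : 0 ≤ K := by positivity
  have hlim0 : Tendsto (fun T : ℝ => Real.exp (-(T - 2 * L))) atTop (𝓝 0) := by
    apply Real.tendsto_exp_atBot.comp
    have h1 : Tendsto (fun T : ℝ => T - 2 * L) atTop atTop :=
      tendsto_atTop_add_const_right _ _ tendsto_id
    exact tendsto_neg_atTop_atBot.comp h1
  have c1 : ∀ᶠ T : ℝ in atTop, K * Real.exp (-(T - 2 * L)) < ε / 2 := by
    have := hlim0.const_mul K
    rw [mul_zero] at this
    exact this.eventually_lt_const (by positivity)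
  have c2 : ∀ᶠ T : ℝ in atTop, 1 / 2 ≤ (1 - Real.exp (-(T - 2 * L))) ^ (((n : ℝ) - 2) / 2) := by
    have h1 : Tendsto (fun T : ℝ => (1 - Real.exp (-(T - 2 * L))) ^ (((n : ℝ) - 2) / 2)) atTop
        (𝓝 ((1 - 0) ^ (((n : ℝ) - 2) / 2))) :=
      (tendsto_const_nhds.sub hlim0).rpow_const (Or.inl (by norm_num))
    rw [sub_zero, Real.one_rpow] at h1
    exact (h1.eventually_const_lt (by norm_num : (1 / 2 : ℝ) < 1)).mono fun T hT => hT.le
  have c3 : ∀ᶠ T : ℝ in atTop, Real.log 2 ≤ T - 2 * L := by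
    filter_upwards [eventually_ge_atTop (Real.log 2 + 2 * L)] with T hT
    linarith
  have c4 : ∀ᶠ T : ℝ in atTop, b < 0 → cn n / 2 * (Real.exp (b * (T - 2 * L)) * (L * D)) ≤ δ := by
    by_cases hb0 : b < 0
    · have h1 : Tendsto (fun T : ℝ => Real.exp (b * (T - 2 * L))) atTop (𝓝 0) := by
        apply Real.tendsto_exp_atBot.comp
        have h1 : Tendsto (fun T : ℝ => T - 2 * L) atTop atTop :=
          tendsto_atTop_add_const_right _ _ tendsto_id
        exact h1.const_mul_atTop_of_neg hb0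
      have h2 := (h1.mul_const (L * D)).const_mul (cn n / 2)
      rw [zero_mul, mul_zero] at h2
      exact (h2.eventually_lt_const hδ).mono fun T hT _ => hT.le
    · exact Filter.Eventually.of_forall fun T h => absurd h hb0
  obtain ⟨T, ⟨⟨hT1, hT2⟩, hT3⟩, hT4⟩ := (((c1.and c2).and c3).and c4).exists
  set Y := T - 2 * L with hY
  have hlog2 : 0 < Real.log 2 := Real.log_pos one_lt_two
  have hY0 : 0 ≤ Y := by linarith
  -- the profile
  set g : ℝ → ℝ := fun y => ψ ((y - T) / L) with hg
  set g' : ℝ → ℝ := fun y => deriv ψ ((y - T) / L) / L with hg'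
  have hgd : ∀ y, HasDerivAt g (g' y) y := by
    intro y
    have h1 : HasDerivAt (fun y : ℝ => (y - T) / L) (1 / L) y :=
      ((hasDerivAt_id y).sub_const T).div_const L
    have h2 : HasDerivAt ψ (deriv ψ ((y - T) / L)) ((y - T) / L) :=
      ((hψ1.differentiable one_ne_zero) _).hasDerivAt
    have h3 := h2.comp y h1
    refine h3.congr_deriv ?_
    simp only [hg']
    ring
  have hgs : ContDiff ℝ ∞ g := by
    refine (ψ.contDiff (n := ⊤)).comp ?_
    exact (contDiff_id.sub contDiff_const).div_const L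
  have hgc : Continuous g := hgs.continuous
  have hg'c : Continuous g' := by
    refine Continuous.div_const ?_ L
    exact (hψ1.continuous_deriv le_rfl).comp (by fun_prop)
  have hgz : ∀ y, y ≤ Y → g y = 0 := by
    intro y hy
    apply ψ.zero_of_le_dist
    rw [dist_zero_right, Real.norm_eq_abs, abs_div, abs_of_pos hL0, le_div_iff₀ hL0]
    show 2 * L ≤ |y - T|
    rw [abs_of_nonpos (by linarith)]
    linarith
  have hgz' : ∀ y, T + 2 * L ≤ y → g y = 0 := by
    intro y hy
    apply ψ.zero_of_le_dist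
    rw [dist_zero_right, Real.norm_eq_abs, abs_div, abs_of_pos hL0, le_div_iff₀ hL0]
    show 2 * L ≤ |y - T|
    rw [abs_of_nonneg (by linarith)]
    linarith
  have hgcs : HasCompactSupport g := by
    refine HasCompactSupport.intro (isCompact_Icc (a := Y) (b := T + 2 * L)) fun y hy => ?_
    rw [mem_Icc, not_and_or, not_le, not_le] at hy
    rcases hy with h | h
    · exact hgz y h.le
    · exact hgz' y h.le
  have hg'cs : HasCompactSupport g' := by
    have : g' = deriv g := funext fun y => (hgd y).deriv.symm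
    rw [this]
    exact hgcs.deriv
  have hg0 : ∀ y, 0 ≤ g y := fun y => ψ.nonneg
  -- one-dimensional integrals
  have hscale : ∀ F : ℝ → ℝ, ∫ y, F ((y - T) / L) = L * ∫ y, F y := by
    intro F
    have h1 := integral_sub_right_eq_self (μ := volume) (fun y => F (y / L)) T
    rw [h1, Measure.integral_comp_div, abs_of_pos hL0, smul_eq_mul]
  have I1 : ∫ y, g y ^ 2 = L * B := hscale fun y => ψ y ^ 2
  have I2 : ∫ y, g' y ^ 2 = A / L := by
    have h1 := hscale fun y => (deriv ψ y / L) ^ 2
    have h2 : ∫ y, (deriv ψ y / L) ^ 2 = A / L ^ 2 := by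
      simp only [div_pow]
      rw [integral_div]
    rw [h2] at h1
    rw [show (∫ y, g' y ^ 2) = ∫ y, (deriv ψ ((y - T) / L) / L) ^ 2 from rfl, h1]
    field_simp
  have I3 : ∫ y, g y = L * D := hscale fun y => ψ y
  -- the function
  set v : E n → ℝ := fun x => g (lr x) with hv
  have hv1 : ContDiff ℝ ∞ v := hgs.comp contDiff_lr
  have hv1' : ContDiff ℝ 1 v := hv1.of_le (by exact_mod_cast le_top)
  have hvc : HasCompactSupport v := hcs_comp hgcs
  have hvd : ∀ x, fderiv ℝ v x = (g' (lr x) * (2 / (1 + ‖x‖ ^ 2))) • innerSL ℝ x := by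
    intro x
    have h1 := (hgd (lr x)).comp_hasFDerivAt x (hasFDerivAt_lr x)
    rw [show fderiv ℝ v x = _ from h1.fderiv, smul_smul]
  have hsol := sol_pow (n := n) α b
  have hen := hsol.energy hv1' hvc
  set u : E n → ℝ := fun x => w (-b) x * v x with hu
  have hexp : ∀ x : E n, w (α - 1) x * w (-b) x ^ 2 = w (-(n / 2 : ℝ)) x := by
    intro x
    rw [sq, ← mul_assoc, ← w_add, ← w_add]
    congr 1
    linarith
  have hNm : Nm α u = ∫ x : E n, w (-(n / 2 : ℝ)) x * g (lr x) ^ 2 := by
    unfold Nm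
    refine integral_congr_ae (ae_of_all _ fun x => ?_)
    simp only [hu, hv]
    rw [mul_pow, ← mul_assoc, hexp]
  have hg2c : HasCompactSupport fun y => g y ^ 2 := hgcs.comp_left (g := fun t : ℝ => t ^ 2) (by simp)
  have hg'2c : HasCompactSupport fun y => g' y ^ 2 :=
    hg'cs.comp_left (g := fun t : ℝ => t ^ 2) (by simp)
  have hNge : cn n / 4 * (L * B) ≤ Nm α u := by
    rw [hNm, ← I1]
    exact J_ge hn (hgc.pow 2) hg2c (fun y => sq_nonneg _) hY0 hT2 fun y hy => by rw [hgz y hy]; simp
  have hN0 : 0 < Nm α u := lt_of_lt_of_le (by positivity) hNge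
  refine ⟨u, (contDiff_w _).mul hv1, hvc.mul_left, ?_, hNge, ?_, ?_⟩
  · intro x hx
    have h1 : lr x ≤ Y := by
      refine le_trans ?_ hT3
      unfold lr
      apply Real.log_le_log (one_add_pos x)
      nlinarith [norm_nonneg x]
    simp only [hu, hv]
    rw [hgz _ h1, mul_zero]
  · -- energy
    rw [show En α u = _ from hen]
    have hu1c : Continuous u := (continuous_w _).mul hv1.continuous
    have huc : HasCompactSupport u := hvc.mul_left
    have E1 : ∫ x, w (α - 1) x * ((2 * b * n + 4 * b * (α - 1 - b) *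
        (‖x‖ ^ 2 / (1 + ‖x‖ ^ 2))) * (w (-b) x * v x) ^ 2) ≤ (4 * b ^ 2 + ε / 2) * Nm α u := by
      unfold Nm
      rw [← integral_const_mul]
      refine integral_mono ?_ ((integrable_Nm _ hu1c huc).const_mul _) fun x => ?_
      · apply Continuous.integrable_of_hasCompactSupport
        · exact (continuous_w _).mul (hsol.cV.mul (hu1c.pow 2))
        · apply HasCompactSupport.mul_left
          apply HasCompactSupport.mul_left
          exact huc.comp_left (g := fun t : ℝ => t ^ 2) (by simp)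
      · simp only
        by_cases hx : v x = 0
        · simp [hu, hx]
        · have h1 : Y < lr x := by
            by_contra hcon
            exact hx (hgz _ (not_lt.1 hcon))
          have h2 : Real.exp Y < 1 + ‖x‖ ^ 2 := by
            unfold lr at h1
            rwa [Real.lt_log_iff_exp_lt (one_add_pos x)] at h1
          have h3 : 2 * b * n + 4 * b * (α - 1 - b) * (‖x‖ ^ 2 / (1 + ‖x‖ ^ 2)) =
              4 * b ^ 2 - 4 * (b * (α - 1 - b)) * (1 + ‖x‖ ^ 2)⁻¹ := by
            have h4 : ‖x‖ ^ 2 / (1 + ‖x‖ ^ 2) = 1 - (1 + ‖x‖ ^ 2)⁻¹ := by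
              have := (one_add_pos x).ne'
              field_simp
              ring
            have h5 : 2 * b * n + 4 * b * (α - 1 - b) = 4 * b ^ 2 := by
              have : (n : ℝ) = 4 * b - 2 * α + 2 := by linarith
              rw [this]; ring
            rw [h4, ← h5]
            ring
          have h6 : (1 + ‖x‖ ^ 2)⁻¹ ≤ Real.exp (-Y) := by
            rw [Real.exp_neg]
            exact inv_anti₀ (Real.exp_pos _) h2.le
          have h7 : -(4 * (b * (α - 1 - b)) * (1 + ‖x‖ ^ 2)⁻¹) ≤ ε / 2 := by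
            have h8 : -(4 * (b * (α - 1 - b))) ≤ K := by
              rw [hK]
              have := neg_abs_le (b * (α - 1 - b))
              linarith
            have h9 : 0 ≤ (1 + ‖x‖ ^ 2)⁻¹ := by positivity
            calc -(4 * (b * (α - 1 - b)) * (1 + ‖x‖ ^ 2)⁻¹)
                = -(4 * (b * (α - 1 - b))) * (1 + ‖x‖ ^ 2)⁻¹ := by ring
              _ ≤ K * (1 + ‖x‖ ^ 2)⁻¹ := mul_le_mul_of_nonneg_right h8 h9
              _ ≤ K * Real.exp (-Y) := mul_le_mul_of_nonneg_left h6 hK0
              _ ≤ ε / 2 := hT1.le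
          rw [h3]
          have h10 : 4 * b ^ 2 - 4 * (b * (α - 1 - b)) * (1 + ‖x‖ ^ 2)⁻¹ ≤ 4 * b ^ 2 + ε / 2 := by
            linarith
          have h11 : 0 ≤ w (α - 1) x * (w (-b) x * v x) ^ 2 :=
            mul_nonneg (w_pos _ _).le (sq_nonneg _)
          have := mul_le_mul_of_nonneg_right h10 h11
          simp only [hu]
          linarith
    have E2 : ∫ x, w α x * (w (-b) x ^ 2 * ‖fderiv ℝ v x‖ ^ 2) ≤ 4 * (cn n / 2 * (A / L)) := by
      rw [← I2]
      refine le_trans ?_ (mul_le_mul_of_nonneg_left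
        (J_le hn (hg'c.pow 2) hg'2c fun y => sq_nonneg _) (by norm_num : (0 : ℝ) ≤ 4))
      rw [← integral_const_mul]
      have i1 : Integrable fun x : E n => w (-(n / 2 : ℝ)) x * g' (lr x) ^ 2 := by
        apply Continuous.integrable_of_hasCompactSupport
        · exact (continuous_w _).mul ((hg'c.comp (contDiff_lr (k := 0)).continuous).pow 2)
        · exact (hcs_comp hg'2c).mul_left
      refine integral_mono ?_ (i1.const_mul _) fun x => ?_
      · apply Continuous.integrable_of_hasCompactSupport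
        · exact (continuous_w α).mul (((continuous_w _).pow 2).mul
            ((hv1'.continuous_fderiv one_ne_zero).norm.pow 2))
        · apply HasCompactSupport.mul_left
          apply HasCompactSupport.mul_left
          exact (hvc.fderiv ℝ).comp_left (g := fun L : E n →L[ℝ] ℝ => ‖L‖ ^ 2) (by simp)
      · simp only
        rw [hvd x, norm_smul, innerSL_apply_norm, mul_pow, Real.norm_eq_abs, sq_abs, w_sub_one α x,
          ← hexp]
        have h1 : (g' (lr x) * (2 / (1 + ‖x‖ ^ 2))) ^ 2 * ‖x‖ ^ 2 * (1 + ‖x‖ ^ 2) ≤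
            4 * g' (lr x) ^ 2 := by
          have h2 : (g' (lr x) * (2 / (1 + ‖x‖ ^ 2))) ^ 2 * ‖x‖ ^ 2 * (1 + ‖x‖ ^ 2) =
              4 * g' (lr x) ^ 2 * (‖x‖ ^ 2 / (1 + ‖x‖ ^ 2)) := by
            have := (one_add_pos x).ne'
            field_simp
            ring
          rw [h2]
          have h3 : ‖x‖ ^ 2 / (1 + ‖x‖ ^ 2) ≤ 1 := by
            rw [div_le_one (one_add_pos x)]; linarith
          have h4 : 0 ≤ 4 * g' (lr x) ^ 2 := by positivity
          have := mul_le_mul_of_nonneg_left h3 h4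
          linarith
        have h5 : 0 ≤ w (α - 1) x * w (-b) x ^ 2 := mul_nonneg (w_pos _ _).le (sq_nonneg _)
        have := mul_le_mul_of_nonneg_left h1 h5
        linarith
    have h1 : 4 * (cn n / 2 * (A / L)) ≤ ε / 2 * Nm α u := by
      have h2 : cn n * (A / L) ≤ cn n * (ε / 16 * (L * B)) := mul_le_mul_of_nonneg_left hLA hcn.le
      have h3 : ε / 2 * (cn n / 4 * (L * B)) ≤ ε / 2 * Nm α u :=
        mul_le_mul_of_nonneg_left hNge (by positivity)
      linarith
    linarith
  · intro hb0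
    have h1 : ∀ x : E n, w (α - 1) x * u x = w (-(n / 2 : ℝ)) x * (Real.exp (b * lr x) * g (lr x)) := by
      intro x
      simp only [hu, hv]
      rw [← hexp, ← w_lr, sq, mul_assoc, mul_assoc, ← mul_assoc (w (-b) x) (w b x), ← w_add,
        neg_add_cancel, w_zero, one_mul]
    simp only [h1]
    have hFc : Continuous fun y => Real.exp (b * y) * g y := by fun_prop
    have hFs : HasCompactSupport fun y => Real.exp (b * y) * g y := hgcs.mul_left
    have hF0 : ∀ y, 0 ≤ Real.exp (b * y) * g y := fun y => mul_nonneg (Real.exp_pos _).le (hg0 y)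
    have h2 := J_le (n := n) hn hFc hFs hF0
    rw [abs_of_nonneg (integral_nonneg fun x => mul_nonneg (w_pos _ _).le (hF0 _))]
    refine h2.trans (le_trans ?_ (hT4 hb0))
    refine mul_le_mul_of_nonneg_left ?_ (by positivity)
    rw [← I3, ← integral_const_mul]
    refine integral_mono (hFc.integrable_of_hasCompactSupport hFs)
      ((hgc.integrable_of_hasCompactSupport hgcs).const_mul _) fun y => ?_
    simp only
    rcases le_or_gt y Y with h | h
    · rw [hgz y h]; simp
    · refine mul_le_mul_of_nonneg_right ?_ (hg0 y)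
      apply Real.exp_le_exp.2
      nlinarith

end Q81.Har
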