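import Mathlib
import Pool.Agent.Q81.Har11

/-!
# The best constant in the weighted Hardy inequality
-/

namespace Q81.Har

open MeasureTheory Set Filter Topology Metric
open scoped ContDiff RealInnerProductSpace

variable {n : ℕ}

/-- The two-sided statement. -/
def Best (n : ℕ) (α v : ℝ) (P : Prop) : Prop :=
  (∀ u : E n → ℝ, ContDiff ℝ ∞ u → HasCompactSupport u →
    (P → ∫ x, w (α - 1) x * u x = 0) → v * Nm α u ≤ En α u) ∧
  (∀ ε : ℝ, 0 < ε → ∃ u : E n → ℝ, ContDiff ℝ ∞ u ∧ HasCompactSupport u ∧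
    (P → ∫ x, w (α - 1) x * u x = 0) ∧ 0 < Nm α u ∧ En α u ≤ (v + ε) * Nm α u)

lemma integrable_w {a : ℝ} (ha : (n : ℝ) < -2 * a) : Integrable (w (n := n) a) := by
  have h1 : Integrable (fun x : E n => (1 + ‖x‖ ^ 2) ^ (-(-2 * a) / 2)) := by
    apply integrable_rpow_neg_one_add_norm_sq
    rw [finrank_euclideanSpace_fin]
    exact ha
  have e : -(-2 * a) / 2 = a := by ring
  rw [e] at h1
  exact h1

lemma one_of_smooth {u : E n → ℝ} (h : ContDiff ℝ ∞ u) : ContDiff ℝ 1 u :=
  h.of_le (by exact_mod_cast le_top)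

/-- `1 < α ≤ 1 + n / 2`. -/
theorem best_one [Nontrivial (E n)] (hn : 2 ≤ n) {α : ℝ} (h1 : 1 < α) (h2 : α ≤ 1 + n / 2)
    {P : Prop} (hP : ¬ P) : Best n α ((n + 2 * α - 2) ^ 2 / 4) P := by
  refine ⟨fun u hu hc _ => lower_small h1 h2 (one_of_smooth hu) hc, fun ε hε => ?_⟩
  obtain ⟨q₀, hq, h⟩ := bumps hn α ((n + 2 * α - 2) / 4) (by ring) hε
  obtain ⟨u, hu, hc, -, h4, h5, -⟩ := h 1 one_pos
  refine ⟨u, hu, hc, fun h => absurd h hP, hq.trans_le h4, ?_⟩
  rw [show ((n : ℝ) + 2 * α - 2) ^ 2 / 4 = 4 * ((n + 2 * α - 2) / 4) ^ 2 by ring]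
  exact h5

/-- `α ≥ 1 + n / 2`. -/
theorem best_two [Nontrivial (E n)] (hn : 2 ≤ n) {α : ℝ} (h1 : 1 + n / 2 ≤ α)
    {P : Prop} (hP : ¬ P) : Best n α (2 * n * (α - 1)) P := by
  refine ⟨fun u hu hc _ => lower_large (one_of_smooth hu) hc, fun ε hε => ?_⟩
  have hn0 : (2 : ℝ) ≤ n := by exact_mod_cast hn
  rcases h1.eq_or_lt with h | h
  · obtain ⟨-, h3⟩ := best_one hn (α := α) (by linarith) h.ge hP
    obtain ⟨u, hu⟩ := h3 ε hε
    have e : (n + 2 * α - 2) ^ 2 / 4 = 2 * n * (α - 1) := by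
      rw [← h]; ring
    rw [e] at hu
    exact ⟨u, hu⟩
  · have hsol := sol_pow (n := n) α (α - 1)
    have e : (fun x : E n => 2 * (α - 1) * n + 4 * (α - 1) * (α - 1 - (α - 1)) *
        (‖x‖ ^ 2 / (1 + ‖x‖ ^ 2))) = fun _ => 2 * n * (α - 1) := by
      funext x; rw [sub_self]; ring
    rw [e] at hsol
    have hi : Integrable fun x : E n => w (α - 1) x * w (-(α - 1)) x ^ 2 := by
      have h3 : Integrable (w (n := n) (-(α - 1))) := integrable_w (by linarith)
      refine h3.congr (ae_of_all _ fun x => ?_)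
      simp only
      rw [sq, ← mul_assoc, ← w_add, add_neg_cancel, w_zero, one_mul]
    obtain ⟨k, hk1, hk2⟩ := upper_free hsol hi (x₀ := 0) (w_pos _ _).ne' (by simp) hε
    exact ⟨_, tr_smooth hsol.cφ k, tr_compact k, fun h => absurd h hP, hk1, hk2⟩

/-- correction of the mean of a function supported away from the unit ball -/
lemma correct {α v ε q₀ : ℝ} (hε : 0 < ε) (hq : 0 < q₀)
    (h : ∀ δ : ℝ, 0 < δ → ∃ u : E n → ℝ, ContDiff ℝ ∞ u ∧
      HasCompactSupport u ∧ (∀ x, ‖x‖ ≤ 1 → u x = 0) ∧ q₀ ≤ Nm α u ∧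
      En α u ≤ (v + ε / 2) * Nm α u ∧ |∫ x, w (α - 1) x * u x| ≤ δ) (hv : 0 ≤ v) :
    ∃ u : E n → ℝ, ContDiff ℝ ∞ u ∧ HasCompactSupport u ∧
    (∫ x, w (α - 1) x * u x = 0) ∧ 0 < Nm α u ∧ En α u ≤ (v + ε) * Nm α u := by
  have hη : ContDiff ℝ 1 (eta n) := (eta n).contDiff (n := 1)
  have hηc : HasCompactSupport (eta n) := (eta n).hasCompactSupport
  have hηcont : Continuous (eta n) := hη.continuous
  set N := ∫ x, w (α - 1) x * eta n x with hN
  have hηi : Integrable fun x => w (α - 1) x * eta n x :=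
    ((continuous_w _).mul hηcont).integrable_of_hasCompactSupport hηc.mul_left
  have hNpos : 0 < N := by
    rw [hN, integral_pos_iff_support_of_nonneg (fun x => mul_nonneg (w_pos _ _).le (eta n).nonneg)
      hηi]
    have : ball (0 : E n) 1 ⊆ Function.support fun x => w (α - 1) x * eta n x := by
      intro x hx
      rw [Function.mem_support]
      have h2 : x ∈ Function.support (eta n) := by rw [(eta n).support_eq]; exact hx
      exact mul_ne_zero (w_pos _ _).ne' h2
    exact (measure_ball_pos volume (0 : E n) one_pos).trans_le (measure_mono this)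
  set En0 := En α (eta n) with hEn0
  have hEn0' : 0 ≤ En0 := integral_nonneg fun x => mul_nonneg (w_pos _ _).le (sq_nonneg _)
  set δ := min 1 (ε / 2 * q₀ * N ^ 2 / (En0 + 1)) with hδ
  have hδ0 : 0 < δ := lt_min one_pos (by positivity)
  obtain ⟨t, ht1, htc, htz, hN1, hE1, hM⟩ := h δ hδ0
  have ht1' := one_of_smooth ht1
  set m := (∫ x, w (α - 1) x * t x) / N with hm
  have hm2 : m ^ 2 * En0 ≤ ε / 2 * q₀ := by
    have h1 : (∫ x, w (α - 1) x * t x) ^ 2 ≤ δ ^ 2 := by
      rw [← sq_abs]; exact pow_le_pow_left₀ (abs_nonneg _) hM 2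
    have h2 : δ ^ 2 ≤ δ := by
      have : δ ≤ 1 := min_le_left _ _
      nlinarith
    have h3 : δ * (En0 + 1) ≤ ε / 2 * q₀ * N ^ 2 := by
      have : δ ≤ ε / 2 * q₀ * N ^ 2 / (En0 + 1) := min_le_right _ _
      rwa [le_div_iff₀ (by positivity)] at this
    rw [hm, div_pow, div_mul_eq_mul_div, div_le_iff₀ (by positivity)]
    calc (∫ x, w (α - 1) x * t x) ^ 2 * En0 ≤ δ * (En0 + 1) :=
          mul_le_mul (h1.trans h2) (by linarith) hEn0' hδ0.le
      _ ≤ ε / 2 * q₀ * N ^ 2 := h3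
  set u : E n → ℝ := fun x => t x - m * eta n x with hu
  have hti : Integrable fun x => w (α - 1) x * t x :=
    ((continuous_w _).mul ht1.continuous).integrable_of_hasCompactSupport htc.mul_left
  have hp1 : ∀ x, ‖fderiv ℝ u x‖ ^ 2 = ‖fderiv ℝ t x‖ ^ 2 + m ^ 2 * ‖fderiv ℝ (eta n) x‖ ^ 2 := by
    intro x
    have h2 : fderiv ℝ u x = fderiv ℝ t x - m • fderiv ℝ (eta n) x :=
      (((ht1'.differentiable one_ne_zero) x).hasFDerivAt.sub
        (((hη.differentiable one_ne_zero) x).hasFDerivAt.const_mul m)).fderiv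
    rcases lt_or_ge ‖x‖ 1 with hx | hx
    · have h3 : fderiv ℝ t x = 0 := by
        have h4 : t =ᶠ[𝓝 x] fun _ => 0 := by
          have : ball (0 : E n) 1 ∈ 𝓝 x := isOpen_ball.mem_nhds (by rwa [mem_ball_zero_iff])
          filter_upwards [this] with y hy
          rw [mem_ball_zero_iff] at hy
          exact htz y hy.le
        rw [h4.fderiv_eq, fderiv_fun_const]
        rfl
      rw [h2, h3, zero_sub, norm_neg, norm_smul, mul_pow, Real.norm_eq_abs, sq_abs, norm_zero]
      ring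
    · rw [h2, fderiv_eta_zero hx]
      simp
  have hp2 : ∀ x, u x ^ 2 = t x ^ 2 + m ^ 2 * eta n x ^ 2 := by
    intro x
    simp only [hu]
    rcases lt_or_ge ‖x‖ 1 with hx | hx
    · rw [htz x hx.le]; ring
    · rw [eta_zero hx]; ring
  have iE : Integrable fun x => w α x * ‖fderiv ℝ t x‖ ^ 2 := integrable_En α ht1' htc
  have iEη : Integrable fun x => w α x * ‖fderiv ℝ (eta n) x‖ ^ 2 := integrable_En α hη hηc
  have iN : Integrable fun x => w (α - 1) x * t x ^ 2 := integrable_Nm _ ht1.continuous htc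
  have iNη : Integrable fun x => w (α - 1) x * eta n x ^ 2 := integrable_Nm _ hηcont hηc
  have hEn : En α u = En α t + m ^ 2 * En0 := by
    rw [hEn0]
    unfold En
    have e3 : ∀ x, w α x * ‖fderiv ℝ u x‖ ^ 2 = w α x * ‖fderiv ℝ t x‖ ^ 2 +
        m ^ 2 * (w α x * ‖fderiv ℝ (eta n) x‖ ^ 2) := by
      intro x
      rw [hp1]; ring
    simp only [e3]
    rw [integral_add iE (iEη.const_mul _), integral_const_mul]
  have hNm : Nm α u = Nm α t + m ^ 2 * Nm α (eta n) := by
    unfold Nm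
    have e3 : ∀ x, w (α - 1) x * u x ^ 2 = w (α - 1) x * t x ^ 2 +
        m ^ 2 * (w (α - 1) x * eta n x ^ 2) := by
      intro x
      rw [hp2]; ring
    simp only [e3]
    rw [integral_add iN (iNη.const_mul _), integral_const_mul]
  have hNη : 0 ≤ Nm α (eta n) := integral_nonneg fun x => mul_nonneg (w_pos _ _).le (sq_nonneg _)
  have hge : Nm α t ≤ Nm α u := by
    rw [hNm]
    have : 0 ≤ m ^ 2 * Nm α (eta n) := by positivity
    linarith
  refine ⟨u, ht1.sub (contDiff_const.mul ((eta n).contDiff (n := ⊤))), htc.sub hηc.mul_left, ?_,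
    by linarith, ?_⟩
  · have e3 : ∀ x, w (α - 1) x * u x = w (α - 1) x * t x - m * (w (α - 1) x * eta n x) := by
      intro x
      simp only [hu]; ring
    simp only [e3]
    rw [integral_sub hti (hηi.const_mul _), integral_const_mul, ← hN, hm]
    field_simp
    ring
  · rw [hEn]
    have h3 : ε / 2 * q₀ ≤ ε / 2 * Nm α t := mul_le_mul_of_nonneg_left hN1 (by positivity)
    have h4 : (v + ε) * Nm α t ≤ (v + ε) * Nm α u := mul_le_mul_of_nonneg_left hge (by linarith)
    linarith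

/-- `- (n + 2) / 2 ≤ α < - (n - 2) / 2`. -/
theorem best_three [Nontrivial (E n)] (hn : 2 ≤ n) {α : ℝ} (h1 : α < -((n : ℝ) - 2) / 2)
    (h2 : -((n : ℝ) + 2) / 2 ≤ α) {P : Prop} (hP : P) : Best n α ((n + 2 * α - 2) ^ 2 / 4) P := by
  have hn0 : (2 : ℝ) ≤ n := by exact_mod_cast hn
  constructor
  · intro u hu hc h0
    have h := lower_mean (b := -α) (k := (2 * -α + n + 2) / 4) (by omega) (by linarith)
      (by linarith) (by linarith) (by linarith) (one_of_smooth hu) hc
      (by rw [neg_neg]; exact h0 hP) (lam := (n + 2 * α - 2) ^ 2 / 4)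
      (by nlinarith) (by nlinarith)
    rw [neg_neg] at h
    exact h
  · intro ε hε
    obtain ⟨q₀, hq, h⟩ := bumps hn α ((n + 2 * α - 2) / 4) (by ring) (half_pos hε)
    have hb : ((n : ℝ) + 2 * α - 2) / 4 < 0 := by linarith
    have e : 4 * (((n : ℝ) + 2 * α - 2) / 4) ^ 2 = (n + 2 * α - 2) ^ 2 / 4 := by ring
    obtain ⟨u, hu, hc, h3, h4, h5⟩ := correct (α := α) (v := (n + 2 * α - 2) ^ 2 / 4) hε hq
      (fun δ hδ => by
        obtain ⟨u, a1, a2, a3, a4, a5, a6⟩ := h δ hδ
        rw [e] at a5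
        exact ⟨u, a1, a2, a3, a4, a5, a6 hb⟩) (by positivity)
    exact ⟨u, hu, hc, fun _ => h3, h4, h5⟩

/-- `- n ≤ α ≤ - (n + 2) / 2`. -/
theorem best_four [Nontrivial (E n)] (hn : 2 ≤ n) {α : ℝ} (h1 : α ≤ -((n : ℝ) + 2) / 2)
    (h2 : -(n : ℝ) ≤ α) {P : Prop} (hP : P) : Best n α (-4 * α - 2 * n) P := by
  have hn0 : (2 : ℝ) ≤ n := by exact_mod_cast hn
  constructor
  · intro u hu hc h0
    have h := lower_mean (b := -α) (k := -α) (by omega) (by linarith)
      (by linarith) (by linarith) (by linarith) (one_of_smooth hu) hc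
      (by rw [neg_neg]; exact h0 hP) (lam := -4 * α - 2 * n)
      (by linarith) (by linarith)
    rw [neg_neg] at h
    exact h
  · intro ε hε
    rcases h1.eq_or_lt with h | h
    · obtain ⟨-, h3⟩ := best_three hn (α := α) (by linarith) h.ge hP
      obtain ⟨u, hu⟩ := h3 ε hε
      have e : (n + 2 * α - 2) ^ 2 / 4 = -4 * α - 2 * n := by
        rw [h]; ring
      rw [e] at hu
      exact ⟨u, hu⟩
    · have hsol := sol_quad (n := n) (α := α) (by intro h; linarith)
      have hd : 0 < -2 * α - n := by linarith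
      set c : ℝ := n / (-2 * α - n) with hc
      have hc0 : 0 < c := by positivity
      have hi : Integrable fun x : E n => w (α - 1) x * (‖x‖ ^ 2 - c) ^ 2 := by
        have h3 : Integrable (w (n := n) (α + 1)) := integrable_w (by linarith)
        refine (h3.const_mul ((1 + c) ^ 2)).mono' ?_ (ae_of_all _ fun x => ?_)
        · exact ((continuous_w _).mul (by fun_prop)).aestronglyMeasurable
        · rw [Real.norm_eq_abs, abs_of_nonneg (mul_nonneg (w_pos _ _).le (sq_nonneg _))]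
          have h4 : w (α + 1) x = w (α - 1) x * (1 + ‖x‖ ^ 2) ^ 2 := by
            rw [show α + 1 = α - 1 + 1 + 1 by ring, w_add, w_add, w_one]
            ring
          rw [h4]
          have h5 : (‖x‖ ^ 2 - c) ^ 2 ≤ (1 + c) ^ 2 * (1 + ‖x‖ ^ 2) ^ 2 := by
            rw [← mul_pow]
            apply sq_le_sq'
            · nlinarith [sq_nonneg ‖x‖, mul_nonneg hc0.le (sq_nonneg ‖x‖)]
            · nlinarith [sq_nonneg ‖x‖, mul_nonneg hc0.le (sq_nonneg ‖x‖)]
          have := mul_le_mul_of_nonneg_left h5 (w_pos (α - 1) x).le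
          linarith
      obtain ⟨u, hu, huc, h3, h4, h5⟩ := upper_mean hsol (by linarith) hi
        (integrable_w (by linarith)) (A := 2)
        (fun x => by
          rw [norm_smul, Real.norm_eq_abs, abs_of_pos two_pos]
          linarith) (x₀ := 0) (by simp; exact hc0.ne') (by simp) hε
      exact ⟨u, hu, huc, fun _ => h3, h4, h5⟩

/-- `α ≤ - n`. -/
theorem best_five [Nontrivial (E n)] (hn : 2 ≤ n) {α : ℝ} (h1 : α ≤ -(n : ℝ))
    {P : Prop} (hP : P) : Best n α (-2 * α) P := by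
  have hn0 : (2 : ℝ) ≤ n := by exact_mod_cast hn
  constructor
  · intro u hu hc h0
    have h := lower_mean (b := -α) (k := -α) (by omega) (by linarith)
      (by linarith) (by linarith) (by linarith) (one_of_smooth hu) hc
      (by rw [neg_neg]; exact h0 hP) (lam := -2 * α)
      (by linarith) (by linarith)
    rw [neg_neg] at h
    exact h
  · intro ε hε
    obtain ⟨e, he⟩ := exists_ne (0 : E n)
    have hsol := sol_lin (n := n) α e
    have hi : Integrable fun x : E n => w (α - 1) x * ⟪e, x⟫ ^ 2 := by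
      have h3 : Integrable (w (n := n) α) := integrable_w (by linarith)
      refine (h3.const_mul (‖e‖ ^ 2)).mono' ?_ (ae_of_all _ fun x => ?_)
      · exact ((continuous_w _).mul (by fun_prop)).aestronglyMeasurable
      · rw [Real.norm_eq_abs, abs_of_nonneg (mul_nonneg (w_pos _ _).le (sq_nonneg _)),
          w_sub_one α x]
        have h5 : ⟪e, x⟫ ^ 2 ≤ ‖e‖ ^ 2 * (1 + ‖x‖ ^ 2) := by
          have h6 := abs_real_inner_le_norm e x
          have h7 : ⟪e, x⟫ ^ 2 ≤ (‖e‖ * ‖x‖) ^ 2 := by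
            rw [← sq_abs]; exact pow_le_pow_left₀ (abs_nonneg _) h6 2
          nlinarith [sq_nonneg ‖e‖]
        have := mul_le_mul_of_nonneg_left h5 (w_pos (α - 1) x).le
        linarith
    have hne : 0 < ‖e‖ := norm_pos_iff.2 he
    obtain ⟨u, hu, huc, h3, h4, h5⟩ := upper_mean hsol (by linarith) hi
      (integrable_w (by linarith)) (A := ‖e‖)
      (fun x => by nlinarith [norm_nonneg x])
      (x₀ := (1 / (2 * ‖e‖)) • e)
      (by
        rw [inner_smul_right, real_inner_self_eq_norm_sq]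
        positivity)
      (by
        rw [norm_smul, Real.norm_eq_abs, abs_of_pos (by positivity)]
        rw [show 1 / (2 * ‖e‖) * ‖e‖ = 1 / 2 by field_simp]
        norm_num) hε
    exact ⟨u, hu, huc, fun _ => h3, h4, h5⟩

end Q81.Har
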