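import Mathlib

open Real Set MeasureTheory Filter Topology

namespace Pool.Agent.Q81.Hs

noncomputable section

/-- `w t = √(1+t²)` -/
def w (t : ℝ) : ℝ := √(1 + t ^ 2)

lemma w_sq (t : ℝ) : w t ^ 2 = 1 + t ^ 2 := by
  unfold w; exact Real.sq_sqrt (by positivity)

lemma w_pos (t : ℝ) : 0 < w t := by unfold w; positivity

lemma hasDerivAt_w (t : ℝ) : HasDerivAt w (t / w t) t := by
  have h1 : HasDerivAt (fun t : ℝ => 1 + t ^ 2) (2 * t) t := by
    have := (hasDerivAt_pow 2 t).const_add 1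
    simpa using this
  have h2 := h1.sqrt (by positivity)
  have h3 : t / w t = 2 * t / (2 * √(1 + t ^ 2)) := by
    unfold w
    have : √(1 + t ^ 2) ≠ 0 := by positivity
    field_simp
  rw [h3]
  exact h2

/-- `T_k` -/
def T (δ : ℝ) (k : ℕ) (t : ℝ) : ℝ := t * w t ^ (2 * k + 1) / (1 + δ * t ^ 2) ^ (k + 1)

/-- `j_k` (shifted by one): `w^(2k-1)/q^(k+1)`. -/
def j (δ : ℝ) (k : ℕ) (t : ℝ) : ℝ := w t ^ (2 * k) / (w t * (1 + δ * t ^ 2) ^ (k + 1))

lemma hasDerivAt_T {δ : ℝ} (hδ : 0 < δ) (k : ℕ) (t : ℝ) :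
    HasDerivAt (T δ k) (-(2 * k + 1) * j δ k t + (2 * k + 2) * j δ (k + 1) t) t := by
  have hq : 0 < 1 + δ * t ^ 2 := by positivity
  have hw := w_pos t
  have h1 : HasDerivAt (fun t : ℝ => 1 + δ * t ^ 2) (δ * (2 * t)) t := by
    have := ((hasDerivAt_pow 2 t).const_mul δ).const_add 1
    simpa using this
  have h2 : HasDerivAt (fun t : ℝ => (1 + δ * t ^ 2) ^ (k + 1))
      ((k + 1 : ℕ) * (1 + δ * t ^ 2) ^ k * (δ * (2 * t))) t := by
    simpa using h1.fun_pow (k + 1)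
  have h3 : HasDerivAt (fun t : ℝ => w t ^ (2 * k + 1))
      ((2 * k + 1 : ℕ) * w t ^ (2 * k) * (t / w t)) t := by
    simpa using (hasDerivAt_w t).fun_pow (2 * k + 1)
  have h4 := ((hasDerivAt_id t).mul h3).div h2 (by positivity)
  refine h4.congr_deriv ?_
  unfold j
  have hws := w_sq t
  simp only [id, Pi.mul_apply]
  push_cast
  have e1 : w t ^ (2 * (k + 1)) = w t ^ (2 * k) * w t ^ 2 := by ring
  have e2 : w t ^ (2 * k + 1) = w t ^ (2 * k) * w t := by ring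
  have e3 : (1 + δ * t ^ 2) ^ (k + 1 + 1) = (1 + δ * t ^ 2) ^ k * (1 + δ * t ^ 2) ^ 2 := by ring
  have e4 : (1 + δ * t ^ 2) ^ (k + 1) = (1 + δ * t ^ 2) ^ k * (1 + δ * t ^ 2) := by ring
  rw [e1, e2, e3, e4]
  generalize hA : w t ^ (2 * k) = a
  generalize hB : (1 + δ * t ^ 2) ^ k = b
  have hb : 0 < b := by rw [← hB]; positivity
  generalize hW : w t = v at *
  have ht : t ^ 2 = v ^ 2 - 1 := by linarith
  field_simp
  linear_combination (-a * (1 + δ * t ^ 2) * (2 * k + 1)) * hws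

/-- the `artanh`-type term -/
def L (h : ℝ) (t : ℝ) : ℝ := (Real.log (w t + h * t) - Real.log (w t - h * t)) / (2 * h)

lemma wh_pos {h : ℝ} (h0 : 0 < h) (h1 : h < 1) (t : ℝ) : 0 < w t + h * t ∧ 0 < w t - h * t := by
  have hw := w_pos t
  have hws := w_sq t
  have h2 : (h * t) ^ 2 < w t ^ 2 := by
    rw [hws]
    nlinarith [sq_nonneg t, mul_nonneg (sq_nonneg t) (by nlinarith : (0 : ℝ) ≤ 1 - h ^ 2)]
  have h3 := abs_lt_of_sq_lt_sq h2 hw.le
  rw [abs_lt] at h3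
  constructor <;> linarith [h3.1, h3.2]

lemma hasDerivAt_L {h : ℝ} (h0 : 0 < h) (h1 : h < 1) (t : ℝ) :
    HasDerivAt (L h) (j (1 - h ^ 2) 0 t) t := by
  obtain ⟨hp, hm⟩ := wh_pos h0 h1 t
  have hw := w_pos t
  have hws := w_sq t
  have hlin : HasDerivAt (fun t : ℝ => h * t) h t := by
    simpa using (hasDerivAt_id t).const_mul h
  have e1 := ((hasDerivAt_w t).add hlin).log hp.ne'
  have e2 := ((hasDerivAt_w t).sub hlin).log hm.ne'
  have e3 := (e1.sub e2).div_const (2 * h)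
  refine e3.congr_deriv ?_
  have hq : (0 : ℝ) < 1 + (1 - h ^ 2) * t ^ 2 := by
    have : (0 : ℝ) ≤ 1 - h ^ 2 := by nlinarith
    positivity
  have hq2 : (w t + h * t) * (w t - h * t) = 1 + (1 - h ^ 2) * t ^ 2 := by
    nlinarith
  have hpn := hp.ne'
  have hmn := hm.ne'
  have hwn := hw.ne'
  have hj : j (1 - h ^ 2) 0 t = 1 / (w t * ((w t + h * t) * (w t - h * t))) := by
    unfold j
    rw [← hq2]
    simp
  rw [hj]
  simp only [Pi.add_apply, Pi.sub_apply]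
  have key : ∀ P M : ℝ, P = w t + h * t → M = w t - h * t → P ≠ 0 → M ≠ 0 →
      ((t / w t + h) / P - (t / w t - h) / M) / (2 * h) = 1 / (w t * (P * M)) := by
    intro P M hP hM hP0 hM0
    field_simp
    rw [hP, hM]
    linear_combination (2 * h) * hws
  exact key _ _ rfl rfl hpn hmn

/-- second, third and fourth antiderivatives -/
def J2 (h t : ℝ) : ℝ := (T (1 - h ^ 2) 0 t + L h t) / 2
def J3 (h t : ℝ) : ℝ := (T (1 - h ^ 2) 1 t + 3 * J2 h t) / 4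
def J4 (h t : ℝ) : ℝ := (T (1 - h ^ 2) 2 t + 5 * J3 h t) / 6

variable {h : ℝ}

lemma dpos (h0 : 0 < h) (h1 : h < 1) : 0 < 1 - h ^ 2 := by nlinarith

lemma hasDerivAt_J2 (h0 : 0 < h) (h1 : h < 1) (t : ℝ) :
    HasDerivAt (J2 h) (j (1 - h ^ 2) 1 t) t := by
  have e := ((hasDerivAt_T (dpos h0 h1) 0 t).add (hasDerivAt_L h0 h1 t)).div_const 2
  refine e.congr_deriv ?_
  push_cast
  ring

lemma hasDerivAt_J3 (h0 : 0 < h) (h1 : h < 1) (t : ℝ) :
    HasDerivAt (J3 h) (j (1 - h ^ 2) 2 t) t := by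
  have e := ((hasDerivAt_T (dpos h0 h1) 1 t).add ((hasDerivAt_J2 h0 h1 t).const_mul 3)).div_const 4
  refine e.congr_deriv ?_
  push_cast
  ring

lemma hasDerivAt_J4 (h0 : 0 < h) (h1 : h < 1) (t : ℝ) :
    HasDerivAt (J4 h) (j (1 - h ^ 2) 3 t) t := by
  have e := ((hasDerivAt_T (dpos h0 h1) 2 t).add ((hasDerivAt_J3 h0 h1 t).const_mul 5)).div_const 6
  refine e.congr_deriv ?_
  push_cast
  ring

lemma hasDerivAt_J0 (t : ℝ) : HasDerivAt (fun t => t / w t) (1 / w t ^ 3) t := by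
  have e := (hasDerivAt_id t).div (hasDerivAt_w t) (w_pos t).ne'
  refine e.congr_deriv ?_
  have hw := (w_pos t).ne'
  have hws := w_sq t
  simp only [id]
  field_simp
  linear_combination hws

/-- antiderivatives of the two integrands -/
def FU (h t : ℝ) : ℝ := (t / w t - 3 * (1 - h ^ 2) * L h t + 3 * (1 - h ^ 2) ^ 2 * J2 h t
  - (1 - h ^ 2) ^ 3 * J3 h t) / h ^ 6

def FW (h t : ℝ) : ℝ := (L h t - 3 * (1 - h ^ 2) * J2 h t + 3 * (1 - h ^ 2) ^ 2 * J3 h t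
  - (1 - h ^ 2) ^ 3 * J4 h t) / h ^ 6

lemma hasDerivAt_FU (h0 : 0 < h) (h1 : h < 1) (t : ℝ) :
    HasDerivAt (FU h) (1 / (w t ^ 3 * (1 + (1 - h ^ 2) * t ^ 2) ^ 3)) t := by
  have e := ((((hasDerivAt_J0 t).sub ((hasDerivAt_L h0 h1 t).const_mul (3 * (1 - h ^ 2)))).add
    ((hasDerivAt_J2 h0 h1 t).const_mul (3 * (1 - h ^ 2) ^ 2))).sub
    ((hasDerivAt_J3 h0 h1 t).const_mul ((1 - h ^ 2) ^ 3))).div_const (h ^ 6)
  refine e.congr_deriv ?_
  have hw := (w_pos t).ne'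
  have hws := w_sq t
  have hq : 1 + (1 - h ^ 2) * t ^ 2 = h ^ 2 + (1 - h ^ 2) * w t ^ 2 := by rw [hws]; ring
  have hq0 : 1 + (1 - h ^ 2) * t ^ 2 ≠ 0 := by
    have := dpos h0 h1
    positivity
  unfold j
  generalize 1 + (1 - h ^ 2) * t ^ 2 = q at *
  generalize w t = v at *
  field_simp
  rw [hq]
  ring

lemma hasDerivAt_FW (h0 : 0 < h) (h1 : h < 1) (t : ℝ) :
    HasDerivAt (FW h) (1 / (w t * (1 + (1 - h ^ 2) * t ^ 2) ^ 4)) t := by
  have e := ((((hasDerivAt_L h0 h1 t).sub ((hasDerivAt_J2 h0 h1 t).const_mul (3 * (1 - h ^ 2)))).add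
    ((hasDerivAt_J3 h0 h1 t).const_mul (3 * (1 - h ^ 2) ^ 2))).sub
    ((hasDerivAt_J4 h0 h1 t).const_mul ((1 - h ^ 2) ^ 3))).div_const (h ^ 6)
  refine e.congr_deriv ?_
  have hw := (w_pos t).ne'
  have hws := w_sq t
  have hq : 1 + (1 - h ^ 2) * t ^ 2 = h ^ 2 + (1 - h ^ 2) * w t ^ 2 := by rw [hws]; ring
  have hq0 : 1 + (1 - h ^ 2) * t ^ 2 ≠ 0 := by
    have := dpos h0 h1
    positivity
  unfold j
  generalize 1 + (1 - h ^ 2) * t ^ 2 = q at *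
  generalize w t = v at *
  field_simp
  rw [hq]
  ring

end

end Pool.Agent.Q81.Hs
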