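import Pool.Agent.Q81.Hs1

open Real Set MeasureTheory Filter Topology

namespace Pool.Agent.Q81.Hs

noncomputable section

variable {h : ℝ}

lemma y_lt (t : ℝ) : t / w t < 1 := by
  rw [div_lt_one (w_pos t)]
  have hws := w_sq t
  nlinarith [w_pos t, abs_nonneg t, le_abs_self t, sq_abs t, sq_nonneg (w t - |t|),
    sq_nonneg (w t + |t|)]

lemma tendsto_y : Tendsto (fun t => t / w t) atTop (𝓝 1) := by
  have h1 : Tendsto (fun t : ℝ => 1 + t ^ 2) atTop atTop := by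
    apply tendsto_atTop_add_const_left
    exact tendsto_pow_atTop (by norm_num)
  have h2 : Tendsto (fun t : ℝ => √(1 - (1 + t ^ 2)⁻¹)) atTop (𝓝 √(1 - 0)) := by
    apply (Real.continuous_sqrt.tendsto _).comp
    exact tendsto_const_nhds.sub (tendsto_inv_atTop_zero.comp h1)
  simp only [sub_zero, Real.sqrt_one] at h2
  refine h2.congr' ?_
  filter_upwards [eventually_ge_atTop 0] with t ht
  have hw := w_pos t
  have hws := w_sq t
  have h3 : 1 - (1 + t ^ 2)⁻¹ = (t / w t) ^ 2 := by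
    rw [div_pow, hws]
    have : (1 + t ^ 2) ≠ 0 := by positivity
    field_simp
    ring
  rw [h3, Real.sqrt_sq (by positivity)]

lemma T_eq {δ : ℝ} (hδ : δ = 1 - h ^ 2) (h0 : 0 < h) (h1 : h < 1) (k : ℕ) (t : ℝ) :
    T δ k t = (t / w t) / (1 - h ^ 2 * (t / w t) ^ 2) ^ (k + 1) := by
  have hd := dpos h0 h1
  have hw := w_pos t
  have hws := w_sq t
  have hq : 1 + δ * t ^ 2 = w t ^ 2 * (1 - h ^ 2 * (t / w t) ^ 2) := by
    rw [hδ]
    field_simp
    rw [hws]; ring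
  have hq0 : 0 < 1 + δ * t ^ 2 := by rw [hδ]; positivity
  have hr : 1 - h ^ 2 * (t / w t) ^ 2 ≠ 0 := by
    intro h2
    rw [h2, mul_zero] at hq
    linarith
  unfold T
  rw [hq, mul_pow]
  have e1 : w t ^ (2 * k + 1) = w t ^ (2 * (k + 1)) / w t := by
    rw [eq_div_iff hw.ne']; ring
  have e2 : (w t ^ 2) ^ (k + 1) = w t ^ (2 * (k + 1)) := by ring
  rw [e1, e2]
  have e3 : w t ^ (2 * (k + 1)) ≠ 0 := by positivity
  have e4 : (1 - h ^ 2 * (t / w t) ^ 2) ^ (k + 1) ≠ 0 := pow_ne_zero _ hr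
  generalize (1 - h ^ 2 * (t / w t) ^ 2) ^ (k + 1) = b at *
  generalize w t ^ (2 * (k + 1)) = a at *
  have := hw.ne'
  field_simp

lemma L_eq (h0 : 0 < h) (h1 : h < 1) (t : ℝ) :
    L h t = (Real.log (1 + h * (t / w t)) - Real.log (1 - h * (t / w t))) / (2 * h) := by
  obtain ⟨hp, hm⟩ := wh_pos h0 h1 t
  have hw := w_pos t
  have e1 : w t + h * t = w t * (1 + h * (t / w t)) := by field_simp
  have e2 : w t - h * t = w t * (1 - h * (t / w t)) := by field_simp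
  have p1 : 1 + h * (t / w t) ≠ 0 := by
    intro h2; rw [e1, h2, mul_zero] at hp; exact lt_irrefl _ hp
  have p2 : 1 - h * (t / w t) ≠ 0 := by
    intro h2; rw [e2, h2, mul_zero] at hm; exact lt_irrefl _ hm
  unfold L
  rw [e1, e2, Real.log_mul hw.ne' p1, Real.log_mul hw.ne' p2]
  ring

lemma tendsto_T (h0 : 0 < h) (h1 : h < 1) (k : ℕ) :
    Tendsto (T (1 - h ^ 2) k) atTop (𝓝 (1 / (1 - h ^ 2) ^ (k + 1))) := by
  have hd := dpos h0 h1
  have e : T (1 - h ^ 2) k = fun t => (t / w t) / (1 - h ^ 2 * (t / w t) ^ 2) ^ (k + 1) := by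
    funext t; exact T_eq rfl h0 h1 k t
  rw [e]
  have c : ContinuousAt (fun y : ℝ => y / (1 - h ^ 2 * y ^ 2) ^ (k + 1)) 1 := by
    apply ContinuousAt.div continuousAt_id (by fun_prop)
    have : (1 - h ^ 2 * 1 ^ 2) = 1 - h ^ 2 := by ring
    rw [this]; positivity
  have := c.tendsto.comp tendsto_y
  simpa [Function.comp_def] using this

/-- limit of `L` -/
def Linf (h : ℝ) : ℝ := (Real.log (1 + h) - Real.log (1 - h)) / (2 * h)

lemma tendsto_L (h0 : 0 < h) (h1 : h < 1) : Tendsto (L h) atTop (𝓝 (Linf h)) := by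
  have e : L h = fun t => (Real.log (1 + h * (t / w t)) - Real.log (1 - h * (t / w t))) / (2 * h) := by
    funext t; exact L_eq h0 h1 t
  rw [e]
  have c : ContinuousAt (fun y : ℝ => (Real.log (1 + h * y) - Real.log (1 - h * y)) / (2 * h)) 1 := by
    apply ContinuousAt.div_const
    apply ContinuousAt.sub
    · apply ContinuousAt.log (by fun_prop); linarith
    · apply ContinuousAt.log (by fun_prop); linarith
  have := c.tendsto.comp tendsto_y
  simpa [Function.comp_def, Linf] using this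

def J2inf (h : ℝ) : ℝ := (1 / (1 - h ^ 2) + Linf h) / 2
def J3inf (h : ℝ) : ℝ := (1 / (1 - h ^ 2) ^ 2 + 3 * J2inf h) / 4
def J4inf (h : ℝ) : ℝ := (1 / (1 - h ^ 2) ^ 3 + 5 * J3inf h) / 6
def U (h : ℝ) : ℝ := (1 - 3 * (1 - h ^ 2) * Linf h + 3 * (1 - h ^ 2) ^ 2 * J2inf h
  - (1 - h ^ 2) ^ 3 * J3inf h) / h ^ 6
def W (h : ℝ) : ℝ := (Linf h - 3 * (1 - h ^ 2) * J2inf h + 3 * (1 - h ^ 2) ^ 2 * J3inf h
  - (1 - h ^ 2) ^ 3 * J4inf h) / h ^ 6

lemma tendsto_J2 (h0 : 0 < h) (h1 : h < 1) : Tendsto (J2 h) atTop (𝓝 (J2inf h)) := by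
  have := ((tendsto_T h0 h1 0).add (tendsto_L h0 h1)).div_const 2
  have e : J2 h = fun a => (T (1 - h ^ 2) 0 a + L h a) / 2 := rfl
  rw [e]
  simpa [J2inf] using this

lemma tendsto_J3 (h0 : 0 < h) (h1 : h < 1) : Tendsto (J3 h) atTop (𝓝 (J3inf h)) := by
  have := ((tendsto_T h0 h1 1).add ((tendsto_J2 h0 h1).const_mul 3)).div_const 4
  have e : J3 h = fun a => (T (1 - h ^ 2) 1 a + 3 * J2 h a) / 4 := rfl
  rw [e]
  simpa [J3inf] using this

lemma tendsto_J4 (h0 : 0 < h) (h1 : h < 1) : Tendsto (J4 h) atTop (𝓝 (J4inf h)) := by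
  have := ((tendsto_T h0 h1 2).add ((tendsto_J3 h0 h1).const_mul 5)).div_const 6
  have e : J4 h = fun a => (T (1 - h ^ 2) 2 a + 5 * J3 h a) / 6 := rfl
  rw [e]
  simpa [J4inf] using this

lemma tendsto_FU (h0 : 0 < h) (h1 : h < 1) : Tendsto (FU h) atTop (𝓝 (U h)) := by
  have := (((tendsto_y.sub ((tendsto_L h0 h1).const_mul (3 * (1 - h ^ 2)))).add
    ((tendsto_J2 h0 h1).const_mul (3 * (1 - h ^ 2) ^ 2))).sub
    ((tendsto_J3 h0 h1).const_mul ((1 - h ^ 2) ^ 3))).div_const (h ^ 6)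
  exact this

lemma tendsto_FW (h0 : 0 < h) (h1 : h < 1) : Tendsto (FW h) atTop (𝓝 (W h)) := by
  have := ((((tendsto_L h0 h1).sub ((tendsto_J2 h0 h1).const_mul (3 * (1 - h ^ 2)))).add
    ((tendsto_J3 h0 h1).const_mul (3 * (1 - h ^ 2) ^ 2))).sub
    ((tendsto_J4 h0 h1).const_mul ((1 - h ^ 2) ^ 3))).div_const (h ^ 6)
  exact this

lemma FU_zero : FU h 0 = 0 := by simp [FU, L, J2, J3, T]
lemma FW_zero : FW h 0 = 0 := by simp [FW, L, J2, J3, J4, T]

lemma fU_nonneg (h0 : 0 < h) (h1 : h < 1) (t : ℝ) :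
    0 ≤ 1 / (w t ^ 3 * (1 + (1 - h ^ 2) * t ^ 2) ^ 3) := by
  have := w_pos t
  have := dpos h0 h1
  positivity

lemma fW_nonneg (h0 : 0 < h) (h1 : h < 1) (t : ℝ) :
    0 ≤ 1 / (w t * (1 + (1 - h ^ 2) * t ^ 2) ^ 4) := by
  have := w_pos t
  have := dpos h0 h1
  positivity

lemma integrable_U (h0 : 0 < h) (h1 : h < 1) :
    IntegrableOn (fun t => 1 / (w t ^ 3 * (1 + (1 - h ^ 2) * t ^ 2) ^ 3)) (Ioi 0) :=
  integrableOn_Ioi_deriv_of_nonneg' (fun t _ => hasDerivAt_FU h0 h1 t)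
    (fun t _ => fU_nonneg h0 h1 t) (tendsto_FU h0 h1)

lemma integral_U (h0 : 0 < h) (h1 : h < 1) :
    ∫ t in Ioi (0 : ℝ), 1 / (w t ^ 3 * (1 + (1 - h ^ 2) * t ^ 2) ^ 3) = U h := by
  rw [integral_Ioi_of_hasDerivAt_of_nonneg' (fun t _ => hasDerivAt_FU h0 h1 t)
    (fun t _ => fU_nonneg h0 h1 t) (tendsto_FU h0 h1), FU_zero, sub_zero]

lemma integrable_W (h0 : 0 < h) (h1 : h < 1) :
    IntegrableOn (fun t => 1 / (w t * (1 + (1 - h ^ 2) * t ^ 2) ^ 4)) (Ioi 0) :=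
  integrableOn_Ioi_deriv_of_nonneg' (fun t _ => hasDerivAt_FW h0 h1 t)
    (fun t _ => fW_nonneg h0 h1 t) (tendsto_FW h0 h1)

lemma integral_W (h0 : 0 < h) (h1 : h < 1) :
    ∫ t in Ioi (0 : ℝ), 1 / (w t * (1 + (1 - h ^ 2) * t ^ 2) ^ 4) = W h := by
  rw [integral_Ioi_of_hasDerivAt_of_nonneg' (fun t _ => hasDerivAt_FW h0 h1 t)
    (fun t _ => fW_nonneg h0 h1 t) (tendsto_FW h0 h1), FW_zero, sub_zero]

/-- the number used -/
def h₀ : ℝ := 1023 / 1025

lemma h₀_pos : 0 < h₀ := by unfold h₀; norm_num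
lemma h₀_lt : h₀ < 1 := by unfold h₀; norm_num

lemma Linf_h₀ : Linf h₀ = 5 * Real.log 2 * (1025 / 1023) := by
  unfold Linf h₀
  have e1 : Real.log (1 + 1023 / 1025) = 11 * Real.log 2 - Real.log 1025 := by
    have : (1 + 1023 / 1025 : ℝ) = 2 ^ 11 / 1025 := by norm_num
    rw [this, Real.log_div (by norm_num) (by norm_num), Real.log_pow]
    norm_num
  have e2 : Real.log (1 - 1023 / 1025) = Real.log 2 - Real.log 1025 := by
    have : (1 - 1023 / 1025 : ℝ) = 2 / 1025 := by norm_num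
    rw [this, Real.log_div (by norm_num) (by norm_num)]
  rw [e1, e2]
  ring

lemma U_lower : (0.975699 : ℝ) < U h₀ := by
  unfold U J3inf J2inf
  rw [Linf_h₀]
  have l1 := Real.log_two_gt_d9
  have l2 := Real.log_two_lt_d9
  unfold h₀
  norm_num
  nlinarith

lemma W_lower : (2.56909 : ℝ) < W h₀ := by
  unfold W J4inf J3inf J2inf
  rw [Linf_h₀]
  have l1 := Real.log_two_gt_d9
  have l2 := Real.log_two_lt_d9
  unfold h₀
  norm_num
  nlinarith

end

end Pool.Agent.Q81.Hs
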