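import Pool.Agent.Q81.Hs2

open Real Set MeasureTheory Filter Topology

namespace Pool.Agent.Q81.Hs

noncomputable section

lemma g0_int {b : ℝ} (hb : 0 < b) : Integrable (fun x : ℝ => Real.exp (-(b * x ^ 2) / 2)) := by
  have := integrable_exp_neg_mul_sq (b := b / 2) (by positivity)
  refine this.congr (ae_of_all _ fun x => ?_)
  show Real.exp (-(b / 2) * x ^ 2) = _
  congr 1; ring

lemma g0_val {b : ℝ} (hb : 0 < b) :
    ∫ x : ℝ, Real.exp (-(b * x ^ 2) / 2) = √(2 * π) / √b := by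
  have := integral_gaussian (b / 2)
  rw [← Real.sqrt_div (by positivity)]
  have e : 2 * π / b = π / (b / 2) := by field_simp
  rw [e, ← this]
  congr 1; funext x; congr 1; ring

lemma gk_int {b : ℝ} (hb : 0 < b) (k : ℕ) :
    Integrable (fun x : ℝ => x ^ k * Real.exp (-(b * x ^ 2) / 2)) := by
  have := integrable_rpow_mul_exp_neg_mul_sq (b := b / 2) (by positivity) (s := (k : ℝ))
    (by have : (0 : ℝ) ≤ k := Nat.cast_nonneg k
        linarith)
  refine this.congr (ae_of_all _ fun x => ?_)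
  show x ^ (k : ℝ) * Real.exp (-(b / 2) * x ^ 2) = _
  rw [Real.rpow_natCast]
  congr 2; ring

lemma gk_even {b : ℝ} (hb : 0 < b) (k : ℕ) :
    ∫ x : ℝ, x ^ (2 * k) * Real.exp (-(b * x ^ 2) / 2) =
      (b / 2) ^ (-(2 * k + 1 : ℝ) / 2) * Real.Gamma ((2 * k + 1 : ℝ) / 2) := by
  have h1 : ∀ x : ℝ, x ^ (2 * k) * Real.exp (-(b * x ^ 2) / 2) =
      (fun y : ℝ => y ^ (2 * k) * Real.exp (-(b * y ^ 2) / 2)) |x| := by
    intro x
    have e : |x| ^ (2 * k) = x ^ (2 * k) := by rw [pow_mul, pow_mul, sq_abs]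
    show _ = |x| ^ (2 * k) * Real.exp (-(b * |x| ^ 2) / 2)
    rw [e, sq_abs]
  rw [show (fun x : ℝ => x ^ (2 * k) * Real.exp (-(b * x ^ 2) / 2)) =
    fun x : ℝ => (fun y : ℝ => y ^ (2 * k) * Real.exp (-(b * y ^ 2) / 2)) |x| from funext h1]
  have h1' := integral_comp_abs (f := fun y : ℝ => y ^ (2 * k) * Real.exp (-(b * y ^ 2) / 2))
  refine h1'.trans ?_
  have h2 := integral_rpow_mul_exp_neg_mul_rpow (p := 2) (q := ((2 * k : ℕ) : ℝ)) (b := b / 2)
    (by norm_num) (by have : (0 : ℝ) ≤ ((2 * k : ℕ) : ℝ) := Nat.cast_nonneg _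
                      linarith) (by positivity)
  have h3 : ∫ x in Ioi (0 : ℝ), x ^ (2 * k) * Real.exp (-(b * x ^ 2) / 2) =
      ∫ x in Ioi (0 : ℝ), x ^ (((2 * k : ℕ) : ℝ)) * Real.exp (-(b / 2) * x ^ (2 : ℝ)) := by
    apply setIntegral_congr_fun measurableSet_Ioi
    intro x _
    simp only
    rw [Real.rpow_natCast, Real.rpow_two]
    congr 2; ring
  rw [h3, h2]
  push_cast
  ring

lemma g2_val {b : ℝ} (hb : 0 < b) :
    ∫ x : ℝ, x ^ 2 * Real.exp (-(b * x ^ 2) / 2) = √(2 * π) / √b / b := by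
  have h := gk_even hb 1
  norm_num at h
  rw [h]
  have hG : Real.Gamma (3 / 2) = √π / 2 := by
    have : (3 / 2 : ℝ) = 1 / 2 + 1 := by norm_num
    rw [this, Real.Gamma_add_one (by norm_num), Real.Gamma_one_half_eq]; ring
  have h5 : (b / 2) ^ (-(3 / 2) : ℝ) = 1 / ((b / 2) * √(b / 2)) := by
    rw [Real.rpow_neg (by positivity)]
    have : (3 / 2 : ℝ) = 1 + 1 / 2 := by norm_num
    rw [this, Real.rpow_add (by positivity), Real.rpow_one, ← Real.sqrt_eq_rpow, one_div]
  have h6 : (-3 / 2 : ℝ) = -(3 / 2) := by norm_num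
  try rw [h6]
  rw [h5, hG, Real.sqrt_div hb.le, Real.sqrt_mul (by norm_num)]
  have s2 : √2 * √2 = 2 := Real.mul_self_sqrt (by norm_num)
  have : 0 < √b := by positivity
  have : 0 < √(2 : ℝ) := by positivity
  field_simp

lemma g4_val : ∫ x : ℝ, x ^ 4 * Real.exp (-(1 * x ^ 2) / 2) = 3 * √(2 * π) := by
  have h := gk_even (b := 1) one_pos 2
  norm_num at h ⊢
  rw [h]
  have hG : Real.Gamma (5 / 2) = 3 * √π / 4 := by
    have e1 : (5 / 2 : ℝ) = 3 / 2 + 1 := by norm_num
    have e2 : (3 / 2 : ℝ) = 1 / 2 + 1 := by norm_num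
    rw [e1, Real.Gamma_add_one (by norm_num), e2, Real.Gamma_add_one (by norm_num),
      Real.Gamma_one_half_eq]; ring
  have h5 : (1 / 2 : ℝ) ^ (-(5 / 2) : ℝ) = 4 * √2 := by
    rw [one_div, Real.inv_rpow (by norm_num), ← Real.rpow_neg (by norm_num)]
    have : (-(-(5 / 2)) : ℝ) = 2 + 1 / 2 := by norm_num
    rw [this, Real.rpow_add (by norm_num), Real.sqrt_eq_rpow]
    norm_num
  have h6 : (-5 / 2 : ℝ) = -(5 / 2) := by norm_num
  try rw [h6]
  rw [h5, hG]
  ring

abbrev E7 := EuclideanSpace ℝ (Fin 7)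

lemma prod_int (f : Fin 7 → ℝ → ℝ) :
    ∫ x : E7, ∏ i, f i (x i) = ∏ i, ∫ y, f i y := by
  rw [← (PiLp.volume_preserving_toLp (Fin 7)).integral_comp
    (MeasurableEquiv.toLp 2 _).measurableEmbedding]
  exact integral_fintype_prod_volume_eq_prod f

lemma prod_integrable (f : Fin 7 → ℝ → ℝ) (hf : ∀ i, Integrable (f i)) :
    Integrable (fun x : E7 => ∏ i, f i (x i)) := by
  rw [← (PiLp.volume_preserving_toLp (Fin 7)).integrable_comp_emb
    (MeasurableEquiv.toLp 2 _).measurableEmbedding]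
  exact Integrable.fintype_prod hf

lemma norm_sq7 (x : E7) : ‖x‖ ^ 2 = ∑ i, x i ^ 2 := by
  rw [EuclideanSpace.norm_sq_eq]
  simp

lemma exp_norm (x : E7) : Real.exp (-‖x‖ ^ 2 / 2) = ∏ i, Real.exp (-(1 * x i ^ 2) / 2) := by
  rw [← Real.exp_sum, norm_sq7]
  congr 1
  rw [← Finset.sum_neg_distrib, Finset.sum_div]
  simp

/-- weighted monomials -/
lemma mono_int (k : Fin 7 → ℕ) :
    Integrable (fun x : E7 => (∏ i, x i ^ k i) * Real.exp (-‖x‖ ^ 2 / 2)) := by
  have := prod_integrable (fun i y => y ^ k i * Real.exp (-(1 * y ^ 2) / 2))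
    (fun i => gk_int one_pos (k i))
  refine this.congr (ae_of_all _ fun x => ?_)
  show ∏ i, (x i ^ k i * Real.exp (-(1 * x i ^ 2) / 2)) =
    (∏ i, x i ^ k i) * Real.exp (-‖x‖ ^ 2 / 2)
  rw [Finset.prod_mul_distrib, exp_norm]

lemma mono_val (k : Fin 7 → ℕ) :
    ∫ x : E7, (∏ i, x i ^ k i) * Real.exp (-‖x‖ ^ 2 / 2) =
      ∏ i, ∫ y : ℝ, y ^ k i * Real.exp (-(1 * y ^ 2) / 2) := by
  rw [← prod_int (fun i y => y ^ k i * Real.exp (-(1 * y ^ 2) / 2))]
  congr 1; funext x
  rw [Finset.prod_mul_distrib, exp_norm]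

/-- Gaussian mass -/
lemma mass : ∫ x : E7, Real.exp (-‖x‖ ^ 2 / 2) = √(2 * π) ^ 7 := by
  have h := mono_val (fun _ => 0)
  simp only [pow_zero, Finset.prod_const_one, one_mul] at h
  rw [h, Finset.prod_const]
  have := g0_val one_pos
  simp only [one_mul, Real.sqrt_one, div_one] at this
  rw [this]
  simp

/-- `∫ x_i² x_j²` -/
lemma m22 (i j : Fin 7) : ∫ x : E7, (x i ^ 2 * x j ^ 2) * Real.exp (-‖x‖ ^ 2 / 2) =
    (if i = j then 3 else 1) * √(2 * π) ^ 7 := by
  have h := mono_val (fun l => (if l = i then 2 else 0) + (if l = j then 2 else 0))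
  have e : ∀ x : E7, ∏ l, x l ^ ((if l = i then 2 else 0) + (if l = j then 2 else 0)) =
      x i ^ 2 * x j ^ 2 := by
    intro x
    simp only [pow_add, Finset.prod_mul_distrib, pow_ite, pow_zero, Finset.prod_ite_eq',
      Finset.mem_univ, if_true]
  simp only [e] at h
  rw [h]
  have v0 := g0_val one_pos
  have v2 := g2_val one_pos
  have v4 := g4_val
  simp only [one_mul, Real.sqrt_one, div_one] at v0 v2 v4 ⊢
  by_cases hij : i = j
  · subst hij
    rw [← Finset.mul_prod_erase Finset.univ _ (Finset.mem_univ i)]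
    have e2 : ∏ l ∈ Finset.univ.erase i, ∫ y : ℝ, y ^ ((if l = i then 2 else 0) +
        (if l = i then 2 else 0)) * Real.exp (-y ^ 2 / 2) = √(2 * π) ^ 6 := by
      rw [Finset.prod_congr rfl (g := fun _ => √(2 * π))]
      · simp
      · intro l hl
        rw [if_neg (Finset.ne_of_mem_erase hl)]
        simpa using v0
    rw [e2]
    simp only [if_true]
    rw [v4]; ring
  · rw [← Finset.mul_prod_erase Finset.univ _ (Finset.mem_univ i),
      ← Finset.mul_prod_erase (Finset.univ.erase i) _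
        (Finset.mem_erase.mpr ⟨Ne.symm hij, Finset.mem_univ j⟩)]
    have e2 : ∏ l ∈ (Finset.univ.erase i).erase j, ∫ y : ℝ, y ^ ((if l = i then 2 else 0) +
        (if l = j then 2 else 0)) * Real.exp (-y ^ 2 / 2) = √(2 * π) ^ 5 := by
      rw [Finset.prod_congr rfl (g := fun _ => √(2 * π))]
      · have : ((Finset.univ.erase i).erase j : Finset (Fin 7)).card = 5 := by
          rw [Finset.card_erase_of_mem (Finset.mem_erase.mpr ⟨Ne.symm hij, Finset.mem_univ j⟩),
            Finset.card_erase_of_mem (Finset.mem_univ i)]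
          simp
        rw [Finset.prod_const, this]
      · intro l hl
        rw [if_neg (Finset.ne_of_mem_erase hl), if_neg (Finset.ne_of_mem_erase (Finset.mem_of_mem_erase hl))]
        simpa using v0
    rw [e2]
    simp only [if_true, if_neg hij, if_neg (Ne.symm hij)]
    simp only [add_zero, zero_add]
    rw [v2]; ring

end

end Pool.Agent.Q81.Hs
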