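import Pool.Agent.Q81.Hs3

open Real Set MeasureTheory Filter Topology

namespace Pool.Agent.Q81.Hs

noncomputable section

/-- squares of the diagonal entries of `D` -/
def dsq (h : ℝ) (i : Fin 7) : ℝ := if i = 0 then 1 else 1 - h ^ 2

/-- `|Dx|²` -/
def Q (h : ℝ) (x : E7) : ℝ := ∑ i, dsq h i * x i ^ 2

variable {h : ℝ}

lemma dsq_pos (h0 : 0 < h) (h1 : h < 1) (i : Fin 7) : 0 < dsq h i := by
  unfold dsq
  split_ifs
  · norm_num
  · exact dpos h0 h1

lemma Q_pos (h0 : 0 < h) (h1 : h < 1) {x : E7} (hx : x ≠ 0) : 0 < Q h x := by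
  unfold Q
  obtain ⟨i, hi⟩ : ∃ i, x i ≠ 0 := by
    by_contra hcon
    push Not at hcon
    exact hx (by ext i; simpa using hcon i)
  apply Finset.sum_pos'
  · intro j _
    have := dsq_pos h0 h1 j
    positivity
  · exact ⟨i, Finset.mem_univ i, by have := dsq_pos h0 h1 i; positivity⟩

def bb (h t : ℝ) (i : Fin 7) : ℝ := 1 + t ^ 2 * dsq h i

lemma bb_pos (h0 : 0 < h) (h1 : h < 1) (t : ℝ) (i : Fin 7) : 0 < bb h t i := by
  have := dsq_pos h0 h1 i
  unfold bb; positivity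

lemma prod_bb (h0 : 0 < h) (h1 : h < 1) (t : ℝ) :
    ∏ i, √(bb h t i) = w t * (1 + (1 - h ^ 2) * t ^ 2) ^ 3 := by
  rw [Fin.prod_univ_succ]
  have e0 : √(bb h t 0) = w t := by simp [bb, dsq, w]
  have e1 : ∀ i : Fin 6, √(bb h t i.succ) = √(1 + (1 - h ^ 2) * t ^ 2) := by
    intro i
    simp [bb, dsq, mul_comm]
  simp only [e0, e1, Finset.prod_const, Finset.card_univ, Fintype.card_fin]
  have hq : 0 ≤ 1 + (1 - h ^ 2) * t ^ 2 := by
    have := dpos h0 h1
    positivity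
  congr 1
  calc √(1 + (1 - h ^ 2) * t ^ 2) ^ 6 = (√(1 + (1 - h ^ 2) * t ^ 2) ^ 2) ^ 3 := by ring
    _ = _ := by rw [Real.sq_sqrt hq]

/-- the joint integrand -/
def ff (h : ℝ) (i : Fin 7) (x : E7) (t : ℝ) : ℝ :=
  x i ^ 2 * Real.exp (-(‖x‖ ^ 2 + t ^ 2 * Q h x) / 2)

lemma ff_prod (i : Fin 7) (x : E7) (t : ℝ) :
    ff h i x t = ∏ l, (x l ^ (if l = i then 2 else 0) * Real.exp (-(bb h t l * x l ^ 2) / 2)) := by
  rw [Finset.prod_mul_distrib, ← Real.exp_sum]
  unfold ff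
  congr 1
  · simp [pow_ite]
  · congr 1
    rw [norm_sq7, Q, Finset.mul_sum, ← Finset.sum_add_distrib, ← Finset.sum_neg_distrib,
      Finset.sum_div]
    apply Finset.sum_congr rfl
    intro l _
    unfold bb
    ring

lemma ff_int_x (h0 : 0 < h) (h1 : h < 1) (i : Fin 7) (t : ℝ) :
    Integrable (fun x => ff h i x t) := by
  have := prod_integrable (fun l y => y ^ (if l = i then 2 else 0) *
    Real.exp (-(bb h t l * y ^ 2) / 2)) (fun l => gk_int (bb_pos h0 h1 t l) _)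
  refine this.congr (ae_of_all _ fun x => ?_)
  exact (ff_prod i x t).symm

lemma ff_val_x (h0 : 0 < h) (h1 : h < 1) (i : Fin 7) (t : ℝ) :
    ∫ x, ff h i x t = √(2 * π) ^ 7 * (1 / (w t * (1 + (1 - h ^ 2) * t ^ 2) ^ 3 * bb h t i)) := by
  simp_rw [ff_prod]
  rw [prod_int (fun l y => y ^ (if l = i then 2 else 0) *
    Real.exp (-(bb h t l * y ^ 2) / 2))]
  have e : ∀ l, ∫ y : ℝ, y ^ (if l = i then 2 else 0) * Real.exp (-(bb h t l * y ^ 2) / 2) =
      √(2 * π) / √(bb h t l) * (if l = i then (bb h t i)⁻¹ else 1) := by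
    intro l
    by_cases hl : l = i
    · subst hl
      simp only [if_true]
      rw [g2_val (bb_pos h0 h1 t l)]
      ring
    · simp only [if_neg hl, pow_zero, one_mul, mul_one]
      exact g0_val (bb_pos h0 h1 t l)
  simp only [e]
  rw [Finset.prod_mul_distrib, Finset.prod_div_distrib, prod_bb h0 h1]
  simp only [Finset.prod_ite_eq', Finset.mem_univ, if_true, Finset.prod_const, Finset.card_univ,
    Fintype.card_fin]
  have b := bb_pos h0 h1 t i
  have := w_pos t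
  have := dpos h0 h1
  field_simp

lemma Q_cont : Continuous (Q h) := by
  unfold Q
  fun_prop

lemma ff_cont (i : Fin 7) : Continuous (fun p : E7 × ℝ => ff h i p.1 p.2) := by
  have := Q_cont (h := h)
  unfold ff
  fun_prop

lemma ff_nonneg (i : Fin 7) (x : E7) (t : ℝ) : 0 ≤ ff h i x t := by
  unfold ff; positivity

/-- the function of `t` obtained -/
def gt (h : ℝ) (i : Fin 7) (t : ℝ) : ℝ := 1 / (w t * (1 + (1 - h ^ 2) * t ^ 2) ^ 3 * bb h t i)

lemma gt_zero (t : ℝ) : gt h 0 t = 1 / (w t ^ 3 * (1 + (1 - h ^ 2) * t ^ 2) ^ 3) := by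
  unfold gt bb dsq
  have := w_sq t
  simp only [if_true, mul_one]
  rw [← this]
  ring_nf

lemma gt_ne {i : Fin 7} (hi : i ≠ 0) (t : ℝ) :
    gt h i t = 1 / (w t * (1 + (1 - h ^ 2) * t ^ 2) ^ 4) := by
  unfold gt bb dsq
  simp only [if_neg hi]
  ring_nf

def UW (h : ℝ) (i : Fin 7) : ℝ := if i = 0 then U h else W h

lemma gt_integrable (h0 : 0 < h) (h1 : h < 1) (i : Fin 7) : IntegrableOn (gt h i) (Ioi 0) := by
  by_cases hi : i = 0
  · subst hi
    have : gt h 0 = fun t => 1 / (w t ^ 3 * (1 + (1 - h ^ 2) * t ^ 2) ^ 3) := funext gt_zero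
    rw [this]
    exact integrable_U h0 h1
  · have : gt h i = fun t => 1 / (w t * (1 + (1 - h ^ 2) * t ^ 2) ^ 4) := funext (gt_ne hi)
    rw [this]
    exact integrable_W h0 h1

lemma gt_integral (h0 : 0 < h) (h1 : h < 1) (i : Fin 7) :
    ∫ t in Ioi (0 : ℝ), gt h i t = UW h i := by
  unfold UW
  by_cases hi : i = 0
  · subst hi
    have : gt h 0 = fun t => 1 / (w t ^ 3 * (1 + (1 - h ^ 2) * t ^ 2) ^ 3) := funext gt_zero
    rw [this, if_pos rfl]
    exact integral_U h0 h1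
  · have : gt h i = fun t => 1 / (w t * (1 + (1 - h ^ 2) * t ^ 2) ^ 4) := funext (gt_ne hi)
    rw [this, if_neg hi]
    exact integral_W h0 h1

lemma ff_integrable (h0 : 0 < h) (h1 : h < 1) (i : Fin 7) :
    Integrable (fun p : E7 × ℝ => ff h i p.1 p.2)
      ((volume : Measure E7).prod (volume.restrict (Ioi 0))) := by
  rw [integrable_prod_iff' (ff_cont i).aestronglyMeasurable]
  refine ⟨ae_of_all _ fun t => ff_int_x h0 h1 i t, ?_⟩
  have e : (fun t => ∫ x, ‖ff h i (x, t).1 (x, t).2‖) = fun t => √(2 * π) ^ 7 * gt h i t := by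
    funext t
    simp only [Real.norm_eq_abs, abs_of_nonneg (ff_nonneg i _ t)]
    rw [ff_val_x h0 h1]
    rfl
  rw [e]
  exact (gt_integrable h0 h1 i).const_mul _

lemma ff_int_t (h0 : 0 < h) (h1 : h < 1) (i : Fin 7) {x : E7} (hx : x ≠ 0) :
    ∫ t in Ioi (0 : ℝ), ff h i x t =
      √(π / 2) * (x i ^ 2 / √(Q h x) * Real.exp (-‖x‖ ^ 2 / 2)) := by
  have hQ := Q_pos h0 h1 hx
  have e : ∀ t, ff h i x t = (x i ^ 2 * Real.exp (-‖x‖ ^ 2 / 2)) * Real.exp (-(Q h x / 2) * t ^ 2) := by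
    intro t
    unfold ff
    rw [mul_assoc, ← Real.exp_add]
    congr 2; ring
  simp_rw [e]
  rw [integral_const_mul, integral_gaussian_Ioi]
  have e2 : √(π / (Q h x / 2)) / 2 = √(π / 2) / √(Q h x) := by
    have e3 : π / (Q h x / 2) = (π / 2) * 4 / Q h x := by field_simp; ring
    rw [e3, Real.sqrt_div (by positivity), Real.sqrt_mul (by positivity)]
    have : √(4 : ℝ) = 2 := by
      rw [show (4 : ℝ) = 2 ^ 2 by norm_num]; exact Real.sqrt_sq (by norm_num)
    rw [this]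
    field_simp
  rw [e2]
  ring

/-- the Gaussian integral of `x_i² / |Dx|` -/
lemma key_val (h0 : 0 < h) (h1 : h < 1) (i : Fin 7) :
    ∫ x : E7, x i ^ 2 / √(Q h x) * Real.exp (-‖x‖ ^ 2 / 2) =
      √(2 * π) ^ 7 * √(2 / π) * UW h i := by
  have h2 := integral_integral_swap (f := fun (x : E7) (t : ℝ) => ff h i x t)
    (μ := (volume : Measure E7)) (ν := volume.restrict (Ioi 0)) (ff_integrable h0 h1 i)
  have h3 : ∫ x : E7, ∫ t in Ioi (0 : ℝ), ff h i x t =
      ∫ x : E7, √(π / 2) * (x i ^ 2 / √(Q h x) * Real.exp (-‖x‖ ^ 2 / 2)) := by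
    apply integral_congr_ae
    have : ∀ᵐ x : E7, x ≠ 0 := by
      have : (volume : Measure E7) {0} = 0 := measure_singleton 0
      rw [ae_iff]
      simp
    filter_upwards [this] with x hx
    exact ff_int_t h0 h1 i hx
  rw [h3, integral_const_mul] at h2
  have h4 : ∫ t in Ioi (0 : ℝ), ∫ x : E7, ff h i x t = √(2 * π) ^ 7 * UW h i := by
    simp_rw [ff_val_x h0 h1]
    rw [integral_const_mul]
    congr 1
    exact gt_integral h0 h1 i
  rw [h4] at h2
  have h5 : √(2 / π) * √(π / 2) = 1 := by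
    rw [← Real.sqrt_mul (by positivity)]
    have : 2 / π * (π / 2) = 1 := by field_simp
    rw [this, Real.sqrt_one]
  calc ∫ x : E7, x i ^ 2 / √(Q h x) * Real.exp (-‖x‖ ^ 2 / 2)
      = √(2 / π) * (√(π / 2) * ∫ x : E7, x i ^ 2 / √(Q h x) * Real.exp (-‖x‖ ^ 2 / 2)) := by
        rw [← mul_assoc, h5, one_mul]
    _ = _ := by rw [h2]; ring

end

end Pool.Agent.Q81.Hs
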