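import Pool.Agent.Q81.Hs4

open Real Set MeasureTheory Filter Topology Metric

namespace Pool.Agent.Q81.Hs

noncomputable section

/-- the unit sphere of `ℝ⁷` -/
abbrev S6 : Set E7 := sphere (0 : E7) 1

/-- surface measure -/
abbrev σ7 : Measure S6 := (volume : Measure E7).toSphere

/-- radial factor -/
def Rk (k : ℕ) : ℝ := ∫ r in Ioi (0 : ℝ), r ^ k * Real.exp (-r ^ 2 / 2)

/-- polar coordinates for homogeneous functions -/
lemma hom_int (F : E7 → ℝ) (d : ℕ) (hF : ∀ (r : ℝ) (x : E7), 0 < r → F (r • x) = r ^ d * F x) :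
    ∫ x : E7, F x * Real.exp (-‖x‖ ^ 2 / 2) = (∫ s : S6, F s ∂σ7) * Rk (6 + d) := by
  calc ∫ x : E7, F x * Real.exp (-‖x‖ ^ 2 / 2)
      = ∫ x : ({(0 : E7)}ᶜ : Set E7), F x.1 * Real.exp (-‖x.1‖ ^ 2 / 2)
          ∂((volume : Measure E7).comap (↑)) := by
        rw [integral_subtype_comap (measurableSet_singleton _).compl
          fun x => F x * Real.exp (-‖x‖ ^ 2 / 2), restrict_compl_singleton]
    _ = ∫ p : S6 × Ioi (0 : ℝ), F p.1 * (p.2.1 ^ d * Real.exp (-p.2.1 ^ 2 / 2))
          ∂(σ7.prod (.volumeIoiPow (Module.finrank ℝ E7 - 1))) := by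
        rw [← (Measure.measurePreserving_homeomorphUnitSphereProd
          (volume : Measure E7)).integral_comp (Homeomorph.measurableEmbedding _)]
        apply integral_congr_ae
        refine ae_of_all _ fun x => ?_
        have hx : 0 < ‖(x : E7)‖ := norm_pos_iff.2 x.2
        have e : F x.1 = ‖(x : E7)‖ ^ d * F (‖(x : E7)‖⁻¹ • (x : E7)) := by
          rw [← hF _ _ hx, smul_smul, mul_inv_cancel₀ hx.ne', one_smul]
        simp only [homeomorphUnitSphereProd_apply_fst_coe, homeomorphUnitSphereProd_apply_snd_coe]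
        rw [e]
        ring
    _ = (∫ s : S6, F s ∂σ7) * ∫ r : Ioi (0 : ℝ), r.1 ^ d * Real.exp (-r.1 ^ 2 / 2)
          ∂(Measure.volumeIoiPow (Module.finrank ℝ E7 - 1)) := by
        exact integral_prod_mul (μ := σ7) (ν := Measure.volumeIoiPow (Module.finrank ℝ E7 - 1))
          (fun s : S6 => F s) (fun r : Ioi (0 : ℝ) => r.1 ^ d * Real.exp (-r.1 ^ 2 / 2))
    _ = _ := by
        congr 1
        unfold Rk
        have hd : Module.finrank ℝ E7 - 1 = 6 := by simp
        rw [hd]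
        simp only [Measure.volumeIoiPow, ENNReal.ofReal]
        rw [integral_withDensity_eq_integral_smul,
          integral_subtype_comap measurableSet_Ioi
            fun a : ℝ => Real.toNNReal (a ^ 6) • (a ^ d * Real.exp (-a ^ 2 / 2)),
          setIntegral_congr_fun measurableSet_Ioi fun x hx ↦ ?_]
        · simp only [NNReal.smul_def, smul_eq_mul]
          rw [Real.coe_toNNReal _ (pow_nonneg hx.out.le _)]
          ring
        · exact (measurable_subtype_coe.pow_const _).real_toNNReal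

lemma Rk_val (k : ℕ) : Rk k = (1 / 2 : ℝ) ^ (-((k : ℝ) + 1) / 2) * (1 / 2) *
    Real.Gamma (((k : ℝ) + 1) / 2) := by
  unfold Rk
  have h2 := integral_rpow_mul_exp_neg_mul_rpow (p := 2) (q := (k : ℝ)) (b := 1 / 2)
    (by norm_num) (by have : (0 : ℝ) ≤ (k : ℝ) := Nat.cast_nonneg _
                      linarith) (by positivity)
  have h3 : ∫ x in Ioi (0 : ℝ), x ^ k * Real.exp (-x ^ 2 / 2) =
      ∫ x in Ioi (0 : ℝ), x ^ (k : ℝ) * Real.exp (-(1 / 2) * x ^ (2 : ℝ)) := by
    apply setIntegral_congr_fun measurableSet_Ioi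
    intro x _
    simp only
    rw [Real.rpow_natCast, Real.rpow_two]
    congr 2; ring
  rw [h3, h2]

lemma Rk_pos (k : ℕ) : 0 < Rk k := by
  rw [Rk_val]
  have : 0 < Real.Gamma (((k : ℝ) + 1) / 2) := Real.Gamma_pos_of_pos (by positivity)
  positivity

lemma R10 : Rk 10 = 63 * Rk 6 := by
  rw [Rk_val, Rk_val]
  have e1 : (((10 : ℕ) : ℝ) + 1) / 2 = (((6 : ℕ) : ℝ) + 1) / 2 + 1 + 1 := by norm_num
  rw [e1, Real.Gamma_add_one (by norm_num), Real.Gamma_add_one (by norm_num)]
  have e2 : (1 / 2 : ℝ) ^ (-(((10 : ℕ) : ℝ) + 1) / 2) =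
      (1 / 2 : ℝ) ^ (-(((6 : ℕ) : ℝ) + 1) / 2) * 4 := by
    have : (-(((10 : ℕ) : ℝ) + 1) / 2) = (-(((6 : ℕ) : ℝ) + 1) / 2) + (-2 : ℝ) := by norm_num
    rw [this, Real.rpow_add (by norm_num)]
    congr 1
    rw [Real.rpow_neg (by norm_num)]
    norm_num
  rw [e2]
  norm_num
  ring

/-- total mass of the sphere -/
lemma mass_sphere : (σ7.real univ) * Rk 6 = √(2 * π) ^ 7 := by
  have := hom_int (fun _ => 1) 0 (fun r x _ => by simp)
  simp only [one_mul, integral_const, smul_eq_mul, mul_one, add_zero] at this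
  rw [← this, mass]

end

end Pool.Agent.Q81.Hs
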