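import Pool.Agent.Q81.Hs5

open Real Set MeasureTheory Filter Topology Metric

namespace Pool.Agent.Q81.Hs

noncomputable section

variable {h : ℝ}

/-- reflection in the `j`-th coordinate -/
def refl7 (j : Fin 7) : E7 ≃ₗᵢ[ℝ] E7 :=
  LinearIsometryEquiv.piLpCongrRight 2
    (fun k => if k = j then LinearIsometryEquiv.neg ℝ else LinearIsometryEquiv.refl ℝ ℝ)

lemma refl7_apply (j k : Fin 7) (x : E7) :
    refl7 j x k = if k = j then - x k else x k := by
  unfold refl7
  rw [LinearIsometryEquiv.piLpCongrRight_apply]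
  by_cases hk : k = j
  · subst hk; simp
  · simp [hk]

lemma refl7_sq (j k : Fin 7) (x : E7) : refl7 j x k ^ 2 = x k ^ 2 := by
  rw [refl7_apply]
  split_ifs <;> ring

lemma Q_refl7 (j : Fin 7) (x : E7) : Q h (refl7 j x) = Q h x := by
  unfold Q
  simp only [refl7_sq]

lemma off_diag_E {i j : Fin 7} (hij : i ≠ j) :
    ∫ x : E7, x i * x j / √(Q h x) * Real.exp (-‖x‖ ^ 2 / 2) = 0 := by
  have h1 := (LinearIsometryEquiv.measurePreserving (refl7 j)).integral_comp
    (refl7 j).toHomeomorph.measurableEmbedding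
    (fun x : E7 => x i * x j / √(Q h x) * Real.exp (-‖x‖ ^ 2 / 2))
  have h2 : ∀ x : E7, refl7 j x i * refl7 j x j / √(Q h (refl7 j x)) *
      Real.exp (-‖refl7 j x‖ ^ 2 / 2) = -(x i * x j / √(Q h x) * Real.exp (-‖x‖ ^ 2 / 2)) := by
    intro x
    rw [Q_refl7, refl7_apply, refl7_apply, if_neg hij, if_pos rfl, LinearIsometryEquiv.norm_map]
    ring
  simp only [h2] at h1
  rw [integral_neg] at h1
  linarith

lemma Q_smul (r : ℝ) (x : E7) : Q h (r • x) = r ^ 2 * Q h x := by
  unfold Q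
  rw [Finset.mul_sum]
  refine Finset.sum_congr rfl fun i _ => ?_
  simp only [PiLp.smul_apply, smul_eq_mul]
  ring

lemma sqrtQ_smul {r : ℝ} (hr : 0 < r) (x : E7) : √(Q h (r • x)) = r * √(Q h x) := by
  rw [Q_smul, Real.sqrt_mul (by positivity), Real.sqrt_sq hr.le]

lemma hom_one (i j : Fin 7) (r : ℝ) (x : E7) (hr : 0 < r) :
    (r • x) i * (r • x) j / √(Q h (r • x)) = r ^ 1 * (x i * x j / √(Q h x)) := by
  rw [sqrtQ_smul hr]
  simp only [PiLp.smul_apply, smul_eq_mul]
  by_cases hq : √(Q h x) = 0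
  · rw [hq]; simp
  · field_simp

lemma off_diag_S {i j : Fin 7} (hij : i ≠ j) :
    ∫ s : S6, (s : E7) i * (s : E7) j / √(Q h s) ∂σ7 = 0 := by
  have h1 := hom_int (fun x => x i * x j / √(Q h x)) 1 (fun r x hr => hom_one i j r x hr)
  rw [off_diag_E hij] at h1
  have := Rk_pos (6 + 1)
  rcases mul_eq_zero.1 h1.symm with h2 | h2
  · exact h2
  · exact absurd h2 this.ne'

lemma diag_S (h0 : 0 < h) (h1 : h < 1) (i : Fin 7) :
    (∫ s : S6, (s : E7) i * (s : E7) i / √(Q h s) ∂σ7) * Rk 7 =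
      √(2 * π) ^ 7 * √(2 / π) * UW h i := by
  have h2 := hom_int (fun x => x i * x i / √(Q h x)) 1 (fun r x hr => hom_one i i r x hr)
  rw [← key_val h0 h1 i]
  show _ * Rk (6 + 1) = _
  rw [← h2]
  congr 1; funext x
  rw [sq (x i)]

/-- average over the sphere -/
def av (F : S6 → ℝ) : ℝ := ⨍ s : S6, F s ∂σ7

lemma sphere_mass_pos : 0 < σ7.real univ := by
  have h1 := mass_sphere
  have h2 := Rk_pos 6
  have h3 : 0 < √(2 * π) ^ 7 := by positivity
  rw [← h1] at h3
  exact (pos_iff_pos_of_mul_pos h3).2 h2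

lemma av_eq (F : S6 → ℝ) : av F = (∫ s : S6, F s ∂σ7) * Rk 6 / √(2 * π) ^ 7 := by
  unfold av
  rw [average_eq, ← mass_sphere, smul_eq_mul]
  have := sphere_mass_pos
  have := Rk_pos 6
  field_simp

lemma cont_ij (h0 : 0 < h) (h1 : h < 1) (i j : Fin 7) :
    Continuous (fun s : S6 => (s : E7) i * (s : E7) j / √(Q h s)) := by
  apply Continuous.div
  · fun_prop
  · unfold Q; fun_prop
  · intro s
    have hs : (s : E7) ≠ 0 := by
      have := s.2
      intro hc
      rw [hc] at this
      simp at this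
    have := Q_pos h0 h1 hs
    positivity

lemma integrable_of_cont {F : S6 → ℝ} (hF : Continuous F) : Integrable F σ7 :=
  hF.integrable_of_hasCompactSupport (HasCompactSupport.of_compactSpace F)

/-- diagonal entries of `D` -/
def dd (h : ℝ) (i : Fin 7) : ℝ := √(dsq h i)

/-- `α_i` -/
def al (h : ℝ) (i : Fin 7) : ℝ := dd h i * (√(2 / π) * UW h i * (Rk 6 / Rk 7))

lemma av_diag (h0 : 0 < h) (h1 : h < 1) (i : Fin 7) :
    dd h i * av (fun s : S6 => (s : E7) i * (s : E7) i / √(Q h s)) = al h i := by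
  unfold al
  congr 1
  rw [av_eq]
  have h2 := diag_S h0 h1 i
  have := Rk_pos 7
  have h3 : (∫ s : S6, (s : E7) i * (s : E7) i / √(Q h s) ∂σ7) =
    √(2 * π) ^ 7 * √(2 / π) * UW h i / Rk 7 := by
    rw [← h2]; field_simp
  rw [h3]
  have : 0 < √(2 * π) ^ 7 := by positivity
  field_simp

lemma av_off {i j : Fin 7} (hij : i ≠ j) :
    av (fun s : S6 => (s : E7) i * (s : E7) j / √(Q h s)) = 0 := by
  rw [av_eq, off_diag_S hij]; simp

lemma av_sum {ι : Type*} (t : Finset ι) (F : ι → S6 → ℝ) (hF : ∀ i ∈ t, Continuous (F i)) :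
    av (fun s => ∑ i ∈ t, F i s) = ∑ i ∈ t, av (F i) := by
  simp only [av_eq]
  rw [integral_finsetSum t (fun i hi => integrable_of_cont (hF i hi))]
  rw [Finset.sum_mul, Finset.sum_div]

lemma av_mul (c : ℝ) (F : S6 → ℝ) : av (fun s => c * F s) = c * av F := by
  simp only [av_eq]
  rw [integral_const_mul]
  ring

lemma av_mono {F G : S6 → ℝ} (hF : Continuous F) (hG : Continuous G) (hFG : ∀ s, F s ≤ G s) :
    av F ≤ av G := by
  simp only [av_eq]
  have := integral_mono (integrable_of_cont hF) (integrable_of_cont hG) hFG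
  have := Rk_pos 6
  gcongr

/-- `Ax` -/
def act {n : ℕ} (A : Matrix (Fin n) (Fin n) ℝ) (x : EuclideanSpace ℝ (Fin n)) :
    EuclideanSpace ℝ (Fin n) := WithLp.toLp 2 (A.mulVec x.ofLp)

lemma act_cont {n : ℕ} (A : Matrix (Fin n) (Fin n) ℝ) : Continuous (act A) := by
  unfold act
  refine (PiLp.continuous_toLp 2 _).comp ?_
  exact Continuous.matrix_mulVec continuous_const (PiLp.continuous_ofLp 2 _)

/-- the duality bound -/
lemma dual_bound (h0 : 0 < h) (h1 : h < 1) (B : Matrix (Fin 7) (Fin 7) ℝ) :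
    ∑ i, al h i * B i i ≤ av (fun s => ‖act B (s : E7)‖) := by
  have e1 : ∑ i, al h i * B i i =
      av (fun s : S6 => ∑ i, ∑ j, (dd h i * B i j) * ((s : E7) i * (s : E7) j / √(Q h s))) := by
    rw [av_sum Finset.univ (fun (i : Fin 7) (s : S6) =>
        ∑ j, (dd h i * B i j) * ((s : E7) i * (s : E7) j / √(Q h s)))
      (fun i _ => continuous_finsetSum _ fun j _ =>
      continuous_const.mul (cont_ij h0 h1 i j))]
    refine Finset.sum_congr rfl fun i _ => ?_
    rw [av_sum Finset.univ (fun (j : Fin 7) (s : S6) =>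
        (dd h i * B i j) * ((s : E7) i * (s : E7) j / √(Q h s)))
      (fun j _ => continuous_const.mul (cont_ij h0 h1 i j))]
    rw [Finset.sum_eq_single i]
    · rw [av_mul, ← av_diag h0 h1 i]; ring
    · intro j _ hj
      rw [av_mul, av_off (Ne.symm hj), mul_zero]
    · simp
  rw [e1]
  apply av_mono
  · exact continuous_finsetSum _ fun i _ => continuous_finsetSum _ fun j _ =>
      continuous_const.mul (cont_ij h0 h1 i j)
  · exact ((act_cont B).comp continuous_subtype_val).norm
  · intro s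
    have hs : (s : E7) ≠ 0 := by
      have := s.2
      intro hc
      rw [hc] at this
      simp at this
    have hQ := Q_pos h0 h1 hs
    -- the unit vector
    set y : E7 := WithLp.toLp 2 (fun i => dd h i * (s : E7) i / √(Q h s)) with hy
    have hyn : ‖y‖ = 1 := by
      have : ‖y‖ ^ 2 = 1 := by
        rw [norm_sq7]
        have : ∀ i, y i ^ 2 = dsq h i * (s : E7) i ^ 2 / Q h s := by
          intro i
          show (dd h i * (s : E7) i / √(Q h s)) ^ 2 = _
          rw [div_pow, mul_pow, Real.sq_sqrt hQ.le, dd, Real.sq_sqrt (dsq_pos h0 h1 i).le]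
        simp only [this]
        rw [← Finset.sum_div]
        exact div_self hQ.ne'
      have h3 : 0 ≤ ‖y‖ := norm_nonneg y
      nlinarith
    have hin : ∑ i, ∑ j, (dd h i * B i j) * ((s : E7) i * (s : E7) j / √(Q h s)) =
        inner ℝ y (act B (s : E7)) := by
      rw [PiLp.inner_apply]
      refine Finset.sum_congr rfl fun i _ => ?_
      have e3 : (act B (s : E7)) i = ∑ j, B i j * (s : E7) j := rfl
      have e4 : y i = dd h i * (s : E7) i / √(Q h s) := rfl
      simp only [RCLike.inner_apply, conj_trivial]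
      rw [e3, e4, Finset.sum_mul]
      refine Finset.sum_congr rfl fun j _ => ?_
      ring
    rw [hin]
    calc inner ℝ y (act B (s : E7)) ≤ ‖y‖ * ‖act B (s : E7)‖ :=
          real_inner_le_norm _ _
      _ = _ := by rw [hyn, one_mul]

end

end Pool.Agent.Q81.Hs
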