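import Pool.Agent.Q81.Hs6

open Real Set MeasureTheory Filter Topology Metric

namespace Pool.Agent.Q81.Hs

noncomputable section

/-- average of `F` over the unit sphere of `ℝⁿ` with respect to normalized surface measure -/
def sphereAvg (n : ℕ) (F : EuclideanSpace ℝ (Fin n) → ℝ) : ℝ :=
  ⨍ x : sphere (0 : EuclideanSpace ℝ (Fin n)) 1, F x
    ∂((volume : Measure (EuclideanSpace ℝ (Fin n))).toSphere)

/-- `‖A‖_{H^p}` -/
def hNorm {n : ℕ} (p : ℝ) (A : Matrix (Fin n) (Fin n) ℝ) : ℝ :=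
  (sphereAvg n fun x => ‖act A x‖ ^ p) ^ (1 / p)

/-- the inner product `(1/n) tr (Aᵀ B)` -/
def hInner {n : ℕ} (A B : Matrix (Fin n) (Fin n) ℝ) : ℝ := (1 / n) * (A.transpose * B).trace

/-- the set whose supremum is `‖A‖_{H^1_*}` -/
def dualSet {n : ℕ} (A : Matrix (Fin n) (Fin n) ℝ) : Set ℝ :=
  {s | ∃ B : Matrix (Fin n) (Fin n) ℝ, hNorm 1 B ≤ 1 ∧ s = hInner A B}

/-- `‖A‖_{H^1_*}` -/
def dualNorm {n : ℕ} (A : Matrix (Fin n) (Fin n) ℝ) : ℝ := sSup (dualSet A)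

/-- `c_n` -/
def cconst (n : ℕ) : ℝ :=
  (2 : ℝ) ^ (5 / 4 : ℝ) / √π * (Real.Gamma (((n : ℝ) + 1) / 2) / Real.Gamma ((n : ℝ) / 2)) *
    (((n : ℝ) + 2) ^ (1 / 4 : ℝ) / (n : ℝ) ^ (3 / 4 : ℝ))

/-- the matrix -/
def AA : Matrix (Fin 7) (Fin 7) ℝ := Matrix.diagonal fun i => 7 * al h₀ i

lemma hInner_AA (B : Matrix (Fin 7) (Fin 7) ℝ) : hInner AA B = ∑ i, al h₀ i * B i i := by
  unfold hInner AA
  rw [Matrix.diagonal_transpose, Matrix.trace, Finset.mul_sum]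
  refine Finset.sum_congr rfl fun i _ => ?_
  simp only [Matrix.diag_apply, Matrix.diagonal_mul]
  push_cast
  ring

lemma hNorm_one (B : Matrix (Fin 7) (Fin 7) ℝ) :
    hNorm 1 B = av (fun s => ‖act B (s : E7)‖) := by
  unfold hNorm sphereAvg av
  simp

lemma dualSet_le : ∀ s ∈ dualSet AA, s ≤ 1 := by
  rintro s ⟨B, hB, rfl⟩
  rw [hInner_AA]
  rw [hNorm_one] at hB
  exact (dual_bound h₀_pos h₀_lt B).trans hB

lemma dualNorm_le : dualNorm AA ≤ 1 := by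
  refine csSup_le ?_ dualSet_le
  refine ⟨hInner AA 0, 0, ?_, rfl⟩
  rw [hNorm_one]
  have : (fun s : S6 => ‖act (0 : Matrix (Fin 7) (Fin 7) ℝ) (s : E7)‖) = fun _ => 0 := by
    funext s
    unfold act
    simp
  rw [this]
  unfold av
  simp

lemma hom_four (i j : Fin 7) (r : ℝ) (x : E7) (_ : 0 < r) :
    (r • x) i ^ 2 * (r • x) j ^ 2 = r ^ 4 * (x i ^ 2 * x j ^ 2) := by
  simp only [PiLp.smul_apply, smul_eq_mul]
  ring

lemma av22 (i j : Fin 7) :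
    av (fun s : S6 => (s : E7) i ^ 2 * (s : E7) j ^ 2) = (if i = j then 3 else 1) / 63 := by
  have h2 := hom_int (fun x => x i ^ 2 * x j ^ 2) 4 (fun r x hr => hom_four i j r x hr)
  rw [m22] at h2
  have h3 : Rk (6 + 4) = 63 * Rk 6 := R10
  rw [h3] at h2
  rw [av_eq]
  have := Rk_pos 6
  have h5 : 0 < √(2 * π) ^ 7 := by positivity
  rw [div_eq_div_iff h5.ne' (by norm_num), h2]
  ring

lemma norm_act_diag (a : Fin 7 → ℝ) (x : E7) :
    ‖act (Matrix.diagonal a) x‖ ^ 4 =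
      ∑ i, ∑ j, (a i ^ 2 * a j ^ 2) * (x i ^ 2 * x j ^ 2) := by
  have h1 : ‖act (Matrix.diagonal a) x‖ ^ 2 = ∑ i, a i ^ 2 * x i ^ 2 := by
    rw [norm_sq7]
    refine Finset.sum_congr rfl fun i _ => ?_
    have : act (Matrix.diagonal a) x i = a i * x i := by
      unfold act
      simp [Matrix.mulVec_diagonal]
    rw [this]; ring
  calc ‖act (Matrix.diagonal a) x‖ ^ 4 = (‖act (Matrix.diagonal a) x‖ ^ 2) ^ 2 := by ring
    _ = _ := by
      rw [h1, sq, Finset.sum_mul_sum]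
      refine Finset.sum_congr rfl fun i _ => Finset.sum_congr rfl fun j _ => ?_
      ring

lemma av_norm4 (a : Fin 7 → ℝ) :
    av (fun s => ‖act (Matrix.diagonal a) (s : E7)‖ ^ 4) =
      ((∑ i, a i ^ 2) ^ 2 + 2 * ∑ i, a i ^ 4) / 63 := by
  simp only [norm_act_diag]
  rw [av_sum Finset.univ (fun (i : Fin 7) (s : S6) =>
        ∑ j, (a i ^ 2 * a j ^ 2) * ((s : E7) i ^ 2 * (s : E7) j ^ 2))
      (fun i _ => by fun_prop)]
  have e1 : ∀ i, av (fun s : S6 => ∑ j, (a i ^ 2 * a j ^ 2) * ((s : E7) i ^ 2 * (s : E7) j ^ 2)) =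
      (a i ^ 2 * (∑ j, a j ^ 2) + 2 * a i ^ 4) / 63 := by
    intro i
    rw [av_sum Finset.univ (fun (j : Fin 7) (s : S6) =>
        (a i ^ 2 * a j ^ 2) * ((s : E7) i ^ 2 * (s : E7) j ^ 2)) (fun j _ => by fun_prop)]
    have e2 : ∀ j, av (fun s : S6 => (a i ^ 2 * a j ^ 2) * ((s : E7) i ^ 2 * (s : E7) j ^ 2)) =
        (a i ^ 2 * a j ^ 2 + (if i = j then 2 * (a i ^ 2 * a j ^ 2) else 0)) / 63 := by
      intro j
      rw [av_mul, av22]
      split_ifs <;> ring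
    simp only [e2]
    rw [← Finset.sum_div, Finset.sum_add_distrib, ← Finset.mul_sum]
    rw [Finset.sum_ite_eq Finset.univ i]
    simp only [Finset.mem_univ, if_true]
    ring
  simp only [e1]
  rw [← Finset.sum_div, Finset.sum_add_distrib, ← Finset.sum_mul, ← Finset.mul_sum]
  ring

end

end Pool.Agent.Q81.Hs
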