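import Pool.Agent.Q81.Hs7

open Real Set MeasureTheory Filter Topology Metric

namespace Pool.Agent.Q81.Hs

noncomputable section

/-- ratio of Gamma values -/
def gr : ℝ := Real.Gamma (7 / 2) / Real.Gamma 4

lemma gr_pos : 0 < gr := by
  unfold gr
  have := Real.Gamma_pos_of_pos (show (0 : ℝ) < 7 / 2 by norm_num)
  have := Real.Gamma_pos_of_pos (show (0 : ℝ) < 4 by norm_num)
  positivity

lemma ratio_sq : (Rk 6 / Rk 7) ^ 2 = gr ^ 2 / 2 := by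
  rw [Rk_val, Rk_val]
  have e1 : (((6 : ℕ) : ℝ) + 1) / 2 = 7 / 2 := by norm_num
  have e2 : (((7 : ℕ) : ℝ) + 1) / 2 = 4 := by norm_num
  have e3 : -(((6 : ℕ) : ℝ) + 1) / 2 = -(7 / 2) := by norm_num
  have e4 : -(((7 : ℕ) : ℝ) + 1) / 2 = -4 := by norm_num
  rw [e1, e2, e3, e4]
  have e5 : (1 / 2 : ℝ) ^ (-(4 : ℝ)) = 16 := by
    rw [Real.rpow_neg (by norm_num), show (4 : ℝ) = ((4 : ℕ) : ℝ) by norm_num, Real.rpow_natCast]
    norm_num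
  have e6 : ((1 / 2 : ℝ) ^ (-(7 / 2) : ℝ)) ^ 2 = 128 := by
    rw [← Real.rpow_natCast, ← Real.rpow_mul (by norm_num)]
    have : (-(7 / 2) : ℝ) * ((2 : ℕ) : ℝ) = -7 := by norm_num
    rw [this, Real.rpow_neg (by norm_num), show (7 : ℝ) = ((7 : ℕ) : ℝ) by norm_num,
      Real.rpow_natCast]
    norm_num
  rw [e5]
  unfold gr
  have h4 := Real.Gamma_pos_of_pos (show (0 : ℝ) < 4 by norm_num)
  rw [div_pow, mul_pow, mul_pow, e6, div_pow]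
  field_simp
  ring

lemma al_sq (i : Fin 7) : al h₀ i ^ 2 = (gr ^ 2 / π) * (dsq h₀ i * UW h₀ i ^ 2) := by
  unfold al dd
  have hd := (dsq_pos h₀_pos h₀_lt i).le
  calc (√(dsq h₀ i) * (√(2 / π) * UW h₀ i * (Rk 6 / Rk 7))) ^ 2
      = √(dsq h₀ i) ^ 2 * (√(2 / π) ^ 2 * UW h₀ i ^ 2 * (Rk 6 / Rk 7) ^ 2) := by ring
    _ = _ := by
      rw [ratio_sq, Real.sq_sqrt hd, Real.sq_sqrt (by positivity)]
      field_simp

/-- the bracket -/
def br : ℝ := (U h₀ ^ 2 + 6 * ((1 - h₀ ^ 2) * W h₀ ^ 2)) ^ 2 +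
  2 * (U h₀ ^ 4 + 6 * ((1 - h₀ ^ 2) * W h₀ ^ 2) ^ 2)

lemma X_val : av (fun s => ‖act AA (s : E7)‖ ^ 4) = 7 ^ 4 * gr ^ 4 / (63 * π ^ 2) * br := by
  unfold AA
  rw [av_norm4]
  have e1 : ∀ i, (7 * al h₀ i) ^ 2 = 49 * ((gr ^ 2 / π) * (dsq h₀ i * UW h₀ i ^ 2)) := by
    intro i
    rw [mul_pow, al_sq]; norm_num
  have e2 : ∀ i, (7 * al h₀ i) ^ 4 = (49 * ((gr ^ 2 / π) * (dsq h₀ i * UW h₀ i ^ 2))) ^ 2 := by
    intro i
    rw [← e1]; ring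
  simp only [e1, e2]
  have es : ∀ f : Fin 7 → ℝ, ∑ i, f i = f 0 + ∑ i : Fin 6, f i.succ := fun f => Fin.sum_univ_succ f
  rw [es, es]
  have e3 : ∀ i : Fin 6, dsq h₀ i.succ * UW h₀ i.succ ^ 2 = (1 - h₀ ^ 2) * W h₀ ^ 2 := by
    intro i
    simp [dsq, UW]
  have e4 : dsq h₀ 0 * UW h₀ 0 ^ 2 = U h₀ ^ 2 := by simp [dsq, UW]
  simp only [e3, e4, Finset.sum_const, Finset.card_univ, Fintype.card_fin, nsmul_eq_mul]
  unfold br
  push_cast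
  field_simp
  ring

lemma c_pow : cconst 7 ^ 4 = 32 / π ^ 2 * (9 / 343) / gr ^ 4 := by
  unfold cconst gr
  have e1 : (((7 : ℕ) : ℝ) + 1) / 2 = 4 := by norm_num
  have e2 : ((7 : ℕ) : ℝ) / 2 = 7 / 2 := by norm_num
  rw [e1, e2]
  have a1 : ((2 : ℝ) ^ (5 / 4 : ℝ)) ^ 4 = 32 := by
    rw [← Real.rpow_natCast, ← Real.rpow_mul (by norm_num)]
    have : (5 / 4 : ℝ) * ((4 : ℕ) : ℝ) = ((5 : ℕ) : ℝ) := by norm_num
    rw [this, Real.rpow_natCast]; norm_num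
  have a2 : ((((7 : ℕ) : ℝ) + 2) ^ (1 / 4 : ℝ)) ^ 4 = 9 := by
    rw [← Real.rpow_natCast, ← Real.rpow_mul (by norm_num)]
    have : (1 / 4 : ℝ) * ((4 : ℕ) : ℝ) = ((1 : ℕ) : ℝ) := by norm_num
    rw [this, Real.rpow_natCast]; norm_num
  have a3 : (((7 : ℕ) : ℝ) ^ (3 / 4 : ℝ)) ^ 4 = 343 := by
    rw [← Real.rpow_natCast, ← Real.rpow_mul (by norm_num)]
    have : (3 / 4 : ℝ) * ((4 : ℕ) : ℝ) = ((3 : ℕ) : ℝ) := by norm_num
    rw [this, Real.rpow_natCast]; norm_num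
  have a4 : √π ^ 4 = π ^ 2 := by
    calc √π ^ 4 = (√π ^ 2) ^ 2 := by ring
      _ = _ := by rw [Real.sq_sqrt Real.pi_pos.le]
  have g1 := Real.Gamma_pos_of_pos (show (0 : ℝ) < 7 / 2 by norm_num)
  have g2 := Real.Gamma_pos_of_pos (show (0 : ℝ) < 4 by norm_num)
  rw [mul_pow, mul_pow, div_pow, div_pow, div_pow, a1, a2, a3, a4, div_pow]
  field_simp

lemma br_lower : (3.04455 : ℝ) < br := by
  have hU := U_lower
  have hW := W_lower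
  have hU2 : (0.951988 : ℝ) < U h₀ ^ 2 := by nlinarith
  have hW2 : (6.600223 : ℝ) < W h₀ ^ 2 := by nlinarith
  have hq : (0.0257317 : ℝ) < (1 - h₀ ^ 2) * W h₀ ^ 2 := by
    have : (1 - h₀ ^ 2) = 4096 / 1050625 := by unfold h₀; norm_num
    rw [this]
    nlinarith
  have hU4 : (0.906281 : ℝ) < U h₀ ^ 4 := by nlinarith
  have hq2 : (0.00066212 : ℝ) < ((1 - h₀ ^ 2) * W h₀ ^ 2) ^ 2 := by nlinarith
  have hs : (1.106378 : ℝ) < U h₀ ^ 2 + 6 * ((1 - h₀ ^ 2) * W h₀ ^ 2) := by linarith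
  have hs2 : (1.224072 : ℝ) < (U h₀ ^ 2 + 6 * ((1 - h₀ ^ 2) * W h₀ ^ 2)) ^ 2 := by nlinarith
  unfold br
  linarith

lemma pi_four : π ^ 4 < 97.4092 := by
  have h1 := Real.pi_lt_d6
  have h2 := Real.pi_pos
  have h3 : π ^ 2 < 9.869607 := by nlinarith
  have h4 : 0 < π ^ 2 := by positivity
  nlinarith

lemma key_num : 1 < cconst 7 ^ 4 * av (fun s => ‖act AA (s : E7)‖ ^ 4) := by
  rw [X_val, c_pow]
  have hg := gr_pos
  have e : 32 / π ^ 2 * (9 / 343) / gr ^ 4 * (7 ^ 4 * gr ^ 4 / (63 * π ^ 2) * br) =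
      32 * br / π ^ 4 := by
    field_simp
    ring
  rw [e, lt_div_iff₀ (by positivity)]
  have := br_lower
  have := pi_four
  linarith

lemma cconst_pos : 0 < cconst 7 := by
  unfold cconst
  have g1 := Real.Gamma_pos_of_pos (show (0 : ℝ) < ((7 : ℕ) : ℝ) / 2 by norm_num)
  have g2 := Real.Gamma_pos_of_pos (show (0 : ℝ) < (((7 : ℕ) : ℝ) + 1) / 2 by norm_num)
  positivity

lemma final_ineq : 1 < cconst 7 * hNorm 4 AA := by
  have h1 := key_num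
  have e0 : hNorm 4 AA = (av (fun s => ‖act AA (s : E7)‖ ^ 4)) ^ (1 / 4 : ℝ) := by
    unfold hNorm sphereAvg av
    congr 2
    funext s
    show ‖act AA (s : E7)‖ ^ (4 : ℝ) = ‖act AA (s : E7)‖ ^ 4
    rw [show (4 : ℝ) = ((4 : ℕ) : ℝ) by norm_num, Real.rpow_natCast]
  set X := av (fun s => ‖act AA (s : E7)‖ ^ 4) with hX
  have hc := cconst_pos
  have hX0 : 0 < X := by
    by_contra hcon
    push Not at hcon
    have : cconst 7 ^ 4 * X ≤ 0 := mul_nonpos_of_nonneg_of_nonpos (by positivity) hcon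
    linarith
  rw [e0]
  by_contra hcon
  push Not at hcon
  have h2 : (cconst 7 * X ^ (1 / 4 : ℝ)) ^ 4 ≤ 1 := pow_le_one₀ (by positivity) hcon
  have h3 : (X ^ (1 / 4 : ℝ)) ^ 4 = X := by
    rw [← Real.rpow_natCast, ← Real.rpow_mul hX0.le]
    norm_num
  rw [mul_pow, h3] at h2
  linarith

/-- The lower inequality fails in dimension 7. -/
theorem main : BddAbove (dualSet AA) ∧ dualNorm AA < cconst 7 * hNorm 4 AA :=
  ⟨⟨1, dualSet_le⟩, dualNorm_le.trans_lt final_ineq⟩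

end

end Pool.Agent.Q81.Hs
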