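import Pool.Agent.Q81.Un2

/-!
# The coincidence theorem for discs and Szegő composition
-/

namespace Q81.Hyp

open Polynomial Finset Q81.Un

/-- `GP N g` has no zero in the open disc of radius `R` -/
def ZF (N : ℕ) (g : ℕ → ℂ) (R : ℝ) : Prop := ∀ v : ℂ, ‖v‖ < R → (GP N g).eval v ≠ 0

lemma GP_natDegree_le (N : ℕ) (g : ℕ → ℂ) : (GP N g).natDegree ≤ N := by
  rw [GP]
  refine natDegree_sum_le_of_forall_le _ _ fun m hm => ?_
  exact (natDegree_C_mul_X_pow_le _ _).trans (by rw [Finset.mem_range] at hm; omega)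

lemma point_ineq {v w c : ℂ} {R : ℝ} (hA : ‖v‖ < R) (hw : R * ‖w‖ ≤ ‖v * w - 1‖) :
    2 * (R ^ 2 - ‖v‖ ^ 2) * (w.re * c.re + w.im * c.im) + 2 * (v * w).re ≤
      (R ^ 2 - ‖v‖ ^ 2) * ‖c‖ ^ 2 + 1 := by
  have hR : 0 ≤ R := (norm_nonneg v).trans hA.le
  have h1 : (R * ‖w‖) ^ 2 ≤ ‖v * w - 1‖ ^ 2 := by gcongr
  rw [mul_pow, Complex.sq_norm, Complex.sq_norm] at h1
  have hA' : 0 < R ^ 2 - ‖v‖ ^ 2 := by nlinarith [norm_nonneg v]
  rw [Complex.sq_norm] at hA' ⊢
  rw [Complex.sq_norm]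
  rw [Complex.normSq_apply, Complex.normSq_apply] at *
  simp only [Complex.sub_re, Complex.mul_re, Complex.sub_im, Complex.mul_im, Complex.one_re,
    Complex.one_im] at *
  nlinarith [mul_nonneg hA'.le (sq_nonneg (w.re - c.re)), mul_nonneg hA'.le (sq_nonneg (w.im - c.im))]

/-- Laguerre's theorem for discs -/
theorem ZF.step {N : ℕ} {g : ℕ → ℂ} {R : ℝ} (h : ZF (N + 1) g R) {u : ℂ} (hu : ‖u‖ < R) :
    ZF N (fun m => g m + u * g (m + 1)) R := by
  intro v hv h0
  set G := GP (N + 1) g with hG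
  have hGv : G.eval v ≠ 0 := h v hv
  have hsplit : G.Splits := IsAlgClosed.splits G
  have hcard : G.roots.card ≤ N + 1 := (card_roots' G).trans (GP_natDegree_le _ _)
  have h1 := congrArg (fun p => p.eval v) (GP_rel N g 1 u)
  simp only [eval_mul, eval_add, eval_sub, eval_C, eval_X, one_mul] at h1
  rw [h0, mul_zero, ← hG] at h1
  have hlog := hsplit.eval_derivative_eq_eval_mul_sum hGv
  set W := (G.roots.map fun w => 1 / (v - w)).sum with hW
  rw [hlog] at h1
  have h2 : (v - u) * W = (N : ℂ) + 1 := by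
    have : ((v - u) * W - ((N : ℂ) + 1)) * G.eval v = 0 := by linear_combination h1
    exact sub_eq_zero.1 ((mul_eq_zero.1 this).resolve_right hGv)
  have hN1 : ((N : ℂ) + 1) ≠ 0 := by exact_mod_cast Nat.succ_ne_zero N
  have hvu : v - u ≠ 0 := by
    intro h; rw [h, zero_mul] at h2; exact hN1 h2.symm
  set c : ℂ := (v - u)⁻¹ with hc
  have hWc : W = ((N : ℝ) + 1 : ℝ) * c := by
    rw [hc, ← div_eq_mul_inv, eq_div_iff hvu, mul_comm, h2]
    push_cast
    ring
  set A : ℝ := R ^ 2 - ‖v‖ ^ 2 with hA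
  have hA0 : 0 < A := by
    have := norm_nonneg v
    rw [hA]; nlinarith
  set ℓ : ℂ →+ ℝ :=
    { toFun := fun w => 2 * A * (w.re * c.re + w.im * c.im) + 2 * (v * w).re
      map_zero' := by simp
      map_add' := fun x y => by simp only [mul_add, Complex.add_re, Complex.add_im]; ring } with hℓ
  have hsum : ℓ W = (G.roots.map fun w => ℓ (1 / (v - w))).sum := by
    rw [hW, map_multiset_sum, Multiset.map_map]
    rfl
  have hb : ∀ x ∈ G.roots.map (fun w => ℓ (1 / (v - w))), x ≤ A * ‖c‖ ^ 2 + 1 := by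
    intro x hx
    obtain ⟨ζ, hζ, rfl⟩ := Multiset.mem_map.1 hx
    have hζR : R ≤ ‖ζ‖ := by
      by_contra hcon
      exact h ζ (not_le.1 hcon) (mem_roots'.1 hζ).2
    have hvζ : v - ζ ≠ 0 := by
      intro h
      rw [sub_eq_zero] at h
      rw [h] at hv
      linarith
    refine point_ineq hv ?_
    have : v * (1 / (v - ζ)) - 1 = ζ * (1 / (v - ζ)) := by field_simp; ring
    rw [this, norm_mul]
    exact mul_le_mul_of_nonneg_right hζR (norm_nonneg _)
  have h3 := Multiset.sum_le_card_nsmul _ _ hb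
  rw [← hsum, Multiset.card_map, nsmul_eq_mul] at h3
  have h4 : (G.roots.card : ℝ) * (A * ‖c‖ ^ 2 + 1) ≤ ((N : ℝ) + 1) * (A * ‖c‖ ^ 2 + 1) := by
    refine mul_le_mul_of_nonneg_right ?_ (by positivity)
    exact_mod_cast hcard
  have h5 : ℓ W = ((N : ℝ) + 1) * (2 * A * ‖c‖ ^ 2 + 2 * (v * c).re) := by
    rw [hWc, Complex.sq_norm, Complex.normSq_apply]
    simp only [hℓ, AddMonoidHom.coe_mk, ZeroHom.coe_mk, Complex.mul_re, Complex.mul_im,
      Complex.ofReal_re, Complex.ofReal_im]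
    ring
  have h6 : A * ‖c‖ ^ 2 + 2 * (v * c).re ≤ 1 := by
    have h7 : ((N : ℝ) + 1) * (2 * A * ‖c‖ ^ 2 + 2 * (v * c).re) ≤ ((N : ℝ) + 1) * (A * ‖c‖ ^ 2 + 1) := by
      rw [← h5]; exact h3.trans h4
    have h8 := le_of_mul_le_mul_left h7 (by positivity)
    linarith
  -- now the contradiction
  have h9 : (v * c).re = (v.re * (v.re - u.re) + v.im * (v.im - u.im)) * ‖c‖ ^ 2 := by
    rw [hc, Complex.mul_re, Complex.inv_re, Complex.inv_im, norm_inv, inv_pow, Complex.sq_norm]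
    simp only [Complex.sub_re, Complex.sub_im]
    have : Complex.normSq (v - u) ≠ 0 := by rwa [ne_eq, Complex.normSq_eq_zero]
    field_simp
    ring
  have h10 : ‖c‖ ^ 2 * ((v.re - u.re) ^ 2 + (v.im - u.im) ^ 2) = 1 := by
    rw [hc, norm_inv, inv_pow, Complex.sq_norm]
    have h11 : Complex.normSq (v - u) ≠ 0 := by rwa [ne_eq, Complex.normSq_eq_zero]
    have h12 : (v.re - u.re) ^ 2 + (v.im - u.im) ^ 2 = Complex.normSq (v - u) := by
      rw [Complex.normSq_apply]; simp; ring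
    rw [h12, inv_mul_cancel₀ h11]
  have hc0 : 0 < ‖c‖ ^ 2 := by
    have : c ≠ 0 := inv_ne_zero hvu
    positivity
  have hu2 : ‖u‖ ^ 2 < R ^ 2 := by
    have := norm_nonneg u
    nlinarith
  have hv2 : ‖v‖ ^ 2 = v.re ^ 2 + v.im ^ 2 := by
    rw [Complex.sq_norm, Complex.normSq_apply]; ring
  have hu3 : ‖u‖ ^ 2 = u.re ^ 2 + u.im ^ 2 := by
    rw [Complex.sq_norm, Complex.normSq_apply]; ring
  rw [h9, hA, hv2] at h6
  rw [hu3] at hu2
  have h13 : ‖c‖ ^ 2 * (R ^ 2 - (u.re ^ 2 + u.im ^ 2)) ≤ 0 := by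
    nlinarith [h6, h10]
  have h14 : 0 < ‖c‖ ^ 2 * (R ^ 2 - (u.re ^ 2 + u.im ^ 2)) := mul_pos hc0 (by linarith)
  linarith

/-- the functional `X^k ↦ α k` -/
noncomputable def Lf (α : ℕ → ℂ) : ℂ[X] →ₗ[ℂ] ℂ :=
  Polynomial.lsum fun k => (α k) • (LinearMap.id : ℂ →ₗ[ℂ] ℂ)

lemma Lf_C_mul_X_pow (α : ℕ → ℂ) (c : ℂ) (k : ℕ) : Lf α (C c * X ^ k) = c * α k := by
  rw [Lf, C_mul_X_pow_eq_monomial, Polynomial.lsum_apply, Polynomial.sum_monomial_index]
  · simp [mul_comm]
  · simp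

lemma Lf_step (α : ℕ → ℂ) (u : ℂ) (p : ℂ[X]) :
    Lf α ((1 + C u * X) * p) = Lf (fun m => α m + u * α (m + 1)) p := by
  induction p using Polynomial.induction_on' with
  | add p q hp hq => rw [mul_add, map_add, map_add, hp, hq]
  | monomial k c =>
    rw [← C_mul_X_pow_eq_monomial, Lf_C_mul_X_pow]
    have h1 : (1 + C u * X) * (C c * X ^ k) = C c * X ^ k + C (u * c) * X ^ (k + 1) := by
      rw [map_mul]; ring
    rw [h1, map_add, Lf_C_mul_X_pow, Lf_C_mul_X_pow]
    ring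

lemma ZF.multiset {R : ℝ} (U : Multiset ℂ) : ∀ {α : ℕ → ℂ}, ZF U.card α R → (∀ u ∈ U, ‖u‖ < R) →
    0 < R → Lf α (U.map fun u => 1 + C u * X).prod ≠ 0 := by
  induction U using Multiset.induction_on with
  | empty =>
    intro α h _ hR
    have h1 := h 0 (by simpa using hR)
    rw [GP_eval] at h1
    have h2 := Lf_C_mul_X_pow α 1 0
    simp at h1 h2 ⊢
    rwa [h2]
  | cons u U ih =>
    intro α h hU hR
    rw [Multiset.map_cons, Multiset.prod_cons, Lf_step]
    rw [Multiset.card_cons] at h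
    exact ih (h.step (hU u (Multiset.mem_cons_self u U)))
      (fun w hw => hU w (Multiset.mem_cons_of_mem hw)) hR

lemma Lf_GP_comp (α β : ℕ → ℂ) (N : ℕ) (y : ℂ) :
    Lf α ((GP N β).comp (C y * X)) = (GP N fun m => α m * β m).eval y := by
  rw [GP, Polynomial.sum_comp, map_sum, GP_eval]
  refine sum_congr rfl fun m _ => ?_
  rw [mul_comp, C_comp, pow_comp, X_comp, mul_pow, ← C_pow, ← mul_assoc, ← C_mul, Lf_C_mul_X_pow]
  ring

/-- Szegő composition for discs centred at the origin. -/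
theorem ZF.mul {N : ℕ} {α β : ℕ → ℂ} {R S : ℝ} (hα : ZF N α R) (hβ : ZF N β S) (hR : 0 < R)
    (hS : 0 < S) : ZF N (fun m => α m * β m) (R * S) := by
  intro y hy h0
  set G := GP N β with hG
  have hsplit : G.Splits := IsAlgClosed.splits G
  have hG0 : G.eval 0 ≠ 0 := hβ 0 (by simpa using hS)
  have hcard : G.roots.card ≤ N := (card_roots' G).trans (GP_natDegree_le _ _)
  have hroots : ∀ ζ ∈ G.roots, S ≤ ‖ζ‖ := by
    intro ζ hζ
    by_contra hcon
    exact hβ ζ (not_le.1 hcon) (mem_roots'.1 hζ).2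
  set U : Multiset ℂ := (G.roots.map fun ζ => -(y / ζ)) + Multiset.replicate (N - G.roots.card) 0 with hU
  have hUcard : U.card = N := by
    rw [hU, Multiset.card_add, Multiset.card_map, Multiset.card_replicate]; omega
  have hUR : ∀ u ∈ U, ‖u‖ < R := by
    intro u hu
    rw [hU, Multiset.mem_add] at hu
    rcases hu with hu | hu
    · obtain ⟨ζ, hζ, rfl⟩ := Multiset.mem_map.1 hu
      have h1 := hroots ζ hζ
      rw [norm_neg, norm_div, div_lt_iff₀ (by linarith)]
      calc ‖y‖ < R * S := hy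
        _ ≤ R * ‖ζ‖ := by gcongr
    · rw [Multiset.eq_of_mem_replicate hu, norm_zero]; exact hR
  have key := ZF.multiset U (hUcard ▸ hα) hUR hR
  have hprod : G.comp (C y * X) = C (G.eval 0) * (U.map fun u => 1 + C u * X).prod := by
    have h1 : (U.map fun u : ℂ => (1 + C u * X : ℂ[X])).prod =
        (G.roots.map fun ζ => (1 + C (-(y / ζ)) * X : ℂ[X])).prod := by
      rw [hU, Multiset.map_add, Multiset.prod_add, Multiset.map_replicate, Multiset.map_map,
        Multiset.prod_replicate]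
      simp
    rw [h1]
    have h2 : G.comp (C y * X) = C G.leadingCoeff * (G.roots.map fun ζ => (C y * X - C ζ : ℂ[X])).prod := by
      conv_lhs => rw [hsplit.eq_prod_roots]
      rw [mul_comp, C_comp, multiset_prod_comp, Multiset.map_map]
      congr 3
      funext ζ
      simp
    have h3 : G.eval 0 = G.leadingCoeff * (G.roots.map fun ζ => -ζ).prod := by
      conv_lhs => rw [hsplit.eq_prod_roots]
      rw [eval_mul, eval_C, eval_multiset_prod, Multiset.map_map]
      congr 3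
      funext ζ
      simp
    rw [h2, h3, C_mul, mul_assoc]
    congr 1
    have h4 : C (G.roots.map fun ζ => -ζ).prod = (G.roots.map fun ζ => (C (-ζ) : ℂ[X])).prod := by
      rw [map_multiset_prod, Multiset.map_map]
      rfl
    rw [h4, ← Multiset.prod_map_mul]
    congr 1
    refine Multiset.map_congr rfl fun ζ hζ => ?_
    have h5 : ζ ≠ 0 := by
      intro h
      have := hroots ζ hζ
      rw [h, norm_zero] at this
      linarith
    have h6 : (C (-ζ) : ℂ[X]) * (1 + C (-(y / ζ)) * X) = C (-ζ) + C (-ζ * -(y / ζ)) * X := by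
      rw [C_mul]; ring
    rw [h6]
    have h7 : -ζ * -(y / ζ) = y := by field_simp
    rw [h7, C_neg]
    ring
  have h8 := Lf_GP_comp α β N y
  rw [← hG, hprod, h0, ← smul_eq_C_mul, map_smul, smul_eq_mul] at h8
  exact key ((mul_eq_zero.1 h8).resolve_left hG0)

lemma ZF.mono {N : ℕ} {α : ℕ → ℂ} {R S : ℝ} (h : ZF N α R) (hS : S ≤ R) : ZF N α S :=
  fun v hv => h v (hv.trans_le hS)

lemma GP_congr {N : ℕ} {α β : ℕ → ℂ} (h : ∀ i ≤ N, α i = β i) : GP N α = GP N β := by
  rw [GP, GP]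
  refine sum_congr rfl fun m hm => ?_
  rw [h m (by rw [Finset.mem_range] at hm; omega)]

lemma ZF.congr {N : ℕ} {α β : ℕ → ℂ} {R : ℝ} (h : ZF N α R) (e : ∀ i ≤ N, α i = β i) : ZF N β R := by
  rw [ZF, ← GP_congr e]; exact h

lemma GP_one_eval (N : ℕ) (v : ℂ) : (GP N fun _ => 1).eval v = (1 + v) ^ N := by
  rw [GP_eval, add_comm 1 v, add_pow]
  refine sum_congr rfl fun m _ => ?_
  simp; ring

lemma ZF.one (N : ℕ) : ZF N (fun _ => 1) 1 := by
  intro v hv
  rw [GP_one_eval]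
  refine pow_ne_zero _ fun h => ?_
  have : v = -1 := by linear_combination h
  rw [this, norm_neg, norm_one] at hv
  exact lt_irrefl _ hv

lemma ZF.prod {ι : Type*} {N : ℕ} (s : Finset ι) (α : ι → ℕ → ℂ) (R : ι → ℝ)
    (hR : ∀ k ∈ s, 0 < R k) (h : ∀ k ∈ s, ZF N (α k) (R k)) :
    ZF N (fun m => ∏ k ∈ s, α k m) (∏ k ∈ s, R k) := by
  classical
  induction s using Finset.induction_on with
  | empty => simpa using ZF.one N
  | insert a s ha ih =>
    have h1 := ih (fun k hk => hR k (mem_insert_of_mem hk)) fun k hk => h k (mem_insert_of_mem hk)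
    have h2 := (h a (mem_insert_self a s)).mul h1 (hR a (mem_insert_self a s))
      (prod_pos fun k hk => hR k (mem_insert_of_mem hk))
    simp only [prod_insert ha]
    exact h2

end Q81.Hyp
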