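import Pool.Agent.Q81.Hyp1

/-!
# Three families of polynomials without zeros near the origin
-/

namespace Q81.Hyp

open Polynomial Finset Q81.Un

/-! ### Ratios of Pochhammer symbols -/

/-- `∏_{l<i} (b + n - 1 - l) / (a + n - 1 - l)` -/
noncomputable def rat (a b : ℂ) (n i : ℕ) : ℂ := ∏ l ∈ range i, ((b + n - 1 - l) / (a + n - 1 - l))

/-- The Newton series (Chu–Vandermonde). -/
lemma newton (D : ℂ) (i : ℕ) : ∀ A : ℂ, (∀ l < i, A - l ≠ 0) →
    ∏ l ∈ range i, ((A + D - l) / (A - l)) =
      ∑ k ∈ range (i + 1), (i.choose k : ℂ) * ∏ l ∈ range k, ((D + l) / (A - l)) := by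
  induction i with
  | zero => intro A _; simp
  | succ i ih =>
    intro A hA
    have hA0 : A ≠ 0 := by simpa using hA 0 (by omega)
    have hA1 : ∀ l < i, A - 1 - l ≠ 0 := by
      intro l hl
      have := hA (l + 1) (by omega)
      push_cast at this
      intro h; exact this (by linear_combination h)
    have e1 : ∏ l ∈ range (i + 1), ((A + D - l) / (A - l)) =
        (A + D) / A * ∏ l ∈ range i, ((A - 1 + D - l) / (A - 1 - l)) := by
      rw [prod_range_succ', mul_comm]
      congr 1
      · simp
      · refine prod_congr rfl fun l _ => ?_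
        push_cast
        congr 1 <;> ring
    rw [e1, ih (A - 1) hA1]
    -- Pascal
    have e2 : ∀ P : ℕ → ℂ, ∑ k ∈ range (i + 1 + 1), ((i + 1).choose k : ℂ) * P k =
        ∑ k ∈ range (i + 1), (i.choose k : ℂ) * (P k + P (k + 1)) := by
      intro P
      rw [sum_range_succ']
      simp only [Nat.choose_succ_succ, Nat.cast_add, add_mul, sum_add_distrib, mul_add]
      have e3 : ∑ k ∈ range (i + 1), (i.choose (k + 1) : ℂ) * P (k + 1) =
          ∑ k ∈ range i, (i.choose (k + 1) : ℂ) * P (k + 1) := by
        rw [sum_range_succ]; simp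
      rw [e3, sum_range_succ' (fun k => (i.choose k : ℂ) * P k)]
      simp only [Nat.choose_zero_right]
      ring
    rw [e2 (fun k => ∏ l ∈ range k, ((D + l) / (A - l))), mul_sum]
    refine sum_congr rfl fun k hk => ?_
    rw [mem_range] at hk
    have e4 : ∀ k ≤ i, (∏ l ∈ range k, ((D + l) / (A - l))) * (1 / (A - k)) =
        (1 / A) * ∏ l ∈ range k, ((D + l) / (A - 1 - l)) := by
      intro k
      induction k with
      | zero => intro _; simp
      | succ k ihk =>
        intro hk
        have h1 := ihk (by omega)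
        have h2 := hA k (by omega)
        have h3 := hA (k + 1) (by omega)
        have h4 : A - 1 - k ≠ 0 := by push_cast at h3; intro h; exact h3 (by linear_combination h)
        rw [prod_range_succ, prod_range_succ, ← mul_assoc, ← h1]
        push_cast
        have h5 : A - (k + 1 : ℂ) ≠ 0 := by push_cast at h3; exact h3
        have h6 : A - 1 - k = A - (k + 1 : ℂ) := by ring
        rw [h6]
        field_simp
    have h5 := e4 k (by omega)
    have h6 : A - k ≠ 0 := hA k hk
    rw [prod_range_succ]
    have h7 : ∏ l ∈ range k, ((D + l) / (A - l)) + (∏ l ∈ range k, ((D + l) / (A - l))) * ((D + k) / (A - k)) =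
        (A + D) * ((∏ l ∈ range k, ((D + l) / (A - l))) * (1 / (A - k))) := by
      field_simp
      ring
    rw [h7, h5]
    ring

lemma GP_newton (N : ℕ) (α δ : ℕ → ℂ) (h : ∀ i ≤ N, α i = ∑ k ∈ range (i + 1), (i.choose k : ℂ) * δ k)
    (y : ℂ) : (GP N α).eval y =
      ∑ k ∈ range (N + 1), (N.choose k : ℂ) * δ k * (y ^ k * (1 + y) ^ (N - k)) := by
  rw [GP_eval]
  have h1 : ∀ m ∈ range (N + 1), (N.choose m : ℂ) * α m * y ^ m =
      ∑ k ∈ range (N + 1), (N.choose m : ℂ) * (m.choose k : ℂ) * δ k * y ^ m := by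
    intro m hm
    rw [mem_range] at hm
    rw [h m (by omega), mul_sum, sum_mul]
    have h2 : ∑ k ∈ range (N + 1), (N.choose m : ℂ) * (m.choose k : ℂ) * δ k * y ^ m =
        ∑ k ∈ range (m + 1), (N.choose m : ℂ) * (m.choose k : ℂ) * δ k * y ^ m := by
      symm
      refine sum_subset (fun k hk => ?_) fun k _ hk => ?_
      · rw [mem_range] at *; omega
      · rw [mem_range] at hk
        rw [Nat.choose_eq_zero_of_lt (show m < k by omega)]; simp
    rw [h2]
    exact sum_congr rfl fun k _ => by ring
  rw [sum_congr rfl h1, sum_comm]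
  refine sum_congr rfl fun k hk => ?_
  rw [mem_range] at hk
  have h3 : ∑ m ∈ range (N + 1), (N.choose m : ℂ) * (m.choose k : ℂ) * y ^ m =
      (N.choose k : ℂ) * (y ^ k * (1 + y) ^ (N - k)) := by
    have h4 : N + 1 = k + (N - k + 1) := by omega
    rw [h4, sum_range_add]
    have h5 : ∑ x ∈ range k, (N.choose x : ℂ) * (x.choose k : ℂ) * y ^ x = 0 := by
      refine sum_eq_zero fun x hx => ?_
      rw [mem_range] at hx
      rw [Nat.choose_eq_zero_of_lt hx]; simp
    rw [h5, zero_add, add_comm 1 y, add_pow, mul_sum, mul_sum]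
    refine sum_congr rfl fun j hj => ?_
    rw [mem_range] at hj
    have h6 := Nat.choose_mul (n := N) (k := k + j) (s := k) (by omega) 
    have h7 : ((N.choose (k + j) : ℂ)) * ((k + j).choose k : ℂ) = (N.choose k : ℂ) * ((N - k).choose j : ℂ) := by
      rw [show k + j - k = j by omega] at h6
      exact_mod_cast h6
    rw [h7]
    simp
    ring
  have h4 : ∑ m ∈ range (N + 1), (N.choose m : ℂ) * (m.choose k : ℂ) * δ k * y ^ m =
      δ k * ∑ m ∈ range (N + 1), (N.choose m : ℂ) * (m.choose k : ℂ) * y ^ m := by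
    rw [mul_sum]
    exact sum_congr rfl fun m _ => by ring
  rw [h4, h3]
  ring

end Q81.Hyp
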