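import Pool.Agent.Q81.Hyp2

/-!
# Zero-free discs
-/

namespace Q81.Hyp

open Polynomial Finset Q81.Un Filter Topology

lemma geom_third (n : ℕ) {t : ℝ} (ht0 : 0 ≤ t) (ht : t ≤ 1 / 3) : ∑ k ∈ range n, t ^ (k + 1) ≤ 1 / 2 := by
  have h1 : ∑ k ∈ range n, t ^ (k + 1) ≤ ∑ k ∈ range n, (1 / 3 : ℝ) ^ (k + 1) :=
    sum_le_sum fun k _ => by gcongr
  have h2 : ∀ n : ℕ, ∑ k ∈ range n, (1 / 3 : ℝ) ^ (k + 1) = 1 / 2 - (1 / 2) * (1 / 3) ^ n := by
    intro n
    induction n with
    | zero => norm_num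
    | succ n ih => rw [sum_range_succ, ih]; ring
  rw [h2] at h1
  have : (0 : ℝ) ≤ (1 / 2) * (1 / 3) ^ n := by positivity
  linarith

lemma exists_K (a : ℂ) (ha : ∀ m : ℕ, a + m ≠ 0) : ∃ K : ℝ, 1 ≤ K ∧ ∀ m : ℕ, ‖((m : ℂ) + 1) / (m + a)‖ ≤ K := by
  have h1 : Tendsto (fun m : ℕ => ((m : ℂ) + 1) / (m + a)) atTop (𝓝 1) := by
    have h2 : Tendsto (fun m : ℕ => 1 + (1 - a) * (1 / ((m : ℂ) + a))) atTop (𝓝 (1 + (1 - a) * 0)) := by
      refine Tendsto.const_add _ (Tendsto.const_mul _ ?_)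
      rw [tendsto_zero_iff_norm_tendsto_zero]
      have h3 : Tendsto (fun m : ℕ => 1 / ((m : ℝ) - ‖a‖)) atTop (𝓝 0) := by
        have : Tendsto (fun m : ℕ => (m : ℝ) - ‖a‖) atTop atTop :=
          tendsto_atTop_add_const_right _ _ tendsto_natCast_atTop_atTop
        simpa [one_div, Function.comp_def] using tendsto_inv_atTop_zero.comp this
      refine squeeze_zero' (Eventually.of_forall fun m => norm_nonneg _) ?_ h3
      filter_upwards [eventually_gt_atTop (⌈‖a‖⌉₊)] with m hm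
      have h4 : ‖a‖ < m := (Nat.lt_of_ceil_lt hm)
      have h5 : (m : ℝ) - ‖a‖ ≤ ‖(m : ℂ) + a‖ := by
        have := norm_sub_norm_le (m : ℂ) (-a)
        rw [sub_neg_eq_add, norm_neg] at this
        simpa using this
      rw [norm_div, norm_one]
      exact one_div_le_one_div_of_le (by linarith) h5
    rw [mul_zero, add_zero] at h2
    refine h2.congr fun m => ?_
    have := ha m
    have h : (m : ℂ) + a ≠ 0 := by rwa [add_comm]
    field_simp
    ring
  obtain ⟨K, hK⟩ := (Metric.isBounded_range_of_tendsto _ h1).exists_norm_le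
  exact ⟨max K 1, le_max_right _ _, fun m => (hK _ ⟨m, rfl⟩).trans (le_max_left _ _)⟩

/-- The ratio polynomials have no zeros near the origin. -/
theorem rat_zf (a b : ℂ) (ha : ∀ m : ℕ, a + m ≠ 0) : ∃ c : ℝ, 0 < c ∧ ∀ n, ZF n (rat a b n) c := by
  obtain ⟨K, hK1, hK⟩ := exists_K a ha
  set D : ℂ := b - a with hD
  set L : ℝ := K * (‖D‖ + 1) with hL
  have hL1 : 1 ≤ L := by
    have : 1 ≤ ‖D‖ + 1 := by linarith [norm_nonneg D]
    nlinarith
  refine ⟨1 / (4 * L), by positivity, fun n y hy => ?_⟩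
  set A : ℂ := a + n - 1 with hA
  have hAl : ∀ l < n, A - l ≠ 0 := by
    intro l hl
    have h := ha (n - 1 - l)
    rw [Nat.cast_sub (by omega), Nat.cast_sub (by omega)] at h
    intro h2
    exact h (by rw [← h2, hA]; push_cast; ring)
  have hrat : ∀ i ≤ n, rat a b n i = ∑ k ∈ range (i + 1), (i.choose k : ℂ) * ∏ l ∈ range k, ((D + l) / (A - l)) := by
    intro i hi
    rw [← newton D i A fun l hl => hAl l (by omega), rat]
    refine prod_congr rfl fun l _ => ?_
    rw [hD, hA]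
    congr 1
    ring
  rw [GP_newton n _ _ hrat]
  set δ : ℕ → ℂ := fun k => ∏ l ∈ range k, ((D + l) / (A - l)) with hδ
  have hbound : ∀ k ≤ n, ‖(n.choose k : ℂ) * δ k‖ ≤ L ^ k := by
    intro k
    induction k with
    | zero => intro _; simp [hδ]
    | succ k ih =>
      intro hk
      have h1 := ih (by omega)
      have h2 : ((n.choose (k + 1) : ℂ)) = (n.choose k : ℂ) * ((n : ℂ) - k) / (k + 1) := by
        have h3 := Nat.choose_succ_right_eq n k
        have h4 : ((n.choose (k + 1) : ℂ)) * (k + 1) = (n.choose k : ℂ) * ((n : ℂ) - k) := by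
          rw [← Nat.cast_sub (by omega : k ≤ n)]
          exact_mod_cast h3
        have h5 : (k : ℂ) + 1 ≠ 0 := by exact_mod_cast Nat.succ_ne_zero k
        rw [← h4]; field_simp
      have h6 : (n.choose (k + 1) : ℂ) * δ (k + 1) =
          ((n.choose k : ℂ) * δ k) * (((n : ℂ) - k) / (A - k)) * ((D + k) / (k + 1)) := by
        rw [h2, hδ]
        simp only [prod_range_succ]
        have h7 := hAl k (by omega)
        have h5 : (k : ℂ) + 1 ≠ 0 := by exact_mod_cast Nat.succ_ne_zero k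
        field_simp
      have h8 : ‖((n : ℂ) - k) / (A - k)‖ ≤ K := by
        have h9 := hK (n - 1 - k)
        rw [Nat.cast_sub (by omega), Nat.cast_sub (by omega)] at h9
        have e : ((n : ℂ) - k) / (A - k) = (((n : ℂ) - (1 : ℕ) - (k : ℕ)) + 1) / (((n : ℂ) - (1 : ℕ) - (k : ℕ)) + a) := by
          rw [hA]; push_cast; congr 1 <;> ring
        rw [e]; exact h9
      have h10 : ‖(D + k) / ((k : ℂ) + 1)‖ ≤ ‖D‖ + 1 := by
        have h11 : ‖(k : ℂ) + 1‖ = (k : ℝ) + 1 := by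
          have : ((k : ℂ) + 1) = (((k : ℝ) + 1 : ℝ) : ℂ) := by push_cast; ring
          rw [this, Complex.norm_real, Real.norm_of_nonneg (by positivity)]
        rw [norm_div, h11, div_le_iff₀ (by positivity)]
        calc ‖D + k‖ ≤ ‖D‖ + ‖(k : ℂ)‖ := norm_add_le _ _
          _ = ‖D‖ + k := by simp
          _ ≤ (‖D‖ + 1) * (k + 1) := by
            have := norm_nonneg D
            have : (0 : ℝ) ≤ k := Nat.cast_nonneg k
            nlinarith [mul_nonneg (norm_nonneg D) this]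
      rw [h6, norm_mul, norm_mul, pow_succ, hL]
      calc ‖(n.choose k : ℂ) * δ k‖ * ‖((n : ℂ) - k) / (A - k)‖ * ‖(D + k) / ((k : ℂ) + 1)‖
          ≤ L ^ k * K * (‖D‖ + 1) := by gcongr
        _ = _ := by rw [hL]; ring
  have hy1 : ‖y‖ < 1 / 4 := by
    refine hy.trans_le ?_
    exact one_div_le_one_div_of_le (by norm_num) (by linarith)
  have h1y : 1 + y ≠ 0 := by
    intro h
    have : y = -1 := by linear_combination h
    rw [this, norm_neg, norm_one] at hy1
    norm_num at hy1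
  set v : ℂ := y / (1 + y) with hv
  have hvn : L * ‖v‖ ≤ 1 / 3 := by
    have h2 : 3 / 4 ≤ ‖1 + y‖ := by
      have := norm_sub_norm_le (1 : ℂ) (-y)
      rw [sub_neg_eq_add, norm_neg, norm_one] at this
      linarith
    rw [hv, norm_div]
    have h3 : ‖y‖ / ‖1 + y‖ ≤ (1 / (4 * L)) / (3 / 4) := by gcongr
    calc L * (‖y‖ / ‖1 + y‖) ≤ L * ((1 / (4 * L)) / (3 / 4)) := by gcongr
      _ = 1 / 3 := by field_simp
  have hsum : ∑ k ∈ range (n + 1), (n.choose k : ℂ) * δ k * (y ^ k * (1 + y) ^ (n - k)) =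
      (1 + y) ^ n * ∑ k ∈ range (n + 1), (n.choose k : ℂ) * δ k * v ^ k := by
    rw [mul_sum]
    refine sum_congr rfl fun k hk => ?_
    rw [mem_range] at hk
    have : (1 + y) ^ n = (1 + y) ^ (n - k) * (1 + y) ^ k := by rw [← pow_add]; congr 1; omega
    rw [this, hv, div_pow]
    field_simp
  rw [hsum]
  refine mul_ne_zero (pow_ne_zero _ h1y) fun h0 => ?_
  rw [sum_range_succ'] at h0
  have h4 : (n.choose 0 : ℂ) * δ 0 * v ^ 0 = 1 := by simp [hδ]
  rw [h4] at h0
  have h5 : ‖∑ k ∈ range n, (n.choose (k + 1) : ℂ) * δ (k + 1) * v ^ (k + 1)‖ ≤ 1 / 2 := by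
    refine (norm_sum_le _ _).trans (le_trans ?_ (geom_third n (by positivity) hvn))
    refine sum_le_sum fun k hk => ?_
    rw [mem_range] at hk
    rw [norm_mul, norm_pow, mul_pow]
    gcongr
    exact hbound (k + 1) (by omega)
  have h6 : ∑ k ∈ range n, (n.choose (k + 1) : ℂ) * δ (k + 1) * v ^ (k + 1) = -1 := by
    linear_combination h0
  rw [h6, norm_neg, norm_one] at h5
  norm_num at h5

/-! ### The truncated exponential -/

/-- `∏_{l<i} 1 / (n - l)` -/
noncomputable def te (n i : ℕ) : ℂ := ∏ l ∈ range i, (1 / ((n : ℂ) - l))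

lemma choose_mul_te (n i : ℕ) (hi : i ≤ n) : (n.choose i : ℂ) * te n i = 1 / (i.factorial : ℂ) := by
  induction i with
  | zero => simp [te]
  | succ i ih =>
    have h1 := ih (by omega)
    have h3 := Nat.choose_succ_right_eq n i
    have h4 : ((n.choose (i + 1) : ℂ)) * (i + 1) = (n.choose i : ℂ) * ((n : ℂ) - i) := by
      rw [← Nat.cast_sub (by omega : i ≤ n)]
      exact_mod_cast h3
    have h5 : (i : ℂ) + 1 ≠ 0 := by exact_mod_cast Nat.succ_ne_zero i
    have h6 : (n : ℂ) - i ≠ 0 := by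
      rw [← Nat.cast_sub (by omega : i ≤ n)]
      exact_mod_cast (by omega : n - i ≠ 0)
    have h7 : (i.factorial : ℂ) ≠ 0 := by exact_mod_cast i.factorial_ne_zero
    have h8 : te n (i + 1) = te n i * (1 / ((n : ℂ) - i)) := by rw [te, te, prod_range_succ]
    rw [h8, Nat.factorial_succ]
    push_cast
    have h9 : (n.choose (i + 1) : ℂ) = (n.choose i : ℂ) * ((n : ℂ) - i) / (i + 1) := by
      rw [← h4]; field_simp
    rw [h9]
    have h10 : (n.choose i : ℂ) * ((n : ℂ) - i) / (i + 1) * (te n i * (1 / ((n : ℂ) - i))) =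
        ((n.choose i : ℂ) * te n i) / (i + 1) := by field_simp
    rw [h10, h1]
    field_simp

lemma exp_nine_eighths : Real.exp (9 / 8) < 4 := by
  have h1 : Real.exp (9 / 8) = Real.exp 1 * Real.exp (1 / 8) := by rw [← Real.exp_add]; norm_num
  have h2 : Real.exp (1 / 8) < 1 / (1 - 1 / 8) :=
    Real.exp_bound_div_one_sub_of_interval' (by norm_num) (by norm_num)
  have h3 := Real.exp_one_lt_d9
  rw [h1]
  have h4 := Real.exp_pos (1 / 8)
  have h5 := Real.exp_pos 1
  nlinarith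

theorem te_zf (n : ℕ) : ZF n (te n) (n / 8) := by
  intro y hy h0
  rw [GP_eval] at h0
  have h1 : ∑ m ∈ range (n + 1), (n.choose m : ℂ) * te n m * y ^ m = ∑ m ∈ range (n + 1), y ^ m / m.factorial := by
    refine sum_congr rfl fun m hm => ?_
    rw [mem_range] at hm
    rw [choose_mul_te n m (by omega)]
    ring
  rw [h1] at h0
  have hn : (0 : ℝ) ≤ n := Nat.cast_nonneg n
  have h2 := Complex.exp_bound' (x := y) (n := n + 1) (by
    rw [div_le_iff₀ (by positivity)]
    push_cast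
    linarith)
  rw [h0, sub_zero, Complex.norm_exp] at h2
  set r := ‖y‖ with hr
  have hr0 : 0 ≤ r := norm_nonneg y
  have h3 : Real.exp (-r) ≤ Real.exp y.re :=
    Real.exp_le_exp.2 (neg_le_of_abs_le (Complex.abs_re_le_norm y))
  have h4 : r ^ (n + 1) / (n + 1).factorial ≤ (Real.exp 1 / 8) ^ (n + 1) := by
    have h5 : r ^ (n + 1) ≤ (((n + 1 : ℕ) : ℝ) / 8) ^ (n + 1) := by
      gcongr
      push_cast
      linarith
    have h6 := Real.pow_div_factorial_le_exp (x := ((n + 1 : ℕ) : ℝ)) (by positivity) (n + 1)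
    have h7 : Real.exp ((n + 1 : ℕ) : ℝ) = Real.exp 1 ^ (n + 1) := by rw [Real.exp_one_pow]
    rw [h7] at h6
    calc r ^ (n + 1) / (n + 1).factorial ≤ (((n + 1 : ℕ) : ℝ) / 8) ^ (n + 1) / (n + 1).factorial := by gcongr
      _ = (((n + 1 : ℕ) : ℝ) ^ (n + 1) / (n + 1).factorial) * (1 / 8) ^ (n + 1) := by
        rw [div_pow, one_div_pow]; ring
      _ ≤ Real.exp 1 ^ (n + 1) * (1 / 8) ^ (n + 1) := by gcongr
      _ = _ := by rw [← mul_pow]; ring
  have h8 : Real.exp (-((n + 1 : ℕ) : ℝ) / 8) ≤ Real.exp (-r) := by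
    refine Real.exp_le_exp.2 ?_
    push_cast
    linarith
  have h9 : Real.exp (-((n + 1 : ℕ) : ℝ) / 8) * Real.exp (1 / 8) ^ (n + 1) = 1 := by
    rw [← Real.exp_nat_mul, ← Real.exp_add]
    have : -((n + 1 : ℕ) : ℝ) / 8 + ((n + 1 : ℕ) : ℝ) * (1 / 8) = 0 := by ring
    rw [this, Real.exp_zero]
  have h10 : (1 : ℝ) ≤ (Real.exp (9 / 8) / 8) ^ (n + 1) * 2 := by
    calc (1 : ℝ) = Real.exp (-((n + 1 : ℕ) : ℝ) / 8) * Real.exp (1 / 8) ^ (n + 1) := h9.symm
      _ ≤ ((Real.exp 1 / 8) ^ (n + 1) * 2) * Real.exp (1 / 8) ^ (n + 1) := by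
        refine mul_le_mul_of_nonneg_right ?_ (by positivity)
        refine (h8.trans h3).trans (h2.trans ?_)
        gcongr
      _ = _ := by
        rw [show (9 / 8 : ℝ) = 1 + 1 / 8 by norm_num, Real.exp_add]
        rw [div_pow, div_pow, mul_pow]
        ring
  have h11 : (Real.exp (9 / 8) / 8) ^ (n + 1) < (1 / 2) ^ (n + 1) := by
    refine pow_lt_pow_left₀ ?_ (by positivity) (by omega)
    have := exp_nine_eighths
    linarith
  have h12 : (1 / 2 : ℝ) ^ (n + 1) ≤ 1 / 2 := by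
    rw [pow_succ]
    have : (1 / 2 : ℝ) ^ n ≤ 1 := pow_le_one₀ (by norm_num) (by norm_num)
    linarith
  linarith

end Q81.Hyp
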