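import Pool.Agent.Q81.Hyp3

/-!
# The Bessel-type factor
-/

namespace Q81.Hyp

open Polynomial Finset Q81.Un

/-- `∏_{l<i} 1 / (μ - l)` -/
noncomputable def bes (μ : ℂ) (i : ℕ) : ℂ := ∏ l ∈ range i, (1 / (μ - l))

lemma bes_ode {n : ℕ} {μ : ℂ} (hμ : ∀ l < n, μ - l ≠ 0) :
    X * derivative (derivative (GP n (bes μ))) =
      (X + C μ) * derivative (GP n (bes μ)) - C (n : ℂ) * GP n (bes μ) := by
  have key : ∀ m : ℕ, ((m : ℂ) + 1) * (μ - m) * ((n.choose (m + 1) : ℂ) * bes μ (m + 1)) =
      ((n : ℂ) - m) * ((n.choose m : ℂ) * bes μ m) := by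
    intro m
    rcases lt_trichotomy m n with h | h | h
    · have h3 := Nat.choose_succ_right_eq n m
      have h4 : ((n.choose (m + 1) : ℂ)) * (m + 1) = (n.choose m : ℂ) * ((n : ℂ) - m) := by
        rw [← Nat.cast_sub (by omega : m ≤ n)]
        exact_mod_cast h3
      have h5 : bes μ (m + 1) * (μ - m) = bes μ m := by
        rw [bes, prod_range_succ, ← bes]
        have := hμ m h
        field_simp
      linear_combination (bes μ (m + 1) * (μ - m)) * h4 + ((n.choose m : ℂ) * ((n : ℂ) - m)) * h5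
    · subst h; simp
    · rw [Nat.choose_eq_zero_of_lt h, Nat.choose_eq_zero_of_lt (show n < m + 1 by omega)]; simp
  ext m
  cases m with
  | zero =>
    have := key 0
    simp only [coeff_sub, coeff_C_mul, add_mul, coeff_add, coeff_derivative, GP_coeff, coeff_X_mul_zero]
    simp at this ⊢
    linear_combination -this
  | succ m =>
    have := key (m + 1)
    simp only [coeff_sub, coeff_C_mul, add_mul, coeff_add, coeff_derivative, GP_coeff, coeff_X_mul]
    push_cast at this ⊢
    linear_combination -this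

lemma re_le_half {y ζ : ℂ} (h : ‖y‖ ≤ ‖ζ‖) (hne : y - ζ ≠ 0) : (y * (1 / (y - ζ))).re ≤ 1 / 2 := by
  set w := y * (1 / (y - ζ)) with hw
  have h1 : w - 1 = ζ * (1 / (y - ζ)) := by rw [hw]; field_simp; ring
  have h2 : ‖w‖ ≤ ‖w - 1‖ := by
    rw [h1, hw, norm_mul, norm_mul]
    gcongr
  have h3 : ‖w‖ ^ 2 ≤ ‖w - 1‖ ^ 2 := by gcongr
  rw [Complex.sq_norm, Complex.sq_norm, Complex.normSq_apply, Complex.normSq_apply] at h3
  simp only [Complex.sub_re, Complex.sub_im, Complex.one_re, Complex.one_im] at h3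
  nlinarith

theorem bes_zf {n : ℕ} {lam : ℂ} (hρ : 0 < (n : ℝ) + lam.re) :
    ZF n (bes (2 * n + lam - 1)) ((n : ℝ) + lam.re) := by
  set μ : ℂ := 2 * n + lam - 1 with hμdef
  have hμ : ∀ l < n, μ - l ≠ 0 := by
    intro l hl h
    have h1 := congrArg Complex.re h
    simp [hμdef] at h1
    have h2 : (l : ℝ) + 1 ≤ n := by exact_mod_cast hl
    linarith
  have hode := bes_ode hμ
  set u := GP n (bes μ) with hu
  intro v hv h0
  have hu0 : u.eval 0 = 1 := by
    rw [hu, GP_eval, sum_range_succ']
    simp [bes]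
  have hune : u ≠ 0 := by intro h; rw [h] at hu0; simp at hu0
  have hvroot : v ∈ u.roots.toFinset := by
    rw [Multiset.mem_toFinset, mem_roots']; exact ⟨hune, h0⟩
  obtain ⟨y, hy, hymin⟩ := Finset.exists_min_image u.roots.toFinset (fun z => ‖z‖) ⟨v, hvroot⟩
  have hyv : ‖y‖ < (n : ℝ) + lam.re := (hymin v hvroot).trans_lt hv
  have hyroot : u.eval y = 0 := (mem_roots'.1 (Multiset.mem_toFinset.1 hy)).2
  have hmin : ∀ ζ, u.eval ζ = 0 → ‖y‖ ≤ ‖ζ‖ := fun ζ hζ =>
    hymin ζ (by rw [Multiset.mem_toFinset, mem_roots']; exact ⟨hune, hζ⟩)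
  have hy0 : y ≠ 0 := by
    rintro rfl
    rw [hu0] at hyroot
    exact one_ne_zero hyroot
  obtain ⟨g, hg⟩ := dvd_iff_isRoot.2 (show IsRoot u y from hyroot)
  have hgne : g ≠ 0 := by rintro rfl; rw [mul_zero] at hg; exact hune hg
  by_cases hgy : g.eval y = 0
  · -- multiple root
    obtain ⟨h, hh1, hh2⟩ := exists_eq_pow_rootMultiplicity_mul_and_not_dvd u hune y
    have hm : 2 ≤ u.rootMultiplicity y := by
      rw [le_rootMultiplicity_iff hune]
      obtain ⟨g2, hg2⟩ := dvd_iff_isRoot.2 (show IsRoot g y from hgy)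
      exact ⟨g2, by rw [hg, hg2]; ring⟩
    obtain ⟨k, hk⟩ := Nat.exists_eq_add_of_le hm
    rw [hk] at hh1
    have hhy : h.eval y ≠ 0 := fun h' => hh2 (dvd_iff_isRoot.2 h')
    set Y : ℂ[X] := X - C y with hY
    have hYne : Y ≠ 0 := X_sub_C_ne_zero y
    have hYd : derivative Y = 1 := by rw [hY]; simp
    set P1 : ℂ[X] := C ((k : ℂ) + 2) * h + Y * derivative h with hP1
    have d1 : derivative u = Y ^ (k + 1) * P1 := by
      rw [hh1, show 2 + k = k + 2 by ring, derivative_mul, derivative_pow, hYd, hP1]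
      simp only [Nat.cast_add, Nat.cast_ofNat, show k + 2 - 1 = k + 1 by omega]
      ring
    have d2 : derivative (derivative u) = Y ^ k * (C ((k : ℂ) + 1) * P1 + Y * derivative P1) := by
      rw [d1, derivative_mul, derivative_pow, hYd]
      simp only [Nat.cast_add, Nat.cast_one, Nat.add_sub_cancel]
      ring
    rw [d2, d1, hh1] at hode
    have h1 : Y ^ k * (X * (C ((k : ℂ) + 1) * P1 + Y * derivative P1)) =
        Y ^ k * (Y * ((X + C μ) * P1 - C (n : ℂ) * (Y * h))) := by
      linear_combination hode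
    have h2 := mul_left_cancel₀ (pow_ne_zero k hYne) h1
    have h3 := congrArg (fun p => p.eval y) h2
    have hYy : Y.eval y = 0 := by rw [hY]; simp
    simp only [eval_mul, eval_add, eval_X, eval_C, hYy, zero_mul, add_zero, hP1] at h3
    have h4 : (k : ℂ) + 1 ≠ 0 := by exact_mod_cast Nat.succ_ne_zero k
    have h5 : (k : ℂ) + 2 ≠ 0 := by exact_mod_cast Nat.succ_ne_zero (k + 1)
    exact (mul_ne_zero hy0 (mul_ne_zero h4 (mul_ne_zero h5 hhy))) h3
  · have d1 : derivative u = g + (X - C y) * derivative g := by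
      rw [hg, derivative_mul]; simp
    have d2 : derivative (derivative u) = 2 * derivative g + (X - C y) * derivative (derivative g) := by
      rw [d1, derivative_add, derivative_mul]; simp; ring
    have e1 : (derivative u).eval y = g.eval y := by rw [d1]; simp
    have e2 : (derivative (derivative u)).eval y = 2 * (derivative g).eval y := by rw [d2]; simp
    have h1 := congrArg (fun p => p.eval y) hode
    simp only [eval_mul, eval_sub, eval_add, eval_X, eval_C, hyroot, mul_zero, sub_zero, e1, e2] at h1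
    have hsplit : g.Splits := IsAlgClosed.splits g
    have hlog := hsplit.eval_derivative_eq_eval_mul_sum hgy
    set W := (g.roots.map fun w => 1 / (y - w)).sum with hW
    rw [hlog] at h1
    have h2 : 2 * (y * W) = y + μ := by
      have h3 : (2 * (y * W) - (y + μ)) * g.eval y = 0 := by
        linear_combination h1
      exact sub_eq_zero.1 ((mul_eq_zero.1 h3).resolve_right hgy)
    have h4 : (y * W).re = (g.roots.map fun w => (y * (1 / (y - w))).re).sum := by
      rw [hW, ← Multiset.sum_map_mul_left]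
      have := map_multiset_sum Complex.reAddGroupHom (g.roots.map fun w => y * (1 / (y - w)))
      rw [Multiset.map_map] at this
      exact this
    have h5 : ∀ x ∈ g.roots.map (fun w => (y * (1 / (y - w))).re), x ≤ 1 / 2 := by
      intro x hx
      obtain ⟨ζ, hζ, rfl⟩ := Multiset.mem_map.1 hx
      have hζ' : g.eval ζ = 0 := (mem_roots'.1 hζ).2
      refine re_le_half (hmin ζ ?_) ?_
      · rw [hg, eval_mul, hζ', mul_zero]
      · intro h
        rw [sub_eq_zero] at h
        rw [h] at hgy
        exact hgy hζ'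
    have h6 := Multiset.sum_le_card_nsmul _ _ h5
    rw [← h4, Multiset.card_map, nsmul_eq_mul] at h6
    have h7 : g.roots.card + 1 ≤ n := by
      have h8 : u.natDegree = g.natDegree + 1 := by
        rw [hg, natDegree_mul (X_sub_C_ne_zero y) hgne, natDegree_X_sub_C]; ring
      have h9 : u.natDegree ≤ n := GP_natDegree_le _ _
      have h10 := card_roots' g
      omega
    have h8 : (g.roots.card : ℝ) + 1 ≤ n := by exact_mod_cast h7
    have h9 := congrArg Complex.re h2
    have h10 : (2 * (y * W)).re = 2 * (y * W).re := by simp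
    rw [h10] at h9
    have h11 : (y + μ).re = y.re + (2 * n + lam.re - 1) := by simp [hμdef]
    rw [h11] at h9
    have h12 : -‖y‖ ≤ y.re := neg_le_of_abs_le (Complex.abs_re_le_norm y)
    linarith

end Q81.Hyp
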