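import Pool.Agent.Q81.IpLoc

/-! ADDB-domains (MP_6e749b_al). -/

namespace Pool.Agent.Q81.IP

open Polynomial

/-- `D` is an ADDB-domain, with base ring `D₀`. -/
structure IsADDB (D₀ D : Type*) [CommRing D₀] [CommRing D] [IsDomain D] [Algebra D₀ D] :
    Prop where
  base : Nonempty (D₀ ≃+* ℤ) ∨ ∃ p : ℕ, p.Prime ∧ Nonempty (D₀ ≃+* (ZMod p)[X])
  injective : Function.Injective (algebraMap D₀ D)
  almostDedekind : ∀ (M : Ideal D) [M.IsMaximal],
    IsDiscreteValuationRing (Localization.AtPrime M)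
  finite : ∀ (M : Ideal D) [M.IsMaximal], Finite (D ⧸ M)
  bounded : ∀ q : D₀, Prime q → ∃ N : ℕ, ∀ (P : Ideal D) [P.IsPrime], P ≠ ⊥ →
    P.under D₀ = Ideal.span {q} →
      algebraMap D₀ D q ∉ P ^ (N + 1) ∧ Module.finrank (D₀ ⧸ P.under D₀) (D ⧸ P) ≤ N

theorem base_facts {D₀ : Type*} [CommRing D₀]
    (h : Nonempty (D₀ ≃+* ℤ) ∨ ∃ p : ℕ, p.Prime ∧ Nonempty (D₀ ≃+* (ZMod p)[X])) :
    IsDomain D₀ ∧ IsPrincipalIdealRing D₀ ∧ Infinite D₀ := by
  rcases h with ⟨⟨e⟩⟩ | ⟨p, hp, ⟨e⟩⟩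
  · exact ⟨MulEquiv.isDomain ℤ e.toMulEquiv,
      IsPrincipalIdealRing.of_surjective e.symm e.symm.surjective,
      Infinite.of_injective e.symm e.symm.injective⟩
  · have : Fact p.Prime := ⟨hp⟩
    exact ⟨MulEquiv.isDomain (ZMod p)[X] e.toMulEquiv,
      IsPrincipalIdealRing.of_surjective e.symm e.symm.surjective,
      Infinite.of_injective e.symm e.symm.injective⟩

theorem mul_not_mem {D : Type*} [CommRing D] [IsDomain D] {M : Ideal D} (hM : M.IsMaximal)
    (hdvr : ∃ π ∈ M, (∀ x : D, x ≠ 0 → ∃ (j : ℕ) (s s' : D), s ∉ M ∧ s' ∉ M ∧ s * x = s' * π ^ j) ∧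
      ∀ (j : ℕ) (x : D), x ∈ M ^ j → ∃ s, s ∉ M ∧ π ^ j ∣ s * x)
    {x y : D} {a b : ℕ} (hx : x ∉ M ^ (a + 1)) (hy : y ∉ M ^ (b + 1)) : x * y ∉ M ^ (a + b + 1) := by
  obtain ⟨π, hπ, h1, h2⟩ := hdvr
  have hprime := hM.isPrime
  intro hxy
  have hx0 : x ≠ 0 := by
    rintro rfl
    exact hx (Ideal.zero_mem _)
  have hy0 : y ≠ 0 := by
    rintro rfl
    exact hy (Ideal.zero_mem _)
  obtain ⟨i, s, s', hs, hs', he⟩ := h1 x hx0
  obtain ⟨j, t, t', ht, ht', he'⟩ := h1 y hy0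
  have hi := val_le hM hπ hs he hx
  have hj := val_le hM hπ ht he' hy
  obtain ⟨r, hr, c, hc⟩ := h2 (i + j + 1) (x * y) (Ideal.pow_le_pow_right (by omega) hxy)
  have hπ0 : π ≠ 0 := by
    rintro rfl
    obtain ⟨r, hr, c, hc⟩ := h2 (a + 1) 0 (Ideal.zero_mem _)
    obtain ⟨r, hr, c, hc⟩ := h2 1 (r * (x * y))
      (by rw [pow_one]; exact Ideal.mul_mem_left _ _ ((Ideal.pow_le_self (by omega)) hxy))
    rw [pow_one, zero_mul] at hc
    rcases mul_eq_zero.1 hc with h | h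
    · exact hr (h ▸ Ideal.zero_mem _)
    · rcases mul_eq_zero.1 h with h | h
      · rw [h] at *
        simp_all
      · rcases mul_eq_zero.1 h with h | h
        · exact hx0 h
        · exact hy0 h
  have h3 : π ^ (i + j) * (r * s' * t') = π ^ (i + j) * (s * t * c * π) := by
    calc π ^ (i + j) * (r * s' * t') = r * (s' * π ^ i) * (t' * π ^ j) := by ring
      _ = s * t * (r * (x * y)) := by rw [← he, ← he']; ring
      _ = _ := by rw [hc]; ring
  have h4 := mul_left_cancel₀ (pow_ne_zero _ hπ0) h3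
  have h5 : r * s' * t' ∈ M := by
    rw [h4]
    exact M.mul_mem_left _ hπ
  rcases hprime.mem_or_mem h5 with h | h
  · rcases hprime.mem_or_mem h with h | h
    · exact hr h
    · exact hs' h
  · exact ht' h

variable {D₀ D : Type*} [CommRing D₀] [CommRing D] [Algebra D₀ D] [IsDomain D]

theorem IsADDB.integrallyClosed (h : IsADDB D₀ D) : IsIntegrallyClosed D :=
  IsIntegrallyClosed.of_localization_maximal fun M _ _ => by
    have := h.almostDedekind M
    infer_instance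

theorem IsADDB.good (h : IsADDB D₀ D) : Good D := by
  obtain ⟨i1, i2, i3⟩ := base_facts h.base
  have hdvr : ∀ M : Ideal D, M.IsMaximal → ∃ π ∈ M, ∀ x : D, x ≠ 0 →
    ∃ (j : ℕ) (s s' : D), s ∉ M ∧ s' ∉ M ∧ s * x = s' * π ^ j := fun M hM => by
      have := h.almostDedekind M
      exact dvr_of M inferInstance
  -- a good domain for the lemma about powers
  have hpow : ∀ M : Ideal D, M.IsMaximal →
      ∃ π ∈ M, (∀ x : D, x ≠ 0 → ∃ (j : ℕ) (s s' : D), s ∉ M ∧ s' ∉ M ∧ s * x = s' * π ^ j) ∧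
      ∀ (j : ℕ) (x : D), x ∈ M ^ j → ∃ s, s ∉ M ∧ π ^ j ∣ s * x :=
    fun M hM => pow_mem_local' hdvr hM
  have hmem : ∀ M : Ideal D, M.IsMaximal → ∃ m : D₀, m ≠ 0 ∧ algebraMap D₀ D m ∈ M := by
    intro M hM
    have := h.finite M
    obtain ⟨x, y, hxy, he⟩ := Finite.exists_ne_map_eq_of_infinite
      (fun m : D₀ => Ideal.Quotient.mk M (algebraMap D₀ D m))
    refine ⟨x - y, sub_ne_zero.2 hxy, ?_⟩
    rw [map_sub]
    exact Ideal.Quotient.eq.1 he
  have hprime : ∀ q : D₀, Prime q → ∃ N : ℕ, 1 ≤ N ∧ ∀ M : Ideal D, M.IsMaximal →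
      algebraMap D₀ D q ∈ M → algebraMap D₀ D q ∉ M ^ (N + 1) ∧ Nat.card (D ⧸ M) ≤ N := by
    intro q hq
    obtain ⟨N, hN⟩ := h.bounded q hq
    refine ⟨N + Nat.card (D₀ ⧸ Ideal.span {q}) ^ N + 1, by omega, fun M hM hqM => ?_⟩
    have := h.finite M
    have : (M.under D₀).IsPrime := hM.isPrime.under D₀
    have hqm : (Ideal.span {q}).IsMaximal := by
      have : (Ideal.span {q}).IsPrime := (Ideal.span_singleton_prime hq.ne_zero).2 hq
      exact IsPrime.to_maximal_ideal (by rw [Ne, Ideal.span_singleton_eq_bot]; exact hq.ne_zero)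
    have hund : M.under D₀ = Ideal.span {q} := by
      refine (hqm.eq_of_le ‹(M.under D₀).IsPrime›.ne_top ?_).symm
      rw [Ideal.span_le, Set.singleton_subset_iff]
      exact hqM
    have hbot : M ≠ ⊥ := by
      rintro rfl
      have h1 : algebraMap D₀ D q = 0 := hqM
      exact hq.ne_zero (h.injective (h1.trans (map_zero _).symm))
    obtain ⟨h1, h2⟩ := hN M hbot hund
    refine ⟨fun hc => h1 (Ideal.pow_le_pow_right (by omega) hc), ?_⟩
    have : (M.under D₀).IsMaximal := by rw [hund]; exact hqm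
    let _ : Field (D₀ ⧸ M.under D₀) := Ideal.Quotient.field _
    have h3 : Nat.card (D ⧸ M) = Nat.card (D₀ ⧸ M.under D₀) ^
        Module.finrank (D₀ ⧸ M.under D₀) (D ⧸ M) := by
      have : Module.Finite (D₀ ⧸ M.under D₀) (D ⧸ M) := Module.Finite.of_finite
      exact Module.natCard_eq_pow_finrank
    have : Finite (D₀ ⧸ M.under D₀) := Finite.of_injective
      (algebraMap (D₀ ⧸ M.under D₀) (D ⧸ M)) (RingHom.injective _)
    have h4 : 0 < Nat.card (D₀ ⧸ M.under D₀) := Nat.card_pos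
    rw [h3]
    calc Nat.card (D₀ ⧸ M.under D₀) ^ Module.finrank (D₀ ⧸ M.under D₀) (D ⧸ M)
        ≤ Nat.card (D₀ ⧸ M.under D₀) ^ N := Nat.pow_le_pow_right h4 h2
      _ = Nat.card (D₀ ⧸ Ideal.span {q}) ^ N := by rw [hund]
      _ ≤ _ := by omega
  have hall : ∀ m : D₀, m ≠ 0 → ∃ N : ℕ, 1 ≤ N ∧ ∀ M : Ideal D, M.IsMaximal →
      algebraMap D₀ D m ∈ M → algebraMap D₀ D m ∉ M ^ (N + 1) ∧ Nat.card (D ⧸ M) ≤ N := by
    intro m
    induction m using UniqueFactorizationMonoid.induction_on_prime with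
    | h₁ => exact fun h0 => absurd rfl h0
    | h₂ x hx =>
      refine fun _ => ⟨1, le_rfl, fun M hM hxM => ?_⟩
      exact absurd (M.eq_top_of_isUnit_mem hxM (hx.map _)) hM.ne_top
    | h₃ a p ha hp ih =>
      intro _
      obtain ⟨N, hN1, hN⟩ := ih ha
      obtain ⟨N', hN1', hN'⟩ := hprime p hp
      refine ⟨N' + N, by omega, fun M hM hpa => ?_⟩
      have h1 : ∀ x ∉ M, x ∉ M ^ (0 + 1) := fun x hx => by rwa [zero_add, pow_one]
      rw [map_mul] at hpa ⊢
      by_cases hpM : algebraMap D₀ D p ∈ M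
      · by_cases haM : algebraMap D₀ D a ∈ M
        · exact ⟨mul_not_mem hM (hpow M hM) (hN' M hM hpM).1 (hN M hM haM).1,
            (hN M hM haM).2.trans (by omega)⟩
        · exact ⟨fun hc => mul_not_mem hM (hpow M hM) (hN' M hM hpM).1 (h1 _ haM)
            (Ideal.pow_le_pow_right (by omega) hc), (hN' M hM hpM).2.trans (by omega)⟩
      · have haM : algebraMap D₀ D a ∈ M := (hM.isPrime.mem_or_mem hpa).resolve_left hpM
        exact ⟨fun hc => mul_not_mem hM (hpow M hM) (h1 _ hpM) (hN M hM haM).1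
            (Ideal.pow_le_pow_right (by omega) hc), (hN M hM haM).2.trans (by omega)⟩
  refine ⟨hdvr, fun d hd => ?_⟩
  obtain ⟨m, hm, e, he⟩ : ∃ m : D₀, m ≠ 0 ∧ d ∣ algebraMap D₀ D m := by
    let J : Ideal D :=
      { carrier := {s | ∃ m : D₀, m ≠ 0 ∧ d ∣ s * algebraMap D₀ D m}
        zero_mem' := ⟨1, one_ne_zero, by rw [zero_mul]; exact dvd_zero _⟩
        add_mem' := by
          rintro x y ⟨m, hm, hx⟩ ⟨m', hm', hy⟩
          refine ⟨m * m', mul_ne_zero hm hm', ?_⟩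
          have h1 : (x + y) * algebraMap D₀ D (m * m') =
              x * algebraMap D₀ D m * algebraMap D₀ D m' +
                y * algebraMap D₀ D m' * algebraMap D₀ D m := by rw [map_mul]; ring
          rw [h1]
          exact dvd_add (hx.mul_right _) (hy.mul_right _)
        smul_mem' := by
          rintro c x ⟨m, hm, hx⟩
          refine ⟨m, hm, ?_⟩
          rw [smul_eq_mul, mul_assoc]
          exact hx.mul_left c }
    by_contra hcon
    have hJ : J ≠ ⊤ := by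
      intro hJ
      have h1 : (1 : D) ∈ J := by rw [hJ]; trivial
      obtain ⟨m, hm, h1⟩ := h1
      rw [one_mul] at h1
      exact hcon ⟨m, hm, h1⟩
    obtain ⟨M, hM, hJM⟩ := J.exists_le_maximal hJ
    obtain ⟨m, hm, hmM⟩ := hmem M hM
    obtain ⟨π, hπ, h1, h2⟩ := hpow M hM
    obtain ⟨j, s, s', hs, hs', he⟩ := h1 d hd
    obtain ⟨t, ht, c, hc⟩ := h2 j (algebraMap D₀ D m ^ j) (Ideal.pow_mem_pow hmM j)
    have h3 : t * s' ∈ J := by
      refine ⟨m ^ j, pow_ne_zero _ hm, s * c, ?_⟩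
      rw [map_pow]
      calc t * s' * algebraMap D₀ D m ^ j = s' * (t * algebraMap D₀ D m ^ j) := by ring
        _ = (s' * π ^ j) * c := by rw [hc]; ring
        _ = _ := by rw [← he]; ring
    rcases hM.isPrime.mem_or_mem (hJM h3) with h | h
    · exact ht h
    · exact hs' h
  obtain ⟨N, hN1, hN⟩ := hall m hm
  refine ⟨N, hN1, fun M hM hdM => ?_⟩
  have hmM : algebraMap D₀ D m ∈ M := by rw [he]; exact M.mul_mem_right _ hdM
  refine ⟨fun hc => (hN M hM hmM).1 ?_, h.finite M, (hN M hM hmM).2⟩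
  rw [he]
  exact Ideal.mul_mem_right _ _ hc

end Pool.Agent.Q81.IP
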