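import Pool.Agent.Q81.IpLoc

/-! Polynomials over finite fields and uniform powers (MP_6e749b_al). -/

namespace Pool.Agent.Q81.IP

open Polynomial IntermediateField

/-- A common exponent for all finite fields of size at most `N ^ n`. -/
def sexp (N n : ℕ) : ℕ := (N ^ n).factorial

theorem sexp_pos (N n : ℕ) : 0 < sexp N n := Nat.factorial_pos _

theorem root_pow {k κ : Type*} [Field k] [Field κ] [Algebra k κ] [Finite k] {N n : ℕ}
    (hN : Nat.card k ≤ N) {τ : κ} {p : k[X]} (hp : p ≠ 0) (hdeg : p.natDegree ≤ n)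
    (hroot : aeval τ p = 0) : τ ^ (sexp N n + 1) = τ := by
  have hint : IsIntegral k τ := (show IsAlgebraic k τ from ⟨p, hp, hroot⟩).isIntegral
  have hfin : FiniteDimensional k k⟮τ⟯ := adjoin.finiteDimensional hint
  have h1 : Module.finrank k k⟮τ⟯ ≤ n := by
    rw [adjoin.finrank hint]
    exact (natDegree_le_natDegree (minpoly.degree_le_of_ne_zero k τ hp hroot)).trans hdeg
  have h2 : Nat.card k⟮τ⟯ = Nat.card k ^ Module.finrank k k⟮τ⟯ := Module.natCard_eq_pow_finrank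
  have h3 : 0 < Module.finrank k k⟮τ⟯ := Module.finrank_pos
  have hk2 : 2 ≤ Nat.card k := Finite.one_lt_card
  have : Finite k⟮τ⟯ := Module.finite_of_finite k
  cases nonempty_fintype k⟮τ⟯
  by_cases hτ : τ = 0
  · rw [hτ, zero_pow (by omega)]
  have h4 : τ ^ (Nat.card k⟮τ⟯) = τ := by
    have h5 := FiniteField.pow_card (AdjoinSimple.gen k τ)
    have h6 := congrArg (algebraMap k⟮τ⟯ κ) h5
    rw [map_pow, AdjoinSimple.algebraMap_gen] at h6
    rwa [Nat.card_eq_fintype_card]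
  have h5 : 2 ≤ Nat.card k⟮τ⟯ := Finite.one_lt_card
  have h6 : τ ^ (Nat.card k⟮τ⟯ - 1) = 1 := by
    have h7 : τ ^ (Nat.card k⟮τ⟯ - 1) * τ = 1 * τ := by
      rw [← pow_succ, Nat.sub_add_cancel (by omega), h4, one_mul]
    exact mul_right_cancel₀ hτ h7
  have h7 : Nat.card k⟮τ⟯ ≤ N ^ n := by
    rw [h2]
    exact (Nat.pow_le_pow_left hN _).trans (Nat.pow_le_pow_right (by omega) h1)
  obtain ⟨c, hc⟩ : Nat.card k⟮τ⟯ - 1 ∣ sexp N n :=
    Nat.dvd_factorial (by omega) (by omega)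
  rw [pow_succ, hc, pow_mul, h6, one_pow, one_mul]

theorem irr_dvd {k : Type*} [Field k] [Finite k] {N n : ℕ} (hN : Nat.card k ≤ N) {p : k[X]}
    (hp : Prime p) (hdeg : p.natDegree ≤ n) : p ∣ X ^ (sexp N n + 1) - X := by
  have : Fact (Irreducible p) := ⟨hp.irreducible⟩
  have h1 : (AdjoinRoot.root p) ^ (sexp N n + 1) = AdjoinRoot.root p :=
    root_pow hN (p := p) hp.ne_zero hdeg (by rw [AdjoinRoot.aeval_eq, AdjoinRoot.mk_self])
  rw [← AdjoinRoot.mk_eq_zero, map_sub, map_pow, AdjoinRoot.mk_X, h1, sub_self]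

theorem dvd_pow_of {k : Type*} [Field k] [Finite k] {N n : ℕ} (hN : Nat.card k ≤ N) (ψ : k[X])
    (hψ : ψ ≠ 0) (hdeg : ψ.natDegree ≤ n) : ψ ∣ (X ^ (sexp N n + 1) - X) ^ n := by
  suffices h : ∀ ψ : k[X], ψ ≠ 0 → ψ.natDegree ≤ n →
      ψ ∣ (X ^ (sexp N n + 1) - X) ^ ψ.natDegree from
    (h ψ hψ hdeg).trans (pow_dvd_pow _ hdeg)
  intro ψ
  induction ψ using UniqueFactorizationMonoid.induction_on_prime with
  | h₁ => exact fun h => absurd rfl h
  | h₂ x hx => exact fun _ _ => hx.dvd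
  | h₃ a p ha hp ih =>
    intro _ hdeg
    have hp1 : 1 ≤ p.natDegree := hp.irreducible.natDegree_pos
    rw [natDegree_mul hp.ne_zero ha] at hdeg ⊢
    have h1 := ih ha (by omega)
    have h2 := irr_dvd hN hp (n := n) (by omega)
    rw [pow_add]
    exact mul_dvd_mul (h2.trans (dvd_pow_self _ (by omega))) h1

theorem pow_modByMonic_mem {D : Type*} [CommRing D] {P : Ideal D} (hP : P.IsMaximal)
    [Finite (D ⧸ P)] {N n : ℕ} (hcard : Nat.card (D ⧸ P) ≤ N) {ψ : D[X]} (hψ : ψ.Monic)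
    (hdeg : ψ.natDegree ≤ n) (M i : ℕ) :
    ((((X ^ (sexp N n + 1) - X : D[X]) ^ n) ^ M) %ₘ ψ).coeff i ∈ P ^ M := by
  let _ : Field (D ⧸ P) := Ideal.Quotient.field P
  set Φ : D[X] := (X ^ (sexp N n + 1) - X : D[X]) ^ n with hΦ
  have hne : ψ.map (Ideal.Quotient.mk P) ≠ 0 := (hψ.map _).ne_zero
  obtain ⟨qb, hqb⟩ : ψ.map (Ideal.Quotient.mk P) ∣ Φ.map (Ideal.Quotient.mk P) := by
    have h1 := dvd_pow_of hcard (ψ.map (Ideal.Quotient.mk P)) hne (n := n)
      ((natDegree_map_le).trans hdeg)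
    rw [hΦ, Polynomial.map_pow, Polynomial.map_sub, Polynomial.map_pow, map_X]
    exact h1
  obtain ⟨q, rfl⟩ := Polynomial.map_surjective (Ideal.Quotient.mk P) Ideal.Quotient.mk_surjective qb
  set ε : D[X] := Φ - ψ * q with hε
  have hεP : ε ∈ Ideal.map (C : D →+* D[X]) P := by
    rw [Ideal.mem_map_C_iff]
    intro j
    rw [← Ideal.Quotient.eq_zero_iff_mem, ← coeff_map, hε, Polynomial.map_sub, Polynomial.map_mul,
      hqb, sub_self, coeff_zero]
  have hεM : ε ^ M ∈ Ideal.map (C : D →+* D[X]) (P ^ M) := by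
    rw [Ideal.map_pow]
    exact Ideal.pow_mem_pow hεP M
  have h1 : (ε ^ M).map (Ideal.Quotient.mk (P ^ M)) = 0 := by
    ext j
    rw [coeff_map, coeff_zero, Ideal.Quotient.eq_zero_iff_mem]
    exact (Ideal.mem_map_C_iff.1 hεM) j
  obtain ⟨c, hc⟩ : ψ ∣ Φ ^ M - ε ^ M := by
    have h2 := sub_dvd_pow_sub_pow Φ ε M
    rw [hε, sub_sub_cancel] at h2
    exact (Dvd.intro _ rfl).trans h2
  have h2 : (Φ ^ M).map (Ideal.Quotient.mk (P ^ M)) =
      ψ.map (Ideal.Quotient.mk (P ^ M)) * c.map (Ideal.Quotient.mk (P ^ M)) := by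
    have h3 : Φ ^ M = ψ * c + ε ^ M := by rw [← hc]; ring
    rw [h3, Polynomial.map_add, h1, add_zero, Polynomial.map_mul]
  have h3 : ((Φ ^ M) %ₘ ψ).map (Ideal.Quotient.mk (P ^ M)) = 0 := by
    rw [map_modByMonic _ hψ, modByMonic_eq_zero_iff_dvd (hψ.map _), h2]
    exact Dvd.intro _ rfl
  rw [← Ideal.Quotient.eq_zero_iff_mem, ← coeff_map, h3, coeff_zero]

/-- A monic polynomial whose remainders modulo all monic polynomials of degree at most `n` are
divisible by `d ^ n`. -/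
theorem exists_uniform {D : Type*} [CommRing D] [IsDomain D] (hD : Good D) {d : D} (hd : d ≠ 0)
    (n : ℕ) (hn : 1 ≤ n) : ∃ Φ : D[X], Φ.Monic ∧ 0 < Φ.natDegree ∧ ∀ ψ : D[X], ψ.Monic → ψ.natDegree ≤ n →
      ∀ i, d ^ n ∣ (Φ %ₘ ψ).coeff i := by
  obtain ⟨N, hN1, hN⟩ := hD.bdd d hd
  have hmon : (X ^ (sexp N n + 1) - X : D[X]).Monic :=
    monic_X_pow_sub (by rw [degree_X]; exact_mod_cast Nat.lt_succ_of_le (sexp_pos N n))
  have hdeg : (X ^ (sexp N n + 1) - X : D[X]).natDegree = sexp N n + 1 := by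
    rw [natDegree_sub_eq_left_of_natDegree_lt, natDegree_X_pow]
    rw [natDegree_X, natDegree_X_pow]
    exact Nat.lt_succ_of_le (sexp_pos N n)
  refine ⟨((X ^ (sexp N n + 1) - X : D[X]) ^ n) ^ (N * n), (hmon.pow _).pow _, ?_, ?_⟩
  · rw [(hmon.pow _).natDegree_pow, hmon.natDegree_pow, hdeg]
    positivity
  · intro ψ hψ hdegψ i
    refine dvd_of_local hD (fun M hM hdM => (hN M hM hdM).1) n fun M hM hdM => ?_
    have := (hN M hM hdM).2.1
    exact pow_modByMonic_mem hM (hN M hM hdM).2.2 hψ hdegψ _ i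

end Pool.Agent.Q81.IP
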