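import Pool.Agent.Q81.IpVal

/-! The polynomials separating small from large values (MP_6e749b_al). -/

namespace Pool.Agent.Q81.IP

open Polynomial

/-- The separating polynomials. -/
noncomputable def HH {K : Type*} [Field K] (d : K) (s L0 : ℕ) : ℕ → ℕ → K[X]
  | 0, _ => 1
  | c + 1, M => HH d s L0 c (M + s * c * (L0 * M)) *
      (1 - C ((d ^ (s * c))⁻¹) * X ^ (s * L0)) ^ (L0 * M)

/-- The quotient `(1 - H) / X`. -/
noncomputable def EE {K : Type*} [Field K] (d : K) (s L0 c M : ℕ) : K[X] :=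
  (1 - HH d s L0 c M).divX

theorem HH_coeff_zero {K : Type*} [Field K] (d : K) {s L0 : ℕ} (hs : 0 < s) (hL : 0 < L0) :
    ∀ c M : ℕ, (HH d s L0 c M).coeff 0 = 1 := by
  intro c
  induction c with
  | zero => intro M; rw [HH, coeff_one_zero]
  | succ c ih =>
    intro M
    rw [HH, coeff_zero_eq_eval_zero, eval_mul, ← coeff_zero_eq_eval_zero, ih, one_mul, eval_pow,
      eval_sub, eval_one, eval_mul, eval_pow, eval_X, zero_pow (by positivity), mul_zero, sub_zero,
      one_pow]

theorem EE_mul_X {K : Type*} [Field K] (d : K) {s L0 : ℕ} (hs : 0 < s) (hL : 0 < L0) (c M : ℕ) :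
    EE d s L0 c M * X = 1 - HH d s L0 c M := by
  have h1 := divX_mul_X_add (1 - HH d s L0 c M)
  rw [coeff_sub, coeff_one_zero, HH_coeff_zero d hs hL, sub_self, C_0, add_zero] at h1
  exact h1

theorem HH_coeff_mem {K : Type*} [Field K] {d : K} {S : Subring K} (hd : d⁻¹ ∈ S) (s L0 : ℕ) :
    ∀ c M i : ℕ, (HH d s L0 c M).coeff i ∈ S := by
  have key : ∀ c M : ℕ, HH d s L0 c M ∈ liftsRing S.subtype := by
    intro c
    induction c with
    | zero => intro M; rw [HH]; exact one_mem _
    | succ c ih =>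
      intro M
      rw [HH]
      refine mul_mem (ih _) (pow_mem (sub_mem (one_mem _) (mul_mem ?_ (pow_mem ?_ _))) _)
      · rw [← inv_pow]
        exact (lifts_iff_liftsRing S.subtype _).1 (C_mem_lifts S.subtype ⟨(d⁻¹) ^ (s * c), pow_mem hd _⟩)
      · exact (lifts_iff_liftsRing S.subtype _).1 (X_mem_lifts S.subtype)
  intro c M i
  obtain ⟨x, hx⟩ := (lifts_iff_coeff_lifts _).1 ((lifts_iff_liftsRing S.subtype _).2 (key c M)) i
  rw [← hx]
  exact x.2

theorem EE_coeff_mem {K : Type*} [Field K] {d : K} {S : Subring K} (hd : d⁻¹ ∈ S) (s L0 c M i : ℕ) :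
    (EE d s L0 c M).coeff i ∈ S := by
  rw [EE, coeff_divX, coeff_sub, coeff_one]
  exact sub_mem (by split_ifs <;> simp) (HH_coeff_mem hd s L0 c M _)

section

variable {D : Type*} [CommRing D] [IsDomain D] {K : Type*} [Field K] [Algebra D K]
  {L : Type*} [Field L] [Algebra D L] [Algebra K L] [IsScalarTower D K L] {n : ℕ}
  {O : ValuationSubring L}

omit [IsDomain D] in
theorem eval_le_one_of_coeff {τ : L} (hτ : O.valuation τ ≤ 1) {p : K[X]}
    (hp : ∀ i, O.valuation (algebraMap K L (p.coeff i)) ≤ 1) : O.valuation (aeval τ p) ≤ 1 := by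
  rw [aeval_def, eval₂_eq_sum, Polynomial.sum]
  refine Valuation.map_sum_le _ fun i _ => ?_
  rw [map_mul, map_pow]
  exact mul_le_one' (hp i) (pow_le_one' hτ _)

/-- Values when `d` is a unit of the valuation ring. -/
theorem HH_unit {d : K} (hd : O.valuation (algebraMap K L d) = 1) {τ : L}
    (hτ : O.valuation τ ≤ 1) (s L0 c M : ℕ) :
    O.valuation (aeval τ (HH d s L0 c M)) ≤ 1 ∧ O.valuation (aeval τ (EE d s L0 c M)) ≤ 1 := by
  have hS : d⁻¹ ∈ (O.toSubring.comap (algebraMap K L)) := by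
    rw [Subring.mem_comap]
    change algebraMap K L d⁻¹ ∈ O
    rw [← O.valuation_le_one_iff, map_inv₀, map_inv₀, hd, inv_one]
  refine ⟨eval_le_one_of_coeff hτ fun i => ?_, eval_le_one_of_coeff hτ fun i => ?_⟩
  · rw [O.valuation_le_one_iff]
    exact HH_coeff_mem hS s L0 c M i
  · rw [O.valuation_le_one_iff]
    exact EE_coeff_mem hS s L0 c M i

/-- Values when `d` is a non-unit of the valuation ring. -/
theorem HH_nonunit (h : Ctx D L n O) (hD : Good D) {d : D} (hd : d ≠ 0)
    (hdP : d ∈ h.P) {N : ℕ} (hN : ∀ M : Ideal D, M.IsMaximal → d ∈ M →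
      d ∉ M ^ (N + 1) ∧ Finite (D ⧸ M) ∧ Nat.card (D ⧸ M) ≤ N) (c : ℕ) :
    ∀ (M : ℕ) (τ : L), O.valuation τ ≤ 1 →
      (O.valuation τ ^ (n.factorial * N.factorial) ≤ O.valuation (algebraMap D L d) ^ c →
        O.valuation (aeval τ (HH (algebraMap D K d) (sexp N n) (n.factorial * N.factorial) c M)) ≤ 1) ∧
      (O.valuation (algebraMap D L d) ^ c < O.valuation τ ^ (n.factorial * N.factorial) →
        O.valuation (aeval τ (HH (algebraMap D K d) (sexp N n) (n.factorial * N.factorial) c M)) ≤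
          O.valuation (algebraMap D L d) ^ M) := by
  have hL0 : 0 < n.factorial * N.factorial := Nat.mul_pos (Nat.factorial_pos _) (Nat.factorial_pos _)
  have hA : ∀ τ : L, O.valuation τ ≤ 1 → τ ≠ 0 → ∃ B : ℕ,
      O.valuation τ ^ (n.factorial * N.factorial) = O.valuation (algebraMap D L d) ^ B :=
    fun τ hτ hτ0 => h.pow_eq hD hd hdP (fun M hM hdM => (hN M hM hdM).1) hτ hτ0
  have hB : ∀ τ : L, O.valuation τ = 1 → O.valuation (τ ^ sexp N n - 1) < 1 :=
    fun τ hτ => h.pow_sub_one_lt hD hd hdP (fun M hM hdM => (hN M hM hdM).2) hτ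
  set L0 := n.factorial * N.factorial with hL0def
  set s := sexp N n with hs
  set δ := O.valuation (algebraMap D L d) with hδ
  have hδ1 : δ < 1 := (h.mem_P d).1 hdP
  have hdL : algebraMap D L d ≠ 0 := by
    rw [Ne, map_eq_zero_iff _ h.inj]; exact hd
  have hδ0 : δ ≠ 0 := (Valuation.ne_zero_iff _).2 hdL
  have hδpos : 0 < δ := zero_lt_iff.2 hδ0
  have hB' : ∀ τ : L, O.valuation τ = 1 → O.valuation (τ ^ s - 1) ^ L0 ≤ δ := by
    intro τ hτ
    by_cases h0 : τ ^ s - 1 = 0
    · rw [h0, map_zero, zero_pow hL0.ne']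
      exact zero_le
    · obtain ⟨B, hBe⟩ := hA _ (hB τ hτ).le h0
      rw [hBe]
      have hB1 : B ≠ 0 := by
        rintro rfl
        rw [pow_zero] at hBe
        exact absurd hBe (pow_lt_one₀ zero_le (hB τ hτ) hL0.ne').ne
      exact pow_le_of_le_one zero_le hδ1.le hB1
  induction c with
  | zero =>
    intro M τ hτ
    refine ⟨fun _ => ?_, fun h1 => ?_⟩
    · rw [HH, map_one, map_one]
    · rw [pow_zero] at h1
      exact absurd (pow_le_one' hτ _) (not_le.2 h1)
  | succ c ih =>
    intro M τ hτ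
    have hτL : O.valuation τ ^ L0 ≤ 1 := pow_le_one' hτ _
    have hfac : aeval τ (1 - C (((algebraMap D K d) ^ (s * c))⁻¹) * X ^ (s * L0)) =
        1 - (τ ^ L0 / algebraMap D L d ^ c) ^ s := by
      rw [map_sub, map_one, map_mul, aeval_C, map_pow, aeval_X, map_inv₀, map_pow,
        ← IsScalarTower.algebraMap_apply, div_pow, ← pow_mul, ← pow_mul, mul_comm s c,
        mul_comm s L0, div_eq_mul_inv, mul_comm (τ ^ _)]
    have hval : O.valuation ((τ ^ L0 / algebraMap D L d ^ c) ^ s) =
        (O.valuation τ ^ L0 / δ ^ c) ^ s := by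
      rw [map_pow, map_div₀, map_pow, map_pow]
    have hexp : aeval τ (HH (algebraMap D K d) s L0 (c + 1) M) =
        aeval τ (HH (algebraMap D K d) s L0 c (M + s * c * (L0 * M))) *
          (1 - (τ ^ L0 / algebraMap D L d ^ c) ^ s) ^ (L0 * M) := by
      rw [HH, map_mul, map_pow, hfac]
    rw [hexp, map_mul, map_pow]
    have hsmall : O.valuation τ ^ L0 ≤ δ ^ c →
        O.valuation (1 - (τ ^ L0 / algebraMap D L d ^ c) ^ s) ≤ 1 := by
      intro h1
      refine Valuation.map_sub_le _ (by rw [map_one]) ?_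
      rw [hval]
      exact pow_le_one' (div_le_one_of_le₀ h1 zero_le) _
    refine ⟨fun h1 => ?_, fun h1 => ?_⟩
    · have h2 : O.valuation τ ^ L0 ≤ δ ^ c :=
        h1.trans (pow_le_pow_right_of_le_one' hδ1.le (Nat.le_succ c))
      exact mul_le_one' ((ih _ τ hτ).1 h2) (pow_le_one' (hsmall h2) _)
    · rcases le_or_gt (O.valuation τ ^ L0) (δ ^ c) with h2 | h2
      · -- the critical value
        have hτ0 : τ ≠ 0 := by
          rintro rfl
          rw [map_zero, zero_pow hL0.ne'] at h1
          exact absurd h1 (not_lt.2 zero_le)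
        obtain ⟨B, hBe⟩ := hA τ hτ hτ0
        have hBc : B = c := by
          rw [hBe] at h1 h2
          have h3 : B < c + 1 := by
            by_contra hc
            push Not at hc
            exact absurd (pow_le_pow_right_of_le_one' hδ1.le hc) (not_le.2 h1)
          have h4 : c ≤ B := by
            by_contra hc
            push Not at hc
            exact absurd (pow_lt_pow_right_of_lt_one₀ hδpos hδ1 hc) (not_lt.2 h2)
          omega
        rw [hBc] at hBe
        have h3 : O.valuation (τ ^ L0 / algebraMap D L d ^ c) = 1 := by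
          rw [map_div₀, map_pow, map_pow, hBe, div_self (pow_ne_zero _ hδ0)]
        have h4 := hB' _ h3
        rw [← Valuation.map_sub_swap] at h4
        calc _ ≤ 1 * (O.valuation (1 - (τ ^ L0 / algebraMap D L d ^ c) ^ s) ^ L0) ^ M := by
              rw [pow_mul]
              exact mul_le_mul_left ((ih _ τ hτ).1 h2) _
          _ ≤ δ ^ M := by
              rw [one_mul]
              exact pow_le_pow_left' h4 _
      · have h3 := (ih (M + s * c * (L0 * M)) τ hτ).2 h2
        have h4 : O.valuation (1 - (τ ^ L0 / algebraMap D L d ^ c) ^ s) ≤ (δ ^ (s * c))⁻¹ := by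
          have h5 : 1 ≤ (δ ^ (s * c))⁻¹ := by
            rw [one_le_inv₀ (pow_pos hδpos _)]
            exact pow_le_one' hδ1.le _
          refine Valuation.map_sub_le _ (by rw [map_one]; exact h5) ?_
          rw [hval, div_pow, ← pow_mul δ, mul_comm c s, div_eq_mul_inv]
          exact mul_le_of_le_one_left' (pow_le_one' hτL _)
        calc _ ≤ δ ^ (M + s * c * (L0 * M)) * ((δ ^ (s * c))⁻¹) ^ (L0 * M) :=
              mul_le_mul' h3 (pow_le_pow_left' h4 _)
          _ = δ ^ M := by
              rw [inv_pow, ← pow_mul, pow_add, mul_assoc, mul_inv_cancel₀ (pow_ne_zero _ hδ0),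
                mul_one]

end

end Pool.Agent.Q81.IP
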