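import Pool.Agent.Q81.IpVal

/-! Integrality through valuation rings; degree bounds; clearing denominators (MP_6e749b_al). -/

namespace Pool.Agent.Q81.IP

open Polynomial

theorem exists_clear {D K : Type*} [CommRing D] [IsDomain D] [Field K] [Algebra D K]
    [IsFractionRing D K] (F : K[X]) : ∃ d : D, d ≠ 0 ∧ ∃ F' : D[X],
      F'.map (algebraMap D K) = C (algebraMap D K d) * F := by
  obtain ⟨b, hb, h⟩ := IsLocalization.integerNormalization_spec (nonZeroDivisors D) (S := K) F
  exact ⟨b, nonZeroDivisors.ne_zero hb, _, by rw [h, ← algebraMap_smul K b F, smul_eq_C_mul]⟩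

theorem isIntegral_of_val {D L : Type*} [CommRing D] [Field L] [Algebra D L] {y : L}
    (h : ∀ O : ValuationSubring L, (∀ x : D, algebraMap D L x ∈ O) → y ∈ O) : IsIntegral D y := by
  have h1 : y ∈ (⨅ V : {V : ValuationSubring L // (Set.range (algebraMap D L)) ⊆ V.toSubring},
      V.1.toSubring) := by
    rw [Subring.mem_iInf]
    intro V
    exact h V.1 fun x => V.2 ⟨x, rfl⟩
  rw [iInf_valuationSubring_superset] at h1
  have h2 : IsIntegral (Subring.closure (Set.range (algebraMap D L))) y := h1
  obtain ⟨p, hp, hroot⟩ := h2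
  have hcl : Subring.closure (Set.range (algebraMap D L)) = (algebraMap D L).range := by
    rw [← RingHom.coe_range, Subring.closure_eq]
  have hlift : p.map (Subring.closure (Set.range (algebraMap D L))).subtype ∈
      lifts (algebraMap D L) := by
    rw [lifts_iff_coeff_lifts]
    intro i
    rw [coeff_map]
    have h3 : ∀ z ∈ Subring.closure (Set.range (algebraMap D L)),
        z ∈ Set.range (algebraMap D L) := by
      rw [hcl]
      exact fun z hz => hz
    exact h3 _ (p.coeff i).2
  obtain ⟨q, hq, hdeg, hqm⟩ := lifts_and_natDegree_eq_and_monic hlift (hp.map _)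
  refine ⟨q, hqm, ?_⟩
  rw [← eval_map, hq, eval_map]
  exact hroot

section

variable {D : Type*} [CommRing D] [IsDomain D] {K : Type*} [Field K] [Algebra D K]
  [IsFractionRing D K]

omit [IsDomain D] [IsFractionRing D K] in
theorem exists_monic_dvd {h μ0 : K[X]} (hμ0 : μ0 ≠ 0)
    (hh : ∀ p : K[X], Prime p → p ∣ μ0 → IsIntegral D (aeval (AdjoinRoot.root p) h)) (μ : K[X]) :
    μ ∣ μ0 → ∃ Q : D[X], Q.Monic ∧ μ ∣ (Q.map (algebraMap D K)).comp h := by
  induction μ using UniqueFactorizationMonoid.induction_on_prime with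
  | h₁ => exact fun h0 => absurd (zero_dvd_iff.1 h0) hμ0
  | h₂ x hx => exact fun _ => ⟨1, monic_one, hx.dvd⟩
  | h₃ a p ha hp ih =>
    intro hdvd
    obtain ⟨Q, hQ, h1⟩ := ih ((Dvd.intro_left _ rfl).trans hdvd)
    obtain ⟨Q', hQ', h2⟩ := hh p hp ((Dvd.intro _ rfl).trans hdvd)
    refine ⟨Q' * Q, hQ'.mul hQ, ?_⟩
    rw [Polynomial.map_mul, mul_comp]
    refine mul_dvd_mul ?_ h1
    rw [← AdjoinRoot.mk_eq_zero, ← AdjoinRoot.aeval_eq, aeval_comp, aeval_map_algebraMap]
    exact h2

/-- The key reduction: integrality of `h(a)` can be tested on valuation rings. -/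
theorem isIntegral_aeval {B : Type*} [Ring B] [Algebra K B] [Algebra D B] [IsScalarTower D K B]
    {a : B} (ha : IsIntegral D a) {n : ℕ} (hn : (minpoly K a).natDegree ≤ n) {h : K[X]}
    (hh : ∀ p : K[X], [Fact (Irreducible p)] → ∀ O : ValuationSubring (AdjoinRoot p),
      Ctx D (AdjoinRoot p) n O → IsIntegral D (AdjoinRoot.root p) →
        aeval (AdjoinRoot.root p) h ∈ O) : IsIntegral D (aeval a h) := by
  obtain ⟨ψ, hψ, hψa⟩ := ha
  have hψa' : aeval a (ψ.map (algebraMap D K)) = 0 := by
    rw [aeval_map_algebraMap]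
    exact hψa
  have hdvd : minpoly K a ∣ ψ.map (algebraMap D K) := minpoly.dvd _ _ hψa'
  have hne : minpoly K a ≠ 0 := fun h0 => (hψ.map _).ne_zero (zero_dvd_iff.1 (h0 ▸ hdvd))
  have key : ∀ p : K[X], Prime p → p ∣ minpoly K a → IsIntegral D (aeval (AdjoinRoot.root p) h) := by
    intro p hp hpdvd
    have : Fact (Irreducible p) := ⟨hp.irreducible⟩
    refine isIntegral_of_val fun O hO => hh p O ⟨?_, ?_, hO⟩ ⟨ψ, hψ, ?_⟩
    · rw [IsScalarTower.algebraMap_eq D K (AdjoinRoot p)]
      exact (algebraMap K (AdjoinRoot p)).injective.comp (IsFractionRing.injective D K)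
    · intro τ
      have hfin : FiniteDimensional K (AdjoinRoot p) :=
        (AdjoinRoot.powerBasis hp.ne_zero).finite
      have h1 : (minpoly K τ).natDegree ≤ n := by
        refine (minpoly.natDegree_le τ).trans ?_
        rw [(AdjoinRoot.powerBasis hp.ne_zero).finrank, AdjoinRoot.powerBasis_dim]
        exact (natDegree_le_of_dvd hpdvd hne).trans hn
      have hint : IsIntegral K τ := IsIntegral.of_finite K τ
      obtain ⟨d, hd, F, hF⟩ := exists_clear (D := D) (minpoly K τ)
      have hdK : algebraMap D K d ≠ 0 := by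
        rw [Ne, map_eq_zero_iff _ (IsFractionRing.injective D K)]; exact hd
      refine ⟨F, ?_, ?_, ?_⟩
      · rintro rfl
        rw [Polynomial.map_zero] at hF
        rcases mul_eq_zero.1 hF.symm with h | h
        · exact hdK (C_eq_zero.1 h)
        · exact minpoly.ne_zero hint h
      · rw [← natDegree_map_eq_of_injective (IsFractionRing.injective D K), hF,
          natDegree_C_mul hdK]
        exact h1
      · rw [← aeval_map_algebraMap K, hF, map_mul, minpoly.aeval, mul_zero]
    · have h1 : p ∣ ψ.map (algebraMap D K) := hpdvd.trans hdvd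
      rw [← AdjoinRoot.mk_eq_zero, ← AdjoinRoot.aeval_eq, aeval_map_algebraMap] at h1
      exact h1
  obtain ⟨Q, hQ, c, hc⟩ := exists_monic_dvd hne key _ dvd_rfl
  refine ⟨Q, hQ, ?_⟩
  change aeval (aeval a h) Q = 0
  rw [← aeval_map_algebraMap K, ← aeval_comp, hc, map_mul, minpoly.aeval, zero_mul]

end

section

variable {D : Type*} [CommRing D] [IsDomain D] {K : Type*} [Field K] [Algebra D K]
  {B : Type*} [Ring B] [Algebra K B] [Algebra D B] [IsScalarTower D K B]

omit [IsDomain D] in
theorem deg_bound (A : Subalgebra D B) [Module.Finite D A] : ∃ n : ℕ, 1 ≤ n ∧ ∀ a ∈ A, ∀ f : K[X],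
    (minpoly K (aeval a f)).natDegree ≤ n := by
  obtain ⟨s, hs, hspan⟩ := Submodule.fg_def.1 (Module.Finite.fg_top (R := D) (M := A))
  set V : Submodule K B := Submodule.span K (A : Set B) with hV
  have hfin : FiniteDimensional K V := by
    have h1 : FiniteDimensional K (Submodule.span K (Subtype.val '' s : Set B)) :=
      FiniteDimensional.span_of_finite K (hs.image _)
    refine Submodule.finiteDimensional_of_le (S₂ := Submodule.span K (Subtype.val '' s : Set B)) ?_
    rw [hV, Submodule.span_le]
    intro x hx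
    have h2 : (⟨x, hx⟩ : A) ∈ Submodule.span D s := by rw [hspan]; trivial
    have h3 : x ∈ Submodule.span D (Subtype.val '' s : Set B) := by
      have h4 := Submodule.mem_map_of_mem (f := A.val.toLinearMap) h2
      rw [Submodule.map_span] at h4
      exact h4
    exact Submodule.span_subset_span D K _ h3
  refine ⟨Module.finrank K V + 1, by omega, fun a ha f => ?_⟩
  have hle : Subalgebra.toSubmodule (Algebra.adjoin K {a}) ≤ V := by
    intro x hx
    rw [Subalgebra.mem_toSubmodule, Algebra.adjoin_singleton_eq_range_aeval] at hx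
    obtain ⟨p, rfl⟩ := hx
    change aeval a p ∈ V
    rw [aeval_eq_sum_range]
    exact Submodule.sum_mem _ fun i _ => Submodule.smul_mem _ _
      (Submodule.subset_span (pow_mem ha i))
  have hfin' : FiniteDimensional K (Algebra.adjoin K {a}) :=
    Submodule.finiteDimensional_of_le (S₁ := Subalgebra.toSubmodule (Algebra.adjoin K {a})) hle
  have hmem : aeval a f ∈ Algebra.adjoin K {a} := by
    rw [Algebra.adjoin_singleton_eq_range_aeval]
    exact ⟨f, rfl⟩
  have h1 : minpoly K (aeval a f) = minpoly K (⟨aeval a f, hmem⟩ : Algebra.adjoin K {a}) :=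
    minpoly.algHom_eq (Algebra.adjoin K {a}).val Subtype.val_injective ⟨aeval a f, hmem⟩
  rw [h1]
  refine (minpoly.natDegree_le _).trans ?_
  have h2 : Module.finrank K (Subalgebra.toSubmodule (Algebra.adjoin K {a})) ≤ Module.finrank K V :=
    Submodule.finrank_mono hle
  exact (le_of_eq_of_le rfl h2).trans (Nat.le_succ _)

end

end Pool.Agent.Q81.IP
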