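import Mathlib

/-! Almost Dedekind domains with bounded ramification and residue fields: elementary local facts
(MP_6e749b_al). -/

namespace Pool.Agent.Q81.IP

open Polynomial

/-- Elementary form of the hypothesis. -/
structure Good (D : Type*) [CommRing D] : Prop where
  dvr : ∀ M : Ideal D, M.IsMaximal → ∃ π ∈ M, ∀ x : D, x ≠ 0 →
    ∃ (j : ℕ) (s s' : D), s ∉ M ∧ s' ∉ M ∧ s * x = s' * π ^ j
  bdd : ∀ d : D, d ≠ 0 → ∃ N : ℕ, 1 ≤ N ∧ ∀ M : Ideal D, M.IsMaximal → d ∈ M →
    d ∉ M ^ (N + 1) ∧ Finite (D ⧸ M) ∧ Nat.card (D ⧸ M) ≤ N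

theorem dvr_of {D : Type*} [CommRing D] [IsDomain D] (M : Ideal D) [M.IsMaximal]
    (h : IsDiscreteValuationRing (Localization.AtPrime M)) : ∃ π ∈ M, ∀ x : D, x ≠ 0 →
    ∃ (j : ℕ) (s s' : D), s ∉ M ∧ s' ∉ M ∧ s * x = s' * π ^ j := by
  have hinj : Function.Injective (algebraMap D (Localization.AtPrime M)) :=
    IsLocalization.injective _ (Ideal.primeCompl_le_nonZeroDivisors M)
  obtain ⟨ϖ, hϖ⟩ := IsDiscreteValuationRing.exists_irreducible (Localization.AtPrime M)
  obtain ⟨⟨π, t⟩, hπ⟩ := IsLocalization.surj M.primeCompl ϖ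
  have htu : IsUnit (algebraMap D (Localization.AtPrime M) (t : D)) := IsLocalization.map_units _ t
  have hirr : Irreducible (algebraMap D (Localization.AtPrime M) π) := by
    rw [← hπ]
    exact (irreducible_mul_isUnit htu).2 hϖ
  refine ⟨π, ?_, ?_⟩
  · by_contra hcon
    exact hirr.not_isUnit (IsLocalization.map_units _ (⟨π, hcon⟩ : M.primeCompl))
  · intro x hx
    have hx' : algebraMap D (Localization.AtPrime M) x ≠ 0 := fun h0 =>
      hx (hinj (h0.trans (map_zero _).symm))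
    obtain ⟨j, u, hu⟩ := IsDiscreteValuationRing.associated_pow_irreducible hx' hirr
    obtain ⟨⟨a, b⟩, hab⟩ := IsLocalization.surj M.primeCompl (u : Localization.AtPrime M)
    have ha : a ∉ M := by
      intro haM
      have h1 : IsUnit (algebraMap D (Localization.AtPrime M) a) := by
        have h2 : (u : Localization.AtPrime M) * algebraMap D _ (b : D) = algebraMap D _ a := hab
        rw [← h2]
        exact u.isUnit.mul (IsLocalization.map_units _ b)
      exact (IsLocalization.AtPrime.isUnit_to_map_iff (Localization.AtPrime M) M a).1 h1 haM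
    refine ⟨j, a, b, ha, b.2, hinj ?_⟩
    have h2 : (u : Localization.AtPrime M) * algebraMap D _ (b : D) = algebraMap D _ a := hab
    rw [map_mul, map_mul, map_pow, ← hu, ← h2]
    ring

variable {D : Type*} [CommRing D] [IsDomain D]

omit [IsDomain D] in
theorem pow_mem_local' (hdvr : ∀ M : Ideal D, M.IsMaximal → ∃ π ∈ M, ∀ x : D, x ≠ 0 →
    ∃ (j : ℕ) (s s' : D), s ∉ M ∧ s' ∉ M ∧ s * x = s' * π ^ j) {M : Ideal D} (hM : M.IsMaximal) :
    ∃ π ∈ M, (∀ x : D, x ≠ 0 → ∃ (j : ℕ) (s s' : D), s ∉ M ∧ s' ∉ M ∧ s * x = s' * π ^ j) ∧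
    ∀ (j : ℕ) (x : D), x ∈ M ^ j → ∃ s, s ∉ M ∧ π ^ j ∣ s * x := by
  obtain ⟨π, hπ, h⟩ := hdvr M hM
  refine ⟨π, hπ, h, ?_⟩
  have hprime := hM.isPrime
  have h1M : (1 : D) ∉ M := fun h1 => hM.ne_top (M.eq_top_of_isUnit_mem h1 isUnit_one)
  have h1 : ∀ x ∈ M, ∃ s, s ∉ M ∧ π ∣ s * x := by
    intro x hx
    by_cases hx0 : x = 0
    · exact ⟨1, h1M, by rw [hx0, mul_zero]; exact dvd_zero _⟩
    · obtain ⟨j, s, s', hs, hs', he⟩ := h x hx0
      refine ⟨s, hs, ?_⟩
      rcases Nat.eq_zero_or_pos j with hj | hj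
      · exfalso
        rw [hj, pow_zero, mul_one] at he
        exact hs' (he ▸ M.mul_mem_left s hx)
      · rw [he]
        exact (dvd_pow_self π (by omega)).mul_left s'
  intro j
  induction j with
  | zero => exact fun x _ => ⟨1, h1M, by rw [pow_zero]; exact one_dvd _⟩
  | succ j ih =>
    intro x hx
    rw [pow_succ] at hx
    refine Submodule.mul_induction_on hx ?_ ?_
    · intro m hm n hn
      obtain ⟨s, hs, a, ha⟩ := ih m hm
      obtain ⟨s', hs', b, hb⟩ := h1 n hn
      refine ⟨s * s', fun hss => ?_, a * b, ?_⟩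
      · rcases hprime.mem_or_mem hss with h | h
        · exact hs h
        · exact hs' h
      · calc s * s' * (m * n) = (s * m) * (s' * n) := by ring
          _ = π ^ (j + 1) * (a * b) := by rw [ha, hb, pow_succ]; ring
    · rintro y z ⟨s, hs, a, ha⟩ ⟨s', hs', b, hb⟩
      refine ⟨s * s', fun hss => ?_, s' * a + s * b, ?_⟩
      · rcases hprime.mem_or_mem hss with h | h
        · exact hs h
        · exact hs' h
      · calc s * s' * (y + z) = s' * (s * y) + s * (s' * z) := by ring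
          _ = π ^ (j + 1) * (s' * a + s * b) := by rw [ha, hb]; ring

omit [IsDomain D] in
theorem pow_mem_local (hD : Good D) {M : Ideal D} (hM : M.IsMaximal) :
    ∃ π ∈ M, (∀ x : D, x ≠ 0 → ∃ (j : ℕ) (s s' : D), s ∉ M ∧ s' ∉ M ∧ s * x = s' * π ^ j) ∧
    ∀ (j : ℕ) (x : D), x ∈ M ^ j → ∃ s, s ∉ M ∧ π ^ j ∣ s * x :=
  pow_mem_local' hD.dvr hM

omit [IsDomain D] in
/-- If `x` is not in `M ^ (N + 1)` then its value is at most `N`. -/
theorem val_le {M : Ideal D} (hM : M.IsMaximal) {π x s s' : D} {j N : ℕ} (hπ : π ∈ M)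
    (hs : s ∉ M) (he : s * x = s' * π ^ j) (hx : x ∉ M ^ (N + 1)) : j ≤ N := by
  by_contra hcon
  apply hx
  have h1 : s * x ∈ M ^ (N + 1) := by
    rw [he]
    exact Ideal.mul_mem_left _ _ (Ideal.pow_le_pow_right (by omega) (Ideal.pow_mem_pow hπ j))
  have hsup : Ideal.span {s} ⊔ M ^ (N + 1) = ⊤ := by
    have h2 : Ideal.span {s} ⊔ M = ⊤ := by
      refine hM.1.2 _ (lt_of_le_of_ne le_sup_right fun h => hs ?_)
      rw [h]
      exact Ideal.mem_sup_left (Ideal.mem_span_singleton_self s)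
    have h3 := (Ideal.isCoprime_iff_sup_eq.2 h2).pow_right (n := N + 1)
    exact Ideal.isCoprime_iff_sup_eq.1 h3
  have h4 : (1 : D) ∈ Ideal.span {s} ⊔ M ^ (N + 1) := by rw [hsup]; trivial
  obtain ⟨a, ha, b, hb, hab⟩ := Submodule.mem_sup.1 h4
  obtain ⟨r, rfl⟩ := Ideal.mem_span_singleton'.1 ha
  have h5 : x = r * (s * x) + b * x := by
    calc x = (r * s + b) * x := by rw [hab, one_mul]
      _ = _ := by ring
  rw [h5]
  exact Ideal.add_mem _ (Ideal.mul_mem_left _ _ h1) (Ideal.mul_mem_right _ _ hb)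

/-- Divisibility by a power of `d` can be tested at the maximal ideals containing `d`. -/
theorem dvd_of_local (hD : Good D) {d : D} {N : ℕ}
    (hN : ∀ M : Ideal D, M.IsMaximal → d ∈ M → d ∉ M ^ (N + 1)) (n : ℕ) {c : D}
    (hc : ∀ M : Ideal D, M.IsMaximal → d ∈ M → c ∈ M ^ (N * n)) : d ^ n ∣ c := by
  by_contra hcon
  let I : Ideal D := (Ideal.span {d ^ n}).colon {c}
  have hmem : ∀ x, x ∈ I ↔ d ^ n ∣ x * c := by
    intro x
    rw [Submodule.mem_colon_singleton, Ideal.mem_span_singleton, smul_eq_mul]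
  have hI : I ≠ ⊤ := by
    intro h
    have := (hmem 1).1 (by rw [h]; trivial)
    rw [one_mul] at this
    exact hcon this
  obtain ⟨M, hM, hIM⟩ := I.exists_le_maximal hI
  have hprime := hM.isPrime
  by_cases hd : d ∈ M
  · obtain ⟨π, hπ, h1, h2⟩ := pow_mem_local hD hM
    have hd0 : d ≠ 0 := by
      rintro rfl
      exact hN M hM hd (Ideal.zero_mem _)
    obtain ⟨v, s, s', hs, hs', he⟩ := h1 d hd0
    have hv := val_le hM hπ hs he (hN M hM hd)
    obtain ⟨t, ht, r, hr⟩ := h2 _ c (hc M hM hd)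
    have h3 : s' ^ n * t ∈ I := by
      rw [hmem]
      refine ⟨s ^ n * π ^ ((N - v) * n) * r, ?_⟩
      calc s' ^ n * t * c = s' ^ n * (t * c) := by ring
        _ = s' ^ n * π ^ (N * n) * r := by rw [hr]; ring
        _ = (s' * π ^ v) ^ n * π ^ ((N - v) * n) * r := by
          have hNn : N * n = v * n + (N - v) * n := by
            rw [← add_mul, Nat.add_sub_cancel' hv]
          rw [hNn, pow_add, mul_pow, ← pow_mul]
          ring
        _ = d ^ n * (s ^ n * π ^ ((N - v) * n) * r) := by rw [← he, mul_pow]; ring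
    rcases hprime.mem_or_mem (hIM h3) with h | h
    · exact hs' (hprime.mem_of_pow_mem n h)
    · exact ht h
  · have h3 : d ^ n ∈ I := by
      rw [hmem]
      exact dvd_mul_right _ _
    exact hd (hprime.mem_of_pow_mem n (hIM h3))

/-- Non-zero primes are maximal. -/
theorem prime_maximal (hD : Good D) {P : Ideal D} (hP : P.IsPrime) {x : D} (hx : x ∈ P)
    (hx0 : x ≠ 0) : P.IsMaximal := by
  obtain ⟨M, hM, hPM⟩ := P.exists_le_maximal hP.ne_top
  obtain ⟨π, hπ, h1, h2⟩ := pow_mem_local hD hM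
  obtain ⟨j, s, s', hs, hs', he⟩ := h1 x hx0
  have h3 : π ∈ P := by
    have h4 : s' * π ^ j ∈ P := he ▸ P.mul_mem_left s hx
    rcases hP.mem_or_mem h4 with h | h
    · exact absurd (hPM h) hs'
    · exact hP.mem_of_pow_mem j h
  have h5 : M ≤ P := by
    intro y hy
    obtain ⟨t, ht, r, hr⟩ := h2 1 y (by rwa [pow_one])
    have h6 : t * y ∈ P := by
      rw [hr, pow_one]
      exact P.mul_mem_right r h3
    rcases hP.mem_or_mem h6 with h | h
    · exact absurd (hPM h) ht
    · exact h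
  rwa [le_antisymm hPM h5]

end Pool.Agent.Q81.IP
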