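import Pool.Agent.Q81.IpH

/-! Values of the polynomials used in the invertibility criterion (MP_6e749b_al). -/

namespace Pool.Agent.Q81.IP

open Polynomial

variable {D : Type*} [CommRing D] [IsDomain D] {K : Type*} [Field K] [Algebra D K]
  {L : Type*} [Field L] [Algebra D L] [Algebra K L] [IsScalarTower D K L] {n : ℕ}
  {O : ValuationSubring L}

theorem values (h : Ctx D L n O) (hD : Good D) {d : D} (hd : d ≠ 0)
    {N : ℕ} (hN : ∀ M : Ideal D, M.IsMaximal → d ∈ M →
      d ∉ M ^ (N + 1) ∧ Finite (D ⧸ M) ∧ Nat.card (D ⧸ M) ≤ N) {a b u v : L}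
    (ha : O.valuation a ≤ 1) (hb : O.valuation b ≤ 1) (hu : O.valuation u ≤ 1)
    (hv : O.valuation v ≤ 1) (huv : u * a + v * b = algebraMap D L d) {s L0 : ℕ}
    (hs : s = sexp N n) (hL : L0 = n.factorial * N.factorial) {t : L}
    (ht : t = a ^ (2 * s) - a ^ s * b ^ s + b ^ (2 * s)) :
    O.valuation (aeval t (HH (algebraMap D K d) s L0 (2 * s * L0 + 1) (2 * s))) ≤
      O.valuation (algebraMap D L d) ^ (2 * s) ∧
    ∀ i ≤ 2 * s, O.valuation (aeval t (EE (algebraMap D K d) s L0 (2 * s * L0 + 1) (2 * s)) *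
      a ^ i * b ^ (2 * s - i)) ≤ 1 := by
  have hL0 : 0 < L0 := by
    rw [hL]; exact Nat.mul_pos (Nat.factorial_pos _) (Nat.factorial_pos _)
  have hs0 : 0 < s := by rw [hs]; exact sexp_pos N n
  have ht1 : O.valuation t ≤ 1 := by
    rw [ht]
    refine Valuation.map_add_le _ (Valuation.map_sub_le _ ?_ ?_) ?_
    · rw [map_pow]; exact pow_le_one' ha _
    · rw [map_mul, map_pow, map_pow]; exact mul_le_one' (pow_le_one' ha _) (pow_le_one' hb _)
    · rw [map_pow]; exact pow_le_one' hb _
  by_cases hdP : d ∈ h.P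
  · have hdL : algebraMap D L d ≠ 0 := by
      rw [Ne, map_eq_zero_iff _ h.inj]; exact hd
    have hB : ∀ τ : L, O.valuation τ = 1 → O.valuation (τ ^ s - 1) < 1 := by
      rw [hs]
      exact fun τ hτ => h.pow_sub_one_lt hD hd hdP (fun M hM hdM => (hN M hM hdM).2) hτ
    set w := O.valuation with hw
    set δ := w (algebraMap D L d) with hδ
    have hδ1 : δ < 1 := (h.mem_P d).1 hdP
    have hδ0 : δ ≠ 0 := (Valuation.ne_zero_iff _).2 hdL
    have hδpos : 0 < δ := zero_lt_iff.2 hδ0
    have hmax : δ ≤ max (w a) (w b) := by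
      rw [hδ, ← huv]
      refine (Valuation.map_add _ _ _).trans (max_le_max ?_ ?_)
      · rw [map_mul]; exact mul_le_of_le_one_left' hu
      · rw [map_mul]; exact mul_le_of_le_one_left' hv
    have htval : w t = max (w a) (w b) ^ (2 * s) := by
      have h2s : 2 * s ≠ 0 := by omega
      rcases lt_trichotomy (w a) (w b) with hlt | heq | hlt
      · rw [max_eq_right hlt.le, ht, ← map_pow]
        refine Valuation.map_add_eq_of_lt_right _ ?_
        have hb0 : 0 < w b := lt_of_le_of_lt zero_le hlt
        refine Valuation.map_sub_lt _ ?_ ?_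
        · rw [map_pow, map_pow]
          exact pow_lt_pow_left₀ hlt zero_le h2s
        · rw [map_mul, map_pow, map_pow, map_pow, two_mul, pow_add]
          exact mul_lt_mul_of_pos_right (pow_lt_pow_left₀ hlt zero_le hs0.ne') (pow_pos hb0 _)
      · have hb0 : w b ≠ 0 := by
          rw [heq, max_self] at hmax
          intro h0
          rw [h0] at hmax
          exact absurd hmax (not_le.2 hδpos)
        have hb00 : b ≠ 0 := (Valuation.ne_zero_iff _).1 hb0
        have h1 : w (a / b) = 1 := by rw [map_div₀, heq, div_self hb0]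
        have h2 := hB _ h1
        have h3 : t = b ^ (2 * s) * (1 + (a / b) ^ s * ((a / b) ^ s - 1)) := by
          have h5 : ∀ c : L, a = c * b → t = b ^ (2 * s) * (1 + c ^ s * (c ^ s - 1)) := by
            intro c hc
            rw [ht, hc]
            ring
          exact h5 _ (div_mul_cancel₀ a hb00).symm
        have h4 : w (1 + (a / b) ^ s * ((a / b) ^ s - 1)) = 1 := by
          rw [Valuation.map_add_eq_of_lt_left, map_one]
          rw [map_one, map_mul, map_pow, h1, one_pow, one_mul]
          exact h2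
        rw [h3, map_mul, h4, mul_one, map_pow, heq, max_self]
      · rw [max_eq_left hlt.le, ht, sub_add]
        have ha0 : 0 < w a := lt_of_le_of_lt zero_le hlt
        rw [sub_eq_add_neg, ← map_pow]
        refine Valuation.map_add_eq_of_lt_left _ ?_
        rw [Valuation.map_neg]
        refine Valuation.map_sub_lt _ ?_ ?_
        · rw [map_mul, map_pow, map_pow, map_pow, two_mul, pow_add]
          exact mul_lt_mul_of_pos_left (pow_lt_pow_left₀ hlt zero_le hs0.ne') (pow_pos ha0 _)
        · rw [map_pow, map_pow]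
          exact pow_lt_pow_left₀ hlt zero_le h2s
    have hlow : δ ^ (2 * s * L0 + 1) < w t ^ L0 := by
      rw [htval, ← pow_mul]
      refine lt_of_lt_of_le ?_ (pow_le_pow_left' hmax _)
      exact pow_lt_pow_right_of_lt_one₀ hδpos hδ1 (Nat.lt_succ_self _)
    have hH : w (aeval t (HH (algebraMap D K d) s L0 (2 * s * L0 + 1) (2 * s))) ≤ δ ^ (2 * s) := by
      have h1 := (HH_nonunit (K := K) h hD hd hdP hN (2 * s * L0 + 1) (2 * s) t ht1).2
      rw [← hs, ← hL] at h1
      exact h1 hlow
    refine ⟨hH, fun i hi => ?_⟩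
    have h1 : aeval t (EE (algebraMap D K d) s L0 (2 * s * L0 + 1) (2 * s)) * t =
        1 - aeval t (HH (algebraMap D K d) s L0 (2 * s * L0 + 1) (2 * s)) := by
      have h2 := congrArg (aeval t) (EE_mul_X (algebraMap D K d) hs0 hL0 (2 * s * L0 + 1) (2 * s))
      rw [map_mul, aeval_X, map_sub, map_one] at h2
      exact h2
    have h2 : w (aeval t (EE (algebraMap D K d) s L0 (2 * s * L0 + 1) (2 * s))) * w t ≤ 1 := by
      rw [← map_mul, h1]
      refine Valuation.map_sub_le _ (by rw [map_one]) (hH.trans (pow_le_one' hδ1.le _))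
    have h3 : w a ^ i * w b ^ (2 * s - i) ≤ w t := by
      rw [htval]
      calc w a ^ i * w b ^ (2 * s - i)
          ≤ max (w a) (w b) ^ i * max (w a) (w b) ^ (2 * s - i) :=
            mul_le_mul' (pow_le_pow_left' (le_max_left _ _) _)
              (pow_le_pow_left' (le_max_right _ _) _)
        _ = max (w a) (w b) ^ (2 * s) := by rw [← pow_add, Nat.add_sub_cancel' hi]
    rw [mul_assoc, map_mul, map_mul, map_pow, map_pow]
    exact (mul_le_mul_right h3 _).trans h2
  · have hd1 : O.valuation (algebraMap K L (algebraMap D K d)) = 1 := by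
      rw [← IsScalarTower.algebraMap_apply]
      exact h.eq_one hdP
    obtain ⟨h1, h2⟩ := HH_unit hd1 ht1 s L0 (2 * s * L0 + 1) (2 * s)
    refine ⟨?_, fun i _ => ?_⟩
    · rw [h.eq_one hdP, one_pow]
      exact h1
    · rw [map_mul, map_mul, map_pow, map_pow]
      exact mul_le_one' (mul_le_one' h2 (pow_le_one' ha _)) (pow_le_one' hb _)

end Pool.Agent.Q81.IP
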