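import Pool.Agent.Q81.IpRing
import Pool.Agent.Q81.IpT

/-! Integrally closed implies Pruefer (MP_6e749b_al). -/

namespace Pool.Agent.Q81.IP

open Polynomial

theorem mem_valuationSubring_of_isIntegral {D L : Type*} [CommRing D] [Field L] [Algebra D L]
    {O : ValuationSubring L} (hO : ∀ x : D, algebraMap D L x ∈ O) {α : L} (hα : IsIntegral D α) :
    α ∈ O := by
  obtain ⟨p, hp, hroot⟩ := hα
  let φ : D →+* O := (algebraMap D L).codRestrict O hO
  have h1 : IsIntegral O α := by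
    refine ⟨p.map φ, hp.map _, ?_⟩
    rw [eval₂_map]
    exact hroot
  obtain ⟨y, hy⟩ := IsIntegrallyClosed.isIntegral_iff.1 h1
  rw [← hy]
  exact y.2

section

variable {D : Type*} [CommRing D] [IsDomain D] {K : Type*} [Field K] [Algebra D K]
  [IsFractionRing D K] {B : Type*} [Ring B] [Algebra K B] [Algebra D B] [IsScalarTower D K B]
  {A : Subalgebra D B} {R : Subring K[X]}

theorem local_alt (hD : Good D) (hDi : IsIntegrallyClosed D) [Module.Finite D A]
    (hR : ∀ f : K[X], f ∈ R ↔ ∀ a ∈ A, aeval a f ∈ A) (hRi : IsIntegrallyClosed R)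
    {f g u v : D[X]} {d : D} (hd : d ≠ 0) (huv : u * f + v * g = C d) (P : Ideal R)
    (hP : P ≠ ⊤) :
    ∃ x y : R, x ∉ P ∧ ((x : K[X]) * f.map (algebraMap D K) = y * g.map (algebraMap D K) ∨
      (x : K[X]) * g.map (algebraMap D K) = y * f.map (algebraMap D K)) := by
  obtain ⟨n, hn1, hn⟩ := deg_bound (K := K) A
  obtain ⟨N, hN1, hN⟩ := hD.bdd d hd
  obtain ⟨s, hs⟩ : ∃ s, s = sexp N n := ⟨_, rfl⟩
  obtain ⟨L0, hL⟩ : ∃ L0, L0 = n.factorial * N.factorial := ⟨_, rfl⟩
  have hs0 : 0 < s := by rw [hs]; exact sexp_pos N n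
  have hL0 : 0 < L0 := by
    rw [hL]; exact Nat.mul_pos (Nat.factorial_pos _) (Nat.factorial_pos _)
  have hdK : algebraMap D K d ≠ 0 := by
    rw [Ne, map_eq_zero_iff _ (IsFractionRing.injective D K)]; exact hd
  obtain ⟨H, hH⟩ : ∃ H : K[X], H = HH (algebraMap D K d) s L0 (2 * s * L0 + 1) (2 * s) := ⟨_, rfl⟩
  obtain ⟨E, hE⟩ : ∃ E : K[X], E = EE (algebraMap D K d) s L0 (2 * s * L0 + 1) (2 * s) := ⟨_, rfl⟩
  obtain ⟨t, ht⟩ : ∃ t : D[X], t = f ^ (2 * s) - f ^ s * g ^ s + g ^ (2 * s) := ⟨_, rfl⟩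
  set f' := f.map (algebraMap D K) with hf'
  set g' := g.map (algebraMap D K) with hg'
  set u' := u.map (algebraMap D K) with hu'
  set v' := v.map (algebraMap D K) with hv'
  set t' := t.map (algebraMap D K) with ht'
  have ht'' : t' = f' ^ (2 * s) - f' ^ s * g' ^ s + g' ^ (2 * s) := by
    rw [ht', ht]
    simp only [Polynomial.map_add, Polynomial.map_sub, Polynomial.map_mul, Polynomial.map_pow]
    rfl
  have huv' : u' * f' + v' * g' = C (algebraMap D K d) := by
    have h1 := congrArg (Polynomial.map (algebraMap D K)) huv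
    simpa only [Polynomial.map_add, Polynomial.map_mul, map_C] using h1
  have hEH : E.comp t' * t' = 1 - H.comp t' := by
    have h1 := congrArg (fun p => p.comp t') (EE_mul_X (algebraMap D K d) hs0 hL0
      (2 * s * L0 + 1) (2 * s))
    simp only [mul_comp, X_comp, sub_comp, one_comp] at h1
    rw [hE, hH]
    exact h1
  -- the two families lie in `R`
  have hvals : ∀ p : K[X], [Fact (Irreducible p)] → ∀ O : ValuationSubring (AdjoinRoot p),
      Ctx D (AdjoinRoot p) n O → IsIntegral D (AdjoinRoot.root p) →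
      (O.valuation (aeval (AdjoinRoot.root p) (H.comp t')) ≤
        O.valuation (algebraMap D (AdjoinRoot p) d) ^ (2 * s) ∧
      ∀ i ≤ 2 * s, O.valuation (aeval (AdjoinRoot.root p)
        (E.comp t' * f' ^ i * g' ^ (2 * s - i))) ≤ 1) := by
    intro p _ O hO hint
    have hα : O.valuation (AdjoinRoot.root p) ≤ 1 :=
      (O.valuation_le_one_iff _).2 (mem_valuationSubring_of_isIntegral hO.mem hint)
    have hle : ∀ F : D[X], O.valuation (aeval (AdjoinRoot.root p) (F.map (algebraMap D K))) ≤ 1 := by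
      intro F
      refine eval_le_one_of_coeff hα fun i => ?_
      rw [coeff_map, ← IsScalarTower.algebraMap_apply]
      exact hO.le_one _
    have h1 := values (K := K) hO hD hd hN (a := aeval (AdjoinRoot.root p) f')
      (b := aeval (AdjoinRoot.root p) g') (u := aeval (AdjoinRoot.root p) u')
      (v := aeval (AdjoinRoot.root p) v') (hle f) (hle g) (hle u) (hle v) (by
        rw [← map_mul, ← map_mul, ← map_add, huv', aeval_C, ← IsScalarTower.algebraMap_apply])
      hs hL (t := aeval (AdjoinRoot.root p) t') (by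
        rw [ht'', map_add, map_sub, map_mul, map_pow, map_pow, map_pow, map_pow])
    rw [← hH, ← hE] at h1
    refine ⟨?_, fun i hi => ?_⟩
    · rw [aeval_comp]
      exact h1.1
    · have h2 : aeval (AdjoinRoot.root p) (E.comp t' * f' ^ i * g' ^ (2 * s - i)) =
          aeval (aeval (AdjoinRoot.root p) t') E * aeval (AdjoinRoot.root p) f' ^ i *
            aeval (AdjoinRoot.root p) g' ^ (2 * s - i) := by
        rw [map_mul, map_mul, map_pow, map_pow, aeval_comp]
      rw [h2]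
      exact h1.2 i hi
  have hintA : ∀ a ∈ A, IsIntegral D a := fun a ha => by
    have h1 : IsIntegral D (⟨a, ha⟩ : A) := IsIntegral.of_finite D _
    exact h1.map A.val
  have hna : ∀ a ∈ A, (minpoly K a).natDegree ≤ n := fun a ha => by
    have := hn a ha X
    rwa [aeval_X] at this
  have hmem : ∀ h : K[X], (∀ p : K[X], [Fact (Irreducible p)] →
      ∀ O : ValuationSubring (AdjoinRoot p), Ctx D (AdjoinRoot p) n O →
        IsIntegral D (AdjoinRoot.root p) → O.valuation (aeval (AdjoinRoot.root p) h) ≤ 1) →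
      h ∈ R := fun h hh =>
    mem_of_integral hD hDi hR hRi fun a ha => isIntegral_aeval (hintA a ha) (hna a ha)
      fun p _ O hO hint => (O.valuation_le_one_iff _).1 (hh p O hO hint)
  have hEmem : ∀ i ≤ 2 * s, E.comp t' * f' ^ i * g' ^ (2 * s - i) ∈ R := fun i hi =>
    hmem _ fun p _ O hO hint => (hvals p O hO hint).2 i hi
  set G : K[X] := C ((algebraMap D K d ^ (2 * s))⁻¹) * H.comp t' with hG
  have hGmem : G ∈ R := hmem _ fun p _ O hO hint => by
    have h1 := (hvals p O hO hint).1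
    have hdL : O.valuation (algebraMap D (AdjoinRoot p) d) ≠ 0 := by
      rw [Valuation.ne_zero_iff, Ne, map_eq_zero_iff _ hO.inj]
      exact hd
    rw [hG, map_mul, map_mul, aeval_C, map_inv₀, map_pow, ← IsScalarTower.algebraMap_apply,
      map_inv₀, map_pow]
    calc _ ≤ (O.valuation (algebraMap D (AdjoinRoot p) d) ^ (2 * s))⁻¹ *
          O.valuation (algebraMap D (AdjoinRoot p) d) ^ (2 * s) := mul_le_mul_right h1 _
      _ = 1 := inv_mul_cancel₀ (pow_ne_zero _ hdL)
  have hHG : H.comp t' = G * (u' * f' + v' * g') ^ (2 * s) := by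
    rw [huv', hG, ← C_pow, mul_right_comm, ← C_mul, inv_mul_cancel₀ (pow_ne_zero _ hdK), C_1,
      one_mul]
  -- the coefficients
  have hpm := poly_mem hR
  let c : ℕ → K[X] := fun j => G * (u' ^ j * v' ^ (2 * s - j) * ((2 * s).choose j : K[X])) +
    (if j = 2 * s then E.comp t' else 0) + (if j = 0 then E.comp t' else 0) -
      (if j = s then E.comp t' else 0)
  have hcmem : ∀ j, ∀ i ≤ 2 * s, c j * f' ^ i * g' ^ (2 * s - i) ∈ R := by
    intro j i hi
    have h0 : ∀ (q : Prop) [Decidable q],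
        (if q then E.comp t' else 0) * f' ^ i * g' ^ (2 * s - i) ∈ R := by
      intro q _
      split_ifs
      · exact hEmem i hi
      · rw [zero_mul, zero_mul]; exact R.zero_mem
    have h1 : c j * f' ^ i * g' ^ (2 * s - i) =
        G * (u' ^ j * v' ^ (2 * s - j) * ((2 * s).choose j : K[X])) * f' ^ i * g' ^ (2 * s - i) +
        (if j = 2 * s then E.comp t' else 0) * f' ^ i * g' ^ (2 * s - i) +
        (if j = 0 then E.comp t' else 0) * f' ^ i * g' ^ (2 * s - i) -
        (if j = s then E.comp t' else 0) * f' ^ i * g' ^ (2 * s - i) := by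
      simp only [c]; ring
    rw [h1]
    refine R.sub_mem (R.add_mem (R.add_mem ?_ (h0 _)) (h0 _)) (h0 _)
    refine R.mul_mem (R.mul_mem (R.mul_mem hGmem (R.mul_mem (R.mul_mem (pow_mem (hpm u) _)
      (pow_mem (hpm v) _)) ?_)) (pow_mem (hpm f) _)) (pow_mem (hpm g) _)
    exact natCast_mem R _
  have hsum : ∑ j ∈ Finset.range (2 * s + 1), c j * f' ^ j * g' ^ (2 * s - j) = 1 := by
    have h1 : ∀ j, c j * f' ^ j * g' ^ (2 * s - j) =
        G * ((u' * f') ^ j * (v' * g') ^ (2 * s - j) * ((2 * s).choose j : K[X])) +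
        (if j = 2 * s then E.comp t' * f' ^ j * g' ^ (2 * s - j) else 0) +
        (if j = 0 then E.comp t' * f' ^ j * g' ^ (2 * s - j) else 0) -
        (if j = s then E.comp t' * f' ^ j * g' ^ (2 * s - j) else 0) := by
      intro j
      simp only [c, mul_pow]
      split_ifs <;> ring
    simp only [h1]
    rw [Finset.sum_sub_distrib, Finset.sum_add_distrib, Finset.sum_add_distrib,
      ← Finset.mul_sum, ← add_pow, ← hHG, Finset.sum_ite_eq', Finset.sum_ite_eq',
      Finset.sum_ite_eq', if_pos (Finset.mem_range.2 (by omega)),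
      if_pos (Finset.mem_range.2 (by omega)), if_pos (Finset.mem_range.2 (by omega)),
      Nat.sub_self, pow_zero, pow_zero, mul_one, mul_one, Nat.sub_zero,
      show 2 * s - s = s by omega]
    have h2 : H.comp t' = 1 - E.comp t' * t' := by rw [hEH]; ring
    rw [h2, ht'']
    ring
  -- choose an index
  obtain ⟨j, hj, hjP⟩ : ∃ j, ∃ hj : j ≤ 2 * s, (⟨_, hcmem j j hj⟩ : R) ∉ P := by
    by_contra hcon
    push Not at hcon
    apply hP
    rw [Ideal.eq_top_iff_one]
    have h1 : (1 : R) = ∑ j : Fin (2 * s + 1),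
        (⟨_, hcmem j j (Nat.le_of_lt_succ j.2)⟩ : R) := by
      apply Subtype.ext
      rw [AddSubmonoidClass.coe_finsetSum]
      change (1 : K[X]) = ∑ j : Fin (2 * s + 1), c j * f' ^ (j : ℕ) * g' ^ (2 * s - j)
      rw [← hsum, Finset.sum_range]
    rw [h1]
    exact Ideal.sum_mem _ fun j _ => hcon j (Nat.le_of_lt_succ j.2)
  rcases Nat.lt_or_ge j (2 * s) with hlt | hge
  · refine ⟨⟨_, hcmem j j hj⟩, ⟨_, hcmem j (j + 1) hlt⟩, hjP, Or.inl ?_⟩
    change c j * f' ^ j * g' ^ (2 * s - j) * f' = c j * f' ^ (j + 1) * g' ^ (2 * s - (j + 1)) * g'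
    obtain ⟨k, hk⟩ := Nat.exists_eq_add_of_lt hlt
    rw [show 2 * s - j = k + 1 by omega, show 2 * s - (j + 1) = k by omega]
    ring
  · have hj2 : j = 2 * s := le_antisymm hj hge
    subst hj2
    refine ⟨⟨_, hcmem _ _ hj⟩, ⟨_, hcmem (2 * s) (2 * s - 1) (by omega)⟩, hjP, Or.inr ?_⟩
    change c (2 * s) * f' ^ (2 * s) * g' ^ (2 * s - 2 * s) * g' =
      c (2 * s) * f' ^ (2 * s - 1) * g' ^ (2 * s - (2 * s - 1)) * f'
    obtain ⟨k, hk⟩ := Nat.exists_eq_add_of_lt (show 0 < 2 * s by omega)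
    rw [show 2 * s - 2 * s = 0 by omega, show 2 * s - (2 * s - 1) = 1 by omega,
      show 2 * s - 1 = k by omega]
    have h1 : f' ^ (2 * s) = f' ^ k * f' := by rw [← pow_succ]; congr 1; omega
    rw [h1]
    ring

theorem exists_alt (hD : Good D) (hDi : IsIntegrallyClosed D) [Module.Finite D A]
    (hR : ∀ f : K[X], f ∈ R ↔ ∀ a ∈ A, aeval a f ∈ A) (hRi : IsIntegrallyClosed R)
    (P : Ideal R) (hP : P ≠ ⊤) (r₁ r₂ : R) (h₁ : r₁ ≠ 0) (h₂ : r₂ ≠ 0) :
    ∃ x y : R, x ∉ P ∧ (x * r₁ = y * r₂ ∨ x * r₂ = y * r₁) := by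
  classical
  have hinj := IsFractionRing.injective D K
  have h₁' : (r₁ : K[X]) ≠ 0 := fun h => h₁ (Subtype.ext h)
  have h₂' : (r₂ : K[X]) ≠ 0 := fun h => h₂ (Subtype.ext h)
  set γ := EuclideanDomain.gcd (r₁ : K[X]) r₂ with hγ
  obtain ⟨f0, hf0⟩ := EuclideanDomain.gcd_dvd_left (r₁ : K[X]) r₂
  obtain ⟨g0, hg0⟩ := EuclideanDomain.gcd_dvd_right (r₁ : K[X]) r₂
  have hab := EuclideanDomain.gcd_eq_gcd_ab (r₁ : K[X]) r₂
  set u0 := EuclideanDomain.gcdA (r₁ : K[X]) r₂ with hu0
  set v0 := EuclideanDomain.gcdB (r₁ : K[X]) r₂ with hv0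
  rw [← hγ] at hf0 hg0 hab
  have hγ0 : γ ≠ 0 := by
    intro h0
    rw [h0, zero_mul] at hf0
    exact h₁' hf0
  have hco : u0 * f0 + v0 * g0 = 1 := by
    have h1 : γ * (u0 * f0 + v0 * g0) = γ * 1 := by
      rw [mul_one]
      calc γ * (u0 * f0 + v0 * g0) = (γ * f0) * u0 + (γ * g0) * v0 := by ring
        _ = γ := by rw [← hf0, ← hg0]; exact hab.symm
    exact mul_left_cancel₀ hγ0 h1
  obtain ⟨d1, hd1, F, hF⟩ := exists_clear (D := D) f0
  obtain ⟨d2, hd2, G, hG⟩ := exists_clear (D := D) g0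
  obtain ⟨d3, hd3, U, hU⟩ := exists_clear (D := D) u0
  obtain ⟨d4, hd4, V, hV⟩ := exists_clear (D := D) v0
  have hne : ∀ x : D, x ≠ 0 → (C (algebraMap D K x) : K[X]) ≠ 0 := by
    intro x hx
    rw [C_ne_zero, Ne, map_eq_zero_iff _ hinj]
    exact hx
  have hF' : (C d2 * F).map (algebraMap D K) = C (algebraMap D K d1) * C (algebraMap D K d2) * f0 := by
    rw [Polynomial.map_mul, map_C, hF]; ring
  have hG' : (C d1 * G).map (algebraMap D K) = C (algebraMap D K d1) * C (algebraMap D K d2) * g0 := by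
    rw [Polynomial.map_mul, map_C, hG]; ring
  have huv : (C d4 * U) * (C d2 * F) + (C d3 * V) * (C d1 * G) = C (d1 * d2 * d3 * d4) := by
    apply Polynomial.map_injective _ hinj
    rw [Polynomial.map_add, Polynomial.map_mul (p := C d4 * U), Polynomial.map_mul (p := C d3 * V),
      hF', hG', Polynomial.map_mul, Polynomial.map_mul, map_C, map_C, map_C, hU, hV]
    simp only [map_mul]
    calc _ = C (algebraMap D K d1) * C (algebraMap D K d2) * C (algebraMap D K d3) *
          C (algebraMap D K d4) * (u0 * f0 + v0 * g0) := by ring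
      _ = _ := by rw [hco, mul_one]
  have hc0 : C (algebraMap D K d1) * C (algebraMap D K d2) ≠ 0 := mul_ne_zero (hne _ hd1) (hne _ hd2)
  have hf00 : f0 ≠ 0 := by
    rintro rfl
    rw [mul_zero] at hf0
    exact h₁' hf0
  have hg00 : g0 ≠ 0 := by
    rintro rfl
    rw [mul_zero] at hg0
    exact h₂' hg0
  obtain ⟨x, y, hx, hxy⟩ := local_alt hD hDi hR hRi
    (mul_ne_zero (mul_ne_zero (mul_ne_zero hd1 hd2) hd3) hd4) huv P hP
  rw [hF', hG'] at hxy
  refine ⟨x, y, hx, ?_⟩
  rcases hxy with hxy | hxy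
  · left
    apply Subtype.ext
    have h1 : (x : K[X]) * f0 = y * g0 := by
      apply mul_left_cancel₀ hc0
      calc _ = (x : K[X]) * (C (algebraMap D K d1) * C (algebraMap D K d2) * f0) := by ring
        _ = _ := by rw [hxy]; ring
    change (x : K[X]) * r₁ = y * r₂
    rw [hf0, hg0, mul_left_comm, h1]
    ring
  · right
    apply Subtype.ext
    have h1 : (x : K[X]) * g0 = y * f0 := by
      apply mul_left_cancel₀ hc0
      calc _ = (x : K[X]) * (C (algebraMap D K d1) * C (algebraMap D K d2) * g0) := by ring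
        _ = _ := by rw [hxy]; ring
    change (x : K[X]) * r₂ = y * r₁
    rw [hf0, hg0, mul_left_comm, h1]
    ring

theorem valuationRing (hD : Good D) (hDi : IsIntegrallyClosed D) [Module.Finite D A]
    (hR : ∀ f : K[X], f ∈ R ↔ ∀ a ∈ A, aeval a f ∈ A) (hRi : IsIntegrallyClosed R)
    (P : Ideal R) [P.IsPrime] : ValuationRing (Localization.AtPrime P) := by
  have key : ∀ a b : Localization.AtPrime P, ∃ c, a * c = b ∨ b * c = a := by
    intro a b
    obtain ⟨r₁, s₁, rfl⟩ := IsLocalization.exists_mk'_eq P.primeCompl a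
    obtain ⟨r₂, s₂, rfl⟩ := IsLocalization.exists_mk'_eq P.primeCompl b
    by_cases h₁ : r₁ = 0
    · exact ⟨0, Or.inr (by rw [h₁, IsLocalization.mk'_zero, mul_zero])⟩
    by_cases h₂ : r₂ = 0
    · exact ⟨0, Or.inl (by rw [h₂, IsLocalization.mk'_zero, mul_zero])⟩
    obtain ⟨x, y, hx, h⟩ := exists_alt hD hDi hR hRi P ‹P.IsPrime›.ne_top r₁ r₂ h₁ h₂
    rcases h with h | h
    · refine ⟨IsLocalization.mk' _ (y * s₂) (⟨x, hx⟩ * s₁), Or.inr ?_⟩
      rw [← IsLocalization.mk'_mul, IsLocalization.mk'_eq_iff_eq]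
      congr 1
      simp only [Submonoid.coe_mul]
      calc (s₁ : R) * (r₂ * (y * s₂)) = (y * r₂) * s₁ * s₂ := by ring
        _ = _ := by rw [← h]; ring
    · refine ⟨IsLocalization.mk' _ (y * s₁) (⟨x, hx⟩ * s₂), Or.inl ?_⟩
      rw [← IsLocalization.mk'_mul, IsLocalization.mk'_eq_iff_eq]
      congr 1
      simp only [Submonoid.coe_mul]
      calc (s₂ : R) * (r₁ * (y * s₁)) = (y * r₁) * s₁ * s₂ := by ring
        _ = _ := by rw [← h]; ring
  exact { cond' := key }

end

end Pool.Agent.Q81.IP
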