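import Pool.Agent.Q81.IpInt

/-! The ring of integer-valued polynomials on an algebra (MP_6e749b_al). -/

namespace Pool.Agent.Q81.IP

open Polynomial

section

variable {D : Type*} [CommRing D] [IsDomain D] {K : Type*} [Field K] [Algebra D K]
  [IsFractionRing D K] {B : Type*} [Ring B] [Algebra K B] [Algebra D B] [IsScalarTower D K B]
  {A : Subalgebra D B} {R : Subring K[X]}

omit [IsDomain D] [IsFractionRing D K] in
theorem poly_mem (hR : ∀ f : K[X], f ∈ R ↔ ∀ a ∈ A, aeval a f ∈ A) (F : D[X]) :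
    F.map (algebraMap D K) ∈ R := by
  rw [hR]
  intro a ha
  rw [aeval_map_algebraMap]
  have h1 := aeval_algHom_apply A.val (⟨a, ha⟩ : A) F
  rw [show A.val (⟨a, ha⟩ : A) = a from rfl] at h1
  rw [h1]
  exact (aeval (⟨a, ha⟩ : A) F).2

theorem isFractionRing (hR : ∀ f : K[X], f ∈ R ↔ ∀ a ∈ A, aeval a f ∈ A) :
    IsFractionRing R (FractionRing K[X]) := by
  have hinj : Function.Injective (algebraMap R (FractionRing K[X])) :=
    (IsFractionRing.injective K[X] (FractionRing K[X])).comp Subtype.val_injective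
  have : FaithfulSMul R (FractionRing K[X]) := (faithfulSMul_iff_algebraMap_injective _ _).2 hinj
  refine IsFractionRing.of_field R (FractionRing K[X]) fun z => ?_
  obtain ⟨p, q, hq, rfl⟩ := IsFractionRing.div_surjective (A := K[X]) z
  obtain ⟨d, hd, F, hF⟩ := exists_clear (D := D) p
  obtain ⟨e, he, G, hG⟩ := exists_clear (D := D) q
  have hdK : algebraMap D K d ≠ 0 := by
    rw [Ne, map_eq_zero_iff _ (IsFractionRing.injective D K)]; exact hd
  have heK : algebraMap D K e ≠ 0 := by
    rw [Ne, map_eq_zero_iff _ (IsFractionRing.injective D K)]; exact he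
  refine ⟨⟨_, poly_mem hR (C e * F)⟩, ⟨_, poly_mem hR (C d * G)⟩, ?_⟩
  change algebraMap K[X] (FractionRing K[X]) p / algebraMap K[X] (FractionRing K[X]) q =
    algebraMap K[X] (FractionRing K[X]) ((C e * F).map (algebraMap D K)) /
      algebraMap K[X] (FractionRing K[X]) ((C d * G).map (algebraMap D K))
  have hq0 : algebraMap K[X] (FractionRing K[X]) q ≠ 0 := by
    rw [Ne, map_eq_zero_iff _ (IsFractionRing.injective K[X] (FractionRing K[X]))]
    exact nonZeroDivisors.ne_zero hq
  have hG0 : algebraMap K[X] (FractionRing K[X]) ((C d * G).map (algebraMap D K)) ≠ 0 := by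
    rw [Ne, map_eq_zero_iff _ (IsFractionRing.injective K[X] (FractionRing K[X])),
      Polynomial.map_mul, hG, map_C]
    exact mul_ne_zero (C_ne_zero.2 hdK) (mul_ne_zero (C_ne_zero.2 heK) (nonZeroDivisors.ne_zero hq))
  rw [div_eq_div_iff hq0 hG0, ← map_mul, ← map_mul]
  congr 1
  rw [Polynomial.map_mul, Polynomial.map_mul, hF, hG, map_C, map_C]
  ring

theorem integral_of_values (hD : Good D) (hDi : IsIntegrallyClosed D) [Module.Finite D A]
    (hR : ∀ f : K[X], f ∈ R ↔ ∀ a ∈ A, aeval a f ∈ A) {f : K[X]}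
    (hf : ∀ a ∈ A, IsIntegral D (aeval a f)) : IsIntegral R f := by
  obtain ⟨n, hn1, hn⟩ := deg_bound (K := K) A
  obtain ⟨d, hd, F, hF⟩ := exists_clear (D := D) f
  obtain ⟨Φ, hΦ, hΦ0, hdiv⟩ := exists_uniform hD hd n hn1
  have hinjDK := IsFractionRing.injective D K
  -- the values of `Φ ∘ f`
  have hval : ∀ a ∈ A, aeval (aeval a f) Φ ∈ A := by
    intro a ha
    obtain ⟨ψ0, hψ0, hroot0⟩ := hf a ha
    have hroot0' : aeval (aeval a f) (ψ0.map (algebraMap D K)) = 0 := by
      rw [aeval_map_algebraMap]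
      exact hroot0
    have hdvd : minpoly K (aeval a f) ∣ ψ0.map (algebraMap D K) := minpoly.dvd _ _ hroot0'
    have hint : IsIntegral K (aeval a f) := ⟨_, hψ0.map _, hroot0'⟩
    obtain ⟨ψ, hψ⟩ := IsIntegrallyClosed.eq_map_mul_C_of_dvd K hψ0 hdvd
    rw [(minpoly.monic hint).leadingCoeff, C_1, mul_one] at hψ
    have hψm : ψ.Monic := by
      refine monic_of_injective hinjDK ?_
      rw [hψ]
      exact minpoly.monic hint
    have hψdeg : ψ.natDegree ≤ n := by
      rw [← natDegree_map_eq_of_injective hinjDK, hψ]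
      exact hn a ha f
    have hψroot : aeval (aeval a f) ψ = 0 := by
      rw [← aeval_map_algebraMap K, hψ, minpoly.aeval]
    rw [← aeval_modByMonic_eq_self_of_root hψroot, aeval_eq_sum_range]
    have hFa : aeval a F ∈ A := by
      have := (hR _).1 (poly_mem hR F) a ha
      rwa [aeval_map_algebraMap] at this
    have hFa' : aeval a F = d • aeval a f := by
      rw [← aeval_map_algebraMap K, hF, map_mul, aeval_C, ← IsScalarTower.algebraMap_apply,
        Algebra.smul_def]
    refine Subalgebra.sum_mem _ fun i hi => ?_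
    rw [Finset.mem_range] at hi
    by_cases hdeg0 : ψ.natDegree = 0
    · have h1 : ψ = 1 := hψm.natDegree_eq_zero.1 hdeg0
      rw [h1, modByMonic_one, coeff_zero, zero_smul]
      exact Subalgebra.zero_mem _
    · have hlt : (Φ %ₘ ψ).natDegree < ψ.natDegree :=
        natDegree_modByMonic_lt _ hψm (fun h => hdeg0 (by rw [h, natDegree_one]))
      obtain ⟨r, hr⟩ := hdiv ψ hψm hψdeg i
      obtain ⟨k, hk⟩ := Nat.exists_eq_add_of_le (show i ≤ n by omega)
      have h2 : (Φ %ₘ ψ).coeff i • (aeval a f) ^ i = (d ^ k * r) • (aeval a F) ^ i := by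
        rw [hFa', _root_.smul_pow, smul_smul, hr, hk]
        congr 1
        ring
      rw [h2]
      exact Subalgebra.smul_mem _ (pow_mem hFa _) _
  have hP : (Φ.map (algebraMap D K)).comp f ∈ R := by
    rw [hR]
    intro a ha
    rw [aeval_comp, aeval_map_algebraMap]
    exact hval a ha
  -- integrality over `R`
  let ι : D →+* R := ((C : K →+* K[X]).comp (algebraMap D K)).codRestrict R (fun x => by
    have := poly_mem hR (C x)
    rwa [map_C] at this)
  refine ⟨Φ.map ι - C ⟨_, hP⟩, ?_, ?_⟩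
  · refine (hΦ.map ι).sub_of_left ?_
    refine lt_of_le_of_lt degree_C_le ?_
    rw [hΦ.degree_map]
    exact natDegree_pos_iff_degree_pos.1 hΦ0
  · rw [eval₂_sub, eval₂_C, eval₂_map, sub_eq_zero]
    change eval₂ ((C : K →+* K[X]).comp (algebraMap D K)) f Φ =
      (Φ.map (algebraMap D K)).comp f
    rw [comp, eval₂_map]

theorem mem_of_integral (hD : Good D) (hDi : IsIntegrallyClosed D) [Module.Finite D A]
    (hR : ∀ f : K[X], f ∈ R ↔ ∀ a ∈ A, aeval a f ∈ A) (hRi : IsIntegrallyClosed R) {f : K[X]}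
    (hf : ∀ a ∈ A, IsIntegral D (aeval a f)) : f ∈ R := by
  have := isFractionRing hR
  let Q := FractionRing K[X]
  have hint : IsIntegral R (algebraMap K[X] Q f) := (integral_of_values hD hDi hR hf).algebraMap
  obtain ⟨y, hy⟩ := (isIntegrallyClosed_iff Q).1 hRi hint
  have h2 : algebraMap K[X] Q (y : K[X]) = algebraMap K[X] Q f := hy
  rw [← IsFractionRing.injective K[X] Q h2]
  exact y.2

omit [IsDomain D] [IsFractionRing D K] in
theorem values_of_integral_aux [Module.Finite D A]
    (hR : ∀ f : K[X], f ∈ R ↔ ∀ a ∈ A, aeval a f ∈ A) {f : K[X]} (hf : IsIntegral R f)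
    {a : B} (ha : a ∈ A) {E : Type*} [CommRing E] [Algebra D E] (q : K[X] →+* E) (κ : E →ₐ[D] B)
    (hκ : Function.Injective κ) (hκ' : ∀ g : K[X], κ (q g) = aeval a g) :
    IsIntegral D (aeval a f) := by
  have hgint : ∀ g ∈ R, IsIntegral D (q g) := by
    intro g hg
    have h1 : IsIntegral D (aeval a g) := by
      have h2 : IsIntegral D (⟨aeval a g, (hR g).1 hg a ha⟩ : A) := IsIntegral.of_finite D _
      exact h2.map A.val
    rw [← hκ'] at h1
    exact (isIntegral_algHom_iff κ hκ).1 h1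
  let C' : Subalgebra D E := integralClosure D E
  obtain ⟨p, hp, hroot⟩ := hf
  let φ : R →+* C' := (q.comp R.subtype).codRestrict C' (fun g => hgint g g.2)
  have h1 : IsIntegral C' (q f) := by
    refine ⟨p.map φ, hp.map _, ?_⟩
    rw [eval₂_map]
    have h2 : (algebraMap C' E).comp φ = q.comp (algebraMap R K[X]) := rfl
    rw [h2, ← hom_eval₂, hroot, map_zero]
  have h3 : IsIntegral D (q f) := isIntegral_trans _ h1
  have h4 := h3.map κ
  rwa [hκ'] at h4

omit [IsDomain D] [IsFractionRing D K] in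
theorem values_of_integral [Module.Finite D A]
    (hR : ∀ f : K[X], f ∈ R ↔ ∀ a ∈ A, aeval a f ∈ A) {f : K[X]} (hf : IsIntegral R f)
    {a : B} (ha : a ∈ A) : IsIntegral D (aeval a f) := by
  obtain ⟨φ, hφ⟩ : ∃ φ : K[X] →ₐ[K] B, φ = aeval a := ⟨_, rfl⟩
  obtain ⟨I, hI⟩ : ∃ I : Ideal K[X], ∀ g, g ∈ I ↔ φ g = 0 :=
    ⟨{ carrier := {g | φ g = 0}
       zero_mem' := map_zero φ
       add_mem' := fun {x y} hx hy => by
         change φ (x + y) = 0
         rw [map_add, show φ x = 0 from hx, show φ y = 0 from hy, add_zero]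
       smul_mem' := fun c x hx => by
         change φ (c * x) = 0
         rw [map_mul, show φ x = 0 from hx, mul_zero] }, fun g => Iff.rfl⟩
  let κ : (K[X] ⧸ I) →ₐ[K] B := Ideal.Quotient.liftₐ I φ (fun g hg => (hI g).1 hg)
  have hκ' : ∀ g : K[X], κ (Ideal.Quotient.mk I g) = φ g := fun g => rfl
  have hκ : Function.Injective κ := by
    rw [injective_iff_map_eq_zero]
    intro x hx
    obtain ⟨g, rfl⟩ := Ideal.Quotient.mk_surjective x
    rw [hκ'] at hx
    exact Ideal.Quotient.eq_zero_iff_mem.2 ((hI g).2 hx)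
  exact values_of_integral_aux hR hf ha (Ideal.Quotient.mk I) (κ.restrictScalars D) hκ
    (fun g => by rw [← hφ]; exact hκ' g)

/-- The integral closure of the ring of integer-valued polynomials. -/
theorem integral_iff (hD : Good D) (hDi : IsIntegrallyClosed D) [Module.Finite D A]
    (hR : ∀ f : K[X], f ∈ R ↔ ∀ a ∈ A, aeval a f ∈ A) (x : FractionRing K[X]) :
    IsIntegral R x ↔ ∃ f : K[X], algebraMap K[X] (FractionRing K[X]) f = x ∧
      ∀ a ∈ A, IsIntegral D (aeval a f) := by
  constructor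
  · intro hx
    have h1 : IsIntegral K[X] x := hx.tower_top
    obtain ⟨f, rfl⟩ := IsIntegrallyClosed.isIntegral_iff.1 h1
    refine ⟨f, rfl, fun a ha => values_of_integral hR ?_ ha⟩
    exact (isIntegral_algebraMap_iff (IsFractionRing.injective K[X] (FractionRing K[X]))).1 hx
  · rintro ⟨f, rfl, hf⟩
    exact (integral_of_values hD hDi hR hf).algebraMap

end

end Pool.Agent.Q81.IP
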