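import Pool.Agent.Q81.IpFin

/-! Valuation rings of extensions of bounded degree (MP_6e749b_al). -/

namespace Pool.Agent.Q81.IP

open Polynomial

/-- A multiple of a polynomial by an element outside `M` is a power of the uniformizer times a
polynomial that does not vanish modulo `M`. -/
theorem exists_primitive {D : Type*} [CommRing D] [IsDomain D] (hD : Good D) {M : Ideal D}
    (hM : M.IsMaximal) {p : D[X]} (hp : p ≠ 0) :
    ∃ (π σ : D) (v : ℕ) (p' : D[X]), π ∈ M ∧ (∀ d ∈ M, d ≠ 0 → π ≠ 0) ∧ σ ∉ M ∧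
      C σ * p = C (π ^ v) * p' ∧ p'.natDegree ≤ p.natDegree ∧ ∃ i, p'.coeff i ∉ M := by
  classical
  obtain ⟨π, hπ, h1, h2⟩ := pow_mem_local hD hM
  have hprime := hM.isPrime
  have h1M : (1 : D) ∉ M := fun h1 => hM.ne_top (M.eq_top_of_isUnit_mem h1 isUnit_one)
  have hπ0 : ∀ d ∈ M, d ≠ 0 → π ≠ 0 := by
    rintro d hd hd0 rfl
    obtain ⟨s, hs, c, hc⟩ := h2 1 d (by rwa [pow_one])
    rw [pow_one, zero_mul] at hc
    rcases mul_eq_zero.1 hc with h | h
    · exact hs (h ▸ Ideal.zero_mem _)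
    · exact hd0 h
  have hch : ∀ i : ℕ, ∃ (j : ℕ) (s s' : D), s ∉ M ∧ (p.coeff i ≠ 0 → s' ∉ M) ∧
      s * p.coeff i = s' * π ^ j := by
    intro i
    by_cases hi : p.coeff i = 0
    · exact ⟨0, 1, 0, h1M, fun h => absurd hi h, by rw [hi]; ring⟩
    · obtain ⟨j, s, s', hs, hs', he⟩ := h1 _ hi
      exact ⟨j, s, s', hs, fun _ => hs', he⟩
  choose j s s' hs hs' he using hch
  obtain ⟨i0, hi0, hmin⟩ := Finset.exists_min_image p.support j (support_nonempty.2 hp)
  refine ⟨π, ∏ i ∈ p.support, s i, j i0,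
    ∑ i ∈ p.support, monomial i ((∏ k ∈ p.support.erase i, s k) * s' i * π ^ (j i - j i0)),
    hπ, hπ0, ?_, ?_, ?_, i0, ?_⟩
  · intro hc
    obtain ⟨i, _, hi⟩ := (Ideal.IsPrime.prod_mem_iff).1 hc
    exact hs i hi
  · ext i
    rw [coeff_C_mul, coeff_C_mul, finsetSum_coeff]
    by_cases hi : i ∈ p.support
    · rw [Finset.sum_eq_single i (fun k _ hk => by rw [coeff_monomial, if_neg hk])
        (fun h => absurd hi h), coeff_monomial, if_pos rfl, ← Finset.mul_prod_erase _ _ hi]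
      calc (s i * ∏ k ∈ p.support.erase i, s k) * p.coeff i
          = (∏ k ∈ p.support.erase i, s k) * (s i * p.coeff i) := by ring
        _ = (∏ k ∈ p.support.erase i, s k) * s' i * π ^ (j i0 + (j i - j i0)) := by
            rw [he, Nat.add_sub_cancel' (hmin i hi)]; ring
        _ = _ := by rw [pow_add]; ring
    · rw [notMem_support_iff.1 hi, mul_zero, Finset.sum_eq_zero, mul_zero]
      intro k hk
      rw [coeff_monomial, if_neg]
      rintro rfl
      exact hi hk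
  · refine natDegree_sum_le_of_forall_le _ _ fun i hi => ?_
    exact (natDegree_monomial_le _).trans (le_natDegree_of_mem_supp i hi)
  · rw [finsetSum_coeff, Finset.sum_eq_single i0 (fun k _ hk => by rw [coeff_monomial, if_neg hk])
        (fun h => absurd hi0 h), coeff_monomial, if_pos rfl, Nat.sub_self, pow_zero, mul_one]
    intro hc
    rcases hprime.mem_or_mem hc with h | h
    · obtain ⟨i, _, hi⟩ := (Ideal.IsPrime.prod_mem_iff).1 h
      exact hs i hi
    · exact hs' i0 (mem_support_iff.1 hi0) h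

section

variable {D : Type*} [CommRing D] [IsDomain D] {L : Type*} [Field L] [Algebra D L]

/-- The standing assumptions. -/
structure Ctx (D : Type*) [CommRing D] (L : Type*) [Field L] [Algebra D L] (n : ℕ)
    (O : ValuationSubring L) : Prop where
  inj : Function.Injective (algebraMap D L)
  alg : ∀ τ : L, ∃ p : D[X], p ≠ 0 ∧ p.natDegree ≤ n ∧ aeval τ p = 0
  mem : ∀ x : D, algebraMap D L x ∈ O

variable {n : ℕ} {O : ValuationSubring L}

omit [IsDomain D] in
theorem Ctx.le_one (h : Ctx D L n O) (x : D) : O.valuation (algebraMap D L x) ≤ 1 :=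
  (O.valuation_le_one_iff _).2 (h.mem x)

/-- The structure map to the valuation ring. -/
noncomputable def Ctx.φ (h : Ctx D L n O) : D →+* O := (algebraMap D L).codRestrict O h.mem

omit [IsDomain D] in
theorem Ctx.coe_φ (h : Ctx D L n O) (x : D) : ((h.φ x : O) : L) = algebraMap D L x := rfl

/-- The centre. -/
noncomputable def Ctx.P (h : Ctx D L n O) : Ideal D := (IsLocalRing.maximalIdeal O).comap h.φ

omit [IsDomain D] in
theorem Ctx.mem_P (h : Ctx D L n O) (x : D) : x ∈ h.P ↔ O.valuation (algebraMap D L x) < 1 := by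
  rw [Ctx.P, Ideal.mem_comap, ValuationSubring.valuation_lt_one_iff, h.coe_φ]

omit [IsDomain D] in
theorem Ctx.P_prime (h : Ctx D L n O) : h.P.IsPrime := Ideal.comap_isPrime _ _

omit [IsDomain D] in
theorem Ctx.eq_one (h : Ctx D L n O) {x : D} (hx : x ∉ h.P) :
    O.valuation (algebraMap D L x) = 1 :=
  le_antisymm (h.le_one x) (not_lt.1 fun hc => hx ((h.mem_P x).2 hc))

theorem Ctx.pow_sub_one_lt (h : Ctx D L n O) (hD : Good D) {d : D} (hd : d ≠ 0)
    (hdP : d ∈ h.P) {N : ℕ} (hN : ∀ M : Ideal D, M.IsMaximal → d ∈ M →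
      Finite (D ⧸ M) ∧ Nat.card (D ⧸ M) ≤ N) {τ : L} (hτ : O.valuation τ = 1) :
    O.valuation (τ ^ sexp N n - 1) < 1 := by
  have hM : h.P.IsMaximal := prime_maximal hD h.P_prime hdP hd
  obtain ⟨hfin, hcard⟩ := hN _ hM hdP
  obtain ⟨p, hp, hdeg, hroot⟩ := h.alg τ
  obtain ⟨π, σ, v, p', hπ, hπ0, hσ, he, hdeg', i, hi⟩ := exists_primitive hD hM hp
  have hτO : τ ∈ O := (O.valuation_le_one_iff _).1 hτ.le
  have hπL : algebraMap D L π ≠ 0 := by
    rw [Ne, map_eq_zero_iff _ h.inj]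
    exact hπ0 d hdP hd
  have hroot' : aeval τ p' = 0 := by
    have h1 : aeval τ (C (π ^ v) * p') = 0 := by rw [← he, map_mul, hroot, mul_zero]
    rw [map_mul, aeval_C, map_pow] at h1
    exact (mul_eq_zero.1 h1).resolve_left (pow_ne_zero _ hπL)
  let _ : Field (D ⧸ h.P) := Ideal.Quotient.field h.P
  let κ := IsLocalRing.ResidueField O
  let ρ : O →+* κ := IsLocalRing.residue O
  let ψ : D ⧸ h.P →+* κ := Ideal.Quotient.lift h.P (ρ.comp h.φ) (fun a ha => by
    rw [RingHom.comp_apply]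
    exact (IsLocalRing.residue_eq_zero_iff _).2 ha)
  let _ : Algebra (D ⧸ h.P) κ := ψ.toAlgebra
  set t : O := ⟨τ, hτO⟩ with ht
  have h2 : eval₂ h.φ t p' = 0 := by
    have h3 : ((eval₂ h.φ t p' : O) : L) = aeval τ p' := by
      have h4 := hom_eval₂ p' h.φ O.subtype t
      rw [show ((eval₂ h.φ t p' : O) : L) = O.subtype (eval₂ h.φ t p') from rfl, h4, aeval_def]
      rfl
    rw [hroot'] at h3
    exact Subtype.ext h3
  have h5 : aeval (ρ t) (p'.map (Ideal.Quotient.mk h.P)) = 0 := by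
    rw [aeval_def, eval₂_map]
    have h6 : (algebraMap (D ⧸ h.P) κ).comp (Ideal.Quotient.mk h.P) = ρ.comp h.φ := by
      ext x
      rfl
    rw [h6, ← hom_eval₂, h2, map_zero]
  have hne : p'.map (Ideal.Quotient.mk h.P) ≠ 0 := by
    intro h0
    apply hi
    rw [← Ideal.Quotient.eq_zero_iff_mem, ← coeff_map, h0, coeff_zero]
  have h6 := root_pow hcard hne ((natDegree_map_le).trans (hdeg'.trans hdeg)) h5
  have h7 : ρ t ≠ 0 := by
    intro h0
    have h8 := (IsLocalRing.residue_eq_zero_iff _).1 h0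
    rw [ValuationSubring.valuation_lt_one_iff] at h8
    exact absurd hτ h8.ne
  have h8 : ρ (t ^ sexp N n - 1) = 0 := by
    rw [map_sub, map_pow, map_one, sub_eq_zero]
    have h9 : ρ t ^ sexp N n * ρ t = 1 * ρ t := by rw [← pow_succ, h6, one_mul]
    exact mul_right_cancel₀ h7 h9
  have h9 := (IsLocalRing.residue_eq_zero_iff _).1 h8
  rw [ValuationSubring.valuation_lt_one_iff] at h9
  exact h9

theorem Ctx.pow_eq (h : Ctx D L n O) (hD : Good D) {d : D} (hd : d ≠ 0)
    (hdP : d ∈ h.P) {N : ℕ} (hN : ∀ M : Ideal D, M.IsMaximal → d ∈ M → d ∉ M ^ (N + 1))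
    {τ : L} (hτ : O.valuation τ ≤ 1) (hτ0 : τ ≠ 0) :
    ∃ B : ℕ, O.valuation τ ^ (n.factorial * N.factorial) = O.valuation (algebraMap D L d) ^ B := by
  have hM : h.P.IsMaximal := prime_maximal hD h.P_prime hdP hd
  obtain ⟨π, hπ, h1, h2⟩ := pow_mem_local hD hM
  obtain ⟨p, hp, hdeg, hroot⟩ := h.alg τ
  -- two terms have the same value
  obtain ⟨i, j, hij, hi, hj, hval⟩ : ∃ i j, i < j ∧ p.coeff i ≠ 0 ∧ p.coeff j ≠ 0 ∧
      O.valuation (algebraMap D L (p.coeff i) * τ ^ i) =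
        O.valuation (algebraMap D L (p.coeff j) * τ ^ j) := by
    obtain ⟨i, hi, hmax⟩ := Finset.exists_max_image p.support
      (fun i => O.valuation (algebraMap D L (p.coeff i) * τ ^ i)) (support_nonempty.2 hp)
    have hne : algebraMap D L (p.coeff i) * τ ^ i ≠ 0 := by
      refine mul_ne_zero ?_ (pow_ne_zero _ hτ0)
      rw [Ne, map_eq_zero_iff _ h.inj]
      exact mem_support_iff.1 hi
    obtain ⟨j, hj, hji, hjv⟩ : ∃ j ∈ p.support, j ≠ i ∧
        O.valuation (algebraMap D L (p.coeff i) * τ ^ i) ≤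
          O.valuation (algebraMap D L (p.coeff j) * τ ^ j) := by
      by_contra hcon
      push Not at hcon
      have h3 : ∑ k ∈ p.support, algebraMap D L (p.coeff k) * τ ^ k = 0 := by
        rw [← hroot, aeval_def, eval₂_eq_sum, Polynomial.sum]
      rw [← Finset.add_sum_erase _ _ hi] at h3
      have h4 : O.valuation (∑ k ∈ p.support.erase i, algebraMap D L (p.coeff k) * τ ^ k) <
          O.valuation (algebraMap D L (p.coeff i) * τ ^ i) :=
        Valuation.map_sum_lt _ ((Valuation.ne_zero_iff _).2 hne) fun k hk =>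
          hcon k (Finset.mem_of_mem_erase hk) (Finset.ne_of_mem_erase hk)
      have h5 := eq_neg_of_add_eq_zero_left h3
      rw [← Valuation.map_neg, ← h5] at h4
      exact lt_irrefl _ h4
    have heq := le_antisymm hjv (hmax j hj)
    rcases lt_or_gt_of_ne hji with hlt | hlt
    · exact ⟨j, i, hlt, mem_support_iff.1 hj, mem_support_iff.1 hi, heq.symm⟩
    · exact ⟨i, j, hlt, mem_support_iff.1 hi, mem_support_iff.1 hj, heq⟩
  have hjn : j ≤ n := (le_natDegree_of_ne_zero hj).trans hdeg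
  set w := O.valuation with hw
  set ϖ := w (algebraMap D L π) with hϖ
  have hv : ∀ x : D, x ≠ 0 → ∃ j : ℕ, w (algebraMap D L x) = ϖ ^ j ∧
      ∃ s s', s ∉ h.P ∧ s' ∉ h.P ∧ s * x = s' * π ^ j := by
    intro x hx
    obtain ⟨j, s, s', hs, hs', he⟩ := h1 x hx
    refine ⟨j, ?_, s, s', hs, hs', he⟩
    have h3 := congrArg (fun z => w (algebraMap D L z)) he
    simp only [map_mul, map_pow] at h3
    rw [h.eq_one hs, h.eq_one hs', one_mul, one_mul] at h3
    exact h3
  obtain ⟨vi, hvi, _⟩ := hv _ hi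
  obtain ⟨vj, hvj, _⟩ := hv _ hj
  obtain ⟨v, hvd, s, s', hs, hs', he⟩ := hv d hd
  have hvN : v ≤ N := val_le hM hπ hs he (hN _ hM hdP)
  have hd1 : w (algebraMap D L d) < 1 := (h.mem_P d).1 hdP
  have hv0 : 1 ≤ v := by
    by_contra hc
    rw [hvd, show v = 0 by omega, pow_zero] at hd1
    exact lt_irrefl _ hd1
  have hϖ1 : ϖ < 1 := (h.mem_P π).1 hπ
  have hϖ0 : ϖ ≠ 0 := by
    intro h0
    rw [h0, zero_pow (by omega)] at hvd
    have h3 := (Valuation.zero_iff _).1 hvd
    exact hd ((map_eq_zero_iff _ h.inj).1 h3)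
  have hτw : w τ ≠ 0 := (Valuation.ne_zero_iff _).2 hτ0
  obtain ⟨m, rfl⟩ := Nat.exists_eq_add_of_lt hij
  have h3 : ϖ ^ vi = ϖ ^ vj * w τ ^ (m + 1) := by
    rw [map_mul, map_mul, map_pow, map_pow, hvi, hvj] at hval
    have h4 : w τ ^ i * ϖ ^ vi = w τ ^ i * (ϖ ^ vj * w τ ^ (m + 1)) := by
      rw [mul_comm, hval, show i + m + 1 = i + (m + 1) by ring, pow_add]
      exact mul_left_comm _ _ _
    exact mul_left_cancel₀ (pow_ne_zero _ hτw) h4
  have h4 : vj ≤ vi := by
    by_contra hc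
    push Not at hc
    have h5 : ϖ ^ vj * w τ ^ (m + 1) ≤ ϖ ^ vj :=
      mul_le_of_le_one_right' (pow_le_one' hτ _)
    rw [← h3] at h5
    have h6 : ϖ ^ vj < ϖ ^ vi := pow_lt_pow_right_of_lt_one₀ (zero_lt_iff.2 hϖ0) hϖ1 hc
    exact absurd h5 (not_le.2 h6)
  obtain ⟨b, rfl⟩ := Nat.exists_eq_add_of_le h4
  have h5 : w τ ^ (m + 1) = ϖ ^ b := by
    rw [pow_add] at h3
    exact (mul_left_cancel₀ (pow_ne_zero _ hϖ0) h3).symm
  obtain ⟨r, hr⟩ : (m + 1) * v ∣ n.factorial * N.factorial :=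
    mul_dvd_mul (Nat.dvd_factorial (by omega) (by omega)) (Nat.dvd_factorial (by omega) hvN)
  refine ⟨b * r, ?_⟩
  rw [hr, hvd, ← pow_mul, show (m + 1) * v * r = (m + 1) * (v * r) by ring, pow_mul, h5, ← pow_mul]
  congr 1
  ring

end

end Pool.Agent.Q81.IP
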