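import Mathlib

/-!
# Visits of a dense orbit without density
-/

namespace Q81.Irreg

open Filter Topology Set

/-- Number of elements of `V` in `[0, N]`. -/
noncomputable def cnt (V : Set ℕ) (N : ℕ) : ℕ := (V ∩ Set.Icc 0 N).ncard


lemma finite_inter (V : Set ℕ) (N : ℕ) : (V ∩ Set.Icc 0 N).Finite :=
  (Set.finite_Icc 0 N).subset inter_subset_right

/-- A set with gaps larger than `K` is sparse. -/
lemma cnt_le_of_gaps {V : Set ℕ} {K : ℕ} (h : ∀ m ∈ V, ∀ k, 1 ≤ k → k ≤ K → m + k ∉ V) (N : ℕ) :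
    cnt V N ≤ N / (K + 1) + 1 := by
  have hinj : Set.InjOn (fun m => m / (K + 1)) (V ∩ Set.Icc 0 N) := by
    have aux : ∀ m ∈ V, ∀ m' ∈ V, m < m' → m / (K + 1) = m' / (K + 1) → False := by
      intro m hm m' hm' hlt he
      have h1 := Nat.div_add_mod m (K + 1)
      have h2 := Nat.div_add_mod m' (K + 1)
      have h3 := Nat.mod_lt m' (show 0 < K + 1 by omega)
      rw [he] at h1
      have h4 : m' - m ≤ K := by omega
      exact h m hm (m' - m) (by omega) h4 (by rwa [Nat.add_sub_cancel' hlt.le])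
    rintro m ⟨hm, -⟩ m' ⟨hm', -⟩ he
    rcases lt_trichotomy m m' with h1 | h1 | h1
    · exact (aux m hm m' hm' h1 he).elim
    · exact h1
    · exact (aux m' hm' m hm h1 he.symm).elim
  have hsub : (fun m => m / (K + 1)) '' (V ∩ Set.Icc 0 N) ⊆ Set.Icc 0 (N / (K + 1)) := by
    rintro _ ⟨m, ⟨-, -, hm⟩, rfl⟩
    exact ⟨Nat.zero_le _, Nat.div_le_div_right hm⟩
  rw [cnt, ← hinj.ncard_image]
  refine (Set.ncard_le_ncard hsub (Set.finite_Icc _ _)).trans ?_
  rw [Set.ncard_eq_toFinset_card']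
  simp

variable {𝕜 X : Type*} [RCLike 𝕜] [NormedAddCommGroup X] [NormedSpace 𝕜 X]

/-- The orbit of a vector with dense orbit is injective. -/
lemma orbit_injective [Nontrivial X] (T : X →L[𝕜] X) (x : X)
    (hd : Dense (Set.range fun n : ℕ => (T ^ n) x)) {m n : ℕ} (hmn : m < n) :
    (T ^ m) x ≠ (T ^ n) x := by
  intro he
  have hshift : ∀ j, (T ^ (m + j)) x = (T ^ (n + j)) x := by
    intro j
    rw [add_comm m j, add_comm n j, pow_add, pow_add]
    show (T ^ j) ((T ^ m) x) = (T ^ j) ((T ^ n) x)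
    rw [he]
  have hfin : (Set.range fun n : ℕ => (T ^ n) x) ⊆ (fun k : ℕ => (T ^ k) x) '' Set.Iio n := by
    rintro _ ⟨k, rfl⟩
    induction k using Nat.strong_induction_on with
    | _ k ih =>
      rcases lt_or_ge k n with hk | hk
      · exact ⟨k, hk, rfl⟩
      · have h1 := hshift (k - n)
        have h2 : n + (k - n) = k := by omega
        rw [h2] at h1
        have h3 := ih (m + (k - n)) (by omega)
        simp only at h3 ⊢
        rw [← h1]
        exact h3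
  have hfin2 : (Set.range fun n : ℕ => (T ^ n) x).Finite :=
    ((Set.finite_Iio n).image _).subset hfin
  have huniv : (Set.univ : Set X).Finite := by
    have := hd.closure_eq
    rw [hfin2.isClosed.closure_eq] at this
    rw [← this]
    exact hfin2
  obtain ⟨v, hv⟩ := exists_ne (0 : X)
  have hinf : Infinite X := by
    refine Infinite.of_injective (fun k : ℕ => (k : 𝕜) • v) fun a b hab => ?_
    have : ((a : 𝕜) - b) • v = 0 := by rw [sub_smul]; exact sub_eq_zero.2 hab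
    rcases smul_eq_zero.1 this with h | h
    · exact_mod_cast sub_eq_zero.1 h
    · exact absurd h hv
  exact (Set.infinite_univ (α := X)) huniv

/-- Visits to small balls around a point with injective orbit have large gaps. -/
lemma exists_ball_gaps (T : X →L[𝕜] X) (x y : X) (K : ℕ)
    (hy : ∀ k, 1 ≤ k → k ≤ K → (T ^ k) y ≠ y) :
    ∃ ε > 0, ∀ m, (T ^ m) x ∈ Metric.ball y ε → ∀ k, 1 ≤ k → k ≤ K →
      (T ^ (m + k)) x ∉ Metric.ball y ε := by
  have hsingle : ∀ k, 1 ≤ k → k ≤ K → ∃ ε > 0, ∀ ε' ≤ ε, ∀ m, (T ^ m) x ∈ Metric.ball y ε' →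
      (T ^ (m + k)) x ∉ Metric.ball y ε' := by
    intro k hk1 hk2
    have hpos : 0 < ‖(T ^ k) y - y‖ := norm_pos_iff.2 (sub_ne_zero.2 (hy k hk1 hk2))
    refine ⟨‖(T ^ k) y - y‖ / (‖T ^ k‖ + 1), by positivity, fun ε' hε' m h1 h2 => ?_⟩
    rw [Metric.mem_ball, dist_eq_norm] at h1 h2
    have h3 : (T ^ (m + k)) x = (T ^ k) ((T ^ m) x) := by
      rw [add_comm, pow_add]; rfl
    rw [h3] at h2
    have h4 : ‖(T ^ k) (y - (T ^ m) x)‖ ≤ ‖T ^ k‖ * ‖y - (T ^ m) x‖ := (T ^ k).le_opNorm _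
    have h5 : (T ^ k) y - y = (T ^ k) (y - (T ^ m) x) + ((T ^ k) ((T ^ m) x) - y) := by
      rw [map_sub]; abel
    have h6 : ‖(T ^ k) y - y‖ ≤ ‖T ^ k‖ * ‖y - (T ^ m) x‖ + ‖(T ^ k) ((T ^ m) x) - y‖ := by
      rw [h5]; exact (norm_add_le _ _).trans (by linarith)
    rw [norm_sub_rev] at h1
    have h7 : ‖T ^ k‖ * ‖y - (T ^ m) x‖ ≤ ‖T ^ k‖ * ε' :=
      mul_le_mul_of_nonneg_left h1.le (norm_nonneg _)
    have h8 : (‖T ^ k‖ + 1) * ε' ≤ ‖(T ^ k) y - y‖ := by
      rw [le_div_iff₀ (by positivity)] at hε'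
      linarith
    linarith
  clear hy
  induction K with
  | zero => exact ⟨1, one_pos, fun m _ k h1 h2 => by omega⟩
  | succ K ih =>
    -- a common radius
    have hall : ∃ ε > 0, ∀ k, 1 ≤ k → k ≤ K + 1 → ∀ m, (T ^ m) x ∈ Metric.ball y ε →
        (T ^ (m + k)) x ∉ Metric.ball y ε := by
      have : ∀ L ≤ K + 1, ∃ ε > 0, ∀ ε' ≤ ε, ∀ k, 1 ≤ k → k ≤ L → ∀ m,
          (T ^ m) x ∈ Metric.ball y ε' → (T ^ (m + k)) x ∉ Metric.ball y ε' := by
        intro L
        induction L with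
        | zero => intro _; exact ⟨1, one_pos, fun _ _ k h1 h2 => by omega⟩
        | succ L ihL =>
          intro hL
          obtain ⟨ε₁, h1, h1'⟩ := ihL (by omega)
          obtain ⟨ε₂, h2, h2'⟩ := hsingle (L + 1) (by omega) hL
          refine ⟨min ε₁ ε₂, lt_min h1 h2, fun ε' hε' k hk1 hk2 m hm => ?_⟩
          rcases Nat.lt_or_ge k (L + 1) with h | h
          · exact h1' ε' (hε'.trans (min_le_left _ _)) k hk1 (by omega) m hm
          · have : k = L + 1 := by omega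
            subst this
            exact h2' ε' (hε'.trans (min_le_right _ _)) m hm
      obtain ⟨ε, hε, h⟩ := this (K + 1) le_rfl
      exact ⟨ε, hε, h ε le_rfl⟩
    obtain ⟨ε, hε, h⟩ := hall
    exact ⟨ε, hε, fun m hm k h1 h2 => h k h1 h2 m hm⟩

lemma exists_radius [Nontrivial X] (T : X →L[𝕜] X) (x : X)
    (hd : Dense (Set.range fun n : ℕ => (T ^ n) x)) (n : ℕ) {δ : ℝ} (hδ : 0 < δ) :
    ∃ ε > 0, (∀ m < n, (T ^ m) x ∉ Metric.ball ((T ^ n) x) ε) ∧
      ∀ᶠ N : ℕ in atTop, (cnt {m | (T ^ m) x ∈ Metric.ball ((T ^ n) x) ε} N : ℝ) ≤ δ * (N + 1) := by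
  obtain ⟨K, hK⟩ := exists_nat_gt (2 / δ)
  obtain ⟨ε₁, hε₁, h1⟩ := exists_ball_gaps T x ((T ^ n) x) K (fun k hk _ he => by
    have h2 : (T ^ k) ((T ^ n) x) = (T ^ (n + k)) x := by rw [add_comm, pow_add]; rfl
    rw [h2] at he
    exact orbit_injective T x hd (show n < n + k by omega) he.symm)
  have hfin : ((fun m : ℕ => (T ^ m) x) '' Set.Iio n).Finite := (Set.finite_Iio n).image _
  have hnot : (T ^ n) x ∉ ((fun m : ℕ => (T ^ m) x) '' Set.Iio n) := by
    rintro ⟨m, hm, he⟩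
    exact orbit_injective T x hd hm he
  obtain ⟨ε₂, hε₂, h2⟩ := Metric.isOpen_iff.1 hfin.isClosed.isOpen_compl _ hnot
  refine ⟨min ε₁ ε₂, lt_min hε₁ hε₂, fun m hm hmem => ?_, ?_⟩
  · exact h2 (Metric.ball_subset_ball (min_le_right _ _) hmem) ⟨m, hm, rfl⟩
  · filter_upwards [eventually_ge_atTop K] with N hN
    have h3 : cnt {m | (T ^ m) x ∈ Metric.ball ((T ^ n) x) (min ε₁ ε₂)} N ≤
        cnt {m | (T ^ m) x ∈ Metric.ball ((T ^ n) x) ε₁} N := by
      refine Set.ncard_le_ncard ?_ (finite_inter _ _)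
      rintro m ⟨hm, hm'⟩
      exact ⟨Metric.ball_subset_ball (min_le_left _ _) hm, hm'⟩
    have h4 := cnt_le_of_gaps (V := {m | (T ^ m) x ∈ Metric.ball ((T ^ n) x) ε₁}) (K := K)
      (fun m hm k hk1 hk2 => h1 m hm k hk1 hk2) N
    have h5 : (cnt {m | (T ^ m) x ∈ Metric.ball ((T ^ n) x) (min ε₁ ε₂)} N : ℝ)
        ≤ (N : ℝ) / (K + 1) + 1 := by
      have h6 : (cnt {m | (T ^ m) x ∈ Metric.ball ((T ^ n) x) (min ε₁ ε₂)} N : ℝ) ≤
          ((N / (K + 1) + 1 : ℕ) : ℝ) := by exact_mod_cast h3.trans h4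
      refine h6.trans ?_
      push_cast
      have := @Nat.cast_div_le ℝ _ _ _ N (K + 1)
      push_cast at this
      linarith
    refine h5.trans ?_
    have hKpos : (0 : ℝ) < K := lt_of_le_of_lt (by positivity) hK
    have hNr : (K : ℝ) ≤ N := by exact_mod_cast hN
    rw [div_lt_iff₀ hδ] at hK
    have h7 : (N : ℝ) / (K + 1) ≤ δ / 2 * N := by
      rw [div_le_iff₀ (by positivity)]
      nlinarith
    nlinarith

/-- **Main construction.** -/
theorem main [Nontrivial X] (T : X →L[𝕜] X) (x : X)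
    (hd : Dense (Set.range fun n : ℕ => (T ^ n) x)) {η : ℝ} (hη : 0 < η) :
    ∃ U : Set X, IsOpen U ∧ U.Nonempty ∧
      (∃ᶠ N : ℕ in atTop, (cnt {m | (T ^ m) x ∈ U} N : ℝ) ≤ η * (N + 1)) ∧
      ∀ c : ℝ, c < 1 → ∃ᶠ N : ℕ in atTop, c * (N + 1) ≤ (cnt {m | (T ^ m) x ∈ U} N : ℝ) := by
  choose ε hε hεsep hεcnt using fun n : ℕ =>
    exists_radius T x hd n (δ := η * (1 / 2) ^ (n + 1)) (by positivity)
  set V : ℕ → Set ℕ := fun n => {m | (T ^ m) x ∈ Metric.ball ((T ^ n) x) (ε n)} with hV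
  -- good times
  have hν : ∀ b : ℕ, ∃ N ≥ b, ∀ n < b, (cnt (V n) N : ℝ) ≤ η * (1 / 2) ^ (n + 1) * (N + 1) := by
    intro b
    have h1 : ∀ᶠ N : ℕ in atTop, ∀ n ∈ Finset.range b,
        (cnt (V n) N : ℝ) ≤ η * (1 / 2) ^ (n + 1) * (N + 1) :=
      (Filter.eventually_all_finset _).2 fun n _ => hεcnt n
    obtain ⟨N, hN1, hN2⟩ := (h1.and (eventually_ge_atTop b)).exists
    exact ⟨N, hN2, fun n hn => hN1 n (Finset.mem_range.2 hn)⟩
  choose ν hνge hνcnt using hν
  let b : ℕ → ℕ := fun k => Nat.rec 0 (fun k bk => (k + 2) * (ν bk + 1)) k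
  have hb0 : b 0 = 0 := rfl
  have hbs : ∀ k, b (k + 1) = (k + 2) * (ν (b k) + 1) := fun k => rfl
  set a : ℕ → ℕ := fun k => ν (b k) + 1 with ha
  have hba : ∀ k, b k < a k := fun k => by
    have := hνge (b k)
    show b k < ν (b k) + 1
    omega
  have hab : ∀ k, a k < b (k + 1) := fun k => by
    rw [hbs]
    show ν (b k) + 1 < (k + 2) * (ν (b k) + 1)
    nlinarith
  have hbmono : StrictMono b := strictMono_nat_of_lt_succ fun k => (hba k).trans (hab k)
  have hamono : StrictMono a := strictMono_nat_of_lt_succ fun k => (hab k).trans (hba (k + 1))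
  set A : Set ℕ := {n | ∃ k, a k ≤ n ∧ n < b (k + 1)} with hA
  set U : Set X := ⋃ n ∈ A, Metric.ball ((T ^ n) x) (ε n) with hU
  have hAU : ∀ n ∈ A, (T ^ n) x ∈ U := fun n hn => by
    rw [hU]
    exact Set.mem_iUnion₂.2 ⟨n, hn, Metric.mem_ball_self (hε n)⟩
  have ha0 : a 0 ∈ A := ⟨0, le_rfl, hab 0⟩
  refine ⟨U, isOpen_biUnion fun _ _ => Metric.isOpen_ball, ⟨_, hAU _ ha0⟩, ?_, ?_⟩
  · rw [Filter.frequently_atTop]
    intro N₀
    refine ⟨ν (b N₀), (hbmono.id_le N₀).trans (hνge _), ?_⟩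
    have hsub : {m | (T ^ m) x ∈ U} ∩ Set.Icc 0 (ν (b N₀)) ⊆
        ⋃ n ∈ Finset.range (b N₀), (V n ∩ Set.Icc 0 (ν (b N₀))) := by
      rintro m ⟨hm, hm2⟩
      obtain ⟨n, hnA, hn⟩ := Set.mem_iUnion₂.1 hm
      have hle : n ≤ m := by
        by_contra hlt
        push Not at hlt
        exact hεsep n m hlt hn
      have hnb : n < b N₀ := by
        obtain ⟨j, hj1, hj2⟩ := hnA
        have hlt : n < a N₀ := by
          have : m ≤ ν (b N₀) := hm2.2
          show n < ν (b N₀) + 1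
          omega
        have hjN : j < N₀ := by
          by_contra hcon
          push Not at hcon
          have := hamono.monotone hcon
          omega
        have := hbmono.monotone (show j + 1 ≤ N₀ by omega)
        omega
      exact Set.mem_iUnion₂.2 ⟨n, Finset.mem_range.2 hnb, hn, hm2⟩
    have hcard : cnt {m | (T ^ m) x ∈ U} (ν (b N₀)) ≤
        ∑ n ∈ Finset.range (b N₀), cnt (V n) (ν (b N₀)) := by
      refine (Set.ncard_le_ncard hsub ?_).trans ?_
      · exact Set.Finite.biUnion (Finset.finite_toSet _) fun n _ => finite_inter _ _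
      · exact Finset.set_ncard_biUnion_le _ _
    have hsum : (∑ n ∈ Finset.range (b N₀), cnt (V n) (ν (b N₀)) : ℝ) ≤
        ∑ n ∈ Finset.range (b N₀), η * (1 / 2) ^ (n + 1) * ((ν (b N₀) : ℝ) + 1) :=
      Finset.sum_le_sum fun n hn => hνcnt (b N₀) n (Finset.mem_range.1 hn)
    have hgeo : ∑ n ∈ Finset.range (b N₀), η * (1 / 2 : ℝ) ^ (n + 1) * ((ν (b N₀) : ℝ) + 1)
        ≤ η * ((ν (b N₀) : ℝ) + 1) := by
      have h1 : ∑ n ∈ Finset.range (b N₀), η * (1 / 2 : ℝ) ^ (n + 1) * ((ν (b N₀) : ℝ) + 1)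
          = (∑ n ∈ Finset.range (b N₀), (1 / 2 : ℝ) ^ n) * (1 / 2 * (η * ((ν (b N₀) : ℝ) + 1))) := by
        rw [Finset.sum_mul]
        refine Finset.sum_congr rfl fun n _ => ?_
        ring
      have h2 : ∑ n ∈ Finset.range (b N₀), (1 / 2 : ℝ) ^ n ≤ 2 := by
        have := sum_geometric_two_le (b N₀)
        exact this
      rw [h1]
      have h3 : 0 ≤ 1 / 2 * (η * ((ν (b N₀) : ℝ) + 1)) := by positivity
      nlinarith
    calc (cnt {m | (T ^ m) x ∈ U} (ν (b N₀)) : ℝ)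
        ≤ ((∑ n ∈ Finset.range (b N₀), cnt (V n) (ν (b N₀)) : ℕ) : ℝ) := by exact_mod_cast hcard
      _ ≤ _ := by push_cast; exact hsum.trans hgeo
  · intro c hc
    rw [Filter.frequently_atTop]
    intro N₀
    obtain ⟨k₀, hk₀⟩ := exists_nat_gt (1 / (1 - c))
    set k := max N₀ k₀
    have hk1 : N₀ ≤ k := le_max_left _ _
    have hk2 : k₀ ≤ k := le_max_right _ _
    have hbk : 1 ≤ b (k + 1) := by have := hab k; omega
    refine ⟨b (k + 1) - 1, ?_, ?_⟩
    · have := hbmono.id_le (k + 1)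
      simp only [id] at this
      omega
    have hsub : Set.Ico (a k) (b (k + 1)) ⊆ {m | (T ^ m) x ∈ U} ∩ Set.Icc 0 (b (k + 1) - 1) := by
      rintro m ⟨h1, h2⟩
      exact ⟨hAU m ⟨k, h1, h2⟩, Nat.zero_le _, by omega⟩
    have hcard : b (k + 1) - a k ≤ cnt {m | (T ^ m) x ∈ U} (b (k + 1) - 1) := by
      have := Set.ncard_le_ncard hsub (finite_inter _ _)
      rwa [Set.ncard_eq_toFinset_card', Set.toFinset_Ico, Nat.card_Ico] at this
    have hcast : ((b (k + 1) - 1 : ℕ) : ℝ) + 1 = b (k + 1) := by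
      rw [Nat.cast_sub hbk]; simp
    rw [hcast]
    have hcard' : (b (k + 1) : ℝ) - a k ≤ (cnt {m | (T ^ m) x ∈ U} (b (k + 1) - 1) : ℝ) := by
      have h1 : ((b (k + 1) - a k : ℕ) : ℝ) ≤ (cnt {m | (T ^ m) x ∈ U} (b (k + 1) - 1) : ℝ) := by
        exact_mod_cast hcard
      rwa [Nat.cast_sub (hab k).le] at h1
    refine le_trans ?_ hcard'
    have h1 : (b (k + 1) : ℝ) = (k + 2) * a k := by
      have h2 : b (k + 1) = (k + 2) * a k := rfl
      rw [h2]; push_cast; ring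
    rw [h1]
    have ha_pos : (0 : ℝ) < a k := by
      have : 0 < a k := by show 0 < ν (b k) + 1; omega
      exact_mod_cast this
    have hk0' : (k₀ : ℝ) ≤ k := by exact_mod_cast hk2
    rw [div_lt_iff₀ (by linarith)] at hk₀
    have : 1 ≤ (1 - c) * ((k : ℝ) + 2) := by nlinarith
    nlinarith

end Q81.Irreg
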