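import Mathlib

/-!
# Taylor expansions and hyperbolicity of simple combinations of a polynomial and its derivative
-/

namespace Q81.PolyRep

open Polynomial Finset

/-- Taylor's formula `p (x + y) = ∑ (D^k p / k!) y^k`. -/
lemma sum_hasseDeriv_mul_pow (p Y : ℝ[X]) {N : ℕ} (hN : p.natDegree < N) :
    ∑ k ∈ range N, hasseDeriv k p * Y ^ k = p.comp (X + Y) := by
  have hmono : ∀ n < N, ∀ c : ℝ,
      ∑ k ∈ range N, hasseDeriv k (monomial n c) * Y ^ k = (monomial n c).comp (X + Y) := by
    intro n hn c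
    rw [monomial_comp, add_comm X Y, add_pow, Finset.mul_sum]
    rw [← Finset.sum_subset (Finset.range_subset_range.2 (Nat.succ_le_of_lt hn))]
    · refine Finset.sum_congr rfl fun k hk => ?_
      rw [hasseDeriv_monomial, ← C_mul_X_pow_eq_monomial, C_mul, ← C_eq_natCast]
      ring
    · intro k _ hk
      rw [Finset.mem_range, not_lt] at hk
      rw [hasseDeriv_monomial, Nat.choose_eq_zero_of_lt (by omega)]
      simp
  conv_lhs => rw [p.as_sum_range' N hN]
  conv_rhs => rw [p.as_sum_range' N hN]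
  simp only [map_sum, Finset.sum_mul, Polynomial.sum_comp]
  rw [Finset.sum_comm]
  exact Finset.sum_congr rfl fun n hn => hmono n (Finset.mem_range.1 hn) _

lemma hasseDeriv_eq (k : ℕ) (p : ℝ[X]) :
    hasseDeriv k p = C ((k.factorial : ℝ)⁻¹) * derivative^[k] p := by
  have h := congrFun (factorial_smul_hasseDeriv (R := ℝ) k) p
  have h2 : (k.factorial : ℝ) ≠ 0 := by exact_mod_cast k.factorial_ne_zero
  rw [← h, LinearMap.smul_apply, nsmul_eq_mul, ← C_eq_natCast, ← mul_assoc, ← C_mul,
    inv_mul_cancel₀ h2, C_1, one_mul]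

/-- If all complex zeros of `P` are real, then `Im (P'/P)` has the sign opposite to `Im z`. -/
lemma logDeriv_im {P : ℂ[X]} (hP : ∀ z : ℂ, P.IsRoot z → z.im = 0) {z : ℂ} (hz : z.im ≠ 0)
    : (P.derivative.eval z / P.eval z).im * z.im ≤ 0 ∧
      (P.roots ≠ 0 → (P.derivative.eval z / P.eval z).im * z.im < 0) ∧
      (P.roots = 0 → P.derivative.eval z / P.eval z = 0) := by
  have hPz : P.eval z ≠ 0 := fun h => hz (hP z h)
  rw [(IsAlgClosed.splits P).eval_derivative_div_eval_of_ne_zero hPz]
  have hterm : ∀ a ∈ P.roots, (1 / (z - a)).im * z.im < 0 := by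
    intro a ha
    have ha' : a.im = 0 := hP a (mem_roots'.1 ha).2
    have hne : z - a ≠ 0 := by
      intro h
      apply hz
      rw [sub_eq_zero.1 h, ha']
    rw [one_div, Complex.inv_im, Complex.sub_im, ha', sub_zero]
    have h1 : 0 < Complex.normSq (z - a) := Complex.normSq_pos.2 hne
    have h2 : 0 < z.im ^ 2 := by positivity
    have : -z.im / Complex.normSq (z - a) * z.im = -(z.im ^ 2 / Complex.normSq (z - a)) := by ring
    rw [this]
    have : 0 < z.im ^ 2 / Complex.normSq (z - a) := by positivity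
    linarith
  have hsum : ∀ s : Multiset ℂ, (∀ a ∈ s, (1 / (z - a)).im * z.im < 0) →
      ((s.map fun a => 1 / (z - a)).sum).im * z.im ≤ 0 ∧
      (s ≠ 0 → ((s.map fun a => 1 / (z - a)).sum).im * z.im < 0) := by
    intro s
    induction s using Multiset.induction_on with
    | empty => intro _; simp
    | cons a s ih =>
      intro h
      have h1 := (ih fun b hb => h b (Multiset.mem_cons_of_mem hb)).1
      have h2 := h a (Multiset.mem_cons_self a s)
      rw [Multiset.map_cons, Multiset.sum_cons, Complex.add_im, add_mul]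
      exact ⟨by linarith, fun _ => by linarith⟩
  refine ⟨(hsum _ hterm).1, (hsum _ hterm).2, fun h => ?_⟩
  rw [h]
  simp

/-- If all complex zeros of `P ≠ 0` are real and `Im w Im z ≥ 0`, `w ≠ 0`, `z` not real, then
`w P(z) - P'(z) ≠ 0`. -/
lemma mul_sub_derivative_ne {P : ℂ[X]} (hP : ∀ z : ℂ, P.IsRoot z → z.im = 0)
    {z w : ℂ} (hz : z.im ≠ 0) (hw : 0 ≤ w.im * z.im) (hw0 : w ≠ 0) :
    w * P.eval z - P.derivative.eval z ≠ 0 := by
  intro h
  have hPz : P.eval z ≠ 0 := fun h => hz (hP z h)
  obtain ⟨h1, h2, h3⟩ := logDeriv_im hP hz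
  have hwe : P.derivative.eval z / P.eval z = w := by
    rw [div_eq_iff hPz]
    linear_combination -h
  rw [hwe] at h1 h2 h3
  by_cases hr : P.roots = 0
  · exact hw0 (h3 hr)
  · have := h2 hr
    linarith

end Q81.PolyRep
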