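import Mathlib
import Pool.Agent.Q81.PolyRep

/-!
# The Laguerre inequality at `0`, and coefficients as sums of derivatives
-/

namespace Q81.LaguerreIneq

open Polynomial Finset

/-- A nonzero real polynomial all of whose complex zeros are real splits over `ℝ`. -/
lemma splits_of_hyperbolic {p : ℝ[X]} (hp : ∀ z : ℂ, aeval z p = 0 → z.im = 0) : p.Splits := by
  refine Splits.of_splits_map (algebraMap ℝ ℂ) (IsAlgClosed.splits _) fun a ha => ?_
  have h1 : aeval a p = 0 := by
    rw [← eval_map_algebraMap]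
    exact (mem_roots'.1 ha).2
  exact ⟨a.re, by
    apply Complex.ext
    · simp
    · simpa using (hp a h1).symm⟩

/-- Newton/Laguerre inequality at `0` for polynomials with real zeros. -/
lemma coeff_ineq {p : ℝ[X]} (hp : p.Splits) : 2 * (p.coeff 0 * p.coeff 2) ≤ p.coeff 1 ^ 2 := by
  obtain ⟨s, hs⟩ := splits_iff_exists_multiset.1 hp
  have key : ∀ s : Multiset ℝ, 2 * (((s.map fun a => X - C a).prod).coeff 0 *
      ((s.map fun a => X - C a).prod).coeff 2) ≤ ((s.map fun a => X - C a).prod).coeff 1 ^ 2 := by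
    intro s
    induction s using Multiset.induction_on with
    | empty => simp [coeff_one]
    | cons a s ih =>
      rw [Multiset.map_cons, Multiset.prod_cons]
      set q := (s.map fun a => X - C a).prod
      have e0 : ((X - C a) * q).coeff 0 = -a * q.coeff 0 := by
        rw [sub_mul, coeff_sub, coeff_C_mul, mul_coeff_zero, coeff_X_zero]; ring
      have e1 : ((X - C a) * q).coeff 1 = q.coeff 0 - a * q.coeff 1 := by
        rw [sub_mul, coeff_sub, coeff_C_mul, coeff_X_mul]
      have e2 : ((X - C a) * q).coeff 2 = q.coeff 1 - a * q.coeff 2 := by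
        rw [sub_mul, coeff_sub, coeff_C_mul, coeff_X_mul]
      rw [e0, e1, e2]
      nlinarith [sq_nonneg (q.coeff 0), mul_nonneg (sq_nonneg a) (sub_nonneg.2 ih)]
  rw [hs]
  simp only [coeff_C_mul]
  have := key s
  nlinarith [mul_nonneg (sq_nonneg p.leadingCoeff) (sub_nonneg.2 this)]

/-- `p_j = ∑_k binom(k, j) (-x)^(k-j) D^k p / k!`. -/
lemma coeff_eq_sum (p : ℝ[X]) (j : ℕ) :
    C (p.coeff j) = ∑ k ∈ range (p.natDegree + 1),
      C ((k.factorial : ℝ)⁻¹ * (k.choose j : ℝ)) * (-X) ^ (k - j) * derivative^[k] p := by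
  set N := p.natDegree + 1 with hN
  have hz : ∀ k, N ≤ k → hasseDeriv k p = 0 := fun k hk =>
    hasseDeriv_eq_zero_of_lt_natDegree p k (by omega)
  have h1 := Q81.PolyRep.sum_hasseDeriv_mul_pow (hasseDeriv j p) (-X) (N := N)
    (by have := natDegree_hasseDeriv_le p j; omega)
  have h2 : (hasseDeriv j p).comp (X + -X) = C (p.coeff j) := by
    rw [add_neg_cancel, comp_zero, ← coeff_zero_eq_eval_zero, hasseDeriv_coeff]
    simp
  rw [← h2, ← h1]
  set g : ℕ → ℝ[X] := fun k => C ((k.choose j : ℝ)) * (-X) ^ (k - j) * hasseDeriv k p with hg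
  have h3 : ∀ i, hasseDeriv i (hasseDeriv j p) * (-X) ^ i = g (i + j) := by
    intro i
    have h4 := congrArg (fun L => L p) (hasseDeriv_comp (R := ℝ) i j)
    simp only [LinearMap.comp_apply, LinearMap.smul_apply] at h4
    rw [h4, hg]
    simp only [Nat.add_sub_cancel]
    rw [nsmul_eq_mul, Nat.choose_symm_add, C_eq_natCast]
    ring
  have h5 : ∑ k ∈ range (N + j), g k = ∑ k ∈ range N, g k := by
    rw [Finset.sum_range_add]
    rw [Finset.sum_eq_zero (s := range j), add_zero]
    intro k _
    simp only [hg]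
    rw [hz (N + k) (by omega), mul_zero]
  have h6 : ∑ k ∈ range (N + j), g k = ∑ i ∈ range N, g (i + j) := by
    rw [add_comm N j, Finset.sum_range_add]
    rw [Finset.sum_eq_zero (s := range j), zero_add]
    · exact Finset.sum_congr rfl fun i _ => by rw [add_comm]
    · intro k hk
      simp only [hg]
      rw [Nat.choose_eq_zero_of_lt (Finset.mem_range.1 hk)]
      simp
  rw [Finset.sum_congr rfl fun i _ => h3 i, ← h6, h5]
  refine Finset.sum_congr rfl fun k _ => ?_
  simp only [hg]
  rw [Q81.PolyRep.hasseDeriv_eq, C_mul]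
  ring

/-- A real quadratic polynomial (or of lower degree) with nonnegative discriminant has only real
zeros unless it vanishes identically. -/
lemma real_of_disc {A B K : ℝ} (h : 0 ≤ B ^ 2 - 4 * A * K) {z : ℂ}
    (hz : (A : ℂ) * z ^ 2 + B * z + K = 0) : z.im = 0 ∨ (A = 0 ∧ B = 0 ∧ K = 0) := by
  by_cases him : z.im = 0
  · exact Or.inl him
  right
  have hre := congrArg Complex.re hz
  have hi := congrArg Complex.im hz
  simp [pow_two] at hre hi
  have h1 : z.im * (2 * A * z.re + B) = 0 := by linarith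
  have h2 : B = -(2 * A * z.re) := by
    rcases mul_eq_zero.1 h1 with h3 | h3
    · exact absurd h3 him
    · linarith
  have h3 : K = A * (z.re ^ 2 + z.im ^ 2) := by
    rw [h2] at hre; nlinarith
  have h4 : A = 0 := by
    by_contra hA
    have h5 : 0 < A ^ 2 * z.im ^ 2 := by positivity
    rw [h2, h3] at h
    nlinarith
  refine ⟨h4, ?_, ?_⟩
  · rw [h2, h4]; ring
  · rw [h3, h4]; ring

end Q81.LaguerreIneq
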