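import Mathlib

/-!
# Positive sequences (in the sense of Stieltjes)
-/

namespace Q81.Leroy

open Polynomial Finset Filter Topology

/-- the functional `X^n ↦ a n` -/
noncomputable def La (a : ℕ → ℝ) (P : ℝ[X]) : ℝ := ∑ n ∈ range (P.natDegree + 1), P.coeff n * a n

lemma La_eq (a : ℕ → ℝ) (P : ℝ[X]) {N : ℕ} (hN : P.natDegree < N) :
    La a P = ∑ n ∈ range N, P.coeff n * a n := by
  rw [La]
  refine sum_subset (range_mono (by omega)) fun n _ hn => ?_
  rw [mem_range, not_lt] at hn
  rw [coeff_eq_zero_of_natDegree_lt (by omega), zero_mul]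

lemma La_add (a : ℕ → ℝ) (P Q : ℝ[X]) : La a (P + Q) = La a P + La a Q := by
  set N := max P.natDegree Q.natDegree + 1 with hN
  rw [La_eq a (P + Q) (N := N), La_eq a P (N := N), La_eq a Q (N := N), ← sum_add_distrib]
  · exact sum_congr rfl fun n _ => by rw [coeff_add]; ring
  · have := le_max_right P.natDegree Q.natDegree; omega
  · have := le_max_left P.natDegree Q.natDegree; omega
  · have := natDegree_add_le P Q; omega

lemma La_C_mul (a : ℕ → ℝ) (c : ℝ) (P : ℝ[X]) : La a (C c * P) = c * La a P := by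
  rw [La_eq a (C c * P) (N := P.natDegree + 1), La, mul_sum]
  · exact sum_congr rfl fun n _ => by rw [coeff_C_mul]; ring
  · have := natDegree_C_mul_le c P; omega

lemma La_mono (a : ℕ → ℝ) (c : ℝ) (k : ℕ) : La a (C c * X ^ k) = c * a k := by
  rw [La_eq a _ (N := k + 1) (by have := natDegree_C_mul_X_pow_le c k; omega), sum_eq_single k]
  · rw [coeff_C_mul_X_pow, if_pos rfl]
  · intro n _ hn; rw [coeff_C_mul_X_pow, if_neg hn, zero_mul]
  · intro h; exact absurd (mem_range.2 (Nat.lt_succ_self k)) h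

lemma La_sum {ι : Type*} (a : ℕ → ℝ) (s : Finset ι) (f : ι → ℝ[X]) :
    La a (∑ i ∈ s, f i) = ∑ i ∈ s, La a (f i) := by
  classical
  induction s using Finset.induction_on with
  | empty => simp [La]
  | insert i s hi ih => rw [sum_insert hi, sum_insert hi, La_add, ih]

/-- Hankel positivity of `a` and its shift -/
def Good (a : ℕ → ℝ) : Prop := (∀ p : ℝ[X], 0 ≤ La a (p ^ 2)) ∧ ∀ p : ℝ[X], 0 ≤ La a (X * p ^ 2)

lemma Good.const {a : ℕ → ℝ} (h : Good a) {c : ℝ} (hc : 0 ≤ c) : Good fun n => c * a n := by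
  have e : ∀ P, La (fun n => c * a n) P = c * La a P := fun P => by
    rw [La, La, mul_sum]; exact sum_congr rfl fun n _ => by ring
  exact ⟨fun p => by rw [e]; exact mul_nonneg hc (h.1 p), fun p => by
    rw [e]; exact mul_nonneg hc (h.2 p)⟩

lemma La_comp (a : ℕ → ℝ) (t : ℝ) (P : ℝ[X]) :
    La a (P.comp (C t * X)) = ∑ n ∈ range (P.natDegree + 1), P.coeff n * t ^ n * a n := by
  rw [La_eq a _ (N := P.natDegree + 1)]
  · exact sum_congr rfl fun n _ => by rw [comp_C_mul_X_coeff]
  · refine lt_of_le_of_lt natDegree_comp_le ?_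
    have : (C t * X : ℝ[X]).natDegree ≤ 1 := (natDegree_C_mul_le t X).trans natDegree_X_le
    calc P.natDegree * (C t * X : ℝ[X]).natDegree ≤ P.natDegree * 1 := by gcongr
      _ < _ := by omega

lemma Good.comp {a : ℕ → ℝ} (h : Good a) {t : ℝ} (ht : 0 ≤ t) :
    (∀ p : ℝ[X], 0 ≤ La a ((p ^ 2).comp (C t * X))) ∧
      ∀ p : ℝ[X], 0 ≤ La a ((X * p ^ 2).comp (C t * X)) := by
  refine ⟨fun p => ?_, fun p => ?_⟩
  · rw [pow_comp]; exact h.1 _
  · rw [mul_comp, X_comp, pow_comp, mul_assoc, La_C_mul]
    exact mul_nonneg ht (h.2 _)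

lemma Good.scale {a : ℕ → ℝ} (h : Good a) {t : ℝ} (ht : 0 ≤ t) : Good fun n => t ^ n * a n := by
  have e : ∀ P, La (fun n => t ^ n * a n) P = La a (P.comp (C t * X)) := fun P => by
    rw [La_comp, La]; exact sum_congr rfl fun n _ => by ring
  exact ⟨fun p => by rw [e]; exact (h.comp ht).1 p, fun p => by rw [e]; exact (h.comp ht).2 p⟩

lemma Good.lim {a : ℕ → ℕ → ℝ} {b : ℕ → ℝ} (h : ∀ Q, Good (a Q))
    (hlim : ∀ n, Tendsto (fun Q => a Q n) atTop (𝓝 (b n))) : Good b := by
  have e : ∀ P, Tendsto (fun Q => La (a Q) P) atTop (𝓝 (La b P)) := fun P =>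
    tendsto_finsetSum _ fun n _ => (hlim n).const_mul _
  exact ⟨fun p => ge_of_tendsto' (e _) fun Q => (h Q).1 p,
    fun p => ge_of_tendsto' (e _) fun Q => (h Q).2 p⟩

/-- multiplication by the moments of a Beta law -/
lemma Good.ratio {a : ℕ → ℝ} (h : Good a) {q z : ℝ} (hq : 0 < q) (hz : q ≤ z) :
    Good fun n => a n * ((n + z) / (n + q)) := by
  have key : ∀ P : ℝ[X], (∀ t : ℝ, 0 ≤ t → 0 ≤ La a (P.comp (C t * X))) →
      0 ≤ La (fun n => a n * ((n + z) / (n + q))) P := by
    intro P hP
    have hint : ∀ n : ℕ, ∫ t in (0 : ℝ)..1, t ^ ((n : ℝ) + q - 1) = 1 / (n + q) := by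
      intro n
      have hn : (0 : ℝ) ≤ n := Nat.cast_nonneg n
      rw [integral_rpow (Or.inl (by linarith))]
      rw [Real.one_rpow, Real.zero_rpow (by linarith)]
      congr 1
      · ring
      · ring
    have hi : ∀ n : ℕ, IntervalIntegrable (fun t : ℝ => t ^ ((n : ℝ) + q - 1)) MeasureTheory.volume 0 1 := by
      intro n
      have hn : (0 : ℝ) ≤ n := Nat.cast_nonneg n
      exact intervalIntegral.intervalIntegrable_rpow' (by linarith)
    have e1 : La (fun n => a n * ((n + z) / (n + q))) P = La a P +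
        (z - q) * ∑ n ∈ range (P.natDegree + 1), P.coeff n * a n * (1 / (n + q)) := by
      rw [La, La, mul_sum, ← sum_add_distrib]
      refine sum_congr rfl fun n _ => ?_
      have hn : (0 : ℝ) ≤ n := Nat.cast_nonneg n
      have : (n : ℝ) + q ≠ 0 := by positivity
      field_simp
      ring
    have e2 : ∑ n ∈ range (P.natDegree + 1), P.coeff n * a n * (1 / ((n : ℝ) + q)) =
        ∫ t in (0 : ℝ)..1, ∑ n ∈ range (P.natDegree + 1), P.coeff n * a n * t ^ ((n : ℝ) + q - 1) := by
      rw [intervalIntegral.integral_finsetSum]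
      · refine sum_congr rfl fun n _ => ?_
        rw [intervalIntegral.integral_const_mul, hint]
      · intro n _
        exact (hi n).const_mul _
    have e3 : 0 ≤ ∫ t in (0 : ℝ)..1,
        ∑ n ∈ range (P.natDegree + 1), P.coeff n * a n * t ^ ((n : ℝ) + q - 1) := by
      refine intervalIntegral.integral_nonneg (by norm_num) fun t ht => ?_
      rcases ht.1.eq_or_lt with h0 | h0
      · -- value at `0`
        rw [← h0]
        have h00 := hP 0 le_rfl
        rw [La_comp] at h00
        by_cases hq1 : q = 1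
        · refine le_of_le_of_eq h00 (sum_congr rfl fun n _ => ?_)
          rw [hq1, add_sub_cancel_right, Real.rpow_natCast]; ring
        · have : ∀ n : ℕ, (0 : ℝ) ^ ((n : ℝ) + q - 1) = 0 ∨ (n : ℝ) + q - 1 = 0 := fun n => by
            by_cases h : (n : ℝ) + q - 1 = 0
            · exact Or.inr h
            · exact Or.inl (Real.zero_rpow h)
          have hn0 : ∀ n : ℕ, (n : ℝ) + q - 1 = 0 → n = 0 := by
            intro n hn
            by_contra hne
            have : (1 : ℝ) ≤ n := by exact_mod_cast Nat.one_le_iff_ne_zero.2 hne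
            linarith
          refine le_of_eq (sum_eq_zero fun n _ => ?_).symm
          rcases this n with h | h
          · rw [h, mul_zero]
          · have := hn0 n h
            rw [this] at h
            exact absurd (by push_cast at h; linarith) hq1
      · have h1 := hP t h0.le
        rw [La_comp] at h1
        have e4 : ∑ n ∈ range (P.natDegree + 1), P.coeff n * a n * t ^ ((n : ℝ) + q - 1) =
            t ^ (q - 1) * ∑ n ∈ range (P.natDegree + 1), P.coeff n * t ^ n * a n := by
          rw [mul_sum]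
          refine sum_congr rfl fun n _ => ?_
          rw [show (n : ℝ) + q - 1 = (q - 1) + n by ring, Real.rpow_add h0, Real.rpow_natCast]
          ring
        rw [e4]
        exact mul_nonneg (Real.rpow_nonneg h0.le _) h1
    rw [e1, e2]
    have h1 := hP 1 zero_le_one
    rw [C_1, one_mul, comp_X] at h1
    exact add_nonneg h1 (mul_nonneg (sub_nonneg.2 hz) e3)
  exact ⟨fun p => key _ fun t ht => (h.comp ht).1 p, fun p => key _ fun t ht => (h.comp ht).2 p⟩

lemma Good.ratio_prod {ι : Type*} {a : ℕ → ℝ} (h : Good a) (s : Finset ι) {q z : ι → ℝ}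
    (hq : ∀ i ∈ s, 0 < q i) (hz : ∀ i ∈ s, q i ≤ z i) :
    Good fun n => a n * ∏ i ∈ s, ((n + z i) / (n + q i)) := by
  classical
  induction s using Finset.induction_on with
  | empty => simpa using h
  | insert i s hi ih =>
    have h1 := (ih (fun j hj => hq j (mem_insert_of_mem hj))
      (fun j hj => hz j (mem_insert_of_mem hj))).ratio (hq i (mem_insert_self i s))
      (hz i (mem_insert_self i s))
    have e : (fun n : ℕ => a n * ∏ i ∈ insert i s, (((n : ℝ) + z i) / (n + q i))) =
        fun n : ℕ => a n * (∏ i ∈ s, (((n : ℝ) + z i) / (n + q i))) * ((n + z i) / (n + q i)) := by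
      funext n
      rw [prod_insert hi]; ring
    rw [e]
    exact h1

end Q81.Leroy
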