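import Pool.Agent.Q81.Leroy1

/-!
# Complete monotonicity from Hankel positivity
-/

namespace Q81.Leroy

open Polynomial Finset Filter Topology

/-- complete monotonicity on `(0, ∞)` -/
def CM (f : ℝ → ℝ) : Prop :=
  ContDiffOn ℝ (⊤ : ℕ∞) f (Set.Ioi 0) ∧ ∀ (k : ℕ) (x : ℝ), 0 < x → 0 ≤ (-1) ^ k * iteratedDeriv k f x

lemma Good.shift_nonneg {a : ℕ → ℝ} (h : Good a) (k : ℕ) (p : ℝ[X]) : 0 ≤ La a (X ^ k * p ^ 2) := by
  rcases Nat.even_or_odd' k with ⟨m, hm | hm⟩
  · have : X ^ k * p ^ 2 = (X ^ m * p) ^ 2 := by rw [hm]; ring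
    rw [this]; exact h.1 _
  · have : X ^ k * p ^ 2 = X * (X ^ m * p) ^ 2 := by rw [hm]; ring
    rw [this]; exact h.2 _

section
variable {a : ℕ → ℝ} (hs : ∀ r : ℝ, 0 ≤ r → Summable fun n : ℕ => r ^ n * (|a n| / n.factorial))
include hs

lemma summable_shift (k : ℕ) {r : ℝ} (hr : 0 ≤ r) :
    Summable fun n : ℕ => r ^ n * (|a (n + k)| / n.factorial) := by
  have h1 := (hs (2 * (r + 1)) (by linarith)).comp_injective (add_left_injective k)
  refine Summable.of_nonneg_of_le (fun n => by positivity) (fun n => ?_) (h1.mul_left (k.factorial : ℝ))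
  simp only [Function.comp_apply]
  have h2 : ((n + k).factorial : ℝ) ≤ 2 ^ (n + k) * (n.factorial * k.factorial) := by
    have h3 := Nat.add_choose_mul_factorial_mul_factorial n k
    have h4 : (n + k).choose k ≤ 2 ^ (n + k) := Nat.choose_le_two_pow _ _
    have h5 : (n + k).factorial ≤ 2 ^ (n + k) * (n.factorial * k.factorial) := by
      rw [← h3, mul_assoc]
      exact Nat.mul_le_mul_right _ h4
    exact_mod_cast h5
  have hn : (0 : ℝ) < n.factorial := by exact_mod_cast n.factorial_pos
  have hk : (0 : ℝ) < k.factorial := by exact_mod_cast k.factorial_pos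
  have hnk : (0 : ℝ) < (n + k).factorial := by exact_mod_cast (n + k).factorial_pos
  have h6 : r ^ n ≤ (r + 1) ^ (n + k) := by
    calc r ^ n ≤ (r + 1) ^ n := by gcongr; linarith
      _ ≤ (r + 1) ^ (n + k) := pow_le_pow_right₀ (by linarith) (by omega)
  have h7 : r ^ n / n.factorial ≤ k.factorial * (2 * (r + 1)) ^ (n + k) / (n + k).factorial := by
    rw [div_le_div_iff₀ hn hnk]
    calc r ^ n * (n + k).factorial ≤ (r + 1) ^ (n + k) * (2 ^ (n + k) * (n.factorial * k.factorial)) := by
          gcongr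
      _ = _ := by rw [mul_pow]; ring
  calc r ^ n * (|a (n + k)| / n.factorial) = (r ^ n / n.factorial) * |a (n + k)| := by ring
    _ ≤ (k.factorial * (2 * (r + 1)) ^ (n + k) / (n + k).factorial) * |a (n + k)| := by gcongr
    _ = _ := by ring

/-- the derivatives up to sign -/
noncomputable def gk (a : ℕ → ℝ) (k : ℕ) (x : ℝ) : ℝ := ∑' n : ℕ, (-x) ^ n * (a (n + k) / n.factorial)

lemma summable_gk (k : ℕ) (x : ℝ) : Summable fun n : ℕ => (-x) ^ n * (a (n + k) / n.factorial) := by
  refine Summable.of_norm ?_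
  have := summable_shift hs k (abs_nonneg x)
  refine this.congr fun n => ?_
  rw [norm_mul, norm_pow, norm_neg, Real.norm_eq_abs, Real.norm_eq_abs, abs_div]
  congr 2
  rw [abs_of_nonneg (by positivity : (0 : ℝ) ≤ (n.factorial : ℝ))]

lemma hasDerivAt_gk (k : ℕ) (x : ℝ) : HasDerivAt (gk a k) (-gk a (k + 1) x) x := by
  set r : ℝ := |x| + 1 with hr
  have hr0 : 0 < r := by positivity
  -- derivative series
  set g : ℕ → ℝ → ℝ := fun n z => (-z) ^ n * (a (n + k) / n.factorial) with hg
  set g' : ℕ → ℝ → ℝ := fun n z => (-(n : ℝ)) * (-z) ^ (n - 1) * (a (n + k) / n.factorial) with hg'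
  set u : ℕ → ℝ := fun n => (n : ℝ) * r ^ (n - 1) * (|a (n + k)| / n.factorial) with hu
  have hus : Summable u := by
    rw [← summable_nat_add_iff 1]
    have h2 := summable_shift hs (k + 1) hr0.le
    refine h2.congr fun n => ?_
    have : ((n + 1).factorial : ℝ) = (n + 1) * n.factorial := by
      rw [Nat.factorial_succ]; push_cast; ring
    simp only [hu]
    rw [this, show n + 1 + k = n + (k + 1) by ring]
    have hn : ((n : ℝ) + 1) ≠ 0 := by positivity
    have hn' : (n.factorial : ℝ) ≠ 0 := by positivity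
    push_cast
    field_simp
  have hgd : ∀ n y, y ∈ Metric.ball (0 : ℝ) r → HasDerivAt (g n) (g' n y) y := by
    intro n y _
    have h3 : HasDerivAt (fun z : ℝ => (-z) ^ n) ((n : ℝ) * (-y) ^ (n - 1) * (-1)) y :=
      (hasDerivAt_neg' y).fun_pow n
    have h4 := h3.mul_const (a (n + k) / n.factorial)
    refine h4.congr_deriv ?_
    simp only [hg']
    ring
  have hgb : ∀ n y, y ∈ Metric.ball (0 : ℝ) r → ‖g' n y‖ ≤ u n := by
    intro n y hy
    simp only [hg', hu]
    rw [norm_mul, norm_mul, norm_neg, norm_pow, norm_neg, Real.norm_eq_abs, Real.norm_eq_abs,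
      Real.norm_eq_abs, abs_div, abs_of_nonneg (by positivity : (0 : ℝ) ≤ (n : ℝ)),
      abs_of_nonneg (by positivity : (0 : ℝ) ≤ (n.factorial : ℝ))]
    have hy' : |y| ≤ r := by
      rw [Metric.mem_ball, dist_zero_right, Real.norm_eq_abs] at hy
      exact hy.le
    gcongr
  have hxr : x ∈ Metric.ball (0 : ℝ) r := by
    rw [Metric.mem_ball, dist_zero_right, Real.norm_eq_abs, hr]; linarith
  have h1 : HasDerivAt (fun z => ∑' n : ℕ, g n z) (∑' n : ℕ, g' n x) x :=
    hasDerivAt_tsum_of_isPreconnected hus Metric.isOpen_ball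
      (convex_ball (0 : ℝ) r).isPreconnected hgd hgb (Metric.mem_ball_self hr0)
      (summable_gk hs k 0) hxr
  refine h1.congr_deriv ?_
  simp only [hg']
  have hsum : Summable fun n : ℕ => (-(n : ℝ)) * (-x) ^ (n - 1) * (a (n + k) / n.factorial) := by
    rw [← summable_nat_add_iff 1]
    refine ((summable_gk hs (k + 1) x).mul_left (-1)).congr fun n => ?_
    have : ((n + 1).factorial : ℝ) = (n + 1) * n.factorial := by
      rw [Nat.factorial_succ]; push_cast; ring
    rw [this, show n + 1 + k = n + (k + 1) by ring]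
    have hn : ((n : ℝ) + 1) ≠ 0 := by positivity
    have hn' : (n.factorial : ℝ) ≠ 0 := by positivity
    push_cast
    field_simp
  rw [hsum.tsum_eq_zero_add]
  rw [gk, ← tsum_neg]
  simp only [Nat.cast_zero, neg_zero, zero_mul, zero_add]
  refine tsum_congr fun n => ?_
  have : ((n + 1).factorial : ℝ) = (n + 1) * n.factorial := by
    rw [Nat.factorial_succ]; push_cast; ring
  rw [this, show n + 1 + k = n + (k + 1) by ring]
  have hn : ((n : ℝ) + 1) ≠ 0 := by positivity
  have hn' : (n.factorial : ℝ) ≠ 0 := by positivity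
  push_cast
  field_simp

lemma iteratedDeriv_gk (k : ℕ) : iteratedDeriv k (gk a 0) = fun x => (-1) ^ k * gk a k x := by
  induction k with
  | zero => funext x; simp
  | succ k ih =>
    rw [iteratedDeriv_succ, ih]
    funext x
    rw [((hasDerivAt_gk hs k x).const_mul ((-1) ^ k)).deriv]
    ring

lemma gk_nonneg (h : Good a) (k : ℕ) {x : ℝ} (hx : 0 ≤ x) : 0 ≤ gk a k x := by
  -- approximation by squares
  have hlim : Tendsto (fun m : ℕ => ∑' n : ℕ, ((2 * (m + 1)).choose n : ℝ) *
      (-(x / (2 * (m + 1)))) ^ n * a (n + k)) atTop (𝓝 (gk a k x)) := by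
    refine tendsto_tsum_of_dominated_convergence (summable_shift hs k hx) ?_ ?_
    · intro n
      have h1 : Tendsto (fun m : ℕ => ((2 * (m + 1)).choose n : ℝ) / ((2 * (m + 1) : ℕ) : ℝ) ^ n) atTop
          (𝓝 (1 / n.factorial)) := by
        have h2 : Tendsto (fun N : ℕ => (N.choose n : ℝ) / (N : ℝ) ^ n) atTop (𝓝 (1 / n.factorial)) := by
          have h3 : ∀ N : ℕ, (N.choose n : ℝ) / (N : ℝ) ^ n =
              (∏ i ∈ range n, (((N - i : ℕ) : ℝ) / N)) / n.factorial := by
            intro N
            rw [Finset.prod_div_distrib, prod_const, card_range]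
            have h4 : ((N.descFactorial n : ℕ) : ℝ) = (n.factorial : ℝ) * (N.choose n : ℝ) := by
              exact_mod_cast Nat.descFactorial_eq_factorial_mul_choose N n
            have h5 : ((N.descFactorial n : ℕ) : ℝ) = ∏ i ∈ range n, ((N - i : ℕ) : ℝ) := by
              rw [Nat.descFactorial_eq_prod_range]; push_cast; rfl
            rw [← h5, h4]
            have : (n.factorial : ℝ) ≠ 0 := by positivity
            field_simp
          simp only [h3]
          have h6 : Tendsto (fun N : ℕ => ∏ i ∈ range n, (((N - i : ℕ) : ℝ) / N)) atTop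
              (𝓝 (∏ i ∈ range n, (1 : ℝ))) := by
            refine tendsto_finsetProd _ fun i _ => ?_
            have h7 : Tendsto (fun N : ℕ => 1 - (i : ℝ) / N) atTop (𝓝 (1 - 0)) :=
              tendsto_const_nhds.sub (tendsto_const_div_atTop_nhds_zero_nat (i : ℝ))
            rw [sub_zero] at h7
            refine h7.congr' ?_
            filter_upwards [eventually_ge_atTop (i + 1)] with N hN
            have hN0 : (N : ℝ) ≠ 0 := by
              have : 0 < N := by omega
              exact_mod_cast this.ne'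
            rw [Nat.cast_sub (by omega)]
            field_simp
          rw [prod_const_one] at h6
          exact h6.div_const _
        refine h2.comp (tendsto_atTop_mono (fun m => ?_) tendsto_id)
        simp only [id]; omega
      have h8 := (h1.mul_const ((-x) ^ n * a (n + k)))
      have h9 : 1 / (n.factorial : ℝ) * ((-x) ^ n * a (n + k)) = (-x) ^ n * (a (n + k) / n.factorial) := by
        ring
      rw [h9] at h8
      refine h8.congr fun m => ?_
      have hm : (((2 * (m + 1) : ℕ) : ℝ)) ≠ 0 := by positivity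
      have hm2 : (2 * ((m : ℝ) + 1)) ≠ 0 := by positivity
      push_cast
      rw [show -(x / (2 * ((m : ℝ) + 1))) = (-x) / (2 * (m + 1)) by ring, div_pow]
      ring
    · refine Eventually.of_forall fun m n => ?_
      rw [norm_mul, norm_mul, norm_pow, norm_neg, Real.norm_eq_abs, Real.norm_eq_abs, Real.norm_eq_abs,
        abs_of_nonneg (by positivity : (0 : ℝ) ≤ ((2 * (m + 1)).choose n : ℝ)),
        abs_of_nonneg (by positivity : (0 : ℝ) ≤ x / (2 * ((m : ℝ) + 1)))]
      have h1 : ((2 * (m + 1)).choose n : ℝ) ≤ ((2 * (m + 1) : ℕ) : ℝ) ^ n / n.factorial :=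
        Nat.choose_le_pow_div n (2 * (m + 1))
      have h2 : (0 : ℝ) < 2 * ((m : ℝ) + 1) := by positivity
      calc ((2 * (m + 1)).choose n : ℝ) * (x / (2 * ((m : ℝ) + 1))) ^ n * |a (n + k)| ≤
          (((2 * (m + 1) : ℕ) : ℝ) ^ n / n.factorial) * (x / (2 * ((m : ℝ) + 1))) ^ n * |a (n + k)| := by
            gcongr
        _ = x ^ n * (|a (n + k)| / n.factorial) := by
            push_cast
            rw [div_pow]
            have : (2 * ((m : ℝ) + 1)) ^ n ≠ 0 := pow_ne_zero _ h2.ne'
            have : (n.factorial : ℝ) ≠ 0 := by positivity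
            field_simp
  refine ge_of_tendsto' hlim fun m => ?_
  -- finite sum
  rw [tsum_eq_sum (s := range (2 * (m + 1) + 1)) (fun n hn => by
    rw [mem_range, not_lt] at hn
    rw [Nat.choose_eq_zero_of_lt (by omega)]; simp)]
  have h1 := h.shift_nonneg k ((C (-(x / (2 * ((m : ℝ) + 1)))) * X + 1) ^ (m + 1))
  have h2 : X ^ k * (((C (-(x / (2 * ((m : ℝ) + 1)))) * X + 1) ^ (m + 1)) ^ 2 : ℝ[X]) =
      ∑ n ∈ range (2 * (m + 1) + 1), C (((2 * (m + 1)).choose n : ℝ) *
        (-(x / (2 * ((m : ℝ) + 1)))) ^ n) * X ^ (n + k) := by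
    rw [← pow_mul, mul_comm (m + 1) 2, add_pow, mul_sum]
    refine sum_congr rfl fun n _ => ?_
    rw [mul_pow, one_pow, mul_one, map_mul, map_pow, map_natCast]
    ring
  rw [h2, La_sum] at h1
  simpa only [La_mono] using h1

theorem CM_of_good (h : Good a) : CM (gk a 0) := by
  refine ⟨?_, fun k x hx => ?_⟩
  · refine ContDiff.contDiffOn ?_
    refine contDiff_of_differentiable_iteratedDeriv fun m _ => ?_
    rw [iteratedDeriv_gk hs]
    exact fun x => ((hasDerivAt_gk hs m x).differentiableAt).const_mul _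
  · rw [iteratedDeriv_gk hs]
    simp only
    rw [← mul_assoc, ← mul_pow]
    norm_num
    exact gk_nonneg hs h k hx.le

end

end Q81.Leroy
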