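import Pool.Agent.Q81.Leroy2

/-!
# The sequence `n! / Γ(n/20 + 8/125)²`
-/

namespace Q81.Leroy

open Polynomial Finset Filter Topology MeasureTheory

/-- the weight -/
noncomputable def ww (τ : ℝ) : ℝ := τ ^ ((9 : ℝ) / 10 - 1) * (τ ^ 2 - 62 / 125 * τ + (63 / 250) ^ 2) * Real.exp (-τ)

lemma ww_nonneg {τ : ℝ} (hτ : 0 < τ) : 0 ≤ ww τ := by
  unfold ww
  have h1 : 0 ≤ τ ^ 2 - 62 / 125 * τ + (63 / 250) ^ 2 := by nlinarith [sq_nonneg (τ - 31 / 125)]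
  positivity

/-- the base sequence -/
noncomputable def BB (n : ℕ) : ℝ :=
  Real.Gamma (9 / 10 * (n + 1)) * (9 / 10 * (n + 1) + 63 / 250) ^ 2

lemma BB_int (n : ℕ) : IntegrableOn (fun τ : ℝ => (τ ^ ((9 : ℝ) / 10)) ^ n * ww τ) (Set.Ioi 0) ∧
    ∫ τ in Set.Ioi (0 : ℝ), (τ ^ ((9 : ℝ) / 10)) ^ n * ww τ = BB n := by
  set s : ℝ := 9 / 10 * (n + 1) with hs
  have hn : (0 : ℝ) ≤ n := Nat.cast_nonneg n
  have hs0 : 0 < s := by positivity
  have i0 := Real.GammaIntegral_convergent hs0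
  have i1 := Real.GammaIntegral_convergent (show 0 < s + 1 by linarith)
  have i2 := Real.GammaIntegral_convergent (show 0 < s + 2 by linarith)
  have heq : ∀ τ ∈ Set.Ioi (0 : ℝ), Real.exp (-τ) * τ ^ (s + 2 - 1) -
      62 / 125 * (Real.exp (-τ) * τ ^ (s + 1 - 1)) + (63 / 250) ^ 2 * (Real.exp (-τ) * τ ^ (s - 1)) =
      (τ ^ ((9 : ℝ) / 10)) ^ n * ww τ := by
    intro τ hτ
    have hτ0 : 0 < τ := hτ
    have e1 : τ ^ (s + 2 - 1) = τ ^ (s - 1) * τ ^ 2 := by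
      rw [show s + 2 - 1 = (s - 1) + 2 by ring, Real.rpow_add hτ0, Real.rpow_two]
    have e2 : τ ^ (s + 1 - 1) = τ ^ (s - 1) * τ := by
      rw [show s + 1 - 1 = (s - 1) + 1 by ring, Real.rpow_add hτ0, Real.rpow_one]
    have e3 : (τ ^ ((9 : ℝ) / 10)) ^ n * τ ^ ((9 : ℝ) / 10 - 1) = τ ^ (s - 1) := by
      rw [← Real.rpow_natCast, ← Real.rpow_mul hτ0.le, ← Real.rpow_add hτ0]
      congr 1
      rw [hs]; ring
    rw [e1, e2, ww, ← e3]
    ring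
  have hint : IntegrableOn (fun τ : ℝ => Real.exp (-τ) * τ ^ (s + 2 - 1) -
      62 / 125 * (Real.exp (-τ) * τ ^ (s + 1 - 1)) + (63 / 250) ^ 2 * (Real.exp (-τ) * τ ^ (s - 1)))
      (Set.Ioi 0) := (i2.sub (i1.const_mul _)).add (i0.const_mul _)
  refine ⟨hint.congr_fun heq measurableSet_Ioi, ?_⟩
  rw [← setIntegral_congr_fun measurableSet_Ioi heq]
  have j1 := integral_add (i2.sub (i1.const_mul (62 / 125))) (i0.const_mul ((63 / 250) ^ 2))
  have j2 := integral_sub i2 (i1.const_mul (62 / 125))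
  simp only [Pi.sub_apply] at j1
  rw [j1, j2, integral_const_mul, integral_const_mul, ← Real.Gamma_eq_integral hs0,
    ← Real.Gamma_eq_integral (show 0 < s + 1 by linarith),
    ← Real.Gamma_eq_integral (show 0 < s + 2 by linarith)]
  have g1 : Real.Gamma (s + 1) = s * Real.Gamma s := Real.Gamma_add_one hs0.ne'
  have g2 : Real.Gamma (s + 2) = (s + 1) * (s * Real.Gamma s) := by
    rw [show s + 2 = (s + 1) + 1 by ring, Real.Gamma_add_one (by linarith), g1]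
  rw [g1, g2, BB, ← hs]
  ring

lemma La_BB (P : ℝ[X]) : La BB P = ∫ τ in Set.Ioi (0 : ℝ), P.eval (τ ^ ((9 : ℝ) / 10)) * ww τ := by
  have h1 : ∀ τ : ℝ, P.eval (τ ^ ((9 : ℝ) / 10)) * ww τ = ∑ n ∈ range (P.natDegree + 1),
      P.coeff n * ((τ ^ ((9 : ℝ) / 10)) ^ n * ww τ) := by
    intro τ
    rw [eval_eq_sum_range, sum_mul]
    exact sum_congr rfl fun n _ => by ring
  simp only [h1]
  rw [integral_finsetSum _ fun n _ => (BB_int n).1.const_mul _, La]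
  refine sum_congr rfl fun n _ => ?_
  rw [integral_const_mul, (BB_int n).2]

lemma good_BB : Good BB := by
  refine ⟨fun p => ?_, fun p => ?_⟩
  · rw [La_BB]
    refine setIntegral_nonneg measurableSet_Ioi fun τ hτ => mul_nonneg ?_ (ww_nonneg hτ)
    rw [eval_pow]; positivity
  · rw [La_BB]
    refine setIntegral_nonneg measurableSet_Ioi fun τ hτ => mul_nonneg ?_ (ww_nonneg hτ)
    rw [eval_mul, eval_pow, eval_X]
    have : (0 : ℝ) < τ := hτ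
    positivity

/-- the zeros -/
noncomputable def zz (Q i : ℕ) : ℝ := if i < 18 then 1 + 20 * Q + 10 / 9 * i else 32 / 25 + 20 * (Q + 1)

/-- the rational factors -/
noncomputable def RR : ℕ → ℕ → ℝ
  | 0, _ => 1
  | Q + 1, n => RR Q n * ∏ i ∈ range 20, (((n : ℝ) + zz Q i) / (n + (1 + 20 * Q + i)))

lemma good_RR (Q : ℕ) : Good fun n => BB n * RR Q n := by
  induction Q with
  | zero => simpa [RR] using good_BB
  | succ Q ih =>
    have h := ih.ratio_prod (range 20) (q := fun i => 1 + 20 * (Q : ℝ) + i) (z := fun i => zz Q i)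
      (fun i _ => by positivity) (fun i hi => by
        have hi' := mem_range.1 hi
        unfold zz
        split_ifs with h
        · have : (0 : ℝ) ≤ i := Nat.cast_nonneg i
          linarith
        · have : (i : ℝ) ≤ 19 := by exact_mod_cast (by omega : i ≤ 19)
          linarith)
    refine (show (fun n => BB n * RR (Q + 1) n) = _ from ?_) ▸ h
    funext n
    rw [RR]; ring

lemma RR_eq (Q n : ℕ) : RR Q n = (∏ j ∈ range (18 * Q), ((n : ℝ) + 1 + 10 / 9 * j)) *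
    (∏ l ∈ range Q, ((n : ℝ) + 32 / 25 + 20 * (l + 1))) ^ 2 / ∏ j ∈ range (20 * Q), ((n : ℝ) + 1 + j) := by
  have hn : (0 : ℝ) ≤ n := Nat.cast_nonneg n
  induction Q with
  | zero => simp [RR]
  | succ Q ih =>
    rw [RR, ih, mul_add, mul_add, mul_one, mul_one,
      prod_range_add (fun j : ℕ => (n : ℝ) + 1 + 10 / 9 * j) (18 * Q) 18,
      prod_range_add (fun j : ℕ => (n : ℝ) + 1 + j) (20 * Q) 20,
      prod_range_succ (fun l : ℕ => (n : ℝ) + 32 / 25 + 20 * (l + 1)), prod_div_distrib]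
    have e1 : ∏ i ∈ range 20, ((n : ℝ) + zz Q i) =
        (∏ x ∈ range 18, ((n : ℝ) + 1 + 10 / 9 * ((18 * Q + x : ℕ) : ℝ))) *
          ((n : ℝ) + 32 / 25 + 20 * (Q + 1)) ^ 2 := by
      rw [prod_range_succ, prod_range_succ]
      have h18 : zz Q 18 = 32 / 25 + 20 * (Q + 1) := by unfold zz; norm_num
      have h19 : zz Q 19 = 32 / 25 + 20 * (Q + 1) := by unfold zz; norm_num
      rw [h18, h19]
      have : ∏ x ∈ range 18, ((n : ℝ) + zz Q x) =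
          ∏ x ∈ range 18, ((n : ℝ) + 1 + 10 / 9 * ((18 * Q + x : ℕ) : ℝ)) := by
        refine prod_congr rfl fun x hx => ?_
        unfold zz
        rw [if_pos (mem_range.1 hx)]
        push_cast
        ring
      rw [this]
      ring
    have e2 : ∏ x ∈ range 20, ((n : ℝ) + (1 + 20 * Q + x)) =
        ∏ x ∈ range 20, ((n : ℝ) + 1 + ((20 * Q + x : ℕ) : ℝ)) :=
      prod_congr rfl fun x _ => by push_cast; ring
    rw [e1, e2]
    have d1 : ∏ j ∈ range (20 * Q), ((n : ℝ) + 1 + j) ≠ 0 :=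
      (prod_pos fun j _ => by positivity).ne'
    have d2 : ∏ x ∈ range 20, ((n : ℝ) + 1 + ((20 * Q + x : ℕ) : ℝ)) ≠ 0 :=
      (prod_pos fun j _ => by positivity).ne'
    field_simp

/-- the approximating sequences -/
noncomputable def SS (k n : ℕ) : ℝ := BB n * (Real.GammaSeq (n + 1) (20 * k + 39) /
  (Real.GammaSeq (9 / 10 * (n + 1)) (18 * k + 35) * Real.GammaSeq (1 + (n + 32 / 25) / 20) (k + 1) ^ 2))

lemma SS_aux (Q m m' m'' : ℕ) (h : m + 1 = 20 * Q) (h' : m' + 1 = 18 * Q) (h'' : m'' + 1 = Q)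
    (hm : 0 < m) (hm' : 0 < m') (hm'' : 0 < m'') : ∃ K κ : ℝ, 0 ≤ K ∧ 0 ≤ κ ∧ ∀ n : ℕ,
    BB n * (Real.GammaSeq (n + 1) m / (Real.GammaSeq (9 / 10 * (n + 1)) m' *
      Real.GammaSeq (1 + (n + 32 / 25) / 20) m'' ^ 2)) = K * (κ ^ n * (BB n * RR Q n)) := by
  obtain ⟨M, hM⟩ : ∃ M : ℝ, M = (m : ℝ) := ⟨_, rfl⟩
  obtain ⟨M', hM'⟩ : ∃ M' : ℝ, M' = (m' : ℝ) := ⟨_, rfl⟩
  obtain ⟨M'', hM''⟩ : ∃ M'' : ℝ, M'' = (m'' : ℝ) := ⟨_, rfl⟩
  have hM0 : 0 < M := by rw [hM]; exact_mod_cast hm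
  have hM'0 : 0 < M' := by rw [hM']; exact_mod_cast hm'
  have hM''0 : 0 < M'' := by rw [hM'']; exact_mod_cast hm''
  obtain ⟨F, hF⟩ : ∃ F : ℝ, F = (m.factorial : ℝ) := ⟨_, rfl⟩
  obtain ⟨F', hF'⟩ : ∃ F : ℝ, F = (m'.factorial : ℝ) := ⟨_, rfl⟩
  obtain ⟨F'', hF''⟩ : ∃ F : ℝ, F = (m''.factorial : ℝ) := ⟨_, rfl⟩
  have hF0 : 0 < F := by rw [hF]; exact_mod_cast m.factorial_pos
  have hF'0 : 0 < F' := by rw [hF']; exact_mod_cast m'.factorial_pos
  have hF''0 : 0 < F'' := by rw [hF'']; exact_mod_cast m''.factorial_pos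
  refine ⟨M * F * (9 / 10) ^ (18 * Q) * ((1 / 20) ^ Q) ^ 2 /
    (M' ^ ((9 : ℝ) / 10) * F' * (M'' ^ ((1 : ℝ) + 32 / 25 / 20) * F'') ^ 2),
    M / (M' ^ ((9 : ℝ) / 10) * (M'' ^ ((1 : ℝ) / 20)) ^ 2), by positivity, by positivity, fun n => ?_⟩
  have hn : (0 : ℝ) ≤ n := Nat.cast_nonneg n
  have p0 : M ^ ((n : ℝ) + 1) = M ^ n * M := by
    rw [Real.rpow_add hM0, Real.rpow_natCast, Real.rpow_one]
  have p1 : M' ^ (9 / 10 * ((n : ℝ) + 1)) = (M' ^ ((9 : ℝ) / 10)) ^ n * M' ^ ((9 : ℝ) / 10) := by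
    rw [← Real.rpow_natCast (M' ^ ((9 : ℝ) / 10)), ← Real.rpow_mul hM'0.le, ← Real.rpow_add hM'0]
    congr 1; ring
  have p2 : M'' ^ (1 + ((n : ℝ) + 32 / 25) / 20) =
      (M'' ^ ((1 : ℝ) / 20)) ^ n * M'' ^ ((1 : ℝ) + 32 / 25 / 20) := by
    rw [← Real.rpow_natCast (M'' ^ ((1 : ℝ) / 20)), ← Real.rpow_mul hM''0.le, ← Real.rpow_add hM''0]
    congr 1; ring
  have q1 : ∏ j ∈ range (18 * Q), (9 / 10 * ((n : ℝ) + 1) + j) =
      (9 / 10) ^ (18 * Q) * ∏ j ∈ range (18 * Q), ((n : ℝ) + 1 + 10 / 9 * j) := by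
    rw [show ((9 : ℝ) / 10) ^ (18 * Q) = ∏ _j ∈ range (18 * Q), ((9 : ℝ) / 10) by
      rw [prod_const, card_range], ← prod_mul_distrib]
    exact prod_congr rfl fun j _ => by ring
  have q2 : ∏ j ∈ range Q, (1 + ((n : ℝ) + 32 / 25) / 20 + j) =
      (1 / 20) ^ Q * ∏ l ∈ range Q, ((n : ℝ) + 32 / 25 + 20 * (l + 1)) := by
    rw [show ((1 : ℝ) / 20) ^ Q = ∏ _j ∈ range Q, ((1 : ℝ) / 20) by
      rw [prod_const, card_range], ← prod_mul_distrib]
    exact prod_congr rfl fun j _ => by ring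
  obtain ⟨D0, hD0⟩ : ∃ D : ℝ, D = ∏ j ∈ range (20 * Q), ((n : ℝ) + 1 + j) := ⟨_, rfl⟩
  obtain ⟨D1, hD1⟩ : ∃ D : ℝ, D = ∏ j ∈ range (18 * Q), ((n : ℝ) + 1 + 10 / 9 * (j : ℝ)) := ⟨_, rfl⟩
  obtain ⟨D2, hD2⟩ : ∃ D : ℝ, D = ∏ l ∈ range Q, ((n : ℝ) + 32 / 25 + 20 * ((l : ℝ) + 1)) := ⟨_, rfl⟩
  have d0 : 0 < D0 := by rw [hD0]; exact prod_pos fun j _ => by positivity
  have d1 : 0 < D1 := by rw [hD1]; exact prod_pos fun j _ => by positivity
  have d2 : 0 < D2 := by rw [hD2]; exact prod_pos fun j _ => by positivity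
  rw [← hD1] at q1
  rw [← hD2] at q2
  rw [RR_eq, ← hD0, ← hD1, ← hD2, Real.GammaSeq, Real.GammaSeq, Real.GammaSeq, ← hM, ← hM', ← hM'',
    ← hF, ← hF', ← hF'', p0, p1, p2, h, h', h'', q1, q2, ← hD0]
  obtain ⟨y1, hy1⟩ : ∃ y : ℝ, y = M' ^ ((9 : ℝ) / 10) := ⟨_, rfl⟩
  obtain ⟨y2, hy2⟩ : ∃ y : ℝ, y = M'' ^ ((1 : ℝ) / 20) := ⟨_, rfl⟩
  obtain ⟨y3, hy3⟩ : ∃ y : ℝ, y = M'' ^ ((1 : ℝ) + 32 / 25 / 20) := ⟨_, rfl⟩
  have x1 : 0 < y1 := by rw [hy1]; positivity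
  have x2 : 0 < y2 := by rw [hy2]; positivity
  have x3 : 0 < y3 := by rw [hy3]; positivity
  rw [← hy1, ← hy2, ← hy3]
  have x4 : y1 ^ n ≠ 0 := pow_ne_zero _ x1.ne'
  have x5 : y2 ^ n ≠ 0 := pow_ne_zero _ x2.ne'
  have e : (M / (y1 * y2 ^ 2)) ^ n = M ^ n / (y1 ^ n * (y2 ^ n) ^ 2) := by
    rw [div_pow, mul_pow, ← pow_mul, mul_comm 2 n, pow_mul]
  rw [e]
  obtain ⟨u1, hu1⟩ : ∃ u : ℝ, u = ((9 : ℝ) / 10) ^ (18 * Q) := ⟨_, rfl⟩
  obtain ⟨u2, hu2⟩ : ∃ u : ℝ, u = ((1 : ℝ) / 20) ^ Q := ⟨_, rfl⟩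
  have hu1' : u1 ≠ 0 := by rw [hu1]; positivity
  have hu2' : u2 ≠ 0 := by rw [hu2]; positivity
  rw [← hu1, ← hu2]
  field_simp

lemma SS_eq (k : ℕ) : ∃ K κ : ℝ, 0 ≤ K ∧ 0 ≤ κ ∧ ∀ n, SS k n = K * (κ ^ n * (BB n * RR (k + 2) n)) :=
  SS_aux (k + 2) (20 * k + 39) (18 * k + 35) (k + 1) (by ring) (by ring) rfl (by omega) (by omega)
    (by omega)

lemma good_SS (k : ℕ) : Good (SS k) := by
  obtain ⟨K, κ, hK, hκ, h⟩ := SS_eq k
  have := ((good_RR (k + 2)).scale hκ).const hK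
  refine (show SS k = _ from funext h) ▸ this

/-- the sequence `n!/Γ(n/20+8/125)^2` -/
noncomputable def aa (n : ℕ) : ℝ := (n.factorial : ℝ) / Real.Gamma (1 / 20 * n + 8 / 125) ^ 2

lemma good_aa : Good aa := by
  have hlim : ∀ n, Tendsto (fun k => (1 / 20) ^ 2 / (9 / 10) ^ 2 * SS k n) atTop (𝓝 (aa n)) := by
    intro n
    have hn : (0 : ℝ) ≤ n := Nat.cast_nonneg n
    have t0 : Tendsto (fun k : ℕ => Real.GammaSeq (n + 1) (20 * k + 39)) atTop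
        (𝓝 (Real.Gamma (n + 1))) :=
      (Real.GammaSeq_tendsto_Gamma _).comp (tendsto_atTop_mono (fun k => by simp only [id]; omega) tendsto_id)
    have t1 : Tendsto (fun k : ℕ => Real.GammaSeq (9 / 10 * (n + 1)) (18 * k + 35)) atTop
        (𝓝 (Real.Gamma (9 / 10 * (n + 1)))) :=
      (Real.GammaSeq_tendsto_Gamma _).comp (tendsto_atTop_mono (fun k => by simp only [id]; omega) tendsto_id)
    have t2 : Tendsto (fun k : ℕ => Real.GammaSeq (1 + (n + 32 / 25) / 20) (k + 1)) atTop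
        (𝓝 (Real.Gamma (1 + (n + 32 / 25) / 20))) :=
      (Real.GammaSeq_tendsto_Gamma _).comp (tendsto_atTop_mono (fun k => by simp only [id]; omega) tendsto_id)
    have g1 : 0 < Real.Gamma (9 / 10 * (n + 1)) := Real.Gamma_pos_of_pos (by positivity)
    have g2 : 0 < Real.Gamma (1 + (n + 32 / 25) / 20) := Real.Gamma_pos_of_pos (by positivity)
    have g3 : 0 < Real.Gamma (1 / 20 * n + 8 / 125) := Real.Gamma_pos_of_pos (by positivity)
    have t3 := ((t0.div (t1.mul (t2.pow 2)) (by positivity)).const_mul (BB n)).const_mul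
      ((1 / 20 : ℝ) ^ 2 / (9 / 10) ^ 2)
    have e : (1 / 20 : ℝ) ^ 2 / (9 / 10) ^ 2 * (BB n * (Real.Gamma (n + 1) /
        (Real.Gamma (9 / 10 * (n + 1)) * Real.Gamma (1 + (n + 32 / 25) / 20) ^ 2))) = aa n := by
      rw [BB, aa, Real.Gamma_nat_eq_factorial]
      have e1 : Real.Gamma (1 + ((n : ℝ) + 32 / 25) / 20) =
          (((n : ℝ) + 32 / 25) / 20) * Real.Gamma (1 / 20 * n + 8 / 125) := by
        rw [show 1 + ((n : ℝ) + 32 / 25) / 20 = (1 / 20 * n + 8 / 125) + 1 by ring,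
          Real.Gamma_add_one (by positivity)]
        ring
      rw [e1]
      have hc : (n : ℝ) + 32 / 25 ≠ 0 := by positivity
      have e2 : (9 / 10 * ((n : ℝ) + 1) + 63 / 250) = 9 / 10 * (n + 32 / 25) := by ring
      rw [e2]
      field_simp
    rw [e] at t3
    exact t3
  exact Good.lim (fun k => (good_SS k).const (by norm_num)) hlim

/-! ### Growth -/

lemma Gamma_lower {y R : ℝ} (hy : 1 ≤ y) (hR : 0 < R) : R ^ (y - 1) * Real.exp (-R) ≤ Real.Gamma y := by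
  rw [Real.Gamma_eq_integral (by linarith)]
  have h1 := Real.GammaIntegral_convergent (show 0 < y by linarith)
  have h2 : ∫ t in Set.Ioi R, Real.exp (-t) * t ^ (y - 1) ≤
      ∫ t in Set.Ioi (0 : ℝ), Real.exp (-t) * t ^ (y - 1) := by
    refine setIntegral_mono_set h1 ?_ ?_
    · refine (ae_restrict_iff' measurableSet_Ioi).2 (Eventually.of_forall fun t ht => ?_)
      have : (0 : ℝ) < t := ht
      positivity
    · exact (Set.Ioi_subset_Ioi hR.le).eventuallyLE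
  refine le_trans ?_ h2
  have h3 : IntegrableOn (fun t : ℝ => Real.exp (-t) * R ^ (y - 1)) (Set.Ioi R) :=
    (integrableOn_exp_neg_Ioi R).mul_const _
  have h4 : ∫ t in Set.Ioi R, Real.exp (-t) * R ^ (y - 1) = R ^ (y - 1) * Real.exp (-R) := by
    rw [integral_mul_const, integral_exp_neg_Ioi]; ring
  rw [← h4]
  refine setIntegral_mono_on h3 (h1.mono_set (Set.Ioi_subset_Ioi hR.le)) measurableSet_Ioi
    fun t ht => ?_
  have htR : R < t := ht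
  gcongr

lemma aa_div (n : ℕ) : |aa n| / (n.factorial : ℝ) = 1 / Real.Gamma (1 / 20 * n + 8 / 125) ^ 2 := by
  have g3 : 0 < Real.Gamma (1 / 20 * n + 8 / 125) := Real.Gamma_pos_of_pos (by positivity)
  have hf : (0 : ℝ) < (n.factorial : ℝ) := by exact_mod_cast n.factorial_pos
  rw [aa, abs_of_pos (by positivity)]
  field_simp

lemma summable_aa (r : ℝ) (hr : 0 ≤ r) : Summable fun n : ℕ => r ^ n * (|aa n| / n.factorial) := by
  rw [← summable_nat_add_iff 20]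
  set ρ : ℝ := 2 * (r + 1) with hρ
  have hρ0 : 0 < ρ := by positivity
  set R : ℝ := ρ ^ (10 : ℕ) with hR
  have hR0 : 0 < R := by positivity
  have hgeo : Summable fun n : ℕ => (r / ρ) ^ n := by
    refine summable_geometric_of_lt_one (by positivity) ?_
    rw [div_lt_one hρ0]; linarith
  simp only [aa_div]
  refine Summable.of_nonneg_of_le (fun n => by positivity) (fun n => ?_)
    (hgeo.mul_left (r ^ 20 * (Real.exp R ^ 2 / (R ^ ((8 : ℝ) / 125)) ^ 2)))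
  have hn : (0 : ℝ) ≤ n := Nat.cast_nonneg n
  have g3 : 0 < Real.Gamma (1 / 20 * ((n + 20 : ℕ) : ℝ) + 8 / 125) := Real.Gamma_pos_of_pos (by positivity)
  have h1 := Gamma_lower (y := 1 / 20 * ((n + 20 : ℕ) : ℝ) + 8 / 125) (by push_cast; linarith) hR0
  have e2 : R ^ (1 / 20 * ((n + 20 : ℕ) : ℝ) + 8 / 125 - 1) = (R ^ ((1 : ℝ) / 20)) ^ n * R ^ ((8 : ℝ) / 125) := by
    rw [← Real.rpow_natCast (R ^ ((1 : ℝ) / 20)), ← Real.rpow_mul hR0.le, ← Real.rpow_add hR0]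
    congr 1
    push_cast
    ring
  rw [e2] at h1
  set y := R ^ ((1 : ℝ) / 20) with hy
  have hy0 : 0 < y := by positivity
  have hy2 : y ^ 2 = ρ := by
    rw [hy, ← Real.rpow_natCast, ← Real.rpow_mul hR0.le, hR, ← Real.rpow_natCast, ← Real.rpow_mul hρ0.le]
    norm_num
  have h2 : (y ^ n * R ^ ((8 : ℝ) / 125) * Real.exp (-R)) ^ 2 ≤
      Real.Gamma (1 / 20 * ((n + 20 : ℕ) : ℝ) + 8 / 125) ^ 2 := by gcongr
  have h3 : 0 < (y ^ n * R ^ ((8 : ℝ) / 125) * Real.exp (-R)) ^ 2 := by positivity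
  have h4 : 1 / Real.Gamma (1 / 20 * ((n + 20 : ℕ) : ℝ) + 8 / 125) ^ 2 ≤
      1 / (y ^ n * R ^ ((8 : ℝ) / 125) * Real.exp (-R)) ^ 2 := by gcongr
  calc r ^ (n + 20) * (1 / Real.Gamma (1 / 20 * ((n + 20 : ℕ) : ℝ) + 8 / 125) ^ 2) ≤
      r ^ (n + 20) * (1 / (y ^ n * R ^ ((8 : ℝ) / 125) * Real.exp (-R)) ^ 2) := by gcongr
    _ = _ := by
      have e3 : (y ^ n * R ^ ((8 : ℝ) / 125) * Real.exp (-R)) ^ 2 =
          ρ ^ n * (R ^ ((8 : ℝ) / 125)) ^ 2 / Real.exp R ^ 2 := by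
        rw [mul_pow, mul_pow, ← pow_mul, mul_comm n 2, pow_mul, hy2, Real.exp_neg]
        field_simp
      rw [e3, div_pow, pow_add]
      have : Real.exp R ≠ 0 := (Real.exp_pos R).ne'
      have : R ^ ((8 : ℝ) / 125) ≠ 0 := by positivity
      have : ρ ^ n ≠ 0 := by positivity
      field_simp

theorem CM_aa : CM (gk aa 0) := CM_of_good summable_aa good_aa

end Q81.Leroy
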