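import Mathlib
import Pool.Agent.Q81.Lqr

/-!
# Decay rate of the linear quadratic regulator: centring and conclusion
-/

namespace Q81.Lqr

open Matrix Q81.TraceInv
open scoped Matrix ComplexOrder Matrix.Norms.L2Operator

variable {n m : ℕ}

lemma re_eq_zero {A : Matrix (Fin n) (Fin n) ℂ} (hA : Aᴴ = -A) {z : ℂ}
    (hz : z ∈ spectrum ℂ A) : z.re = 0 := by
  have hsa : IsSelfAdjoint (Complex.I • A) := by
    rw [IsSelfAdjoint, Matrix.star_eq_conjTranspose, Matrix.conjTranspose_smul, hA]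
    simp
  have h1 : (Units.mk0 Complex.I Complex.I_ne_zero) • z ∈
      spectrum ℂ ((Units.mk0 Complex.I Complex.I_ne_zero) • A) :=
    spectrum.smul_mem_smul_iff.2 hz
  have h2 : Complex.I * z ∈ spectrum ℂ (Complex.I • A) := h1
  have h3 := hsa.mem_spectrum_eq_re h2
  have := congrArg Complex.im h3
  simpa using this

lemma shift_mem {M : Matrix (Fin n) (Fin n) ℂ} {c z : ℂ}
    (hz : z ∈ spectrum ℂ (M - c • (1 : Matrix (Fin n) (Fin n) ℂ))) : z + c ∈ spectrum ℂ M := by
  rw [spectrum.add_mem_iff]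
  have e : -(algebraMap ℂ (Matrix (Fin n) (Fin n) ℂ)) c + M = M - c • 1 := by
    rw [Algebra.algebraMap_eq_smul_one]
    abel
  rw [e]
  exact hz

lemma exists_centre [Nonempty (Fin n)] {A : Matrix (Fin n) (Fin n) ℂ} (hA : Aᴴ = -A) :
    ∃ τ : ℝ, ‖A - ((τ : ℂ) * Complex.I) • (1 : Matrix (Fin n) (Fin n) ℂ)‖ ≤
      Metric.diam (spectrum ℂ A) / 2 := by
  have hcomp : IsCompact (spectrum ℂ A) := spectrum.isCompact A
  have hne : (spectrum ℂ A).Nonempty := spectrum.nonempty_of_isAlgClosed_of_finiteDimensional ℂ A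
  obtain ⟨z1, hz1, hmax⟩ := hcomp.exists_isMaxOn hne Complex.continuous_im.continuousOn
  obtain ⟨z2, hz2, hmin⟩ := hcomp.exists_isMinOn hne Complex.continuous_im.continuousOn
  refine ⟨(z1.im + z2.im) / 2, ?_⟩
  set τ : ℝ := (z1.im + z2.im) / 2 with hτ
  set A' := A - ((τ : ℂ) * Complex.I) • (1 : Matrix (Fin n) (Fin n) ℂ) with hA'
  have hdist : z1.im - z2.im ≤ Metric.diam (spectrum ℂ A) := by
    have h1 : dist z1 z2 ≤ Metric.diam (spectrum ℂ A) :=
      Metric.dist_le_diam_of_mem hcomp.isBounded hz1 hz2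
    have h2 : |(z1 - z2).im| ≤ ‖z1 - z2‖ := Complex.abs_im_le_norm _
    rw [Complex.sub_im] at h2
    rw [dist_eq_norm] at h1
    linarith [le_abs_self (z1.im - z2.im)]
  have hnorm : IsStarNormal A' := by
    constructor
    have hs : star A' = -A' := by
      rw [Matrix.star_eq_conjTranspose, hA', Matrix.conjTranspose_sub, Matrix.conjTranspose_smul,
        hA, Matrix.conjTranspose_one]
      simp only [star_mul', RCLike.star_def, Complex.conj_ofReal, Complex.conj_I, mul_neg,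
        neg_smul, sub_neg_eq_add]
      abel
    rw [hs]
    exact (Commute.refl A').neg_left
  have hbound : ∀ z ∈ spectrum ℂ A', ‖z‖₊ ≤ Real.toNNReal (Metric.diam (spectrum ℂ A) / 2) := by
    intro z hz
    have h1 : z + ((τ : ℂ) * Complex.I) ∈ spectrum ℂ A := shift_mem hz
    have hre := re_eq_zero hA h1
    have hz_re : z.re = 0 := by simpa using hre
    have hi1 : (z + ((τ : ℂ) * Complex.I)).im ≤ z1.im := hmax h1
    have hi2 : z2.im ≤ (z + ((τ : ℂ) * Complex.I)).im := hmin h1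
    simp at hi1 hi2
    rw [← NNReal.coe_le_coe, Real.coe_toNNReal _ (by positivity), coe_nnnorm]
    have : z = (z.im : ℂ) * Complex.I := by
      apply Complex.ext <;> simp [hz_re]
    rw [this, norm_mul, Complex.norm_I, mul_one, Complex.norm_real, Real.norm_eq_abs, abs_le]
    constructor <;> linarith
  have hrad : spectralRadius ℂ A' ≤ (Real.toNNReal (Metric.diam (spectrum ℂ A) / 2) : ENNReal) := by
    refine iSup₂_le fun z hz => ?_
    exact_mod_cast hbound z hz
  rw [IsStarNormal.spectralRadius_eq_nnnorm A'] at hrad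
  have h3 : ‖A'‖₊ ≤ Real.toNNReal (Metric.diam (spectrum ℂ A) / 2) := by exact_mod_cast hrad
  rw [← NNReal.coe_le_coe, Real.coe_toNNReal _ (by positivity), coe_nnnorm] at h3
  exact h3

theorem decay_le (hmn : m < n) {A : Matrix (Fin n) (Fin n) ℂ} (hA : Aᴴ = -A)
    (B : Matrix (Fin n) (Fin m) ℂ) (X : Matrix (Fin n) (Fin n) ℂ) (hX : X.PosDef)
    (hric : Aᴴ * X + X * A - X * B * Bᴴ * X + 1 = 0) :
    -sSup (Complex.re '' spectrum ℂ (A - B * Bᴴ * X)) ≤
      (6 * n - 3 / 2) * Metric.diam (spectrum ℂ A) := by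
  have : Nonempty (Fin n) := ⟨⟨0, by omega⟩⟩
  obtain ⟨y, hy, hBy⟩ := exists_ker hmn B
  obtain ⟨τ, hτ⟩ := exists_centre hA
  set Y := X⁻¹ with hYdef
  have hY : Y.PosDef := hX.inv
  have hXd : IsUnit X.det := (Matrix.isUnit_iff_isUnit_det X).1 hX.isUnit
  have hXY : X * Y = 1 := Matrix.mul_nonsing_inv X hXd
  have hYX : Y * X = 1 := Matrix.nonsing_inv_mul X hXd
  have hBB : B * Bᴴ = Y * Y + A * Y - Y * A := by
    have h1 : Y * (Aᴴ * X + X * A - X * B * Bᴴ * X + 1) * Y = 0 := by rw [hric]; simp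
    have h2 : Y * (Aᴴ * X + X * A - X * B * Bᴴ * X + 1) * Y
        = Y * Aᴴ * (X * Y) + (Y * X) * A * Y - (Y * X) * (B * Bᴴ) * (X * Y) + Y * Y := by
      rw [Matrix.mul_assoc X B Bᴴ]
      generalize B * Bᴴ = D
      noncomm_ring
    rw [h2, hXY, hYX, hA] at h1
    simp only [Matrix.mul_one, Matrix.one_mul, Matrix.mul_neg] at h1
    have h3 : B * Bᴴ = -(Y * A) + A * Y + Y * Y - (-(Y * A) + A * Y - B * Bᴴ + Y * Y) := by abel
    rw [h3, h1]
    abel
  set A' := A - ((τ : ℂ) * Complex.I) • (1 : Matrix (Fin n) (Fin n) ℂ) with hA'def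
  have hA' : A'ᴴ = -A' := by
    rw [hA'def, Matrix.conjTranspose_sub, Matrix.conjTranspose_smul, hA, Matrix.conjTranspose_one]
    simp only [star_mul', RCLike.star_def, Complex.conj_ofReal, Complex.conj_I, mul_neg,
        neg_smul, sub_neg_eq_add]
    abel
  have hcomm : Y * Y + A' * Y - Y * A' = B * Bᴴ := by
    rw [hBB, hA'def, Matrix.sub_mul, Matrix.mul_sub, Matrix.smul_mul, Matrix.mul_smul,
      Matrix.one_mul, Matrix.mul_one]
    abel
  have hker : star y ⬝ᵥ ((Y * Y + A' * Y - Y * A') *ᵥ y) = 0 := by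
    rw [hcomm, ← Matrix.mulVec_mulVec, hBy]
    simp
  have hA'y : nrm (A' *ᵥ y) ≤ (Metric.diam (spectrum ℂ A) / 2) * nrm y :=
    (nrm_mulVec_le A' y).trans (mul_le_mul_of_nonneg_right hτ (nrm_nonneg y))
  have hsim : spectrum ℂ (A - B * Bᴴ * X) = spectrum ℂ (A - Y) := by
    let u : (Matrix (Fin n) (Fin n) ℂ)ˣ := ⟨Y, X, hYX, hXY⟩
    have h1 : A - B * Bᴴ * X = (u : Matrix (Fin n) (Fin n) ℂ) * (A - Y) *
        ((u⁻¹ : (Matrix (Fin n) (Fin n) ℂ)ˣ) : Matrix (Fin n) (Fin n) ℂ) := by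
      show A - B * Bᴴ * X = Y * (A - Y) * X
      rw [hBB]
      have h2 : Y * (A - Y) * X = Y * A * X - Y * (Y * X) := by noncomm_ring
      have h3 : A - (Y * Y + A * Y - Y * A) * X
          = A - (Y * (Y * X) + A * (Y * X) - Y * A * X) := by noncomm_ring
      rw [h2, h3, hYX, Matrix.mul_one, Matrix.mul_one]
      abel
    rw [h1, spectrum.units_conjugate]
  rw [hsim]
  have hcomp : IsCompact (spectrum ℂ (A - Y)) := spectrum.isCompact _
  have hspec : ∀ z ∈ spectrum ℂ (A' - Y), z.re ≤ - -sSup (Complex.re '' spectrum ℂ (A - Y)) := by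
    intro z hz
    rw [neg_neg]
    have h1 : z + ((τ : ℂ) * Complex.I) ∈ spectrum ℂ (A - Y) := by
      apply shift_mem
      convert hz using 2
      rw [hA'def]
      abel
    have h2 := le_csSup (hcomp.image Complex.continuous_re).bddAbove ⟨_, h1, rfl⟩
    simpa using h2
  have := main_centred hA' hY hy hker hA'y hspec
  linarith

end Q81.Lqr
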