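import Mathlib

open scoped MatrixOrder ComplexOrder Matrix.Norms.L2Operator

namespace Pool.Agent.Q81.Maj

variable {n : ℕ}

/-- `|X|^p` for a complex matrix, `|X| = (X^* X)^{1/2}` and the power by functional calculus. -/
noncomputable def absPow (X : Matrix (Fin n) (Fin n) ℂ) (p : ℝ) : Matrix (Fin n) (Fin n) ℂ :=
  (CFC.abs X) ^ p

lemma absPow_eq (X : Matrix (Fin n) (Fin n) ℂ) {p : ℝ} (hp : 0 ≤ p) :
    absPow X p = (star X * X) ^ (p / 2) := by
  unfold absPow CFC.abs
  have := CFC.rpow_sqrt_nnreal (a := star X * X) (x := ⟨p, hp⟩) (star_mul_self_nonneg X)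
  exact this

lemma rpow_of_poly (M : Matrix (Fin 3) (Fin 3) ℂ) (hM : 0 ≤ M) {s t r a b : ℝ} (hr : 0 < r)
    (hs : s ≠ 0) (ht : t ≠ 0)
    (h0 : M * (M - (s : ℂ) • 1) * (M - (t : ℂ) • 1) = 0)
    (h1 : s ^ r = a * s + b * s ^ 2) (h2 : t ^ r = a * t + b * t ^ 2) :
    M ^ r = (a : ℂ) • M + (b : ℂ) • M ^ 2 := by
  have hsa : IsSelfAdjoint M := IsSelfAdjoint.of_nonneg hM
  rw [CFC.rpow_eq_cfc_real hM]
  have hspec : ∀ x ∈ spectrum ℝ M, x * (x - s) * (x - t) = 0 := by
    intro x hx
    have h3 := spectrum.subset_polynomial_aeval (𝕜 := ℝ) M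
      (Polynomial.X * (Polynomial.X - Polynomial.C s) * (Polynomial.X - Polynomial.C t))
    have h4 : Polynomial.eval x (Polynomial.X * (Polynomial.X - Polynomial.C s) *
        (Polynomial.X - Polynomial.C t)) ∈ spectrum ℝ (Polynomial.aeval M
      (Polynomial.X * (Polynomial.X - Polynomial.C s) * (Polynomial.X - Polynomial.C t))) :=
      h3 ⟨x, hx, rfl⟩
    have h5 : Polynomial.aeval M
      (Polynomial.X * (Polynomial.X - Polynomial.C s) * (Polynomial.X - Polynomial.C t)) = 0 := by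
      rw [← h0]
      simp [Algebra.algebraMap_eq_smul_one]
    rw [h5, spectrum.zero_eq] at h4
    simpa using h4
  have hcongr : cfc (fun x : ℝ => x ^ r) M = cfc (fun x : ℝ => a * x + b * x ^ 2) M := by
    apply cfc_congr
    intro x hx
    have h6 := hspec x hx
    rcases mul_eq_zero.mp h6 with h7 | h7
    · rcases mul_eq_zero.mp h7 with h8 | h8
      · subst h8
        simp [Real.zero_rpow hr.ne']
      · have h9 : x = s := by linarith
        subst h9
        exact h1
    · have h9 : x = t := by linarith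
      subst h9
      exact h2
  rw [hcongr, cfc_add (a := M) (fun x : ℝ => a * x) (fun x : ℝ => b * x ^ 2),
    cfc_const_mul a (fun x : ℝ => x) M, cfc_const_mul b (fun x : ℝ => x ^ 2) M,
    cfc_id' ℝ M, cfc_pow_id (R := ℝ) M 2]
  ext i j
  simp

/-- The eigenvalues of a Hermitian matrix in decreasing order. -/
noncomputable def lam {X : Matrix (Fin n) (Fin n) ℂ} (hX : X.IsHermitian) : Fin n → ℝ :=
  fun i => hX.eigenvalues₀ (Fin.cast (Fintype.card_fin n).symm i)

/-- Majorization of real vectors with decreasing entries. -/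
def Majorizes (x y : Fin n → ℝ) : Prop :=
  (∀ k : ℕ, 1 ≤ k → k ≤ n - 1 →
    ∑ i ∈ Finset.univ.filter (fun i : Fin n => (i : ℕ) < k), y i ≤
      ∑ i ∈ Finset.univ.filter (fun i : Fin n => (i : ℕ) < k), x i) ∧ ∑ i, x i = ∑ i, y i

lemma eigenvalues_le_lam [NeZero n] {X : Matrix (Fin n) (Fin n) ℂ} (hX : X.IsHermitian) (i : Fin n) :
    hX.eigenvalues i ≤ lam hX 0 := by
  unfold Matrix.IsHermitian.eigenvalues lam
  apply hX.eigenvalues₀_antitone
  rw [Fin.le_def]
  simp

lemma diag_le_lam [NeZero n] {X : Matrix (Fin n) (Fin n) ℂ} (hX : X.IsHermitian) (i : Fin n) :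
    (X i i).re ≤ lam hX 0 := by
  have h1 := hX.spectral_theorem
  have h2 : X i i = ∑ j, (hX.eigenvalues j : ℂ) *
      (((hX.eigenvectorUnitary : Matrix (Fin n) (Fin n) ℂ) i j) *
        star ((hX.eigenvectorUnitary : Matrix (Fin n) (Fin n) ℂ) i j)) := by
    conv_lhs => rw [h1]
    rw [Unitary.conjStarAlgAut_apply]
    simp only [Matrix.mul_apply, Matrix.diagonal_apply, Matrix.star_apply]
    apply Finset.sum_congr rfl
    intro j _
    simp
    ring
  have h3 : (1 : ℝ) = ∑ j, ‖(hX.eigenvectorUnitary : Matrix (Fin n) (Fin n) ℂ) i j‖ ^ 2 := by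
    have h4 := Unitary.coe_mul_star_self hX.eigenvectorUnitary
    have h5 := congrFun (congrFun h4 i) i
    rw [Matrix.mul_apply] at h5
    simp only [Matrix.one_apply_eq] at h5
    have h6 := congrArg Complex.re h5
    rw [Complex.re_sum] at h6
    rw [Complex.one_re] at h6
    rw [← h6]
    apply Finset.sum_congr rfl
    intro j _
    rw [← Complex.normSq_eq_norm_sq, ← Complex.ofReal_re (Complex.normSq _), Complex.normSq_eq_conj_mul_self]
    rw [mul_comm]
    rfl
  rw [h2, Complex.re_sum]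
  calc ∑ j, ((hX.eigenvalues j : ℂ) *
      (((hX.eigenvectorUnitary : Matrix (Fin n) (Fin n) ℂ) i j) *
        star ((hX.eigenvectorUnitary : Matrix (Fin n) (Fin n) ℂ) i j))).re
      = ∑ j, hX.eigenvalues j * ‖(hX.eigenvectorUnitary : Matrix (Fin n) (Fin n) ℂ) i j‖ ^ 2 := by
        apply Finset.sum_congr rfl
        intro j _
        rw [Complex.re_ofReal_mul]
        congr 1
        rw [← Complex.normSq_eq_norm_sq, ← Complex.ofReal_re (Complex.normSq _), Complex.normSq_eq_conj_mul_self]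
        rw [mul_comm]
        rfl
    _ ≤ ∑ j, lam hX 0 * ‖(hX.eigenvectorUnitary : Matrix (Fin n) (Fin n) ℂ) i j‖ ^ 2 := by
        apply Finset.sum_le_sum
        intro j _
        exact mul_le_mul_of_nonneg_right (eigenvalues_le_lam hX j) (sq_nonneg _)
    _ = lam hX 0 := by
        rw [← Finset.mul_sum, ← h3, mul_one]

/-- largest eigenvalue of a diagonal matrix -/
lemma lam_diag_le [NeZero n] {d : Fin n → ℝ} {X : Matrix (Fin n) (Fin n) ℂ} (hX : X.IsHermitian)
    (hd : X = Matrix.diagonal (fun i => (d i : ℂ))) {c : ℝ} (hc : ∀ i, d i ≤ c) :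
    lam hX 0 ≤ c := by
  subst hd
  set j : Fin n := (Fintype.equivOfCardEq (Fintype.card_fin (Fintype.card (Fin n))))
    (Fin.cast (Fintype.card_fin n).symm (0 : Fin n)) with hj
  have h1 : lam hX 0 = hX.eigenvalues j := by
    unfold Matrix.IsHermitian.eigenvalues lam
    rw [hj]
    simp
  rw [h1]
  have h2 := hX.eigenvalues_mem_spectrum_real j
  rw [← spectrum.algebraMap_mem_iff ℂ] at h2
  rw [spectrum_diagonal] at h2
  obtain ⟨i, hi⟩ := h2
  have h3 : d i = hX.eigenvalues j := by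
    have := congrArg Complex.re hi
    simpa using this
  rw [← h3]
  exact hc i

end Pool.Agent.Q81.Maj
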