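import Pool.Agent.Q81.Maj1

open scoped MatrixOrder ComplexOrder Matrix.Norms.L2Operator

namespace Pool.Agent.Q81.Maj

/-- the matrix `A = T diag(2,1,0)` -/
noncomputable def mA (T : ℝ) : Matrix (Fin 3) (Fin 3) ℂ :=
  !![(2 * T : ℂ), 0, 0; 0, (T : ℂ), 0; 0, 0, 0]

/-- the matrix `B = T⁻¹ (u u^T + (t-1)⁻¹ w w^T)`, `u=(1,1,1)`, `w=(0,t-1,-(t+2))` -/
noncomputable def mB (T t : ℝ) : Matrix (Fin 3) (Fin 3) ℂ :=
  (T⁻¹ : ℂ) • !![1, 1, 1; 1, (t : ℂ), -(t + 1 : ℂ); 1, -(t + 1 : ℂ), (1 + (t + 2) ^ 2 / (t - 1) : ℂ)]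

lemma mA_psd {T : ℝ} (hT : 0 < T) : (mA T).PosSemidef := by
  have : mA T = Matrix.diagonal (fun i => (((![2 * T, T, 0] : Fin 3 → ℝ) i : ℝ) : ℂ)) := by
    ext i j
    fin_cases i <;> fin_cases j <;> simp [mA]
  rw [this]
  apply Matrix.PosSemidef.diagonal
  intro i
  show (0 : ℂ) ≤ (((![2 * T, T, 0] : Fin 3 → ℝ) i : ℝ) : ℂ)
  rw [Complex.zero_le_real]
  fin_cases i <;> simp [hT.le]

def vu : Fin 3 → ℂ := ![1, 1, 1]
def vw (t : ℝ) : Fin 3 → ℂ := ![0, (t - 1 : ℂ), -(t + 2 : ℂ)]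

lemma mB_psd {T t : ℝ} (hT : 0 < T) (ht : 1 < t) : (mB T t).PosSemidef := by
  have h1 : mB T t = (T⁻¹ : ℝ) • (Matrix.vecMulVec vu (star vu) +
      ((t - 1)⁻¹ : ℝ) • Matrix.vecMulVec (vw t) (star (vw t))) := by
    have h2 : (t : ℂ) - 1 ≠ 0 := by
      intro h
      have := congrArg Complex.re h
      simp at this
      linarith
    have h3 : (T : ℂ) ≠ 0 := by exact_mod_cast hT.ne'
    ext i j
    rw [Matrix.smul_apply, Matrix.add_apply, Matrix.smul_apply, Matrix.vecMulVec_apply,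
      Matrix.vecMulVec_apply, Complex.real_smul, Complex.real_smul]
    simp only [Pi.star_apply]
    fin_cases i <;> fin_cases j <;>
      simp [mB, vu, vw] <;> field_simp <;> ring_nf <;> simp
  rw [h1]
  apply Matrix.PosSemidef.smul _ (by positivity)
  apply Matrix.PosSemidef.add
  · exact Matrix.posSemidef_vecMulVec_self_star _
  · apply Matrix.PosSemidef.smul _ (by have : 0 < t - 1 := by linarith
                                       positivity)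
    exact Matrix.posSemidef_vecMulVec_self_star _

/-- `AB` -/
noncomputable def mC (t : ℝ) : Matrix (Fin 3) (Fin 3) ℂ :=
  !![2, 2, 2; 1, (t : ℂ), -(t + 1 : ℂ); 0, 0, 0]

lemma mA_mul_mB {T : ℝ} (t : ℝ) (hT : 0 < T) : mA T * mB T t = mC t := by
  have h2 : (T : ℂ) ≠ 0 := by exact_mod_cast hT.ne'
  ext i j
  fin_cases i <;> fin_cases j <;>
    simp [mA, mB, mC, Matrix.mul_apply, Fin.sum_univ_three] <;> field_simp

noncomputable def mCt (t : ℝ) : Matrix (Fin 3) (Fin 3) ℂ :=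
  !![2, 1, 0; 2, (t : ℂ), 0; 2, -(t + 1 : ℂ), 0]

lemma star_mC (t : ℝ) : star (mC t) = mCt t := by
  ext i j
  fin_cases i <;> fin_cases j <;> simp [mC, mCt]

lemma mB_mul_mA {T : ℝ} (t : ℝ) (hT : 0 < T) (ht : 1 < t) : mB T t * mA T = mCt t := by
  have h1 : star (mA T * mB T t) = mB T t * mA T := by
    rw [star_mul]
    have hA := (mA_psd hT).1
    have hB := (mB_psd hT ht).1
    rw [Matrix.star_eq_conjTranspose, Matrix.star_eq_conjTranspose, hA, hB]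
  rw [← h1, mA_mul_mB t hT, star_mC]

/-- `s₂ = 2t²+2t+2` -/
noncomputable def s2 (t : ℝ) : ℝ := 2 * t ^ 2 + 2 * t + 2

lemma XX (t : ℝ) : mC t * mCt t = Matrix.diagonal (fun i => (((![12, s2 t, 0] : Fin 3 → ℝ) i : ℝ) : ℂ)) := by
  ext i j
  fin_cases i <;> fin_cases j <;>
    simp [mC, mCt, s2, Matrix.mul_apply, Fin.sum_univ_three] <;> ring

lemma s2_pos (t : ℝ) : 0 < s2 t := by
  unfold s2; nlinarith [sq_nonneg (t + 1), sq_nonneg t]

/-- exponents: for `s ≠ t` positive there is an interpolating `a x + b x^2`. -/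
lemma interp {s t r : ℝ} (hs : 0 < s) (ht : 0 < t) (hst : s ≠ t) :
    ∃ a b : ℝ, s ^ r = a * s + b * s ^ 2 ∧ t ^ r = a * t + b * t ^ 2 := by
  have h1 : s - t ≠ 0 := sub_ne_zero.mpr hst
  refine ⟨s ^ r / s - (s ^ r / s - t ^ r / t) / (s - t) * s, (s ^ r / s - t ^ r / t) / (s - t), ?_, ?_⟩
  · field_simp; ring
  · field_simp; ring

lemma XXpow {t r : ℝ} (hr : 0 < r) {a b : ℝ}
    (h1 : (12 : ℝ) ^ r = a * 12 + b * 12 ^ 2) (h2 : (s2 t) ^ r = a * s2 t + b * s2 t ^ 2) :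
    (mC t * mCt t) ^ r =
      Matrix.diagonal (fun i => (((![12 ^ r, (s2 t) ^ r, 0] : Fin 3 → ℝ) i : ℝ) : ℂ)) := by
  have hp : 0 ≤ mC t * mCt t := by
    rw [← star_mC]
    exact mul_star_self_nonneg _
  have h0 : (mC t * mCt t) * ((mC t * mCt t) - ((12 : ℝ) : ℂ) • 1) * ((mC t * mCt t) - ((s2 t : ℝ) : ℂ) • 1) = 0 := by
    rw [XX]
    ext i j
    fin_cases i <;> fin_cases j <;>
      simp [Matrix.mul_apply, Fin.sum_univ_three]
  rw [rpow_of_poly _ hp hr (by norm_num) (s2_pos t).ne' h0 h1 h2, XX]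
  ext i j
  rw [h1, h2]
  fin_cases i <;> fin_cases j <;>
      simp [pow_two]

lemma GG0 (t : ℝ) : (mCt t * mC t) * ((mCt t * mC t) - ((12 : ℝ) : ℂ) • 1) *
    ((mCt t * mC t) - ((s2 t : ℝ) : ℂ) • 1) = 0 := by
  have h1 : (mC t * mCt t - ((12 : ℝ) : ℂ) • 1) *
      (mC t * mCt t - ((s2 t : ℝ) : ℂ) • 1) * mC t = 0 := by
    rw [XX]
    ext i j
    fin_cases i <;> fin_cases j <;>
      simp [mC, Matrix.mul_apply, Fin.sum_univ_three]
  have h2 : (mCt t * mC t) * ((mCt t * mC t) - ((12 : ℝ) : ℂ) • 1) *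
    ((mCt t * mC t) - ((s2 t : ℝ) : ℂ) • 1) = mCt t * ((mC t * mCt t - ((12 : ℝ) : ℂ) • 1) *
      (mC t * mCt t - ((s2 t : ℝ) : ℂ) • 1) * mC t) := by
    simp only [mul_sub, sub_mul, smul_mul_assoc, mul_smul_comm, mul_one, one_mul, mul_assoc]
  rw [h2, h1, mul_zero]

lemma GGpow00 {t r : ℝ} (hr : 0 < r) {a b : ℝ}
    (h1 : (12 : ℝ) ^ r = a * 12 + b * 12 ^ 2) (h2 : (s2 t) ^ r = a * s2 t + b * s2 t ^ 2) :
    ((mCt t * mC t) ^ r : Matrix (Fin 3) (Fin 3) ℂ) 0 0 = ((4 * (a + b * 12) + (a + b * s2 t) : ℝ) : ℂ) := by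
  have hp : 0 ≤ mCt t * mC t := by
    rw [← star_mC]
    exact star_mul_self_nonneg _
  rw [rpow_of_poly _ hp hr (by norm_num) (s2_pos t).ne' (GG0 t) h1 h2]
  simp [mC, mCt, s2, pow_two]
  ring

end Pool.Agent.Q81.Maj
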