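import Pool.Agent.Q81.Maj2

open scoped MatrixOrder ComplexOrder Matrix.Norms.L2Operator

namespace Pool.Agent.Q81.Maj

lemma absPow_herm {n : ℕ} (X : Matrix (Fin n) (Fin n) ℂ) (p : ℝ) : (absPow X p).IsHermitian := by
  have h : (0 : Matrix (Fin n) (Fin n) ℂ) ≤ absPow X p := CFC.rpow_nonneg
  exact (IsSelfAdjoint.of_nonneg h)

lemma sq_herm {n : ℕ} {A : Matrix (Fin n) (Fin n) ℂ} (hA : A.PosSemidef) : (A ^ 2).IsHermitian :=
  hA.1.pow 2

theorem main {p : ℝ} (hp : 2 < p) : ∃ A B : Matrix (Fin 3) (Fin 3) ℂ,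
    A.PosSemidef ∧ B.PosSemidef ∧
    ∃ (hX : (A ^ 2 + absPow (B * A) p).IsHermitian) (hY : (A ^ 2 + absPow (A * B) p).IsHermitian),
      lam hX 0 < lam hY 0 := by
  set r : ℝ := p / 2 with hr
  have hr1 : 1 < r := by rw [hr]; linarith
  have hr0 : 0 < r := by linarith
  have hr2 : 0 < r - 1 := by linarith
  set K : ℝ := (8 : ℝ) ^ (1 / (r - 1)) with hK
  have hK0 : 0 < K := by positivity
  set t : ℝ := 12 * K + 2 with ht
  have ht2 : 2 < t := by rw [ht]; linarith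
  have hs : 12 * K < s2 t := by
    unfold s2
    nlinarith
  have hs1 : 1 < s2 t := by unfold s2; nlinarith
  have hs12 : (12 : ℝ) ≠ s2 t := by
    unfold s2
    have : (12 : ℝ) < 2 * t ^ 2 + 2 * t + 2 := by nlinarith
    exact this.ne
  have hKr : K ^ (r - 1) = 8 := by
    rw [hK, ← Real.rpow_mul (by norm_num), one_div_mul_cancel hr2.ne', Real.rpow_one]
  have hmain : 8 * (12 : ℝ) ^ (r - 1) < (s2 t) ^ (r - 1) := by
    calc 8 * (12 : ℝ) ^ (r - 1) = (12 * K) ^ (r - 1) := by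
          rw [Real.mul_rpow (by norm_num) hK0.le, hKr]; ring
      _ < (s2 t) ^ (r - 1) := Real.rpow_lt_rpow (by positivity) hs hr2
  obtain ⟨a, b, h1, h2⟩ := interp (r := r) (by norm_num : (0 : ℝ) < 12) (s2_pos t) hs12
  set T : ℝ := (s2 t) ^ r with hT
  have hT1 : 1 ≤ T := Real.one_le_rpow hs1.le hr0.le
  have hT0 : 0 < T := by linarith
  have h12 : a + b * 12 = (12 : ℝ) ^ (r - 1) := by
    have : (12 : ℝ) ^ r = (12 : ℝ) ^ (r - 1) * 12 := by
      rw [Real.rpow_sub_one (by norm_num)]; ring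
    linarith
  have hs2' : a + b * s2 t = (s2 t) ^ (r - 1) := by
    have h3 : (s2 t) ^ r = (s2 t) ^ (r - 1) * s2 t := by
      rw [Real.rpow_sub_one (s2_pos t).ne', div_mul_cancel₀ _ (s2_pos t).ne']
    have h4 : (a + b * s2 t) * s2 t = (s2 t) ^ (r - 1) * s2 t := by
      rw [← h3, ← hT, h2]; ring
    exact mul_right_cancel₀ (s2_pos t).ne' h4
  refine ⟨mA T, mB T t, mA_psd hT0, mB_psd hT0 (by linarith), ?_⟩
  have hAB : absPow (mA T * mB T t) p = (mCt t * mC t) ^ r := by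
    rw [absPow_eq _ (by linarith), mA_mul_mB t hT0, star_mC]
  have hBA : absPow (mB T t * mA T) p = (mC t * mCt t) ^ r := by
    rw [absPow_eq _ (by linarith), mB_mul_mA t hT0 (by linarith), ← star_mC, star_star]
  have hX : (mA T ^ 2 + absPow (mB T t * mA T) p).IsHermitian :=
    (sq_herm (mA_psd hT0)).add (absPow_herm _ _)
  have hY : (mA T ^ 2 + absPow (mA T * mB T t) p).IsHermitian :=
    (sq_herm (mA_psd hT0)).add (absPow_herm _ _)
  refine ⟨hX, hY, ?_⟩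
  have hA2 : mA T ^ 2 = Matrix.diagonal (fun i => (((![4 * T ^ 2, T ^ 2, 0] : Fin 3 → ℝ) i : ℝ) : ℂ)) := by
    ext i j
    fin_cases i <;> fin_cases j <;> simp [mA, pow_two] <;> ring
  have hXd : mA T ^ 2 + absPow (mB T t * mA T) p = Matrix.diagonal (fun i =>
      (((![4 * T ^ 2 + 12 ^ r, T ^ 2 + (s2 t) ^ r, 0] : Fin 3 → ℝ) i : ℝ) : ℂ)) := by
    rw [hBA, XXpow hr0 h1 h2, hA2, Matrix.diagonal_add]
    congr 1
    funext i
    fin_cases i <;> simp
  have hb1 : lam hX 0 ≤ 4 * T ^ 2 + 12 ^ r := by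
    apply lam_diag_le hX hXd
    intro i
    have e1 : (0 : ℝ) < 12 ^ r := by positivity
    fin_cases i
    · simp
    · simp only [Fin.mk_one, Matrix.cons_val_one]
      rw [← hT]
      simp
      nlinarith
    · simp
      positivity
  have hb2 : (4 * T ^ 2 + (4 * (a + b * 12) + (a + b * s2 t)) : ℝ) ≤ lam hY 0 := by
    have h5 := diag_le_lam hY 0
    have h6 : ((mA T ^ 2 + absPow (mA T * mB T t) p : Matrix (Fin 3) (Fin 3) ℂ) 0 0) =
        ((4 * T ^ 2 + (4 * (a + b * 12) + (a + b * s2 t)) : ℝ) : ℂ) := by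
      rw [hAB, Matrix.add_apply, GGpow00 hr0 h1 h2, hA2, Matrix.diagonal_apply_eq]
      simp
    rw [h6, Complex.ofReal_re] at h5
    exact h5
  have h7 : (12 : ℝ) ^ r = 12 * (12 : ℝ) ^ (r - 1) := by
    rw [Real.rpow_sub_one (by norm_num)]; ring
  rw [h12, hs2'] at hb2
  linarith

end Pool.Agent.Q81.Maj
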