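import Mathlib

/-!
# Tridiagonal matrices from a weighted path (MP_8f6a5a)
-/

open Matrix

namespace Pool.Agent.Q81.Tri

noncomputable section

/-- `μ` is an eigenvalue of the complex matrix `M` -/
def IsEig {n : ℕ} (M : Matrix (Fin n) (Fin n) ℂ) (μ : ℂ) : Prop :=
  ∃ x : Fin n → ℂ, x ≠ 0 ∧ M.mulVec x = μ • x

/-- complexification of a real matrix -/
def cx {n : ℕ} (M : Matrix (Fin n) (Fin n) ℝ) : Matrix (Fin n) (Fin n) ℂ := M.map (fun t => (t : ℂ))

lemma sum_ite_nat {R : Type*} [CommRing R] (n m : ℕ) (G : ℕ → R) :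
    ∑ k : Fin n, (if (k : ℕ) = m then G k else 0) = if m < n then G m else 0 := by
  rw [Fin.sum_univ_eq_sum_range (fun k => if k = m then G k else 0) n]
  rw [Finset.sum_ite_eq' (Finset.range n) m G]
  simp

/-- entries of a tridiagonal matrix -/
def tri {R : Type*} [Zero R] (A : ℕ → R) (B : ℕ → R) (j k : ℕ) : R :=
  if j = k then A j else if j + 1 = k then B j else if k + 1 = j then B k else 0

lemma tri_sum {R : Type*} [CommRing R] (n : ℕ) (A B X : ℕ → R) (j : ℕ) (hj : j < n) :
    ∑ k : Fin n, tri A B j k * X k =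
      A j * X j + (if j + 1 < n then B j * X (j + 1) else 0) +
        (if 0 < j then B (j - 1) * X (j - 1) else 0) := by
  have e : ∀ k : ℕ, tri A B j k * X k = (if k = j then A j * X k else 0) +
      (if k = j + 1 then B j * X k else 0) +
      (if k = j - 1 then (if 0 < j then B (j - 1) * X k else 0) else 0) := by
    intro k
    unfold tri
    by_cases h1 : j = k
    · subst h1
      by_cases h0 : 0 < j
      · have h2 : ¬ (j = j - 1) := by omega
        simp [h2]
      · have : j = 0 := by omega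
        subst this
        simp
    · by_cases h2 : j + 1 = k
      · subst h2
        have h3 : ¬ (j + 1 = j - 1) := by omega
        simp [h3]
      · by_cases h3 : k + 1 = j
        · subst h3
          have h4 : ¬ (k + 1 + 1 = k) := by omega
          have h5 : ¬ (k = k + 1 + 1) := by omega
          simp [h4, h5]
        · have h4 : ¬ (k = j) := fun h => h1 h.symm
          have h5 : ¬ (k = j + 1) := fun h => h2 h.symm
          by_cases h6 : 0 < j
          · have h7 : ¬ (k = j - 1) := by omega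
            simp [h1, h2, h3, h4, h5, h7]
          · simp [h1, h2, h3, h4, h5, h6]
  have e' : ∑ k : Fin n, tri A B j k * X k =
      ∑ k : Fin n, ((if (k : ℕ) = j then A j * X k else 0) +
      (if (k : ℕ) = j + 1 then B j * X k else 0) +
      (if (k : ℕ) = j - 1 then (if 0 < j then B (j - 1) * X k else 0) else 0)) :=
    Finset.sum_congr rfl (fun k _ => e (k : ℕ))
  rw [e', Finset.sum_add_distrib, Finset.sum_add_distrib]
  rw [sum_ite_nat n j (fun k => A j * X k), sum_ite_nat n (j + 1) (fun k => B j * X k),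
    sum_ite_nat n (j - 1) (fun k => if 0 < j then B (j - 1) * X k else 0)]
  have h1 : j - 1 < n := by omega
  simp [hj, h1]

lemma tri_symm {R : Type*} [Zero R] (A B : ℕ → R) (j k : ℕ) : tri A B j k = tri A B k j := by
  unfold tri
  by_cases h1 : j = k
  · subst h1; rfl
  · by_cases h2 : j + 1 = k
    · subst h2
      have h3 : ¬ (j + 1 = j) := by omega
      have h4 : ¬ (j + 1 + 1 = j) := by omega
      simp [h4]
    · by_cases h3 : k + 1 = j
      · subst h3
        have h4 : ¬ (k + 1 + 1 = k) := by omega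
        simp [h4]
      · simp [h1, h2, h3, Ne.symm h1]

/-- diagonal of the discrete Laplacian -/
def dg (n : ℕ) (v g : ℕ → ℝ) (j : ℕ) : ℝ :=
  ((if j + 1 < n then g j else 0) + (if 0 < j then g (j - 1) else 0)) / v j ^ 2

/-- off-diagonal -/
def og (v g : ℕ → ℝ) (j : ℕ) : ℝ := g j / (v j * v (j + 1))

/-- the matrix `P = I - ε A` -/
def PP (n : ℕ) (v g : ℕ → ℝ) (ε : ℝ) : Matrix (Fin n) (Fin n) ℝ :=
  fun j k => tri (fun i => 1 - ε * dg n v g i) (fun i => ε * og v g i) j k

variable {n : ℕ} {v g : ℕ → ℝ} {ε : ℝ}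

lemma PP_sum (X : ℕ → ℂ) (j : Fin n) :
    ∑ k : Fin n, ((PP n v g ε j k : ℝ) : ℂ) * X k =
      (1 - ε * dg n v g j : ℝ) * X j + (if (j : ℕ) + 1 < n then (ε * og v g j : ℝ) * X (j + 1) else 0)
        + (if 0 < (j : ℕ) then (ε * og v g (j - 1) : ℝ) * X (j - 1) else 0) := by
  have h := tri_sum n (fun i => ((1 - ε * dg n v g i : ℝ) : ℂ)) (fun i => ((ε * og v g i : ℝ) : ℂ))
    X j j.2
  rw [← h]
  refine Finset.sum_congr rfl fun k _ => ?_
  congr 1
  unfold PP tri
  split_ifs <;> simp

/-- `P v = v` -/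
lemma PP_v (hv : ∀ j, j < n → 0 < v j) (j : Fin n) :
    ∑ k : Fin n, PP n v g ε j k * v k = v j := by
  have h := tri_sum n (fun i => (1 - ε * dg n v g i : ℝ)) (fun i => (ε * og v g i : ℝ)) v j j.2
  have e : ∑ k : Fin n, PP n v g ε j k * v k =
    ∑ k : Fin n, tri (fun i => (1 - ε * dg n v g i : ℝ)) (fun i => (ε * og v g i : ℝ)) j k * v k := rfl
  rw [e, h]
  have hj := hv j j.2
  unfold dg og
  by_cases h1 : (j : ℕ) + 1 < n
  · have hj1 := hv _ h1
    by_cases h0 : 0 < (j : ℕ)
    · have hj0 := hv ((j : ℕ) - 1) (by omega)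
      have e3 : (j : ℕ) - 1 + 1 = j := by omega
      simp only [h1, h0, if_true, e3]
      field_simp
      ring
    · simp only [h1, h0, if_true, if_false]
      field_simp
      ring
  · by_cases h0 : 0 < (j : ℕ)
    · have hj0 := hv ((j : ℕ) - 1) (by omega)
      have e3 : (j : ℕ) - 1 + 1 = j := by omega
      simp only [h1, h0, if_true, if_false, e3]
      field_simp
      ring
    · simp only [h1, h0, if_false]
      simp

/-- moduli of the eigenvalues of `P` are at most 1 -/
lemma eig_le (hv : ∀ j, j < n → 0 < v j) (hP : ∀ j k : Fin n, 0 ≤ PP n v g ε j k)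
    {μ : ℂ} (hμ : IsEig (cx (PP n v g ε)) μ) : ‖μ‖ ≤ 1 := by
  obtain ⟨x, hx, hxe⟩ := hμ
  have hne : Nonempty (Fin n) := by
    by_contra hcon
    rw [not_nonempty_iff] at hcon
    exact hx (by ext i; exact hcon.elim i)
  obtain ⟨s, hs⟩ := Finite.exists_max (fun s : Fin n => ‖x s‖ / v s)
  have hvs := hv s s.2
  have h1 : ‖μ‖ * ‖x s‖ ≤ ‖x s‖ := by
    have h2 := congrFun hxe s
    simp only [Pi.smul_apply, smul_eq_mul] at h2
    rw [← norm_mul, ← h2]
    calc ‖(cx (PP n v g ε)).mulVec x s‖ = ‖∑ k, ((PP n v g ε s k : ℝ) : ℂ) * x k‖ := rfl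
      _ ≤ ∑ k, ‖((PP n v g ε s k : ℝ) : ℂ) * x k‖ := norm_sum_le _ _
      _ ≤ ∑ k, PP n v g ε s k * v k * (‖x s‖ / v s) := by
        refine Finset.sum_le_sum fun k _ => ?_
        rw [norm_mul, Complex.norm_real, Real.norm_eq_abs, abs_of_nonneg (hP s k), mul_assoc]
        refine mul_le_mul_of_nonneg_left ?_ (hP s k)
        have hk := hs k
        have hvk := hv k k.2
        rw [div_le_iff₀ hvk] at hk
        linarith
      _ = ‖x s‖ := by
        rw [← Finset.sum_mul, PP_v hv s]
        field_simp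
  by_cases hxs : ‖x s‖ = 0
  · exfalso
    apply hx
    funext k
    have hk := hs k
    simp only [hxs, zero_div] at hk
    have hvk := hv k k.2
    have : ‖x k‖ ≤ 0 := by
      by_contra hcon
      push Not at hcon
      have : 0 < ‖x k‖ / v k := by positivity
      linarith
    have h0 : ‖x k‖ = 0 := le_antisymm this (norm_nonneg _)
    simpa using h0
  · have hpos : 0 < ‖x s‖ := lt_of_le_of_ne (norm_nonneg _) (Ne.symm hxs)
    by_contra hcon
    push Not at hcon
    nlinarith

lemma eig_one (hn : 0 < n) (hv : ∀ j, j < n → 0 < v j) : IsEig (cx (PP n v g ε)) 1 := by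
  refine ⟨fun k => ((v k : ℝ) : ℂ), ?_, ?_⟩
  · intro h
    have := congrFun h ⟨0, hn⟩
    have h0 := hv 0 hn
    simp only [Pi.zero_apply] at this
    have h2 : v 0 = 0 := by exact_mod_cast this
    linarith
  · funext j
    have h := PP_v (n := n) (v := v) (g := g) (ε := ε) hv j
    show ∑ k, ((PP n v g ε j k : ℝ) : ℂ) * ((v k : ℝ) : ℂ) = (1 : ℂ) * ((v j : ℝ) : ℂ)
    rw [one_mul, ← h]
    push_cast
    rfl

end

end Pool.Agent.Q81.Tri
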