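import Pool.Agent.Q81.Tri1

open Matrix

namespace Pool.Agent.Q81.Tri

noncomputable section

/-- The conditions 1-3 on `P` -/
structure Adm {n : ℕ} (P : Matrix (Fin n) (Fin n) ℝ) : Prop where
  symm : P.IsSymm
  zero : ∀ r s : Fin n, ((r : ℕ) + 1 < s ∨ (s : ℕ) + 1 < r) → P r s = 0
  pos : ∀ r s : Fin n, ((r : ℕ) ≤ s + 1 ∧ (s : ℕ) ≤ r + 1) → 0 < P r s
  spec : IsGreatest {ρ : ℝ | ∃ μ : ℂ, IsEig (cx P) μ ∧ ρ = ‖μ‖} 1
  col : ∀ s : Fin n,
    ∑ r ∈ Finset.univ.filter (fun r : Fin n => (r : ℕ) + 1 = s ∨ (s : ℕ) + 1 = r), P r s ≤ 1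

variable {n : ℕ} {v g : ℕ → ℝ} {ε : ℝ}

/-- bound quantity -/
def DD (n : ℕ) (v g : ℕ → ℝ) (j : ℕ) : ℝ :=
  dg n v g j + (if j + 1 < n then og v g j else 0) + (if 0 < j then og v g (j - 1) else 0)

lemma dg_nonneg (hg : ∀ j, j + 1 < n → 0 < g j) {j : ℕ} (hj : j < n) : 0 ≤ dg n v g j := by
  unfold dg
  apply div_nonneg _ (sq_nonneg _)
  apply add_nonneg
  · split_ifs with h
    · exact (hg j h).le
    · exact le_rfl
  · split_ifs with h
    · exact (hg (j - 1) (by omega)).le
    · exact le_rfl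

lemma og_pos (hv : ∀ j, j < n → 0 < v j) (hg : ∀ j, j + 1 < n → 0 < g j) {j : ℕ}
    (hj : j + 1 < n) : 0 < og v g j := by
  unfold og
  have h1 := hg j hj
  have h2 := hv j (by omega)
  have h3 := hv (j + 1) hj
  positivity

lemma DD_nonneg (hv : ∀ j, j < n → 0 < v j) (hg : ∀ j, j + 1 < n → 0 < g j) {j : ℕ}
    (hj : j < n) : 0 ≤ DD n v g j := by
  unfold DD
  have := dg_nonneg (v := v) hg hj
  apply add_nonneg
  · apply add_nonneg this
    split_ifs with h
    · exact (og_pos hv hg h).le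
    · exact le_rfl
  · split_ifs with h
    · exact (og_pos hv hg (by omega)).le
    · exact le_rfl

/-- the step size -/
def eps (n : ℕ) (v g : ℕ → ℝ) : ℝ := 1 / (1 + ∑ j ∈ Finset.range n, DD n v g j)

lemma eps_pos (hv : ∀ j, j < n → 0 < v j) (hg : ∀ j, j + 1 < n → 0 < g j) : 0 < eps n v g := by
  unfold eps
  have : 0 ≤ ∑ j ∈ Finset.range n, DD n v g j :=
    Finset.sum_nonneg fun j hj => DD_nonneg hv hg (Finset.mem_range.1 hj)
  positivity

lemma eps_DD (hv : ∀ j, j < n → 0 < v j) (hg : ∀ j, j + 1 < n → 0 < g j) {j : ℕ}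
    (hj : j < n) : eps n v g * DD n v g j < 1 := by
  have h1 : DD n v g j ≤ ∑ j ∈ Finset.range n, DD n v g j :=
    Finset.single_le_sum (fun j hj => DD_nonneg hv hg (Finset.mem_range.1 hj))
      (Finset.mem_range.2 hj)
  have h0 := DD_nonneg hv hg hj
  unfold eps
  rw [div_mul_eq_mul_div, one_mul, div_lt_one (by linarith)]
  linarith

lemma eps_dg (hv : ∀ j, j < n → 0 < v j) (hg : ∀ j, j + 1 < n → 0 < g j) {j : ℕ}
    (hj : j < n) : 0 < 1 - eps n v g * dg n v g j := by
  have h1 := eps_DD hv hg hj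
  have h2 : dg n v g j ≤ DD n v g j := by
    unfold DD
    have a1 : 0 ≤ (if j + 1 < n then og v g j else 0) := by
      split_ifs with h
      · exact (og_pos hv hg h).le
      · exact le_rfl
    have a2 : 0 ≤ (if 0 < j then og v g (j - 1) else 0) := by
      split_ifs with h
      · exact (og_pos hv hg (by omega)).le
      · exact le_rfl
    linarith
  have h3 := eps_pos hv hg
  nlinarith

lemma PP_pos (hv : ∀ j, j < n → 0 < v j) (hg : ∀ j, j + 1 < n → 0 < g j) (r s : Fin n)
    (h : (r : ℕ) ≤ s + 1 ∧ (s : ℕ) ≤ r + 1) : 0 < PP n v g (eps n v g) r s := by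
  unfold PP tri
  have he := eps_pos hv hg
  split_ifs with h1 h2 h3
  · exact eps_dg hv hg r.2
  · exact mul_pos he (og_pos hv hg (by omega))
  · exact mul_pos he (og_pos hv hg (by omega))
  · omega

lemma PP_zero (r s : Fin n) (h : (r : ℕ) + 1 < s ∨ (s : ℕ) + 1 < r) : PP n v g ε r s = 0 := by
  unfold PP tri
  have h1 : ¬ ((r : ℕ) = s) := by omega
  have h2 : ¬ ((r : ℕ) + 1 = s) := by omega
  have h3 : ¬ ((s : ℕ) + 1 = r) := by omega
  simp [h1, h2, h3]

lemma PP_nonneg (hv : ∀ j, j < n → 0 < v j) (hg : ∀ j, j + 1 < n → 0 < g j) (r s : Fin n) :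
    0 ≤ PP n v g (eps n v g) r s := by
  by_cases h : (r : ℕ) ≤ s + 1 ∧ (s : ℕ) ≤ r + 1
  · exact (PP_pos hv hg r s h).le
  · rw [PP_zero r s (by omega)]

lemma PP_adm (hn : 0 < n) (hv : ∀ j, j < n → 0 < v j) (hg : ∀ j, j + 1 < n → 0 < g j) :
    Adm (PP n v g (eps n v g)) where
  symm := by
    ext r s
    exact tri_symm (fun i => 1 - eps n v g * dg n v g i) (fun i => eps n v g * og v g i) (s : ℕ) (r : ℕ)
  zero := fun r s h => PP_zero r s h
  pos := fun r s h => PP_pos hv hg r s h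
  spec := by
    refine ⟨⟨1, eig_one hn hv, by simp⟩, ?_⟩
    rintro ρ ⟨μ, hμ, rfl⟩
    exact eig_le hv (PP_nonneg hv hg) hμ
  col := by
    intro s
    have h1 : ∑ r ∈ Finset.univ.filter (fun r : Fin n => (r : ℕ) + 1 = s ∨ (s : ℕ) + 1 = r),
        PP n v g (eps n v g) r s =
        ∑ r : Fin n, tri (fun _ => (0 : ℝ)) (fun i => eps n v g * og v g i) s r * (fun _ => (1 : ℝ)) (r : ℕ) := by
      rw [Finset.sum_filter]
      refine Finset.sum_congr rfl fun r _ => ?_
      unfold PP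
      rw [tri_symm]
      unfold tri
      by_cases h1 : (s : ℕ) = r
      · have h2 : ¬ ((r : ℕ) + 1 = s ∨ (s : ℕ) + 1 = r) := by omega
        rw [if_neg h2, if_pos h1, zero_mul]
      · by_cases h2 : (s : ℕ) + 1 = r
        · rw [if_pos (Or.inr h2), if_neg h1, if_pos h2, if_neg h1]
          simp
        · by_cases h3 : (r : ℕ) + 1 = s
          · simp [h3, h1, h2]
          · simp [h1, h2, h3]
    rw [h1, tri_sum n _ _ (fun _ => (1 : ℝ)) s s.2]
    have h2 := eps_DD hv hg s.2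
    have h3 := eps_pos hv hg
    have h4 := dg_nonneg (v := v) hg s.2
    unfold DD at h2
    simp only [mul_one, zero_add]
    have e1 : (if (s : ℕ) + 1 < n then eps n v g * og v g s else 0) =
      eps n v g * (if (s : ℕ) + 1 < n then og v g s else 0) := by split_ifs <;> simp
    have e2 : (if 0 < (s : ℕ) then eps n v g * og v g (s - 1) else 0) =
      eps n v g * (if 0 < (s : ℕ) then og v g (s - 1) else 0) := by split_ifs <;> simp
    rw [e1, e2]
    nlinarith

/-- vector of ones -/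
def rk (n : ℕ) (c : Fin n → ℝ) (P : Matrix (Fin n) (Fin n) ℝ) : Matrix (Fin n) (Fin n) ℝ :=
  (1 - Matrix.vecMulVec c (fun _ => 1)) * P

lemma rk_mulVec (c : Fin n → ℝ) (P : Matrix (Fin n) (Fin n) ℝ) (x : Fin n → ℂ) (s : Fin n) :
    (cx (rk n c P)).mulVec x s =
      (cx P).mulVec x s - c s * ∑ k, (cx P).mulVec x k := by
  have h1 : cx (rk n c P) = cx (1 - Matrix.vecMulVec c (fun _ => 1)) * cx P := by
    unfold cx rk
    exact Matrix.map_mul (f := Complex.ofRealHom)
  rw [h1, ← Matrix.mulVec_mulVec]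
  set y := (cx P).mulVec x with hy
  have h2 : cx (1 - Matrix.vecMulVec c (fun _ => (1 : ℝ))) =
      1 - Matrix.vecMulVec (fun s => (c s : ℂ)) (fun _ : Fin n => (1 : ℂ)) := by
    ext i j
    unfold cx
    simp only [Matrix.map_apply, Matrix.sub_apply, Matrix.vecMulVec_apply, mul_one]
    by_cases hij : i = j
    · subst hij; simp
    · simp [Matrix.one_apply_ne hij]
  rw [h2, Matrix.sub_mulVec, Matrix.one_mulVec]
  simp only [Pi.sub_apply]
  congr 1
  simp only [Matrix.mulVec, dotProduct, Matrix.vecMulVec_apply, mul_one]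
  rw [Finset.mul_sum]

/-- The main step: a solution of `(L + i m) F = b v` with `0` in the cone spanned by the `F j`
gives a counterexample. -/
theorem counter (hn : 0 < n) (hv : ∀ j, j < n → 0 < v j) (hg : ∀ j, j + 1 < n → 0 < g j)
    (F : ℕ → ℂ) (b : ℂ) (hb : b ≠ 0)
    (hF : ∀ j, j < n → Complex.I * (v j : ℂ) ^ 2 * F j +
      (if j + 1 < n then (g j : ℂ) * (F j - F (j + 1)) else 0) +
      (if 0 < j then (g (j - 1) : ℂ) * (F j - F (j - 1)) else 0) = b * v j)
    (w : Fin n → ℝ) (hw : ∀ j, 0 ≤ w j) (hw1 : ∃ j, 0 < w j)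
    (hsum : ∑ j : Fin n, (w j : ℂ) * F j = 0) :
    ∃ P : Matrix (Fin n) (Fin n) ℝ, ∃ c : Fin n → ℝ, Adm P ∧ (∀ s, 0 ≤ c s) ∧ ∑ s, c s = 1 ∧
      ∃ μ : ℂ, IsEig (cx (rk n c P)) μ ∧ 1 < ‖μ‖ := by
  set ε := eps n v g with hε
  have he : 0 < ε := eps_pos hv hg
  set P := PP n v g ε with hPdef
  -- weights
  set W : ℝ := ∑ s : Fin n, w s / v s with hW
  have hWpos : 0 < W := by
    obtain ⟨j, hj⟩ := hw1
    apply Finset.sum_pos'
    · intro s _
      exact div_nonneg (hw s) (hv s s.2).le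
    · exact ⟨j, Finset.mem_univ j, div_pos hj (hv j j.2)⟩
  set c : Fin n → ℝ := fun s => w s / v s / W with hc
  have hc0 : ∀ s, 0 ≤ c s := fun s => div_nonneg (div_nonneg (hw s) (hv s s.2).le) hWpos.le
  have hc1 : ∑ s, c s = 1 := by
    rw [hc, ← Finset.sum_div]
    exact div_self hWpos.ne'
  refine ⟨P, c, PP_adm hn hv hg, hc0, hc1, 1 + Complex.I * ε, ?_, ?_⟩
  swap
  · have : ‖(1 + Complex.I * ε : ℂ)‖ ^ 2 = 1 + ε ^ 2 := by
      rw [← Complex.normSq_eq_norm_sq, Complex.normSq_apply]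
      simp
      ring
    have h0 : 0 ≤ ‖(1 + Complex.I * ε : ℂ)‖ := norm_nonneg _
    by_contra hcon
    push Not at hcon
    nlinarith
  set μ : ℂ := 1 + Complex.I * ε with hμ
  have hμ1 : 1 < ‖μ‖ := by
    have : ‖μ‖ ^ 2 = 1 + ε ^ 2 := by
      rw [← Complex.normSq_eq_norm_sq, Complex.normSq_apply, hμ]
      simp
      ring
    have h0 : 0 ≤ ‖μ‖ := norm_nonneg _
    by_contra hcon
    push Not at hcon
    nlinarith
  -- the solution vector
  set y : Fin n → ℂ := fun j => (v j : ℂ) * F j with hy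
  have hPy : ∀ j : Fin n, μ * y j - (cx P).mulVec y j = ε * b := by
    intro j
    have h1 : (cx P).mulVec y j = ∑ k : Fin n, ((PP n v g ε j k : ℝ) : ℂ) *
        (fun i : ℕ => (v i : ℂ) * F i) k := rfl
    have h1' := PP_sum (n := n) (v := v) (g := g) (ε := ε) (fun i : ℕ => (v i : ℂ) * F i) j
    rw [h1, h1']
    have h2 := hF j j.2
    have hvj := hv j j.2
    have hvj' : (v j : ℂ) ≠ 0 := by exact_mod_cast hvj.ne'
    have e1 : (if (j : ℕ) + 1 < n then ((ε * og v g j : ℝ) : ℂ) * ((v (j + 1) : ℂ) * F (j + 1)) else 0)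
        = (if (j : ℕ) + 1 < n then (ε : ℂ) * g j * F (j + 1) / v j else 0) := by
      split_ifs with h
      · have h3 := hv _ h
        have h3' : (v (j + 1) : ℂ) ≠ 0 := by exact_mod_cast h3.ne'
        unfold og
        push_cast
        field_simp
      · rfl
    have e2 : (if 0 < (j : ℕ) then ((ε * og v g (j - 1) : ℝ) : ℂ) * ((v (j - 1) : ℂ) * F (j - 1)) else 0)
        = (if 0 < (j : ℕ) then (ε : ℂ) * g (j - 1) * F (j - 1) / v j else 0) := by
      split_ifs with h
      · have h3 := hv ((j : ℕ) - 1) (by omega)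
        have h3' : (v (j - 1) : ℂ) ≠ 0 := by exact_mod_cast h3.ne'
        unfold og
        have e3 : (j : ℕ) - 1 + 1 = j := by omega
        rw [e3]
        push_cast
        field_simp
      · rfl
    rw [e1, e2]
    have e4 : ((1 - ε * dg n v g j : ℝ) : ℂ) * ((v j : ℂ) * F j) = (v j : ℂ) * F j -
        ε * ((if (j : ℕ) + 1 < n then (g j : ℂ) else 0) + (if 0 < (j : ℕ) then (g (j - 1) : ℂ) else 0)) *
          F j / v j := by
      unfold dg
      have c1 : ((if (j : ℕ) + 1 < n then g j else 0 : ℝ) : ℂ) =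
        (if (j : ℕ) + 1 < n then (g j : ℂ) else 0) := by split_ifs <;> simp
      have c2 : ((if 0 < (j : ℕ) then g (j - 1) else 0 : ℝ) : ℂ) =
        (if 0 < (j : ℕ) then (g (j - 1) : ℂ) else 0) := by split_ifs <;> simp
      rw [← c1, ← c2]
      push_cast
      field_simp
    show μ * ((v j : ℂ) * F j) - (((1 - ε * dg n v g j : ℝ) : ℂ) * ((v j : ℂ) * F j) + _ + _) = _
    rw [e4, hμ]
    have h5 : (ε : ℂ) * b = ε * (b * v j) / v j := by field_simp
    rw [h5, ← h2]
    by_cases h6 : (j : ℕ) + 1 < n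
    · by_cases h7 : 0 < (j : ℕ)
      · simp only [h6, h7, if_true]
        field_simp
        ring
      · simp only [h6, h7, if_true, if_false]
        field_simp
        ring
    · by_cases h7 : 0 < (j : ℕ)
      · simp only [h6, h7, if_true, if_false]
        field_simp
        ring
      · simp only [h6, h7, if_false]
        field_simp
        ring
  -- c is orthogonal to y
  have hcy : ∑ s, (c s : ℂ) * y s = 0 := by
    have : ∀ s : Fin n, (c s : ℂ) * y s = ((w s : ℂ) * F s) / W := by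
      intro s
      have hvs' : (v s : ℂ) ≠ 0 := by exact_mod_cast (hv s s.2).ne'
      rw [hc, hy]
      push_cast
      field_simp
    rw [Finset.sum_congr rfl (fun s _ => this s), ← Finset.sum_div, hsum, zero_div]
  -- resolvent
  set M : Matrix (Fin n) (Fin n) ℂ := μ • (1 : Matrix (Fin n) (Fin n) ℂ) - cx P with hM
  have hdet : M.det ≠ 0 := by
    intro h0
    obtain ⟨u, hu, hMu⟩ := Matrix.exists_mulVec_eq_zero_iff.2 h0
    have hEig : IsEig (cx P) μ := by
      refine ⟨u, hu, ?_⟩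
      have h3 : μ • u - (cx P).mulVec u = 0 := by
        rw [← hMu, hM, Matrix.sub_mulVec, Matrix.smul_mulVec, Matrix.one_mulVec]
      exact (sub_eq_zero.1 h3).symm
    have := eig_le hv (PP_nonneg hv hg) hEig
    linarith
  set x : Fin n → ℂ := M⁻¹.mulVec (fun s => (c s : ℂ)) with hx
  have hMx : M.mulVec x = fun s => (c s : ℂ) := by
    rw [hx, Matrix.mulVec_mulVec, Matrix.mul_nonsing_inv _ (isUnit_iff_ne_zero.2 hdet),
      Matrix.one_mulVec]
  have hMx' : ∀ s, μ * x s - (cx P).mulVec x s = c s := by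
    intro s
    have := congrFun hMx s
    rw [hM, Matrix.sub_mulVec, Matrix.smul_mulVec, Matrix.one_mulVec] at this
    simpa using this
  -- e·x = 0
  have hex : ∑ s, x s = 0 := by
    have h1 : ∑ s, y s * (μ * x s - (cx P).mulVec x s) = 0 := by
      simp only [hMx']
      rw [← hcy]
      exact Finset.sum_congr rfl fun s _ => mul_comm _ _
    have h2 : ∑ s, y s * (cx P).mulVec x s = ∑ s, (cx P).mulVec y s * x s := by
      have hsym : (cx P).transpose = cx P := by
        ext r s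
        show ((P s r : ℝ) : ℂ) = ((P r s : ℝ) : ℂ)
        rw [hPdef]
        congr 1
        exact tri_symm (fun i => 1 - ε * dg n v g i) (fun i => ε * og v g i) (s : ℕ) (r : ℕ)
      have h3 := Matrix.dotProduct_mulVec y (cx P) x
      rw [← Matrix.mulVec_transpose, hsym] at h3
      exact h3
    have h4 : ∑ s, y s * (μ * x s - (cx P).mulVec x s) =
        ∑ s, (μ * y s - (cx P).mulVec y s) * x s := by
      simp only [mul_sub, sub_mul, Finset.sum_sub_distrib]
      rw [h2]
      congr 1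
      exact Finset.sum_congr rfl fun s _ => by ring
    rw [h4] at h1
    simp only [hPy] at h1
    rw [← Finset.mul_sum] at h1
    have he' : (ε : ℂ) ≠ 0 := by exact_mod_cast he.ne'
    rcases mul_eq_zero.1 h1 with h5 | h5
    · exact absurd h5 (mul_ne_zero he' hb)
    · exact h5
  refine ⟨x, ?_, ?_⟩
  · intro h0
    rw [h0, Matrix.mulVec_zero] at hMx
    have h1 : ∑ s, (c s : ℂ) = 0 := by
      have : ∀ s, (c s : ℂ) = 0 := fun s => by
        have := congrFun hMx s
        simpa using this.symm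
      simp [this]
    have h2 : ((∑ s, c s : ℝ) : ℂ) = 0 := by push_cast; exact h1
    rw [hc1] at h2
    simp at h2
  · funext s
    rw [rk_mulVec]
    have h1 : ∀ k, (cx P).mulVec x k = μ * x k - c k := fun k => by
      rw [← hMx' k]; ring
    simp only [h1]
    rw [Finset.sum_sub_distrib, ← Finset.mul_sum, hex]
    have h2 : ∑ k, (c k : ℂ) = 1 := by
      have : ((∑ s, c s : ℝ) : ℂ) = 1 := by rw [hc1]; simp
      push_cast at this
      exact this
    rw [h2]
    simp only [Pi.smul_apply, smul_eq_mul]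
    ring

end

end Pool.Agent.Q81.Tri
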