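import Pool.Agent.Q81.Tri2

open Matrix

namespace Pool.Agent.Q81.Tri

noncomputable section

/-- site weights -/
def v (κ : ℝ) (j : ℕ) : ℝ :=
  if j = 0 then 1 / 10 ^ 12 else if j = 1 then 37 else if j = 2 then 41 else if j = 3 then 34
  else if j = 4 then 27 else if j = 5 then 19 else if j < 530 then 2 else κ

/-- resistances -/
def r (κ : ℝ) (j : ℕ) : ℝ :=
  if j = 0 then 10 ^ 18 else if j = 1 then 61 / 64000 else if j = 2 then 34 / 64000
  else if j = 3 then 22 / 64000 else if j = 4 then 14 / 64000 else if j = 5 then 32 / 64000 else κ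

/-- potential and flux along the path, for source multiplier `s` and initial value `z` -/
def st (κ : ℝ) (s z : ℂ) : ℕ → ℂ × ℂ
  | 0 => (z, s * v κ 0 - Complex.I * (v κ 0 : ℂ) ^ 2 * z)
  | j + 1 => ((st κ s z j).1 - r κ j * (st κ s z j).2,
      (st κ s z j).2 + s * v κ (j + 1) -
        Complex.I * (v κ (j + 1) : ℂ) ^ 2 * ((st κ s z j).1 - r κ j * (st κ s z j).2))

lemma st_zero (κ : ℝ) (s z : ℂ) :
    st κ s z 0 = (z, s * v κ 0 - Complex.I * (v κ 0 : ℂ) ^ 2 * z) := rfl

lemma st_succ (κ : ℝ) (s z : ℂ) (j : ℕ) :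
    st κ s z (j + 1) = ((st κ s z j).1 - r κ j * (st κ s z j).2,
      (st κ s z j).2 + s * v κ (j + 1) -
        Complex.I * (v κ (j + 1) : ℂ) ^ 2 * ((st κ s z j).1 - r κ j * (st κ s z j).2)) := rfl

lemma st_lin (κ : ℝ) (s z : ℂ) (j : ℕ) :
    (st κ s z j).1 = s * (st κ 1 0 j).1 + z * (st κ 0 1 j).1 ∧
    (st κ s z j).2 = s * (st κ 1 0 j).2 + z * (st κ 0 1 j).2 := by
  induction j with
  | zero => simp [st_zero]; ring
  | succ j ih =>
    obtain ⟨h1, h2⟩ := ih
    simp only [st_succ]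
    rw [h1, h2]
    constructor <;> ring

lemma v_cont (j : ℕ) : Continuous (fun κ : ℝ => v κ j) := by
  unfold v
  split_ifs <;> fun_prop

lemma r_cont (j : ℕ) : Continuous (fun κ : ℝ => r κ j) := by
  unfold r
  split_ifs <;> fun_prop

lemma st_cont (s z : ℂ) (j : ℕ) : Continuous (fun κ : ℝ => (st κ s z j).1) ∧
    Continuous (fun κ : ℝ => (st κ s z j).2) := by
  have hvc : ∀ j, Continuous (fun κ : ℝ => (v κ j : ℂ)) := fun j =>
    Complex.continuous_ofReal.comp (v_cont j)
  have hrc : ∀ j, Continuous (fun κ : ℝ => (r κ j : ℂ)) := fun j =>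
    Complex.continuous_ofReal.comp (r_cont j)
  induction j with
  | zero =>
    simp only [st_zero]
    exact ⟨continuous_const, ((continuous_const.mul (hvc 0)).sub
      ((continuous_const.mul ((hvc 0).pow 2)).mul continuous_const))⟩
  | succ j ih =>
    obtain ⟨h1, h2⟩ := ih
    simp only [st_succ]
    have h3 : Continuous (fun κ : ℝ => (st κ s z j).1 - (r κ j : ℂ) * (st κ s z j).2) :=
      h1.sub ((hrc j).mul h2)
    exact ⟨h3, (h2.add (continuous_const.mul (hvc (j + 1)))).sub
      ((continuous_const.mul ((hvc (j + 1)).pow 2)).mul h3)⟩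

lemma v_pos {κ : ℝ} (hκ : 0 < κ) (j : ℕ) : 0 < v κ j := by
  unfold v
  split_ifs <;> positivity

lemma r_pos {κ : ℝ} (hκ : 0 < κ) (j : ℕ) : 0 < r κ j := by
  unfold r
  split_ifs <;> positivity

/-- the path equations -/
lemma st_eq {κ : ℝ} (hκ : 0 < κ) (b z : ℂ) (n : ℕ) (hn : 2 ≤ n)
    (hend : (st κ b z (n - 1)).2 = 0) (j : ℕ) (hj : j < n) :
    Complex.I * (v κ j : ℂ) ^ 2 * (st κ b z j).1 +
      (if j + 1 < n then (((r κ j)⁻¹ : ℝ) : ℂ) * ((st κ b z j).1 - (st κ b z (j + 1)).1) else 0) +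
      (if 0 < j then (((r κ (j - 1))⁻¹ : ℝ) : ℂ) * ((st κ b z j).1 - (st κ b z (j - 1)).1) else 0)
      = b * v κ j := by
  have hr : ∀ i, (r κ i : ℂ) ≠ 0 := fun i => by exact_mod_cast (r_pos hκ i).ne'
  have hflux : ∀ i, (((r κ i)⁻¹ : ℝ) : ℂ) * ((st κ b z i).1 - (st κ b z (i + 1)).1) =
      (st κ b z i).2 := by
    intro i
    rw [st_succ]
    have := hr i
    push_cast
    field_simp
    ring
  rcases Nat.eq_zero_or_pos j with h0 | h0
  · subst h0
    have h1 : 0 + 1 < n := by omega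
    rw [if_pos h1, if_neg (lt_irrefl 0), hflux 0, st_zero]
    ring
  · obtain ⟨i, rfl⟩ : ∃ i, j = i + 1 := ⟨j - 1, by omega⟩
    have e1 : (((r κ (i + 1 - 1))⁻¹ : ℝ) : ℂ) * ((st κ b z (i + 1)).1 - (st κ b z (i + 1 - 1)).1) =
        -(st κ b z i).2 := by
      rw [← hflux i]
      simp only [Nat.add_sub_cancel]
      ring
    have e2 : (st κ b z (i + 1)).2 = (st κ b z i).2 + b * v κ (i + 1) -
        Complex.I * (v κ (i + 1) : ℂ) ^ 2 * (st κ b z (i + 1)).1 := by
      rw [st_succ]
    rw [if_pos h0, e1]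
    by_cases h1 : i + 1 + 1 < n
    · rw [if_pos h1, hflux (i + 1), e2]
      ring
    · have h2 : n - 1 = i + 1 := by omega
      rw [h2] at hend
      rw [if_neg h1]
      rw [e2] at hend
      linear_combination (-1 : ℂ) * hend

/-- values in the cluster for `κ = 0` -/
lemma st_cluster (s z : ℂ) (m : ℕ) : (st 0 s z (6 + m)).1 = (st 0 s z 6).1 ∧
    (st 0 s z (6 + m)).2 = (st 0 s z 5).2 +
      ((min (m + 1) 524 : ℕ) : ℂ) * (2 * s - 4 * Complex.I * (st 0 s z 6).1) := by
  induction m with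
  | zero =>
    refine ⟨rfl, ?_⟩
    have : st 0 s z (6 + 0) = st 0 s z (5 + 1) := rfl
    rw [this, st_succ]
    have e2 : v 0 (5 + 1) = 2 := by norm_num [v]
    rw [e2]
    norm_num
    ring
  | succ m ih =>
    obtain ⟨h1, h2⟩ := ih
    have e0 : st 0 s z (6 + (m + 1)) = st 0 s z ((6 + m) + 1) := rfl
    have er : r 0 (6 + m) = 0 := by
      unfold r
      have a0 : ¬ (6 + m = 0) := by omega
      have a1 : ¬ (6 + m = 1) := by omega
      have a2 : ¬ (6 + m = 2) := by omega
      have a3 : ¬ (6 + m = 3) := by omega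
      have a4 : ¬ (6 + m = 4) := by omega
      have a5 : ¬ (6 + m = 5) := by omega
      simp [a1, a2, a3, a4, a5]
    rw [e0, st_succ, er]
    simp only [Complex.ofReal_zero, zero_mul, sub_zero]
    refine ⟨h1, ?_⟩
    rw [h1, h2]
    by_cases hm : 6 + m + 1 < 530
    · have ev : v 0 (6 + m + 1) = 2 := by
        unfold v
        have a0 : ¬ (6 + m + 1 = 0) := by omega
        have a1 : ¬ (6 + m + 1 = 1) := by omega
        have a2 : ¬ (6 + m + 1 = 2) := by omega
        have a3 : ¬ (6 + m + 1 = 3) := by omega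
        have a4 : ¬ (6 + m + 1 = 4) := by omega
        have a5 : ¬ (6 + m + 1 = 5) := by omega
        rw [if_neg a0, if_neg a1, if_neg a2, if_neg a3, if_neg a4, if_neg a5, if_pos hm]
      have em : min (m + 1) 524 = m + 1 := min_eq_left (by omega)
      have em' : min (m + 1 + 1) 524 = m + 1 + 1 := min_eq_left (by omega)
      rw [ev, em, em']
      push_cast
      ring
    · have ev : v 0 (6 + m + 1) = 0 := by
        unfold v
        have a0 : ¬ (6 + m + 1 = 0) := by omega
        have a1 : ¬ (6 + m + 1 = 1) := by omega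
        have a2 : ¬ (6 + m + 1 = 2) := by omega
        have a3 : ¬ (6 + m + 1 = 3) := by omega
        have a4 : ¬ (6 + m + 1 = 4) := by omega
        have a5 : ¬ (6 + m + 1 = 5) := by omega
        rw [if_neg a0, if_neg a1, if_neg a2, if_neg a3, if_neg a4, if_neg a5, if_neg hm]
      have em : min (m + 1) 524 = 524 := min_eq_right (by omega)
      have em' : min (m + 1 + 1) 524 = 524 := min_eq_right (by omega)
      rw [ev, em, em']
      push_cast
      ring

lemma st_init (κ : ℝ) (s z : ℝ) {a b c d : ℝ} (h1 : z = a) (h2 : (0 : ℝ) = b)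
    (h3 : s * (1 / 10 ^ 12) = c) (h4 : -(1 / 10 ^ 12) ^ 2 * z = d) :
    st κ (s : ℂ) (z : ℂ) 0 = ((⟨a, b⟩ : ℂ), (⟨c, d⟩ : ℂ)) := by
  rw [st_zero]
  have e : v κ 0 = 1 / 10 ^ 12 := by simp [v]
  rw [e, ← h1, ← h2, ← h3, ← h4]
  generalize (1 / 10 ^ 12 : ℝ) = t
  refine Prod.ext ?_ ?_
  · apply Complex.ext <;> simp
  · apply Complex.ext
    · simp [pow_two]
    · simp [pow_two]

lemma st_step {κ s : ℝ} {z : ℂ} {j : ℕ} {p q P Q : ℝ}
    (h : st κ (s : ℂ) z j = ((⟨p, q⟩ : ℂ), (⟨P, Q⟩ : ℂ))) {v' r' p' q' P' Q' : ℝ}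
    (hv : v κ (j + 1) = v') (hr : r κ j = r') (e1 : p - r' * P = p') (e2 : q - r' * Q = q')
    (e3 : P + s * v' + v' ^ 2 * q' = P') (e4 : Q - v' ^ 2 * p' = Q') :
    st κ (s : ℂ) z (j + 1) = ((⟨p', q'⟩ : ℂ), (⟨P', Q'⟩ : ℂ)) := by
  rw [st_succ, h, hv, hr, ← e3, ← e4, ← e1, ← e2]
  have key : ((⟨p, q⟩ : ℂ) - (r' : ℂ) * ⟨P, Q⟩) = ⟨p - r' * P, q - r' * Q⟩ := by
    apply Complex.ext <;> simp
  simp only [key]
  refine Prod.ext rfl ?_
  apply Complex.ext
  · simp [pow_two]
  · simp [pow_two]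

lemma st_fst {κ : ℝ} {s z : ℂ} {j : ℕ} {p q P Q : ℝ}
    (h : st κ s z j = ((⟨p, q⟩ : ℂ), (⟨P, Q⟩ : ℂ))) {r' p' q' : ℝ}
    (hr : r κ j = r') (e1 : p - r' * P = p') (e2 : q - r' * Q = q') :
    (st κ s z (j + 1)).1 = (⟨p', q'⟩ : ℂ) := by
  rw [st_succ, h, hr, ← e1, ← e2]
  apply Complex.ext <;> simp

lemma stH0 (κ : ℝ) : st κ ((0 : ℝ) : ℂ) ((1 : ℝ) : ℂ) 0 =
    ((⟨(1), (0)⟩ : ℂ), (⟨(0), (-1 / 1000000000000000000000000)⟩ : ℂ)) := by
  exact st_init κ _ _ (by norm_num) (by norm_num) (by norm_num) (by norm_num)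

lemma stH1 (κ : ℝ) : st κ ((0 : ℝ) : ℂ) ((1 : ℝ) : ℂ) 1 =
    ((⟨(1), (1 / 1000000)⟩ : ℂ), (⟨(1369 / 1000000), (-1369000000000000000000000001 / 1000000000000000000000000)⟩ : ℂ)) := by
  exact st_step (stH0 κ) (v' := (37)) (r' := (1000000000000000000)) (by norm_num [v]) (by norm_num [r])
    (by norm_num) (by norm_num) (by norm_num) (by norm_num)

lemma stH2 (κ : ℝ) : st κ ((0 : ℝ) : ℂ) ((1 : ℝ) : ℂ) 2 =
    ((⟨(63999916491 / 64000000000), (83509064000000000000000000061 / 64000000000000000000000000000)⟩ : ℂ), (⟨(140378824200000000000000000102541 / 64000000000000000000000000000), (-3049997806583921875000000001 / 1000000000000000000000000)⟩ : ℂ)) := by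
  exact st_step (stH1 κ) (v' := (41)) (r' := (61 / 64000)) (by norm_num [v]) (by norm_num [r])
    (by norm_num) (by norm_num) (by norm_num) (by norm_num)

lemma stH3 (κ : ℝ) : st κ ((0 : ℝ) : ℂ) ((1 : ℝ) : ℂ) 3 =
    ((⟨(-338442683688000000000000001743197 / 2048000000000000000000000000000000), (37441797884770668750000000019 / 12800000000000000000000000000)⟩ : ℂ), (⟨(356792415973974465375000000212361 / 64000000000000000000000000000), (-1463788941385136000000000000008216067 / 512000000000000000000000000000000)⟩ : ℂ)) := by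
  exact st_step (stH2 κ) (v' := (34)) (r' := (17 / 32000)) (by norm_num [v]) (by norm_num [r])
    (by norm_num) (by norm_num) (by norm_num) (by norm_num)

lemma stH4 (κ : ℝ) : st κ ((0 : ℝ) : ℂ) ((1 : ℝ) : ℂ) 4 =
    ((⟨(-66611863428151861236328125063737 / 32000000000000000000000000000000), (64027179647742952000000000024410376737 / 16384000000000000000000000000000000000)⟩ : ℂ), (⟨(138014672452542075144000000072159580641273 / 16384000000000000000000000000000000000), (-686828166359172690539468749264787699 / 512000000000000000000000000000000)⟩ : ℂ)) := by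
  exact st_step (stH3 κ) (v' := (27)) (r' := (11 / 32000)) (by norm_num [v]) (by norm_num [r])
    (by norm_num) (by norm_num) (by norm_num) (by norm_num)

lemma stH5 (κ : ℝ) : st κ ((0 : ℝ) : ℂ) ((1 : ℝ) : ℂ) 5 =
    ((⟨(-2057471477574634620504000001549384072488911 / 524288000000000000000000000000000000000000), (6883497681225716083377628126926389063 / 1638400000000000000000000000000000000)⟩ : ℂ), (⟨(162864099081766910204993237610363845158703 / 16384000000000000000000000000000000000), (39435161052650262889528001312185046392496871 / 524288000000000000000000000000000000000000)⟩ : ℂ)) := by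
  exact st_step (stH4 κ) (v' := (19)) (r' := (7 / 32000)) (by norm_num [v]) (by norm_num [r])
    (by norm_num) (by norm_num) (by norm_num) (by norm_num)

lemma stH6 (κ : ℝ) : (st κ ((0 : ℝ) : ℂ) ((1 : ℝ) : ℂ) 6).1 =
    (⟨(-4663297062882905183783891803315205595028159 / 524288000000000000000000000000000000000000), (4366003354931808030472153999920703953927503129 / 1048576000000000000000000000000000000000000000)⟩ : ℂ) := by
  exact st_fst (stH5 κ) (r' := (1 / 2000)) (by norm_num [r]) (by norm_num) (by norm_num)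

lemma stP0 (κ : ℝ) : st κ ((1 : ℝ) : ℂ) ((0 : ℝ) : ℂ) 0 =
    ((⟨(0), (0)⟩ : ℂ), (⟨(1 / 1000000000000), (0)⟩ : ℂ)) := by
  exact st_init κ _ _ (by norm_num) (by norm_num) (by norm_num) (by norm_num)

lemma stP1 (κ : ℝ) : st κ ((1 : ℝ) : ℂ) ((0 : ℝ) : ℂ) 1 =
    ((⟨(-1000000), (0)⟩ : ℂ), (⟨(37000000000001 / 1000000000000), (1369000000)⟩ : ℂ)) := by
  exact st_step (stP0 κ) (v' := (37)) (r' := (1000000000000000000)) (by norm_num [v]) (by norm_num [r])
    (by norm_num) (by norm_num) (by norm_num) (by norm_num)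

lemma stP2 (κ : ℝ) : st κ ((1 : ℝ) : ℂ) ((0 : ℝ) : ℂ) 2 =
    ((⟨(-64000002257000000000061 / 64000000000000000), (-10438625 / 8)⟩ : ℂ), (⟨(-2193416000124999999999 / 1000000000000), (195200003794017000000102541 / 64000000000000000)⟩ : ℂ)) := by
  exact st_step (stP1 κ) (v' := (41)) (r' := (61 / 64000)) (by norm_num [v]) (by norm_num [r])
    (by norm_num) (by norm_num) (by norm_num) (by norm_num)

lemma stP3 (κ : ℝ) : st κ ((1 : ℝ) : ℂ) ((0 : ℝ) : ℂ) 3 =
    ((⟨(2115228349449999999981 / 12800000000000000), (-5990688064498289000001743197 / 2048000000000000000000)⟩ : ℂ), (⟨(-2854337825296005520999991783933 / 512000000000000000000), (182973983934196000000212361 / 64000000000000000)⟩ : ℂ)) := by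
  exact st_step (stP2 κ) (v' := (34)) (r' := (17 / 32000)) (by norm_num [v]) (by norm_num [r])
    (by norm_num) (by norm_num) (by norm_num) (by norm_num)

lemma stP4 (κ : ℝ) : st κ ((1 : ℝ) : ℂ) ((0 : ℝ) : ℂ) 4 =
    ((⟨(34105208365552060730975589623263 / 16384000000000000000000000), (-125053154496475703125063737 / 32000000000000000000)⟩ : ℂ), (⟨(-4312957805518898122250735212301 / 512000000000000000000), (21978642988666723727173159580641273 / 16384000000000000000000000)⟩ : ℂ)) := by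
  exact st_step (stP3 κ) (v' := (27)) (r' := (11 / 32000)) (by norm_num [v]) (by norm_num [r])
    (by norm_num) (by norm_num) (by norm_num) (by norm_num)

lemma stP5 (κ : ℝ) : st κ ((1 : ℝ) : ℂ) ((0 : ℝ) : ℂ) 5 =
    ((⟨(6429591300418434758673073610937 / 1638400000000000000000000), (-2202721384190924986091256384072488911 / 524288000000000000000000000000)⟩ : ℂ), (⟨(-5211651202582803597163696412046392496871 / 524288000000000000000000000000), (-1232181605843825751636636154841297 / 16384000000000000000000000)⟩ : ℂ)) := by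
  exact st_step (stP4 κ) (v' := (19)) (r' := (7 / 32000)) (by norm_num [v]) (by norm_num [r])
    (by norm_num) (by norm_num) (by norm_num) (by norm_num)

lemma stP6 (κ : ℝ) : (st κ ((1 : ℝ) : ℂ) ((0 : ℝ) : ℂ) 6).1 =
    (⟨(9326589634850601842714463523046072496871 / 1048576000000000000000000000000000), (-2183006478497423774065070205595028159 / 524288000000000000000000000000)⟩ : ℂ) := by
  exact st_fst (stP5 κ) (r' := (1 / 2000)) (by norm_num [r]) (by norm_num) (by norm_num)

end

end Pool.Agent.Q81.Tri
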