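import Pool.Agent.Q81.Tri3

open Matrix Filter Topology

namespace Pool.Agent.Q81.Tri

noncomputable section

/-- cross product of complex numbers -/
def cr (x y : ℂ) : ℝ := x.re * y.im - x.im * y.re

lemma cr_identity (x y z : ℂ) :
    (cr y z : ℂ) * x + (cr z x : ℂ) * y + (cr x y : ℂ) * z = 0 := by
  unfold cr
  apply Complex.ext
  · simp; ring
  · simp; ring

lemma cr_cont {X : Type*} [TopologicalSpace X] {f g : X → ℂ} (hf : Continuous f)
    (hg : Continuous g) : Continuous (fun t => cr (f t) (g t)) := by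
  unfold cr
  fun_prop

/-- the potential used -/
def FF (n : ℕ) (κ : ℝ) (j : ℕ) : ℂ :=
  (st κ 0 1 (n - 1)).2 * (st κ 1 0 j).1 - (st κ 1 0 (n - 1)).2 * (st κ 0 1 j).1

lemma FF_eq (n : ℕ) (κ : ℝ) (j : ℕ) :
    FF n κ j = (st κ (st κ 0 1 (n - 1)).2 (-(st κ 1 0 (n - 1)).2) j).1 := by
  rw [(st_lin κ _ _ j).1]
  unfold FF
  ring

lemma FF_end (n : ℕ) (κ : ℝ) :
    (st κ (st κ 0 1 (n - 1)).2 (-(st κ 1 0 (n - 1)).2) (n - 1)).2 = 0 := by
  rw [(st_lin κ _ _ (n - 1)).2]
  ring

lemma FF_cont (n j : ℕ) : Continuous (fun κ => FF n κ j) := by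
  unfold FF
  exact ((st_cont 0 1 (n - 1)).2.mul (st_cont 1 0 j).1).sub
    ((st_cont 1 0 (n - 1)).2.mul (st_cont 0 1 j).1)

lemma end_val (s z : ℂ) {n : ℕ} (hn : 530 ≤ n) : (st 0 s z (n - 1)).2 = (st 0 s z 5).2 +
    524 * (2 * s - 4 * Complex.I * (st 0 s z 6).1) := by
  obtain ⟨m, hm⟩ : ∃ m, n - 1 = 6 + m := ⟨n - 7, by omega⟩
  rw [hm, (st_cluster s z m).2]
  have : min (m + 1) 524 = 524 := min_eq_right (by omega)
  rw [this]
  norm_num

lemma B_val {n : ℕ} (hn : 530 ≤ n) : (st 0 0 1 (n - 1)).2 =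
    (⟨1223402835823134492811825124431067598599314909899 / 65536000000000000000000000000000000000000000,
      1962741160971043905620113044212171194714303627 / 104857600000000000000000000000000000000000⟩ : ℂ) := by
  rw [end_val 0 1 hn]
  have h5 := stH5 0
  have h6 := stH6 0
  simp only [Complex.ofReal_zero, Complex.ofReal_one] at h5 h6
  rw [h5, h6]
  apply Complex.ext
  · simp
    norm_num
  · simp
    norm_num

lemma A_val {n : ℕ} (hn : 530 ≤ n) : (st 0 1 0 (n - 1)).2 =
    (⟨(-1957446446411915965520816712594714303627 / 104857600000000000000000000000),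
      (-1226711968588804144402141266138400685090101 / 65536000000000000000000000000000)⟩ : ℂ) := by
  rw [end_val 1 0 hn]
  have h5 := stP5 0
  have h6 := stP6 0
  simp only [Complex.ofReal_zero, Complex.ofReal_one] at h5 h6
  rw [h5, h6]
  apply Complex.ext
  · simp
    norm_num
  · simp
    norm_num

lemma F0_val {n : ℕ} (hn : 530 ≤ n) : FF n 0 0 = 
    -(⟨(-1957446446411915965520816712594714303627 / 104857600000000000000000000000),
      (-1226711968588804144402141266138400685090101 / 65536000000000000000000000000000)⟩ : ℂ) := by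
  unfold FF
  rw [A_val hn, B_val hn, st_zero, st_zero]
  simp

lemma F1_val {n : ℕ} (hn : 530 ≤ n) : FF n 0 1 =
    (⟨1223402835823134492811825124431067598599314909899 / 65536000000000000000000000000000000000000000,
      1962741160971043905620113044212171194714303627 / 104857600000000000000000000000000000000000⟩ : ℂ) *
      ⟨-1000000, 0⟩ -
    (⟨(-1957446446411915965520816712594714303627 / 104857600000000000000000000000),
      (-1226711968588804144402141266138400685090101 / 65536000000000000000000000000000)⟩ : ℂ) *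
      ⟨1, 1 / 1000000⟩ := by
  unfold FF
  have h1 := stH1 0
  have h2 := stP1 0
  simp only [Complex.ofReal_zero, Complex.ofReal_one] at h1 h2
  rw [A_val hn, B_val hn, h1, h2]

lemma F6_val {n : ℕ} (hn : 530 ≤ n) : FF n 0 6 =
    (⟨1223402835823134492811825124431067598599314909899 / 65536000000000000000000000000000000000000000,
      1962741160971043905620113044212171194714303627 / 104857600000000000000000000000000000000000⟩ : ℂ) *
      (⟨(9326589634850601842714463523046072496871 / 1048576000000000000000000000000000), (-2183006478497423774065070205595028159 / 524288000000000000000000000000)⟩ : ℂ) -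
    (⟨(-1957446446411915965520816712594714303627 / 104857600000000000000000000000),
      (-1226711968588804144402141266138400685090101 / 65536000000000000000000000000000)⟩ : ℂ) *
      (⟨(-4663297062882905183783891803315205595028159 / 524288000000000000000000000000000000000000), (4366003354931808030472153999920703953927503129 / 1048576000000000000000000000000000000000000000)⟩ : ℂ) := by
  unfold FF
  have h1 := stH6 0
  have h2 := stP6 0
  simp only [Complex.ofReal_zero, Complex.ofReal_one] at h1 h2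
  rw [A_val hn, B_val hn, h1, h2]

lemma c06 {n : ℕ} (hn : 530 ≤ n) : cr (FF n 0 0) (FF n 0 6) < 0 := by
  rw [F0_val hn, F6_val hn]
  unfold cr
  simp only [Complex.sub_re, Complex.sub_im, Complex.mul_re, Complex.mul_im, Complex.neg_re,
    Complex.neg_im]
  norm_num

lemma c61 {n : ℕ} (hn : 530 ≤ n) : cr (FF n 0 6) (FF n 0 1) < 0 := by
  rw [F1_val hn, F6_val hn]
  unfold cr
  simp only [Complex.sub_re, Complex.sub_im, Complex.mul_re, Complex.mul_im]
  norm_num

lemma c10 {n : ℕ} (hn : 530 ≤ n) : cr (FF n 0 1) (FF n 0 0) < 0 := by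
  rw [F0_val hn, F1_val hn]
  unfold cr
  simp only [Complex.sub_re, Complex.sub_im, Complex.mul_re, Complex.mul_im, Complex.neg_re,
    Complex.neg_im]
  norm_num

lemma exists_kappa {n : ℕ} (hn : 530 ≤ n) : ∃ κ : ℝ, 0 < κ ∧ (st κ 0 1 (n - 1)).2 ≠ 0 ∧
    cr (FF n κ 0) (FF n κ 6) < 0 ∧ cr (FF n κ 6) (FF n κ 1) < 0 ∧
    cr (FF n κ 1) (FF n κ 0) < 0 := by
  have hB : (st 0 0 1 (n - 1)).2 ≠ 0 := by
    rw [B_val hn]
    intro h
    have := congrArg Complex.re h
    norm_num at this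
  have e1 : ∀ᶠ κ : ℝ in 𝓝 0, (st κ 0 1 (n - 1)).2 ≠ 0 :=
    ((st_cont 0 1 (n - 1)).2.tendsto 0).eventually_ne hB
  have e2 : ∀ᶠ κ : ℝ in 𝓝 0, cr (FF n κ 0) (FF n κ 6) < 0 :=
    ((cr_cont (FF_cont n 0) (FF_cont n 6)).tendsto 0).eventually_lt_const (c06 hn)
  have e3 : ∀ᶠ κ : ℝ in 𝓝 0, cr (FF n κ 6) (FF n κ 1) < 0 :=
    ((cr_cont (FF_cont n 6) (FF_cont n 1)).tendsto 0).eventually_lt_const (c61 hn)
  have e4 : ∀ᶠ κ : ℝ in 𝓝 0, cr (FF n κ 1) (FF n κ 0) < 0 :=
    ((cr_cont (FF_cont n 1) (FF_cont n 0)).tendsto 0).eventually_lt_const (c10 hn)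
  have e5 : ∀ᶠ κ : ℝ in 𝓝[>] 0, 0 < κ := eventually_mem_nhdsWithin
  have e6 := (((e1.and e2).and (e3.and e4)).filter_mono
    (nhdsWithin_le_nhds (s := Set.Ioi (0 : ℝ)))).and e5
  obtain ⟨κ, ⟨⟨h1, h2⟩, h3, h4⟩, h5⟩ := e6.exists
  exact ⟨κ, h5, h1, h2, h3, h4⟩

/-- For every `n ≥ 530` there is a counterexample of order `n`. -/
theorem main {n : ℕ} (hn : 530 ≤ n) :
    ∃ P : Matrix (Fin n) (Fin n) ℝ, ∃ c : Fin n → ℝ, Adm P ∧ (∀ s, 0 ≤ c s) ∧ ∑ s, c s = 1 ∧
      ∃ μ : ℂ, IsEig (cx (rk n c P)) μ ∧ 1 < ‖μ‖ := by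
  obtain ⟨κ, hκ, hB, h1, h2, h3⟩ := exists_kappa hn
  set F := FF n κ with hF
  set w : ℕ → ℝ := fun j => (if j = 0 then -cr (F 6) (F 1) else 0) +
    (if j = 1 then -cr (F 0) (F 6) else 0) + (if j = 6 then -cr (F 1) (F 0) else 0) with hw
  have hw0 : ∀ j, 0 ≤ w j := by
    intro j
    rw [hw]
    simp only
    apply add_nonneg
    · apply add_nonneg
      · split_ifs <;> linarith
      · split_ifs <;> linarith
    · split_ifs <;> linarith
  refine counter (v := v κ) (g := fun j => (r κ j)⁻¹) (by omega) (fun j _ => v_pos hκ j)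
    (fun j _ => inv_pos.2 (r_pos hκ j)) F (st κ 0 1 (n - 1)).2 hB ?_ (fun j => w j)
    (fun j => hw0 j) ⟨⟨0, by omega⟩, ?_⟩ ?_
  · intro j hj
    have h := st_eq hκ (st κ 0 1 (n - 1)).2 (-(st κ 1 0 (n - 1)).2) n (by omega) (FF_end n κ) j hj
    simp only [← FF_eq] at h
    exact h
  · show 0 < w 0
    rw [hw]
    simp
    exact h2
  · have e : ∀ j : ℕ, ((w j : ℝ) : ℂ) * F j =
        (if j = 0 then ((-cr (F 6) (F 1) : ℝ) : ℂ) * F j else 0) +
        (if j = 1 then ((-cr (F 0) (F 6) : ℝ) : ℂ) * F j else 0) +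
        (if j = 6 then ((-cr (F 1) (F 0) : ℝ) : ℂ) * F j else 0) := by
      intro j
      rw [hw]
      by_cases a0 : j = 0
      · subst a0; simp
      · by_cases a1 : j = 1
        · subst a1; simp
        · by_cases a6 : j = 6
          · subst a6; simp
          · simp [a0, a1, a6]
    have e' : ∑ j : Fin n, ((w j : ℝ) : ℂ) * F j = ∑ j : Fin n,
        ((if (j : ℕ) = 0 then ((-cr (F 6) (F 1) : ℝ) : ℂ) * F j else 0) +
        (if (j : ℕ) = 1 then ((-cr (F 0) (F 6) : ℝ) : ℂ) * F j else 0) +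
        (if (j : ℕ) = 6 then ((-cr (F 1) (F 0) : ℝ) : ℂ) * F j else 0)) :=
      Finset.sum_congr rfl fun j _ => e j
    rw [e', Finset.sum_add_distrib, Finset.sum_add_distrib,
      sum_ite_nat n 0 (fun k => ((-cr (F 6) (F 1) : ℝ) : ℂ) * F k),
      sum_ite_nat n 1 (fun k => ((-cr (F 0) (F 6) : ℝ) : ℂ) * F k),
      sum_ite_nat n 6 (fun k => ((-cr (F 1) (F 0) : ℝ) : ℂ) * F k)]
    rw [if_pos (by omega), if_pos (by omega), if_pos (by omega)]
    have h := cr_identity (F 0) (F 6) (F 1)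
    push_cast
    linear_combination (-1 : ℂ) * h

end

end Pool.Agent.Q81.Tri
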