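import Mathlib

/-!
# A functional on polynomials

`Lam a x` maps `X^k` to `x(x-1)...(x-k+1) / (a(a+1)...(a+k-1))`.
-/

namespace Q81.Un

open Polynomial Finset

variable {K : Type*} [Field K]

/-- `x(x-1)...(x-k+1) / (a(a+1)...(a+k-1))` -/
noncomputable def ev (a x : K) (k : ℕ) : K := ∏ i ∈ range k, ((x - i) / (a + i))

lemma ev_zero (a x : K) : ev a x 0 = 1 := by simp [ev]

lemma ev_succ (a x : K) (k : ℕ) : ev a x (k + 1) = ev a x k * ((x - k) / (a + k)) := by
  rw [ev, ev, prod_range_succ]

/-- the functional `X^k ↦ ev a x k` -/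
noncomputable def Lam (a x : K) : K[X] →ₗ[K] K :=
  Polynomial.lsum fun k => (ev a x k) • (LinearMap.id : K →ₗ[K] K)

lemma Lam_C_mul_X_pow (a x c : K) (k : ℕ) : Lam a x (C c * X ^ k) = c * ev a x k := by
  rw [Lam, C_mul_X_pow_eq_monomial, Polynomial.lsum_apply, Polynomial.sum_monomial_index]
  · simp [mul_comm]
  · simp

lemma Lam_X_pow (a x : K) (k : ℕ) : Lam a x (X ^ k) = ev a x k := by
  have := Lam_C_mul_X_pow a x 1 k
  simpa using this

lemma Lam_one (a x : K) : Lam a x 1 = 1 := by
  have := Lam_X_pow a x 0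
  rwa [pow_zero, ev_zero] at this

lemma Lam_C_mul (a x c : K) (p : K[X]) : Lam a x (C c * p) = c * Lam a x p := by
  rw [← smul_eq_C_mul, map_smul, smul_eq_mul]

/-- The key relation. -/
lemma Lam_key {a x : K} (ha : ∀ k : ℕ, a + k ≠ 0) (p : K[X]) :
    x * Lam a x p = Lam a x (C a * (X * p) + X * (1 + X) * derivative p) := by
  induction p using Polynomial.induction_on' with
  | add p q hp hq =>
    rw [map_add, mul_add, hp, hq, ← map_add, derivative_add]
    congr 1
    ring
  | monomial k c =>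
    rw [← C_mul_X_pow_eq_monomial, Lam_C_mul_X_pow]
    have h1 : C a * (X * (C c * X ^ k)) + X * (1 + X) * derivative (C c * X ^ k) =
        C (c * (a + k)) * X ^ (k + 1) + C (c * k) * X ^ k := by
      rw [derivative_C_mul_X_pow]
      cases k with
      | zero => simp; ring
      | succ k =>
        simp only [Nat.add_sub_cancel, map_mul, map_add, map_natCast]
        push_cast
        ring
    rw [h1, map_add, Lam_C_mul_X_pow, Lam_C_mul_X_pow, ev_succ]
    have := ha k
    field_simp
    ring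

/-- Value on `X^i (1+X)^j`. -/
lemma Lam_mixed {a x : K} (ha : ∀ k : ℕ, a + k ≠ 0) (j : ℕ) : ∀ i : ℕ,
    Lam a x (X ^ i * (1 + X) ^ j) * ∏ l ∈ range (i + j), (a + l) =
      (∏ l ∈ range i, (x - l)) * ∏ l ∈ range j, (a + x + l) := by
  induction j with
  | zero =>
    intro i
    rw [pow_zero, mul_one, Lam_X_pow, ev, prod_div_distrib, add_zero, prod_range_zero, mul_one]
    refine div_mul_cancel₀ _ ?_
    exact prod_ne_zero_iff.2 fun l _ => ha l
  | succ j ih =>
    intro i
    have h1 : (X : K[X]) ^ i * (1 + X) ^ (j + 1) =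
        X ^ i * (1 + X) ^ j + X ^ (i + 1) * (1 + X) ^ j := by ring
    have h2 := ih i
    have h3 := ih (i + 1)
    rw [show i + 1 + j = i + (j + 1) by ring, prod_range_succ (fun l => x - (l : K)) i] at h3
    have e1 : ∏ l ∈ range (i + (j + 1)), (a + (l : K)) =
        (∏ l ∈ range (i + j), (a + (l : K))) * (a + ((i + j : ℕ) : K)) := by
      rw [← add_assoc, prod_range_succ]
    rw [h1, map_add, add_mul, h3, e1, ← mul_assoc, h2, prod_range_succ (fun l => a + x + (l : K)) j]
    push_cast
    ring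

/-- adding a factor -/
lemma Lam_step (a x s : K) (q : K[X]) (i j : ℕ) :
    Lam a x (q * (X + C s) * (X ^ i * (1 + X) ^ j)) =
      (1 - s) * Lam a x (q * (X ^ (i + 1) * (1 + X) ^ j)) +
        s * Lam a x (q * (X ^ i * (1 + X) ^ (j + 1))) := by
  rw [← Lam_C_mul, ← Lam_C_mul, ← map_add]
  congr 1
  simp only [map_sub, map_one]
  ring

end Q81.Un
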