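import Pool.Agent.Q81.Un1

/-!
# The coincidence theorem for the upper half-plane
-/

namespace Q81.Un

open Polynomial Finset

lemma sum_im_neg {ι : Type*} (s : Multiset ι) (hs : s ≠ 0) (f : ι → ℂ) (hf : ∀ i ∈ s, (f i).im < 0) :
    (s.map f).sum.im < 0 := by
  induction s using Multiset.induction_on with
  | empty => exact absurd rfl hs
  | cons a s ih =>
    rw [Multiset.map_cons, Multiset.sum_cons, Complex.add_im]
    have h1 := hf a (Multiset.mem_cons_self a s)
    by_cases h0 : s = 0
    · subst h0; simpa using h1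
    · have := ih h0 fun i hi => hf i (Multiset.mem_cons_of_mem hi)
      linarith

lemma inv_im_neg {z : ℂ} (hz : 0 < z.im) : (z⁻¹).im < 0 := by
  rw [Complex.inv_im]
  have : 0 < Complex.normSq z := by
    rw [Complex.normSq_pos]; rintro rfl; simp at hz
  exact div_neg_of_neg_of_pos (by linarith) this

lemma inv_im_nonpos {z : ℂ} (hz : 0 ≤ z.im) : (z⁻¹).im ≤ 0 := by
  rw [Complex.inv_im]
  exact div_nonpos_of_nonpos_of_nonneg (by linarith) (Complex.normSq_nonneg z)

lemma inv_im_pos {z : ℂ} (hz : z.im < 0) : 0 < (z⁻¹).im := by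
  rw [Complex.inv_im]
  have : 0 < Complex.normSq z := by
    rw [Complex.normSq_pos]; rintro rfl; simp at hz
  exact div_pos (by linarith) this

/-- the polynomial with coefficients `binom(N,m) g_m` -/
noncomputable def GP (N : ℕ) (g : ℕ → ℂ) : ℂ[X] := ∑ m ∈ range (N + 1), C ((N.choose m : ℂ) * g m) * X ^ m

lemma GP_coeff (N : ℕ) (g : ℕ → ℂ) (m : ℕ) : (GP N g).coeff m = (N.choose m : ℂ) * g m := by
  rw [GP, finsetSum_coeff]
  simp only [coeff_C_mul_X_pow]
  rw [Finset.sum_ite_eq]
  split_ifs with h
  · rfl
  · rw [Finset.mem_range] at h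
    rw [Nat.choose_eq_zero_of_lt (by omega)]
    simp

lemma GP_eval (N : ℕ) (g : ℕ → ℂ) (v : ℂ) :
    (GP N g).eval v = ∑ m ∈ range (N + 1), (N.choose m : ℂ) * g m * v ^ m := by
  simp [GP, eval_finsetSum]

/-- zeros in the open lower half-plane and full degree -/
def St (N : ℕ) (g : ℕ → ℂ) : Prop := g N ≠ 0 ∧ ∀ v : ℂ, 0 ≤ v.im → (GP N g).eval v ≠ 0

lemma GP_rel (N : ℕ) (g : ℕ → ℂ) (α β : ℂ) :
    C ((N : ℂ) + 1) * GP N (fun m => α * g m + β * g (m + 1)) =
      C α * (C ((N : ℂ) + 1) * GP (N + 1) g - X * derivative (GP (N + 1) g)) +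
        C β * derivative (GP (N + 1) g) := by
  ext m
  simp only [coeff_add, coeff_C_mul, coeff_sub, coeff_derivative, GP_coeff]
  have h1 : ((N : ℂ) + 1) * (N.choose m : ℂ) = ((N + 1).choose (m + 1) : ℂ) * ((m : ℂ) + 1) := by
    have := Nat.add_one_mul_choose_eq N m
    exact_mod_cast this
  cases m with
  | zero =>
    rw [coeff_X_mul_zero]
    simp only [Nat.choose_zero_right, Nat.cast_one] at h1 ⊢
    linear_combination (β * g 1) * h1
  | succ m =>
    rw [coeff_X_mul, coeff_derivative, GP_coeff]
    have h2 : ((N : ℂ) + 1) * (N.choose (m + 1) : ℂ) =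
        ((N : ℂ) + 1 - ((m : ℂ) + 1)) * ((N + 1).choose (m + 1) : ℂ) := by
      by_cases hm : m + 1 ≤ N + 1
      · have h3 := Nat.choose_mul_succ_eq N (m + 1)
        have h4 : (((N.choose (m + 1)) * (N + 1) : ℕ) : ℂ) =
            (((N + 1).choose (m + 1) * (N + 1 - (m + 1)) : ℕ) : ℂ) := by rw [h3]
        rw [Nat.cast_mul, Nat.cast_mul, Nat.cast_sub hm] at h4
        push_cast at h4
        linear_combination h4
      · rw [Nat.choose_eq_zero_of_lt (show N < m + 1 by omega),
          Nat.choose_eq_zero_of_lt (show N + 1 < m + 1 by omega)]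
        simp
    push_cast at h1 ⊢
    linear_combination (β * g (m + 1 + 1)) * h1 + (α * g (m + 1)) * h2

/-- Laguerre's theorem on polar derivatives. -/
theorem St.step {N : ℕ} {g : ℕ → ℂ} (h : St (N + 1) g) {α β : ℝ} (hαβ : α ≠ 0 ∨ β ≠ 0) :
    St N (fun m => (α : ℂ) * g m + (β : ℂ) * g (m + 1)) := by
  obtain ⟨hlead, hz⟩ := h
  set G := GP (N + 1) g with hG
  have hN1 : ((N : ℂ) + 1) ≠ 0 := by exact_mod_cast Nat.succ_ne_zero N
  have hcoeff : G.coeff (N + 1) = g (N + 1) := by rw [hG, GP_coeff]; simp
  have hdeg : G.natDegree = N + 1 := by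
    refine natDegree_eq_of_le_of_coeff_ne_zero ?_ (by rw [hcoeff]; exact hlead)
    rw [hG, GP]
    refine natDegree_sum_le_of_forall_le _ _ fun m hm => ?_
    exact (natDegree_C_mul_X_pow_le _ _).trans (by rw [Finset.mem_range] at hm; omega)
  have hG0 : G ≠ 0 := by
    intro h0; rw [h0] at hdeg; simp at hdeg
  have hsplit : G.Splits := IsAlgClosed.splits G
  have hroots : ∀ ζ ∈ G.roots, ζ.im < 0 := by
    intro ζ hζ
    by_contra hcon
    exact hz ζ (not_lt.1 hcon) (mem_roots'.1 hζ).2
  have hcard : G.roots.card = N + 1 := by rw [← hdeg]; exact hsplit.natDegree_eq_card_roots.symm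
  have hne : G.roots ≠ 0 := by
    intro h0; rw [h0] at hcard; simp at hcard
  constructor
  · -- leading coefficient
    intro h0
    have h1 := hsplit.nextCoeff_eq_neg_sum_roots_mul_leadingCoeff
    have h2 : G.nextCoeff = ((N : ℂ) + 1) * g N := by
      rw [nextCoeff_of_natDegree_pos (by omega), hdeg, hG, GP_coeff]
      simp
    have h3 : G.leadingCoeff = g (N + 1) := by rw [leadingCoeff, hdeg, hcoeff]
    rw [h2, h3] at h1
    have h4 : ((α : ℂ) * G.roots.sum - β * ((N : ℂ) + 1)) * g (N + 1) = 0 := by
      linear_combination (-((N : ℂ) + 1)) * h0 + (α : ℂ) * h1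
    have h5 := (mul_eq_zero.1 h4).resolve_right hlead
    have h6 : G.roots.sum.im < 0 := by
      have := sum_im_neg G.roots hne id hroots
      simpa using this
    have h7 := congrArg Complex.im h5
    simp at h7
    have h8 : α = 0 := by
      rcases h7 with h7 | h7
      · exact h7
      · exact absurd h7 h6.ne
    rw [h8] at h5
    simp at h5
    rcases h5 with h5 | h5
    · rcases hαβ with h | h
      · exact h h8
      · exact h h5
    · exact hN1 h5
  · intro v hv h0
    have hGv := hz v hv
    have h1 := congrArg (fun p => p.eval v) (GP_rel N g α β)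
    simp only [eval_mul, eval_add, eval_sub, eval_C, eval_X] at h1
    rw [h0, mul_zero, ← hG] at h1
    have hlog := hsplit.eval_derivative_div_eval_of_ne_zero hGv
    set W := (G.roots.map fun w => 1 / (v - w)).sum with hW
    have hder : G.derivative.eval v = W * G.eval v := by
      rw [← hlog]; field_simp
    rw [hder] at h1
    have h2 : (α : ℂ) * ((N : ℂ) + 1) + (β - α * v) * W = 0 := by
      have : ((α : ℂ) * ((N : ℂ) + 1) + (β - α * v) * W) * G.eval v = 0 := by
        linear_combination -h1
      exact (mul_eq_zero.1 this).resolve_right hGv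
    have hWim : W.im < 0 := by
      refine sum_im_neg _ hne _ fun ζ hζ => ?_
      rw [one_div]
      exact inv_im_neg (by rw [Complex.sub_im]; linarith [hroots ζ hζ])
    have hW0 : W ≠ 0 := by intro h; rw [h] at hWim; simp at hWim
    by_cases hα : α = 0
    · rw [hα] at h2
      simp at h2
      rcases h2 with h2 | h2
      · rcases hαβ with h | h
        · exact h hα
        · exact h h2
      · exact hW0 h2
    · set t : ℝ := β / α with ht
      have hα' : (α : ℂ) ≠ 0 := by exact_mod_cast hα
      have hβ : (β : ℂ) = α * t := by rw [ht]; push_cast; field_simp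
      have h3 : ((N : ℂ) + 1) + (t - v) * W = 0 := by
        have : (α : ℂ) * (((N : ℂ) + 1) + (t - v) * W) = 0 := by
          rw [hβ] at h2; linear_combination h2
        exact (mul_eq_zero.1 this).resolve_left hα'
      have hvt : v - t ≠ 0 := by
        intro h
        have : (t : ℂ) - v = 0 := by linear_combination -h
        rw [this, zero_mul, add_zero] at h3
        exact hN1 h3
      -- the sum of V Z / (V - Z)
      have h4 : (G.roots.map fun ζ : ℂ => ((ζ - (t : ℂ))⁻¹ - (v - t)⁻¹)⁻¹).sum = 0 := by
        have h5 : (G.roots.map fun ζ : ℂ => ((ζ - (t : ℂ))⁻¹ - (v - t)⁻¹)⁻¹) =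
            G.roots.map fun ζ => (v - t) * ((v - t) * (1 / (v - ζ)) - 1) := by
          refine Multiset.map_congr rfl fun ζ hζ => ?_
          have h6 := hroots ζ hζ
          have h7 : v - ζ ≠ 0 := by
            intro h
            have := congrArg Complex.im h
            simp at this
            linarith
          have h8 : ζ - t ≠ 0 := by
            intro h
            have := congrArg Complex.im h
            simp at this
            linarith
          have h9 : (ζ - t : ℂ)⁻¹ - (v - t)⁻¹ = (v - ζ) / ((ζ - t) * (v - t)) := by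
            field_simp
            ring
          rw [h9, inv_div]
          field_simp
          ring
        rw [h5, Multiset.sum_map_mul_left, Multiset.sum_map_sub, Multiset.sum_map_mul_left, ← hW]
        simp only [Multiset.map_const', Multiset.sum_replicate, nsmul_eq_mul, mul_one, hcard]
        push_cast
        have : (v - t) * W - ((N : ℂ) + 1) = 0 := by linear_combination -h3
        rw [this, mul_zero]
      have h5 : (G.roots.map fun ζ : ℂ => ((ζ - (t : ℂ))⁻¹ - (v - t)⁻¹)⁻¹).sum.im < 0 := by
        refine sum_im_neg _ hne _ fun ζ hζ => inv_im_neg ?_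
        have h6 := hroots ζ hζ
        have h7 : 0 < ((ζ - t : ℂ)⁻¹).im := inv_im_pos (by simpa using h6)
        have h8 : ((v - t : ℂ)⁻¹).im ≤ 0 := inv_im_nonpos (by simpa using hv)
        rw [Complex.sub_im]
        linarith
      rw [h4] at h5
      simp at h5

end Q81.Un
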