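import Pool.Agent.Q81.Un2

/-!
# The numerical range of a complex Jacobi matrix
-/

namespace Q81.Un

open Polynomial Finset ComplexConjugate

lemma final_ineq {σ Z : ℂ} {t : ℝ} (ht : |t| < 1) (hσ : (σ ^ 2).im ≤ 0) (hσ' : 0 ≤ σ.im)
    (hZ : 0 < Z.im) (h : (1 - σ ^ 2) * Z = 1 + σ ^ 2 + 2 * σ * t) : ‖Z‖ ≤ 1 := by
  obtain ⟨ht1, ht2⟩ := abs_lt.1 ht
  set p := σ.re with hp
  set q := σ.im with hq
  have hs2re : (σ ^ 2).re = p ^ 2 - q ^ 2 := by rw [sq, Complex.mul_re]; ring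
  have hs2im : (σ ^ 2).im = 2 * p * q := by rw [sq, Complex.mul_im]; ring
  have hre := congrArg Complex.re h
  have him := congrArg Complex.im h
  simp only [Complex.mul_re, Complex.mul_im, Complex.sub_re, Complex.sub_im, Complex.add_re,
    Complex.add_im, Complex.one_re, Complex.one_im, Complex.ofReal_re, Complex.ofReal_im,
    hs2re, hs2im, ← hp, ← hq, Complex.re_ofNat, Complex.im_ofNat] at hre him
  set X := Z.re with hX
  set Y := Z.im with hY
  rw [hs2im] at hσ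
  rcases hσ'.eq_or_lt with hq0 | hq0
  · rw [← hq0] at hre him
    have h1 : (1 - p ^ 2) * Y = 0 := by linarith
    have h2 : p ^ 2 = 1 := by
      rcases mul_eq_zero.1 h1 with h | h
      · linarith
      · exact absurd h hZ.ne'
    have h3' : (1 - p ^ 2) * X = 1 + p ^ 2 + 2 * (p * t) := by linarith
    have h3 : p * t = -1 := by
      rw [h2] at h3'
      linarith
    have h4 : (p * t) ^ 2 = 1 := by rw [h3]; norm_num
    rw [mul_pow, h2, one_mul] at h4
    nlinarith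
  · have hp0 : p ≤ 0 := by
      by_contra hcon
      push Not at hcon
      nlinarith [mul_pos hcon hq0]
    -- imaginary part
    have h1 : ((1 - (p ^ 2 - q ^ 2)) ^ 2 + (2 * p * q) ^ 2) * Y =
        2 * q * (2 * p + t * (1 + (p ^ 2 + q ^ 2))) := by
      linear_combination (1 - (p ^ 2 - q ^ 2)) * him + (2 * p * q) * hre
    have hD : 0 < (1 - (p ^ 2 - q ^ 2)) ^ 2 + (2 * p * q) ^ 2 := by
      rcases eq_or_ne p 0 with h0 | h0
      · rw [h0]; nlinarith [sq_nonneg (1 + q ^ 2)]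
      · have : 2 * p * q ≠ 0 := mul_ne_zero (mul_ne_zero two_ne_zero h0) hq0.ne'
        positivity
    have h2 : 0 < 2 * p + t * (1 + (p ^ 2 + q ^ 2)) := by
      by_contra hcon
      push Not at hcon
      have h3 : 0 < ((1 - (p ^ 2 - q ^ 2)) ^ 2 + (2 * p * q) ^ 2) * Y := mul_pos hD hZ
      rw [h1] at h3
      nlinarith
    have h3 : ((1 - (p ^ 2 - q ^ 2)) ^ 2 + (2 * p * q) ^ 2) * (X ^ 2 + Y ^ 2) =
        (1 + (p ^ 2 - q ^ 2) + 2 * p * t) ^ 2 + (2 * p * q + 2 * q * t) ^ 2 := by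
      have e1 : (1 - (p ^ 2 - q ^ 2)) * X - (0 - 2 * p * q) * Y = 1 + (p ^ 2 - q ^ 2) + 2 * p * t := by
        linarith
      have e2 : (1 - (p ^ 2 - q ^ 2)) * Y + (0 - 2 * p * q) * X = 2 * p * q + 2 * q * t := by
        linarith
      rw [← e1, ← e2]; ring
    have h4 : (1 + (p ^ 2 - q ^ 2) + 2 * p * t) ^ 2 + (2 * p * q + 2 * q * t) ^ 2 ≤
        (1 - (p ^ 2 - q ^ 2)) ^ 2 + (2 * p * q) ^ 2 := by
      have h5 : 0 ≤ (2 * p + t * (1 + (p ^ 2 + q ^ 2))) * (-p) :=
        mul_nonneg h2.le (by linarith)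
      have h6 : t ^ 2 ≤ 1 := by nlinarith
      have h7 : t ^ 2 * (p ^ 2 + q ^ 2) ≤ 1 * (p ^ 2 + q ^ 2) := by
        apply mul_le_mul_of_nonneg_right h6; positivity
      have e : (1 + (p ^ 2 - q ^ 2) + 2 * p * t) ^ 2 + (2 * p * q + 2 * q * t) ^ 2 -
          ((1 - (p ^ 2 - q ^ 2)) ^ 2 + (2 * p * q) ^ 2) =
          4 * (t ^ 2 * (p ^ 2 + q ^ 2) - 1 * (p ^ 2 + q ^ 2) -
            (2 * p + t * (1 + (p ^ 2 + q ^ 2))) * (-p)) := by ring
      linarith
    have h5 : X ^ 2 + Y ^ 2 ≤ 1 := by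
      rw [← h3] at h4
      exact le_of_mul_le_mul_left (by linarith) hD
    have h6 : ‖Z‖ ^ 2 ≤ 1 := by
      rw [← Complex.normSq_eq_norm_sq, Complex.normSq_apply]
      nlinarith
    nlinarith [norm_nonneg Z]

/-- weights -/
noncomputable def mu (a : ℝ) (k : ℕ) : ℝ := ∏ i ∈ range k, ((a + i) / (i + 1))

lemma mu_pos {a : ℝ} (ha : 0 < a) (k : ℕ) : 0 < mu a k :=
  prod_pos fun i _ => by positivity

lemma mu_succ (a : ℝ) (k : ℕ) : mu a (k + 1) * ((k : ℝ) + 1) = mu a k * (a + k) := by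
  rw [mu, prod_range_succ, ← mu]
  have : (k : ℝ) + 1 ≠ 0 := by positivity
  field_simp

theorem num_range {a : ℝ} (ha : 0 < a) {x σ : ℂ} (t : ℕ → ℂ) (N : ℕ)
    (h0 : x * (1 - σ ^ 2) * t 0 = a * σ * t 1 + a * σ ^ 2 * t 0)
    (hrec : ∀ k : ℕ, x * (1 - σ ^ 2) * t (k + 1) = (a + k + 1) * σ * t (k + 2) +
      ((a + k + 1) * σ ^ 2 + (k + 1)) * t (k + 1) + (k + 1) * σ * t k)
    (hN : t (N + 1) = 0) (hN' : t N ≠ 0) (hx : 0 < x.im) (hσ : (σ ^ 2).im ≤ 0)
    (hσ' : 0 ≤ σ.im) : ‖x + a / 2‖ ≤ N + a / 2 := by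
  set A : ℕ → ℝ := fun k => mu a k * ‖t k‖ ^ 2 with hA
  have hA0 : ∀ k, 0 ≤ A k := fun k => mul_nonneg (mu_pos ha k).le (sq_nonneg _)
  have hAN : 0 < A N := mul_pos (mu_pos ha N) (by have := norm_pos_iff.2 hN'; positivity)
  set b : ℕ → ℂ := fun k => ((mu a k * (a + k) : ℝ) : ℂ) * (conj (t k) * t (k + 1)) with hb
  have hnorm : ∀ k, (A k : ℂ) = (mu a k : ℂ) * (conj (t k) * t k) := by
    intro k
    rw [hA]
    simp only
    rw [← Complex.normSq_eq_conj_mul_self, Complex.normSq_eq_norm_sq]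
    push_cast
    ring
  have hmu : ∀ k : ℕ, ((mu a (k + 1) : ℝ) : ℂ) * ((k : ℂ) + 1) = (mu a k : ℂ) * (a + k) := by
    intro k
    have := mu_succ a k
    exact_mod_cast congrArg (fun r : ℝ => (r : ℂ)) this
  set F : ℕ → ℂ := fun k => (x * (1 - σ ^ 2)) * A k with hF
  set G : ℕ → ℂ := fun k => σ * b k + ((a + k) * σ ^ 2 + k) * A k with hG
  have hF0 : F 0 = G 0 := by
    simp only [hF, hG, hb, hnorm]
    push_cast
    linear_combination ((mu a 0 : ℂ) * conj (t 0)) * h0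
  have hF1 : ∀ k, F (k + 1) = G (k + 1) + σ * conj (b k) := by
    intro k
    have hcb : conj (b k) = ((mu a k : ℂ) * (a + k)) * (t k * conj (t (k + 1))) := by
      simp only [hb, map_mul, Complex.conj_ofReal, Complex.conj_conj]
      push_cast
      ring
    rw [hcb, ← hmu]
    simp only [hF, hG, hb, hnorm]
    push_cast
    linear_combination ((mu a (k + 1) : ℂ) * conj (t (k + 1))) * hrec k
  have hbN : b N = 0 := by simp only [hb, hN]; ring
  have hsum : ∑ k ∈ range (N + 1), F k = ∑ k ∈ range (N + 1), G k + σ * ∑ k ∈ range N, conj (b k) := by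
    rw [sum_range_succ', sum_range_succ', hF0, mul_sum]
    have : ∑ k ∈ range N, F (k + 1) = ∑ k ∈ range N, G (k + 1) + ∑ k ∈ range N, σ * conj (b k) := by
      rw [← sum_add_distrib]; exact sum_congr rfl fun k _ => hF1 k
    rw [this]; ring
  set U : ℝ := ∑ k ∈ range (N + 1), A k with hU
  set E : ℝ := ∑ k ∈ range (N + 1), (a + 2 * k) * A k with hE
  set T : ℝ := ∑ k ∈ range N, 2 * (b k).re with hT
  have hUpos : 0 < U := by
    rw [hU, sum_range_succ]
    have : 0 ≤ ∑ k ∈ range N, A k := sum_nonneg fun k _ => hA0 k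
    linarith
  have hTc : (T : ℂ) = ∑ k ∈ range N, (b k + conj (b k)) := by
    rw [hT]; push_cast
    refine sum_congr rfl fun k _ => ?_
    rw [Complex.add_conj]
    push_cast; ring
  have hGsum : ∑ k ∈ range (N + 1), G k = σ * ∑ k ∈ range N, b k +
      ∑ k ∈ range (N + 1), ((a + k) * σ ^ 2 + k) * (A k : ℂ) := by
    simp only [hG]
    rw [sum_add_distrib, ← mul_sum, sum_range_succ, hbN, add_zero]
  have hmain : (1 - σ ^ 2) * (x + a / 2) * U = σ * T + (1 + σ ^ 2) / 2 * E := by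
    have e1 : ∑ k ∈ range (N + 1), F k = x * (1 - σ ^ 2) * U := by
      simp only [hF]; rw [← mul_sum, hU]; push_cast; rfl
    have e2 : (∑ k ∈ range (N + 1), ((a + k) * σ ^ 2 + k) * (A k : ℂ)) =
        (1 + σ ^ 2) / 2 * E - (1 - σ ^ 2) * (a / 2) * U := by
      rw [hE, hU]
      push_cast
      rw [mul_sum, mul_sum, ← sum_sub_distrib]
      exact sum_congr rfl fun k _ => by ring
    have e3 : σ * (T : ℂ) = σ * ∑ k ∈ range N, b k + σ * ∑ k ∈ range N, conj (b k) := by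
      rw [hTc, sum_add_distrib]; ring
    rw [e1, hGsum, e2] at hsum
    linear_combination hsum - e3
  -- bounds
  have hTE : |T| ≤ E - (a + N) * A N := by
    have h1 : ∀ k, |2 * (b k).re| ≤ (a + k) * A k + (k + 1) * A (k + 1) := by
      intro k
      have h2 : |(b k).re| ≤ ‖b k‖ := Complex.abs_re_le_norm _
      have h3 : ‖b k‖ = mu a k * (a + k) * (‖t k‖ * ‖t (k + 1)‖) := by
        simp only [hb, norm_mul, Complex.norm_real, Real.norm_eq_abs, RCLike.norm_conj]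
        rw [abs_of_pos (mu_pos ha k), abs_of_pos (by positivity : (0 : ℝ) < a + k)]
      have h4 : (0 : ℝ) < mu a k * (a + k) := mul_pos (mu_pos ha k) (by positivity)
      rw [abs_mul, abs_two]
      have h5 : (a + k) * A k + (k + 1) * A (k + 1) =
          mu a k * (a + k) * (‖t k‖ ^ 2 + ‖t (k + 1)‖ ^ 2) := by
        simp only [hA]
        linear_combination (‖t (k + 1)‖ ^ 2) * mu_succ a k
      rw [h5]
      have h6 : 2 * (‖t k‖ * ‖t (k + 1)‖) ≤ ‖t k‖ ^ 2 + ‖t (k + 1)‖ ^ 2 := by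
        nlinarith [sq_nonneg (‖t k‖ - ‖t (k + 1)‖)]
      nlinarith [mul_le_mul_of_nonneg_left h6 h4.le]
    have h2 : |T| ≤ ∑ k ∈ range N, ((a + k) * A k + (k + 1) * A (k + 1)) :=
      (abs_sum_le_sum_abs _ _).trans (sum_le_sum fun k _ => h1 k)
    refine h2.trans (le_of_eq ?_)
    have h3 : ∑ k ∈ range N, ((k : ℝ) + 1) * A (k + 1) = ∑ k ∈ range (N + 1), (k : ℝ) * A k := by
      rw [sum_range_succ']; push_cast; simp
    rw [sum_add_distrib, h3, hE]
    have h4 : ∑ k ∈ range (N + 1), (a + 2 * (k : ℝ)) * A k =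
        ∑ k ∈ range (N + 1), (a + (k : ℝ)) * A k + ∑ k ∈ range (N + 1), (k : ℝ) * A k := by
      rw [← sum_add_distrib]; exact sum_congr rfl fun k _ => by ring
    rw [h4, sum_range_succ (fun k : ℕ => (a + (k : ℝ)) * A k)]
    ring
  have hEU : E ≤ (a + 2 * N) * U := by
    rw [hE, hU, mul_sum]
    refine sum_le_sum fun k hk => mul_le_mul_of_nonneg_right ?_ (hA0 k)
    have : (k : ℝ) ≤ N := by
      have := mem_range.1 hk
      exact_mod_cast (by omega : k ≤ N)
    linarith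
  have hpos1 : 0 < (a + N) * A N := by positivity
  have hEpos : 0 < E := by
    have := abs_nonneg T
    linarith
  set τ : ℝ := T / E with hτ
  have hτ1 : |τ| < 1 := by
    rw [hτ, abs_div, abs_of_pos hEpos, div_lt_one hEpos]
    linarith
  set Z : ℂ := (x + a / 2) * ((2 * U / E : ℝ) : ℂ) with hZ
  have hc : 0 < 2 * U / E := by positivity
  have hZim : 0 < Z.im := by
    rw [hZ, Complex.im_mul_ofReal]
    have : (x + (a : ℂ) / 2).im = x.im := by
      rw [Complex.add_im]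
      have : ((a : ℂ) / 2).im = 0 := by
        rw [show ((a : ℂ) / 2) = ((a / 2 : ℝ) : ℂ) by push_cast; ring, Complex.ofReal_im]
      rw [this, add_zero]
    rw [this]
    positivity
  have hEc : (E : ℂ) ≠ 0 := by exact_mod_cast hEpos.ne'
  have hZeq : (1 - σ ^ 2) * Z = 1 + σ ^ 2 + 2 * σ * τ := by
    rw [hZ, hτ]
    push_cast
    field_simp
    linear_combination 2 * hmain
  have hfin := final_ineq hτ1 hσ hσ' hZim hZeq
  rw [hZ, norm_mul, Complex.norm_real, Real.norm_eq_abs, abs_of_pos hc] at hfin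
  have h7 : ‖x + a / 2‖ * (2 * U) ≤ E := by
    have : ‖x + a / 2‖ * (2 * U / E) = ‖x + a / 2‖ * (2 * U) / E := by ring
    rw [this, div_le_one hEpos] at hfin
    exact hfin
  have h8 : ‖x + a / 2‖ * (2 * U) ≤ (N + a / 2) * (2 * U) := by linarith
  exact le_of_mul_le_mul_right h8 (by positivity)

end Q81.Un
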