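import Pool.Agent.Q81.Un3

/-!
# Zeros of `P` outside the disc
-/

namespace Q81.Un

open Polynomial Finset ComplexConjugate

section rec
variable {a x v : ℂ}

/-- `Lam` on the powers of `X + v (1 + X)` -/
noncomputable def TT (a x v : ℂ) (k : ℕ) : ℂ := Lam a x ((X + C v * (1 + X)) ^ k)

lemma TT_zero : TT a x v 0 = 1 := by rw [TT, pow_zero, Lam_one]

lemma TT_rec0 (ha : ∀ k : ℕ, a + k ≠ 0) :
    a * TT a x v 1 = (x * (1 + v) + a * v) * TT a x v 0 := by
  have h := Lam_key (x := x) ha 1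
  simp only [mul_one, derivative_one, mul_zero, add_zero] at h
  rw [TT_zero, TT, pow_one]
  have e : a * Lam a x (X + C v * (1 + X)) = (1 + v) * Lam a x (C a * X) + (a * v) * Lam a x 1 := by
    rw [← Lam_C_mul, ← Lam_C_mul, ← Lam_C_mul, ← map_add]
    congr 1
    simp only [map_add, map_mul, map_one]
    ring
  rw [e, ← h, Lam_one]
  ring

lemma TT_rec (ha : ∀ k : ℕ, a + k ≠ 0) (k : ℕ) :
    (a + k + 1) * TT a x v (k + 2) =
      (x * (1 + v) + (a + k + 1) * v - (k + 1)) * TT a x v (k + 1) + (k + 1) * v * TT a x v k := by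
  have h := Lam_key (x := x) ha ((X + C v * (1 + X)) ^ (k + 1))
  have hder : derivative ((X + C v * (1 + X) : ℂ[X]) ^ (k + 1)) =
      C ((k : ℂ) + 1) * (X + C v * (1 + X)) ^ k * (1 + C v) := by
    rw [derivative_pow_succ]
    simp
  rw [hder] at h
  have e : (1 + v) * Lam a x (C a * (X * (X + C v * (1 + X)) ^ (k + 1)) +
      X * (1 + X) * (C ((k : ℂ) + 1) * (X + C v * (1 + X)) ^ k * (1 + C v))) =
      (a + k + 1) * TT a x v (k + 2) + (-(a * v) + (k + 1) * (1 - v)) * TT a x v (k + 1) -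
        (k + 1) * v * TT a x v k := by
    rw [TT, TT, TT, ← Lam_C_mul, ← Lam_C_mul, ← Lam_C_mul, ← Lam_C_mul, ← map_add, ← map_sub]
    congr 1
    simp only [map_add, map_mul, map_one, map_neg, map_sub]
    ring
  have h2 : (1 + v) * (x * TT a x v (k + 1)) = (a + k + 1) * TT a x v (k + 2) +
      (-(a * v) + (k + 1) * (1 - v)) * TT a x v (k + 1) - (k + 1) * v * TT a x v k := by
    rw [← e, ← h]; rfl
  linear_combination -h2

end rec

lemma exists_sqrt (c : ℂ) : ∃ σ : ℂ, σ ^ 2 = c ∧ 0 ≤ σ.im := by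
  obtain ⟨σ, hσ⟩ := IsAlgClosed.exists_pow_nat_eq c (n := 2) (by norm_num)
  rcases le_total 0 σ.im with h | h
  · exact ⟨σ, hσ, h⟩
  · exact ⟨-σ, by rw [neg_sq, hσ], by simpa using h⟩

lemma add_natCast_ne {a : ℝ} (ha : 0 < a) (k : ℕ) : (a : ℂ) + k ≠ 0 := by
  have : ((a + k : ℝ) : ℂ) ≠ 0 := by
    have : (0 : ℝ) < a + k := by positivity
    exact_mod_cast this.ne'
  push_cast at this
  exact this

theorem TT_ne {a : ℝ} (ha : 0 < a) {x v : ℂ} (hx : 0 < x.im) (hv : 0 ≤ v.im) {n : ℕ}
    (hxn : (n : ℝ) - 1 + a / 2 < ‖x + a / 2‖) : TT a x v n ≠ 0 := by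
  classical
  intro h0
  have ha' : ∀ k : ℕ, (a : ℂ) + k ≠ 0 := add_natCast_ne ha
  have hex : ∃ k, TT a x v k = 0 := ⟨n, h0⟩
  set m := Nat.find hex with hm
  have hm0 : TT a x v m = 0 := Nat.find_spec hex
  have hmin : ∀ k < m, TT a x v k ≠ 0 := fun k hk => Nat.find_min hex hk
  have hmn : m ≤ n := Nat.find_min' hex h0
  have hm1 : m ≠ 0 := by
    intro h; rw [h, TT_zero] at hm0; exact one_ne_zero hm0
  obtain ⟨N, hN⟩ := Nat.exists_eq_succ_of_ne_zero hm1
  rw [hN] at hm0
  have hNne : TT a x v N ≠ 0 := hmin N (by omega)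
  by_cases hv0 : v = 0
  · -- degenerate case
    cases N with
    | zero =>
      have h1 := TT_rec0 (x := x) (v := v) ha'
      rw [hm0, hv0, TT_zero] at h1
      have : x = 0 := by linear_combination -h1
      rw [this] at hx; simp at hx
    | succ N =>
      have h1 := TT_rec (x := x) (v := v) ha' N
      rw [hm0, hv0] at h1
      rw [hv0] at hNne
      have h2 : (x - (N + 1)) * TT a x 0 (N + 1) = 0 := by linear_combination -h1
      rcases mul_eq_zero.1 h2 with h3 | h3
      · have h4 := congrArg Complex.im h3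
        simp at h4
        exact hx.ne' h4
      · exact hNne h3
  · obtain ⟨σ, hσ, hσ'⟩ := exists_sqrt (-v)
    have hσ0 : σ ≠ 0 := by
      intro h; rw [h] at hσ; simp at hσ; exact hv0 hσ
    have hvσ : v = -σ ^ 2 := by rw [hσ]; ring
    have key := num_range ha (x := x) (σ := σ) (fun k => TT a x v k / σ ^ k) N ?_ ?_ ?_ ?_ hx
      (by rw [hσ]; simpa using hv) hσ'
    · have h5 : ((N : ℝ)) ≤ n - 1 := by
        have : N + 1 ≤ n := by omega
        have : ((N + 1 : ℕ) : ℝ) ≤ n := by exact_mod_cast this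
        push_cast at this
        linarith
      linarith
    · have h1 := TT_rec0 (x := x) (v := v) ha'
      simp only [pow_zero, pow_one, div_one]
      rw [hvσ] at h1 ⊢
      field_simp
      linear_combination -h1
    · intro k
      have h1 := TT_rec (x := x) (v := v) ha' k
      rw [hvσ] at h1 ⊢
      have e1 : σ ^ (k + 1) = σ ^ k * σ := pow_succ _ _
      have e2 : σ ^ (k + 2) = σ ^ k * σ ^ 2 := by ring
      have hk : σ ^ k ≠ 0 := pow_ne_zero _ hσ0
      rw [e1, e2]
      field_simp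
      linear_combination -h1
    · show TT a x v (N + 1) / σ ^ (N + 1) = 0
      rw [show TT (↑a) x v (N + 1) = 0 from hm0, zero_div]
    · exact div_ne_zero hNne (pow_ne_zero _ hσ0)

/-- stability of `q` with respect to `N` more factors -/
def Sta (a x : ℂ) (q : ℂ[X]) (N : ℕ) : Prop :=
  St N fun m => Lam a x (q * (X ^ (N - m) * (1 + X) ^ m))

lemma GP_Lam (a x : ℂ) (q : ℂ[X]) (N : ℕ) (v : ℂ) :
    (GP N fun m => Lam a x (q * (X ^ (N - m) * (1 + X) ^ m))).eval v =
      Lam a x (q * (X + C v * (1 + X)) ^ N) := by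
  rw [GP_eval, add_comm (X : ℂ[X]) (C v * (1 + X)), add_pow, mul_sum, map_sum]
  refine sum_congr rfl fun m _ => ?_
  have : q * ((C v * (1 + X)) ^ m * X ^ (N - m) * (N.choose m : ℂ[X])) =
      C ((N.choose m : ℂ) * v ^ m) * (q * (X ^ (N - m) * (1 + X) ^ m)) := by
    rw [mul_pow, map_mul, map_pow, map_natCast]; ring
  rw [this, Lam_C_mul]
  ring

lemma Sta.step {a x : ℂ} {q : ℂ[X]} {N : ℕ} (h : Sta a x q (N + 1)) (s : ℝ) :
    Sta a x (q * (X + C (s : ℂ))) N := by
  have h1 := St.step h (α := 1 - s) (β := s) (by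
    by_cases hs : s = 0
    · left; rw [hs]; norm_num
    · right; exact hs)
  have h2 : ∀ m ≤ N, (((1 - s : ℝ) : ℂ) * Lam a x (q * (X ^ (N + 1 - m) * (1 + X) ^ m)) +
      (s : ℂ) * Lam a x (q * (X ^ (N + 1 - (m + 1)) * (1 + X) ^ (m + 1)))) =
      Lam a x (q * (X + C (s : ℂ)) * (X ^ (N - m) * (1 + X) ^ m)) := by
    intro m hm
    rw [Lam_step, show N - m + 1 = N + 1 - m by omega, show N + 1 - (m + 1) = N - m by omega]
    push_cast
    ring
  obtain ⟨h3, h4⟩ := h1
  refine ⟨?_, fun v hv => ?_⟩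
  · intro h6
    apply h3
    show ((1 - s : ℝ) : ℂ) * Lam a x (q * (X ^ (N + 1 - N) * (1 + X) ^ N)) +
      (s : ℂ) * Lam a x (q * (X ^ (N + 1 - (N + 1)) * (1 + X) ^ (N + 1))) = 0
    rw [h2 N le_rfl]
    exact h6
  · have h5 := h4 v hv
    rw [GP_eval] at h5 ⊢
    rw [Finset.sum_congr rfl fun m hm => ?_] at h5
    · exact h5
    · rw [h2 m (by have := mem_range.1 hm; omega)]

theorem Sta_base {a : ℝ} (ha : 0 < a) {x : ℂ} (hx : 0 < x.im) {n : ℕ}
    (hxn : (n : ℝ) - 1 + a / 2 < ‖x + a / 2‖) : Sta a x 1 n := by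
  refine ⟨?_, fun v hv => ?_⟩
  · simp only [Nat.sub_self, pow_zero, one_mul]
    intro h0
    have h1 := Lam_mixed (a := (a : ℂ)) (x := x) (add_natCast_ne ha) n 0
    rw [pow_zero, one_mul, h0, zero_mul, prod_range_zero, one_mul] at h1
    have h2 := (prod_eq_zero_iff.1 h1.symm)
    obtain ⟨l, -, hl⟩ := h2
    have h3 := congrArg Complex.im hl
    simp at h3
    exact hx.ne' h3
  · rw [GP_Lam, one_mul]
    exact TT_ne ha hx hv hxn

lemma Sta_multiset {a x : ℂ} (S : Multiset ℝ) : ∀ {q : ℂ[X]} {N : ℕ}, Sta a x q (N + S.card) →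
    Sta a x (q * (S.map fun s : ℝ => (X + C (s : ℂ) : ℂ[X])).prod) N := by
  induction S using Multiset.induction_on with
  | empty => intro q N h; simpa using h
  | cons s S ih =>
    intro q N h
    rw [Multiset.card_cons, ← add_assoc] at h
    have h1 := ih (q := q * (X + C (s : ℂ))) (N := N) (by
      have := Sta.step (N := N + S.card) (by simpa using h) s
      exact this)
    rw [Multiset.map_cons, Multiset.prod_cons, ← mul_assoc]
    exact h1

/-- Nonvanishing off the real axis. -/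
theorem Lam_prod_ne {a : ℝ} (ha : 0 < a) {x : ℂ} (hx : 0 < x.im) {S : Multiset ℝ}
    (hxn : (S.card : ℝ) - 1 + a / 2 < ‖x + a / 2‖) :
    Lam (a : ℂ) x (S.map fun s : ℝ => (X + C (s : ℂ) : ℂ[X])).prod ≠ 0 := by
  have h1 := Sta_multiset (a := (a : ℂ)) (x := x) S (q := 1) (N := 0)
    (by rw [zero_add]; exact Sta_base ha hx hxn)
  have h2 := h1.1
  simpa using h2

/-- Positivity on the positive axis. -/
lemma Lam_pos {a x : ℝ} (ha : 0 < a) (S : Multiset ℝ) (hS : ∀ s ∈ S, 0 ≤ s ∧ s ≤ 1) :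
    ∀ i j : ℕ, ((S.card + i + j : ℕ) : ℝ) - 1 < x →
    0 < Lam a x ((S.map fun s => X + C s).prod * (X ^ i * (1 + X) ^ j)) := by
  induction S using Multiset.induction_on with
  | empty =>
    intro i j hx
    rw [Multiset.map_zero, Multiset.prod_zero, one_mul]
    have h1 := Lam_mixed (a := a) (x := x) (fun k => by positivity) j i
    have h2 : 0 < ∏ l ∈ range (i + j), (a + (l : ℝ)) := prod_pos fun l _ => by positivity
    have h3 : 0 < ∏ l ∈ range i, (x - (l : ℝ)) := by
      refine prod_pos fun l hl => ?_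
      have h4 : l + 1 ≤ Multiset.card (0 : Multiset ℝ) + i + j := by
        have := mem_range.1 hl
        simp
        omega
      have h5 : ((l + 1 : ℕ) : ℝ) ≤ ((Multiset.card (0 : Multiset ℝ) + i + j : ℕ) : ℝ) := by
        exact_mod_cast h4
      push_cast at h5 hx
      linarith
    have h6 : 0 < ∏ l ∈ range j, (a + x + (l : ℝ)) := by
      refine prod_pos fun l hl => ?_
      have h4 : 1 ≤ Multiset.card (0 : Multiset ℝ) + i + j := by
        have := mem_range.1 hl
        omega
      have h5 : (1 : ℝ) ≤ ((Multiset.card (0 : Multiset ℝ) + i + j : ℕ) : ℝ) := by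
        exact_mod_cast h4
      have : (0 : ℝ) ≤ l := Nat.cast_nonneg l
      linarith
    by_contra hcon
    push Not at hcon
    have h7 : Lam a x (X ^ i * (1 + X) ^ j) * ∏ l ∈ range (i + j), (a + (l : ℝ)) ≤ 0 :=
      mul_nonpos_of_nonpos_of_nonneg hcon h2.le
    rw [h1] at h7
    exact absurd (mul_pos h3 h6) (not_lt.2 h7)
  | cons s S ih =>
    intro i j hx
    have hs := hS s (Multiset.mem_cons_self s S)
    have ih' := ih fun s' hs' => hS s' (Multiset.mem_cons_of_mem hs')
    rw [Multiset.map_cons, Multiset.prod_cons, mul_comm (X + C s), Lam_step]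
    rw [Multiset.card_cons] at hx
    have h1 := ih' (i + 1) j (by convert hx using 3; ring)
    have h2 := ih' i (j + 1) (by convert hx using 3; ring)
    rcases eq_or_lt_of_le hs.1 with h | h
    · rw [← h]; simpa using h1
    · have : 0 ≤ 1 - s := by linarith [hs.2]
      have := mul_nonneg this h1.le
      have := mul_pos h h2
      linarith

/-- Alternation on the negative axis. -/
lemma Lam_neg {a x : ℝ} (ha : 0 < a) (S : Multiset ℝ) (hS : ∀ s ∈ S, 0 ≤ s ∧ s ≤ 1) :
    ∀ i j : ℕ, x < -(a + ((S.card + i + j : ℕ) : ℝ) - 1) → 1 ≤ S.card + i + j →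
    0 < (-1) ^ (S.card + i + j) * Lam a x ((S.map fun s => X + C s).prod * (X ^ i * (1 + X) ^ j)) := by
  induction S using Multiset.induction_on with
  | empty =>
    intro i j hx hcard
    rw [Multiset.map_zero, Multiset.prod_zero, one_mul]
    simp only [Multiset.card_zero, zero_add] at hx hcard ⊢
    have h1 := Lam_mixed (a := a) (x := x) (fun k => by positivity) j i
    have h2 : 0 < ∏ l ∈ range (i + j), (a + (l : ℝ)) := prod_pos fun l _ => by positivity
    have hc1 : (1 : ℝ) ≤ ((i + j : ℕ) : ℝ) := by exact_mod_cast hcard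
    have h3 : 0 < ∏ l ∈ range i, (-(x - (l : ℝ))) := by
      refine prod_pos fun l hl => ?_
      have : (0 : ℝ) ≤ l := Nat.cast_nonneg l
      linarith
    have h6 : 0 < ∏ l ∈ range j, (-(a + x + (l : ℝ))) := by
      refine prod_pos fun l hl => ?_
      have h4 : l + 1 ≤ i + j := by
        have := mem_range.1 hl
        omega
      have h5 : ((l + 1 : ℕ) : ℝ) ≤ ((i + j : ℕ) : ℝ) := by exact_mod_cast h4
      push_cast at h5 hx
      linarith
    rw [prod_neg, card_range] at h3 h6
    have h7 : 0 < ((-1) ^ (i + j) * Lam a x (X ^ i * (1 + X) ^ j)) *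
        ∏ l ∈ range (i + j), (a + (l : ℝ)) := by
      have := mul_pos h3 h6
      rw [mul_assoc, h1, pow_add]
      linarith
    by_contra hcon
    push Not at hcon
    exact absurd h7 (not_lt.2 (mul_nonpos_of_nonpos_of_nonneg hcon h2.le))
  | cons s S ih =>
    intro i j hx hcard
    have hs := hS s (Multiset.mem_cons_self s S)
    have ih' := ih fun s' hs' => hS s' (Multiset.mem_cons_of_mem hs')
    rw [Multiset.map_cons, Multiset.prod_cons, mul_comm (X + C s), Lam_step]
    rw [Multiset.card_cons] at hx hcard ⊢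
    have e1 : S.card + (i + 1) + j = S.card + 1 + i + j := by ring
    have e2 : S.card + i + (j + 1) = S.card + 1 + i + j := by ring
    have h1 := ih' (i + 1) j (by rw [e1]; exact hx) (by omega)
    have h2 := ih' i (j + 1) (by rw [e2]; exact hx) (by omega)
    rw [e1] at h1
    rw [e2] at h2
    rcases eq_or_lt_of_le hs.1 with h | h
    · rw [← h]; simpa using h1
    · have : 0 ≤ 1 - s := by linarith [hs.2]
      have := mul_nonneg this h1.le
      have := mul_pos h h2
      linarith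

end Q81.Un
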